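import Pool.Agent.MP_51db15_ag.Qh.Spec

/-! The slopes of the indecomposable summands. -/

namespace Pool.Agent.MP_51db15_ag.Qh

namespace ALGx

variable {R W κ : Type} [Ring R] [Algebra ℂ R] [Field W] [Algebra ℂ W] [Fintype κ]
  [DecidableEq κ] {A : Subalgebra ℂ R} {Δ : R →ₗ[ℂ] R} {δ : κ → R →ₗ[ℂ] R} {st : R →ₗ[ℂ] R}
  {τ : R →ₗ[ℂ] W} {p : κ × Bool → R}

/-- homogeneous maps between two summands -/
structure Hom (A : Subalgebra ℂ R) (Δ : R →ₗ[ℂ] R) (p : κ × Bool → R) (u v : κ × Bool) (w : ℂ)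
    (a : R) : Prop where
  m : a ∈ A
  l : p v * a = a
  r : a * p u = a
  d : Δ a = w • a

/-- homogeneous isomorphisms -/
structure Iso (A : Subalgebra ℂ R) (Δ : R →ₗ[ℂ] R) (p : κ × Bool → R) (u v : κ × Bool) (w : ℂ)
    (a a' : R) : Prop where
  f : Hom A Δ p u v w a
  g : Hom A Δ p v u (-w) a'
  gf : a' * a = p u
  fg : a * a' = p v

variable (h : Alg A Δ δ st τ p)
include h

theorem dmul (a b : R) : Δ (a * b) = Δ a * b + a * Δ b := by
  simp only [h.sum, h.leib, Finset.sum_add_distrib, Finset.sum_mul, Finset.mul_sum]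

theorem wmul {a b : R} {w w' : ℂ} (ha : Δ a = w • a) (hb : Δ b = w' • b) :
    Δ (a * b) = (w + w') • (a * b) := by
  rw [dmul h, ha, hb, add_smul, smul_mul_assoc, mul_smul_comm]

theorem pp' (u : κ × Bool) : p u * p u = p u := by simpa using h.po u u

theorem pd' (u : κ × Bool) : Δ (p u) = (0 : ℂ) • p u := by rw [h.pd, zero_smul]

theorem wd {a : R} {w : ℂ} (ha : Δ a = w • a) (j : κ) : Δ (δ j a) = w • δ j a := by
  rw [h.com, ha, map_smul]

theorem wst {a : R} {w : ℂ} (ha : Δ a = w • a) : Δ (st a) = w • st a := by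
  rw [h.sum, ← map_smul, ← ha, h.sum, map_sum]
  exact Finset.sum_congr rfl fun j _ => (h.sd j a).symm

theorem tne (u : κ × Bool) : τ (p u) ≠ 0 := by
  have : CharZero W := charZero_of_injective_algebraMap (algebraMap ℂ W).injective
  obtain ⟨n, hn, e⟩ := h.tp u
  rw [e]
  exact Nat.cast_ne_zero.2 hn

theorem pne (u : κ × Bool) : p u ≠ 0 := fun e => tne h u (by rw [e, map_zero])

theorem tinj (u : κ × Bool) {c c' : ℂ} (e : c • τ (p u) = c' • τ (p u)) : c = c' :=
  smul_left_injective ℂ (tne h u) e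

theorem mk' (u v : κ × Bool) {w : ℂ} {a : R} (ha : a ∈ A) (hd : Δ a = w • a) :
    Hom A Δ p u v w (p v * a * p u) :=
  ⟨mul_mem (mul_mem (h.pm v) ha) (h.pm u), by rw [← mul_assoc, ← mul_assoc, pp' h],
    by rw [mul_assoc, pp' h], by simpa using wmul h (wmul h (pd' h v) hd) (pd' h u)⟩

theorem Hom.comp {u v z : κ × Bool} {w w' : ℂ} {a c : R} (ha : Hom A Δ p u v w a)
    (hc : Hom A Δ p v z w' c) : Hom A Δ p u z (w' + w) (c * a) :=
  ⟨mul_mem hc.m ha.m, by rw [← mul_assoc, hc.l], by rw [mul_assoc, ha.r], wmul h hc.d ha.d⟩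

theorem Hom.adj {u v : κ × Bool} {w : ℂ} {a : R} (ha : Hom A Δ p u v w a) :
    Hom A Δ p (v.1, !v.2) (u.1, !u.2) w (st a) :=
  ⟨h.sm a ha.m, by rw [← h.sp, ← h.smul, ha.r], by rw [← h.sp, ← h.smul, ha.l], wst h ha.d⟩

theorem locn {u : κ × Bool} {z : R} (hz : Hom A Δ p u u 0 z) :
    ∃ c : ℂ, IsNilpotent (z - c • p u) ∧ τ z = c • τ (p u) := by
  obtain ⟨c, hc⟩ := h.loc u z hz.m (by simpa using hz.d)
  rw [hz.l, hz.r] at hc
  refine ⟨c, hc, ?_⟩
  have := h.tn _ hc
  rwa [map_sub, map_smul, sub_eq_zero] at this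

theorem cst {z : R} (hz : z ∈ A) (hd : Δ z = (0 : ℂ) • z) : ∃ c : ℂ, τ z = algebraMap ℂ W c := by
  have h1 : ∀ u, ∃ c : ℂ, τ (z * p u) = algebraMap ℂ W c := fun u => by
    obtain ⟨c, -, e⟩ := locn h (mk' h u u hz hd)
    obtain ⟨n, -, e'⟩ := h.tp u
    refine ⟨c * n, ?_⟩
    rw [mul_assoc, h.tc, mul_assoc, pp' h, e'] at e
    rw [e, map_mul, map_natCast, Algebra.smul_def]
  choose c hc using h1
  refine ⟨∑ u, c u, ?_⟩
  rw [map_sum, ← mul_one z, ← h.ps, Finset.mul_sum, map_sum]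
  exact Finset.sum_congr rfl fun u _ => hc u

theorem inv {u : κ × Bool} {z : R} (hz : Hom A Δ p u u 0 z) {c : ℂ} (hc : c ≠ 0)
    (hn : IsNilpotent (z - c • p u)) :
    ∃ q, Hom A Δ p u u 0 q ∧ q * z = p u ∧ z * q = p u := by
  obtain ⟨N, hN⟩ := hn
  set m : R := (-c⁻¹) • (z - c • p u) with hm
  have m0 : m ^ N = 0 := by rw [hm, smul_pow, hN, smul_zero]
  have mA : m ∈ A := A.smul_mem (sub_mem hz.m (A.smul_mem (h.pm u) c)) _
  have md : Δ m = (0 : ℂ) • m := by
    rw [hm, map_smul, map_sub, map_smul, hz.d, h.pd]; simp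
  have ml : p u * m = m := by rw [hm, mul_smul_comm, mul_sub, mul_smul_comm, hz.l, pp' h]
  have mr : m * p u = m := by rw [hm, smul_mul_assoc, sub_mul, smul_mul_assoc, hz.r, pp' h]
  have hzm : z = c • (p u * (1 - m)) := by
    rw [mul_sub, mul_one, ml, hm, smul_sub c, smul_smul, mul_neg, mul_inv_cancel₀ hc]; simp
  have hzm' : z = c • ((1 - m) * p u) := by
    rw [sub_mul, one_mul, mr, hm, smul_sub c, smul_smul, mul_neg, mul_inv_cancel₀ hc]; simp
  set g : R := ∑ i ∈ Finset.range N, m ^ i with hg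
  have g1 : g * (1 - m) = 1 := by rw [hg, geom_sum_mul_neg, m0, sub_zero]
  have g2 : (1 - m) * g = 1 := by rw [hg, mul_neg_geom_sum, m0, sub_zero]
  have gA : g ∈ A := sum_mem fun i _ => pow_mem mA i
  have d1 : Δ (1 : R) = 0 := by
    have := dmul h 1 1
    simpa using this
  have gd : Δ g = (0 : ℂ) • g := by
    rw [hg, map_sum, zero_smul]
    refine Finset.sum_eq_zero fun i hi => ?_
    clear hi
    induction i with
    | zero => simpa using d1
    | succ i ih => rw [pow_succ, dmul h, ih, md]; simp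
  have hq := mk' h u u (A.smul_mem gA c⁻¹) (w := 0) (by rw [map_smul, gd]; simp)
  refine ⟨_, hq, ?_, ?_⟩
  · rw [mul_assoc, hz.l, hzm', mul_smul_comm, mul_smul_comm, smul_mul_assoc, smul_smul,
      mul_inv_cancel₀ hc, one_smul, mul_assoc, ← mul_assoc g, g1, one_mul, pp' h]
  · rw [← mul_assoc, ← mul_assoc, hz.r, hzm, mul_smul_comm, smul_mul_assoc c, smul_smul,
      inv_mul_cancel₀ hc, one_smul, mul_assoc (p u), g2, mul_one, pp' h]

theorem nil_ne {u : κ × Bool} {n q : R} (hn : IsNilpotent n) (e : q * n = p u)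
    (e' : p u * n = n) : False := by
  obtain ⟨N, hN⟩ := hn
  have h1 : ∀ k : ℕ, q ^ (k + 1) * n ^ (k + 1) = p u := fun k => by
    induction k with
    | zero => simpa using e
    | succ k ih => rw [pow_succ' q, pow_succ n, mul_assoc, ← mul_assoc (q ^ _), ih, e', e]
  exact pne h u (by rw [← h1 N, pow_succ n, hN]; simp)

theorem l1 {u : κ × Bool} {n z : R} (hn : Hom A Δ p u u 0 n) (hz : Hom A Δ p u u 0 z)
    (h0 : IsNilpotent n) : τ (z * n) = 0 := by
  have h1 : Hom A Δ p u u 0 (z * n) := by simpa using hn.comp h hz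
  obtain ⟨c, h2, h3⟩ := locn h h1
  by_cases hc : c = 0
  · rw [h3, hc, zero_smul]
  obtain ⟨q, -, e, -⟩ := inv h h1 hc h2
  exact (nil_ne h h0 (by rw [mul_assoc, e]) hn.l).elim

theorem lin {u v : κ × Bool} {w : ℂ} {a b : R} (ha : Hom A Δ p u v w a)
    (hb : Hom A Δ p v u (-w) b) {j : κ} (hu : u.1 ≠ j) (hv : v.1 ≠ j) : τ (b * δ j a) = 0 := by
  obtain ⟨c, hc⟩ := cst h (mul_mem hb.m (h.dm j a ha.m))
    (by simpa using wmul h hb.d (wd h ha.d j))
  rw [hc, h.lin1 j v u hv hu a ha.m b hb.m (by rw [ha.l, ha.r]) (by rw [hb.l, hb.r]) c hc,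
    map_zero]

theorem one {u v : κ × Bool} {w : ℂ} {a b : R} (ha : Hom A Δ p u v w a)
    (hb : Hom A Δ p v u (-w) b) (e : u.1 = v.1) : τ (b * δ u.1 a) = w • τ (b * a) := by
  have h1 : ∑ j, τ (b * δ j a) = w • τ (b * a) := by
    rw [← map_sum, ← Finset.mul_sum, ← h.sum, ha.d, mul_smul_comm, map_smul]
  rw [← h1, Finset.sum_eq_single u.1 (fun j _ hj => lin h ha hb hj.symm (e ▸ hj.symm)) (by simp)]

theorem l2 {u : κ × Bool} {z z' : R} (hz : Hom A Δ p u u 0 z) (hz' : Hom A Δ p u u 0 z')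
    (j : κ) : τ (z' * δ j z) = 0 := by
  have hz2 : Hom A Δ p u u (-0) z' := by simpa using hz'
  by_cases hj : u.1 = j
  · rw [← hj, one h hz hz2 rfl, zero_smul]
  · exact lin h hz hz2 hj hj

theorem iso_of {u v : κ × Bool} {w : ℂ} {a b : R} (ha : Hom A Δ p u v w a)
    (hb : Hom A Δ p v u (-w) b) (h0 : τ (b * a) ≠ 0) : ∃ a', Iso A Δ p u v w a a' := by
  have h1 : Hom A Δ p u u 0 (b * a) := by simpa using ha.comp h hb
  obtain ⟨c, h2, h3⟩ := locn h h1
  have hc : c ≠ 0 := fun e => h0 (by rw [h3, e, zero_smul])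
  obtain ⟨q, hq, e, -⟩ := inv h h1 hc h2
  have h4 : Hom A Δ p v u (-w) (q * b) := by simpa using hb.comp h hq
  have e1 : q * b * a = p u := by rw [mul_assoc, e]
  have h5 : Hom A Δ p v v 0 (a * (q * b)) := by simpa using h4.comp h ha
  obtain ⟨c', h6, h7⟩ := locn h h5
  have hc' : c' ≠ 0 := fun e' => tne h u (by rw [← e1, h.tc, h7, e', zero_smul])
  obtain ⟨q', -, e2, -⟩ := inv h h5 hc' h6
  refine ⟨q * b, ha, h4, e1, ?_⟩
  have e3 : a * (q * b) * (a * (q * b)) = a * (q * b) := by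
    rw [mul_assoc, ← mul_assoc (q * b), e1, h4.l]
  rw [← h5.l, ← e2, mul_assoc, e3]

theorem diag {u v : κ × Bool} {w θ : ℂ} {j : κ}
    (H : ∀ a a', Iso A Δ p u v w a a' → τ (a' * δ j a) = θ • τ (p u)) {a b : R}
    (ha : Hom A Δ p u v w a) (hb : Hom A Δ p v u (-w) b) : τ (b * δ j a) = θ • τ (b * a) := by
  by_cases hi : ∃ a a', Iso A Δ p u v w a a'
  · obtain ⟨a0, a1, hI⟩ := hi
    have z1 : Hom A Δ p u u 0 (a1 * a) := by simpa using ha.comp h hI.g
    have z2 : Hom A Δ p u u 0 (b * a0) := by simpa using hI.f.comp h hb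
    have z3 : Hom A Δ p u u 0 (a1 * a * (b * a0)) := by simpa using z2.comp h z1
    have z4 : Hom A Δ p u u 0 (p u * (a1 * δ j a0) * p u) :=
      mk' h u u (mul_mem hI.g.m (h.dm j _ hI.f.m)) (by simpa using wmul h hI.g.d (wd h hI.f.d j))
    obtain ⟨c, n1, n2⟩ := locn h z4
    have hc : c = θ := tinj h u (by
      rw [← n2, ← H _ _ hI, h.tc, ← mul_assoc, pp' h, ← mul_assoc, hI.g.l])
    have z5 : Hom A Δ p u u 0 (p u * (a1 * δ j a0) * p u - c • p u) :=
      ⟨sub_mem z4.m (A.smul_mem (h.pm u) c), by rw [mul_sub, z4.l, mul_smul_comm, pp' h],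
        by rw [sub_mul, z4.r, smul_mul_assoc, pp' h], by rw [map_sub, z4.d, map_smul, h.pd]; simp⟩
    have e1 := l1 h z5 z3 n1
    have ea : a0 * (a1 * a) = a := by rw [← mul_assoc, hI.fg, ha.l]
    have e2 : τ (a1 * a * (b * a0)) = τ (b * a) := by rw [h.tc, mul_assoc, ea]
    rw [mul_sub, mul_smul_comm, z3.r, map_sub, map_smul, sub_eq_zero, e2, hc] at e1
    rw [← e1]
    conv_lhs => rw [← ea, h.leib, mul_add, map_add, ← mul_assoc b a0, l2 h z1 z2, add_zero,
      ← mul_assoc, h.tc, ← z1.l, mul_assoc (p u), h.tc]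
    congr 1
    have e3 : a0 * (p u * a1) = p v := by rw [hI.g.l, hI.fg]
    calc a1 * a * (b * δ j a0) * p u = a1 * a * (b * (a0 * (p u * a1)) * δ j a0) * p u := by
          rw [e3, hb.r]
      _ = _ := by simp only [mul_assoc]
  · have h0 : ∀ a, Hom A Δ p u v w a → τ (b * a) = 0 := fun a ha => by
      by_contra h0
      obtain ⟨a', h1⟩ := iso_of h ha hb h0
      exact hi ⟨a, a', h1⟩
    have := h0 _ (mk' h u v (h.dm j a ha.m) (wd h ha.d j))
    rw [← mul_assoc, ← mul_assoc, hb.r, h.tc, ← mul_assoc, hb.l] at this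
    rw [this, h0 a ha, smul_zero]

theorem off (j l : κ) {θ : R} (hθ : θ ∈ A) (hd : Δ θ = (0 : ℂ) • θ) :
    τ (θ * δ j (p (l, false)) * p (l, false)) = 0 := by
  have h1 : ∀ i j, i ≠ j → τ (θ * p (i, false) * δ j (p (l, false)) * p (l, false)) = 0 := by
    intro i j hij
    obtain ⟨c, hc⟩ := cst h (mul_mem (mul_mem (mul_mem hθ (h.pm (i, false)))
      (h.dm j _ (h.pm (l, false)))) (h.pm (l, false)))
      (by simpa using wmul h (wmul h (wmul h hd (pd' h (i, false))) (wd h (pd' h (l, false)) j))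
            (pd' h (l, false)))
    rw [hc, h.lin2 i j l hij θ hθ c hc, map_zero]
  rw [← mul_one θ, ← h.ps, Finset.mul_sum, Finset.sum_mul, Finset.sum_mul, map_sum]
  refine Finset.sum_eq_zero fun u _ => ?_
  obtain ⟨i, b⟩ := u
  cases b
  · by_cases hij : i = j
    · subst hij
      have h2 : ∑ j, τ (θ * p (i, false) * δ j (p (l, false)) * p (l, false)) = 0 := by
        rw [← map_sum, ← Finset.sum_mul, ← Finset.mul_sum, ← h.sum, h.pd]; simp
      rwa [Finset.sum_eq_single i (fun j _ hj => h1 i j hj.symm) (by simp)] at h2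
    · exact h1 i j hij
  · rw [mul_assoc θ, mul_assoc θ, h.side, mul_zero, map_zero]

omit [Field W] [Algebra ℂ W] [Fintype κ] [DecidableEq κ] h in
theorem Iso.symm {u v : κ × Bool} {w : ℂ} {a a' : R} (hI : Iso A Δ p u v w a a') :
    Iso A Δ p v u (-w) a' a := ⟨hI.g, by simpa using hI.f, hI.fg, hI.gf⟩

theorem Iso.comp {u v z : κ × Bool} {w w' : ℂ} {a a' c c' : R} (ha : Iso A Δ p u v w a a')
    (hc : Iso A Δ p v z w' c c') : Iso A Δ p u z (w' + w) (c * a) (a' * c') :=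
  ⟨ha.f.comp h hc.f, by rw [neg_add_rev]; exact hc.g.comp h ha.g,
    by rw [mul_assoc, ← mul_assoc c', hc.gf, ha.f.l, ha.gf],
    by rw [mul_assoc, ← mul_assoc a, ha.fg, hc.g.l, hc.fg]⟩

theorem Iso.adj {u v : κ × Bool} {w : ℂ} {a a' : R} (ha : Iso A Δ p u v w a a') :
    Iso A Δ p (v.1, !v.2) (u.1, !u.2) w (st a) (st a') :=
  ⟨ha.f.adj h, ha.g.adj h, by rw [← h.smul, ha.fg, h.sp], by rw [← h.smul, ha.gf, h.sp]⟩

theorem t_comp {u v z : κ × Bool} {w w' : ℂ} {a a' c c' : R} (ha : Iso A Δ p u v w a a')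
    (hc : Iso A Δ p v z w' c c') (j : κ) :
    τ (a' * c' * δ j (c * a)) = τ (c' * δ j c) + τ (a' * δ j a) := by
  rw [h.leib, mul_add, map_add, ← mul_assoc, h.tc, ← mul_assoc, ← mul_assoc, ha.fg, hc.g.l,
    ← mul_assoc, mul_assoc a', hc.gf, ha.g.r]

theorem t_adj (a a' : R) (j : κ) : τ (st a' * δ j (st a)) = τ (a' * δ j a) := by
  rw [← h.sd, ← h.smul, h.ts, h.tc]

theorem t_symm {u v : κ × Bool} {w : ℂ} {a a' : R} (ha : Iso A Δ p u v w a a') (j : κ) :
    τ (a * δ j a') = - τ (a' * δ j a) := by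
  have h1 := t_comp h ha (ha.symm) j
  have h2 : Hom A Δ p u u 0 (p u) := ⟨h.pm u, pp' h u, pp' h u, pd' h u⟩
  rw [ha.gf, l2 h h2 h2] at h1
  exact eq_neg_of_add_eq_zero_left h1.symm

theorem n_eq {u v : κ × Bool} {w : ℂ} {a a' : R} (ha : Iso A Δ p u v w a a') :
    τ (p u) = τ (p v) := by rw [← ha.gf, h.tc, ha.fg]

theorem n_st (k : κ) (b : Bool) : τ (p (k, !b)) = τ (p (k, b)) := by rw [← h.sp, h.ts]

theorem loop0 {u : κ × Bool} {w : ℂ} {a a' : R} (ha : Iso A Δ p u u w a a') : w = 0 := by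
  by_contra hw
  rcases h.neg a ha.f.m a' ha.g.m w hw ha.f.d ha.g.d with e | e
  · exact nil_ne h e ha.gf ha.f.l
  · exact nil_ne h e ha.fg ha.g.l

end ALGx

open ALGx in
theorem alg : S_ALG := by
  intro R W κ _ _ _ _ _ _ A Δ δ st τ p h
  classical
  let P : κ → ℂ → Prop := fun k c => ∃ l w a a', Iso A Δ p (l, false) (k, true) w a a' ∧
    τ (a' * δ k a) = (if l = k then 2 * c else c) • τ (p (k, true))
  have lp : ∀ {k w a a'}, Iso A Δ p (k, false) (k, true) w a a' →
      τ (a' * δ k a) = w • τ (p (k, true)) := fun hI => by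
    rw [← n_eq h hI, ← hI.gf]
    exact one h hI.f hI.g rfl
  have mix : ∀ {k l w a a' w3 a3 a3' c}, l ≠ k → Iso A Δ p (l, false) (k, true) w a a' →
      τ (a' * δ k a) = c • τ (p (k, true)) → Iso A Δ p (k, false) (k, true) w3 a3 a3' →
      w3 = 2 * c := fun {k l w a a' w3 a3 a3' c} hl hI e h3 => by
    have i1 := hI.comp h (h3.symm)
    have i2 := i1.comp h (hI.adj h)
    have e1 := lin h i2.f i2.g (j := k) hl hl
    rw [t_comp h i1 (hI.adj h), t_comp h hI (h3.symm), t_adj h, t_symm h h3, lp h3, e] at e1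
    refine tinj h (k, true) ?_
    rw [two_mul, add_smul]
    linear_combination -e1
  have uniq : ∀ k c c', P k c → P k c' → c = c' := by
    rintro k c c' ⟨l, w, a, a', hI, e⟩ ⟨l2, w2, a2, a2', hI2, e2⟩
    by_cases hl : l = k <;> by_cases hl2 : l2 = k
    · subst hl
      subst hl2
      have h0 := loop0 h (hI.comp h (hI2.symm))
      rw [lp hI, if_pos rfl] at e
      rw [lp hI2, if_pos rfl] at e2
      linear_combination (tinj h _ e2 - tinj h _ e + h0) / 2
    · subst hl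
      rw [lp hI, if_pos rfl] at e
      rw [if_neg hl2] at e2
      linear_combination (mix hl2 hI2 e2 hI - tinj h _ e) / 2
    · subst hl2
      rw [lp hI2, if_pos rfl] at e2
      rw [if_neg hl] at e
      linear_combination (tinj h _ e2 - mix hl hI e hI2) / 2
    · have i1 := hI.comp h (hI2.symm)
      have e1 := lin h i1.f i1.g (j := k) hl hl2
      rw [t_comp h hI (hI2.symm), t_symm h hI2, e, e2, if_neg hl, if_neg hl2] at e1
      refine tinj h (k, true) ?_
      linear_combination e1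
  let y : κ → ℂ := fun k => if hc : ∃ c, P k c then hc.choose else 0
  have hy : ∀ k c, P k c → y k = c := fun k c hc => by
    have hc' : ∃ c, P k c := ⟨c, hc⟩
    simp only [y, dif_pos hc']
    exact uniq k _ _ hc'.choose_spec hc
  have own : ∀ {k l w a a'}, Iso A Δ p (l, false) (k, true) w a a' →
      τ (a' * δ k a) = (if l = k then 2 * y k else y k) • τ (p (k, true)) := by
    intro k l w a a' hI
    obtain ⟨c, hc⟩ := cst h (mul_mem hI.g.m (h.dm k a hI.f.m))
      (by simpa using wmul h hI.g.d (wd h hI.f.d k))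
    obtain ⟨n, hn, e⟩ := h.tp (k, true)
    have hn' : (n : ℂ) ≠ 0 := Nat.cast_ne_zero.2 hn
    have e1 : τ (a' * δ k a) = (c / n) • τ (p (k, true)) := by
      rw [hc, e, Algebra.smul_def, ← map_natCast (algebraMap ℂ W), ← map_mul, div_mul_cancel₀ _ hn']
    by_cases hl : l = k
    · rw [hy k (c / n / 2) ⟨l, w, a, a', hI, by rw [e1, if_pos hl]; congr 1; ring⟩, e1, if_pos hl]
      congr 1
      ring
    · rw [hy k (c / n) ⟨l, w, a, a', hI, by rw [e1, if_neg hl]⟩, e1, if_neg hl]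
  refine ⟨y, fun k l w η hη b hb dη db eb j => ?_⟩
  have hB : Hom A Δ p (k, true) (l, false) (-w) b := eb ▸ mk' h _ _ hb db
  have hA := mk' h (l, false) (k, true) hη dη
  have e0 := diag h (j := j) (θ := (if j = k then y k else 0) + if j = l then y l else 0)
    (fun a a' hI => ?_) hA hB
  · have o1 := off h j l (mul_mem hb hη) (by simpa using wmul h db dη)
    have o2 := off h j k (h.sm _ (mul_mem hη hb)) (wst h (by simpa using wmul h dη db))
    have o3 : τ (b * (δ j (p (k, true)) * η * p (l, false))) = 0 := by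
      have s1 : p (k, false) = st (p (k, true)) := (h.sp k true).symm
      rw [mul_assoc, h.tc, s1, ← h.sd, ← h.smul, ← h.smul, h.ts, ← mul_assoc, mul_assoc η,
        hB.r] at o2
      rw [← o2, ← mul_assoc, h.tc, ← mul_assoc, hB.l, ← mul_assoc, h.tc, ← mul_assoc]
    have o4 : τ (b * (p (k, true) * η * δ j (p (l, false)))) = 0 := by
      rw [← o1, ← mul_assoc, ← mul_assoc, hB.r, h.tc _ (p (l, false)), ← mul_assoc, ← mul_assoc,
        hB.l]
    have o5 : ∀ z, τ (b * (p (k, true) * z * p (l, false))) = τ (b * z) := fun z => by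
      rw [← mul_assoc, ← mul_assoc, hB.r, h.tc, ← mul_assoc, hB.l]
    rwa [h.leib, h.leib, add_mul, mul_add, mul_add, map_add, map_add, o3, o4, o5, o5, zero_add,
      add_zero] at e0
  · by_cases hk : j = k
    · subst hk
      rw [own hI, n_eq h hI, if_pos rfl]
      by_cases hl : l = j
      · subst hl
        rw [if_pos rfl, if_pos rfl, two_mul]
      · rw [if_neg hl, if_neg (Ne.symm hl), add_zero]
    · by_cases hl : j = l
      · subst hl
        have := own (hI.adj h)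
        rw [t_adj h, if_neg (Ne.symm hk)] at this
        rw [this, if_neg hk, if_pos rfl, zero_add, ← n_st h j true]
        rfl
      · rw [lin h hI.f hI.g (Ne.symm hl) (Ne.symm hk), if_neg hk, if_neg hl, add_zero, zero_smul]

end Pool.Agent.MP_51db15_ag.Qh
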