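import Pool.Agent.MP_51db15_ag.Qh.Spec

/-! A chain of primes gives algebraic independence. -/

namespace Pool.Agent.MP_51db15_ag.Qh

namespace ALIx

variable {R : Type} [CommRing R]

lemma one {A : Type} [CommRing A] (φ : A →+* R) (x : R) (Q Q' : Ideal R) (hQ : Q.IsPrime)
    (hle : Q ≤ Q') (h1 : x ∈ Q') (h0 : x ∉ Q) (hφ : ∀ a, φ a ∈ Q' → a = 0) (P : Polynomial A) :
    P.eval₂ φ x ∈ Q → P = 0 := by
  induction P using Polynomial.degree_lt_wf.induction with
  | _ P ih =>
    intro h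
    by_contra hP
    have e : P.eval₂ φ x = P.divX.eval₂ φ x * x + φ (P.coeff 0) := by
      conv_lhs => rw [← Polynomial.divX_mul_X_add P]
      rw [Polynomial.eval₂_add, Polynomial.eval₂_mul_X, Polynomial.eval₂_C]
    have c0 : P.coeff 0 = 0 := by
      refine hφ _ ?_
      have a := Q'.sub_mem (hle h) (Q'.mul_mem_left (P.divX.eval₂ φ x) h1)
      rwa [e, add_sub_cancel_left] at a
    rw [e, c0, map_zero, add_zero] at h
    have d := ih P.divX (Polynomial.degree_divX_lt hP) ((hQ.mem_or_mem h).resolve_right h0)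
    refine hP ?_
    rw [← Polynomial.divX_mul_X_add P, d, c0, map_zero, zero_mul, add_zero]

variable [Algebra ℂ R]

lemma succ (M : ℕ) (f : ℕ → R) (p : MvPolynomial (Fin (M + 1)) ℂ) :
    MvPolynomial.aeval (fun j : Fin (M + 1) => f j) p =
      (MvPolynomial.finSuccEquiv ℂ M p).eval₂
        (MvPolynomial.aeval (R := ℂ) (fun j : Fin M => f (j + 1))).toRingHom (f 0) := by
  induction p using MvPolynomial.induction_on with
  | C a => simp [MvPolynomial.finSuccEquiv_apply]
  | add p q hp hq => rw [map_add, map_add, Polynomial.eval₂_add, hp, hq]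
  | mul_X p i hp =>
    rw [map_mul, map_mul, Polynomial.eval₂_mul, hp]
    congr 1
    refine Fin.cases ?_ (fun j => ?_) i
    · simp [MvPolynomial.finSuccEquiv_X_zero]
    · simp [MvPolynomial.finSuccEquiv_X_succ]

lemma chain (M : ℕ) : ∀ (f : ℕ → R) (Q : ℕ → Ideal R), (∀ j ≤ M, (Q j).IsPrime) →
    (∀ j < M, Q j ≤ Q (j + 1) ∧ f j ∈ Q (j + 1) ∧ f j ∉ Q j) →
    ∀ p : MvPolynomial (Fin M) ℂ, MvPolynomial.aeval (fun j : Fin M => f j) p ∈ Q 0 → p = 0 := by
  induction M with
  | zero =>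
    intro f Q h1 _ p hp
    rw [MvPolynomial.eq_C_of_isEmpty p] at hp ⊢
    rw [MvPolynomial.aeval_C] at hp
    by_contra k
    have c : MvPolynomial.coeff 0 p ≠ 0 := fun e => k (by rw [e, map_zero])
    exact (h1 0 le_rfl).ne_top (Ideal.eq_top_of_isUnit_mem _ hp ((Ne.isUnit c).map _))
  | succ M ih =>
    intro f Q h1 h2 p hp
    rw [succ] at hp
    obtain ⟨a1, a2, a3⟩ := h2 0 (Nat.succ_pos M)
    have := one _ _ _ _ (h1 0 (Nat.zero_le _)) a1 a2 a3
      (ih (fun j => f (j + 1)) (fun j => Q (j + 1)) (fun j hj => h1 _ (by omega))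
        fun j hj => h2 _ (by omega)) _ hp
    exact (MvPolynomial.finSuccEquiv ℂ M).injective (by rw [this, map_zero])

omit [Algebra ℂ R] in
lemma primes (I : ℕ → Ideal R) (hI : ∀ j, I j ≤ I (j + 1)) (M : ℕ) : ∀ P ∈ (I M).minimalPrimes,
    ∃ Q : ℕ → Ideal R, Q M = P ∧ (∀ j ≤ M, Q j ∈ (I j).minimalPrimes) ∧
      ∀ j < M, Q j ≤ Q (j + 1) := by
  induction M with
  | zero => exact fun P hP => ⟨fun _ => P, rfl, fun j hj => by rwa [Nat.le_zero.1 hj], by simp⟩
  | succ M ih =>
    intro P hP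
    have := hP.1.1
    obtain ⟨P', p1, p2⟩ := Ideal.exists_minimalPrimes_le ((hI M).trans hP.1.2)
    obtain ⟨Q, q1, q2, q3⟩ := ih P' p1
    refine ⟨fun j => if j ≤ M then Q j else P, if_neg (by omega), fun j hj => ?_, fun j hj => ?_⟩
    · by_cases e : j ≤ M
      · simp only [if_pos e]
        exact q2 j e
      · simp only [if_neg e]
        rwa [show j = M + 1 by omega]
    · by_cases e : j + 1 ≤ M
      · simp only [if_pos e, if_pos (show j ≤ M by omega)]
        exact q3 j e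
      · simp only [if_neg e, if_pos (show j ≤ M by omega)]
        rw [show j = M by omega, q1]
        exact p2

end ALIx

theorem ali : S_ALI := by
  intro R _ _ _ M f h1 h2
  obtain ⟨m, m1, m2⟩ := Ideal.exists_le_maximal _ h1
  have := m1.isPrime
  obtain ⟨P, p1, -⟩ := Ideal.exists_minimalPrimes_le m2
  obtain ⟨Q, -, q2, q3⟩ := ALIx.primes (fun j => Ideal.span (f '' {i | i < j}))
    (fun j => Ideal.span_mono (Set.image_mono fun i (hi : i < j) => Nat.lt_succ_of_lt hi)) M P p1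
  refine algebraicIndependent_iff.2 fun p hp => ALIx.chain M f Q (fun j hj => (q2 j hj).1.1)
    (fun j hj => ⟨q3 j hj, (q2 (j + 1) hj).1.2 (Ideal.subset_span ⟨j, Nat.lt_succ_self j, rfl⟩),
      h2 j hj _ (q2 j hj.le)⟩) p ?_
  rw [hp]
  exact (Q 0).zero_mem

end Pool.Agent.MP_51db15_ag.Qh
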