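import Pool.Agent.MP_51db15_ag.Qh.Spec4

/-! Project SD: the contracting field on the ambient space. -/

namespace Pool.Agent.MP_51db15_ag.Qh

open MvPowerSeries Hy

namespace AMBx

variable {ι : Type} [Fintype ι] [DecidableEq ι]

omit [Fintype ι] in
theorem coeff_one_mul (i : ι) {v : MvPowerSeries ι ℂ} (hv : constantCoeff v = 0)
    (h : MvPowerSeries ι ℂ) :
    coeff (Finsupp.single i 1) (v * h) = coeff (Finsupp.single i 1) v * constantCoeff h := by
  have e : Finset.HasAntidiagonal.antidiagonal (1 : ℕ) = {(0, 1), (1, 0)} := rfl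
  rw [coeff_mul, Finsupp.antidiagonal_single, Finset.sum_map, e,
    Finset.sum_pair (by decide)]
  simp [hv]

theorem coeff_vf (i : ι) {v : ι → MvPowerSeries ι ℂ} (hv : ∀ j, constantCoeff (v j) = 0)
    (g : MvPowerSeries ι ℂ) : coeff (Finsupp.single i 1) (vf v g) =
      ∑ j, coeff (Finsupp.single i 1) (v j) * coeff (Finsupp.single j 1) g := by
  rw [vf_apply, map_sum]
  refine Finset.sum_congr rfl fun j _ => ?_
  rw [coeff_one_mul i (hv j), ← coeff_zero_eq_constantCoeff_apply, coeff_pderiv]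
  simp

omit [DecidableEq ι] in
theorem exists_lin {g : MvPowerSeries ι ℂ} (h0 : constantCoeff g = 0)
    (h : g ∉ IsLocalRing.maximalIdeal (MvPowerSeries ι ℂ) ^ 2) :
    ∃ i, coeff (Finsupp.single i 1) g ≠ 0 := by
  by_contra hc
  push Not at hc
  refine h (mem_pow_iff_order.2 (nat_le_order fun α hα => ?_))
  rcases Nat.eq_zero_or_pos (Finsupp.degree α) with h1 | h1
  · rw [(Finsupp.degree_eq_zero_iff α).1 h1, coeff_zero_eq_constantCoeff_apply, h0]
  · have h2 : Finsupp.degree α = 1 := by omega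
    obtain ⟨i, rfl⟩ := (Finsupp.sum_eq_one_iff α).1 h2
    exact hc i

omit [Fintype ι] [DecidableEq ι] in
theorem wo_coeff {a : ι → ℕ} {k : ℕ} {u : MvPowerSeries ι ℂ} (hu : Wo a ((k : ℤ) + 1) u)
    {α : ι →₀ ℕ} (hα : Finsupp.weight a α ≤ k) : coeff α u = 0 := by
  refine coeff_eq_zero_of_lt_weightedOrder a (lt_of_lt_of_le ?_ hu)
  have e : ((k : ℤ) + 1).toNat = k + 1 := by omega
  rw [e]
  exact_mod_cast Nat.lt_succ_of_le hα

end AMBx

theorem amb : S_AMB := by
  intro ι K R _ _ _ _ _ _ _ q a φ F D hW hD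
  obtain ⟨m, hm⟩ := hW.pres
  choose u hu hq using fun i => (hW.fil _ _).1 (hD i)
  let v : ι → MvPowerSeries ι ℂ := fun i => (a i : ℂ) • X i + u i
  have hv : ∀ i, v i = (a i : ℂ) • X i + u i := fun _ => rfl
  have h0 : ∀ i, constantCoeff (v i) = 0 := fun i => by
    rw [hv, map_add, ← coeff_zero_eq_constantCoeff_apply (u i), AMBx.wo_coeff (hu i) (by simp)]
    simp
  have hL : Nc.Lf q v D := hm.lf fun i => by
    rw [hv, map_add, map_smul, hq, add_sub_cancel]
  refine ⟨vf v, fun g hg => hL.ker hg, fun g _ => mem_max_iff.2 ?_, fun c g hg hg2 hc => ?_⟩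
  · rw [vf_apply, map_sum]
    exact Finset.sum_eq_zero fun j _ => by rw [map_mul, h0, zero_mul]
  · obtain ⟨i₀, hi₀⟩ := AMBx.exists_lin (mem_max_iff.1 hg) hg2
    obtain ⟨i, hi, hmin⟩ := Finset.exists_min_image
      (Finset.univ.filter fun j => coeff (Finsupp.single j 1) g ≠ 0) a
      ⟨i₀, Finset.mem_filter.2 ⟨Finset.mem_univ _, hi₀⟩⟩
    have hi' := (Finset.mem_filter.1 hi).2
    have h1 : coeff (Finsupp.single i 1) (vf v g - c • g) = 0 :=
      coeff_of_lt_order (lt_of_lt_of_le (by rw [Finsupp.degree_single]; norm_num)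
        (mem_pow_iff_order.1 hc))
    have h2 : ∀ j, coeff (Finsupp.single j 1) g ≠ 0 → coeff (Finsupp.single i 1) (u j) = 0 :=
      fun j hj => AMBx.wo_coeff (hu j) (by
        rw [Finsupp.weight_single, one_smul]
        exact hmin j (Finset.mem_filter.2 ⟨Finset.mem_univ _, hj⟩))
    have h3 : coeff (Finsupp.single i 1) (vf v g) = (a i : ℂ) * coeff (Finsupp.single i 1) g := by
      rw [AMBx.coeff_vf i h0, Finset.sum_eq_single i]
      · rw [hv, map_add, h2 i hi', add_zero, map_smul, coeff_index_single_self_X, smul_eq_mul,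
          mul_one]
      · intro j _ hj
        by_cases h4 : coeff (Finsupp.single j 1) g = 0
        · rw [h4, mul_zero]
        · rw [hv, map_add, h2 j h4, add_zero, map_smul, coeff_index_single_X, if_neg hj.symm,
            smul_zero, zero_mul]
      · simp
    rw [map_sub, h3, map_smul, smul_eq_mul, ← sub_mul] at h1
    have h5 : c = (a i : ℂ) := (sub_eq_zero.1 ((mul_eq_zero.1 h1).resolve_right hi')).symm
    rw [h5, Complex.natCast_re]
    exact_mod_cast hW.pos i

end Pool.Agent.MP_51db15_ag.Qh
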