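import Pool.Agent.MP_51db15_ag.Qh.Spec

/-! PROJECT QH, row BAS: finiteness facts for fields and one-forms. -/

namespace Pool.Agent.MP_51db15_ag.Qh

open Module

noncomputable section

namespace BASx

variable {K ι : Type} [Field K] [Algebra ℂ K] {S : Subalgebra ℂ K} {x : ι → K}

theorem ideal (hg : Algebra.adjoin ℂ (Set.range x) = S) (D : DD K) (P : Ideal S)
    (h : ∀ i, In P (D (x i))) (g : K) (hS : g ∈ S) : In P (D g) := by
  rw [← hg] at hS
  induction hS using Algebra.adjoin_induction with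
  | mem g hx =>
    obtain ⟨i, rfl⟩ := hx
    exact h i
  | algebraMap c => exact ⟨0, P.zero_mem, D.map_algebraMap c⟩
  | add a b _ _ ha hb =>
    obtain ⟨u, hu, e⟩ := ha
    obtain ⟨v, hv, e'⟩ := hb
    exact ⟨u + v, P.add_mem hu hv, by rw [map_add, e, e']; rfl⟩
  | mul a b ka kb ha hb =>
    obtain ⟨u, hu, e⟩ := ha
    obtain ⟨v, hv, e'⟩ := hb
    rw [hg] at ka kb
    exact ⟨⟨a, ka⟩ * v + ⟨b, kb⟩ * u, P.add_mem (P.mul_mem_left _ hv) (P.mul_mem_left _ hu), by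
      rw [D.leibniz, e, e']; rfl⟩

theorem tt (hg : Algebra.adjoin ℂ (Set.range x) = S) (D : DD K) (h : ∀ i, D (x i) ∈ S) :
    D ∈ TT S := fun g hS => by
  obtain ⟨b, -, e⟩ := ideal hg D ⊤ (fun i => ⟨⟨_, h i⟩, trivial, rfl⟩) g hS
  exact e ▸ b.2

theorem zero (hg : Algebra.adjoin ℂ (Set.range x) = S)
    (hf : ∀ y : K, ∃ g ∈ S, ∃ h ∈ S, h ≠ 0 ∧ y = g / h) (D : DD K) (h : ∀ i, D (x i) = 0) :
    D = 0 := by
  have k : ∀ g ∈ S, D g = 0 := fun g hS => by
    obtain ⟨b, hb, e⟩ := ideal hg D ⊥ (fun i => ⟨0, Ideal.zero_mem _, h i⟩) g hS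
    rw [e, Ideal.mem_bot.1 hb]
    rfl
  ext y
  obtain ⟨g, a, u, b, c, rfl⟩ := hf y
  have e := D.leibniz (g / u) u
  rw [div_mul_cancel₀ g c, k g a, k u b, smul_zero, zero_add, smul_eq_mul] at e
  exact (mul_eq_zero.1 e.symm).resolve_left c

theorem den {κ : Type} [Fintype κ] (hf : ∀ y : K, ∃ g ∈ S, ∃ h ∈ S, h ≠ 0 ∧ y = g / h)
    (y : κ → K) : ∃ s ∈ S, s ≠ 0 ∧ ∀ k, s * y k ∈ S := by
  classical
  choose g hg h hh h0 e using fun k => hf (y k)
  refine ⟨∏ k, h k, S.prod_mem fun k _ => hh k, Finset.prod_ne_zero_iff.2 fun k _ => h0 k,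
    fun k => ?_⟩
  rw [← Finset.prod_erase_mul _ _ (Finset.mem_univ k), e k, mul_assoc,
    mul_div_cancel₀ _ (h0 k)]
  exact S.mul_mem (S.prod_mem fun j _ => hh j) (hg k)

theorem fg {κ V : Type} [Fintype κ] [AddCommGroup V] [Module S V] [IsNoetherianRing S]
    (N : Submodule S V) (ev : κ → V →ₗ[S] K) (hm : ∀ v ∈ N, ∀ k, ev k v ∈ S)
    (hi : ∀ v, (∀ k, ev k v = 0) → v = 0) : N.FG := by
  let φ : N →ₗ[S] κ → S :=
    { toFun := fun v k => ⟨ev k v, hm v v.2 k⟩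
      map_add' := fun v w => funext fun k => Subtype.ext (map_add (ev k) v.1 w.1)
      map_smul' := fun c v => funext fun k => Subtype.ext (map_smul (ev k) c v.1) }
  have : IsNoetherian S N := isNoetherian_of_injective φ
    ((injective_iff_map_eq_zero φ).2 fun v hv => Subtype.ext
      (hi v fun k => congrArg Subtype.val (congrFun hv k)))
  exact Module.Finite.iff_fg.1 inferInstance

theorem span {n : ℕ} {v : Fin n → DD K} (hv : Submodule.span S (Set.range v) = TT S) (γ : DU K)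
    (P : Ideal S) (h : ∀ k, In P (γ (v k))) (D : DD K) (hD : D ∈ TT S) : In P (γ D) := by
  rw [← hv] at hD
  induction hD using Submodule.span_induction with
  | mem D hx =>
    obtain ⟨k, rfl⟩ := hx
    exact h k
  | zero => exact ⟨0, P.zero_mem, map_zero γ⟩
  | add a b _ _ ha hb =>
    obtain ⟨u, hu, e⟩ := ha
    obtain ⟨w, hw, e'⟩ := hb
    exact ⟨u + w, P.add_mem hu hw, by rw [map_add, e, e']; rfl⟩
  | smul c a _ ha =>
    obtain ⟨u, hu, e⟩ := ha
    exact ⟨c * u, P.mul_mem_left _ hu, (γ.map_smul (c : K) a).trans (by rw [e]; rfl)⟩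

end BASx

theorem bas : S_BAS := by
  intro K ι _ _ _ S t x a h
  have hm : ∀ i, x i ∈ S := fun i => h.gen ▸ Algebra.subset_adjoin ⟨i, rfl⟩
  have hn : IsNoetherianRing S :=
    isNoetherianRing_of_fg (Subalgebra.fg_def.2 ⟨_, Set.finite_range x, h.gen⟩)
  have hd : ∀ D : DD K, ∃ s ∈ S, s ≠ 0 ∧ s • D ∈ TT S := fun D => by
    obtain ⟨s, a, b, c⟩ := BASx.den h.frac fun i => D (x i)
    exact ⟨s, a, b, BASx.tt h.gen _ c⟩
  have hT : (TT S).FG := BASx.fg (TT S)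
    (fun i => { toFun := fun D => D (x i), map_add' := fun _ _ => rfl, map_smul' := fun _ _ => rfl })
    (fun D hD i => hD _ (hm i)) (BASx.zero h.gen h.frac)
  obtain ⟨n, v, hv⟩ := Submodule.fg_iff_exists_fin_generating_family.1 hT
  have hv' : ∀ k, v k ∈ TT S := fun k => hv ▸ Submodule.subset_span ⟨k, rfl⟩
  refine ⟨hm, h.frac, hn, FiniteDimensional.of_injective (LinearMap.pi fun i => dd (x i))
    ((injective_iff_map_eq_zero _).2 fun D hD => BASx.zero h.gen h.frac D (congrFun hD)),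
    fun D D' e => sub_eq_zero.1 (BASx.zero h.gen h.frac _ fun i => sub_eq_zero.2 (e i)),
    BASx.tt h.gen, hd, fun γ => ?_, hT, BASx.fg (TD S)
    (fun k => { toFun := fun γ => γ (v k), map_add' := fun _ _ => rfl, map_smul' := fun _ _ => rfl })
    (fun γ hγ k => hγ _ (hv' k)) fun γ e => ?_, BASx.ideal h.gen⟩
  · obtain ⟨s, a, b, c⟩ := BASx.den h.frac fun k => γ (v k)
    refine ⟨s, a, b, fun D hD => ?_⟩
    obtain ⟨u, -, e⟩ := BASx.span hv (s • γ) ⊤ (fun k => ⟨⟨_, c k⟩, trivial, rfl⟩) D hD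
    exact e ▸ u.2
  · refine LinearMap.ext fun D => ?_
    obtain ⟨s, -, b, c⟩ := hd D
    obtain ⟨u, hu, e'⟩ := BASx.span hv γ ⊥ (fun k => ⟨0, Ideal.zero_mem _, e k⟩) _ c
    rw [Ideal.mem_bot.1 hu, map_smul, smul_eq_mul] at e'
    exact (mul_eq_zero.1 e').resolve_left b

end

end Pool.Agent.MP_51db15_ag.Qh
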