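import Pool.Agent.MP_51db15_ag.Qh.Spec

namespace Pool.Agent.MP_51db15_ag.Qh

namespace CENx

open Classical in
theorem prime_span (M : ℕ) (T : Set (Fin M)) :
    (Ideal.span (MvPolynomial.X '' T) : Ideal (MvPolynomial (Fin M) ℂ)).IsPrime := by
  set P : Ideal (MvPolynomial (Fin M) ℂ) := Ideal.span (MvPolynomial.X '' T) with hP
  let φ : MvPolynomial (Fin M) ℂ →ₐ[ℂ] MvPolynomial (Fin M) ℂ :=
    MvPolynomial.aeval fun i => if i ∈ T then 0 else MvPolynomial.X i
  have h1 : (Ideal.Quotient.mkₐ ℂ P).comp φ = Ideal.Quotient.mkₐ ℂ P := by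
    refine MvPolynomial.algHom_ext fun i => ?_
    by_cases hi : i ∈ T
    · have : Ideal.Quotient.mk P (MvPolynomial.X i) = 0 :=
        Ideal.Quotient.eq_zero_iff_mem.2 (Ideal.subset_span ⟨i, hi, rfl⟩)
      simp [φ, hi, this]
    · simp [φ, hi]
  have h2 : P = RingHom.ker φ.toRingHom := by
    apply le_antisymm
    · rw [hP, Ideal.span_le]
      rintro _ ⟨i, hi, rfl⟩
      simp [φ, hi]
    · intro a ha
      have ha' : φ a = 0 := ha
      have := congrArg (fun ψ => ψ a) h1
      simp only [AlgHom.comp_apply, ha', map_zero] at this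
      exact Ideal.Quotient.eq_zero_iff_mem.1 this.symm
  rw [h2]
  exact RingHom.ker_isPrime _

theorem int_mem {K : Type} [Field K] [Algebra ℂ K] (R : Subalgebra ℂ K) (V : ValuationSubring K)
    (hR : ∀ x ∈ R, x ∈ V) (y : K) (hy : IsIntegral R y) : y ∈ V := by
  let φ : R →+* V :=
    { toFun := fun x => ⟨x.1, hR x.1 x.2⟩
      map_one' := rfl
      map_mul' := fun _ _ => rfl
      map_zero' := rfl
      map_add' := fun _ _ => rfl }
  let _ : Algebra R V := φ.toAlgebra
  have _ : IsScalarTower R V K := IsScalarTower.of_algebraMap_eq fun _ => rfl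
  have h : IsIntegral V y := hy.tower_top
  obtain ⟨z, hz⟩ := IsIntegrallyClosed.algebraMap_eq_of_integral h
  rw [← hz]
  exact z.2

end CENx

theorem cen (t : TrvK) : S_CEN := by
  intro K _ _ S M f _ T g k q hf hS hg htr
  obtain ⟨h, hh, hg⟩ := hg
  let F := IntermediateField.adjoin ℂ (Set.range f)
  let f' : Fin M → F := fun i => ⟨f i, IntermediateField.subset_adjoin ℂ _ ⟨i, rfl⟩⟩
  let j : MvPolynomial (Fin M) ℂ →ₐ[ℂ] F := MvPolynomial.aeval f'
  have hj : ∀ a, ((j a : F) : K) = MvPolynomial.aeval f a := by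
    intro a
    have : F.val.comp j = MvPolynomial.aeval f := by
      refine MvPolynomial.algHom_ext fun i => ?_
      simp [j, f']
    exact congrArg (fun ψ => ψ a) this
  have hinj : Function.Injective j.toRingHom := by
    intro a b hab
    apply hf
    have hab' : j a = j b := hab
    rw [← hj, ← hj, hab']
  obtain ⟨W, hW⟩ := t.cen _ F j.toRingHom _ hinj (CENx.prime_span M T)
  have _ : CharZero F := charZero_of_injective_algebraMap (algebraMap ℂ F).injective
  have key : Algebra.trace F K g ∈ W.nonunits := by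
    refine t.tr F K W g fun V hV => ?_
    have hmem : ∀ a : MvPolynomial (Fin M) ℂ, MvPolynomial.aeval f a ∈ V := by
      intro a
      have h1 : j a ∈ W := (hW a).1
      rw [← hV] at h1
      rw [← hj]
      exact h1
    have hR : ∀ x ∈ Algebra.adjoin ℂ (Set.range f), x ∈ V := by
      intro x hx
      rw [Algebra.adjoin_range_eq_range_aeval] at hx
      obtain ⟨a, rfl⟩ := hx
      exact hmem a
    have hfi : ∀ i ∈ T, f i ∈ V.nonunits := by
      intro i hi
      have h1 : j (MvPolynomial.X i) ∈ W.nonunits :=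
        (hW (MvPolynomial.X i)).2.2 (Ideal.subset_span ⟨i, hi, rfl⟩)
      have h2 : j (MvPolynomial.X i) = f' i := by simp [j]
      rw [h2, ValuationSubring.mem_nonunits_iff_or] at h1
      rw [ValuationSubring.mem_nonunits_iff_or]
      rcases h1 with h1 | h1
      · exact Or.inl (congrArg Subtype.val h1)
      · refine Or.inr fun h3 => h1 ?_
        rw [← hV]
        exact h3
    have hlt : V.valuation (g ^ k) < 1 := by
      rw [hg]
      refine Valuation.map_sum_lt _ one_ne_zero fun i _ => ?_
      by_cases hi : i ∈ T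
      · rw [map_mul]
        have h1 : V.valuation (h i) ≤ 1 :=
          (V.valuation_le_one_iff _).2 (CENx.int_mem _ V hR _ (hS _ (hh i).1))
        have h2 : V.valuation (f i) < 1 := (V.mem_nonunits_iff).1 (hfi i hi)
        calc V.valuation (h i) * V.valuation (f i) ≤ 1 * V.valuation (f i) :=
              mul_le_mul_left h1 _
          _ = V.valuation (f i) := one_mul _
          _ < 1 := h2
      · rw [(hh i).2 hi, zero_mul, map_zero]
        exact zero_lt_one
    rw [ValuationSubring.mem_nonunits_iff]
    by_contra hge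
    rw [map_pow] at hlt
    exact absurd hlt (not_lt.2 (one_le_pow_of_one_le' (not_lt.1 hge) k))
  have heq : Algebra.trace F K g = j q := by
    apply Subtype.ext
    rw [hj]
    exact htr
  rw [heq] at key
  exact (hW q).2.1 key

end Pool.Agent.MP_51db15_ag.Qh
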