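import Pool.Agent.MP_51db15_ag.Qh.Spec

/-! Closed forms are stable under Lie derivatives; commuting fields give commuting operators. -/

namespace Pool.Agent.MP_51db15_ag.Qh

open Module

namespace CLOx

variable {K : Type} [Field K] [Algebra ℂ K]

/-- the exterior derivative of a two-form -/
def df (η : FF K) (X Y Z : DD K) : K :=
  X (η Y Z) - Y (η X Z) + Z (η X Y) - η ⁅X, Y⁆ Z + η ⁅X, Z⁆ Y - η ⁅Y, Z⁆ X

theorem df_lf (T : DD K) (η : FF K) (X Y Z : DD K) :
    df (lf T η) X Y Z =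
      T (df η X Y Z) - df η ⁅T, X⁆ Y Z - df η X ⁅T, Y⁆ Z - df η X Y ⁅T, Z⁆ := by
  unfold df
  simp only [lf_apply]
  rw [leibniz_lie T X Y, leibniz_lie T X Z, leibniz_lie T Y Z]
  simp only [map_add, map_sub, LinearMap.add_apply, Derivation.commutator_apply]
  ring

theorem closed_lf (T : DD K) {η : FF K} (h : IsClosedForm η) : IsClosedForm (lf T η) := by
  refine ⟨fun D => ?_, fun X Y Z => ?_⟩
  · rw [lf_apply, h.1 D, map_zero, ← h.1.neg_eq ⁅T, D⁆ D]
    ring
  · have h0 : ∀ X Y Z : DD K, df η X Y Z = 0 := h.2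
    have := df_lf T η X Y Z
    rw [h0, h0, h0, h0, map_zero, sub_zero, sub_zero, sub_zero] at this
    exact this

/-- closed regular forms -/
def HH (S : Subalgebra ℂ K) : Submodule ℂ (FF K) where
  carrier := {η | η ∈ RF S ∧ IsClosedForm η}
  add_mem' := by
    intro η ζ h h'
    refine ⟨add_mem h.1 h'.1, fun D => ?_, fun X Y Z => ?_⟩
    · rw [LinearMap.add_apply, LinearMap.add_apply, h.2.1 D, h'.2.1 D, add_zero]
    · have e1 := h.2.2 X Y Z
      have e2 := h'.2.2 X Y Z
      simp only [LinearMap.add_apply, map_add]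
      linear_combination e1 + e2
  zero_mem' := by
    refine ⟨zero_mem _, fun D => rfl, fun X Y Z => ?_⟩
    simp only [LinearMap.zero_apply, map_zero]
    ring
  smul_mem' := by
    intro c η h
    refine ⟨(RF S).smul_mem c h.1, fun D => ?_, fun X Y Z => ?_⟩
    · rw [LinearMap.smul_apply, LinearMap.smul_apply, h.2.1 D, smul_zero]
    · have e1 := congrArg (fun z => c • z) (h.2.2 X Y Z)
      simp only [smul_add, smul_sub, smul_zero] at e1
      simp only [LinearMap.smul_apply, Derivation.map_smul]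
      exact e1

theorem lie_comm {X Y : DD K} (h : ⁅X, Y⁆ = 0) (D : DD K) : ⁅X, ⁅Y, D⁆⁆ = ⁅Y, ⁅X, D⁆⁆ := by
  rw [leibniz_lie X Y D, h, zero_lie, zero_add]

theorem app_comm {X Y : DD K} (h : ⁅X, Y⁆ = 0) (g : K) : X (Y g) = Y (X g) := by
  have e : ⁅X, Y⁆ g = 0 := by
    rw [h]
    rfl
  rw [Derivation.commutator_apply] at e
  exact sub_eq_zero.1 e

theorem ld_comm {X Y : DD K} (h : ⁅X, Y⁆ = 0) (γ : DU K) : ld X (ld Y γ) = ld Y (ld X γ) := by
  refine LinearMap.ext fun D => ?_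
  simp only [ld_apply, map_sub]
  rw [app_comm h, lie_comm h]
  ring

theorem lam_comm {X Y : DD K} (h : ⁅X, Y⁆ = 0) (v : MM K) : lam X (lam Y v) = lam Y (lam X v) :=
  Prod.ext (lie_comm h v.1) (ld_comm h v.2)

theorem del_comm {X Y : DD K} (h : ⁅X, Y⁆ = 0) (b : EE K) : del X (del Y b) = del Y (del X b) :=
  LinearMap.ext fun v => by
    simp only [del_apply, map_sub]
    rw [lam_comm h (b v), lam_comm h v]
    abel

theorem lf_comm {X Y : DD K} (h : ⁅X, Y⁆ = 0) (η : FF K) : lf X (lf Y η) = lf Y (lf X η) := by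
  refine LinearMap.ext fun D => LinearMap.ext fun D' => ?_
  simp only [lf_apply, map_sub]
  rw [app_comm h, lie_comm h D, lie_comm h D']
  ring

theorem lf_add (X Y : DD K) (η : FF K) : lf (X + Y) η = lf X η + lf Y η := by
  refine LinearMap.ext fun D => LinearMap.ext fun D' => ?_
  simp only [lf_apply, Derivation.add_apply, add_lie, map_add, LinearMap.add_apply]
  ring

end CLOx

theorem clo : S_CLO := fun _ _ _ S =>
  ⟨⟨CLOx.HH S, fun _ => Iff.rfl, fun X hX _ h => ⟨lf_mem hX h.1, CLOx.closed_lf X h.2⟩⟩,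
    CLOx.lf_add, fun _ _ h => CLOx.lf_comm h, fun _ _ h => CLOx.del_comm h⟩

end Pool.Agent.MP_51db15_ag.Qh
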