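import Pool.Agent.MP_51db15_ag.Qh.Spec

/-! The concrete algebra of endomorphisms has the abstract properties. -/

namespace Pool.Agent.MP_51db15_ag.Qh

open Module

namespace CONx

section Gen

variable {K M N : Type} [Field K] [AddCommGroup M] [Module K M] [AddCommGroup N] [Module K N]

theorem gnil (a : End K M) (v : M) : v ∈ a.maxGenEigenspace 0 ↔ ∃ k : ℕ, (a ^ k) v = 0 := by
  simp [End.mem_maxGenEigenspace]

theorem gtr [FiniteDimensional K M] (p : End K M) (h : p * p = p) (h0 : p ≠ 0) :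
    ∃ n : ℕ, n ≠ 0 ∧ LinearMap.trace K M p = n :=
  ⟨_, fun k => h0 (LinearMap.range_eq_bot.1 (Submodule.finrank_eq_zero.1 k)),
    (LinearMap.IsIdempotentElem.isProj_range p h).trace⟩

theorem gprod (X : End K (M × N)) (b : End K M) (h : ∀ v, X v = (b v.1, 0))
    (hb : IsNilpotent b) : IsNilpotent X := by
  obtain ⟨n, hn⟩ := hb
  have : ∀ (n : ℕ) v, (X ^ (n + 1)) v = ((b ^ (n + 1)) v.1, 0) := fun n v => by
    induction n with
    | zero => simpa using h v
    | succ n ih => rw [pow_succ' X, End.mul_apply, ih, h, pow_succ' b (n + 1), End.mul_apply]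
  exact ⟨n + 1, LinearMap.ext fun v => by rw [this, pow_succ, hn, zero_mul]; rfl⟩

theorem gint {U : Type} [AddCommGroup U] [Module ℂ U] {δ : End ℂ U} {H : Submodule ℂ U}
    (V : Dz δ H) {a : U} (ha : a ∈ H) (a0 : a ≠ 0) {l : ℂ} (h : δ a = l • a) :
    ∃ n : ℤ, l = n := by
  by_contra hc
  push Not at hc
  have h1 : ⨆ n : ℤ, H ⊓ δ.eigenspace (n : ℂ) ≤ ⨆ (c : ℂ) (_ : c ≠ l), δ.eigenspace c :=
    iSup_le fun n => inf_le_right.trans (le_iSup₂_of_le (n : ℂ) (hc n).symm le_rfl)
  exact a0 (Submodule.disjoint_def.1 (End.eigenspaces_iSupIndep δ l) a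
    (End.mem_eigenspace_iff.2 h) (h1 (V a ha)))

theorem gst {R : Type} [Ring R] [Algebra ℂ R] (st : R →ₗ[ℂ] R)
    (hm : ∀ a b, st (a * b) = st b * st a) {p q a a' : R} {c : ℂ} (hp : st p = q)
    (ha : st a' = a) (h : IsNilpotent (p * a' * p - c • p)) : IsNilpotent (q * a * q - c • q) := by
  obtain ⟨n, hn⟩ := h
  have : ∀ (b : R) (n : ℕ), st (b ^ (n + 1)) = st b ^ (n + 1) := fun b n => by
    induction n with
    | zero => rw [zero_add, pow_one, pow_one]
    | succ n ih => rw [pow_succ, hm, ih, ← pow_succ']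
  have h1 := this (p * a' * p - c • p) n
  rw [pow_succ, hn, zero_mul, map_zero, map_sub, map_smul, hm, hm, hp, ha, ← mul_assoc] at h1
  exact ⟨n + 1, h1.symm⟩

end Gen

variable {K : Type} [Field K] [Algebra ℂ K] {S : Subalgebra ℂ K} {ι κ : Type}

theorem po [Fintype κ] [DecidableEq κ] {E : DD K} {e : κ → End K (DD K)} (I : Idm S E e)
    (u v : κ × Bool) : pp e u * pp e v = if u = v then pp e u else 0 := by
  obtain ⟨i, b⟩ := u
  obtain ⟨j, b'⟩ := v
  refine LinearMap.ext fun w => ?_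
  rw [End.mul_apply]
  cases b <;> cases b'
  · rw [pp_false, pp_false, ← End.mul_apply, I.orth]
    by_cases h : i = j
    · subst h
      rw [if_pos rfl, if_pos rfl, pp_false]
    · rw [if_neg h, if_neg fun k => h (congrArg Prod.fst k)]
      rfl
  · rw [pp_false, pp_true, if_neg (by simp), map_zero]
    rfl
  · rw [pp_true, pp_false, if_neg (by simp), LinearMap.zero_comp]
    rfl
  · rw [pp_true, pp_true, LinearMap.comp_assoc, ← End.mul_eq_comp, I.orth]
    by_cases h : i = j
    · subst h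
      rw [if_pos rfl, if_pos rfl, pp_true]
    · rw [if_neg fun k => h k.symm, if_neg fun k => h (congrArg Prod.fst k), LinearMap.comp_zero]
      rfl

theorem ps [Fintype κ] [DecidableEq κ] {E : DD K} {e : κ → End K (DD K)} (I : Idm S E e) :
    ∑ u, pp e u = 1 := by
  refine LinearMap.ext fun w => ?_
  have h : ∀ D, ∑ i, e i D = D := fun D => by
    rw [← LinearMap.sum_apply, I.sum, End.one_apply]
  rw [LinearMap.sum_apply, Fintype.sum_prod_type]
  simp only [Fintype.sum_bool, pp_false, pp_true, Prod.mk_add_mk, zero_add, add_zero]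
  refine Prod.ext ?_ (LinearMap.ext fun D => ?_)
  · rw [Prod.fst_sum]
    exact h _
  · rw [Prod.snd_sum, LinearMap.sum_apply]
    simp only [LinearMap.comp_apply]
    rw [← map_sum, h]
    rfl

theorem loc [Fintype κ] [DecidableEq κ] {E : DD K} {e : κ → End K (DD K)} (I : Idm S E e)
    (k : κ) {a : EE K} (ha : a ∈ EI S) (h0 : del E a = 0) :
    ∃ c : ℂ, IsNilpotent (pp e (k, false) * a * pp e (k, false) - c • pp e (k, false)) := by
  obtain ⟨c, hn⟩ := I.loc k (LinearMap.fst K _ _ ∘ₗ a ∘ₗ LinearMap.inl K _ _)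
    ⟨fun D hD => (ha (D, 0) ⟨hD, zero_mem _⟩).1, fun D => by
      have h1 := LinearMap.congr_fun h0 (D, 0)
      rw [del_apply, LinearMap.zero_apply, sub_eq_zero, lam_apply E (D, 0), map_zero] at h1
      exact congrArg Prod.fst h1⟩
  refine ⟨c, gprod (M := DD K) (N := DU K) _ _ (fun v => Prod.ext rfl ?_) hn⟩
  change (0 : DU K) - c • 0 = 0
  rw [smul_zero, sub_zero]

theorem neg {E : DD K} {x : ι → K} {w : ι → ℕ} (C : Cone S E x w) {a : EE K} (ha : a ∈ EI S)
    {n : ℤ} (hn : n < 0) (h : del E a = (n : ℂ) • a) : IsNilpotent a := by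
  have := C.bas.fd
  obtain ⟨B, hB⟩ := C.evf.low
  have h1 : ∀ v ∈ LL S, v ∈ a.maxGenEigenspace 0 := fun v hv => by
    refine (iSup_le (a := (a.maxGenEigenspace 0).restrictScalars ℂ) fun m => ?_) (C.ev.L v hv)
    rintro v ⟨hv, ev⟩
    have h2 : ∀ k : ℕ, (a ^ k) v ∈ LL S ∧
        lam E ((a ^ k) v) = ((m + k * n : ℤ) : ℂ) • (a ^ k) v := fun k => by
      induction k with
      | zero => exact ⟨hv, by simpa using End.mem_eigenspace_iff.1 ev⟩
      | succ k ih =>
        rw [pow_succ', End.mul_apply]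
        refine ⟨ha _ ih.1, ?_⟩
        have h3 := LinearMap.congr_fun h ((a ^ k) v)
        rw [del_apply, sub_eq_iff_eq_add, ih.2, lin_c, LinearMap.smul_apply, ← add_smul] at h3
        rw [h3]
        congr 1
        push_cast
        ring
    refine (gnil (M := MM K) a v).2 ⟨(m - B).natAbs + 1, hB _ (h2 _).1 _ ?_ (h2 _).2⟩
    push_cast
    nlinarith [le_abs_self (m - B), abs_nonneg (m - B)]
  refine End.isNilpotent_iff_of_finite.2 fun v => ?_
  obtain ⟨s, -, s0, hs⟩ := C.bas.den v.1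
  obtain ⟨s', -, s0', hs'⟩ := C.bas.denD v.2
  have e : v = s⁻¹ • (s • v.1, 0) + s'⁻¹ • (0, s' • v.2) := by
    simp [s0, s0']
  have h4 : v ∈ a.maxGenEigenspace 0 := e ▸ add_mem
    (Submodule.smul_mem _ _ (h1 _ ⟨hs, zero_mem _⟩)) (Submodule.smul_mem _ _ (h1 _ ⟨zero_mem _, hs'⟩))
  exact (gnil (M := MM K) a v).1 h4

end CONx

theorem con (t : S_TRS) (l : S_LIN) (c : S_CLO) : S_CON := by
  intro K ι κ _ _ _ _ _ S E x w e st C L N I T
  have := C.bas.fd
  have hE := C.ev.tm
  obtain ⟨l1, l2⟩ := l K ι κ S E x w e C L (t K ι S x C.bas N) I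
  have pF : ∀ k, del E (pp e (k, false)) = 0 := fun k => LinearMap.ext fun v => by
    rw [del_apply, pp_false, pp_false, lam_apply, lam_apply, (I.a0 k).2, map_zero, sub_self]
    rfl
  have tF : ∀ k, ∃ n : ℕ, n ≠ 0 ∧ tr (pp e (k, false)) = n := fun k => by
    refine CONx.gtr (M := MM K) _ ((CONx.po I _ _).trans (if_pos rfl)) fun h =>
      I.ne k (LinearMap.ext fun D => ?_)
    exact congrArg Prod.fst (LinearMap.congr_fun h (D, 0))
  refine
    { sum := fun a => ?_
      leib := fun j => del_mul _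
      com := fun j => (c K S).2.2.2 E _ (by rw [(I.a0 j).2, lie_self, map_zero])
      dm := fun j a ha => del_mem ((I.a0 j).1 E hE) ha
      sm := T.sm
      smul := T.smul
      sd := fun j => T.sd _
      sp := T.sp κ e
      tc := LinearMap.trace_mul_comm K
      ts := T.ts
      tn := fun a ha => (LinearMap.isNilpotent_trace_of_isNilpotent ha).eq_zero
      tp := fun ⟨k, b⟩ => ?_
      pm := fun ⟨k, b⟩ v hv => ?_
      po := CONx.po I
      ps := CONx.ps I
      pd := fun ⟨k, b⟩ => ?_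
      loc := fun ⟨k, b⟩ a ha h0 => ?_
      neg := fun a ha b hb m m0 h1 h2 => ?_
      side := fun i j k => LinearMap.ext fun v => ?_
      lin1 := l1
      lin2 := l2 }
  · rw [← del_sum_left, ← LinearMap.sum_apply, I.sum, End.one_apply]
  · cases b
    · exact tF k
    · obtain ⟨n, h1, h2⟩ := tF k
      exact ⟨n, h1, by rw [← h2, ← T.ts (pp e (k, false)), T.sp, Bool.not_false]⟩
  · cases b
    · exact ⟨(I.a0 k).1 _ hv.1, zero_mem _⟩
    · exact ⟨zero_mem _, fun D hD => hv.2 _ ((I.a0 k).1 D hD)⟩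
  · cases b
    · exact pF k
    · rw [← Bool.not_false, ← T.sp, ← T.sd, pF, map_zero]
  · cases b
    · exact CONx.loc I k ha h0
    · obtain ⟨m, hm⟩ := CONx.loc I k (T.sm a ha) (by rw [← T.sd, h0, map_zero])
      exact ⟨m, CONx.gst (R := EE K) st T.smul (T.sp κ e k false) (T.sst a) hm⟩
  · by_cases a0 : a = 0
    · exact Or.inl (a0 ▸ IsNilpotent.zero)
    obtain ⟨n, rfl⟩ := CONx.gint C.ev.E ha a0 h1
    rcases lt_or_gt_of_ne (Int.cast_ne_zero.1 m0) with h | h
    · exact Or.inl (CONx.neg C ha h h1)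
    · exact Or.inr (CONx.neg C hb (neg_neg_of_pos h) (by rw [h2, Int.cast_neg]))
  · rw [End.mul_apply, End.mul_apply, pp_true, del_apply, pp_false, pp_false, pp_false, lam_apply,
      Prod.snd_sub, map_zero, sub_self, LinearMap.zero_comp]
    rfl

end Pool.Agent.MP_51db15_ag.Qh
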