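import Pool.Agent.MP_51db15_ag.Qh.Spec6

/-! A chain of prime steps between two graded lattices. -/

namespace Pool.Agent.MP_51db15_ag.Qh

open Module Finset

namespace DCHx

theorem sums {A : Type} [CommRing A] (P : Ideal A) (u v : ℕ → A)
    (top : ∀ a b, (∑ i ∈ range (a + 1), u i) * (∑ j ∈ range (b + 1), v j) ∈ P → u a * v b ∈ P)
    (hp : ∀ a b, u a * v b ∈ P → u a ∈ P ∨ v b ∈ P) (a : ℕ) :
    ∀ b, (∑ i ∈ range a, u i) * (∑ j ∈ range b, v j) ∈ P →
      (∑ i ∈ range a, u i) ∈ P ∨ (∑ j ∈ range b, v j) ∈ P := by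
  induction a with
  | zero => exact fun b _ => Or.inl (by simp)
  | succ a iha =>
    intro b
    induction b with
    | zero => exact fun _ => Or.inr (by simp)
    | succ b ihb =>
      intro h
      rcases hp a b (top a b h) with h1 | h1
      · rw [sum_range_succ u, add_mul] at h
        rw [sum_range_succ u]
        exact (iha (b + 1) ((P.add_mem_iff_left (P.mul_mem_right _ h1)).1 h)).imp_left
          fun h2 => add_mem h2 h1
      · rw [sum_range_succ v, mul_add] at h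
        rw [sum_range_succ v]
        exact (ihb ((P.add_mem_iff_left (P.mul_mem_left _ h1)).1 h)).imp_right
          fun h2 => add_mem h2 h1

variable {K U : Type} [Field K] [Algebra ℂ K] [AddCommGroup U] [Module K U] [Module ℂ U]
  [IsScalarTower ℂ K U] {S : Subalgebra ℂ K} {E : DD K} {δ : End ℂ U}

theorem dec (h : Ev S E) {g : K} (hg : g ∈ S) : ∃ u : ℕ → S,
    (∀ i, E (u i) = (i : ℂ) • (u i : K)) ∧ ∃ a, ∀ b, a ≤ b → ((∑ i ∈ range b, u i : S) : K) = g := by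
  refine Submodule.iSup_induction _ (motive := fun g => ∃ u : ℕ → S,
    (∀ i, E (u i) = (i : ℂ) • (u i : K)) ∧ ∃ a, ∀ b, a ≤ b → ((∑ i ∈ range b, u i : S) : K) = g)
    (h.s g hg) (fun n g hg => ?_) ⟨0, by simp, 0, by simp⟩ ?_
  · by_cases h0 : g = 0
    · exact ⟨0, by simp, 0, by simp [h0]⟩
    have h1 : E g = (n : ℂ) • g := End.mem_eigenspace_iff.1 hg.2
    obtain ⟨c, hc⟩ := h.nat g hg.1 n h0 h1
    refine ⟨Pi.single c ⟨g, hg.1⟩, fun i => ?_, c + 1, fun b hb => ?_⟩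
    · by_cases e : i = c
      · rw [e, Pi.single_eq_same, ← hc]
        exact h1
      · simp [Pi.single_eq_of_ne e]
    · rw [sum_pi_single', if_pos (mem_range.2 hb)]
  · rintro g g' ⟨u, u1, a, u2⟩ ⟨v, v1, a', v2⟩
    refine ⟨u + v, fun i => ?_, max a a', fun b hb => ?_⟩
    · rw [Pi.add_apply, Subalgebra.coe_add, map_add, u1, v1, smul_add]
    · simp only [Pi.add_apply]
      rw [sum_add_distrib, Subalgebra.coe_add, u2 b (le_of_max_le_left hb),
        v2 b (le_of_max_le_right hb)]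

theorem eig (h : Cn E δ) {g : S} {m : U} {c d : ℂ} (hg : E g = c • (g : K)) (hm : δ m = d • m) :
    δ (g • m) = (c + d) • g • m := by
  change δ ((g : K) • m) = (c + d) • (g : K) • m
  rw [h, hg, hm, smul_assoc, smul_comm (g : K) d, add_smul, add_comm]

theorem eig_mul {g h : S} {c d : ℂ} (hg : E g = c • (g : K)) (hh : E h = d • (h : K)) :
    E (g * h : S) = (c + d) • ((g * h : S) : K) := by
  rw [Subalgebra.coe_mul, Derivation.leibniz, hg, hh]
  simp only [smul_eq_mul, mul_smul_comm, add_smul]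
  rw [add_comm, mul_comm (h : K)]

theorem top (k : GenK) (h : Cn E δ) {N : Submodule S U} (hN : ∀ u ∈ N, δ u ∈ N) {m : U} {d : ℂ}
    (hm : δ m = d • m) {u v : ℕ → S} (hu : ∀ i, E (u i) = (i : ℂ) • (u i : K))
    (hv : ∀ i, E (v i) = (i : ℂ) • (v i : K)) (a b : ℕ)
    (H : ((∑ i ∈ range (a + 1), u i) * (∑ j ∈ range (b + 1), v j)) • m ∈ N) :
    (u a * v b) • m ∈ N := by
  rw [sum_mul_sum, ← sum_product', ← add_sum_erase _ _
    (mem_product.2 ⟨self_mem_range_succ a, self_mem_range_succ b⟩ : (a, b) ∈ _), add_smul,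
    sum_smul] at H
  refine k.cmp U δ (N.restrictScalars ℂ) _ _ _ hN (eig h (eig_mul (hu a) (hv b)) hm) ?_ H
  refine Submodule.sum_mem _ fun p hp => ?_
  obtain ⟨p1, p2⟩ := mem_erase.1 hp
  obtain ⟨p3, p4⟩ := mem_product.1 p2
  refine Submodule.mem_iSup_of_mem ((p.1 : ℂ) + p.2 + d) (Submodule.mem_iSup_of_mem (fun e => ?_)
    (End.mem_eigenspace_iff.2 (eig h (eig_mul (hu p.1) (hv p.2)) hm)))
  have e1 : p.1 + p.2 = a + b := by exact_mod_cast add_right_cancel e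
  have := mem_range.1 p3
  have := mem_range.1 p4
  exact p1 (Prod.ext (by omega) (by omega))

theorem step (k : GenK) (hn : IsNoetherianRing S) (he : Ev S E) (h : Cn E δ) {N M : Submodule S U}
    (hN : ∀ u ∈ N, δ u ∈ N) (hM : Dz δ (M.restrictScalars ℂ)) (hne : ¬ M ≤ N) :
    ∃ m ∈ M, m ∉ N ∧ ∃ (d : ℤ) (P : Ideal S), δ m = (d : ℂ) • m ∧ P.IsPrime ∧
      ∀ g : S, g • m ∈ N ↔ g ∈ P := by
  have h0 : ∃ m ∈ M, m ∉ N ∧ ∃ d : ℤ, δ m = (d : ℂ) • m := by
    by_contra hc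
    push Not at hc
    refine hne fun u hu => (iSup_le fun n w hw => ?_ : _ ≤ N.restrictScalars ℂ) (hM u hu)
    by_contra h1
    exact hc w hw.1 h1 n (End.mem_eigenspace_iff.1 hw.2)
  obtain ⟨m₀, a1, a2, d₀, a3⟩ := h0
  obtain ⟨P, ⟨m, m1, m2, d, m3, m4⟩, hmax⟩ := set_has_maximal_iff_noetherian.2 hn
    {P : Ideal S | ∃ m ∈ M, m ∉ N ∧ ∃ d : ℤ, δ m = (d : ℂ) • m ∧ ∀ g : S, g • m ∈ N ↔ g ∈ P}
    ⟨N.comap (LinearMap.toSpanSingleton S U m₀), m₀, a1, a2, d₀, a3, fun _ => Iff.rfl⟩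
  have hA : ∀ (n : ℕ) (y : S), E y = (n : ℂ) • (y : K) → y ∉ P → ∀ g : S, g * y ∈ P → g ∈ P := by
    intro n y y1 y2 g hg
    have h1 : P ≤ N.comap (LinearMap.toSpanSingleton S U (y • m)) := fun z hz => by
      change z • y • m ∈ N
      rw [smul_comm]
      exact N.smul_mem y ((m4 z).2 hz)
    rw [h1.lt_or_eq.resolve_left (hmax _ ⟨y • m, M.smul_mem y m1, fun e => y2 ((m4 y).1 e), n + d,
      by rw [eig h y1 m3]; push_cast; rfl, fun _ => Iff.rfl⟩)]
    change g • y • m ∈ N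
    rw [← mul_smul]
    exact (m4 _).2 hg
  refine ⟨m, m1, m2, d, P, m3, ⟨fun e => m2 ?_, fun {g y} hg => ?_⟩, m4⟩
  · simpa using (m4 1).2 (by rw [e]; trivial)
  · obtain ⟨u, u1, a, u2⟩ := dec he g.2
    obtain ⟨v, v1, b, v2⟩ := dec he y.2
    rw [← Subtype.ext (u2 a le_rfl), ← Subtype.ext (v2 b le_rfl)] at hg ⊢
    exact sums P u v (fun a b H => (m4 _).1 (top k h hN m3 u1 v1 a b ((m4 _).2 H)))
      (fun a b H => or_iff_not_imp_right.2 fun e => hA b _ (v1 b) e _ H) a b hg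

end DCHx

theorem dch (k : GenK) (s : S_DST) : S_DCH := by
  intro K ι U W _ _ _ _ _ _ _ _ _ _ _ S E x a δ δ' b F M hc hn hp hF hM hle
  have := hc.bas.noeth
  have : IsNoetherian S M := isNoetherian_of_fg_of_noetherian M hM.fg
  obtain ⟨N, ⟨n1, n2, n3⟩, hmax⟩ := (InvImage.wf (fun N : Submodule S U => N.comap M.subtype)
    (wellFounded_gt (α := Submodule S M))).has_min
    {N | Lat S δ N ∧ N ≤ M ∧ ∀ ε : ℝ, 0 < ε → ∀ᶠ t in L1, hm δ' (dl S b F) t - hm δ' (dl S b N) t ≤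
      hm δ N t - hm δ F t + ε * (1 - t) * hs S E t}
    ⟨F, hF, hle, fun ε hε => by
      filter_upwards [Ioo_mem_nhdsLT (zero_lt_one (α := ℝ))] with t ht
      rw [sub_self, sub_self, zero_add]
      exact mul_nonneg (mul_nonneg hε.le (sub_nonneg.2 ht.2.le))
        (tsum_nonneg fun j => mul_nonneg (Nat.cast_nonneg _) (zpow_pos ht.1 j).le)⟩
  by_cases e : M ≤ N
  · rwa [le_antisymm n2 e] at n3
  obtain ⟨m, m1, m2, d, P, m3, m4, m5⟩ := DCHx.step k hc.bas.noeth hc.ev hp.cu n1.st hM.dz e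
  obtain ⟨l1, l2⟩ := s K ι U W S E x a δ δ' b N m d P hc hn hp n1 m3 m4 m5
  refine (hmax (N ⊔ Submodule.span S {m})
    ⟨l1, sup_le n2 ((Submodule.span_singleton_le_iff_mem _ _).2 m1), fun ε hε => ?_⟩ ?_).elim
  · filter_upwards [n3 (ε / 2) (half_pos hε), l2 (ε / 2) (half_pos hε)] with t t1 t2
    linarith
  · refine lt_of_le_of_ne (Submodule.comap_mono le_sup_left) fun e' => m2 ?_
    have h1 : (⟨m, m1⟩ : M) ∈ (N ⊔ Submodule.span S {m}).comap M.subtype :=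
      Submodule.mem_sup_right (Submodule.mem_span_singleton_self m)
    exact e'.ge h1

end Pool.Agent.MP_51db15_ag.Qh
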