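import Pool.Agent.MP_51db15_ag.Qh.Spec6

/-! Row DDU: a lattice and its dual. -/

namespace Pool.Agent.MP_51db15_ag.Qh

open Module

theorem ddu (q : S_HSQ) (l : S_LAT) (t : S_DLT) (c : S_DCH) (f : S_DFR) : S_DDU := by
  intro K ι U W _ _ _ _ _ _ _ _ _ _ _ S E x a δ δ' b M hC hN hP hM ε hε
  obtain ⟨F, hFM, hF, hFF, hfr⟩ := f K ι U W S E x a δ δ' b M hC hP hM
  have hdM := t K ι U W S E x a δ δ' b M hC hP hM
  have hdF := t K ι U W S E x a δ δ' b F hC hP hF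
  have hddM := t K ι W U S E x a δ' δ b.flip _ hC hP.flip hdM
  have hle : dl S b M ≤ dl S b F := fun w hw u hu => hw u (hFM hu)
  have hle2 : M ≤ dl S b.flip (dl S b M) := fun u hu w hw => hw u hu
  have h1 := c K ι U W S E x a δ δ' b F M hC hN hP hF hM hFM (ε / 2) (half_pos hε)
  have h2 := c K ι W U S E x a δ' δ b.flip _ _ hC hN hP.flip hdM hdF hle (ε / 2) (half_pos hε)
  rw [hFF] at h2
  obtain ⟨f1, s1⟩ := l K ι U S E x a δ M hC hP.cu hM
  obtain ⟨f2, s2⟩ := l K ι U S E x a δ _ hC hP.cu hddM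
  have h0 : ∀ᶠ s in L1, 0 < s :=
    Filter.Eventually.filter_mono nhdsWithin_le_nhds (lt_mem_nhds one_pos)
  have h3 : ∀ᶠ s in L1, s < 1 := self_mem_nhdsWithin
  filter_upwards [h0, h3, h1, h2, hfr (ε / 2) (half_pos hε)] with s p0 p1 e1 e2 e3
  have e4 := q U U δ δ (M.restrictScalars ℂ) (M.restrictScalars ℂ) (M.restrictScalars ℂ)
    ((dl S b.flip (dl S b M)).restrictScalars ℂ) LinearMap.id 0 s le_rfl hle2
    (fun u hu => hle2 hu) (fun u hu _ => hu) (fun u => by simp) f1 f2 p0 (s1 s p0 p1) (s2 s p0 p1)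
  rw [sub_self, mul_zero] at e4
  rw [abs_le] at e3 ⊢
  simp only [hm] at e1 e2 e3 ⊢
  constructor <;> linarith [e3.1, e3.2]

end Pool.Agent.MP_51db15_ag.Qh
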