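import Pool.Agent.MP_51db15_ag.Qh.Spec

/-! PROJECT QH, row DEC: decomposition of the form along a diagonal field. -/

namespace Pool.Agent.MP_51db15_ag.Qh

open Module

namespace DECx

variable {K : Type} [Field K] [Algebra ℂ K] {S : Subalgebra ℂ K}

theorem flat_smul (w : ℂ) (ζ : FF K) : flat (w • ζ) = w • flat ζ :=
  LinearMap.ext fun v => Prod.ext (by simp) rfl

theorem flat_add (ζ ζ' : FF K) : flat (ζ + ζ') = flat ζ + flat ζ' :=
  LinearMap.ext fun v => Prod.ext (by simp) rfl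

theorem flat_zero : flat (0 : FF K) = 0 := LinearMap.ext fun _ => rfl

theorem kae_zero : Kae S 0 := fun _ _ =>
  ⟨0, Fin.elim0, Fin.elim0, Fin.elim0, fun s => s.elim0, fun _ _ => by simp⟩

theorem slope {κ : Type} [Fintype κ] [DecidableEq κ] {E : DD K} {e : κ → End K (DD K)}
    {y : κ → ℂ} (h : Slp S E e y) (c : κ → ℂ) {k l : κ} {w : ℂ} {b : EE K} (hb : b ∈ EI S)
    (h1 : del E b = (-w) • b) (h2 : b = pp e (l, false) * b * pp e (k, true)) {ζ : FF K}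
    (hζ : ζ ∈ RF S) (h3 : lf E ζ = w • ζ) :
    tr (b * flat (lf (∑ j, c j • e j E) ζ)) = (c k * y k + c l * y l) • tr (b * flat ζ) := by
  have e1 := h k l w _ (flat_mem hζ) b hb (by rw [del_flat, h3, flat_smul]) h1 h2
  rw [← del_flat, del_sum_left, Finset.mul_sum, map_sum]
  simp only [del_csmul, mul_smul_comm, map_smul, e1, smul_smul]
  rw [← Finset.sum_smul]
  congr 1
  simp [mul_add, Finset.sum_add_distrib]

theorem gen {U : Type} [AddCommGroup U] [Module ℂ U] (Y : End ℂ U) (μ : ℂ) (P Q : U → Prop)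
    (h0 : Q 0) (h : ∀ u, P u → P (Y u + (-μ) • u) ∧ (Q (Y u + (-μ) • u) → Q u)) {u : U}
    (hu : P u) (hm : u ∈ Y.maxGenEigenspace μ) : Q u := by
  obtain ⟨n, hn⟩ := (End.mem_maxGenEigenspace _ _ _).1 hm
  clear hm
  induction n generalizing u with
  | zero =>
    rw [pow_zero, End.one_apply] at hn
    rwa [hn]
  | succ n ih =>
    have e : (Y - μ • (1 : End ℂ U)) u = Y u + (-μ) • u := by
      rw [neg_smul, ← sub_eq_add_neg]
      rfl
    rw [pow_succ, End.mul_apply, e] at hn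
    exact (h u hu).2 (ih (h u hu).1 hn)

theorem joint (g : GenK) {U : Type} [AddCommGroup U] [Module ℂ U] {δ : End ℂ U}
    {H : Submodule ℂ U} (h1 : Dz δ H) (h2 : Fd δ H) (δ' : End ℂ U) (H' : Submodule ℂ U)
    (le : ∀ u ∈ H', u ∈ H) (s1 : ∀ u ∈ H', δ u ∈ H') (s2 : ∀ u ∈ H', δ' u ∈ H')
    (com : ∀ v, δ (δ' v) = δ' (δ v)) {u : U} (hu : u ∈ H') :
    ∃ (F : Finset (ℤ × ℂ)) (f : ℤ × ℂ → U), (∀ p, f p ∈ H' ∧ δ (f p) = (p.1 : ℂ) • f p ∧
      f p ∈ δ'.maxGenEigenspace p.2) ∧ ∑ p ∈ F, f p = u := by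
  have mem := g.joint U δ δ' H' (g.sub U δ H H' h1 le s1) (fun z => by
    have := h2 z
    exact Submodule.finiteDimensional_of_le (inf_le_inf_right _ (show H' ≤ H from le)))
    s2 com u hu
  obtain ⟨f, hf, sf⟩ := (Submodule.mem_iSup_iff_exists_finsupp _ _).1 mem
  exact ⟨f.support, f, fun p => ⟨(hf p).1.1, End.mem_eigenspace_iff.1 (hf p).1.2, (hf p).2⟩, sf⟩

theorem kill {E Y : DD K} (hY : Y ∈ TT S) (com : ∀ η : FF K, lf E (lf Y η) = lf Y (lf E η))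
    {w μ ν : ℂ} (hne : ν ≠ μ) {b : EE K}
    (h : ∀ ζ ∈ RF S, lf E ζ = w • ζ → tr (b * flat (lf Y ζ)) = ν • tr (b * flat ζ)) {ζ : FF K}
    (h1 : ζ ∈ RF S) (h2 : lf E ζ = w • ζ) (h3 : ζ ∈ End.maxGenEigenspace (M := FF K) (lf Y) μ) :
    tr (b * flat ζ) = 0 := by
  have z0 : tr (b * flat (0 : FF K)) = 0 := by
    rw [flat_zero, mul_zero]
    exact LinearMap.map_zero _
  have ge := @gen (FF K) _ _ (lf Y) μ (fun ζ => ζ ∈ RF S ∧ lf E ζ = w • ζ)
    (fun ζ => tr (b * flat ζ) = 0)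
  refine ge z0
    (fun ζ k => ⟨⟨add_mem (lf_mem hY k.1) ((RF S).smul_mem _ k.1), ?_⟩, fun k1 => ?_⟩) ⟨h1, h2⟩ h3
  · rw [map_add, map_smul, com, k.2, map_smul, smul_add, smul_comm]
  · rw [flat_add, flat_smul, mul_add, mul_smul_comm, map_add, map_smul, h ζ k.1 k.2, ← add_smul,
      smul_eq_zero, ← sub_eq_add_neg] at k1
    exact k1.resolve_left (sub_ne_zero.2 hne)

end DECx

open DECx in
theorem dec (g : GenK) (c : S_CLO) (j : S_JD3) (k : S_KC) : S_DEC := by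
  intro K ι κ _ _ _ _ _ S E x a e y ω cf h
  classical
  have eY : (∑ i, cf i • e i) E = ∑ i, cf i • e i E := by
    simp only [LinearMap.sum_apply, LinearMap.smul_apply]
  rw [eY]
  have tE := h.cone.ev.tm
  have hY : ∑ i, cf i • e i E ∈ TT S :=
    sum_mem fun i _ => (TC S).smul_mem (cf i) ((h.idm.a0 i).1 E tE)
  have h0 : ⁅E, ∑ i, cf i • e i E⁆ = 0 := by
    rw [lie_sum]
    refine Finset.sum_eq_zero fun i _ => ?_
    rw [lie_smul, (h.idm.a0 i).2, lie_self, map_zero, smul_zero]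
  have sl := fun (k l : κ) (w : ℂ) (b : EE K) (hb : b ∈ EI S) h1 h2 (ζ : FF K) =>
    slope (k := k) (l := l) (w := w) h.slp cf hb h1 h2 (ζ := ζ)
  generalize ∑ i, cf i • e i E = Y at hY h0 sl
  obtain ⟨⟨H, m, st⟩, -, com, -⟩ := c K S
  have le : ∀ η ∈ H, η ∈ RF S := fun η hη => ((m η).1 hη).1
  have d1 := joint g h.cone.ev.F h.cone.evf.F
  obtain ⟨T, f, hf, sf⟩ := d1 (lf Y) H le (st E tE) (st Y hY) (com E Y h0)
    ((m ω).2 ⟨h.reg, h.clo⟩)
  refine ⟨T.image Prod.snd, fun l hl ι' _ t x' n jo cx ba ev => ?_⟩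
  choose! z hz using hl
  have hz' : ∀ p ∈ T, l p.2 = z p.2 := fun p hp => hz _ (Finset.mem_image_of_mem _ hp)
  obtain ⟨η, hη⟩ : ∃ η : ℤ → FF K, ∀ q, η q = ∑ p ∈ T with z p.2 = q, f p := ⟨_, fun _ => rfl⟩
  obtain ⟨F, hF⟩ : ∃ F : Finset ℤ, F = T.image fun p => z p.2 := ⟨_, rfl⟩
  have e1 : ω = ∑ q ∈ F, η q := by
    simp only [hη, hF]
    rw [Finset.sum_fiberwise_of_maps_to fun p hp => Finset.mem_image_of_mem _ hp]
    exact sf.symm
  have e2 : ∀ q ∉ F, η q = 0 := fun q hq => (hη q).trans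
    (Finset.sum_eq_zero fun p hp => (hq (hF ▸ Finset.mem_image.2
      ⟨p, (Finset.mem_filter.1 hp).1, (Finset.mem_filter.1 hp).2⟩)).elim)
  have e3 : ∀ q, η q ∈ H := fun q => by
    rw [hη]
    exact sum_mem fun p _ => (hf p).1
  have e4 : ∀ q : ℤ, lf t (η q) = (q : ℂ) • η q := fun q => by
    rw [hη, map_sum, Finset.smul_sum]
    refine Finset.sum_congr rfl fun p hp => ?_
    obtain ⟨p1, p2⟩ := Finset.mem_filter.1 hp
    rw [j K ι S E x a h.cone Y hY h0 l t jo _ (le _ (hf p).1) p.2 (hf p).2.2, hz' p p1, p2]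
  refine ⟨F, η, e1, e2, fun q => ⟨le _ (e3 q), ((m _).1 (e3 q)).2, ?_, e4 q, fun hq => ?_⟩⟩
  · by_cases hq : q ∈ F
    · refine k K ι' S t x' n cx ba ev F η (fun q _ => ⟨le _ (e3 q), e4 q⟩) ?_ q hq
      rw [← e1]
      exact h.kae
    · rw [e2 q hq]
      exact kae_zero
  · rw [hη]
    refine sum_mem fun p hp => ?_
    obtain ⟨p1, p2⟩ := Finset.mem_filter.1 hp
    have w1 := (hf p).2.1
    refine Submodule.subset_span ?_
    refine ⟨le _ (hf p).1, (p.1 : ℂ), w1, ?_⟩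
    intro u u' b hb b1 b2
    have ne : cf u * y u + cf u' * y u' ≠ p.2 := fun e0 => hq u u' (by rw [e0, hz' p p1, p2])
    have s1 := sl u u' _ b hb b1 b2
    have s2 := DECx.kill hY (com E Y h0) ne s1 (le _ (hf p).1) w1
    exact s2 (hf p).2.2

end Pool.Agent.MP_51db15_ag.Qh
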