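import Pool.Agent.MP_51db15_ag.Qh.Spec2
import Pool.Agent.MP_51db15_ag.Qh.DEC

/-! PROJECT QF, row DEC2: decomposition of the form along a diagonal field, for forms that are
regular at divisorial valuations. -/

namespace Pool.Agent.MP_51db15_ag.Qh

open Module

namespace DEC2x

variable {K : Type} [Field K] [Algebra ℂ K] {S : Subalgebra ℂ K}

theorem rdv_zero : Rdv S 0 := fun v _ _ h _ _ => h 0 (zero_mem S)

end DEC2x

open DECx in
theorem dec2 (g : GenK) (c : S_CLO) (j : S_JD3) (k : S_KC2) : S_DEC2 := by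
  intro K ι κ _ _ _ _ _ S E x a e y ω cf h
  classical
  have eY : (∑ i, cf i • e i) E = ∑ i, cf i • e i E := by
    simp only [LinearMap.sum_apply, LinearMap.smul_apply]
  rw [eY]
  have tE := h.cone.ev.tm
  have hY : ∑ i, cf i • e i E ∈ TT S :=
    sum_mem fun i _ => (TC S).smul_mem (cf i) ((h.idm.a0 i).1 E tE)
  have h0 : ⁅E, ∑ i, cf i • e i E⁆ = 0 := by
    rw [lie_sum]
    refine Finset.sum_eq_zero fun i _ => ?_
    rw [lie_smul, (h.idm.a0 i).2, lie_self, map_zero, smul_zero]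
  have sl := fun (k l : κ) (w : ℂ) (b : EE K) (hb : b ∈ EI S) h1 h2 (ζ : FF K) =>
    slope (k := k) (l := l) (w := w) h.slp cf hb h1 h2 (ζ := ζ)
  generalize ∑ i, cf i • e i E = Y at hY h0 sl
  obtain ⟨⟨H, m, st⟩, -, com, -⟩ := c K S
  have le : ∀ η ∈ H, η ∈ RF S := fun η hη => ((m η).1 hη).1
  have d1 := joint g h.cone.ev.F h.cone.evf.F
  obtain ⟨T, f, hf, sf⟩ := d1 (lf Y) H le (st E tE) (st Y hY) (com E Y h0)
    ((m ω).2 ⟨h.reg, h.clo⟩)
  refine ⟨T.image Prod.snd, fun l hl ι' _ t x' n jo cx ba ev => ?_⟩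
  choose! z hz using hl
  have hz' : ∀ p ∈ T, l p.2 = z p.2 := fun p hp => hz _ (Finset.mem_image_of_mem _ hp)
  obtain ⟨η, hη⟩ : ∃ η : ℤ → FF K, ∀ q, η q = ∑ p ∈ T with z p.2 = q, f p := ⟨_, fun _ => rfl⟩
  obtain ⟨F, hF⟩ : ∃ F : Finset ℤ, F = T.image fun p => z p.2 := ⟨_, rfl⟩
  have e1 : ω = ∑ q ∈ F, η q := by
    simp only [hη, hF]
    rw [Finset.sum_fiberwise_of_maps_to fun p hp => Finset.mem_image_of_mem _ hp]
    exact sf.symm
  have e2 : ∀ q ∉ F, η q = 0 := fun q hq => (hη q).trans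
    (Finset.sum_eq_zero fun p hp => (hq (hF ▸ Finset.mem_image.2
      ⟨p, (Finset.mem_filter.1 hp).1, (Finset.mem_filter.1 hp).2⟩)).elim)
  have e3 : ∀ q, η q ∈ H := fun q => by
    rw [hη]
    exact sum_mem fun p _ => (hf p).1
  have e4 : ∀ q : ℤ, lf t (η q) = (q : ℂ) • η q := fun q => by
    rw [hη, map_sum, Finset.smul_sum]
    refine Finset.sum_congr rfl fun p hp => ?_
    obtain ⟨p1, p2⟩ := Finset.mem_filter.1 hp
    rw [j K ι S E x a h.cone Y hY h0 l t jo _ (le _ (hf p).1) p.2 (hf p).2.2, hz' p p1, p2]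
  refine ⟨F, η, e1, e2, fun q => ⟨le _ (e3 q), ((m _).1 (e3 q)).2, ?_, e4 q, fun hq => ?_⟩⟩
  · by_cases hq : q ∈ F
    · refine k K ι' S t x' n cx ba ev F η (fun q _ => ⟨le _ (e3 q), e4 q⟩) ?_ q hq
      rw [← e1]
      exact h.rdv
    · rw [e2 q hq]
      exact DEC2x.rdv_zero
  · rw [hη]
    refine sum_mem fun p hp => ?_
    obtain ⟨p1, p2⟩ := Finset.mem_filter.1 hp
    have w1 := (hf p).2.1
    refine Submodule.subset_span ?_
    refine ⟨le _ (hf p).1, (p.1 : ℂ), w1, ?_⟩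
    intro u u' b hb b1 b2
    have ne : cf u * y u + cf u' * y u' ≠ p.2 := fun e0 => hq u u' (by rw [e0, hz' p p1, p2])
    have s1 := sl u u' _ b hb b1 b2
    have s2 := DECx.kill hY (com E Y h0) ne s1 (le _ (hf p).1) w1
    exact s2 (hf p).2.2

end Pool.Agent.MP_51db15_ag.Qh
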