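import Pool.Agent.MP_51db15_ag.Qh.Spec6

/-! A free lattice inside a lattice, and its dual. -/

namespace Pool.Agent.MP_51db15_ag.Qh

open Module

namespace DFRx

theorem small {κ : Type} [Fintype κ] (d : κ → ℤ) {ε : ℝ} (hε : 0 < ε) : ∀ᶠ t in L1,
    0 < t ∧ t < 1 ∧ |∑ i, t ^ d i + ∑ i, t ^ (-d i) - 2 * (Fintype.card κ : ℝ)| ≤ ε * (1 - t) := by
  have h1 : HasDerivAt (fun t : ℝ => ∑ i, t ^ d i + ∑ i, t ^ (-d i))
      (∑ i, (d i : ℝ) * 1 ^ (d i - 1) + ∑ i, ((-d i : ℤ) : ℝ) * 1 ^ (-d i - 1)) 1 :=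
    (HasDerivAt.fun_sum fun i _ => hasDerivAt_zpow (d i) 1 (Or.inl one_ne_zero)).add
      (HasDerivAt.fun_sum fun i _ => hasDerivAt_zpow (-d i) 1 (Or.inl one_ne_zero))
  have h2 := (h1.isLittleO.bound hε).filter_mono (nhdsWithin_le_nhds (s := Set.Iio (1 : ℝ)))
  have h3 : ∀ᶠ t in L1, 0 < t := (lt_mem_nhds one_pos).filter_mono nhdsWithin_le_nhds
  have h4 : ∀ᶠ t in L1, t < 1 := self_mem_nhdsWithin
  filter_upwards [h2, h3, h4] with t k2 k3 k4
  refine ⟨k3, k4, ?_⟩
  rw [Real.norm_eq_abs, Real.norm_eq_abs, abs_sub_comm t 1, abs_of_pos (sub_pos.2 k4)] at k2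
  simpa [two_mul] using k2

variable {K : Type} [Field K] [Algebra ℂ K] {U W κ : Type} [AddCommGroup U] [Module K U]
  [AddCommGroup W] [Module K W] {S : Subalgebra ℂ K} {b : U →ₗ[K] W →ₗ[K] K}

theorem dual [Fintype κ] [DecidableEq κ] (e : Basis κ K U) (e' : Basis κ K W)
    (h : ∀ i j, b (e i) (e' j) = if i = j then 1 else 0) :
    dl S b (Submodule.span S (Set.range e)) = Submodule.span S (Set.range e') := by
  refine le_antisymm (fun w hw => ?_) (Submodule.span_le.2 ?_)
  · have h1 : ∀ j, e'.repr w j = b (e j) w := fun j => by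
      conv_rhs => rw [← e'.sum_repr w, map_sum]
      simp only [map_smul, h, smul_eq_mul, mul_ite, mul_one, mul_zero, Finset.sum_ite_eq,
        Finset.mem_univ, if_true]
    rw [← e'.sum_repr w]
    refine Submodule.sum_mem _ fun j _ => ?_
    rw [h1]
    exact Submodule.smul_mem _
      (⟨b (e j) w, hw _ (Submodule.subset_span ⟨j, rfl⟩)⟩ : S) (Submodule.subset_span ⟨j, rfl⟩)
  · rintro _ ⟨j, rfl⟩ u hu
    induction hu using Submodule.span_induction with
    | mem u hu =>
      obtain ⟨i, rfl⟩ := hu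
      rw [h]
      split_ifs
      · exact one_mem S
      · exact zero_mem S
    | zero => simp
    | add u v _ _ hu hv =>
      rw [map_add, LinearMap.add_apply]
      exact add_mem hu hv
    | smul s u _ hu =>
      rw [show s • u = (s : K) • u from rfl, map_smul, LinearMap.smul_apply]
      exact mul_mem s.2 hu

omit [Algebra ℂ K] in
theorem exists_dual [Fintype κ] [DecidableEq κ] [FiniteDimensional K U] [FiniteDimensional K W]
    (hl : ∀ u, (∀ w, b u w = 0) → u = 0) (hr : ∀ w, (∀ u, b u w = 0) → w = 0) (e : Basis κ K U) :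
    ∃ e' : Basis κ K W, ∀ i j, b (e i) (e' j) = if i = j then 1 else 0 := by
  have i1 : Function.Injective b :=
    (injective_iff_map_eq_zero b).2 fun u h => hl u fun w => by rw [h]; rfl
  have i2 : Function.Injective b.flip :=
    (injective_iff_map_eq_zero b.flip).2 fun w h => hr w fun u => LinearMap.congr_fun h u
  have f1 : finrank K U ≤ finrank K (Dual K W) := LinearMap.finrank_le_finrank_of_injective i1
  have f2 : finrank K W ≤ finrank K (Dual K U) := LinearMap.finrank_le_finrank_of_injective i2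
  rw [Subspace.dual_finrank_eq] at f1
  have f3 : finrank K W = finrank K (Dual K U) :=
    le_antisymm f2 (by rwa [Subspace.dual_finrank_eq])
  refine ⟨e.dualBasis.map (LinearMap.linearEquivOfInjective b.flip i2 f3).symm, fun i j => ?_⟩
  have h1 := LinearMap.congr_fun ((LinearMap.linearEquivOfInjective b.flip i2 f3).apply_symm_apply
    (e.dualBasis j)) (e i)
  rw [Basis.dualBasis_apply_self] at h1
  exact h1

variable [Module ℂ U] [IsScalarTower ℂ K U]

theorem exists_basis {δ : End ℂ U} {M : Submodule S U} (h : Lat S δ M) :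
    ∃ (κ : Type) (e : Basis κ K U) (d : κ → ℤ), ∀ i, e i ∈ M ∧ δ (e i) = (d i : ℂ) • e i := by
  obtain ⟨B, b1, b2, b3⟩ :=
    exists_linearIndependent K {u : U | u ∈ M ∧ ∃ n : ℤ, δ u = (n : ℂ) • u}
  have h1 : ∀ u ∈ M, u ∈ Submodule.span K B := fun u hu => by
    rw [b2]
    have h2 : (⨆ n : ℤ, M.restrictScalars ℂ ⊓ δ.eigenspace (n : ℂ)) ≤ (Submodule.span K
        {u : U | u ∈ M ∧ ∃ n : ℤ, δ u = (n : ℂ) • u}).restrictScalars ℂ :=
      iSup_le fun n v hv => Submodule.subset_span ⟨hv.1, n, End.mem_eigenspace_iff.1 hv.2⟩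
    exact h2 (h.dz u hu)
  have h3 : ⊤ ≤ Submodule.span K (Set.range ((↑) : B → U)) := fun u _ => by
    obtain ⟨s, -, s0, hs⟩ := h.den u
    rw [Subtype.range_coe, ← inv_smul_smul₀ s0 u]
    exact Submodule.smul_mem _ _ (h1 _ hs)
  choose d hd using fun i : B => (b1 i.2).2
  exact ⟨B, Basis.mk b3 h3, d, fun i => by
    rw [Basis.mk_apply]
    exact ⟨(b1 i.2).1, hd i⟩⟩

end DFRx

theorem dfr (h : S_HFR) : S_DFR := by
  classical
  intro K ι U W _ _ _ _ _ _ _ _ _ _ _ S E x a δ δ' b M C P L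
  have := P.fu
  have := P.fw
  obtain ⟨κ, e, d, he⟩ := DFRx.exists_basis L
  have : Finite κ := Module.Finite.finite_basis e
  have := Fintype.ofFinite κ
  obtain ⟨e', h'⟩ := DFRx.exists_dual P.left P.right e
  have hd : ∀ j, δ' (e' j) = ((-d j : ℤ) : ℂ) • e' j := fun j => by
    refine sub_eq_zero.1 (P.right _ fun u => ?_)
    refine LinearMap.congr_fun (f := b.flip _) (g := 0) (e.ext fun i => ?_) u
    have h1 := P.leib (e i) (e' j)
    rw [(he i).2, lin_c, LinearMap.smul_apply, h'] at h1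
    rw [LinearMap.flip_apply, map_sub, lin_c, h', LinearMap.zero_apply]
    split_ifs at h1 ⊢ with hij
    · subst hij
      rw [Derivation.map_one_eq_zero] at h1
      rw [Int.cast_neg, neg_smul, sub_neg_eq_add, add_comm, ← h1]
    · simpa using h1.symm
  obtain ⟨k1, k2⟩ := h K ι U κ S E x a δ e d C P.cu fun i => (he i).2
  obtain ⟨-, k3⟩ := h K ι W κ S E x a δ' e' (fun i => -d i) C P.cw hd
  have e1 := DFRx.dual (S := S) e e' h'
  refine ⟨_, Submodule.span_le.2 ?_, k1, ?_, fun ε hε => ?_⟩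
  · rintro _ ⟨i, rfl⟩
    exact (he i).1
  · rw [e1]
    exact DFRx.dual e' e fun i j => by
      rw [LinearMap.flip_apply, h']
      simp only [eq_comm]
  · filter_upwards [DFRx.small d hε] with t ⟨t0, t1, t2⟩
    have h0 : 0 ≤ hs S E t := tsum_nonneg fun k => by positivity
    rw [e1, k2 t t0 t1, k3 t t0 t1, finrank_eq_card_basis e', ← add_mul, ← sub_mul, abs_mul,
      abs_of_nonneg h0]
    exact mul_le_mul_of_nonneg_right t2 h0

end Pool.Agent.MP_51db15_ag.Qh
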