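import Pool.Agent.MP_51db15_ag.Qh.Spec6

/-! Row DLO: quotients of the forms. -/

namespace Pool.Agent.MP_51db15_ag.Qh

open Module

namespace DLOx

variable {K : Type} [Field K] [Algebra ℂ K]

theorem rk_eq {U : Type} [AddCommGroup U] [Module K U] {S : Subalgebra ℂ K} (N : Submodule S U)
    (V : Submodule K U) (h1 : ∀ u ∈ N, u ∈ V) (h2 : ∀ u ∈ V, ∃ s : K, s ≠ 0 ∧ s • u ∈ N) :
    rk N = finrank K V := by
  have h : Submodule.span K (N : Set U) = V := by
    refine le_antisymm (Submodule.span_le.2 h1) fun u hu => ?_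
    obtain ⟨s, hs, hsu⟩ := h2 u hu
    have h3 := (Submodule.span K (N : Set U)).smul_mem s⁻¹ (Submodule.subset_span hsu)
    rwa [inv_smul_smul₀ hs] at h3
  unfold rk
  rw [h]

theorem pr (E : DD K) (hf : FiniteDimensional K (DD K)) :
    Pr E (ld E) (ad E) (LinearMap.id : DU K →ₗ[K] DD K →ₗ[K] K) where
  cu g u := ld_smul E g u
  cw g w := lie_smul' E w g
  fu := inferInstance
  fw := hf
  left _ h := LinearMap.ext h
  right w h := (Module.forall_dual_apply_eq_zero_iff K w).1 h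
  leib u w := by
    change E (u w) = ld E u w + u ⁅E, w⁆
    rw [ld_apply]
    ring

theorem dl_eq (S : Subalgebra ℂ K) :
    dl S (LinearMap.id : DU K →ₗ[K] DD K →ₗ[K] K) (TD S) = TT S := by
  ext w
  exact ⟨fun h g hg => h (dd g) (dd_mem hg), fun hw u hu => hu w hw⟩

theorem mem_co {S : Subalgebra ℂ K} (N : Submodule S (DU K)) (w : DD K) :
    w ∈ (Submodule.span K (N : Set (DU K))).dualCoannihilator ↔ ∀ γ ∈ N, γ w = 0 := by
  rw [Submodule.mem_dualCoannihilator]
  refine ⟨fun h γ hγ => h γ (Submodule.subset_span hγ), fun h γ hγ => ?_⟩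
  induction hγ using Submodule.span_induction with
  | mem y hy => exact h y hy
  | zero => rfl
  | add y z _ _ hy hz => rw [LinearMap.add_apply, hy, hz, add_zero]
  | smul c y _ hy => rw [LinearMap.smul_apply, hy, smul_zero]

end DLOx

theorem dlo (q : S_HSQ) (l : S_LAT) (d : S_DSQ) (s : S_HSS) : S_DLO := by
  intro K ι _ _ _ S E x a β β' hC hN hβ hU N hNM hNst
  have hf : FiniteDimensional K (DD K) := hC.bas.fd
  have hP := DLOx.pr E hf
  have hL : Lat S (ld E) (TD S) :=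
    ⟨hC.bas.fgD, fun u hu => ld_mem hC.ev.tm hu, hC.ev.D, fun u => hC.bas.denD u⟩
  obtain ⟨hFd, hSm⟩ := l K ι (DU K) S E x a (ld E) (TD S) hC hP.cu hL
  obtain ⟨V, hVdef⟩ : ∃ V : Submodule K (DD K),
      V = (Submodule.span K (N : Set (DU K))).dualCoannihilator := ⟨_, rfl⟩
  have hV : ∀ w, w ∈ V ↔ ∀ γ ∈ N, γ w = 0 := fun w => by rw [hVdef]; exact DLOx.mem_co N w
  have hVst : ∀ w ∈ V, ad E w ∈ V := fun w hw => (hV _).2 fun γ hγ => by
    have h1 := (hV w).1 hw _ (hNst γ hγ)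
    rw [ld_apply, (hV w).1 hw γ hγ, map_zero, zero_sub, neg_eq_zero] at h1
    exact h1
  have hrk : rk N + finrank K V = finrank K (DD K) := by
    rw [hVdef]
    exact Subspace.finrank_add_finrank_dualCoannihilator_eq _
  have hrkD : rk (TD S) = finrank K (DD K) := by
    rw [DLOx.rk_eq (TD S) ⊤ (fun _ _ => trivial) fun u _ => ?_, finrank_top,
      Subspace.dual_finrank_eq]
    obtain ⟨c, -, hc, hcu⟩ := hC.bas.denD u
    exact ⟨c, hc, hcu⟩
  have hrkT : rk (TT S ⊓ V.restrictScalars S) = finrank K V := by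
    refine DLOx.rk_eq _ V (fun u hu => hu.2) fun u hu => ?_
    obtain ⟨c, -, hc, hcu⟩ := hC.bas.den u
    exact ⟨c, hc, hcu, V.smul_mem c hu⟩
  have hv : ((rk (TD S) : ℝ) - rk N) = finrank K V := by
    rw [hrkD, ← hrk]
    push_cast
    ring
  have hmono : ∀ H₀ : Submodule S (DU K), H₀ ≤ TD S → N ≤ H₀ → ∀ t : ℝ, 0 < t → t < 1 →
      hm (ld E) (TD S) t - hm (ld E) H₀ t ≤ hm (ld E) (TD S) t - hm (ld E) N t := by
    intro H₀ h0 h1 t ht ht1
    have h := q (DU K) (DU K) (ld E) (ld E) (H₀.restrictScalars ℂ) ((TD S).restrictScalars ℂ)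
      (N.restrictScalars ℂ) ((TD S).restrictScalars ℂ) LinearMap.id 0 t (fun _ hu => h0 hu)
      (fun _ hu => hNM hu) (fun _ hu => hu) (fun _ _ hu => h1 hu) (fun u => by simp) hFd hFd ht
      (hSm t ht ht1) (hSm t ht ht1)
    rwa [zpow_zero, one_mul] at h
  have hev : ∀ᶠ t in L1, t ∈ Set.Ioo (0 : ℝ) 1 := Ioo_mem_nhdsLT zero_lt_one
  rw [hv]
  rcases Nat.eq_zero_or_pos (finrank K V) with h0 | h0
  · filter_upwards [hev] with t ht
    have h := hmono (TD S) le_rfl hNM t ht.1 ht.2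
    rw [h0]
    simpa using h
  · have h1 := d K ι (DU K) (DD K) S E x a (ld E) (ad E) LinearMap.id (TD S) V hC hN hP hL hVst
      (β' - β) (by linarith)
    rw [DLOx.dl_eq] at h1
    have h2 := hU (TT S ⊓ V.restrictScalars S) inf_le_left
      fun u hu => ⟨lie_mem hC.ev.tm hu.1, hVst u hu.2⟩
    rw [hrkT] at h2
    filter_upwards [hev, h1, h2] with t ht h1 h2
    have h3 := hmono (TD S ⊓ (an LinearMap.id V).restrictScalars S) inf_le_left
      (fun γ hγ => ⟨hNM hγ, fun w hw => (hV w).1 hw γ hγ⟩) t ht.1 ht.2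
    have h4 := (s K ι S E x a hC t ht.1 ht.2).2
    have h5 := (abs_le.1 h1).1
    have h6 : (1 : ℝ) ≤ finrank K V := by exact_mod_cast h0
    have h7 : 0 ≤ ((finrank K V : ℝ) - 1) * ((β' - β) * (1 - t) * hilb (op E) (SC S) t) :=
      mul_nonneg (by linarith) (mul_nonneg (mul_nonneg (by linarith) (by linarith [ht.2])) h4.le)
    simp only [hm, hs] at h3 h5
    nlinarith

end Pool.Agent.MP_51db15_ag.Qh
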