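import Pool.Agent.MP_51db15_ag.Qh.Spec6

/-! The dual of a graded lattice is a graded lattice. -/

namespace Pool.Agent.MP_51db15_ag.Qh

open Module

noncomputable section

namespace DLTx

variable {K : Type} [Field K] [Algebra ℂ K] {U W : Type} [AddCommGroup U] [Module K U]
  [Module ℂ U] [IsScalarTower ℂ K U] [AddCommGroup W] [Module K W]

theorem gens {S : Subalgebra ℂ K} {δ : End ℂ U} {M : Submodule S U} (h : Lat S δ M) :
    ∃ t : Finset U, (∀ j ∈ t, j ∈ M ∧ ∃ n : ℤ, δ j = (n : ℂ) • j) ∧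
      M = Submodule.span S (t : Set U) := by
  have e : Submodule.span S {v : U | v ∈ M ∧ ∃ n : ℤ, δ v = (n : ℂ) • v} = M := by
    refine le_antisymm (Submodule.span_le.2 fun v hv => hv.1) fun v hv => ?_
    have l : (⨆ n : ℤ, M.restrictScalars ℂ ⊓ δ.eigenspace (n : ℂ)) ≤
        (Submodule.span S {v : U | v ∈ M ∧ ∃ n : ℤ, δ v = (n : ℂ) • v}).restrictScalars ℂ :=
      iSup_le fun n u hu => Submodule.subset_span ⟨hu.1, n, End.mem_eigenspace_iff.1 hu.2⟩
    exact l (h.dz v hv)
  obtain ⟨t, ht, e'⟩ := (Submodule.fg_span_iff_fg_span_finset_subset _).1 (e.symm ▸ h.fg)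
  exact ⟨t, fun j hj => ht hj, e.symm.trans e'⟩

omit [Module ℂ U] [IsScalarTower ℂ K U] in
theorem ind {S : Subalgebra ℂ K} (b : U →ₗ[K] W →ₗ[K] K) (t : Set U) (w : W) (P : K → Prop)
    (h0 : P 0) (ha : ∀ y z, P y → P z → P (y + z)) (hs : ∀ s ∈ S, ∀ y, P y → P (s * y))
    (h : ∀ j ∈ t, P (b j w)) : ∀ u ∈ Submodule.span S t, P (b u w) := by
  intro u hu
  induction hu using Submodule.span_induction with
  | mem j hj => exact h j hj
  | zero => rwa [map_zero, LinearMap.zero_apply]
  | add y z _ _ hy hz =>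
    rw [map_add, LinearMap.add_apply]
    exact ha _ _ hy hz
  | smul s y _ hy =>
    rw [show s • y = (s : K) • y from rfl, map_smul, LinearMap.smul_apply, smul_eq_mul]
    exact hs _ s.2 _ hy

end DLTx

theorem dlt (e : S_EVG) : S_DLT := by
  intro K ι U W _ _ _ _ _ _ _ _ _ _ _ S E x a δ δ' b M hc hp hM
  classical
  obtain ⟨t, ht, hspan⟩ := DLTx.gens hM
  have mem : ∀ w, (∀ j ∈ t, b j w ∈ S) → w ∈ dl S b M := fun w h u hu =>
    DLTx.ind b (t : Set U) w (· ∈ S) (zero_mem S) (fun _ _ => add_mem) (fun _ hs _ => mul_mem hs)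
      h u (hspan ▸ hu)
  have inj : ∀ w, (∀ j ∈ t, b j w = 0) → w = 0 := fun w h => hp.right w fun u => by
    obtain ⟨s, _, s0, hu⟩ := hM.den u
    have := DLTx.ind (S := S) b (t : Set U) w (· = 0) rfl
      (fun _ _ h1 h2 => by rw [h1, h2, add_zero]) (fun _ _ _ h1 => by rw [h1, mul_zero])
      h _ (hspan ▸ hu)
    rw [map_smul, LinearMap.smul_apply, smul_eq_mul] at this
    exact (mul_eq_zero.1 this).resolve_left s0
  have st : ∀ w ∈ dl S b M, δ' w ∈ dl S b M := fun w hw u hu => by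
    have := sub_mem (hc.ev.tm _ (hw u hu)) (hw _ (hM.st u hu))
    rwa [hp.leib, add_sub_cancel_left] at this
  refine ⟨?_, st, ?_, fun w => ?_⟩
  · have := hc.bas.noeth
    let φ : dl S b M →ₗ[S] (t → S) :=
      { toFun := fun w j => ⟨b j w, w.2 j (ht j j.2).1⟩
        map_add' := fun w w' => funext fun j => Subtype.ext (map_add (b j) _ _)
        map_smul' := fun s w => funext fun j => Subtype.ext (map_smul (b j) (s : K) _) }
    have hφ : Function.Injective φ := (injective_iff_map_eq_zero φ).2 fun w hw =>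
      Subtype.ext (inj w fun j hj => congrArg Subtype.val (congrFun hw ⟨j, hj⟩))
    have := isNoetherian_of_injective φ hφ
    exact Module.Finite.iff_fg.1 inferInstance
  · choose p hp' using fun j : t => (ht j j.2).2
    refine (e W K t δ' (op E) ((dl S b M).restrictScalars ℂ) (SC S)
      (fun j => (b j).restrictScalars ℂ) p st (fun w hw j => hw j (ht j j.2).1)
      (fun w _ h => inj w fun j hj => h ⟨j, hj⟩) fun w _ j => ?_).1 hc.ev.s
    show b j (δ' w) = E (b j w) - (p j : ℂ) • b j w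
    rw [hp.leib, hp', ← algebraMap_smul K (p j : ℂ) (j : U), map_smul, LinearMap.smul_apply,
      algebraMap_smul, add_sub_cancel_left]
  · choose g hg h hh h0 hq using fun j : U => hc.bas.frac (b j w)
    refine ⟨∏ j ∈ t, h j, prod_mem fun j _ => hh j, Finset.prod_ne_zero_iff.2 fun j _ => h0 j,
      mem _ fun j hj => ?_⟩
    rw [map_smul, smul_eq_mul, hq j, ← Finset.prod_erase_mul t h hj, mul_assoc,
      mul_div_cancel₀ _ (h0 j)]
    exact mul_mem (prod_mem fun i _ => hh i) (hg j)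

end

end Pool.Agent.MP_51db15_ag.Qh
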