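import Pool.Agent.MP_51db15_ag.Qh.Spec6

/-! A quotient of a lattice and the dual submodule. -/

namespace Pool.Agent.MP_51db15_ag.Qh

open Module

namespace DSQx

theorem dz_map {U W : Type} [AddCommGroup U] [Module ℂ U] [AddCommGroup W] [Module ℂ W]
    {δ : End ℂ U} {δ' : End ℂ W} {H : Submodule ℂ U} (f : U →ₗ[ℂ] W) (h : Dz δ H)
    (c : ∀ u, δ' (f u) = f (δ u)) : Dz δ' (H.map f) := by
  have e : H.map f ≤ ⨆ n : ℤ, H.map f ⊓ δ'.eigenspace (n : ℂ) := by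
    refine (Submodule.map_mono (show H ≤ _ from h)).trans ?_
    rw [Submodule.map_iSup]
    refine iSup_mono fun n => ?_
    rintro _ ⟨u, ⟨h1, h2⟩, rfl⟩
    refine ⟨⟨u, h1, rfl⟩, End.mem_eigenspace_iff.2 ?_⟩
    rw [c, End.mem_eigenspace_iff.1 h2, map_smul]
  exact e

theorem hilb_bot {U : Type} [AddCommGroup U] [Module ℂ U] (δ : End ℂ U) (t : ℝ) :
    hilb δ ⊥ t = 0 := by
  have e : ∀ k : ℤ, (finrank ℂ ↥(⊥ ⊓ δ.eigenspace (k : ℂ)) : ℝ) * t ^ k = 0 := fun k => by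
    rw [bot_inf_eq, finrank_bot, Nat.cast_zero, zero_mul]
  rw [hilb, tsum_congr e, tsum_zero]

theorem gen (a : S_HSA) (l : S_LAT) (d : S_DDU) (dt : S_DLT) {K ι U W U₀ W₀ : Type} [Field K]
    [Algebra ℂ K] [Fintype ι] [AddCommGroup U] [Module K U] [Module ℂ U] [IsScalarTower ℂ K U]
    [AddCommGroup W] [Module K W] [Module ℂ W] [IsScalarTower ℂ K W]
    [AddCommGroup U₀] [Module K U₀] [Module ℂ U₀] [IsScalarTower ℂ K U₀]
    [AddCommGroup W₀] [Module K W₀] [Module ℂ W₀] [IsScalarTower ℂ K W₀]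
    {S : Subalgebra ℂ K} {E : DD K} {x : ι → K} {n : ι → ℕ} {δ : End ℂ U} {δ' : End ℂ W}
    {δ₀ : End ℂ U₀} {δ₁ : End ℂ W₀} {b : U →ₗ[K] W →ₗ[K] K} {b₀ : U₀ →ₗ[K] W₀ →ₗ[K] K}
    {M : Submodule S U} (f : U →ₗ[K] U₀) (i : W₀ →ₗ[K] W) (A : Submodule K U) (V : Submodule K W)
    (hc : Cone S E x n) (hn : Nrm S) (cu : Cn E δ) (p : Pr E δ₀ δ₁ b₀) (hM : Lat S δ M)
    (fs : Function.Surjective f) (hA : ∀ u, f u = 0 ↔ u ∈ A) (ii : ∀ w, i w = 0 → w = 0)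
    (hV : ∀ w, (∃ v, i v = w) ↔ w ∈ V) (cf : ∀ u, δ₀ (f u) = f (δ u))
    (ci : ∀ w, δ' (i w) = i (δ₁ w)) (cb : ∀ u w, b₀ (f u) w = b u (i w)) (ε : ℝ) (hε : 0 < ε) :
    ∀ᶠ t in L1, |hm δ M t - hm δ (M ⊓ A.restrictScalars S) t +
        hm δ' (dl S b M ⊓ V.restrictScalars S) t - 2 * finrank K W₀ * hs S E t| ≤
      ε * (1 - t) * hs S E t := by
  let Q : Submodule S U₀ := M.map (f.restrictScalars S)
  have e1 : Q.restrictScalars ℂ = (M.restrictScalars ℂ).map (f.restrictScalars ℂ) :=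
    Submodule.ext fun _ => Iff.rfl
  have hQ : Lat S δ₀ Q := by
    refine ⟨hM.fg.map _, ?_, e1 ▸ dz_map _ hM.dz cf, fun u => ?_⟩
    · rintro _ ⟨u, hu, rfl⟩
      exact ⟨δ u, hM.st u hu, (cf u).symm⟩
    · obtain ⟨u, rfl⟩ := fs u
      obtain ⟨s, s1, s2, s3⟩ := hM.den u
      exact ⟨s, s1, s2, s • u, s3, map_smul f s u⟩
  have hD := dt K ι U₀ W₀ S E x n δ₀ δ₁ b₀ Q hc p hQ
  have e2 : M.restrictScalars ℂ ⊓ LinearMap.ker (f.restrictScalars ℂ) =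
      (M ⊓ A.restrictScalars S).restrictScalars ℂ :=
    Submodule.ext fun u => and_congr Iff.rfl (hA u)
  have e3 : (dl S b₀ Q).restrictScalars ℂ ⊓ LinearMap.ker (i.restrictScalars ℂ) = ⊥ :=
    eq_bot_iff.2 fun w hw => ii w hw.2
  have e4 : ((dl S b₀ Q).restrictScalars ℂ).map (i.restrictScalars ℂ) =
      (dl S b M ⊓ V.restrictScalars S).restrictScalars ℂ := by
    ext w
    constructor
    · rintro ⟨v, hv, rfl⟩
      exact ⟨fun u hu => (cb u v) ▸ hv (f u) ⟨u, hu, rfl⟩, (hV _).1 ⟨v, rfl⟩⟩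
    · rintro ⟨h1, h2⟩
      obtain ⟨v, rfl⟩ := (hV w).2 h2
      refine ⟨v, ?_, rfl⟩
      rintro _ ⟨u, hu, rfl⟩
      exact (cb u v).symm ▸ h1 u hu
  obtain ⟨l1, l2⟩ := l K ι U S E x n δ M hc cu hM
  obtain ⟨l3, l4⟩ := l K ι W₀ S E x n δ₁ _ hc p.cw hD
  filter_upwards [d K ι U₀ W₀ S E x n δ₀ δ₁ b₀ Q hc hn p hQ ε hε,
    Ioo_mem_nhdsLT (zero_lt_one' ℝ)] with t h ht
  have a1 := a U U₀ δ δ₀ _ (f.restrictScalars ℂ) 0 t hM.dz l1 (fun u => by simpa using cf u) ht.1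
    (l2 t ht.1 ht.2)
  have a2 := a W₀ W δ₁ δ' _ (i.restrictScalars ℂ) 0 t hD.dz l3 (fun w => by simpa using ci w) ht.1
    (l4 t ht.1 ht.2)
  rw [zpow_zero, one_mul, ← e1, e2] at a1
  rw [zpow_zero, one_mul, e3, e4, hilb_bot, sub_zero] at a2
  simp only [hm] at h ⊢
  rwa [a2, ← a1]

end DSQx

theorem dsq (a : S_HSA) (l : S_LAT) (d : S_DDU) (t : S_DLT) : S_DSQ := by
  intro K ι U W _ _ _ _ _ _ _ _ _ _ _ S E x n δ δ' b M V hc hn p hM hV ε hε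
  obtain ⟨g, hg⟩ := (an b V).mkQ.exists_rightInverse_of_surjective (an b V).range_mkQ
  have z : ∀ u, (an b V).mkQ u = 0 ↔ u ∈ an b V := fun u => Submodule.Quotient.mk_eq_zero _
  have k : ∀ u, g ((an b V).mkQ u) - u ∈ an b V := fun u => (z _).1 (by
    rw [map_sub, sub_eq_zero]
    exact LinearMap.congr_fun hg _)
  have st : ∀ u ∈ an b V, δ u ∈ an b V := fun u hu w hw => by
    have := p.leib u w
    rwa [hu w hw, hu _ (hV w hw), map_zero, add_zero, eq_comm] at this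
  let δ₀ : End ℂ (U ⧸ an b V) :=
    (an b V).mkQ.restrictScalars ℂ ∘ₗ δ ∘ₗ g.restrictScalars ℂ
  let δ₁ : End ℂ V :=
    { toFun := fun w => ⟨δ' w, hV w w.2⟩
      map_add' := fun v w => Subtype.ext (map_add δ' v.1 w.1)
      map_smul' := fun c w => Subtype.ext (map_smul δ' c w.1) }
  let b₀ : (U ⧸ an b V) →ₗ[K] V →ₗ[K] K := (b ∘ₗ g).compl₂ V.subtype
  have cf : ∀ u, δ₀ ((an b V).mkQ u) = (an b V).mkQ (δ u) := fun u => by
    have := (z _).2 (st _ (k u))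
    rwa [map_sub, map_sub, sub_eq_zero] at this
  have cb : ∀ u (w : V), b₀ ((an b V).mkQ u) w = b u w := fun u w => by
    have := k u w w.2
    rwa [map_sub, LinearMap.sub_apply, sub_eq_zero] at this
  have := p.fu
  have := p.fw
  refine DSQx.gen a l d t (δ₀ := δ₀) (δ₁ := δ₁) (b₀ := b₀) (an b V).mkQ V.subtype (an b V) V hc hn
    p.cu ⟨fun c u => ?_, fun c w => Subtype.ext (p.cw c w), inferInstance, inferInstance,
      fun u h => ?_, fun w h => Subtype.ext (p.right w fun u => (cb u w).symm.trans (h _)),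
      fun u w => ?_⟩ hM (an b V).mkQ_surjective z (fun w h => Subtype.ext h)
    (fun w => ⟨fun ⟨v, e⟩ => e ▸ v.2, fun h => ⟨⟨w, h⟩, rfl⟩⟩) cf (fun _ => rfl) cb ε hε
  · obtain ⟨u, rfl⟩ := (an b V).mkQ_surjective u
    rw [← map_smul, cf, cf, p.cu, map_add, map_smul, map_smul]
  · obtain ⟨u, rfl⟩ := (an b V).mkQ_surjective u
    exact (z u).2 fun w hw => (cb u ⟨w, hw⟩).symm.trans (h _)
  · obtain ⟨u, rfl⟩ := (an b V).mkQ_surjective u
    rw [cf, cb, cb, cb]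
    exact p.leib u w

end Pool.Agent.MP_51db15_ag.Qh
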