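import Pool.Agent.MP_51db15_ag.Qh.Spec6

/-! DST: one step in a chain of lattices and the dual step. -/

namespace Pool.Agent.MP_51db15_ag.Qh

open Module Filter

noncomputable section

namespace DSTx

theorem arith {X Y A B p r h e c : ℝ} (hp : 0 < p) (hr : 0 < r) (h1 : p * X ≤ B) (h2 : r * B ≤ A)
    (h3 : p * A ≤ Y) (h4 : 0 ≤ A) (h5 : A ≤ c * h) (h6 : (p * r)⁻¹ - p ≤ e / (c + 1)) (hc : 0 ≤ c)
    (he : 0 < e) (hh : 0 ≤ h) : X ≤ Y + e * h := by
  have a1 : (p * r) * X ≤ A := by nlinarith [mul_le_mul_of_nonneg_left h1 hr.le]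
  have a2 : X ≤ (p * r)⁻¹ * A := (le_inv_mul_iff₀ (mul_pos hp hr)).2 a1
  have a3 := mul_le_mul_of_nonneg_right h6 h4
  have a4 : e / (c + 1) * A ≤ e / (c + 1) * ((c + 1) * h) :=
    mul_le_mul_of_nonneg_left (by nlinarith) (by positivity)
  have a5 : e / (c + 1) * ((c + 1) * h) = e * h := by field_simp
  rw [sub_mul] at a3
  linarith

theorem near (d : ℤ) (c : ℕ) {e : ℝ} (he : 0 < e) :
    ∀ᶠ t in L1, 0 < t ∧ t < 1 ∧ (t ^ d * t ^ c)⁻¹ - t ^ d ≤ e := by
  have h1 : ContinuousAt (fun t : ℝ => t ^ d) 1 := continuousAt_zpow₀ 1 d (Or.inl one_ne_zero)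
  have h2 : ContinuousAt (fun t : ℝ => t ^ c) 1 := continuousAt_pow 1 c
  have h3 : ContinuousAt (fun t : ℝ => (t ^ d * t ^ c)⁻¹ - t ^ d) 1 :=
    ((h1.mul h2).inv₀ (by simp)).sub h1
  have h4 : ∀ᶠ t in nhds (1 : ℝ), (t ^ d * t ^ c)⁻¹ - t ^ d < e :=
    h3.tendsto.eventually_lt_const (by simpa using he)
  have h5 : ∀ᶠ t in nhds (1 : ℝ), 0 < t := lt_mem_nhds one_pos
  filter_upwards [h4.filter_mono nhdsWithin_le_nhds, h5.filter_mono nhdsWithin_le_nhds,
    self_mem_nhdsWithin] with t a b c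
  exact ⟨b, c, a.le⟩

variable {K : Type} [Field K] [Algebra ℂ K] {U : Type} [AddCommGroup U] [Module K U]
  [Module ℂ U] [IsScalarTower ℂ K U]

theorem cn (E : DD K) : Cn E (op E) := fun g u => by
  simp only [op_apply, smul_eq_mul, Derivation.leibniz]
  ring

theorem pr (E : DD K) : Pr E (op E) (op E) (LinearMap.mul K K) where
  cu := cn E
  cw := cn E
  fu := inferInstance
  fw := inferInstance
  left u h := by simpa using h 1
  right u h := by simpa using h 1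
  leib u w := by
    simp only [op_apply, LinearMap.mul_apply', smul_eq_mul, Derivation.leibniz]
    ring

/-- multiplication of a fixed vector -/
def mu (K : Type) [Field K] [Algebra ℂ K] [Module K U] [IsScalarTower ℂ K U] (m : U) :
    K →ₗ[ℂ] U := (LinearMap.toSpanSingleton K U m).restrictScalars ℂ

theorem mu_apply (m : U) (g : K) : mu K m g = g • m := rfl

theorem mu_deg {E : DD K} {δ : End ℂ U} (h : Cn E δ) {m : U} {d : ℤ} (hm : δ m = (d : ℂ) • m)
    (g : K) : δ (mu K m g) = mu K m (op E g) + (d : ℂ) • mu K m g := by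
  rw [mu_apply, mu_apply, h, hm, op_apply, smul_comm g, add_comm]

omit [Module ℂ U] [IsScalarTower ℂ K U] in
theorem mem_sup {S : Subalgebra ℂ K} {M : Submodule S U} {m u : U}
    (h : u ∈ M ⊔ Submodule.span S {m}) : ∃ v ∈ M, ∃ g ∈ S, u = v + g • m := by
  obtain ⟨v, hv, z, hz, rfl⟩ := Submodule.mem_sup.1 h
  obtain ⟨g, rfl⟩ := Submodule.mem_span_singleton.1 hz
  exact ⟨v, hv, g, g.2, rfl⟩

omit [Module ℂ U] [IsScalarTower ℂ K U] in
theorem smul_mem {S : Subalgebra ℂ K} (M : Submodule S U) (m : U) {g : K} (hg : g ∈ S) :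
    g • m ∈ M ⊔ Submodule.span S {m} :=
  Submodule.mem_sup_right (Submodule.mem_span_singleton.2 ⟨⟨g, hg⟩, rfl⟩)

theorem lat {S : Subalgebra ℂ K} {E : DD K} {δ : End ℂ U} (hE : Ev S E) (h : Cn E δ)
    {M : Submodule S U} (hM : Lat S δ M) {m : U} {d : ℤ} (hm : δ m = (d : ℂ) • m) :
    Lat S δ (M ⊔ Submodule.span S {m}) where
  fg := hM.fg.sup (Submodule.fg_span_singleton m)
  st u hu := by
    obtain ⟨v, hv, g, hg, rfl⟩ := mem_sup hu
    rw [map_add, ← mu_apply, mu_deg h hm, ← map_smul]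
    exact add_mem (Submodule.mem_sup_left (hM.st v hv))
      (add_mem (smul_mem M m (hE.tm g hg)) (smul_mem M m (S.smul_mem hg _)))
  dz u hu := by
    obtain ⟨v, hv, g, hg, rfl⟩ := mem_sup hu
    refine add_mem ?_ ?_
    · refine (iSup_mono fun n => inf_le_inf_right _ ?_ :
        (⨆ n : ℤ, M.restrictScalars ℂ ⊓ δ.eigenspace (n : ℂ)) ≤ _) (hM.dz v hv)
      exact fun w hw => Submodule.mem_sup_left hw
    · have key : (⨆ n : ℤ, SC S ⊓ (op E).eigenspace (n : ℂ)) ≤ Submodule.comap (mu K m)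
          (⨆ n : ℤ, (M ⊔ Submodule.span S {m}).restrictScalars ℂ ⊓ δ.eigenspace (n : ℂ)) := by
        refine iSup_le fun n y hy => Submodule.mem_iSup_of_mem (n + d) ⟨smul_mem M m hy.1, ?_⟩
        have h2 : op E y = (n : ℂ) • y := End.mem_eigenspace_iff.1 hy.2
        refine End.mem_eigenspace_iff.2 ?_
        rw [mu_deg h hm, h2, map_smul, Int.cast_add, add_smul]
      exact key (hE.s g hg)
  den u := by
    obtain ⟨s, hs, h0, h1⟩ := hM.den u
    exact ⟨s, hs, h0, Submodule.mem_sup_left h1⟩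

end DSTx

theorem dst (q : S_HSQ) (l : S_LAT) (d : S_DLT) (p : S_PINV) (s : S_HSS) : S_DST := by
  intro K ι U W _ _ _ _ _ _ _ _ _ _ _ S E x a δ δ' b M m n P hC hN hb hM hm hP hPM
  have hL := DSTx.lat hC.ev hb.cu hM hm
  refine ⟨hL, fun ε hε => ?_⟩
  have hP0 : P ≠ ⊥ := by
    obtain ⟨g, hg, h0, h1⟩ := hM.den m
    intro h
    have h2 : (⟨g, hg⟩ : S) ∈ P := (hPM ⟨g, hg⟩).1 h1
    rw [h, Ideal.mem_bot] at h2
    exact h0 (congrArg Subtype.val h2)
  have hPE : ∀ g ∈ P, In P (E g) := by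
    intro g hg
    have h1 : (g : K) • m ∈ M := (hPM g).2 hg
    have h2 := hM.st _ h1
    rw [← DSTx.mu_apply, DSTx.mu_deg hb.cu hm] at h2
    have h3 : (n : ℂ) • DSTx.mu K m (g : K) ∈ M := (M.restrictScalars ℂ).smul_mem _ h1
    have h4 : (E g : K) • m ∈ M := (Submodule.add_mem_iff_left M h3).1 h2
    exact ⟨⟨E g, hC.ev.tm g g.2⟩, (hPM _).1 h4, rfl⟩
  obtain ⟨hI, c, hc⟩ := p K ι S E x a P hC hN hP hP0 hPE
  obtain ⟨f1, s1⟩ := l K ι W S E x a δ' _ hC hb.cw (d K ι U W S E x a δ δ' b M hC hb hM)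
  obtain ⟨f2, s2⟩ := l K ι K S E x a (op E) _ hC (DSTx.cn E)
    (d K ι K K S E x a (op E) (op E) _ _ hC (DSTx.pr E) hI)
  obtain ⟨f3, s3⟩ := l K ι U S E x a δ _ hC hb.cu hL
  filter_upwards [DSTx.near n c (div_pos hε (by positivity : (0 : ℝ) < c + 1))] with t ht
  obtain ⟨t0, t1, t2⟩ := ht
  obtain ⟨c1, c2, c3⟩ := hc t t0 t1
  obtain ⟨s4, s5⟩ := s K ι S E x a hC t t0 t1
  have q1 := q W K δ' (op E) ((dl S b (M ⊔ Submodule.span S {m})).restrictScalars ℂ)
    ((dl S b M).restrictScalars ℂ) (SC S)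
    ((dl S (LinearMap.mul K K) (idl P)).restrictScalars ℂ) ((b m).restrictScalars ℂ) n t
    (fun w hw u hu => hw u (Submodule.mem_sup_left hu))
    (fun y hy u hu => by
      obtain ⟨g, -, rfl⟩ := hu
      exact mul_mem g.2 hy)
    (fun w hw u hu => by
      obtain ⟨g, hg, rfl⟩ := hu
      have h1 := hw _ ((hPM g).2 hg)
      rw [show g • m = (g : K) • m from rfl, map_smul] at h1
      exact h1)
    (fun w hw h u hu => by
      obtain ⟨v, hv, g, hg, rfl⟩ := DSTx.mem_sup hu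
      rw [map_add, map_smul]
      exact add_mem (hw v hv) (mul_mem hg h))
    (fun w => by
      have h1 := hb.leib m w
      rw [hm, lin_c b, add_comm] at h1
      exact h1)
    f1 f2 t0 (s1 t t0 t1) (s2 t t0 t1)
  have q2 := q K U (op E) δ ((idl P).restrictScalars ℂ) (SC S) (M.restrictScalars ℂ)
    ((M ⊔ Submodule.span S {m}).restrictScalars ℂ) (DSTx.mu K m) n t
    (fun y hy => by
      obtain ⟨g, -, rfl⟩ := hy
      exact g.2)
    (fun w hw => Submodule.mem_sup_left hw) (fun g hg => DSTx.smul_mem M m hg)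
    (fun g hg h => ⟨⟨g, hg⟩, (hPM ⟨g, hg⟩).1 h, rfl⟩) (DSTx.mu_deg hb.cu hm) hC.vtx.fd f3 t0 s4
    (s3 t t0 t1)
  rw [mul_assoc] at c3 ⊢
  exact DSTx.arith (zpow_pos t0 n) (pow_pos t0 c) q1 c1 q2 c2 c3 t2 (Nat.cast_nonneg c) hε
    (mul_nonneg (sub_nonneg.2 t1.le) s5.le)

end

end Pool.Agent.MP_51db15_ag.Qh
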