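import Pool.Agent.MP_51db15_ag.Qh.Spec

/-! Row DUAL: the dual fields of a Noether normalisation. -/

namespace Pool.Agent.MP_51db15_ag.Qh

namespace DUALx

variable {K : Type} [Field K] [Algebra ℂ K] {M : ℕ} {f : Fin M → K}

theorem fin {ι : Type} [Fintype ι] (x : ι → K)
    (hfr : ∀ y : K, ∃ g ∈ Algebra.adjoin ℂ (Set.range x), ∃ h ∈ Algebra.adjoin ℂ (Set.range x),
      h ≠ 0 ∧ y = g / h)
    (hI : ∀ g ∈ Algebra.adjoin ℂ (Set.range x), IsIntegral (Algebra.adjoin ℂ (Set.range f)) g) :
    FiniteDimensional (IntermediateField.adjoin ℂ (Set.range f)) K := by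
  set F := IntermediateField.adjoin ℂ (Set.range f)
  have h1 : ∀ z ∈ Set.range x, IsIntegral F z := fun z hz =>
    IsIntegral.map_of_comp_eq (T := F)
      (Subalgebra.inclusion (IntermediateField.algebra_adjoin_le_adjoin ℂ (Set.range f))).toRingHom
      (RingHom.id K) (RingHom.ext fun _ => rfl) (hI z (Algebra.subset_adjoin hz))
  have h2 := IntermediateField.finiteDimensional_adjoin h1
  have h3 : Algebra.adjoin ℂ (Set.range x) ≤
      (IntermediateField.adjoin F (Set.range x)).toSubalgebra.restrictScalars ℂ :=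
    Algebra.adjoin_le (IntermediateField.subset_adjoin F _)
  have h4 : IntermediateField.adjoin F (Set.range x) = ⊤ := by
    refine eq_top_iff.2 fun y _ => ?_
    obtain ⟨g, hg, h, hh, -, rfl⟩ := hfr y
    exact div_mem (h3 hg) (h3 hh)
  rw [h4] at h2
  exact IntermediateField.topEquiv.toLinearEquiv.finiteDimensional

theorem basis (S : Subalgebra ℂ K) (hfr : ∀ y : K, ∃ g ∈ S, ∃ h ∈ S, h ≠ 0 ∧ y = g / h)
    (hf : AlgebraicIndependent ℂ f)
    (hI : ∀ g ∈ S, IsIntegral (Algebra.adjoin ℂ (Set.range f)) g) :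
    ∃ b : Module.Basis (Fin M) K (KaehlerDifferential ℂ K),
      ∀ j, b j = KaehlerDifferential.D ℂ K (f j) := by
  set A := MvPolynomial (Fin M) ℂ
  let : Algebra A K := (MvPolynomial.aeval f).toRingHom.toAlgebra
  have : IsScalarTower ℂ A K := IsScalarTower.of_algebraMap_eq fun c =>
    ((MvPolynomial.aeval f).commutes c).symm
  have : FaithfulSMul A K := (faithfulSMul_iff_algebraMap_injective A K).2
    (algebraicIndependent_iff_injective_aeval.1 hf)
  let := FractionRing.liftAlgebra A K
  have h1 : ∀ g ∈ S, IsIntegral (FractionRing A) g := fun g hg =>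
    (IsIntegral.map_of_comp_eq (T := A) hf.repr.toRingHom (RingHom.id K)
      (RingHom.ext fun p => hf.aeval_repr p) (hI g hg)).tower_top
  have : Algebra.IsAlgebraic (FractionRing A) K := ⟨fun y => by
    obtain ⟨g, hg, h, hh, -, rfl⟩ := hfr y
    rw [div_eq_mul_inv]
    exact ((h1 g hg).mul (h1 h hh).isAlgebraic.inv.isIntegral).isAlgebraic⟩
  have : CharZero (FractionRing A) := IsFractionRing.charZero_of_isFractionRing A
  have : Algebra.FormallyEtale (FractionRing A) K := .of_isSeparable _ _
  have : Algebra.FormallyEtale A (FractionRing A) := .of_isLocalization (nonZeroDivisors A)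
  have : Algebra.FormallyEtale A K := .comp A (FractionRing A) K
  have hb := KaehlerDifferential.isBaseChange_of_formallyEtale ℂ A K
  refine ⟨hb.basis (KaehlerDifferential.mvPolynomialBasis ℂ (Fin M)), fun j => ?_⟩
  rw [IsBaseChange.basis_apply, KaehlerDifferential.mvPolynomialBasis_apply,
    KaehlerDifferential.map_D]
  congr 1
  exact MvPolynomial.aeval_X f j

theorem dual (b : Module.Basis (Fin M) K (KaehlerDifferential ℂ K))
    (hb : ∀ j, b j = KaehlerDifferential.D ℂ K (f j)) :
    ∃ d : Fin M → Derivation ℂ K K, (∀ i j, d i (f j) = if i = j then 1 else 0) ∧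
      ∀ D : Derivation ℂ K K, D = ∑ j, D (f j) • d j := by
  refine ⟨fun i => (b.coord i).compDer (KaehlerDifferential.D ℂ K), fun i j => ?_, fun D => ?_⟩
  · change b.coord i (KaehlerDifferential.D ℂ K (f j)) = _
    rw [← hb, Module.Basis.coord_apply, b.repr_self, Finsupp.single_apply]
    exact if_congr eq_comm rfl rfl
  · ext y
    have e := congrArg D.liftKaehlerDifferential (b.sum_repr (KaehlerDifferential.D ℂ K y))
    rw [map_sum, Derivation.liftKaehlerDifferential_comp_D] at e
    rw [← e]
    refine Eq.trans ?_ (map_sum (dd y) _ _).symm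
    refine Finset.sum_congr rfl fun j _ => ?_
    rw [map_smul, hb, Derivation.liftKaehlerDifferential_comp_D, smul_eq_mul, mul_comm]
    rfl

end DUALx

theorem dual : S_DUAL := by
  intro K ι _ _ _ S t x a M f hc hf hI
  obtain ⟨b, hb⟩ := DUALx.basis S hc.frac hf hI
  refine ⟨?_, DUALx.dual b hb⟩
  have h1 := hc.frac
  rw [← hc.gen] at h1 hI
  exact DUALx.fin x h1 hI

end Pool.Agent.MP_51db15_ag.Qh
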