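import Pool.Agent.MP_51db15_ag.Qh.Spec6

/-! Row DUP: submodules of the forms. -/

namespace Pool.Agent.MP_51db15_ag.Qh

open Module

namespace DUPx

theorem mono {U : Type} [AddCommGroup U] [Module ℂ U] (δ : End ℂ U) {H G : Submodule ℂ U}
    (h : H ≤ G) (f : Fd δ G) {t : ℝ} (ht : 0 < t) (s : Smb δ G t) : hilb δ H t ≤ hilb δ G t := by
  have le : ∀ k : ℤ, (finrank ℂ ↥(H ⊓ δ.eigenspace (k : ℂ)) : ℝ) * t ^ k ≤
      (finrank ℂ ↥(G ⊓ δ.eigenspace (k : ℂ)) : ℝ) * t ^ k := fun k => by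
    have := f (k : ℂ)
    exact mul_le_mul_of_nonneg_right
      (Nat.cast_le.2 (Submodule.finrank_mono (inf_le_inf_right _ h))) (zpow_pos ht k).le
  exact Summable.tsum_le_tsum le
    (Summable.of_nonneg_of_le (fun k => mul_nonneg (Nat.cast_nonneg _) (zpow_pos ht k).le) le s) s

theorem sub {U : Type} [AddCommGroup U] [Module ℂ U] (δ : End ℂ U) {H G : Submodule ℂ U}
    (h : H ≤ G) (f : Fd δ G) :
    Fd δ H ∧ ∀ t : ℝ, 0 < t → Smb δ G t → Smb δ H t := by
  refine ⟨fun c => ?_, fun t ht s => ?_⟩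
  · have := f c
    exact Submodule.finiteDimensional_of_le (inf_le_inf_right _ h)
  · refine Summable.of_nonneg_of_le
      (fun k => mul_nonneg (Nat.cast_nonneg _) (zpow_pos ht k).le) (fun k => ?_) s
    have := f (k : ℂ)
    exact mul_le_mul_of_nonneg_right
      (Nat.cast_le.2 (Submodule.finrank_mono (inf_le_inf_right _ h))) (zpow_pos ht k).le

theorem hilb_bot {U : Type} [AddCommGroup U] [Module ℂ U] (δ : End ℂ U) (t : ℝ) :
    hilb δ ⊥ t = 0 := by
  have : ∀ k : ℤ, finrank ℂ ↥((⊥ : Submodule ℂ U) ⊓ δ.eigenspace (k : ℂ)) = 0 := fun k => by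
    rw [bot_inf_eq]; exact finrank_bot ℂ U
  simp only [hilb, this, Nat.cast_zero, zero_mul, tsum_zero]

theorem span_inf {K U : Type} [Field K] [Algebra ℂ K] [AddCommGroup U] [Module K U]
    {S : Subalgebra ℂ K} (M : Submodule S U) (hM : ∀ u : U, ∃ s : K, s ∈ S ∧ s ≠ 0 ∧ s • u ∈ M)
    (A : Submodule K U) :
    Submodule.span K ((M ⊓ A.restrictScalars S : Submodule S U) : Set U) = A := by
  refine le_antisymm (Submodule.span_le.2 fun u hu => hu.2) fun u hu => ?_
  obtain ⟨s, -, s0, hs⟩ := hM u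
  have : u = s⁻¹ • s • u := by rw [smul_smul, inv_mul_cancel₀ s0, one_smul]
  rw [this]
  exact Submodule.smul_mem _ _ (Submodule.subset_span ⟨hs, A.smul_mem s hu⟩)

end DUPx

theorem dup (_q : S_HSQ) (l : S_LAT) (d : S_DSQ) (s : S_HSS) : S_DUP := by
  intro K ι _ _ _ S E x a α α' C nr hα lo N hN st
  have := C.bas.fd
  let b : DD K →ₗ[K] DU K →ₗ[K] K := Module.Dual.eval K (DD K)
  have hb : ∀ (D : DD K) (γ : DU K), b D γ = γ D := fun _ _ => rfl
  have pr : Pr E (ad E) (ld E) b :=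
    ⟨fun g D => lie_smul' E D g, fun g γ => ld_smul E g γ, inferInstance, inferInstance,
      fun D h => (Module.forall_dual_apply_eq_zero_iff K D).1 h,
      fun γ h => LinearMap.ext h, fun D γ => by
        rw [hb, hb, hb, ld_apply, ad_apply]; ring⟩
  have lT : Lat S (ad E) (TT S) :=
    ⟨C.bas.fgT, fun u hu => lie_mem C.ev.tm hu, C.ev.T, C.bas.den⟩
  have lD : Lat S (ld E) (TD S) :=
    ⟨C.bas.fgD, fun u hu => ld_mem C.ev.tm hu, C.ev.D, C.bas.denD⟩
  have e : dl S b (TT S) = TD S := Submodule.ext fun _ => Iff.rfl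
  set V : Submodule K (DU K) := Submodule.span K (N : Set (DU K)) with hV
  have sV : ∀ w ∈ V, ld E w ∈ V := by
    intro w hw
    induction hw using Submodule.span_induction with
    | mem w hw => exact Submodule.subset_span (st w hw)
    | zero => rw [map_zero]; exact zero_mem _
    | add u v _ _ hu hv => rw [map_add]; exact add_mem hu hv
    | smul g u hu h => rw [ld_smul]; exact add_mem (V.smul_mem _ h) (V.smul_mem _ hu)
  have rN : rk N = finrank K V := rfl
  rcases Nat.eq_zero_or_pos (finrank K V) with h0 | hp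
  · have hb0 : N.restrictScalars ℂ = ⊥ := by
      rw [eq_bot_iff]
      intro u hu
      have h1 : u ∈ V := Submodule.subset_span hu
      rw [Submodule.finrank_eq_zero.1 h0] at h1
      exact h1
    refine Filter.Eventually.of_forall fun t => ?_
    rw [hb0, DUPx.hilb_bot, rN, h0]
    simp
  have ea : an b V = V.dualCoannihilator :=
    Submodule.ext fun D => (Submodule.mem_dualCoannihilator D).symm
  have r1 : rk (TT S) = finrank K (DD K) := by
    have h := DUPx.span_inf (TT S) C.bas.den ⊤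
    rw [Submodule.restrictScalars_top, inf_top_eq] at h
    rw [rk, h, finrank_top]
  have r2 : rk (TT S ⊓ (an b V).restrictScalars S) = finrank K (an b V) := by
    rw [rk, DUPx.span_inf (TT S) C.bas.den]
  have r3 : finrank K V + finrank K (an b V) = finrank K (DD K) := by
    rw [ea]; exact Subspace.finrank_add_finrank_dualCoannihilator_eq V
  have r4 : ((rk (TT S) : ℝ) - rk (TT S ⊓ (an b V).restrictScalars S)) = finrank K V := by
    rw [r1, r2, ← r3]; push_cast; ring
  have h1 := lo (TT S ⊓ (an b V).restrictScalars S) inf_le_left fun D hD =>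
    ⟨lie_mem C.ev.tm hD.1, fun γ hγ => by
      have h2 := pr.leib D γ
      rw [hD.2 γ hγ, hD.2 _ (sV γ hγ), map_zero, add_zero] at h2
      exact h2.symm⟩
  have h2 := d K ι (DD K) (DU K) S E x a (ad E) (ld E) b (TT S) V C nr pr lT sV (α - α')
    (sub_pos.2 hα)
  obtain ⟨fD, sD⟩ := l K ι (DU K) S E x a (ld E) (TD S) C pr.cw lD
  have le1 : (TD S ⊓ V.restrictScalars S).restrictScalars ℂ ≤ (TD S).restrictScalars ℂ :=
    fun u hu => hu.1
  obtain ⟨fV, sV'⟩ := DUPx.sub (ld E) le1 fD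
  have le2 : N.restrictScalars ℂ ≤ (TD S ⊓ V.restrictScalars S).restrictScalars ℂ :=
    fun u hu => ⟨hN hu, Submodule.subset_span hu⟩
  filter_upwards [h1, h2, Ioo_mem_nhdsLT (zero_lt_one' ℝ)] with t h1 h2 ht
  have h3 := DUPx.mono (ld E) le2 fV ht.1 (sV' t ht.1 (sD t ht.1 ht.2))
  have h4 := (s K ι S E x a C t ht.1 ht.2).2
  rw [r4] at h1
  rw [e] at h2
  have h5 := (abs_le.1 h2).2
  have h6 : (1 : ℝ) ≤ finrank K V := by exact_mod_cast hp
  have h7 : 0 ≤ ((finrank K V : ℝ) - 1) * ((α - α') * (1 - t) * hilb (op E) (SC S) t) :=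
    mul_nonneg (sub_nonneg.2 h6)
      (mul_nonneg (mul_nonneg (sub_pos.2 hα).le (sub_pos.2 ht.2).le) h4.le)
  rw [rN]
  simp only [hm, hs] at h5
  nlinarith [h1, h3, h5, h7]

end Pool.Agent.MP_51db15_ag.Qh
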