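import Pool.Agent.MP_51db15_ag.Qh.Spec

/-! PROJECT QH, row DVA: a valuation ring over a discrete valuation ring in a finite extension is
a localisation of the integral closure. -/

namespace Pool.Agent.MP_51db15_ag.Qh

namespace DVAx

theorem core (W F K : Type) [CommRing W] [IsDomain W] [IsDiscreteValuationRing W] [Field F]
    [Algebra W F] [IsFractionRing W F] [Field K] [Algebra F K] [Algebra W K]
    [IsScalarTower W F K] [FiniteDimensional F K] [CharZero F]
    (hQ : ∀ n : ℕ, n ≠ 0 → IsUnit (n : W)) (V : ValuationSubring K)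
    (hV : ∀ a : W, algebraMap W K a ∈ V)
    (hn : ∀ a : W, ¬ IsUnit a → algebraMap W K a ∈ V.nonunits) :
    ∃ v : DV K, Hy.EXTV.Dat v (algebraMap W K).range ∧ (∀ y, y ∈ V ↔ v.Ge 0 y) ∧
      (∀ y, y ∈ V.nonunits ↔ v.Ge 1 y) ∧ ∀ y ∈ V, ∃ b s : K, IsIntegral W b ∧ IsIntegral W s ∧
        s ∉ V.nonunits ∧ y = b / s := by
  classical
  let B := integralClosure W K
  have : IsDedekindDomain B := integralClosure.isDedekindDomain W F K
  have : IsFractionRing B K := integralClosure.isFractionRing_of_finite_extension F K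
  have hfin : Module.Finite W B := IsIntegralClosure.finite W F K B
  have hB : ∀ b : B, (b : K) ∈ V := fun b => by
    obtain ⟨p, p1, p2⟩ := b.2
    have k : IsIntegral V (b : K) := ⟨p.map ((algebraMap W K).codRestrict V hV), p1.map _, by
      rw [Polynomial.eval₂_map]; exact p2⟩
    obtain ⟨y, e⟩ := IsIntegrallyClosed.isIntegral_iff.1 k
    exact e ▸ y.2
  let M : Ideal B := (IsLocalRing.maximalIdeal V).comap (B.val.toRingHom.codRestrict V hB)
  have mM : ∀ b : B, b ∈ M ↔ (b : K) ∈ V.nonunits := fun b =>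
    (ValuationSubring.coe_mem_nonunits_iff (A := V) (a := ⟨(b : K), hB b⟩)).symm
  have hM0 : M ≠ ⊥ := by
    obtain ⟨π, hπ⟩ := IsDiscreteValuationRing.exists_irreducible W
    intro h
    have h1 := (mM (algebraMap W B π)).2 (hn π hπ.not_isUnit)
    rw [h, Ideal.mem_bot] at h1
    have h2 : algebraMap F K (algebraMap W F π) = 0 := by
      rw [← IsScalarTower.algebraMap_apply]
      exact congrArg Subtype.val h1
    exact hπ.ne_zero (by simpa using h2)
  have hP : M.IsPrime := Ideal.comap_isPrime _ _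
  have hM : M.IsMaximal := hP.isMaximal hM0
  have hc : ∀ a : W, algebraMap W B a ∈ M ↔ ¬ IsUnit a := fun a => by
    rw [← Ideal.mem_comap,
      IsLocalRing.eq_maximalIdeal (Ideal.isMaximal_comap_of_isIntegral_of_isMaximal (R := W) M)]
    rfl
  let L := Localization.subalgebra.ofField K M.primeCompl M.primeCompl_le_nonZeroDivisors
  have : IsDiscreteValuationRing L :=
    IsLocalization.AtPrime.isDiscreteValuationRing_of_dedekind_domain B hM0 L
  obtain ⟨v, h1, h2⟩ := exists_dv (K := K) L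
  have g0 : ∀ y, v.Ge 0 y → ∃ a s : B, s ∉ M ∧ y = a / s := fun y hy => by
    obtain ⟨⟨_, a, s, hs, rfl⟩, rfl⟩ := (h1 y).1 hy
    exact ⟨a, s, hs, by rw [div_eq_mul_inv]; rfl⟩
  have g1 : ∀ a : B, v.Ge 0 (a : K) := fun a => (h1 _).2 ⟨algebraMap B L a, rfl⟩
  have g2 : ∀ a : B, v.Ge 1 (a : K) ↔ a ∈ M := fun a => by
    rw [← IsLocalization.AtPrime.to_map_mem_maximal_iff L M a, ← h2]
    rfl
  have g3 : ∀ y, y ∈ V ↔ v.Ge 0 y := fun y => by
    refine ⟨fun hy => by_contra fun k => ?_, fun hy => ?_⟩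
    · have y0 : y ≠ 0 := fun e => k (Or.inl e)
      have k1 : v.Ge 1 y⁻¹ := by
        rw [DV.ge_iff y0] at k
        exact Or.inr (by rw [v.ord_inv y0]; omega)
      obtain ⟨a, s, hs, e⟩ := g0 _ (k1.mono zero_le_one)
      have s0 : (s : K) ≠ 0 := (DV.unit_of_not_ge (g1 s) fun h => hs ((g2 s).1 h)).1
      rw [eq_div_iff s0] at e
      have k2 : (a : K) ∈ V.nonunits := (mM a).1 ((g2 a).1 (e ▸ k1.mul_right (g1 s)))
      refine hs ((mM s).2 ?_)
      rw [← mul_inv_cancel_left₀ y0 (s : K), e, V.mem_nonunits_iff, map_mul]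
      exact (mul_le_of_le_one_left' ((V.valuation_le_one_iff y).2 hy)).trans_lt k2
    · obtain ⟨a, s, hs, rfl⟩ := g0 y hy
      rw [mM, V.mem_nonunits_iff_or, not_or, not_not] at hs
      rw [div_eq_mul_inv]
      exact mul_mem (hB a) hs.2
  refine ⟨v, ⟨fun n hn => ?_, ?_, fun y hy => ?_, ?_⟩, g3, fun y => ?_, fun y hy => ?_⟩
  · refine (DV.unit_of_not_ge (DV.ge_natCast n) fun h => ?_).2
    exact (hc n).1 ((g2 _).1 (by simpa using h)) (hQ n hn)
  · rintro _ ⟨a, rfl⟩
    exact g1 (algebraMap W B a)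
  · obtain ⟨a, s, hs, e⟩ := g0 y hy
    obtain ⟨s', i, hi, e1⟩ := hM.exists_inv hs
    obtain ⟨p, p1, p2⟩ := (a * s').2
    have s0 : (s : K) ≠ 0 := (DV.unit_of_not_ge (g1 s) fun h => hs ((g2 s).1 h)).1
    have e2 : y - (a * s' : B) = y * i := by
      have : (i : K) = 1 - s' * s := by
        rw [eq_sub_iff_add_eq']
        exact congrArg Subtype.val e1
      rw [this, e]
      push_cast
      field_simp
    have h3 : v.Ge 1 (y - (a * s' : B)) := e2 ▸ hy.mul_left ((g2 i).2 hi)
    refine ⟨p.map (algebraMap W K), fun i => ⟨p.coeff i, (Polynomial.coeff_map _ _).symm⟩,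
      p1.map _, ?_⟩
    rw [Polynomial.eval₂_eq_eval_map] at p2
    rw [← sub_zero (Polynomial.eval y _), ← p2, Polynomial.eval_eq_sum_range,
      Polynomial.eval_eq_sum_range, ← Finset.sum_sub_distrib]
    refine DV.Ge.sum fun i _ => ?_
    rw [← mul_sub, Polynomial.coeff_map]
    exact (g1 (algebraMap W B _)).mul_left (Hy.EXTV.pow_sub hy (g1 _) h3 i)
  · obtain ⟨T, hT⟩ := hfin.fg_top
    have h3 : ∀ b : B, (b : K) ∈ Submodule.span (algebraMap W K).range
        ((T.image fun b : B => (b : K) : Finset K) : Set K) := fun b => by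
      have hb : b ∈ Submodule.span W (T : Set B) := hT ▸ Submodule.mem_top
      induction hb using Submodule.span_induction with
      | mem x hx => exact Submodule.subset_span (by simpa using hx)
      | zero => exact zero_mem _
      | add x y _ _ hx hy => exact add_mem hx hy
      | smul a x _ hx =>
        have := Submodule.smul_mem _ ⟨algebraMap W K a, a, rfl⟩ hx
        rwa [Subalgebra.coe_smul, Algebra.smul_def]
    refine ⟨T.image fun b : B => (b : K), fun t ht => ?_, fun y hy => ?_⟩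
    rotate_left
    · obtain ⟨a, s, hs, e⟩ := g0 y hy
      obtain ⟨s0, s1⟩ := DV.unit_of_not_ge (g1 s) fun h => hs ((g2 s).1 h)
      exact ⟨a, h3 a, s, h3 s, s0, s1, e⟩
    · obtain ⟨b, -, rfl⟩ := Finset.mem_image.1 ht
      exact g1 b
  · rw [V.mem_nonunits_iff_or, g3]
    by_cases y0 : y = 0
    · simp [y0, DV.ge_zero]
    · rw [DV.ge_iff y0, DV.ge_iff (inv_ne_zero y0), v.ord_inv y0, or_iff_right y0]
      omega
  · obtain ⟨a, s, hs, e⟩ := g0 y ((g3 y).1 hy)
    exact ⟨a, s, a.2, s.2, fun k => hs ((mM s).2 k), e⟩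

end DVAx

theorem dva : S_DVA := by
  intro F K _ _ _ _ _ W _ V hQ hW
  have m : ∀ a : F, algebraMap F K a ∈ V ↔ a ∈ W := fun a => by rw [← hW]; rfl
  refine DVAx.core W F K hQ V (fun a => (m a).2 a.2) fun a ha => ?_
  have k := W.mem_nonunits_iff_or.1 ((ValuationSubring.coe_mem_nonunits_iff (a := a)).2 ha)
  refine V.mem_nonunits_iff_or.2 (k.imp (fun e => ?_) fun e e2 => e ((m _).1 ?_))
  · change algebraMap F K a = 0
    rw [e, map_zero]
  · rw [map_inv₀]
    exact e2

end Pool.Agent.MP_51db15_ag.Qh
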