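import Pool.Agent.MP_51db15_ag.Qh.Spec

/-! Row DVX: a field that kills a discrete valuation ring to first order, upstairs. -/

namespace Pool.Agent.MP_51db15_ag.Qh

open Module Polynomial

namespace DVXx

variable {K : Type} [Field K] [Algebra ℂ K] {v : DV K}

/-- `y` lies in the localisation of `B` at the units of `v` -/
def Q (v : DV K) (B : Subalgebra ℂ K) (y : K) : Prop :=
  ∃ h ∈ B, h ≠ 0 ∧ v.ord h = 0 ∧ h * y ∈ B

theorem common {ι : Type} (B : Subalgebra ℂ K) (s : Finset ι) (y : ι → K)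
    (h : ∀ i ∈ s, Q v B (y i)) : ∃ r ∈ B, r ≠ 0 ∧ v.ord r = 0 ∧ ∀ i ∈ s, r * y i ∈ B := by
  classical
  induction s using Finset.induction_on with
  | empty => exact ⟨1, one_mem B, one_ne_zero, v.ord_one, by simp⟩
  | insert a s _ ih =>
    obtain ⟨r, r1, r2, r3, r4⟩ := ih fun i hi => h i (Finset.mem_insert_of_mem hi)
    obtain ⟨g, g1, g2, g3, g4⟩ := h a (Finset.mem_insert_self a s)
    refine ⟨r * g, mul_mem r1 g1, mul_ne_zero r2 g2, by rw [v.ord_mul _ _ r2 g2, r3, g3]; rfl,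
      fun i hi => ?_⟩
    rcases Finset.mem_insert.1 hi with rfl | hi
    · rw [mul_assoc]
      exact mul_mem r1 g4
    · rw [mul_comm r, mul_assoc]
      exact mul_mem g1 (r4 i hi)

theorem clear (A : Subalgebra ℂ K) (p : K[X]) (hp : p.Monic) (h : ∀ i, Q v A (p.coeff i)) {b : K}
    (hb : p.eval b = 0) : ∃ r ∈ A, r ≠ 0 ∧ v.ord r = 0 ∧ IsIntegral A (r * b) := by
  obtain ⟨r, r1, r2, r3, r4⟩ := common A (Finset.range p.natDegree) p.coeff fun i _ => h i
  refine ⟨r, r1, r2, r3, ?_⟩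
  have hl : p.scaleRoots r ∈ lifts (algebraMap A K) := by
    refine (lifts_iff_coeff_lifts _).2 fun n => ?_
    rw [coeff_scaleRoots]
    rcases lt_trichotomy n p.natDegree with hn | rfl | hn
    · obtain ⟨m, hm⟩ : ∃ m, p.natDegree - n = m + 1 := ⟨p.natDegree - n - 1, by omega⟩
      refine ⟨⟨r * p.coeff n * r ^ m, mul_mem (r4 n (Finset.mem_range.2 hn)) (pow_mem r1 m)⟩, ?_⟩
      rw [hm]
      change r * p.coeff n * r ^ m = _
      ring
    · exact ⟨1, by simp [hp.coeff_natDegree]⟩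
    · exact ⟨0, by simp [coeff_eq_zero_of_natDegree_lt hn]⟩
  obtain ⟨q, q1, -, q3⟩ := lifts_and_natDegree_eq_and_monic hl ((monic_scaleRoots_iff r).2 hp)
  refine ⟨q, q3, ?_⟩
  rw [eval₂_eq_eval_map, q1, scaleRoots_eval_mul, hb, mul_zero]

theorem int_mono {A S : Subalgebra ℂ K} (h : A ≤ S) {y : K} (hy : IsIntegral A y) :
    IsIntegral S y :=
  IsIntegral.map_of_comp_eq (Subalgebra.inclusion h).toRingHom (RingHom.id K) rfl hy

theorem mem_val {A : Subalgebra ℂ K} {V : ValuationSubring K} (h : ∀ g ∈ A, g ∈ V) {y : K}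
    (hy : IsIntegral A y) : y ∈ V := by
  have h1 : IsIntegral V y := IsIntegral.map_of_comp_eq
    ((A.val : A →+* K).codRestrict V fun g => h g g.2) (RingHom.id K) rfl hy
  obtain ⟨z, rfl⟩ := IsIntegrallyClosed.isIntegral_iff.1 h1
  exact z.2

theorem last {ι : Type} [Fintype ι] {S : Subalgebra ℂ K} {x : ι → K} (hb : Bas S x) (D : DD K)
    (hS : ∀ g ∈ S, v.Ge 0 g) (hQ : ∀ y, v.Ge 0 y → Q v S y) (hD : ∀ y, v.Ge 0 y → v.Ge 1 (D y))
    {β : DU K} (hβ : β ∈ TD S) : v.Ge 1 (β D) := by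
  obtain ⟨π, π0, π1⟩ := v.unif
  obtain ⟨r, -, r2, r3, r4⟩ := common (v := v) S Finset.univ (fun i => D (x i) / π) fun i _ =>
    hQ _ (by simpa [π1] using (hD _ (hS _ (hb.mem i))).div π0)
  have h1 : (r / π) • D ∈ TT S := hb.tt _ fun i => by
    have := r4 i (Finset.mem_univ i)
    rw [Derivation.smul_apply, smul_eq_mul]
    convert this using 1
    ring
  have h2 := hS _ (hβ _ h1)
  rw [map_smul, smul_eq_mul] at h2
  have h3 := (h2.mul_left (π1 ▸ DV.ge_self π : v.Ge 1 π)).div_unit r2 r3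
  convert h3 using 1
  field_simp

end DVXx

open DVXx in
theorem dvx (a : S_DVA) : S_DVX := by
  intro K ι _ _ _ S A x F _ W _ V D hb hn hAS hint hVW hAW hWA hD β hβ
  have : CharZero F := charZero_of_injective_algebraMap (algebraMap ℂ F).injective
  have : CharZero K := charZero_of_injective_algebraMap (algebraMap ℂ K).injective
  have hW : ∀ y : F, y ∈ W ↔ (y : K) ∈ V := fun y => by rw [← hVW]; rfl
  have hWn : ∀ y : F, y ∈ W.nonunits → (y : K) ∈ V.nonunits := fun y hy => by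
    rw [ValuationSubring.mem_nonunits_iff_or] at hy ⊢
    refine hy.imp (fun h => by simp [h]) fun h h' => h ((hW _).2 (by simpa using h'))
  have hAV : ∀ g ∈ A, g ∈ V := fun g hg => by
    obtain ⟨y, hy, rfl⟩ := hAW g hg
    exact (hW y).1 hy
  have hQ : ∀ n : ℕ, n ≠ 0 → IsUnit (n : W) := fun n h0 => by
    have h1 : ((n : F)⁻¹) ∈ W := (hW _).2 (hAV _ (by
      have := A.algebraMap_mem (n : ℂ)⁻¹
      simpa using this))
    refine IsUnit.of_mul_eq_one ⟨_, h1⟩ (Subtype.ext ?_)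
    have h2 : (n : F) ≠ 0 := by exact_mod_cast h0
    simpa using mul_inv_cancel₀ h2
  obtain ⟨v, hd, g0, g1, hfr⟩ := a F K W V hQ hVW
  have hSV : ∀ g ∈ S, v.Ge 0 g := fun g hg => (g0 g).1 (mem_val hAV (hint g hg))
  have hR : ∀ c ∈ ((algebraMap F K).comp W.subtype).range,
      v.Ge 1 (D.restrictScalars ℤ c) := by
    rintro _ ⟨y, rfl⟩
    obtain ⟨z, z1, z2⟩ := hD y y.2
    exact (g1 _).1 (z2 ▸ hWn z z1)
  obtain ⟨ϖ, hϖ⟩ := IsDiscreteValuationRing.exists_irreducible W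
  have t0 : ((ϖ : F) : K) ≠ 0 := by simpa using hϖ.ne_zero
  have t1 : v.Ge 1 ((ϖ : F) : K) :=
    (g1 _).1 (hWn _ (ValuationSubring.coe_mem_nonunits_iff.2 hϖ.not_isUnit))
  have t2 : v.Ge 0 (D.restrictScalars ℤ ((ϖ : F) : K) / ((ϖ : F) : K)) := by
    obtain ⟨z, z1, z2⟩ := hD ϖ ϖ.2
    obtain ⟨z3, z4⟩ := ValuationSubring.mem_nonunits_iff_exists_mem_maximalIdeal.1 z1
    rw [hϖ.maximalIdeal_eq, Ideal.mem_span_singleton'] at z4
    obtain ⟨c, hc⟩ := z4
    have e : (z : K) = ((c : F) : K) * ((ϖ : F) : K) := by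
      have : z = (c : F) * (ϖ : F) := (congrArg Subtype.val hc).symm
      rw [this]
      rfl
    change v.Ge 0 (D _ / _)
    rw [z2, e, mul_div_cancel_right₀ _ t0]
    exact (g0 _).1 ((hW _).1 c.2)
  have hm := Hy.EXTV.main (D.restrictScalars ℤ) hd (fun c hc => (hR c hc).mono zero_le_one) t0
    (by have := t1.le t0; omega) t2
  have hres := Hy.EXTV.res (D.restrictScalars ℤ) hd hR hm.2
  have hI : ∀ b, ((algebraMap F K).comp W.subtype).IsIntegralElem b →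
      ∃ r ∈ S, r ≠ 0 ∧ v.ord r = 0 ∧ r * b ∈ S := by
    rintro b ⟨p, p1, p2⟩
    rw [eval₂_eq_eval_map] at p2
    obtain ⟨r, r1, r2, r3, r4⟩ := clear (v := v) A _ (p1.map _) (fun i => by
      rw [coeff_map]
      obtain ⟨g, hg, h, hh, h1, e⟩ := hWA (p.coeff i) (p.coeff i).2
      obtain ⟨h2, h3⟩ := DV.unit_of_not_ge ((g0 h).1 (hAV h hh)) fun h' => h1 ((g1 h).2 h')
      refine ⟨h, hh, h2, h3, ?_⟩
      change h * ((p.coeff i : F) : K) ∈ A
      rwa [e, mul_div_cancel₀ _ h2]) p2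
    exact ⟨r, hAS r1, r2, r3, hn _ (int_mono hAS r4)⟩
  refine (g1 _).2 (last hb D hSV (fun y hy => ?_) hres hβ)
  obtain ⟨b, s, b1, s1, s2, rfl⟩ := hfr y ((g0 y).2 hy)
  obtain ⟨r, r1, r2, r3, r4⟩ := hI b b1
  obtain ⟨q, q1, q2, q3, q4⟩ := hI s s1
  have s3 : ¬ v.Ge 1 s := fun h => s2 ((g1 s).2 h)
  have s0 : s ≠ 0 := fun h => s3 (Or.inl h)
  have s4 := (hSV _ q4).le (mul_ne_zero q2 s0)
  rw [DV.ge_iff s0] at s3
  rw [v.ord_mul _ _ q2 s0] at s4
  refine ⟨r * (q * s), mul_mem r1 q4, mul_ne_zero r2 (mul_ne_zero q2 s0), ?_, ?_⟩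
  · rw [v.ord_mul _ _ r2 (mul_ne_zero q2 s0), v.ord_mul _ _ q2 s0]
    omega
  · convert mul_mem q1 r4 using 1
    field_simp

end Pool.Agent.MP_51db15_ag.Qh
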