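import Pool.Agent.MP_51db15_ag.Qh.Spec
import Pool.Agent.MP_51db15_ag.Hy.MINP

/-! EIG: a locally nilpotent field vanishes on a subcone. -/

namespace Pool.Agent.MP_51db15_ag.Qh

open Module

namespace EIGx

theorem aux {A : Type} [CommRing A] [Algebra ℂ A] (e n : Derivation ℂ A A) (J : Ideal A)
    (he : ∀ g ∈ J, e g ∈ J) (hn : ∀ g ∈ J, n g ∈ J) (y : A) (hy : y ∉ J.radical) :
    ∃ P : Ideal A, P.IsPrime ∧ J ≤ P ∧ (∀ g ∈ P, e g ∈ P) ∧ (∀ g ∈ P, n g ∈ P) ∧ y ∉ P := by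
  letI : Algebra ℚ A := ((algebraMap ℂ A).comp (algebraMap ℚ ℂ)).toAlgebra
  rw [Ideal.radical_eq_sInf, Submodule.mem_sInf] at hy
  push Not at hy
  obtain ⟨q, ⟨hJq, hq⟩, hyq⟩ := hy
  obtain ⟨p, hp, hpq⟩ := Ideal.exists_minimalPrimes_le hJq
  refine ⟨p, hp.1.1, hp.1.2, ?_, ?_, fun h => hyq (hpq h)⟩
  · exact Hy.minp A e.toLinearMap.toAddMonoidHom J p
      (fun a b => by simp [Derivation.leibniz]) he hp
  · exact Hy.minp A n.toLinearMap.toAddMonoidHom J p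
      (fun a b => by simp [Derivation.leibniz]) hn hp

theorem stab {A : Type} [CommRing A] [Algebra ℂ A] (d : Derivation ℂ A A) (P : Ideal A) (g : A)
    (hP : ∀ y ∈ P, d y ∈ P) (hg : d g ∈ P ⊔ Ideal.span {g}) :
    ∀ y ∈ P ⊔ Ideal.span {g}, d y ∈ P ⊔ Ideal.span {g} := by
  intro y hy
  obtain ⟨p, hp, z, hz, rfl⟩ := Submodule.mem_sup.1 hy
  obtain ⟨c, rfl⟩ := Ideal.mem_span_singleton'.1 hz
  rw [map_add, Derivation.leibniz, smul_eq_mul, smul_eq_mul]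
  refine add_mem (Ideal.mem_sup_left (hP p hp)) (add_mem (Ideal.mul_mem_left _ _ hg) ?_)
  exact Ideal.mul_mem_right _ _ (Ideal.mem_sup_right (Ideal.mem_span_singleton_self g))

theorem core (l : S_LND) {A ι : Type} [CommRing A] [Algebra ℂ A] [IsNoetherianRing A]
    [Fintype ι] (e n : Derivation ℂ A A) (x : ι → A) (a : ι → ℕ)
    (hgen : Algebra.adjoin ℂ (Set.range x) = ⊤) (hpos : ∀ i, 0 < a i)
    (heig : ∀ i, e (x i) = (a i : ℂ) • x i) (hc : ∀ y, e (n y) = n (e y)) (I : Ideal A)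
    (he : ∀ g ∈ I, e g ∈ I) (hn : ∀ g ∈ I, n g ∈ I) (hk : ∀ i, ∃ k : ℕ, n^[k] (x i) ∈ I)
    (hx : ∃ i, x i ∉ I.radical) :
    ∃ P : Ideal A, P.IsPrime ∧ (∀ g ∈ P, e g ∈ P) ∧ (∃ i, x i ∉ P) ∧ ∀ i, n (x i) ∈ P := by
  classical
  obtain ⟨i₀, hi₀⟩ := hx
  obtain ⟨P, ⟨hP, hIP, hPe, hPn, hPx⟩, hmax⟩ : ∃ P : Ideal A, (P.IsPrime ∧ I ≤ P ∧
      (∀ g ∈ P, e g ∈ P) ∧ (∀ g ∈ P, n g ∈ P) ∧ ∃ i, x i ∉ P) ∧ ∀ Q : Ideal A, (Q.IsPrime ∧ I ≤ Q ∧
      (∀ g ∈ Q, e g ∈ Q) ∧ (∀ g ∈ Q, n g ∈ Q) ∧ ∃ i, x i ∉ Q) → ¬ P < Q :=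
    set_has_maximal_iff_noetherian.2 (inferInstance : IsNoetherian A A)
      {P : Ideal A | P.IsPrime ∧ I ≤ P ∧ (∀ g ∈ P, e g ∈ P) ∧ (∀ g ∈ P, n g ∈ P) ∧ ∃ i, x i ∉ P}
      (by
        obtain ⟨P, h1, h2, h3, h4, h5⟩ := aux e n I he hn _ hi₀
        exact ⟨P, h1, h2, h3, h4, i₀, h5⟩)
  refine ⟨P, hP, hPe, hPx, fun i => ?_⟩
  by_contra hni
  have hex : ∃ m : ℕ, n^[m] (n (x i)) ∈ P := by
    obtain ⟨k, hk'⟩ := hk i
    refine ⟨k, ?_⟩
    rw [← Function.iterate_succ_apply, Function.iterate_succ_apply']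
    exact hPn _ (hIP hk')
  obtain ⟨m, hm⟩ : ∃ m, Nat.find hex = m + 1 :=
    Nat.exists_eq_succ_of_ne_zero fun h0 => hni (by simpa [h0] using Nat.find_spec hex)
  have hg1 : n^[m] (n (x i)) ∉ P := Nat.find_min hex (by omega)
  have hg2 : n (n^[m] (n (x i))) ∈ P := by
    have := Nat.find_spec hex
    rwa [hm, Function.iterate_succ_apply'] at this
  have hg3 : ∀ r : ℕ, e (n^[r] (n (x i))) = (a i : ℂ) • n^[r] (n (x i)) := fun r => by
    induction r with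
    | zero => simp [hc, heig]
    | succ r ih => rw [Function.iterate_succ_apply', hc, ih, Derivation.map_smul]
  have hg4 := hg3 m
  have hg5 : n (n^[m] (n (x i))) ∈ P := hg2
  generalize n^[m] (n (x i)) = g at hg1 hg4 hg5
  have hgJ : g ∈ P ⊔ Ideal.span {g} := Ideal.mem_sup_right (Ideal.mem_span_singleton_self g)
  have hrad : ∀ j, x j ∈ (P ⊔ Ideal.span {g}).radical := fun j => by
    by_contra hj
    obtain ⟨Q, h1, h2, h3, h4, h5⟩ := aux e n _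
      (stab e P g hPe (by rw [hg4, Algebra.smul_def]; exact Ideal.mul_mem_left _ _ hgJ))
      (stab n P g hPn (Ideal.mem_sup_left hg5)) _ hj
    refine hmax Q ⟨h1, hIP.trans (le_sup_left.trans h2), h3, h4, j, h5⟩ ?_
    exact lt_of_le_of_ne (le_sup_left.trans h2) fun h => hg1 (h ▸ h2 hgJ)
  have hs : Function.Surjective (Ideal.Quotient.mkₐ ℂ P) := Ideal.Quotient.mkₐ_surjective ℂ P
  have hz : ∀ y, Ideal.Quotient.mkₐ ℂ P y = 0 ↔ y ∈ P := fun y => Ideal.Quotient.eq_zero_iff_mem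
  have hE : ∀ y, Ideal.Quotient.mkₐ ℂ P y = 0 → Ideal.Quotient.mkₐ ℂ P (e y) = 0 :=
    fun y hy => (hz _).2 (hPe y ((hz _).1 hy))
  have hN : ∀ y, Ideal.Quotient.mkₐ ℂ P y = 0 → Ideal.Quotient.mkₐ ℂ P (n y) = 0 :=
    fun y hy => (hz _).2 (hPn y ((hz _).1 hy))
  have hEa := Derivation.liftOfSurjective_apply hs hE
  have hNa := Derivation.liftOfSurjective_apply hs hN
  generalize Derivation.liftOfSurjective hs hE = E' at hEa
  generalize Derivation.liftOfSurjective hs hN = N' at hNa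
  have hit : ∀ (k : ℕ) y, N'^[k] (Ideal.Quotient.mkₐ ℂ P y) = Ideal.Quotient.mkₐ ℂ P (n^[k] y) :=
    fun k y => by
      induction k with
      | zero => rfl
      | succ k ih => rw [Function.iterate_succ_apply', Function.iterate_succ_apply', ih, hNa]
  have key := l (A ⧸ P) ι E' N' (fun j => Ideal.Quotient.mkₐ ℂ P (x j)) a
    (Ideal.Quotient.mkₐ ℂ P g) (a i) (by
      have : Set.range (fun j => Ideal.Quotient.mkₐ ℂ P (x j)) =
          Ideal.Quotient.mkₐ ℂ P '' Set.range x := by rw [← Set.range_comp]; rfl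
      rw [this, ← AlgHom.map_adjoin, hgen, Algebra.map_top, AlgHom.range_eq_top]
      exact hs)
    (fun j => ⟨hpos j, by rw [hEa, heig, map_smul]⟩)
    (fun j => by
      obtain ⟨k, hk'⟩ := hk j
      exact ⟨k, by rw [hit]; exact (hz _).2 (hIP hk')⟩)
    (fun h => hg1 ((hz _).1 h)) (by rw [hNa]; exact (hz _).2 hg5) (hpos i)
    (by rw [hEa, hg4, map_smul])
    (fun j => by
      obtain ⟨r, hr⟩ := hrad j
      obtain ⟨p, hp, z, hz', hpz⟩ := Submodule.mem_sup.1 hr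
      obtain ⟨c, rfl⟩ := Ideal.mem_span_singleton'.1 hz'
      refine ⟨r, Ideal.Quotient.mkₐ ℂ P c, ?_⟩
      rw [← map_pow, ← hpz, map_add, (hz p).2 hp, zero_add, map_mul, mul_comm]) i
  rw [hNa] at key
  exact hni ((hz _).1 key)

theorem res {K : Type} [Field K] [Algebra ℂ K] (S : Subalgebra ℂ K) (D : DD K) (hD : D ∈ TT S) :
    ∃ d : Derivation ℂ S S, ∀ g : S, (d g : K) = D g := by
  let L : S →ₗ[ℂ] S :=
    { toFun := fun g => ⟨D g, hD g g.2⟩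
      map_add' := fun g h => Subtype.ext (by simp)
      map_smul' := fun c g => Subtype.ext (by simp) }
  exact ⟨Derivation.mk' L fun g h => Subtype.ext (by simp [L, Derivation.leibniz]), fun g => rfl⟩

theorem in_iff {K : Type} [Field K] [Algebra ℂ K] {S : Subalgebra ℂ K} (P : Ideal S) (g : S) :
    In P (g : K) ↔ g ∈ P :=
  ⟨fun ⟨b, hb, h⟩ => (Subtype.ext h : g = b) ▸ hb, fun h => ⟨g, h, rfl⟩⟩

end EIGx

theorem eig (l : S_LND) : S_EIG := by
  intro K ι _ _ _ S E x a hc N hN hEN I hE hI hk hx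
  have := hc.bas.noeth
  obtain ⟨e, he⟩ := EIGx.res S E hc.ev.tm
  obtain ⟨n, hn⟩ := EIGx.res S N hN
  let x' : ι → S := fun i => ⟨x i, hc.bas.mem i⟩
  have hx' : ∀ i, (x' i : K) = x i := fun _ => rfl
  have hit : ∀ (k : ℕ) (y : S), ((n^[k] y : S) : K) = (op N ^ k) y := fun k y => by
    induction k with
    | zero => rfl
    | succ k ih => rw [Function.iterate_succ_apply', hn, ih, pow_succ', Module.End.mul_apply]; rfl
  obtain ⟨P, hP, hPe, ⟨i, hi⟩, hPn⟩ := EIGx.core l e n x' a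
    (by
      apply Subalgebra.map_injective (f := S.val) Subtype.val_injective
      rw [AlgHom.map_adjoin, Algebra.map_top, Subalgebra.range_val, ← Set.range_comp]
      exact hc.cx.gen)
    hc.pos (fun i => Subtype.ext (by rw [he, hx', hc.cx.eig]; rfl))
    (fun y => Subtype.ext (by
      have := congrArg (fun D : DD K => D y) hEN
      simp only [Derivation.commutator_apply, Derivation.zero_apply, sub_eq_zero] at this
      rw [he, hn, hn, he, this]))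
    I (fun g hg => (EIGx.in_iff I _).1 (by rw [he]; exact hE g hg))
    (fun g hg => (EIGx.in_iff I _).1 (by rw [hn]; exact hI g hg))
    (fun i => by
      obtain ⟨k, hk'⟩ := hk i
      exact ⟨k, (EIGx.in_iff I _).1 (by rw [hit]; exact hk')⟩)
    (by
      obtain ⟨i, hi⟩ := hx
      exact ⟨i, fun ⟨k, hk'⟩ => hi k ⟨_, hk', rfl⟩⟩)
  refine ⟨P, hP, hc.vtx.le P hP.ne_top fun g hg => ⟨e g, hPe g hg, (he g).symm⟩,
    ⟨i, fun h => hi ((EIGx.in_iff P (x' i)).1 h)⟩, hc.bas.ideal N P fun j => ?_⟩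
  exact ⟨n (x' j), hPn j, (hn (x' j)).symm⟩

end Pool.Agent.MP_51db15_ag.Qh
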