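import Pool.Agent.MP_51db15_ag.Qh.Spec

/-! PROJECT QH, row END: the new grading and the new form. -/

namespace Pool.Agent.MP_51db15_ag.Qh

open Module

namespace ENDx

variable {K κ : Type} [Field K] [Algebra ℂ K] [Fintype κ] [DecidableEq κ] {S : Subalgebra ℂ K}
  {E : DD K} {e : κ → End K (DD K)}

theorem a0 (h : Idm S E e) (d : κ → ℂ) : A0 S E (∑ j, d j • e j) := by
  refine ⟨fun D hD => ?_, fun D => ?_⟩
  · rw [LinearMap.sum_apply]
    exact (TC S).sum_mem fun j _ => (TC S).smul_mem (d j) ((h.a0 j).1 D hD)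
  · simp only [LinearMap.sum_apply, LinearMap.smul_apply, lie_sum, lie_smul, (h.a0 _).2]

theorem mul (h : Idm S E e) (u v : κ → ℂ) :
    (∑ j, u j • e j) * (∑ j, v j • e j) = ∑ j, (u j * v j) • e j := by
  rw [Finset.sum_mul_sum]
  refine Finset.sum_congr rfl fun i _ => ?_
  simp only [smul_mul_smul_comm, h.orth, smul_ite, smul_zero, Finset.sum_ite_eq, Finset.mem_univ,
    if_true]

theorem inv (h : Idm S E e) (c : κ → ℂ) (α : ℂ) (hα : α ∉ Set.range c) :
    (∑ j, (c j - α)⁻¹ • e j) ((∑ j, c j • e j) E - α • E) = E := by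
  have h1 : (∑ j, c j • e j) E - α • E = (∑ j, (c j - α) • e j) E := by
    have k : ∑ j, e j E = E := by rw [← LinearMap.sum_apply, h.sum, End.one_apply]
    simp only [LinearMap.sum_apply, LinearMap.smul_apply, sub_smul, Finset.sum_sub_distrib,
      ← Finset.smul_sum, k]
  have h2 : ∀ j, (c j - α)⁻¹ * (c j - α) = 1 := fun j =>
    inv_mul_cancel₀ (sub_ne_zero.2 fun k => hα ⟨j, k⟩)
  rw [h1, ← End.mul_apply, mul h]
  simp only [h2, one_smul, h.sum, End.one_apply]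

end ENDx

open ENDx in
theorem fend (b : S_BAS) (ev : S_EV) (vt : S_VTX) (ef : S_EVF) (j1 : S_JD1) (j2 : S_JD2)
    (ps : S_POS) (rt : S_RAT) (dc : S_DEC) (fn : S_FIN) : S_END := by
  intro K ι κ _ _ _ _ _ S E x a e y ω hA hy
  classical
  have y0 : ∀ k, y k ≠ 0 := fun k h => by simpa [h] using hy k
  obtain ⟨c, hc⟩ : ∃ c : κ → ℂ, ∀ k, c k = (2 * y k)⁻¹ := ⟨_, fun _ => rfl⟩
  have c1 : ∀ k k', c k * y k + c k' * y k' = 1 := fun k k' => by
    have := y0 k
    have := y0 k'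
    rw [hc, hc]
    field_simp
    norm_num
  have c2 : ∀ k, 0 < (c k).re := fun k => by
    rw [hc, Complex.inv_re]
    exact div_pos (by simpa using hy k) (Complex.normSq_pos.2 (mul_ne_zero two_ne_zero (y0 k)))
  obtain ⟨ε, e0, e1⟩ : ∃ ε : ℝ, 0 < ε ∧ ∀ k, ε ≤ (c k).re := by
    rcases isEmpty_or_nonempty κ with _ | _
    · exact ⟨1, one_pos, isEmptyElim⟩
    · obtain ⟨k, hk⟩ := Finite.exists_min fun k => (c k).re
      exact ⟨_, c2 k, hk⟩
  have hB := a0 hA.idm c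
  have Y1 := hB.1 E hA.cone.ev.tm
  have Y2 : ⁅E, (∑ j, c j • e j) E⁆ = 0 := by rw [hB.2, lie_self, map_zero]
  obtain ⟨ι', _, x', a', μ, cx, pos, hv, hμ⟩ := j1 K ι S E x a hA.cone _ Y1 Y2
  have hb := b K ι' S E x' a' cx
  have cone : Cone S E x' a' :=
    ⟨cx, pos, hb, hA.cone.ev, vt K ι' S E x' a' cx pos hb hA.cone.ev, hA.cone.evf⟩
  have m0 : ∀ i, 0 < (μ i).re := fun i => by
    have k := ps K ι' S E x' a' cone (by unfold LTP; rw [hv]; exact hA.ltp) _ (Set.range c) μ hB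
      (fun α hα => ⟨_, (a0 hA.idm _).1, inv hA.idm c α hα⟩) hμ (-Complex.reAddGroupHom) (-ε)
      (by rintro _ ⟨k, rfl⟩; simpa using e1 k) i
    have p : (0 : ℝ) < a' i := by exact_mod_cast pos i
    have := mul_pos p e0
    simp only [AddMonoidHom.neg_apply, Complex.coe_reAddGroupHom] at k
    linarith
  obtain ⟨F', hF'⟩ := dc K ι κ S E x a e y ω c hA
  obtain ⟨l, l1, l2⟩ := rt (insert 1 (Finset.univ.image μ)) F' Complex.reAddGroupHom (by
    intro z hz
    rcases Finset.mem_insert.1 hz with rfl | hz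
    · simp
    · obtain ⟨i, -, rfl⟩ := Finset.mem_image.1 hz
      exact m0 i)
  obtain ⟨w, w0, hw⟩ := l1 1 (Finset.mem_insert_self _ _)
  choose n n0 hn using fun i =>
    l1 (μ i) (Finset.mem_insert_of_mem (Finset.mem_image_of_mem _ (Finset.mem_univ i)))
  obtain ⟨t, ht⟩ := j2 K ι S E x a hA.cone _ Y1 Y2 l
  have ct : Cx S t x' n := ⟨cx.gen, cx.frac, fun i => by rw [ht.2 _ (hb.mem i) _ (hμ i).2, hn]⟩
  have et := ev K ι' S t x' n ct hb
  have vt' := vt K ι' S t x' n ct n0 hb et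
  obtain ⟨F, η, f1, f2, f3⟩ := hF' l l2 ι' t x' n ht ct hb et
  have pf : Perf S x (η w) := by
    refine hA.perf _ ?_
    have : ω - η w = ∑ m ∈ F.erase w, η m := by
      refine sub_eq_iff_eq_add'.2 (f1.trans ?_)
      by_cases k : (w : ℤ) ∈ F
      · exact (Finset.add_sum_erase _ _ k).symm
      · rw [f2 _ k, Finset.erase_eq_of_notMem k]
        exact (zero_add _).symm
    rw [this]
    refine Submodule.sum_mem _ fun m hm => (f3 m).2.2.2.2 fun k k' q => ?_
    rw [c1, hw] at q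
    exact Finset.ne_of_mem_erase hm (by exact_mod_cast q.symm)
  obtain ⟨𝒢, g1, g2⟩ := fn K ι' S t x' n (η w) w
    ⟨ct, n0, hb, et, vt', ef K ι' S t x' n ct hb et vt'⟩ hA.nrm w0 (f3 w).2.1 (f3 w).2.2.1
    (by rw [(f3 w).2.2.2.1, Int.cast_natCast]) (by unfold Perf; rw [hv]; exact pf)
  exact ⟨η w, 𝒢, g1, hv ▸ g2⟩

end Pool.Agent.MP_51db15_ag.Qh
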