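import Pool.Agent.MP_51db15_ag.Qh.Spec2
import Pool.Agent.MP_51db15_ag.Qh.END

/-! PROJECT QF, row END2: the new grading and the new form, regular along valuations. -/

namespace Pool.Agent.MP_51db15_ag.Qh

open Module

open ENDx in
theorem fend2 (b : S_BAS) (ev : S_EV) (vt : S_VTX) (ef : S_EVF) (j1 : S_JD1) (j2 : S_JD2)
    (ps : S_POS) (rt : S_RAT) (dc : S_DEC2) (fn : S_FIN2) : S_END2 := by
  intro K ι κ _ _ _ _ _ S E x a e y ω hA hy
  classical
  have y0 : ∀ k, y k ≠ 0 := fun k h => by simpa [h] using hy k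
  obtain ⟨c, hc⟩ : ∃ c : κ → ℂ, ∀ k, c k = (2 * y k)⁻¹ := ⟨_, fun _ => rfl⟩
  have c1 : ∀ k k', c k * y k + c k' * y k' = 1 := fun k k' => by
    have := y0 k
    have := y0 k'
    rw [hc, hc]
    field_simp
    norm_num
  have c2 : ∀ k, 0 < (c k).re := fun k => by
    rw [hc, Complex.inv_re]
    exact div_pos (by simpa using hy k) (Complex.normSq_pos.2 (mul_ne_zero two_ne_zero (y0 k)))
  obtain ⟨ε, e0, e1⟩ : ∃ ε : ℝ, 0 < ε ∧ ∀ k, ε ≤ (c k).re := by
    rcases isEmpty_or_nonempty κ with _ | _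
    · exact ⟨1, one_pos, isEmptyElim⟩
    · obtain ⟨k, hk⟩ := Finite.exists_min fun k => (c k).re
      exact ⟨_, c2 k, hk⟩
  have hB := a0 hA.idm c
  have Y1 := hB.1 E hA.cone.ev.tm
  have Y2 : ⁅E, (∑ j, c j • e j) E⁆ = 0 := by rw [hB.2, lie_self, map_zero]
  obtain ⟨ι', _, x', a', μ, cx, pos, hv, hμ⟩ := j1 K ι S E x a hA.cone _ Y1 Y2
  have hb := b K ι' S E x' a' cx
  have cone : Cone S E x' a' :=
    ⟨cx, pos, hb, hA.cone.ev, vt K ι' S E x' a' cx pos hb hA.cone.ev, hA.cone.evf⟩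
  have m0 : ∀ i, 0 < (μ i).re := fun i => by
    have k := ps K ι' S E x' a' cone (by unfold LTP; rw [hv]; exact hA.ltp) _ (Set.range c) μ hB
      (fun α hα => ⟨_, (a0 hA.idm _).1, inv hA.idm c α hα⟩) hμ (-Complex.reAddGroupHom) (-ε)
      (by rintro _ ⟨k, rfl⟩; simpa using e1 k) i
    have p : (0 : ℝ) < a' i := by exact_mod_cast pos i
    have := mul_pos p e0
    simp only [AddMonoidHom.neg_apply, Complex.coe_reAddGroupHom] at k
    linarith
  obtain ⟨F', hF'⟩ := dc K ι κ S E x a e y ω c hA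
  obtain ⟨l, l1, l2⟩ := rt (insert 1 (Finset.univ.image μ)) F' Complex.reAddGroupHom (by
    intro z hz
    rcases Finset.mem_insert.1 hz with rfl | hz
    · simp
    · obtain ⟨i, -, rfl⟩ := Finset.mem_image.1 hz
      exact m0 i)
  obtain ⟨w, w0, hw⟩ := l1 1 (Finset.mem_insert_self _ _)
  choose n n0 hn using fun i =>
    l1 (μ i) (Finset.mem_insert_of_mem (Finset.mem_image_of_mem _ (Finset.mem_univ i)))
  obtain ⟨t, ht⟩ := j2 K ι S E x a hA.cone _ Y1 Y2 l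
  have ct : Cx S t x' n := ⟨cx.gen, cx.frac, fun i => by rw [ht.2 _ (hb.mem i) _ (hμ i).2, hn]⟩
  have et := ev K ι' S t x' n ct hb
  have vt' := vt K ι' S t x' n ct n0 hb et
  obtain ⟨F, η, f1, f2, f3⟩ := hF' l l2 ι' t x' n ht ct hb et
  have pf : Perf S x (η w) := by
    refine hA.perf _ ?_
    have : ω - η w = ∑ m ∈ F.erase w, η m := by
      refine sub_eq_iff_eq_add'.2 (f1.trans ?_)
      by_cases k : (w : ℤ) ∈ F
      · exact (Finset.add_sum_erase _ _ k).symm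
      · rw [f2 _ k, Finset.erase_eq_of_notMem k]
        exact (zero_add _).symm
    rw [this]
    refine Submodule.sum_mem _ fun m hm => (f3 m).2.2.2.2 fun k k' q => ?_
    rw [c1, hw] at q
    exact Finset.ne_of_mem_erase hm (by exact_mod_cast q.symm)
  obtain ⟨𝒢, g1, g2⟩ := fn K ι' S t x' n (η w) w
    ⟨ct, n0, hb, et, vt', ef K ι' S t x' n ct hb et vt'⟩ hA.nrm w0 (f3 w).2.1 (f3 w).2.2.1
    (by rw [(f3 w).2.2.2.1, Int.cast_natCast]) (by unfold Perf; rw [hv]; exact pf)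
  exact ⟨η w, 𝒢, g1, hv ▸ g2⟩

end Pool.Agent.MP_51db15_ag.Qh
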