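import Pool.Agent.MP_51db15_ag.Qh.SPN

/-! Row EQ of project SD: the order of the form equals the order of the bracket. -/

namespace Pool.Agent.MP_51db15_ag.Qh

namespace EQx

variable {K ι R : Type} [Field K] [Algebra ℂ K] [CommRing R] [Algebra ℂ R]
  {S : Subalgebra ℂ K} {E : DD K} {x : ι → K} {a : ι → ℕ} {F : ℤ → Ideal R} {X : ι → R}
  {σ : ℤ → R →ₗ[ℂ] K}

theorem od_mono (h : FA F X a) {D : DR R} {p p' : ℤ} (hD : Od F D p) (e : p' ≤ p) : Od F D p' :=
  fun k r hr => h.anti (by omega) (hD k r hr)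

/-- the value of a field on a generator, read through the form -/
theorem key (h : Flt S E x a F X σ) {ω : FR R} {l l' : ℤ} {ω₀ : FF K} {B : K →ₗ[ℂ] DD K}
    (hs : Hy.IsSymplecticForm ω) (hL : Lead F σ ω l ω₀) (hB : LeadB F σ ω l' B) (i : ι)
    {D : DR R} {p : ℤ} {D₀ : DD K} (hD : Sym F σ D p D₀) :
    D (X i) ∈ F (a i - l' + p + l) ∧ ω₀ (B (x i)) D₀ = σ (a i - l' + p + l) (D (X i)) := by
  obtain ⟨H, hH⟩ := hs.2.2 (X i)
  have h1 := hB (a i) (X i) (h.fa.gen i) H hH
  rw [h.fb.gen i] at h1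
  have h2 := hL H D _ _ _ _ h1 hD
  rwa [hH] at h2

end EQx

theorem eq : S_EQ := by
  intro K ι R _ _ _ _ _ S E x a F X σ ω l l' ω₀ B h hs hne hL hB hle
  have hl : l' = l := by
    by_contra hn
    have hlt : l' + 1 ≤ l := by omega
    obtain ⟨D, hD⟩ := hne
    obtain ⟨b, hb⟩ := h.sy.low
    have step : ∀ p, Od F D p → Od F D (p + 1) := fun p hp => by
      obtain ⟨D₀, h0⟩ := h.sy.ex D p hp
      exact h.fa.chain D (p + 1) fun i => h.fa.anti (by omega) (EQx.key h hs hL hB i h0).1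
    have all : ∀ n : ℕ, Od F D (b + n) := fun n => by
      induction n with
      | zero => simpa using hb D
      | succ n ih =>
        have := step _ ih
        rwa [show b + n + 1 = b + ((n + 1 : ℕ) : ℤ) by push_cast; ring] at this
    exact hD (h.sy.sep D fun p => EQx.od_mono h.fa (all (p - b).toNat) (by omega))
  refine ⟨hl, fun i => h.ext fun D p D₀ hD => ?_⟩
  have h1 := (EQx.key h hs hL hB i hD).2
  have h2 := hD.2 (a i) (X i) (h.fa.gen i)
  rw [show (a i : ℤ) - l' + p + l = a i + p by omega, h2, h.fb.gen i] at h1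
  rw [h1, dd_apply]

end Pool.Agent.MP_51db15_ag.Qh
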