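import Pool.Agent.MP_51db15_ag.Qh.Spec

/-! All the lattices are spanned by eigenvectors. -/

namespace Pool.Agent.MP_51db15_ag.Qh

open Module

namespace EVx

variable {K : Type} [Field K] [Algebra ℂ K] {S : Subalgebra ℂ K}

theorem sN {ι : Type} {t : DD K} {x : ι → K} {a : ι → ℕ} (c : Cx S t x a) (g : K) (hg : g ∈ S) :
    g ∈ ⨆ n : ℕ, SC S ⊓ (op t).eigenspace (n : ℂ) := by
  have h1 : ∀ y ∈ Submonoid.closure (Set.range x), y ∈ S ∧ ∃ n : ℕ, t y = (n : ℂ) • y := by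
    intro y hy
    induction hy using Submonoid.closure_induction with
    | mem y h =>
      obtain ⟨i, rfl⟩ := h
      exact ⟨c.gen ▸ Algebra.subset_adjoin ⟨i, rfl⟩, a i, c.eig i⟩
    | one => exact ⟨one_mem _, 0, by simp⟩
    | mul y z _ _ hy hz =>
      obtain ⟨y1, n, y2⟩ := hy
      obtain ⟨z1, m, z2⟩ := hz
      refine ⟨mul_mem y1 z1, n + m, ?_⟩
      rw [Derivation.leibniz, y2, z2]
      simp only [smul_eq_mul, Algebra.smul_def, Nat.cast_add, map_add]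
      ring
  have h2 : g ∈ Submodule.span ℂ (Submonoid.closure (Set.range x) : Set K) := by
    rw [← Algebra.adjoin_eq_span, c.gen]
    exact hg
  refine Submodule.span_le.2 (fun y hy => ?_) h2
  obtain ⟨y1, n, y2⟩ := h1 y hy
  exact Submodule.mem_iSup_of_mem n ⟨y1, End.mem_eigenspace_iff.2 y2⟩

theorem hom (e : S_EVG) {M W : Type} [AddCommGroup M] [AddCommGroup W] [Module K M] [Module K W]
    [Module ℂ M] [Module ℂ W] [IsScalarTower ℂ K M] [IsScalarTower ℂ K W] [SMulCommClass K ℂ W]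
    (N : Submodule S M) (fg : N.FG) (den : ∀ v : M, ∃ s ∈ S, s ≠ 0 ∧ s • v ∈ N)
    (δM : End ℂ M) (hN : Dz δM (N.restrictScalars ℂ)) (δ : End ℂ (M →ₗ[K] W)) (δ' : End ℂ W)
    (H : Submodule ℂ (M →ₗ[K] W)) (H' : Submodule ℂ W)
    (h1 : ∀ a v, δ a v = δ' (a v) - a (δM v)) (h2 : ∀ a ∈ H, δ a ∈ H)
    (h3 : ∀ a ∈ H, ∀ v ∈ N, a v ∈ H') (h4 : Dz δ' H') : Dz δ H := by
  have k1 : N = Submodule.span S {v | v ∈ N ∧ ∃ n : ℤ, δM v = (n : ℂ) • v} := by
    refine le_antisymm (fun v hv => ?_) (Submodule.span_le.2 fun v hv => hv.1)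
    have : (⨆ n : ℤ, N.restrictScalars ℂ ⊓ δM.eigenspace (n : ℂ)) ≤
        (Submodule.span S {v | v ∈ N ∧ ∃ n : ℤ, δM v = (n : ℂ) • v}).restrictScalars ℂ :=
      iSup_le fun n w hw => Submodule.subset_span ⟨hw.1, n, End.mem_eigenspace_iff.1 hw.2⟩
    exact this (hN v hv)
  rw [k1] at fg
  obtain ⟨s, s1, s2⟩ := (Submodule.fg_span_iff_fg_span_finset_subset _).1 fg
  rw [← k1] at s2
  choose α hα using fun j : s => (s1 j.2).2
  refine (e (M →ₗ[K] W) W s δ δ' H H'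
    (fun j => ⟨⟨fun a => a j.1, fun _ _ => rfl⟩, fun _ _ => rfl⟩) α h2
    (fun a ha j => h3 a ha _ (s1 j.2).1) (fun a _ h0 => ?_) fun a _ j => ?_).1 h4
  · have k2 : ∀ v ∈ N, a v = 0 := by
      intro v hv
      rw [s2] at hv
      induction hv using Submodule.span_induction with
      | mem v h => exact h0 ⟨v, h⟩
      | zero => exact map_zero a
      | add v w _ _ hv hw => rw [map_add, hv, hw, add_zero]
      | smul r v _ hv => rw [Subalgebra.smul_def, map_smul, hv, smul_zero]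
    ext v
    obtain ⟨r, -, r0, hr⟩ := den v
    have := k2 _ hr
    rw [map_smul] at this
    exact (smul_eq_zero.1 this).resolve_left r0
  · change δ a j.1 = δ' (a j.1) - (α j : ℂ) • a j.1
    rw [h1, hα, lin_c]

end EVx

open EVx in
theorem ev (_g : GenK) (e : S_EVG) : S_EV := by
  intro K ι _ _ _ S t x a c b
  have tm : t ∈ TT S := b.tt t fun i => by
    rw [c.eig]
    exact S.smul_mem (b.mem i) _
  have hs : Dz (op t) (SC S) := fun g hg => by
    have : (⨆ n : ℕ, SC S ⊓ (op t).eigenspace (n : ℂ)) ≤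
        ⨆ n : ℤ, SC S ⊓ (op t).eigenspace (n : ℂ) :=
      iSup_le fun n => le_iSup_of_le (n : ℤ) (by rw [Int.cast_natCast])
    exact this (sN c g hg)
  have hT : Dz (ad t) (TC S) := by
    refine (e (DD K) K ι (ad t) (op t) (TC S) (SC S)
      (fun i => ⟨⟨fun D => D (x i), fun _ _ => rfl⟩, fun _ _ => rfl⟩) (fun i => a i)
      (fun D hD => lie_mem tm hD) (fun D hD i => hD _ (b.mem i))
      (fun D _ h => b.ext D 0 h) fun D _ i => ?_).1 hs
    change ⁅t, D⁆ (x i) = t (D (x i)) - ((a i : ℤ) : ℂ) • D (x i)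
    rw [Derivation.commutator_apply, c.eig, Derivation.map_smul, Int.cast_natCast]
  have hD : Dz (ld t) (DC S) :=
    hom e (TT S) b.fgT b.den (ad t) hT (ld t) (op t) (DC S) (SC S) (fun _ _ => rfl)
      (fun γ h => ld_mem tm h) (fun γ h D hD => h D hD) hs
  have hL : Dz (lam t) (LC S) := fun v hv => by
    have h1 : (⨆ n : ℤ, TC S ⊓ (ad t).eigenspace (n : ℂ)) ≤
        (⨆ n : ℤ, LC S ⊓ (lam t).eigenspace (n : ℂ)).comap (LinearMap.inl ℂ (DD K) (DU K)) :=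
      iSup_le fun n D h => Submodule.mem_iSup_of_mem n ⟨⟨h.1, zero_mem _⟩,
        End.mem_eigenspace_iff.2 (Prod.ext (End.mem_eigenspace_iff.1 h.2) (by simp))⟩
    have h2 : (⨆ n : ℤ, DC S ⊓ (ld t).eigenspace (n : ℂ)) ≤
        (⨆ n : ℤ, LC S ⊓ (lam t).eigenspace (n : ℂ)).comap (LinearMap.inr ℂ (DD K) (DU K)) :=
      iSup_le fun n γ h => Submodule.mem_iSup_of_mem n ⟨⟨zero_mem _, h.1⟩,
        End.mem_eigenspace_iff.2 (Prod.ext (by simp) (End.mem_eigenspace_iff.1 h.2))⟩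
    have h3 := add_mem (Submodule.mem_comap.1 (h1 (hT v.1 hv.1)))
      (Submodule.mem_comap.1 (h2 (hD v.2 hv.2)))
    rwa [LinearMap.inl_apply, LinearMap.inr_apply, Prod.mk_add_mk, add_zero, zero_add] at h3
  refine ⟨tm, fun g hg z g0 h => ?_, hs, hT, hD, hL, ?_, ?_⟩
  · by_contra hn
    have h1 : (⨆ n : ℕ, SC S ⊓ (op t).eigenspace (n : ℂ)) ≤
        ⨆ (c' : ℂ) (_ : c' ≠ z), (op t).eigenspace c' :=
      iSup_le fun n => inf_le_right.trans
        (le_iSup₂_of_le (n : ℂ) (fun k => hn ⟨n, k.symm⟩) le_rfl)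
    exact g0 (Submodule.disjoint_def.1 (End.eigenspaces_iSupIndep (op t) z) g
      (End.mem_eigenspace_iff.2 h) (h1 (sN c g hg)))
  · refine hom e (LL S) (b.fgT.prod b.fgD) (fun v => ?_) (lam t) hL (del t) (lam t) (EC S) (LC S)
      (fun _ _ => rfl) (fun a h => del_mem tm h) (fun a h v hv => h v hv) hL
    obtain ⟨r, r1, r2, r3⟩ := b.den v.1
    obtain ⟨s, s1, s2, s3⟩ := b.denD v.2
    refine ⟨s * r, mul_mem s1 r1, mul_ne_zero s2 r2, ?_, ?_⟩
    · rw [Prod.smul_fst, mul_smul]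
      exact (TT S).smul_mem ⟨s, s1⟩ r3
    · rw [Prod.smul_snd, mul_comm, mul_smul]
      exact (TD S).smul_mem ⟨r, r1⟩ s3
  · exact hom e (TT S) b.fgT b.den (ad t) hT (lf t) (ld t) (RF S) (DC S) (fun _ _ => rfl)
      (fun η h => lf_mem tm h) (fun η h D hD => h D hD) hD

end Pool.Agent.MP_51db15_ag.Qh
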