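import Pool.Agent.MP_51db15_ag.Qh.Spec

/-! Row EVF: the eigenspaces on fields, endomorphisms and two-forms have finite dimension. -/

namespace Pool.Agent.MP_51db15_ag.Qh

open Module

noncomputable section

namespace EVFx

variable {K : Type} [Field K] [Algebra ℂ K]

/-- finitely many eigenvectors in a lattice span the space -/
theorem gens {M : Type} [AddCommGroup M] [Module K M] [Module ℂ M] [IsScalarTower ℂ K M]
    [FiniteDimensional K M] (δ : End ℂ M) (H : Submodule ℂ M) (hz : Dz δ H)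
    (hd : ∀ v : M, ∃ s : K, s ≠ 0 ∧ s • v ∈ H) :
    ∃ (J : Type) (_ : Fintype J) (u : J → M) (n : J → ℤ),
      (∀ j, u j ∈ H ∧ δ (u j) = (n j : ℂ) • u j) ∧
        ∀ (N : Type) [AddCommGroup N] [Module K N] (f : M →ₗ[K] N), (∀ j, f (u j) = 0) → f = 0 := by
  classical
  let T : Set M := {v | v ∈ H ∧ ∃ n : ℤ, δ v = (n : ℂ) • v}
  have hT : Submodule.span K T = ⊤ := by
    rw [eq_top_iff]
    intro v _
    obtain ⟨s, hs, hv⟩ := hd v
    have h1 : (⨆ n : ℤ, H ⊓ δ.eigenspace (n : ℂ)) ≤ (Submodule.span K T).restrictScalars ℂ := by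
      refine iSup_le fun n w hw => ?_
      exact Submodule.subset_span ⟨hw.1, n, End.mem_eigenspace_iff.mp hw.2⟩
    have h2 : s • v ∈ Submodule.span K T := h1 (hz _ hv)
    have h3 := Submodule.smul_mem _ s⁻¹ h2
    rwa [smul_smul, inv_mul_cancel₀ hs, one_smul] at h3
  obtain ⟨b, hb, hsp, hli⟩ := exists_linearIndependent K T
  have hfin : Finite b := hli.finite
  have hn : ∀ j : b, ∃ n : ℤ, δ (j : M) = (n : ℂ) • (j : M) := fun j => (hb j.2).2
  choose n hn using hn
  refine ⟨b, Fintype.ofFinite b, fun j => j, n, fun j => ⟨(hb j.2).1, hn j⟩, ?_⟩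
  intro N _ _ f hf
  refine LinearMap.ext_on (hsp.trans hT) fun v hv => ?_
  exact hf ⟨v, hv⟩

/-- value of a field at a function -/
def evD (g : K) : DD K →ₗ[ℂ] K where
  toFun D := D g
  map_add' _ _ := rfl
  map_smul' _ _ := rfl

/-- value of a one-form at a field -/
def evU (D : DD K) : DU K →ₗ[ℂ] K where
  toFun γ := γ D
  map_add' _ _ := rfl
  map_smul' _ _ := rfl

/-- value of an endomorphism -/
def evE (v : MM K) : EE K →ₗ[ℂ] MM K where
  toFun a := a v
  map_add' _ _ := rfl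
  map_smul' _ _ := rfl

/-- value of a two-form -/
def evF (D D' : DD K) : FF K →ₗ[ℂ] K where
  toFun η := η D D'
  map_add' _ _ := rfl
  map_smul' _ _ := rfl

theorem lie_ev (t D : DD K) (g : K) (c : ℂ) (h : t g = c • g) :
    ⁅t, D⁆ g = t (D g) - c • D g := by
  rw [Derivation.commutator_apply, h, Derivation.map_smul]

theorem ld_ev (t D : DD K) (γ : DU K) (c : ℂ) (h : ⁅t, D⁆ = c • D) :
    ld t γ D = t (γ D) - c • γ D := by
  rw [ld_apply, h, lin_c]

/-- evaluations on pairs -/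
def evL {ι J : Type} (x : ι → K) (u : J → DD K) : ι ⊕ J → MM K →ₗ[ℂ] K
  | .inl i => evD (x i) ∘ₗ LinearMap.fst ℂ (DD K) (DU K)
  | .inr j => evU (u j) ∘ₗ LinearMap.snd ℂ (DD K) (DU K)

end EVFx

open EVFx in
theorem evf (_g : GenK) (e : S_EVG) : S_EVF := by
  intro K ι _ _ _ S t x a hc hb he hv
  classical
  have := hb.fd
  obtain ⟨J, _, u, n, hu, hu0⟩ := gens (K := K) (ad t) (TC S) he.T fun D => by
    obtain ⟨s, _, hs, h⟩ := hb.den D
    exact ⟨s, hs, h⟩
  obtain ⟨J', _, v, m, hv1, hv0⟩ := gens (K := K) (lam t) (LC S) he.L fun w => by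
    obtain ⟨s, hs1, hs, h⟩ := hb.den w.1
    obtain ⟨s', hs1', hs', h'⟩ := hb.denD w.2
    refine ⟨s * s', mul_ne_zero hs hs', ?_, ?_⟩
    · have := (TT S).smul_mem ⟨s', hs1'⟩ h
      change s' • s • w.1 ∈ TT S at this
      rw [smul_smul, mul_comm] at this
      exact this
    · have := (TD S).smul_mem ⟨s, hs1⟩ h'
      change s • s' • w.2 ∈ TD S at this
      rw [smul_smul] at this
      exact this
  let α : ι ⊕ J → ℤ := Sum.elim (fun i => (a i : ℤ)) n
  have hL1 : ∀ w ∈ LC S, ∀ k, evL x u k w ∈ SC S := by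
    rintro w hw (i | j)
    · exact hw.1 _ (hb.mem i)
    · exact hw.2 _ (hu j).1
  have hL2 : ∀ w ∈ LC S, (∀ k, evL x u k w = 0) → w = 0 := fun w _ h =>
    Prod.ext (hb.ext _ _ fun i => h (.inl i)) (hu0 K w.2 fun j => h (.inr j))
  have hL3 : ∀ w ∈ LC S, ∀ k,
      evL x u k (lam t w) = op t (evL x u k w) - (α k : ℂ) • evL x u k w := by
    rintro w _ (i | j)
    · exact lie_ev t w.1 (x i) _ (by simpa [α] using hc.eig i)
    · exact ld_ev t (u j) w.2 _ (hu j).2
  have hL : Fd (lam t) (LC S) :=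
    (e _ _ _ (lam t) (op t) (LC S) (SC S) (evL x u) α (fun w hw => lam_mem he.tm hw)
      hL1 hL2 hL3).2 hv.fd
  refine ⟨?_, ?_, ?_, ?_⟩
  · refine (e _ _ _ (ad t) (op t) (TC S) (SC S) (fun i => evD (x i)) (fun i => (a i : ℤ))
      (fun D hD => lie_mem he.tm hD) (fun D hD i => hD _ (hb.mem i))
      (fun D _ h => hb.ext _ _ h) fun D _ i => ?_).2 hv.fd
    exact lie_ev t D (x i) _ (by simpa using hc.eig i)
  · refine (e (EE K) _ _ (del t) (lam t) (EC S) (LC S) (fun j => evE (v j)) m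
      (fun b hb' => del_mem he.tm hb') (fun b hb' j => (mem_EI S).mp hb' _ (hv1 j).1)
      (fun b _ h => hv0 _ b h) fun b _ j => ?_).2 hL
    change lam t (b (v j)) - b (lam t (v j)) = lam t (b (v j)) - (m j : ℂ) • b (v j)
    rw [(hv1 j).2, lin_c]
  · refine (e (FF K) _ (J × J) (lf t) (op t) (RF S) (SC S) (fun p => evF (u p.1) (u p.2))
      (fun p => n p.1 + n p.2) (fun η h => lf_mem he.tm h)
      (fun η h p => (mem_RF S).mp h _ (hu p.1).1 _ (hu p.2).1)
      (fun η _ h => hu0 _ η fun j => hu0 _ (η (u j)) fun k => h (j, k)) fun η _ p => ?_).2 hv.fd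
    have h1 : ⁅t, u p.1⁆ = (n p.1 : ℂ) • u p.1 := (hu p.1).2
    have h2 : ⁅t, u p.2⁆ = (n p.2 : ℂ) • u p.2 := (hu p.2).2
    change lf t η (u p.1) (u p.2) =
      t (η (u p.1) (u p.2)) - ((n p.1 + n p.2 : ℤ) : ℂ) • η (u p.1) (u p.2)
    rw [lf_apply, h1, h2, lin_c, lin_c, LinearMap.smul_apply, Int.cast_add, add_smul]
    abel
  · refine ⟨-∑ k, |α k|, fun w hw r hr h => hL2 w hw fun k => ?_⟩
    by_contra h0
    have h1 := hL3 w hw k
    rw [h, map_smul] at h1
    have h2 : t (evL x u k w) = ((r + α k : ℤ) : ℂ) • evL x u k w := by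
      rw [Int.cast_add, add_smul, h1, op_apply, sub_add_cancel]
    obtain ⟨q, hq⟩ := he.nat _ (hL1 w hw k) _ h0 h2
    have h3 : r + α k = q := by exact_mod_cast hq
    have h4 : |α k| ≤ ∑ k, |α k| :=
      Finset.single_le_sum (f := fun k => |α k|) (fun k _ => abs_nonneg _) (Finset.mem_univ k)
    have h5 := le_abs_self (α k)
    omega

end

end Pool.Agent.MP_51db15_ag.Qh
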