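import Pool.Agent.MP_51db15_ag.Qh.Spec

/-! Row EVG of project QH: eigenvectors are detected by finitely many evaluations. -/

namespace Pool.Agent.MP_51db15_ag.Qh

open Module

namespace EVGx

variable {W ι : Type} [AddCommGroup W] [Module ℂ W]

/-- the shifted operator on the product -/
noncomputable def sh (δ' : End ℂ W) (α : ι → ℤ) : End ℂ (ι → W) :=
  LinearMap.pi fun i => (δ' - (α i : ℂ) • (1 : End ℂ W)) ∘ₗ LinearMap.proj i

theorem sh_apply (δ' : End ℂ W) (α : ι → ℤ) (w : ι → W) (i : ι) :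
    sh δ' α w i = δ' (w i) - (α i : ℂ) • w i := by
  simp [sh]

theorem dz_pi [Fintype ι] (δ' : End ℂ W) (α : ι → ℤ) (H' : Submodule ℂ W) (h : Dz δ' H') :
    Dz (sh δ' α) (Submodule.pi Set.univ fun _ : ι => H') := by
  classical
  intro w hw
  rw [← Finset.univ_sum_single w]
  refine Submodule.sum_mem _ fun i _ => ?_
  have hi : w i ∈ ⨆ n : ℤ, H' ⊓ δ'.eigenspace (n : ℂ) := h _ (hw i (Set.mem_univ i))
  refine Submodule.iSup_induction (fun n : ℤ => H' ⊓ δ'.eigenspace (n : ℂ))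
    (motive := fun x => (Pi.single i x : ι → W) ∈
      ⨆ n : ℤ, (Submodule.pi Set.univ fun _ : ι => H') ⊓ (sh δ' α).eigenspace (n : ℂ)) hi ?_ ?_ ?_
  · rintro n x ⟨hx, hxe⟩
    have hxe' : δ' x = (n : ℂ) • x := End.mem_eigenspace_iff.1 hxe
    refine Submodule.mem_iSup_of_mem (n - α i) ⟨fun j _ => ?_, ?_⟩
    · by_cases hj : j = i
      · subst hj
        simpa using hx
      · simp [Pi.single_eq_of_ne hj]
    · refine End.mem_eigenspace_iff.2 ?_
      funext j
      rw [sh_apply]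
      by_cases hj : j = i
      · subst hj
        simp [hxe', sub_smul]
      · simp [Pi.single_eq_of_ne hj]
  · simp
  · intro x y hx hy
    rw [Pi.single_add]
    exact Submodule.add_mem _ hx hy

end EVGx

open EVGx in
theorem evg (g : GenK) : S_EVG := by
  intro U W ι _ _ _ _ _ δ δ' H H' ev α hH hev hinj hcom
  refine ⟨fun hD => ?_, fun hF c => ?_⟩
  · let T : U →ₗ[ℂ] (ι → W) := LinearMap.pi ev
    have hT : ∀ u ∈ H, T (δ u) = sh δ' α (T u) := fun u hu => by
      funext i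
      rw [sh_apply]
      exact hcom u hu i
    have hT0 : ∀ u ∈ H, T u = 0 → u = 0 := fun u hu h0 => hinj u hu fun i => congrFun h0 i
    have hsub : Dz (sh δ' α) (H.map T) := by
      refine g.sub (ι → W) (sh δ' α) _ (H.map T) (dz_pi δ' α H' hD) ?_ ?_
      · rintro _ ⟨u, hu, rfl⟩ i _
        exact hev u hu i
      · rintro _ ⟨u, hu, rfl⟩
        exact ⟨δ u, hH u hu, hT u hu⟩
    intro u hu
    have h1 := hsub (T u) ⟨u, hu, rfl⟩
    have hle : (⨆ n : ℤ, H.map T ⊓ (sh δ' α).eigenspace (n : ℂ)) ≤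
        (⨆ n : ℤ, H ⊓ δ.eigenspace (n : ℂ)).map T := by
      refine iSup_le fun n => ?_
      rintro _ ⟨⟨v, hv, rfl⟩, he⟩
      refine ⟨v, Submodule.mem_iSup_of_mem n ⟨hv, End.mem_eigenspace_iff.2 ?_⟩, rfl⟩
      have he' : sh δ' α (T v) = (n : ℂ) • T v := End.mem_eigenspace_iff.1 he
      refine sub_eq_zero.1 (hT0 _ (H.sub_mem (hH v hv) (H.smul_mem _ hv)) ?_)
      rw [map_sub, map_smul, hT v hv, he', sub_self]
    obtain ⟨v, hv, hvu⟩ := hle h1
    have hvH : v ∈ H := (iSup_le (fun n : ℤ => (inf_le_left : H ⊓ δ.eigenspace (n : ℂ) ≤ H))) hv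
    have : u = v := by
      refine sub_eq_zero.1 (hT0 _ (H.sub_mem hu hvH) ?_)
      rw [map_sub, hvu, sub_self]
    rw [this]
    exact hv
  · have : ∀ i, FiniteDimensional ℂ ↥(H' ⊓ δ'.eigenspace (c + (α i : ℂ))) := fun i => hF _
    have hmem : ∀ (i : ι) (u : ↥(H ⊓ δ.eigenspace c)),
        (ev i ∘ₗ (H ⊓ δ.eigenspace c).subtype) u ∈ H' ⊓ δ'.eigenspace (c + (α i : ℂ)) := by
      rintro i ⟨u, hu, hue⟩
      refine ⟨hev u hu i, End.mem_eigenspace_iff.2 ?_⟩
      have h1 : δ u = c • u := End.mem_eigenspace_iff.1 hue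
      have h2 := hcom u hu i
      rw [h1, map_smul] at h2
      change δ' (ev i u) = (c + (α i : ℂ)) • ev i u
      rw [add_smul, h2, sub_add_cancel]
    let T : ↥(H ⊓ δ.eigenspace c) →ₗ[ℂ] (∀ i, ↥(H' ⊓ δ'.eigenspace (c + (α i : ℂ)))) :=
      LinearMap.pi fun i => LinearMap.codRestrict _ (ev i ∘ₗ (H ⊓ δ.eigenspace c).subtype) (hmem i)
    refine FiniteDimensional.of_injective T ?_
    rw [injective_iff_map_eq_zero]
    intro u hu
    refine Subtype.ext (hinj u.1 u.2.1 fun i => ?_)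
    exact congrArg Subtype.val (congrFun hu i)

end Pool.Agent.MP_51db15_ag.Qh
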