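import Pool.Agent.MP_51db15_ag.Qh.Spec4

/-! PROJECT SD, row FA: the weighted order filtration. -/

namespace Pool.Agent.MP_51db15_ag.Qh

open MvPowerSeries

namespace FAx

variable {ι : Type} {a : ι → ℕ} {k l : ℤ} {g h : MvPowerSeries ι ℂ}

theorem iff : Wo a k g ↔ ∀ α : ι →₀ ℕ, ((Finsupp.weight a α : ℕ) : ℤ) < k → coeff α g = 0 := by
  constructor
  · intro h α hα
    refine coeff_eq_zero_of_lt_weightedOrder a (lt_of_lt_of_le ?_ h)
    exact_mod_cast (by omega : Finsupp.weight a α < k.toNat)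
  · intro h
    exact nat_le_weightedOrder a fun α hα => h α (by omega)

theorem mono (hg : Wo a k g) (h : l ≤ k) : Wo a l g :=
  iff.2 fun α hα => iff.1 hg α (by omega)

theorem top (h : k ≤ 0) (g : MvPowerSeries ι ℂ) : Wo a k g :=
  iff.2 fun α hα => by omega

theorem mul (hg : Wo a k g) (hh : Wo a l h) : Wo a (k + l) (g * h) := by
  refine le_trans ?_ (le_trans (add_le_add hg hh) (le_weightedOrder_mul a))
  exact_mod_cast (by omega : (k + l).toNat ≤ k.toNat + l.toNat)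

theorem gen (a : ι → ℕ) (i : ι) : Wo a (a i) (X i : MvPowerSeries ι ℂ) := by
  classical
  refine iff.2 fun α hα => ?_
  rw [coeff_X, if_neg]
  rintro rfl
  simp [Finsupp.weight_single] at hα

theorem der (hg : Wo a k g) (i : ι) : Wo a (k - a i) (pderiv ℂ i g) := by
  refine iff.2 fun α hα => ?_
  rw [coeff_pderiv, iff.1 hg, zero_mul]
  rw [map_add, Finsupp.weight_single, one_smul]
  push_cast
  omega

theorem weight_le [Fintype ι] (a : ι → ℕ) (α : ι →₀ ℕ) :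
    Finsupp.weight a α ≤ Finsupp.degree α * (∑ i, a i + 1) := by
  rw [Finsupp.weight_apply, Finsupp.degree_apply, Finsupp.sum, Finset.sum_mul]
  refine Finset.sum_le_sum fun i _ => ?_
  rw [smul_eq_mul]
  exact Nat.mul_le_mul_left _ (Nat.le_succ_of_le
    (Finset.single_le_sum (f := a) (fun _ _ => Nat.zero_le _) (Finset.mem_univ i)))

theorem ord [Fintype ι] {n : ℕ} (hg : Wo a ((n * (∑ i, a i + 1) : ℕ) : ℤ) g) :
    (n : ℕ∞) ≤ g.order :=
  nat_le_order fun α hα => iff.1 hg α (by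
    have h1 := weight_le a α
    have h2 : Finsupp.degree α * (∑ i, a i + 1) < n * (∑ i, a i + 1) :=
      Nat.mul_lt_mul_of_pos_right hα (Nat.succ_pos _)
    exact_mod_cast lt_of_le_of_lt h1 h2)

theorem cpl (k : ℤ) (g : ℕ → MvPowerSeries ι ℂ) (hg : ∀ n : ℕ, Wo a (k + n) (g n)) :
    ∃ s : MvPowerSeries ι ℂ, ∀ N : ℕ, Wo a (k + N) (s - ∑ n ∈ Finset.range N, g n) := by
  obtain ⟨s, hs⟩ : ∃ s : MvPowerSeries ι ℂ, ∀ α, coeff α s =
      ∑ n ∈ Finset.range (((Finsupp.weight a α : ℕ) : ℤ) - k + 1).toNat, coeff α (g n) :=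
    ⟨fun α => ∑ n ∈ Finset.range (((Finsupp.weight a α : ℕ) : ℤ) - k + 1).toNat, coeff α (g n),
      fun _ => rfl⟩
  refine ⟨s, fun N => iff.2 fun α hα => ?_⟩
  rw [map_sub, map_sum, sub_eq_zero, hs]
  refine Finset.sum_subset (Finset.range_subset_range.2 (by omega)) fun n _ hn => ?_
  rw [Finset.mem_range] at hn
  exact iff.1 (hg n) α (by omega)

end FAx

theorem fa : S_FA := by
  intro ι K R _ _ _ _ _ _ _ q a φ F h
  obtain ⟨m, hm⟩ := h.pres
  have hq : ∀ {k g}, Wo a k g → q g ∈ F k := fun hg => (h.fil _ _).2 ⟨_, hg, rfl⟩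
  have hmul : ∀ i j, ∀ r ∈ F i, ∀ s ∈ F j, r * s ∈ F (i + j) := fun i j r hr s hs => by
    obtain ⟨g, hg, rfl⟩ := (h.fil _ _).1 hr
    obtain ⟨g', hg', rfl⟩ := (h.fil _ _).1 hs
    rw [← map_mul]
    exact hq (FAx.mul hg hg')
  refine ⟨fun k l hkl r hr => ?_, fun k hk => ?_, hmul, fun r hr => ?_, fun k r hr => ?_,
    fun i => hq (FAx.gen a i), fun D p hD k r hr => ?_, fun D hD => ?_⟩
  · obtain ⟨g, hg, rfl⟩ := (h.fil _ _).1 hr
    exact hq (FAx.mono hg hkl)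
  · rw [Ideal.eq_top_iff_one, ← map_one q]
    exact hq (FAx.top hk 1)
  · refine hm.sep fun n => ?_
    obtain ⟨g, hg, rfl⟩ := (h.fil _ _).1 (hr ((n * (∑ i, a i + 1) : ℕ) : ℤ))
    exact hm.q_mem (FAx.ord hg)
  · choose g hg e using fun n => (h.fil _ _).1 (hr n)
    obtain ⟨s, hs⟩ := FAx.cpl k g hg
    refine ⟨q s, fun N => ?_⟩
    have h1 := hq (hs N)
    rw [map_sub, map_sum] at h1
    simpa only [e] using h1
  · obtain ⟨g, hg, rfl⟩ := (h.fil _ _).1 hr
    rw [hm.chain D g]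
    refine Ideal.sum_mem _ fun i _ => ?_
    have h1 := hmul _ _ _ (hq (FAx.der hg i)) _ (hD i)
    rwa [show k - a i + (a i + p) = k + p by ring] at h1
  · exact hm.der_ext hD

end Pool.Agent.MP_51db15_ag.Qh
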