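import Pool.Agent.MP_51db15_ag.Qh.Spec4

/-! PROJECT SD, row FB: the symbols. -/

namespace Pool.Agent.MP_51db15_ag.Qh

open Module

noncomputable section

namespace FBx

theorem fac {U V W : Type} [AddCommGroup U] [Module ℂ U] [AddCommGroup V] [Module ℂ V]
    [AddCommGroup W] [Module ℂ W] (f : U →ₗ[ℂ] V) (g : U →ₗ[ℂ] W) (h : ∀ u, f u = 0 → g u = 0) :
    ∃ t : V →ₗ[ℂ] W, ∀ u, t (f u) = g u := by
  obtain ⟨l, hl⟩ := LinearMap.exists_leftInverse_of_injective
    ((LinearMap.ker f).liftQ f le_rfl) (Submodule.ker_liftQ_eq_bot _ _ _ le_rfl)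
  refine ⟨(LinearMap.ker f).liftQ g (fun u hu => h u hu) ∘ₗ l, fun u => ?_⟩
  have e : l (f u) = Submodule.Quotient.mk u := LinearMap.congr_fun hl (Submodule.Quotient.mk u)
  rw [LinearMap.comp_apply, e, Submodule.liftQ_apply]

variable {ι K R : Type} [Field K] [Algebra ℂ K] [CommRing R] [Algebra ℂ R] {a : ι → ℕ}

theorem wo_iff {k : ℤ} {g : MvPowerSeries ι ℂ} :
    Wo a k g ↔ ∀ m, Finsupp.weight a m < k.toNat → MvPowerSeries.coeff m g = 0 :=
  ⟨fun h _ hm => MvPowerSeries.coeff_eq_zero_of_lt_weightedOrder a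
    (lt_of_lt_of_le (by exact_mod_cast hm) h), MvPowerSeries.nat_le_weightedOrder a⟩

theorem wo_mul {i j : ℤ} {g h : MvPowerSeries ι ℂ} (hg : Wo a i g) (hh : Wo a j h) :
    Wo a (i + j) (g * h) := by
  refine le_trans ?_ ((add_le_add hg hh).trans (MvPowerSeries.le_weightedOrder_mul a))
  exact_mod_cast (show (i + j).toNat ≤ i.toNat + j.toNat by omega)

theorem wo_hom {d : ℕ} {G : MvPolynomial ι ℂ} (hG : G.IsWeightedHomogeneous a d) :
    Wo a d (G : MvPowerSeries ι ℂ) := by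
  refine wo_iff.2 fun m hm => ?_
  rw [MvPolynomial.coeff_coe]
  by_contra h
  have := hG h
  omega

theorem wo_dec [Fintype ι] (ha : ∀ i, 0 < a i) {d : ℕ} {g : MvPowerSeries ι ℂ} (hg : Wo a d g) :
    ∃ G : MvPolynomial ι ℂ, G.IsWeightedHomogeneous a d ∧ Wo a (d + 1) (g - G) := by
  classical
  have hf := Finsupp.finite_of_nat_weight_eq a (fun i => (ha i).ne') d
  refine ⟨∑ m ∈ hf.toFinset, MvPolynomial.monomial m (MvPowerSeries.coeff m g),
    MvPolynomial.IsWeightedHomogeneous.sum _ _ _ fun m hm =>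
      MvPolynomial.isWeightedHomogeneous_monomial _ _ _ (hf.mem_toFinset.1 hm),
    wo_iff.2 fun m hm => ?_⟩
  rw [map_sub, MvPolynomial.coeff_coe, MvPolynomial.coeff_sum]
  simp_rw [MvPolynomial.coeff_monomial]
  rw [Finset.sum_ite_eq']
  split_ifs with h
  · exact sub_self _
  · rw [sub_zero]
    have h' : Finsupp.weight a m ≠ d := fun e => h (hf.mem_toFinset.2 e)
    exact wo_iff.1 hg m (by omega)

variable {φ : MvPolynomial ι ℂ →ₐ[ℂ] K} {E : DD K}

theorem eul_mon (hE : ∀ i, E (φ (.X i)) = (a i : ℂ) • φ (.X i)) (m : ι →₀ ℕ) (c : ℂ) :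
    E (φ (MvPolynomial.monomial m c)) =
      (Finsupp.weight a m : ℂ) • φ (MvPolynomial.monomial m c) := by
  induction m using Finsupp.induction_linear generalizing c with
  | zero =>
    rw [MvPolynomial.monomial_zero', MvPolynomial.algHom_C, Derivation.map_algebraMap]
    simp
  | add m m' h h' =>
    rw [← mul_one c, ← MvPolynomial.monomial_mul, map_mul, Derivation.leibniz, h, h', map_add]
    simp only [smul_eq_mul, Nat.cast_add, add_smul, mul_smul_comm]
    ring_nf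
  | single i n =>
    rw [← MvPolynomial.C_mul_X_pow_eq_monomial, map_mul, MvPolynomial.algHom_C, map_pow,
      ← Algebra.smul_def, Derivation.map_smul, Derivation.leibniz_pow, hE, Finsupp.weight_single]
    rcases n with _ | n
    · simp
    · simp only [nsmul_eq_mul, smul_eq_mul, Nat.add_sub_cancel]
      simp only [Algebra.smul_def, map_natCast]
      push_cast
      ring

theorem eul (hE : ∀ i, E (φ (.X i)) = (a i : ℂ) • φ (.X i)) {d : ℕ} {G : MvPolynomial ι ℂ}
    (hG : G.IsWeightedHomogeneous a d) : E (φ G) = (d : ℂ) • φ G := by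
  rw [G.as_sum, map_sum, map_sum, Finset.smul_sum]
  refine Finset.sum_congr rfl fun m hm => ?_
  rw [eul_mon hE, hG (MvPolynomial.mem_support_iff.1 hm)]

theorem comp (hE : ∀ i, E (φ (.X i)) = (a i : ℂ) • φ (.X i)) (k : ℤ) (G : MvPolynomial ι ℂ) :
    ∃ G' : MvPolynomial ι ℂ, G'.IsWeightedHomogeneous a k.toNat ∧ (k < 0 → G' = 0) ∧
      φ G - φ G' ∈ ⨆ (c : ℂ) (_ : c ≠ (k : ℂ)), (op E).eigenspace c := by
  induction G using MvPolynomial.induction_on' with
  | monomial m c =>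
    by_cases h : (Finsupp.weight a m : ℤ) = k
    · refine ⟨MvPolynomial.monomial m c,
        MvPolynomial.isWeightedHomogeneous_monomial _ _ _ (by omega), fun hk => by omega, ?_⟩
      rw [sub_self]
      exact zero_mem _
    · refine ⟨0, MvPolynomial.isWeightedHomogeneous_zero _ _ _, fun _ => rfl, ?_⟩
      rw [map_zero, sub_zero]
      refine Submodule.mem_iSup_of_mem (Finsupp.weight a m : ℂ) (Submodule.mem_iSup_of_mem ?_ ?_)
      · intro e
        exact h (by exact_mod_cast e)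
      · exact End.mem_eigenspace_iff.2 (eul_mon hE m c)
  | add G H hG hH =>
    obtain ⟨G', g1, g2, g3⟩ := hG
    obtain ⟨H', h1, h2, h3⟩ := hH
    refine ⟨G' + H', g1.add h1, fun hk => by rw [g2 hk, h2 hk, add_zero], ?_⟩
    rw [map_add, map_add, add_sub_add_comm]
    exact add_mem g3 h3

end FBx

open FBx in
theorem fb : S_FB := by
  intro ι K R _ _ _ _ _ _ _ q a φ F E W hE
  have anti : ∀ {i j : ℤ} {r : R}, r ∈ F i → j.toNat ≤ i.toNat → r ∈ F j := fun hr h => by
    obtain ⟨g, g1, g2⟩ := (W.fil _ _).1 hr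
    exact (W.fil _ _).2 ⟨g, le_trans (by exact_mod_cast h) g1, g2⟩
  have mul : ∀ {i j : ℤ} {r s : R}, r ∈ F i → s ∈ F j → r * s ∈ F (i + j) := fun hr hs => by
    obtain ⟨g, g1, g2⟩ := (W.fil _ _).1 hr
    obtain ⟨h, h1, h2⟩ := (W.fil _ _).1 hs
    exact (W.fil _ _).2 ⟨g * h, wo_mul g1 h1, by rw [map_mul, g2, h2]⟩
  have hom : ∀ {d : ℕ} {G : MvPolynomial ι ℂ}, G.IsWeightedHomogeneous a d →
      q (G : MvPowerSeries ι ℂ) ∈ F d := fun hG => (W.fil _ _).2 ⟨_, wo_hom hG, rfl⟩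
  have dec : ∀ {d : ℕ} {r : R}, r ∈ F d → ∃ (G : MvPolynomial ι ℂ) (s : R),
      G.IsWeightedHomogeneous a d ∧ s ∈ F (d + 1) ∧ r = q (G : MvPowerSeries ι ℂ) + s := by
    intro d r hr
    obtain ⟨g, g1, g2⟩ := (W.fil _ _).1 hr
    obtain ⟨G, h1, h2⟩ := wo_dec W.pos g1
    exact ⟨G, q (g - G), h1, (W.fil _ _).2 ⟨_, h2, rfl⟩, by rw [map_sub, g2, add_sub_cancel]⟩
  have ex : ∀ d : ℕ, ∃ t : R →ₗ[ℂ] K, ∀ G : MvPolynomial ι ℂ, G.IsWeightedHomogeneous a d →
      ∀ s ∈ F (d + 1), t (q (G : MvPowerSeries ι ℂ) + s) = φ G := by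
    intro d
    obtain ⟨t, ht⟩ := fac
      (((q.comp (MvPolynomial.coeToMvPowerSeries.algHom ℂ)).toLinearMap ∘ₗ
        (MvPolynomial.weightedHomogeneousSubmodule ℂ a d).subtype).coprod
        ((F (d + 1)).restrictScalars ℂ).subtype)
      ((φ.toLinearMap ∘ₗ (MvPolynomial.weightedHomogeneousSubmodule ℂ a d).subtype).coprod 0)
      (fun u hu => by
        have h1 : q (u.1.1 : MvPowerSeries ι ℂ) + u.2.1 = 0 := by simpa using hu
        have h2 : φ u.1.1 = 0 := (W.mem d u.1.1 u.1.2).2 (by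
          rw [eq_neg_of_add_eq_zero_left h1]
          exact neg_mem u.2.2)
        simpa using h2)
    refine ⟨t, fun G hG s hs => ?_⟩
    simpa using ht (⟨G, hG⟩, ⟨s, hs⟩)
  choose t ht using ex
  let σ : ℤ → R →ₗ[ℂ] K := fun k => if 0 ≤ k then t k.toNat else 0
  have s1 : ∀ d : ℕ, σ d = t d := fun d => by simp [σ]
  have s2 : ∀ k < 0, σ k = 0 := fun k hk => if_neg (by omega)
  have s3 : ∀ k, ∀ r ∈ F (k + 1), σ k r = 0 := fun k r hr => by
    rcases lt_or_ge k 0 with hk | hk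
    · rw [s2 k hk, LinearMap.zero_apply]
    · lift k to ℕ using hk
      simpa [s1] using ht k 0 (MvPolynomial.isWeightedHomogeneous_zero _ _ _) r hr
  have s4 : ∀ (d : ℕ) (G : MvPolynomial ι ℂ), G.IsWeightedHomogeneous a d →
      σ d (q (G : MvPowerSeries ι ℂ)) = φ G := fun d G hG => by
    simpa [s1] using ht d G hG 0 (zero_mem _)
  refine ⟨σ, ⟨fun k r hr => ?_, fun k r hr => ⟨fun h => ?_, s3 k r⟩, fun i j r hr s hs => ?_,
    fun k g hg hk => ?_, fun i => ?_⟩, fun d G g hG hg => ?_⟩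
  · rcases lt_or_ge k 0 with hk | hk
    · simp [s2 k hk]
    · lift k to ℕ using hk
      obtain ⟨G, s, h1, h2, rfl⟩ := dec hr
      rw [s1, ht k G h1 s h2, eul hE h1]
      exact ⟨⟨G, rfl⟩, by simp⟩
  · rcases lt_or_ge k 0 with hk | hk
    · exact anti hr (by omega)
    · lift k to ℕ using hk
      obtain ⟨G, s, h1, h2, rfl⟩ := dec hr
      rw [s1, ht k G h1 s h2] at h
      exact add_mem ((W.mem k G h1).1 h) h2
  · rcases lt_or_ge i 0 with hi | hi
    · rw [s2 i hi, LinearMap.zero_apply, zero_mul]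
      exact s3 _ _ (anti (mul (anti hr (show (i + 1).toNat ≤ _ by omega)) hs) (by omega))
    rcases lt_or_ge j 0 with hj | hj
    · rw [s2 j hj, LinearMap.zero_apply, mul_zero]
      exact s3 _ _ (anti (mul hr (anti hs (show (j + 1).toNat ≤ _ by omega))) (by omega))
    lift i to ℕ using hi
    lift j to ℕ using hj
    obtain ⟨G, u, h1, h2, rfl⟩ := dec hr
    obtain ⟨H, v, h3, h4, rfl⟩ := dec hs
    have e : (q (G : MvPowerSeries ι ℂ) + u) * (q (H : MvPowerSeries ι ℂ) + v) =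
        q ((G * H : MvPolynomial ι ℂ) : MvPowerSeries ι ℂ) +
          (q (G : MvPowerSeries ι ℂ) * v + u * (q (H : MvPowerSeries ι ℂ) + v)) := by
      rw [MvPolynomial.coe_mul, map_mul]
      ring
    rw [e, ← Nat.cast_add, s1, s1, s1, ht i G h1 u h2, ht j H h3 v h4, ← map_mul]
    exact ht _ _ (h1.mul h3) _ (add_mem (anti (mul (hom h1) h4) (by omega))
      (anti (mul h2 hs) (by omega)))
  · obtain ⟨G, rfl⟩ := hg
    obtain ⟨G', h1, h2, h3⟩ := comp hE k G
    have h4 : φ G' ∈ (op E).eigenspace (k : ℂ) := by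
      rcases lt_or_ge k 0 with h | h
      · rw [h2 h, map_zero]
        exact zero_mem _
      · lift k to ℕ using h
        exact End.mem_eigenspace_iff.2 (by simpa using eul hE h1)
    have h5 : φ G - φ G' = 0 := Submodule.disjoint_def.1 ((op E).eigenspaces_iSupIndep (k : ℂ)) _
      (sub_mem (End.mem_eigenspace_iff.2 hk) h4) h3
    refine ⟨q (G' : MvPowerSeries ι ℂ), anti (hom h1) (by omega), ?_⟩
    change _ = φ G
    rw [sub_eq_zero.1 h5]
    rcases lt_or_ge k 0 with h | h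
    · rw [s2 k h, h2 h, map_zero, LinearMap.zero_apply]
    · lift k to ℕ using h
      exact s4 k G' h1
  · simpa using s4 (a i) _ (MvPolynomial.isWeightedHomogeneous_X ℂ a i)
  · rw [s1, show q g = q (G : MvPowerSeries ι ℂ) + q (g - G) by rw [map_sub, add_sub_cancel]]
    exact ht d G hG _ ((W.fil _ _).2 ⟨_, hg, rfl⟩)

end

end Pool.Agent.MP_51db15_ag.Qh
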