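import Pool.Agent.MP_51db15_ag.Qh.Spec
import Pool.Agent.MP_51db15_ag.Nc.D4

/-! A cone with a perfect homogeneous form is conical symplectic. -/

namespace Pool.Agent.MP_51db15_ag.Qh

open MvPolynomial

namespace FINx

variable {K ι : Type} [Field K] [Algebra ℂ K] {t : DD K} {x : ι → K} {a : ι → ℕ}

theorem mono (h : ∀ i, t (x i) = (a i : ℂ) • x i) (d : ι →₀ ℕ) :
    t (aeval x (monomial d (1 : ℂ))) =
      ((Finsupp.weight a d : ℕ) : ℂ) • aeval x (monomial d (1 : ℂ)) := by
  induction d using Finsupp.induction_linear with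
  | zero => simp
  | add d e hd he =>
    rw [← one_mul (1 : ℂ), ← monomial_mul, map_mul, Derivation.leibniz, hd, he, map_add]
    simp only [smul_eq_mul, Nat.cast_add, add_smul, mul_smul_comm]
    rw [add_comm, mul_comm]
  | single i n =>
    rw [← X_pow_eq_monomial, map_pow, aeval_X, Finsupp.weight_single]
    induction n with
    | zero => simp
    | succ n ih =>
      rw [pow_succ, Derivation.leibniz, ih, h]
      simp only [smul_eq_mul, Nat.cast_mul, Nat.cast_add, mul_smul_comm, add_mul,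
        one_mul, add_smul]
      rw [add_comm, mul_comm (x i)]

theorem eig (h : ∀ i, t (x i) = (a i : ℂ) • x i) {g : MvPolynomial ι ℂ} {e : ℕ}
    (hg : IsWeightedHomogeneous a g e) : t (aeval x g) = (e : ℂ) • aeval x g := by
  induction hg using IsWeightedHomogeneous.induction_on with
  | zero => simp
  | add p q _ _ hp hq => rw [map_add, map_add, hp, hq, smul_add]
  | monomial d r hr =>
    rw [← mul_one r, ← smul_eq_mul, ← smul_monomial, map_smul, Derivation.map_smul, mono h, hr,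
      smul_comm]

theorem ker_scale [Fintype ι] (h : ∀ i, t (x i) = (a i : ℂ) • x i) {g : MvPolynomial ι ℂ}
    (hg : aeval x g = 0) : aeval x (Hy.D4.scale a g) = 0 := by
  classical
  let c : ℕ → MvPolynomial ι ℂ := fun e =>
    ∑ α ∈ g.support.filter (fun α => Finsupp.weight a α = e), monomial α (coeff α g)
  have h1 : ∀ e, IsWeightedHomogeneous a (c e) e := fun e =>
    IsWeightedHomogeneous.sum _ _ _ fun α hα =>
      isWeightedHomogeneous_monomial a α _ (Finset.mem_filter.1 hα).2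
  have h2 : ∑ e ∈ g.support.image (Finsupp.weight a), c e = g :=
    (Finset.sum_fiberwise_of_maps_to (fun α hα => Finset.mem_image_of_mem _ hα) _).trans
      g.as_sum.symm
  have h3 : iSupIndep fun e : ℕ => (op t).eigenspace (e : ℂ) :=
    (op t).eigenspaces_iSupIndep.comp Nat.cast_injective
  have h4 := (iSupIndep_iff_finsetSum_eq_zero_imp_eq_zero _).1 h3
    (g.support.image (Finsupp.weight a)) (fun e => aeval x (c e))
    (fun e _ => Module.End.mem_eigenspace_iff.2 (eig h (h1 e))) (by rw [← map_sum, h2, hg])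
  rw [← h2, map_sum, map_sum]
  exact Finset.sum_eq_zero fun e he => by rw [Hy.D4.scale_hom a (h1 e), map_smul, h4 e he, smul_zero]

theorem inj [Fintype ι] {S : Subalgebra ℂ K} {ω : FF K} (b : Bas S x) (hm : vx S x ≠ ⊤)
    (p : Perf S x ω) : Function.Injective ω := by
  have := b.fd
  obtain ⟨r, -, ⟨y, hy, e⟩, p⟩ := p
  have hr : r ≠ 0 := by
    rintro rfl
    refine hm ((Ideal.eq_top_iff_one _).2 ?_)
    have : (1 : S) = -y := Subtype.ext (by simp [← e])
    rw [this]
    exact neg_mem hy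
  refine (LinearMap.injective_iff_surjective_of_finrank_eq_finrank
    (Subspace.dual_finrank_eq).symm).2 fun γ => ?_
  obtain ⟨s, -, hs, hγ⟩ := b.denD γ
  obtain ⟨D, -, hD⟩ := p _ hγ
  refine ⟨(r * s)⁻¹ • D, ?_⟩
  rw [map_smul, hD, smul_smul, smul_smul, mul_assoc, inv_mul_cancel₀ (mul_ne_zero hr hs), one_smul]

end FINx

theorem fin (h : S_HAM) (r : S_REG) : S_FIN := by
  classical
  intro K ι _ _ _ S t x a ω w c hn hw hc hk hl hp
  choose H _ H1 Θ H2 H3 using h K ι S t x a ω w c hl hp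
  have h5 := (r K ι S x ω c.bas hn hk).2
  have hi := FINx.inj c.bas c.vtx.max.ne_top hp
  obtain rfl : S = (aeval x : MvPolynomial ι ℂ →ₐ[ℂ] K).range :=
    c.cx.gen.symm.trans (Algebra.adjoin_range_eq_range_aeval ℂ x)
  have hs := (aeval x : MvPolynomial ι ℂ →ₐ[ℂ] K).rangeRestrict_surjective
  have ev : ∀ (ξ : ι → K) k, (∑ i, ξ i • H i) (x k) = ∑ i, ξ i * aeval x (Θ i k) := by
    intro ξ k
    have := map_sum (dd (x k)) (fun i => ξ i • H i) Finset.univ
    simpa only [map_smul, dd_apply, smul_eq_mul, H2] using this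
  have om : ∀ ξ : ι → K, ω (∑ i, ξ i • H i) = ∑ i, ξ i • dd (x i) := fun ξ => by
    simp only [map_sum, map_smul, H1]
  have hF : IsFractionRing (aeval x : MvPolynomial ι ℂ →ₐ[ℂ] K).range K :=
    IsFractionRing.of_field _ K fun y => by
      obtain ⟨g, hg, s, hs, -, e⟩ := c.cx.frac y
      exact ⟨⟨g, hg⟩, ⟨s, hs⟩, e⟩
  have hI : IsIntegrallyClosed (aeval x : MvPolynomial ι ℂ →ₐ[ℂ] K).range :=
    (isIntegrallyClosed_iff K).2 fun {y} hy => ⟨⟨y, hn y hy⟩, rfl⟩
  refine ⟨_, Nc.D4.conical' (aeval x) (J := RingHom.ker (aeval x).rangeRestrict) (Θ := Θ) c.pos hw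
    (fun g => ⟨fun e => Subtype.ext e, fun e => Subtype.ext_iff.1 (RingHom.mem_ker.1 e)⟩) (fun y => ?_)
    (IsIntegrallyClosed.of_equiv (Ideal.quotientKerAlgEquivOfSurjective hs).toRingEquiv.symm)
    (fun g hg => Subtype.ext (FINx.ker_scale c.cx.eig (Subtype.ext_iff.1 hg))) H3 hc
    (fun D y ξ e => ?_) (fun D => ?_) (fun ξ => ⟨∑ i, ξ i • H i, fun k => ?_⟩) h5, ?_⟩
  · obtain ⟨_, ⟨g, rfl⟩, _, ⟨s, rfl⟩, -, e⟩ := c.cx.frac y
    exact ⟨g, s, e⟩
  · simp only [aeval_X] at e ⊢
    rw [c.bas.ext D (∑ i, ξ i • H i) fun k => (e k).trans (ev ξ k).symm, om, LinearMap.sum_apply]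
    rfl
  · have : ω D ∈ Submodule.span K (Set.range fun i => dd (x i)) :=
      mem_span_of_iInf_ker_le_ker fun D' hD' => by
        rw [c.bas.ext D' 0 fun i => (Submodule.mem_iInf _).1 hD' i]
        exact zero_mem _
    obtain ⟨ξ, hξ⟩ := (Submodule.mem_span_range_iff_exists_fun K).1 this
    refine ⟨ξ, fun k => ?_⟩
    rw [aeval_X, hi (hξ.symm.trans (om ξ).symm), ev]
  · rw [aeval_X, ev]
  · rintro d hd _ ⟨g, hg, rfl⟩
    have h1 : g ∈ Ideal.span (X '' (Set.univ : Set ι) : Set (MvPolynomial ι ℂ)) :=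
      mem_ideal_span_X_image.2 fun α hα => by
        by_contra e
        have e0 : α = 0 := Finsupp.ext fun i => by
          by_contra e1
          exact e ⟨i, trivial, e1⟩
        have := hg (mem_support_iff.1 hα)
        rw [e0, map_zero] at this
        omega
    have h2 : Ideal.span (X '' (Set.univ : Set ι) : Set (MvPolynomial ι ℂ)) ≤
        (vx (aeval x).range x).comap (aeval x).rangeRestrict := Ideal.span_le.2 (by
      rintro _ ⟨i, -, rfl⟩
      exact Ideal.subset_span ⟨i, aeval_X x i⟩)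
    exact h2 h1

end Pool.Agent.MP_51db15_ag.Qh
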