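import Pool.Agent.MP_51db15_ag.Qh.Spec2
import Pool.Agent.MP_51db15_ag.Qh.FIN

/-! A cone with a perfect homogeneous form, regular along valuations, is conical symplectic. -/

namespace Pool.Agent.MP_51db15_ag.Qh

open MvPolynomial

theorem fin2 (h : S_HAM) : S_FIN2 := by
  classical
  intro K ι _ _ _ S t x a ω w c hn hw hc h5 hl hp
  choose H _ H1 Θ H2 H3 using h K ι S t x a ω w c hl hp
  have hi := FINx.inj c.bas c.vtx.max.ne_top hp
  obtain rfl : S = (aeval x : MvPolynomial ι ℂ →ₐ[ℂ] K).range :=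
    c.cx.gen.symm.trans (Algebra.adjoin_range_eq_range_aeval ℂ x)
  have hs := (aeval x : MvPolynomial ι ℂ →ₐ[ℂ] K).rangeRestrict_surjective
  have ev : ∀ (ξ : ι → K) k, (∑ i, ξ i • H i) (x k) = ∑ i, ξ i * aeval x (Θ i k) := by
    intro ξ k
    have := map_sum (dd (x k)) (fun i => ξ i • H i) Finset.univ
    simpa only [map_smul, dd_apply, smul_eq_mul, H2] using this
  have om : ∀ ξ : ι → K, ω (∑ i, ξ i • H i) = ∑ i, ξ i • dd (x i) := fun ξ => by
    simp only [map_sum, map_smul, H1]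
  have hF : IsFractionRing (aeval x : MvPolynomial ι ℂ →ₐ[ℂ] K).range K :=
    IsFractionRing.of_field _ K fun y => by
      obtain ⟨g, hg, s, hs, -, e⟩ := c.cx.frac y
      exact ⟨⟨g, hg⟩, ⟨s, hs⟩, e⟩
  have hI : IsIntegrallyClosed (aeval x : MvPolynomial ι ℂ →ₐ[ℂ] K).range :=
    (isIntegrallyClosed_iff K).2 fun {y} hy => ⟨⟨y, hn y hy⟩, rfl⟩
  refine ⟨_, Nc.D4.conical' (aeval x) (J := RingHom.ker (aeval x).rangeRestrict) (Θ := Θ) c.pos hw
    (fun g => ⟨fun e => Subtype.ext e, fun e => Subtype.ext_iff.1 (RingHom.mem_ker.1 e)⟩) (fun y => ?_)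
    (IsIntegrallyClosed.of_equiv (Ideal.quotientKerAlgEquivOfSurjective hs).toRingEquiv.symm)
    (fun g hg => Subtype.ext (FINx.ker_scale c.cx.eig (Subtype.ext_iff.1 hg))) H3 hc
    (fun D y ξ e => ?_) (fun D => ?_) (fun ξ => ⟨∑ i, ξ i • H i, fun k => ?_⟩) h5, ?_⟩
  · obtain ⟨_, ⟨g, rfl⟩, _, ⟨s, rfl⟩, -, e⟩ := c.cx.frac y
    exact ⟨g, s, e⟩
  · simp only [aeval_X] at e ⊢
    rw [c.bas.ext D (∑ i, ξ i • H i) fun k => (e k).trans (ev ξ k).symm, om, LinearMap.sum_apply]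
    rfl
  · have : ω D ∈ Submodule.span K (Set.range fun i => dd (x i)) :=
      mem_span_of_iInf_ker_le_ker fun D' hD' => by
        rw [c.bas.ext D' 0 fun i => (Submodule.mem_iInf _).1 hD' i]
        exact zero_mem _
    obtain ⟨ξ, hξ⟩ := (Submodule.mem_span_range_iff_exists_fun K).1 this
    refine ⟨ξ, fun k => ?_⟩
    rw [aeval_X, hi (hξ.symm.trans (om ξ).symm), ev]
  · rw [aeval_X, ev]
  · rintro d hd _ ⟨g, hg, rfl⟩
    have h1 : g ∈ Ideal.span (X '' (Set.univ : Set ι) : Set (MvPolynomial ι ℂ)) :=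
      mem_ideal_span_X_image.2 fun α hα => by
        by_contra e
        have e0 : α = 0 := Finsupp.ext fun i => by
          by_contra e1
          exact e ⟨i, trivial, e1⟩
        have := hg (mem_support_iff.1 hα)
        rw [e0, map_zero] at this
        omega
    have h2 : Ideal.span (X '' (Set.univ : Set ι) : Set (MvPolynomial ι ℂ)) ≤
        (vx (aeval x).range x).comap (aeval x).rangeRestrict := Ideal.span_le.2 (by
      rintro _ ⟨i, -, rfl⟩
      exact Ideal.subset_span ⟨i, aeval_X x i⟩)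
    exact h2 h1

end Pool.Agent.MP_51db15_ag.Qh
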