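import Pool.Agent.MP_51db15_ag.Qh.Spec

/-! PROJECT QH: finiteness over a homogeneous system of parameters. -/

namespace Pool.Agent.MP_51db15_ag.Qh

open Module

namespace FINLx

variable {K : Type} [Field K] [Algebra ℂ K]

theorem eig_mul {E : DD K} {u v : K} {c c' : ℂ} (hu : E u = c • u) (hv : E v = c' • v) :
    E (u * v) = (c + c') • (u * v) := by
  rw [Derivation.leibniz, hu, hv, smul_eq_mul, smul_eq_mul, mul_smul_comm, mul_smul_comm,
    add_smul, mul_comm v u, add_comm]

theorem eig_pow {E : DD K} {u : K} {c : ℂ} (hu : E u = c • u) (n : ℕ) :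
    ∃ c' : ℂ, E (u ^ n) = c' • u ^ n := by
  induction n with
  | zero => exact ⟨0, by simp⟩
  | succ n ih =>
    obtain ⟨c', h⟩ := ih
    exact ⟨_, by rw [pow_succ]; exact eig_mul h hu⟩

theorem eig_prod {ι : Type} {E : DD K} (s : Finset ι) (y : ι → K)
    (h : ∀ i, ∃ c : ℂ, E (y i) = c • y i) : ∃ c : ℂ, E (∏ i ∈ s, y i) = c • ∏ i ∈ s, y i := by
  classical
  induction s using Finset.induction_on with
  | empty => exact ⟨0, by simp⟩
  | insert j s hj ih =>
    obtain ⟨c, h1⟩ := h j
    obtain ⟨c', h2⟩ := ih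
    exact ⟨_, by rw [Finset.prod_insert hj]; exact eig_mul h1 h2⟩

end FINLx

theorem finl (_g : GenK) : S_FINL := by
  classical
  intro K ι _ _ _ S E x a C M f d hd hx g hg
  set A := Algebra.adjoin ℂ (Set.range fun j : Fin M => (f j : K)) with hA
  have hk : ∀ i, ∃ k : ℕ, ∃ b ∈ Ideal.span (f '' {j | j < M}), x i ^ k = (b : K) := fun i => by
    obtain ⟨b, ⟨k, hb⟩, e⟩ := hx i
    exact ⟨k, b ^ k, hb, by rw [e]; rfl⟩
  choose k hk using hk
  set W : Submodule A K := Submodule.span A
    ((fun α : ι → ℕ => ∏ i, x i ^ α i) '' (Fintype.piFinset fun i => Finset.range (k i)))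
    with hW
  have mon : ∀ (s : Finset ι) (α : ι → ℕ), ∏ i ∈ s, x i ^ α i ∈ S := fun s α =>
    prod_mem fun i _ => pow_mem (C.bas.mem i) _
  have AS : A ≤ S := Algebra.adjoin_le (by rintro _ ⟨j, rfl⟩; exact (f j).2)
  have WS : ∀ w ∈ W, w ∈ S := fun w hw => by
    induction hw using Submodule.span_induction with
    | mem y hy => obtain ⟨α, -, rfl⟩ := hy; exact mon _ α
    | zero => exact zero_mem _
    | add y z _ _ hy hz => exact add_mem hy hz
    | smul r y _ hy => exact mul_mem (AS r.2) hy
  have key : ∀ n : ℕ, ∀ z ∈ S, E z = (n : ℂ) • z → z ∈ W := by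
    intro n
    induction n using Nat.strong_induction_on with
    | _ n ih =>
    set T : Submodule ℂ K := (W.restrictScalars ℂ ⊓ (op E).eigenspace (n : ℂ)) ⊔
      ⨆ (c : ℂ) (_ : c ≠ n), (op E).eigenspace c with hT
    have put : ∀ (u : K) (c : ℂ), E u = c • u → (c = n → u ∈ W) → u ∈ T := fun u c h1 h2 => by
      by_cases h : c = n
      · exact Submodule.mem_sup_left ⟨h2 h, End.mem_eigenspace_iff.2 (h ▸ h1)⟩
      · exact Submodule.mem_sup_right (Submodule.mem_iSup_of_mem c
          (Submodule.mem_iSup_of_mem h (End.mem_eigenspace_iff.2 h1)))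
    have gen : ∀ j < M, ∀ h ∈ S, h * (f j : K) ∈ T := fun j hj h hh => by
      have h1 := C.ev.s h hh
      refine Submodule.iSup_induction _ (motive := fun h => h * (f j : K) ∈ T) h1 ?_ ?_ ?_
      · intro m y hy
        have e : E y = (m : ℂ) • y := End.mem_eigenspace_iff.1 hy.2
        refine put _ _ (FINLx.eig_mul e (hd j hj).2) fun q => ?_
        by_cases y0 : y = 0
        · rw [y0, zero_mul]; exact zero_mem _
        obtain ⟨m', e'⟩ := C.ev.nat y hy.1 _ y0 e
        rw [e'] at q e
        have q' : m' + d j = n := by exact_mod_cast q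
        have := (hd j hj).1
        have := W.smul_mem (⟨f j, Algebra.subset_adjoin ⟨⟨j, hj⟩, rfl⟩⟩ : A)
          (ih m' (by omega) y hy.1 e)
        rw [mul_comm]
        exact this
      · rw [zero_mul]; exact zero_mem _
      · intro y z hy hz
        rw [add_mul]; exact add_mem hy hz
    have idl : ∀ b ∈ Ideal.span (f '' {j | j < M}), ∀ h ∈ S, h * (b : K) ∈ T := fun b hb => by
      induction hb using Submodule.span_induction with
      | mem y hy => obtain ⟨j, hj, rfl⟩ := hy; exact gen j hj
      | zero => intro h _; rw [ZeroMemClass.coe_zero, mul_zero]; exact zero_mem _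
      | add y z _ _ hy hz =>
        intro h hh
        rw [AddMemClass.coe_add, mul_add]; exact add_mem (hy h hh) (hz h hh)
      | smul r y _ hy =>
        intro h hh
        rw [smul_eq_mul, MulMemClass.coe_mul, ← mul_assoc]; exact hy _ (mul_mem hh r.2)
    have all : ∀ z ∈ S, z ∈ T := fun z hz => by
      have h1 : z ∈ Submodule.span ℂ (Submonoid.closure (Set.range x) : Set K) := by
        rw [← Algebra.adjoin_eq_span, C.cx.gen]; exact hz
      refine Submodule.span_le.2 (fun y hy => ?_) h1
      obtain ⟨α, rfl⟩ := Submonoid.mem_closure_range_iff_of_fintype.1 hy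
      by_cases sm : ∀ i, α i < k i
      · obtain ⟨c, hc⟩ := FINLx.eig_prod (E := E) Finset.univ (fun i => x i ^ α i) fun i =>
          FINLx.eig_pow (C.cx.eig i) _
        exact put _ c hc fun _ => Submodule.subset_span
          ⟨α, Finset.mem_coe.2 (Fintype.mem_piFinset.2 fun i => Finset.mem_range.2 (sm i)), rfl⟩
      · obtain ⟨i, hi⟩ := not_forall.1 sm
        obtain ⟨b, hb, e⟩ := hk i
        obtain ⟨r, hr⟩ := Nat.exists_eq_add_of_le (not_lt.1 hi)
        have := idl b hb _ (mul_mem (mon (Finset.univ.erase i) α) (pow_mem (C.bas.mem i) r))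
        rw [← e, mul_assoc, ← pow_add, add_comm, ← hr,
          Finset.prod_erase_mul _ _ (Finset.mem_univ i)] at this
        exact this
    intro z hz ez
    obtain ⟨w, hw, u, hu, e⟩ := Submodule.mem_sup.1 (all z hz)
    have u1 : u ∈ (op E).eigenspace (n : ℂ) := by
      rw [show u = z - w by rw [← e]; ring]
      exact sub_mem (End.mem_eigenspace_iff.2 ez) hw.2
    have u0 : u = 0 := Submodule.disjoint_def.1 ((op E).eigenspaces_iSupIndep (n : ℂ)) u u1 hu
    rw [← e, u0, add_zero]
    exact hw.1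
  have SW : ∀ z ∈ S, z ∈ W := fun z hz => by
    refine Submodule.iSup_induction _ (motive := fun h => h ∈ W) (C.ev.s z hz) ?_ (zero_mem _)
      fun _ _ => add_mem
    intro m y hy
    have e : E y = (m : ℂ) • y := End.mem_eigenspace_iff.1 hy.2
    by_cases y0 : y = 0
    · rw [y0]; exact zero_mem _
    obtain ⟨m', e'⟩ := C.ev.nat y hy.1 _ y0 e
    exact key m' y hy.1 (e' ▸ e)
  refine isIntegral_of_smul_mem_submodule W (fun h => ?_)
    (Submodule.fg_span ((Finset.finite_toSet _).image _)) g fun w hw => SW _ (mul_mem hg (WS w hw))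
  have := SW 1 (one_mem S)
  rw [h, Submodule.mem_bot] at this
  exact one_ne_zero this

end Pool.Agent.MP_51db15_ag.Qh
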