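import Pool.Agent.MP_51db15_ag.Qh.Spec3
import Pool.Agent.MP_51db15_ag.Hy.Base
import Pool.Agent.MP_51db15_ag.Hy.CONE
import Pool.Agent.MP_51db15_ag.Hy.MINP
import Pool.Agent.MP_51db15_ag.Hy.STEP
import Pool.Agent.MP_51db15_ag.Hy.ZORN

/-! Merged rows: CLO DUAL FINL HCMP HKER HL HPI IDC JD1 KC KC2 LND LTB SEQ SLP SLP2 VAL VAL2 VTX. -/

section
/-! Closed forms are stable under Lie derivatives; commuting fields give commuting operators. -/

namespace Pool.Agent.MP_51db15_ag.Qh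

open Module

namespace CLOx

variable {K : Type} [Field K] [Algebra ℂ K]

/-- the exterior derivative of a two-form -/
def df (η : FF K) (X Y Z : DD K) : K :=
  X (η Y Z) - Y (η X Z) + Z (η X Y) - η ⁅X, Y⁆ Z + η ⁅X, Z⁆ Y - η ⁅Y, Z⁆ X

theorem df_lf (T : DD K) (η : FF K) (X Y Z : DD K) :
    df (lf T η) X Y Z =
      T (df η X Y Z) - df η ⁅T, X⁆ Y Z - df η X ⁅T, Y⁆ Z - df η X Y ⁅T, Z⁆ := by
  unfold df
  simp only [lf_apply]
  rw [leibniz_lie T X Y, leibniz_lie T X Z, leibniz_lie T Y Z]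
  simp only [map_add, map_sub, LinearMap.add_apply, Derivation.commutator_apply]
  ring

theorem closed_lf (T : DD K) {η : FF K} (h : IsClosedForm η) : IsClosedForm (lf T η) := by
  refine ⟨fun D => ?_, fun X Y Z => ?_⟩
  · rw [lf_apply, h.1 D, map_zero, ← h.1.neg_eq ⁅T, D⁆ D]
    ring
  · have h0 : ∀ X Y Z : DD K, df η X Y Z = 0 := h.2
    have := df_lf T η X Y Z
    rw [h0, h0, h0, h0, map_zero, sub_zero, sub_zero, sub_zero] at this
    exact this

/-- closed regular forms -/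
def HH (S : Subalgebra ℂ K) : Submodule ℂ (FF K) where
  carrier := {η | η ∈ RF S ∧ IsClosedForm η}
  add_mem' := by
    intro η ζ h h'
    refine ⟨add_mem h.1 h'.1, fun D => ?_, fun X Y Z => ?_⟩
    · rw [LinearMap.add_apply, LinearMap.add_apply, h.2.1 D, h'.2.1 D, add_zero]
    · have e1 := h.2.2 X Y Z
      have e2 := h'.2.2 X Y Z
      simp only [LinearMap.add_apply, map_add]
      linear_combination e1 + e2
  zero_mem' := by
    refine ⟨zero_mem _, fun D => rfl, fun X Y Z => ?_⟩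
    simp only [LinearMap.zero_apply, map_zero]
    ring
  smul_mem' := by
    intro c η h
    refine ⟨(RF S).smul_mem c h.1, fun D => ?_, fun X Y Z => ?_⟩
    · rw [LinearMap.smul_apply, LinearMap.smul_apply, h.2.1 D, smul_zero]
    · have e1 := congrArg (fun z => c • z) (h.2.2 X Y Z)
      simp only [smul_add, smul_sub, smul_zero] at e1
      simp only [LinearMap.smul_apply, Derivation.map_smul]
      exact e1

theorem lie_comm {X Y : DD K} (h : ⁅X, Y⁆ = 0) (D : DD K) : ⁅X, ⁅Y, D⁆⁆ = ⁅Y, ⁅X, D⁆⁆ := by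
  rw [leibniz_lie X Y D, h, zero_lie, zero_add]

theorem app_comm {X Y : DD K} (h : ⁅X, Y⁆ = 0) (g : K) : X (Y g) = Y (X g) := by
  have e : ⁅X, Y⁆ g = 0 := by
    rw [h]
    rfl
  rw [Derivation.commutator_apply] at e
  exact sub_eq_zero.1 e

theorem ld_comm {X Y : DD K} (h : ⁅X, Y⁆ = 0) (γ : DU K) : ld X (ld Y γ) = ld Y (ld X γ) := by
  refine LinearMap.ext fun D => ?_
  simp only [ld_apply, map_sub]
  rw [app_comm h, lie_comm h]
  ring

theorem lam_comm {X Y : DD K} (h : ⁅X, Y⁆ = 0) (v : MM K) : lam X (lam Y v) = lam Y (lam X v) :=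
  Prod.ext (lie_comm h v.1) (ld_comm h v.2)

theorem del_comm {X Y : DD K} (h : ⁅X, Y⁆ = 0) (b : EE K) : del X (del Y b) = del Y (del X b) :=
  LinearMap.ext fun v => by
    simp only [del_apply, map_sub]
    rw [lam_comm h (b v), lam_comm h v]
    abel

theorem lf_comm {X Y : DD K} (h : ⁅X, Y⁆ = 0) (η : FF K) : lf X (lf Y η) = lf Y (lf X η) := by
  refine LinearMap.ext fun D => LinearMap.ext fun D' => ?_
  simp only [lf_apply, map_sub]
  rw [app_comm h, lie_comm h D, lie_comm h D']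
  ring

theorem lf_add (X Y : DD K) (η : FF K) : lf (X + Y) η = lf X η + lf Y η := by
  refine LinearMap.ext fun D => LinearMap.ext fun D' => ?_
  simp only [lf_apply, Derivation.add_apply, add_lie, map_add, LinearMap.add_apply]
  ring

end CLOx

theorem clo : S_CLO := fun _ _ _ S =>
  ⟨⟨CLOx.HH S, fun _ => Iff.rfl, fun X hX _ h => ⟨lf_mem hX h.1, CLOx.closed_lf X h.2⟩⟩,
    CLOx.lf_add, fun _ _ h => CLOx.lf_comm h, fun _ _ h => CLOx.del_comm h⟩

end Pool.Agent.MP_51db15_ag.Qh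

end

section
/-! Row DUAL: the dual fields of a Noether normalisation. -/

namespace Pool.Agent.MP_51db15_ag.Qh

namespace DUALx

variable {K : Type} [Field K] [Algebra ℂ K] {M : ℕ} {f : Fin M → K}

theorem fin {ι : Type} [Fintype ι] (x : ι → K)
    (hfr : ∀ y : K, ∃ g ∈ Algebra.adjoin ℂ (Set.range x), ∃ h ∈ Algebra.adjoin ℂ (Set.range x),
      h ≠ 0 ∧ y = g / h)
    (hI : ∀ g ∈ Algebra.adjoin ℂ (Set.range x), IsIntegral (Algebra.adjoin ℂ (Set.range f)) g) :
    FiniteDimensional (IntermediateField.adjoin ℂ (Set.range f)) K := by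
  set F := IntermediateField.adjoin ℂ (Set.range f)
  have h1 : ∀ z ∈ Set.range x, IsIntegral F z := fun z hz =>
    IsIntegral.map_of_comp_eq (T := F)
      (Subalgebra.inclusion (IntermediateField.algebra_adjoin_le_adjoin ℂ (Set.range f))).toRingHom
      (RingHom.id K) (RingHom.ext fun _ => rfl) (hI z (Algebra.subset_adjoin hz))
  have h2 := IntermediateField.finiteDimensional_adjoin h1
  have h3 : Algebra.adjoin ℂ (Set.range x) ≤
      (IntermediateField.adjoin F (Set.range x)).toSubalgebra.restrictScalars ℂ :=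
    Algebra.adjoin_le (IntermediateField.subset_adjoin F _)
  have h4 : IntermediateField.adjoin F (Set.range x) = ⊤ := by
    refine eq_top_iff.2 fun y _ => ?_
    obtain ⟨g, hg, h, hh, -, rfl⟩ := hfr y
    exact div_mem (h3 hg) (h3 hh)
  rw [h4] at h2
  exact IntermediateField.topEquiv.toLinearEquiv.finiteDimensional

theorem basis (S : Subalgebra ℂ K) (hfr : ∀ y : K, ∃ g ∈ S, ∃ h ∈ S, h ≠ 0 ∧ y = g / h)
    (hf : AlgebraicIndependent ℂ f)
    (hI : ∀ g ∈ S, IsIntegral (Algebra.adjoin ℂ (Set.range f)) g) :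
    ∃ b : Module.Basis (Fin M) K (KaehlerDifferential ℂ K),
      ∀ j, b j = KaehlerDifferential.D ℂ K (f j) := by
  set A := MvPolynomial (Fin M) ℂ
  let : Algebra A K := (MvPolynomial.aeval f).toRingHom.toAlgebra
  have : IsScalarTower ℂ A K := IsScalarTower.of_algebraMap_eq fun c =>
    ((MvPolynomial.aeval f).commutes c).symm
  have : FaithfulSMul A K := (faithfulSMul_iff_algebraMap_injective A K).2
    (algebraicIndependent_iff_injective_aeval.1 hf)
  let := FractionRing.liftAlgebra A K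
  have h1 : ∀ g ∈ S, IsIntegral (FractionRing A) g := fun g hg =>
    (IsIntegral.map_of_comp_eq (T := A) hf.repr.toRingHom (RingHom.id K)
      (RingHom.ext fun p => hf.aeval_repr p) (hI g hg)).tower_top
  have : Algebra.IsAlgebraic (FractionRing A) K := ⟨fun y => by
    obtain ⟨g, hg, h, hh, -, rfl⟩ := hfr y
    rw [div_eq_mul_inv]
    exact ((h1 g hg).mul (h1 h hh).isAlgebraic.inv.isIntegral).isAlgebraic⟩
  have : CharZero (FractionRing A) := IsFractionRing.charZero_of_isFractionRing A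
  have : Algebra.FormallyEtale (FractionRing A) K := .of_isSeparable _ _
  have : Algebra.FormallyEtale A (FractionRing A) := .of_isLocalization (nonZeroDivisors A)
  have : Algebra.FormallyEtale A K := .comp A (FractionRing A) K
  have hb := KaehlerDifferential.isBaseChange_of_formallyEtale ℂ A K
  refine ⟨hb.basis (KaehlerDifferential.mvPolynomialBasis ℂ (Fin M)), fun j => ?_⟩
  rw [IsBaseChange.basis_apply, KaehlerDifferential.mvPolynomialBasis_apply,
    KaehlerDifferential.map_D]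
  congr 1
  exact MvPolynomial.aeval_X f j

theorem dual (b : Module.Basis (Fin M) K (KaehlerDifferential ℂ K))
    (hb : ∀ j, b j = KaehlerDifferential.D ℂ K (f j)) :
    ∃ d : Fin M → Derivation ℂ K K, (∀ i j, d i (f j) = if i = j then 1 else 0) ∧
      ∀ D : Derivation ℂ K K, D = ∑ j, D (f j) • d j := by
  refine ⟨fun i => (b.coord i).compDer (KaehlerDifferential.D ℂ K), fun i j => ?_, fun D => ?_⟩
  · change b.coord i (KaehlerDifferential.D ℂ K (f j)) = _
    rw [← hb, Module.Basis.coord_apply, b.repr_self, Finsupp.single_apply]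
    exact if_congr eq_comm rfl rfl
  · ext y
    have e := congrArg D.liftKaehlerDifferential (b.sum_repr (KaehlerDifferential.D ℂ K y))
    rw [map_sum, Derivation.liftKaehlerDifferential_comp_D] at e
    rw [← e]
    refine Eq.trans ?_ (map_sum (dd y) _ _).symm
    refine Finset.sum_congr rfl fun j _ => ?_
    rw [map_smul, hb, Derivation.liftKaehlerDifferential_comp_D, smul_eq_mul, mul_comm]
    rfl

end DUALx

theorem dual : S_DUAL := by
  intro K ι _ _ _ S t x a M f hc hf hI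
  obtain ⟨b, hb⟩ := DUALx.basis S hc.frac hf hI
  refine ⟨?_, DUALx.dual b hb⟩
  have h1 := hc.frac
  rw [← hc.gen] at h1 hI
  exact DUALx.fin x h1 hI

end Pool.Agent.MP_51db15_ag.Qh

end

section
/-! PROJECT QH: finiteness over a homogeneous system of parameters. -/

namespace Pool.Agent.MP_51db15_ag.Qh

open Module

namespace FINLx

variable {K : Type} [Field K] [Algebra ℂ K]

theorem eig_mul {E : DD K} {u v : K} {c c' : ℂ} (hu : E u = c • u) (hv : E v = c' • v) :
    E (u * v) = (c + c') • (u * v) := by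
  rw [Derivation.leibniz, hu, hv, smul_eq_mul, smul_eq_mul, mul_smul_comm, mul_smul_comm,
    add_smul, mul_comm v u, add_comm]

theorem eig_pow {E : DD K} {u : K} {c : ℂ} (hu : E u = c • u) (n : ℕ) :
    ∃ c' : ℂ, E (u ^ n) = c' • u ^ n := by
  induction n with
  | zero => exact ⟨0, by simp⟩
  | succ n ih =>
    obtain ⟨c', h⟩ := ih
    exact ⟨_, by rw [pow_succ]; exact eig_mul h hu⟩

theorem eig_prod {ι : Type} {E : DD K} (s : Finset ι) (y : ι → K)
    (h : ∀ i, ∃ c : ℂ, E (y i) = c • y i) : ∃ c : ℂ, E (∏ i ∈ s, y i) = c • ∏ i ∈ s, y i := by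
  classical
  induction s using Finset.induction_on with
  | empty => exact ⟨0, by simp⟩
  | insert j s hj ih =>
    obtain ⟨c, h1⟩ := h j
    obtain ⟨c', h2⟩ := ih
    exact ⟨_, by rw [Finset.prod_insert hj]; exact eig_mul h1 h2⟩

end FINLx

theorem finl (_g : GenK) : S_FINL := by
  classical
  intro K ι _ _ _ S E x a C M f d hd hx g hg
  set A := Algebra.adjoin ℂ (Set.range fun j : Fin M => (f j : K)) with hA
  have hk : ∀ i, ∃ k : ℕ, ∃ b ∈ Ideal.span (f '' {j | j < M}), x i ^ k = (b : K) := fun i => by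
    obtain ⟨b, ⟨k, hb⟩, e⟩ := hx i
    exact ⟨k, b ^ k, hb, by rw [e]; rfl⟩
  choose k hk using hk
  set W : Submodule A K := Submodule.span A
    ((fun α : ι → ℕ => ∏ i, x i ^ α i) '' (Fintype.piFinset fun i => Finset.range (k i)))
    with hW
  have mon : ∀ (s : Finset ι) (α : ι → ℕ), ∏ i ∈ s, x i ^ α i ∈ S := fun s α =>
    prod_mem fun i _ => pow_mem (C.bas.mem i) _
  have AS : A ≤ S := Algebra.adjoin_le (by rintro _ ⟨j, rfl⟩; exact (f j).2)
  have WS : ∀ w ∈ W, w ∈ S := fun w hw => by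
    induction hw using Submodule.span_induction with
    | mem y hy => obtain ⟨α, -, rfl⟩ := hy; exact mon _ α
    | zero => exact zero_mem _
    | add y z _ _ hy hz => exact add_mem hy hz
    | smul r y _ hy => exact mul_mem (AS r.2) hy
  have key : ∀ n : ℕ, ∀ z ∈ S, E z = (n : ℂ) • z → z ∈ W := by
    intro n
    induction n using Nat.strong_induction_on with
    | _ n ih =>
    set T : Submodule ℂ K := (W.restrictScalars ℂ ⊓ (op E).eigenspace (n : ℂ)) ⊔
      ⨆ (c : ℂ) (_ : c ≠ n), (op E).eigenspace c with hT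
    have put : ∀ (u : K) (c : ℂ), E u = c • u → (c = n → u ∈ W) → u ∈ T := fun u c h1 h2 => by
      by_cases h : c = n
      · exact Submodule.mem_sup_left ⟨h2 h, End.mem_eigenspace_iff.2 (h ▸ h1)⟩
      · exact Submodule.mem_sup_right (Submodule.mem_iSup_of_mem c
          (Submodule.mem_iSup_of_mem h (End.mem_eigenspace_iff.2 h1)))
    have gen : ∀ j < M, ∀ h ∈ S, h * (f j : K) ∈ T := fun j hj h hh => by
      have h1 := C.ev.s h hh
      refine Submodule.iSup_induction _ (motive := fun h => h * (f j : K) ∈ T) h1 ?_ ?_ ?_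
      · intro m y hy
        have e : E y = (m : ℂ) • y := End.mem_eigenspace_iff.1 hy.2
        refine put _ _ (FINLx.eig_mul e (hd j hj).2) fun q => ?_
        by_cases y0 : y = 0
        · rw [y0, zero_mul]; exact zero_mem _
        obtain ⟨m', e'⟩ := C.ev.nat y hy.1 _ y0 e
        rw [e'] at q e
        have q' : m' + d j = n := by exact_mod_cast q
        have := (hd j hj).1
        have := W.smul_mem (⟨f j, Algebra.subset_adjoin ⟨⟨j, hj⟩, rfl⟩⟩ : A)
          (ih m' (by omega) y hy.1 e)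
        rw [mul_comm]
        exact this
      · rw [zero_mul]; exact zero_mem _
      · intro y z hy hz
        rw [add_mul]; exact add_mem hy hz
    have idl : ∀ b ∈ Ideal.span (f '' {j | j < M}), ∀ h ∈ S, h * (b : K) ∈ T := fun b hb => by
      induction hb using Submodule.span_induction with
      | mem y hy => obtain ⟨j, hj, rfl⟩ := hy; exact gen j hj
      | zero => intro h _; rw [ZeroMemClass.coe_zero, mul_zero]; exact zero_mem _
      | add y z _ _ hy hz =>
        intro h hh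
        rw [AddMemClass.coe_add, mul_add]; exact add_mem (hy h hh) (hz h hh)
      | smul r y _ hy =>
        intro h hh
        rw [smul_eq_mul, MulMemClass.coe_mul, ← mul_assoc]; exact hy _ (mul_mem hh r.2)
    have all : ∀ z ∈ S, z ∈ T := fun z hz => by
      have h1 : z ∈ Submodule.span ℂ (Submonoid.closure (Set.range x) : Set K) := by
        rw [← Algebra.adjoin_eq_span, C.cx.gen]; exact hz
      refine Submodule.span_le.2 (fun y hy => ?_) h1
      obtain ⟨α, rfl⟩ := Submonoid.mem_closure_range_iff_of_fintype.1 hy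
      by_cases sm : ∀ i, α i < k i
      · obtain ⟨c, hc⟩ := FINLx.eig_prod (E := E) Finset.univ (fun i => x i ^ α i) fun i =>
          FINLx.eig_pow (C.cx.eig i) _
        exact put _ c hc fun _ => Submodule.subset_span
          ⟨α, Finset.mem_coe.2 (Fintype.mem_piFinset.2 fun i => Finset.mem_range.2 (sm i)), rfl⟩
      · obtain ⟨i, hi⟩ := not_forall.1 sm
        obtain ⟨b, hb, e⟩ := hk i
        obtain ⟨r, hr⟩ := Nat.exists_eq_add_of_le (not_lt.1 hi)
        have := idl b hb _ (mul_mem (mon (Finset.univ.erase i) α) (pow_mem (C.bas.mem i) r))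
        rw [← e, mul_assoc, ← pow_add, add_comm, ← hr,
          Finset.prod_erase_mul _ _ (Finset.mem_univ i)] at this
        exact this
    intro z hz ez
    obtain ⟨w, hw, u, hu, e⟩ := Submodule.mem_sup.1 (all z hz)
    have u1 : u ∈ (op E).eigenspace (n : ℂ) := by
      rw [show u = z - w by rw [← e]; ring]
      exact sub_mem (End.mem_eigenspace_iff.2 ez) hw.2
    have u0 : u = 0 := Submodule.disjoint_def.1 ((op E).eigenspaces_iSupIndep (n : ℂ)) u u1 hu
    rw [← e, u0, add_zero]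
    exact hw.1
  have SW : ∀ z ∈ S, z ∈ W := fun z hz => by
    refine Submodule.iSup_induction _ (motive := fun h => h ∈ W) (C.ev.s z hz) ?_ (zero_mem _)
      fun _ _ => add_mem
    intro m y hy
    have e : E y = (m : ℂ) • y := End.mem_eigenspace_iff.1 hy.2
    by_cases y0 : y = 0
    · rw [y0]; exact zero_mem _
    obtain ⟨m', e'⟩ := C.ev.nat y hy.1 _ y0 e
    exact key m' y hy.1 (e' ▸ e)
  refine isIntegral_of_smul_mem_submodule W (fun h => ?_)
    (Submodule.fg_span ((Finset.finite_toSet _).image _)) g fun w hw => SW _ (mul_mem hg (WS w hw))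
  have := SW 1 (one_mem S)
  rw [h, Submodule.mem_bot] at this
  exact one_ne_zero this

end Pool.Agent.MP_51db15_ag.Qh

end

section
/-! HCMP: the homogeneous components of a form on the completion. -/

namespace Pool.Agent.MP_51db15_ag.Qh

open Module

namespace HCMPx

variable {K ι R : Type} [Field K] [Algebra ℂ K] [CommRing R] [Algebra ℂ R]
  {S : Subalgebra ℂ K} {E : DD K} {x : ι → K} {μ : R →ₐ[ℂ] PowerSeries K} {i0 : S →ₐ[ℂ] R}

theorem cf_zero (n : ℤ) : cf μ n 0 = 0 := by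
  unfold cf
  split_ifs <;> simp

theorem cf_sum {κ : Type} (s : Finset κ) (n : ℤ) (r : κ → R) :
    cf μ n (∑ i ∈ s, r i) = ∑ i ∈ s, cf μ n (r i) := by
  unfold cf
  split_ifs <;> simp

theorem mulz (hv : Ev S E) (hl : HL S E μ i0) (g : S) (m : ℤ) (hg : E g = (m : ℂ) • (g : K))
    (n : ℤ) (r : R) : cf μ (n + m) (i0 g * r) = g * cf μ n r := by
  by_cases h0 : g = 0
  · subst h0
    simp [cf_zero]
  · obtain ⟨d, hd⟩ := hv.nat g g.2 m (fun h => h0 (Subtype.ext h)) hg
    have hm : m = d := by exact_mod_cast hd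
    subst hm
    exact hl.mul g d (by simpa using hg) n r

theorem basis (hb : Bas S x) (hv : Ev S E) : ∃ (κ : Type) (_ : Fintype κ) (b : Basis κ K (DD K))
    (p : κ → ℤ), ∀ i, b i ∈ TT S ∧ ⁅E, b i⁆ = (p i : ℂ) • b i := by
  have := hb.fd
  obtain ⟨t, ht, hsp, hli⟩ :=
    exists_linearIndependent K {X : DD K | X ∈ TT S ∧ ∃ p : ℤ, ⁅E, X⁆ = (p : ℂ) • X}
  have htop : ⊤ ≤ Submodule.span K (Set.range (Subtype.val : t → DD K)) := by
    rw [Subtype.range_coe, hsp]
    intro D _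
    obtain ⟨s, -, hs, hD⟩ := hb.den D
    have h1 : (⨆ n : ℤ, TC S ⊓ (ad E).eigenspace (n : ℂ)) ≤ (Submodule.span K
        {X : DD K | X ∈ TT S ∧ ∃ p : ℤ, ⁅E, X⁆ = (p : ℂ) • X}).restrictScalars ℂ :=
      iSup_le fun n X hX => Submodule.subset_span ⟨hX.1, n, End.mem_eigenspace_iff.1 hX.2⟩
    have h2 := Submodule.smul_mem _ s⁻¹ ((Submodule.restrictScalars_mem _ _ _).1 (h1 (hv.T _ hD)))
    rwa [smul_smul, inv_mul_cancel₀ hs, one_smul] at h2
  have hfin : Finite t := hli.finite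
  choose p hp using fun i : t => (ht i.2).2
  refine ⟨t, Fintype.ofFinite t, Basis.mk hli htop, p, fun i => ?_⟩
  rw [Basis.mk_apply]
  exact ⟨(ht i.2).1, hp i⟩

theorem coef {κ : Type} [Fintype κ] (b : Basis κ K (DD K)) (p : κ → ℤ)
    (hp : ∀ i, ⁅E, b i⁆ = (p i : ℂ) • b i) (X : DD K) (q : ℤ) (hX : ⁅E, X⁆ = (q : ℂ) • X) (i : κ) :
    E (b.repr X i) = ((q - p i : ℤ) : ℂ) • b.repr X i := by
  have h1 : ∑ i, (E (b.repr X i) - ((q - p i : ℤ) : ℂ) • b.repr X i) • b i = 0 := by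
    have h2 : ⁅E, X⁆ = ∑ i, ⁅E, b.repr X i • b i⁆ := by
      conv_lhs => rw [← b.sum_repr X]
      exact map_sum (ad E) _ _
    have h3 : (q : ℂ) • X = ∑ i, (q : ℂ) • b.repr X i • b i := by
      rw [← Finset.smul_sum, b.sum_repr X]
    rw [← sub_eq_zero.2 hX, h2, h3, ← Finset.sum_sub_distrib]
    refine Finset.sum_congr rfl fun i _ => ?_
    rw [lie_smul', hp, Int.cast_sub, sub_smul, sub_smul, sub_smul, smul_assoc, smul_assoc,
      smul_comm (b.repr X i) (p i : ℂ)]
    abel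
  exact sub_eq_zero.1 (Fintype.linearIndependent_iff.1 b.linearIndependent _ h1 i)

theorem denom (g : GenK) (hb : Bas S x) (hv : Ev S E) {κ : Type} [Fintype κ] (c : κ → K)
    (m : κ → ℤ) (hc : ∀ i, E (c i) = (m i : ℂ) • c i) :
    ∃ s ∈ S, s ≠ 0 ∧ (∃ d : ℤ, E s = (d : ℂ) • s) ∧ ∀ i, s * c i ∈ S := by
  classical
  let H : Submodule ℂ K :=
    { carrier := {s | s ∈ S ∧ ∀ i, s * c i ∈ S}
      add_mem' := fun h h' => ⟨add_mem h.1 h'.1, fun i => by
        rw [add_mul]; exact add_mem (h.2 i) (h'.2 i)⟩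
      zero_mem' := ⟨zero_mem S, fun i => by rw [zero_mul]; exact zero_mem S⟩
      smul_mem' := fun z _ h => ⟨S.smul_mem h.1 z, fun i => by
        rw [smul_mul_assoc]; exact S.smul_mem (h.2 i) z⟩ }
  have hH : Dz (op E) H := g.sub K (op E) (SC S) H hv.s (fun s hs => hs.1) fun s hs =>
    ⟨hv.tm s hs.1, fun i => by
      have h : op E s * c i = E (s * c i) - (m i : ℂ) • (s * c i) := by
        rw [Derivation.leibniz, hc, op_apply, smul_eq_mul, smul_eq_mul, mul_smul_comm]
        ring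
      rw [h]
      exact sub_mem (hv.tm _ (hs.2 i)) (S.smul_mem (hs.2 i) _)⟩
  choose u hu h hh hh0 he using fun i => hb.frac (c i)
  have h1 : ∏ i, h i ∈ H := ⟨prod_mem fun i _ => hh i, fun i => by
    rw [← Finset.prod_erase_mul _ _ (Finset.mem_univ i), he i, mul_assoc,
      mul_div_cancel₀ _ (hh0 i)]
    exact mul_mem (prod_mem fun j _ => hh j) (hu i)⟩
  by_contra hn
  have h2 : (⨆ n : ℤ, H ⊓ (op E).eigenspace (n : ℂ)) = ⊥ :=
    iSup_eq_bot.2 fun n => (Submodule.eq_bot_iff _).2 fun s hs => by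
      by_contra hs0
      exact hn ⟨s, hs.1.1, hs0, ⟨n, End.mem_eigenspace_iff.1 hs.2⟩, hs.1.2⟩
  have h3 := hH _ h1
  rw [h2, Submodule.mem_bot] at h3
  exact Finset.prod_ne_zero_iff.2 (fun i _ => hh0 i) h3

theorem one (g : GenK) (hb : Bas S x) (hv : Ev S E) (hl : HL S E μ i0) {κ : Type} [Fintype κ]
    (b : Basis κ K (DD K)) (p : κ → ℤ) (b' : κ → DR R) (hm : ∀ i, b i ∈ TT S)
    (hp : ∀ i, ⁅E, b i⁆ = (p i : ℂ) • b i) (hb' : ∀ i, Lft i0 (b i) (b' i)) (X : DD K)
    (hT : X ∈ TT S) (q : ℤ) (hX : ⁅E, X⁆ = (q : ℂ) • X) (X' : DR R) (hX' : Lft i0 X X')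
    (φ : DR R →ₗ[R] R) (n : ℤ) :
    cf μ (n + q) (φ X') = ∑ i, b.repr X i * cf μ (n + p i) (φ (b' i)) := by
  have hc := coef b p hp X q hX
  obtain ⟨s, hs, hs0, ⟨d, hd⟩, hsc⟩ := denom g hb hv (fun i => b.repr X i) _ hc
  have h1 : i0 ⟨s, hs⟩ • X' = ∑ i, i0 ⟨s * b.repr X i, hsc i⟩ • b' i := by
    refine hl.uniq _ _ fun f => ?_
    have e1 : (∑ i, i0 ⟨s * b.repr X i, hsc i⟩ • b' i) (i0 f) =
        ∑ i, (i0 ⟨s * b.repr X i, hsc i⟩ • b' i) (i0 f) :=
      map_sum (AddMonoidHom.mk' (fun D : DR R => D (i0 f)) fun _ _ => rfl) _ _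
    have e2 : X f = ∑ i, (b.repr X i • b i) f := by
      conv_lhs => rw [← b.sum_repr X]
      exact map_sum (dd (f : K)) _ _
    rw [e1, Derivation.smul_apply, hX' f ⟨X f, hT f f.2⟩ rfl, smul_eq_mul, ← map_mul]
    rw [Finset.sum_congr rfl fun i _ => by
      rw [Derivation.smul_apply, hb' i f ⟨b i f, hm i f f.2⟩ rfl, smul_eq_mul, ← map_mul]]
    rw [← map_sum]
    congr 1
    apply Subtype.ext
    rw [AddSubmonoidClass.coe_finsetSum]
    simp only [MulMemClass.coe_mul]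
    rw [e2, Finset.mul_sum]
    exact Finset.sum_congr rfl fun i _ => by rw [Derivation.smul_apply, smul_eq_mul, mul_assoc]
  refine mul_left_cancel₀ hs0 ?_
  have h2 := mulz hv hl ⟨s, hs⟩ d hd (n + q) (φ X')
  rw [← smul_eq_mul, ← map_smul, h1, map_sum, cf_sum] at h2
  refine h2.symm.trans ?_
  rw [Finset.mul_sum]
  refine Finset.sum_congr rfl fun i _ => ?_
  have h3 := mulz hv hl ⟨s * b.repr X i, hsc i⟩ (d + (q - p i)) (by
    show E (s * b.repr X i) = _ • (s * b.repr X i)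
    rw [Derivation.leibniz, hc, hd, Int.cast_add, add_smul, smul_eq_mul, smul_eq_mul,
      mul_smul_comm, mul_smul_comm, mul_comm (b.repr X i) s, add_comm]) (n + p i) (φ (b' i))
  rw [map_smul, smul_eq_mul, show n + q + d = n + p i + (d + (q - p i)) by ring, h3, mul_assoc]

end HCMPx

theorem hcmp (g : GenK) : S_HCMP := by
  classical
  intro K ι R _ _ _ _ _ S E x a μ i0 ω hc _ hl
  obtain ⟨κ, _, b, p, hb⟩ := HCMPx.basis hc.bas hc.ev
  choose b' hb' using fun i => hl.ex (b i) (hb i).1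
  refine ⟨fun n => Matrix.toBilin b fun i j => cf μ (n + p i + p j) (ω (b' i) (b' j)), ?_⟩
  intro n u v X hX Y hY X' Y' eX eY lX lY
  have one := HCMPx.one g hc.bas hc.ev hl b p b' (fun i => (hb i).1) (fun i => (hb i).2) hb'
  rw [Matrix.toBilin_apply, show n + u + v = n + v + u by ring]
  refine Eq.trans ?_ (one X hX u eX X' lX (ω.flip Y') (n + v)).symm
  refine Finset.sum_congr rfl fun i _ => ?_
  have h := one Y hY v eY Y' lY (ω (b' i)) (n + p i)
  rw [show n + v + p i = n + p i + v by ring]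
  refine Eq.trans ?_ (congrArg (b.repr X i * ·) h).symm
  simp only [Finset.mul_sum]
  exact Finset.sum_congr rfl fun j _ => by ring

end Pool.Agent.MP_51db15_ag.Qh

end

section
/-! Row HKER: the completed ideal of a weighted homogeneous ideal. -/

set_option linter.unusedSectionVars false

namespace Pool.Agent.MP_51db15_ag.Qh

namespace HKERx

variable {ι : Type} [Fintype ι] [DecidableEq ι] {a : ι → ℕ}

/-- the component of weight `n`, as a polynomial -/
noncomputable def wc (a : ι → ℕ) (n : ℕ) (g : MvPowerSeries ι ℂ) : MvPolynomial ι ℂ :=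
  MvPolynomial.weightedHomogeneousComponent a n (MvPowerSeries.truncTotal (n + 1) g)

theorem degree_le (ha : ∀ i, 0 < a i) (α : ι →₀ ℕ) : Finsupp.degree α ≤ Finsupp.weight a α := by
  rw [Finsupp.degree_eq_sum, Finsupp.weight_eq_sum]
  exact Finset.sum_le_sum fun i _ => by
    rw [smul_eq_mul]
    exact Nat.le_mul_of_pos_right _ (ha i)

theorem weight_le (a : ι → ℕ) (α : ι →₀ ℕ) :
    Finsupp.weight a α ≤ Finsupp.degree α * ∑ j, a j := by
  rw [Finsupp.degree_eq_sum, Finsupp.weight_eq_sum, Finset.sum_mul]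
  exact Finset.sum_le_sum fun i _ => by
    rw [smul_eq_mul]
    exact Nat.mul_le_mul_left _
      (Finset.single_le_sum (fun j _ => Nat.zero_le (a j)) (Finset.mem_univ i))

theorem coeff_wc (ha : ∀ i, 0 < a i) (n : ℕ) (g : MvPowerSeries ι ℂ) (α : ι →₀ ℕ) :
    (wc a n g).coeff α = if Finsupp.weight a α = n then MvPowerSeries.coeff α g else 0 := by
  rw [wc, MvPolynomial.coeff_weightedHomogeneousComponent]
  split_ifs with h
  · exact MvPowerSeries.coeff_truncTotal _ (by have := degree_le ha α; omega)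
  · rfl

theorem wc_add (n : ℕ) (g h : MvPowerSeries ι ℂ) : wc a n (g + h) = wc a n g + wc a n h := by
  simp [wc]

theorem wc_zero (n : ℕ) : wc a n (0 : MvPowerSeries ι ℂ) = 0 := by simp [wc]

theorem wc_mul (ha : ∀ i, 0 < a i) (n : ℕ) (F : MvPolynomial ι ℂ) (s : MvPowerSeries ι ℂ) :
    wc a n ((F : MvPowerSeries ι ℂ) * s) = ∑ q ∈ Finset.HasAntidiagonal.antidiagonal n,
      MvPolynomial.weightedHomogeneousComponent a q.1 F * wc a q.2 s := by
  ext α
  rw [coeff_wc ha, MvPolynomial.coeff_sum]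
  simp only [MvPolynomial.coeff_mul, coeff_wc ha, MvPolynomial.coeff_weightedHomogeneousComponent]
  rw [Finset.sum_comm, MvPowerSeries.coeff_mul]
  have key : ∀ p ∈ Finset.HasAntidiagonal.antidiagonal α, (∑ q ∈ Finset.HasAntidiagonal.antidiagonal n,
      (if Finsupp.weight a p.1 = q.1 then MvPolynomial.coeff p.1 F else 0) *
        if Finsupp.weight a p.2 = q.2 then MvPowerSeries.coeff p.2 s else 0) =
      if Finsupp.weight a α = n then MvPolynomial.coeff p.1 F * MvPowerSeries.coeff p.2 s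
        else 0 := by
    intro p hp
    have h3 : Finsupp.weight a α = Finsupp.weight a p.1 + Finsupp.weight a p.2 := by
      rw [← map_add, Finset.HasAntidiagonal.mem_antidiagonal.1 hp]
    have h4 : ∀ q : ℕ × ℕ, q ≠ (Finsupp.weight a p.1, Finsupp.weight a p.2) →
        ((if Finsupp.weight a p.1 = q.1 then MvPolynomial.coeff p.1 F else 0) *
          if Finsupp.weight a p.2 = q.2 then MvPowerSeries.coeff p.2 s else 0) = 0 := by
      intro q hq
      by_cases h1 : Finsupp.weight a p.1 = q.1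
      · rw [if_neg (fun h2 : Finsupp.weight a p.2 = q.2 => hq (Prod.ext h1.symm h2.symm)),
          mul_zero]
      · rw [if_neg h1, zero_mul]
    by_cases h : Finsupp.weight a α = n
    · rw [if_pos h, Finset.sum_eq_single_of_mem (Finsupp.weight a p.1, Finsupp.weight a p.2)
        (Finset.HasAntidiagonal.mem_antidiagonal.2 (h3.symm.trans h)) fun q _ hq => h4 q hq, if_pos rfl, if_pos rfl]
    · rw [if_neg h]
      refine Finset.sum_eq_zero fun q hq => h4 q ?_
      rintro rfl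
      exact h (h3.trans (Finset.HasAntidiagonal.mem_antidiagonal.1 hq))
  rw [Finset.sum_congr rfl key]
  split_ifs with h
  · simp only [MvPolynomial.coeff_coe]
  · simp

theorem order_sub (ha : ∀ i, 0 < a i) (r : ℕ) (g : MvPowerSeries ι ℂ) :
    (r : ℕ∞) ≤ (g - ∑ k ∈ Finset.range (r * ∑ j, a j + 1),
      (wc a k g : MvPowerSeries ι ℂ)).order :=
  MvPowerSeries.nat_le_order fun α hα => by
    have h1 : Finsupp.weight a α < r * ∑ j, a j + 1 :=
      Nat.lt_succ_of_le ((weight_le a α).trans (Nat.mul_le_mul_right _ hα.le))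
    rw [map_sub, map_sum]
    simp only [MvPolynomial.coeff_coe, coeff_wc ha]
    rw [Finset.sum_ite_eq, if_pos (Finset.mem_range.2 h1), sub_self]

end HKERx

open HKERx in
theorem hker : S_HKER := by
  intro ι _ _ a J ha hJ
  refine ⟨wc a, coeff_wc ha, fun g => ⟨fun hg => ?_, fun h => ?_⟩⟩
  · have key : ∀ s : MvPowerSeries ι ℂ, ∀ n, wc a n (g * s) ∈ J := by
      induction hg using Submodule.span_induction with
      | mem x hx =>
        obtain ⟨F, hF, rfl⟩ := hx
        intro s n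
        rw [show MvPolynomial.coeToMvPowerSeries.ringHom F = (F : MvPowerSeries ι ℂ) from rfl,
          wc_mul ha]
        exact Ideal.sum_mem _ fun q _ => Ideal.mul_mem_right _ _ (hJ F hF q.1)
      | zero => intro s n; rw [zero_mul, wc_zero]; exact J.zero_mem
      | add x y _ _ hx hy => intro s n; rw [add_mul, wc_add]; exact J.add_mem (hx s n) (hy s n)
      | smul c x _ hx => intro s n; rw [smul_eq_mul, mul_comm c, mul_assoc]; exact hx _ n
    simpa using key 1
  · exact Hy.mem_ideal_of_approx _ fun r => ⟨_, Ideal.sum_mem _ fun k _ =>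
      Ideal.mem_map_of_mem MvPolynomial.coeToMvPowerSeries.ringHom (h k), order_sub ha r g⟩

end Pool.Agent.MP_51db15_ag.Qh

end

section
/-! PROJECT QF, row HL: fields extend to the completion and shift the components. -/

namespace Pool.Agent.MP_51db15_ag.Qh

open Module

noncomputable section

namespace HLx

variable {K ι R : Type} [Field K] [Algebra ℂ K] [CommRing R] [Algebra ℂ R]

/-- coefficients with integer index -/
def cz (n : ℤ) (f : PowerSeries K) : K := if 0 ≤ n then PowerSeries.coeff n.toNat f else 0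

omit [Algebra ℂ K] in
theorem cz_nat (m : ℕ) (f : PowerSeries K) : cz m f = PowerSeries.coeff m f := by simp [cz]

omit [Algebra ℂ K] in
theorem cz_pow (k : ℕ) (n : ℤ) (f : PowerSeries K) :
    cz n (PowerSeries.X ^ k * f) = cz (n - k) f := by
  unfold cz
  rw [PowerSeries.coeff_X_pow_mul']
  by_cases h : (k : ℤ) ≤ n
  · rw [if_pos (by omega), if_pos (by omega), if_pos (by omega)]
    congr 2
    omega
  · rw [if_neg (by omega : ¬0 ≤ n - k)]
    split_ifs with h1 h2
    · omega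
    · rfl
    · rfl

omit [Algebra ℂ K] in
theorem cz_C (g : K) (n : ℤ) (f : PowerSeries K) : cz n (PowerSeries.C g * f) = g * cz n f := by
  unfold cz
  split_ifs <;> simp

/-- a derivation acting on the coefficients -/
def st (X : DD K) (f : PowerSeries K) : PowerSeries K :=
  PowerSeries.mk fun m => X (PowerSeries.coeff m f)

theorem cz_st (X : DD K) (n : ℤ) (f : PowerSeries K) : cz n (st X f) = X (cz n f) := by
  unfold cz st
  split_ifs <;> simp

theorem st_mul (X : DD K) (f h : PowerSeries K) : st X (f * h) = f * st X h + st X f * h := by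
  ext m
  simp only [st, PowerSeries.coeff_mk, PowerSeries.coeff_mul, map_sum, map_add,
    Derivation.leibniz, smul_eq_mul, Finset.sum_add_distrib]
  congr 1
  exact Finset.sum_congr rfl fun _ _ => mul_comm _ _

theorem wt {E X : DD K} {p n : ℂ} {y : K} (hX : ⁅E, X⁆ = p • X) (hy : E y = n • y) :
    E (X y) = (n + p) • X y := by
  have h : E (X y) - X (E y) = p • X y := by
    rw [← Derivation.commutator_apply, hX]
    rfl
  rw [hy, Derivation.map_smul, sub_eq_iff_eq_add] at h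
  rw [h, add_smul, add_comm]

variable {S : Subalgebra ℂ K} {E : DD K} {μ : R →ₐ[ℂ] PowerSeries K} {i0 : S →ₐ[ℂ] R}

theorem cf_eq (n : ℤ) (r : R) : cf μ n r = cz n (μ r) := rfl

theorem cf_ext (hH : Hat S E μ i0) {r r' : R} (h : ∀ n : ℤ, cf μ n r = cf μ n r') : r = r' :=
  hH.inj (PowerSeries.ext fun m => by rw [← cz_nat, ← cz_nat]; exact h m)

theorem cf_add (n : ℤ) (r r' : R) : cf μ n (r + r') = cf μ n r + cf μ n r' := by
  unfold cf
  split_ifs <;> simp

theorem cf_smul (n : ℤ) (c : ℂ) (r : R) : cf μ n (c • r) = c • cf μ n r := by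
  unfold cf
  split_ifs
  · rw [map_smul]
    rfl
  · simp

theorem cf_mem (hH : Hat S E μ i0) (n : ℤ) (r : R) :
    cf μ n r ∈ S ∧ E (cf μ n r) = (n : ℂ) • cf μ n r := by
  unfold cf
  split_ifs with h
  · obtain ⟨m, rfl⟩ := Int.eq_ofNat_of_zero_le h
    simpa using hH.mem r m
  · simp

theorem neg_zero (hE : Ev S E) {y : K} (hy : y ∈ S) {n : ℤ} (h : E y = (n : ℂ) • y) (hn : n < 0) :
    y = 0 := by
  by_contra h0
  obtain ⟨m, hm⟩ := hE.nat y hy _ h0 h
  have : n = m := by exact_mod_cast hm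
  omega

theorem ind (hE : Ev S E) (Q : S → Prop) (h0 : Q 0) (ha : ∀ g g', Q g → Q g' → Q (g + g'))
    (hh : ∀ (g : S) (n : ℤ), E g = (n : ℂ) • (g : K) → Q g) (g : S) : Q g := by
  have h := Submodule.iSup_induction _ (motive := fun y : K => ∃ hy : y ∈ S, Q ⟨y, hy⟩)
    (hE.s g g.2) (fun n y hy => ⟨hy.1, hh _ n (End.mem_eigenspace_iff.1 hy.2)⟩) ⟨zero_mem S, h0⟩
    fun y y' ⟨h1, h2⟩ ⟨h3, h4⟩ => ⟨add_mem h1 h3, ha _ _ h2 h4⟩
  exact h.2

theorem cf_emb (hE : Ev S E) (hH : Hat S E μ i0) (g : S) {n : ℤ} (h : E g = (n : ℂ) • (g : K))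
    (k : ℤ) : cf μ k (i0 g) = if k = n then (g : K) else 0 := by
  by_cases hn : n < 0
  · have h0 : g = 0 := Subtype.ext (neg_zero hE g.2 h hn)
    simp [h0, cf]
  · obtain ⟨m, rfl⟩ := Int.eq_ofNat_of_zero_le (not_lt.1 hn)
    unfold cf
    rw [hH.emb g m (by simpa using h), PowerSeries.coeff_monomial]
    split_ifs <;> first | rfl | omega

theorem inj (hE : Ev S E) (hH : Hat S E μ i0) : Function.Injective i0 := by
  have key : ∀ g : S, ∃ N : ℕ, ∀ M, N ≤ M → ∑ m ∈ Finset.range M, cf μ m (i0 g) = g := by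
    refine ind hE _ ⟨0, fun M _ => by simp [cf]⟩ ?_ ?_
    · rintro g g' ⟨N, h⟩ ⟨N', h'⟩
      refine ⟨N + N', fun M hM => ?_⟩
      simp only [map_add, cf_add, Finset.sum_add_distrib]
      rw [h M (by omega), h' M (by omega)]
      rfl
    · intro g n h
      refine ⟨n.toNat + 1, fun M hM => ?_⟩
      simp only [cf_emb hE hH g h]
      by_cases hn : n < 0
      · simp [neg_zero hE g.2 h hn]
      · obtain ⟨m, rfl⟩ := Int.eq_ofNat_of_zero_le (not_lt.1 hn)
        simp only [Nat.cast_inj, Finset.sum_ite_eq', Finset.mem_range]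
        exact if_pos (by simpa using hM)
  refine (injective_iff_map_eq_zero i0).2 fun g hg => Subtype.ext ?_
  obtain ⟨N, h⟩ := key g
  rw [← h N le_rfl, hg]
  simp [cf]

theorem hom (hE : Ev S E) (hH : Hat S E μ i0) {X : DD K} (hX : X ∈ TT S) {p : ℤ}
    (hp : ⁅E, X⁆ = (p : ℂ) • X) :
    ∃ X' : DR R, Lft i0 X X' ∧ ∀ (n : ℤ) (r : R), cf μ (n + p) (X' r) = X (cf μ n r) := by
  have hw : ∀ (n : ℤ) (r : R), E (X (cf μ n r)) = ((n + p : ℤ) : ℂ) • X (cf μ n r) :=
    fun n r => by rw [wt hp (cf_mem hH n r).2, Int.cast_add]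
  have ex : ∀ r : R, ∃ r' : R, ∀ n : ℤ, cf μ n r' = X (cf μ (n - p) r) := by
    intro r
    obtain ⟨r', h⟩ := hH.surj (fun m => X (cf μ (m - p) r)) fun m =>
      ⟨hX _ (cf_mem hH _ r).1, by simpa using hw (m - p) r⟩
    refine ⟨r', fun n => ?_⟩
    by_cases hn : n < 0
    · rw [neg_zero hE (hX _ (cf_mem hH _ r).1) (hw (n - p) r) (by omega), cf, if_neg (by omega)]
    · obtain ⟨m, rfl⟩ := Int.eq_ofNat_of_zero_le (not_lt.1 hn)
      rw [cf_eq, cz_nat, h, PowerSeries.coeff_mk]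
  choose F hF using ex
  have rel : ∀ r, PowerSeries.X ^ (-p).toNat * μ (F r) = PowerSeries.X ^ p.toNat * st X (μ r) := by
    intro r
    ext m
    rw [← cz_nat, ← cz_nat, cz_pow, cz_pow, cz_st, ← cf_eq, ← cf_eq, hF]
    congr 2
    omega
  let L : R →ₗ[ℂ] R :=
    { toFun := F
      map_add' := fun r r' => cf_ext hH fun n => by simp only [cf_add, hF, map_add]
      map_smul' := fun c r => cf_ext hH fun n => by
        simp only [cf_smul, hF, Derivation.map_smul, RingHom.id_apply] }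
  have leib : ∀ r s, L (r * s) = r • L s + s • L r := by
    intro r s
    refine hH.inj (mul_left_cancel₀ (pow_ne_zero (-p).toNat (PowerSeries.X_ne_zero (R := K))) ?_)
    change _ * μ (F (r * s)) = _ * μ (r * F s + s * F r)
    rw [rel, map_mul, st_mul, map_add, map_mul, map_mul]
    linear_combination -(μ r * rel s) - μ s * rel r
  refine ⟨Derivation.mk' L leib, fun g g' hg => ?_, fun n r => ?_⟩
  · have e : g' = ⟨X g, hX g g.2⟩ := Subtype.ext hg
    subst e
    change L (i0 g) = _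
    refine ind hE (fun g => L (i0 g) = i0 ⟨X g, hX g g.2⟩) ?_ ?_ ?_ g
    · rw [map_zero, map_zero, eq_comm]
      exact (congrArg i0 (Subtype.ext (map_zero X))).trans (map_zero i0)
    · intro g g' h h'
      rw [map_add, map_add, h, h', ← map_add]
      exact congrArg i0 (Subtype.ext (map_add X _ _).symm)
    · intro g n h
      refine cf_ext hH fun k => ?_
      change cf μ k (F (i0 g)) = _
      rw [hF, cf_emb hE hH g h, cf_emb hE hH ⟨X g, hX g g.2⟩ (n := n + p)
        (by rw [Int.cast_add]; exact wt hp h)]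
      by_cases e : k = n + p
      · rw [if_pos e, if_pos (by omega)]
      · rw [if_neg e, if_neg (by omega), map_zero]
  · change cf μ (n + p) (F r) = _
    rw [hF, add_sub_cancel_right]

theorem uniq (hH : Hat S E μ i0) (D D' : DR R) (h : ∀ g : S, D (i0 g) = D' (i0 g)) : D = D' := by
  ext r
  exact sub_eq_zero.1 (hH.chain (D - D') ⊥ (fun g => sub_eq_zero.2 (h g)) r)

end HLx

open HLx in
theorem hl (_ : GenK) : S_HL := by
  intro K ι R _ _ _ _ _ S E x a μ i0 hC hH
  refine ⟨inj hC.ev hH, fun X hX => ?_, uniq hH, fun X hX p X' hp h n r => ?_,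
    fun g d h n r => ?_⟩
  · refine (Submodule.iSup_induction _ (motive := fun X : DD K => X ∈ TT S ∧ ∃ X', Lft i0 X X')
      (hC.ev.T X hX) (fun n Y hY => ⟨hY.1, ?_⟩) ⟨zero_mem _, 0, fun g g' h => ?_⟩ ?_).2
    · obtain ⟨Y', h, -⟩ := hom hC.ev hH hY.1 (End.mem_eigenspace_iff.1 hY.2)
      exact ⟨Y', h⟩
    · have e : g' = 0 := Subtype.ext h
      rw [e, map_zero]
      rfl
    · rintro Y Z ⟨h1, Y', h2⟩ ⟨h3, Z', h4⟩
      refine ⟨add_mem h1 h3, Y' + Z', fun g g' h => ?_⟩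
      rw [Derivation.add_apply, h2 g ⟨Y g, h1 g g.2⟩ rfl, h4 g ⟨Z g, h3 g g.2⟩ rfl, ← map_add]
      exact congrArg i0 (Subtype.ext h.symm)
  · obtain ⟨Y, h1, h2⟩ := hom hC.ev hH hX hp
    rw [uniq hH X' Y fun g => (h g ⟨X g, hX g g.2⟩ rfl).trans (h1 g ⟨X g, hX g g.2⟩ rfl).symm]
    exact h2 n r
  · have e : PowerSeries.monomial d (g : K) = PowerSeries.X ^ d * PowerSeries.C (g : K) := by
      ext m
      rw [PowerSeries.coeff_monomial, PowerSeries.coeff_mul_C, PowerSeries.coeff_X_pow]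
      split_ifs <;> simp
    rw [cf_eq, map_mul, hH.emb g d h, e, mul_assoc, cz_pow, add_sub_cancel_right, cz_C, cf_eq]

end

end Pool.Agent.MP_51db15_ag.Qh

end

section
/-! Row HPI: regular one-forms are Hamiltonian on the completion. -/

namespace Pool.Agent.MP_51db15_ag.Qh

open Module

namespace HPIx

theorem span {K ι : Type} [Field K] [Algebra ℂ K] [Fintype ι] {S : Subalgebra ℂ K} {x : ι → K}
    (hB : Bas S x) (γ : DU K) : ∃ c : ι → K, ∀ D : DD K, γ D = ∑ i, c i * D (x i) := by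
  classical
  let ev : DD K →ₗ[K] (ι → K) := LinearMap.pi fun i => dd (x i)
  have hev : ∀ D i, ev D i = D (x i) := fun D i => rfl
  have hker : LinearMap.ker ev = ⊥ := by
    rw [LinearMap.ker_eq_bot']
    intro D hD
    refine hB.ext D 0 fun i => ?_
    rw [← hev, hD]
    rfl
  obtain ⟨L, hL⟩ := ev.exists_leftInverse_of_injective hker
  refine ⟨fun i => (γ ∘ₗ L) fun j => if i = j then 1 else 0, fun D => ?_⟩
  have h1 : L (ev D) = D := LinearMap.congr_fun hL D
  have h2 := LinearMap.pi_apply_eq_sum_univ (γ ∘ₗ L) (ev D)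
  rw [LinearMap.comp_apply, h1] at h2
  rw [h2]
  exact Finset.sum_congr rfl fun i _ => by rw [hev, smul_eq_mul, mul_comm]

theorem den {K ι : Type} [Field K] [Algebra ℂ K] [Fintype ι] {S : Subalgebra ℂ K} {x : ι → K}
    (hB : Bas S x) (γ : DU K) : ∃ (s : S) (g : ι → S), s ≠ 0 ∧
      ∀ D : DD K, (s : K) * γ D = ∑ i, (g i : K) * D (x i) := by
  classical
  obtain ⟨c, hc⟩ := span hB γ
  choose p hp q hq hq0 hpq using fun i => hB.frac (c i)
  refine ⟨⟨∏ i, q i, prod_mem fun i _ => hq i⟩,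
    fun i => ⟨p i * ∏ j ∈ Finset.univ.erase i, q j,
      mul_mem (hp i) (prod_mem fun j _ => hq j)⟩, fun h => ?_, fun D => ?_⟩
  · exact Finset.prod_ne_zero_iff.2 (fun i _ => hq0 i) (congrArg Subtype.val h)
  · rw [hc, Finset.mul_sum]
    refine Finset.sum_congr rfl fun i _ => ?_
    change (∏ j, q j) * _ = (p i * ∏ j ∈ Finset.univ.erase i, q j) * _
    rw [← Finset.mul_prod_erase _ _ (Finset.mem_univ i), hpq i]
    have := hq0 i
    field_simp

theorem div {R : Type} [CommRing R] [IsDomain R] [Algebra ℂ R] (G : DR R) (s : R) (hs : s ≠ 0)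
    (h : ∀ r, ∃ t, G r = s * t) : ∃ G' : DR R, G = s • G' := by
  choose t ht using h
  let T : R →ₗ[ℂ] R :=
    { toFun := t
      map_add' := fun a b => mul_left_cancel₀ hs (by rw [← ht, mul_add, ← ht, ← ht, map_add])
      map_smul' := fun c a => mul_left_cancel₀ hs (by
        rw [← ht, RingHom.id_apply, mul_smul_comm, ← ht, Derivation.map_smul]) }
  have hT : ∀ r, T r = t r := fun _ => rfl
  refine ⟨Derivation.mk' T fun a b => mul_left_cancel₀ hs ?_, ?_⟩
  · rw [hT, hT, hT, ← ht, Derivation.leibniz, ht a, ht b]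
    simp only [smul_eq_mul]
    ring
  · ext r
    rw [Derivation.smul_apply, smul_eq_mul, ht]
    rfl

end HPIx

theorem hpi : S_HPI := by
  intro K ι R _ _ _ _ _ _ S E x a μ i0 ω hC hL hG hω γ hγ
  have hB := hC.bas
  obtain ⟨s, g, hs, hsg⟩ := HPIx.den hB γ
  obtain ⟨n, u, p, u', hu, hgen⟩ := hG
  obtain ⟨halt, -, hH⟩ := hω
  choose H hH using hH
  let y : ι → S := fun i => ⟨x i, hB.mem i⟩
  have hs0 : i0 s ≠ 0 := fun h => hs (hL.inj (by rw [h, map_zero]))
  have key : ∀ X ∈ TT S, ∀ (X' : DR R) (b : S), Lft i0 X X' → (b : K) = γ X →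
      ∑ i, i0 (g i) * X' (i0 (y i)) = i0 s * i0 b := by
    intro X hX X' b hl hb
    have h1 : ∀ i, X' (i0 (y i)) = i0 ⟨X (x i), hX _ (hB.mem i)⟩ := fun i => hl _ _ rfl
    simp only [h1, ← map_mul, ← map_sum]
    congr 1
    apply Subtype.ext
    rw [AddSubmonoidClass.coe_finsetSum, MulMemClass.coe_mul, hb, hsg]
    rfl
  have dv : ∀ D : DR R, ∃ t, ∑ i, i0 (g i) * D (i0 (y i)) = i0 s * t := by
    intro D
    obtain ⟨r, hr⟩ := hgen D
    refine ⟨∑ j, r j * i0 ⟨γ (u j), hγ _ (hu j).1⟩, ?_⟩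
    have h1 : ∀ z, D z = ∑ j, r j * u' j z := fun z => by
      rw [hr]
      induction (Finset.univ : Finset (Fin n)) using Finset.cons_induction with
      | empty => simp
      | cons j t hj ih =>
        rw [Finset.sum_cons, Finset.sum_cons, Derivation.add_apply, ih, Derivation.smul_apply,
          smul_eq_mul]
    simp only [h1, Finset.mul_sum]
    rw [Finset.sum_comm]
    refine Finset.sum_congr rfl fun j _ => ?_
    rw [mul_left_comm, ← key (u j) (hu j).1 (u' j) _ (hu j).2.2 rfl, Finset.mul_sum]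
    exact Finset.sum_congr rfl fun i _ => by ring
  let G1 : DR R := ∑ i, i0 (g i) • H (i0 (y i))
  have hG1 : ∀ Y, ω G1 Y = ∑ i, i0 (g i) * Y (i0 (y i)) := fun Y => by
    simp only [G1, map_sum, map_smul, LinearMap.sum_apply, LinearMap.smul_apply, hH, smul_eq_mul]
  obtain ⟨G, hGG⟩ := HPIx.div G1 (i0 s) hs0 fun r => by
    obtain ⟨t, ht⟩ := dv (H r)
    refine ⟨-t, ?_⟩
    rw [← hH r G1, ← halt.neg_eq, hG1, ht, mul_neg]
  refine ⟨G, fun X hX X' b hl hb => mul_left_cancel₀ hs0 ?_⟩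
  rw [← key X hX X' b hl hb, ← hG1, hGG, map_smul, LinearMap.smul_apply, smul_eq_mul]

end Pool.Agent.MP_51db15_ag.Qh

end

section
/-! Row IDC: a decomposition of the module of fields into graded indecomposable pieces. -/

namespace Pool.Agent.MP_51db15_ag.Qh

open Module

noncomputable section

namespace IDCx

variable {K : Type} [Field K] [Algebra ℂ K]

/-- the endomorphisms of degree zero -/
def A (S : Subalgebra ℂ K) (t : DD K) : Subalgebra ℂ (End K (DD K)) where
  carrier := {b | A0 S t b}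
  add_mem' h h' := ⟨fun D hD => add_mem (h.1 D hD) (h'.1 D hD), fun D => by
    simp only [LinearMap.add_apply, lie_add, h.2 D, h'.2 D]⟩
  mul_mem' h h' := ⟨fun D hD => h.1 _ (h'.1 D hD), fun D => by
    simp only [End.mul_apply, h.2, h'.2]⟩
  algebraMap_mem' c := ⟨fun D hD => ((TT S).restrictScalars ℂ).smul_mem c hD, fun D => by
    change ⁅t, c • D⁆ = c • ⁅t, D⁆
    exact lie_smul c t D⟩

theorem fd_of {U V : Type} [AddCommGroup U] [Module ℂ U] [AddCommGroup V] [Module ℂ V]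
    (δ : End ℂ U) (H : Submodule ℂ U) (h : Fd δ H) (f : V →ₗ[ℂ] U) (hf : Function.Injective f)
    (h1 : ∀ v, f v ∈ H) (h2 : ∀ v, δ (f v) = 0) : FiniteDimensional ℂ V := by
  have := h 0
  refine FiniteDimensional.of_injective (f.codRestrict (H ⊓ δ.eigenspace 0) fun v => ⟨h1 v, ?_⟩)
    fun v w e => hf (congrArg Subtype.val e)
  rw [SetLike.mem_coe, End.mem_eigenspace_iff, h2, zero_smul]

/-- the embedding into the endomorphisms of pairs -/
def emb (S : Subalgebra ℂ K) (t : DD K) : A S t →ₗ[ℂ] EE K where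
  toFun b := (b.1 : End K (DD K)).prodMap 0
  map_add' b b' := LinearMap.ext fun v => Prod.ext rfl (by simp)
  map_smul' c b := LinearMap.ext fun v => Prod.ext rfl (by simp)

theorem fd {S : Subalgebra ℂ K} {t : DD K} (h : Fd (U := EE K) (del t) (EC S)) :
    FiniteDimensional ℂ (A S t) := by
  refine fd_of (U := EE K) (V := A S t) (del t) (EC S) h (emb S t) (fun b b' e => ?_)
    (fun b v hv => ⟨b.2.1 _ hv.1, zero_mem _⟩) fun b => ?_
  · exact Subtype.ext (LinearMap.ext fun D => congrArg (fun u : EE K => (u (D, 0)).1) e)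
  · exact LinearMap.ext fun v =>
      Prod.ext (by simp [emb, del_apply, b.2.2 v.1]) (by simp [emb, del_apply])

end IDCx

theorem idc (i : S_IDEM) : S_IDC := by
  intro K ι _ _ _ S E x a hc
  have := IDCx.fd hc.evf.E
  obtain ⟨κ, h1, h2, e, ho, hs, hn, hl⟩ := i (IDCx.A S E)
  refine ⟨κ, h1, h2, fun k => (e k).1, fun k => (e k).2, fun k l => ?_, ?_, fun k h => ?_,
    fun k b hb => ?_⟩
  · have := congrArg Subtype.val (ho k l)
    rw [apply_ite Subtype.val] at this
    exact this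
  · have := congrArg (IDCx.A S E).val hs
    rw [map_sum, map_one] at this
    exact this
  · exact hn k (Subtype.ext h)
  · obtain ⟨c, hc'⟩ := hl k ⟨b, hb⟩
    exact ⟨c, hc'.map (IDCx.A S E).val⟩

end

end Pool.Agent.MP_51db15_ag.Qh

end

section
/-! Generators that are generalised eigenvectors of a field commuting with the Euler field. -/

namespace Pool.Agent.MP_51db15_ag.Qh

open Module

theorem JD1x.dec {V : Type} [AddCommGroup V] [Module ℂ V] (f : End ℂ V) (p : Submodule ℂ V)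
    [FiniteDimensional ℂ p] (h : ∀ z ∈ p, f z ∈ p) (x : V) (m : x ∈ p) :
    ∃ c : ℂ →₀ V, (∀ μ, c μ ∈ p ⊓ f.maxGenEigenspace μ) ∧ (c.sum fun _ z => z) = x := by
  refine (Submodule.mem_iSup_iff_exists_finsupp _ _).1 ?_
  have e := End.iSup_maxGenEigenspace_eq_top (f.restrict h)
  simp only [End.maxGenEigenspace] at e ⊢
  simp only [Submodule.inf_genEigenspace f p h]
  rw [← Submodule.map_iSup, e, Submodule.map_subtype_top]
  exact m

theorem jd1 (_g : GenK) : S_JD1 := by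
  intro K ι _ _ _ S E x a C Y hY hc
  have key : ∀ i, ∃ f : ℂ →₀ K, (∀ μ, f μ ∈ (SC S ⊓ (op E).eigenspace (a i : ℂ)) ⊓
      (op Y).maxGenEigenspace μ) ∧ (f.sum fun _ z => z) = x i := fun i => by
    have := C.vtx.fd (a i : ℂ)
    have h : ∀ z ∈ SC S ⊓ (op E).eigenspace (a i : ℂ),
        op Y z ∈ SC S ⊓ (op E).eigenspace (a i : ℂ) := fun z hz => by
      refine ⟨hY z hz.1, End.mem_eigenspace_iff.2 ?_⟩
      have e : E z = (a i : ℂ) • z := End.mem_eigenspace_iff.1 hz.2
      have e2 : E (Y z) - Y (E z) = 0 := by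
        rw [← Derivation.commutator_apply, hc]; rfl
      rw [op_apply, op_apply, sub_eq_zero.1 e2, e, Derivation.map_smul]
    exact JD1x.dec _ _ h _ ⟨C.bas.mem i, End.mem_eigenspace_iff.2 (C.cx.eig i)⟩
  choose f hf hs using key
  have mS : ∀ i μ, f i μ ∈ S := fun i μ => (hf i μ).1.1
  have eg : ∀ i μ, E (f i μ) = (a i : ℂ) • f i μ := fun i μ =>
    End.mem_eigenspace_iff.1 (hf i μ).1.2
  refine ⟨Σ i, (f i).support, inferInstance, fun j => f j.1 j.2, fun j => a j.1, fun j => j.2,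
    ⟨le_antisymm (Algebra.adjoin_le ?_) ?_, C.cx.frac, fun j => eg _ _⟩, fun j => C.pos _,
    le_antisymm (Ideal.span_le.2 ?_) (Ideal.span_le.2 ?_),
    fun j => ⟨Finsupp.mem_support_iff.1 j.2.2, (hf _ _).2⟩⟩
  · rintro _ ⟨j, rfl⟩
    exact mS _ _
  · refine C.cx.gen.ge.trans (Algebra.adjoin_le ?_)
    rintro _ ⟨i, rfl⟩
    rw [← hs i]
    exact Subalgebra.sum_mem _ fun μ hμ => Algebra.subset_adjoin ⟨⟨i, μ, hμ⟩, rfl⟩
  · rintro z ⟨j, e⟩
    obtain ⟨b, hb, eb⟩ := C.vtx.pos z z.2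
    have n : (a j.1 : ℂ) ≠ 0 := Nat.cast_ne_zero.2 (C.pos _).ne'
    have : z = algebraMap ℂ S (a j.1 : ℂ)⁻¹ * b := Subtype.ext (by
      rw [← Algebra.smul_def, Subalgebra.coe_smul, ← eb, e, eg, inv_smul_smul₀ n])
    rw [this]
    exact Ideal.mul_mem_left _ _ hb
  · rintro z ⟨i, e⟩
    have : z = ∑ μ ∈ (f i).support, (⟨f i μ, mS i μ⟩ : S) := Subtype.ext (by
      rw [e, ← hs i, AddSubmonoidClass.coe_finsetSum]; rfl)
    rw [this]
    exact Ideal.sum_mem _ fun μ hμ => Ideal.subset_span ⟨⟨i, μ, hμ⟩, rfl⟩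

end Pool.Agent.MP_51db15_ag.Qh

end

section
/-! PROJECT QH, row KC: the homogeneous components of a form that extends also extend. -/

namespace Pool.Agent.MP_51db15_ag.Qh

namespace KCx

variable {K : Type} [Field K] [Algebra ℂ K]

theorem add {ω η : FF K} {V : ValuationSubring K} (h : KaehlerAt ω V) (h' : KaehlerAt η V) :
    KaehlerAt (ω + η) V := by
  obtain ⟨n, c, y, z, hm, he⟩ := h
  obtain ⟨n', c', y', z', hm', he'⟩ := h'
  refine ⟨n + n', Fin.append c c', Fin.append y y', Fin.append z z', fun s => ?_, fun X Y => ?_⟩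
  · refine Fin.addCases (fun i => ?_) (fun i => ?_) s
    · simpa only [Fin.append_left] using hm i
    · simpa only [Fin.append_right] using hm' i
  · rw [Fin.sum_univ_add]
    simp only [Fin.append_left, Fin.append_right, LinearMap.add_apply, he, he']

theorem smul {ω : FF K} {V : ValuationSubring K} {c : ℂ} (hc : algebraMap ℂ K c ∈ V)
    (h : KaehlerAt ω V) : KaehlerAt (c • ω) V := by
  obtain ⟨n, a, y, z, hm, he⟩ := h
  refine ⟨n, fun s => algebraMap ℂ K c * a s, y, z,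
    fun s => ⟨V.mul_mem _ _ hc (hm s).1, (hm s).2⟩, fun X Y => ?_⟩
  rw [LinearMap.smul_apply, LinearMap.smul_apply, he, Algebra.smul_def, Finset.mul_sum]
  simp only [mul_assoc]

/-- the forms that extend -/
def KS (S : Subalgebra ℂ K) : Submodule ℂ (FF K) where
  carrier := {ω | Kae S ω}
  add_mem' h h' V hV := add (h V hV) (h' V hV)
  zero_mem' _ _ := ⟨0, Fin.elim0, Fin.elim0, Fin.elim0, fun s => s.elim0, fun _ _ => by simp⟩
  smul_mem' c _ h V hV := smul (hV _ (S.algebraMap_mem c)) (h V hV)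

theorem cj (σ : K ≃ₐ[ℂ] K) (X' : DD K) : ∃ X : DD K, ∀ y, X' (σ y) = σ (X y) := by
  refine ⟨Derivation.mk' (σ.symm.toLinearMap ∘ₗ X'.toLinearMap ∘ₗ σ.toLinearMap) fun a b => ?_,
    fun y => ?_⟩
  · simp
  · simp

theorem tw {S : Subalgebra ℂ K} (σ : K ≃ₐ[ℂ] K) (hσ : ∀ g ∈ S, σ g ∈ S) {ω ω' : FF K}
    (h : ∀ X Y X' Y' : DD K, (∀ y, X' (σ y) = σ (X y)) → (∀ y, Y' (σ y) = σ (Y y)) →
      σ (ω X Y) = ω' X' Y') (hω : Kae S ω) : Kae S ω' := by
  intro V hV
  obtain ⟨n, c, y, z, hm, he⟩ := hω (V.comap (σ : K →+* K)) fun g hg => hV _ (hσ g hg)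
  refine ⟨n, fun s => σ (c s), fun s => σ (y s), fun s => σ (z s), hm, fun X' Y' => ?_⟩
  obtain ⟨X, hX⟩ := cj σ X'
  obtain ⟨Y, hY⟩ := cj σ Y'
  rw [← h X Y X' Y' hX hY, he]
  simp only [map_sum, map_mul, map_sub, hX, hY]

theorem two_ne {m n : ℤ} (h : n ≠ m) : (2 : ℂ) ^ n - 2 ^ m ≠ 0 := by
  intro e
  have e' := congrArg norm (sub_eq_zero.1 e)
  simp only [norm_zpow, Complex.norm_ofNat] at e'
  exact h (zpow_right_injective₀ (by norm_num) (by norm_num) e')

theorem van {U : Type} [AddCommGroup U] [Module ℂ U] (H : Submodule ℂ U) (G : ℤ → U → Prop)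
    (hG : ∀ n (c : ℂ) u, G n u → G n (c • u))
    (hs : ∀ (F : Finset ℤ) (η : ℤ → U), (∀ n ∈ F, G n (η n)) → ∑ n ∈ F, η n ∈ H →
      ∑ n ∈ F, (2 : ℂ) ^ n • η n ∈ H) (F : Finset ℤ) :
    ∀ η : ℤ → U, (∀ n ∈ F, G n (η n)) → ∑ n ∈ F, η n ∈ H → ∀ n ∈ F, η n ∈ H := by
  induction F using Finset.induction_on with
  | empty => exact fun _ _ _ n hn => absurd hn (Finset.notMem_empty n)
  | insert m F hm ih =>
    intro η hη h
    have h1 := sub_mem (hs _ η hη h) (H.smul_mem ((2 : ℂ) ^ m) h)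
    rw [Finset.smul_sum, ← Finset.sum_sub_distrib, Finset.sum_insert hm, sub_self, zero_add] at h1
    simp only [← sub_smul] at h1
    have h2 : ∀ n ∈ F, η n ∈ H := fun n hn =>
      (H.smul_mem_iff (two_ne (ne_of_mem_of_not_mem hn hm))).1
        (ih (fun k => ((2 : ℂ) ^ k - 2 ^ m) • η k)
          (fun k hk => hG _ _ _ (hη k (Finset.mem_insert_of_mem hk))) h1 n hn)
    intro n hn
    rcases Finset.mem_insert.1 hn with rfl | hn
    · rw [Finset.sum_insert hm] at h
      exact (H.add_mem_iff_left (H.sum_mem h2)).1 h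
    · exact h2 n hn

end KCx

theorem kc (s : S_SIG) : S_KC := by
  intro K ι _ _ _ S t x a h1 h2 h3 F
  obtain ⟨σ, hσ, hη⟩ := s K ι S t x a h1 h2 h3 2 two_ne_zero
  refine KCx.van (KCx.KS S) (fun n η => η ∈ RF S ∧ lf t η = (n : ℂ) • η)
    (fun n c u h => ⟨(RF S).smul_mem c h.1, by rw [map_smul, h.2, smul_comm]⟩)
    (fun F η hF => KCx.tw σ hσ fun X Y X' Y' hX hY => ?_) F
  simp only [LinearMap.sum_apply, LinearMap.smul_apply, map_sum]
  exact Finset.sum_congr rfl fun n hn => hη _ (hF n hn).1 n (hF n hn).2 X Y X' Y' hX hY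

end Pool.Agent.MP_51db15_ag.Qh

end

section
/-! PROJECT QF, row KC2: the homogeneous components of a form that is regular along all discrete
valuations are regular along them. -/

namespace Pool.Agent.MP_51db15_ag.Qh

namespace KC2x

variable {K : Type} [Field K] [Algebra ℂ K]

/-- the forms that are regular along all discrete valuations -/
def RS (S : Subalgebra ℂ K) : Submodule ℂ (FF K) where
  carrier := {ω | Rdv S ω}
  add_mem' h h' v X Y hv hX hY := (h v X Y hv hX hY).add (h' v X Y hv hX hY)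
  zero_mem' _ _ _ _ _ _ := DV.ge_zero 0
  smul_mem' c ω h v X Y hv hX hY := by
    rw [LinearMap.smul_apply, LinearMap.smul_apply, Algebra.smul_def]
    exact (hv _ (S.algebraMap_mem c)).mul_left (h v X Y hv hX hY)

/-- the valuation pulled back by an automorphism -/
def pull (σ : K ≃ₐ[ℂ] K) (v : DV K) : DV K where
  ord y := v.ord (σ y)
  ord_mul x y hx hy := by
    rw [map_mul]
    exact v.ord_mul _ _ (by simpa using hx) (by simpa using hy)
  ord_add x y hx hy h := by
    rw [map_add]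
    exact v.ord_add _ _ (by simpa using hx) (by simpa using hy)
      (by rw [← map_add]; exact (map_ne_zero_iff σ σ.injective).2 h)
  unif := by
    obtain ⟨π, h0, h1⟩ := v.unif
    exact ⟨σ.symm π, by simpa using h0, by simpa using h1⟩

theorem pull_ge (σ : K ≃ₐ[ℂ] K) (v : DV K) (k : ℤ) (y : K) :
    (pull σ v).Ge k y ↔ v.Ge k (σ y) := by
  simp [DV.Ge, pull]

theorem tw {S : Subalgebra ℂ K} (σ : K ≃ₐ[ℂ] K) (hσ : ∀ g ∈ S, σ g ∈ S) {ω ω' : FF K}
    (h : ∀ X Y X' Y' : DD K, (∀ y, X' (σ y) = σ (X y)) → (∀ y, Y' (σ y) = σ (Y y)) →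
      σ (ω X Y) = ω' X' Y') (hω : Rdv S ω) : Rdv S ω' := by
  intro v X' Y' hv hX' hY'
  obtain ⟨X, hX⟩ := KCx.cj σ X'
  obtain ⟨Y, hY⟩ := KCx.cj σ Y'
  rw [← h X Y X' Y' hX hY, ← pull_ge]
  refine hω (pull σ v) X Y (fun z hz => (pull_ge σ v 0 z).2 (hv _ (hσ z hz))) (fun z hz => ?_)
    fun z hz => ?_
  · rw [pull_ge] at hz ⊢
    rw [← hX]
    exact hX' _ hz
  · rw [pull_ge] at hz ⊢
    rw [← hY]
    exact hY' _ hz

end KC2x

theorem kc2 (s : S_SIG) : S_KC2 := by
  intro K ι _ _ _ S t x a h1 h2 h3 F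
  obtain ⟨σ, hσ, hη⟩ := s K ι S t x a h1 h2 h3 2 two_ne_zero
  have hG : ∀ (n : ℤ) (c : ℂ) (u : FF K), (u ∈ RF S ∧ lf t u = (n : ℂ) • u) →
      (c • u ∈ RF S ∧ lf t (c • u) = (n : ℂ) • c • u) := fun n c u h =>
    ⟨(RF S).smul_mem c h.1, by rw [map_smul, h.2, smul_comm]⟩
  have hs : ∀ (F : Finset ℤ) (η : ℤ → FF K),
      (∀ n ∈ F, η n ∈ RF S ∧ lf t (η n) = (n : ℂ) • η n) → Rdv S (∑ n ∈ F, η n) →
      Rdv S (∑ n ∈ F, (2 : ℂ) ^ n • η n) := by
    intro F η hF
    refine KC2x.tw σ hσ fun X Y X' Y' hX hY => ?_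
    simp only [LinearMap.sum_apply, LinearMap.smul_apply, map_sum]
    exact Finset.sum_congr rfl fun n hn => hη _ (hF n hn).1 n (hF n hn).2 X Y X' Y' hX hY
  exact KCx.van (KC2x.RS S) (fun n η => η ∈ RF S ∧ lf t η = (n : ℂ) • η) hG hs F

end Pool.Agent.MP_51db15_ag.Qh

end

section
/-! PROJECT QH, row LND: a locally nilpotent derivation whose kernel cuts out the vertex is zero. -/

namespace Pool.Agent.MP_51db15_ag.Qh

open Module Finset

namespace LNDx

variable {R : Type} [CommRing R] [Algebra ℂ R]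

theorem leib (N : Derivation ℂ R R) (n : ℕ) (y z : R) :
    N^[n] (y * z) = ∑ ij ∈ antidiagonal n, n.choose ij.1 • (N^[ij.1] y * N^[ij.2] z) := by
  induction n with
  | zero => simp
  | succ n ih =>
    rw [sum_antidiagonal_choose_succ_nsmul (M := R) (fun i j => N^[i] y * N^[j] z) n]
    simp only [Function.iterate_succ_apply', ih, map_sum, map_nsmul, Derivation.leibniz,
      smul_eq_mul, smul_add, sum_add_distrib, add_right_inj]
    refine sum_congr rfl fun ⟨i, j⟩ hij => ?_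
    rw [n.choose_symm_of_eq_add (mem_antidiagonal.1 hij).symm, mul_comm]

theorem it_zero (N : Derivation ℂ R R) (n : ℕ) : N^[n] 0 = 0 :=
  Function.iterate_fixed (map_zero N) n

theorem it_add (N : Derivation ℂ R R) (n : ℕ) (y z : R) : N^[n] (y + z) = N^[n] y + N^[n] z := by
  induction n with
  | zero => rfl
  | succ n ih => simp only [Function.iterate_succ_apply', ih, map_add]

theorem it_smul (N : Derivation ℂ R R) (n : ℕ) (c : ℂ) (y : R) :
    N^[n] (c • y) = c • N^[n] y := by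
  induction n with
  | zero => rfl
  | succ n ih => simp only [Function.iterate_succ_apply', ih, Derivation.map_smul]

variable {N : Derivation ℂ R R}

theorem mono {p q : ℕ} {y : R} (h : N^[p] y = 0) (hpq : p ≤ q) : N^[q] y = 0 := by
  obtain ⟨k, rfl⟩ := Nat.exists_eq_add_of_le' hpq
  rw [Function.iterate_add_apply, h, it_zero]

theorem mul_zero' {p q : ℕ} {y z : R} (hy : N^[p + 1] y = 0) (hz : N^[q + 1] z = 0) :
    N^[p + q + 1] (y * z) = 0 := by
  rw [leib]
  refine sum_eq_zero fun ij hij => ?_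
  have := mem_antidiagonal.1 hij
  by_cases k : p + 1 ≤ ij.1
  · rw [mono hy k, zero_mul, smul_zero]
  · rw [mono hz (by omega), mul_zero, smul_zero]

theorem mul_top {p q : ℕ} {y z : R} (hy : N^[p + 1] y = 0) (hz : N^[q + 1] z = 0) :
    N^[p + q] (y * z) = (p + q).choose p • (N^[p] y * N^[q] z) := by
  rw [leib, sum_eq_single_of_mem (p, q) (mem_antidiagonal.2 rfl)]
  intro ij hij hne
  have := mem_antidiagonal.1 hij
  by_cases k : p + 1 ≤ ij.1
  · rw [mono hy k, zero_mul, smul_zero]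
  · have k' : ij.1 ≠ p := fun e => hne (Prod.ext e (by simp only; omega))
    rw [mono hz (by omega), mul_zero, smul_zero]

theorem pow_top [IsDomain R] {p : ℕ} {y : R} (h0 : N^[p + 1] y = 0) (h1 : N^[p] y ≠ 0) (m : ℕ) :
    N^[m * p + 1] (y ^ m) = 0 ∧ N^[m * p] (y ^ m) ≠ 0 := by
  have : CharZero R := charZero_of_injective_algebraMap (algebraMap ℂ R).injective
  induction m with
  | zero => simp
  | succ m ih =>
    rw [Nat.succ_mul, pow_succ]
    refine ⟨mul_zero' ih.1 h0, ?_⟩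
    rw [mul_top ih.1 h0, nsmul_eq_mul]
    exact mul_ne_zero (Nat.cast_ne_zero.2 (Nat.choose_pos (Nat.le_add_right _ _)).ne')
      (mul_ne_zero ih.2 h1)

theorem comp {U : Type} [AddCommGroup U] [Module ℂ U] (δ : End ℂ U) (W : ℕ → Submodule ℂ U)
    (hW : ∀ n, W n ≤ δ.eigenspace (n : ℂ)) {y : U} (hy : y ∈ ⨆ n, W n) {c : ℂ}
    (hc : y ∈ δ.eigenspace c) (h0 : y ≠ 0) : ∃ n : ℕ, c = n ∧ y ∈ W n := by
  have ind := Submodule.disjoint_def.1 (δ.eigenspaces_iSupIndep c)
  have h1 : ∀ n : ℕ, c ≠ n → W n ≤ ⨆ (c' : ℂ) (_ : c' ≠ c), δ.eigenspace c' := fun n hn =>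
    (hW n).trans (le_iSup₂_of_le (n : ℂ) hn.symm le_rfl)
  by_cases h : ∃ n : ℕ, c = n
  · obtain ⟨n, rfl⟩ := h
    have h2 : ⨆ k, W k ≤ W n ⊔ ⨆ (c' : ℂ) (_ : c' ≠ n), δ.eigenspace c' := iSup_le fun k => by
      by_cases e : k = n
      · exact e ▸ le_sup_left
      · exact (h1 k fun e' => e (Nat.cast_injective e').symm).trans le_sup_right
    obtain ⟨u, hu, v, hv, rfl⟩ := Submodule.mem_sup.1 (h2 hy)
    have h3 : v = 0 := ind v (by simpa using sub_mem hc (hW n hu)) hv
    exact ⟨n, rfl, by rwa [h3, add_zero]⟩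
  · exact (h0 (ind y hc ((iSup_le fun k => h1 k fun e => h ⟨k, e⟩ : ⨆ k, W k ≤ _) hy))).elim

/-- elements of weight `n` and degree at most `n D / a` -/
def W (E N : Derivation ℂ R R) (D a n : ℕ) : Submodule ℂ R where
  carrier := {y | E y = (n : ℂ) • y ∧ N^[n * D / a + 1] y = 0}
  zero_mem' := ⟨by simp, it_zero _ _⟩
  add_mem' := fun hy hz => ⟨by rw [map_add, hy.1, hz.1, smul_add],
    by rw [it_add, hy.2, hz.2, add_zero]⟩
  smul_mem' := fun c y hy => ⟨by rw [Derivation.map_smul, hy.1, smul_comm],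
    by rw [it_smul, hy.2, smul_zero]⟩

theorem W_mul {E : Derivation ℂ R R} {D a n n' : ℕ} {y z : R} (hy : y ∈ W E N D a n)
    (hz : z ∈ W E N D a n') : y * z ∈ W E N D a (n + n') := by
  refine ⟨?_, mono (mul_zero' hy.2 hz.2) ?_⟩
  · rw [Derivation.leibniz, hy.1, hz.1]
    simp only [smul_eq_mul, mul_smul_comm, Nat.cast_add, add_smul, mul_comm z y]
    exact add_comm _ _
  · rw [add_mul]
    exact Nat.succ_le_succ Nat.div_add_div_le_add_div

theorem W_top {ι : Type} {E : Derivation ℂ R R} {D a : ℕ} {x : ι → R}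
    (hx : Algebra.adjoin ℂ (Set.range x) = ⊤) (h : ∀ i, ∃ n, x i ∈ W E N D a n) (y : R) :
    y ∈ ⨆ n, W E N D a n := by
  have hy : y ∈ Algebra.adjoin ℂ (Set.range x) := hx ▸ Algebra.mem_top
  induction hy using Algebra.adjoin_induction with
  | mem y hy =>
    obtain ⟨i, rfl⟩ := hy
    obtain ⟨n, hn⟩ := h i
    exact Submodule.mem_iSup_of_mem n hn
  | algebraMap c => exact Submodule.mem_iSup_of_mem 0 ⟨by simp, by simp⟩
  | add y z _ _ hy hz => exact add_mem hy hz
  | mul y z h1 h2 hy hz =>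
    clear h1 h2
    induction hy using Submodule.iSup_induction' with
    | zero => simp
    | add y y' _ _ k k' => rw [add_mul]; exact add_mem k k'
    | mem n y hy =>
      induction hz using Submodule.iSup_induction' with
      | zero => simp
      | add z z' _ _ k k' => rw [mul_add]; exact add_mem k k'
      | mem n' z hz => exact Submodule.mem_iSup_of_mem _ (W_mul hy hz)

end LNDx

open LNDx in
theorem lnd : S_LND := by
  classical
  intro R ι _ _ _ _ E N x a g d hx ha hn g0 hg d0 hE hm i0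
  have hn' : ∀ i, ∃ p : ℕ, N^[p + 1] (x i) = 0 := fun i =>
    let ⟨k, hk⟩ := hn i
    ⟨k, mono hk (Nat.le_succ k)⟩
  obtain ⟨j, -, hj⟩ := exists_max_image univ (fun i => (Nat.find (hn' i) : ℚ) / a i)
    ⟨i0, mem_univ _⟩
  have h1 : ∀ i, Nat.find (hn' i) * a j ≤ a i * Nat.find (hn' j) := fun i => by
    have k := hj i (mem_univ i)
    rw [div_le_div_iff₀ (by exact_mod_cast (ha i).1) (by exact_mod_cast (ha j).1)] at k
    rw [mul_comm (a i)]
    exact_mod_cast k
  have h2 := Nat.find_spec (hn' j)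
  have h3 : ∀ p < Nat.find (hn' j), N^[p + 1] (x j) ≠ 0 := fun p hp => Nat.find_min (hn' j) hp
  have h4 : ∀ i, x i ∈ W E N (Nat.find (hn' j)) (a j) (a i) := fun i =>
    ⟨(ha i).2, mono (Nat.find_spec (hn' i))
      (Nat.succ_le_succ ((Nat.le_div_iff_mul_le (ha j).1).2 (h1 i)))⟩
  generalize Nat.find (hn' j) = D at h2 h3 h4
  rcases D with _ | D
  · simpa using (h4 i0).2
  obtain ⟨m, h, e⟩ := hm j
  obtain ⟨-, t⟩ := pow_top h2 (h3 D (Nat.lt_succ_self D)) m
  have h0 : h ≠ 0 := fun k => t (by rw [e, k, mul_zero, it_zero])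
  have e1 : E (x j ^ m) = ((m * a j : ℕ) : ℂ) • x j ^ m := by
    induction m with
    | zero => simp
    | succ m _ =>
      rw [Derivation.leibniz_pow, (ha j).2, Nat.add_sub_cancel, smul_eq_mul, mul_smul_comm,
        ← pow_succ, ← Nat.cast_smul_eq_nsmul ℂ, smul_smul, Nat.cast_mul]
  have e2 : E h = (((m * a j : ℕ) : ℂ) - d) • h := by
    rw [e, Derivation.leibniz, hE] at e1
    refine mul_left_cancel₀ g0 ?_
    rw [mul_smul_comm, sub_smul, ← e1, smul_eq_mul, smul_eq_mul, mul_smul_comm, mul_comm h g]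
    exact (add_sub_cancel_right _ _).symm
  obtain ⟨n, n1, n2⟩ := comp (E.toLinearMap : End ℂ R) (W E N (D + 1) (a j))
    (fun n y hy => End.mem_eigenspace_iff.2 hy.1) (W_top hx (fun i => ⟨_, h4 i⟩) h)
    (End.mem_eigenspace_iff.2 e2) h0
  have n3 : m * a j = n + d := by exact_mod_cast sub_eq_iff_eq_add.1 n1
  have n4 := mul_zero' (p := 0) (y := g) hg n2.2
  rw [← e, zero_add] at n4
  refine (t (mono n4 (Nat.succ_le_of_lt ((Nat.div_lt_iff_lt_mul (ha j).1).2 ?_)))).elim
  rw [mul_right_comm, n3]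
  exact Nat.mul_lt_mul_of_pos_right (by omega) (Nat.succ_pos D)

end Pool.Agent.MP_51db15_ag.Qh

end

section
/-! PROJECT QH, row LTB: a valuation ring that is stable under two commuting derivations. -/

namespace Pool.Agent.MP_51db15_ag.Qh

namespace LTBx

/-- a stable prime between the values of `Y` and `Q` -/
theorem prime {B : Type} [CommRing B] [Algebra ℂ B] (D Y : Derivation ℂ B B) (Q : Ideal B)
    [Q.IsPrime] (hc : ∀ G, D (Y G) = Y (D G)) (hQ : ∀ G, Y G ∈ Q) :
    ∃ P : Ideal B, P.IsPrime ∧ P ≤ Q ∧ (∀ G, Y G ∈ P) ∧ ∀ G ∈ P, D G ∈ P := by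
  let _ : Algebra ℚ B := ((algebraMap ℂ B).comp (algebraMap ℚ ℂ)).toAlgebra
  obtain ⟨P, h1, h2⟩ := Ideal.exists_minimalPrimes_le
    (Ideal.span_le.2 (Set.range_subset_iff.2 hQ) : Ideal.span (Set.range Y) ≤ Q)
  refine ⟨P, h1.1.1, h2, fun G => h1.1.2 (Ideal.subset_span ⟨G, rfl⟩),
    Hy.minp B D.toLinearMap.toAddMonoidHom _ P (fun a b => D.leibniz a b) (fun a ha => ?_) h1⟩
  change D a ∈ _
  induction ha using Submodule.span_induction with
  | mem x h =>
    obtain ⟨G, rfl⟩ := h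
    exact Ideal.subset_span ⟨D G, (hc G).symm⟩
  | zero => simp
  | add x y _ _ h h' => rw [map_add]; exact add_mem h h'
  | smul a x hx h =>
    rw [smul_eq_mul, D.leibniz]
    exact add_mem (Ideal.mul_mem_left _ _ h) (Ideal.mul_mem_right _ _ hx)

end LTBx

theorem ltb : S_LTB := by
  intro B _ _ _ _ D₁ Y₁ Q hQ hc hY
  obtain ⟨P, hP, PQ, YP, DP⟩ := LTBx.prime D₁ Y₁ Q hc hY
  let φ := IsScalarTower.toAlgHom ℂ B (FractionRing B)
  have inj : Function.Injective φ := IsFractionRing.injective B _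
  have fr : ∀ z, ∃ a b, z = φ a / φ b := fun z =>
    let ⟨a, b, _, e⟩ := IsFractionRing.div_surjective (A := B) z; ⟨a, b, e.symm⟩
  have ex : ∀ w : Derivation ℂ B B, ∃ D : Derivation ℂ _ _, ∀ a, D (φ a) = φ (w a) := fun w =>
    Hy.lift B _ φ (φ.toLinearMap ∘ₗ w.toLinearMap) fr
      (fun a b => by simp) fun a ha => by simp [(map_eq_zero_iff φ inj).1 ha]
  obtain ⟨D, hD⟩ := ex D₁
  obtain ⟨Y, hY⟩ := ex Y₁
  have com : ∀ z, D (Y z) - Y (D z) = (0 : ℂ) • Y z := fun z => by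
    have e : ∀ a, ⁅D, Y⁆ (φ a) = 0 := fun a => by
      rw [Derivation.commutator_apply, hY, hD, hD, hY, hc, sub_self]
    obtain ⟨a, b, rfl⟩ := fr z
    rw [← Derivation.commutator_apply, Derivation.leibniz_div, e, e]
    simp
  have sj : Function.Surjective φ.rangeRestrict := φ.rangeRestrict_surjective
  have ker : RingHom.ker φ.rangeRestrict ≤ P := fun a ha =>
    (map_eq_zero_iff φ inj).1 (congrArg Subtype.val ha) ▸ P.zero_mem
  have mem : ∀ a, φ.rangeRestrict a ∈ P.map φ.rangeRestrict ↔ a ∈ P := fun a => by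
    rw [← Ideal.mem_comap, Ideal.comap_map_of_surjective _ sj, sup_eq_left.mpr]
    exact ker
  obtain ⟨V, V1, V2, V3, V4⟩ := Hy.zorn Hy.minp (Hy.step Hy.cone) _ φ.range Y D 0
    (P.map φ.rangeRestrict) (isNoetherianRing_of_surjective B _ φ.rangeRestrict.toRingHom sj)
    (fun z => let ⟨a, b, e⟩ := fr z; ⟨_, ⟨a, rfl⟩, _, ⟨b, rfl⟩, e⟩)
    (Ideal.map_isPrime_of_surjective sj ker) com
    (fun a => by
      obtain ⟨g, rfl⟩ := sj a
      exact ⟨φ.rangeRestrict (Y₁ g), (mem _).mpr (YP g), hY g⟩)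
    (by
      rintro _ ⟨g, rfl⟩
      exact ⟨D₁ g, (hD g).symm⟩)
    (fun a ha => by
      obtain ⟨g, rfl⟩ := sj a
      exact ⟨φ.rangeRestrict (D₁ g), (mem _).mpr (DP g ((mem g).mp ha)), hD g⟩)
  exact ⟨_, _, _, φ, V, Y, D, inj, fun G => V1 _ ⟨G, rfl⟩,
    fun G h => PQ ((mem G).1 ((V2 _).1 h)), V3, V4, hD, hY⟩

end Pool.Agent.MP_51db15_ag.Qh

end

section
/-! Row SEQ: a system of parameters adapted to a locally nilpotent field. -/

namespace Pool.Agent.MP_51db15_ag.Qh

namespace SEQx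

section Ring

variable {A : Type} [CommRing A]

/-- the ideal of the first `M` parameters -/
def J (f : ℕ → A) (M : ℕ) : Ideal A := Ideal.span (f '' {i | i < M})

theorem J_zero (f : ℕ → A) : J f 0 = ⊥ := by simp [J]

theorem J_succ (f : ℕ → A) (M : ℕ) : J f (M + 1) = J f M ⊔ Ideal.span {f M} := by
  have : {i | i < M + 1} = {i | i < M} ∪ {M} := by
    ext i
    simp only [Set.mem_ofPred_eq, Set.mem_union, Set.mem_singleton_iff]
    omega
  rw [J, this, Set.image_union, Ideal.span_union, Set.image_singleton, J]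

theorem J_congr {f g : ℕ → A} {M : ℕ} (h : ∀ i < M, f i = g i) : J f M = J g M := by
  have : f '' {i | i < M} = g '' {i | i < M} := Set.image_congr fun i hi => h i hi
  rw [J, J, this]

theorem rad_stable [Algebra ℚ A] {D : A →+ A} (hD : Leib D) {I : Ideal A}
    (hI : ∀ a ∈ I, D a ∈ I) : ∀ a ∈ I.radical, D a ∈ I.radical := by
  intro a ha
  rw [← Ideal.sInf_minimalPrimes, Ideal.mem_sInf] at ha ⊢
  intro Q hQ
  exact Hy.minp A D I Q hD hI hQ a (ha hQ)

theorem stable [Algebra ℚ A] {D : A →+ A} (hD : Leib D) (f : ℕ → A) (M : ℕ)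
    (h : ∀ j < M, D (f j) ∈ (J f j).radical ⊔ Ideal.span {f j}) :
    ∀ a ∈ (J f M).radical, D a ∈ (J f M).radical := by
  induction M with
  | zero =>
    refine rad_stable hD fun a ha => ?_
    rw [J_zero, Ideal.mem_bot] at ha
    simp [ha]
  | succ M ih =>
    have e : (J f (M + 1)).radical = ((J f M).radical ⊔ Ideal.span {f M}).radical := by
      rw [J_succ, Ideal.radical_sup (J f M).radical, Ideal.radical_idem, ← Ideal.radical_sup]
    rw [e]
    refine rad_stable hD fun a ha => ?_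
    obtain ⟨y, hy, z, hz, rfl⟩ := Submodule.mem_sup.1 ha
    obtain ⟨c, rfl⟩ := Ideal.mem_span_singleton'.1 hz
    rw [map_add, hD]
    refine add_mem (Ideal.mem_sup_left (ih (fun j hj => h j (by omega)) y hy)) (add_mem ?_ ?_)
    · exact Ideal.mul_mem_left _ _ (h M (by omega))
    · exact Ideal.mul_mem_right _ _ (Ideal.mem_sup_right (Ideal.mem_span_singleton_self _))

end Ring

variable {K : Type} [Field K] [Algebra ℂ K] {S : Subalgebra ℂ K}

/-- restriction of a regular field -/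
def res (D : DD K) (hD : D ∈ TT S) : S →+ S where
  toFun g := ⟨D g, hD g g.2⟩
  map_zero' := Subtype.ext (by simp)
  map_add' g h := Subtype.ext (by simp)

theorem res_leib (D : DD K) (hD : D ∈ TT S) : Leib (res D hD) := fun a b =>
  Subtype.ext (by simp [res])

theorem in_iff {D : DD K} (hD : D ∈ TT S) (I : Ideal S) (g : S) :
    In I (D g) ↔ res D hD g ∈ I := by
  refine ⟨?_, fun h => ⟨_, h, rfl⟩⟩
  rintro ⟨b, hb, e⟩
  have : res D hD g = b := Subtype.ext e
  rwa [this]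

/-- the state -/
def Good (E N : DD K) (M : ℕ) (f : ℕ → S) (d : ℕ → ℕ) : Prop :=
  ∀ j < M, (0 < d j ∧ E (f j) = (d j : ℂ) • (f j : K)) ∧ In (J f j).radical (N (f j)) ∧
    ∀ P ∈ (J f j).minimalPrimes, f j ∉ P

end SEQx

open SEQx in
theorem seq (s : S_STEP) : S_SEQ := by
  classical
  intro K ι _ _ _ S E x a C N hN hEN hx
  let _ : Algebra ℚ S := ((algebraMap ℂ S).comp (algebraMap ℚ ℂ)).toAlgebra
  have hE : E ∈ TT S := C.ev.tm
  have hno : IsNoetherian S S := C.bas.noeth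
  obtain ⟨_, ⟨M, f, d, hG, rfl⟩, hmax⟩ := set_has_maximal_iff_noetherian.2 hno
    {I : Ideal S | ∃ M f d, Good E N M f d ∧ I = (J f M).radical}
    ⟨_, 0, fun _ => 0, fun _ => 0, fun j hj => absurd hj (Nat.not_lt_zero j), rfl⟩
  refine ⟨M, f, d, fun j hj => (hG j hj).1, ?_, fun j hj => (hG j hj).2.1,
    fun j hj => (hG j hj).2.2⟩
  by_contra hcon
  have hres : ∀ j < M, res E hE (f j) = algebraMap ℂ S (d j) * f j := fun j hj =>
    Subtype.ext (by
      have := (hG j hj).1.2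
      simpa [res, Algebra.smul_def] using this)
  have hvx : J f M ≤ vx S x := by
    rw [J, Ideal.span_le]
    rintro _ ⟨j, hj, rfl⟩
    have h1 := (in_iff hE _ _).1 (C.vtx.pos (f j) (f j).2)
    rw [hres j hj] at h1
    have hu : IsUnit (algebraMap ℂ S (d j)) :=
      (isUnit_iff_ne_zero.2 (Nat.cast_ne_zero.2 (hG j hj).1.1.ne')).map _
    exact (Ideal.unit_mul_mem_iff_mem _ hu).1 h1
  have htop : (J f M).radical ≠ ⊤ := fun h =>
    C.vtx.max.ne_top (top_le_iff.1 (Ideal.radical_eq_top.1 h ▸ hvx))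
  have sE := stable (res_leib E hE) f M fun j hj => by
    rw [hres j hj]
    exact Ideal.mul_mem_left _ _ (Ideal.mem_sup_right (Ideal.mem_span_singleton_self _))
  have sN := stable (res_leib N hN) f M fun j hj =>
    Ideal.mem_sup_left ((in_iff hN _ _).1 (hG j hj).2.1)
  obtain ⟨g, e, he, hEg, hNg, hP⟩ := s K ι S E x a C N hN hEN hx (J f M).radical
    (Ideal.radical_isRadical _) htop (fun g hg => (in_iff hE _ _).2 (sE g hg))
    (fun g hg => (in_iff hN _ _).2 (sN g hg)) (not_forall.1 hcon)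
  have hJ : ∀ j ≤ M, J (Function.update f M g) j = J f j := fun j hj =>
    J_congr fun i hi => Function.update_of_ne (by omega) _ _
  refine hmax _ ⟨M + 1, Function.update f M g, Function.update d M e, fun j hj => ?_, rfl⟩ ?_
  · rw [hJ j (by omega)]
    by_cases h : j = M
    · subst h
      rw [Function.update_self, Function.update_self]
      exact ⟨⟨he, hEg⟩, hNg, fun P hP' => hP P (by rwa [Ideal.radical_minimalPrimes])⟩
    · rw [Function.update_of_ne h, Function.update_of_ne h]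
      exact hG j (by omega)
  · rw [J_succ, hJ M le_rfl, Function.update_self]
    refine lt_of_le_of_ne (Ideal.radical_mono le_sup_left) fun h => ?_
    obtain ⟨m, hm, hle⟩ := Ideal.exists_le_maximal _ htop
    obtain ⟨P, hP1, -⟩ := Ideal.exists_minimalPrimes_le (J := m) hle
    refine hP P hP1 (hP1.1.2 ?_)
    rw [h]
    exact Ideal.le_radical (Ideal.mem_sup_right (Ideal.mem_span_singleton_self _))

end Pool.Agent.MP_51db15_ag.Qh

end

section
/-! The slopes have positive real part. -/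

namespace Pool.Agent.MP_51db15_ag.Qh

open Module

noncomputable section

namespace SLPx

variable {K ι : Type} [Field K] [Algebra ℂ K] {S : Subalgebra ℂ K}

theorem gen {E : DD K} {p : End K (DD K)} (hp : p * p = p) (h : ∀ D ∈ TT S, p D ∈ TT S) (α : ℂ)
    (hα : α ∉ ({0, 1} : Set ℂ)) :
    ∃ b' : End K (DD K), (∀ D ∈ TT S, b' D ∈ TT S) ∧ b' (p E - α • E) = E := by
  have h0 : α ≠ 0 := fun e => hα (Or.inl e)
  have h1 : 1 - α ≠ 0 := fun e => hα (Or.inr (sub_eq_zero.1 e).symm)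
  refine ⟨(1 - α)⁻¹ • p + (-α)⁻¹ • (1 - p), fun D hD => ?_, ?_⟩
  · exact add_mem ((TC S).smul_mem _ (h D hD)) ((TC S).smul_mem _ (sub_mem hD (h D hD)))
  · have e : p (p E) = p E := congrArg (fun q : End K (DD K) => q E) hp
    simp only [LinearMap.add_apply, LinearMap.smul_apply, LinearMap.sub_apply, End.one_apply,
      map_sub, LinearMap.map_smul_of_tower, e]
    match_scalars
    · field_simp
      ring
    · field_simp

theorem inj {x : ι → K} (hB : Bas S x) (hv : vx S x ≠ ⊤) {η : FF K} (h : Perf S x η) :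
    Function.Injective η := by
  have := hB.fd
  obtain ⟨r, -, ⟨c, hc, hr⟩, h⟩ := h
  have r0 : r ≠ 0 := by
    rintro rfl
    have e : c = -1 := Subtype.ext (by rw [← hr]; simp)
    rw [e] at hc
    exact hv ((Ideal.eq_top_iff_one _).2 (by simpa using neg_mem hc))
  refine (LinearMap.injective_iff_surjective_of_finrank_eq_finrank
    Subspace.dual_finrank_eq.symm).2 fun γ => ?_
  obtain ⟨s, -, s0, hs⟩ := hB.denD γ
  obtain ⟨D, -, hD⟩ := h _ hs
  refine ⟨(r * s)⁻¹ • D, ?_⟩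
  rw [map_smul, hD, smul_smul, smul_smul, mul_assoc, inv_mul_cancel₀ (mul_ne_zero r0 s0), one_smul]

theorem lat (rt : S_RAT) {ι' : Type} [Fintype ι'] (μ : ι' → ℂ) (w : ℂ) (F' : Finset ℂ)
    (h1 : ∀ i, 0 ≤ (μ i).re ∧ (μ i).im = 0) (hw : w.re ≤ 0) :
    ∃ l : ℂ →+ ℂ, (∀ i, ∃ n : ℕ, l (μ i) = n ∧ (n = 0 → μ i = 0)) ∧ (∃ n : ℕ, l w = -n) ∧
      ∀ z ∈ F', ∃ n : ℤ, l z = n := by
  classical
  obtain ⟨l, l1, l2⟩ := rt ((insert (-w) (Finset.univ.image μ)).erase 0) F'
    (Complex.reAddGroupHom - w.im • Complex.imAddGroupHom) (by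
      intro z hz
      obtain ⟨z0, hz⟩ := Finset.mem_erase.1 hz
      show 0 < z.re - w.im * z.im
      rcases Finset.mem_insert.1 hz with rfl | hz
      · rw [Complex.neg_re, Complex.neg_im]
        by_contra hc
        have a1 := mul_self_nonneg w.im
        have a2 : w.re = 0 := by linarith
        have a3 : w.im = 0 := mul_self_eq_zero.1 (by linarith)
        exact z0 (by rw [show w = 0 from Complex.ext a2 a3, neg_zero])
      · obtain ⟨i, -, rfl⟩ := Finset.mem_image.1 hz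
        rw [(h1 i).2, mul_zero, sub_zero]
        exact lt_of_le_of_ne (h1 i).1 fun e => z0 (Complex.ext e.symm (h1 i).2))
  refine ⟨l, fun i => ?_, ?_, l2⟩
  · by_cases h : μ i = 0
    · exact ⟨0, by rw [h, map_zero, Nat.cast_zero], fun _ => h⟩
    · obtain ⟨n, hn, e⟩ := l1 (μ i) (Finset.mem_erase.2 ⟨h, Finset.mem_insert_of_mem
        (Finset.mem_image_of_mem _ (Finset.mem_univ i))⟩)
      exact ⟨n, e, fun h0 => absurd h0 hn.ne'⟩
  · by_cases h : w = 0
    · exact ⟨0, by rw [h, map_zero, Nat.cast_zero, neg_zero]⟩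
    · obtain ⟨n, -, e⟩ := l1 (-w)
        (Finset.mem_erase.2 ⟨neg_ne_zero.2 h, Finset.mem_insert_self _ _⟩)
      exact ⟨n, by rw [← e, map_neg, neg_neg]⟩

end SLPx

open SLPx

theorem slp (b : S_BAS) (ev : S_EV) (vt : S_VTX) (_ef : S_EVF) (j1 : S_JD1) (j2 : S_JD2)
    (ps : S_POS) (rt : S_RAT) (dc : S_DEC) (vl : S_VAL) (sc : S_SOC) : S_SLP := by
  intro K ι κ _ _ _ _ _ S E x a e y ω h k
  by_contra hk
  have a0 := h.idm.a0 k
  have hY : e k E ∈ TT S := a0.1 E h.cone.ev.tm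
  have hc : ⁅E, e k E⁆ = 0 := by rw [a0.2, lie_self, map_zero]
  have hp : e k * e k = e k := by rw [h.idm.orth, if_pos rfl]
  obtain ⟨ι', _, x', a', μ, cx', pos', hvx, hx'⟩ := j1 K ι S E x a h.cone _ hY hc
  have bas' := b K ι' S E x' a' cx'
  have cone' : Cone S E x' a' :=
    ⟨cx', pos', bas', h.cone.ev, vt K ι' S E x' a' cx' pos' bas' h.cone.ev, h.cone.evf⟩
  have hps := ps K ι' S E x' a' cone' (fun P hP hle => h.ltp P hP (hvx ▸ hle)) (e k) {0, 1} μ a0
    (gen hp a0.1) hx'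
  have hμ : ∀ i, 0 ≤ (μ i).re ∧ (μ i).im = 0 := fun i => by
    have g1 := hps (-Complex.reAddGroupHom) 0 (by rintro _ (rfl | rfl) <;> simp) i
    have g2 := hps Complex.imAddGroupHom 0 (by rintro _ (rfl | rfl) <;> simp) i
    have g3 := hps (-Complex.imAddGroupHom) 0 (by rintro _ (rfl | rfl) <;> simp) i
    rw [mul_zero] at g1 g2 g3
    exact ⟨neg_nonpos.1 g1, le_antisymm g2 (neg_nonpos.1 g3)⟩
  obtain ⟨F', hF'⟩ := dc K ι κ S E x a e y ω (Pi.single k 1) h
  obtain ⟨l, l1, ⟨n0, l2⟩, l3⟩ := lat rt μ (y k) F' hμ (not_lt.1 hk)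
  choose n hn hn0 using l1
  obtain ⟨t, jor⟩ := j2 K ι S E x a h.cone _ hY hc l
  have cxt : Cx S t x' n :=
    ⟨cx'.gen, cx'.frac, fun i => by rw [jor.2 _ (bas'.mem i) _ (hx' i).2, hn i]⟩
  have evt := ev K ι' S t x' n cxt bas'
  have es : ∑ j, (Pi.single k 1 : κ → ℂ) j • e j = e k := by
    simp [Pi.single_apply, ite_smul]
  obtain ⟨F, η, hω, hz, hη⟩ := hF' l l3 ι' t x' n (by rw [es]; exact jor) cxt bas' evt
  have hv := fun m => vl K ι' S t x' n cxt bas' evt (η m) (hη m).1 m (hη m).2.2.2.1 (hη m).2.2.1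
  have hl : ∀ j, ∃ m : ℕ, l ((Pi.single k 1 : κ → ℂ) j * y j) = -m := fun j => by
    by_cases hj : j = k
    · exact ⟨n0, by rw [hj, Pi.single_eq_same, one_mul, l2]⟩
    · exact ⟨0, by rw [Pi.single_eq_of_ne hj, zero_mul, map_zero, Nat.cast_zero, neg_zero]⟩
  have hsm : ∀ m, m ≠ 0 → η m ∈ Submodule.span ℂ {ζ | Sm S E e ζ} := fun m hm => by
    rcases lt_or_gt_of_ne hm with h1 | h1
    · rw [(hv m).1 h1]
      exact zero_mem _
    · refine (hη m).2.2.2.2 fun k1 k2 e1 => ?_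
      obtain ⟨m1, h2⟩ := hl k1
      obtain ⟨m2, h3⟩ := hl k2
      rw [map_add, h2, h3] at e1
      have e2 : -(m1 : ℤ) + -(m2 : ℤ) = m := by exact_mod_cast e1
      omega
  have e0 : ω - η 0 = ∑ m ∈ F.erase 0, η m := by
    by_cases h0 : 0 ∈ F
    · rw [hω, ← Finset.sum_erase_add F η h0]
      exact add_sub_cancel_right (G := FF K) _ _
    · rw [hz 0 h0, Finset.erase_eq_of_notMem h0, ← hω]
      exact sub_zero (G := FF K) ω
  have hpf := h.perf (η 0)
    (by rw [e0]; exact sum_mem fun m hm => hsm m (Finset.ne_of_mem_erase hm))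
  have t0 : t = 0 := inj h.cone.bas h.cone.vtx.max.ne_top hpf (by rw [(hv 0).2 rfl, map_zero])
  have hμ0 : ∀ i, μ i = 0 := fun i => hn0 i (by
    have h1 := cxt.eig i
    rw [t0, Derivation.zero_apply] at h1
    exact_mod_cast (smul_eq_zero.1 h1.symm).resolve_right (hx' i).1)
  have htr := sc K ι' S E x' a' cone' h.nrm (e k) a0 fun i => hμ0 i ▸ (hx' i).2
  have := bas'.fd
  have : CharZero K := charZero_of_injective_algebraMap (algebraMap ℂ K).injective
  exact h.idm.ne k (LinearMap.IsIdempotentElem.eq_zero_of_trace_eq_zero hp htr)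

end

end Pool.Agent.MP_51db15_ag.Qh

end

section
/-! The slopes have positive real part, for forms regular along discrete valuations. -/

namespace Pool.Agent.MP_51db15_ag.Qh

open Module

noncomputable section

open SLPx

theorem slp2 (b : S_BAS) (ev : S_EV) (vt : S_VTX) (_ef : S_EVF) (j1 : S_JD1) (j2 : S_JD2)
    (ps : S_POS) (rt : S_RAT) (dc : S_DEC2) (vl : S_VAL2) (sc : S_SOC) :
    S_SLP2 := by
  intro K ι κ _ _ _ _ _ S E x a e y ω h k
  by_contra hk
  have a0 := h.idm.a0 k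
  have hY : e k E ∈ TT S := a0.1 E h.cone.ev.tm
  have hc : ⁅E, e k E⁆ = 0 := by rw [a0.2, lie_self, map_zero]
  have hp : e k * e k = e k := by rw [h.idm.orth, if_pos rfl]
  obtain ⟨ι', _, x', a', μ, cx', pos', hvx, hx'⟩ := j1 K ι S E x a h.cone _ hY hc
  have bas' := b K ι' S E x' a' cx'
  have cone' : Cone S E x' a' :=
    ⟨cx', pos', bas', h.cone.ev, vt K ι' S E x' a' cx' pos' bas' h.cone.ev, h.cone.evf⟩
  have hps := ps K ι' S E x' a' cone' (fun P hP hle => h.ltp P hP (hvx ▸ hle)) (e k) {0, 1} μ a0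
    (gen hp a0.1) hx'
  have hμ : ∀ i, 0 ≤ (μ i).re ∧ (μ i).im = 0 := fun i => by
    have g1 := hps (-Complex.reAddGroupHom) 0 (by rintro _ (rfl | rfl) <;> simp) i
    have g2 := hps Complex.imAddGroupHom 0 (by rintro _ (rfl | rfl) <;> simp) i
    have g3 := hps (-Complex.imAddGroupHom) 0 (by rintro _ (rfl | rfl) <;> simp) i
    rw [mul_zero] at g1 g2 g3
    exact ⟨neg_nonpos.1 g1, le_antisymm g2 (neg_nonpos.1 g3)⟩
  obtain ⟨F', hF'⟩ := dc K ι κ S E x a e y ω (Pi.single k 1) h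
  obtain ⟨l, l1, ⟨n0, l2⟩, l3⟩ := lat rt μ (y k) F' hμ (not_lt.1 hk)
  choose n hn hn0 using l1
  obtain ⟨t, jor⟩ := j2 K ι S E x a h.cone _ hY hc l
  have cxt : Cx S t x' n :=
    ⟨cx'.gen, cx'.frac, fun i => by rw [jor.2 _ (bas'.mem i) _ (hx' i).2, hn i]⟩
  have evt := ev K ι' S t x' n cxt bas'
  have es : ∑ j, (Pi.single k 1 : κ → ℂ) j • e j = e k := by
    simp [Pi.single_apply, ite_smul]
  obtain ⟨F, η, hω, hz, hη⟩ := hF' l l3 ι' t x' n (by rw [es]; exact jor) cxt bas' evt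
  have hv := fun m => vl K ι' S t x' n cxt bas' evt (η m) (hη m).1 m (hη m).2.2.2.1 (hη m).2.2.1
  have hl : ∀ j, ∃ m : ℕ, l ((Pi.single k 1 : κ → ℂ) j * y j) = -m := fun j => by
    by_cases hj : j = k
    · exact ⟨n0, by rw [hj, Pi.single_eq_same, one_mul, l2]⟩
    · exact ⟨0, by rw [Pi.single_eq_of_ne hj, zero_mul, map_zero, Nat.cast_zero, neg_zero]⟩
  have hsm : ∀ m, m ≠ 0 → η m ∈ Submodule.span ℂ {ζ | Sm S E e ζ} := fun m hm => by
    rcases lt_or_gt_of_ne hm with h1 | h1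
    · rw [(hv m).1 h1]
      exact zero_mem _
    · refine (hη m).2.2.2.2 fun k1 k2 e1 => ?_
      obtain ⟨m1, h2⟩ := hl k1
      obtain ⟨m2, h3⟩ := hl k2
      rw [map_add, h2, h3] at e1
      have e2 : -(m1 : ℤ) + -(m2 : ℤ) = m := by exact_mod_cast e1
      omega
  have e0 : ω - η 0 = ∑ m ∈ F.erase 0, η m := by
    by_cases h0 : 0 ∈ F
    · rw [hω, ← Finset.sum_erase_add F η h0]
      exact add_sub_cancel_right (G := FF K) _ _
    · rw [hz 0 h0, Finset.erase_eq_of_notMem h0, ← hω]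
      exact sub_zero (G := FF K) ω
  have hpf := h.perf (η 0)
    (by rw [e0]; exact sum_mem fun m hm => hsm m (Finset.ne_of_mem_erase hm))
  have t0 : t = 0 := inj h.cone.bas h.cone.vtx.max.ne_top hpf (by rw [(hv 0).2 rfl, map_zero])
  have hμ0 : ∀ i, μ i = 0 := fun i => hn0 i (by
    have h1 := cxt.eig i
    rw [t0, Derivation.zero_apply] at h1
    exact_mod_cast (smul_eq_zero.1 h1.symm).resolve_right (hx' i).1)
  have htr := sc K ι' S E x' a' cone' h.nrm (e k) a0 fun i => hμ0 i ▸ (hx' i).2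
  have := bas'.fd
  have : CharZero K := charZero_of_injective_algebraMap (algebraMap ℂ K).injective
  exact h.idm.ne k (LinearMap.IsIdempotentElem.eq_zero_of_trace_eq_zero hp htr)

end

end Pool.Agent.MP_51db15_ag.Qh

end

section
/-! Row VAL: the valuation of a grading. -/

namespace Pool.Agent.MP_51db15_ag.Qh

open Module WithZero

namespace VALx

variable {K : Type} [Field K] [Algebra ℂ K] {S : Subalgebra ℂ K} {t : DD K}

theorem indS (ev : Ev S t) (P : S → Prop) (h0 : P 0) (ha : ∀ g h, P g → P h → P (g + h))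
    (he : ∀ (g : S) (m : ℤ), t g = (m : ℂ) • (g : K) → P g) (g : S) : P g := by
  have := Submodule.iSup_induction _ (motive := fun u => ∃ h : u ∈ S, P ⟨u, h⟩) (ev.s g g.2)
    (fun m u hu => ⟨hu.1, he ⟨u, hu.1⟩ m (End.mem_eigenspace_iff.1 hu.2)⟩) ⟨zero_mem _, h0⟩
    fun u u' ⟨h, k⟩ ⟨h', k'⟩ => ⟨add_mem h h', ha _ _ k k'⟩
  exact this.2

/-- the valuation and the homogeneous components -/
structure Pk (S : Subalgebra ℂ K) (t : DD K) (v : Valuation K ℤᵐ⁰) (cf : ℤ → S →+ K) : Prop where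
  one : ∀ g : S, v g ≤ 1
  le : ∀ (g : S) (j : ℤ), v g ≤ exp (-j) ↔ ∀ n < j, cf n g = 0
  eig : ∀ (g : S) (m : ℤ), t g = (m : ℂ) • (g : K) → ∀ n, cf n g = if n = m then (g : K) else 0

theorem pack (ev : Ev S t) (frac : ∀ y : K, ∃ g ∈ S, ∃ h ∈ S, h ≠ 0 ∧ y = g / h)
    (μ : S →ₐ[ℂ] Polynomial K) (hμ : ∀ (g : S) (n : ℕ), t g = (n : ℂ) • (g : K) →
      μ g = Polynomial.monomial n (g : K)) : ∃ v cf, Pk S t v cf := by
  have nat : ∀ (g : S) (m : ℤ), t g = (m : ℂ) • (g : K) → g ≠ 0 →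
      ∃ n : ℕ, m = n ∧ μ g = Polynomial.monomial n (g : K) := fun g m h h0 => by
    obtain ⟨n, hn⟩ := ev.nat g g.2 m (fun k => h0 (Subtype.ext k)) h
    exact ⟨n, by exact_mod_cast hn, hμ g n (hn ▸ h)⟩
  have e1 : ∀ g : S, (μ g).eval 1 = g := by
    refine indS ev _ (by simp) (fun g h a b => by simp [a, b]) fun g m h => ?_
    by_cases h0 : g = 0
    · simp [h0]
    · obtain ⟨n, -, hn⟩ := nat g m h h0
      simp [hn]
  have inj : Function.Injective ((algebraMap (Polynomial K) (RatFunc K)).comp (μ : S →+* _)) :=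
    (RatFunc.algebraMap_injective K).comp fun g h k =>
      Subtype.ext (by rw [← e1 g, ← e1 h]; exact congrArg _ k)
  have : IsFractionRing S K := IsFractionRing.of_field S K fun y => by
    obtain ⟨g, hg, h, hh, -, e⟩ := frac y
    exact ⟨⟨g, hg⟩, ⟨h, hh⟩, e⟩
  let v : Valuation K ℤᵐ⁰ :=
    ((Polynomial.idealX K).valuation (RatFunc K)).comap (IsFractionRing.lift inj)
  have hv : ∀ g : S, v g = (Polynomial.idealX K).intValuation (μ g) := fun g => by
    rw [← IsDedekindDomain.HeightOneSpectrum.valuation_of_algebraMap (K := RatFunc K)]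
    exact congrArg ((Polynomial.idealX K).valuation (RatFunc K))
      (IsFractionRing.lift_algebraMap (K := K) inj g)
  have one : ∀ g : S, v g ≤ 1 := fun g =>
    hv g ▸ IsDedekindDomain.HeightOneSpectrum.intValuation_le_one _ _
  refine ⟨v, fun n =>
    { toFun := fun g => if 0 ≤ n then (μ g).coeff n.toNat else 0
      map_zero' := by simp
      map_add' := fun g h => by split_ifs <;> simp }, one, fun g j => ?_, fun g m h n => ?_⟩
  · rcases le_total j 0 with hj | hj
    · refine iff_of_true ((one g).trans ?_) fun n hn => if_neg (by omega)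
      rw [← exp_zero, exp_le_exp]
      omega
    · obtain ⟨j, rfl⟩ := Int.eq_ofNat_of_zero_le hj
      rw [hv, IsDedekindDomain.HeightOneSpectrum.intValuation_le_pow_iff_mem,
        Polynomial.idealX_span, Ideal.span_singleton_pow, Ideal.mem_span_singleton,
        Polynomial.X_pow_dvd_iff]
      refine ⟨fun h n hn => ?_, fun h d hd => ?_⟩
      · change (if 0 ≤ n then (μ g).coeff n.toNat else 0) = 0
        split_ifs
        · exact h _ (by omega)
        · rfl
      · simpa using h d (by omega)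
  · change (if 0 ≤ n then (μ g).coeff n.toNat else 0) = _
    by_cases h0 : g = 0
    · simp [h0]
    · obtain ⟨k, rfl, hk⟩ := nat g m h h0
      rw [hk, Polynomial.coeff_monomial]
      split_ifs <;> first | rfl | omega

variable {v : Valuation K ℤᵐ⁰} {cf : ℤ → S →+ K}

theorem up (ev : Ev S t) (pk : Pk S t v cf) {X : DD K} (hX : X ∈ TT S) {p : ℤ}
    (hp : ⁅t, X⁆ = (p : ℂ) • X) (g : S) (n : ℤ) : cf (n + p) ⟨X g, hX g g.2⟩ = X (cf n g) := by
  refine indS ev (fun g => cf (n + p) ⟨X g, hX g g.2⟩ = X (cf n g)) ?_ (fun g h a b => ?_)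
    (fun g m h => ?_) g
  · rw [map_zero, map_zero, ← map_zero (cf (n + p))]
    exact congrArg _ (Subtype.ext (map_zero X))
  · rw [map_add, map_add, ← a, ← b, ← map_add]
    exact congrArg _ (Subtype.ext (map_add X _ _))
  · have e : t (X g) = ((m + p : ℤ) : ℂ) • X g := by
      have := congrArg (fun D : DD K => D g) hp
      simp only [Derivation.commutator_apply, h, Derivation.map_smul, Derivation.smul_apply] at this
      rw [Int.cast_add, add_smul, ← this]
      abel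
    rw [pk.eig ⟨X g, hX g g.2⟩ (m + p) e, pk.eig g m h]
    by_cases k : n = m <;> simp [k]

theorem upv (ev : Ev S t) (pk : Pk S t v cf) {X : DD K} (hX : X ∈ TT S) {p : ℤ}
    (hp : ⁅t, X⁆ = (p : ℂ) • X) {g : K} (hg : g ∈ S) {k : ℤ} (h : v g ≤ exp (-k)) :
    v (X g) ≤ exp (-(k + p)) := by
  refine (pk.le ⟨X g, hX g hg⟩ _).2 fun n hn => ?_
  have := up ev pk hX hp ⟨g, hg⟩ (n - p)
  rw [sub_add_cancel, (pk.le ⟨g, hg⟩ k).1 h _ (by omega), map_zero] at this
  exact this

theorem upt (ev : Ev S t) (pk : Pk S t v cf) {g : K} (hg : g ∈ S) {k : ℤ} (h : v g ≤ exp (-k)) :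
    v (t g - k * g) ≤ exp (-(k + 1)) := by
  have e : ∀ n (g : S), t (cf n g) = n * cf n g := fun n => by
    refine indS ev _ (by simp) (fun g h a b => by simp [a, b, mul_add]) fun g m h => ?_
    rw [pk.eig g m h]
    split_ifs with k
    · rw [h, k, Algebra.smul_def, map_intCast]
    · simp
  refine (pk.le (⟨t g, ev.tm g hg⟩ - k • ⟨g, hg⟩) _).2 (fun n hn => ?_) |>.trans' (le_of_eq ?_)
  · have := up ev pk ev.tm (p := 0) (by simp) ⟨g, hg⟩ n
    rw [add_zero] at this
    rw [map_sub, map_zsmul, this, e, zsmul_eq_mul]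
    rcases eq_or_lt_of_le (show n ≤ k by omega) with rfl | hk
    · exact sub_self _
    · simp [(pk.le ⟨g, hg⟩ k).1 h n hk]
  · simp

theorem quot (D : DD K) {g h : K} {l c : ℤ} (hl : v h = exp (-l))
    (hn : v (h * D g - g * D h) ≤ exp (-(2 * l + c))) : v (D (g / h)) ≤ exp (-c) := by
  rw [Derivation.leibniz_div, smul_eq_mul, smul_eq_mul, smul_eq_mul, map_mul, map_pow, map_inv₀,
    hl, ← exp_neg, sq, ← exp_add]
  refine (mul_le_mul_right hn _).trans (le_of_eq ?_)
  rw [← exp_add]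
  congr 1
  ring

omit [Algebra ℂ K] in
theorem ords {g h : K} (hg : g ≠ 0) (hh : h ≠ 0) (hy : v (g / h) ≤ 1) :
    ∃ k l : ℤ, l ≤ k ∧ v g = exp (-k) ∧ v h = exp (-l) := by
  have a : v g = exp (- -log (v g)) := by rw [neg_neg, exp_log (by simpa using hg)]
  have b : v h = exp (- -log (v h)) := by rw [neg_neg, exp_log (by simpa using hh)]
  refine ⟨_, _, ?_, a, b⟩
  rw [map_div₀, a, b, ← exp_sub, ← exp_zero, exp_le_exp] at hy
  omega

omit [Algebra ℂ K] in
theorem mul_le {a b : K} {i j m : ℤ} (ha : v a ≤ exp (-i)) (hb : v b ≤ exp (-j)) (h : m ≤ i + j) :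
    v (a * b) ≤ exp (-m) := by
  rw [map_mul]
  refine (mul_le_mul' ha hb).trans ?_
  rw [← exp_add, exp_le_exp]
  omega

theorem fld (ev : Ev S t) (pk : Pk S t v cf)
    (frac : ∀ y : K, ∃ g ∈ S, ∃ h ∈ S, h ≠ 0 ∧ y = g / h) {X : DD K} (hX : X ∈ TT S) {p : ℤ}
    (hp : ⁅t, X⁆ = (p : ℂ) • X) (y : K) (hy : v y ≤ 1) : v (X y) ≤ exp (-p) := by
  obtain ⟨g, hg, h, hh, h0, rfl⟩ := frac y
  by_cases g0 : g = 0
  · simp [g0]
  obtain ⟨k, l, hkl, a, b⟩ := ords g0 h0 hy
  exact quot X b (v.map_sub_le (mul_le b.le (upv ev pk hX hp hg a.le) (by omega))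
    (mul_le a.le (upv ev pk hX hp hh b.le) (by omega)))

theorem fldt (ev : Ev S t) (pk : Pk S t v cf)
    (frac : ∀ y : K, ∃ g ∈ S, ∃ h ∈ S, h ≠ 0 ∧ y = g / h) (y : K) (hy : v y ≤ 1) :
    v (t y) ≤ exp (-1) := by
  obtain ⟨g, hg, h, hh, h0, rfl⟩ := frac y
  by_cases g0 : g = 0
  · simp [g0]
  obtain ⟨k, l, hkl, a, b⟩ := ords g0 h0 hy
  refine quot t b ?_
  rw [show h * t g - g * t h =
    h * (t g - k * g) - g * (t h - l * h) + ((k - l : ℤ) : K) * (g * h) by push_cast; ring]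
  refine v.map_add_le (v.map_sub_le (mul_le b.le (upt ev pk hg a.le) (by omega))
    (mul_le a.le (upt ev pk hh b.le) (by omega))) ?_
  rcases eq_or_lt_of_le hkl with rfl | hk
  · simp
  · exact mul_le (i := 0) (pk.one ⟨_, intCast_mem S _⟩) (mul_le a.le b.le le_rfl) (by omega)

theorem span (ev : Ev S t) (den : ∀ D : DD K, ∃ s ∈ S, s ≠ 0 ∧ s • D ∈ TT S) {M : Type}
    [AddCommGroup M] [Module K M] (f : DD K →ₗ[K] M)
    (h : ∀ X ∈ TT S, ∀ p : ℤ, ⁅t, X⁆ = (p : ℂ) • X → f X = 0) : f = 0 := by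
  refine LinearMap.ext fun D => ?_
  obtain ⟨s, -, s0, hs⟩ := den D
  have : f (s • D) = 0 := Submodule.iSup_induction _ (motive := fun u => f u = 0) (ev.T _ hs)
    (fun p X hX => h X hX.1 p (End.mem_eigenspace_iff.1 hX.2)) (map_zero f)
    fun u u' a b => by rw [map_add, a, b, add_zero]
  rw [map_smul] at this
  exact (smul_eq_zero.1 this).resolve_left s0

theorem key (pk : Pk S t v cf) {η : FF K} (hη : η ∈ RF S) {n : ℤ} (hn : lf t η = (n : ℂ) • η)
    (hk : Kae S η) {X Y : DD K} (hX : X ∈ TT S) (hY : Y ∈ TT S) {p q i j : ℤ}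
    (hp : ⁅t, X⁆ = (p : ℂ) • X) (hq : ⁅t, Y⁆ = (q : ℂ) • Y)
    (hi : ∀ y, v y ≤ 1 → v (X y) ≤ exp (-i)) (hj : ∀ y, v y ≤ 1 → v (Y y) ≤ exp (-j))
    (h : n + p + q < i + j) : η X Y = 0 := by
  have e : t (η X Y) = ((n + p + q : ℤ) : ℂ) • η X Y := by
    have := lf_apply t η X Y
    rw [hn, hp, hq, lin_c, lin_c] at this
    simp only [LinearMap.smul_apply] at this
    push_cast
    rw [add_smul, add_smul, this]
    abel
  obtain ⟨m, c, y, z, h1, h2⟩ := hk v.valuationSubring fun g hg => pk.one ⟨g, hg⟩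
  have b : v (η X Y) ≤ exp (-(i + j)) := by
    rw [h2]
    refine v.map_sum_le fun s _ => ?_
    obtain ⟨a1, a2, a3⟩ := h1 s
    exact mul_le (i := 0) a1 (v.map_sub_le (mul_le (hi _ a2) (hj _ a3) le_rfl)
      (mul_le (hi _ a3) (hj _ a2) le_rfl)) (by omega)
  have := (pk.le ⟨_, hη X hX Y hY⟩ _).1 b _ h
  rwa [pk.eig ⟨_, hη X hX Y hY⟩ _ e, if_pos rfl] at this

end VALx

open VALx in
theorem val (_g : GenK) (s : S_SCA) : S_VAL := by
  intro K ι _ _ _ S t x a cx bas ev η hη n hn hk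
  obtain ⟨μ, hμ⟩ := s K ι S t x a cx bas ev
  obtain ⟨v, cf, pk⟩ := pack ev cx.frac μ hμ
  refine ⟨fun h => span ev bas.den η fun X hX p hp => span ev bas.den _ fun Y hY q hq => ?_,
    fun h => span ev bas.den _ fun Y hY q hq => ?_⟩
  · exact VALx.key pk hη hn hk hX hY hp hq (fld ev pk cx.frac hX hp) (fld ev pk cx.frac hY hq)
      (by omega)
  · exact VALx.key pk hη hn hk ev.tm hY (p := 0) (by simp) hq (fldt ev pk cx.frac)
      (fld ev pk cx.frac hY hq) (by omega)

end Pool.Agent.MP_51db15_ag.Qh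

end

section
/-! Row VAL2: the valuation of a grading, for forms regular along discrete valuations. -/

namespace Pool.Agent.MP_51db15_ag.Qh

open Module WithZero

namespace VAL2x

open VALx

variable {K : Type} [Field K]

theorem vexp (v : Valuation K ℤᵐ⁰) {y : K} (hy : y ≠ 0) : v y = exp (log (v y)) :=
  (exp_log (by simpa using hy)).symm

theorem mkdv (v : Valuation K ℤᵐ⁰) (h : ∃ y, y ≠ 0 ∧ v y ≠ 1) :
    ∃ d : DV K, ∀ z, d.Ge 0 z ↔ v z ≤ 1 := by
  have n0 : ∀ {y : K}, y ≠ 0 → v y ≠ 0 := fun hy => by simpa using hy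
  have om : ∀ x y : K, x ≠ 0 → y ≠ 0 → -log (v (x * y)) = -log (v x) + -log (v y) :=
    fun x y hx hy => by rw [map_mul, log_mul (n0 hx) (n0 hy)]; ring
  obtain ⟨e, ⟨e0, π, π0, hπ⟩, hmin⟩ := Int.exists_least_of_bdd
    (P := fun k => 0 < k ∧ ∃ y : K, y ≠ 0 ∧ -log (v y) = k) ⟨0, fun z hz => hz.1.le⟩ (by
      obtain ⟨y, y0, hy⟩ := h
      have k : log (v y) ≠ 0 := fun k => hy (by rw [vexp v y0, k, exp_zero])
      rcases lt_or_gt_of_ne k with k | k
      · exact ⟨_, by omega, y, y0, rfl⟩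
      · exact ⟨log (v y), k, y⁻¹, inv_ne_zero y0, by rw [map_inv₀, log_inv, neg_neg]⟩)
  have dv : ∀ y : K, y ≠ 0 → e * (-log (v y) / e) = -log (v y) := fun y y0 => by
    have z0 := zpow_ne_zero (-(-log (v y) / e)) π0
    have a := om y _ y0 z0
    rw [map_zpow₀, log_zpow, smul_eq_mul, show log (v π) = -e by omega] at a
    have b := Int.mul_ediv_add_emod (-log (v y)) e
    have c := Int.emod_nonneg (-log (v y)) e0.ne'
    have d := Int.emod_lt_of_pos (-log (v y)) e0
    by_contra k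
    have := hmin (-log (v y) % e) ⟨by omega, _, mul_ne_zero y0 z0, by rw [a]; linarith⟩
    omega
  refine ⟨⟨fun y => -log (v y) / e, fun x y hx hy => ?_, fun x y hx hy hs => ?_, π, π0, ?_⟩,
    fun z => ?_⟩
  · refine mul_left_cancel₀ e0.ne' ?_
    rw [mul_add, dv _ (mul_ne_zero hx hy), dv x hx, dv y hy, om x y hx hy]
  · rcases le_max_iff.1 (v.map_add x y) with k | k
    · rw [vexp v hs, vexp v hx, exp_le_exp] at k
      exact (min_le_left _ _).trans (Int.ediv_le_ediv e0 (by omega))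
    · rw [vexp v hs, vexp v hy, exp_le_exp] at k
      exact (min_le_right _ _).trans (Int.ediv_le_ediv e0 (by omega))
  · show -log (v π) / e = 1
    rw [hπ, Int.ediv_self e0.ne']
  · by_cases z0 : z = 0
    · simp [z0, DV.Ge]
    · rw [DV.ge_iff z0]
      show 0 ≤ -log (v z) / e ↔ _
      rw [Int.le_ediv_iff_mul_le e0, zero_mul]
      conv_rhs => rw [vexp v z0, ← exp_zero, exp_le_exp]
      omega

variable [Algebra ℂ K] {S : Subalgebra ℂ K} {t : DD K} {v : Valuation K ℤᵐ⁰} {cf : ℤ → S →+ K}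

theorem nrm (one : ∀ g : S, v g ≤ 1) (frac : ∀ y : K, ∃ g ∈ S, ∃ h ∈ S, h ≠ 0 ∧ y = g / h)
    {X : DD K} {i : ℤ} (hi : ∀ y, v y ≤ 1 → v (X y) ≤ exp (-i)) :
    X = 0 ∨ ∃ u : K, u ≠ 0 ∧ v u ≤ exp (-i) ∧ ∀ y, v y ≤ 1 → v ((u⁻¹ • X) y) ≤ 1 := by
  by_cases h : ∃ y, v y ≤ 1 ∧ X y ≠ 0
  · right
    obtain ⟨m, ⟨y, hy, y0, hm⟩, hmax⟩ := Int.exists_greatest_of_bdd
      (P := fun k => ∃ y, v y ≤ 1 ∧ X y ≠ 0 ∧ log (v (X y)) = k)
      ⟨-i, by
        rintro z ⟨y, hy, y0, rfl⟩
        have := hi y hy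
        rwa [vexp v y0, exp_le_exp] at this⟩
      (by obtain ⟨y, hy, y0⟩ := h; exact ⟨_, y, hy, y0, rfl⟩)
    refine ⟨X y, y0, hi y hy, fun z hz => ?_⟩
    rw [Derivation.smul_apply, smul_eq_mul]
    by_cases z0 : X z = 0
    · simp [z0]
    · have := hmax _ ⟨z, hz, z0, rfl⟩
      rw [map_mul, map_inv₀, vexp v y0, vexp v z0, ← exp_neg, ← exp_add, ← exp_zero, exp_le_exp]
      omega
  · left
    have k : ∀ g ∈ S, X g = 0 := fun g hg => by
      by_contra c
      exact h ⟨g, one ⟨g, hg⟩, c⟩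
    ext y
    obtain ⟨g, hg, l, hl, -, rfl⟩ := frac y
    simp [Derivation.leibniz_div, k g hg, k l hl]

theorem key (pk : Pk S t v cf) (frac : ∀ y : K, ∃ g ∈ S, ∃ h ∈ S, h ≠ 0 ∧ y = g / h) {d : DV K}
    (hd : ∀ z, d.Ge 0 z ↔ v z ≤ 1) {η : FF K} (hη : η ∈ RF S) {n : ℤ}
    (hn : lf t η = (n : ℂ) • η) (hk : Rdv S η) {X Y : DD K} (hX : X ∈ TT S) (hY : Y ∈ TT S)
    {p q i j : ℤ} (hp : ⁅t, X⁆ = (p : ℂ) • X) (hq : ⁅t, Y⁆ = (q : ℂ) • Y)
    (hi : ∀ y, v y ≤ 1 → v (X y) ≤ exp (-i)) (hj : ∀ y, v y ≤ 1 → v (Y y) ≤ exp (-j))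
    (h : n + p + q < i + j) : η X Y = 0 := by
  have e : t (η X Y) = ((n + p + q : ℤ) : ℂ) • η X Y := by
    have := lf_apply t η X Y
    rw [hn, hp, hq, lin_c, lin_c] at this
    simp only [LinearMap.smul_apply] at this
    push_cast
    rw [add_smul, add_smul, this]
    abel
  rcases nrm pk.one frac hi with rfl | ⟨u, u0, hu, hu'⟩
  · simp
  rcases nrm pk.one frac hj with rfl | ⟨w, w0, hw, hw'⟩
  · simp
  have r := (hd _).1 (hk d (u⁻¹ • X) (w⁻¹ • Y) (fun z hz => (hd z).2 (pk.one ⟨z, hz⟩))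
    (fun z hz => (hd _).2 (hu' z ((hd z).1 hz))) fun z hz => (hd _).2 (hw' z ((hd z).1 hz)))
  have b : v (η X Y) ≤ exp (-(i + j)) := by
    rw [show η X Y = u * w * η (u⁻¹ • X) (w⁻¹ • Y) by
      simp only [map_smul, LinearMap.smul_apply, smul_eq_mul]; field_simp]
    exact mul_le (j := 0) (mul_le hu hw le_rfl) (by simpa using r) (by omega)
  have := (pk.le ⟨_, hη X hX Y hY⟩ _).1 b _ h
  rwa [pk.eig ⟨_, hη X hX Y hY⟩ _ e, if_pos rfl] at this

end VAL2x

open VALx in
theorem val2 (s : S_SCA) : S_VAL2 := by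
  intro K ι _ _ _ S t x a cx bas ev η hη n hn hk
  obtain ⟨μ, hμ⟩ := s K ι S t x a cx bas ev
  obtain ⟨v, cf, pk⟩ := pack ev cx.frac μ hμ
  by_cases hv : ∃ y, y ≠ 0 ∧ v y ≠ 1
  · obtain ⟨d, hd⟩ := VAL2x.mkdv v hv
    refine ⟨fun h => span ev bas.den η fun X hX p hp => span ev bas.den _ fun Y hY q hq => ?_,
      fun h => span ev bas.den _ fun Y hY q hq => ?_⟩
    · exact VAL2x.key pk cx.frac hd hη hn hk hX hY hp hq (fld ev pk cx.frac hX hp)
        (fld ev pk cx.frac hY hq) (by omega)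
    · exact VAL2x.key pk cx.frac hd hη hn hk ev.tm hY (p := 0) (by simp) hq (fldt ev pk cx.frac)
        (fld ev pk cx.frac hY hq) (by omega)
  · have one : ∀ y : K, y ≠ 0 → v y = 1 := fun y hy => by
      by_contra c
      exact hv ⟨y, hy, c⟩
    have t0 : t = 0 := by
      ext y
      by_contra c
      have le : v y ≤ 1 := by
        by_cases y0 : y = 0
        · simp [y0]
        · exact (one y y0).le
      have := fldt ev pk cx.frac y le
      rw [one _ c, ← exp_zero, exp_le_exp] at this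
      omega
    subst t0
    refine ⟨fun h => ?_, fun _ => map_zero η⟩
    have z : lf (0 : DD K) η = 0 := by
      ext X Y
      simp [lf_apply]
    rw [z] at hn
    exact (smul_eq_zero.1 hn.symm).resolve_left (by exact_mod_cast h.ne)

end Pool.Agent.MP_51db15_ag.Qh

end

section
/-! The vertex of a cone. -/

namespace Pool.Agent.MP_51db15_ag.Qh

open Module

namespace VTXx

variable {K : Type} [Field K] [Algebra ℂ K] {ι : Type}

theorem eig_mul (t : DD K) {u v : K} {α β : ℂ} (hu : t u = α • u) (hv : t v = β • v) :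
    t (u * v) = (α + β) • (u * v) := by
  rw [Derivation.leibniz, hu, hv, add_smul]
  simp only [smul_eq_mul, mul_smul_comm]
  rw [mul_comm v u, add_comm]

theorem eig_pow (t : DD K) {u : K} {α : ℂ} (hu : t u = α • u) (n : ℕ) :
    t (u ^ n) = ((n : ℂ) * α) • u ^ n := by
  induction n with
  | zero => simp
  | succ n ih =>
    rw [pow_succ, eig_mul t ih hu]
    congr 1
    push_cast
    ring

theorem eig_prod (t : DD K) (x : ι → K) (a : ι → ℕ) (h : ∀ i, t (x i) = (a i : ℂ) • x i)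
    (f : ι → ℕ) (s : Finset ι) :
    t (∏ i ∈ s, x i ^ f i) = ((∑ i ∈ s, f i * a i : ℕ) : ℂ) • ∏ i ∈ s, x i ^ f i := by
  classical
  induction s using Finset.induction_on with
  | empty => simp
  | insert i s hi ih =>
    rw [Finset.prod_insert hi, Finset.sum_insert hi, eig_mul t (eig_pow t (h i) (f i)) ih]
    congr 1
    push_cast
    ring

theorem mem_span [Fintype ι] (x : ι → K) {g : K} (hg : g ∈ Algebra.adjoin ℂ (Set.range x)) :
    g ∈ Submodule.span ℂ (Set.range fun f : ι → ℕ => ∏ i, x i ^ f i) := by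
  have h1 : g ∈ Subalgebra.toSubmodule (Algebra.adjoin ℂ (Set.range x)) := hg
  rw [Algebra.adjoin_eq_span] at h1
  refine Submodule.span_mono (fun y hy => ?_) h1
  obtain ⟨f, hf⟩ := Submonoid.mem_closure_range_iff_of_fintype.1 hy
  exact ⟨f, hf.symm⟩

/-- an ideal as a complex subspace of the field -/
def sub {S : Subalgebra ℂ K} (P : Ideal S) : Submodule ℂ K where
  carrier := {y | In P y}
  add_mem' := by
    rintro _ _ ⟨b, hb, rfl⟩ ⟨c, hc, rfl⟩
    exact ⟨b + c, add_mem hb hc, rfl⟩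
  zero_mem' := ⟨0, zero_mem _, rfl⟩
  smul_mem' := by
    rintro c _ ⟨b, hb, rfl⟩
    exact ⟨algebraMap ℂ S c * b, P.mul_mem_left _ hb, by simp [Algebra.smul_def]⟩

theorem mul_in {S : Subalgebra ℂ K} {P : Ideal S} {s y : K} (hs : s ∈ S) (hy : y ∈ sub P) :
    s * y ∈ sub P := by
  obtain ⟨b, hb, rfl⟩ := hy
  exact ⟨⟨s, hs⟩ * b, P.mul_mem_left _ hb, rfl⟩

theorem mem_of_in {S : Subalgebra ℂ K} {P : Ideal S} {g : S} (h : (g : K) ∈ sub P) : g ∈ P := by
  obtain ⟨b, hb, e⟩ := h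
  rw [Subtype.ext e]
  exact hb

theorem top_of_cst {S : Subalgebra ℂ K} {P : Ideal S} {c : ℂ} (hc : c ≠ 0)
    (h : algebraMap ℂ K c ∈ sub P) : (1 : S) ∈ P := by
  refine mem_of_in ?_
  have h1 := (sub P).smul_mem c⁻¹ h
  rwa [Algebra.smul_def, ← map_mul, inv_mul_cancel₀ hc, map_one] at h1

theorem x_in {S : Subalgebra ℂ K} {x : ι → K} (h : ∀ i, x i ∈ S) (i : ι) :
    x i ∈ sub (vx S x) :=
  ⟨⟨x i, h i⟩, Ideal.subset_span ⟨i, rfl⟩, rfl⟩

theorem cst {S : Subalgebra ℂ K} {x : ι → K} (hS : Algebra.adjoin ℂ (Set.range x) = S)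
    (hx : ∀ i, x i ∈ S) {g : K} (hg : g ∈ S) :
    ∃ c : ℂ, g - algebraMap ℂ K c ∈ sub (vx S x) := by
  rw [← hS] at hg
  induction hg using Algebra.adjoin_induction with
  | mem y hy =>
    obtain ⟨i, rfl⟩ := hy
    exact ⟨0, by simpa using x_in hx i⟩
  | algebraMap c => exact ⟨c, by simp⟩
  | add y z _ _ h1 h2 =>
    obtain ⟨c, h1⟩ := h1
    obtain ⟨d, h2⟩ := h2
    refine ⟨c + d, ?_⟩
    have h3 := add_mem h1 h2
    rw [map_add]
    convert h3 using 1
    ring
  | mul y z _ hz h1 h2 =>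
    obtain ⟨c, h1⟩ := h1
    obtain ⟨d, h2⟩ := h2
    refine ⟨c * d, ?_⟩
    have h3 := add_mem (mul_in (hS ▸ hz) h1) (mul_in (S.algebraMap_mem c) h2)
    rw [map_mul]
    convert h3 using 1
    ring

theorem pos_sup [Fintype ι] {S : Subalgebra ℂ K} {t : DD K} {x : ι → K} {a : ι → ℕ}
    (C : Cx S t x a) (ha : ∀ i, 0 < a i) {y : K} (hy : y ∈ sub (vx S x)) :
    y ∈ ⨆ (c : ℂ) (_ : c ≠ 0), (op t).eigenspace c := by
  obtain ⟨b, hb, rfl⟩ := hy
  have key : ∀ s ∈ S, s * (b : K) ∈ ⨆ (c : ℂ) (_ : c ≠ 0), (op t).eigenspace c := by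
    induction hb using Submodule.span_induction with
    | mem b hb =>
      obtain ⟨i, hi⟩ := hb
      intro s hs
      rw [hi]
      have h1 := mem_span x (C.gen ▸ hs)
      clear hs
      induction h1 using Submodule.span_induction with
      | mem s hs =>
        obtain ⟨f, rfl⟩ := hs
        have h2 := eig_mul t (eig_prod t x a C.eig f Finset.univ) (C.eig i)
        refine Submodule.mem_iSup_of_mem _ (Submodule.mem_iSup_of_mem ?_
          (End.mem_eigenspace_iff.2 h2))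
        have h3 := ha i
        rw [← Nat.cast_add, Nat.cast_ne_zero]
        omega
      | zero => simp
      | add s s' _ _ h1 h2 =>
        rw [add_mul]
        exact add_mem h1 h2
      | smul c s _ h1 =>
        rw [smul_mul_assoc]
        exact Submodule.smul_mem _ c h1
    | zero => intro s _; simp
    | add b b' _ _ h1 h2 =>
      intro s hs
      rw [Subalgebra.coe_add, mul_add]
      exact add_mem (h1 s hs) (h2 s hs)
    | smul r b _ h1 =>
      intro s hs
      rw [smul_eq_mul, Subalgebra.coe_mul, ← mul_assoc]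
      exact h1 _ (mul_mem hs r.2)
  simpa using key 1 (one_mem S)

theorem zero_of (g : GenK) (δ : End ℂ K) (c : ℂ) {u : K} (h1 : δ u = c • u)
    (h2 : u ∈ ⨆ (c' : ℂ) (_ : c' ≠ c), δ.eigenspace c') : u = 0 :=
  (Submodule.mem_bot ℂ).1 (g.cmp K δ ⊥ c u (-u) (fun v hv => by
    rw [(Submodule.mem_bot ℂ).1 hv, map_zero]
    exact zero_mem _) h1 (neg_mem h2) (by simp))

theorem fin_wt [Fintype ι] {a : ι → ℕ} (ha : ∀ i, 0 < a i) (c : ℂ) :
    {f : ι → ℕ | ((∑ i, f i * a i : ℕ) : ℂ) = c}.Finite := by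
  refine (Set.Finite.pi' fun _ : ι => Set.finite_Iic ⌊c.re⌋₊).subset fun f hf i => ?_
  have h1 : ((∑ i, f i * a i : ℕ) : ℂ) = c := hf
  rw [← h1, Complex.natCast_re, Nat.floor_natCast]
  exact le_trans (Nat.le_mul_of_pos_right _ (ha i))
    (Finset.single_le_sum (f := fun i => f i * a i) (fun _ _ => Nat.zero_le _) (Finset.mem_univ i))

end VTXx

open VTXx

theorem vtx (g : GenK) : S_VTX := by
  intro K ι _ _ _ S t x a C ha B _
  have hc := fun (y : K) (hy : y ∈ S) => cst C.gen B.mem hy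
  have h0 : ∀ c : ℂ, op t (algebraMap ℂ K c) = (0 : ℂ) • algebraMap ℂ K c := fun c => by simp
  have one : (1 : S) ∉ vx S x := fun h =>
    one_ne_zero (zero_of g (op t) 0 (u := 1) (by simp) (pos_sup C ha ⟨1, h, rfl⟩))
  refine ⟨Ideal.isMaximal_iff.2 ⟨one, fun J y hJ hy hyJ => ?_⟩, hc, ?_, ?_, ?_, ?_⟩
  · obtain ⟨c, b, hb, e⟩ := hc y y.2
    have hc0 : c ≠ 0 := by
      rintro rfl
      exact hy (mem_of_in ⟨b, hb, by simpa using e⟩)
    refine top_of_cst hc0 ⟨y - b, sub_mem hyJ (hJ hb), ?_⟩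
    rw [Subalgebra.coe_sub, ← e]
    ring
  · refine B.ideal t (vx S x) fun i => ?_
    rw [C.eig i]
    exact (sub (vx S x)).smul_mem _ (x_in B.mem i)
  · intro y hy h
    obtain ⟨c, h1⟩ := hc y hy
    exact ⟨c, sub_eq_zero.1 (zero_of g (op t) 0 (by simp [h]) (pos_sup C ha h1))⟩
  · intro P hP hs y hy
    obtain ⟨c, h1⟩ := hc y y.2
    have h2 : algebraMap ℂ K c ∈ sub P := by
      refine g.cmp K (op t) (sub P) 0 _ _ ?_ (h0 c) (pos_sup C ha h1) ⟨y, hy, by ring⟩
      rintro _ ⟨b, hb, rfl⟩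
      exact hs b hb
    by_cases hc0 : c = 0
    · rw [hc0, map_zero, sub_zero] at h1
      exact mem_of_in h1
    · exact absurd ((Ideal.eq_top_iff_one P).2 (top_of_cst hc0 h2)) hP
  · intro c
    obtain ⟨H, hH⟩ : ∃ H, H = Submodule.span ℂ ((fun f : ι → ℕ => ∏ i, x i ^ f i) ''
      {f : ι → ℕ | ((∑ i, f i * a i : ℕ) : ℂ) = c}) := ⟨_, rfl⟩
    have fH : FiniteDimensional ℂ H := by
      rw [hH]
      exact FiniteDimensional.span_of_finite ℂ ((fin_wt ha c).image _)
    have eH : H ≤ (op t).eigenspace c := by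
      rw [hH, Submodule.span_le]
      rintro _ ⟨f, hf, rfl⟩
      have h1 : ((∑ i, f i * a i : ℕ) : ℂ) = c := hf
      exact End.mem_eigenspace_iff.2 (h1 ▸ eig_prod t x a C.eig f Finset.univ)
    refine Submodule.finiteDimensional_of_le (S₂ := H) fun y hy => ?_
    have h1 : y ∈ H ⊔ ⨆ (c' : ℂ) (_ : c' ≠ c), (op t).eigenspace c' := by
      refine Submodule.span_le.2 ?_ (mem_span x (C.gen ▸ hy.1))
      rintro _ ⟨f, rfl⟩
      by_cases hf : ((∑ i, f i * a i : ℕ) : ℂ) = c
      · exact Submodule.mem_sup_left (hH ▸ Submodule.subset_span ⟨f, hf, rfl⟩)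
      · exact Submodule.mem_sup_right (Submodule.mem_iSup_of_mem _ (Submodule.mem_iSup_of_mem hf
          (End.mem_eigenspace_iff.2 (eig_prod t x a C.eig f Finset.univ))))
    obtain ⟨h, hh, q, hq, e⟩ := Submodule.mem_sup.1 h1
    have h2 : q ∈ (op t).eigenspace c := by
      rw [eq_sub_of_add_eq' e]
      exact sub_mem hy.2 (eH hh)
    rw [← e, zero_of g (op t) c (End.mem_eigenspace_iff.1 h2) hq, add_zero]
    exact hh

end Pool.Agent.MP_51db15_ag.Qh

end
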