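import Pool.Agent.MP_51db15_ag.Qh.Spec3
import Pool.Agent.MP_51db15_ag.Hy.MINP

/-! Merged rows: CEN DEC DEC2 DVA DVX EIG EVF GEN HAM SIG HCLO HP1 MAIN3 RAD RAT SOC TNIL TRS. -/

section
namespace Pool.Agent.MP_51db15_ag.Qh

namespace CENx

open Classical in
theorem prime_span (M : ℕ) (T : Set (Fin M)) :
    (Ideal.span (MvPolynomial.X '' T) : Ideal (MvPolynomial (Fin M) ℂ)).IsPrime := by
  set P : Ideal (MvPolynomial (Fin M) ℂ) := Ideal.span (MvPolynomial.X '' T) with hP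
  let φ : MvPolynomial (Fin M) ℂ →ₐ[ℂ] MvPolynomial (Fin M) ℂ :=
    MvPolynomial.aeval fun i => if i ∈ T then 0 else MvPolynomial.X i
  have h1 : (Ideal.Quotient.mkₐ ℂ P).comp φ = Ideal.Quotient.mkₐ ℂ P := by
    refine MvPolynomial.algHom_ext fun i => ?_
    by_cases hi : i ∈ T
    · have : Ideal.Quotient.mk P (MvPolynomial.X i) = 0 :=
        Ideal.Quotient.eq_zero_iff_mem.2 (Ideal.subset_span ⟨i, hi, rfl⟩)
      simp [φ, hi, this]
    · simp [φ, hi]
  have h2 : P = RingHom.ker φ.toRingHom := by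
    apply le_antisymm
    · rw [hP, Ideal.span_le]
      rintro _ ⟨i, hi, rfl⟩
      simp [φ, hi]
    · intro a ha
      have ha' : φ a = 0 := ha
      have := congrArg (fun ψ => ψ a) h1
      simp only [AlgHom.comp_apply, ha', map_zero] at this
      exact Ideal.Quotient.eq_zero_iff_mem.1 this.symm
  rw [h2]
  exact RingHom.ker_isPrime _

theorem int_mem {K : Type} [Field K] [Algebra ℂ K] (R : Subalgebra ℂ K) (V : ValuationSubring K)
    (hR : ∀ x ∈ R, x ∈ V) (y : K) (hy : IsIntegral R y) : y ∈ V := by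
  let φ : R →+* V :=
    { toFun := fun x => ⟨x.1, hR x.1 x.2⟩
      map_one' := rfl
      map_mul' := fun _ _ => rfl
      map_zero' := rfl
      map_add' := fun _ _ => rfl }
  let _ : Algebra R V := φ.toAlgebra
  have _ : IsScalarTower R V K := IsScalarTower.of_algebraMap_eq fun _ => rfl
  have h : IsIntegral V y := hy.tower_top
  obtain ⟨z, hz⟩ := IsIntegrallyClosed.algebraMap_eq_of_integral h
  rw [← hz]
  exact z.2

end CENx

theorem cen (t : TrvK) : S_CEN := by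
  intro K _ _ S M f _ T g k q hf hS hg htr
  obtain ⟨h, hh, hg⟩ := hg
  let F := IntermediateField.adjoin ℂ (Set.range f)
  let f' : Fin M → F := fun i => ⟨f i, IntermediateField.subset_adjoin ℂ _ ⟨i, rfl⟩⟩
  let j : MvPolynomial (Fin M) ℂ →ₐ[ℂ] F := MvPolynomial.aeval f'
  have hj : ∀ a, ((j a : F) : K) = MvPolynomial.aeval f a := by
    intro a
    have : F.val.comp j = MvPolynomial.aeval f := by
      refine MvPolynomial.algHom_ext fun i => ?_
      simp [j, f']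
    exact congrArg (fun ψ => ψ a) this
  have hinj : Function.Injective j.toRingHom := by
    intro a b hab
    apply hf
    have hab' : j a = j b := hab
    rw [← hj, ← hj, hab']
  obtain ⟨W, hW⟩ := t.cen _ F j.toRingHom _ hinj (CENx.prime_span M T)
  have _ : CharZero F := charZero_of_injective_algebraMap (algebraMap ℂ F).injective
  have key : Algebra.trace F K g ∈ W.nonunits := by
    refine t.tr F K W g fun V hV => ?_
    have hmem : ∀ a : MvPolynomial (Fin M) ℂ, MvPolynomial.aeval f a ∈ V := by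
      intro a
      have h1 : j a ∈ W := (hW a).1
      rw [← hV] at h1
      rw [← hj]
      exact h1
    have hR : ∀ x ∈ Algebra.adjoin ℂ (Set.range f), x ∈ V := by
      intro x hx
      rw [Algebra.adjoin_range_eq_range_aeval] at hx
      obtain ⟨a, rfl⟩ := hx
      exact hmem a
    have hfi : ∀ i ∈ T, f i ∈ V.nonunits := by
      intro i hi
      have h1 : j (MvPolynomial.X i) ∈ W.nonunits :=
        (hW (MvPolynomial.X i)).2.2 (Ideal.subset_span ⟨i, hi, rfl⟩)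
      have h2 : j (MvPolynomial.X i) = f' i := by simp [j]
      rw [h2, ValuationSubring.mem_nonunits_iff_or] at h1
      rw [ValuationSubring.mem_nonunits_iff_or]
      rcases h1 with h1 | h1
      · exact Or.inl (congrArg Subtype.val h1)
      · refine Or.inr fun h3 => h1 ?_
        rw [← hV]
        exact h3
    have hlt : V.valuation (g ^ k) < 1 := by
      rw [hg]
      refine Valuation.map_sum_lt _ one_ne_zero fun i _ => ?_
      by_cases hi : i ∈ T
      · rw [map_mul]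
        have h1 : V.valuation (h i) ≤ 1 :=
          (V.valuation_le_one_iff _).2 (CENx.int_mem _ V hR _ (hS _ (hh i).1))
        have h2 : V.valuation (f i) < 1 := (V.mem_nonunits_iff).1 (hfi i hi)
        calc V.valuation (h i) * V.valuation (f i) ≤ 1 * V.valuation (f i) :=
              mul_le_mul_left h1 _
          _ = V.valuation (f i) := one_mul _
          _ < 1 := h2
      · rw [(hh i).2 hi, zero_mul, map_zero]
        exact zero_lt_one
    rw [ValuationSubring.mem_nonunits_iff]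
    by_contra hge
    rw [map_pow] at hlt
    exact absurd hlt (not_lt.2 (one_le_pow_of_one_le' (not_lt.1 hge) k))
  have heq : Algebra.trace F K g = j q := by
    apply Subtype.ext
    rw [hj]
    exact htr
  rw [heq] at key
  exact (hW q).2.1 key

end Pool.Agent.MP_51db15_ag.Qh

end

section
/-! PROJECT QH, row DEC: decomposition of the form along a diagonal field. -/

namespace Pool.Agent.MP_51db15_ag.Qh

open Module

namespace DECx

variable {K : Type} [Field K] [Algebra ℂ K] {S : Subalgebra ℂ K}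

theorem flat_smul (w : ℂ) (ζ : FF K) : flat (w • ζ) = w • flat ζ :=
  LinearMap.ext fun v => Prod.ext (by simp) rfl

theorem flat_add (ζ ζ' : FF K) : flat (ζ + ζ') = flat ζ + flat ζ' :=
  LinearMap.ext fun v => Prod.ext (by simp) rfl

theorem flat_zero : flat (0 : FF K) = 0 := LinearMap.ext fun _ => rfl

theorem kae_zero : Kae S 0 := fun _ _ =>
  ⟨0, Fin.elim0, Fin.elim0, Fin.elim0, fun s => s.elim0, fun _ _ => by simp⟩

theorem slope {κ : Type} [Fintype κ] [DecidableEq κ] {E : DD K} {e : κ → End K (DD K)}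
    {y : κ → ℂ} (h : Slp S E e y) (c : κ → ℂ) {k l : κ} {w : ℂ} {b : EE K} (hb : b ∈ EI S)
    (h1 : del E b = (-w) • b) (h2 : b = pp e (l, false) * b * pp e (k, true)) {ζ : FF K}
    (hζ : ζ ∈ RF S) (h3 : lf E ζ = w • ζ) :
    tr (b * flat (lf (∑ j, c j • e j E) ζ)) = (c k * y k + c l * y l) • tr (b * flat ζ) := by
  have e1 := h k l w _ (flat_mem hζ) b hb (by rw [del_flat, h3, flat_smul]) h1 h2
  rw [← del_flat, del_sum_left, Finset.mul_sum, map_sum]
  simp only [del_csmul, mul_smul_comm, map_smul, e1, smul_smul]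
  rw [← Finset.sum_smul]
  congr 1
  simp [mul_add, Finset.sum_add_distrib]

theorem gen {U : Type} [AddCommGroup U] [Module ℂ U] (Y : End ℂ U) (μ : ℂ) (P Q : U → Prop)
    (h0 : Q 0) (h : ∀ u, P u → P (Y u + (-μ) • u) ∧ (Q (Y u + (-μ) • u) → Q u)) {u : U}
    (hu : P u) (hm : u ∈ Y.maxGenEigenspace μ) : Q u := by
  obtain ⟨n, hn⟩ := (End.mem_maxGenEigenspace _ _ _).1 hm
  clear hm
  induction n generalizing u with
  | zero =>
    rw [pow_zero, End.one_apply] at hn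
    rwa [hn]
  | succ n ih =>
    have e : (Y - μ • (1 : End ℂ U)) u = Y u + (-μ) • u := by
      rw [neg_smul, ← sub_eq_add_neg]
      rfl
    rw [pow_succ, End.mul_apply, e] at hn
    exact (h u hu).2 (ih (h u hu).1 hn)

theorem joint (g : GenK) {U : Type} [AddCommGroup U] [Module ℂ U] {δ : End ℂ U}
    {H : Submodule ℂ U} (h1 : Dz δ H) (h2 : Fd δ H) (δ' : End ℂ U) (H' : Submodule ℂ U)
    (le : ∀ u ∈ H', u ∈ H) (s1 : ∀ u ∈ H', δ u ∈ H') (s2 : ∀ u ∈ H', δ' u ∈ H')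
    (com : ∀ v, δ (δ' v) = δ' (δ v)) {u : U} (hu : u ∈ H') :
    ∃ (F : Finset (ℤ × ℂ)) (f : ℤ × ℂ → U), (∀ p, f p ∈ H' ∧ δ (f p) = (p.1 : ℂ) • f p ∧
      f p ∈ δ'.maxGenEigenspace p.2) ∧ ∑ p ∈ F, f p = u := by
  have mem := g.joint U δ δ' H' (g.sub U δ H H' h1 le s1) (fun z => by
    have := h2 z
    exact Submodule.finiteDimensional_of_le (inf_le_inf_right _ (show H' ≤ H from le)))
    s2 com u hu
  obtain ⟨f, hf, sf⟩ := (Submodule.mem_iSup_iff_exists_finsupp _ _).1 mem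
  exact ⟨f.support, f, fun p => ⟨(hf p).1.1, End.mem_eigenspace_iff.1 (hf p).1.2, (hf p).2⟩, sf⟩

theorem kill {E Y : DD K} (hY : Y ∈ TT S) (com : ∀ η : FF K, lf E (lf Y η) = lf Y (lf E η))
    {w μ ν : ℂ} (hne : ν ≠ μ) {b : EE K}
    (h : ∀ ζ ∈ RF S, lf E ζ = w • ζ → tr (b * flat (lf Y ζ)) = ν • tr (b * flat ζ)) {ζ : FF K}
    (h1 : ζ ∈ RF S) (h2 : lf E ζ = w • ζ) (h3 : ζ ∈ End.maxGenEigenspace (M := FF K) (lf Y) μ) :
    tr (b * flat ζ) = 0 := by
  have z0 : tr (b * flat (0 : FF K)) = 0 := by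
    rw [flat_zero, mul_zero]
    exact LinearMap.map_zero _
  have ge := @gen (FF K) _ _ (lf Y) μ (fun ζ => ζ ∈ RF S ∧ lf E ζ = w • ζ)
    (fun ζ => tr (b * flat ζ) = 0)
  refine ge z0
    (fun ζ k => ⟨⟨add_mem (lf_mem hY k.1) ((RF S).smul_mem _ k.1), ?_⟩, fun k1 => ?_⟩) ⟨h1, h2⟩ h3
  · rw [map_add, map_smul, com, k.2, map_smul, smul_add, smul_comm]
  · rw [flat_add, flat_smul, mul_add, mul_smul_comm, map_add, map_smul, h ζ k.1 k.2, ← add_smul,
      smul_eq_zero, ← sub_eq_add_neg] at k1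
    exact k1.resolve_left (sub_ne_zero.2 hne)

end DECx

open DECx in
theorem dec (g : GenK) (c : S_CLO) (j : S_JD3) (k : S_KC) : S_DEC := by
  intro K ι κ _ _ _ _ _ S E x a e y ω cf h
  classical
  have eY : (∑ i, cf i • e i) E = ∑ i, cf i • e i E := by
    simp only [LinearMap.sum_apply, LinearMap.smul_apply]
  rw [eY]
  have tE := h.cone.ev.tm
  have hY : ∑ i, cf i • e i E ∈ TT S :=
    sum_mem fun i _ => (TC S).smul_mem (cf i) ((h.idm.a0 i).1 E tE)
  have h0 : ⁅E, ∑ i, cf i • e i E⁆ = 0 := by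
    rw [lie_sum]
    refine Finset.sum_eq_zero fun i _ => ?_
    rw [lie_smul, (h.idm.a0 i).2, lie_self, map_zero, smul_zero]
  have sl := fun (k l : κ) (w : ℂ) (b : EE K) (hb : b ∈ EI S) h1 h2 (ζ : FF K) =>
    slope (k := k) (l := l) (w := w) h.slp cf hb h1 h2 (ζ := ζ)
  generalize ∑ i, cf i • e i E = Y at hY h0 sl
  obtain ⟨⟨H, m, st⟩, -, com, -⟩ := c K S
  have le : ∀ η ∈ H, η ∈ RF S := fun η hη => ((m η).1 hη).1
  have d1 := joint g h.cone.ev.F h.cone.evf.F
  obtain ⟨T, f, hf, sf⟩ := d1 (lf Y) H le (st E tE) (st Y hY) (com E Y h0)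
    ((m ω).2 ⟨h.reg, h.clo⟩)
  refine ⟨T.image Prod.snd, fun l hl ι' _ t x' n jo cx ba ev => ?_⟩
  choose! z hz using hl
  have hz' : ∀ p ∈ T, l p.2 = z p.2 := fun p hp => hz _ (Finset.mem_image_of_mem _ hp)
  obtain ⟨η, hη⟩ : ∃ η : ℤ → FF K, ∀ q, η q = ∑ p ∈ T with z p.2 = q, f p := ⟨_, fun _ => rfl⟩
  obtain ⟨F, hF⟩ : ∃ F : Finset ℤ, F = T.image fun p => z p.2 := ⟨_, rfl⟩
  have e1 : ω = ∑ q ∈ F, η q := by
    simp only [hη, hF]
    rw [Finset.sum_fiberwise_of_maps_to fun p hp => Finset.mem_image_of_mem _ hp]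
    exact sf.symm
  have e2 : ∀ q ∉ F, η q = 0 := fun q hq => (hη q).trans
    (Finset.sum_eq_zero fun p hp => (hq (hF ▸ Finset.mem_image.2
      ⟨p, (Finset.mem_filter.1 hp).1, (Finset.mem_filter.1 hp).2⟩)).elim)
  have e3 : ∀ q, η q ∈ H := fun q => by
    rw [hη]
    exact sum_mem fun p _ => (hf p).1
  have e4 : ∀ q : ℤ, lf t (η q) = (q : ℂ) • η q := fun q => by
    rw [hη, map_sum, Finset.smul_sum]
    refine Finset.sum_congr rfl fun p hp => ?_
    obtain ⟨p1, p2⟩ := Finset.mem_filter.1 hp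
    rw [j K ι S E x a h.cone Y hY h0 l t jo _ (le _ (hf p).1) p.2 (hf p).2.2, hz' p p1, p2]
  refine ⟨F, η, e1, e2, fun q => ⟨le _ (e3 q), ((m _).1 (e3 q)).2, ?_, e4 q, fun hq => ?_⟩⟩
  · by_cases hq : q ∈ F
    · refine k K ι' S t x' n cx ba ev F η (fun q _ => ⟨le _ (e3 q), e4 q⟩) ?_ q hq
      rw [← e1]
      exact h.kae
    · rw [e2 q hq]
      exact kae_zero
  · rw [hη]
    refine sum_mem fun p hp => ?_
    obtain ⟨p1, p2⟩ := Finset.mem_filter.1 hp
    have w1 := (hf p).2.1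
    refine Submodule.subset_span ?_
    refine ⟨le _ (hf p).1, (p.1 : ℂ), w1, ?_⟩
    intro u u' b hb b1 b2
    have ne : cf u * y u + cf u' * y u' ≠ p.2 := fun e0 => hq u u' (by rw [e0, hz' p p1, p2])
    have s1 := sl u u' _ b hb b1 b2
    have s2 := DECx.kill hY (com E Y h0) ne s1 (le _ (hf p).1) w1
    exact s2 (hf p).2.2

end Pool.Agent.MP_51db15_ag.Qh

end

section
/-! PROJECT QF, row DEC2: decomposition of the form along a diagonal field, for forms that are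
regular at divisorial valuations. -/

namespace Pool.Agent.MP_51db15_ag.Qh

open Module

namespace DEC2x

variable {K : Type} [Field K] [Algebra ℂ K] {S : Subalgebra ℂ K}

theorem rdv_zero : Rdv S 0 := fun v _ _ h _ _ => h 0 (zero_mem S)

end DEC2x

open DECx in
theorem dec2 (g : GenK) (c : S_CLO) (j : S_JD3) (k : S_KC2) : S_DEC2 := by
  intro K ι κ _ _ _ _ _ S E x a e y ω cf h
  classical
  have eY : (∑ i, cf i • e i) E = ∑ i, cf i • e i E := by
    simp only [LinearMap.sum_apply, LinearMap.smul_apply]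
  rw [eY]
  have tE := h.cone.ev.tm
  have hY : ∑ i, cf i • e i E ∈ TT S :=
    sum_mem fun i _ => (TC S).smul_mem (cf i) ((h.idm.a0 i).1 E tE)
  have h0 : ⁅E, ∑ i, cf i • e i E⁆ = 0 := by
    rw [lie_sum]
    refine Finset.sum_eq_zero fun i _ => ?_
    rw [lie_smul, (h.idm.a0 i).2, lie_self, map_zero, smul_zero]
  have sl := fun (k l : κ) (w : ℂ) (b : EE K) (hb : b ∈ EI S) h1 h2 (ζ : FF K) =>
    slope (k := k) (l := l) (w := w) h.slp cf hb h1 h2 (ζ := ζ)
  generalize ∑ i, cf i • e i E = Y at hY h0 sl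
  obtain ⟨⟨H, m, st⟩, -, com, -⟩ := c K S
  have le : ∀ η ∈ H, η ∈ RF S := fun η hη => ((m η).1 hη).1
  have d1 := joint g h.cone.ev.F h.cone.evf.F
  obtain ⟨T, f, hf, sf⟩ := d1 (lf Y) H le (st E tE) (st Y hY) (com E Y h0)
    ((m ω).2 ⟨h.reg, h.clo⟩)
  refine ⟨T.image Prod.snd, fun l hl ι' _ t x' n jo cx ba ev => ?_⟩
  choose! z hz using hl
  have hz' : ∀ p ∈ T, l p.2 = z p.2 := fun p hp => hz _ (Finset.mem_image_of_mem _ hp)
  obtain ⟨η, hη⟩ : ∃ η : ℤ → FF K, ∀ q, η q = ∑ p ∈ T with z p.2 = q, f p := ⟨_, fun _ => rfl⟩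
  obtain ⟨F, hF⟩ : ∃ F : Finset ℤ, F = T.image fun p => z p.2 := ⟨_, rfl⟩
  have e1 : ω = ∑ q ∈ F, η q := by
    simp only [hη, hF]
    rw [Finset.sum_fiberwise_of_maps_to fun p hp => Finset.mem_image_of_mem _ hp]
    exact sf.symm
  have e2 : ∀ q ∉ F, η q = 0 := fun q hq => (hη q).trans
    (Finset.sum_eq_zero fun p hp => (hq (hF ▸ Finset.mem_image.2
      ⟨p, (Finset.mem_filter.1 hp).1, (Finset.mem_filter.1 hp).2⟩)).elim)
  have e3 : ∀ q, η q ∈ H := fun q => by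
    rw [hη]
    exact sum_mem fun p _ => (hf p).1
  have e4 : ∀ q : ℤ, lf t (η q) = (q : ℂ) • η q := fun q => by
    rw [hη, map_sum, Finset.smul_sum]
    refine Finset.sum_congr rfl fun p hp => ?_
    obtain ⟨p1, p2⟩ := Finset.mem_filter.1 hp
    rw [j K ι S E x a h.cone Y hY h0 l t jo _ (le _ (hf p).1) p.2 (hf p).2.2, hz' p p1, p2]
  refine ⟨F, η, e1, e2, fun q => ⟨le _ (e3 q), ((m _).1 (e3 q)).2, ?_, e4 q, fun hq => ?_⟩⟩
  · by_cases hq : q ∈ F
    · refine k K ι' S t x' n cx ba ev F η (fun q _ => ⟨le _ (e3 q), e4 q⟩) ?_ q hq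
      rw [← e1]
      exact h.rdv
    · rw [e2 q hq]
      exact DEC2x.rdv_zero
  · rw [hη]
    refine sum_mem fun p hp => ?_
    obtain ⟨p1, p2⟩ := Finset.mem_filter.1 hp
    have w1 := (hf p).2.1
    refine Submodule.subset_span ?_
    refine ⟨le _ (hf p).1, (p.1 : ℂ), w1, ?_⟩
    intro u u' b hb b1 b2
    have ne : cf u * y u + cf u' * y u' ≠ p.2 := fun e0 => hq u u' (by rw [e0, hz' p p1, p2])
    have s1 := sl u u' _ b hb b1 b2
    have s2 := DECx.kill hY (com E Y h0) ne s1 (le _ (hf p).1) w1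
    exact s2 (hf p).2.2

end Pool.Agent.MP_51db15_ag.Qh

end

section
/-! PROJECT QH, row DVA: a valuation ring over a discrete valuation ring in a finite extension is
a localisation of the integral closure. -/

namespace Pool.Agent.MP_51db15_ag.Qh

namespace DVAx

theorem core (W F K : Type) [CommRing W] [IsDomain W] [IsDiscreteValuationRing W] [Field F]
    [Algebra W F] [IsFractionRing W F] [Field K] [Algebra F K] [Algebra W K]
    [IsScalarTower W F K] [FiniteDimensional F K] [CharZero F]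
    (hQ : ∀ n : ℕ, n ≠ 0 → IsUnit (n : W)) (V : ValuationSubring K)
    (hV : ∀ a : W, algebraMap W K a ∈ V)
    (hn : ∀ a : W, ¬ IsUnit a → algebraMap W K a ∈ V.nonunits) :
    ∃ v : DV K, Hy.EXTV.Dat v (algebraMap W K).range ∧ (∀ y, y ∈ V ↔ v.Ge 0 y) ∧
      (∀ y, y ∈ V.nonunits ↔ v.Ge 1 y) ∧ ∀ y ∈ V, ∃ b s : K, IsIntegral W b ∧ IsIntegral W s ∧
        s ∉ V.nonunits ∧ y = b / s := by
  classical
  let B := integralClosure W K
  have : IsDedekindDomain B := integralClosure.isDedekindDomain W F K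
  have : IsFractionRing B K := integralClosure.isFractionRing_of_finite_extension F K
  have hfin : Module.Finite W B := IsIntegralClosure.finite W F K B
  have hB : ∀ b : B, (b : K) ∈ V := fun b => by
    obtain ⟨p, p1, p2⟩ := b.2
    have k : IsIntegral V (b : K) := ⟨p.map ((algebraMap W K).codRestrict V hV), p1.map _, by
      rw [Polynomial.eval₂_map]; exact p2⟩
    obtain ⟨y, e⟩ := IsIntegrallyClosed.isIntegral_iff.1 k
    exact e ▸ y.2
  let M : Ideal B := (IsLocalRing.maximalIdeal V).comap (B.val.toRingHom.codRestrict V hB)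
  have mM : ∀ b : B, b ∈ M ↔ (b : K) ∈ V.nonunits := fun b =>
    (ValuationSubring.coe_mem_nonunits_iff (A := V) (a := ⟨(b : K), hB b⟩)).symm
  have hM0 : M ≠ ⊥ := by
    obtain ⟨π, hπ⟩ := IsDiscreteValuationRing.exists_irreducible W
    intro h
    have h1 := (mM (algebraMap W B π)).2 (hn π hπ.not_isUnit)
    rw [h, Ideal.mem_bot] at h1
    have h2 : algebraMap F K (algebraMap W F π) = 0 := by
      rw [← IsScalarTower.algebraMap_apply]
      exact congrArg Subtype.val h1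
    exact hπ.ne_zero (by simpa using h2)
  have hP : M.IsPrime := Ideal.comap_isPrime _ _
  have hM : M.IsMaximal := hP.isMaximal hM0
  have hc : ∀ a : W, algebraMap W B a ∈ M ↔ ¬ IsUnit a := fun a => by
    rw [← Ideal.mem_comap,
      IsLocalRing.eq_maximalIdeal (Ideal.isMaximal_comap_of_isIntegral_of_isMaximal (R := W) M)]
    rfl
  let L := Localization.subalgebra.ofField K M.primeCompl M.primeCompl_le_nonZeroDivisors
  have : IsDiscreteValuationRing L :=
    IsLocalization.AtPrime.isDiscreteValuationRing_of_dedekind_domain B hM0 L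
  obtain ⟨v, h1, h2⟩ := exists_dv (K := K) L
  have g0 : ∀ y, v.Ge 0 y → ∃ a s : B, s ∉ M ∧ y = a / s := fun y hy => by
    obtain ⟨⟨_, a, s, hs, rfl⟩, rfl⟩ := (h1 y).1 hy
    exact ⟨a, s, hs, by rw [div_eq_mul_inv]; rfl⟩
  have g1 : ∀ a : B, v.Ge 0 (a : K) := fun a => (h1 _).2 ⟨algebraMap B L a, rfl⟩
  have g2 : ∀ a : B, v.Ge 1 (a : K) ↔ a ∈ M := fun a => by
    rw [← IsLocalization.AtPrime.to_map_mem_maximal_iff L M a, ← h2]
    rfl
  have g3 : ∀ y, y ∈ V ↔ v.Ge 0 y := fun y => by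
    refine ⟨fun hy => by_contra fun k => ?_, fun hy => ?_⟩
    · have y0 : y ≠ 0 := fun e => k (Or.inl e)
      have k1 : v.Ge 1 y⁻¹ := by
        rw [DV.ge_iff y0] at k
        exact Or.inr (by rw [v.ord_inv y0]; omega)
      obtain ⟨a, s, hs, e⟩ := g0 _ (k1.mono zero_le_one)
      have s0 : (s : K) ≠ 0 := (DV.unit_of_not_ge (g1 s) fun h => hs ((g2 s).1 h)).1
      rw [eq_div_iff s0] at e
      have k2 : (a : K) ∈ V.nonunits := (mM a).1 ((g2 a).1 (e ▸ k1.mul_right (g1 s)))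
      refine hs ((mM s).2 ?_)
      rw [← mul_inv_cancel_left₀ y0 (s : K), e, V.mem_nonunits_iff, map_mul]
      exact (mul_le_of_le_one_left' ((V.valuation_le_one_iff y).2 hy)).trans_lt k2
    · obtain ⟨a, s, hs, rfl⟩ := g0 y hy
      rw [mM, V.mem_nonunits_iff_or, not_or, not_not] at hs
      rw [div_eq_mul_inv]
      exact mul_mem (hB a) hs.2
  refine ⟨v, ⟨fun n hn => ?_, ?_, fun y hy => ?_, ?_⟩, g3, fun y => ?_, fun y hy => ?_⟩
  · refine (DV.unit_of_not_ge (DV.ge_natCast n) fun h => ?_).2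
    exact (hc n).1 ((g2 _).1 (by simpa using h)) (hQ n hn)
  · rintro _ ⟨a, rfl⟩
    exact g1 (algebraMap W B a)
  · obtain ⟨a, s, hs, e⟩ := g0 y hy
    obtain ⟨s', i, hi, e1⟩ := hM.exists_inv hs
    obtain ⟨p, p1, p2⟩ := (a * s').2
    have s0 : (s : K) ≠ 0 := (DV.unit_of_not_ge (g1 s) fun h => hs ((g2 s).1 h)).1
    have e2 : y - (a * s' : B) = y * i := by
      have : (i : K) = 1 - s' * s := by
        rw [eq_sub_iff_add_eq']
        exact congrArg Subtype.val e1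
      rw [this, e]
      push_cast
      field_simp
    have h3 : v.Ge 1 (y - (a * s' : B)) := e2 ▸ hy.mul_left ((g2 i).2 hi)
    refine ⟨p.map (algebraMap W K), fun i => ⟨p.coeff i, (Polynomial.coeff_map _ _).symm⟩,
      p1.map _, ?_⟩
    rw [Polynomial.eval₂_eq_eval_map] at p2
    rw [← sub_zero (Polynomial.eval y _), ← p2, Polynomial.eval_eq_sum_range,
      Polynomial.eval_eq_sum_range, ← Finset.sum_sub_distrib]
    refine DV.Ge.sum fun i _ => ?_
    rw [← mul_sub, Polynomial.coeff_map]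
    exact (g1 (algebraMap W B _)).mul_left (Hy.EXTV.pow_sub hy (g1 _) h3 i)
  · obtain ⟨T, hT⟩ := hfin.fg_top
    have h3 : ∀ b : B, (b : K) ∈ Submodule.span (algebraMap W K).range
        ((T.image fun b : B => (b : K) : Finset K) : Set K) := fun b => by
      have hb : b ∈ Submodule.span W (T : Set B) := hT ▸ Submodule.mem_top
      induction hb using Submodule.span_induction with
      | mem x hx => exact Submodule.subset_span (by simpa using hx)
      | zero => exact zero_mem _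
      | add x y _ _ hx hy => exact add_mem hx hy
      | smul a x _ hx =>
        have := Submodule.smul_mem _ ⟨algebraMap W K a, a, rfl⟩ hx
        rwa [Subalgebra.coe_smul, Algebra.smul_def]
    refine ⟨T.image fun b : B => (b : K), fun t ht => ?_, fun y hy => ?_⟩
    rotate_left
    · obtain ⟨a, s, hs, e⟩ := g0 y hy
      obtain ⟨s0, s1⟩ := DV.unit_of_not_ge (g1 s) fun h => hs ((g2 s).1 h)
      exact ⟨a, h3 a, s, h3 s, s0, s1, e⟩
    · obtain ⟨b, -, rfl⟩ := Finset.mem_image.1 ht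
      exact g1 b
  · rw [V.mem_nonunits_iff_or, g3]
    by_cases y0 : y = 0
    · simp [y0, DV.ge_zero]
    · rw [DV.ge_iff y0, DV.ge_iff (inv_ne_zero y0), v.ord_inv y0, or_iff_right y0]
      omega
  · obtain ⟨a, s, hs, e⟩ := g0 y ((g3 y).1 hy)
    exact ⟨a, s, a.2, s.2, fun k => hs ((mM s).2 k), e⟩

end DVAx

theorem dva : S_DVA := by
  intro F K _ _ _ _ _ W _ V hQ hW
  have m : ∀ a : F, algebraMap F K a ∈ V ↔ a ∈ W := fun a => by rw [← hW]; rfl
  refine DVAx.core W F K hQ V (fun a => (m a).2 a.2) fun a ha => ?_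
  have k := W.mem_nonunits_iff_or.1 ((ValuationSubring.coe_mem_nonunits_iff (a := a)).2 ha)
  refine V.mem_nonunits_iff_or.2 (k.imp (fun e => ?_) fun e e2 => e ((m _).1 ?_))
  · change algebraMap F K a = 0
    rw [e, map_zero]
  · rw [map_inv₀]
    exact e2

end Pool.Agent.MP_51db15_ag.Qh

end

section
/-! Row DVX: a field that kills a discrete valuation ring to first order, upstairs. -/

namespace Pool.Agent.MP_51db15_ag.Qh

open Module Polynomial

namespace DVXx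

variable {K : Type} [Field K] [Algebra ℂ K] {v : DV K}

/-- `y` lies in the localisation of `B` at the units of `v` -/
def Q (v : DV K) (B : Subalgebra ℂ K) (y : K) : Prop :=
  ∃ h ∈ B, h ≠ 0 ∧ v.ord h = 0 ∧ h * y ∈ B

theorem common {ι : Type} (B : Subalgebra ℂ K) (s : Finset ι) (y : ι → K)
    (h : ∀ i ∈ s, Q v B (y i)) : ∃ r ∈ B, r ≠ 0 ∧ v.ord r = 0 ∧ ∀ i ∈ s, r * y i ∈ B := by
  classical
  induction s using Finset.induction_on with
  | empty => exact ⟨1, one_mem B, one_ne_zero, v.ord_one, by simp⟩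
  | insert a s _ ih =>
    obtain ⟨r, r1, r2, r3, r4⟩ := ih fun i hi => h i (Finset.mem_insert_of_mem hi)
    obtain ⟨g, g1, g2, g3, g4⟩ := h a (Finset.mem_insert_self a s)
    refine ⟨r * g, mul_mem r1 g1, mul_ne_zero r2 g2, by rw [v.ord_mul _ _ r2 g2, r3, g3]; rfl,
      fun i hi => ?_⟩
    rcases Finset.mem_insert.1 hi with rfl | hi
    · rw [mul_assoc]
      exact mul_mem r1 g4
    · rw [mul_comm r, mul_assoc]
      exact mul_mem g1 (r4 i hi)

theorem clear (A : Subalgebra ℂ K) (p : K[X]) (hp : p.Monic) (h : ∀ i, Q v A (p.coeff i)) {b : K}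
    (hb : p.eval b = 0) : ∃ r ∈ A, r ≠ 0 ∧ v.ord r = 0 ∧ IsIntegral A (r * b) := by
  obtain ⟨r, r1, r2, r3, r4⟩ := common A (Finset.range p.natDegree) p.coeff fun i _ => h i
  refine ⟨r, r1, r2, r3, ?_⟩
  have hl : p.scaleRoots r ∈ lifts (algebraMap A K) := by
    refine (lifts_iff_coeff_lifts _).2 fun n => ?_
    rw [coeff_scaleRoots]
    rcases lt_trichotomy n p.natDegree with hn | rfl | hn
    · obtain ⟨m, hm⟩ : ∃ m, p.natDegree - n = m + 1 := ⟨p.natDegree - n - 1, by omega⟩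
      refine ⟨⟨r * p.coeff n * r ^ m, mul_mem (r4 n (Finset.mem_range.2 hn)) (pow_mem r1 m)⟩, ?_⟩
      rw [hm]
      change r * p.coeff n * r ^ m = _
      ring
    · exact ⟨1, by simp [hp.coeff_natDegree]⟩
    · exact ⟨0, by simp [coeff_eq_zero_of_natDegree_lt hn]⟩
  obtain ⟨q, q1, -, q3⟩ := lifts_and_natDegree_eq_and_monic hl ((monic_scaleRoots_iff r).2 hp)
  refine ⟨q, q3, ?_⟩
  rw [eval₂_eq_eval_map, q1, scaleRoots_eval_mul, hb, mul_zero]

theorem int_mono {A S : Subalgebra ℂ K} (h : A ≤ S) {y : K} (hy : IsIntegral A y) :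
    IsIntegral S y :=
  IsIntegral.map_of_comp_eq (Subalgebra.inclusion h).toRingHom (RingHom.id K) rfl hy

theorem mem_val {A : Subalgebra ℂ K} {V : ValuationSubring K} (h : ∀ g ∈ A, g ∈ V) {y : K}
    (hy : IsIntegral A y) : y ∈ V := by
  have h1 : IsIntegral V y := IsIntegral.map_of_comp_eq
    ((A.val : A →+* K).codRestrict V fun g => h g g.2) (RingHom.id K) rfl hy
  obtain ⟨z, rfl⟩ := IsIntegrallyClosed.isIntegral_iff.1 h1
  exact z.2

theorem last {ι : Type} [Fintype ι] {S : Subalgebra ℂ K} {x : ι → K} (hb : Bas S x) (D : DD K)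
    (hS : ∀ g ∈ S, v.Ge 0 g) (hQ : ∀ y, v.Ge 0 y → Q v S y) (hD : ∀ y, v.Ge 0 y → v.Ge 1 (D y))
    {β : DU K} (hβ : β ∈ TD S) : v.Ge 1 (β D) := by
  obtain ⟨π, π0, π1⟩ := v.unif
  obtain ⟨r, -, r2, r3, r4⟩ := common (v := v) S Finset.univ (fun i => D (x i) / π) fun i _ =>
    hQ _ (by simpa [π1] using (hD _ (hS _ (hb.mem i))).div π0)
  have h1 : (r / π) • D ∈ TT S := hb.tt _ fun i => by
    have := r4 i (Finset.mem_univ i)
    rw [Derivation.smul_apply, smul_eq_mul]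
    convert this using 1
    ring
  have h2 := hS _ (hβ _ h1)
  rw [map_smul, smul_eq_mul] at h2
  have h3 := (h2.mul_left (π1 ▸ DV.ge_self π : v.Ge 1 π)).div_unit r2 r3
  convert h3 using 1
  field_simp

end DVXx

open DVXx in
theorem dvx (a : S_DVA) : S_DVX := by
  intro K ι _ _ _ S A x F _ W _ V D hb hn hAS hint hVW hAW hWA hD β hβ
  have : CharZero F := charZero_of_injective_algebraMap (algebraMap ℂ F).injective
  have : CharZero K := charZero_of_injective_algebraMap (algebraMap ℂ K).injective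
  have hW : ∀ y : F, y ∈ W ↔ (y : K) ∈ V := fun y => by rw [← hVW]; rfl
  have hWn : ∀ y : F, y ∈ W.nonunits → (y : K) ∈ V.nonunits := fun y hy => by
    rw [ValuationSubring.mem_nonunits_iff_or] at hy ⊢
    refine hy.imp (fun h => by simp [h]) fun h h' => h ((hW _).2 (by simpa using h'))
  have hAV : ∀ g ∈ A, g ∈ V := fun g hg => by
    obtain ⟨y, hy, rfl⟩ := hAW g hg
    exact (hW y).1 hy
  have hQ : ∀ n : ℕ, n ≠ 0 → IsUnit (n : W) := fun n h0 => by
    have h1 : ((n : F)⁻¹) ∈ W := (hW _).2 (hAV _ (by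
      have := A.algebraMap_mem (n : ℂ)⁻¹
      simpa using this))
    refine IsUnit.of_mul_eq_one ⟨_, h1⟩ (Subtype.ext ?_)
    have h2 : (n : F) ≠ 0 := by exact_mod_cast h0
    simpa using mul_inv_cancel₀ h2
  obtain ⟨v, hd, g0, g1, hfr⟩ := a F K W V hQ hVW
  have hSV : ∀ g ∈ S, v.Ge 0 g := fun g hg => (g0 g).1 (mem_val hAV (hint g hg))
  have hR : ∀ c ∈ ((algebraMap F K).comp W.subtype).range,
      v.Ge 1 (D.restrictScalars ℤ c) := by
    rintro _ ⟨y, rfl⟩
    obtain ⟨z, z1, z2⟩ := hD y y.2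
    exact (g1 _).1 (z2 ▸ hWn z z1)
  obtain ⟨ϖ, hϖ⟩ := IsDiscreteValuationRing.exists_irreducible W
  have t0 : ((ϖ : F) : K) ≠ 0 := by simpa using hϖ.ne_zero
  have t1 : v.Ge 1 ((ϖ : F) : K) :=
    (g1 _).1 (hWn _ (ValuationSubring.coe_mem_nonunits_iff.2 hϖ.not_isUnit))
  have t2 : v.Ge 0 (D.restrictScalars ℤ ((ϖ : F) : K) / ((ϖ : F) : K)) := by
    obtain ⟨z, z1, z2⟩ := hD ϖ ϖ.2
    obtain ⟨z3, z4⟩ := ValuationSubring.mem_nonunits_iff_exists_mem_maximalIdeal.1 z1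
    rw [hϖ.maximalIdeal_eq, Ideal.mem_span_singleton'] at z4
    obtain ⟨c, hc⟩ := z4
    have e : (z : K) = ((c : F) : K) * ((ϖ : F) : K) := by
      have : z = (c : F) * (ϖ : F) := (congrArg Subtype.val hc).symm
      rw [this]
      rfl
    change v.Ge 0 (D _ / _)
    rw [z2, e, mul_div_cancel_right₀ _ t0]
    exact (g0 _).1 ((hW _).1 c.2)
  have hm := Hy.EXTV.main (D.restrictScalars ℤ) hd (fun c hc => (hR c hc).mono zero_le_one) t0
    (by have := t1.le t0; omega) t2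
  have hres := Hy.EXTV.res (D.restrictScalars ℤ) hd hR hm.2
  have hI : ∀ b, ((algebraMap F K).comp W.subtype).IsIntegralElem b →
      ∃ r ∈ S, r ≠ 0 ∧ v.ord r = 0 ∧ r * b ∈ S := by
    rintro b ⟨p, p1, p2⟩
    rw [eval₂_eq_eval_map] at p2
    obtain ⟨r, r1, r2, r3, r4⟩ := clear (v := v) A _ (p1.map _) (fun i => by
      rw [coeff_map]
      obtain ⟨g, hg, h, hh, h1, e⟩ := hWA (p.coeff i) (p.coeff i).2
      obtain ⟨h2, h3⟩ := DV.unit_of_not_ge ((g0 h).1 (hAV h hh)) fun h' => h1 ((g1 h).2 h')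
      refine ⟨h, hh, h2, h3, ?_⟩
      change h * ((p.coeff i : F) : K) ∈ A
      rwa [e, mul_div_cancel₀ _ h2]) p2
    exact ⟨r, hAS r1, r2, r3, hn _ (int_mono hAS r4)⟩
  refine (g1 _).2 (last hb D hSV (fun y hy => ?_) hres hβ)
  obtain ⟨b, s, b1, s1, s2, rfl⟩ := hfr y ((g0 y).2 hy)
  obtain ⟨r, r1, r2, r3, r4⟩ := hI b b1
  obtain ⟨q, q1, q2, q3, q4⟩ := hI s s1
  have s3 : ¬ v.Ge 1 s := fun h => s2 ((g1 s).2 h)
  have s0 : s ≠ 0 := fun h => s3 (Or.inl h)
  have s4 := (hSV _ q4).le (mul_ne_zero q2 s0)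
  rw [DV.ge_iff s0] at s3
  rw [v.ord_mul _ _ q2 s0] at s4
  refine ⟨r * (q * s), mul_mem r1 q4, mul_ne_zero r2 (mul_ne_zero q2 s0), ?_, ?_⟩
  · rw [v.ord_mul _ _ r2 (mul_ne_zero q2 s0), v.ord_mul _ _ q2 s0]
    omega
  · convert mul_mem q1 r4 using 1
    field_simp

end Pool.Agent.MP_51db15_ag.Qh

end

section
/-! EIG: a locally nilpotent field vanishes on a subcone. -/

namespace Pool.Agent.MP_51db15_ag.Qh

open Module

namespace EIGx

theorem aux {A : Type} [CommRing A] [Algebra ℂ A] (e n : Derivation ℂ A A) (J : Ideal A)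
    (he : ∀ g ∈ J, e g ∈ J) (hn : ∀ g ∈ J, n g ∈ J) (y : A) (hy : y ∉ J.radical) :
    ∃ P : Ideal A, P.IsPrime ∧ J ≤ P ∧ (∀ g ∈ P, e g ∈ P) ∧ (∀ g ∈ P, n g ∈ P) ∧ y ∉ P := by
  letI : Algebra ℚ A := ((algebraMap ℂ A).comp (algebraMap ℚ ℂ)).toAlgebra
  rw [Ideal.radical_eq_sInf, Submodule.mem_sInf] at hy
  push Not at hy
  obtain ⟨q, ⟨hJq, hq⟩, hyq⟩ := hy
  obtain ⟨p, hp, hpq⟩ := Ideal.exists_minimalPrimes_le hJq
  refine ⟨p, hp.1.1, hp.1.2, ?_, ?_, fun h => hyq (hpq h)⟩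
  · exact Hy.minp A e.toLinearMap.toAddMonoidHom J p
      (fun a b => by simp [Derivation.leibniz]) he hp
  · exact Hy.minp A n.toLinearMap.toAddMonoidHom J p
      (fun a b => by simp [Derivation.leibniz]) hn hp

theorem stab {A : Type} [CommRing A] [Algebra ℂ A] (d : Derivation ℂ A A) (P : Ideal A) (g : A)
    (hP : ∀ y ∈ P, d y ∈ P) (hg : d g ∈ P ⊔ Ideal.span {g}) :
    ∀ y ∈ P ⊔ Ideal.span {g}, d y ∈ P ⊔ Ideal.span {g} := by
  intro y hy
  obtain ⟨p, hp, z, hz, rfl⟩ := Submodule.mem_sup.1 hy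
  obtain ⟨c, rfl⟩ := Ideal.mem_span_singleton'.1 hz
  rw [map_add, Derivation.leibniz, smul_eq_mul, smul_eq_mul]
  refine add_mem (Ideal.mem_sup_left (hP p hp)) (add_mem (Ideal.mul_mem_left _ _ hg) ?_)
  exact Ideal.mul_mem_right _ _ (Ideal.mem_sup_right (Ideal.mem_span_singleton_self g))

theorem core (l : S_LND) {A ι : Type} [CommRing A] [Algebra ℂ A] [IsNoetherianRing A]
    [Fintype ι] (e n : Derivation ℂ A A) (x : ι → A) (a : ι → ℕ)
    (hgen : Algebra.adjoin ℂ (Set.range x) = ⊤) (hpos : ∀ i, 0 < a i)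
    (heig : ∀ i, e (x i) = (a i : ℂ) • x i) (hc : ∀ y, e (n y) = n (e y)) (I : Ideal A)
    (he : ∀ g ∈ I, e g ∈ I) (hn : ∀ g ∈ I, n g ∈ I) (hk : ∀ i, ∃ k : ℕ, n^[k] (x i) ∈ I)
    (hx : ∃ i, x i ∉ I.radical) :
    ∃ P : Ideal A, P.IsPrime ∧ (∀ g ∈ P, e g ∈ P) ∧ (∃ i, x i ∉ P) ∧ ∀ i, n (x i) ∈ P := by
  classical
  obtain ⟨i₀, hi₀⟩ := hx
  obtain ⟨P, ⟨hP, hIP, hPe, hPn, hPx⟩, hmax⟩ : ∃ P : Ideal A, (P.IsPrime ∧ I ≤ P ∧
      (∀ g ∈ P, e g ∈ P) ∧ (∀ g ∈ P, n g ∈ P) ∧ ∃ i, x i ∉ P) ∧ ∀ Q : Ideal A, (Q.IsPrime ∧ I ≤ Q ∧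
      (∀ g ∈ Q, e g ∈ Q) ∧ (∀ g ∈ Q, n g ∈ Q) ∧ ∃ i, x i ∉ Q) → ¬ P < Q :=
    set_has_maximal_iff_noetherian.2 (inferInstance : IsNoetherian A A)
      {P : Ideal A | P.IsPrime ∧ I ≤ P ∧ (∀ g ∈ P, e g ∈ P) ∧ (∀ g ∈ P, n g ∈ P) ∧ ∃ i, x i ∉ P}
      (by
        obtain ⟨P, h1, h2, h3, h4, h5⟩ := aux e n I he hn _ hi₀
        exact ⟨P, h1, h2, h3, h4, i₀, h5⟩)
  refine ⟨P, hP, hPe, hPx, fun i => ?_⟩
  by_contra hni
  have hex : ∃ m : ℕ, n^[m] (n (x i)) ∈ P := by
    obtain ⟨k, hk'⟩ := hk i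
    refine ⟨k, ?_⟩
    rw [← Function.iterate_succ_apply, Function.iterate_succ_apply']
    exact hPn _ (hIP hk')
  obtain ⟨m, hm⟩ : ∃ m, Nat.find hex = m + 1 :=
    Nat.exists_eq_succ_of_ne_zero fun h0 => hni (by simpa [h0] using Nat.find_spec hex)
  have hg1 : n^[m] (n (x i)) ∉ P := Nat.find_min hex (by omega)
  have hg2 : n (n^[m] (n (x i))) ∈ P := by
    have := Nat.find_spec hex
    rwa [hm, Function.iterate_succ_apply'] at this
  have hg3 : ∀ r : ℕ, e (n^[r] (n (x i))) = (a i : ℂ) • n^[r] (n (x i)) := fun r => by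
    induction r with
    | zero => simp [hc, heig]
    | succ r ih => rw [Function.iterate_succ_apply', hc, ih, Derivation.map_smul]
  have hg4 := hg3 m
  have hg5 : n (n^[m] (n (x i))) ∈ P := hg2
  generalize n^[m] (n (x i)) = g at hg1 hg4 hg5
  have hgJ : g ∈ P ⊔ Ideal.span {g} := Ideal.mem_sup_right (Ideal.mem_span_singleton_self g)
  have hrad : ∀ j, x j ∈ (P ⊔ Ideal.span {g}).radical := fun j => by
    by_contra hj
    obtain ⟨Q, h1, h2, h3, h4, h5⟩ := aux e n _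
      (stab e P g hPe (by rw [hg4, Algebra.smul_def]; exact Ideal.mul_mem_left _ _ hgJ))
      (stab n P g hPn (Ideal.mem_sup_left hg5)) _ hj
    refine hmax Q ⟨h1, hIP.trans (le_sup_left.trans h2), h3, h4, j, h5⟩ ?_
    exact lt_of_le_of_ne (le_sup_left.trans h2) fun h => hg1 (h ▸ h2 hgJ)
  have hs : Function.Surjective (Ideal.Quotient.mkₐ ℂ P) := Ideal.Quotient.mkₐ_surjective ℂ P
  have hz : ∀ y, Ideal.Quotient.mkₐ ℂ P y = 0 ↔ y ∈ P := fun y => Ideal.Quotient.eq_zero_iff_mem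
  have hE : ∀ y, Ideal.Quotient.mkₐ ℂ P y = 0 → Ideal.Quotient.mkₐ ℂ P (e y) = 0 :=
    fun y hy => (hz _).2 (hPe y ((hz _).1 hy))
  have hN : ∀ y, Ideal.Quotient.mkₐ ℂ P y = 0 → Ideal.Quotient.mkₐ ℂ P (n y) = 0 :=
    fun y hy => (hz _).2 (hPn y ((hz _).1 hy))
  have hEa := Derivation.liftOfSurjective_apply hs hE
  have hNa := Derivation.liftOfSurjective_apply hs hN
  generalize Derivation.liftOfSurjective hs hE = E' at hEa
  generalize Derivation.liftOfSurjective hs hN = N' at hNa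
  have hit : ∀ (k : ℕ) y, N'^[k] (Ideal.Quotient.mkₐ ℂ P y) = Ideal.Quotient.mkₐ ℂ P (n^[k] y) :=
    fun k y => by
      induction k with
      | zero => rfl
      | succ k ih => rw [Function.iterate_succ_apply', Function.iterate_succ_apply', ih, hNa]
  have key := l (A ⧸ P) ι E' N' (fun j => Ideal.Quotient.mkₐ ℂ P (x j)) a
    (Ideal.Quotient.mkₐ ℂ P g) (a i) (by
      have : Set.range (fun j => Ideal.Quotient.mkₐ ℂ P (x j)) =
          Ideal.Quotient.mkₐ ℂ P '' Set.range x := by rw [← Set.range_comp]; rfl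
      rw [this, ← AlgHom.map_adjoin, hgen, Algebra.map_top, AlgHom.range_eq_top]
      exact hs)
    (fun j => ⟨hpos j, by rw [hEa, heig, map_smul]⟩)
    (fun j => by
      obtain ⟨k, hk'⟩ := hk j
      exact ⟨k, by rw [hit]; exact (hz _).2 (hIP hk')⟩)
    (fun h => hg1 ((hz _).1 h)) (by rw [hNa]; exact (hz _).2 hg5) (hpos i)
    (by rw [hEa, hg4, map_smul])
    (fun j => by
      obtain ⟨r, hr⟩ := hrad j
      obtain ⟨p, hp, z, hz', hpz⟩ := Submodule.mem_sup.1 hr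
      obtain ⟨c, rfl⟩ := Ideal.mem_span_singleton'.1 hz'
      refine ⟨r, Ideal.Quotient.mkₐ ℂ P c, ?_⟩
      rw [← map_pow, ← hpz, map_add, (hz p).2 hp, zero_add, map_mul, mul_comm]) i
  rw [hNa] at key
  exact hni ((hz _).1 key)

theorem res {K : Type} [Field K] [Algebra ℂ K] (S : Subalgebra ℂ K) (D : DD K) (hD : D ∈ TT S) :
    ∃ d : Derivation ℂ S S, ∀ g : S, (d g : K) = D g := by
  let L : S →ₗ[ℂ] S :=
    { toFun := fun g => ⟨D g, hD g g.2⟩
      map_add' := fun g h => Subtype.ext (by simp)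
      map_smul' := fun c g => Subtype.ext (by simp) }
  exact ⟨Derivation.mk' L fun g h => Subtype.ext (by simp [L, Derivation.leibniz]), fun g => rfl⟩

theorem in_iff {K : Type} [Field K] [Algebra ℂ K] {S : Subalgebra ℂ K} (P : Ideal S) (g : S) :
    In P (g : K) ↔ g ∈ P :=
  ⟨fun ⟨b, hb, h⟩ => (Subtype.ext h : g = b) ▸ hb, fun h => ⟨g, h, rfl⟩⟩

end EIGx

theorem eig (l : S_LND) : S_EIG := by
  intro K ι _ _ _ S E x a hc N hN hEN I hE hI hk hx
  have := hc.bas.noeth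
  obtain ⟨e, he⟩ := EIGx.res S E hc.ev.tm
  obtain ⟨n, hn⟩ := EIGx.res S N hN
  let x' : ι → S := fun i => ⟨x i, hc.bas.mem i⟩
  have hx' : ∀ i, (x' i : K) = x i := fun _ => rfl
  have hit : ∀ (k : ℕ) (y : S), ((n^[k] y : S) : K) = (op N ^ k) y := fun k y => by
    induction k with
    | zero => rfl
    | succ k ih => rw [Function.iterate_succ_apply', hn, ih, pow_succ', Module.End.mul_apply]; rfl
  obtain ⟨P, hP, hPe, ⟨i, hi⟩, hPn⟩ := EIGx.core l e n x' a
    (by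
      apply Subalgebra.map_injective (f := S.val) Subtype.val_injective
      rw [AlgHom.map_adjoin, Algebra.map_top, Subalgebra.range_val, ← Set.range_comp]
      exact hc.cx.gen)
    hc.pos (fun i => Subtype.ext (by rw [he, hx', hc.cx.eig]; rfl))
    (fun y => Subtype.ext (by
      have := congrArg (fun D : DD K => D y) hEN
      simp only [Derivation.commutator_apply, Derivation.zero_apply, sub_eq_zero] at this
      rw [he, hn, hn, he, this]))
    I (fun g hg => (EIGx.in_iff I _).1 (by rw [he]; exact hE g hg))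
    (fun g hg => (EIGx.in_iff I _).1 (by rw [hn]; exact hI g hg))
    (fun i => by
      obtain ⟨k, hk'⟩ := hk i
      exact ⟨k, (EIGx.in_iff I _).1 (by rw [hit]; exact hk')⟩)
    (by
      obtain ⟨i, hi⟩ := hx
      exact ⟨i, fun ⟨k, hk'⟩ => hi k ⟨_, hk', rfl⟩⟩)
  refine ⟨P, hP, hc.vtx.le P hP.ne_top fun g hg => ⟨e g, hPe g hg, (he g).symm⟩,
    ⟨i, fun h => hi ((EIGx.in_iff P (x' i)).1 h)⟩, hc.bas.ideal N P fun j => ?_⟩
  exact ⟨n (x' j), hPn j, (hn (x' j)).symm⟩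

end Pool.Agent.MP_51db15_ag.Qh

end

section
/-! Row EVF: the eigenspaces on fields, endomorphisms and two-forms have finite dimension. -/

namespace Pool.Agent.MP_51db15_ag.Qh

open Module

noncomputable section

namespace EVFx

variable {K : Type} [Field K] [Algebra ℂ K]

/-- finitely many eigenvectors in a lattice span the space -/
theorem gens {M : Type} [AddCommGroup M] [Module K M] [Module ℂ M] [IsScalarTower ℂ K M]
    [FiniteDimensional K M] (δ : End ℂ M) (H : Submodule ℂ M) (hz : Dz δ H)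
    (hd : ∀ v : M, ∃ s : K, s ≠ 0 ∧ s • v ∈ H) :
    ∃ (J : Type) (_ : Fintype J) (u : J → M) (n : J → ℤ),
      (∀ j, u j ∈ H ∧ δ (u j) = (n j : ℂ) • u j) ∧
        ∀ (N : Type) [AddCommGroup N] [Module K N] (f : M →ₗ[K] N), (∀ j, f (u j) = 0) → f = 0 := by
  classical
  let T : Set M := {v | v ∈ H ∧ ∃ n : ℤ, δ v = (n : ℂ) • v}
  have hT : Submodule.span K T = ⊤ := by
    rw [eq_top_iff]
    intro v _
    obtain ⟨s, hs, hv⟩ := hd v
    have h1 : (⨆ n : ℤ, H ⊓ δ.eigenspace (n : ℂ)) ≤ (Submodule.span K T).restrictScalars ℂ := by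
      refine iSup_le fun n w hw => ?_
      exact Submodule.subset_span ⟨hw.1, n, End.mem_eigenspace_iff.mp hw.2⟩
    have h2 : s • v ∈ Submodule.span K T := h1 (hz _ hv)
    have h3 := Submodule.smul_mem _ s⁻¹ h2
    rwa [smul_smul, inv_mul_cancel₀ hs, one_smul] at h3
  obtain ⟨b, hb, hsp, hli⟩ := exists_linearIndependent K T
  have hfin : Finite b := hli.finite
  have hn : ∀ j : b, ∃ n : ℤ, δ (j : M) = (n : ℂ) • (j : M) := fun j => (hb j.2).2
  choose n hn using hn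
  refine ⟨b, Fintype.ofFinite b, fun j => j, n, fun j => ⟨(hb j.2).1, hn j⟩, ?_⟩
  intro N _ _ f hf
  refine LinearMap.ext_on (hsp.trans hT) fun v hv => ?_
  exact hf ⟨v, hv⟩

/-- value of a field at a function -/
def evD (g : K) : DD K →ₗ[ℂ] K where
  toFun D := D g
  map_add' _ _ := rfl
  map_smul' _ _ := rfl

/-- value of a one-form at a field -/
def evU (D : DD K) : DU K →ₗ[ℂ] K where
  toFun γ := γ D
  map_add' _ _ := rfl
  map_smul' _ _ := rfl

/-- value of an endomorphism -/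
def evE (v : MM K) : EE K →ₗ[ℂ] MM K where
  toFun a := a v
  map_add' _ _ := rfl
  map_smul' _ _ := rfl

/-- value of a two-form -/
def evF (D D' : DD K) : FF K →ₗ[ℂ] K where
  toFun η := η D D'
  map_add' _ _ := rfl
  map_smul' _ _ := rfl

theorem lie_ev (t D : DD K) (g : K) (c : ℂ) (h : t g = c • g) :
    ⁅t, D⁆ g = t (D g) - c • D g := by
  rw [Derivation.commutator_apply, h, Derivation.map_smul]

theorem ld_ev (t D : DD K) (γ : DU K) (c : ℂ) (h : ⁅t, D⁆ = c • D) :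
    ld t γ D = t (γ D) - c • γ D := by
  rw [ld_apply, h, lin_c]

/-- evaluations on pairs -/
def evL {ι J : Type} (x : ι → K) (u : J → DD K) : ι ⊕ J → MM K →ₗ[ℂ] K
  | .inl i => evD (x i) ∘ₗ LinearMap.fst ℂ (DD K) (DU K)
  | .inr j => evU (u j) ∘ₗ LinearMap.snd ℂ (DD K) (DU K)

end EVFx

open EVFx in
theorem evf (_g : GenK) (e : S_EVG) : S_EVF := by
  intro K ι _ _ _ S t x a hc hb he hv
  classical
  have := hb.fd
  obtain ⟨J, _, u, n, hu, hu0⟩ := gens (K := K) (ad t) (TC S) he.T fun D => by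
    obtain ⟨s, _, hs, h⟩ := hb.den D
    exact ⟨s, hs, h⟩
  obtain ⟨J', _, v, m, hv1, hv0⟩ := gens (K := K) (lam t) (LC S) he.L fun w => by
    obtain ⟨s, hs1, hs, h⟩ := hb.den w.1
    obtain ⟨s', hs1', hs', h'⟩ := hb.denD w.2
    refine ⟨s * s', mul_ne_zero hs hs', ?_, ?_⟩
    · have := (TT S).smul_mem ⟨s', hs1'⟩ h
      change s' • s • w.1 ∈ TT S at this
      rw [smul_smul, mul_comm] at this
      exact this
    · have := (TD S).smul_mem ⟨s, hs1⟩ h'
      change s • s' • w.2 ∈ TD S at this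
      rw [smul_smul] at this
      exact this
  let α : ι ⊕ J → ℤ := Sum.elim (fun i => (a i : ℤ)) n
  have hL1 : ∀ w ∈ LC S, ∀ k, evL x u k w ∈ SC S := by
    rintro w hw (i | j)
    · exact hw.1 _ (hb.mem i)
    · exact hw.2 _ (hu j).1
  have hL2 : ∀ w ∈ LC S, (∀ k, evL x u k w = 0) → w = 0 := fun w _ h =>
    Prod.ext (hb.ext _ _ fun i => h (.inl i)) (hu0 K w.2 fun j => h (.inr j))
  have hL3 : ∀ w ∈ LC S, ∀ k,
      evL x u k (lam t w) = op t (evL x u k w) - (α k : ℂ) • evL x u k w := by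
    rintro w _ (i | j)
    · exact lie_ev t w.1 (x i) _ (by simpa [α] using hc.eig i)
    · exact ld_ev t (u j) w.2 _ (hu j).2
  have hL : Fd (lam t) (LC S) :=
    (e _ _ _ (lam t) (op t) (LC S) (SC S) (evL x u) α (fun w hw => lam_mem he.tm hw)
      hL1 hL2 hL3).2 hv.fd
  refine ⟨?_, ?_, ?_, ?_⟩
  · refine (e _ _ _ (ad t) (op t) (TC S) (SC S) (fun i => evD (x i)) (fun i => (a i : ℤ))
      (fun D hD => lie_mem he.tm hD) (fun D hD i => hD _ (hb.mem i))
      (fun D _ h => hb.ext _ _ h) fun D _ i => ?_).2 hv.fd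
    exact lie_ev t D (x i) _ (by simpa using hc.eig i)
  · refine (e (EE K) _ _ (del t) (lam t) (EC S) (LC S) (fun j => evE (v j)) m
      (fun b hb' => del_mem he.tm hb') (fun b hb' j => (mem_EI S).mp hb' _ (hv1 j).1)
      (fun b _ h => hv0 _ b h) fun b _ j => ?_).2 hL
    change lam t (b (v j)) - b (lam t (v j)) = lam t (b (v j)) - (m j : ℂ) • b (v j)
    rw [(hv1 j).2, lin_c]
  · refine (e (FF K) _ (J × J) (lf t) (op t) (RF S) (SC S) (fun p => evF (u p.1) (u p.2))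
      (fun p => n p.1 + n p.2) (fun η h => lf_mem he.tm h)
      (fun η h p => (mem_RF S).mp h _ (hu p.1).1 _ (hu p.2).1)
      (fun η _ h => hu0 _ η fun j => hu0 _ (η (u j)) fun k => h (j, k)) fun η _ p => ?_).2 hv.fd
    have h1 : ⁅t, u p.1⁆ = (n p.1 : ℂ) • u p.1 := (hu p.1).2
    have h2 : ⁅t, u p.2⁆ = (n p.2 : ℂ) • u p.2 := (hu p.2).2
    change lf t η (u p.1) (u p.2) =
      t (η (u p.1) (u p.2)) - ((n p.1 + n p.2 : ℤ) : ℂ) • η (u p.1) (u p.2)
    rw [lf_apply, h1, h2, lin_c, lin_c, LinearMap.smul_apply, Int.cast_add, add_smul]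
    abel
  · refine ⟨-∑ k, |α k|, fun w hw r hr h => hL2 w hw fun k => ?_⟩
    by_contra h0
    have h1 := hL3 w hw k
    rw [h, map_smul] at h1
    have h2 : t (evL x u k w) = ((r + α k : ℤ) : ℂ) • evL x u k w := by
      rw [Int.cast_add, add_smul, h1, op_apply, sub_add_cancel]
    obtain ⟨q, hq⟩ := he.nat _ (hL1 w hw k) _ h0 h2
    have h3 : r + α k = q := by exact_mod_cast hq
    have h4 : |α k| ≤ ∑ k, |α k| :=
      Finset.single_le_sum (f := fun k => |α k|) (fun k _ => abs_nonneg _) (Finset.mem_univ k)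
    have h5 := le_abs_self (α k)
    omega

end

end Pool.Agent.MP_51db15_ag.Qh

end

section
/-! Row GEN: eigenspace decompositions. -/

namespace Pool.Agent.MP_51db15_ag.Qh

open Module Polynomial

namespace GENx

variable {U : Type} [AddCommGroup U] [Module ℂ U]

theorem kill (δ : End ℂ U) (c : ℂ) {u' : U}
    (h : u' ∈ ⨆ (c' : ℂ) (_ : c' ≠ c), δ.eigenspace c') :
    ∃ p : ℂ[X], p.eval c ≠ 0 ∧ aeval δ p u' = 0 := by
  rw [iSup_subtype'] at h
  refine Submodule.iSup_induction (motive := fun x => ∃ p : ℂ[X], p.eval c ≠ 0 ∧ aeval δ p x = 0)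
    _ h (fun c' x hx => ⟨X - C c'.1, ?_, ?_⟩) ⟨1, by simp, by simp⟩ ?_
  · simpa [sub_eq_zero] using c'.2.symm
  · rw [End.aeval_apply_of_mem_apply_eq_smul (End.mem_eigenspace_iff.1 hx)]
    simp
  · rintro x y ⟨p, h1, h2⟩ ⟨q, h3, h4⟩
    refine ⟨p * q, by simp [h1, h3], ?_⟩
    have e1 : aeval δ (p * q) x = 0 := by
      rw [mul_comm, map_mul, End.mul_apply, h2, map_zero]
    have e2 : aeval δ (p * q) y = 0 := by
      rw [map_mul, End.mul_apply, h4, map_zero]
    rw [map_add, e1, e2, add_zero]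

theorem cmp (δ : End ℂ U) (H : Submodule ℂ U) (c : ℂ) (u u' : U) (hH : ∀ v ∈ H, δ v ∈ H)
    (hu : δ u = c • u) (h : u' ∈ ⨆ (c' : ℂ) (_ : c' ≠ c), δ.eigenspace c') (k : u + u' ∈ H) :
    u ∈ H := by
  obtain ⟨p, h1, h2⟩ := kill δ c h
  have h3 := aeval_apply_smul_mem_of_le_comap k p δ hH
  rw [map_add, h2, add_zero, End.aeval_apply_of_mem_apply_eq_smul hu] at h3
  exact (H.smul_mem_iff h1).1 h3

theorem sub (δ : End ℂ U) (H H' : Submodule ℂ U) (h : Dz δ H) (hle : H' ≤ H)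
    (hH : ∀ v ∈ H', δ v ∈ H') : Dz δ H' := by
  intro u hu
  obtain ⟨f, h1, h2⟩ := (Submodule.mem_iSup_iff_exists_finsupp _ _).1 (h u (hle hu))
  refine (Submodule.mem_iSup_iff_exists_finsupp _ _).2 ⟨f, fun n => ⟨?_, (h1 n).2⟩, h2⟩
  by_cases hn : n ∈ f.support
  · refine cmp δ H' n (f n) (∑ m ∈ f.support.erase n, f m) hH
      (End.mem_eigenspace_iff.1 (h1 n).2) (Submodule.sum_mem _ fun m hm => ?_) ?_
    · refine Submodule.mem_iSup_of_mem (m : ℂ) (Submodule.mem_iSup_of_mem ?_ (h1 m).2)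
      exact_mod_cast (Finset.mem_erase.1 hm).1
    · rw [Finset.add_sum_erase _ (fun m => f m) hn]
      exact (show ∑ m ∈ f.support, f m = u from h2) ▸ hu
  · rw [Finsupp.notMem_support_iff.1 hn]
    exact H'.zero_mem

theorem joint (δ δ' : End ℂ U) (H : Submodule ℂ U) (h : Dz δ H) (hf : Fd δ H)
    (hH : ∀ v ∈ H, δ' v ∈ H) (hc : ∀ v, δ (δ' v) = δ' (δ v)) (u : U) (hu : u ∈ H) :
    u ∈ ⨆ p : ℤ × ℂ, H ⊓ δ.eigenspace (p.1 : ℂ) ⊓ δ'.maxGenEigenspace p.2 := by
  refine (iSup_le fun n x hx => ?_ : (⨆ n : ℤ, H ⊓ δ.eigenspace (n : ℂ)) ≤ _) (h u hu)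
  have := hf n
  have hK : ∀ v ∈ H ⊓ δ.eigenspace (n : ℂ), δ' v ∈ H ⊓ δ.eigenspace (n : ℂ) := fun v hv =>
    ⟨hH v hv.1, End.mem_eigenspace_iff.2 (by
      rw [hc, End.mem_eigenspace_iff.1 hv.2, map_smul])⟩
  have k : (⟨x, hx⟩ : ↥(H ⊓ δ.eigenspace (n : ℂ))) ∈
      ⨆ μ : ℂ, End.maxGenEigenspace (δ'.restrict hK) μ := by
    rw [End.iSup_maxGenEigenspace_eq_top]
    trivial
  refine Submodule.iSup_induction (motive := fun y : ↥(H ⊓ δ.eigenspace (n : ℂ)) =>
    y.1 ∈ ⨆ p : ℤ × ℂ, H ⊓ δ.eigenspace (p.1 : ℂ) ⊓ δ'.maxGenEigenspace p.2) _ k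
    (fun μ y hy => ?_) (Submodule.zero_mem _) fun y z hy hz => Submodule.add_mem _ hy hz
  rw [End.maxGenEigenspace, End.genEigenspace_restrict] at hy
  exact Submodule.mem_iSup_of_mem (n, μ) ⟨y.2, hy⟩

theorem pw {V W : Type} [AddCommGroup V] [Module ℂ V] [AddCommGroup W] [Module ℂ W]
    (a : End ℂ U) (b : End ℂ V) (c : End ℂ W) (B : U →ₗ[ℂ] V →ₗ[ℂ] W)
    (h : ∀ u v, c (B u v) = B (a u) v + B u (b v)) (N : ℕ) : ∀ (m n : ℕ) (u : U) (v : V),
    m + n = N → (a ^ m) u = 0 → (b ^ n) v = 0 → (c ^ N) (B u v) = 0 := by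
  induction N with
  | zero =>
    intro m n u v e h1 _
    obtain rfl : m = 0 := by omega
    obtain rfl : u = 0 := h1
    simp
  | succ N ih =>
    intro m n u v e h1 h2
    rcases m with _ | m
    · obtain rfl : u = 0 := h1
      simp
    rcases n with _ | n
    · obtain rfl : v = 0 := h2
      simp
    rw [pow_succ, End.mul_apply, h, map_add, ih m (n + 1) (a u) v (by omega) h1 h2,
      ih (m + 1) n u (b v) (by omega) h1 h2, add_zero]

end GENx

theorem gen : GenK where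
  cmp := fun _ _ _ => GENx.cmp
  sub := fun _ _ _ => GENx.sub
  joint := fun _ _ _ => GENx.joint
  bil := by
    intro U V W _ _ _ _ _ _ δU δV δW B α β u v h hu hv
    obtain ⟨m, hm⟩ := (End.mem_maxGenEigenspace _ _ _).1 hu
    obtain ⟨n, hn⟩ := (End.mem_maxGenEigenspace _ _ _).1 hv
    refine (End.mem_maxGenEigenspace _ _ _).2 ⟨m + n, GENx.pw _ _ _ B (fun x y => ?_) _ m n u v
      rfl hm hn⟩
    simp only [LinearMap.sub_apply, LinearMap.add_apply, LinearMap.smul_apply, End.one_apply,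
      map_sub, map_smul, h, add_smul]
    abel

end Pool.Agent.MP_51db15_ag.Qh

end

section
/-! PROJECT QH, row HAM: homogeneous Hamiltonian fields. -/

namespace Pool.Agent.MP_51db15_ag.Qh

open Module

namespace HAMx

theorem zero_of (g : GenK) {U : Type} [AddCommGroup U] [Module ℂ U] (δ : End ℂ U) (c : ℂ) (u : U)
    (h : δ u = c • u) (h' : u ∈ ⨆ (c' : ℂ) (_ : c' ≠ c), δ.eigenspace c') : u = 0 :=
  g.cmp U δ ⊥ c u (-u) (fun v hv => by rw [(Submodule.mem_bot ℂ).1 hv, map_zero]; rfl) h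
    (neg_mem h') (by simp)

theorem mem_ne {U : Type} [AddCommGroup U] [Module ℂ U] (δ : End ℂ U) {c c' : ℂ} {u : U}
    (h : δ u = c' • u) (hc : c' ≠ c) : u ∈ ⨆ (c' : ℂ) (_ : c' ≠ c), δ.eigenspace c' :=
  Submodule.mem_iSup_of_mem c' (Submodule.mem_iSup_of_mem hc (End.mem_eigenspace_iff.2 h))

variable {K ι : Type} [Field K] [Algebra ℂ K]

theorem eig_mul (t : DD K) {u v : K} {c d : ℂ} (hu : t u = c • u) (hv : t v = d • v) :
    t (u * v) = (c + d) • (u * v) := by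
  rw [Derivation.leibniz, hu, hv]
  simp only [smul_eq_mul, Algebra.smul_def, map_add]
  ring

theorem eig_pow (t : DD K) {u : K} {c : ℂ} (hu : t u = c • u) (k : ℕ) :
    t (u ^ k) = ((k : ℂ) * c) • u ^ k := by
  induction k with
  | zero => simp
  | succ k ih =>
    rw [pow_succ, eig_mul t ih hu]
    congr 1
    push_cast
    ring

theorem eig_mon (t : DD K) (x : ι → K) (a : ι → ℕ) (h : ∀ i, t (x i) = (a i : ℂ) • x i)
    (α : ι →₀ ℕ) : ∀ c : ℂ, t (MvPolynomial.aeval x (MvPolynomial.monomial α c)) =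
      ((Finsupp.weight (fun i => (a i : ℚ)) α : ℚ) : ℂ) •
        MvPolynomial.aeval x (MvPolynomial.monomial α c) := by
  induction α using Finsupp.induction_linear with
  | zero => intro c; simp
  | add α β h1 h2 =>
    intro c
    rw [← mul_one c, ← MvPolynomial.monomial_mul, map_mul, eig_mul t (h1 c) (h2 1), map_add]
    congr 1
    push_cast
    rfl
  | single i k =>
    intro c
    have h0 : t (algebraMap ℂ K c) = (0 : ℂ) • algebraMap ℂ K c := by simp
    rw [← MvPolynomial.C_mul_X_pow_eq_monomial, map_mul, map_pow, MvPolynomial.aeval_C,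
      MvPolynomial.aeval_X, eig_mul t h0 (eig_pow t (h i) k), Finsupp.weight_single]
    congr 1
    simp

theorem comp (t : DD K) (x : ι → K) (a : ι → ℕ) (h : ∀ i, t (x i) = (a i : ℂ) • x i) (e : ℚ)
    (p : MvPolynomial ι ℂ) : ∃ θ : MvPolynomial ι ℂ,
      (∀ α, θ.coeff α ≠ 0 → Finsupp.weight (fun i => (a i : ℚ)) α = e) ∧
      t (MvPolynomial.aeval x θ) = (e : ℂ) • MvPolynomial.aeval x θ ∧
      MvPolynomial.aeval x p - MvPolynomial.aeval x θ ∈
        ⨆ (c' : ℂ) (_ : c' ≠ (e : ℂ)), (op t).eigenspace c' := by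
  classical
  induction p using MvPolynomial.induction_on' with
  | monomial α c =>
    by_cases hα : Finsupp.weight (fun i => (a i : ℚ)) α = e
    · refine ⟨MvPolynomial.monomial α c, fun β hβ => ?_, hα ▸ eig_mon t x a h α c, by simp⟩
      rw [MvPolynomial.coeff_monomial] at hβ
      by_cases e1 : α = β
      · exact e1 ▸ hα
      · exact absurd (if_neg e1) hβ
    · refine ⟨0, fun β hβ => absurd rfl hβ, by simp, ?_⟩
      rw [map_zero, sub_zero]
      exact mem_ne (op t) (eig_mon t x a h α c) fun e1 => hα (by exact_mod_cast e1)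
  | add p q hp hq =>
    obtain ⟨θ, p1, p2, p3⟩ := hp
    obtain ⟨θ', q1, q2, q3⟩ := hq
    refine ⟨θ + θ', fun β hβ => ?_, by rw [map_add, map_add, p2, q2, smul_add], ?_⟩
    · by_cases e1 : θ.coeff β = 0
      · exact q1 β fun e2 => hβ (by rw [MvPolynomial.coeff_add, e1, e2, add_zero])
      · exact p1 β e1
    · rw [map_add, map_add, add_sub_add_comm]
      exact add_mem p3 q3

theorem ld_dd (t : DD K) {y : K} {c : ℂ} (h : t y = c • y) : ld t (dd y) = c • dd y := by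
  ext D
  simp [Derivation.commutator_apply, h]

theorem ld_om (t : DD K) (ω : FF K) (w : ℂ) (h : lf t ω = w • ω) (D : DD K) :
    ld t (ω D) = w • ω D + ω ⁅t, D⁆ := by
  have h1 : ld t (ω D) - ω ⁅t, D⁆ = w • ω D := congrArg (fun η : FF K => η D) h
  rw [← h1, sub_add_cancel]

theorem ld_om' (t : DD K) (ω : FF K) (w c : ℂ) (h : lf t ω = w • ω) {D : DD K}
    (hD : ⁅t, D⁆ = c • D) : ld t (ω D) = (w + c) • ω D := by
  rw [ld_om t ω w h, hD, lin_c, add_smul]

theorem rest [Fintype ι] {S : Subalgebra ℂ K} {t : DD K} {x : ι → K} {a : ι → ℕ}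
    (hC : Cone S t x a) (i : ι) (b : S) (hb : b ∈ vx S x) : ∀ s ∈ S,
      (s * (b : K)) • dd (x i) ∈ ⨆ (c' : ℂ) (_ : c' ≠ (a i : ℂ)), (ld t).eigenspace c' := by
  induction hb using Submodule.span_induction with
  | mem b hb =>
    obtain ⟨j, hj⟩ := hb
    intro s hs
    rw [hj]
    refine Submodule.iSup_induction _ (motive := fun s : K => (s * x j) • dd (x i) ∈
      ⨆ (c' : ℂ) (_ : c' ≠ (a i : ℂ)), (ld t).eigenspace c') (hC.ev.s s hs) ?_ (by simp) ?_
    · intro n s hs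
      by_cases s0 : s = 0
      · simp [s0]
      have h1 : t s = (n : ℂ) • s := End.mem_eigenspace_iff.1 hs.2
      obtain ⟨m, hm⟩ := hC.ev.nat s hs.1 _ s0 h1
      refine mem_ne (ld t) (c' := (a i : ℂ) + ((n : ℂ) + a j)) ?_ ?_
      · rw [ld_smul, ld_dd t (hC.cx.eig i), eig_mul t h1 (hC.cx.eig j), add_smul (a i : ℂ),
          smul_assoc, smul_comm]
      · rw [hm]
        have := hC.pos j
        intro e
        have e2 : a i + (m + a j) = a i := by exact_mod_cast e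
        omega
    · intro s s' h h'
      rw [add_mul, add_smul]
      exact add_mem h h'
  | zero => intro s _; simp
  | add b b' _ _ h h' =>
    intro s hs
    rw [Subalgebra.coe_add, mul_add, add_smul]
    exact add_mem (h s hs) (h' s hs)
  | smul r b _ h =>
    intro s hs
    rw [smul_eq_mul, Subalgebra.coe_mul, ← mul_assoc]
    exact h _ (mul_mem hs r.2)

end HAMx

open HAMx in
theorem ham (g : GenK) : S_HAM := by
  intro K ι _ _ _ S t x a ω w hC hω hP i
  obtain ⟨r, -, ⟨b, hb, hrb⟩, hr⟩ := hP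
  let M : Submodule ℂ (DU K) :=
    { carrier := {γ | ∃ D ∈ TT S, ω D = γ}
      add_mem' := by
        rintro _ _ ⟨D, h, rfl⟩ ⟨D', h', rfl⟩
        exact ⟨D + D', add_mem h h', map_add _ _ _⟩
      zero_mem' := ⟨0, zero_mem _, map_zero _⟩
      smul_mem' := by
        rintro c _ ⟨D, h, rfl⟩
        exact ⟨c • D, (TC S).smul_mem c h, lin_c _ _ _⟩ }
  have hx := ld_dd t (hC.cx.eig i)
  have hM : dd (x i) ∈ M := by
    refine g.cmp (DU K) (ld t) M (a i) (dd (x i)) ((1 * (b : K)) • dd (x i)) ?_ hx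
      (rest hC i b hb 1 (one_mem S)) ?_
    · rintro _ ⟨D, h, rfl⟩
      exact ⟨(w : ℂ) • D + ⁅t, D⁆, add_mem ((TC S).smul_mem _ h) (lie_mem hC.ev.tm h),
        by rw [ld_om t ω w hω, map_add, lin_c]⟩
    · obtain ⟨D, h1, h2⟩ := hr _ (dd_mem (hC.bas.mem i))
      refine ⟨D, h1, ?_⟩
      rw [h2, ← hrb, one_mul]
      ext Y
      simp only [LinearMap.smul_apply, LinearMap.add_apply, smul_eq_mul]
      ring
  obtain ⟨D, hD, hD2⟩ := hM
  have key : ∃ H ∈ TT S, ⁅t, H⁆ = ((a i : ℂ) - w) • H ∧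
      ω D - ω H ∈ ⨆ (c' : ℂ) (_ : c' ≠ (a i : ℂ)), (ld t).eigenspace c' := by
    refine Submodule.iSup_induction _ (motive := fun D : DD K => ∃ H ∈ TT S,
      ⁅t, H⁆ = ((a i : ℂ) - w) • H ∧
        ω D - ω H ∈ ⨆ (c' : ℂ) (_ : c' ≠ (a i : ℂ)), (ld t).eigenspace c') (hC.ev.T D hD) ?_
      ⟨0, zero_mem _, by simp, by simp⟩ ?_
    · intro n D hD
      have h1 : ⁅t, D⁆ = (n : ℂ) • D := End.mem_eigenspace_iff.1 hD.2
      by_cases e : (n : ℂ) = (a i : ℂ) - w
      · exact ⟨D, hD.1, e ▸ h1, by simp⟩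
      · refine ⟨0, zero_mem _, by simp, ?_⟩
        rw [map_zero, sub_zero]
        exact mem_ne (ld t) (ld_om' t ω w n hω h1) fun e1 => e (by rw [← e1]; ring)
    · rintro D D' ⟨H, p1, p2, p3⟩ ⟨H', q1, q2, q3⟩
      refine ⟨H + H', add_mem p1 q1, by rw [lie_add, p2, q2, smul_add], ?_⟩
      rw [map_add, map_add, add_sub_add_comm]
      exact add_mem p3 q3
  obtain ⟨H, h1, h2, h3⟩ := key
  have h4 : ω D - ω H = 0 := by
    refine zero_of g (ld t) (a i) _ ?_ h3
    rw [map_sub, ld_om' t ω w _ hω h2, hD2, hx, add_sub_cancel, smul_sub]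
  refine ⟨H, h1, by rw [← hD2, sub_eq_zero.1 h4], fun j => ?_⟩
  have h5 : t (H (x j)) = ((((a i : ℚ) + a j - w : ℚ)) : ℂ) • H (x j) := by
    have h6 : t (H (x j)) - H (t (x j)) = ((a i : ℂ) - w) • H (x j) := by
      rw [← Derivation.commutator_apply, h2]
      rfl
    rw [hC.cx.eig j, Derivation.map_smul, sub_eq_iff_eq_add, ← add_smul] at h6
    rw [h6]
    congr 1
    push_cast
    ring
  have h7 : H (x j) ∈ Algebra.adjoin ℂ (Set.range x) := hC.cx.gen ▸ h1 _ (hC.bas.mem j)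
  rw [Algebra.adjoin_range_eq_range_aeval] at h7
  obtain ⟨p, hp⟩ := h7
  have hp' : MvPolynomial.aeval x p = H (x j) := hp
  obtain ⟨θ, t1, t2, t3⟩ := comp t x a hC.cx.eig ((a i : ℚ) + a j - w) p
  rw [hp'] at t3
  refine ⟨θ, sub_eq_zero.1 (zero_of g (op t) _ _ ?_ t3), fun α hα => t1 α ?_⟩
  · rw [op_apply, map_sub, h5, t2, smul_sub]
  · rwa [MvPolynomial.coeff_coe] at hα

end Pool.Agent.MP_51db15_ag.Qh

end

section
/-! The scaling automorphisms act on homogeneous forms by scalars. -/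

namespace Pool.Agent.MP_51db15_ag.Qh

open Module

namespace SIGx

theorem dz_ind {U : Type} [AddCommGroup U] [Module ℂ U] {δ : End ℂ U} {H : Submodule ℂ U}
    (h : Dz δ H) (p : U → Prop) (h0 : p 0) (ha : ∀ u v, p u → p v → p (u + v))
    (hh : ∀ u ∈ H, ∀ n : ℤ, δ u = (n : ℂ) • u → p u) : ∀ u ∈ H, p u := fun u hu =>
  Submodule.iSup_induction (motive := p) _ (h u hu)
    (fun n v hv => hh v hv.1 n (End.mem_eigenspace_iff.1 hv.2)) h0 ha

variable {K : Type} [Field K] [Algebra ℂ K] {S : Subalgebra ℂ K} {t : DD K}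

theorem s_ind (ev : Ev S t) (p : S → Prop) (h0 : p 0) (ha : ∀ u v, p u → p v → p (u + v))
    (hh : ∀ (g : S) (n : ℤ), t g = (n : ℂ) • (g : K) → p g) (g : S) : p g := by
  obtain ⟨_, h⟩ := dz_ind ev.s (fun u => ∃ h : u ∈ S, p ⟨u, h⟩) ⟨zero_mem S, h0⟩
    (fun u v ⟨a, a'⟩ ⟨b, b'⟩ => ⟨add_mem a b, ha _ _ a' b'⟩)
    (fun u hu n e => ⟨hu, hh ⟨u, hu⟩ n e⟩) g.1 g.2
  exact h

theorem d_ind {ι : Type} {x : ι → K} (bas : Bas S x) (ev : Ev S t) (p : DD K → Prop) (h0 : p 0)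
    (ha : ∀ u v, p u → p v → p (u + v)) (hs : ∀ (g : K) u, p u → p (g • u))
    (hh : ∀ u ∈ TT S, ∀ n : ℤ, ⁅t, u⁆ = (n : ℂ) • u → p u) (D : DD K) : p D := by
  obtain ⟨s, -, s0, h⟩ := bas.den D
  have := hs s⁻¹ _ (dz_ind ev.T p h0 ha hh _ h)
  rwa [inv_smul_smul₀ s0] at this

theorem phi (ev : Ev S t) (μ : S →ₐ[ℂ] Polynomial K)
    (hμ : ∀ (g : S) (n : ℕ), t g = (n : ℂ) • (g : K) → μ g = Polynomial.monomial n (g : K))
    (c : ℂ) : ∃ φ : S →ₐ[ℂ] S, ∀ (g : S) (n : ℤ), t g = (n : ℂ) • (g : K) → φ g = c ^ n • g := by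
  let f : S →ₐ[ℂ] K :=
    ((Polynomial.aeval (algebraMap ℂ K c) : Polynomial K →ₐ[K] K).restrictScalars ℂ).comp μ
  have h1 : ∀ (g : S) (n : ℤ), t g = (n : ℂ) • (g : K) → f g = c ^ n • (g : K) := by
    intro g n e
    by_cases g0 : g = 0
    · rw [g0, map_zero, ZeroMemClass.coe_zero, smul_zero]
    · obtain ⟨m, hm⟩ := ev.nat g g.2 n (fun k => g0 (Subtype.ext k)) e
      obtain rfl : n = m := by exact_mod_cast hm
      have := hμ g m (by rw [e, hm])
      change Polynomial.aeval (algebraMap ℂ K c) (μ g) = _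
      rw [this, Polynomial.aeval_monomial, zpow_natCast, Algebra.smul_def, map_pow, mul_comm]
      rfl
  have h2 : ∀ g, f g ∈ S := s_ind ev _ (by rw [map_zero]; exact zero_mem S)
    (fun u v a b => by rw [map_add]; exact add_mem a b)
    fun g n e => by rw [h1 g n e]; exact S.smul_mem g.2 _
  exact ⟨f.codRestrict S h2, fun g n e => Subtype.ext (h1 g n e)⟩

theorem phi_inv (ev : Ev S t) {c c' : ℂ} (hc : c * c' = 1) {φ ψ : S →ₐ[ℂ] S}
    (h1 : ∀ (g : S) (n : ℤ), t g = (n : ℂ) • (g : K) → φ g = c ^ n • g)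
    (h2 : ∀ (g : S) (n : ℤ), t g = (n : ℂ) • (g : K) → ψ g = c' ^ n • g) :
    ψ.comp φ = AlgHom.id ℂ S :=
  AlgHom.ext (s_ind ev (fun g => ψ (φ g) = g) (by simp)
    (fun u v a b => by rw [map_add, map_add, a, b]) fun g n e => by
      rw [h1 g n e, map_smul, h2 g n e, smul_smul, ← mul_zpow, hc, one_zpow, one_smul])

/-- conjugation of a field -/
noncomputable def cj (σ : K ≃ₐ[ℂ] K) (X : DD K) : DD K :=
  Derivation.mk' (σ.toLinearMap ∘ₗ X.toLinearMap ∘ₗ σ.symm.toLinearMap) fun a b => by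
    change σ (X (σ.symm (a * b))) = a • σ (X (σ.symm b)) + b • σ (X (σ.symm a))
    simp only [map_mul, Derivation.leibniz, map_add, smul_eq_mul, AlgEquiv.apply_symm_apply]

theorem cj_apply (σ : K ≃ₐ[ℂ] K) (X : DD K) (y : K) : cj σ X y = σ (X (σ.symm y)) := rfl

theorem cj_zero (σ : K ≃ₐ[ℂ] K) : cj σ 0 = 0 := by
  ext y
  simp [cj_apply]

theorem cj_add (σ : K ≃ₐ[ℂ] K) (X Y : DD K) : cj σ (X + Y) = cj σ X + cj σ Y := by
  ext y
  simp [cj_apply]

theorem cj_smul (σ : K ≃ₐ[ℂ] K) (g : K) (X : DD K) : cj σ (g • X) = σ g • cj σ X := by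
  ext y
  simp [cj_apply]

theorem cj_eq {σ : K ≃ₐ[ℂ] K} {X X' : DD K} (h : ∀ y, X' (σ y) = σ (X y)) : X' = cj σ X := by
  ext y
  rw [cj_apply, ← h, AlgEquiv.apply_symm_apply]

end SIGx

open SIGx in
theorem sig (s : S_SCA) : S_SIG := by
  intro K ι _ _ _ S t x a cx bas ev c hc
  obtain ⟨μ, hμ⟩ := s K ι S t x a cx bas ev
  obtain ⟨φ, h1⟩ := phi ev μ hμ c
  obtain ⟨ψ, h2⟩ := phi ev μ hμ c⁻¹
  have : IsFractionRing S K := IsFractionRing.of_field S K fun z => by
    obtain ⟨g, hg, h, hh, -, e⟩ := cx.frac z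
    exact ⟨⟨g, hg⟩, ⟨h, hh⟩, e⟩
  let e : S ≃ₐ[ℂ] S := AlgEquiv.ofAlgHom φ ψ (phi_inv ev (inv_mul_cancel₀ hc) h2 h1)
    (phi_inv ev (mul_inv_cancel₀ hc) h1 h2)
  let σ : K ≃ₐ[ℂ] K := IsFractionRing.algEquivOfAlgEquiv e
  have s1 : ∀ g : S, σ g = φ g := fun g => IsFractionRing.algEquivOfAlgEquiv_algebraMap e g
  have s2 : ∀ g ∈ S, ∀ n : ℤ, t g = (n : ℂ) • g → σ g = c ^ n • g := fun g hg n k =>
    (s1 ⟨g, hg⟩).trans (congrArg Subtype.val (h1 ⟨g, hg⟩ n k))
  have s3 : ∀ X ∈ TT S, ∀ p : ℤ, ⁅t, X⁆ = (p : ℂ) • X → cj σ X = c ^ p • X := by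
    intro X hX p k
    refine bas.ext _ _ fun i => ?_
    have e1 := s2 (x i) (bas.mem i) (a i) (by rw [cx.eig i, Int.cast_natCast])
    have e2 := s2 (X (x i)) (hX _ (bas.mem i)) (a i + p) (by
      have := DFunLike.congr_fun k (x i)
      rw [Derivation.commutator_apply, cx.eig i, Derivation.map_smul, Derivation.smul_apply,
        sub_eq_iff_eq_add'] at this
      rw [this, Int.cast_add, Int.cast_natCast, add_smul])
    have e3 : cj σ X (σ (x i)) = σ (X (x i)) := by rw [cj_apply, AlgEquiv.symm_apply_apply]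
    rw [e1, e2, Derivation.map_smul, zpow_add₀ hc, mul_smul] at e3
    exact smul_right_injective K (zpow_ne_zero _ hc) e3
  refine ⟨σ, fun g hg => by rw [show σ g = _ from s1 ⟨g, hg⟩]; exact (φ ⟨g, hg⟩).2, ?_⟩
  intro η hη n k X Y X' Y' hX hY
  rw [cj_eq hX, cj_eq hY]
  refine d_ind bas ev (fun X => σ (η X Y) = c ^ n • η (cj σ X) (cj σ Y)) (by simp [cj_zero])
    (fun u v a b => by simp only [cj_add, map_add, LinearMap.add_apply, a, b, smul_add])
    (fun g u a => by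
      simp only [cj_smul, map_smul, LinearMap.smul_apply, smul_eq_mul, map_mul, a, mul_smul_comm])
    (fun X hX p kp => ?_) X
  refine d_ind bas ev (fun Y => σ (η X Y) = c ^ n • η (cj σ X) (cj σ Y)) (by simp [cj_zero])
    (fun u v a b => by simp only [cj_add, map_add, a, b, smul_add])
    (fun g u a => by simp only [cj_smul, map_smul, smul_eq_mul, map_mul, a, mul_smul_comm])
    (fun Y hY q kq => ?_) Y
  have e1 := lf_apply t η X Y
  rw [k, kp, kq, lin_c, lin_c η, LinearMap.smul_apply, LinearMap.smul_apply,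
    LinearMap.smul_apply] at e1
  have e2 := s2 _ (hη X hX Y hY) (n + (q + p)) (by
    rw [Int.cast_add, Int.cast_add, add_smul, add_smul, e1]
    abel)
  change σ (η X Y) = c ^ n • η (cj σ X) (cj σ Y)
  rw [e2, s3 X hX p kp, s3 Y hY q kq, lin_c, lin_c η, LinearMap.smul_apply, zpow_add₀ hc,
    zpow_add₀ hc, mul_smul, mul_smul]

end Pool.Agent.MP_51db15_ag.Qh

end

section
/-! Row HCLO: the homogeneous components of a closed form on the completion are closed. -/

namespace Pool.Agent.MP_51db15_ag.Qh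

open Module

namespace HCLOx

variable {K R : Type} [Field K] [Algebra ℂ K] [CommRing R] [Algebra ℂ R]

theorem cf_zero (μ : R →ₐ[ℂ] PowerSeries K) (n : ℤ) : cf μ n 0 = 0 := by
  unfold cf
  split_ifs <;> simp

theorem cf_add (μ : R →ₐ[ℂ] PowerSeries K) (n : ℤ) (r s : R) :
    cf μ n (r + s) = cf μ n r + cf μ n s := by
  unfold cf
  split_ifs <;> simp

theorem cf_sub (μ : R →ₐ[ℂ] PowerSeries K) (n : ℤ) (r s : R) :
    cf μ n (r - s) = cf μ n r - cf μ n s := by
  unfold cf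
  split_ifs <;> simp

theorem lft_lie {S : Subalgebra ℂ K} {i0 : S →ₐ[ℂ] R} {X Y : DD K} {X' Y' : DR R}
    (hX : X ∈ TT S) (hY : Y ∈ TT S) (lX : Lft i0 X X') (lY : Lft i0 Y Y') :
    Lft i0 ⁅X, Y⁆ ⁅X', Y'⁆ := by
  intro g g' h
  rw [Derivation.commutator_apply, lY g ⟨Y g, hY _ g.2⟩ rfl, lX g ⟨X g, hX _ g.2⟩ rfl,
    lX _ ⟨X (Y g), hX _ (hY _ g.2)⟩ rfl, lY _ ⟨Y (X g), hY _ (hX _ g.2)⟩ rfl, ← map_sub]
  congr 1
  apply Subtype.ext
  rw [h, Derivation.commutator_apply]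
  rfl

theorem wt_lie {E X Y : DD K} {p q : ℤ} (hX : ⁅E, X⁆ = (p : ℂ) • X) (hY : ⁅E, Y⁆ = (q : ℂ) • Y) :
    ⁅E, ⁅X, Y⁆⁆ = ((p + q : ℤ) : ℂ) • ⁅X, Y⁆ := by
  rw [leibniz_lie, hX, hY, smul_lie, lie_smul, Int.cast_add, add_smul]

/-- the Cartan expression -/
def Ca (η : FF K) (X Y Z : DD K) : K :=
  X (η Y Z) - Y (η X Z) + Z (η X Y) - η ⁅X, Y⁆ Z + η ⁅X, Z⁆ Y - η ⁅Y, Z⁆ X

theorem tri {ι : Type} {S : Subalgebra ℂ K} {E : DD K} {x : ι → K} (bas : Bas S x) (ev : Ev S E)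
    (η : FF K) (sk : ∀ X Y, η X Y + η Y X = 0)
    (h : ∀ X ∈ TT S, ∀ p : ℤ, ⁅E, X⁆ = (p : ℂ) • X → ∀ Y ∈ TT S, ∀ q : ℤ, ⁅E, Y⁆ = (q : ℂ) • Y →
      ∀ Z ∈ TT S, ∀ r : ℤ, ⁅E, Z⁆ = (r : ℂ) • Z → Ca η X Y Z = 0) (X Y Z : DD K) :
    Ca η X Y Z = 0 := by
  refine SIGx.d_ind bas ev (fun X => Ca η X Y Z = 0) (by simp [Ca]) (fun u v a b => ?_)
    (fun g u a => ?_) (fun X hX p kp => ?_) X
  · simp only [Ca, map_add, add_lie, LinearMap.add_apply, Derivation.add_apply] at a b ⊢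
    linear_combination a + b
  · simp only [Ca, smul_lie', map_sub, map_smul, LinearMap.sub_apply, LinearMap.smul_apply,
      Derivation.smul_apply, smul_eq_mul, Derivation.leibniz] at a ⊢
    linear_combination g * a
  refine SIGx.d_ind bas ev (fun Y => Ca η X Y Z = 0) (by simp [Ca]) (fun u v a b => ?_)
    (fun g u a => ?_) (fun Y hY q kq => ?_) Y
  · simp only [Ca, map_add, add_lie, lie_add, LinearMap.add_apply, Derivation.add_apply] at a b ⊢
    linear_combination a + b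
  · simp only [Ca, smul_lie', lie_smul', map_sub, map_add, map_smul, LinearMap.sub_apply,
      LinearMap.add_apply, LinearMap.smul_apply, Derivation.smul_apply, smul_eq_mul,
      Derivation.leibniz] at a ⊢
    linear_combination g * a + Z g * sk X u
  refine SIGx.d_ind bas ev (fun Z => Ca η X Y Z = 0) (by simp [Ca]) (fun u v a b => ?_)
    (fun g u a => ?_) (fun Z hZ r kr => h X hX p kp Y hY q kq Z hZ r kr) Z
  · simp only [Ca, map_add, lie_add, LinearMap.add_apply, Derivation.add_apply] at a b ⊢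
    linear_combination a + b
  · simp only [Ca, lie_smul', map_add, map_smul, LinearMap.add_apply, LinearMap.smul_apply,
      Derivation.smul_apply, smul_eq_mul, Derivation.leibniz] at a ⊢
    linear_combination g * a + X g * sk Y u - Y g * sk X u

end HCLOx

open HCLOx in
theorem hclo : S_HCLO := by
  intro K ι R _ _ _ _ _ S E x a μ i0 ω η hc _ hl hm hω n
  have sk : ∀ X Y, η n X Y + η n Y X = 0 := fun X Y => by
    refine SIGx.d_ind hc.bas hc.ev (fun X => η n X Y + η n Y X = 0) (by simp) (fun u v a b => ?_)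
      (fun g u a => ?_) (fun X hX p kp => ?_) X
    · simp only [map_add, LinearMap.add_apply]
      linear_combination a + b
    · simp only [map_smul, LinearMap.smul_apply, smul_eq_mul]
      linear_combination g * a
    refine SIGx.d_ind hc.bas hc.ev (fun Y => η n X Y + η n Y X = 0) (by simp) (fun u v a b => ?_)
      (fun g u a => ?_) (fun Y hY q kq => ?_) Y
    · simp only [map_add, LinearMap.add_apply]
      linear_combination a + b
    · simp only [map_smul, LinearMap.smul_apply, smul_eq_mul]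
      linear_combination g * a
    obtain ⟨X', lX⟩ := hl.ex X hX
    obtain ⟨Y', lY⟩ := hl.ex Y hY
    rw [hm n p q X hX Y hY X' Y' kp kq lX lY, hm n q p Y hY X hX Y' X' kq kp lY lX,
      add_right_comm n q p, ← cf_add, ← hω.1.neg_eq X' Y', add_neg_cancel, cf_zero]
  refine ⟨fun X => ?_, tri hc.bas hc.ev (η n) sk fun X hX p kp Y hY q kq Z hZ r kr => ?_⟩
  · have : CharZero K := charZero_of_injective_algebraMap (algebraMap ℂ K).injective
    have h := sk X X
    rw [← two_mul] at h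
    exact (mul_eq_zero.1 h).resolve_left two_ne_zero
  obtain ⟨X', lX⟩ := hl.ex X hX
  obtain ⟨Y', lY⟩ := hl.ex Y hY
  obtain ⟨Z', lZ⟩ := hl.ex Z hZ
  have e := congrArg (cf μ (n + p + q + r)) (hω.2.1 X' Y' Z')
  rw [cf_zero, cf_sub, cf_add, cf_sub, cf_add, cf_sub] at e
  unfold Ca
  rw [hm n q r Y hY Z hZ Y' Z' kq kr lY lZ, hm n p r X hX Z hZ X' Z' kp kr lX lZ,
    hm n p q X hX Y hY X' Y' kp kq lX lY,
    hm n (p + q) r _ (lie_mem hX hY) Z hZ _ Z' (wt_lie kp kq) kr (lft_lie hX hY lX lY) lZ,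
    hm n (p + r) q _ (lie_mem hX hZ) Y hY _ Y' (wt_lie kp kr) kq (lft_lie hX hZ lX lZ) lY,
    hm n (q + r) p _ (lie_mem hY hZ) X hX _ X' (wt_lie kq kr) kp (lft_lie hY hZ lY lZ) lX,
    ← hl.sh X hX p X' kp lX, ← hl.sh Y hY q Y' kq lY, ← hl.sh Z hZ r Z' kr lZ,
    show n + q + r + p = n + p + q + r by ring, show n + p + r + q = n + p + q + r by ring,
    show n + (p + q) + r = n + p + q + r by ring, show n + (p + r) + q = n + p + q + r by ring,
    show n + (q + r) + p = n + p + q + r by ring]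
  exact e

end Pool.Agent.MP_51db15_ag.Qh

end

section
/-! PROJECT QF, row HP1: the components of the form are regular, homogeneous, bounded below. -/

namespace Pool.Agent.MP_51db15_ag.Qh

open Module

namespace HP1x

variable {K : Type} [Field K] [Algebra ℂ K] {R : Type} [CommRing R] [Algebra ℂ R]

/-- homogeneous regular fields -/
def Hm (S : Subalgebra ℂ K) (E : DD K) : Set (DD K) :=
  {X | X ∈ TT S ∧ ∃ p : ℤ, ⁅E, X⁆ = (p : ℂ) • X}

theorem spanC {S : Subalgebra ℂ K} {E : DD K} (h : Ev S E) {D : DD K} (hD : D ∈ TT S) :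
    D ∈ Submodule.span ℂ (Hm S E) := by
  have h1 := h.T D hD
  refine (iSup_le fun n => ?_ : (⨆ n : ℤ, TC S ⊓ (ad E).eigenspace (n : ℂ)) ≤ _) h1
  intro X hX
  exact Submodule.subset_span ⟨hX.1, n, End.mem_eigenspace_iff.1 hX.2⟩

theorem spanK {ι : Type} {S : Subalgebra ℂ K} {E : DD K} {x : ι → K} (h : Ev S E) (b : Bas S x) :
    Submodule.span K (Hm S E) = ⊤ := by
  refine eq_top_iff.2 fun D _ => ?_
  obtain ⟨s, -, s0, hs⟩ := b.den D
  have h1 : s • D ∈ Submodule.span K (Hm S E) :=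
    Submodule.span_le_restrictScalars ℂ K _ (spanC h hs)
  have h2 := Submodule.smul_mem _ s⁻¹ h1
  rwa [inv_smul_smul₀ s0] at h2

theorem cf_mem {S : Subalgebra ℂ K} {E : DD K} {μ : R →ₐ[ℂ] PowerSeries K} {i0 : S →ₐ[ℂ] R}
    (h : Hat S E μ i0) (m : ℤ) (r : R) :
    cf μ m r ∈ S ∧ E (cf μ m r) = (m : ℂ) • cf μ m r := by
  unfold cf
  split_ifs with hm
  · obtain ⟨k, rfl⟩ := Int.eq_ofNat_of_zero_le hm
    simpa using h.mem r k
  · simp

theorem zero_on {s : Set (DD K)} (hs : Submodule.span K s = ⊤) (φ : FF K)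
    (h : ∀ X ∈ s, ∀ Y ∈ s, φ X Y = 0) : φ = 0 :=
  LinearMap.ext_on hs fun X hX => LinearMap.ext_on hs fun Y hY => h X hX Y hY

theorem reg {S : Subalgebra ℂ K} {E : DD K} (h : Ev S E) (φ : FF K)
    (hφ : ∀ X ∈ Hm S E, ∀ Y ∈ Hm S E, φ X Y ∈ S) : φ ∈ RF S := by
  have h1 : ∀ X ∈ Hm S E, ∀ Y ∈ Submodule.span ℂ (Hm S E), φ X Y ∈ S := by
    intro X hX Y hY
    induction hY using Submodule.span_induction with
    | mem Y hY => exact hφ X hX Y hY
    | zero => rw [map_zero]; exact zero_mem S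
    | add Y Y' _ _ a b => rw [map_add]; exact add_mem a b
    | smul c Y _ a => rw [lin_c]; exact S.smul_mem a c
  intro D hD D' hD'
  have h2 := spanC h hD
  clear hD
  induction h2 using Submodule.span_induction with
  | mem X hX => exact h1 X hX D' (spanC h hD')
  | zero => rw [map_zero]; exact zero_mem S
  | add X X' _ _ a b => rw [map_add]; exact add_mem a b
  | smul c X _ a => rw [lin_c]; exact S.smul_mem a c

end HP1x

open HP1x in
theorem hp1 : S_HP1 := by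
  intro K ι R _ _ _ _ _ S E x a μ i0 ω η hc hh hl hcmp
  have key : ∀ (n p q : ℤ) (X Y : DD K), X ∈ TT S → Y ∈ TT S → ⁅E, X⁆ = (p : ℂ) • X →
      ⁅E, Y⁆ = (q : ℂ) • Y → ∃ r, η n X Y = cf μ (n + p + q) r := by
    intro n p q X Y hX hY eX eY
    obtain ⟨X', lX⟩ := hl.ex X hX
    obtain ⟨Y', lY⟩ := hl.ex Y hY
    exact ⟨_, hcmp n p q X hX Y hY X' Y' eX eY lX lY⟩
  refine ⟨fun n => ⟨reg hc.ev _ ?_, ?_⟩, ?_⟩
  · rintro X ⟨hX, p, eX⟩ Y ⟨hY, q, eY⟩
    obtain ⟨r, e⟩ := key n p q X Y hX hY eX eY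
    rw [e]
    exact (cf_mem hh _ r).1
  · refine sub_eq_zero.1 (zero_on (spanK hc.ev hc.bas) _ ?_)
    rintro X ⟨hX, p, eX⟩ Y ⟨hY, q, eY⟩
    obtain ⟨r, e⟩ := key n p q X Y hX hY eX eY
    have e2 := (cf_mem hh (n + p + q) r).2
    rw [← e] at e2
    rw [LinearMap.sub_apply, LinearMap.sub_apply, lf_apply, e2, eX, eY, lin_c, lin_c]
    simp only [LinearMap.smul_apply]
    push_cast
    module
  · have := hc.bas.fd
    have hfg : (Submodule.span K (Hm S E)).FG := IsNoetherian.noetherian _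
    obtain ⟨t, ht, e⟩ := (Submodule.fg_span_iff_fg_span_finset_subset _).1 hfg
    rw [spanK hc.ev hc.bas] at e
    have hp : ∀ X : t, ∃ p : ℤ, ⁅E, (X : DD K)⁆ = (p : ℂ) • (X : DD K) := fun X => (ht X.2).2
    choose p hp using hp
    obtain ⟨M, hM⟩ := (Set.finite_range p).bddAbove
    refine ⟨-(2 * M), fun n hn => zero_on e.symm _ fun X hX Y hY => ?_⟩
    obtain ⟨r, e'⟩ := key n _ _ X Y (ht hX).1 (ht hY).1 (hp ⟨X, hX⟩) (hp ⟨Y, hY⟩)
    have h1 : p ⟨X, hX⟩ ≤ M := hM ⟨_, rfl⟩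
    have h2 : p ⟨Y, hY⟩ ≤ M := hM ⟨_, rfl⟩
    rw [e', cf, if_neg (by omega)]

end Pool.Agent.MP_51db15_ag.Qh

end

section
/-! Assembly of the rows for a formal germ with a contracting vector field. -/

namespace Pool.Agent.MP_51db15_ag.Qh

namespace MAIN3x

variable {K : Type} [Field K] [Algebra ℂ K] {S : Subalgebra ℂ K}

theorem rdv_sum (F : Finset ℤ) (η : ℤ → FF K) (h : ∀ n, Rdv S (η n)) : Rdv S (∑ n ∈ F, η n) :=
  fun v X Y h1 h2 h3 => by
    rw [LinearMap.sum_apply, LinearMap.sum_apply]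
    exact DV.Ge.sum fun n _ => h n v X Y h1 h2 h3

theorem transport {R R' : Type} [CommRing R] [Algebra ℂ R] [CommRing R'] [Algebra ℂ R']
    {E : DD K} {μ : R →ₐ[ℂ] PowerSeries K} {i0 : S →ₐ[ℂ] R} (h : Hat S E μ i0) (e : R' ≃ₐ[ℂ] R) :
    Hat S E (μ.comp (e : R' →ₐ[ℂ] R)) ((e.symm : R →ₐ[ℂ] R').comp i0) := by
  refine ⟨h.inj.comp e.injective, fun r n => h.mem (e r) n, fun c hc => ?_,
    @isNoetherianRing_of_ringEquiv _ _ _ _ e.symm.toRingEquiv h.noeth, fun g n hg => ?_,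
    fun D P hP r => ?_⟩
  · obtain ⟨r, hr⟩ := h.surj c hc
    exact ⟨e.symm r, by simpa using hr⟩
  · simpa using h.emb g n hg
  · let D' : DR R := Derivation.mk' (e.toLinearMap ∘ₗ D.toLinearMap ∘ₗ e.symm.toLinearMap)
      fun a b => by simp
    have h1 := h.chain D' (P.comap (e.symm : R →ₐ[ℂ] R')) (fun g => by simpa [D'] using hP g) (e r)
    simpa [D'] using h1

end MAIN3x

open MAIN3x in
theorem main3 (hj : S_HJ) (hgr : S_HG) (ini : S_INI2) (hn : S_HNRM) (ht : S_HAT) (b : S_BAS)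
    (ev : S_EV) (vt : S_VTX) (ef : S_EVF) (hl : S_HL) (hg : S_HGEN) (hc : S_HCMP) (h1 : S_HP1)
    (hcl : S_HCLO) (hr : S_HREG) (hpi : S_HPI) (hpf : S_HPERF) (hlt : S_HLTP) (cl : S_CLO)
    (pi : S_PI) (ic : S_IDC) (st : S_ST) (cn : S_CON) (al : S_ALG) (pf : S_PERF) (sl : S_SLP2)
    (en : S_END2) (ι : Type) [Fintype ι] [DecidableEq ι] (I : Ideal (MvPowerSeries ι ℂ))
    [IsDomain (MvPowerSeries ι ℂ ⧸ I)] [IsIntegrallyClosed (MvPowerSeries ι ℂ ⧸ I)]
    (ω : FR (MvPowerSeries ι ℂ ⧸ I)) (hω : Hy.IsSymplecticForm ω) (hk : KaeR ω)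
    (ξ : Derivation ℂ (MvPowerSeries ι ℂ) (MvPowerSeries ι ℂ)) (x1 : ∀ g ∈ I, ξ g ∈ I)
    (x2 : ∀ g ∈ IsLocalRing.maximalIdeal (MvPowerSeries ι ℂ),
      ξ g ∈ IsLocalRing.maximalIdeal (MvPowerSeries ι ℂ))
    (x3 : ∀ (c : ℂ), ∀ g ∈ IsLocalRing.maximalIdeal (MvPowerSeries ι ℂ),
      g ∉ IsLocalRing.maximalIdeal (MvPowerSeries ι ℂ) ^ 2 →
      ξ g - c • g ∈ IsLocalRing.maximalIdeal (MvPowerSeries ι ℂ) ^ 2 → 0 < c.re) :
    ∃ (ψ : MvPowerSeries ι ℂ ≃ₐ[ℂ] MvPowerSeries ι ℂ) (K : Type) (_ : Field K) (_ : Algebra ℂ K)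
      (φ : MvPolynomial ι ℂ →ₐ[ℂ] K) (ω₀ : FF K) (𝒢 : ℕ → Submodule ℂ φ.range),
      ((RingHom.ker φ).map MvPolynomial.coeToMvPowerSeries.ringHom).map ψ = I ∧
        IsConicalSymplectic φ.range ω₀ 𝒢 ∧ ∀ d, 0 < d → ∀ f ∈ 𝒢 d,
          f ∈ Ideal.span (Set.range fun i => φ.rangeRestrict (MvPolynomial.X i)) := by
  obtain ⟨ψ, c, c1, c2⟩ := hj ι I ξ x1 x2 x3
  obtain ⟨a, J, ha, hJ, j1, j2⟩ := hgr ι (I.comap ψ) c c1 c2
  have hp : I.IsPrime := (Ideal.Quotient.isDomain_iff_prime I).1 inferInstance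
  have hI : (J.map MvPolynomial.coeToMvPowerSeries.ringHom).map ψ = I := by
    rw [j1]
    exact Ideal.map_comap_of_surjective ψ ψ.surjective I
  obtain ⟨K, _, _, φ, E, hker, cx, hvx⟩ := ini ι a J (j2 ▸ Ideal.comap_isPrime _ _) hJ
  obtain ⟨μ0, i1, hH0⟩ := ht ι K a J φ E ha hJ hker cx.eig
  obtain ⟨μ, i0, hH⟩ : ∃ (μ : (MvPowerSeries ι ℂ ⧸ I) →ₐ[ℂ] PowerSeries K)
      (i0 : φ.range →ₐ[ℂ] (MvPowerSeries ι ℂ ⧸ I)), Hat φ.range E μ i0 :=
    ⟨_, _, transport hH0 (Ideal.quotientEquivAlg _ I ψ hI.symm).symm⟩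
  let S := φ.range
  let x : ι → K := fun i => φ (.X i)
  have hb := b K ι S E x a cx
  have he := ev K ι S E x a cx hb
  have hv := vt K ι S E x a cx ha hb he
  have hC : Cone S E x a := ⟨cx, ha, hb, he, hv, ef K ι S E x a cx hb he hv⟩
  have hL := hl K ι _ S E x a μ i0 hC hH
  have hN := hn K ι _ S E x a μ i0 hC hH hL
  have hG := hg K ι _ S E x a μ i0 hC hH hL
  obtain ⟨η, hη⟩ := hc K ι _ S E x a μ i0 ω hC hH hL
  obtain ⟨p1, B, hB⟩ := h1 K ι _ S E x a μ i0 ω η hC hH hL hη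
  have hP := hpi K ι _ S E x a μ i0 ω hC hL hG hω
  obtain ⟨N, s, hs, s1, hS⟩ := hpf K ι _ S E x a μ i0 ω η B hC hH hL hG hP hη p1 hB
  obtain ⟨⟨H, hH1, -⟩, -⟩ := cl K S
  have hm : ∑ n ∈ Finset.Icc B N, η n ∈ H := sum_mem fun n _ =>
    (hH1 _).2 ⟨(p1 n).1, hcl K ι _ S E x a μ i0 ω η hC hH hL hη hω n⟩
  obtain ⟨hreg, hclo⟩ := (hH1 _).1 hm
  have s0 : s ≠ 0 := by
    rintro rfl
    obtain ⟨c, hc, e⟩ := s1
    refine hv.max.ne_top ((Ideal.eq_top_iff_one _).2 ?_)
    convert neg_mem hc using 1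
    refine Subtype.ext ?_
    simp [← e]
  obtain ⟨π, hπ⟩ := pi K ι S x _ s hb hclo.1 s0 fun i => by
    obtain ⟨D, hD, e⟩ := hS _ (dd_mem (hb.mem i))
    exact ⟨D, hD, fun D' => by rw [e]; rfl⟩
  have hT := hlt K ι _ S E x a μ i0 ω hC hH hL hG hP hω.1 hk
  obtain ⟨κ, _, _, e, hd⟩ := ic K ι S E x a hC
  obtain ⟨σ, hσ⟩ := st K ι S x hb
  have hA := cn K ι κ S E x a e σ hC hT hN hd hσ
  obtain ⟨y, hy⟩ := al _ _ _ _ _ _ _ _ _ hA
  have hAll : All2 S E x a e y (∑ n ∈ Finset.Icc B N, η n) := ⟨hC, hN, hT, hd, hy, hreg, hclo,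
    rdv_sum _ η (hr K ι _ S E x a μ i0 ω η hC hH hL hη hk),
    fun ω' h' => pf K ι κ S E x a e σ _ ω' s π hC hA hs s1 hπ h'⟩
  obtain ⟨ω', 𝒢, d1, d2⟩ := en K ι κ S E x a e y _ hAll (sl K ι κ S E x a e y _ hAll)
  exact ⟨ψ, K, _, _, φ, ω', 𝒢, (Ideal.ext hker : RingHom.ker φ = J) ▸ hI, d1, hvx ▸ d2⟩

end Pool.Agent.MP_51db15_ag.Qh

end

section
/-! PROJECT QH, row RAD: the graded radical is nilpotent on the fibre at the vertex. -/

namespace Pool.Agent.MP_51db15_ag.Qh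

open Module

noncomputable section

namespace RADx

section Abs

variable {R M : Type} [Ring R] [Algebra ℂ R] [AddCommGroup M] [Module ℂ M]

/-- the abstract data -/
structure Dat (ρ : R →ₗ[ℂ] End ℂ M) (A : Subalgebra ℂ R) (Δ : End ℂ R) (δ : End ℂ M) : Prop where
  one : ρ 1 = 1
  mul : ∀ a b, ρ (a * b) = ρ a * ρ b
  der : ∀ a v, δ (ρ a v) = ρ (Δ a) v + ρ a (δ v)
  dm : ∀ a ∈ A, Δ a ∈ A
  dz : Dz Δ (Subalgebra.toSubmodule A)

/-- stable subspaces -/
def St (ρ : R →ₗ[ℂ] End ℂ M) (A : Subalgebra ℂ R) (δ : End ℂ M) (U : Submodule ℂ M) : Prop :=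
  (∀ a ∈ A, ∀ v ∈ U, ρ a v ∈ U) ∧ ∀ v ∈ U, δ v ∈ U

variable {ρ : R →ₗ[ℂ] End ℂ M} {A : Subalgebra ℂ R} {Δ : End ℂ R} {δ : End ℂ M}

theorem Dat.pow (h : Dat ρ A Δ δ) (a : R) (k : ℕ) : ρ (a ^ k) = ρ a ^ k := by
  induction k with
  | zero => simpa using h.one
  | succ k ih => rw [pow_succ, pow_succ, h.mul, ih]

theorem Dat.wt (h : Dat ρ A Δ δ) {a : R} {v : M} {l n : ℂ} (ha : Δ a = l • a)
    (hv : δ v = n • v) : δ (ρ a v) = (l + n) • ρ a v := by
  rw [h.der, ha, hv, map_smul, map_smul, LinearMap.smul_apply, add_smul]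

theorem Dat.split (h : Dat ρ A Δ δ) {w : M} {l n : ℂ} (hw : δ w = (l + n) • w) {b : R}
    (hb : b ∈ A) : ∃ b0 ∈ A, Δ b0 = (-l) • b0 ∧
      ρ b0 w - ρ b w ∈ ⨆ (c' : ℂ) (_ : c' ≠ n), δ.eigenspace c' := by
  refine Submodule.iSup_induction _ (motive := fun b => ∃ b0 ∈ A, Δ b0 = (-l) • b0 ∧
      ρ b0 w - ρ b w ∈ ⨆ (c' : ℂ) (_ : c' ≠ n), δ.eigenspace c') (h.dz b hb) ?_ ?_ ?_
  · intro k b hb
    have h1 : Δ b = (k : ℂ) • b := End.mem_eigenspace_iff.1 hb.2
    by_cases e : (k : ℂ) = -l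
    · exact ⟨b, hb.1, e ▸ h1, by simp⟩
    · refine ⟨0, A.zero_mem, by simp, ?_⟩
      rw [map_zero, LinearMap.zero_apply, zero_sub]
      refine neg_mem (Submodule.mem_iSup_of_mem ((k : ℂ) + (l + n))
        (Submodule.mem_iSup_of_mem (fun e' => e (by linear_combination e')) ?_))
      exact End.mem_eigenspace_iff.2 (h.wt h1 hw)
  · exact ⟨0, A.zero_mem, by simp, by simp⟩
  · rintro b b' ⟨c, h1, h2, h3⟩ ⟨c', h1', h2', h3'⟩
    refine ⟨c + c', A.add_mem h1 h1', by rw [map_add, h2, h2', smul_add], ?_⟩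
    convert add_mem h3 h3' using 1
    simp only [map_add, LinearMap.add_apply]
    abel

theorem Dat.step (g : GenK) (h : Dat ρ A Δ δ) {U U' : Submodule ℂ M} (hU : St ρ A δ U)
    (hU' : St ρ A δ U') (hz : Dz δ U) (hle : U' ≤ U)
    (hmax : ∀ W, St ρ A δ W → U' < W → W ≤ U → W = U) {f : R} (hf : f ∈ A) {l : ℂ}
    (hl : Δ f = l • f) (hn : ∀ b ∈ A, Δ b = (-l) • b → IsNilpotent (b * f)) :
    ∀ v ∈ U, ρ f v ∈ U' := by
  intro v hv
  refine Submodule.iSup_induction _ (motive := fun v => ρ f v ∈ U') (hz v hv) ?_ (by simp)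
    (fun a b ha hb => by rw [map_add]; exact add_mem ha hb)
  intro n u hu
  have h1 : δ u = (n : ℂ) • u := End.mem_eigenspace_iff.1 hu.2
  have h2 := h.wt hl h1
  by_contra hc
  let ev : R →ₗ[ℂ] M := (LinearMap.applyₗ (ρ f u)).comp ρ
  have hev : ∀ a, ev a = ρ a (ρ f u) := fun _ => rfl
  let W : Submodule ℂ M := U' ⊔ (Subalgebra.toSubmodule A).map ev
  have mW : ∀ w, w ∈ W ↔ ∃ y ∈ U', ∃ a ∈ A, y + ρ a (ρ f u) = w := fun w => by
    rw [Submodule.mem_sup]
    constructor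
    · rintro ⟨y, hy, _, ⟨a, ha, rfl⟩, e⟩
      exact ⟨y, hy, a, ha, e⟩
    · rintro ⟨y, hy, a, ha, e⟩
      exact ⟨y, hy, _, ⟨a, ha, rfl⟩, e⟩
  have hW : St ρ A δ W := by
    refine ⟨fun c hc w hw => ?_, fun w hw => ?_⟩
    · obtain ⟨y, hy, a, ha, rfl⟩ := (mW w).1 hw
      exact (mW _).2 ⟨_, hU'.1 c hc y hy, c * a, A.mul_mem hc ha, by
        rw [h.mul, map_add, End.mul_apply]⟩
    · obtain ⟨y, hy, a, ha, rfl⟩ := (mW w).1 hw
      refine (mW _).2 ⟨_, hU'.2 y hy, Δ a + (l + n) • a,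
        A.add_mem (h.dm a ha) (A.smul_mem ha _), ?_⟩
      rw [map_add δ, h.der a, h2, map_add, map_smul, map_smul, LinearMap.add_apply,
        LinearMap.smul_apply]
  have hfW : ρ f u ∈ W := (mW _).2 ⟨0, zero_mem _, 1, A.one_mem, by rw [h.one]; simp⟩
  have hWU : W = U := hmax W hW (lt_of_le_of_ne le_sup_left fun e => hc (e ▸ hfW)) fun w hw => by
    obtain ⟨y, hy, a, ha, rfl⟩ := (mW w).1 hw
    exact add_mem (hle hy) (hU.1 a ha _ (hU.1 f hf u hu.1))
  obtain ⟨y, hy, b, hb, e⟩ := (mW u).1 (hWU ▸ hu.1)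
  obtain ⟨b0, hb0, h3, h4⟩ := h.split h2 hb
  have h5 : u - ρ b0 (ρ f u) ∈ U' := by
    refine g.cmp M δ U' n _ _ hU'.2 ?_ h4 ?_
    · rw [map_sub, h.wt h3 h2, h1, smul_sub]
      congr 2
      ring
    · convert hy using 1
      rw [eq_sub_of_add_eq e]
      abel
  obtain ⟨k, hk⟩ := hn b0 hb0 h3
  have h6 : ∀ j : ℕ, u - ρ ((b0 * f) ^ j) u ∈ U' := fun j => by
    induction j with
    | zero => rw [pow_zero, h.one]; simp
    | succ j ih =>
      convert add_mem h5 (hU'.1 _ (A.mul_mem hb0 hf) _ ih) using 1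
      rw [pow_succ', h.mul (b0 * f), h.mul b0 f, map_sub]
      simp only [End.mul_apply]
      abel
  have h7 := h6 k
  rw [hk, map_zero, LinearMap.zero_apply, sub_zero] at h7
  exact hc (hU'.1 f hf u h7)

theorem Dat.main (g : GenK) (h : Dat ρ A Δ δ) {L m : Submodule ℂ M} (hz : Dz δ L)
    (hm : St ρ A δ m) [FiniteDimensional ℂ (L.map m.mkQ)] {N : R}
    (hN : N ∈ Submodule.span ℂ {f : R | f ∈ A ∧ ∃ l : ℂ, Δ f = l • f ∧
      ∀ b ∈ A, Δ b = (-l) • b → IsNilpotent (b * f)}) (d : ℕ) :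
    ∀ U, St ρ A δ U → m ≤ U → U ≤ L → finrank ℂ (U.map m.mkQ) = d →
      ∃ n : ℕ, ∀ v ∈ U, ρ (N ^ n) v ∈ m := by
  have lt : ∀ U W : Submodule ℂ M, m ≤ U → U < W → W ≤ L →
      finrank ℂ (U.map m.mkQ) < finrank ℂ (W.map m.mkQ) := fun U W h1 h2 h3 => by
    have := Submodule.finiteDimensional_of_le (Submodule.map_mono (f := m.mkQ) h3)
    refine Submodule.finrank_lt_finrank_of_lt (lt_of_le_of_ne (Submodule.map_mono h2.le)
      fun e => h2.ne ?_)
    have e' := congrArg (Submodule.comap m.mkQ) e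
    rwa [Submodule.comap_map_mkQ, Submodule.comap_map_mkQ, sup_eq_right.2 h1,
      sup_eq_right.2 (h1.trans h2.le)] at e'
  induction d using Nat.strong_induction_on with
  | _ d ih =>
    intro U hU h1 h2 h3
    rcases h1.eq_or_lt with e | e
    · exact ⟨0, fun v hv => by rw [pow_zero, h.one]; exact e ▸ hv⟩
    obtain ⟨U', ⟨a1, a2, a3⟩, hmin⟩ := (measure fun W : Submodule ℂ M =>
      d - finrank ℂ (W.map m.mkQ)).wf.has_min {W | St ρ A δ W ∧ m ≤ W ∧ W < U} ⟨m, hm, le_rfl, e⟩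
    have hmax : ∀ W, St ρ A δ W → U' < W → W ≤ U → W = U := fun W b1 b2 b3 => by
      by_contra b4
      have b5 := lt_of_le_of_ne b3 b4
      have c1 := lt U' W a2 b2 (b3.trans h2)
      have c2 := lt W U (a2.trans b2.le) b5 h2
      refine hmin W ⟨b1, a2.trans b2.le, b5⟩ ?_
      show d - finrank ℂ (W.map m.mkQ) < d - finrank ℂ (U'.map m.mkQ)
      omega
    obtain ⟨n, hn⟩ := ih _ (h3 ▸ lt U' U a2 a3 h2) U' a1 a2 (a3.le.trans h2) rfl
    refine ⟨n + 1, fun v hv => ?_⟩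
    rw [pow_succ, h.mul, End.mul_apply]
    refine hn _ ?_
    clear hn ih
    induction hN using Submodule.span_induction with
    | mem f hf =>
      obtain ⟨f1, l, f2, f3⟩ := hf
      exact h.step g hU a1 (g.sub M δ L U hz h2 hU.2) a3.le hmax f1 f2 f3 v hv
    | zero => simp
    | add a b _ _ ha hb => rw [map_add]; exact add_mem ha hb
    | smul c a _ ha => rw [map_smul]; exact U'.smul_mem c ha

end Abs

section Mod

variable {S M : Type} [CommRing S] [SMul ℂ S] [AddCommGroup M] [Module ℂ M] [Module S M]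
  [IsScalarTower ℂ S M]

theorem fin (L : Submodule S M) (hL : L.FG) (I : Ideal S)
    (hc : ∀ r : S, ∃ c : ℂ, ∃ b ∈ I, ∀ w : M, r • w = c • w + b • w) :
    FiniteDimensional ℂ ((L.restrictScalars ℂ).map ((I • L).restrictScalars ℂ).mkQ) := by
  obtain ⟨t, ht⟩ := hL
  set m := (I • L).restrictScalars ℂ with hm
  have := FiniteDimensional.span_of_finite ℂ (t.finite_toSet.image m.mkQ)
  refine Submodule.finiteDimensional_of_le (S₂ := Submodule.span ℂ (m.mkQ '' (t : Set M))) ?_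
  rintro _ ⟨v, hv', rfl⟩
  have h1 : v ∈ Submodule.span S (t : Set M) := ht ▸ hv'
  clear hv'
  induction h1 using Submodule.span_induction with
  | mem w hw => exact Submodule.subset_span ⟨w, hw, rfl⟩
  | zero => simp
  | add a b _ _ ha hb => rw [map_add]; exact add_mem ha hb
  | smul r w hw ih =>
    obtain ⟨c, b, hb, e⟩ := hc r
    have h2 := e w
    have h4 : b • w ∈ I • L := Submodule.smul_mem_smul hb (by rw [← ht]; exact hw)
    have h5 : b • w ∈ m := by rw [hm, Submodule.restrictScalars_mem]; exact h4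
    have h3 : m.mkQ (b • w) = 0 := (Submodule.Quotient.mk_eq_zero m).2 h5
    rw [h2, map_add, h3, add_zero, map_smul]
    exact Submodule.smul_mem _ c ih

theorem stab (L : Submodule S M) (I : Ideal S) (T : End ℂ M) (hT : ∀ w ∈ L, T w ∈ L)
    (h : ∀ r ∈ I, ∃ s ∈ I, ∀ w, T (r • w) = r • T w + s • w) :
    ∀ v ∈ (I • L).restrictScalars ℂ, T v ∈ (I • L).restrictScalars ℂ := by
  intro v hv
  rw [Submodule.restrictScalars_mem] at hv ⊢
  refine Submodule.smul_induction_on (p := fun v => T v ∈ I • L) hv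
    (fun r hr w hw => ?_) (fun v w h1 h2 => by rw [map_add]; exact add_mem h1 h2)
  obtain ⟨s, hs, e⟩ := h r hr
  rw [e]
  exact add_mem (Submodule.smul_mem_smul hr (hT w hw)) (Submodule.smul_mem_smul hs hw)

end Mod

variable {K : Type} [Field K] [Algebra ℂ K]

/-- endomorphisms as complex linear maps -/
def rho : EE K →ₗ[ℂ] End ℂ (MM K) where
  toFun a := { toFun := a, map_add' := map_add a, map_smul' := lin_c a }
  map_add' _ _ := LinearMap.ext fun _ => rfl
  map_smul' _ _ := LinearMap.ext fun _ => rfl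

theorem rho_apply (a : EE K) (v : MM K) : rho a v = a v := rfl

theorem sm_eq {S : Subalgebra ℂ K} (r : S) (w : MM K) : r • w = (r : K) • w :=
  (algebraMap_smul K r w).symm

theorem dat {S : Subalgebra ℂ K} {E : DD K} (h : Ev S E) :
    Dat (R := EE K) rho (EI S) (del E) (lam E) where
  one := LinearMap.ext fun _ => rfl
  mul _ _ := LinearMap.ext fun _ => rfl
  der a v := by rw [rho_apply, rho_apply, rho_apply, del_apply, sub_add_cancel]
  dm _ ha := del_mem h.tm ha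
  dz := h.E

end RADx

open RADx in
theorem rad (g : GenK) : S_RAD := by
  intro K ι _ _ _ S E x a hC N hN
  have hm : St (R := EE K) rho (EI S) (lam E) ((vx S x • LL S).restrictScalars ℂ) := by
    refine ⟨fun b hb => stab (LL S) (vx S x) (rho b) hb fun r hr => ⟨0, zero_mem _, fun w => ?_⟩,
      stab (LL S) (vx S x) (lam E) (fun w hw => lam_mem hC.ev.tm hw) fun r hr => ?_⟩
    · rw [zero_smul, add_zero, sm_eq, sm_eq, rho_apply, rho_apply, map_smul]
    · obtain ⟨s, hs, e⟩ := hC.vtx.pos r r.2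
      exact ⟨s, hs, fun w => by rw [sm_eq, sm_eq, sm_eq, lam_smul, e]⟩
  have := fin (LL S) (hC.bas.fgT.prod hC.bas.fgD) (vx S x) fun r => by
    obtain ⟨c, b, hb, e⟩ := hC.vtx.cst r r.2
    refine ⟨c, b, hb, fun w => ?_⟩
    rw [sm_eq, sm_eq, eq_add_of_sub_eq e, add_smul, algebraMap_smul, add_comm]
  exact (dat hC.ev).main g hC.ev.L hm hN _ (LC S)
    ⟨fun b hb v hv => hb v hv, fun v hv => lam_mem hC.ev.tm hv⟩
    (fun v hv => Submodule.smul_le_right (I := vx S x) (N := LL S) hv) le_rfl rfl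

end

end Pool.Agent.MP_51db15_ag.Qh

end

section
namespace Pool.Agent.MP_51db15_ag.Qh

namespace RATx

open Module

theorem exq (F : Finset ℂ) (φ : ℂ →+ ℝ) (h : ∀ z ∈ F, 0 < φ z) :
    ∃ ψ : ℂ →ₗ[ℚ] ℚ, ∀ z ∈ F, 0 < ψ z := by
  classical
  let b := Basis.ofVectorSpace ℚ ℂ
  let T := F.biUnion fun z => (b.repr z).support
  let g : ℂ → (T → ℝ) → ℝ := fun z q => ∑ i : T, ((b.repr z i.1 : ℚ) : ℝ) * q i
  have hc : ∀ z, Continuous (g z) := fun z =>
    continuous_finsetSum _ fun i _ => continuous_const.mul (continuous_apply i)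
  have hU : IsOpen {q : T → ℝ | ∀ z ∈ F, 0 < g z q} := by
    have : {q : T → ℝ | ∀ z ∈ F, 0 < g z q} = ⋂ z ∈ F, {q | 0 < g z q} := by
      ext q; simp
    rw [this]
    exact isOpen_biInter_finset fun z _ => isOpen_lt continuous_const (hc z)
  have h0 : (fun i : T => φ (b i.1)) ∈ {q : T → ℝ | ∀ z ∈ F, 0 < g z q} := by
    intro z hz
    have e1 : z = ∑ i ∈ T, (b.repr z i) • b i := by
      conv_lhs => rw [← b.linearCombination_repr z, Finsupp.linearCombination_apply]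
      exact Finsupp.sum_of_support_subset _ (Finset.subset_biUnion_of_mem
        (fun z => (b.repr z).support) hz) _ (fun i _ => zero_smul _ _)
    have e2 : φ z = g z fun i : T => φ (b i.1) := by
      conv_lhs => rw [e1]
      rw [map_sum, ← Finset.sum_coe_sort]
      refine Finset.sum_congr rfl fun i _ => ?_
      rw [map_rat_smul, Rat.smul_def]
    rw [← e2]
    exact h z hz
  have hd : DenseRange (Pi.map fun (_ : T) => ((↑) : ℚ → ℝ)) :=
    DenseRange.piMap fun _ => Rat.denseRange_cast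
  obtain ⟨q, hq⟩ := hd.exists_mem_open hU ⟨_, h0⟩
  refine ⟨∑ i : T, q i • b.coord i.1, fun z hz => ?_⟩
  have := hq z hz
  have e3 : (((∑ i : T, q i • b.coord i.1) z : ℚ) : ℝ) =
      g z (Pi.map (fun (_ : T) => ((↑) : ℚ → ℝ)) q) := by
    simp only [LinearMap.sum_apply, LinearMap.smul_apply, Basis.coord_apply, smul_eq_mul, g,
      Pi.map_apply]
    push_cast
    exact Finset.sum_congr rfl fun i _ => mul_comm _ _
  rw [← e3] at this
  exact_mod_cast this

theorem den (G : Finset ℂ) (ψ : ℂ → ℚ) :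
    ∃ N : ℕ, 0 < N ∧ ∀ z ∈ G, ∃ n : ℤ, (N : ℚ) * ψ z = n := by
  refine ⟨∏ z ∈ G, (ψ z).den, Finset.prod_pos fun z _ => (ψ z).den_pos, fun z hz => ?_⟩
  obtain ⟨k, hk⟩ := Finset.dvd_prod_of_mem (fun z => (ψ z).den) hz
  refine ⟨k * (ψ z).num, ?_⟩
  rw [hk]
  push_cast
  rw [← Rat.den_mul_eq_num (ψ z)]
  ring

end RATx

theorem rat : S_RAT := by
  classical
  intro F F' φ h
  obtain ⟨ψ, hψ⟩ := RATx.exq F φ h
  obtain ⟨N, hN, hz⟩ := RATx.den (F ∪ F') ψ
  let l : ℂ →+ ℂ :=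
    { toFun := fun z => (((N : ℚ) * ψ z : ℚ) : ℂ)
      map_zero' := by simp
      map_add' := fun a b => by rw [map_add, mul_add, Rat.cast_add] }
  have hl : ∀ z (n : ℤ), (N : ℚ) * ψ z = n → l z = n := fun z n e => by
    show (((N : ℚ) * ψ z : ℚ) : ℂ) = n
    rw [e, Rat.cast_intCast]
  refine ⟨l, fun z hz' => ?_, fun z hz' => ?_⟩
  · obtain ⟨n, hn⟩ := hz z (Finset.mem_union_left _ hz')
    have hp : (0 : ℚ) < n := hn ▸ mul_pos (Nat.cast_pos.2 hN) (hψ z hz')
    have hp' : 0 < n := by exact_mod_cast hp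
    refine ⟨n.toNat, by omega, ?_⟩
    rw [hl z n hn]
    have : ((n.toNat : ℤ)) = n := Int.toNat_of_nonneg hp'.le
    exact_mod_cast congrArg (fun m : ℤ => (m : ℂ)) this.symm
  · obtain ⟨n, hn⟩ := hz z (Finset.mem_union_right _ hz')
    exact ⟨n, hl z n hn⟩

end Pool.Agent.MP_51db15_ag.Qh

end

section
/-! PROJECT QH: an endomorphism of degree zero that makes the Euler field locally nilpotent has
trace zero. -/

namespace Pool.Agent.MP_51db15_ag.Qh

open Module MvPolynomial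

namespace SOCx

variable {K : Type} [Field K] [Algebra ℂ K]

theorem comb {S : Subalgebra ℂ K} {M j : ℕ} (hj : j < M) (f : ℕ → S) {y : S}
    (hy : y ∈ Ideal.span (f '' {i | i < j})) :
    ∃ h : Fin M → K, (∀ i, h i ∈ S ∧ (i ∉ {i : Fin M | (i : ℕ) < j} → h i = 0)) ∧
      (y : K) = ∑ i, h i * (f i : K) := by
  classical
  induction hy using Submodule.span_induction with
  | mem y hy =>
    obtain ⟨i, hi, rfl⟩ := hy
    have hi' : i < j := hi
    refine ⟨Pi.single ⟨i, hi'.trans hj⟩ 1, fun k => ?_, ?_⟩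
    · by_cases e : k = ⟨i, hi'.trans hj⟩
      · subst e
        exact ⟨by rw [Pi.single_eq_same]; exact one_mem _, fun h => (h hi').elim⟩
      · rw [Pi.single_eq_of_ne e]
        exact ⟨zero_mem _, fun _ => rfl⟩
    · rw [Finset.sum_eq_single ⟨i, hi'.trans hj⟩
        (fun k _ e => by rw [Pi.single_eq_of_ne e, zero_mul]) (fun h => (h (Finset.mem_univ _)).elim),
        Pi.single_eq_same, one_mul]
  | zero => exact ⟨0, fun _ => ⟨zero_mem _, fun _ => rfl⟩, by simp⟩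
  | add y z _ _ hy hz =>
    obtain ⟨h, a1, a2⟩ := hy
    obtain ⟨h', b1, b2⟩ := hz
    refine ⟨h + h', fun i => ⟨add_mem (a1 i).1 (b1 i).1, fun q => ?_⟩, ?_⟩
    · rw [Pi.add_apply, (a1 i).2 q, (b1 i).2 q, add_zero]
    · rw [AddMemClass.coe_add, a2, b2, ← Finset.sum_add_distrib]
      exact Finset.sum_congr rfl fun i _ => (add_mul _ _ _).symm
  | smul r y _ hy =>
    obtain ⟨h, a1, a2⟩ := hy
    refine ⟨fun i => r * h i, fun i => ⟨mul_mem r.2 (a1 i).1, fun q => ?_⟩, ?_⟩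
    · exact mul_eq_zero_of_right _ ((a1 i).2 q)
    · rw [smul_eq_mul, MulMemClass.coe_mul, a2, Finset.mul_sum]
      exact Finset.sum_congr rfl fun i _ => (mul_assoc _ _ _).symm

theorem coef {M : ℕ} (w : Fin M → ℂ) (q : Fin M → MvPolynomial (Fin M) ℂ) {T : Set (Fin M)}
    {j : Fin M} (hj : j ∉ T) (hw : w j ≠ 0)
    (h : ∑ i, C (w i) * (X i * q i) ∈ Ideal.span (X '' T : Set (MvPolynomial (Fin M) ℂ))) :
    constantCoeff (q j) = 0 := by
  classical
  have h0 : coeff (Finsupp.single j 1) (∑ i, C (w i) * (X i * q i)) = 0 := by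
    by_contra h0
    obtain ⟨i, hi, e⟩ := mem_ideal_span_X_image.1 h _ (mem_support_iff.2 h0)
    exact e (Finsupp.single_eq_of_ne fun r => hj (r ▸ hi))
  rw [coeff_sum, Finset.sum_eq_single j (fun i _ e => by
      rw [coeff_C_mul, coeff_X_mul', if_neg, mul_zero]
      exact fun r => Finsupp.mem_support_iff.1 r (Finsupp.single_eq_of_ne e))
    (fun h => (h (Finset.mem_univ _)).elim), coeff_C_mul, coeff_X_mul', if_pos (by simp),
    tsub_self] at h0
  exact (mul_eq_zero.1 h0).resolve_left hw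

end SOCx

theorem soc (sq : S_SEQ) (fl : S_FINL) (al : S_ALI) (du : S_DUAL) (tf : S_TRF) (ce : S_CEN)
    (ts : S_TRS) : S_SOC := by
  classical
  intro K ι _ _ _ S E x a Cn hn b hb hnil
  obtain ⟨M, f, w, h1, h2, h3, h4⟩ := sq K ι S E x a Cn (b E) (hb.1 E Cn.ev.tm)
    (by rw [hb.2, lie_self, map_zero]) hnil
  have fv : ∀ j < M, f j ∈ vx S x := fun j hj => by
    obtain ⟨y, hy, e⟩ := Cn.vtx.pos (f j) (f j).2
    have w0 : (w j : ℂ) ≠ 0 := Nat.cast_ne_zero.2 (h1 j hj).1.ne'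
    have : f j = (w j : ℂ)⁻¹ • y := Subtype.ext (by
      rw [SetLike.val_smul, ← e, (h1 j hj).2, smul_smul, inv_mul_cancel₀ w0, one_smul])
    rw [this]
    exact Submodule.smul_of_tower_mem _ _ hy
  have ind0 := al S M f (fun h => Cn.vtx.max.ne_top (top_le_iff.1 (h ▸ Ideal.span_le.2 (by
    rintro _ ⟨j, hj, rfl⟩; exact fv j hj)))) h4
  have ind : AlgebraicIndependent ℂ fun j : Fin M => (f j : K) :=
    ind0.map' (f := S.val) Subtype.val_injective
  have hint := fl K ι S E x a Cn M f w h1 h2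
  obtain ⟨fd, δ, hδ, hD⟩ := du K ι S E x a M _ Cn.cx ind hint
  have hq : ∀ i j : Fin M, ∃ q : MvPolynomial (Fin M) ℂ,
      ((Algebra.trace (IntermediateField.adjoin ℂ (Set.range fun j : Fin M => (f j : K))) K
        (b (δ i) (f j)) : IntermediateField.adjoin ℂ (Set.range fun j : Fin M => (f j : K))) : K) =
        aeval (fun j : Fin M => (f j : K)) q := fun i j =>
    tf K ι S x M _ Cn.bas hn (fun j => (f j).2) ind hint (δ i) (fun k => by
      rw [hδ]; split_ifs; exacts [one_mem _, zero_mem _]) (dd (f j : K) ∘ₗ b)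
      fun D hD => hb.1 D hD _ (f j).2
  choose q hq using hq
  set L := IntermediateField.adjoin ℂ (Set.range fun j : Fin M => (f j : K)) with hL
  have bD : ∀ D : DD K, b D = ∑ j : Fin M, D (f j) • b (δ j) := fun D => by
    conv_lhs => rw [hD D, map_sum]
    exact Finset.sum_congr rfl fun j _ => map_smul _ _ _
  have app : ∀ (c : Fin M → K) (D : Fin M → DD K) (y : K),
      (∑ j, c j • D j) y = ∑ j, c j * D j y := fun c D y => by
    have := map_sum (dd y) (fun j => c j • D j) Finset.univ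
    simpa only [map_smul, dd_apply, smul_eq_mul] using this
  have q0 : ∀ j : Fin M, constantCoeff (q j j) = 0 := fun j => by
    obtain ⟨y, ⟨k, hy⟩, e⟩ := h3 j j.2
    obtain ⟨h, a1, a2⟩ := SOCx.comb j.2 f hy
    refine SOCx.coef (fun i => (w i : ℂ)) (fun i => q i j) (T := {i : Fin M | (i : ℕ) < j})
      (lt_irrefl (j : ℕ)) (Nat.cast_ne_zero.2 (h1 j j.2).1.ne')
      (ce K S M _ _ (b E (f j)) k _ ind hint ⟨h, a1, by rw [e, ← a2]; rfl⟩ ?_)
    rw [bD E, app, map_sum, map_sum, AddSubmonoidClass.coe_finsetSum]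
    refine Finset.sum_congr rfl fun i _ => ?_
    have m : (w i : ℂ) • (f i : K) ∈ L :=
      L.toSubalgebra.smul_mem (IntermediateField.subset_adjoin ℂ _ ⟨i, rfl⟩) _
    have := (Algebra.trace L K).map_smul (⟨_, m⟩ : L) (b (δ i) (f j))
    rw [(h1 i i.2).2]
    refine (congrArg Subtype.val this).trans ?_
    rw [smul_eq_mul, MulMemClass.coe_mul, hq, map_mul, map_mul, aeval_C, aeval_X, ← mul_assoc,
      ← Algebra.smul_def]
  have := Cn.bas.fd
  have tb : LinearMap.trace K (DD K) b = ∑ j : Fin M, b (δ j) (f j) := by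
    have : b = ∑ j : Fin M, (dd (f j : K)).smulRight (b (δ j)) := LinearMap.ext fun D => by
      rw [bD D, LinearMap.sum_apply]; rfl
    conv_lhs => rw [this, map_sum]
    exact Finset.sum_congr rfl fun j _ => LinearMap.trace_smulRight _ _
  have tS : LinearMap.trace K (DD K) b ∈ S := by
    have := ts K ι S x Cn.bas hn (b.prodMap 0) fun v hv => ⟨hb.1 _ hv.1, zero_mem _⟩
    rwa [tr_apply, LinearMap.trace_prodMap', map_zero, add_zero] at this
  have br : ∀ j : Fin M, ⁅E, δ j⁆ = (-(algebraMap ℂ K (w j))) • δ j := fun j => by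
    rw [hD ⁅E, δ j⁆, Finset.sum_eq_single j _ fun h => (h (Finset.mem_univ _)).elim]
    · rw [Derivation.commutator_apply, (h1 j j.2).2, Derivation.map_smul, hδ, if_pos rfl,
        Derivation.map_one_eq_zero, zero_sub, ← Algebra.algebraMap_eq_smul_one]
    · intro i _ e
      rw [Derivation.commutator_apply, (h1 i i.2).2, Derivation.map_smul, hδ, if_neg e.symm,
        map_zero, smul_zero, sub_zero, zero_smul]
  have t0 : E (LinearMap.trace K (DD K) b) = 0 := by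
    rw [tb, map_sum]
    refine Finset.sum_eq_zero fun j _ => ?_
    have e : ⁅E, b (δ j)⁆ (f j) = b ⁅E, δ j⁆ (f j) := by rw [hb.2]
    rw [br, map_smul, Derivation.commutator_apply, (h1 j j.2).2, Derivation.map_smul,
      Derivation.smul_apply, smul_eq_mul, Algebra.smul_def] at e
    linear_combination e
  obtain ⟨c, hc⟩ := Cn.vtx.zero _ tS t0
  have e1 : aeval (fun j : Fin M => (f j : K)) (C ((finrank L K : ℂ) * c)) =
      aeval (fun j : Fin M => (f j : K)) (∑ j, q j j) := by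
    rw [map_sum, ← Finset.sum_congr rfl fun j _ => hq j j, ← AddSubmonoidClass.coe_finsetSum,
      ← map_sum, ← tb, hc, IsScalarTower.algebraMap_apply ℂ L K, Algebra.trace_algebraMap, aeval_C,
      map_mul, map_natCast, nsmul_eq_mul]
    rfl
  have e2 := congrArg constantCoeff (ind e1)
  rw [constantCoeff_C, map_sum, Finset.sum_eq_zero fun j _ => q0 j] at e2
  rw [hc, (mul_eq_zero.1 e2).resolve_left (Nat.cast_ne_zero.2 finrank_pos.ne'), map_zero]

end Pool.Agent.MP_51db15_ag.Qh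

end

section
/-! PROJECT QH, row TNIL: an endomorphism whose powers have no trace is nilpotent. -/

namespace Pool.Agent.MP_51db15_ag.Qh

open Module Polynomial

theorem tnil : S_TNIL := by
  intro K M _ _ _ _ _ f hf
  have h1 : ∀ r : K[X], LinearMap.trace K M (aeval f (r * X)) = 0 := fun r => by
    induction r using Polynomial.induction_on' with
    | add p q hp hq => rw [add_mul, map_add, map_add, hp, hq, add_zero]
    | monomial n a =>
      rw [← C_mul_X_pow_eq_monomial, mul_assoc, ← pow_succ, map_mul, aeval_C, map_pow, aeval_X,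
        ← Algebra.smul_def, map_smul, hf, smul_zero]
  have h0 : minpoly K f ≠ 0 := minpoly.ne_zero (Algebra.IsIntegral.isIntegral f)
  obtain ⟨q, e1, e2⟩ := exists_eq_pow_rootMultiplicity_mul_and_not_dvd _ h0 0
  rw [map_zero, sub_zero] at e1 e2
  generalize rootMultiplicity 0 (minpoly K f) = k at e1
  obtain ⟨a, b, hab⟩ : IsCoprime ((X : K[X]) ^ (k + 1)) q :=
    ((irreducible_X.coprime_iff_not_dvd).2 e2).pow_left
  have hμ : ∀ r : K[X], aeval f (r * (X ^ k * q)) = 0 := fun r => by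
    rw [← e1, map_mul, minpoly.aeval, mul_zero]
  have h2 : IsIdempotentElem (aeval f (a * X ^ (k + 1))) := by
    have e : a * X ^ (k + 1) * (a * X ^ (k + 1)) =
        a * X ^ (k + 1) - a * b * X * (X ^ k * q) := by
      linear_combination (a * X ^ (k + 1)) * hab
    rw [IsIdempotentElem, ← map_mul, e, map_sub, hμ, sub_zero]
  have h3 : aeval f (a * X ^ (k + 1)) = 0 :=
    LinearMap.IsIdempotentElem.eq_zero_of_trace_eq_zero h2
      (by rw [pow_succ, ← mul_assoc]; exact h1 _)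
  refine ⟨k, ?_⟩
  have e : (X : K[X]) ^ k = X ^ k * (a * X ^ (k + 1)) + b * (X ^ k * q) := by
    linear_combination (-(X : K[X]) ^ k) * hab
  have h4 := congrArg (aeval f) e
  rwa [map_add, hμ, map_mul, h3, mul_zero, add_zero, map_pow, aeval_X] at h4

end Pool.Agent.MP_51db15_ag.Qh

end

section
/-! Row TRS: the trace of an endomorphism that preserves the lattice is regular. -/

namespace Pool.Agent.MP_51db15_ag.Qh

open Module Polynomial

namespace TRSx

section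

variable {R K M : Type} [CommRing R] [Field K] [Algebra R K] [AddCommGroup M] [Module K M]

theorem trace_int [FiniteDimensional K M] (b : End K M) (p : R[X]) (hp : p.Monic)
    (h : aeval b (p.map (algebraMap R K)) = 0) : IsIntegral R (LinearMap.trace K M b) := by
  let L := AlgebraicClosure K
  have hi : Function.Injective (IsScalarTower.toAlgHom R K L) := (algebraMap K L).injective
  rw [← isIntegral_algHom_iff (IsScalarTower.toAlgHom R K L) hi, IsScalarTower.coe_toAlgHom',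
    ← LinearMap.trace_baseChange,
    Module.End.trace_eq_sum_roots_charpoly_of_splits (IsAlgClosed.splits _)]
  refine IsIntegral.multiset_sum fun μ hμ => ?_
  have h1 : Module.End.HasEigenvalue (b.baseChange L) μ :=
    (Module.End.hasEigenvalue_iff_isRoot_charpoly _ _).2 (isRoot_of_mem_roots hμ)
  obtain ⟨v, hv⟩ := h1.exists_hasEigenvector
  have h2 : aeval (b.baseChange L) ((p.map (algebraMap R K)).map (algebraMap K L)) = 0 := by
    rw [aeval_map_algebraMap]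
    have := aeval_algHom_apply (Module.End.baseChangeHom K L M) b (p.map (algebraMap R K))
    rw [h, map_zero] at this
    exact this
  have h3 := Module.End.aeval_apply_of_hasEigenvector
    (p := (p.map (algebraMap R K)).map (algebraMap K L)) hv
  rw [h2, LinearMap.zero_apply] at h3
  have h4 := (smul_eq_zero.1 h3.symm).resolve_right hv.2
  refine ⟨p, hp, ?_⟩
  rwa [Polynomial.map_map, ← IsScalarTower.algebraMap_eq, eval_map] at h4

variable [Module R M] [IsScalarTower R K M]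

theorem exists_poly (b : End K M) (N : Submodule R M) (hN : N.FG) (hb : ∀ v ∈ N, b v ∈ N)
    (hd : ∀ v : M, ∃ s : K, s ≠ 0 ∧ s • v ∈ N) :
    ∃ p : R[X], p.Monic ∧ aeval b (p.map (algebraMap R K)) = 0 := by
  have : Module.Finite R N := Module.Finite.iff_fg.2 hN
  let f : End R N := (b.restrictScalars R).restrict hb
  have hf : ∀ (n : ℕ) (v : N), ((f ^ n) v : M) = (b ^ n) v := fun n => by
    induction n with
    | zero => intro v; rfl
    | succ n ih =>
      intro v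
      rw [pow_succ, pow_succ, End.mul_apply, End.mul_apply, ih]
      rfl
  have key : ∀ (q : R[X]) (v : N), (aeval f q v : M) = aeval b (q.map (algebraMap R K)) v :=
    fun q v => by
      induction q using Polynomial.induction_on' with
      | add q r hq hr => simp only [map_add, Polynomial.map_add, LinearMap.add_apply,
          Submodule.coe_add, hq, hr]
      | monomial n a =>
        rw [Polynomial.map_monomial, aeval_monomial, aeval_monomial, End.mul_apply, End.mul_apply,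
          Module.algebraMap_end_apply, Module.algebraMap_end_apply, Submodule.coe_smul, hf,
          algebraMap_smul]
  obtain ⟨p, hp, h0⟩ := LinearMap.exists_monic_and_aeval_eq_zero R f
  refine ⟨p, hp, LinearMap.ext fun v => ?_⟩
  obtain ⟨s, hs, hv⟩ := hd v
  have h1 := key p ⟨s • v, hv⟩
  rw [h0, LinearMap.zero_apply, Submodule.coe_zero, map_smul] at h1
  exact (smul_eq_zero.1 h1.symm).resolve_left hs

end

end TRSx

theorem trs : S_TRS := by
  intro K ι _ _ _ S x hB hN b hb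
  have := hB.fd
  obtain ⟨p, hp, h0⟩ := TRSx.exists_poly (R := S) b (LL S) (hB.fgT.prod hB.fgD) hb fun v => by
    obtain ⟨s, hs, hs0, h1⟩ := hB.den v.1
    obtain ⟨t, ht, ht0, h2⟩ := hB.denD v.2
    refine ⟨s * t, mul_ne_zero hs0 ht0, ?_, ?_⟩
    · have := (TT S).smul_mem ⟨t, ht⟩ h1
      rw [mul_comm, mul_smul]
      exact this
    · have := (TD S).smul_mem ⟨s, hs⟩ h2
      rw [mul_smul]
      exact this
  exact hN _ (TRSx.trace_int b p hp h0)

end Pool.Agent.MP_51db15_ag.Qh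

end
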