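import Pool.Agent.MP_51db15_ag.Qh.Spec3
import Pool.Agent.MP_51db15_ag.Hy.JORD1
import Pool.Agent.MP_51db15_ag.Hy.JORD2
import Pool.Agent.MP_51db15_ag.Hy.MINP
import Pool.Agent.MP_51db15_ag.Hy.P2
import Pool.Agent.MP_51db15_ag.Nc.Base
import Pool.Agent.MP_51db15_ag.Nc.D4

/-! Merged rows: ALI BAS CONC END END2 FIN FIN2 HDC HG HJ HOV HPERF JD2 LIN LTA LTA2 PERF ST TRF. -/

section
/-! A chain of primes gives algebraic independence. -/

namespace Pool.Agent.MP_51db15_ag.Qh

namespace ALIx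

variable {R : Type} [CommRing R]

lemma one {A : Type} [CommRing A] (φ : A →+* R) (x : R) (Q Q' : Ideal R) (hQ : Q.IsPrime)
    (hle : Q ≤ Q') (h1 : x ∈ Q') (h0 : x ∉ Q) (hφ : ∀ a, φ a ∈ Q' → a = 0) (P : Polynomial A) :
    P.eval₂ φ x ∈ Q → P = 0 := by
  induction P using Polynomial.degree_lt_wf.induction with
  | _ P ih =>
    intro h
    by_contra hP
    have e : P.eval₂ φ x = P.divX.eval₂ φ x * x + φ (P.coeff 0) := by
      conv_lhs => rw [← Polynomial.divX_mul_X_add P]
      rw [Polynomial.eval₂_add, Polynomial.eval₂_mul_X, Polynomial.eval₂_C]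
    have c0 : P.coeff 0 = 0 := by
      refine hφ _ ?_
      have a := Q'.sub_mem (hle h) (Q'.mul_mem_left (P.divX.eval₂ φ x) h1)
      rwa [e, add_sub_cancel_left] at a
    rw [e, c0, map_zero, add_zero] at h
    have d := ih P.divX (Polynomial.degree_divX_lt hP) ((hQ.mem_or_mem h).resolve_right h0)
    refine hP ?_
    rw [← Polynomial.divX_mul_X_add P, d, c0, map_zero, zero_mul, add_zero]

variable [Algebra ℂ R]

lemma succ (M : ℕ) (f : ℕ → R) (p : MvPolynomial (Fin (M + 1)) ℂ) :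
    MvPolynomial.aeval (fun j : Fin (M + 1) => f j) p =
      (MvPolynomial.finSuccEquiv ℂ M p).eval₂
        (MvPolynomial.aeval (R := ℂ) (fun j : Fin M => f (j + 1))).toRingHom (f 0) := by
  induction p using MvPolynomial.induction_on with
  | C a => simp [MvPolynomial.finSuccEquiv_apply]
  | add p q hp hq => rw [map_add, map_add, Polynomial.eval₂_add, hp, hq]
  | mul_X p i hp =>
    rw [map_mul, map_mul, Polynomial.eval₂_mul, hp]
    congr 1
    refine Fin.cases ?_ (fun j => ?_) i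
    · simp [MvPolynomial.finSuccEquiv_X_zero]
    · simp [MvPolynomial.finSuccEquiv_X_succ]

lemma chain (M : ℕ) : ∀ (f : ℕ → R) (Q : ℕ → Ideal R), (∀ j ≤ M, (Q j).IsPrime) →
    (∀ j < M, Q j ≤ Q (j + 1) ∧ f j ∈ Q (j + 1) ∧ f j ∉ Q j) →
    ∀ p : MvPolynomial (Fin M) ℂ, MvPolynomial.aeval (fun j : Fin M => f j) p ∈ Q 0 → p = 0 := by
  induction M with
  | zero =>
    intro f Q h1 _ p hp
    rw [MvPolynomial.eq_C_of_isEmpty p] at hp ⊢
    rw [MvPolynomial.aeval_C] at hp
    by_contra k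
    have c : MvPolynomial.coeff 0 p ≠ 0 := fun e => k (by rw [e, map_zero])
    exact (h1 0 le_rfl).ne_top (Ideal.eq_top_of_isUnit_mem _ hp ((Ne.isUnit c).map _))
  | succ M ih =>
    intro f Q h1 h2 p hp
    rw [succ] at hp
    obtain ⟨a1, a2, a3⟩ := h2 0 (Nat.succ_pos M)
    have := one _ _ _ _ (h1 0 (Nat.zero_le _)) a1 a2 a3
      (ih (fun j => f (j + 1)) (fun j => Q (j + 1)) (fun j hj => h1 _ (by omega))
        fun j hj => h2 _ (by omega)) _ hp
    exact (MvPolynomial.finSuccEquiv ℂ M).injective (by rw [this, map_zero])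

omit [Algebra ℂ R] in
lemma primes (I : ℕ → Ideal R) (hI : ∀ j, I j ≤ I (j + 1)) (M : ℕ) : ∀ P ∈ (I M).minimalPrimes,
    ∃ Q : ℕ → Ideal R, Q M = P ∧ (∀ j ≤ M, Q j ∈ (I j).minimalPrimes) ∧
      ∀ j < M, Q j ≤ Q (j + 1) := by
  induction M with
  | zero => exact fun P hP => ⟨fun _ => P, rfl, fun j hj => by rwa [Nat.le_zero.1 hj], by simp⟩
  | succ M ih =>
    intro P hP
    have := hP.1.1
    obtain ⟨P', p1, p2⟩ := Ideal.exists_minimalPrimes_le ((hI M).trans hP.1.2)
    obtain ⟨Q, q1, q2, q3⟩ := ih P' p1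
    refine ⟨fun j => if j ≤ M then Q j else P, if_neg (by omega), fun j hj => ?_, fun j hj => ?_⟩
    · by_cases e : j ≤ M
      · simp only [if_pos e]
        exact q2 j e
      · simp only [if_neg e]
        rwa [show j = M + 1 by omega]
    · by_cases e : j + 1 ≤ M
      · simp only [if_pos e, if_pos (show j ≤ M by omega)]
        exact q3 j e
      · simp only [if_neg e, if_pos (show j ≤ M by omega)]
        rw [show j = M by omega, q1]
        exact p2

end ALIx

theorem ali : S_ALI := by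
  intro R _ _ _ M f h1 h2
  obtain ⟨m, m1, m2⟩ := Ideal.exists_le_maximal _ h1
  have := m1.isPrime
  obtain ⟨P, p1, -⟩ := Ideal.exists_minimalPrimes_le m2
  obtain ⟨Q, -, q2, q3⟩ := ALIx.primes (fun j => Ideal.span (f '' {i | i < j}))
    (fun j => Ideal.span_mono (Set.image_mono fun i (hi : i < j) => Nat.lt_succ_of_lt hi)) M P p1
  refine algebraicIndependent_iff.2 fun p hp => ALIx.chain M f Q (fun j hj => (q2 j hj).1.1)
    (fun j hj => ⟨q3 j hj, (q2 (j + 1) hj).1.2 (Ideal.subset_span ⟨j, Nat.lt_succ_self j, rfl⟩),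
      h2 j hj _ (q2 j hj.le)⟩) p ?_
  rw [hp]
  exact (Q 0).zero_mem

end Pool.Agent.MP_51db15_ag.Qh

end

section
/-! PROJECT QH, row BAS: finiteness facts for fields and one-forms. -/

namespace Pool.Agent.MP_51db15_ag.Qh

open Module

noncomputable section

namespace BASx

variable {K ι : Type} [Field K] [Algebra ℂ K] {S : Subalgebra ℂ K} {x : ι → K}

theorem ideal (hg : Algebra.adjoin ℂ (Set.range x) = S) (D : DD K) (P : Ideal S)
    (h : ∀ i, In P (D (x i))) (g : K) (hS : g ∈ S) : In P (D g) := by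
  rw [← hg] at hS
  induction hS using Algebra.adjoin_induction with
  | mem g hx =>
    obtain ⟨i, rfl⟩ := hx
    exact h i
  | algebraMap c => exact ⟨0, P.zero_mem, D.map_algebraMap c⟩
  | add a b _ _ ha hb =>
    obtain ⟨u, hu, e⟩ := ha
    obtain ⟨v, hv, e'⟩ := hb
    exact ⟨u + v, P.add_mem hu hv, by rw [map_add, e, e']; rfl⟩
  | mul a b ka kb ha hb =>
    obtain ⟨u, hu, e⟩ := ha
    obtain ⟨v, hv, e'⟩ := hb
    rw [hg] at ka kb
    exact ⟨⟨a, ka⟩ * v + ⟨b, kb⟩ * u, P.add_mem (P.mul_mem_left _ hv) (P.mul_mem_left _ hu), by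
      rw [D.leibniz, e, e']; rfl⟩

theorem tt (hg : Algebra.adjoin ℂ (Set.range x) = S) (D : DD K) (h : ∀ i, D (x i) ∈ S) :
    D ∈ TT S := fun g hS => by
  obtain ⟨b, -, e⟩ := ideal hg D ⊤ (fun i => ⟨⟨_, h i⟩, trivial, rfl⟩) g hS
  exact e ▸ b.2

theorem zero (hg : Algebra.adjoin ℂ (Set.range x) = S)
    (hf : ∀ y : K, ∃ g ∈ S, ∃ h ∈ S, h ≠ 0 ∧ y = g / h) (D : DD K) (h : ∀ i, D (x i) = 0) :
    D = 0 := by
  have k : ∀ g ∈ S, D g = 0 := fun g hS => by
    obtain ⟨b, hb, e⟩ := ideal hg D ⊥ (fun i => ⟨0, Ideal.zero_mem _, h i⟩) g hS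
    rw [e, Ideal.mem_bot.1 hb]
    rfl
  ext y
  obtain ⟨g, a, u, b, c, rfl⟩ := hf y
  have e := D.leibniz (g / u) u
  rw [div_mul_cancel₀ g c, k g a, k u b, smul_zero, zero_add, smul_eq_mul] at e
  exact (mul_eq_zero.1 e.symm).resolve_left c

theorem den {κ : Type} [Fintype κ] (hf : ∀ y : K, ∃ g ∈ S, ∃ h ∈ S, h ≠ 0 ∧ y = g / h)
    (y : κ → K) : ∃ s ∈ S, s ≠ 0 ∧ ∀ k, s * y k ∈ S := by
  classical
  choose g hg h hh h0 e using fun k => hf (y k)
  refine ⟨∏ k, h k, S.prod_mem fun k _ => hh k, Finset.prod_ne_zero_iff.2 fun k _ => h0 k,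
    fun k => ?_⟩
  rw [← Finset.prod_erase_mul _ _ (Finset.mem_univ k), e k, mul_assoc,
    mul_div_cancel₀ _ (h0 k)]
  exact S.mul_mem (S.prod_mem fun j _ => hh j) (hg k)

theorem fg {κ V : Type} [Fintype κ] [AddCommGroup V] [Module S V] [IsNoetherianRing S]
    (N : Submodule S V) (ev : κ → V →ₗ[S] K) (hm : ∀ v ∈ N, ∀ k, ev k v ∈ S)
    (hi : ∀ v, (∀ k, ev k v = 0) → v = 0) : N.FG := by
  let φ : N →ₗ[S] κ → S :=
    { toFun := fun v k => ⟨ev k v, hm v v.2 k⟩
      map_add' := fun v w => funext fun k => Subtype.ext (map_add (ev k) v.1 w.1)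
      map_smul' := fun c v => funext fun k => Subtype.ext (map_smul (ev k) c v.1) }
  have : IsNoetherian S N := isNoetherian_of_injective φ
    ((injective_iff_map_eq_zero φ).2 fun v hv => Subtype.ext
      (hi v fun k => congrArg Subtype.val (congrFun hv k)))
  exact Module.Finite.iff_fg.1 inferInstance

theorem span {n : ℕ} {v : Fin n → DD K} (hv : Submodule.span S (Set.range v) = TT S) (γ : DU K)
    (P : Ideal S) (h : ∀ k, In P (γ (v k))) (D : DD K) (hD : D ∈ TT S) : In P (γ D) := by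
  rw [← hv] at hD
  induction hD using Submodule.span_induction with
  | mem D hx =>
    obtain ⟨k, rfl⟩ := hx
    exact h k
  | zero => exact ⟨0, P.zero_mem, map_zero γ⟩
  | add a b _ _ ha hb =>
    obtain ⟨u, hu, e⟩ := ha
    obtain ⟨w, hw, e'⟩ := hb
    exact ⟨u + w, P.add_mem hu hw, by rw [map_add, e, e']; rfl⟩
  | smul c a _ ha =>
    obtain ⟨u, hu, e⟩ := ha
    exact ⟨c * u, P.mul_mem_left _ hu, (γ.map_smul (c : K) a).trans (by rw [e]; rfl)⟩

end BASx

theorem bas : S_BAS := by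
  intro K ι _ _ _ S t x a h
  have hm : ∀ i, x i ∈ S := fun i => h.gen ▸ Algebra.subset_adjoin ⟨i, rfl⟩
  have hn : IsNoetherianRing S :=
    isNoetherianRing_of_fg (Subalgebra.fg_def.2 ⟨_, Set.finite_range x, h.gen⟩)
  have hd : ∀ D : DD K, ∃ s ∈ S, s ≠ 0 ∧ s • D ∈ TT S := fun D => by
    obtain ⟨s, a, b, c⟩ := BASx.den h.frac fun i => D (x i)
    exact ⟨s, a, b, BASx.tt h.gen _ c⟩
  have hT : (TT S).FG := BASx.fg (TT S)
    (fun i => { toFun := fun D => D (x i), map_add' := fun _ _ => rfl, map_smul' := fun _ _ => rfl })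
    (fun D hD i => hD _ (hm i)) (BASx.zero h.gen h.frac)
  obtain ⟨n, v, hv⟩ := Submodule.fg_iff_exists_fin_generating_family.1 hT
  have hv' : ∀ k, v k ∈ TT S := fun k => hv ▸ Submodule.subset_span ⟨k, rfl⟩
  refine ⟨hm, h.frac, hn, FiniteDimensional.of_injective (LinearMap.pi fun i => dd (x i))
    ((injective_iff_map_eq_zero _).2 fun D hD => BASx.zero h.gen h.frac D (congrFun hD)),
    fun D D' e => sub_eq_zero.1 (BASx.zero h.gen h.frac _ fun i => sub_eq_zero.2 (e i)),
    BASx.tt h.gen, hd, fun γ => ?_, hT, BASx.fg (TD S)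
    (fun k => { toFun := fun γ => γ (v k), map_add' := fun _ _ => rfl, map_smul' := fun _ _ => rfl })
    (fun γ hγ k => hγ _ (hv' k)) fun γ e => ?_, BASx.ideal h.gen⟩
  · obtain ⟨s, a, b, c⟩ := BASx.den h.frac fun k => γ (v k)
    refine ⟨s, a, b, fun D hD => ?_⟩
    obtain ⟨u, -, e⟩ := BASx.span hv (s • γ) ⊤ (fun k => ⟨⟨_, c k⟩, trivial, rfl⟩) D hD
    exact e ▸ u.2
  · refine LinearMap.ext fun D => ?_
    obtain ⟨s, -, b, c⟩ := hd D
    obtain ⟨u, hu, e'⟩ := BASx.span hv γ ⊥ (fun k => ⟨0, Ideal.zero_mem _, e k⟩) _ c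
    rw [Ideal.mem_bot.1 hu, map_smul, smul_eq_mul] at e'
    exact (mul_eq_zero.1 e').resolve_left b

end

end Pool.Agent.MP_51db15_ag.Qh

end

section
/-! The concrete algebra of endomorphisms has the abstract properties. -/

namespace Pool.Agent.MP_51db15_ag.Qh

open Module

namespace CONx

section Gen

variable {K M N : Type} [Field K] [AddCommGroup M] [Module K M] [AddCommGroup N] [Module K N]

theorem gnil (a : End K M) (v : M) : v ∈ a.maxGenEigenspace 0 ↔ ∃ k : ℕ, (a ^ k) v = 0 := by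
  simp [End.mem_maxGenEigenspace]

theorem gtr [FiniteDimensional K M] (p : End K M) (h : p * p = p) (h0 : p ≠ 0) :
    ∃ n : ℕ, n ≠ 0 ∧ LinearMap.trace K M p = n :=
  ⟨_, fun k => h0 (LinearMap.range_eq_bot.1 (Submodule.finrank_eq_zero.1 k)),
    (LinearMap.IsIdempotentElem.isProj_range p h).trace⟩

theorem gprod (X : End K (M × N)) (b : End K M) (h : ∀ v, X v = (b v.1, 0))
    (hb : IsNilpotent b) : IsNilpotent X := by
  obtain ⟨n, hn⟩ := hb
  have : ∀ (n : ℕ) v, (X ^ (n + 1)) v = ((b ^ (n + 1)) v.1, 0) := fun n v => by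
    induction n with
    | zero => simpa using h v
    | succ n ih => rw [pow_succ' X, End.mul_apply, ih, h, pow_succ' b (n + 1), End.mul_apply]
  exact ⟨n + 1, LinearMap.ext fun v => by rw [this, pow_succ, hn, zero_mul]; rfl⟩

theorem gint {U : Type} [AddCommGroup U] [Module ℂ U] {δ : End ℂ U} {H : Submodule ℂ U}
    (V : Dz δ H) {a : U} (ha : a ∈ H) (a0 : a ≠ 0) {l : ℂ} (h : δ a = l • a) :
    ∃ n : ℤ, l = n := by
  by_contra hc
  push Not at hc
  have h1 : ⨆ n : ℤ, H ⊓ δ.eigenspace (n : ℂ) ≤ ⨆ (c : ℂ) (_ : c ≠ l), δ.eigenspace c :=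
    iSup_le fun n => inf_le_right.trans (le_iSup₂_of_le (n : ℂ) (hc n).symm le_rfl)
  exact a0 (Submodule.disjoint_def.1 (End.eigenspaces_iSupIndep δ l) a
    (End.mem_eigenspace_iff.2 h) (h1 (V a ha)))

theorem gst {R : Type} [Ring R] [Algebra ℂ R] (st : R →ₗ[ℂ] R)
    (hm : ∀ a b, st (a * b) = st b * st a) {p q a a' : R} {c : ℂ} (hp : st p = q)
    (ha : st a' = a) (h : IsNilpotent (p * a' * p - c • p)) : IsNilpotent (q * a * q - c • q) := by
  obtain ⟨n, hn⟩ := h
  have : ∀ (b : R) (n : ℕ), st (b ^ (n + 1)) = st b ^ (n + 1) := fun b n => by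
    induction n with
    | zero => rw [zero_add, pow_one, pow_one]
    | succ n ih => rw [pow_succ, hm, ih, ← pow_succ']
  have h1 := this (p * a' * p - c • p) n
  rw [pow_succ, hn, zero_mul, map_zero, map_sub, map_smul, hm, hm, hp, ha, ← mul_assoc] at h1
  exact ⟨n + 1, h1.symm⟩

end Gen

variable {K : Type} [Field K] [Algebra ℂ K] {S : Subalgebra ℂ K} {ι κ : Type}

theorem po [Fintype κ] [DecidableEq κ] {E : DD K} {e : κ → End K (DD K)} (I : Idm S E e)
    (u v : κ × Bool) : pp e u * pp e v = if u = v then pp e u else 0 := by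
  obtain ⟨i, b⟩ := u
  obtain ⟨j, b'⟩ := v
  refine LinearMap.ext fun w => ?_
  rw [End.mul_apply]
  cases b <;> cases b'
  · rw [pp_false, pp_false, ← End.mul_apply, I.orth]
    by_cases h : i = j
    · subst h
      rw [if_pos rfl, if_pos rfl, pp_false]
    · rw [if_neg h, if_neg fun k => h (congrArg Prod.fst k)]
      rfl
  · rw [pp_false, pp_true, if_neg (by simp), map_zero]
    rfl
  · rw [pp_true, pp_false, if_neg (by simp), LinearMap.zero_comp]
    rfl
  · rw [pp_true, pp_true, LinearMap.comp_assoc, ← End.mul_eq_comp, I.orth]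
    by_cases h : i = j
    · subst h
      rw [if_pos rfl, if_pos rfl, pp_true]
    · rw [if_neg fun k => h k.symm, if_neg fun k => h (congrArg Prod.fst k), LinearMap.comp_zero]
      rfl

theorem ps [Fintype κ] [DecidableEq κ] {E : DD K} {e : κ → End K (DD K)} (I : Idm S E e) :
    ∑ u, pp e u = 1 := by
  refine LinearMap.ext fun w => ?_
  have h : ∀ D, ∑ i, e i D = D := fun D => by
    rw [← LinearMap.sum_apply, I.sum, End.one_apply]
  rw [LinearMap.sum_apply, Fintype.sum_prod_type]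
  simp only [Fintype.sum_bool, pp_false, pp_true, Prod.mk_add_mk, zero_add, add_zero]
  refine Prod.ext ?_ (LinearMap.ext fun D => ?_)
  · rw [Prod.fst_sum]
    exact h _
  · rw [Prod.snd_sum, LinearMap.sum_apply]
    simp only [LinearMap.comp_apply]
    rw [← map_sum, h]
    rfl

theorem loc [Fintype κ] [DecidableEq κ] {E : DD K} {e : κ → End K (DD K)} (I : Idm S E e)
    (k : κ) {a : EE K} (ha : a ∈ EI S) (h0 : del E a = 0) :
    ∃ c : ℂ, IsNilpotent (pp e (k, false) * a * pp e (k, false) - c • pp e (k, false)) := by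
  obtain ⟨c, hn⟩ := I.loc k (LinearMap.fst K _ _ ∘ₗ a ∘ₗ LinearMap.inl K _ _)
    ⟨fun D hD => (ha (D, 0) ⟨hD, zero_mem _⟩).1, fun D => by
      have h1 := LinearMap.congr_fun h0 (D, 0)
      rw [del_apply, LinearMap.zero_apply, sub_eq_zero, lam_apply E (D, 0), map_zero] at h1
      exact congrArg Prod.fst h1⟩
  refine ⟨c, gprod (M := DD K) (N := DU K) _ _ (fun v => Prod.ext rfl ?_) hn⟩
  change (0 : DU K) - c • 0 = 0
  rw [smul_zero, sub_zero]

theorem neg {E : DD K} {x : ι → K} {w : ι → ℕ} (C : Cone S E x w) {a : EE K} (ha : a ∈ EI S)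
    {n : ℤ} (hn : n < 0) (h : del E a = (n : ℂ) • a) : IsNilpotent a := by
  have := C.bas.fd
  obtain ⟨B, hB⟩ := C.evf.low
  have h1 : ∀ v ∈ LL S, v ∈ a.maxGenEigenspace 0 := fun v hv => by
    refine (iSup_le (a := (a.maxGenEigenspace 0).restrictScalars ℂ) fun m => ?_) (C.ev.L v hv)
    rintro v ⟨hv, ev⟩
    have h2 : ∀ k : ℕ, (a ^ k) v ∈ LL S ∧
        lam E ((a ^ k) v) = ((m + k * n : ℤ) : ℂ) • (a ^ k) v := fun k => by
      induction k with
      | zero => exact ⟨hv, by simpa using End.mem_eigenspace_iff.1 ev⟩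
      | succ k ih =>
        rw [pow_succ', End.mul_apply]
        refine ⟨ha _ ih.1, ?_⟩
        have h3 := LinearMap.congr_fun h ((a ^ k) v)
        rw [del_apply, sub_eq_iff_eq_add, ih.2, lin_c, LinearMap.smul_apply, ← add_smul] at h3
        rw [h3]
        congr 1
        push_cast
        ring
    refine (gnil (M := MM K) a v).2 ⟨(m - B).natAbs + 1, hB _ (h2 _).1 _ ?_ (h2 _).2⟩
    push_cast
    nlinarith [le_abs_self (m - B), abs_nonneg (m - B)]
  refine End.isNilpotent_iff_of_finite.2 fun v => ?_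
  obtain ⟨s, -, s0, hs⟩ := C.bas.den v.1
  obtain ⟨s', -, s0', hs'⟩ := C.bas.denD v.2
  have e : v = s⁻¹ • (s • v.1, 0) + s'⁻¹ • (0, s' • v.2) := by
    simp [s0, s0']
  have h4 : v ∈ a.maxGenEigenspace 0 := e ▸ add_mem
    (Submodule.smul_mem _ _ (h1 _ ⟨hs, zero_mem _⟩)) (Submodule.smul_mem _ _ (h1 _ ⟨zero_mem _, hs'⟩))
  exact (gnil (M := MM K) a v).1 h4

end CONx

theorem con (t : S_TRS) (l : S_LIN) (c : S_CLO) : S_CON := by
  intro K ι κ _ _ _ _ _ S E x w e st C L N I T
  have := C.bas.fd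
  have hE := C.ev.tm
  obtain ⟨l1, l2⟩ := l K ι κ S E x w e C L (t K ι S x C.bas N) I
  have pF : ∀ k, del E (pp e (k, false)) = 0 := fun k => LinearMap.ext fun v => by
    rw [del_apply, pp_false, pp_false, lam_apply, lam_apply, (I.a0 k).2, map_zero, sub_self]
    rfl
  have tF : ∀ k, ∃ n : ℕ, n ≠ 0 ∧ tr (pp e (k, false)) = n := fun k => by
    refine CONx.gtr (M := MM K) _ ((CONx.po I _ _).trans (if_pos rfl)) fun h =>
      I.ne k (LinearMap.ext fun D => ?_)
    exact congrArg Prod.fst (LinearMap.congr_fun h (D, 0))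
  refine
    { sum := fun a => ?_
      leib := fun j => del_mul _
      com := fun j => (c K S).2.2.2 E _ (by rw [(I.a0 j).2, lie_self, map_zero])
      dm := fun j a ha => del_mem ((I.a0 j).1 E hE) ha
      sm := T.sm
      smul := T.smul
      sd := fun j => T.sd _
      sp := T.sp κ e
      tc := LinearMap.trace_mul_comm K
      ts := T.ts
      tn := fun a ha => (LinearMap.isNilpotent_trace_of_isNilpotent ha).eq_zero
      tp := fun ⟨k, b⟩ => ?_
      pm := fun ⟨k, b⟩ v hv => ?_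
      po := CONx.po I
      ps := CONx.ps I
      pd := fun ⟨k, b⟩ => ?_
      loc := fun ⟨k, b⟩ a ha h0 => ?_
      neg := fun a ha b hb m m0 h1 h2 => ?_
      side := fun i j k => LinearMap.ext fun v => ?_
      lin1 := l1
      lin2 := l2 }
  · rw [← del_sum_left, ← LinearMap.sum_apply, I.sum, End.one_apply]
  · cases b
    · exact tF k
    · obtain ⟨n, h1, h2⟩ := tF k
      exact ⟨n, h1, by rw [← h2, ← T.ts (pp e (k, false)), T.sp, Bool.not_false]⟩
  · cases b
    · exact ⟨(I.a0 k).1 _ hv.1, zero_mem _⟩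
    · exact ⟨zero_mem _, fun D hD => hv.2 _ ((I.a0 k).1 D hD)⟩
  · cases b
    · exact pF k
    · rw [← Bool.not_false, ← T.sp, ← T.sd, pF, map_zero]
  · cases b
    · exact CONx.loc I k ha h0
    · obtain ⟨m, hm⟩ := CONx.loc I k (T.sm a ha) (by rw [← T.sd, h0, map_zero])
      exact ⟨m, CONx.gst (R := EE K) st T.smul (T.sp κ e k false) (T.sst a) hm⟩
  · by_cases a0 : a = 0
    · exact Or.inl (a0 ▸ IsNilpotent.zero)
    obtain ⟨n, rfl⟩ := CONx.gint C.ev.E ha a0 h1
    rcases lt_or_gt_of_ne (Int.cast_ne_zero.1 m0) with h | h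
    · exact Or.inl (CONx.neg C ha h h1)
    · exact Or.inr (CONx.neg C hb (neg_neg_of_pos h) (by rw [h2, Int.cast_neg]))
  · rw [End.mul_apply, End.mul_apply, pp_true, del_apply, pp_false, pp_false, pp_false, lam_apply,
      Prod.snd_sub, map_zero, sub_self, LinearMap.zero_comp]
    rfl

end Pool.Agent.MP_51db15_ag.Qh

end

section
/-! PROJECT QH, row END: the new grading and the new form. -/

namespace Pool.Agent.MP_51db15_ag.Qh

open Module

namespace ENDx

variable {K κ : Type} [Field K] [Algebra ℂ K] [Fintype κ] [DecidableEq κ] {S : Subalgebra ℂ K}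
  {E : DD K} {e : κ → End K (DD K)}

theorem a0 (h : Idm S E e) (d : κ → ℂ) : A0 S E (∑ j, d j • e j) := by
  refine ⟨fun D hD => ?_, fun D => ?_⟩
  · rw [LinearMap.sum_apply]
    exact (TC S).sum_mem fun j _ => (TC S).smul_mem (d j) ((h.a0 j).1 D hD)
  · simp only [LinearMap.sum_apply, LinearMap.smul_apply, lie_sum, lie_smul, (h.a0 _).2]

theorem mul (h : Idm S E e) (u v : κ → ℂ) :
    (∑ j, u j • e j) * (∑ j, v j • e j) = ∑ j, (u j * v j) • e j := by
  rw [Finset.sum_mul_sum]
  refine Finset.sum_congr rfl fun i _ => ?_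
  simp only [smul_mul_smul_comm, h.orth, smul_ite, smul_zero, Finset.sum_ite_eq, Finset.mem_univ,
    if_true]

theorem inv (h : Idm S E e) (c : κ → ℂ) (α : ℂ) (hα : α ∉ Set.range c) :
    (∑ j, (c j - α)⁻¹ • e j) ((∑ j, c j • e j) E - α • E) = E := by
  have h1 : (∑ j, c j • e j) E - α • E = (∑ j, (c j - α) • e j) E := by
    have k : ∑ j, e j E = E := by rw [← LinearMap.sum_apply, h.sum, End.one_apply]
    simp only [LinearMap.sum_apply, LinearMap.smul_apply, sub_smul, Finset.sum_sub_distrib,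
      ← Finset.smul_sum, k]
  have h2 : ∀ j, (c j - α)⁻¹ * (c j - α) = 1 := fun j =>
    inv_mul_cancel₀ (sub_ne_zero.2 fun k => hα ⟨j, k⟩)
  rw [h1, ← End.mul_apply, mul h]
  simp only [h2, one_smul, h.sum, End.one_apply]

end ENDx

open ENDx in
theorem fend (b : S_BAS) (ev : S_EV) (vt : S_VTX) (ef : S_EVF) (j1 : S_JD1) (j2 : S_JD2)
    (ps : S_POS) (rt : S_RAT) (dc : S_DEC) (fn : S_FIN) : S_END := by
  intro K ι κ _ _ _ _ _ S E x a e y ω hA hy
  classical
  have y0 : ∀ k, y k ≠ 0 := fun k h => by simpa [h] using hy k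
  obtain ⟨c, hc⟩ : ∃ c : κ → ℂ, ∀ k, c k = (2 * y k)⁻¹ := ⟨_, fun _ => rfl⟩
  have c1 : ∀ k k', c k * y k + c k' * y k' = 1 := fun k k' => by
    have := y0 k
    have := y0 k'
    rw [hc, hc]
    field_simp
    norm_num
  have c2 : ∀ k, 0 < (c k).re := fun k => by
    rw [hc, Complex.inv_re]
    exact div_pos (by simpa using hy k) (Complex.normSq_pos.2 (mul_ne_zero two_ne_zero (y0 k)))
  obtain ⟨ε, e0, e1⟩ : ∃ ε : ℝ, 0 < ε ∧ ∀ k, ε ≤ (c k).re := by
    rcases isEmpty_or_nonempty κ with _ | _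
    · exact ⟨1, one_pos, isEmptyElim⟩
    · obtain ⟨k, hk⟩ := Finite.exists_min fun k => (c k).re
      exact ⟨_, c2 k, hk⟩
  have hB := a0 hA.idm c
  have Y1 := hB.1 E hA.cone.ev.tm
  have Y2 : ⁅E, (∑ j, c j • e j) E⁆ = 0 := by rw [hB.2, lie_self, map_zero]
  obtain ⟨ι', _, x', a', μ, cx, pos, hv, hμ⟩ := j1 K ι S E x a hA.cone _ Y1 Y2
  have hb := b K ι' S E x' a' cx
  have cone : Cone S E x' a' :=
    ⟨cx, pos, hb, hA.cone.ev, vt K ι' S E x' a' cx pos hb hA.cone.ev, hA.cone.evf⟩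
  have m0 : ∀ i, 0 < (μ i).re := fun i => by
    have k := ps K ι' S E x' a' cone (by unfold LTP; rw [hv]; exact hA.ltp) _ (Set.range c) μ hB
      (fun α hα => ⟨_, (a0 hA.idm _).1, inv hA.idm c α hα⟩) hμ (-Complex.reAddGroupHom) (-ε)
      (by rintro _ ⟨k, rfl⟩; simpa using e1 k) i
    have p : (0 : ℝ) < a' i := by exact_mod_cast pos i
    have := mul_pos p e0
    simp only [AddMonoidHom.neg_apply, Complex.coe_reAddGroupHom] at k
    linarith
  obtain ⟨F', hF'⟩ := dc K ι κ S E x a e y ω c hA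
  obtain ⟨l, l1, l2⟩ := rt (insert 1 (Finset.univ.image μ)) F' Complex.reAddGroupHom (by
    intro z hz
    rcases Finset.mem_insert.1 hz with rfl | hz
    · simp
    · obtain ⟨i, -, rfl⟩ := Finset.mem_image.1 hz
      exact m0 i)
  obtain ⟨w, w0, hw⟩ := l1 1 (Finset.mem_insert_self _ _)
  choose n n0 hn using fun i =>
    l1 (μ i) (Finset.mem_insert_of_mem (Finset.mem_image_of_mem _ (Finset.mem_univ i)))
  obtain ⟨t, ht⟩ := j2 K ι S E x a hA.cone _ Y1 Y2 l
  have ct : Cx S t x' n := ⟨cx.gen, cx.frac, fun i => by rw [ht.2 _ (hb.mem i) _ (hμ i).2, hn]⟩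
  have et := ev K ι' S t x' n ct hb
  have vt' := vt K ι' S t x' n ct n0 hb et
  obtain ⟨F, η, f1, f2, f3⟩ := hF' l l2 ι' t x' n ht ct hb et
  have pf : Perf S x (η w) := by
    refine hA.perf _ ?_
    have : ω - η w = ∑ m ∈ F.erase w, η m := by
      refine sub_eq_iff_eq_add'.2 (f1.trans ?_)
      by_cases k : (w : ℤ) ∈ F
      · exact (Finset.add_sum_erase _ _ k).symm
      · rw [f2 _ k, Finset.erase_eq_of_notMem k]
        exact (zero_add _).symm
    rw [this]
    refine Submodule.sum_mem _ fun m hm => (f3 m).2.2.2.2 fun k k' q => ?_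
    rw [c1, hw] at q
    exact Finset.ne_of_mem_erase hm (by exact_mod_cast q.symm)
  obtain ⟨𝒢, g1, g2⟩ := fn K ι' S t x' n (η w) w
    ⟨ct, n0, hb, et, vt', ef K ι' S t x' n ct hb et vt'⟩ hA.nrm w0 (f3 w).2.1 (f3 w).2.2.1
    (by rw [(f3 w).2.2.2.1, Int.cast_natCast]) (by unfold Perf; rw [hv]; exact pf)
  exact ⟨η w, 𝒢, g1, hv ▸ g2⟩

end Pool.Agent.MP_51db15_ag.Qh

end

section
/-! PROJECT QF, row END2: the new grading and the new form, regular along valuations. -/

namespace Pool.Agent.MP_51db15_ag.Qh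

open Module

open ENDx in
theorem fend2 (b : S_BAS) (ev : S_EV) (vt : S_VTX) (ef : S_EVF) (j1 : S_JD1) (j2 : S_JD2)
    (ps : S_POS) (rt : S_RAT) (dc : S_DEC2) (fn : S_FIN2) : S_END2 := by
  intro K ι κ _ _ _ _ _ S E x a e y ω hA hy
  classical
  have y0 : ∀ k, y k ≠ 0 := fun k h => by simpa [h] using hy k
  obtain ⟨c, hc⟩ : ∃ c : κ → ℂ, ∀ k, c k = (2 * y k)⁻¹ := ⟨_, fun _ => rfl⟩
  have c1 : ∀ k k', c k * y k + c k' * y k' = 1 := fun k k' => by
    have := y0 k
    have := y0 k'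
    rw [hc, hc]
    field_simp
    norm_num
  have c2 : ∀ k, 0 < (c k).re := fun k => by
    rw [hc, Complex.inv_re]
    exact div_pos (by simpa using hy k) (Complex.normSq_pos.2 (mul_ne_zero two_ne_zero (y0 k)))
  obtain ⟨ε, e0, e1⟩ : ∃ ε : ℝ, 0 < ε ∧ ∀ k, ε ≤ (c k).re := by
    rcases isEmpty_or_nonempty κ with _ | _
    · exact ⟨1, one_pos, isEmptyElim⟩
    · obtain ⟨k, hk⟩ := Finite.exists_min fun k => (c k).re
      exact ⟨_, c2 k, hk⟩
  have hB := a0 hA.idm c
  have Y1 := hB.1 E hA.cone.ev.tm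
  have Y2 : ⁅E, (∑ j, c j • e j) E⁆ = 0 := by rw [hB.2, lie_self, map_zero]
  obtain ⟨ι', _, x', a', μ, cx, pos, hv, hμ⟩ := j1 K ι S E x a hA.cone _ Y1 Y2
  have hb := b K ι' S E x' a' cx
  have cone : Cone S E x' a' :=
    ⟨cx, pos, hb, hA.cone.ev, vt K ι' S E x' a' cx pos hb hA.cone.ev, hA.cone.evf⟩
  have m0 : ∀ i, 0 < (μ i).re := fun i => by
    have k := ps K ι' S E x' a' cone (by unfold LTP; rw [hv]; exact hA.ltp) _ (Set.range c) μ hB
      (fun α hα => ⟨_, (a0 hA.idm _).1, inv hA.idm c α hα⟩) hμ (-Complex.reAddGroupHom) (-ε)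
      (by rintro _ ⟨k, rfl⟩; simpa using e1 k) i
    have p : (0 : ℝ) < a' i := by exact_mod_cast pos i
    have := mul_pos p e0
    simp only [AddMonoidHom.neg_apply, Complex.coe_reAddGroupHom] at k
    linarith
  obtain ⟨F', hF'⟩ := dc K ι κ S E x a e y ω c hA
  obtain ⟨l, l1, l2⟩ := rt (insert 1 (Finset.univ.image μ)) F' Complex.reAddGroupHom (by
    intro z hz
    rcases Finset.mem_insert.1 hz with rfl | hz
    · simp
    · obtain ⟨i, -, rfl⟩ := Finset.mem_image.1 hz
      exact m0 i)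
  obtain ⟨w, w0, hw⟩ := l1 1 (Finset.mem_insert_self _ _)
  choose n n0 hn using fun i =>
    l1 (μ i) (Finset.mem_insert_of_mem (Finset.mem_image_of_mem _ (Finset.mem_univ i)))
  obtain ⟨t, ht⟩ := j2 K ι S E x a hA.cone _ Y1 Y2 l
  have ct : Cx S t x' n := ⟨cx.gen, cx.frac, fun i => by rw [ht.2 _ (hb.mem i) _ (hμ i).2, hn]⟩
  have et := ev K ι' S t x' n ct hb
  have vt' := vt K ι' S t x' n ct n0 hb et
  obtain ⟨F, η, f1, f2, f3⟩ := hF' l l2 ι' t x' n ht ct hb et
  have pf : Perf S x (η w) := by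
    refine hA.perf _ ?_
    have : ω - η w = ∑ m ∈ F.erase w, η m := by
      refine sub_eq_iff_eq_add'.2 (f1.trans ?_)
      by_cases k : (w : ℤ) ∈ F
      · exact (Finset.add_sum_erase _ _ k).symm
      · rw [f2 _ k, Finset.erase_eq_of_notMem k]
        exact (zero_add _).symm
    rw [this]
    refine Submodule.sum_mem _ fun m hm => (f3 m).2.2.2.2 fun k k' q => ?_
    rw [c1, hw] at q
    exact Finset.ne_of_mem_erase hm (by exact_mod_cast q.symm)
  obtain ⟨𝒢, g1, g2⟩ := fn K ι' S t x' n (η w) w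
    ⟨ct, n0, hb, et, vt', ef K ι' S t x' n ct hb et vt'⟩ hA.nrm w0 (f3 w).2.1 (f3 w).2.2.1
    (by rw [(f3 w).2.2.2.1, Int.cast_natCast]) (by unfold Perf; rw [hv]; exact pf)
  exact ⟨η w, 𝒢, g1, hv ▸ g2⟩

end Pool.Agent.MP_51db15_ag.Qh

end

section
/-! A cone with a perfect homogeneous form is conical symplectic. -/

namespace Pool.Agent.MP_51db15_ag.Qh

open MvPolynomial

namespace FINx

variable {K ι : Type} [Field K] [Algebra ℂ K] {t : DD K} {x : ι → K} {a : ι → ℕ}

theorem mono (h : ∀ i, t (x i) = (a i : ℂ) • x i) (d : ι →₀ ℕ) :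
    t (aeval x (monomial d (1 : ℂ))) =
      ((Finsupp.weight a d : ℕ) : ℂ) • aeval x (monomial d (1 : ℂ)) := by
  induction d using Finsupp.induction_linear with
  | zero => simp
  | add d e hd he =>
    rw [← one_mul (1 : ℂ), ← monomial_mul, map_mul, Derivation.leibniz, hd, he, map_add]
    simp only [smul_eq_mul, Nat.cast_add, add_smul, mul_smul_comm]
    rw [add_comm, mul_comm]
  | single i n =>
    rw [← X_pow_eq_monomial, map_pow, aeval_X, Finsupp.weight_single]
    induction n with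
    | zero => simp
    | succ n ih =>
      rw [pow_succ, Derivation.leibniz, ih, h]
      simp only [smul_eq_mul, Nat.cast_mul, Nat.cast_add, mul_smul_comm, add_mul,
        one_mul, add_smul]
      rw [add_comm, mul_comm (x i)]

theorem eig (h : ∀ i, t (x i) = (a i : ℂ) • x i) {g : MvPolynomial ι ℂ} {e : ℕ}
    (hg : IsWeightedHomogeneous a g e) : t (aeval x g) = (e : ℂ) • aeval x g := by
  induction hg using IsWeightedHomogeneous.induction_on with
  | zero => simp
  | add p q _ _ hp hq => rw [map_add, map_add, hp, hq, smul_add]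
  | monomial d r hr =>
    rw [← mul_one r, ← smul_eq_mul, ← smul_monomial, map_smul, Derivation.map_smul, mono h, hr,
      smul_comm]

theorem ker_scale [Fintype ι] (h : ∀ i, t (x i) = (a i : ℂ) • x i) {g : MvPolynomial ι ℂ}
    (hg : aeval x g = 0) : aeval x (Hy.D4.scale a g) = 0 := by
  classical
  let c : ℕ → MvPolynomial ι ℂ := fun e =>
    ∑ α ∈ g.support.filter (fun α => Finsupp.weight a α = e), monomial α (coeff α g)
  have h1 : ∀ e, IsWeightedHomogeneous a (c e) e := fun e =>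
    IsWeightedHomogeneous.sum _ _ _ fun α hα =>
      isWeightedHomogeneous_monomial a α _ (Finset.mem_filter.1 hα).2
  have h2 : ∑ e ∈ g.support.image (Finsupp.weight a), c e = g :=
    (Finset.sum_fiberwise_of_maps_to (fun α hα => Finset.mem_image_of_mem _ hα) _).trans
      g.as_sum.symm
  have h3 : iSupIndep fun e : ℕ => (op t).eigenspace (e : ℂ) :=
    (op t).eigenspaces_iSupIndep.comp Nat.cast_injective
  have h4 := (iSupIndep_iff_finsetSum_eq_zero_imp_eq_zero _).1 h3
    (g.support.image (Finsupp.weight a)) (fun e => aeval x (c e))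
    (fun e _ => Module.End.mem_eigenspace_iff.2 (eig h (h1 e))) (by rw [← map_sum, h2, hg])
  rw [← h2, map_sum, map_sum]
  exact Finset.sum_eq_zero fun e he => by rw [Hy.D4.scale_hom a (h1 e), map_smul, h4 e he, smul_zero]

theorem inj [Fintype ι] {S : Subalgebra ℂ K} {ω : FF K} (b : Bas S x) (hm : vx S x ≠ ⊤)
    (p : Perf S x ω) : Function.Injective ω := by
  have := b.fd
  obtain ⟨r, -, ⟨y, hy, e⟩, p⟩ := p
  have hr : r ≠ 0 := by
    rintro rfl
    refine hm ((Ideal.eq_top_iff_one _).2 ?_)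
    have : (1 : S) = -y := Subtype.ext (by simp [← e])
    rw [this]
    exact neg_mem hy
  refine (LinearMap.injective_iff_surjective_of_finrank_eq_finrank
    (Subspace.dual_finrank_eq).symm).2 fun γ => ?_
  obtain ⟨s, -, hs, hγ⟩ := b.denD γ
  obtain ⟨D, -, hD⟩ := p _ hγ
  refine ⟨(r * s)⁻¹ • D, ?_⟩
  rw [map_smul, hD, smul_smul, smul_smul, mul_assoc, inv_mul_cancel₀ (mul_ne_zero hr hs), one_smul]

end FINx

theorem fin (h : S_HAM) (r : S_REG) : S_FIN := by
  classical
  intro K ι _ _ _ S t x a ω w c hn hw hc hk hl hp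
  choose H _ H1 Θ H2 H3 using h K ι S t x a ω w c hl hp
  have h5 := (r K ι S x ω c.bas hn hk).2
  have hi := FINx.inj c.bas c.vtx.max.ne_top hp
  obtain rfl : S = (aeval x : MvPolynomial ι ℂ →ₐ[ℂ] K).range :=
    c.cx.gen.symm.trans (Algebra.adjoin_range_eq_range_aeval ℂ x)
  have hs := (aeval x : MvPolynomial ι ℂ →ₐ[ℂ] K).rangeRestrict_surjective
  have ev : ∀ (ξ : ι → K) k, (∑ i, ξ i • H i) (x k) = ∑ i, ξ i * aeval x (Θ i k) := by
    intro ξ k
    have := map_sum (dd (x k)) (fun i => ξ i • H i) Finset.univ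
    simpa only [map_smul, dd_apply, smul_eq_mul, H2] using this
  have om : ∀ ξ : ι → K, ω (∑ i, ξ i • H i) = ∑ i, ξ i • dd (x i) := fun ξ => by
    simp only [map_sum, map_smul, H1]
  have hF : IsFractionRing (aeval x : MvPolynomial ι ℂ →ₐ[ℂ] K).range K :=
    IsFractionRing.of_field _ K fun y => by
      obtain ⟨g, hg, s, hs, -, e⟩ := c.cx.frac y
      exact ⟨⟨g, hg⟩, ⟨s, hs⟩, e⟩
  have hI : IsIntegrallyClosed (aeval x : MvPolynomial ι ℂ →ₐ[ℂ] K).range :=
    (isIntegrallyClosed_iff K).2 fun {y} hy => ⟨⟨y, hn y hy⟩, rfl⟩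
  refine ⟨_, Nc.D4.conical' (aeval x) (J := RingHom.ker (aeval x).rangeRestrict) (Θ := Θ) c.pos hw
    (fun g => ⟨fun e => Subtype.ext e, fun e => Subtype.ext_iff.1 (RingHom.mem_ker.1 e)⟩) (fun y => ?_)
    (IsIntegrallyClosed.of_equiv (Ideal.quotientKerAlgEquivOfSurjective hs).toRingEquiv.symm)
    (fun g hg => Subtype.ext (FINx.ker_scale c.cx.eig (Subtype.ext_iff.1 hg))) H3 hc
    (fun D y ξ e => ?_) (fun D => ?_) (fun ξ => ⟨∑ i, ξ i • H i, fun k => ?_⟩) h5, ?_⟩
  · obtain ⟨_, ⟨g, rfl⟩, _, ⟨s, rfl⟩, -, e⟩ := c.cx.frac y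
    exact ⟨g, s, e⟩
  · simp only [aeval_X] at e ⊢
    rw [c.bas.ext D (∑ i, ξ i • H i) fun k => (e k).trans (ev ξ k).symm, om, LinearMap.sum_apply]
    rfl
  · have : ω D ∈ Submodule.span K (Set.range fun i => dd (x i)) :=
      mem_span_of_iInf_ker_le_ker fun D' hD' => by
        rw [c.bas.ext D' 0 fun i => (Submodule.mem_iInf _).1 hD' i]
        exact zero_mem _
    obtain ⟨ξ, hξ⟩ := (Submodule.mem_span_range_iff_exists_fun K).1 this
    refine ⟨ξ, fun k => ?_⟩
    rw [aeval_X, hi (hξ.symm.trans (om ξ).symm), ev]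
  · rw [aeval_X, ev]
  · rintro d hd _ ⟨g, hg, rfl⟩
    have h1 : g ∈ Ideal.span (X '' (Set.univ : Set ι) : Set (MvPolynomial ι ℂ)) :=
      mem_ideal_span_X_image.2 fun α hα => by
        by_contra e
        have e0 : α = 0 := Finsupp.ext fun i => by
          by_contra e1
          exact e ⟨i, trivial, e1⟩
        have := hg (mem_support_iff.1 hα)
        rw [e0, map_zero] at this
        omega
    have h2 : Ideal.span (X '' (Set.univ : Set ι) : Set (MvPolynomial ι ℂ)) ≤
        (vx (aeval x).range x).comap (aeval x).rangeRestrict := Ideal.span_le.2 (by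
      rintro _ ⟨i, -, rfl⟩
      exact Ideal.subset_span ⟨i, aeval_X x i⟩)
    exact h2 h1

end Pool.Agent.MP_51db15_ag.Qh

end

section
/-! A cone with a perfect homogeneous form, regular along valuations, is conical symplectic. -/

namespace Pool.Agent.MP_51db15_ag.Qh

open MvPolynomial

theorem fin2 (h : S_HAM) : S_FIN2 := by
  classical
  intro K ι _ _ _ S t x a ω w c hn hw hc h5 hl hp
  choose H _ H1 Θ H2 H3 using h K ι S t x a ω w c hl hp
  have hi := FINx.inj c.bas c.vtx.max.ne_top hp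
  obtain rfl : S = (aeval x : MvPolynomial ι ℂ →ₐ[ℂ] K).range :=
    c.cx.gen.symm.trans (Algebra.adjoin_range_eq_range_aeval ℂ x)
  have hs := (aeval x : MvPolynomial ι ℂ →ₐ[ℂ] K).rangeRestrict_surjective
  have ev : ∀ (ξ : ι → K) k, (∑ i, ξ i • H i) (x k) = ∑ i, ξ i * aeval x (Θ i k) := by
    intro ξ k
    have := map_sum (dd (x k)) (fun i => ξ i • H i) Finset.univ
    simpa only [map_smul, dd_apply, smul_eq_mul, H2] using this
  have om : ∀ ξ : ι → K, ω (∑ i, ξ i • H i) = ∑ i, ξ i • dd (x i) := fun ξ => by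
    simp only [map_sum, map_smul, H1]
  have hF : IsFractionRing (aeval x : MvPolynomial ι ℂ →ₐ[ℂ] K).range K :=
    IsFractionRing.of_field _ K fun y => by
      obtain ⟨g, hg, s, hs, -, e⟩ := c.cx.frac y
      exact ⟨⟨g, hg⟩, ⟨s, hs⟩, e⟩
  have hI : IsIntegrallyClosed (aeval x : MvPolynomial ι ℂ →ₐ[ℂ] K).range :=
    (isIntegrallyClosed_iff K).2 fun {y} hy => ⟨⟨y, hn y hy⟩, rfl⟩
  refine ⟨_, Nc.D4.conical' (aeval x) (J := RingHom.ker (aeval x).rangeRestrict) (Θ := Θ) c.pos hw
    (fun g => ⟨fun e => Subtype.ext e, fun e => Subtype.ext_iff.1 (RingHom.mem_ker.1 e)⟩) (fun y => ?_)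
    (IsIntegrallyClosed.of_equiv (Ideal.quotientKerAlgEquivOfSurjective hs).toRingEquiv.symm)
    (fun g hg => Subtype.ext (FINx.ker_scale c.cx.eig (Subtype.ext_iff.1 hg))) H3 hc
    (fun D y ξ e => ?_) (fun D => ?_) (fun ξ => ⟨∑ i, ξ i • H i, fun k => ?_⟩) h5, ?_⟩
  · obtain ⟨_, ⟨g, rfl⟩, _, ⟨s, rfl⟩, -, e⟩ := c.cx.frac y
    exact ⟨g, s, e⟩
  · simp only [aeval_X] at e ⊢
    rw [c.bas.ext D (∑ i, ξ i • H i) fun k => (e k).trans (ev ξ k).symm, om, LinearMap.sum_apply]
    rfl
  · have : ω D ∈ Submodule.span K (Set.range fun i => dd (x i)) :=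
      mem_span_of_iInf_ker_le_ker fun D' hD' => by
        rw [c.bas.ext D' 0 fun i => (Submodule.mem_iInf _).1 hD' i]
        exact zero_mem _
    obtain ⟨ξ, hξ⟩ := (Submodule.mem_span_range_iff_exists_fun K).1 this
    refine ⟨ξ, fun k => ?_⟩
    rw [aeval_X, hi (hξ.symm.trans (om ξ).symm), ev]
  · rw [aeval_X, ev]
  · rintro d hd _ ⟨g, hg, rfl⟩
    have h1 : g ∈ Ideal.span (X '' (Set.univ : Set ι) : Set (MvPolynomial ι ℂ)) :=
      mem_ideal_span_X_image.2 fun α hα => by
        by_contra e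
        have e0 : α = 0 := Finsupp.ext fun i => by
          by_contra e1
          exact e ⟨i, trivial, e1⟩
        have := hg (mem_support_iff.1 hα)
        rw [e0, map_zero] at this
        omega
    have h2 : Ideal.span (X '' (Set.univ : Set ι) : Set (MvPolynomial ι ℂ)) ≤
        (vx (aeval x).range x).comap (aeval x).rangeRestrict := Ideal.span_le.2 (by
      rintro _ ⟨i, -, rfl⟩
      exact Ideal.subset_span ⟨i, aeval_X x i⟩)
    exact h2 h1

end Pool.Agent.MP_51db15_ag.Qh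

end

section
/-! PROJECT QF, row HDC: components of a derivation of the completion. -/

namespace Pool.Agent.MP_51db15_ag.Qh

open Module

namespace HDCx

theorem glue {U V ι : Type} [AddCommGroup U] [Module ℂ U] [AddCommGroup V] [Module ℂ V]
    (p : ι → Submodule ℂ U) (hp : iSupIndep p) (f : ι → U →ₗ[ℂ] V) :
    ∃ D : U →ₗ[ℂ] V, ∀ i, ∀ u ∈ p i, D u = f i u := by
  classical
  obtain ⟨r, hr⟩ := LinearMap.exists_leftInverse_of_injective _
    (LinearMap.ker_eq_bot.2 hp.dfinsupp_lsum_injective)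
  refine ⟨DFinsupp.lsum ℕ (fun i => f i ∘ₗ (p i).subtype) ∘ₗ r, fun i u hu => ?_⟩
  have h1 := LinearMap.congr_fun hr (DFinsupp.single i ⟨u, hu⟩)
  rw [LinearMap.comp_apply, DFinsupp.lsum_single, LinearMap.id_apply] at h1
  have h2 : r u = DFinsupp.single i ⟨u, hu⟩ := h1
  rw [LinearMap.comp_apply, h2, DFinsupp.lsum_single]
  rfl

variable {K R : Type} [Field K] [Algebra ℂ K] [CommRing R] [Algebra ℂ R]

theorem cf_add (μ : R →ₐ[ℂ] PowerSeries K) (n : ℤ) (r s : R) :
    cf μ n (r + s) = cf μ n r + cf μ n s := by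
  unfold cf
  split_ifs
  · rw [map_add, map_add]
  · rw [add_zero]

theorem cf_lin (μ : R →ₐ[ℂ] PowerSeries K) (n : ℤ) :
    ∃ L : R →ₗ[ℂ] K, ∀ r, L r = cf μ n r := by
  refine ⟨⟨⟨cf μ n, cf_add μ n⟩, fun c r => ?_⟩, fun _ => rfl⟩
  show cf μ n (c • r) = c • cf μ n r
  unfold cf
  split_ifs
  · rw [map_smul]
    rfl
  · rw [smul_zero]

theorem cf_mem {S : Subalgebra ℂ K} {E : DD K} {μ : R →ₐ[ℂ] PowerSeries K} {i0 : S →ₐ[ℂ] R}
    (h : Hat S E μ i0) (n : ℤ) (r : R) : cf μ n r ∈ S ∧ E (cf μ n r) = (n : ℂ) • cf μ n r := by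
  unfold cf
  split_ifs with hn
  · obtain ⟨m, rfl⟩ := Int.eq_ofNat_of_zero_le hn
    simpa using h.mem r m
  · exact ⟨zero_mem S, by simp⟩

end HDCx

theorem hdc : S_HDC := by
  intro K ι R _ _ _ _ _ S E x a μ i0 hC hH hL D p
  choose L hLc using HDCx.cf_lin μ
  obtain ⟨j, hj⟩ := LinearMap.exists_extend (p := SC S)
    (i0.toLinearMap : ↥(SC S) →ₗ[ℂ] R)
  have hj' : ∀ g : S, j g = i0 g := fun g => LinearMap.congr_fun hj g
  obtain ⟨T, hT⟩ := HDCx.glue _ (End.eigenspaces_iSupIndep (op E))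
    fun c : ℂ => L (⌊c.re⌋ + p) ∘ₗ D.toLinearMap ∘ₗ j
  have hT' : ∀ (g : S) (n : ℕ), E g = (n : ℂ) • (g : K) → T g = cf μ (n + p) (D (i0 g)) := by
    intro g n hg
    rw [hT n g (End.mem_eigenspace_iff.2 hg), ← hLc, ← hj']
    simp
  have ind : ∀ P : K → Prop, P 0 → (∀ u v, P u → P v → P (u + v)) →
      (∀ (u : S) (n : ℕ), E u = (n : ℂ) • (u : K) → P u) → ∀ u ∈ S, P u := by
    intro P h0 h1 h2 u hu
    refine Submodule.iSup_induction (motive := P) _ (hC.ev.s u hu) (fun n v hv => ?_) h0 h1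
    by_cases hv0 : v = 0
    · rw [hv0]
      exact h0
    · have h3 : E v = (n : ℂ) • v := End.mem_eigenspace_iff.1 hv.2
      obtain ⟨m, hm⟩ := hC.ev.nat v hv.1 n hv0 h3
      exact h2 ⟨v, hv.1⟩ m (hm ▸ h3)
  have hS : ∀ u ∈ S, T u ∈ S := ind (fun u => T u ∈ S) (by rw [map_zero]; exact zero_mem S)
    (fun u v h1 h2 => by rw [map_add]; exact add_mem h1 h2)
    fun u n h => by rw [hT' u n h]; exact (HDCx.cf_mem hH _ _).1
  have hLe : ∀ u ∈ S, ∀ v ∈ S, T (u * v) = u * T v + v * T u := by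
    refine ind (fun u => ∀ v ∈ S, T (u * v) = u * T v + v * T u) (fun v _ => by simp)
      (fun u u' h1 h2 v hv => by rw [add_mul, map_add, map_add, h1 v hv, h2 v hv]; ring)
      fun u m hm => ?_
    refine ind (fun v => T (u * v) = u * T v + v * T u) (by simp)
      (fun v v' h1 h2 => by rw [mul_add, map_add, map_add, h1, h2]; ring) fun v n hn => ?_
    have h1 : E ((u * v : S) : K) = ((m + n : ℕ) : ℂ) • ((u * v : S) : K) := by
      rw [MulMemClass.coe_mul, Derivation.leibniz, hm, hn, Nat.cast_add, add_smul, smul_eq_mul,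
        smul_eq_mul, mul_smul_comm, mul_smul_comm, mul_comm (v : K) u, add_comm]
    have h2 := hT' (u * v) (m + n) h1
    rw [MulMemClass.coe_mul] at h2
    have h3 := hL.mul u m hm (n + p) (D (i0 v))
    have h4 := hL.mul v n hn (m + p) (D (i0 u))
    have e1 : (n : ℤ) + p + m = ((m + n : ℕ) : ℤ) + p := by push_cast; ring
    have e2 : (m : ℤ) + p + n = ((m + n : ℕ) : ℤ) + p := by push_cast; ring
    rw [e1] at h3
    rw [e2] at h4
    rw [h2, map_mul, Derivation.leibniz, HDCx.cf_add, smul_eq_mul, smul_eq_mul, h3, h4,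
      hT' u m hm, hT' v n hn]
  obtain ⟨t, ht⟩ := Hy.lift S K S.val (T ∘ₗ S.val.toLinearMap)
    (fun y => by
      obtain ⟨u, hu, v, hv, -, h⟩ := hC.cx.frac y
      exact ⟨⟨u, hu⟩, ⟨v, hv⟩, h⟩)
    (fun u v => hLe u u.2 v v.2) fun u h => (congrArg T h).trans (map_zero T)
  have e : ∀ u ∈ S, t u = T u := fun u hu => ht ⟨u, hu⟩
  have hX : ∀ (g : S) (n : ℕ), E g = (n : ℂ) • (g : K) → t g = cf μ (n + p) (D (i0 g)) :=
    fun g n hg => (e g g.2).trans (hT' g n hg)
  refine ⟨t, fun u hu => (e u hu).symm ▸ hS u hu, hC.bas.ext _ _ fun i => ?_, hX⟩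
  have h1 := hX ⟨x i, hC.bas.mem i⟩ (a i) (hC.cx.eig i)
  have h2 := (HDCx.cf_mem hH (a i + p) (D (i0 ⟨x i, hC.bas.mem i⟩))).2
  rw [← h1] at h2
  have h3 : E (t (x i)) = ((a i : ℂ) + p) • t (x i) := by
    rw [h2]
    push_cast
    rfl
  rw [Derivation.commutator_apply, h3, hC.cx.eig i, Derivation.map_smul, add_smul,
    Derivation.smul_apply]
  abel

end Pool.Agent.MP_51db15_ag.Qh

end

section
/-! Row HG: from complex weights to positive integer weights. -/

namespace Pool.Agent.MP_51db15_ag.Qh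

namespace HGx

variable {ι : Type}

theorem wt (c : ι → ℂ) (a : ι → ℕ) (l : ℂ →+ ℂ) (h : ∀ i, l (c i) = a i) (α : ι →₀ ℕ) :
    l (Finsupp.weight c α) = (Finsupp.weight a α : ℕ) := by
  rw [Finsupp.weight_apply, Finsupp.weight_apply, Finsupp.sum, Finsupp.sum, map_sum, Nat.cast_sum]
  refine Finset.sum_congr rfl fun i _ => ?_
  rw [map_nsmul, h, smul_eq_mul, nsmul_eq_mul, Nat.cast_mul]

theorem mem (I : Ideal (MvPowerSeries ι ℂ)) (c : ι → ℂ) (a : ι → ℕ) (l : ℂ →+ ℂ)
    (h : ∀ i, l (c i) = a i) (hI : ∀ g ∈ I, ∀ e, Hy.comp c e g ∈ I) {g : MvPowerSeries ι ℂ}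
    (hg : g ∈ I) (n : ℕ) (p : MvPolynomial ι ℂ)
    (hp : ∀ α, p.coeff α = if Finsupp.weight a α = n then MvPowerSeries.coeff α g else 0) :
    (p : MvPowerSeries ι ℂ) ∈ I := by
  classical
  have e : (p : MvPowerSeries ι ℂ) =
      ∑ e ∈ p.support.image (Finsupp.weight c), Hy.comp c e g := by
    ext α
    rw [MvPolynomial.coeff_coe, map_sum]
    simp only [Hy.coeff_comp]
    rw [Finset.sum_ite_eq]
    split_ifs with hα
    · obtain ⟨β, hβ, e⟩ := Finset.mem_image.1 hα
      have h1 : Finsupp.weight a β = n := by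
        by_contra h1
        exact MvPolynomial.mem_support_iff.1 hβ (by rw [hp, if_neg h1])
      have h2 := congrArg l e
      rw [wt c a l h, wt c a l h, Nat.cast_inj, h1] at h2
      rw [hp, if_pos h2.symm]
    · by_contra h1
      exact hα (Finset.mem_image_of_mem _ (MvPolynomial.mem_support_iff.2 h1))
  rw [e]
  exact I.sum_mem fun e _ => hI g hg e

end HGx

theorem hg (r : S_RAT) (k : S_HKER) : S_HG := by
  intro ι _ _ I c hc hI
  classical
  obtain ⟨l, hl, -⟩ := r (Finset.univ.image c) ∅ Complex.reAddGroupHom fun z hz => by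
    obtain ⟨i, -, rfl⟩ := Finset.mem_image.1 hz
    exact hc i
  choose a ha0 ha using fun i => hl (c i) (Finset.mem_image_of_mem _ (Finset.mem_univ i))
  have hJ : ∀ g ∈ I.comap MvPolynomial.coeToMvPowerSeries.ringHom, ∀ n,
      MvPolynomial.weightedHomogeneousComponent a n g ∈
        I.comap (MvPolynomial.coeToMvPowerSeries.ringHom (σ := ι) (R := ℂ)) := fun g hg n =>
    HGx.mem I c a l ha hI (g := (g : MvPowerSeries ι ℂ)) hg n
      (MvPolynomial.weightedHomogeneousComponent a n g) fun α => by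
      rw [MvPolynomial.coeff_weightedHomogeneousComponent, MvPolynomial.coeff_coe]
  refine ⟨a, _, ha0, hJ, le_antisymm Ideal.map_comap_le fun g hg => ?_, rfl⟩
  obtain ⟨wc, h1, h2⟩ := k ι a _ ha0 hJ
  exact (h2 g).2 fun n => HGx.mem I c a l ha hI hg n (wc n g) (h1 n g)

end Pool.Agent.MP_51db15_ag.Qh

end

section
/-! Normal form of an ideal that is stable under a contracting field. -/

namespace Pool.Agent.MP_51db15_ag.Qh

open MvPowerSeries Hy

namespace HJx

/-- the last iterate outside a set -/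
theorem last {V : Type} [AddCommGroup V] [Module ℂ V] (t : Module.End ℂ V) (p : V → Prop) (x : V)
    (hx : ¬ p x) (M : ℕ) (hM : p ((t ^ M) x)) : ∃ n : ℕ, ¬ p ((t ^ n) x) ∧ p (t ((t ^ n) x)) := by
  induction M with
  | zero => exact absurd hM hx
  | succ M ih =>
    by_cases h : p ((t ^ M) x)
    · exact ih h
    · exact ⟨M, h, by rwa [pow_succ'] at hM⟩

variable {ι : Type} [Fintype ι]

omit [Fintype ι] in
theorem pres : Nc.Pres (AlgHom.id ℂ (PS ι)) (IsLocalRing.maximalIdeal (PS ι)) :=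
  ⟨Function.surjective_id, (Ideal.map_id _).symm⟩

theorem map_pow_mem (ψ : PS ι ≃ₐ[ℂ] PS ι) {n : ℕ} {g : PS ι}
    (hg : g ∈ IsLocalRing.maximalIdeal (PS ι) ^ n) : ψ g ∈ IsLocalRing.maximalIdeal (PS ι) ^ n :=
  (pres.comp ψ).q_mem' hg

theorem X_notMem (i : ι) : (X i : PS ι) ∉ IsLocalRing.maximalIdeal (PS ι) ^ 2 := by
  classical
  intro h
  have h1 := (mem_pow_iff_order.1 h).trans
    (order_le (d := Finsupp.single i 1) (by simp [coeff_X]))
  simp at h1

/-- every weight is an eigenvalue of the linear part -/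
theorem eig [DecidableEq ι] {v : ι → PS ι} {c : ι → ℂ} (h0 : ∀ i, constantCoeff (v i) = 0)
    (h1 : ∀ i, IsHom c (c i) (v i)) (h2 : IsNilpotent (lin v - Matrix.diagonal c)) (i : ι) :
    ∃ g ∈ IsLocalRing.maximalIdeal (PS ι), g ∉ IsLocalRing.maximalIdeal (PS ι) ^ 2 ∧
      vf v g - c i • g ∈ IsLocalRing.maximalIdeal (PS ι) ^ 2 := by
  obtain ⟨M, hM⟩ := JORD2.hom_nil h0 h1 h2 (isHom_X i) 2
  obtain ⟨n, k1, k2⟩ := last (JORD2.op v - c i • 1)
    (fun g => g ∈ IsLocalRing.maximalIdeal (PS ι) ^ 2) (X i) (X_notMem i) M hM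
  refine ⟨_, ?_, k1, k2⟩
  have h3 : ∀ x ∈ (JORD2.mm ι 1).restrictScalars ℂ,
      (JORD2.op v - c i • 1) x ∈ (JORD2.mm ι 1).restrictScalars ℂ := fun x hx =>
    sub_mem (JORD2.vf_up h0 (Or.inr rfl)) (Submodule.smul_mem _ (c i) hx)
  have h4 : ((JORD2.op v - c i • 1) ^ n) (X i) ∈ IsLocalRing.maximalIdeal (PS ι) ^ 1 :=
    JORD2.st h3 (x := X i) (by
      change _ ∈ IsLocalRing.maximalIdeal (PS ι) ^ 1
      rw [pow_one]
      exact mem_max_iff.2 (constantCoeff_X i)) n
  rwa [pow_one] at h4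

end HJx

open HJx

theorem hj : S_HJ := by
  intro ι _ _ I ξ hI hm hc
  have v2 : Nc.Lf (AlgHom.id ℂ (PS ι)) (fun i => ξ (X i)) ξ := pres.lf fun i => rfl
  obtain ⟨ψ, c, -, h1, h2⟩ := jord1 p3 p2 ι (fun _ => 0) (fun i => ξ (X i))
    (fun i => mem_max_iff.1 (hm _ (mem_max_iff.2 (constantCoeff_X i))))
    fun i α _ => by simp [Finsupp.weight_apply]
  have h' := (pres (ι := ι)).comp ψ.symm
  obtain ⟨w, hw⟩ : ∃ w : ι → PS ι,
      w = fun i => ψ (vf (fun i => ξ (X i)) (ψ.symm (X i))) := ⟨_, rfl⟩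
  have hv : Nc.Lf ((AlgHom.id ℂ (PS ι)).comp (ψ.symm : PS ι →ₐ[ℂ] PS ι)) w ξ :=
    h'.lf fun i => by
      rw [hw]
      exact (ψ.symm_apply_apply _).trans (v2 (ψ.symm (X i))).symm
  have hv' : ∀ g, ξ (ψ.symm g) = ψ.symm (vf w g) := hv
  have h0 : ∀ i, constantCoeff (w i) = 0 := fun i =>
    h'.const.1 (by rw [← hv.X]; exact hm _ (h'.X_mem i))
  have h1' : ∀ i, IsHom c (c i) (w i) := fun i => by
    rw [hw]
    exact h1 i
  rw [← hw] at h2
  obtain ⟨k1, -⟩ := (jord2 ι w c h0 h1' h2).2 (I.comap (ψ.symm : PS ι →+* PS ι)) fun g hg => by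
    change ψ.symm (vf w g) ∈ I
    rw [← hv']
    exact hI _ hg
  refine ⟨ψ.symm, c, fun i => ?_, fun g hg e => k1 g hg e⟩
  obtain ⟨g, g1, g2, g3⟩ := eig h0 h1' h2 i
  refine hc (c i) (ψ.symm g) ?_ (fun h => g2 ?_) ?_
  · have h3 := map_pow_mem ψ.symm (n := 1) (g := g) (by rwa [pow_one])
    rwa [pow_one] at h3
  · have h3 := map_pow_mem ψ h
    rwa [AlgEquiv.apply_symm_apply] at h3
  · have h3 := map_pow_mem ψ.symm g3
    rwa [map_sub, map_smul, ← hv'] at h3

end Pool.Agent.MP_51db15_ag.Qh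

end

section
/-! HOV: primes inside the vertex are contractions of primes of the completion. -/

namespace Pool.Agent.MP_51db15_ag.Qh

open Module

namespace HOVx

variable {K ι R : Type} [Field K] [Algebra ℂ K] [CommRing R] [Algebra ℂ R]
  {S : Subalgebra ℂ K} {E : DD K} {x : ι → K} {a : ι → ℕ}
  {μ : R →ₐ[ℂ] PowerSeries K} {i0 : S →ₐ[ℂ] R}

theorem trunc (h : Hat S E μ i0) (r : R) (N : ℕ) :
    ∃ s : S, PowerSeries.X ^ N ∣ μ (r - i0 s) := by
  refine ⟨∑ n ∈ Finset.range N, (⟨PowerSeries.coeff n (μ r), (h.mem r n).1⟩ : S), ?_⟩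
  rw [PowerSeries.X_pow_dvd_iff]
  intro m hm
  have e : ∀ n, μ (i0 ⟨PowerSeries.coeff n (μ r), (h.mem r n).1⟩) =
      PowerSeries.monomial n (PowerSeries.coeff n (μ r)) := fun n => h.emb _ n (h.mem r n).2
  simp only [map_sub, map_sum, e, PowerSeries.coeff_monomial]
  rw [Finset.sum_ite_eq]
  simp [hm]

theorem approx (h : Hat S E μ i0) (P : Ideal S) (N : ℕ) (r : R)
    (hr : r ∈ P.map (i0 : S →+* R)) : ∃ p ∈ P, PowerSeries.X ^ N ∣ μ (r - i0 p) := by
  induction hr using Submodule.span_induction with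
  | mem y hy =>
    obtain ⟨p, hp, rfl⟩ := hy
    exact ⟨p, hp, by simp⟩
  | zero => exact ⟨0, P.zero_mem, by simp⟩
  | add y z _ _ hy hz =>
    obtain ⟨p, hp, h1⟩ := hy
    obtain ⟨q, hq, h2⟩ := hz
    refine ⟨p + q, P.add_mem hp hq, ?_⟩
    have e : y + z - i0 (p + q) = (y - i0 p) + (z - i0 q) := by rw [map_add]; ring
    rw [e, map_add]
    exact dvd_add h1 h2
  | smul c y _ hy =>
    obtain ⟨p, hp, h1⟩ := hy
    obtain ⟨s, h2⟩ := trunc h c N
    refine ⟨s * p, P.mul_mem_left s hp, ?_⟩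
    have e : c • y - i0 (s * p) = c * (y - i0 p) + (c - i0 s) * i0 p := by
      rw [map_mul, smul_eq_mul]; ring
    rw [e, map_add, map_mul, map_mul]
    exact dvd_add (h1.mul_left _) (h2.mul_right _)

theorem mono (hc : Cx S E x a) (M : ℕ) (hM : ∀ i, a i ≤ M) (m : K)
    (hm : m ∈ Submonoid.closure (Set.range x)) :
    ∃ (g : S) (n k : ℕ), (g : K) = m ∧ E m = (n : ℂ) • m ∧ g ∈ vx S x ^ k ∧ n ≤ k * M := by
  induction hm using Submonoid.closure_induction with
  | mem y hy =>
    obtain ⟨i, rfl⟩ := hy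
    have hx : x i ∈ S := hc.gen ▸ Algebra.subset_adjoin ⟨i, rfl⟩
    refine ⟨⟨x i, hx⟩, a i, 1, rfl, hc.eig i, ?_, by simpa using hM i⟩
    rw [pow_one]
    exact Ideal.subset_span ⟨i, rfl⟩
  | one => exact ⟨1, 0, 0, rfl, by simp, by simp, by simp⟩
  | mul y z _ _ hy hz =>
    obtain ⟨g, n, k, rfl, h1, h2, h3⟩ := hy
    obtain ⟨g', n', k', rfl, h1', h2', h3'⟩ := hz
    refine ⟨g * g', n + n', k + k', rfl, ?_, ?_, ?_⟩
    · rw [Derivation.leibniz, h1, h1']
      simp only [smul_eq_mul, Algebra.smul_def, Nat.cast_add, map_add]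
      ring
    · rw [pow_add]
      exact Ideal.mul_mem_mul h2 h2'
    · rw [add_mul]
      omega

theorem split (hc : Cx S E x a) (h : Hat S E μ i0) (M : ℕ) (hM : ∀ i, a i ≤ M) (h0 : 0 < M)
    (k : ℕ) (y : K) (hy : y ∈ Submodule.span ℂ (Submonoid.closure (Set.range x) : Set K)) :
    ∃ u v : S, y = u + v ∧ v ∈ vx S x ^ k ∧
      (∀ n, n < k * M → PowerSeries.coeff n (μ (i0 v)) = 0) ∧
      ∀ n, k * M ≤ n → PowerSeries.coeff n (μ (i0 u)) = 0 := by
  induction hy using Submodule.span_induction with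
  | mem y hy =>
    obtain ⟨g, n, k', rfl, h1, h2, h3⟩ := mono hc M hM y hy
    have e := h.emb g n h1
    by_cases hn : k * M ≤ n
    · refine ⟨0, g, by simp, ?_, fun m hm => ?_, fun m _ => by simp⟩
      · exact Ideal.pow_le_pow_right (Nat.le_of_mul_le_mul_right (hn.trans h3) h0) h2
      · rw [e, PowerSeries.coeff_monomial, if_neg (by omega)]
    · refine ⟨g, 0, by simp, zero_mem _, fun m _ => by simp, fun m hm => ?_⟩
      rw [e, PowerSeries.coeff_monomial, if_neg (by omega)]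
  | zero => exact ⟨0, 0, by simp, zero_mem _, fun m _ => by simp, fun m _ => by simp⟩
  | add y z _ _ hy hz =>
    obtain ⟨u, v, rfl, h1, h2, h3⟩ := hy
    obtain ⟨u', v', rfl, h1', h2', h3'⟩ := hz
    refine ⟨u + u', v + v', ?_, add_mem h1 h1', fun m hm => ?_, fun m hm => ?_⟩
    · push_cast
      ring
    · simp only [map_add, h2 m hm, h2' m hm, add_zero]
    · simp only [map_add, h3 m hm, h3' m hm, add_zero]
  | smul c y _ hy =>
    obtain ⟨u, v, rfl, h1, h2, h3⟩ := hy
    have e : ∀ (w : S) (m : ℕ), PowerSeries.coeff m (μ (i0 w)) = 0 →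
        PowerSeries.coeff m (μ (i0 (c • w))) = 0 := fun w m hw => by
      rw [map_smul, map_smul, ← algebraMap_smul K c, map_smul, hw, smul_zero]
    refine ⟨c • u, c • v, ?_, ?_, fun m hm => e v m (h2 m hm), fun m hm => e u m (h3 m hm)⟩
    · rw [smul_add]
      rfl
    · rw [Algebra.smul_def]
      exact Ideal.mul_mem_left _ _ h1

theorem deep (hc : Cx S E x a) (h : Hat S E μ i0) (hi : Function.Injective i0) (M : ℕ)
    (hM : ∀ i, a i ≤ M) (h0 : 0 < M) (k : ℕ) (g : S)
    (hg : PowerSeries.X ^ (k * M) ∣ μ (i0 g)) : g ∈ vx S x ^ k := by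
  have hy : (g : K) ∈ Submodule.span ℂ (Submonoid.closure (Set.range x) : Set K) := by
    rw [← Algebra.adjoin_eq_span, hc.gen]
    exact g.2
  obtain ⟨u, v, e, h1, h2, h3⟩ := split hc h M hM h0 k g hy
  have e' : g = u + v := Subtype.ext e
  rw [PowerSeries.X_pow_dvd_iff] at hg
  have hu : u = 0 := by
    apply hi
    apply h.inj
    ext n
    simp only [map_zero]
    by_cases hn : k * M ≤ n
    · exact h3 n hn
    · have := hg n (by omega)
      rw [e', map_add, map_add, map_add, h2 n (by omega), add_zero] at this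
      exact this
  rw [e', hu, zero_add]
  exact h1

end HOVx

theorem hov : S_HOV := by
  intro K ι R _ _ _ _ _ S E x a μ i0 hC hH hL P hP hle
  have key : (P.map (i0 : S →+* R)).comap (i0 : S →+* R) = P := by
    refine le_antisymm (fun g hg => ?_) Ideal.le_comap_map
    have hM : ∀ i, a i ≤ Finset.univ.sup a + 1 := fun i =>
      (Finset.le_sup (f := a) (Finset.mem_univ i)).trans (Nat.le_succ _)
    have := hC.bas.noeth
    have hne : (vx S x).map (Ideal.Quotient.mk P) ≠ ⊤ := by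
      intro ht
      have := congrArg (Ideal.comap (Ideal.Quotient.mk P)) ht
      rw [Ideal.comap_map_of_surjective _ Ideal.Quotient.mk_surjective, ← RingHom.ker_eq_comap_bot,
        Ideal.mk_ker, sup_eq_left.2 hle, Ideal.comap_top] at this
      exact hC.vtx.max.ne_top this
    have hz : Ideal.Quotient.mk P g ∈ ⨅ k : ℕ, (vx S x).map (Ideal.Quotient.mk P) ^ k := by
      refine Ideal.mem_iInf.2 fun k => ?_
      obtain ⟨p, hp, h1⟩ := HOVx.approx hH P (k * (Finset.univ.sup a + 1)) _ hg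
      have h2 : g - p ∈ vx S x ^ k :=
        HOVx.deep hC.cx hH hL.inj _ hM (Nat.succ_pos _) k _ (by rw [map_sub]; exact h1)
      have h3 := Ideal.mem_map_of_mem (Ideal.Quotient.mk P) h2
      rw [map_sub, Ideal.Quotient.eq_zero_iff_mem.2 hp, sub_zero, Ideal.map_pow] at h3
      exact h3
    rw [Ideal.iInf_pow_eq_bot_of_isDomain _ hne] at hz
    exact Ideal.Quotient.eq_zero_iff_mem.1 hz
  obtain ⟨Q, hQ, e⟩ := (Ideal.comap_map_eq_self_iff_of_isPrime P).1 key
  exact ⟨Q, hQ, fun g => by rw [← e]; rfl⟩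

end Pool.Agent.MP_51db15_ag.Qh

end

section
/-! PROJECT QF: a truncation of the form is non-degenerate at the vertex. -/

namespace Pool.Agent.MP_51db15_ag.Qh

open Module

namespace HPERFx

variable {K ι R : Type} [Field K] [Algebra ℂ K] [CommRing R] [Algebra ℂ R] {S : Subalgebra ℂ K}
  {E : DD K} {x : ι → K} {a : ι → ℕ} {μ : R →ₐ[ℂ] PowerSeries K} {i0 : S →ₐ[ℂ] R}

theorem cf_sum {κ : Type} (s : Finset κ) (n : ℤ) (f : κ → R) :
    cf μ n (∑ k ∈ s, f k) = ∑ k ∈ s, cf μ n (f k) := by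
  unfold cf
  split_ifs
  · rw [map_sum, map_sum]
  · rw [Finset.sum_const_zero]

theorem cf_mul (n : ℤ) (r s : R) (L : ℕ) (h : ∀ d : ℕ, L ≤ d → cf μ (n - d) s = 0) :
    cf μ n (r * s) = ∑ d ∈ Finset.range L, PowerSeries.coeff d (μ r) * cf μ (n - d) s := by
  have z : ∀ d : ℕ, n < d → cf μ (n - d) s = 0 := fun d hd => if_neg (by omega)
  by_cases h0 : 0 ≤ n
  · rw [cf, if_pos h0, map_mul, PowerSeries.coeff_mul,
      Finset.Nat.sum_antidiagonal_eq_sum_range_succ
        (fun i j => PowerSeries.coeff i (μ r) * PowerSeries.coeff j (μ s))]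
    have e : ∀ d ∈ Finset.range n.toNat.succ, PowerSeries.coeff (n.toNat - d) (μ s) =
        cf μ (n - d) s := fun d hd => by
      have := Finset.mem_range.1 hd
      rw [cf, if_pos (by omega)]
      congr 2
      omega
    refine Finset.sum_congr_of_eq_on_inter (fun d hd q => ?_) (fun d _ q => ?_) fun d hd _ => ?_
    · rw [e d hd, h d (not_lt.1 fun l => q (Finset.mem_range.2 l)), mul_zero]
    · rw [Finset.mem_range] at q
      rw [z d (by omega), mul_zero]
    · rw [e d hd]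
  · rw [cf, if_neg h0]
    exact (Finset.sum_eq_zero fun d _ => by rw [z d (by omega), mul_zero]).symm

theorem cf_i0 (ev : Ev S E) (H : Hat S E μ i0) (g : S) {w : ℤ} (h : E g = (w : ℂ) • (g : K))
    (n : ℤ) : cf μ n (i0 g) = if n = w then (g : K) else 0 := by
  by_cases g0 : (g : K) = 0
  · rw [show g = 0 from Subtype.ext g0]
    simp [cf]
  obtain ⟨m, e⟩ := ev.nat g g.2 _ g0 h
  obtain rfl : w = m := by exact_mod_cast e
  rw [cf, H.emb g m (by exact_mod_cast h), PowerSeries.coeff_monomial]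
  split_ifs <;> first | rfl | omega

theorem wt_smul {g : K} {γ : DU K} {c c' : ℂ} (h1 : E g = c • g) (h2 : ld E γ = c' • γ) :
    ld E (g • γ) = (c + c') • g • γ := by
  rw [ld_smul, h1, h2, smul_comm g c', smul_assoc, add_smul, add_comm]

theorem wt_form {η : FF K} {D : DD K} {c c' : ℂ} (h1 : lf E η = c • η) (h2 : ⁅E, D⁆ = c' • D) :
    ld E (η D) = (c + c') • η D := by
  have e : lf E η D = ld E (η D) - η ⁅E, D⁆ := rfl
  rw [h1, h2, lin_c, LinearMap.smul_apply] at e
  rw [add_smul, e, sub_add_cancel]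

theorem high (C : Cone S E x a) {s : Set (DU K)} {B : ℤ} (hs : Submodule.span S s = TD S)
    (hw : ∀ γ ∈ s, ∃ c : ℤ, c ≤ B ∧ ld E γ = (c : ℂ) • γ) {γ : DU K} (hγ : γ ∈ TD S) {c : ℤ}
    (hc : B < c) (e : ld E γ = (c : ℂ) • γ) : γ ∈ vx S x • TD S := by
  set T : Submodule ℂ (DU K) := ((vx S x • TD S).restrictScalars ℂ ⊓ (ld E).eigenspace (c : ℂ)) ⊔
    ⨆ (c' : ℂ) (_ : c' ≠ c), (ld E).eigenspace c' with hT
  have all : ∀ y ∈ Submodule.span S s, ∀ g ∈ S, g • y ∈ T := fun y hy => by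
    induction hy using Submodule.span_induction with
    | mem y hy =>
      intro g hg
      obtain ⟨c0, l, e0⟩ := hw y hy
      refine Submodule.iSup_induction _ (motive := fun g : K => g • y ∈ T) (C.ev.s g hg) ?_ ?_ ?_
      · intro m g hg
        have e1 : E g = (m : ℂ) • g := End.mem_eigenspace_iff.1 hg.2
        have e2 := wt_smul e1 e0
        by_cases q : (m : ℂ) + c0 = c
        · refine Submodule.mem_sup_left ⟨?_, End.mem_eigenspace_iff.2 (q ▸ e2)⟩
          have q' : m + c0 = c := by exact_mod_cast q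
          have m0 : (m : ℂ) ≠ 0 := Int.cast_ne_zero.2 (by omega)
          obtain ⟨b, hb, eb⟩ := C.vtx.pos g hg.1
          have b1 : (⟨g, hg.1⟩ : S) = (m : ℂ)⁻¹ • b := Subtype.ext (by
            rw [SetLike.val_smul, ← eb, e1, smul_smul, inv_mul_cancel₀ m0, one_smul])
          have b2 : (⟨g, hg.1⟩ : S) ∈ vx S x := by
            rw [b1]
            exact Submodule.smul_of_tower_mem _ _ hb
          have b3 : y ∈ TD S := hs.le (Submodule.subset_span hy)
          have b4 : (⟨g, hg.1⟩ : S) • y ∈ vx S x • TD S := Submodule.smul_mem_smul b2 b3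
          exact b4
        · exact Submodule.mem_sup_right (Submodule.mem_iSup_of_mem _
            (Submodule.mem_iSup_of_mem q (End.mem_eigenspace_iff.2 e2)))
      · rw [zero_smul]; exact zero_mem _
      · intro u v hu hv
        rw [add_smul]; exact add_mem hu hv
    | zero => intro g _; rw [smul_zero]; exact zero_mem _
    | add y z _ _ hy hz => intro g hg; rw [smul_add]; exact add_mem (hy g hg) (hz g hg)
    | smul r y _ hy =>
      intro g hg
      have := hy _ (mul_mem hg r.2)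
      rw [mul_smul] at this
      exact this
  have := all γ (hs.ge hγ) 1 (one_mem S)
  rw [one_smul] at this
  obtain ⟨w, hw, u, hu, e'⟩ := Submodule.mem_sup.1 this
  have u1 : u ∈ (ld E).eigenspace (c : ℂ) := by
    rw [show u = γ - w by rw [← e']; abel]
    exact sub_mem (End.mem_eigenspace_iff.2 e) hw.2
  have u0 : u = 0 := Submodule.disjoint_def.1 ((ld E).eigenspaces_iSupIndep (c : ℂ)) u u1 hu
  rw [← e', u0, add_zero]
  exact hw.1

theorem tail {M A : Type} [AddCommGroup M] [Ring A] [Module A M] (W : Submodule A M) (f : ℤ → M)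
    {B N B' C s : ℤ} (h0 : ∀ n < B, f n = 0) (h1 : ∀ n, C < n + s → f n ∈ W) (l1 : B' ≤ B + s)
    (l2 : C ≤ N + s) : ∑ n ∈ Finset.Icc B N, f n - ∑ c ∈ Finset.Icc B' C, f (c - s) ∈ W := by
  have e1 : ∑ c ∈ Finset.Icc B' C, f (c - s) = ∑ n ∈ Finset.Icc (B' - s) (C - s), f n :=
    Finset.sum_bij' (fun c _ => c - s) (fun n _ => n + s)
      (fun c hc => by rw [Finset.mem_Icc] at hc ⊢; omega)
      (fun c hc => by rw [Finset.mem_Icc] at hc ⊢; omega) (fun _ _ => by omega)
      (fun _ _ => by omega) fun _ _ => rfl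
  have e2 : ∑ n ∈ Finset.Icc B N, f n = ∑ n ∈ Finset.Icc (B' - s) N, f n :=
    Finset.sum_subset (Finset.Icc_subset_Icc_left (by omega)) fun n a b =>
      h0 n (by rw [Finset.mem_Icc] at a b; omega)
  rw [e1, e2, ← Finset.sum_sdiff (Finset.Icc_subset_Icc_right (by omega : C - s ≤ N)),
    add_sub_cancel_right]
  refine sum_mem fun n hn => h1 n ?_
  rw [Finset.mem_sdiff, Finset.mem_Icc, Finset.mem_Icc] at hn
  omega

theorem ext0 (C : Cone S E x a) {γ : DU K}
    (h : ∀ Y ∈ TT S, ∀ q : ℤ, ⁅E, Y⁆ = (q : ℂ) • Y → γ Y = 0) : γ = 0 := by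
  refine LinearMap.ext fun D => ?_
  obtain ⟨s, -, s0, hs⟩ := C.bas.den D
  have : γ (s • D) = 0 :=
    Submodule.iSup_induction _ (motive := fun D => γ D = 0) (C.ev.T _ hs)
      (fun q Y hY => h Y hY.1 q (End.mem_eigenspace_iff.1 hY.2)) (map_zero _)
      fun u v hu hv => by rw [map_add, hu, hv, add_zero]
  rw [map_smul, smul_eq_mul] at this
  exact (mul_eq_zero.1 this).resolve_left s0

end HPERFx

open HPERFx in
theorem hperf (_g : GenK) : S_HPERF := by
  classical
  intro K ι R _ _ _ _ _ S E x a μ i0 ω η B Cn H hl ⟨m, u, p, u', hu, hgen⟩ hpi cmp hη hB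
  have sp : Submodule.span S {γ | γ ∈ TD S ∧ ∃ c : ℤ, ld E γ = (c : ℂ) • γ} = TD S :=
    le_antisymm (Submodule.span_le.2 fun _ h => h.1) fun γ hγ =>
      Submodule.iSup_induction _ (motive := fun γ => γ ∈ Submodule.span S _) (Cn.ev.D γ hγ)
        (fun c y hy => Submodule.subset_span ⟨hy.1, c, End.mem_eigenspace_iff.1 hy.2⟩)
        (zero_mem _) fun _ _ => add_mem
  obtain ⟨s, s1, s2⟩ := (Submodule.fg_span_iff_fg_span_finset_subset _).1 (sp ▸ Cn.bas.fgD)
  rw [sp] at s2
  choose! w hw using fun γ (h : γ ∈ s) => (s1 h).2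
  obtain ⟨C, hC⟩ := (s.finite_toSet.image w).bddAbove
  have hC' : ∀ γ ∈ s, w γ ≤ C := fun γ h => hC ⟨γ, h, rfl⟩
  obtain ⟨P, hP⟩ := (Set.finite_range fun k => |p k|).bddAbove
  have hP' : ∀ k, -P ≤ p k := fun k => (abs_le.1 (hP ⟨k, rfl⟩)).1
  have hi := fun γ hγ c => high (γ := γ) (c := c) Cn s2.symm
    (fun γ h => ⟨w γ, hC' γ h, hw γ h⟩) hγ
  refine ⟨C + P, ?_⟩
  set Ω := ∑ n ∈ Finset.Icc B (C + P), η n with hΩ
  let Im : Submodule S (DU K) :=
    { carrier := {γ | ∃ D ∈ TT S, Ω D = γ}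
      add_mem' := by
        rintro _ _ ⟨D, a, rfl⟩ ⟨D', b, rfl⟩
        exact ⟨D + D', add_mem a b, map_add _ _ _⟩
      zero_mem' := ⟨0, zero_mem _, map_zero _⟩
      smul_mem' := by
        rintro c _ ⟨D, a, rfl⟩
        exact ⟨c • D, (TT S).smul_mem c a, Ω.map_smul (c : K) D⟩ }
  have key : TD S ≤ Im ⊔ vx S x • TD S := by
    refine s2.le.trans (Submodule.span_le.2 fun γ hγ => ?_)
    have γT := (s1 hγ).1
    obtain ⟨G, hG⟩ := hpi γ γT
    obtain ⟨r, rfl⟩ := hgen G
    set L := (C + P - B + 1).toNat with hL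
    set B' := min (B - P) (w γ) with hB'
    have A : ∀ c ≤ C, ∑ k, ∑ d ∈ Finset.range L,
        PowerSeries.coeff d (μ (r k)) • η (c - (d + p k)) (u k) = if c = w γ then γ else 0 := by
      intro c hc
      refine sub_eq_zero.1 (ext0 Cn fun Y hY q hq => ?_)
      obtain ⟨Y', lY⟩ := hl.ex Y hY
      have e1 := congrArg (cf μ (c + q)) (hG Y hY Y' ⟨γ Y, γT Y hY⟩ lY rfl)
      have e2 : E (γ Y) = ((w γ + q : ℤ) : ℂ) • γ Y := by
        have := ld_apply E γ Y
        rw [hw γ hγ, hq, lin_c, LinearMap.smul_apply] at this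
        rw [Int.cast_add, add_smul, this, sub_add_cancel]
      have e3 : ∀ k (d : ℕ), cf μ (c + q - d) (ω (u' k) Y') = η (c - (d + p k)) (u k) Y :=
        fun k d => by
          rw [cmp _ _ q _ (hu k).1 Y hY _ Y' (hu k).2.1 hq (hu k).2.2 lY]
          congr 1
          ring
      rw [cf_i0 Cn.ev H _ e2, map_sum, LinearMap.sum_apply, cf_sum] at e1
      rw [LinearMap.sub_apply, LinearMap.sum_apply, sub_eq_zero]
      refine Eq.trans (Finset.sum_congr rfl fun k _ => ?_) (e1.trans ?_)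
      · rw [map_smul, LinearMap.smul_apply, smul_eq_mul, cf_mul _ _ _ L fun d hd => by
          have := hP' k
          rw [e3, hB _ (by omega)]; rfl, LinearMap.sum_apply]
        exact Finset.sum_congr rfl fun d _ => by rw [e3]; rfl
      · by_cases q : c = w γ
        · rw [if_pos q, if_pos (by omega)]
        · rw [if_neg q, if_neg (by omega)]; rfl
    have e1 : γ = ∑ k, ∑ d ∈ Finset.range L, ∑ c ∈ Finset.Icc B' C,
        PowerSeries.coeff d (μ (r k)) • η (c - (d + p k)) (u k) := by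
      rw [Finset.sum_congr rfl fun k _ => Finset.sum_comm, Finset.sum_comm,
        Finset.sum_congr rfl fun c hc => A c (Finset.mem_Icc.1 hc).2, Finset.sum_ite_eq',
        if_pos (Finset.mem_Icc.2 ⟨min_le_right _ _, hC' γ hγ⟩)]
    rw [SetLike.mem_coe, e1]
    refine sum_mem fun k _ => sum_mem fun d _ => ?_
    obtain ⟨ρ1, ρ2⟩ := H.mem (r k) d
    have t := tail (vx S x • TD S) (fun n => PowerSeries.coeff d (μ (r k)) • η n (u k))
      (B := B) (N := C + P) (B' := B') (C := C) (s := d + p k)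
      (fun n hn => by rw [hB n hn, LinearMap.zero_apply, smul_zero])
      (fun n hn => hi _ ((TD S).smul_mem (⟨_, ρ1⟩ : S) fun D hD => (hη n).1 _ (hu k).1 D hD)
        (n + (d + p k)) hn (by
          rw [wt_smul ρ2 (wt_form (hη n).2 (hu k).2.1)]
          congr 1
          push_cast
          ring))
      (by have := hP' k; have := min_le_left (B - P) (w γ); omega) (by have := hP' k; omega)
    have i : ∑ n ∈ Finset.Icc B (C + P), PowerSeries.coeff d (μ (r k)) • η n (u k) ∈ Im :=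
      ⟨PowerSeries.coeff d (μ (r k)) • u k, (TT S).smul_mem (⟨_, ρ1⟩ : S) (hu k).1, by
        rw [map_smul, hΩ, LinearMap.sum_apply, Finset.smul_sum]⟩
    have := sub_mem (Submodule.mem_sup_left i) (Submodule.mem_sup_right (S := Im) t)
    rwa [sub_sub_cancel] at this
  obtain ⟨r, r1, r2⟩ :=
    Submodule.exists_sub_one_mem_and_smul_le_of_fg_of_le_sup Cn.bas.fgD le_rfl key
  exact ⟨r, r.2, ⟨r - 1, r1, rfl⟩, fun γ hγ => r2 (Submodule.smul_mem_pointwise_smul γ r _ hγ)⟩

end Pool.Agent.MP_51db15_ag.Qh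

end

section
/-! PROJECT QH, row JD2: the semisimple part of a field of degree zero. -/

namespace Pool.Agent.MP_51db15_ag.Qh

open Module

namespace JD2x

theorem scal {U ι : Type} [AddCommGroup U] [Module ℂ U] (p : ι → Submodule ℂ U)
    (hp : iSupIndep p) (l : ι → ℂ) : ∃ D : U →ₗ[ℂ] U, ∀ i, ∀ u ∈ p i, D u = l i • u := by
  classical
  obtain ⟨r, hr⟩ := LinearMap.exists_leftInverse_of_injective _
    (LinearMap.ker_eq_bot.2 hp.dfinsupp_lsum_injective)
  refine ⟨DFinsupp.lsum ℕ (fun i => l i • (p i).subtype) ∘ₗ r, fun i u hu => ?_⟩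
  have h1 := LinearMap.congr_fun hr (DFinsupp.single i ⟨u, hu⟩)
  rw [LinearMap.comp_apply, DFinsupp.lsum_single, LinearMap.id_apply] at h1
  have h2 : r u = DFinsupp.single i ⟨u, hu⟩ := h1
  rw [LinearMap.comp_apply, h2, DFinsupp.lsum_single]
  rfl

end JD2x

theorem jd2 (g : GenK) : S_JD2 := by
  intro K ι _ _ _ S E x a hC Y hY hEY l
  obtain ⟨D, hD⟩ := JD2x.scal _ (End.independent_maxGenEigenspace (op Y)) l
  have ind : ∀ P : K → Prop, P 0 → (∀ u v, P u → P v → P (u + v)) →
      (∀ u ∈ S, ∀ μ, u ∈ (op Y).maxGenEigenspace μ → P u) → ∀ u ∈ S, P u := by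
    intro P h0 h1 h2 u hu
    have h3 := g.joint K (op E) (op Y) (SC S) hC.ev.s hC.vtx.fd hY (fun v => by
      have h4 := congrArg (fun Z : DD K => Z v) hEY
      simp only [Derivation.commutator_apply, Derivation.zero_apply] at h4
      exact sub_eq_zero.1 h4) u hu
    exact Submodule.iSup_induction (motive := P) _ h3
      (fun p v hv => h2 v hv.1.1 p.2 hv.2) h0 h1
  have hS : ∀ u ∈ S, D u ∈ S := ind (fun u => D u ∈ S) (by rw [map_zero]; exact zero_mem S)
    (fun u v h1 h2 => by rw [map_add]; exact add_mem h1 h2)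
    fun u hu μ h => by rw [hD μ u h]; exact S.smul_mem hu _
  have hL : ∀ u ∈ S, ∀ v ∈ S, D (u * v) = u * D v + v * D u := by
    refine ind (fun u => ∀ v ∈ S, D (u * v) = u * D v + v * D u) (fun v _ => by simp)
      (fun u u' h1 h2 v hv => by rw [add_mul, map_add, map_add, h1 v hv, h2 v hv]; ring)
      fun u _ α hα => ?_
    refine ind (fun v => D (u * v) = u * D v + v * D u) (by simp)
      (fun v v' h1 h2 => by rw [mul_add, map_add, map_add, h1, h2]; ring) fun v _ β hβ => ?_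
    have h1 : u * v ∈ (op Y).maxGenEigenspace (α + β) :=
      g.bil K K K (op Y) (op Y) (op Y) (LinearMap.mul ℂ K) α β u v (fun u v => by
        simp only [LinearMap.mul_apply', op_apply, Derivation.leibniz, smul_eq_mul]
        ring) hα hβ
    rw [hD _ _ h1, hD _ _ hα, hD _ _ hβ, map_add, add_smul, mul_smul_comm, mul_smul_comm,
      mul_comm v u, add_comm]
  obtain ⟨t, ht⟩ := Hy.lift S K S.val (D ∘ₗ S.val.toLinearMap)
    (fun y => by
      obtain ⟨u, hu, v, hv, -, h⟩ := hC.cx.frac y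
      exact ⟨⟨u, hu⟩, ⟨v, hv⟩, h⟩)
    (fun u v => hL u u.2 v v.2) fun u h => (congrArg D h).trans (map_zero D)
  have e : ∀ u ∈ S, t u = D u := fun u hu => ht ⟨u, hu⟩
  exact ⟨t, fun u hu => (e u hu).symm ▸ hS u hu, fun u hu μ h => (e u hu).trans (hD μ u h)⟩

end Pool.Agent.MP_51db15_ag.Qh

end

section
/-! The two trace identities. -/

namespace Pool.Agent.MP_51db15_ag.Qh

open Module

namespace LINx

variable {K : Type} [Field K] [Algebra ℂ K]

/-- the correction term of the Lie derivative along `g • X` -/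
noncomputable def cor (g : K) (X : DD K) : EE K where
  toFun v := (-(v.1 g • X), v.2 X • dd g)
  map_add' v w := Prod.ext (by simp [add_smul, add_comm]) (by simp [add_smul])
  map_smul' r v := Prod.ext (by simp [mul_smul]) (by simp [mul_smul])

theorem cor_apply (g : K) (X : DD K) (v : MM K) :
    cor g X v = (-(v.1 g • X), v.2 X • dd g) := rfl

theorem del_smul_left (g : K) (X : DD K) (f : EE K) :
    del (g • X) f = g • del X f + (cor g X * f - f * cor g X) :=
  LinearMap.ext fun v => by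
    simp only [del_apply, lam_smul_left, map_add, map_smul, LinearMap.add_apply,
      LinearMap.smul_apply, LinearMap.sub_apply, End.mul_apply, ← cor_apply, smul_sub]
    abel

theorem false_cor {κ : Type} (e : κ → End K (DD K)) (k : κ) (g : K) {X : DD K}
    (h : e k X = 0) : pp e (k, false) * cor g X = 0 :=
  LinearMap.ext fun v => by
    rw [End.mul_apply, pp_false, cor_apply]
    simp [h]

theorem cor_true {κ : Type} (e : κ → End K (DD K)) (k : κ) (g : K) {X : DD K}
    (h : e k X = 0) : cor g X * pp e (k, true) = 0 :=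
  LinearMap.ext fun v => by
    rw [End.mul_apply, pp_true, cor_apply]
    simp [h]

theorem p_cor_p {κ : Type} (e : κ → End K (DD K)) (u : κ × Bool) (g : K) {X : DD K}
    (h : e u.1 X = 0) : pp e u * cor g X * pp e u = 0 := by
  obtain ⟨k, b⟩ := u
  cases b
  · rw [false_cor e k g h, zero_mul]
  · rw [mul_assoc, cor_true e k g h, mul_zero]

theorem ff_cor {κ : Type} (e : κ → End K (DD K)) (i l : κ) (g : K) {X : DD K}
    (h : e i (e l X) = 0) : pp e (i, false) * pp e (l, false) * cor g X = 0 :=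
  LinearMap.ext fun v => by
    rw [End.mul_apply, End.mul_apply, pp_false, pp_false, cor_apply]
    simp [h]

theorem tr_sub (b p q d : EE K) :
    tr (b * (p - q) * d) = tr (b * p * d) - tr (b * q * d) := by
  rw [← map_sub]
  congr 1
  exact LinearMap.ext fun v => by
    simp only [End.mul_apply, LinearMap.sub_apply, map_sub]

theorem key {ι : Type} {S : Subalgebra ℂ K} {E : DD K} {x : ι → K} {a : ι → ℕ}
    (C : Cone S E x a) (hL : LTP S x) (ht : ∀ b ∈ EI S, tr b ∈ S) (q : End K (DD K))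
    (hq : ∀ D ∈ TT S, q D ∈ TT S) {b f d : EE K} (hb : b ∈ EI S) (hf : f ∈ EI S)
    (hd : d ∈ EI S)
    (h0 : ∀ g D, tr (b * (cor g (q D) * f - f * cor g (q D)) * d) = 0) (c : ℂ)
    (h : tr (b * del (q E) f * d) = algebraMap ℂ K c) : c = 0 := by
  let γ : DU K :=
    { toFun := fun D => tr (b * del (q D) f * d)
      map_add' := fun D D' => by
        rw [map_add, del_add_left, mul_add, add_mul, map_add]
      map_smul' := fun g D => by
        rw [map_smul, del_smul_left, mul_add, add_mul, map_add, h0, add_zero, mul_smul_comm,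
          smul_mul_assoc, tr_apply, tr_apply, map_smul, RingHom.id_apply] }
  have hγ : γ ∈ TD S := fun D hD => ht _ (mul_mem (mul_mem hb (del_mem (hq D hD) hf)) hd)
  obtain ⟨y, hy, e⟩ := hL (vx S x) C.vtx.max.isPrime le_rfl E C.ev.tm C.vtx.pos γ hγ
  have e' : (y : K) = algebraMap ℂ K c := e.symm.trans h
  by_contra hc
  refine C.vtx.max.ne_top ((Ideal.eq_top_iff_one _).2 ?_)
  have h1 : (1 : S) = algebraMap ℂ S c⁻¹ * y := by
    apply Subtype.ext
    rw [Subalgebra.coe_mul, e', Subalgebra.coe_algebraMap, ← map_mul, inv_mul_cancel₀ hc, map_one,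
      Subalgebra.coe_one]
  rw [h1]
  exact Ideal.mul_mem_left _ _ hy

end LINx

open LINx

theorem lin : S_LIN := by
  intro K ι κ _ _ _ _ _ S E x a e C hL ht I
  have := C.bas.fd
  have oz : ∀ k j, k ≠ j → ∀ D, e k (e j D) = 0 := fun k j h D => by
    rw [← End.mul_apply, I.orth, if_neg h, LinearMap.zero_apply]
  have pm : ∀ k, pp e (k, false) ∈ EI S := fun k v hv =>
    ⟨(I.a0 k).1 _ hv.1, zero_mem _⟩
  refine ⟨fun j u v hu hv f hf b hb ef eb c h => ?_, fun i j l hij b hb c h => ?_⟩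
  · refine LINx.key C hL ht (e j) (I.a0 j).1 hb hf (one_mem _) (fun g D => ?_) c (by rwa [mul_one])
    have h1 := p_cor_p e u g (oz _ _ hu D)
    have h2 := p_cor_p e v g (oz _ _ hv D)
    have a1 : b * (cor g (e j D) * f) = 0 := by
      calc b * (cor g (e j D) * f)
          = pp e v * b * pp e u * (cor g (e j D) * (pp e u * f * pp e v)) := by rw [← ef, ← eb]
        _ = pp e v * b * (pp e u * cor g (e j D) * pp e u) * (f * pp e v) := by
          simp only [mul_assoc]
        _ = 0 := by rw [h1, mul_zero, zero_mul]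
    have a2 : tr (b * (f * cor g (e j D))) = 0 := by
      calc tr (b * (f * cor g (e j D)))
          = tr (pp e v * b * pp e u * (pp e u * f * pp e v * cor g (e j D))) := by
            rw [← ef, ← eb]
        _ = tr (pp e v * (b * pp e u * (pp e u * f) * (pp e v * cor g (e j D)))) := by
            simp only [mul_assoc]
        _ = tr (b * pp e u * (pp e u * f) * (pp e v * cor g (e j D) * pp e v)) := by
            rw [tr_apply, tr_apply, LinearMap.trace_mul_comm]
            simp only [mul_assoc]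
        _ = 0 := by rw [h2, mul_zero, map_zero]
    rw [tr_sub, mul_one, mul_one, a1, a2, map_zero, sub_zero]
  · refine LINx.key C hL ht (e j) (I.a0 j).1 (mul_mem hb (pm i)) (pm l) (pm l) (fun g D => ?_) c h
    have h1 := false_cor e i g (oz _ _ hij D)
    have h2 : pp e (i, false) * pp e (l, false) * cor g (e j D) = 0 := by
      refine ff_cor e i l g ?_
      by_cases hl : l = j
      · rw [hl]
        exact oz _ _ hij _
      · rw [oz _ _ hl, map_zero]
    have a1 : b * pp e (i, false) * (cor g (e j D) * pp e (l, false)) = 0 := by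
      calc _ = b * (pp e (i, false) * cor g (e j D)) * pp e (l, false) := by
            simp only [mul_assoc]
        _ = 0 := by rw [h1, mul_zero, zero_mul]
    have a2 : b * pp e (i, false) * (pp e (l, false) * cor g (e j D)) = 0 := by
      calc _ = b * (pp e (i, false) * pp e (l, false) * cor g (e j D)) := by
            simp only [mul_assoc]
        _ = 0 := by rw [h2, mul_zero]
    rw [tr_sub, a1, a2, sub_self]

end Pool.Agent.MP_51db15_ag.Qh

end

section
/-! The flow of one field along another as a power series. -/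

namespace Pool.Agent.MP_51db15_ag.Qh

open Module Finset

noncomputable section

namespace LTAx

section Ring

variable {R : Type} [CommRing R] [Algebra ℂ R]

/-- a derivation acting on the coefficients of power series -/
def cw (E : Derivation ℂ R R) : Derivation ℂ (PowerSeries R) (PowerSeries R) :=
  Derivation.mk'
    { toFun := fun G => PowerSeries.mk fun n => E (PowerSeries.coeff n G)
      map_add' := fun G H => by
        ext n
        simp only [PowerSeries.coeff_mk, map_add]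
      map_smul' := fun c G => by
        ext n
        simp only [PowerSeries.coeff_mk, PowerSeries.coeff_smul, Derivation.map_smul,
          RingHom.id_apply] }
    (fun G H => by
      ext n
      simp only [LinearMap.coe_mk, AddHom.coe_mk, PowerSeries.coeff_mk, smul_eq_mul, map_add]
      rw [mul_comm H, PowerSeries.coeff_mul, PowerSeries.coeff_mul, PowerSeries.coeff_mul, map_sum,
        ← Finset.sum_add_distrib]
      refine Finset.sum_congr rfl fun p _ => ?_
      simp only [PowerSeries.coeff_mk, Derivation.leibniz, smul_eq_mul]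
      ring)

theorem coeff_cw (E : Derivation ℂ R R) (G : PowerSeries R) (n : ℕ) :
    PowerSeries.coeff n (cw E G) = E (PowerSeries.coeff n G) :=
  PowerSeries.coeff_mk n fun n => E (PowerSeries.coeff n G)

theorem cw_C (E : Derivation ℂ R R) (g : R) : cw E (PowerSeries.C g) = PowerSeries.C (E g) := by
  ext n
  rw [coeff_cw, PowerSeries.coeff_C, PowerSeries.coeff_C]
  split_ifs
  · rfl
  · exact map_zero E

/-- the derivative in the formal variable -/
def ds : Derivation ℂ (PowerSeries R) (PowerSeries R) :=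
  Derivation.mk'
    { toFun := fun G => PowerSeries.derivative R G
      map_add' := fun G H => map_add _ G H
      map_smul' := fun c G => by
        ext n
        simp only [PowerSeries.coeff_derivative, PowerSeries.coeff_smul, RingHom.id_apply,
          smul_mul_assoc] }
    (fun G H => (PowerSeries.derivative R).leibniz G H)

theorem coeff_ds (G : PowerSeries R) (n : ℕ) :
    PowerSeries.coeff n (ds G) = PowerSeries.coeff (n + 1) G * (n + 1) :=
  PowerSeries.coeff_derivative G n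

theorem ds_C (g : R) : ds (PowerSeries.C g) = 0 := PowerSeries.derivative_C

theorem sum_app {κ : Type} (s : Finset κ) (E : κ → Derivation ℂ R R) (g : R) :
    (∑ i ∈ s, E i) g = ∑ i ∈ s, E i g := by
  classical
  induction s using Finset.induction_on with
  | empty => rfl
  | insert j s hj ih => rw [Finset.sum_insert hj, Finset.sum_insert hj, Derivation.add_apply, ih]

end Ring

variable {K : Type} [Field K] [Algebra ℂ K] {S : Subalgebra ℂ K}

/-- the restriction of a regular field -/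
def res (X : DD K) (hX : X ∈ TT S) : Derivation ℂ S S :=
  Derivation.mk'
    { toFun := fun g => ⟨X g, hX g g.2⟩
      map_add' := fun g h => Subtype.ext (map_add X (g : K) h)
      map_smul' := fun c g => Subtype.ext (X.map_smul c (g : K)) }
    (fun g h => Subtype.ext (X.leibniz (g : K) h))

theorem res_coe (X : DD K) (hX : X ∈ TT S) (g : S) : (res X hX g : K) = X g := rfl

/-- the coefficients of the flow -/
def fl (D Y : DD K) : ℕ → DD K
  | 0 => Y
  | k + 1 => (-((k : ℂ) + 1)⁻¹) • ⁅D, fl D Y k⁆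

theorem fl_mem {D Y : DD K} (hD : D ∈ TT S) (hY : Y ∈ TT S) : ∀ k, fl D Y k ∈ TT S
  | 0 => hY
  | k + 1 => fun g hg => S.smul_mem (lie_mem hD (fl_mem hD hY k) g hg) _

theorem fl_succ (D Y : DD K) (k : ℕ) (g : K) :
    ((k : K) + 1) * fl D Y (k + 1) g = fl D Y k (D g) - D (fl D Y k g) := by
  have h0 : ((k : ℂ) + 1) ≠ 0 := Nat.cast_add_one_ne_zero k
  have h1 : ((k : K) + 1) = algebraMap ℂ K ((k : ℂ) + 1) := by simp
  have h2 : fl D Y (k + 1) g = (-((k : ℂ) + 1)⁻¹) • (D (fl D Y k g) - fl D Y k (D g)) := rfl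
  rw [h1, h2, ← Algebra.smul_def, smul_smul, mul_neg, mul_inv_cancel₀ h0, neg_smul, one_smul,
    neg_sub]

theorem der_nat (X : DD K) (g : K) (k : ℕ) : X (g * ((k : K) + 1)) = ((k : K) + 1) * X g := by
  have h1 : ((k : K) + 1) = algebraMap ℂ K ((k : ℂ) + 1) := by simp
  rw [mul_comm, h1, ← Algebra.smul_def, ← Algebra.smul_def, Derivation.map_smul]

theorem key (D Y : DD K) (g : ℕ → K) (n : ℕ) :
    (∑ p ∈ antidiagonal (n + 1), fl D Y p.1 (g p.2)) * ((n : K) + 1) +
        D (∑ p ∈ antidiagonal n, fl D Y p.1 (g p.2)) =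
      ∑ p ∈ antidiagonal n, fl D Y p.1 (g (p.2 + 1) * ((p.2 : K) + 1) + D (g p.2)) := by
  have h1 : (∑ p ∈ antidiagonal (n + 1), fl D Y p.1 (g p.2)) * ((n : K) + 1) =
      ∑ p ∈ antidiagonal (n + 1), (p.1 : K) * fl D Y p.1 (g p.2) +
        ∑ p ∈ antidiagonal (n + 1), (p.2 : K) * fl D Y p.1 (g p.2) := by
    rw [Finset.sum_mul, ← Finset.sum_add_distrib]
    refine Finset.sum_congr rfl fun p hp => ?_
    have h : (p.1 : K) + p.2 = n + 1 := by
      rw [← Nat.cast_add, Finset.HasAntidiagonal.mem_antidiagonal.1 hp, Nat.cast_add, Nat.cast_one]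
    rw [← h]
    ring
  rw [h1, Finset.Nat.sum_antidiagonal_succ, Finset.Nat.sum_antidiagonal_succ', map_sum]
  simp only [Nat.cast_zero, zero_mul, zero_add, Nat.cast_add, Nat.cast_one]
  rw [← Finset.sum_add_distrib, ← Finset.sum_add_distrib]
  refine Finset.sum_congr rfl fun p _ => ?_
  rw [fl_succ, map_add, der_nat]
  ring

end LTAx

open LTAx in
theorem lta : S_LTA := by
  intro K ι _ _ _ S x hB Y hY D hD
  obtain ⟨n, u, hu⟩ := Submodule.fg_iff_exists_fin_generating_family.1 hB.fgT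
  have hum : ∀ i, u i ∈ TT S := fun i => hu ▸ Submodule.subset_span ⟨i, rfl⟩
  have hr : ∀ k, ∃ c : Fin n → S, ∑ i, c i • u i = fl D Y k := fun k =>
    (Submodule.mem_span_range_iff_exists_fun S).1 (hu ▸ fl_mem hD hY k)
  choose r hr using hr
  have hr' : ∀ k (g : K), fl D Y k g = ∑ i, (r k i : K) * u i g := by
    intro k g
    rw [← hr k, sum_app]
    rfl
  have hY₁ : ∀ G : PowerSeries S,
      (∑ i, (PowerSeries.mk fun k => r k i) • cw (res (u i) (hum i))) G =
        ∑ i, (PowerSeries.mk fun k => r k i) * cw (res (u i) (hum i)) G := by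
    intro G
    rw [sum_app]
    rfl
  have hc : ∀ (G : PowerSeries S) (m : ℕ), ((PowerSeries.coeff m
      ((∑ i, (PowerSeries.mk fun k => r k i) • cw (res (u i) (hum i))) G) : S) : K) =
        ∑ p ∈ antidiagonal m, fl D Y p.1 ((PowerSeries.coeff p.2 G : S) : K) := by
    intro G m
    rw [hY₁, map_sum]
    simp only [PowerSeries.coeff_mul, PowerSeries.coeff_mk, coeff_cw,
      AddSubmonoidClass.coe_finsetSum, MulMemClass.coe_mul, res_coe, hr']
    exact Finset.sum_comm
  have hd : ∀ (G : PowerSeries S) (m : ℕ), ((PowerSeries.coeff m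
      ((ds + cw (res D hD) : Derivation ℂ (PowerSeries S) (PowerSeries S)) G) : S) : K) =
        ((PowerSeries.coeff (m + 1) G : S) : K) * ((m : K) + 1) +
          D ((PowerSeries.coeff m G : S) : K) := by
    intro G m
    rw [Derivation.add_apply, map_add, coeff_ds, coeff_cw]
    push_cast
    rfl
  refine ⟨ds + cw (res D hD), ∑ i, (PowerSeries.mk fun k => r k i) • cw (res (u i) (hum i)), n, u,
    fun i => PowerSeries.mk fun k => r k i, fun G => ?_, hum, ?_, fun G => ?_, fun g g' h => ?_,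
    fun g g' h => ?_⟩
  · ext m
    rw [hd, hc, hc, hc]
    simp only [hd]
    exact LTAx.key D Y (fun k => ((PowerSeries.coeff k G : S) : K)) m
  · refine (hr 0).symm.trans (Finset.sum_congr rfl fun i _ => ?_)
    rw [← PowerSeries.coeff_zero_eq_constantCoeff_apply, PowerSeries.coeff_mk]
    rfl
  · rw [← PowerSeries.coeff_zero_eq_constantCoeff_apply, hc,
      ← PowerSeries.coeff_zero_eq_constantCoeff_apply, Finset.Nat.antidiagonal_zero,
      Finset.sum_singleton]
    rfl
  · rw [Derivation.add_apply, ds_C, cw_C, zero_add]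
    exact congrArg _ (Subtype.ext h.symm)
  · rw [hY₁]
    refine Finset.sum_congr rfl fun i _ => ?_
    rw [cw_C]
    exact congrArg (fun z : S => _ * PowerSeries.C z) (Subtype.ext (h i).symm)

end

end Pool.Agent.MP_51db15_ag.Qh

end

section
/-! The flow of one derivation along another as a power series, over an abstract ring. -/

namespace Pool.Agent.MP_51db15_ag.Qh

open Module Finset

noncomputable section

namespace LTA2x

variable {R : Type} [CommRing R] [Algebra ℂ R]

/-- the coefficients of the flow -/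
def fl (D Y : DR R) : ℕ → DR R
  | 0 => Y
  | k + 1 => (-((k : ℂ) + 1)⁻¹) • ⁅D, fl D Y k⁆

theorem fl_succ (D Y : DR R) (k : ℕ) (g : R) :
    ((k : R) + 1) * fl D Y (k + 1) g = fl D Y k (D g) - D (fl D Y k g) := by
  have h0 : ((k : ℂ) + 1) ≠ 0 := Nat.cast_add_one_ne_zero k
  have h1 : ((k : R) + 1) = algebraMap ℂ R ((k : ℂ) + 1) := by simp
  have h2 : fl D Y (k + 1) g = (-((k : ℂ) + 1)⁻¹) • (D (fl D Y k g) - fl D Y k (D g)) := rfl
  rw [h1, h2, ← Algebra.smul_def, smul_smul, mul_neg, mul_inv_cancel₀ h0, neg_smul, one_smul,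
    neg_sub]

theorem der_nat (X : DR R) (g : R) (k : ℕ) : X (g * ((k : R) + 1)) = ((k : R) + 1) * X g := by
  have h1 : ((k : R) + 1) = algebraMap ℂ R ((k : ℂ) + 1) := by simp
  rw [mul_comm, h1, ← Algebra.smul_def, ← Algebra.smul_def, Derivation.map_smul]

theorem key (D Y : DR R) (g : ℕ → R) (n : ℕ) :
    (∑ p ∈ antidiagonal (n + 1), fl D Y p.1 (g p.2)) * ((n : R) + 1) +
        D (∑ p ∈ antidiagonal n, fl D Y p.1 (g p.2)) =
      ∑ p ∈ antidiagonal n, fl D Y p.1 (g (p.2 + 1) * ((p.2 : R) + 1) + D (g p.2)) := by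
  have h1 : (∑ p ∈ antidiagonal (n + 1), fl D Y p.1 (g p.2)) * ((n : R) + 1) =
      ∑ p ∈ antidiagonal (n + 1), (p.1 : R) * fl D Y p.1 (g p.2) +
        ∑ p ∈ antidiagonal (n + 1), (p.2 : R) * fl D Y p.1 (g p.2) := by
    rw [Finset.sum_mul, ← Finset.sum_add_distrib]
    refine Finset.sum_congr rfl fun p hp => ?_
    have h : (p.1 : R) + p.2 = n + 1 := by
      rw [← Nat.cast_add, Finset.HasAntidiagonal.mem_antidiagonal.1 hp, Nat.cast_add, Nat.cast_one]
    rw [← h]
    ring
  rw [h1, Finset.Nat.sum_antidiagonal_succ, Finset.Nat.sum_antidiagonal_succ', map_sum]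
  simp only [Nat.cast_zero, zero_mul, zero_add, Nat.cast_add, Nat.cast_one]
  rw [← Finset.sum_add_distrib, ← Finset.sum_add_distrib]
  refine Finset.sum_congr rfl fun p _ => ?_
  rw [fl_succ, map_add, der_nat]
  ring

end LTA2x

open LTA2x in
theorem lta2 : S_LTA2 := by
  intro R _ _ _ Y D
  obtain ⟨n, u, hu⟩ := Module.Finite.exists_fin (R := R) (M := DR R)
  have hr : ∀ k, ∃ c : Fin n → R, ∑ i, c i • u i = fl D Y k := fun k =>
    (Submodule.mem_span_range_iff_exists_fun R).1 (hu ▸ Submodule.mem_top)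
  choose r hr using hr
  have hr' : ∀ k (g : R), fl D Y k g = ∑ i, r k i * u i g := by
    intro k g
    rw [← hr k, LTAx.sum_app]
    rfl
  have hY₁ : ∀ G : PowerSeries R,
      (∑ i, (PowerSeries.mk fun k => r k i) • LTAx.cw (u i)) G =
        ∑ i, (PowerSeries.mk fun k => r k i) * LTAx.cw (u i) G := by
    intro G
    rw [LTAx.sum_app]
    rfl
  have hc : ∀ (G : PowerSeries R) (m : ℕ), PowerSeries.coeff m
      ((∑ i, (PowerSeries.mk fun k => r k i) • LTAx.cw (u i)) G) =
        ∑ p ∈ antidiagonal m, fl D Y p.1 (PowerSeries.coeff p.2 G) := by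
    intro G m
    rw [hY₁, map_sum]
    simp only [PowerSeries.coeff_mul, PowerSeries.coeff_mk, LTAx.coeff_cw, hr']
    exact Finset.sum_comm
  have hd : ∀ (G : PowerSeries R) (m : ℕ), PowerSeries.coeff m
      ((LTAx.ds + LTAx.cw D : Derivation ℂ (PowerSeries R) (PowerSeries R)) G) =
        PowerSeries.coeff (m + 1) G * ((m : R) + 1) + D (PowerSeries.coeff m G) := by
    intro G m
    rw [Derivation.add_apply, map_add, LTAx.coeff_ds, LTAx.coeff_cw]
  refine ⟨LTAx.ds + LTAx.cw D, ∑ i, (PowerSeries.mk fun k => r k i) • LTAx.cw (u i), n, u,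
    fun i => PowerSeries.mk fun k => r k i, fun G => ?_, ?_, fun G => ?_, fun g => ?_,
    fun g => ?_⟩
  · ext m
    rw [hd, hc, hc, hc]
    simp only [hd]
    exact LTA2x.key D Y (fun k => PowerSeries.coeff k G) m
  · refine (hr 0).symm.trans (Finset.sum_congr rfl fun i _ => ?_)
    rw [← PowerSeries.coeff_zero_eq_constantCoeff_apply, PowerSeries.coeff_mk]
  · rw [← PowerSeries.coeff_zero_eq_constantCoeff_apply, hc,
      ← PowerSeries.coeff_zero_eq_constantCoeff_apply, Finset.Nat.antidiagonal_zero,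
      Finset.sum_singleton]
    rfl
  · rw [Derivation.add_apply, LTAx.ds_C, LTAx.cw_C, zero_add]
  · rw [hY₁]
    refine Finset.sum_congr rfl fun i _ => ?_
    rw [LTAx.cw_C]

end

end Pool.Agent.MP_51db15_ag.Qh

end

section
/-! PROJECT QH, row PERF: removing small forms keeps the form non-degenerate at the vertex. -/

namespace Pool.Agent.MP_51db15_ag.Qh

open Module

namespace PERFx

variable {K κ : Type} [Field K] [Algebra ℂ K] [Fintype κ] [DecidableEq κ] {S : Subalgebra ℂ K}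
  {E : DD K} {e : κ → End K (DD K)} {st : EE K →ₗ[ℂ] EE K}

theorem wt_mul {a b : EE K} {u v : ℂ} (ha : del E a = u • a) (hb : del E b = v • b) :
    del E (a * b) = (u + v) • (a * b) := by
  rw [del_mul, ha, hb, smul_mul_assoc, mul_smul_comm, add_smul]

theorem del_one : del E (1 : EE K) = 0 := LinearMap.ext fun v => by simp [del_apply]

theorem tr_zero (A : Alg (EI S) (del E) (fun j => del (e j E)) st tr (pp e)) {η : FF K} {w : ℂ}
    (h : ∀ k l, ∀ b ∈ EI S, del E b = (-w) • b → b = pp e (l, false) * b * pp e (k, true) →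
      tr (b * flat η) = 0) {c : EE K} (hc : c ∈ EI S) (hw : del E c = (-w) • c) :
    tr (c * flat η) = 0 := by
  have e1 : c * flat η = ∑ u, ∑ v, c * pp e u * flat η * pp e v := by
    simp only [← Finset.mul_sum, ← Finset.sum_mul, A.ps, mul_one]
  rw [e1, map_sum]
  refine Finset.sum_eq_zero fun u _ => ?_
  rw [map_sum]
  refine Finset.sum_eq_zero fun v _ => ?_
  obtain ⟨k, _ | _⟩ := u
  · have : pp e (k, false) * flat η = 0 := LinearMap.ext fun z => by
      rw [End.mul_apply, pp_false]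
      simp
    rw [mul_assoc c, this, mul_zero, zero_mul, map_zero]
  obtain ⟨l, _ | _⟩ := v
  · rw [A.tc, ← mul_assoc, ← mul_assoc]
    have p0 : ∀ u, del E (pp e u) = (0 : ℂ) • pp e u := fun u => by rw [zero_smul, A.pd]
    refine h k l _ (mul_mem (mul_mem (A.pm _) hc) (A.pm _)) ?_ ?_
    · simpa using wt_mul (wt_mul (p0 (l, false)) hw) (p0 (k, true))
    · have a1 := A.po (l, false) (l, false)
      have a2 := A.po (k, true) (k, true)
      rw [if_pos rfl] at a1 a2
      rw [← mul_assoc, ← mul_assoc, a1, mul_assoc _ (pp e (k, true)), a2]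
  · have : flat η * pp e (l, true) = 0 := LinearMap.ext fun z => by
      rw [End.mul_apply, pp_true]
      simp
    rw [mul_assoc _ (flat η), this, mul_zero, map_zero]

theorem nil (n : S_TNIL) [FiniteDimensional K (DD K)]
    (A : Alg (EI S) (del E) (fun j => del (e j E)) st tr (pp e)) {η : FF K} {w : ℂ}
    (h0 : η ∈ RF S) (h1 : lf E η = w • η)
    (h : ∀ k l, ∀ b ∈ EI S, del E b = (-w) • b → b = pp e (l, false) * b * pp e (k, true) →
      tr (b * flat η) = 0) {c : EE K} (hc : c ∈ EI S) (hw : del E c = (-w) • c) :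
    IsNilpotent (c * flat η) := by
  have : CharZero K := charZero_of_injective_algebraMap (algebraMap ℂ K).injective
  have f1 : del E (flat η) = w • flat η := by
    rw [del_flat, h1]
    exact LinearMap.ext fun v => Prod.ext (by simp) rfl
  have f2 : ∀ m : ℕ, del E ((c * flat η) ^ m) = (0 : ℂ) • (c * flat η) ^ m := fun m => by
    induction m with
    | zero => rw [pow_zero, del_one, zero_smul]
    | succ m ih =>
      rw [pow_succ]
      simpa using wt_mul ih (wt_mul hw f1)
  refine n K (MM K) _ fun m => ?_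
  rw [pow_succ, ← mul_assoc]
  refine tr_zero A h (mul_mem (pow_mem (mul_mem hc (flat_mem h0)) m) hc) ?_
  simpa using wt_mul (f2 m) hw

theorem rad (n : S_TNIL) [FiniteDimensional K (DD K)]
    (A : Alg (EI S) (del E) (fun j => del (e j E)) st tr (pp e)) (hE : Dz (U := EE K) (del E) (EC S))
    {g : EE K} (hg : g ∈ EI S) {ρ : FF K} (hρ : ρ ∈ Submodule.span ℂ {η | Sm S E e η}) :
    g * flat ρ ∈ Submodule.span ℂ {f : EE K | f ∈ EI S ∧ ∃ l : ℂ, del E f = l • f ∧
      ∀ b ∈ EI S, del E b = (-l) • b → IsNilpotent (b * f)} := by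
  induction hρ using Submodule.span_induction with
  | mem η hη =>
    obtain ⟨h0, w, h1, h⟩ := hη
    refine Submodule.iSup_induction _ (motive := fun g => g * flat η ∈ _) (hE g hg) ?_ ?_ ?_
    · rintro m g ⟨g1, g2⟩
      have g3 : del E g = (m : ℂ) • g := End.mem_eigenspace_iff.1 g2
      have f1 : del E (flat η) = w • flat η := by
        rw [del_flat, h1]
        exact LinearMap.ext fun v => Prod.ext (by simp) rfl
      refine Submodule.subset_span ⟨mul_mem g1 (flat_mem h0), _, wt_mul g3 f1, fun b hb hw => ?_⟩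
      rw [← mul_assoc]
      refine nil n A h0 h1 h (mul_mem hb g1) ?_
      rw [wt_mul hw g3]
      congr 1
      ring
    · rw [zero_mul]
      exact zero_mem _
    · intro a b ha hb
      rw [add_mul]
      exact add_mem ha hb
  | zero =>
    have : flat (0 : FF K) = 0 := LinearMap.ext fun v => rfl
    rw [this, mul_zero]
    exact zero_mem _
  | add a b _ _ ha hb =>
    have : flat (a + b) = flat a + flat b := LinearMap.ext fun v => Prod.ext (by simp) rfl
    rw [this, mul_add]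
    exact add_mem ha hb
  | smul c a _ ha =>
    have : flat (c • a) = c • flat a := LinearMap.ext fun v => Prod.ext (by simp) rfl
    rw [this, mul_smul_comm]
    exact Submodule.smul_mem _ c ha

theorem fst_mem {I : Ideal S} {v : MM K} (h : v ∈ I • LL S) : v.1 ∈ I • TT S := by
  refine Submodule.smul_induction_on (p := fun v : MM K => v.1 ∈ I • TT S) h ?_ ?_
  · exact fun r hr m hm => Submodule.smul_mem_smul hr hm.1
  · exact fun a b ha hb => add_mem ha hb

end PERFx

open PERFx in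
theorem perf (r : S_RAD) (n : S_TNIL) : S_PERF := by
  intro K ι κ _ _ _ _ _ S E x a e st ω ω' s π C A hs hs1 I hρ
  have := C.bas.fd
  set ρ := ω - ω' with hρd
  have ρR : ρ ∈ RF S := Submodule.span_le.2 (fun η hη => hη.1) hρ
  have πE : sharp π ∈ EI S := fun v hv => ⟨I.mem _ hv.2, zero_mem _⟩
  obtain ⟨m, hm⟩ := r K ι S E x a C _ (rad n A C.ev.E πE hρ)
  let N : End K (DD K) := π ∘ₗ ρ
  have N1 : ∀ D ∈ TT S, N D ∈ TT S := fun D hD => I.mem _ fun D' hD' => ρR D hD D' hD'
  have N2 : ∀ (j : ℕ), ∀ D ∈ TT S, (N ^ j) D ∈ TT S := fun j D hD => by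
    induction j with
    | zero => exact hD
    | succ j ih =>
      rw [pow_succ']
      exact N1 _ ih
  have N3 : ∀ (j : ℕ) (D : DD K), ((sharp π * flat ρ) ^ j) (D, 0) = ((N ^ j) D, 0) := fun j D => by
    induction j with
    | zero => rfl
    | succ j ih =>
      rw [pow_succ', pow_succ', End.mul_apply, ih]
      rfl
  let P : Submodule S (DD K) := (TT S).map ((π ∘ₗ ω').restrictScalars S)
  have N4 : ∀ D, π (ω' D) = s • D - N D := fun D => by
    rw [← I.left D]
    simp [N, hρd]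
  have N5 : ∀ (j : ℕ), ∀ D ∈ TT S, s ^ j • D - (N ^ j) D ∈ P := fun j D hD => by
    induction j with
    | zero => simp
    | succ j ih =>
      have e1 : s ^ (j + 1) • D - (N ^ (j + 1)) D =
          (⟨s, hs⟩ : S) • (s ^ j • D - (N ^ j) D) + π (ω' ((N ^ j) D)) := by
        rw [N4, pow_succ' N, End.mul_apply, pow_succ' s, mul_smul, smul_sub]
        exact (sub_add_sub_cancel _ _ _).symm
      rw [e1]
      exact add_mem (P.smul_mem _ ih) ⟨_, N2 j D hD, rfl⟩
  obtain ⟨b, hb, hb'⟩ := hs1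
  have sb : (⟨s, hs⟩ : S) - 1 ∈ vx S x := by
    have : (⟨s, hs⟩ : S) - 1 = b := Subtype.ext hb'
    rwa [this]
  have le : TT S ≤ P ⊔ vx S x • TT S := fun D hD => by
    have a1 : (⟨s, hs⟩ : S) ^ m - 1 ∈ vx S x := by
      have := Ideal.mem_of_dvd _ (sub_dvd_pow_sub_pow (⟨s, hs⟩ : S) 1 m) sb
      rwa [one_pow] at this
    have a2 := fst_mem (hm (D, 0) ⟨hD, zero_mem _⟩)
    rw [N3] at a2
    have a3 : D = (s ^ m • D - (N ^ m) D) + ((N ^ m) D - ((⟨s, hs⟩ : S) ^ m - 1) • D) := by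
      rw [sub_smul, one_smul]
      change D = _ + (_ - (s ^ m • D - D))
      abel
    rw [a3]
    exact Submodule.add_mem_sup (N5 m D hD) (sub_mem a2 (Submodule.smul_mem_smul a1 hD))
  obtain ⟨q, hq, hq'⟩ :=
    Submodule.exists_sub_one_mem_and_smul_le_of_fg_of_le_sup C.bas.fgT le_rfl le
  have s0 : s ≠ 0 := fun h => C.vtx.max.ne_top ((Ideal.eq_top_iff_one _).2 (by
    have : (⟨s, hs⟩ : S) = 0 := Subtype.ext h
    rw [this, zero_sub] at sb
    exact (neg_mem_iff).1 sb))
  refine ⟨q, q.2, ⟨q - 1, hq, rfl⟩, fun γ hγ => ?_⟩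
  obtain ⟨D, hD, hD'⟩ := hq' (Submodule.smul_mem_pointwise_smul _ q _ (I.mem γ hγ))
  refine ⟨D, hD, ?_⟩
  have a1 : π (ω' D) = π ((q : K) • γ) := by
    rw [map_smul]
    exact hD'
  have a2 := congrArg ω a1
  rw [I.right, I.right] at a2
  exact smul_right_injective _ s0 a2

end Pool.Agent.MP_51db15_ag.Qh

end

section
/-! The adjoint for the canonical pairing of fields and one-forms. -/

namespace Pool.Agent.MP_51db15_ag.Qh

open Module

noncomputable section

namespace STx

variable {K : Type} [Field K] [Algebra ℂ K]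

/-- the canonical pairing -/
def B : MM K →ₗ[K] Module.Dual K (MM K) :=
  LinearMap.mk₂ K (fun v w : MM K => v.2 w.1 + w.2 v.1)
    (fun v v' w => by
      simp only [Prod.fst_add, Prod.snd_add, LinearMap.add_apply, map_add]; ring)
    (fun c v w => by
      simp only [Prod.smul_fst, Prod.smul_snd, LinearMap.smul_apply, map_smul, smul_eq_mul]; ring)
    (fun v w w' => by
      simp only [Prod.fst_add, Prod.snd_add, LinearMap.add_apply, map_add]; ring)
    (fun c v w => by
      simp only [Prod.smul_fst, Prod.smul_snd, LinearMap.smul_apply, map_smul, smul_eq_mul]; ring)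

theorem B_apply (v w : MM K) : B v w = v.2 w.1 + w.2 v.1 := rfl

theorem B_symm (v w : MM K) : B v w = B w v := add_comm _ _

theorem B_fst (v : MM K) (g : K) : B v (0, dd g) = v.1 g := by simp [B_apply]

theorem B_snd (v : MM K) (D : DD K) : B v (D, 0) = v.2 D := by simp [B_apply]

theorem B_inj : Function.Injective (B : MM K →ₗ[K] Module.Dual K (MM K)) := fun v v' h =>
  Prod.ext (Derivation.ext fun g => by rw [← B_fst, ← B_fst, h])
    (LinearMap.ext fun D => by rw [← B_snd, ← B_snd, h])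

theorem uniq {a b : EE K} (h : ∀ v w, B (a v) w = B (b v) w) : a = b :=
  LinearMap.ext fun v => B_inj (LinearMap.ext (h v))

theorem B_lam (X : DD K) (v w : MM K) : X (B v w) = B (lam X v) w + B v (lam X w) := by
  simp only [B_apply, lam_apply, ld_apply, map_add]
  ring

theorem B_mem {S : Subalgebra ℂ K} {v w : MM K} (hv : v ∈ LL S) (hw : w ∈ LL S) : B v w ∈ S :=
  add_mem (hv.2 _ hw.1) (hw.2 _ hv.1)

variable [FiniteDimensional K (DD K)]

/-- the pairing as an isomorphism -/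
def φ : MM K ≃ₗ[K] Module.Dual K (MM K) :=
  LinearMap.linearEquivOfInjective B B_inj Subspace.dual_finrank_eq.symm

theorem φ_apply (v : MM K) : φ v = B v := rfl

/-- the adjoint -/
def s0 (a : EE K) : EE K := φ.symm.conj a.dualMap

theorem adj (a : EE K) (v w : MM K) : B (s0 a v) w = B v (a w) := by
  rw [← φ_apply, s0, LinearEquiv.conj_apply_apply, LinearEquiv.apply_symm_apply]
  rfl

/-- the adjoint as a linear map -/
def s1 : EE K →ₗ[ℂ] EE K where
  toFun := s0
  map_add' a b := uniq fun v w => by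
    simp only [adj, LinearMap.add_apply, map_add]
  map_smul' c a := uniq fun v w => by
    rw [RingHom.id_apply, adj, LinearMap.smul_apply, LinearMap.smul_apply, lin_c, lin_c,
      LinearMap.smul_apply, adj]

theorem adj1 (a : EE K) (v w : MM K) : B (s1 a v) w = B v (a w) := adj a v w

end STx

open STx in
theorem st : S_ST := by
  intro K ι _ _ _ S x hB
  haveI := hB.fd
  refine ⟨s1, adj1, fun a ha v hv => ⟨fun g hg => ?_, fun D hD => ?_⟩,
    fun a b => uniq fun v w => ?_, fun a => uniq fun v w => ?_, fun X a => uniq fun v w => ?_,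
    fun a => ?_, fun κ e k b => uniq fun v w => ?_⟩
  · rw [← B_fst, adj1]
    exact B_mem hv (ha _ ⟨zero_mem _, dd_mem hg⟩)
  · rw [← B_snd, adj1]
    exact B_mem hv (ha _ ⟨hD, zero_mem _⟩)
  · simp only [End.mul_apply, adj1]
  · rw [adj1, B_symm, adj1, B_symm]
  · have h := B_lam X (s1 a v) w
    rw [adj1, B_lam, adj1] at h
    rw [adj1, del_apply, del_apply, map_sub, map_sub, LinearMap.sub_apply, adj1]
    linear_combination h
  · exact (LinearMap.trace_conj' _ _).trans (LinearMap.trace_transpose' a)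
  · rw [adj1]
    cases b
    · rw [Bool.not_false, pp_false, pp_true]
      simp [B_apply]
    · rw [Bool.not_true, pp_false, pp_true]
      simp [B_apply]

end

end Pool.Agent.MP_51db15_ag.Qh

end

section
/-! The trace of a regular one-form on a field of the Noether normalisation is regular. -/

namespace Pool.Agent.MP_51db15_ag.Qh

noncomputable section

namespace TRFx

section Val

variable {F : Type} [Field F] (v : DV F)

/-- the valuation ring of `v` -/
def vs : ValuationSubring F where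
  toSubring := v.ring
  mem_or_inv_mem' := fun x => by
    by_cases hx : x = 0
    · exact Or.inl (Or.inl hx)
    · have h := v.ord_inv hx
      rcases le_total 0 (v.ord x) with h1 | h1
      · exact Or.inl (Or.inr h1)
      · exact Or.inr (Or.inr (by omega))

theorem mem_vs (x : F) : x ∈ vs v ↔ v.Ge 0 x := Iff.rfl

theorem mem_non (x : F) : x ∈ (vs v).nonunits ↔ v.Ge 1 x := by
  rw [ValuationSubring.mem_nonunits_iff_or, mem_vs]
  by_cases hx : x = 0
  · exact iff_of_true (Or.inl hx) (Or.inl hx)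
  · rw [DV.ge_iff hx, DV.ge_iff (inv_ne_zero hx), v.ord_inv hx, or_iff_right hx]
    omega

theorem unit (x : vs v) (hx : (x : F) ≠ 0) (h : v.ord x = 0) : IsUnit x :=
  IsUnit.of_mul_eq_one ⟨(x : F)⁻¹, Or.inr (by rw [v.ord_inv hx, h]; rfl)⟩
    (Subtype.ext (mul_inv_cancel₀ hx))

theorem dvr : IsDiscreteValuationRing (vs v) := by
  obtain ⟨π, h0, h1⟩ := v.unif
  have key : ∀ a b : vs v, (a : F) * b ≠ 0 →
      0 ≤ v.ord a ∧ 0 ≤ v.ord b ∧ v.ord ((a : F) * b) = v.ord a + v.ord b := fun a b h =>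
    ⟨DV.Ge.le a.2 (left_ne_zero_of_mul h), DV.Ge.le b.2 (right_ne_zero_of_mul h),
      v.ord_mul _ _ (left_ne_zero_of_mul h) (right_ne_zero_of_mul h)⟩
  refine IsDiscreteValuationRing.ofHasUnitMulPowIrreducibleFactorization
    ⟨⟨π, Or.inr (by omega)⟩, ⟨fun hu => ?_, fun a b hab => ?_⟩, fun {x} hx => ?_⟩
  · obtain ⟨b, hb⟩ := hu.exists_right_inv
    have e : π * (b : F) = 1 := congrArg Subtype.val hb
    obtain ⟨_, k2, k3⟩ := key ⟨π, Or.inr (by omega)⟩ b (by rw [e]; exact one_ne_zero)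
    rw [e, v.ord_one, h1] at k3
    omega
  · have e : π = (a : F) * b := congrArg Subtype.val hab
    have hne : (a : F) * b ≠ 0 := e ▸ h0
    obtain ⟨k1, k2, k3⟩ := key a b hne
    rw [← e, h1] at k3
    by_cases ha : v.ord a = 0
    · exact Or.inl (unit v a (left_ne_zero_of_mul hne) ha)
    · exact Or.inr (unit v b (right_ne_zero_of_mul hne) (by omega))
  · have hx' : (x : F) ≠ 0 := fun h => hx (Subtype.ext h)
    have k1 : 0 ≤ v.ord x := DV.Ge.le x.2 hx'
    have hp : π ^ (v.ord x).toNat ≠ 0 := pow_ne_zero _ h0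
    have k2 : v.ord ((x : F) / π ^ (v.ord x).toNat) = 0 := by
      rw [v.ord_div hx' hp, v.ord_pow h0, h1]
      omega
    obtain ⟨u, hu⟩ := unit v ⟨_, Or.inr k2.ge⟩ (div_ne_zero hx' hp) k2
    refine ⟨(v.ord x).toNat, u, Subtype.ext ?_⟩
    rw [hu]
    exact mul_div_cancel₀ _ hp

end Val

theorem main (t : TrvK) (d : S_DVX) {K ι : Type} [Field K] [Algebra ℂ K] [Fintype ι]
    (S A : Subalgebra ℂ K) (x : ι → K) (F : IntermediateField ℂ K) [FiniteDimensional F K]
    (R : Type) [CommRing R] [IsDomain R] [Algebra R F] [IsFractionRing R F] [IsNoetherianRing R]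
    [IsIntegrallyClosed R] (D : DD K) (hB : Bas S x) (hN : Nrm S) (hle : A ≤ S)
    (hI : ∀ g ∈ S, IsIntegral A g) (hA : ∀ g, g ∈ A ↔ ∃ q : R, ((algebraMap R F q : F) : K) = g)
    (hD : ∀ g ∈ A, D g ∈ A) (β : DU K) (hβ : β ∈ TD S) :
    ∃ q : R, algebraMap R F q = Algebra.trace F K (β D) := by
  by_contra hn
  have : CharZero F := charZero_of_injective_algebraMap (algebraMap ℂ F).injective
  obtain ⟨a, b, hb, hab⟩ := IsFractionRing.div_surjective R (Algebra.trace F K (β D))
  have hb0 : b ≠ 0 := nonZeroDivisors.ne_zero hb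
  have hbF : algebraMap R F b ≠ 0 := fun h => hb0 ((IsFractionRing.to_map_eq_zero_iff).1 h)
  obtain ⟨v, P, hP, -, -, hny, h0, h1⟩ := krull_abs (K := F) (⊥ : Submonoid R) hb0
    (y := Algebra.trace F K (β D)) (a := a) (by rw [← hab, mul_div_cancel₀ _ hbF]) (by
      rintro s hs ⟨c, hc⟩
      rw [Submonoid.mem_bot.1 hs, one_mul] at hc
      exact hn ⟨c, by rw [← hab, hc, map_mul, mul_div_cancel_left₀ _ hbF]⟩)
  have := dvr v
  obtain ⟨π, π0, π1⟩ := v.unif
  have hR : ∀ q : R, v.Ge 0 (algebraMap R F q) := fun q =>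
    (h0 _).2 ⟨q, 1, (Ideal.ne_top_iff_one P).1 hP.ne_top, by rw [map_one, div_one]⟩
  have h2 := t.tr F K (vs v) (β ((π : K) • D)) fun V hV => by
    refine d K ι S A x F (vs v) V _ hB hN hle hI hV (fun g hg => ?_) (fun y hy => ?_)
      (fun y hy => ?_) β hβ
    · obtain ⟨q, rfl⟩ := (hA g).1 hg
      exact ⟨_, hR q, rfl⟩
    · obtain ⟨p, s, hs, rfl⟩ := (h0 y).1 hy
      refine ⟨_, (hA _).2 ⟨p, rfl⟩, _, (hA _).2 ⟨s, rfl⟩, fun h => hs ((h1 s).1 ?_), ?_⟩
      · rw [← mem_non, ← hV, ValuationSubring.mem_nonunits_iff_or, ValuationSubring.mem_comap,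
          map_inv₀]
        rw [ValuationSubring.mem_nonunits_iff_or] at h
        exact h.imp_left fun h => Subtype.ext h
      · exact map_div₀ (algebraMap F K) _ _
    · obtain ⟨p, s, hs, rfl⟩ := (h0 y).1 hy
      obtain ⟨p', hp'⟩ := (hA _).1 (hD _ ((hA _).2 ⟨p, rfl⟩))
      obtain ⟨s', hs'⟩ := (hA _).1 (hD _ ((hA _).2 ⟨s, rfl⟩))
      refine ⟨π * (algebraMap R F (s * p' - p * s') / algebraMap R F (s * s)), ?_, ?_⟩
      · rw [mem_non]
        exact DV.Ge.mul_right (Or.inr π1.ge)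
          ((h0 _).2 ⟨_, _, fun h => (hP.mem_or_mem h).elim hs hs, rfl⟩)
      · have e : ((algebraMap R F p / algebraMap R F s : F) : K) =
            (algebraMap R F p : F) / (algebraMap R F s : F) := map_div₀ (algebraMap F K) _ _
        rw [Derivation.smul_apply, e, D.leibniz_div, ← hp', ← hs', map_sub, map_mul, map_mul,
          map_mul]
        simp only [smul_eq_mul]
        push_cast
        ring
  have e : β ((π : K) • D) = π • β D := by rw [map_smul]; rfl
  rw [e, map_smul, mem_non, smul_eq_mul] at h2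
  have h3 := h2.div π0
  rw [π1, mul_div_cancel_left₀ _ π0] at h3
  exact hny h3

end TRFx

theorem trf (t : TrvK) (d : S_DVX) : S_TRF := by
  intro K ι _ _ _ S x M f _ hB hN hf hind hI D hD β hβ
  let φ : MvPolynomial (Fin M) ℂ →ₐ[ℂ] IntermediateField.adjoin ℂ (Set.range f) :=
    MvPolynomial.aeval fun j => ⟨f j, IntermediateField.subset_adjoin _ _ ⟨j, rfl⟩⟩
  have hφ : ∀ q, ((φ q : IntermediateField.adjoin ℂ (Set.range f)) : K) = MvPolynomial.aeval f q :=
    fun q => MvPolynomial.comp_aeval_apply _ (IntermediateField.adjoin ℂ (Set.range f)).val q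
  let _ := φ.toRingHom.toAlgebra
  have hinj : Function.Injective φ := fun p q h => hind (by rw [← hφ, ← hφ, h])
  have : FaithfulSMul (MvPolynomial (Fin M) ℂ) (IntermediateField.adjoin ℂ (Set.range f)) :=
    (faithfulSMul_iff_algebraMap_injective _ _).2 hinj
  have : IsFractionRing (MvPolynomial (Fin M) ℂ) (IntermediateField.adjoin ℂ (Set.range f)) :=
    IsFractionRing.of_field _ _ fun z => by
      obtain ⟨r, s, h⟩ := (IntermediateField.mem_adjoin_range_iff ℂ f z).1 z.2
      refine ⟨r, s, Subtype.ext ?_⟩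
      rw [h, ← hφ, ← hφ]
      rfl
  obtain ⟨q, hq⟩ := TRFx.main t d S (Algebra.adjoin ℂ (Set.range f)) x
    (IntermediateField.adjoin ℂ (Set.range f)) (MvPolynomial (Fin M) ℂ) D hB hN
    (Algebra.adjoin_le (by rintro _ ⟨j, rfl⟩; exact hf j)) hI
    (fun g => by
      rw [Algebra.adjoin_range_eq_range_aeval]
      exact exists_congr fun q => (hφ q).symm.congr_left)
    (fun g hg => by
      induction hg using Algebra.adjoin_induction with
      | mem y hy => obtain ⟨j, rfl⟩ := hy; exact hD j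
      | algebraMap r => rw [D.map_algebraMap]; exact zero_mem _
      | add y z _ _ h1 h2 => rw [map_add]; exact add_mem h1 h2
      | mul y z hy hz h1 h2 => rw [D.leibniz]; exact add_mem (mul_mem hy h2) (mul_mem hz h1))
    β hβ
  exact ⟨q, by rw [← hq, ← hφ]; rfl⟩

end

end Pool.Agent.MP_51db15_ag.Qh

end
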