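import Pool.Agent.MP_51db15_ag.Qh.M1
import Pool.Agent.MP_51db15_ag.Qh.M2
import Pool.Agent.MP_51db15_ag.Qh.M3
import Pool.Agent.MP_51db15_ag.Qh.M4

/-! The rows that both versions use, with their hypotheses discharged. -/

namespace Pool.Agent.MP_51db15_ag.Qh

theorem rEV : S_EV := ev gen (evg gen)

theorem rVTX : S_VTX := vtx gen

theorem rEVF : S_EVF := evf gen (evg gen)

theorem rPOS : S_POS := pos gen (eig lnd)

theorem rSOC : S_SOC :=
  soc (seq (step gen)) (finl gen) ali dual (trf trv (dvx dva)) (cen trv) trs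

theorem rCON : S_CON := con trs lin clo

theorem rPERF : S_PERF := perf (rad gen) tnil

end Pool.Agent.MP_51db15_ag.Qh

/-! The last rows with their hypotheses discharged. -/

namespace Pool.Agent.MP_51db15_ag.Qh

theorem rDEC2 : S_DEC2 := dec2 gen clo (jd3 gen) (kc2 (sig sca))

theorem rSLP2 : S_SLP2 :=
  slp2 bas rEV rVTX rEVF (jd1 gen) (jd2 gen) rPOS rat rDEC2 (val2 sca) rSOC

theorem rEND2 : S_END2 :=
  fend2 bas rEV rVTX rEVF (jd1 gen) (jd2 gen) rPOS rat rDEC2 (fin2 (ham gen))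

theorem rHLTP : S_HLTP := hltp (ltf lta2 ltb) hov

end Pool.Agent.MP_51db15_ag.Qh
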