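import Pool.Agent.MP_51db15_ag.Qh.Spec4
import Pool.Agent.MP_51db15_ag.Nc.Jb
import Pool.Agent.MP_51db15_ag.Nc.Ja

/-! Merged rows: WB WC FA FB JBW JCT AMB LIFT. -/

section
/-! Weighted components and weighted order of power series. -/

set_option linter.unusedSectionVars false

namespace Pool.Agent.MP_51db15_ag.Qh

open MvPowerSeries Hy Nc

variable {ι : Type} [Fintype ι] {a : ι → ℕ}

/-- the component of weight `n`, as a polynomial -/
noncomputable def wh (a : ι → ℕ) (n : ℕ) (g : PS ι) : PP ι :=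
  MvPolynomial.weightedHomogeneousComponent a n (truncTotal (n + 1) g)

namespace WB

theorem degree_le (ha : ∀ i, 0 < a i) (α : ι →₀ ℕ) : Finsupp.degree α ≤ Finsupp.weight a α := by
  rw [Finsupp.degree_eq_sum, Finsupp.weight_eq_sum]
  exact Finset.sum_le_sum fun i _ => by
    rw [smul_eq_mul]
    exact Nat.le_mul_of_pos_right _ (ha i)

theorem weight_le (a : ι → ℕ) (α : ι →₀ ℕ) :
    Finsupp.weight a α ≤ Finsupp.degree α * ∑ j, a j := by
  rw [Finsupp.degree_eq_sum, Finsupp.weight_eq_sum, Finset.sum_mul]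
  exact Finset.sum_le_sum fun i _ => by
    rw [smul_eq_mul]
    exact Nat.mul_le_mul_left _
      (Finset.single_le_sum (fun j _ => Nat.zero_le (a j)) (Finset.mem_univ i))

theorem weight_single (i : ι) : Finsupp.weight a (Finsupp.single i 1) = a i := by
  rw [Finsupp.weight_single, one_smul]

end WB

theorem coeff_wh (ha : ∀ i, 0 < a i) (n : ℕ) (g : PS ι) (α : ι →₀ ℕ) :
    MvPolynomial.coeff α (wh a n g) = if Finsupp.weight a α = n then coeff α g else 0 := by
  rw [wh, MvPolynomial.coeff_weightedHomogeneousComponent]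
  split_ifs with h
  · exact coeff_truncTotal _ (by have := WB.degree_le ha α; omega)
  · rfl

theorem wh_hom (n : ℕ) (g : PS ι) : (wh a n g).IsWeightedHomogeneous a n :=
  MvPolynomial.weightedHomogeneousComponent_isWeightedHomogeneous _ _

theorem coe_wh (ha : ∀ i, 0 < a i) (n : ℕ) (g : PS ι) :
    (wh a n g : PS ι) = weightedHomogeneousComponent a n g := by
  ext α
  rw [MvPolynomial.coeff_coe, coeff_wh ha, coeff_weightedHomogeneousComponent]

theorem wh_coe (ha : ∀ i, 0 < a i) (n : ℕ) (G : PP ι) :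
    wh a n (G : PS ι) = MvPolynomial.weightedHomogeneousComponent a n G := by
  ext α
  rw [coeff_wh ha, MvPolynomial.coeff_coe, MvPolynomial.coeff_weightedHomogeneousComponent]

theorem wh_coe_self (ha : ∀ i, 0 < a i) {n : ℕ} {G : PP ι} (h : G.IsWeightedHomogeneous a n) :
    wh a n (G : PS ι) = G := by
  rw [wh_coe ha, h.weightedHomogeneousComponent_same]

theorem wh_add (n : ℕ) (g h : PS ι) : wh a n (g + h) = wh a n g + wh a n h := by simp [wh]

theorem wh_sub (n : ℕ) (g h : PS ι) : wh a n (g - h) = wh a n g - wh a n h := by simp [wh]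

theorem wh_smul (n : ℕ) (c : ℂ) (g : PS ι) : wh a n (c • g) = c • wh a n g := by simp [wh]

theorem wh_zero (n : ℕ) : wh a n (0 : PS ι) = 0 := by simp [wh]

theorem wh_sum {S : Type} (T : Finset S) (n : ℕ) (g : S → PS ι) :
    wh a n (∑ s ∈ T, g s) = ∑ s ∈ T, wh a n (g s) := by simp [wh]

theorem wo_iff {k : ℤ} {g : PS ι} :
    Wo a k g ↔ ∀ α : ι →₀ ℕ, (Finsupp.weight a α : ℤ) < k → coeff α g = 0 :=
  ⟨fun h α hα => coeff_eq_zero_of_lt_weightedOrder a
    (lt_of_lt_of_le (by exact_mod_cast (by omega : Finsupp.weight a α < k.toNat)) h),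
    fun h => nat_le_weightedOrder a fun α hα => h α (by omega)⟩

theorem wo_nat {n : ℕ} {g : PS ι} : Wo a n g ↔ (n : ℕ∞) ≤ g.weightedOrder a := by
  rw [Wo, Int.toNat_natCast]

theorem wo_succ {n : ℕ} {g : PS ι} : Wo a (n + 1) g ↔ (n : ℕ∞) < g.weightedOrder a := by
  rw [show (n : ℤ) + 1 = ((n + 1 : ℕ) : ℤ) by push_cast; ring, wo_nat, Nat.cast_add, Nat.cast_one,
    ENat.add_one_le_iff (ENat.coe_ne_top n)]

namespace Wo

variable {k l : ℤ} {g h : PS ι}

theorem zero : Wo a k (0 : PS ι) := wo_iff.2 fun _ _ => map_zero _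

theorem top (hk : k ≤ 0) (g : PS ι) : Wo a k g := wo_iff.2 fun _ h => by omega

theorem mono (hg : Wo a k g) (e : l ≤ k) : Wo a l g :=
  wo_iff.2 fun α h => wo_iff.1 hg α (by omega)

theorem add (hg : Wo a k g) (hh : Wo a k h) : Wo a k (g + h) :=
  wo_iff.2 fun α e => by rw [map_add, wo_iff.1 hg α e, wo_iff.1 hh α e, add_zero]

theorem neg (hg : Wo a k g) : Wo a k (-g) :=
  wo_iff.2 fun α e => by rw [map_neg, wo_iff.1 hg α e, neg_zero]

theorem sub (hg : Wo a k g) (hh : Wo a k h) : Wo a k (g - h) := by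
  rw [sub_eq_add_neg]
  exact hg.add hh.neg

theorem smul (hg : Wo a k g) (c : ℂ) : Wo a k (c • g) :=
  wo_iff.2 fun α e => by rw [map_smul, wo_iff.1 hg α e, smul_zero]

theorem sum {S : Type} (T : Finset S) {f : S → PS ι} (hf : ∀ s ∈ T, Wo a k (f s)) :
    Wo a k (∑ s ∈ T, f s) :=
  wo_iff.2 fun α e => by
    rw [map_sum]
    exact Finset.sum_eq_zero fun s hs => wo_iff.1 (hf s hs) α e

theorem mul (hg : Wo a k g) (hh : Wo a l h) : Wo a (k + l) (g * h) :=
  le_trans (le_trans (by exact_mod_cast (by omega : (k + l).toNat ≤ k.toNat + l.toNat))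
    (add_le_add hg hh)) (le_weightedOrder_mul a)

theorem mul_left (hh : Wo a l h) (g : PS ι) : Wo a l (g * h) := by
  simpa using (top le_rfl g).mul hh

theorem pderiv (hg : Wo a k g) (i : ι) : Wo a (k - a i) (pderiv ℂ i g) :=
  wo_iff.2 fun α e => by
    rw [coeff_pderiv, wo_iff.1 hg _ (by rw [map_add, WB.weight_single]; push_cast; omega), zero_mul]

theorem coe {n : ℕ} {G : PP ι} (hG : G.IsWeightedHomogeneous a n) : Wo a n (G : PS ι) :=
  wo_iff.2 fun α e => by rw [MvPolynomial.coeff_coe, hG.coeff_eq_zero _ (by omega)]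

theorem X (i : ι) : Wo a (a i) (X i : PS ι) := by
  rw [← MvPolynomial.coe_X]
  exact coe (MvPolynomial.isWeightedHomogeneous_X ℂ a i)

theorem of_order (ha : ∀ i, 0 < a i) {n : ℕ} (hg : (n : ℕ∞) ≤ g.order) : Wo a n g :=
  wo_iff.2 fun α e => coeff_of_lt_order (lt_of_lt_of_le
    (by exact_mod_cast (by have := WB.degree_le ha α; omega : Finsupp.degree α < n)) hg)

theorem order {r : ℕ} (hg : Wo a ((r * ∑ j, a j + 1 : ℕ) : ℤ) g) : (r : ℕ∞) ≤ g.order :=
  nat_le_order fun α hα => wo_iff.1 hg α (by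
    have := (WB.weight_le a α).trans (Nat.mul_le_mul_right _ hα.le)
    omega)

theorem sub_wh (ha : ∀ i, 0 < a i) {n : ℕ} (hg : Wo a n g) :
    Wo a (n + 1) (g - (wh a n g : PS ι)) :=
  wo_iff.2 fun α e => by
    rw [map_sub, MvPolynomial.coeff_coe, coeff_wh ha]
    split_ifs with h1
    · exact sub_self _
    · rw [sub_zero]
      exact wo_iff.1 hg α (by omega)

theorem wh_eq_zero (ha : ∀ i, 0 < a i) {n : ℕ} (hg : Wo a (n + 1) g) : wh a n g = 0 := by
  ext α
  rw [coeff_wh ha, MvPolynomial.coeff_zero]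
  split_ifs with h1
  · exact wo_iff.1 hg α (by omega)
  · rfl

end Wo

theorem wo_sub_sum (ha : ∀ i, 0 < a i) (n : ℕ) (g : PS ι) :
    Wo a n (g - ∑ k ∈ Finset.range n, (wh a k g : PS ι)) :=
  wo_iff.2 fun α hα => by
    rw [map_sub, map_sum]
    simp only [MvPolynomial.coeff_coe, coeff_wh ha]
    rw [Finset.sum_ite_eq, if_pos (Finset.mem_range.2 (by omega)), sub_self]

theorem WB.order_sub (ha : ∀ i, 0 < a i) (r : ℕ) (g : PS ι) :
    (r : ℕ∞) ≤ (g - ∑ k ∈ Finset.range (r * ∑ j, a j + 1), (wh a k g : PS ι)).order :=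
  (wo_sub_sum ha _ g).order

theorem wh_mul (ha : ∀ i, 0 < a i) {m n : ℕ} {g h : PS ι} (hg : Wo a m g) (hh : Wo a n h) :
    wh a (m + n) (g * h) = wh a m g * wh a n h :=
  MvPolynomial.coe_injective ι ℂ (by
    simp only [MvPolynomial.coe_mul, coe_wh ha]
    exact weightedHomogeneousComponent_mul_of_le_weightedOrder (wo_nat.1 hg) (wo_nat.1 hh))

theorem wh_hom_mul_lt (ha : ∀ i, 0 < a i) {d n : ℕ} {G : PP ι} (h : G.IsWeightedHomogeneous a d)
    (hn : n < d) (g : PS ι) : wh a n ((G : PS ι) * g) = 0 := by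
  rw [mul_comm]
  exact (((Wo.coe h).mul_left g).mono (by omega)).wh_eq_zero ha

theorem wh_hom_mul (ha : ∀ i, 0 < a i) {d : ℕ} {G : PP ι} (h : G.IsWeightedHomogeneous a d) (n : ℕ)
    (g : PS ι) : wh a (d + n) ((G : PS ι) * g) = G * wh a n g := by
  classical
  have e : (G : PS ι) * g = (G : PS ι) * (g - ∑ k ∈ Finset.range n, (wh a k g : PS ι)) +
      ∑ k ∈ Finset.range n, ((G * wh a k g : PP ι) : PS ι) := by
    simp only [MvPolynomial.coe_mul, ← Finset.mul_sum]
    ring
  have z : ∀ {m m' : ℕ} {H : PP ι}, H.IsWeightedHomogeneous a m → m ≠ m' →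
      wh a m' (H : PS ι) = 0 := fun hH hm => by
    rw [wh_coe ha, hH.weightedHomogeneousComponent_ne _ hm.symm]
  rw [e, wh_add, wh_mul ha (Wo.coe h) (wo_sub_sum ha n g), wh_coe_self ha h, wh_sub, wh_sum, wh_sum,
    Finset.sum_eq_zero, Finset.sum_eq_zero, sub_zero, add_zero]
  · exact fun k hk => z (h.mul (wh_hom k g)) (by have := Finset.mem_range.1 hk; omega)
  · exact fun k hk => z (wh_hom k g) (Finset.mem_range.1 hk).ne

/-- weighted homogeneous ideal -/
def HomW (a : ι → ℕ) (J : Ideal (PP ι)) : Prop :=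
  ∀ g ∈ J, ∀ n, MvPolynomial.weightedHomogeneousComponent a n g ∈ J

theorem sum_whc (G : PP ι) : ∃ N : ℕ,
    ∑ n ∈ Finset.range N, MvPolynomial.weightedHomogeneousComponent a n G = G := by
  classical
  refine ⟨G.support.sup (Finsupp.weight a) + 1, ?_⟩
  ext α
  simp only [MvPolynomial.coeff_sum, MvPolynomial.coeff_weightedHomogeneousComponent]
  rw [Finset.sum_ite_eq]
  split_ifs with h
  · rfl
  · by_contra h1
    exact h (Finset.mem_range.2 (Nat.lt_succ_of_le
      (Finset.le_sup (MvPolynomial.mem_support_iff.2 (Ne.symm h1)))))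

namespace WB

variable {J : Ideal (PP ι)}

theorem of_comp {G : PP ι} (h : ∀ n, MvPolynomial.weightedHomogeneousComponent a n G ∈ J) :
    G ∈ J := by
  obtain ⟨N, e⟩ := sum_whc (a := a) G
  rw [← e]
  exact Ideal.sum_mem _ fun n _ => h n

theorem mem_hat (ha : ∀ i, 0 < a i) (hJ : HomW a J) {g : PS ι} :
    g ∈ J.map (co ι) ↔ ∀ n, wh a n g ∈ J := by
  constructor
  · intro hg
    have key : ∀ s : PS ι, ∀ n, wh a n (g * s) ∈ J := by
      induction hg using Submodule.span_induction with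
      | mem x hx =>
        obtain ⟨G, hG, rfl⟩ := hx
        intro s n
        obtain ⟨N, e⟩ := sum_whc (a := a) G
        rw [← e, map_sum, Finset.sum_mul, wh_sum]
        refine Ideal.sum_mem _ fun d _ => ?_
        have h1 := MvPolynomial.weightedHomogeneousComponent_isWeightedHomogeneous (w := a) d G
        rcases lt_or_ge n d with h2 | h2
        · rw [co_apply, wh_hom_mul_lt ha h1 h2]
          exact J.zero_mem
        · obtain ⟨k, rfl⟩ := Nat.exists_eq_add_of_le h2
          rw [co_apply, wh_hom_mul ha h1]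
          exact Ideal.mul_mem_right _ _ (hJ G hG d)
      | zero => intro s n; rw [zero_mul, wh_zero]; exact J.zero_mem
      | add x y _ _ hx hy => intro s n; rw [add_mul, wh_add]; exact J.add_mem (hx s n) (hy s n)
      | smul c x _ hx => intro s n; rw [smul_eq_mul, mul_comm c, mul_assoc]; exact hx _ n
    simpa using key 1
  · intro h
    exact mem_ideal_of_approx _ fun r => ⟨_, Ideal.sum_mem _ fun k _ =>
      Ideal.mem_map_of_mem (co ι) (h k), order_sub ha r g⟩

theorem coe_mem_hat (ha : ∀ i, 0 < a i) (hJ : HomW a J) {G : PP ι} :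
    (G : PS ι) ∈ J.map (co ι) ↔ G ∈ J :=
  ⟨fun h => of_comp fun n => wh_coe ha n G ▸ (mem_hat ha hJ).1 h n, Ideal.mem_map_of_mem (co ι)⟩

theorem exists_first (ha : ∀ i, 0 < a i) {g : PS ι} (hg : g ∉ J.map (co ι)) (hJ : HomW a J) :
    ∃ (n : ℕ) (g' : PS ι), g - g' ∈ J.map (co ι) ∧ Wo a n g' ∧ wh a n g' ∉ J := by
  classical
  have h : ∃ n, wh a n g ∉ J := by
    by_contra h
    push Not at h
    exact hg ((mem_hat ha hJ).2 h)
  refine ⟨Nat.find h, _, ?_, wo_sub_sum ha (Nat.find h) g, ?_⟩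
  · rw [sub_sub_cancel]
    exact Ideal.sum_mem _ fun k hk => Ideal.mem_map_of_mem (co ι)
      (not_not.1 (Nat.find_min h (Finset.mem_range.1 hk)))
  · rw [wh_sub, wh_sum, Finset.sum_eq_zero, sub_zero]
    · exact Nat.find_spec h
    · intro k hk
      rw [wh_coe ha, (wh_hom k g).weightedHomogeneousComponent_ne _ (Finset.mem_range.1 hk).ne']

theorem hat_prime (ha : ∀ i, 0 < a i) (hJ : HomW a J) (hp : J.IsPrime) :
    (J.map (co ι)).IsPrime := by
  refine ⟨fun h => hp.ne_top ((Ideal.eq_top_iff_one _).2 ?_), fun {g h} hgh => ?_⟩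
  · refine (coe_mem_hat ha hJ).1 ?_
    rw [h]
    trivial
  · by_contra hc'
    push Not at hc'
    obtain ⟨m, g', g1, g2, g3⟩ := exists_first ha hc'.1 hJ
    obtain ⟨n, h', h1, h2, h3⟩ := exists_first ha hc'.2 hJ
    have h4 : g' * h' ∈ J.map (co ι) := by
      have e : g' * h' = g * h - (g - g') * h - g' * (h - h') := by ring
      rw [e]
      exact sub_mem (sub_mem hgh (Ideal.mul_mem_right _ _ g1)) (Ideal.mul_mem_left _ _ h1)
    have h5 := (mem_hat ha hJ).1 h4 (m + n)
    rw [wh_mul ha g2 h2] at h5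
    exact (hp.mem_or_mem h5).elim g3 h3

end WB

end Pool.Agent.MP_51db15_ag.Qh

end

section
/-! The weighted tangent cone and the weighted order filtration. -/

set_option linter.unusedSectionVars false

namespace Pool.Agent.MP_51db15_ag.Qh

open MvPowerSeries Hy Nc

namespace WCx

variable {ι R : Type} [Fintype ι] [CommRing R] [Algebra ℂ R] {a : ι → ℕ}

/-- the weighted order filtration -/
def fil (q : PS ι →ₐ[ℂ] R) (hq : Function.Surjective q) (a : ι → ℕ) (k : ℤ) : Ideal R where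
  carrier := {r | ∃ g, Wo a k g ∧ q g = r}
  zero_mem' := ⟨0, Wo.zero, map_zero _⟩
  add_mem' := by
    rintro _ _ ⟨g, hg, rfl⟩ ⟨h, hh, rfl⟩
    exact ⟨g + h, hg.add hh, map_add _ _ _⟩
  smul_mem' := by
    rintro c _ ⟨g, hg, rfl⟩
    obtain ⟨s, rfl⟩ := hq c
    exact ⟨s * g, hg.mul_left s, by rw [map_mul, smul_eq_mul]⟩

theorem mem_fil {q : PS ι →ₐ[ℂ] R} {hq : Function.Surjective q} {k : ℤ} {r : R} :
    r ∈ fil q hq a k ↔ ∃ g, Wo a k g ∧ q g = r := Iff.rfl

variable {q : PS ι →ₐ[ℂ] R} {hq : Function.Surjective q} {I : Ideal (PS ι)}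

theorem of_fil (hI : ∀ g, q g = 0 ↔ g ∈ I) {d : ℕ} {G : PP ι} (hG : G.IsWeightedHomogeneous a d)
    (h : q (G : PS ι) ∈ fil q hq a (d + 1)) : G ∈ wCone a I := by
  obtain ⟨g, hg, e⟩ := mem_fil.1 h
  refine Ideal.subset_span ⟨d, hG, (G : PS ι) - g, (hI _).1 (by rw [map_sub, e, sub_self]), ?_⟩
  rw [sub_sub_cancel_left]
  exact wo_succ.1 hg.neg

theorem to_fil (ha : ∀ i, 0 < a i) (hI : ∀ g, q g = 0 ↔ g ∈ I) {G : PP ι} (hG : G ∈ wCone a I) :
    ∀ (s : PS ι) (n : ℕ), q (wh a n ((G : PS ι) * s) : PS ι) ∈ fil q hq a (n + 1) := by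
  induction hG using Submodule.span_induction with
  | mem x hx =>
    obtain ⟨d, hd, f, hf, ho⟩ := hx
    intro s n
    rcases lt_or_ge n d with h3 | h3
    · rw [wh_hom_mul_lt ha hd h3, MvPolynomial.coe_zero, map_zero]
      exact zero_mem _
    · obtain ⟨k, rfl⟩ := Nat.exists_eq_add_of_le h3
      rw [wh_hom_mul ha hd, MvPolynomial.coe_mul]
      refine mem_fil.2 ⟨-(f - (x : PS ι)) * (wh a k s : PS ι), ?_, ?_⟩
      · exact ((wo_succ.2 ho).neg.mul (Wo.coe (wh_hom k s))).mono (by push_cast; omega)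
      · rw [map_mul, map_mul, map_neg, map_sub, (hI f).2 hf, zero_sub, neg_neg]
  | zero =>
    intro s n
    rw [MvPolynomial.coe_zero, zero_mul, wh_zero, MvPolynomial.coe_zero, map_zero]
    exact zero_mem _
  | add x y _ _ hx hy =>
    intro s n
    rw [MvPolynomial.coe_add, add_mul, wh_add, MvPolynomial.coe_add, map_add]
    exact add_mem (hx s n) (hy s n)
  | smul c x _ hx =>
    intro s n
    rw [smul_eq_mul, MvPolynomial.coe_mul, mul_comm (c : PS ι), mul_assoc]
    exact hx _ n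

end WCx

theorem wc : S_WC := by
  intro ι K _ _ _ _ a I φ ha hφ
  have hq : Function.Surjective (Ideal.Quotient.mkₐ ℂ I) := Ideal.Quotient.mkₐ_surjective ℂ I
  have hI : ∀ g, Ideal.Quotient.mkₐ ℂ I g = 0 ↔ g ∈ I := fun g => Ideal.Quotient.eq_zero_iff_mem
  have hk : ∀ G, φ G = 0 ↔ G ∈ wCone a I := fun G => by rw [← hφ, RingHom.mem_ker]
  refine ⟨WCx.fil _ hq a, ⟨_, hq, rfl⟩, ha, fun g hg n => (hk _).2 (WCx.of_fil (hq := hq) hI
    (MvPolynomial.weightedHomogeneousComponent_isWeightedHomogeneous n g) ?_),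
    fun d G hG => ⟨fun h => ?_, fun h => (hk _).2 (WCx.of_fil hI hG h)⟩, fun _ _ => Iff.rfl⟩
  · have h3 := WCx.to_fil (hq := hq) ha hI ((hk _).1 hg) 1 n
    rwa [mul_one, wh_coe ha] at h3
  · have h4 := WCx.to_fil (hq := hq) ha hI ((hk _).1 h) 1 d
    rwa [mul_one, wh_coe_self ha hG] at h4

end Pool.Agent.MP_51db15_ag.Qh

end

section
/-! PROJECT SD, row FA: the weighted order filtration. -/

namespace Pool.Agent.MP_51db15_ag.Qh

open MvPowerSeries

namespace FAx

variable {ι : Type} {a : ι → ℕ} {k l : ℤ} {g h : MvPowerSeries ι ℂ}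

theorem iff : Wo a k g ↔ ∀ α : ι →₀ ℕ, ((Finsupp.weight a α : ℕ) : ℤ) < k → coeff α g = 0 := by
  constructor
  · intro h α hα
    refine coeff_eq_zero_of_lt_weightedOrder a (lt_of_lt_of_le ?_ h)
    exact_mod_cast (by omega : Finsupp.weight a α < k.toNat)
  · intro h
    exact nat_le_weightedOrder a fun α hα => h α (by omega)

theorem mono (hg : Wo a k g) (h : l ≤ k) : Wo a l g :=
  iff.2 fun α hα => iff.1 hg α (by omega)

theorem top (h : k ≤ 0) (g : MvPowerSeries ι ℂ) : Wo a k g :=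
  iff.2 fun α hα => by omega

theorem mul (hg : Wo a k g) (hh : Wo a l h) : Wo a (k + l) (g * h) := by
  refine le_trans ?_ (le_trans (add_le_add hg hh) (le_weightedOrder_mul a))
  exact_mod_cast (by omega : (k + l).toNat ≤ k.toNat + l.toNat)

theorem gen (a : ι → ℕ) (i : ι) : Wo a (a i) (X i : MvPowerSeries ι ℂ) := by
  classical
  refine iff.2 fun α hα => ?_
  rw [coeff_X, if_neg]
  rintro rfl
  simp [Finsupp.weight_single] at hα

theorem der (hg : Wo a k g) (i : ι) : Wo a (k - a i) (pderiv ℂ i g) := by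
  refine iff.2 fun α hα => ?_
  rw [coeff_pderiv, iff.1 hg, zero_mul]
  rw [map_add, Finsupp.weight_single, one_smul]
  push_cast
  omega

theorem weight_le [Fintype ι] (a : ι → ℕ) (α : ι →₀ ℕ) :
    Finsupp.weight a α ≤ Finsupp.degree α * (∑ i, a i + 1) := by
  rw [Finsupp.weight_apply, Finsupp.degree_apply, Finsupp.sum, Finset.sum_mul]
  refine Finset.sum_le_sum fun i _ => ?_
  rw [smul_eq_mul]
  exact Nat.mul_le_mul_left _ (Nat.le_succ_of_le
    (Finset.single_le_sum (f := a) (fun _ _ => Nat.zero_le _) (Finset.mem_univ i)))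

theorem ord [Fintype ι] {n : ℕ} (hg : Wo a ((n * (∑ i, a i + 1) : ℕ) : ℤ) g) :
    (n : ℕ∞) ≤ g.order :=
  nat_le_order fun α hα => iff.1 hg α (by
    have h1 := weight_le a α
    have h2 : Finsupp.degree α * (∑ i, a i + 1) < n * (∑ i, a i + 1) :=
      Nat.mul_lt_mul_of_pos_right hα (Nat.succ_pos _)
    exact_mod_cast lt_of_le_of_lt h1 h2)

theorem cpl (k : ℤ) (g : ℕ → MvPowerSeries ι ℂ) (hg : ∀ n : ℕ, Wo a (k + n) (g n)) :
    ∃ s : MvPowerSeries ι ℂ, ∀ N : ℕ, Wo a (k + N) (s - ∑ n ∈ Finset.range N, g n) := by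
  obtain ⟨s, hs⟩ : ∃ s : MvPowerSeries ι ℂ, ∀ α, coeff α s =
      ∑ n ∈ Finset.range (((Finsupp.weight a α : ℕ) : ℤ) - k + 1).toNat, coeff α (g n) :=
    ⟨fun α => ∑ n ∈ Finset.range (((Finsupp.weight a α : ℕ) : ℤ) - k + 1).toNat, coeff α (g n),
      fun _ => rfl⟩
  refine ⟨s, fun N => iff.2 fun α hα => ?_⟩
  rw [map_sub, map_sum, sub_eq_zero, hs]
  refine Finset.sum_subset (Finset.range_subset_range.2 (by omega)) fun n _ hn => ?_
  rw [Finset.mem_range] at hn
  exact iff.1 (hg n) α (by omega)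

end FAx

theorem fa : S_FA := by
  intro ι K R _ _ _ _ _ _ _ q a φ F h
  obtain ⟨m, hm⟩ := h.pres
  have hq : ∀ {k g}, Wo a k g → q g ∈ F k := fun hg => (h.fil _ _).2 ⟨_, hg, rfl⟩
  have hmul : ∀ i j, ∀ r ∈ F i, ∀ s ∈ F j, r * s ∈ F (i + j) := fun i j r hr s hs => by
    obtain ⟨g, hg, rfl⟩ := (h.fil _ _).1 hr
    obtain ⟨g', hg', rfl⟩ := (h.fil _ _).1 hs
    rw [← map_mul]
    exact hq (FAx.mul hg hg')
  refine ⟨fun k l hkl r hr => ?_, fun k hk => ?_, hmul, fun r hr => ?_, fun k r hr => ?_,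
    fun i => hq (FAx.gen a i), fun D p hD k r hr => ?_, fun D hD => ?_⟩
  · obtain ⟨g, hg, rfl⟩ := (h.fil _ _).1 hr
    exact hq (FAx.mono hg hkl)
  · rw [Ideal.eq_top_iff_one, ← map_one q]
    exact hq (FAx.top hk 1)
  · refine hm.sep fun n => ?_
    obtain ⟨g, hg, rfl⟩ := (h.fil _ _).1 (hr ((n * (∑ i, a i + 1) : ℕ) : ℤ))
    exact hm.q_mem (FAx.ord hg)
  · choose g hg e using fun n => (h.fil _ _).1 (hr n)
    obtain ⟨s, hs⟩ := FAx.cpl k g hg
    refine ⟨q s, fun N => ?_⟩
    have h1 := hq (hs N)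
    rw [map_sub, map_sum] at h1
    simpa only [e] using h1
  · obtain ⟨g, hg, rfl⟩ := (h.fil _ _).1 hr
    rw [hm.chain D g]
    refine Ideal.sum_mem _ fun i _ => ?_
    have h1 := hmul _ _ _ (hq (FAx.der hg i)) _ (hD i)
    rwa [show k - a i + (a i + p) = k + p by ring] at h1
  · exact hm.der_ext hD

end Pool.Agent.MP_51db15_ag.Qh

end

section
/-! PROJECT SD, row FB: the symbols. -/

namespace Pool.Agent.MP_51db15_ag.Qh

open Module

noncomputable section

namespace FBx

theorem fac {U V W : Type} [AddCommGroup U] [Module ℂ U] [AddCommGroup V] [Module ℂ V]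
    [AddCommGroup W] [Module ℂ W] (f : U →ₗ[ℂ] V) (g : U →ₗ[ℂ] W) (h : ∀ u, f u = 0 → g u = 0) :
    ∃ t : V →ₗ[ℂ] W, ∀ u, t (f u) = g u := by
  obtain ⟨l, hl⟩ := LinearMap.exists_leftInverse_of_injective
    ((LinearMap.ker f).liftQ f le_rfl) (Submodule.ker_liftQ_eq_bot _ _ _ le_rfl)
  refine ⟨(LinearMap.ker f).liftQ g (fun u hu => h u hu) ∘ₗ l, fun u => ?_⟩
  have e : l (f u) = Submodule.Quotient.mk u := LinearMap.congr_fun hl (Submodule.Quotient.mk u)
  rw [LinearMap.comp_apply, e, Submodule.liftQ_apply]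

variable {ι K R : Type} [Field K] [Algebra ℂ K] [CommRing R] [Algebra ℂ R] {a : ι → ℕ}

theorem wo_iff {k : ℤ} {g : MvPowerSeries ι ℂ} :
    Wo a k g ↔ ∀ m, Finsupp.weight a m < k.toNat → MvPowerSeries.coeff m g = 0 :=
  ⟨fun h _ hm => MvPowerSeries.coeff_eq_zero_of_lt_weightedOrder a
    (lt_of_lt_of_le (by exact_mod_cast hm) h), MvPowerSeries.nat_le_weightedOrder a⟩

theorem wo_mul {i j : ℤ} {g h : MvPowerSeries ι ℂ} (hg : Wo a i g) (hh : Wo a j h) :
    Wo a (i + j) (g * h) := by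
  refine le_trans ?_ ((add_le_add hg hh).trans (MvPowerSeries.le_weightedOrder_mul a))
  exact_mod_cast (show (i + j).toNat ≤ i.toNat + j.toNat by omega)

theorem wo_hom {d : ℕ} {G : MvPolynomial ι ℂ} (hG : G.IsWeightedHomogeneous a d) :
    Wo a d (G : MvPowerSeries ι ℂ) := by
  refine wo_iff.2 fun m hm => ?_
  rw [MvPolynomial.coeff_coe]
  by_contra h
  have := hG h
  omega

theorem wo_dec [Fintype ι] (ha : ∀ i, 0 < a i) {d : ℕ} {g : MvPowerSeries ι ℂ} (hg : Wo a d g) :
    ∃ G : MvPolynomial ι ℂ, G.IsWeightedHomogeneous a d ∧ Wo a (d + 1) (g - G) := by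
  classical
  have hf := Finsupp.finite_of_nat_weight_eq a (fun i => (ha i).ne') d
  refine ⟨∑ m ∈ hf.toFinset, MvPolynomial.monomial m (MvPowerSeries.coeff m g),
    MvPolynomial.IsWeightedHomogeneous.sum _ _ _ fun m hm =>
      MvPolynomial.isWeightedHomogeneous_monomial _ _ _ (hf.mem_toFinset.1 hm),
    wo_iff.2 fun m hm => ?_⟩
  rw [map_sub, MvPolynomial.coeff_coe, MvPolynomial.coeff_sum]
  simp_rw [MvPolynomial.coeff_monomial]
  rw [Finset.sum_ite_eq']
  split_ifs with h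
  · exact sub_self _
  · rw [sub_zero]
    have h' : Finsupp.weight a m ≠ d := fun e => h (hf.mem_toFinset.2 e)
    exact wo_iff.1 hg m (by omega)

variable {φ : MvPolynomial ι ℂ →ₐ[ℂ] K} {E : DD K}

theorem eul_mon (hE : ∀ i, E (φ (.X i)) = (a i : ℂ) • φ (.X i)) (m : ι →₀ ℕ) (c : ℂ) :
    E (φ (MvPolynomial.monomial m c)) =
      (Finsupp.weight a m : ℂ) • φ (MvPolynomial.monomial m c) := by
  induction m using Finsupp.induction_linear generalizing c with
  | zero =>
    rw [MvPolynomial.monomial_zero', MvPolynomial.algHom_C, Derivation.map_algebraMap]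
    simp
  | add m m' h h' =>
    rw [← mul_one c, ← MvPolynomial.monomial_mul, map_mul, Derivation.leibniz, h, h', map_add]
    simp only [smul_eq_mul, Nat.cast_add, add_smul, mul_smul_comm]
    ring_nf
  | single i n =>
    rw [← MvPolynomial.C_mul_X_pow_eq_monomial, map_mul, MvPolynomial.algHom_C, map_pow,
      ← Algebra.smul_def, Derivation.map_smul, Derivation.leibniz_pow, hE, Finsupp.weight_single]
    rcases n with _ | n
    · simp
    · simp only [nsmul_eq_mul, smul_eq_mul, Nat.add_sub_cancel]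
      simp only [Algebra.smul_def, map_natCast]
      push_cast
      ring

theorem eul (hE : ∀ i, E (φ (.X i)) = (a i : ℂ) • φ (.X i)) {d : ℕ} {G : MvPolynomial ι ℂ}
    (hG : G.IsWeightedHomogeneous a d) : E (φ G) = (d : ℂ) • φ G := by
  rw [G.as_sum, map_sum, map_sum, Finset.smul_sum]
  refine Finset.sum_congr rfl fun m hm => ?_
  rw [eul_mon hE, hG (MvPolynomial.mem_support_iff.1 hm)]

theorem comp (hE : ∀ i, E (φ (.X i)) = (a i : ℂ) • φ (.X i)) (k : ℤ) (G : MvPolynomial ι ℂ) :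
    ∃ G' : MvPolynomial ι ℂ, G'.IsWeightedHomogeneous a k.toNat ∧ (k < 0 → G' = 0) ∧
      φ G - φ G' ∈ ⨆ (c : ℂ) (_ : c ≠ (k : ℂ)), (op E).eigenspace c := by
  induction G using MvPolynomial.induction_on' with
  | monomial m c =>
    by_cases h : (Finsupp.weight a m : ℤ) = k
    · refine ⟨MvPolynomial.monomial m c,
        MvPolynomial.isWeightedHomogeneous_monomial _ _ _ (by omega), fun hk => by omega, ?_⟩
      rw [sub_self]
      exact zero_mem _
    · refine ⟨0, MvPolynomial.isWeightedHomogeneous_zero _ _ _, fun _ => rfl, ?_⟩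
      rw [map_zero, sub_zero]
      refine Submodule.mem_iSup_of_mem (Finsupp.weight a m : ℂ) (Submodule.mem_iSup_of_mem ?_ ?_)
      · intro e
        exact h (by exact_mod_cast e)
      · exact End.mem_eigenspace_iff.2 (eul_mon hE m c)
  | add G H hG hH =>
    obtain ⟨G', g1, g2, g3⟩ := hG
    obtain ⟨H', h1, h2, h3⟩ := hH
    refine ⟨G' + H', g1.add h1, fun hk => by rw [g2 hk, h2 hk, add_zero], ?_⟩
    rw [map_add, map_add, add_sub_add_comm]
    exact add_mem g3 h3

end FBx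

open FBx in
theorem fb : S_FB := by
  intro ι K R _ _ _ _ _ _ _ q a φ F E W hE
  have anti : ∀ {i j : ℤ} {r : R}, r ∈ F i → j.toNat ≤ i.toNat → r ∈ F j := fun hr h => by
    obtain ⟨g, g1, g2⟩ := (W.fil _ _).1 hr
    exact (W.fil _ _).2 ⟨g, le_trans (by exact_mod_cast h) g1, g2⟩
  have mul : ∀ {i j : ℤ} {r s : R}, r ∈ F i → s ∈ F j → r * s ∈ F (i + j) := fun hr hs => by
    obtain ⟨g, g1, g2⟩ := (W.fil _ _).1 hr
    obtain ⟨h, h1, h2⟩ := (W.fil _ _).1 hs
    exact (W.fil _ _).2 ⟨g * h, wo_mul g1 h1, by rw [map_mul, g2, h2]⟩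
  have hom : ∀ {d : ℕ} {G : MvPolynomial ι ℂ}, G.IsWeightedHomogeneous a d →
      q (G : MvPowerSeries ι ℂ) ∈ F d := fun hG => (W.fil _ _).2 ⟨_, wo_hom hG, rfl⟩
  have dec : ∀ {d : ℕ} {r : R}, r ∈ F d → ∃ (G : MvPolynomial ι ℂ) (s : R),
      G.IsWeightedHomogeneous a d ∧ s ∈ F (d + 1) ∧ r = q (G : MvPowerSeries ι ℂ) + s := by
    intro d r hr
    obtain ⟨g, g1, g2⟩ := (W.fil _ _).1 hr
    obtain ⟨G, h1, h2⟩ := wo_dec W.pos g1
    exact ⟨G, q (g - G), h1, (W.fil _ _).2 ⟨_, h2, rfl⟩, by rw [map_sub, g2, add_sub_cancel]⟩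
  have ex : ∀ d : ℕ, ∃ t : R →ₗ[ℂ] K, ∀ G : MvPolynomial ι ℂ, G.IsWeightedHomogeneous a d →
      ∀ s ∈ F (d + 1), t (q (G : MvPowerSeries ι ℂ) + s) = φ G := by
    intro d
    obtain ⟨t, ht⟩ := fac
      (((q.comp (MvPolynomial.coeToMvPowerSeries.algHom ℂ)).toLinearMap ∘ₗ
        (MvPolynomial.weightedHomogeneousSubmodule ℂ a d).subtype).coprod
        ((F (d + 1)).restrictScalars ℂ).subtype)
      ((φ.toLinearMap ∘ₗ (MvPolynomial.weightedHomogeneousSubmodule ℂ a d).subtype).coprod 0)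
      (fun u hu => by
        have h1 : q (u.1.1 : MvPowerSeries ι ℂ) + u.2.1 = 0 := by simpa using hu
        have h2 : φ u.1.1 = 0 := (W.mem d u.1.1 u.1.2).2 (by
          rw [eq_neg_of_add_eq_zero_left h1]
          exact neg_mem u.2.2)
        simpa using h2)
    refine ⟨t, fun G hG s hs => ?_⟩
    simpa using ht (⟨G, hG⟩, ⟨s, hs⟩)
  choose t ht using ex
  let σ : ℤ → R →ₗ[ℂ] K := fun k => if 0 ≤ k then t k.toNat else 0
  have s1 : ∀ d : ℕ, σ d = t d := fun d => by simp [σ]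
  have s2 : ∀ k < 0, σ k = 0 := fun k hk => if_neg (by omega)
  have s3 : ∀ k, ∀ r ∈ F (k + 1), σ k r = 0 := fun k r hr => by
    rcases lt_or_ge k 0 with hk | hk
    · rw [s2 k hk, LinearMap.zero_apply]
    · lift k to ℕ using hk
      simpa [s1] using ht k 0 (MvPolynomial.isWeightedHomogeneous_zero _ _ _) r hr
  have s4 : ∀ (d : ℕ) (G : MvPolynomial ι ℂ), G.IsWeightedHomogeneous a d →
      σ d (q (G : MvPowerSeries ι ℂ)) = φ G := fun d G hG => by
    simpa [s1] using ht d G hG 0 (zero_mem _)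
  refine ⟨σ, ⟨fun k r hr => ?_, fun k r hr => ⟨fun h => ?_, s3 k r⟩, fun i j r hr s hs => ?_,
    fun k g hg hk => ?_, fun i => ?_⟩, fun d G g hG hg => ?_⟩
  · rcases lt_or_ge k 0 with hk | hk
    · simp [s2 k hk]
    · lift k to ℕ using hk
      obtain ⟨G, s, h1, h2, rfl⟩ := dec hr
      rw [s1, ht k G h1 s h2, eul hE h1]
      exact ⟨⟨G, rfl⟩, by simp⟩
  · rcases lt_or_ge k 0 with hk | hk
    · exact anti hr (by omega)
    · lift k to ℕ using hk
      obtain ⟨G, s, h1, h2, rfl⟩ := dec hr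
      rw [s1, ht k G h1 s h2] at h
      exact add_mem ((W.mem k G h1).1 h) h2
  · rcases lt_or_ge i 0 with hi | hi
    · rw [s2 i hi, LinearMap.zero_apply, zero_mul]
      exact s3 _ _ (anti (mul (anti hr (show (i + 1).toNat ≤ _ by omega)) hs) (by omega))
    rcases lt_or_ge j 0 with hj | hj
    · rw [s2 j hj, LinearMap.zero_apply, mul_zero]
      exact s3 _ _ (anti (mul hr (anti hs (show (j + 1).toNat ≤ _ by omega))) (by omega))
    lift i to ℕ using hi
    lift j to ℕ using hj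
    obtain ⟨G, u, h1, h2, rfl⟩ := dec hr
    obtain ⟨H, v, h3, h4, rfl⟩ := dec hs
    have e : (q (G : MvPowerSeries ι ℂ) + u) * (q (H : MvPowerSeries ι ℂ) + v) =
        q ((G * H : MvPolynomial ι ℂ) : MvPowerSeries ι ℂ) +
          (q (G : MvPowerSeries ι ℂ) * v + u * (q (H : MvPowerSeries ι ℂ) + v)) := by
      rw [MvPolynomial.coe_mul, map_mul]
      ring
    rw [e, ← Nat.cast_add, s1, s1, s1, ht i G h1 u h2, ht j H h3 v h4, ← map_mul]
    exact ht _ _ (h1.mul h3) _ (add_mem (anti (mul (hom h1) h4) (by omega))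
      (anti (mul h2 hs) (by omega)))
  · obtain ⟨G, rfl⟩ := hg
    obtain ⟨G', h1, h2, h3⟩ := comp hE k G
    have h4 : φ G' ∈ (op E).eigenspace (k : ℂ) := by
      rcases lt_or_ge k 0 with h | h
      · rw [h2 h, map_zero]
        exact zero_mem _
      · lift k to ℕ using h
        exact End.mem_eigenspace_iff.2 (by simpa using eul hE h1)
    have h5 : φ G - φ G' = 0 := Submodule.disjoint_def.1 ((op E).eigenspaces_iSupIndep (k : ℂ)) _
      (sub_mem (End.mem_eigenspace_iff.2 hk) h4) h3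
    refine ⟨q (G' : MvPowerSeries ι ℂ), anti (hom h1) (by omega), ?_⟩
    change _ = φ G
    rw [sub_eq_zero.1 h5]
    rcases lt_or_ge k 0 with h | h
    · rw [s2 k h, h2 h, map_zero, LinearMap.zero_apply]
    · lift k to ℕ using h
      exact s4 k G' h1
  · simpa using s4 (a i) _ (MvPolynomial.isWeightedHomogeneous_X ℂ a i)
  · rw [s1, show q g = q (G : MvPowerSeries ι ℂ) + q (g - G) by rw [map_sub, add_sub_cancel]]
    exact ht d G hG _ ((W.fil _ _).2 ⟨_, hg, rfl⟩)

end

end Pool.Agent.MP_51db15_ag.Qh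

end

section
/-! Row JBW: weighted homogeneous Jacobian data. -/

namespace Pool.Agent.MP_51db15_ag.Qh

open MvPowerSeries Matrix Hy Nc Nc.Jb

namespace JBWx

variable {ι : Type} [Fintype ι] [DecidableEq ι] {a : ι → ℕ}

theorem step (ha : ∀ i, 0 < a i) (Q : Ideal (PS ι)) (w : ι → PS ι) (i : ι)
    (h : (jac w).det ∉ Q) : ∃ n, (jac (Function.update w i (wh a n (w i) : PS ι))).det ∉ Q := by
  by_contra h1
  push Not at h1
  simp only [det_update] at h1
  rw [← Function.update_eq_self i w, det_update] at h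
  refine h (mem_ideal_of_approx Q fun r => ⟨_, Q.sum_mem
    (t := Finset.range ((r + 1) * ∑ j, a j + 1)) fun k _ => h1 k, ?_⟩)
  rw [← map_sum, ← map_sub, vf_apply]
  exact mem_pow_iff_order.1 (Ideal.sum_mem _ fun j _ => Ideal.mul_mem_left _ _
    (mem_pow_iff_order.2 (le_order_pderiv (WB.order_sub ha (r + 1) (w i)) j)))

theorem homog (ha : ∀ i, 0 < a i) (Q : Ideal (PS ι)) (w : ι → PS ι) (h : (jac w).det ∉ Q)
    (T : Finset ι) :
    ∃ n : ι → ℕ, (jac fun i => if i ∈ T then (wh a (n i) (w i) : PS ι) else w i).det ∉ Q := by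
  induction T using Finset.induction_on with
  | empty => exact ⟨0, by simpa using h⟩
  | insert i T hi ih =>
    obtain ⟨n, hn⟩ := ih
    obtain ⟨k, hk⟩ := step ha Q _ i hn
    refine ⟨Function.update n i k, ?_⟩
    have e : (fun j => if j ∈ insert i T then (wh a (Function.update n i k j) (w j) : PS ι)
        else w j) = Function.update (fun j => if j ∈ T then (wh a (n j) (w j) : PS ι) else w j) i
          (wh a k (if i ∈ T then (wh a (n i) (w i) : PS ι) else w i) : PS ι) := by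
      funext j
      by_cases e : j = i
      · subst e
        simp [hi]
      · simp [e]
    rw [e]
    exact hk

omit [DecidableEq ι] in
theorem wh_span (ha : ∀ i, 0 < a i) (σ : Finset ι) (w : ι → PP ι) (n : ι → ℕ)
    (hw : ∀ i, (w i).IsWeightedHomogeneous a (n i)) {g : PS ι}
    (hg : g ∈ Ideal.span ((fun i => (w i : PS ι)) '' σ)) (k : ℕ) :
    wh a k g ∈ Ideal.span (w '' σ) := by
  obtain ⟨d, rfl⟩ := (Submodule.mem_span_image_finset_iff_exists_fun' (PS ι)).1 hg
  rw [wh_sum]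
  refine Ideal.sum_mem _ fun b hb => ?_
  rw [smul_eq_mul, mul_comm]
  rcases lt_or_ge k (n b) with h | h
  · rw [wh_hom_mul_lt ha (hw b) h]
    exact zero_mem _
  · obtain ⟨l, rfl⟩ := Nat.exists_eq_add_of_le h
    rw [wh_hom_mul ha (hw b)]
    exact Ideal.mul_mem_right _ _ (Ideal.subset_span ⟨b, hb, rfl⟩)

omit [DecidableEq ι] in
theorem prinw (ha : ∀ i, 0 < a i) {J Q : Ideal (PP ι)} (hQ : HomW a Q) (h : Prin J Q) :
    Prin (J.map (co ι)) (Q.map (co ι)) := by
  obtain ⟨π, hπ, s, hs, h⟩ := h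
  refine ⟨π, Ideal.mem_map_of_mem (co ι) hπ, s, mt (WB.coe_mem_hat ha hQ).1 hs, fun g hg => ?_⟩
  induction hg using Submodule.span_induction with
  | mem x hx =>
    obtain ⟨F, hF, rfl⟩ := hx
    obtain ⟨c, hc⟩ := h F hF
    have h1 := Ideal.mem_map_of_mem (co ι) hc
    rw [map_sub, map_mul, map_mul] at h1
    exact ⟨c, h1⟩
  | zero => exact ⟨0, by simp⟩
  | add x y _ _ hx hy =>
    obtain ⟨c, hc⟩ := hx
    obtain ⟨b, hb⟩ := hy
    refine ⟨c + b, ?_⟩
    rw [show (s : PS ι) * (x + y) - (c + b) * π = s * x - c * π + (s * y - b * π) by ring]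
    exact add_mem hc hb
  | smul r x _ hx =>
    obtain ⟨c, hc⟩ := hx
    refine ⟨r * c, ?_⟩
    rw [smul_eq_mul, show (s : PS ι) * (r * x) - r * c * π = r * (s * x - c * π) by ring]
    exact Ideal.mul_mem_left _ r hc

end JBWx

open JBWx in
theorem jbw (hA : Nc.S_JA) : S_JBW := by
  intro ι _ _ a J Q ha hJ hQ iJ iQ hle hP
  have hle' : J.map (co ι) ≤ Q.map (co ι) := Ideal.map_mono hle
  obtain ⟨σ, w, s, hw, hd, hs, h⟩ :=
    hA ι _ _ (WB.hat_prime ha iJ hJ) (WB.hat_prime ha iQ hQ) hle' (prinw ha iQ hP)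
  obtain ⟨n, hn⟩ := JBWx.homog ha _ w hd Finset.univ
  simp only [Finset.mem_univ, if_true] at hn
  have hw' : ∀ i ∈ σ, wh a (n i) (w i) ∈ J := fun i hi => (WB.mem_hat ha iJ).1 (hw i hi) _
  obtain ⟨t, ht, h1⟩ := change (WB.hat_prime ha iJ hJ) σ w (fun i => (wh a (n i) (w i) : PS ι)) s
    hw (fun i hi => (WB.coe_mem_hat ha iJ).2 (hw' i hi)) (fun h2 => hn (hle' h2)) hs h
  obtain ⟨e, he⟩ := not_forall.1 (mt (WB.mem_hat ha iJ).2 ht)
  refine ⟨σ, fun i => wh a (n i) (w i), n, wh a e t, e, fun i => wh_hom _ _, hw',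
    fun h2 => hn ?_, wh_hom _ _, he, fun g hg => ?_⟩
  · have h3 := Ideal.mem_map_of_mem (co ι) h2
    rw [RingHom.map_det] at h3
    have e1 : (jac fun i => (wh a (n i) (w i) : PS ι)) = (co ι).mapMatrix
        (Matrix.of fun i j => MvPolynomial.pderiv j (wh a (n i) (w i))) := by
      ext1 i j
      exact pderiv_coe _
    rw [e1]
    exact h3
  · obtain ⟨N, e1⟩ := sum_whc (a := a) g
    rw [← e1, Finset.mul_sum]
    refine Ideal.sum_mem _ fun d _ => ?_
    rw [mul_comm, ← wh_hom_mul ha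
      (MvPolynomial.weightedHomogeneousComponent_isWeightedHomogeneous (w := a) d g), mul_comm]
    exact wh_span ha σ _ n (fun i => wh_hom _ _)
      (h1 _ ((WB.coe_mem_hat ha iJ).2 (iJ g hg d))) _

end Pool.Agent.MP_51db15_ag.Qh

end

section
/-! A field that kills the lifted equations is tangent. -/

namespace Pool.Agent.MP_51db15_ag.Qh

open MvPowerSeries Hy Nc

theorem jct : S_JCT := by
  intro ι K R _ _ _ _ _ _ _ q a φ F wc fa hd σ w dg G e u x hw hG hGJ hs hu hk hv g hg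
  have ha := wc.pos
  have qm : ∀ {k : ℤ} {g : PS ι}, Wo a k g → q g ∈ F k := fun h => (wc.fil _ _).2 ⟨_, h, rfl⟩
  have key : ∀ (k n : ℕ) (g : PS ι), q g = 0 → Wo a n g →
      q (vf x g) ∈ F (n + k - ∑ j, (a j : ℤ)) := by
    intro k
    induction k with
    | zero =>
      intro n g _ h2
      rw [vf_apply, map_sum]
      refine Ideal.sum_mem _ fun i _ => qm (((h2.pderiv i).mul_left _).mono ?_)
      have := Finset.single_le_sum (f := fun j => (a j : ℤ)) (fun j _ => Int.natCast_nonneg _)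
        (Finset.mem_univ i)
      omega
    | succ k ih =>
      intro n g h1 h2
      have h3 : φ (wh a n g) = 0 := (wc.mem n _ (wh_hom n g)).2 (by
        have h4 := qm (h2.sub_wh ha)
        rwa [map_sub, h1, zero_sub, neg_mem_iff] at h4)
      obtain ⟨B, hB⟩ := (Submodule.mem_span_image_finset_iff_exists_fun' _).1 (hs _ h3)
      let B' : ι → PP ι := fun t => if dg t ≤ e + n then wh a (e + n - dg t) (B t : PS ι) else 0
      have h5 : G * wh a n g = ∑ t ∈ σ, w t * B' t := by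
        rw [← wh_coe_self ha (hG.mul (wh_hom n g)), ← hB, ← co_apply, map_sum, wh_sum]
        refine Finset.sum_congr rfl fun t _ => ?_
        rw [smul_eq_mul, mul_comm, map_mul, co_apply, co_apply]
        by_cases h : dg t ≤ e + n
        · have h6 := wh_hom_mul ha (hw t) (e + n - dg t) (B t : PS ι)
          rw [Nat.add_sub_cancel' h] at h6
          rw [h6]
          simp only [B', if_pos h]
        · rw [wh_hom_mul_lt ha (hw t) (by omega)]
          simp only [B', if_neg h, mul_zero]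
      have h7 : (G : PS ι) * (wh a n g : PS ι) = ∑ t ∈ σ, (w t : PS ι) * (B' t : PS ι) := by
        have h8 := congrArg (co ι) h5
        rw [map_mul, map_sum] at h8
        simpa only [map_mul, co_apply] using h8
      have h9 : (G : PS ι) * g - ∑ t ∈ σ, (B' t : PS ι) * ((w t : PS ι) - u t) =
          (G : PS ι) * (g - (wh a n g : PS ι)) + ∑ t ∈ σ, (B' t : PS ι) * u t := by
        rw [mul_sub, h7]
        simp only [mul_sub, Finset.sum_sub_distrib, mul_comm (B' _ : PS ι) (w _ : PS ι)]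
        ring
      have h10 : Wo a ((e + n + 1 : ℕ) : ℤ)
          ((G : PS ι) * g - ∑ t ∈ σ, (B' t : PS ι) * ((w t : PS ι) - u t)) := by
        rw [h9]
        refine (((Wo.coe hG).mul (h2.sub_wh ha)).mono (by omega)).add (Wo.sum _ fun t _ => ?_)
        by_cases h : dg t ≤ e + n
        · simp only [B', if_pos h]
          exact ((Wo.coe (wh_hom _ _)).mul (hu t)).mono (by omega)
        · simp only [B', if_neg h, MvPolynomial.coe_zero, zero_mul]
          exact Wo.zero
      have h11 := ih _ _ (by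
        rw [map_sub, map_mul, h1, mul_zero, map_sum, Finset.sum_eq_zero, sub_zero]
        intro t ht
        rw [map_mul, hk t ht, mul_zero]) h10
      have h12 : q (vf x ((G : PS ι) * g - ∑ t ∈ σ, (B' t : PS ι) * ((w t : PS ι) - u t))) =
          q (G : PS ι) * q (vf x g) := by
        rw [map_sub, map_sum, map_sub, map_sum, Finset.sum_eq_zero, sub_zero, vf_mul, map_add,
          map_mul, map_mul, h1]
        · ring
        · intro t ht
          rw [vf_mul, hv t ht, map_add, map_mul, map_mul, hk t ht]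
          simp
      rw [h12] at h11
      exact hd e _ _ (qm (Wo.coe hG)) (fun h => hGJ ((wc.mem e G hG).2 h)) _
        (fa.anti (by omega) h11)
  refine fa.sep _ fun k => fa.anti ?_
    (key (k + ∑ j, (a j : ℤ)).toNat 0 g hg (Wo.top (by simp) g))
  omega

end Pool.Agent.MP_51db15_ag.Qh

end

section
/-! Project SD: the contracting field on the ambient space. -/

namespace Pool.Agent.MP_51db15_ag.Qh

open MvPowerSeries Hy

namespace AMBx

variable {ι : Type} [Fintype ι] [DecidableEq ι]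

omit [Fintype ι] in
theorem coeff_one_mul (i : ι) {v : MvPowerSeries ι ℂ} (hv : constantCoeff v = 0)
    (h : MvPowerSeries ι ℂ) :
    coeff (Finsupp.single i 1) (v * h) = coeff (Finsupp.single i 1) v * constantCoeff h := by
  have e : Finset.HasAntidiagonal.antidiagonal (1 : ℕ) = {(0, 1), (1, 0)} := rfl
  rw [coeff_mul, Finsupp.antidiagonal_single, Finset.sum_map, e,
    Finset.sum_pair (by decide)]
  simp [hv]

theorem coeff_vf (i : ι) {v : ι → MvPowerSeries ι ℂ} (hv : ∀ j, constantCoeff (v j) = 0)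
    (g : MvPowerSeries ι ℂ) : coeff (Finsupp.single i 1) (vf v g) =
      ∑ j, coeff (Finsupp.single i 1) (v j) * coeff (Finsupp.single j 1) g := by
  rw [vf_apply, map_sum]
  refine Finset.sum_congr rfl fun j _ => ?_
  rw [coeff_one_mul i (hv j), ← coeff_zero_eq_constantCoeff_apply, coeff_pderiv]
  simp

omit [DecidableEq ι] in
theorem exists_lin {g : MvPowerSeries ι ℂ} (h0 : constantCoeff g = 0)
    (h : g ∉ IsLocalRing.maximalIdeal (MvPowerSeries ι ℂ) ^ 2) :
    ∃ i, coeff (Finsupp.single i 1) g ≠ 0 := by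
  by_contra hc
  push Not at hc
  refine h (mem_pow_iff_order.2 (nat_le_order fun α hα => ?_))
  rcases Nat.eq_zero_or_pos (Finsupp.degree α) with h1 | h1
  · rw [(Finsupp.degree_eq_zero_iff α).1 h1, coeff_zero_eq_constantCoeff_apply, h0]
  · have h2 : Finsupp.degree α = 1 := by omega
    obtain ⟨i, rfl⟩ := (Finsupp.sum_eq_one_iff α).1 h2
    exact hc i

omit [Fintype ι] [DecidableEq ι] in
theorem wo_coeff {a : ι → ℕ} {k : ℕ} {u : MvPowerSeries ι ℂ} (hu : Wo a ((k : ℤ) + 1) u)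
    {α : ι →₀ ℕ} (hα : Finsupp.weight a α ≤ k) : coeff α u = 0 := by
  refine coeff_eq_zero_of_lt_weightedOrder a (lt_of_lt_of_le ?_ hu)
  have e : ((k : ℤ) + 1).toNat = k + 1 := by omega
  rw [e]
  exact_mod_cast Nat.lt_succ_of_le hα

end AMBx

theorem amb : S_AMB := by
  intro ι K R _ _ _ _ _ _ _ q a φ F D hW hD
  obtain ⟨m, hm⟩ := hW.pres
  choose u hu hq using fun i => (hW.fil _ _).1 (hD i)
  let v : ι → MvPowerSeries ι ℂ := fun i => (a i : ℂ) • X i + u i
  have hv : ∀ i, v i = (a i : ℂ) • X i + u i := fun _ => rfl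
  have h0 : ∀ i, constantCoeff (v i) = 0 := fun i => by
    rw [hv, map_add, ← coeff_zero_eq_constantCoeff_apply (u i), AMBx.wo_coeff (hu i) (by simp)]
    simp
  have hL : Nc.Lf q v D := hm.lf fun i => by
    rw [hv, map_add, map_smul, hq, add_sub_cancel]
  refine ⟨vf v, fun g hg => hL.ker hg, fun g _ => mem_max_iff.2 ?_, fun c g hg hg2 hc => ?_⟩
  · rw [vf_apply, map_sum]
    exact Finset.sum_eq_zero fun j _ => by rw [map_mul, h0, zero_mul]
  · obtain ⟨i₀, hi₀⟩ := AMBx.exists_lin (mem_max_iff.1 hg) hg2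
    obtain ⟨i, hi, hmin⟩ := Finset.exists_min_image
      (Finset.univ.filter fun j => coeff (Finsupp.single j 1) g ≠ 0) a
      ⟨i₀, Finset.mem_filter.2 ⟨Finset.mem_univ _, hi₀⟩⟩
    have hi' := (Finset.mem_filter.1 hi).2
    have h1 : coeff (Finsupp.single i 1) (vf v g - c • g) = 0 :=
      coeff_of_lt_order (lt_of_lt_of_le (by rw [Finsupp.degree_single]; norm_num)
        (mem_pow_iff_order.1 hc))
    have h2 : ∀ j, coeff (Finsupp.single j 1) g ≠ 0 → coeff (Finsupp.single i 1) (u j) = 0 :=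
      fun j hj => AMBx.wo_coeff (hu j) (by
        rw [Finsupp.weight_single, one_smul]
        exact hmin j (Finset.mem_filter.2 ⟨Finset.mem_univ _, hj⟩))
    have h3 : coeff (Finsupp.single i 1) (vf v g) = (a i : ℂ) * coeff (Finsupp.single i 1) g := by
      rw [AMBx.coeff_vf i h0, Finset.sum_eq_single i]
      · rw [hv, map_add, h2 i hi', add_zero, map_smul, coeff_index_single_self_X, smul_eq_mul,
          mul_one]
      · intro j _ hj
        by_cases h4 : coeff (Finsupp.single j 1) g = 0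
        · rw [h4, mul_zero]
        · rw [hv, map_add, h2 j h4, add_zero, map_smul, coeff_index_single_X, if_neg hj.symm,
            smul_zero, zero_mul]
      · simp
    rw [map_sub, h3, map_smul, smul_eq_mul, ← sub_mul] at h1
    have h5 : c = (a i : ℂ) := (sub_eq_zero.1 ((mul_eq_zero.1 h1).resolve_right hi')).symm
    rw [h5, Complex.natCast_re]
    exact_mod_cast hW.pos i

end Pool.Agent.MP_51db15_ag.Qh

end

section
/-! Homogeneous fields of the cone lift to the germ up to a Jacobian factor. -/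

namespace Pool.Agent.MP_51db15_ag.Qh

open Matrix

namespace LIFTx

section Rl

variable {K ι R : Type} [Field K] [Algebra ℂ K] [CommRing R] [Algebra ℂ R]
  {S : Subalgebra ℂ K} {E : DD K} {x : ι → K} {a : ι → ℕ} {F : ℤ → Ideal R} {X : ι → R}
  {σ : ℤ → R →ₗ[ℂ] K}

/-- `g` is the symbol of `r` in degree `k` -/
def Rl (F : ℤ → Ideal R) (σ : ℤ → R →ₗ[ℂ] K) (k : ℤ) (r : R) (g : K) : Prop :=
  r ∈ F k ∧ σ k r = g

theorem Rl.zero (k : ℤ) : Rl F σ k 0 0 := ⟨zero_mem _, map_zero _⟩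

theorem Rl.sub {k : ℤ} {r s : R} {g h : K} (h1 : Rl F σ k r g) (h2 : Rl F σ k s h) :
    Rl F σ k (r - s) (g - h) := ⟨sub_mem h1.1 h2.1, by rw [map_sub, h1.2, h2.2]⟩

theorem Rl.sum {κ : Type} (T : Finset κ) {k : ℤ} {r : κ → R} {g : κ → K}
    (h : ∀ i, Rl F σ k (r i) (g i)) : Rl F σ k (∑ i ∈ T, r i) (∑ i ∈ T, g i) :=
  ⟨sum_mem fun i _ => (h i).1, by rw [map_sum]; exact Finset.sum_congr rfl fun i _ => (h i).2⟩

theorem Rl.int {k : ℤ} {r : R} {g : K} (h : Rl F σ k r g) (c : ℤ) :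
    Rl F σ k ((c : R) * r) ((c : K) * g) :=
  ⟨Ideal.mul_mem_left _ _ h.1, by rw [← zsmul_eq_mul, map_zsmul, h.2, zsmul_eq_mul]⟩

theorem Rl.high (fa : FA F X a) (fb : FB S E x a F X σ) {k : ℤ} {r : R} (h : r ∈ F (k + 1)) :
    Rl F σ k r 0 :=
  ⟨fa.anti (by omega) h, (fb.zero k r (fa.anti (by omega) h)).2 h⟩

theorem Rl.prod (fa : FA F X a) (fb : FB S E x a F X σ) (h1 : σ 0 1 = 1) {κ : Type}
    (T : Finset κ) {k : κ → ℤ} {r : κ → R} {g : κ → K} (h : ∀ i, Rl F σ (k i) (r i) (g i)) :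
    Rl F σ (∑ i ∈ T, k i) (∏ i ∈ T, r i) (∏ i ∈ T, g i) := by
  classical
  induction T using Finset.induction_on with
  | empty => exact ⟨by rw [Finset.sum_empty, fa.top 0 le_rfl]; trivial, by simpa using h1⟩
  | insert i T hi ih =>
    rw [Finset.sum_insert hi, Finset.prod_insert hi, Finset.prod_insert hi]
    exact ⟨fa.mul _ _ _ (h i).1 _ ih.1, by rw [fb.mul _ _ _ (h i).1 _ ih.1, (h i).2, ih.2]⟩

theorem Rl.det (fa : FA F X a) (fb : FB S E x a F X σ) (h1 : σ 0 1 = 1) {κ : Type} [Fintype κ]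
    [DecidableEq κ] {M : Matrix κ κ R} {N : Matrix κ κ K} {n c : κ → ℤ}
    (h : ∀ i j, Rl F σ (n i + c j) (M i j) (N i j)) :
    Rl F σ (∑ i, n i + ∑ j, c j) M.det N.det := by
  rw [Matrix.det_apply', Matrix.det_apply']
  refine Rl.sum _ fun τ => Rl.int ?_ _
  have h2 := Rl.prod fa fb h1 Finset.univ (k := fun i => n (τ i) + c i)
    (r := fun i => M (τ i) i) (g := fun i => N (τ i) i) fun i => h _ _
  rwa [Finset.sum_add_distrib, Equiv.sum_comp τ n] at h2

theorem cancel (fa : FA F X a) (fb : FB S E x a F X σ) (i j : ℤ) (r : R) (hr : r ∈ F i)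
    (hr' : r ∉ F (i + 1)) (s : R) (h : r * s ∈ F (i + j)) : s ∈ F j := by
  have key : ∀ n : ℕ, (n : ℤ) ≤ j → s ∈ F n := by
    intro n
    induction n with
    | zero => intro _; rw [Nat.cast_zero, fa.top 0 le_rfl]; trivial
    | succ n ih =>
      intro hn
      push_cast at hn ⊢
      have h2 := ih (by omega)
      have h3 := (fb.zero _ _ (fa.mul _ _ _ hr _ h2)).2 (fa.anti (by omega) h)
      rw [fb.mul _ _ _ hr _ h2, mul_eq_zero] at h3
      exact (fb.zero _ _ h2).1 (h3.resolve_left fun h4 => hr' ((fb.zero _ _ hr).1 h4))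
  rcases le_total j 0 with hj | hj
  · rw [fa.top j hj]; trivial
  · obtain ⟨n, rfl⟩ := Int.eq_ofNat_of_zero_le hj
    exact key n le_rfl

theorem comp (Q : Ideal S) (hQ : ∀ g ∈ Q, In Q (E g)) (A : Finset ℕ) : ∀ c : ℕ → S,
    (∀ n, E (c n) = (n : ℂ) • (c n : K)) → ∑ n ∈ A, c n ∈ Q → ∀ n ∈ A, c n ∈ Q := by
  classical
  induction A using Finset.induction_on with
  | empty => intro c _ _ n hn; simp at hn
  | insert m A hm ih =>
    intro c hc hs
    rw [Finset.sum_insert hm] at hs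
    obtain ⟨b, hb, e⟩ := hQ _ hs
    have h1 : ∑ n ∈ A, ((n : ℂ) - m) • c n = b - (m : ℂ) • (c m + ∑ n ∈ A, c n) := by
      apply Subtype.ext
      push_cast at e ⊢
      rw [← e, map_add, map_sum, hc m]
      simp only [hc, sub_smul, Finset.sum_sub_distrib, smul_add, Finset.smul_sum]
      abel
    have h2 := ih (fun n => ((n : ℂ) - m) • c n) (fun n => by
      push_cast
      rw [Derivation.map_smul, hc n, smul_comm]) (by
      rw [h1]
      exact sub_mem hb (Submodule.smul_of_tower_mem _ _ hs))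
    have h3 : ∀ n ∈ A, c n ∈ Q := fun n hn => by
      have h4 : (n : ℂ) - m ≠ 0 := sub_ne_zero.2 fun h => hm (by
        have h5 : n = m := by exact_mod_cast h
        exact h5 ▸ hn)
      have h5 := Submodule.smul_of_tower_mem Q ((n : ℂ) - m)⁻¹ (h2 n hn)
      rwa [smul_smul, inv_mul_cancel₀ h4, one_smul] at h5
    intro n hn
    rcases Finset.mem_insert.1 hn with rfl | hn
    · simpa using sub_mem hs (sum_mem h3)
    · exact h3 n hn

theorem chain [Fintype ι] [DecidableEq ι] (φ : MvPolynomial ι ℂ →ₐ[ℂ] K) (D : DD K)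
    (w : MvPolynomial ι ℂ) :
    D (φ w) = ∑ j, φ (MvPolynomial.pderiv j w) * D (φ (MvPolynomial.X j)) := by
  induction w using MvPolynomial.induction_on with
  | C c => simp [MvPolynomial.algHom_C]
  | add p q hp hq => simp only [map_add, hp, hq, add_mul, Finset.sum_add_distrib]
  | mul_X p i hp =>
    rw [map_mul, Derivation.leibniz, hp]
    simp only [Derivation.leibniz, smul_eq_mul, map_add, map_mul, add_mul, Finset.sum_add_distrib,
      Finset.mul_sum, mul_assoc]
    congr 1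
    rw [Finset.sum_eq_single i]
    · simp
    · intro j _ hj
      simp [MvPolynomial.pderiv_X_of_ne hj.symm]
    · simp

end Rl

end LIFTx

open LIFTx MvPowerSeries Nc Hy in
theorem lift (jb : S_JBW) (jc : S_JCT) : S_LIFT := by
  intro ι K R _ _ _ _ _ _ _ q a φ F E σ wc C fa fb hσ sy Q hQ hE hP D₀ hD₀ p hp
  obtain ⟨m, hq⟩ := wc.pres
  have hA : ∀ {d : ℕ} {G : PP ι}, G.IsWeightedHomogeneous a d →
      Rl F σ d (q (G : PS ι)) (φ G) := fun {d G} hG =>
    ⟨(wc.fil _ _).2 ⟨_, Wo.coe hG, rfl⟩, hσ d G _ hG (by rw [sub_self]; exact Wo.zero)⟩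
  have hw1 : ∀ {d : ℕ} {G : PP ι}, G.IsWeightedHomogeneous a d → E (φ G) = (d : ℂ) • φ G :=
    fun {d G} hG => by
      have h := (fb.mem d _ (hA hG).1).2
      rwa [(hA hG).2, Int.cast_natCast] at h
  have h1 : σ 0 1 = 1 := by
    have h := (hA (MvPolynomial.isWeightedHomogeneous_one ℂ a)).2
    rwa [MvPolynomial.coe_one, map_one q, map_one φ, Nat.cast_zero] at h
  have sj : Function.Surjective φ.rangeRestrict := φ.rangeRestrict_surjective
  obtain ⟨T, w, dg, G, e, hw, hT, hdet, hG, hGJ, hs⟩ := jb ι a (RingHom.ker φ)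
    (Q.comap φ.rangeRestrict) wc.pos (RingHom.ker_isPrime φ) (Ideal.comap_isPrime _ _)
    (fun g hg n => wc.hom g hg n)
    (fun g hg n => by
      obtain ⟨N, eN⟩ := sum_whc (a := a) g
      by_cases hn : n ∈ Finset.range N
      · refine comp (E := E) Q hE (Finset.range N)
          (fun k => φ.rangeRestrict (MvPolynomial.weightedHomogeneousComponent a k g))
          (fun k => hw1 (MvPolynomial.weightedHomogeneousComponent_isWeightedHomogeneous k g))
          ?_ n hn
        rw [← map_sum, eN]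
        exact hg
      · rw [← eN, map_sum, Finset.sum_eq_zero]
        · exact zero_mem _
        · intro k hk
          exact (MvPolynomial.weightedHomogeneousComponent_isWeightedHomogeneous (w := a) k
            g).weightedHomogeneousComponent_ne _ fun h => hn (h ▸ hk))
    (fun g hg => by
      have h : φ.rangeRestrict g = 0 := Subtype.ext hg
      rw [Ideal.mem_comap, h]
      exact zero_mem _)
    (by
      obtain ⟨π, hπ, s, hs, h⟩ := hP
      obtain ⟨π', rfl⟩ := sj π
      obtain ⟨s', rfl⟩ := sj s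
      refine ⟨π', hπ, s', hs, fun g hg => ?_⟩
      obtain ⟨b, hb⟩ := h _ hg
      obtain ⟨b', rfl⟩ := sj b
      refine ⟨b', ?_⟩
      rw [← map_mul, ← map_mul, ← map_sub, Ideal.mem_bot] at hb
      exact congrArg Subtype.val hb)
  have h2 : ∀ i, ∃ u : PS ι, Wo a (dg i + 1) u ∧ (i ∈ T → q ((w i : PS ι) - u) = 0) := fun i => by
    by_cases h : i ∈ T
    · obtain ⟨u, h3, h4⟩ := (wc.fil _ _).1 ((wc.mem _ _ (hw i)).1 (hT i h))
      exact ⟨u, h3, fun _ => by rw [map_sub, h4, sub_self]⟩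
    · exact ⟨0, Wo.zero, fun h' => absurd h' h⟩
  choose u hu hk using h2
  have h3 : ∀ i, ∃ z : PS ι, Rl F σ (dg i + p) (q z) (D₀ (φ (w i))) ∧ (i ∈ T → z = 0) :=
    fun i => by
    by_cases h : i ∈ T
    · refine ⟨0, ?_, fun _ => rfl⟩
      rw [show φ (w i) = 0 from hT i h, map_zero, map_zero]
      exact Rl.zero _
    · obtain ⟨r, h4, h5⟩ := fb.surj (dg i + p) (D₀ (φ (w i))) (hD₀ _ ⟨w i, rfl⟩) (by
        have h6 := DFunLike.congr_fun hp (φ (w i))
        rw [Derivation.commutator_apply, hw1 (hw i), Derivation.map_smul, Derivation.smul_apply] at h6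
        push_cast
        rw [add_smul, ← h6]
        abel)
      obtain ⟨z, rfl⟩ := hq.surj r
      exact ⟨z, ⟨h4, h5⟩, fun h' => absurd h' h⟩
  choose z hz hz0 using h3
  let W : Matrix ι ι (PS ι) := Matrix.of fun i j => pderiv ℂ j ((w i : PS ι) - u i)
  let V : Matrix ι ι (PP ι) := Matrix.of fun i j => MvPolynomial.pderiv j (w i)
  let N : Matrix ι ι K := φ.mapMatrix V
  have hW : ∀ i j, Rl F σ (dg i + -(a j : ℤ)) (q (W i j)) (N i j) := fun i j => by
    have h4 : Rl F σ (dg i + -(a j : ℤ)) (q (V i j : PS ι)) (φ (V i j)) := by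
      rcases le_or_gt (a j) (dg i) with h | h
      · have h5 := hA ((hw i).pderiv (i := j) (Nat.sub_add_cancel h))
        rwa [Nat.cast_sub h, sub_eq_add_neg] at h5
      · have h5 : V i j = 0 := by
          ext α
          change MvPolynomial.coeff α (MvPolynomial.pderiv j (w i)) = _
          rw [MvPolynomial.coeff_pderiv, (hw i).coeff_eq_zero _
            (by rw [map_add, WB.weight_single]; omega), zero_mul, MvPolynomial.coeff_zero]
        rw [h5, MvPolynomial.coe_zero, map_zero, map_zero]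
        exact Rl.zero _
    have h5 : Rl F σ (dg i + -(a j : ℤ)) (q (pderiv ℂ j (u i))) 0 :=
      Rl.high fa fb ((wc.fil _ _).2 ⟨_, ((hu i).pderiv j).mono (by omega), rfl⟩)
    have h6 := h4.sub h5
    rw [sub_zero, ← map_sub] at h6
    simpa only [W, V, N, of_apply, map_sub, pderiv_coe, AlgHom.mapMatrix_apply, map_apply] using h6
  have hδ := Rl.det fa fb h1 (M := q.mapMatrix W) (N := N) (n := fun i => (dg i : ℤ))
    (c := fun j => -(a j : ℤ)) hW
  have eδ : N.det = φ V.det := (AlgHom.map_det φ V).symm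
  have hd : 0 ≤ ∑ i, (dg i : ℤ) + ∑ j, -(a j : ℤ) := by
    by_contra h
    refine hdet ?_
    have h4 := (fb.zero _ _ hδ.1).2 (by rw [fa.top _ (by omega)]; trivial)
    rw [hδ.2, eδ] at h4
    have h5 : φ.rangeRestrict V.det = 0 := Subtype.ext h4
    rw [Ideal.mem_comap]
    change φ.rangeRestrict V.det ∈ Q
    rw [h5]
    exact zero_mem _
  obtain ⟨d, hd'⟩ := Int.eq_ofNat_of_zero_le hd
  obtain ⟨D, hD⟩ := hq.exists_der (x := cramer W z) (jc ι K R q a φ F wc fa (cancel fa fb) T w dg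
    G e u (cramer W z) hw hG hGJ hs hu hk fun i hi => by
      have h10 := congrFun (mulVec_cramer W z) i
      simp only [Pi.smul_apply, hz0 i hi, smul_zero] at h10
      rw [← h10, Hy.vf_apply]
      exact Finset.sum_congr rfl fun j _ => mul_comm _ _)
  have hX : ∀ k, Rl F σ (a k + (d + p)) (D (q (X k))) (φ V.det * D₀ (φ (.X k))) := fun k => by
    have h4 := Rl.det fa fb h1 (M := q.mapMatrix (W.updateCol k z))
      (N := N.updateCol k fun i => D₀ (φ (w i))) (n := fun i => (dg i : ℤ))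
      (c := fun j => -(a j : ℤ) + Pi.single (M := fun _ => ℤ) k (a k + p) j) fun i j => by
        change Rl F σ _ (q (W.updateCol k z i j)) _
        by_cases h : j = k
        · subst h
          rw [updateCol_self, updateCol_self, Pi.single_eq_same, neg_add_cancel_left]
          exact hz i
        · rw [updateCol_ne h, updateCol_ne h, Pi.single_eq_of_ne h, add_zero]
          exact hW i j
    have h5 : (fun i => D₀ (φ (w i))) = N *ᵥ fun j => D₀ (φ (.X j)) :=
      funext fun i => LIFTx.chain φ D₀ (w i)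
    rw [Finset.sum_add_distrib, Finset.sum_pi_single', if_pos (Finset.mem_univ k), ← add_assoc,
      hd', ← AlgHom.map_det, ← cramer_apply, ← cramer_apply, ← hD.X, h5,
      cramer_eq_adjugate_mulVec, mulVec_mulVec, adjugate_mul, smul_mulVec, one_mulVec, eδ] at h4
    rw [show (a k : ℤ) + (d + p) = d + (a k + p) by ring]
    exact h4
  obtain ⟨D₁, hD₁⟩ := sy.ex D (d + p) (fa.chain D _ fun k => (hX k).1)
  refine ⟨φ.rangeRestrict V.det, d, D, hdet, ?_, ?_⟩
  · have h4 := (fb.mem _ _ hδ.1).2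
    rwa [hδ.2, eδ, hd', Int.cast_natCast] at h4
  · have h4 : D₁ = φ V.det • D₀ := C.bas.ext _ _ fun k => by
      have h5 := hD₁.2 _ _ (fa.gen k)
      rw [fb.gen k, (hX k).2] at h5
      exact h5.symm
    exact h4 ▸ hD₁

end Pool.Agent.MP_51db15_ag.Qh

end
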