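import Pool.Agent.MP_51db15_ag.Qh.Spec4
import Pool.Agent.MP_51db15_ag.Qh.M2
import Pool.Agent.MP_51db15_ag.Qh.M3

/-! Merged rows: SPN SY GENF OM0 OMR OMC OMD PI0 EQ HAM0 IMP MAIN4. -/

section
/-! Symbols span the fields of the function field. -/

namespace Pool.Agent.MP_51db15_ag.Qh

variable {K ι R : Type} [Field K] [Algebra ℂ K] [CommRing R] [Algebra ℂ R]
  {S : Subalgebra ℂ K} {E : DD K} {x : ι → K} {a : ι → ℕ} {F : ℤ → Ideal R} {X : ι → R}
  {σ : ℤ → R →ₗ[ℂ] K}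

/-- a non-zero homogeneous multiple of a homogeneous field is a symbol -/
theorem Flt.hom (h : Flt S E x a F X σ) {D₀ : DD K} (h0 : D₀ ∈ TT S) {p : ℤ}
    (hp : ⁅E, D₀⁆ = (p : ℂ) • D₀) : ∃ δ ∈ S, ∃ (d : ℕ) (D : DR R), δ ≠ 0 ∧ E δ = (d : ℂ) • δ ∧
      Sym F σ D (d + p) (δ • D₀) := by
  obtain ⟨δ, d, D, h1, h2, h3⟩ := h.lift ⊥ Ideal.isPrime_bot
    (fun g hg => ⟨0, zero_mem _, by rw [(Ideal.mem_bot).1 hg]; simp⟩)
    ⟨0, zero_mem _, 1, by simp, fun g hg => ⟨0, by simpa using hg⟩⟩ D₀ h0 p hp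
  exact ⟨δ, δ.2, d, D, fun e => h1 (by rw [Ideal.mem_bot]; exact Subtype.ext e), h2, h3⟩

theorem Flt.span (h : Flt S E x a F X σ) :
    Submodule.span K {D₀ : DD K | ∃ D p, Sym F σ D p D₀} = ⊤ := by
  set M := Submodule.span K {D₀ : DD K | ∃ D p, Sym F σ D p D₀}
  have key : ∀ (s : K) (D₀ : DD K), s ≠ 0 → s • D₀ ∈ M → D₀ ∈ M := fun s D₀ hs hm => by
    have h1 := M.smul_mem s⁻¹ hm
    rwa [smul_smul, inv_mul_cancel₀ hs, one_smul] at h1
  refine eq_top_iff.2 fun D₀ _ => ?_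
  obtain ⟨s, -, hs, hT⟩ := h.cone.bas.den D₀
  refine key s D₀ hs ?_
  have h2 : (⨆ n : ℤ, TC S ⊓ (ad E).eigenspace (n : ℂ)) ≤ M.restrictScalars ℂ := by
    refine iSup_le fun n Y hY => ?_
    obtain ⟨δ, -, d, D, d1, -, d3⟩ := h.hom (D₀ := Y) hY.1 (p := n)
      (Module.End.mem_eigenspace_iff.1 hY.2)
    exact key δ Y d1 (Submodule.subset_span ⟨D, _, d3⟩)
  exact h2 (h.cone.ev.T _ hT)

/-- linear maps that agree on symbols are equal -/
theorem Flt.ext (h : Flt S E x a F X σ) {N : Type} [AddCommGroup N] [Module K N]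
    {f g : DD K →ₗ[K] N} (e : ∀ D p D₀, Sym F σ D p D₀ → f D₀ = g D₀) : f = g :=
  LinearMap.ext_on h.span fun _ ⟨D, p, hD⟩ => e D p _ hD

/-- bilinear forms that agree on symbols are equal -/
theorem Flt.ext₂ (h : Flt S E x a F X σ) {η η' : FF K}
    (e : ∀ D p D₀ D' p' D₁, Sym F σ D p D₀ → Sym F σ D' p' D₁ → η D₀ D₁ = η' D₀ D₁) : η = η' :=
  h.ext fun D p D₀ hD => h.ext fun D' p' D₁ hD' => e D p D₀ D' p' D₁ hD hD'

end Pool.Agent.MP_51db15_ag.Qh

end

section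
/-! PROJECT SD, row SY: the calculus of symbols. -/

namespace Pool.Agent.MP_51db15_ag.Qh

open Module

namespace SYx

theorem glue {U V ι : Type} [AddCommGroup U] [Module ℂ U] [AddCommGroup V] [Module ℂ V]
    (p : ι → Submodule ℂ U) (hp : iSupIndep p) (f : ι → U →ₗ[ℂ] V) :
    ∃ D : U →ₗ[ℂ] V, ∀ i, ∀ u ∈ p i, D u = f i u := by
  classical
  obtain ⟨r, hr⟩ := LinearMap.exists_leftInverse_of_injective _
    (LinearMap.ker_eq_bot.2 hp.dfinsupp_lsum_injective)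
  refine ⟨DFinsupp.lsum ℕ (fun i => f i ∘ₗ (p i).subtype) ∘ₗ r, fun i u hu => ?_⟩
  have h1 := LinearMap.congr_fun hr (DFinsupp.single i ⟨u, hu⟩)
  rw [LinearMap.comp_apply, DFinsupp.lsum_single, LinearMap.id_apply] at h1
  have h2 : r u = DFinsupp.single i ⟨u, hu⟩ := h1
  rw [LinearMap.comp_apply, h2, DFinsupp.lsum_single]
  rfl

theorem fac {U V W : Type} [AddCommGroup U] [Module ℂ U] [AddCommGroup V] [Module ℂ V]
    [AddCommGroup W] [Module ℂ W] (f : U →ₗ[ℂ] V) (g : U →ₗ[ℂ] W)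
    (h : LinearMap.ker f ≤ LinearMap.ker g) : ∃ t : V →ₗ[ℂ] W, ∀ u, t (f u) = g u := by
  obtain ⟨t, ht⟩ := LinearMap.exists_extend (p := LinearMap.range f)
    ((LinearMap.ker f).liftQ g h ∘ₗ f.quotKerEquivRange.symm.toLinearMap)
  refine ⟨t, fun u => (LinearMap.congr_fun ht ⟨f u, LinearMap.mem_range_self f u⟩).trans ?_⟩
  rw [LinearMap.comp_apply, LinearEquiv.coe_coe, LinearMap.quotKerEquivRange_symm_apply_image,
    Submodule.mkQ_apply, Submodule.liftQ_apply]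

variable {K ι R : Type} [Field K] [Algebra ℂ K] [CommRing R] [Algebra ℂ R]
  {S : Subalgebra ℂ K} {E : DD K} {x : ι → K} {a : ι → ℕ} {F : ℤ → Ideal R} {X : ι → R}
  {σ : ℤ → R →ₗ[ℂ] K}

theorem ex (hC : Cone S E x a) (fa : FA F X a) (fb : FB S E x a F X σ) (D : DR R) (p : ℤ)
    (hD : Od F D p) : ∃ D₀, Sym F σ D p D₀ := by
  have h0 : ∀ k : ℤ, ∃ t : K →ₗ[ℂ] K, ∀ r ∈ F k, t (σ k r) = σ (k + p) (D r) := fun k => by
    obtain ⟨t, ht⟩ := fac (σ k ∘ₗ ((F k).restrictScalars ℂ).subtype)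
      (σ (k + p) ∘ₗ D.toLinearMap ∘ₗ ((F k).restrictScalars ℂ).subtype) fun r hr => by
        have h1 := hD _ _ ((fb.zero k r.1 r.2).1 hr)
        rw [add_right_comm] at h1
        exact (fb.zero _ _ (hD k r.1 r.2)).2 h1
    exact ⟨t, fun r hr => ht ⟨r, hr⟩⟩
  choose L hL using h0
  obtain ⟨T, hT⟩ := glue _ (End.eigenspaces_iSupIndep (op E)) fun c : ℂ => L ⌊c.re⌋
  have hT' : ∀ k, ∀ r ∈ F k, T (σ k r) = σ (k + p) (D r) := fun k r hr => by
    rw [hT k _ (End.mem_eigenspace_iff.2 (fb.mem k r hr).2), Complex.intCast_re,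
      Int.floor_intCast, hL k r hr]
  have ind : ∀ P : K → Prop, P 0 → (∀ u v, P u → P v → P (u + v)) →
      (∀ k, ∀ r ∈ F k, P (σ k r)) → ∀ u ∈ S, P u := by
    intro P h0 h1 h2 u hu
    refine Submodule.iSup_induction (motive := P) _ (hC.ev.s u hu) (fun n v hv => ?_) h0 h1
    obtain ⟨r, hr, rfl⟩ := fb.surj n v hv.1 (End.mem_eigenspace_iff.1 hv.2)
    exact h2 n r hr
  have hLe : ∀ u ∈ S, ∀ v ∈ S, T (u * v) = u * T v + v * T u := by
    refine ind (fun u => ∀ v ∈ S, T (u * v) = u * T v + v * T u) (fun v _ => by simp)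
      (fun u u' h1 h2 v hv => by rw [add_mul, map_add, map_add, h1 v hv, h2 v hv]; ring)
      fun i r hr => ?_
    refine ind (fun v => T (σ i r * v) = σ i r * T v + v * T (σ i r)) (by simp)
      (fun v v' h1 h2 => by rw [mul_add, map_add, map_add, h1, h2]; ring) fun j s hs => ?_
    have h3 := fb.mul i (j + p) r hr _ (hD j s hs)
    have h4 := fb.mul j (i + p) s hs _ (hD i r hr)
    rw [← add_assoc] at h3
    rw [← add_assoc, add_comm j i] at h4
    rw [← fb.mul i j r hr s hs, hT' _ _ (fa.mul i j r hr s hs), Derivation.leibniz, map_add,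
      smul_eq_mul, smul_eq_mul, h3, h4, hT' i r hr, hT' j s hs]
  obtain ⟨t, ht⟩ := Hy.lift S K S.val (T ∘ₗ S.val.toLinearMap)
    (fun y => by
      obtain ⟨u, hu, v, hv, -, h⟩ := hC.cx.frac y
      exact ⟨⟨u, hu⟩, ⟨v, hv⟩, h⟩)
    (fun u v => hLe u u.2 v v.2) fun u h => (congrArg T h).trans (map_zero T)
  exact ⟨t, hD, fun k r hr => ((ht ⟨_, (fb.mem k r hr).1⟩).trans (hT' k r hr)).symm⟩

end SYx

theorem sy : S_SY := by
  intro K ι R _ _ _ _ _ S E x a F X σ hC fa fb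
  have hx : ∀ D p D₀, Sym F σ D p D₀ → ∀ i, D₀ (x i) = σ (a i + p) (D (X i)) :=
    fun D p D₀ h i => by rw [h.2 _ _ (fa.gen i), fb.gen]
  refine ⟨SYx.ex hC fa fb, fun D p D₀ h => ⟨hC.bas.tt D₀ fun i => ?_, hC.bas.ext _ _ fun i => ?_⟩,
    fun D p D₀ D₁ h h' => hC.bas.ext _ _ fun i => by rw [hx D p D₀ h, hx D p D₁ h'],
    fun D p => ⟨fun h k r hr => ?_, fun h => ?_⟩,
    fun D D' p D₀ D₁ h h' => ⟨fun k r hr => add_mem (h.1 k r hr) (h'.1 k r hr), fun k r hr => ?_⟩,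
    fun D p D₀ k r hr h => ⟨fun j s hs => ?_, fun j s hs => ?_⟩,
    fun D p D₀ c h => ⟨fun k r hr => (F (k + p)).smul_of_tower_mem c (h.1 k r hr),
      fun k r hr => ?_⟩,
    fun D D' p p' D₀ D₁ h h' => ⟨fun k r hr => ?_, fun k r hr => ?_⟩,
    ⟨-∑ i, (a i : ℤ), fun D => fa.chain D _ fun i => ?_⟩,
    fun D h => fa.ext D fun i => fa.sep _ fun k => ?_⟩
  · rw [hx D p D₀ h]
    exact (fb.mem _ _ (h.1 _ _ (fa.gen i))).1
  · have h2 := (fb.mem _ _ (h.1 _ _ (fa.gen i))).2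
    rw [← hx D p D₀ h] at h2
    rw [Derivation.commutator_apply, h2, hC.cx.eig i, Derivation.map_smul, Int.cast_add,
      Int.cast_natCast, add_smul, Derivation.smul_apply]
    abel
  · rw [← add_assoc]
    exact (fb.zero _ _ (h.1 k r hr)).1 (h.2 k r hr)
  · have h1 : Od F D p := fun k r hr => fa.anti (by omega) (h k r hr)
    exact ⟨h1, fun k r hr => (fb.zero _ _ (h1 k r hr)).2 (add_assoc k p 1 ▸ h k r hr)⟩
  · rw [Derivation.add_apply, Derivation.add_apply, map_add, h.2 k r hr, h'.2 k r hr]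
  · rw [add_left_comm]
    exact fa.mul k (j + p) r hr _ (h.1 j s hs)
  · rw [add_left_comm, Derivation.smul_apply, Derivation.smul_apply, smul_eq_mul, smul_eq_mul,
      fb.mul k (j + p) r hr _ (h.1 j s hs), h.2 j s hs]
  · rw [Derivation.smul_apply, Derivation.smul_apply, map_smul, h.2 k r hr]
  · have h1 := h.1 _ _ (h'.1 k r hr)
    have h2 := h'.1 _ _ (h.1 k r hr)
    rw [add_assoc, add_comm p' p] at h1
    rw [add_assoc] at h2
    rw [Derivation.commutator_apply]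
    exact sub_mem h1 h2
  · have h1 := h.2 _ _ (h'.1 k r hr)
    have h2 := h'.2 _ _ (h.1 k r hr)
    rw [add_assoc, add_comm p' p] at h1
    rw [add_assoc] at h2
    rw [Derivation.commutator_apply, Derivation.commutator_apply, map_sub, h1, h2, h.2 k r hr,
      h'.2 k r hr]
  · have : (a i : ℤ) ≤ ∑ i, (a i : ℤ) :=
      Finset.single_le_sum (f := fun i => (a i : ℤ)) (fun _ _ => Int.natCast_nonneg _)
        (Finset.mem_univ i)
    rw [fa.top _ (by omega)]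
    trivial
  · have := h (k - a i) _ _ (fa.gen i)
    rwa [add_sub_cancel] at this

end Pool.Agent.MP_51db15_ag.Qh

end

section
/-! PROJECT SD, row GENF: filtered generators of the module of fields. -/

namespace Pool.Agent.MP_51db15_ag.Qh

open Module

noncomputable section

namespace GENFx

theorem comp {U : Type} [AddCommGroup U] [Module ℂ U] (δ : End ℂ U) (H : ℤ → Submodule ℂ U)
    (hH : ∀ k, H k ≤ δ.eigenspace (k : ℂ)) (k : ℤ) {u : U} (hu : u ∈ ⨆ n, H n)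
    (e : u ∈ δ.eigenspace (k : ℂ)) : u ∈ H k := by
  have h : ⨆ n, H n ≤ H k ⊔ ⨆ (c : ℂ) (_ : c ≠ (k : ℂ)), δ.eigenspace c := iSup_le fun n => by
    by_cases c : n = k
    · rw [c]
      exact le_sup_left
    · exact le_sup_of_le_right ((hH n).trans
        (le_iSup₂_of_le (n : ℂ) (by exact_mod_cast c) le_rfl))
  obtain ⟨a, ha, b, hb, rfl⟩ := Submodule.mem_sup.1 (h hu)
  have b1 : b ∈ δ.eigenspace (k : ℂ) := by simpa using sub_mem e (hH k ha)
  have b2 := Submodule.disjoint_def.1 (δ.eigenspaces_iSupIndep (k : ℂ)) b b1 hb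
  rw [b2, add_zero]
  exact ha

variable {K : Type} [Field K] [Algebra ℂ K] {ι R : Type} [CommRing R] [Algebra ℂ R]
  {F : ℤ → Ideal R} {X : ι → R} {a : ι → ℕ}

theorem od_sub {D D' : DR R} {p : ℤ} (h : Od F D p) (h' : Od F D' p) : Od F (D - D') p :=
  fun k r hr => sub_mem (h k r hr) (h' k r hr)

theorem od_zero (p : ℤ) : Od F 0 p := fun _ _ _ => zero_mem _

theorem od_sum {κ : Type} (s : Finset κ) (D : κ → DR R) {p : ℤ} (h : ∀ j ∈ s, Od F (D j) p) :
    Od F (∑ j ∈ s, D j) p :=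
  Finset.sum_induction D (fun Y => Od F Y p) (fun _ _ b c k r hr => add_mem (b k r hr) (c k r hr))
    (od_zero p) h

theorem od_smul (fa : FA F X a) {D : DR R} {p q : ℤ} {r : R} (hr : r ∈ F (q - p))
    (h : Od F D p) : Od F (r • D) q := fun k s hs => by
  have := fa.mul _ _ r hr _ (h k s hs)
  rwa [show q - p + (k + p) = k + q by ring] at this

theorem od_mono (fa : FA F X a) {D : DR R} {p q : ℤ} (l : q ≤ p) (h : Od F D p) : Od F D q :=
  fun k s hs => fa.anti (by omega) (h k s hs)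

variable {S : Subalgebra ℂ K} {E : DD K} {σ : ℤ → R →ₗ[ℂ] K}

/-- symbols of combinations of the chosen fields -/
def HH (sy : SY S E F σ) {n : ℕ} (u : Fin n → DR R) (p : Fin n → ℤ) (k : ℤ) :
    Submodule ℂ (DD K) where
  carrier := {D₀ | ∃ r : Fin n → R, (∀ j, r j ∈ F (k - p j)) ∧ Sym F σ (∑ j, r j • u j) k D₀}
  zero_mem' := ⟨0, fun _ => zero_mem _, by simpa using (sy.zero 0 k).2 (od_zero _)⟩
  add_mem' := by
    rintro _ _ ⟨r, h1, h2⟩ ⟨s, h3, h4⟩
    refine ⟨r + s, fun j => add_mem (h1 j) (h3 j), ?_⟩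
    simpa only [Pi.add_apply, add_smul, Finset.sum_add_distrib] using sy.add _ _ _ _ _ h2 h4
  smul_mem' := by
    rintro c _ ⟨r, h1, h2⟩
    refine ⟨fun j => c • r j, fun j => Submodule.smul_of_tower_mem _ c (h1 j), ?_⟩
    simpa only [Finset.smul_sum, smul_assoc] using sy.csmul _ _ _ c h2

theorem step {x : ι → K} (h : Flt S E x a F X σ) :
    ∃ (n : ℕ) (u : Fin n → DR R) (p : Fin n → ℤ), (∀ j, Od F (u j) (p j)) ∧
      ∀ D k, ∃ r : Fin n → R, Od F D k →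
        (∀ j, r j ∈ F (k - p j)) ∧ Od F (D - ∑ j, r j • u j) (k + 1) := by
  classical
  have sy := h.sy
  have := h.cone.bas.noeth
  have l : Submodule.span S {D₀ : DD K | ∃ D p, Sym F σ D p D₀} ≤ TT S :=
    Submodule.span_le.2 fun D₀ ⟨D, p, e⟩ => (sy.mem D p D₀ e).1
  have fg := isNoetherian_submodule.1 (isNoetherian_of_fg_of_noetherian _ h.cone.bas.fgT) _ l
  obtain ⟨s, s1, s2⟩ := (Submodule.fg_span_iff_fg_span_finset_subset _).1 fg
  have ch : ∀ j : Fin s.card, ∃ D p, Sym F σ D p (s.equivFin.symm j : DD K) :=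
    fun j => s1 (s.equivFin.symm j).2
  choose u p hu using ch
  have rg : (s : Set (DD K)) = Set.range fun j => (s.equivFin.symm j : DD K) := by
    ext y
    exact ⟨fun hy => ⟨s.equivFin ⟨y, hy⟩, by simp⟩, fun ⟨j, e⟩ => e ▸ (s.equivFin.symm j).2⟩
  refine ⟨s.card, u, p, fun j => (hu j).1, fun D k => ?_⟩
  by_cases o : Od F D k
  swap
  · exact ⟨0, fun b => (o b).elim⟩
  obtain ⟨D₀, e⟩ := sy.ex D k o
  have m : D₀ ∈ Submodule.span S {D₀ : DD K | ∃ D p, Sym F σ D p D₀} :=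
    Submodule.subset_span ⟨D, k, e⟩
  rw [s2, rg, Submodule.mem_span_range_iff_exists_fun] at m
  obtain ⟨c, hc⟩ := m
  have b : ∀ j, ∀ g ∈ S, g • (s.equivFin.symm j : DD K) ∈ ⨆ m, HH sy u p m := fun j g hg => by
    refine Submodule.iSup_induction _
      (motive := fun g : K => g • (s.equivFin.symm j : DD K) ∈ ⨆ m, HH sy u p m)
      (h.cone.ev.s g hg) ?_ (by simp) fun y z hy hz => by
        rw [add_smul]
        exact add_mem hy hz
    rintro m y ⟨y1, y2⟩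
    obtain ⟨r, r1, rfl⟩ := h.fb.surj m y y1 (End.mem_eigenspace_iff.1 y2)
    refine Submodule.mem_iSup_of_mem (m + p j) ⟨Pi.single j r, fun i => ?_, ?_⟩
    · by_cases q : i = j
      · rw [q, Pi.single_eq_same, add_sub_cancel_right]
        exact r1
      · rw [Pi.single_eq_of_ne q]
        exact zero_mem _
    · rw [Finset.sum_eq_single j (fun i _ q => by rw [Pi.single_eq_of_ne q, zero_smul])
        (fun q => (q (Finset.mem_univ j)).elim), Pi.single_eq_same]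
      exact sy.smul _ _ _ m r r1 (hu j)
  have d : D₀ ∈ ⨆ m, HH sy u p m := hc ▸ sum_mem fun j _ => b j (c j) (c j).2
  obtain ⟨r, r1, r2⟩ := comp (ad E) (HH sy u p)
    (fun m Y ⟨_, _, q⟩ => End.mem_eigenspace_iff.2 (sy.mem _ _ _ q).2) k d
    (End.mem_eigenspace_iff.2 (sy.mem _ _ _ e).2)
  refine ⟨r, fun _ => ⟨r1, (sy.zero _ k).1 ?_⟩⟩
  simpa only [neg_smul, one_smul, add_neg_cancel, ← sub_eq_add_neg, sub_self] using
    sy.add _ _ _ _ _ e (sy.csmul _ _ _ (-1) r2)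

end GENFx

open GENFx

theorem genf : S_GENF := by
  intro K ι R _ _ _ _ _ S E x a F X σ h
  obtain ⟨n, u, p, hu, st⟩ := step h
  choose f hf using st
  refine ⟨n, u, p, hu, fun D k o => ?_⟩
  let q : ℕ → DR R := fun N => Nat.rec D (fun N Y => Y - ∑ j, f Y (k + N) j • u j) N
  have q0 : q 0 = D := rfl
  have q1 : ∀ N, q (N + 1) = q N - ∑ j, f (q N) (k + N) j • u j := fun N => rfl
  have qo : ∀ N : ℕ, Od F (q N) (k + N) := fun N => by
    induction N with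
    | zero => simpa [q0] using o
    | succ N ih =>
      rw [q1, Nat.cast_succ, ← add_assoc]
      exact (hf _ _ ih).2
  have qs : ∀ N : ℕ, q N = D - ∑ j, (∑ m ∈ Finset.range N, f (q m) (k + m) j) • u j := fun N => by
    induction N with
    | zero => simp [q0]
    | succ N ih =>
      simp only [Finset.sum_range_succ, add_smul, Finset.sum_add_distrib]
      rw [← sub_sub, ← ih, q1]
  have cp : ∀ j, ∃ s, ∀ N : ℕ,
      s - ∑ m ∈ Finset.range N, f (q m) (k + m) j ∈ F (k - p j + N) := fun j =>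
    h.fa.cpl (k - p j) (fun m => f (q m) (k + m) j) fun m => by
      rw [show k - p j + m = k + m - p j by ring]
      exact (hf _ _ (qo m)).1 j
  choose s hs using cp
  refine ⟨s, fun j => by simpa using hs j 0, sub_eq_zero.1 (h.sy.sep _ fun t => ?_)⟩
  have e : ∀ N : ℕ, D - ∑ j, s j • u j =
      q N - ∑ j, (s j - ∑ m ∈ Finset.range N, f (q m) (k + m) j) • u j := fun N => by
    conv_rhs => rw [qs N]
    simp only [sub_smul, Finset.sum_sub_distrib]
    abel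
  rw [e (t - k).toNat]
  refine od_mono h.fa (p := k + ((t - k).toNat : ℕ)) (by omega)
    (od_sub (qo _) (od_sum _ _ fun j _ => od_smul h.fa ?_ (hu j)))
  rw [show k + ((t - k).toNat : ℕ) - p j = k - p j + ((t - k).toNat : ℕ) by ring]
  exact hs j _

end

end Pool.Agent.MP_51db15_ag.Qh

end

section
/-! PROJECT SD, row OM0: the leading form. -/

namespace Pool.Agent.MP_51db15_ag.Qh

open Module

namespace OM0x

variable {K ι R : Type} [Field K] [Algebra ℂ K] [CommRing R] [Algebra ℂ R] {S : Subalgebra ℂ K}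
  {E : DD K} {x : ι → K} {a : ι → ℕ} {F : ℤ → Ideal R} {X : ι → R} {σ : ℤ → R →ₗ[ℂ] K}

theorem basis (h : Flt S E x a F X σ) : ∃ (κ : Type) (_ : Fintype κ) (b : Basis κ K (DD K))
    (p : κ → ℤ) (D : κ → DR R), ∀ i, Sym F σ (D i) (p i) (b i) := by
  obtain ⟨κ, _, b, p, hb⟩ := HCMPx.basis h.cone.bas h.cone.ev
  choose δ d D h1 _ h3 using fun i => h.lift ⊥ Ideal.isPrime_bot
    (fun g hg => ⟨0, zero_mem _, by simp [(Submodule.mem_bot _).1 hg]⟩)
    ⟨0, zero_mem _, 1, by simp, fun g hg => ⟨0, by simpa using hg⟩⟩ (b i) (hb i).1 (p i) (hb i).2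
  refine ⟨κ, inferInstance, b.unitsSMul fun i => Units.mk0 (δ i : K)
    fun hz => h1 i (Subtype.ext hz), fun i => d i + p i, D, fun i => ?_⟩
  rw [Basis.unitsSMul_apply]
  exact h3 i

theorem sym_sum (h : SY S E F σ) {κ : Type} (s : Finset κ) (D : κ → DR R) (p : ℤ)
    (D₀ : κ → DD K) (hD : ∀ i, Sym F σ (D i) p (D₀ i)) :
    Sym F σ (∑ i ∈ s, D i) p (∑ i ∈ s, D₀ i) := by
  classical
  induction s using Finset.induction_on with
  | empty => exact (h.zero _ _).2 fun k r _ => zero_mem _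
  | insert i s hi ih =>
    rw [Finset.sum_insert hi, Finset.sum_insert hi]
    exact h.add _ _ _ _ _ (hD i) ih

theorem one (h : Flt S E x a F X σ) {κ : Type} [Fintype κ] (b : Basis κ K (DD K)) (p : κ → ℤ)
    (D : κ → DR R) (hb : ∀ i, Sym F σ (D i) (p i) (b i)) (φ : DR R →ₗ[R] R) (n : ℤ)
    (hφ : ∀ Y q, Od F Y q → φ Y ∈ F (q + n)) {Y : DR R} {q : ℤ} {Y₀ : DD K}
    (hY : Sym F σ Y q Y₀) :
    σ (q + n) (φ Y) = ∑ i, b.repr Y₀ i * σ (p i + n) (φ (D i)) := by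
  have hc := HCMPx.coef b p (fun i => (h.sy.mem _ _ _ (hb i)).2) Y₀ q (h.sy.mem _ _ _ hY).2
  obtain ⟨s, hs, hs0, ⟨d, hd⟩, hsc⟩ :=
    HCMPx.denom gen h.cone.bas h.cone.ev (fun i => b.repr Y₀ i) _ hc
  obtain ⟨r, r1, r2⟩ := h.fb.surj d s hs hd
  choose t t1 t2 using fun i => h.fb.surj (d + (q - p i)) _ (hsc i) (by
    rw [Derivation.leibniz, hc, hd, Int.cast_add, add_smul, smul_eq_mul, smul_eq_mul,
      mul_smul_comm, mul_smul_comm, mul_comm (b.repr Y₀ i) s, add_comm])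
  have h1 := sym_sum h.sy Finset.univ (fun i => t i • D i) (d + q)
    (fun i => (s * b.repr Y₀ i) • b i) fun i => by
      have := h.sy.smul _ _ _ _ _ (t1 i) (hb i)
      rwa [t2, add_assoc, sub_add_cancel] at this
  simp only [mul_smul, ← Finset.smul_sum, b.sum_repr] at h1
  have h2 := h.sy.add _ _ _ _ _ (h.sy.smul _ _ _ _ _ r1 hY) (h.sy.csmul _ _ _ (-1) h1)
  rw [r2, neg_one_smul, neg_one_smul, add_neg_cancel, h.sy.zero] at h2
  have h3 := hφ _ _ h2
  have h4 := (h.fb.zero (d + q + n) _ (h.fa.anti (by omega) h3)).2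
    (by rwa [add_right_comm] at h3)
  rw [map_add, map_neg, map_sum, map_smul, map_add, map_neg, map_sum, add_neg_eq_zero,
    smul_eq_mul, add_assoc, h.fb.mul _ _ _ r1 _ (hφ _ _ hY.1), r2] at h4
  refine mul_left_cancel₀ hs0 (h4.trans ?_)
  rw [Finset.mul_sum]
  refine Finset.sum_congr rfl fun i _ => ?_
  rw [map_smul, smul_eq_mul, show d + (q + n) = d + (q - p i) + (p i + n) by ring,
    h.fb.mul _ _ _ (t1 i) _ (hφ _ _ (hb i).1), t2, mul_assoc]

end OM0x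

open OM0x in
theorem om0 (g : S_GENF) : S_OM0 := by
  classical
  intro K ι R _ _ _ _ _ S E x a F X σ ω h h0
  obtain ⟨n, u, p, hu, hg⟩ := g K ι R S E x a F X σ h
  have all : ∀ l, (∀ i j, ω (u i) (u j) ∈ F (p i + p j + l)) → ∀ Y q Y' q', Od F Y q →
      Od F Y' q' → ω Y Y' ∈ F (q + q' + l) := fun l hl Y q Y' q' hY hY' => by
    obtain ⟨r, r1, rfl⟩ := hg Y q hY
    obtain ⟨t, t1, rfl⟩ := hg Y' q' hY'
    rw [LinearMap.BilinForm.sum_left]
    refine sum_mem fun i _ => ?_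
    rw [LinearMap.BilinForm.sum_right]
    refine sum_mem fun j _ => ?_
    rw [LinearMap.BilinForm.smul_left, LinearMap.BilinForm.smul_right,
      show q + q' + l = q - p i + (q' - p j + (p i + p j + l)) by ring]
    exact h.fa.mul _ _ _ (r1 i) _ (h.fa.mul _ _ _ (t1 j) _ (hl i j))
  obtain ⟨l, l1, l2⟩ := Int.exists_greatest_of_bdd
    (P := fun l => ∀ i j, ω (u i) (u j) ∈ F (p i + p j + l)) (by
      by_contra hn
      obtain ⟨B, hB⟩ := h.sy.low
      refine h0 (LinearMap.ext₂ fun Y Y' => h.fa.sep _ fun k => ?_)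
      by_contra hk
      refine hn ⟨k - B - B, fun l hl => ?_⟩
      by_contra hz
      exact hk (h.fa.anti (by omega) (all l hl Y B Y' B (hB Y) (hB Y')))) (by
      obtain ⟨M, hM⟩ := Finite.exists_le fun y : Fin n × Fin n => p y.1 + p y.2
      refine ⟨-M, fun i j => ?_⟩
      rw [h.fa.top _ (by have : p i + p j ≤ M := hM (i, j); omega)]
      trivial)
  obtain ⟨κ, _, b, e, D, hb⟩ := basis h
  have ld : Lead F σ ω l (Matrix.toBilin b fun i j => σ (e i + e j + l) (ω (D i) (D j))) := by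
    intro Y Y' q q' Y₀ Y₁ hY hY'
    refine ⟨all l l1 _ _ _ _ hY.1 hY'.1, ?_⟩
    rw [Matrix.toBilin_apply, add_assoc]
    refine Eq.trans ?_ (one h b e D hb (ω.flip Y') (q' + l)
      (fun Z z hZ => add_assoc z q' l ▸ all l l1 _ _ _ _ hZ hY'.1) hY).symm
    refine Finset.sum_congr rfl fun i _ => ?_
    have h1 := one h b e D hb (ω (D i)) (e i + l)
      (fun Z z hZ => add_left_comm z (e i) l ▸ add_assoc (e i) z l ▸
        all l l1 _ _ _ _ (hb i).1 hZ) hY'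
    rw [add_left_comm]
    refine Eq.trans ?_ (congrArg (b.repr Y₀ i * ·) h1).symm
    simp only [Finset.mul_sum]
    refine Finset.sum_congr rfl fun j _ => ?_
    rw [add_left_comm (e j), add_assoc]
    ring
  refine ⟨l, _, fun hz => ?_, ld⟩
  have := l2 (l + 1) fun i j => by
    obtain ⟨Y₀, hY⟩ := h.sy.ex _ _ (hu i)
    obtain ⟨Y₁, hY'⟩ := h.sy.ex _ _ (hu j)
    have h1 := (ld _ _ _ _ _ _ hY hY').2
    rw [hz] at h1
    rw [← add_assoc]
    exact (h.fb.zero _ _ (l1 i j)).1 h1.symm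
  omega

end Pool.Agent.MP_51db15_ag.Qh

end

section
/-! The leading form is regular on a normal cone. -/

namespace Pool.Agent.MP_51db15_ag.Qh

open Module

namespace OMRx

variable {K : Type} [Field K] [Algebra ℂ K] {S : Subalgebra ℂ K} {v : DV K}

theorem unif {A : Type} [CommRing A] [IsNoetherianRing A] {Q P N : Ideal A} (hP : P.IsPrime)
    (h : ∀ x ∈ Q, ∃ s ∉ P, s * x ∈ N) : ∃ s ∉ P, ∀ x ∈ Q, s * x ∈ N := by
  classical
  obtain ⟨T, rfl⟩ := IsNoetherian.noetherian Q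
  choose! s h1 h2 using h
  refine ⟨∏ x ∈ T, s x, fun h3 => ?_, fun x hx => ?_⟩
  · obtain ⟨x, hx, h4⟩ := Ideal.IsPrime.prod_mem_iff.1 h3
    exact h1 x (Submodule.subset_span hx) h4
  · induction hx using Submodule.span_induction with
    | mem x hx =>
      rw [← Finset.prod_erase_mul _ _ hx, mul_assoc]
      exact Ideal.mul_mem_left _ _ (h2 x (Submodule.subset_span hx))
    | zero => simp
    | add x y _ _ hx hy => rw [mul_add]; exact add_mem hx hy
    | smul a x _ hx => rw [smul_eq_mul, mul_left_comm]; exact Ideal.mul_mem_left _ _ hx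

theorem div_der {R : Set K} (hv : IsDiv R v) (X : Derivation ℂ K K)
    (h : ∀ r ∈ R, v.Ge 0 (X r)) (a : K) (ha : v.Ge 0 a) : v.Ge 0 (X a) := by
  obtain ⟨b, hb, s, hs, hs0, hs1, rfl⟩ := hv.2 a ha
  rw [Derivation.leibniz_div]
  exact DV.Ge.mul_left (DV.Ge.pow (Or.inr (by rw [v.ord_inv hs0, hs1]; rfl)) 2)
    (((hv.1 s hs).mul_left (h b hb)).sub ((hv.1 b hb).mul_left (h s hs)))

/-- the centre of a valuation -/
def ctr (hd : IsDiv (S : Set K) v) : Ideal S where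
  carrier := {g | v.Ge 1 (g : K)}
  add_mem' ha hb := DV.Ge.add ha hb
  zero_mem' := DV.ge_zero 1
  smul_mem' c _ hg := DV.Ge.mul_left (hd.1 c c.2) hg

theorem ctr_prime (hd : IsDiv (S : Set K) v) : (ctr hd).IsPrime :=
  ⟨(Ideal.ne_top_iff_one _).2 DV.not_ge_one_one,
    fun {a b} h => DV.ge_one_mul (hd.1 a a.2) (hd.1 b b.2) h⟩

theorem ctr_prin [IsNoetherianRing S] (hd : IsDiv (S : Set K) v) : Nc.Prin ⊥ (ctr hd) := by
  obtain ⟨π, h0, h1⟩ := v.unif
  obtain ⟨a, ha, s, -, s0, s1, e⟩ := hd.2 π (Or.inr (by omega))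
  have a0 : a ≠ 0 := fun h => h0 (by rw [e, h, zero_div])
  have a1 : v.ord a = 1 := by rw [e, v.ord_div a0 s0, s1, sub_zero] at h1; exact h1
  obtain ⟨t, t1, t2⟩ := unif (Q := ctr hd) (N := Ideal.span {(⟨a, ha⟩ : S)}) (ctr_prime hd)
    fun x hx => by
      have h2 : v.Ge 0 ((x : K) / a) := by simpa [a1] using DV.Ge.div (v := v) (k := 1) (x := (x : K)) hx a0
      obtain ⟨b, hb, u, hu, u0, u1, e'⟩ := hd.2 _ h2
      refine ⟨⟨u, hu⟩, DV.not_ge_of_unit u0 u1,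
        Ideal.mem_span_singleton'.2 ⟨⟨b, hb⟩, Subtype.ext ?_⟩⟩
      rw [div_eq_div_iff a0 u0] at e'
      exact e'.symm.trans (mul_comm _ _)
  refine ⟨⟨a, ha⟩, Or.inr a1.ge, t, t1, fun x hx => ?_⟩
  obtain ⟨b, e'⟩ := Ideal.mem_span_singleton'.1 (t2 x hx)
  exact ⟨b, by rw [e', sub_self]; exact Ideal.zero_mem _⟩

theorem key (hN : IsNoetherianRing S) (hn : Nrm S)
    (hf : ∀ y : K, ∃ g ∈ S, ∃ h ∈ S, h ≠ 0 ∧ y = g / h) {E : DD K} (hE : E ∈ TT S) {h : K}
    (H : ∀ Q : Ideal S, Q.IsPrime → (∀ g ∈ Q, In Q (E g)) → Nc.Prin ⊥ Q →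
      ∃ (δ : S) (c : ℂ), δ ∉ Q ∧ E δ = c • (δ : K) ∧ (δ : K) * h ∈ S) : h ∈ S := by
  by_contra hy
  obtain ⟨δ, c, a1, a2, a3⟩ := H ⊥ Ideal.isPrime_bot
    (fun g hg => ⟨0, zero_mem _, by simp [Ideal.mem_bot.1 hg]⟩)
    ⟨0, zero_mem _, 1, by simp, fun g hg => ⟨0, by simpa using hg⟩⟩
  have d0 : (δ : K) ≠ 0 := fun e => a1 (Ideal.mem_bot.2 (Subtype.ext e))
  obtain ⟨v, hv, -, b1, b2⟩ := @krull K _ S.toSubring hN hn hf ⊥
    (fun s hs => Submonoid.mem_bot.1 hs ▸ one_mem _) h δ δ.2 d0 a3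
    (fun s hs => by rwa [Submonoid.mem_bot.1 hs, one_mul])
  replace hv : IsDiv (S : Set K) v := hv
  have hc : v.Const := fun c => hv.1 _ (S.algebraMap_mem c)
  obtain ⟨δ', c', c1, -, c3⟩ := H (ctr hv) (ctr_prime hv) (fun g hg => ⟨⟨E g, hE g g.2⟩, by
    refine DV.der_ge_of_log hc E (div_der hv E fun r hr => hv.1 _ (hE r hr)) d0
      (by have := b1.le d0; omega) ?_ hg
    rw [a2, smul_div_assoc, div_self d0]
    exact hc.smul _ DV.ge_one, rfl⟩) (ctr_prin hv)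
  obtain ⟨c5, c6⟩ := DV.unit_of_not_ge (hv.1 δ' δ'.2) c1
  have := (hv.1 _ c3).div_unit c5 c6
  rw [mul_div_cancel_left₀ _ c5] at this
  exact b2 this

end OMRx

theorem omr : S_OMR := by
  intro K ι R _ _ _ _ _ S E x a F X σ ω l ω₀ H hn hl _
  have hom : ∀ (p : ℤ), ∀ Y ∈ TC S ⊓ (ad E).eigenspace (p : ℂ), ∀ (p' : ℤ),
      ∀ Z ∈ TC S ⊓ (ad E).eigenspace (p' : ℂ), ω₀ Y Z ∈ S := by
    intro p Y hY p' Z hZ
    refine OMRx.key H.cone.bas.noeth hn H.cone.bas.frac H.cone.ev.tm fun Q q1 q2 q3 => ?_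
    obtain ⟨δ, d, D, a1, a2, a3⟩ := H.lift Q q1 q2 q3 Y hY.1 p (End.mem_eigenspace_iff.1 hY.2)
    obtain ⟨δ', d', D', b1, b2, b3⟩ := H.lift Q q1 q2 q3 Z hZ.1 p' (End.mem_eigenspace_iff.1 hZ.2)
    obtain ⟨c1, c2⟩ := hl _ _ _ _ _ _ a3 b3
    refine ⟨δ * δ', d + d', fun k => (q1.mem_or_mem k).elim a1 b1, ?_, ?_⟩
    · rw [Subalgebra.coe_mul, Derivation.leibniz, a2, b2]
      simp only [smul_eq_mul, mul_smul_comm, add_smul]
      rw [add_comm, mul_comm (δ' : K)]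
    · have := (H.fb.mem _ _ c1).1
      rw [← c2, map_smul, map_smul, LinearMap.smul_apply, smul_eq_mul, smul_eq_mul] at this
      convert this using 1
      rw [Subalgebra.coe_mul]
      ring
  intro Y hY Z hZ
  refine Submodule.iSup_induction _ (motive := fun Y => ω₀ Y Z ∈ S) (H.cone.ev.T Y hY)
    (fun p Y hY => ?_) (by simp) fun Y Y' h h' => by
      rw [map_add, LinearMap.add_apply]; exact add_mem h h'
  exact Submodule.iSup_induction _ (motive := fun Z => ω₀ Y Z ∈ S) (H.cone.ev.T Z hZ)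
    (fun p' Z hZ => hom p Y hY p' Z hZ) (by simp) fun Z Z' h h' => by
      rw [map_add]; exact add_mem h h'

end Pool.Agent.MP_51db15_ag.Qh

end

section
/-! Row OMC: the leading form is closed and homogeneous. -/

namespace Pool.Agent.MP_51db15_ag.Qh

open Module

namespace OMCx

variable {K ι R : Type} [Field K] [Algebra ℂ K] [CommRing R] [Algebra ℂ R]
  {S : Subalgebra ℂ K} {E : DD K} {x : ι → K} {a : ι → ℕ} {F : ℤ → Ideal R} {X : ι → R}
  {σ : ℤ → R →ₗ[ℂ] K}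

theorem ind (h : Flt S E x a F X σ) (P : DD K → Prop) (h0 : P 0)
    (ha : ∀ u v, P u → P v → P (u + v)) (hs : ∀ (g : K) u, P u → P (g • u))
    (hh : ∀ D p D₀, Sym F σ D p D₀ → P D₀) (Y : DD K) : P Y := by
  have m : Y ∈ Submodule.span K {D₀ : DD K | ∃ D p, Sym F σ D p D₀} := by
    rw [h.span]
    trivial
  induction m using Submodule.span_induction with
  | mem u hu =>
    obtain ⟨D, p, e⟩ := hu
    exact hh D p u e
  | zero => exact h0
  | add u v _ _ a b => exact ha u v a b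
  | smul g u _ a => exact hs g u a

/-- the Cartan expression -/
def Ca (η : FF K) (U Y Z : DD K) : K :=
  U (η Y Z) - Y (η U Z) + Z (η U Y) - η ⁅U, Y⁆ Z + η ⁅U, Z⁆ Y - η ⁅Y, Z⁆ U

theorem tri (h : Flt S E x a F X σ) (η : FF K) (sk : ∀ U Y, η U Y + η Y U = 0)
    (hc : ∀ D p U, Sym F σ D p U → ∀ D' q Y, Sym F σ D' q Y → ∀ D'' r Z, Sym F σ D'' r Z →
      Ca η U Y Z = 0) (U Y Z : DD K) : Ca η U Y Z = 0 := by
  refine ind h (fun U => Ca η U Y Z = 0) (by simp [Ca]) (fun u v a b => ?_)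
    (fun g u a => ?_) (fun D p U kp => ?_) U
  · simp only [Ca, map_add, add_lie, LinearMap.add_apply, Derivation.add_apply] at a b ⊢
    linear_combination a + b
  · simp only [Ca, smul_lie', map_sub, map_smul, LinearMap.sub_apply, LinearMap.smul_apply,
      Derivation.smul_apply, smul_eq_mul, Derivation.leibniz] at a ⊢
    linear_combination g * a
  refine ind h (fun Y => Ca η U Y Z = 0) (by simp [Ca]) (fun u v a b => ?_)
    (fun g u a => ?_) (fun D' q Y kq => ?_) Y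
  · simp only [Ca, map_add, add_lie, lie_add, LinearMap.add_apply, Derivation.add_apply] at a b ⊢
    linear_combination a + b
  · simp only [Ca, smul_lie', lie_smul', map_sub, map_add, map_smul, LinearMap.sub_apply,
      LinearMap.add_apply, LinearMap.smul_apply, Derivation.smul_apply, smul_eq_mul,
      Derivation.leibniz] at a ⊢
    linear_combination g * a + Z g * sk U u
  refine ind h (fun Z => Ca η U Y Z = 0) (by simp [Ca]) (fun u v a b => ?_)
    (fun g u a => ?_) (fun D'' r Z kr => hc D p U kp D' q Y kq D'' r Z kr) Z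
  · simp only [Ca, map_add, lie_add, LinearMap.add_apply, Derivation.add_apply] at a b ⊢
    linear_combination a + b
  · simp only [Ca, lie_smul', map_add, map_smul, LinearMap.add_apply, LinearMap.smul_apply,
      Derivation.smul_apply, smul_eq_mul, Derivation.leibniz] at a ⊢
    linear_combination g * a + U g * sk Y u - Y g * sk U u

end OMCx

open OMCx in
theorem omc : S_OMC := by
  intro K ι R _ _ _ _ _ S E x a F X σ ω l ω₀ h hω hl
  have sk0 : ω₀ = -ω₀.flip := h.ext₂ fun D p U D' q Y kp kq => by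
    have e : (-ω₀.flip) U Y = -ω₀ Y U := rfl
    rw [e, (hl _ _ _ _ _ _ kp kq).2, (hl _ _ _ _ _ _ kq kp).2, add_comm q p, ← map_neg,
      hω.1.neg_eq]
  have sk : ∀ U Y, ω₀ U Y + ω₀ Y U = 0 := fun U Y => by
    have e : ω₀ U Y = -ω₀ Y U := LinearMap.congr_fun (LinearMap.congr_fun sk0 U) Y
    rw [e, neg_add_cancel]
  refine ⟨⟨fun U => ?_, tri h ω₀ sk fun D p U kp D' q Y kq D'' r Z kr => ?_⟩,
    h.ext₂ fun D p U D' q Y kp kq => ?_⟩
  · have : CharZero K := charZero_of_injective_algebraMap (algebraMap ℂ K).injective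
    have e := sk U U
    rw [← two_mul] at e
    exact (mul_eq_zero.1 e).resolve_left two_ne_zero
  · have e := congrArg (σ (p + q + r + l)) (hω.2.1 D D' D'')
    rw [map_zero, map_sub, map_add, map_sub, map_add, map_sub] at e
    obtain ⟨a1, a2⟩ := hl _ _ _ _ _ _ kq kr
    obtain ⟨b1, b2⟩ := hl _ _ _ _ _ _ kp kr
    obtain ⟨c1, c2⟩ := hl _ _ _ _ _ _ kp kq
    unfold Ca
    rw [a2, b2, c2, ← kp.2 _ _ a1, ← kq.2 _ _ b1, ← kr.2 _ _ c1,
      (hl _ _ _ _ _ _ (h.sy.lie _ _ _ _ _ _ kp kq) kr).2,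
      (hl _ _ _ _ _ _ (h.sy.lie _ _ _ _ _ _ kp kr) kq).2,
      (hl _ _ _ _ _ _ (h.sy.lie _ _ _ _ _ _ kq kr) kp).2,
      show q + r + l + p = p + q + r + l by ring, show p + r + l + q = p + q + r + l by ring,
      show p + q + l + r = p + q + r + l by ring, show p + r + q + l = p + q + r + l by ring,
      show q + r + p + l = p + q + r + l by ring]
    exact e
  · obtain ⟨c1, c2⟩ := hl _ _ _ _ _ _ kp kq
    have e := (h.fb.mem _ _ c1).2
    rw [← c2] at e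
    have e' : ((l : ℂ) • ω₀) U Y = (l : ℂ) • ω₀ U Y := rfl
    rw [lf_apply, (h.sy.mem _ _ _ kp).2, (h.sy.mem _ _ _ kq).2, e, lin_c, lin_c, e',
      LinearMap.smul_apply, Int.cast_add, Int.cast_add, add_smul, add_smul]
    abel

end Pool.Agent.MP_51db15_ag.Qh

end

section
/-! The symbol of a dilating field. -/

namespace Pool.Agent.MP_51db15_ag.Qh

namespace OMDx

variable {K ι R : Type} [Field K] [Algebra ℂ K] [CommRing R] [Algebra ℂ R]
  {S : Subalgebra ℂ K} {E : DD K} {x : ι → K} {a : ι → ℕ} {F : ℤ → Ideal R} {X : ι → R}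
  {σ : ℤ → R →ₗ[ℂ] K} {ω : FR R} {l : ℤ} {ω₀ : FF K}

theorem key (h : Flt S E x a F X σ) (hl : Lead F σ ω l ω₀) {ξ : DR R} {p : ℤ} {ξ₀ : DD K}
    (hd : Nc.IsDilating ω ξ) (hξ : Sym F σ ξ p ξ₀) {D D' : DR R} {s t : ℤ} {D₀ D₁ : DD K}
    (h0 : Sym F σ D s D₀) (h1 : Sym F σ D' t D₁) :
    lf ξ₀ ω₀ D₀ D₁ = σ (s + t + l + p) (ω D D') := by
  obtain ⟨m, e⟩ := hl _ _ _ _ _ _ h0 h1
  have e1 := (hl _ _ _ _ _ _ h0 (h.sy.lie _ _ _ _ _ _ hξ h1)).2
  have e2 := (hl _ _ _ _ _ _ (h.sy.lie _ _ _ _ _ _ hξ h0) h1).2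
  rw [show s + (p + t) + l = s + t + l + p by ring] at e1
  rw [show p + s + t + l = s + t + l + p by ring] at e2
  rw [lf_apply, e, e1, e2, ← hξ.2 _ _ m, ← map_sub, ← map_sub, sub_right_comm, hd D D']

end OMDx

theorem omd : S_OMD := by
  intro K ι R _ _ _ _ _ S E x a F X σ ω l ω₀ h hl ξ p ξ₀ hd hξ
  refine ⟨fun hp => h.ext₂ fun D s D₀ D' t D₁ h0 h1 => ?_,
    fun hp => h.ext₂ fun D s D₀ D' t D₁ h0 h1 => ?_⟩
  · have m := (hl _ _ _ _ _ _ h0 h1).1
    rw [OMDx.key h hl hd hξ h0 h1]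
    exact (h.fb.zero _ _ (h.fa.anti (by omega) m)).2 (h.fa.anti (by omega) m)
  · rw [OMDx.key h hl hd hξ h0 h1, hp, add_zero]
    exact (hl _ _ _ _ _ _ h0 h1).2.symm

end Pool.Agent.MP_51db15_ag.Qh

end

section
/-! The leading bracket. -/

namespace Pool.Agent.MP_51db15_ag.Qh

open Module

namespace PI0x

variable {K ι : Type} [Field K] [Algebra ℂ K] [Fintype ι]

theorem coef {x : ι → K} (hx : ∀ D D' : DD K, (∀ i, D (x i) = D' (x i)) → D = D') (g : K) :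
    ∃ c : ι → K, ∀ D : DD K, D g = ∑ j, c j * D (x j) := by
  have : dd g ∈ Submodule.span K (Set.range fun j => dd (x j)) :=
    mem_span_of_iInf_ker_le_ker fun D hD => by
      rw [hx D 0 fun i => (Submodule.mem_iInf _).1 hD i]
      exact Submodule.zero_mem _
  obtain ⟨c, hc⟩ := (Submodule.mem_span_range_iff_exists_fun K).1 this
  refine ⟨c, fun D => ?_⟩
  have := congrArg (· D) hc
  simp only [LinearMap.coe_sum, Finset.sum_apply, LinearMap.smul_apply, smul_eq_mul] at this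
  exact this.symm

theorem sum_app (c : ι → K) (b : ι → DD K) (g : K) : (∑ j, c j • b j) g = ∑ j, c j * b j g := by
  have := map_sum (dd g) (fun j => c j • b j) Finset.univ
  exact this

theorem brk {x : ι → K} (hx : ∀ D D' : DD K, (∀ i, D (x i) = D' (x i)) → D = D') (b : ι → DD K)
    (hb : ∀ i j, b i (x j) = -b j (x i)) : ∃ B : K →ₗ[ℂ] DD K, (∀ g i, B g (x i) = -b i g) ∧
      ∀ g h, B g h = -B h g := by
  choose c hc using coef hx
  have k : ∀ g i, (∑ j, c g j • b j) (x i) = -b i g := fun g i => by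
    rw [sum_app, hc g (b i), ← Finset.sum_neg_distrib]
    exact Finset.sum_congr rfl fun j _ => by rw [hb j i, mul_neg]
  refine ⟨⟨⟨fun g => ∑ j, c g j • b j, fun g h => hx _ _ fun i => ?_⟩,
    fun t g => hx _ _ fun i => ?_⟩, k, fun g h => ?_⟩
  · rw [Derivation.add_apply, k, k, k, map_add, neg_add]
  · rw [Derivation.smul_apply, k, k, Derivation.map_smul, RingHom.id_apply, smul_neg]
  · change (∑ j, c g j • b j) h = -(∑ j, c h j • b j) g
    rw [hc h, sum_app (c h), ← Finset.sum_neg_distrib]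
    exact Finset.sum_congr rfl fun j _ => by rw [k, mul_neg]

end PI0x

theorem pi0 : S_PI0 := by
  intro K ι R _ _ _ _ _ S E x a F X σ ω hF hω ⟨D, hD⟩
  choose H hH using hω.2.2
  have sk : ∀ r s, H r s = -H s r := fun r s => by rw [← hH, Nc.skew hω, hH]
  have fa := hF.fa
  obtain ⟨l, hl, hm⟩ := Int.exists_least_of_bdd
    (P := fun l => ∀ i j, H (X i) (X j) ∈ F (a i + a j - l)) (by
      by_contra q
      push Not at q
      refine hD (fa.ext D fun i => ?_)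
      rw [← hH, fa.ext (H (X i)) fun j => fa.sep _ fun k => ?_, map_zero, LinearMap.zero_apply]
      obtain ⟨z, h1, h2⟩ := q (a i + a j - k)
      exact fa.anti (by omega) (h1 i j)) ⟨(2 * ∑ i, a i : ℕ), fun i j => by
      have h1 := Finset.single_le_sum (f := a) (fun _ _ => Nat.zero_le _) (Finset.mem_univ i)
      have h2 := Finset.single_le_sum (f := a) (fun _ _ => Nat.zero_le _) (Finset.mem_univ j)
      rw [fa.top _ (by omega)]
      trivial⟩
  have o1 : ∀ i, Od F (H (X i)) (a i - l) := fun i => fa.chain _ _ fun j => by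
    convert hl i j using 2
    ring
  have o2 : ∀ k, ∀ r ∈ F k, Od F (H r) (k - l) := fun k r hr => fa.chain _ _ fun j => by
    rw [sk]
    convert neg_mem (o1 j k r hr) using 2
    ring
  choose b hb using fun i => hF.sy.ex _ _ (o1 i)
  have key : ∀ k, ∀ r ∈ F k, ∀ D₀, Sym F σ (H r) (k - l) D₀ → ∀ i, D₀ (x i) = -b i (σ k r) :=
    fun k r hr D₀ h i => by
      rw [← hF.fb.gen i, ← h.2 _ _ (fa.gen i), ← (hb i).2 k r hr, sk, map_neg]
      congr 3
      ring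
  have ext := hF.cone.bas.ext
  obtain ⟨B, hB, hs⟩ := PI0x.brk ext b fun i j => by
    rw [key _ _ (fa.gen i) _ (hb i) j, hF.fb.gen]
  have ld : LeadB F σ ω l B := fun k r hr H' h' => by
    obtain rfl : H' = H r := sub_eq_zero.1 (Nc.nondeg hω fun Y => by
      rw [map_sub, LinearMap.sub_apply, h', hH, sub_self])
    obtain ⟨D₀, h0⟩ := hF.sy.ex _ _ (o2 k r hr)
    rwa [ext (B (σ k r)) D₀ fun i => by rw [hB, key k r hr D₀ h0]]
  refine ⟨l, B, fun q => ?_, hs, fun g hg => (mem_TT S).1 (hF.cone.bas.tt _ fun i => ?_),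
    fun g h => ?_, ld⟩
  · have := hm (l - 1) fun i j => by
      have h1 := ld _ _ (fa.gen i) _ (hH _)
      rw [q, LinearMap.zero_apply, hF.sy.zero] at h1
      convert h1 _ _ (fa.gen j) using 2
      ring
    omega
  · rw [hB]
    exact neg_mem ((mem_TT S).1 (hF.sy.mem _ _ _ (hb i)).1 g hg)
  · have e : ⁅E, B g⁆ - B (E g) = ((-l : ℤ) : ℂ) • B g := ext _ _ fun i => by
      have h1 := congrArg (· g) (hF.sy.mem _ _ _ (hb i)).2
      simp only [Derivation.commutator_apply, Derivation.smul_apply] at h1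
      rw [Derivation.sub_apply, Derivation.commutator_apply, Derivation.smul_apply,
        hF.cone.cx.eig, Derivation.map_smul, hB, hB, map_neg]
      simp only [Algebra.smul_def, Int.cast_sub, Int.cast_neg, Int.cast_natCast, map_sub,
        map_neg] at h1 ⊢
      linear_combination -h1
    have := congrArg (· h) e
    simp only [Derivation.sub_apply, Derivation.commutator_apply, Derivation.smul_apply] at this
    rw [← this]
    ring

end Pool.Agent.MP_51db15_ag.Qh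

end

section
/-! Row EQ of project SD: the order of the form equals the order of the bracket. -/

namespace Pool.Agent.MP_51db15_ag.Qh

namespace EQx

variable {K ι R : Type} [Field K] [Algebra ℂ K] [CommRing R] [Algebra ℂ R]
  {S : Subalgebra ℂ K} {E : DD K} {x : ι → K} {a : ι → ℕ} {F : ℤ → Ideal R} {X : ι → R}
  {σ : ℤ → R →ₗ[ℂ] K}

theorem od_mono (h : FA F X a) {D : DR R} {p p' : ℤ} (hD : Od F D p) (e : p' ≤ p) : Od F D p' :=
  fun k r hr => h.anti (by omega) (hD k r hr)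

/-- the value of a field on a generator, read through the form -/
theorem key (h : Flt S E x a F X σ) {ω : FR R} {l l' : ℤ} {ω₀ : FF K} {B : K →ₗ[ℂ] DD K}
    (hs : Hy.IsSymplecticForm ω) (hL : Lead F σ ω l ω₀) (hB : LeadB F σ ω l' B) (i : ι)
    {D : DR R} {p : ℤ} {D₀ : DD K} (hD : Sym F σ D p D₀) :
    D (X i) ∈ F (a i - l' + p + l) ∧ ω₀ (B (x i)) D₀ = σ (a i - l' + p + l) (D (X i)) := by
  obtain ⟨H, hH⟩ := hs.2.2 (X i)
  have h1 := hB (a i) (X i) (h.fa.gen i) H hH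
  rw [h.fb.gen i] at h1
  have h2 := hL H D _ _ _ _ h1 hD
  rwa [hH] at h2

end EQx

theorem eq : S_EQ := by
  intro K ι R _ _ _ _ _ S E x a F X σ ω l l' ω₀ B h hs hne hL hB hle
  have hl : l' = l := by
    by_contra hn
    have hlt : l' + 1 ≤ l := by omega
    obtain ⟨D, hD⟩ := hne
    obtain ⟨b, hb⟩ := h.sy.low
    have step : ∀ p, Od F D p → Od F D (p + 1) := fun p hp => by
      obtain ⟨D₀, h0⟩ := h.sy.ex D p hp
      exact h.fa.chain D (p + 1) fun i => h.fa.anti (by omega) (EQx.key h hs hL hB i h0).1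
    have all : ∀ n : ℕ, Od F D (b + n) := fun n => by
      induction n with
      | zero => simpa using hb D
      | succ n ih =>
        have := step _ ih
        rwa [show b + n + 1 = b + ((n + 1 : ℕ) : ℤ) by push_cast; ring] at this
    exact hD (h.sy.sep D fun p => EQx.od_mono h.fa (all (p - b).toNat) (by omega))
  refine ⟨hl, fun i => h.ext fun D p D₀ hD => ?_⟩
  have h1 := (EQx.key h hs hL hB i hD).2
  have h2 := hD.2 (a i) (X i) (h.fa.gen i)
  rw [show (a i : ℤ) - l' + p + l = a i + p by omega, h2, h.fb.gen i] at h1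
  rw [h1, dd_apply]

end Pool.Agent.MP_51db15_ag.Qh

end

section
/-! Row HAM0: a homogeneous symplectic field is Hamiltonian. -/

namespace Pool.Agent.MP_51db15_ag.Qh

open Module

theorem ham0 : S_HAM0 := by
  intro K ι _ _ _ S E x a ω B l hC hpos hreg hclo hwt hsk hB
  have : FiniteDimensional K (DD K) := hC.bas.fd
  have hneg : ∀ D D' : DD K, ω D D' = -ω D' D := fun D D' => (hclo.1.neg_eq D' D).symm
  have hx : ∀ (D : DD K) i, D (x i) = -ω D (B (x i)) := fun D i => by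
    rw [← hneg, hB, dd_apply]
  have hinj : Function.Injective (ω : DD K →ₗ[K] DU K) := fun D D' h =>
    hC.bas.ext D D' fun i => by rw [hx, hx, h]
  have hrk : finrank K (DD K) = finrank K (DU K) := Subspace.dual_finrank_eq.symm
  have hsurj : Function.Surjective (ω : DD K →ₗ[K] DU K) :=
    (LinearMap.injective_iff_surjective_of_finrank_eq_finrank hrk).1 hinj
  have hBf : ∀ f, ω (B f) = dd f := fun f => by
    obtain ⟨H, hH⟩ := hsurj (dd f)
    have h1 : B f = H := hC.bas.ext _ _ fun i => by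
      rw [hx H, hH, dd_apply, hsk]
    rw [h1, hH]
  have hw : ∀ (Z : DD K) (p : ℤ), ⁅E, Z⁆ = (p : ℂ) • Z → ∀ X,
      E (ω Z X) - ω Z ⁅E, X⁆ = ((p + l : ℤ) : ℂ) • ω Z X := by
    intro Z p hZ X
    have h1 : lf E ω Z X = (l : ℂ) • ω Z X := by rw [hwt]; rfl
    have h2 : ω ((p : ℂ) • Z) X = (p : ℂ) • ω Z X := by
      rw [lin_c (ω : DD K →ₗ[K] DU K)]
      rfl
    rw [lf_apply, hZ, h2] at h1
    rw [Int.cast_add, add_smul, ← h1]
    ring
  have hp : ∀ Z ∈ TT S, ∀ p : ℤ, ⁅E, Z⁆ = (p : ℂ) • Z → Z ≠ 0 → 0 < p + l := by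
    intro Z hZ p h h0
    refine hpos (ω Z) (p + l) (fun e => h0 (hinj ?_)) (fun X hX => hreg Z hZ X hX) (hw Z p h)
    rw [map_zero]
    exact e
  refine ⟨fun h0 => ?_, fun Z hZ p h hl => ?_⟩
  · have := hp E hC.ev.tm 0 (by simp) h0
    simpa using this
  · by_cases h0 : Z = 0
    · exact ⟨0, zero_mem S, by simp, by simp [h0]⟩
    have h1 : ((p + l : ℤ) : ℂ) ≠ 0 := by exact_mod_cast (hp Z hZ p h h0).ne'
    have h2 : ∀ Y, Y (ω Z E) = ((p + l : ℤ) : ℂ) • ω Z Y := by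
      intro Y
      have h3 := hclo.2 Z E Y
      have h4 : lf Z ω E Y = 0 := by rw [hl]; rfl
      rw [lf_apply] at h4
      rw [hneg ⁅Z, Y⁆ E, hneg ⁅E, Y⁆ Z] at h3
      rw [← hw Z p h Y]
      linear_combination h3 - h4
    have h5 : ∀ Y : DD K, Y (((p + l : ℤ) : ℂ)⁻¹ • ω Z E) = ω Z Y := fun Y => by
      rw [Derivation.map_smul, h2, smul_smul, inv_mul_cancel₀ h1, one_smul]
    refine ⟨((p + l : ℤ) : ℂ)⁻¹ • ω Z E, S.smul_mem (hreg Z hZ E hC.ev.tm) _, ?_, hinj ?_⟩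
    · rw [h5, smul_smul, mul_inv_cancel₀ h1, one_smul]
    · refine Eq.trans ?_ (hBf _).symm
      exact LinearMap.ext fun Y => (h5 Y).symm

end Pool.Agent.MP_51db15_ag.Qh

end

section
/-! IMP: a dilating field is improved until its symbol is a multiple of the Euler field. -/

namespace Pool.Agent.MP_51db15_ag.Qh

open Module

noncomputable section

namespace IMPx

variable {K : Type} [Field K] [Algebra ℂ K] {R : Type} [CommRing R] [Algebra ℂ R]

theorem lf_add (X Y : DD K) (η : FF K) : lf (X + Y) η = lf X η + lf Y η :=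
  LinearMap.ext fun D => LinearMap.ext fun D' => by
    simp only [lf_apply, add_lie, map_add, LinearMap.add_apply, Derivation.add_apply]
    ring

theorem lf_smul (c : ℂ) (X : DD K) (η : FF K) : lf (c • X) η = c • lf X η :=
  LinearMap.ext fun D => LinearMap.ext fun D' => by
    have h1 : η D (c • ⁅X, D'⁆) = c • η D ⁅X, D'⁆ := lin_c (η D) c _
    have h2 : η (c • ⁅X, D⁆) = c • η ⁅X, D⁆ := lin_c η c _
    simp only [lf_apply, smul_lie, LinearMap.smul_apply, Derivation.smul_apply, h1, h2, smul_sub]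

theorem dil_sub {ω : FR R} (hω : Hy.IsSymplecticForm ω) {ξ H : DR R} {g : R}
    (hξ : Nc.IsDilating ω ξ) (hH : ∀ Y, ω H Y = Y g) : Nc.IsDilating ω (ξ + (-1 : ℂ) • H) := by
  intro Y Z
  have h1 := hξ Y Z
  have h2 := Nc.ham_inv hω hH Y Z
  have e : ξ + (-1 : ℂ) • H = ξ - H := by rw [neg_one_smul, sub_eq_add_neg]
  rw [e, sub_lie, sub_lie, map_sub, map_sub, LinearMap.sub_apply, Derivation.sub_apply]
  linear_combination h1 - h2

theorem od_mono {F : ℤ → Ideal R} (hF : Antitone F) {D : DR R} {p q : ℤ} (h : Od F D p)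
    (hq : q ≤ p) : Od F D q := fun k r hr => hF (by omega) (h k r hr)

end IMPx

open IMPx in
theorem imp (d : S_OMD) : S_IMP := by
  intro K ι R _ _ _ _ _ S E x a F X σ ω l ω₀ B hF hω hL hB hE hl hH ξ hξ
  have step : ∀ (ξ : DR R) (p : ℤ) (Z' Z : DD K), Nc.IsDilating ω ξ → Sym F σ ξ p Z' →
      Z ∈ TT S → ⁅E, Z⁆ = (p : ℂ) • Z → lf Z ω₀ = 0 →
      ∃ ξ' : DR R, Nc.IsDilating ω ξ' ∧ Sym F σ ξ' p (Z' + (-1 : ℂ) • Z) := by
    intro ξ p Z' Z h1 h2 h3 h4 h5
    obtain ⟨f, hf, hfE, rfl⟩ := hH Z h3 p h4 h5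
    obtain ⟨r, hr, rfl⟩ := hF.fb.surj (p + l) f hf hfE
    obtain ⟨H, hHr⟩ := hω.2.2 r
    have h6 := hB (p + l) r hr H hHr
    rw [add_sub_cancel_right] at h6
    exact ⟨_, dil_sub hω h1 hHr, hF.sy.add _ _ _ _ _ h2 (hF.sy.csmul _ _ _ (-1) h6)⟩
  have up : ∀ (p : ℤ), p < 0 → ∀ ξ : DR R, Nc.IsDilating ω ξ → Od F ξ p →
      ∃ ξ' : DR R, Nc.IsDilating ω ξ' ∧ Od F ξ' (p + 1) := by
    intro p hp ξ h1 h2
    obtain ⟨Z, hZ⟩ := hF.sy.ex ξ p h2
    obtain ⟨m1, m2⟩ := hF.sy.mem ξ p Z hZ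
    obtain ⟨ξ', k1, k2⟩ := step ξ p Z Z h1 hZ m1 m2
      ((d K ι R S E x a F X σ ω l ω₀ hF hL ξ p Z h1 hZ).1 hp)
    rw [neg_one_smul, add_neg_cancel] at k2
    exact ⟨ξ', k1, (hF.sy.zero ξ' p).1 k2⟩
  have ind : ∀ (n : ℕ) (ξ : DR R), Nc.IsDilating ω ξ → Od F ξ (-(n : ℤ)) →
      ∃ ξ' : DR R, Nc.IsDilating ω ξ' ∧ Od F ξ' 0 := by
    intro n
    induction n with
    | zero => exact fun ξ h1 h2 => ⟨ξ, h1, by simpa using h2⟩
    | succ n ih =>
      intro ξ h1 h2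
      obtain ⟨ξ', k1, k2⟩ := up _ (by push_cast; omega) ξ h1 h2
      exact ih ξ' k1 (od_mono hF.fa.anti k2 (by push_cast; omega))
  obtain ⟨b, hb⟩ := hF.sy.low
  obtain ⟨ξ', k1, k2⟩ := ind b.natAbs ξ hξ (od_mono hF.fa.anti (hb ξ) (by omega))
  obtain ⟨Z, hZ⟩ := hF.sy.ex ξ' 0 k2
  obtain ⟨m1, m2⟩ := hF.sy.mem ξ' 0 Z hZ
  have m3 := (d K ι R S E x a F X σ ω l ω₀ hF hL ξ' 0 Z k1 hZ).2 rfl
  have hl' : (l : ℂ) ≠ 0 := Int.cast_ne_zero.2 hl.ne'
  have n1 : Z + (-(l : ℂ)⁻¹) • E ∈ TT S :=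
    add_mem m1 (((TT S).restrictScalars ℂ).smul_mem _ hF.cone.ev.tm)
  have n2 : ⁅E, Z + (-(l : ℂ)⁻¹) • E⁆ = ((0 : ℤ) : ℂ) • (Z + (-(l : ℂ)⁻¹) • E) := by
    rw [lie_add, lie_smul, lie_self, m2, smul_zero, Int.cast_zero, zero_smul, zero_smul, add_zero]
  have n3 : lf (Z + (-(l : ℂ)⁻¹) • E) ω₀ = 0 := by
    rw [lf_add, lf_smul, m3, hE, smul_smul, neg_mul, inv_mul_cancel₀ hl']
    refine LinearMap.ext fun D => LinearMap.ext fun D' => ?_
    simp only [LinearMap.add_apply, LinearMap.smul_apply, LinearMap.zero_apply, neg_smul, one_smul,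
      add_neg_cancel]
  obtain ⟨ξ'', -, j2⟩ := step ξ' 0 Z _ k1 hZ n1 n2 n3
  refine ⟨ξ'', ?_⟩
  have e : Z + (-1 : ℂ) • (Z + (-(l : ℂ)⁻¹) • E) = (l : ℂ)⁻¹ • E := by
    rw [neg_one_smul, neg_smul, neg_add, neg_neg, add_neg_cancel_left]
  rwa [e] at j2

end

end Pool.Agent.MP_51db15_ag.Qh

end

section
/-! Row MAIN4: a balanced normal weighted tangent cone gives a contracting field. -/

namespace Pool.Agent.MP_51db15_ag.Qh

namespace MAIN4x

variable {K ι R : Type} [Field K] [Algebra ℂ K] [Fintype ι] [CommRing R] [Algebra ℂ R]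
  {S : Subalgebra ℂ K} {E : DD K} {x : ι → K} {a : ι → ℕ} {F : ℤ → Ideal R} {X : ι → R}
  {σ : ℤ → R →ₗ[ℂ] K}

omit [Fintype ι] in
theorem exD (h : Flt S E x a F X σ) (hE : E ≠ 0) : ∃ D : DR R, D ≠ 0 := by
  obtain ⟨δ, d, D, h1, -, h3⟩ := h.lift ⊥ Ideal.isPrime_bot
    (fun g hg => ⟨0, zero_mem _, by rw [(Ideal.mem_bot).1 hg]; simp⟩)
    ⟨0, zero_mem _, 1, by simp, fun g hg => ⟨0, by simpa using hg⟩⟩ E h.cone.ev.tm 0 (by simp)
  refine ⟨D, fun h0 => ?_⟩
  subst h0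
  have h4 := h.sy.uniq _ _ _ _ h3 ((h.sy.zero _ _).2 fun k r _ => zero_mem _)
  rcases smul_eq_zero.1 h4 with h5 | h5
  · exact h1 (by rw [Ideal.mem_bot]; exact Subtype.ext h5)
  · exact hE h5

theorem euler (om0 : S_OM0) (omr : S_OMR) (omc : S_OMC) (pi0 : S_PI0) (eq : S_EQ) (ham0 : S_HAM0)
    (imp : S_IMP) (h : Flt S E x a F X σ) (hN : Nrm S) (ω : FR R) (hω : Hy.IsSymplecticForm ω)
    (ξ : DR R) (hξ : Nc.IsDilating ω ξ) (h1 : PosForms S E) (h2 : Balanced S E) :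
    ∃ D : DR R, Sym F σ D 0 E := by
  by_cases hE : E = 0
  · refine ⟨0, ?_⟩
    rw [hE]
    exact (h.sy.zero _ _).2 fun k r _ => zero_mem _
  have hD := exD h hE
  have h0 : ω ≠ 0 := by
    rintro rfl
    obtain ⟨D, hD⟩ := hD
    refine hD (Derivation.ext fun g => ?_)
    obtain ⟨Y, hY⟩ := hω.2.2 g
    exact (hY D).symm
  obtain ⟨l, ω₀, n0, hl⟩ := om0 K ι R S E x a F X σ ω h h0
  obtain ⟨c0, w0⟩ := omc K ι R S E x a F X σ ω l ω₀ h hω hl
  have r0 := omr K ι R S E x a F X σ ω l ω₀ h hN hl w0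
  obtain ⟨l', B, b0, b1, b2, b3, b4⟩ := pi0 K ι R S E x a F X σ ω h hω hD
  have hle : 0 ≤ l + -l' := h2 ω₀ B l (-l') n0 c0.1 (fun Y Z hY hZ => r0 Y hY Z hZ)
    (fun Y Z => by
      have e : lf E ω₀ Y Z = (l : ℂ) • ω₀ Y Z := by rw [w0]; rfl
      rw [← e, lf_apply]
      ring) b0 b1 b2 b3
  obtain ⟨e1, e2⟩ := eq K ι R S E x a F X σ ω l l' ω₀ B h hω hD hl b4 (by omega)
  subst e1
  obtain ⟨p1, p2⟩ := ham0 K ι S E x a ω₀ B l' h.cone h1 r0 c0 w0 b1 e2
  obtain ⟨ξ', hs⟩ := imp K ι R S E x a F X σ ω l' ω₀ B h hω hl b4 w0 (p1 hE) p2 ξ hξ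
  refine ⟨(l' : ℂ) • ξ', ?_⟩
  have h3 := h.sy.csmul _ _ _ (l' : ℂ) hs
  rwa [smul_smul, mul_inv_cancel₀ (by exact_mod_cast (p1 hE).ne'), one_smul] at h3

end MAIN4x

open MAIN4x in
theorem main4 (wc : S_WC) (fa : S_FA) (fb : S_FB) (sy : S_SY) (lift : S_LIFT) (om0 : S_OM0)
    (omr : S_OMR) (omc : S_OMC) (pi0 : S_PI0) (eq : S_EQ) (ham0 : S_HAM0) (imp : S_IMP)
    (amb : S_AMB) (b : S_BAS) (ev : S_EV) (vt : S_VTX) (ef : S_EVF) (ι K : Type) [Fintype ι]
    [DecidableEq ι] [Field K] [Algebra ℂ K] (I : Ideal (MvPowerSeries ι ℂ))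
    [IsDomain (MvPowerSeries ι ℂ ⧸ I)] (ω : FR (MvPowerSeries ι ℂ ⧸ I))
    (hω : Hy.IsSymplecticForm ω) (ξ : DR (MvPowerSeries ι ℂ ⧸ I)) (hξ : Nc.IsDilating ω ξ)
    (a : ι → ℕ) (ha : ∀ i, 0 < a i) (φ : MvPolynomial ι ℂ →ₐ[ℂ] K)
    (hker : RingHom.ker φ = wCone a I) [IsFractionRing φ.range K] [IsIntegrallyClosed φ.range]
    (E : DD K) (hE : ∀ i, E (φ (.X i)) = (a i : ℂ) • φ (.X i)) (h1 : PosForms φ.range E)
    (h2 : Balanced φ.range E) :
    ∃ η : Derivation ℂ (MvPowerSeries ι ℂ) (MvPowerSeries ι ℂ), (∀ g ∈ I, η g ∈ I) ∧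
      (∀ g ∈ IsLocalRing.maximalIdeal (MvPowerSeries ι ℂ),
        η g ∈ IsLocalRing.maximalIdeal (MvPowerSeries ι ℂ)) ∧
      ∀ (c : ℂ), ∀ g ∈ IsLocalRing.maximalIdeal (MvPowerSeries ι ℂ),
        g ∉ IsLocalRing.maximalIdeal (MvPowerSeries ι ℂ) ^ 2 →
        η g - c • g ∈ IsLocalRing.maximalIdeal (MvPowerSeries ι ℂ) ^ 2 → 0 < c.re := by
  obtain ⟨F, hW⟩ := wc ι K a I φ ha hker
  have hA := fa ι K _ _ a φ F hW
  obtain ⟨σ, hB, hσ⟩ := fb ι K _ _ a φ F E hW hE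
  have cx : Cx φ.range E (fun i => φ (.X i)) a := by
    refine ⟨?_, fun y => ?_, hE⟩
    · rw [Algebra.adjoin_range_eq_range_aeval]
      congr 1
      ext i
      simp
    · obtain ⟨g, h, hh, rfl⟩ := IsFractionRing.div_surjective (A := φ.range) y
      exact ⟨g, g.2, h, h.2, fun e => nonZeroDivisors.ne_zero hh (Subtype.ext e), rfl⟩
  have hb := b K ι _ E _ a cx
  have he := ev K ι _ E _ a cx hb
  have hv := vt K ι _ E _ a cx ha hb he
  have hC : Cone φ.range E (fun i => φ (.X i)) a := ⟨cx, ha, hb, he, hv, ef K ι _ E _ a cx hb he hv⟩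
  have hS := sy K ι _ _ E _ a F _ σ hC hA hB
  have hN : Nrm φ.range := fun y hy => by
    obtain ⟨z, rfl⟩ := IsIntegrallyClosed.isIntegral_iff.1 hy
    exact z.2
  obtain ⟨D, hD⟩ := euler om0 omr omc pi0 eq ham0 imp
    ⟨hC, hA, hB, hS, lift ι K _ _ a φ F E σ hW hC hA hB hσ hS⟩ hN ω hω ξ hξ h1 h2
  obtain ⟨η, e1, e2, e3⟩ := amb ι K _ _ a φ F D hW fun i => by
    have m1 := hD.1 _ _ (hA.gen i)
    have m2 := hD.2 _ _ (hA.gen i)
    rw [add_zero] at m1 m2
    refine (hB.zero _ _ (sub_mem m1 ?_)).1 ?_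
    · rw [Algebra.smul_def]
      exact Ideal.mul_mem_left _ _ (hA.gen i)
    · rw [map_sub, map_smul, m2, hB.gen, hE, sub_self]
  exact ⟨η, fun g hg => Ideal.Quotient.eq_zero_iff_mem.1
    (e1 g (Ideal.Quotient.eq_zero_iff_mem.2 hg)), e2, e3⟩

end Pool.Agent.MP_51db15_ag.Qh

end
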