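import Pool.Agent.MP_51db15_ag.Qh.Final
import Pool.Agent.MP_51db15_ag.Qh.N1
import Pool.Agent.MP_51db15_ag.Qh.N2

/-! A balanced normal weighted tangent cone makes the germ conical. -/

namespace Pool.Agent.MP_51db15_ag.Qh

theorem cone_of {ι K : Type} [Fintype ι] [Field K] [Algebra ℂ K] {a : ι → ℕ} (ha : ∀ i, 0 < a i)
    (φ : MvPolynomial ι ℂ →ₐ[ℂ] K) [IsFractionRing φ.range K] {E : DD K}
    (hE : ∀ i, E (φ (.X i)) = (a i : ℂ) • φ (.X i)) : Cone φ.range E (fun i => φ (.X i)) a := by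
  have cx : Cx φ.range E (fun i => φ (.X i)) a := by
    refine ⟨?_, fun y => ?_, hE⟩
    · rw [Algebra.adjoin_range_eq_range_aeval]
      congr 1
      ext i
      simp
    · obtain ⟨g, h, hh, rfl⟩ := IsFractionRing.div_surjective (A := φ.range) y
      exact ⟨g, g.2, h, h.2, fun e => nonZeroDivisors.ne_zero hh (Subtype.ext e), rfl⟩
  have hb := bas K ι _ E _ a cx
  have he := rEV K ι _ E _ a cx hb
  have hv := rVTX K ι _ E _ a cx ha hb he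
  exact ⟨cx, ha, hb, he, hv, rEVF K ι _ E _ a cx hb he hv⟩

theorem balanced_conical (ι : Type) [Fintype ι] [DecidableEq ι] (I : Ideal (MvPowerSeries ι ℂ))
    [IsDomain (MvPowerSeries ι ℂ ⧸ I)] [IsIntegrallyClosed (MvPowerSeries ι ℂ ⧸ I)]
    (ω : FR (MvPowerSeries ι ℂ ⧸ I)) (hω : Hy.IsSymplecticForm ω) (hV : KaeR ω)
    (ξ : DR (MvPowerSeries ι ℂ ⧸ I)) (hξ : Nc.IsDilating ω ξ) (a : ι → ℕ) (ha : ∀ i, 0 < a i)
    (L : Type) [Field L] [Algebra ℂ L] (φ : MvPolynomial ι ℂ →ₐ[ℂ] L)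
    (hφ : RingHom.ker φ = wCone a I) [IsFractionRing φ.range L] [IsIntegrallyClosed φ.range]
    (E : DD L) (hE : ∀ i, E (φ (.X i)) = (a i : ℂ) • φ (.X i)) (h1 : PosForms φ.range E)
    (h2 : Balanced φ.range E) :
    ∃ (ψ : MvPowerSeries ι ℂ ≃ₐ[ℂ] MvPowerSeries ι ℂ) (K : Type) (_ : Field K) (_ : Algebra ℂ K)
      (φ : MvPolynomial ι ℂ →ₐ[ℂ] K) (ω₀ : FF K) (𝒢 : ℕ → Submodule ℂ φ.range),
      ((RingHom.ker φ).map MvPolynomial.coeToMvPowerSeries.ringHom).map ψ = I ∧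
        IsConicalSymplectic φ.range ω₀ 𝒢 ∧ ∀ d, 0 < d → ∀ f ∈ 𝒢 d,
          f ∈ Ideal.span (Set.range fun i => φ.rangeRestrict (MvPolynomial.X i)) := by
  obtain ⟨η, e1, e2, e3⟩ := main4 wc fa fb sy (lift (jbw Nc.ja) jct) (om0 genf) omr omc pi0 eq ham0
    (imp omd) amb bas rEV rVTX rEVF ι L I ω hω ξ hξ a ha φ hφ E hE h1 h2
  exact main3 hj (hg rat hker) ini2 (hnrm sca) (hat hker) bas rEV rVTX rEVF (hl gen) (hgen gen hdc)
    (hcmp gen) hp1 hclo hreg hpi (hperf gen) rHLTP clo pi (idc idem) st rCON alg rPERF rSLP2 rEND2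
    ι I ω hω hV η e1 e2 e3

end Pool.Agent.MP_51db15_ag.Qh
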