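import Pool.Agent.MP_51db15_ag.Qh.Spec5

/-! Merged rows: HSS HSE HST HSA HSN HSH HSU HSB. -/

section
/-! PROJECT SS, row HSS: the Hilbert series of the cone. -/

namespace Pool.Agent.MP_51db15_ag.Qh

open Module

namespace HSSx

variable {K ι : Type} [Field K] [Algebra ℂ K] [Fintype ι] {S : Subalgebra ℂ K} {E : DD K}
  {x : ι → K} {a : ι → ℕ}

theorem mon (c : Cx S E x a) (y : K) (hy : y ∈ Submonoid.closure (Set.range x)) :
    ∃ α : ι → ℕ, y = ∏ i, x i ^ α i ∧ E y = ((∑ i, a i * α i : ℕ) : ℂ) • y := by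
  classical
  induction hy using Submonoid.closure_induction with
  | mem y h =>
    obtain ⟨i, rfl⟩ := h
    refine ⟨Pi.single i 1, ?_, ?_⟩
    · rw [Finset.prod_eq_single i (fun j _ hj => by simp [hj]) (by simp)]
      simp
    · rw [Finset.sum_eq_single i (fun j _ hj => by simp [hj]) (by simp), c.eig]
      simp
  | one => exact ⟨0, by simp, by simp⟩
  | mul y z _ _ hy hz =>
    obtain ⟨α, y1, y2⟩ := hy
    obtain ⟨β, z1, z2⟩ := hz
    refine ⟨α + β, ?_, ?_⟩
    · rw [y1, z1, ← Finset.prod_mul_distrib]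
      exact Finset.prod_congr rfl fun i _ => (pow_add _ _ _).symm
    · rw [Derivation.leibniz, y2, z2]
      simp only [Pi.add_apply, mul_add, Finset.sum_add_distrib, Nat.cast_add, smul_eq_mul,
        Algebra.smul_def, map_add]
      ring

theorem le_span (c : Cx S E x a) (k : ℤ) : SC S ⊓ (op E).eigenspace (k : ℂ) ≤
    Submodule.span ℂ ((fun α : ι → ℕ => ∏ i, x i ^ α i) ''
      {α | ((∑ i, a i * α i : ℕ) : ℤ) = k}) := by
  obtain ⟨A, hA⟩ : ∃ A : Submodule ℂ K, A = Submodule.span ℂ ((fun α : ι → ℕ => ∏ i, x i ^ α i) ''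
      {α | ((∑ i, a i * α i : ℕ) : ℤ) = k}) := ⟨_, rfl⟩
  rw [← hA]
  have h1 : SC S ≤ (A ⊓ (op E).eigenspace (k : ℂ)) ⊔
      ⨆ (z : ℂ) (_ : z ≠ k), (op E).eigenspace z := by
    rw [← c.gen, SC, Algebra.adjoin_eq_span]
    refine Submodule.span_le.2 fun y hy => ?_
    obtain ⟨α, y1, y2⟩ := mon c y hy
    by_cases h : ((∑ i, a i * α i : ℕ) : ℤ) = k
    · refine Submodule.mem_sup_left ⟨hA ▸ Submodule.subset_span ⟨α, h, y1.symm⟩,
        End.mem_eigenspace_iff.2 ?_⟩
      rw [← h, Int.cast_natCast]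
      exact y2
    · exact Submodule.mem_sup_right (Submodule.mem_iSup_of_mem _ (Submodule.mem_iSup_of_mem
        (fun e => h (by exact_mod_cast e)) (End.mem_eigenspace_iff.2 y2)))
  refine (inf_le_inf_right _ h1).trans ?_
  rw [sup_inf_assoc_of_le _ inf_le_right, (End.eigenspaces_iSupIndep (op E) k).symm.eq_bot,
    sup_bot_eq]
  exact inf_le_left

theorem rank_le (c : Cx S E x a) (h : ∀ i, 0 < a i) (n : ℕ) :
    finrank ℂ ↥(SC S ⊓ (op E).eigenspace ((n : ℤ) : ℂ)) ≤ (n + 1) ^ Fintype.card ι := by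
  classical
  have h1 : SC S ⊓ (op E).eigenspace ((n : ℤ) : ℂ) ≤ Submodule.span ℂ
      (((Fintype.piFinset fun _ : ι => Finset.range (n + 1)).image
        fun α : ι → ℕ => ∏ i, x i ^ α i : Finset K) : Set K) := by
    refine (le_span c n).trans (Submodule.span_mono ?_)
    rw [Finset.coe_image]
    refine Set.image_mono fun α hα => Fintype.mem_piFinset.2 fun i => Finset.mem_range.2 ?_
    have e : ∑ i, a i * α i = n := by exact_mod_cast hα
    have h2 : a i * α i ≤ ∑ i, a i * α i :=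
      Finset.single_le_sum (f := fun i => a i * α i) (fun _ _ => Nat.zero_le _) (Finset.mem_univ i)
    have h3 := Nat.le_mul_of_pos_left (α i) (h i)
    omega
  refine (Submodule.finrank_mono h1).trans ((finrank_span_finset_le_card _).trans
    (Finset.card_image_le.trans_eq ?_))
  rw [Fintype.card_piFinset]
  simp

theorem rank_neg (c : Cx S E x a) (k : ℤ) (hk : k < 0) :
    finrank ℂ ↥(SC S ⊓ (op E).eigenspace (k : ℂ)) = 0 := by
  have h1 := le_span c k
  rw [Set.eq_empty_of_forall_notMem (s := {α : ι → ℕ | ((∑ i, a i * α i : ℕ) : ℤ) = k})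
    fun α hα => by have : ((∑ i, a i * α i : ℕ) : ℤ) = k := hα; omega, Set.image_empty,
    Submodule.span_empty, le_bot_iff] at h1
  rw [h1, finrank_bot]

end HSSx

theorem hss : S_HSS := by
  intro K ι _ _ _ S E x a hC t t0 t1
  have h1 : Smb (op E) (SC S) t := by
    refine Summable.of_nat_of_neg_add_one ?_ ?_
    · have h2 := ((summable_nat_add_iff 1).2 (summable_pow_mul_geometric_of_norm_lt_one
        (Fintype.card ι) (r := t) (by rwa [Real.norm_of_nonneg t0.le]))).mul_right t⁻¹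
      refine Summable.of_nonneg_of_le (fun n => by positivity) (fun n => ?_) h2
      have h3 : (finrank ℂ ↥(SC S ⊓ (op E).eigenspace ((n : ℤ) : ℂ)) : ℝ) ≤
          ((n + 1 : ℕ) : ℝ) ^ Fintype.card ι := by
        exact_mod_cast HSSx.rank_le hC.cx hC.pos n
      rw [zpow_natCast, pow_succ t, mul_assoc, mul_assoc, mul_inv_cancel₀ t0.ne', mul_one]
      exact mul_le_mul_of_nonneg_right h3 (by positivity)
    · refine summable_zero.congr fun n => ?_
      rw [HSSx.rank_neg hC.cx _ (by omega), Nat.cast_zero, zero_mul]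
  refine ⟨h1, h1.tsum_pos (fun k => by positivity) 0 (mul_pos ?_ (by positivity))⟩
  have := hC.vtx.fd ((0 : ℤ) : ℂ)
  exact Nat.cast_pos.2 (finrank_pos_iff_exists_ne_zero.2 ⟨⟨1, one_mem S,
    End.mem_eigenspace_iff.2 (by simp)⟩, fun e => one_ne_zero (congrArg Subtype.val e)⟩)

end Pool.Agent.MP_51db15_ag.Qh

end

section
/-! Row HSE: convergence is detected by finitely many evaluations. -/

namespace Pool.Agent.MP_51db15_ag.Qh

open Module

theorem hse : S_HSE := by
  intro U W ι _ _ _ _ _ δ δ' H H' ev α hev hinj hcom hF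
  have key : ∀ c : ℂ, FiniteDimensional ℂ ↥(H ⊓ δ.eigenspace c) ∧
      finrank ℂ ↥(H ⊓ δ.eigenspace c) ≤
        ∑ i, finrank ℂ ↥(H' ⊓ δ'.eigenspace (c + (α i : ℂ))) := by
    intro c
    have : ∀ i, FiniteDimensional ℂ ↥(H' ⊓ δ'.eigenspace (c + (α i : ℂ))) := fun i => hF _
    have hmem : ∀ (i : ι) (u : ↥(H ⊓ δ.eigenspace c)),
        (ev i ∘ₗ (H ⊓ δ.eigenspace c).subtype) u ∈ H' ⊓ δ'.eigenspace (c + (α i : ℂ)) := by
      rintro i ⟨u, hu, hue⟩
      refine ⟨hev u hu i, End.mem_eigenspace_iff.2 ?_⟩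
      have h1 : δ u = c • u := End.mem_eigenspace_iff.1 hue
      have h2 := hcom u hu i
      rw [h1, map_smul] at h2
      change δ' (ev i u) = (c + (α i : ℂ)) • ev i u
      rw [add_smul, h2, sub_add_cancel]
    let T : ↥(H ⊓ δ.eigenspace c) →ₗ[ℂ] (∀ i, ↥(H' ⊓ δ'.eigenspace (c + (α i : ℂ)))) :=
      LinearMap.pi fun i => LinearMap.codRestrict _ (ev i ∘ₗ (H ⊓ δ.eigenspace c).subtype) (hmem i)
    have hT : Function.Injective T := by
      rw [injective_iff_map_eq_zero]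
      intro u hu
      refine Subtype.ext (hinj u.1 u.2.1 fun i => ?_)
      exact congrArg Subtype.val (congrFun hu i)
    refine ⟨FiniteDimensional.of_injective T hT, ?_⟩
    rw [← Module.finrank_pi_fintype ℂ]
    exact LinearMap.finrank_le_finrank_of_injective hT
  refine ⟨fun c => (key c).1, fun t ht hs => ?_⟩
  have h1 : ∀ i, Summable fun k : ℤ =>
      (finrank ℂ ↥(H' ⊓ δ'.eigenspace ((k : ℂ) + (α i : ℂ))) : ℝ) * t ^ k := by
    intro i
    have h2 := ((Equiv.addRight (α i)).summable_iff.2 hs).mul_right (t ^ (-α i))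
    refine h2.congr fun k => ?_
    simp only [Function.comp_apply, Equiv.coe_addRight]
    rw [Int.cast_add, mul_assoc, ← zpow_add₀ ht.ne', add_neg_cancel_right]
  refine Summable.of_nonneg_of_le (fun k => by positivity) (fun k => ?_)
    (summable_sum fun i (_ : i ∈ Finset.univ) => h1 i)
  rw [← Finset.sum_mul]
  refine mul_le_mul_of_nonneg_right ?_ (by positivity)
  exact_mod_cast (key k).2

end Pool.Agent.MP_51db15_ag.Qh

end

section
/-! Project SS: the series of fields and of forms converge. -/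

namespace Pool.Agent.MP_51db15_ag.Qh

open Module

namespace HSTx

variable {K ι : Type} [Field K] [Algebra ℂ K] {S : Subalgebra ℂ K} {E : DD K} {x : ι → K}
  {a : ι → ℕ}

/-- evaluation of a field -/
def evT (g : K) : DD K →ₗ[ℂ] K where
  toFun D := D g
  map_add' _ _ := rfl
  map_smul' _ _ := rfl

/-- evaluation of a form -/
def evD (u : DD K) : DU K →ₗ[ℂ] K where
  toFun γ := γ u
  map_add' _ _ := rfl
  map_smul' _ _ := rfl

theorem span_top (h : Cone S E x a) :
    Submodule.span K {D : DD K | D ∈ TT S ∧ ∃ p : ℤ, ⁅E, D⁆ = (p : ℂ) • D} = ⊤ := by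
  refine eq_top_iff.2 fun D _ => ?_
  obtain ⟨s, -, hs, hD⟩ := h.bas.den D
  have h1 : (⨆ n : ℤ, TC S ⊓ (ad E).eigenspace (n : ℂ)) ≤ (Submodule.span K
      {D : DD K | D ∈ TT S ∧ ∃ p : ℤ, ⁅E, D⁆ = (p : ℂ) • D}).restrictScalars ℂ :=
    iSup_le fun n u hu => Submodule.subset_span ⟨hu.1, n, End.mem_eigenspace_iff.1 hu.2⟩
  have h2 := Submodule.smul_mem _ s⁻¹ (show s • D ∈ Submodule.span K _ from h1 (h.ev.T _ hD))
  rwa [inv_smul_smul₀ hs] at h2

theorem exists_fam (h : Cone S E x a) : ∃ (κ : Type) (_ : Fintype κ) (u : κ → DD K) (p : κ → ℤ),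
    (∀ j, u j ∈ TT S ∧ ⁅E, u j⁆ = (p j : ℂ) • u j) ∧ Submodule.span K (Set.range u) = ⊤ := by
  have := h.bas.fd
  obtain ⟨b, hb, h1, h2⟩ := exists_linearIndependent K
    {D : DD K | D ∈ TT S ∧ ∃ p : ℤ, ⁅E, D⁆ = (p : ℂ) • D}
  have : Finite b := h2.finite
  choose p hp using fun j : b => (hb j.2).2
  exact ⟨b, Fintype.ofFinite b, fun j => j, p, fun j => ⟨(hb j.2).1, hp j⟩, by
    rw [Subtype.range_coe, h1, span_top h]⟩

end HSTx

theorem hst (s : S_HSS) (e : S_HSE) : S_HST := by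
  intro K ι _ _ _ S E x a h
  obtain ⟨κ, _, u, p, hu, hs⟩ := HSTx.exists_fam h
  have hT := e (DD K) K ι (ad E) (op E) (TC S) (SC S) (fun i => HSTx.evT (x i))
    (fun i => (a i : ℤ)) (fun D hD i => hD _ (h.bas.mem i))
    (fun D _ h0 => h.bas.ext D 0 h0)
    (fun D _ i => by
      change ⁅E, D⁆ (x i) = E (D (x i)) - ((a i : ℤ) : ℂ) • D (x i)
      rw [Derivation.commutator_apply, h.cx.eig, Derivation.map_smul, Int.cast_natCast])
    h.vtx.fd
  have hD := e (DU K) K κ (ld E) (op E) (DC S) (SC S) (fun j => HSTx.evD (u j)) p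
    (fun γ hγ j => hγ _ (hu j).1)
    (fun γ _ h0 => LinearMap.ext_on_range hs h0)
    (fun γ _ j => by
      change ld E γ (u j) = E (γ (u j)) - (p j : ℂ) • γ (u j)
      rw [ld_apply, (hu j).2, lin_c])
    h.vtx.fd
  exact ⟨hD.1, fun t h0 h1 => ⟨hT.2 t h0 (s K ι S E x a h t h0 h1).1,
    hD.2 t h0 (s K ι S E x a h t h0 h1).1⟩⟩

end Pool.Agent.MP_51db15_ag.Qh

end

section
/-! Additivity of Hilbert series along a homogeneous map. -/

namespace Pool.Agent.MP_51db15_ag.Qh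

open Module

namespace HSAx

variable {U W : Type} [AddCommGroup U] [Module ℂ U] [AddCommGroup W] [Module ℂ W]

theorem rn (V : Submodule ℂ U) [FiniteDimensional ℂ V] (f : U →ₗ[ℂ] W) :
    finrank ℂ ↥(V.map f) + finrank ℂ ↥(V ⊓ LinearMap.ker f) = finrank ℂ V := by
  have h := LinearMap.finrank_range_add_finrank_ker (f.domRestrict V)
  have e : LinearMap.ker (f.domRestrict V) = (V ⊓ LinearMap.ker f).comap V.subtype := by
    ext x
    simp
  rwa [LinearMap.range_domRestrict, e,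
    (Submodule.comapSubtypeEquivOfLe (inf_le_left : V ⊓ LinearMap.ker f ≤ V)).finrank_eq] at h

theorem img {δ : End ℂ U} {δ' : End ℂ W} {H : Submodule ℂ U} {f : U →ₗ[ℂ] W} {l : ℤ}
    (hz : Dz δ H) (hf : ∀ u, δ' (f u) = f (δ u) + (l : ℂ) • f u) (j : ℤ) :
    H.map f ⊓ δ'.eigenspace ((j + l : ℤ) : ℂ) = (H ⊓ δ.eigenspace (j : ℂ)).map f := by
  have ev : ∀ (n : ℤ) (u : U), u ∈ δ.eigenspace (n : ℂ) →
      f u ∈ δ'.eigenspace ((n + l : ℤ) : ℂ) := fun n u hu => by
    rw [End.mem_eigenspace_iff] at hu ⊢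
    rw [hf, hu, map_smul, Int.cast_add, add_smul]
  refine le_antisymm ?_ ?_
  · rintro _ ⟨⟨u, hu, rfl⟩, hw⟩
    have key : ∃ a ∈ H ⊓ δ.eigenspace (j : ℂ), f u - f a ∈
        ⨆ (c : ℂ) (_ : c ≠ ((j + l : ℤ) : ℂ)), δ'.eigenspace c := by
      refine Submodule.iSup_induction _ (motive := fun u => ∃ a ∈ H ⊓ δ.eigenspace (j : ℂ),
        f u - f a ∈ ⨆ (c : ℂ) (_ : c ≠ ((j + l : ℤ) : ℂ)), δ'.eigenspace c) (hz u hu) ?_ ?_ ?_
      · intro n x hx
        by_cases h : n = j
        · exact ⟨x, h ▸ hx, by rw [sub_self]; exact zero_mem _⟩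
        · refine ⟨0, zero_mem _, ?_⟩
          rw [map_zero, sub_zero]
          exact Submodule.mem_iSup_of_mem _ (Submodule.mem_iSup_of_mem
            (fun e => h (add_right_cancel (Int.cast_injective e))) (ev n x hx.2))
      · exact ⟨0, zero_mem _, by rw [sub_self]; exact zero_mem _⟩
      · rintro x y ⟨a, ha, h1⟩ ⟨b, hb, h2⟩
        refine ⟨a + b, add_mem ha hb, ?_⟩
        rw [map_add, map_add, add_sub_add_comm]
        exact add_mem h1 h2
    obtain ⟨a, ha, h⟩ := key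
    exact ⟨a, ha, (sub_eq_zero.1 (Submodule.disjoint_def.1 (δ'.eigenspaces_iSupIndep _) _
      (sub_mem hw (ev j a ha.2)) h)).symm⟩
  · rintro _ ⟨u, hu, rfl⟩
    exact ⟨⟨u, hu.1, rfl⟩, ev j u hu.2⟩

end HSAx

theorem hsa (_k : GenK) : S_HSA := by
  intro U W _ _ _ _ δ δ' H f l t hz hd hf ht hs
  have e : ∀ j : ℤ, (finrank ℂ ↥(H.map f ⊓ δ'.eigenspace ((j + l : ℤ) : ℂ)) : ℝ) =
      finrank ℂ ↥(H ⊓ δ.eigenspace (j : ℂ)) -
        finrank ℂ ↥(H ⊓ LinearMap.ker f ⊓ δ.eigenspace (j : ℂ)) := fun j => by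
    have := hd (j : ℂ)
    rw [HSAx.img hz hf j, ← HSAx.rn (H ⊓ δ.eigenspace (j : ℂ)) f, inf_right_comm H (LinearMap.ker f)]
    push_cast
    ring
  have s2 : Smb δ (H ⊓ LinearMap.ker f) t := by
    refine Summable.of_nonneg_of_le (fun j => by positivity) (fun j => ?_) hs
    refine mul_le_mul_of_nonneg_right ?_ (by positivity)
    have h0 : (0 : ℝ) ≤ finrank ℂ ↥(H.map f ⊓ δ'.eigenspace ((j + l : ℤ) : ℂ)) := Nat.cast_nonneg _
    rw [e j] at h0
    linarith
  rw [hilb, hilb, hilb, ← Summable.tsum_sub hs s2, ← tsum_mul_left,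
    ← (Equiv.addRight l).tsum_eq]
  refine tsum_congr fun j => ?_
  rw [Equiv.coe_addRight, e j, zpow_add₀ ht.ne']
  ring

end Pool.Agent.MP_51db15_ag.Qh

end

section
/-! HSN: first order comparison at `t = 1`. -/

namespace Pool.Agent.MP_51db15_ag.Qh

open Filter

theorem hsn : S_HSN := by
  intro l α β h
  have h1 : HasDerivAt (fun t : ℝ => 1 - t) (-1) 1 := (hasDerivAt_id (1 : ℝ)).const_sub 1
  have h2 : HasDerivAt (fun t : ℝ => t ^ l) ((l : ℝ) * (1 : ℝ) ^ (l - 1)) 1 :=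
    hasDerivAt_zpow l 1 (Or.inl one_ne_zero)
  have h3 := ((h1.const_mul β).const_add 1).sub (h2.mul ((h1.const_mul α).const_add 1))
  have h4 := (hasDerivAt_iff_tendsto_slope_left_right.1 h3).1
  have h5 := le_of_tendsto (b := (0 : ℝ)) h4 (by
    filter_upwards [h, self_mem_nhdsWithin] with t ht ht1
    rw [slope_def_field]
    refine div_nonpos_of_nonneg_of_nonpos ?_ (sub_nonpos.2 (le_of_lt ht1))
    simp only [Pi.sub_apply, Pi.mul_apply, one_zpow, sub_self, mul_zero, add_zero, mul_one,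
      sub_zero, sub_nonneg]
    exact ht)
  simp only [one_zpow, sub_self, mul_zero, add_zero, mul_one, one_mul] at h5
  linarith

end Pool.Agent.MP_51db15_ag.Qh

end

section
/-! The degree of a non-zero homogeneous map is bounded by the slopes. -/

namespace Pool.Agent.MP_51db15_ag.Qh

open Module

namespace HSHx

variable {K U : Type} [Field K] [Algebra ℂ K] [AddCommGroup U] [Module K U] {S : Subalgebra ℂ K}

theorem rk_eq (N : Submodule S U) (V : Submodule K U) (h1 : ∀ u ∈ N, u ∈ V)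
    (h2 : ∀ u ∈ V, ∃ s : K, s ≠ 0 ∧ s • u ∈ N) : rk N = finrank K V := by
  have e : Submodule.span K (N : Set U) = V := by
    refine le_antisymm (Submodule.span_le.2 h1) fun u hu => ?_
    obtain ⟨s, hs, h⟩ := h2 u hu
    have h3 := (Submodule.span K (N : Set U)).smul_mem s⁻¹ (Submodule.subset_span h)
    rwa [inv_smul_smul₀ hs] at h3
  rw [rk, e]

end HSHx

theorem hsh (a : S_HSA) (n : S_HSN) : S_HSH := by
  intro K U W _ _ _ _ _ _ _ _ _ _ _ S E δ δ' M M' f l α β hf hM hδ hden hst hz hfd hs hlo hup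
  let N : Submodule S U := M ⊓ (LinearMap.ker f).restrictScalars S
  let I : Submodule S W := M.map (f.restrictScalars S)
  have mN : ∀ u, u ∈ N ↔ u ∈ M ∧ f u = 0 := fun u => Iff.rfl
  have mI : ∀ w, w ∈ I ↔ ∃ u ∈ M, f u = w := fun w => Iff.rfl
  have rM : rk M = finrank K U := by
    rw [HSHx.rk_eq M ⊤ (fun _ _ => trivial) fun u _ => ?_, finrank_top]
    obtain ⟨s, -, h0, h1⟩ := hden u
    exact ⟨s, h0, h1⟩
  have rN : rk N = finrank K (LinearMap.ker f) := by
    refine HSHx.rk_eq N _ (fun u hu => ((mN u).1 hu).2) fun u hu => ?_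
    obtain ⟨s, -, h0, h1⟩ := hden u
    exact ⟨s, h0, (mN _).2 ⟨h1, by rw [map_smul, LinearMap.mem_ker.1 hu, smul_zero]⟩⟩
  have rI : rk I = finrank K (LinearMap.range f) := by
    refine HSHx.rk_eq I _ (fun w hw => ?_) fun w hw => ?_
    · obtain ⟨u, -, rfl⟩ := (mI w).1 hw
      exact ⟨u, rfl⟩
    · obtain ⟨u, rfl⟩ := hw
      obtain ⟨s, -, h0, h1⟩ := hden u
      exact ⟨s, h0, (mI _).2 ⟨_, h1, map_smul f s u⟩⟩
  have rsum : (rk M : ℝ) - rk N = rk I := by
    rw [rM, rN, rI, ← f.finrank_range_add_finrank_ker]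
    push_cast
    ring
  have rpos : (0 : ℝ) < rk I := by
    rw [rI, Nat.cast_pos, pos_iff_ne_zero]
    exact fun h => hf (LinearMap.range_eq_bot.1 (Submodule.finrank_eq_zero.1 h))
  have h1 := hlo N inf_le_left fun u hu => (mN _).2 ⟨hst u ((mN u).1 hu).1, by
    have h := hδ u
    rw [((mN u).1 hu).2, map_zero, smul_zero, add_zero] at h
    exact h.symm⟩
  have h2 := hup I (fun w hw => by
      obtain ⟨u, hu, rfl⟩ := (mI w).1 hw
      exact hM u hu) fun w hw => by
    obtain ⟨u, hu, rfl⟩ := (mI w).1 hw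
    rw [hδ u, Int.cast_smul_eq_zsmul]
    exact add_mem ((mI _).2 ⟨_, hst u hu, rfl⟩) (zsmul_mem hw l)
  refine n l α β ?_
  filter_upwards [h1, h2, Ioo_mem_nhdsLT (zero_lt_one (α := ℝ))] with t t1 t2 ht
  obtain ⟨s1, s2⟩ := hs t ht.1 ht.2
  have h3 := a U W δ δ' (M.restrictScalars ℂ) (f.restrictScalars ℂ) l t hz hfd hδ ht.1 s1
  have e1 : (M.restrictScalars ℂ).map (f.restrictScalars ℂ) = I.restrictScalars ℂ :=
    Submodule.ext fun _ => Iff.rfl
  have e2 : M.restrictScalars ℂ ⊓ LinearMap.ker (f.restrictScalars ℂ) = N.restrictScalars ℂ :=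
    Submodule.ext fun _ => Iff.rfl
  rw [e1, e2] at h3
  rw [rsum] at t1
  have h4 := (mul_le_mul_of_nonneg_left t1 (zpow_pos ht.1 l).le).trans (h3.symm.trans_le t2)
  refine le_of_mul_le_mul_right ?_ (mul_pos rpos s2)
  linarith

end Pool.Agent.MP_51db15_ag.Qh

end

section
/-! Row HSU of project SS: ideals have slope at most zero. -/

namespace Pool.Agent.MP_51db15_ag.Qh

open Module

namespace HSUx

theorem mono {U : Type} [AddCommGroup U] [Module ℂ U] (δ : End ℂ U) {H H' : Submodule ℂ U}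
    (h : H ≤ H') (hf : Fd δ H') {t : ℝ} (ht : 0 < t) (hs : Smb δ H' t) :
    hilb δ H t ≤ hilb δ H' t := by
  have key : ∀ k : ℤ, (finrank ℂ ↥(H ⊓ δ.eigenspace (k : ℂ)) : ℝ) * t ^ k ≤
      (finrank ℂ ↥(H' ⊓ δ.eigenspace (k : ℂ)) : ℝ) * t ^ k := fun k => by
    have := hf (k : ℂ)
    refine mul_le_mul_of_nonneg_right ?_ (zpow_pos ht k).le
    exact_mod_cast Submodule.finrank_mono (inf_le_inf_right _ h)
  refine Summable.tsum_le_tsum key (Summable.of_nonneg_of_le (fun k => ?_) key hs) hs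
  exact mul_nonneg (Nat.cast_nonneg _) (zpow_pos ht k).le

theorem bot {U : Type} [AddCommGroup U] [Module ℂ U] (δ : End ℂ U) (t : ℝ) :
    hilb δ ⊥ t = 0 := by
  have h : ∀ k : ℤ, finrank ℂ ↥((⊥ : Submodule ℂ U) ⊓ δ.eigenspace (k : ℂ)) = 0 := fun k => by
    rw [bot_inf_eq, finrank_bot]
  simp only [hilb, h, Nat.cast_zero, zero_mul, tsum_zero]

theorem one_le {K : Type} [Field K] [Algebra ℂ K] {S : Subalgebra ℂ K} {N : Submodule S K}
    (h : N ≠ ⊥) : 1 ≤ rk N := by
  obtain ⟨u, hu, h0⟩ := (Submodule.ne_bot_iff N).1 h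
  refine Submodule.one_le_finrank_iff.2 ((Submodule.ne_bot_iff _).2 ⟨u, ?_, h0⟩)
  exact Submodule.subset_span hu

end HSUx

theorem hsu (s : S_HSS) : S_HSU := by
  intro K ι _ _ _ S E x a hc N hN _
  have hev : ∀ᶠ t in nhdsWithin (1 : ℝ) (Set.Iio 1), 0 < t ∧ t < 1 :=
    ((lt_mem_nhds zero_lt_one).filter_mono nhdsWithin_le_nhds).and self_mem_nhdsWithin
  refine hev.mono fun t ht => ?_
  obtain ⟨hs, hp⟩ := s K ι S E x a hc t ht.1 ht.2
  rw [zero_mul, add_zero, mul_one]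
  by_cases h0 : N = ⊥
  · have h1 : N.restrictScalars ℂ = ⊥ := by
      rw [h0]
      rfl
    rw [h1, HSUx.bot]
    exact mul_nonneg (Nat.cast_nonneg _) hp.le
  · have h1 : N.restrictScalars ℂ ≤ SC S := fun u hu => by
      obtain ⟨y, hy⟩ := Submodule.mem_one.1 (hN hu)
      rw [← hy]
      exact y.2
    have h2 : (1 : ℝ) ≤ rk N := by exact_mod_cast HSUx.one_le h0
    refine (HSUx.mono _ h1 hc.vtx.fd ht.1 hs).trans ?_
    exact le_mul_of_one_le_left hp.le h2

end Pool.Agent.MP_51db15_ag.Qh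

end

section
/-! Bounds on slopes give the two inequalities between weights. -/

namespace Pool.Agent.MP_51db15_ag.Qh

open Module

namespace HSBx

variable {K : Type} [Field K] [Algebra ℂ K]

theorem leib (B : K →ₗ[ℂ] DD K) (hB : ∀ g h, B g h = -B h g) (g g' : K) :
    B (g * g') = g • B g' + g' • B g := by
  ext h
  rw [hB, Derivation.leibniz, Derivation.add_apply, Derivation.smul_apply, Derivation.smul_apply,
    hB g', hB g]
  simp only [smul_eq_mul]
  ring

/-- contraction of a one-form with a bivector -/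
noncomputable def shp (B : K →ₗ[ℂ] DD K) (hB : ∀ g h, B g h = -B h g) : DU K →ₗ[K] DD K where
  toFun γ := Derivation.mk' ((γ.restrictScalars ℂ).comp B) fun g g' => by
    simp only [LinearMap.comp_apply, LinearMap.restrictScalars_apply, leib B hB, map_add,
      map_smul]
  map_add' γ γ' := by
    ext g
    rfl
  map_smul' c γ := by
    ext g
    rfl

theorem shp_apply (B : K →ₗ[ℂ] DD K) (hB : ∀ g h, B g h = -B h g) (γ : DU K) (g : K) :
    shp B hB γ g = γ (B g) := rfl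

section

variable {U : Type} [AddCommGroup U] [Module K U] [Module ℂ U] [IsScalarTower ℂ K U]
  {S : Subalgebra ℂ K} {E : DD K} {δ : End ℂ U} {M : Submodule S U} {α β : ℝ}

theorem up (h : SlopesIn S E δ M α β) : Up S E δ M β :=
  fun N h1 h2 => (h N h1 h2).mono fun _ h3 => h3.1

theorem lo (h : SlopesIn S E δ M α β) : Lo S E δ M α :=
  fun N h1 h2 => (h N h1 h2).mono fun _ h3 => h3.2

end

end HSBx

open HSBx

theorem hsb (s : S_HSS) (t : S_HST) (h : S_HSH) (u : S_HSU) : S_HSB := by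
  intro K ι _ _ _ S E x a α β C h0 h1 hT hD
  have := C.bas.fd
  obtain ⟨t1, t2⟩ := t K ι S E x a C
  have s1 := s K ι S E x a C
  have dT : ∀ D : DD K, ∃ r : K, r ∈ S ∧ r ≠ 0 ∧ r • D ∈ TT S := C.bas.den
  have dD : ∀ γ : DU K, ∃ r : K, r ∈ S ∧ r ≠ 0 ∧ r • γ ∈ TD S := C.bas.denD
  refine ⟨fun γ c g0 g1 g2 => ?_, fun η B l k e0 _ e1 e2 b0 b1 b2 b3 => ?_⟩
  · have k1 := h K (DD K) K S E (ad E) (op E) (TT S) 1 γ c α 0 g0
      (fun X hX => Submodule.mem_one.2 ⟨⟨γ X, g1 X hX⟩, rfl⟩)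
      (fun X => by
        rw [op_apply, ad_apply, ← g2, add_sub_cancel])
      dT (fun X hX => lie_mem C.ev.tm hX) C.ev.T C.evf.T
      (fun r r0 r1 => ⟨(t2 r r0 r1).1, (s1 r r0 r1).2⟩) (lo hT) (u K ι S E x a C)
    have k2 : (0 : ℝ) < c := by linarith
    exact_mod_cast k2
  · have k1 := h K (DD K) (DU K) S E (ad E) (ld E) (TT S) (TD S) η l α (-α) e0
      (fun X hX Y hY => e1 X Y hX hY)
      (fun X => LinearMap.ext fun Y => by
        rw [ld_apply, ad_apply, LinearMap.add_apply, LinearMap.smul_apply, ← e2]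
        ring)
      dT (fun X hX => lie_mem C.ev.tm hX) C.ev.T C.evf.T
      (fun r r0 r1 => ⟨(t2 r r0 r1).1, (s1 r r0 r1).2⟩) (lo hT) (up hD)
    have e3 : ∀ g, ⁅E, B g⁆ = B (E g) + (k : ℂ) • B g := fun g => by
      ext z
      rw [Derivation.commutator_apply, Derivation.add_apply, Derivation.smul_apply, ← b3]
      ring
    have k2 := h K (DU K) (DD K) S E (ld E) (ad E) (TD S) (TT S) (shp B b1) k (-β) β
      (fun e => b0 (LinearMap.ext fun g => Derivation.ext fun z => by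
        have e4 := shp_apply B b1 (dd z) g
        rw [e] at e4
        exact e4.symm))
      (fun γ hγ g hg => hγ (B g) (b2 g hg))
      (fun γ => Derivation.ext fun g => by
        rw [ad_apply, Derivation.commutator_apply, Derivation.add_apply, Derivation.smul_apply,
          shp_apply, shp_apply, shp_apply, ld_apply, e3, map_add, lin_c]
        ring)
      dD (fun γ hγ => ld_mem C.ev.tm hγ) C.ev.D t1
      (fun r r0 r1 => ⟨(t2 r r0 r1).2, (s1 r r0 r1).2⟩) (lo hD) (up hT)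
    have k3 : ((-1 : ℤ) : ℝ) < ((l + k : ℤ) : ℝ) := by
      push_cast
      linarith
    have k4 : (-1 : ℤ) < l + k := by exact_mod_cast k3
    omega

end Pool.Agent.MP_51db15_ag.Qh

end
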