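import Pool.Agent.MP_51db15_ag.Qh.Spec6

/-! Merged rows: HSQ LAT DLT PINV DST DCH HFR DFR DDU DSQ DUP DLO HSC. -/

section
/-! Hilbert series along an injection of subquotients. -/

namespace Pool.Agent.MP_51db15_ag.Qh

open Module

namespace HSQx

variable {U W : Type} [AddCommGroup U] [Module ℂ U] [AddCommGroup W] [Module ℂ W]

theorem rn (V : Submodule ℂ U) [FiniteDimensional ℂ V] (f : U →ₗ[ℂ] W) :
    finrank ℂ ↥(V.map f) + finrank ℂ ↥(V ⊓ LinearMap.ker f) = finrank ℂ V := by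
  have h := LinearMap.finrank_range_add_finrank_ker (f.domRestrict V)
  have e : LinearMap.ker (f.domRestrict V) = (V ⊓ LinearMap.ker f).comap V.subtype := by
    ext x
    simp
  rwa [LinearMap.range_domRestrict, e,
    (Submodule.comapSubtypeEquivOfLe (inf_le_left : V ⊓ LinearMap.ker f ≤ V)).finrank_eq] at h

theorem key (A₀ A : Submodule ℂ U) (B₀ B : Submodule ℂ W) [FiniteDimensional ℂ A]
    [FiniteDimensional ℂ B] (f : U →ₗ[ℂ] W) (hA : A₀ ≤ A) (hB : B₀ ≤ B)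
    (h1 : ∀ u ∈ A, f u ∈ B) (h2 : ∀ u ∈ A, f u ∈ B₀ → u ∈ A₀) :
    finrank ℂ A + finrank ℂ B₀ ≤ finrank ℂ A₀ + finrank ℂ B := by
  have fA : FiniteDimensional ℂ A₀ := Submodule.finiteDimensional_of_le hA
  have fq : FiniteDimensional ℂ (B.map B₀.mkQ) := Module.Finite.map B B₀.mkQ
  have e1 := rn A (B₀.mkQ ∘ₗ f)
  have e2 := rn B B₀.mkQ
  rw [Submodule.ker_mkQ, inf_eq_right.2 hB] at e2
  have l1 : finrank ℂ ↥(A.map (B₀.mkQ ∘ₗ f)) ≤ finrank ℂ ↥(B.map B₀.mkQ) := by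
    refine Submodule.finrank_mono ?_
    rintro _ ⟨u, hu, rfl⟩
    exact ⟨f u, h1 u hu, rfl⟩
  have l2 : finrank ℂ ↥(A ⊓ LinearMap.ker (B₀.mkQ ∘ₗ f)) ≤ finrank ℂ A₀ := by
    refine Submodule.finrank_mono ?_
    rintro u ⟨hu, hk⟩
    refine h2 u hu ?_
    have hk' : B₀.mkQ (f u) = 0 := hk
    rwa [Submodule.mkQ_apply, Submodule.Quotient.mk_eq_zero] at hk'
  omega

theorem smb {δ : End ℂ U} {H₀ H : Submodule ℂ U} {t : ℝ} (h : H₀ ≤ H) (hd : Fd δ H)
    (ht : 0 < t) (hs : Smb δ H t) : Smb δ H₀ t := by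
  refine Summable.of_nonneg_of_le (fun j => by positivity) (fun j => ?_) hs
  refine mul_le_mul_of_nonneg_right ?_ (by positivity)
  have := hd (j : ℂ)
  exact_mod_cast Submodule.finrank_mono (inf_le_inf_right _ h)

end HSQx

theorem hsq : S_HSQ := by
  intro U W _ _ _ _ δ δ' H₀ H G₀ G f l t hH hG h1 h2 hf dH dG ht sH sG
  have sH₀ := HSQx.smb hH dH ht sH
  have sG₀ := HSQx.smb hG dG ht sG
  have ev : ∀ (n : ℤ) (u : U), u ∈ δ.eigenspace (n : ℂ) →
      f u ∈ δ'.eigenspace ((n + l : ℤ) : ℂ) := fun n u hu => by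
    rw [End.mem_eigenspace_iff] at hu ⊢
    rw [hf, hu, map_smul, Int.cast_add, add_smul]
  have e : ∀ j : ℤ, (finrank ℂ ↥(H ⊓ δ.eigenspace (j : ℂ)) : ℝ) -
      finrank ℂ ↥(H₀ ⊓ δ.eigenspace (j : ℂ)) ≤
      finrank ℂ ↥(G ⊓ δ'.eigenspace ((j + l : ℤ) : ℂ)) -
        finrank ℂ ↥(G₀ ⊓ δ'.eigenspace ((j + l : ℤ) : ℂ)) := fun j => by
    have := dH (j : ℂ)
    have := dG ((j + l : ℤ) : ℂ)
    have h := HSQx.key (H₀ ⊓ δ.eigenspace (j : ℂ)) (H ⊓ δ.eigenspace (j : ℂ))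
      (G₀ ⊓ δ'.eigenspace ((j + l : ℤ) : ℂ)) (G ⊓ δ'.eigenspace ((j + l : ℤ) : ℂ)) f
      (inf_le_inf_right _ hH) (inf_le_inf_right _ hG)
      (fun u hu => ⟨h1 u hu.1, ev j u hu.2⟩) (fun u hu hw => ⟨h2 u hu.1 hw.1, hu.2⟩)
    have h' : (finrank ℂ ↥(H ⊓ δ.eigenspace (j : ℂ)) : ℝ) +
        finrank ℂ ↥(G₀ ⊓ δ'.eigenspace ((j + l : ℤ) : ℂ)) ≤
        finrank ℂ ↥(H₀ ⊓ δ.eigenspace (j : ℂ)) +
          finrank ℂ ↥(G ⊓ δ'.eigenspace ((j + l : ℤ) : ℂ)) := by exact_mod_cast h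
    linarith
  have sR := (Equiv.addRight l).summable_iff.2 (Summable.sub sG sG₀)
  rw [hilb, hilb, hilb, hilb, ← Summable.tsum_sub sH sH₀, ← Summable.tsum_sub sG sG₀,
    ← tsum_mul_left, ← (Equiv.addRight l).tsum_eq (fun k : ℤ =>
      (finrank ℂ ↥(G ⊓ δ'.eigenspace (k : ℂ)) : ℝ) * t ^ k -
        (finrank ℂ ↥(G₀ ⊓ δ'.eigenspace (k : ℂ)) : ℝ) * t ^ k)]
  refine Summable.tsum_le_tsum (fun j => ?_) ((Summable.sub sH sH₀).mul_left _) sR
  have hp : 0 ≤ t ^ j * t ^ l := by positivity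
  have := mul_le_mul_of_nonneg_right (e j) hp
  rw [Equiv.coe_addRight, zpow_add₀ ht.ne']
  linarith

end Pool.Agent.MP_51db15_ag.Qh

end

section
/-! Row LAT: finiteness for lattices. -/

namespace Pool.Agent.MP_51db15_ag.Qh

open Module

namespace LATx

theorem sup_le_sum {U κ : Type} [AddCommGroup U] [Module ℂ U] (V : κ → Submodule ℂ U)
    [∀ j, FiniteDimensional ℂ (V j)] (s : Finset κ) :
    finrank ℂ ↥(s.sup V) ≤ ∑ j ∈ s, finrank ℂ (V j) := by
  classical
  induction s using Finset.induction_on with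
  | empty => simp
  | insert j s hj ih =>
    rw [Finset.sup_insert, Finset.sum_insert hj]
    exact (Submodule.finrank_add_le_finrank_add_finrank _ _).trans (Nat.add_le_add_left ih _)

theorem comp {U : Type} [AddCommGroup U] [Module ℂ U] (δ : End ℂ U) (A : ℂ → Submodule ℂ U)
    (hA : ∀ c, A c ≤ δ.eigenspace c) (c : ℂ) (m : U) (h1 : m ∈ δ.eigenspace c)
    (h2 : m ∈ ⨆ c', A c') : m ∈ A c := by
  rw [iSup_split_single A c] at h2
  obtain ⟨y, hy, r, hr, rfl⟩ := Submodule.mem_sup.1 h2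
  have h3 : r ∈ δ.eigenspace c := by
    have := sub_mem h1 (hA c hy)
    rwa [add_sub_cancel_left] at this
  have h4 : r ∈ ⨆ (c' : ℂ) (_ : c' ≠ c), δ.eigenspace c' :=
    (iSup₂_mono fun c' _ => hA c') hr
  have h5 : r = 0 := (Submodule.disjoint_def.1 (δ.eigenspaces_iSupIndep c)) r h3 h4
  rw [h5, add_zero]
  exact hy

variable {K U : Type} [Field K] [Algebra ℂ K] [AddCommGroup U] [Module K U] [Module ℂ U]
  [IsScalarTower ℂ K U]

/-- multiplication of a fixed vector -/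
noncomputable def mu (u : U) : K →ₗ[ℂ] U := (LinearMap.toSpanSingleton K U u).restrictScalars ℂ

theorem mu_apply (u : U) (g : K) : mu (K := K) u g = g • u := rfl

theorem gens {S : Subalgebra ℂ K} {δ : End ℂ U} {M : Submodule S U} (h : Lat S δ M) :
    ∃ (F : Finset U) (p : U → ℤ), (∀ u ∈ F, δ u = (p u : ℂ) • u) ∧
      M ≤ Submodule.span S (F : Set U) := by
  classical
  obtain ⟨T, hT⟩ := h.fg
  have h1 : (T : Set U) ⊆ Submodule.span S {u : U | ∃ n : ℤ, δ u = (n : ℂ) • u} := by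
    intro t ht
    have h2 : t ∈ M := hT ▸ Submodule.subset_span ht
    have h3 : (⨆ n : ℤ, M.restrictScalars ℂ ⊓ δ.eigenspace (n : ℂ)) ≤
        (Submodule.span S {u : U | ∃ n : ℤ, δ u = (n : ℂ) • u}).restrictScalars ℂ :=
      iSup_le fun n u hu => Submodule.subset_span ⟨n, End.mem_eigenspace_iff.1 hu.2⟩
    exact h3 (h.dz t h2)
  obtain ⟨F, hF, hF'⟩ := Submodule.subset_span_finite_of_subset_span h1
  refine ⟨F, fun u => if hu : ∃ n : ℤ, δ u = (n : ℂ) • u then hu.choose else 0, fun u hu => ?_, ?_⟩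
  · have h2 : ∃ n : ℤ, δ u = (n : ℂ) • u := hF hu
    simp only [dif_pos h2]
    exact h2.choose_spec
  · rw [← hT]
    exact Submodule.span_le.2 hF'

end LATx

theorem lat (_k : GenK) (s : S_HSS) : S_LAT := by
  intro K ι U _ _ _ _ _ _ _ S E x a δ M hc hn hl
  obtain ⟨F, p, hp, hM⟩ := LATx.gens hl
  let V : ℂ → F → Submodule ℂ U := fun c j =>
    (SC S ⊓ (op E).eigenspace (c - (p j : ℂ))).map (LATx.mu (K := K) (j : U))
  have hV : ∀ c j, FiniteDimensional ℂ (V c j) := fun c j => by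
    have := hc.vtx.fd (c - (p j : ℂ))
    exact Module.Finite.map _ _
  let A : ℂ → Submodule ℂ U := fun c => Finset.univ.sup (V c)
  have hA : ∀ c, A c ≤ δ.eigenspace c := fun c => by
    refine Finset.sup_le fun j _ => ?_
    rintro _ ⟨g, hg, rfl⟩
    have h1 : E g = (c - (p j : ℂ)) • g := End.mem_eigenspace_iff.1 hg.2
    rw [End.mem_eigenspace_iff, LATx.mu_apply, hn g j, hp j j.2, h1, smul_assoc, smul_comm g,
      ← add_smul, add_sub_cancel]
  have hall : ∀ m ∈ M, m ∈ ⨆ c, A c := by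
    intro m hm
    refine Submodule.span_induction (p := fun m _ => ∀ g : S, g • m ∈ ⨆ c, A c) ?_ ?_ ?_ ?_
      (hM hm) 1 |> fun h => by simpa using h
    · intro u hu g
      have h1 : (⨆ n : ℤ, SC S ⊓ (op E).eigenspace (n : ℂ)) ≤
          (⨆ c, A c).comap (LATx.mu (K := K) u) := by
        refine iSup_le fun n y hy => ?_
        refine Submodule.mem_iSup_of_mem ((n : ℂ) + (p u : ℂ)) ?_
        refine (Finset.le_sup (f := V ((n : ℂ) + (p u : ℂ))) (Finset.mem_univ ⟨u, hu⟩)) ?_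
        refine ⟨y, ?_, rfl⟩
        simpa using hy
      exact h1 (hc.ev.s g g.2)
    · intro g
      rw [smul_zero]
      exact zero_mem _
    · intro u v _ _ hu hv g
      rw [smul_add]
      exact add_mem (hu g) (hv g)
    · intro b u _ hu g
      rw [smul_smul]
      exact hu _
  have hle : ∀ c, M.restrictScalars ℂ ⊓ δ.eigenspace c ≤ A c := fun c m hm =>
    LATx.comp δ A hA c m hm.2 (hall m hm.1)
  have key : ∀ c : ℂ, FiniteDimensional ℂ ↥(M.restrictScalars ℂ ⊓ δ.eigenspace c) ∧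
      finrank ℂ ↥(M.restrictScalars ℂ ⊓ δ.eigenspace c) ≤
        ∑ j : F, finrank ℂ ↥(SC S ⊓ (op E).eigenspace (c - (p j : ℂ))) := by
    intro c
    have := hV c
    have hf : FiniteDimensional ℂ (A c) := Submodule.finiteDimensional_finset_sup _ _
    refine ⟨Submodule.finiteDimensional_of_le (hle c), ?_⟩
    refine (Submodule.finrank_mono (hle c)).trans ((LATx.sup_le_sum (V c) _).trans ?_)
    refine Finset.sum_le_sum fun j _ => ?_
    have := hc.vtx.fd (c - (p j : ℂ))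
    exact Submodule.finrank_map_le _ _
  refine ⟨fun c => (key c).1, fun t ht ht1 => ?_⟩
  have hs := (s K ι S E x a hc t ht ht1).1
  have h1 : ∀ j : F, Summable fun k : ℤ =>
      (finrank ℂ ↥(SC S ⊓ (op E).eigenspace ((k : ℂ) - (p j : ℂ))) : ℝ) * t ^ k := by
    intro j
    have h2 := ((Equiv.subRight (p j)).summable_iff.2 hs).mul_right (t ^ (p j))
    refine h2.congr fun k => ?_
    change (finrank ℂ ↥(SC S ⊓ (op E).eigenspace ((k - p j : ℤ) : ℂ)) : ℝ) * t ^ (k - p j) *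
      t ^ (p j) = _
    rw [Int.cast_sub, mul_assoc, ← zpow_add₀ ht.ne', sub_add_cancel]
  refine Summable.of_nonneg_of_le (fun k => by positivity) (fun k => ?_)
    (summable_sum fun j (_ : j ∈ Finset.univ) => h1 j)
  rw [← Finset.sum_mul]
  refine mul_le_mul_of_nonneg_right ?_ (by positivity)
  exact_mod_cast (key k).2

end Pool.Agent.MP_51db15_ag.Qh

end

section
/-! The dual of a graded lattice is a graded lattice. -/

namespace Pool.Agent.MP_51db15_ag.Qh

open Module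

noncomputable section

namespace DLTx

variable {K : Type} [Field K] [Algebra ℂ K] {U W : Type} [AddCommGroup U] [Module K U]
  [Module ℂ U] [IsScalarTower ℂ K U] [AddCommGroup W] [Module K W]

theorem gens {S : Subalgebra ℂ K} {δ : End ℂ U} {M : Submodule S U} (h : Lat S δ M) :
    ∃ t : Finset U, (∀ j ∈ t, j ∈ M ∧ ∃ n : ℤ, δ j = (n : ℂ) • j) ∧
      M = Submodule.span S (t : Set U) := by
  have e : Submodule.span S {v : U | v ∈ M ∧ ∃ n : ℤ, δ v = (n : ℂ) • v} = M := by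
    refine le_antisymm (Submodule.span_le.2 fun v hv => hv.1) fun v hv => ?_
    have l : (⨆ n : ℤ, M.restrictScalars ℂ ⊓ δ.eigenspace (n : ℂ)) ≤
        (Submodule.span S {v : U | v ∈ M ∧ ∃ n : ℤ, δ v = (n : ℂ) • v}).restrictScalars ℂ :=
      iSup_le fun n u hu => Submodule.subset_span ⟨hu.1, n, End.mem_eigenspace_iff.1 hu.2⟩
    exact l (h.dz v hv)
  obtain ⟨t, ht, e'⟩ := (Submodule.fg_span_iff_fg_span_finset_subset _).1 (e.symm ▸ h.fg)
  exact ⟨t, fun j hj => ht hj, e.symm.trans e'⟩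

omit [Module ℂ U] [IsScalarTower ℂ K U] in
theorem ind {S : Subalgebra ℂ K} (b : U →ₗ[K] W →ₗ[K] K) (t : Set U) (w : W) (P : K → Prop)
    (h0 : P 0) (ha : ∀ y z, P y → P z → P (y + z)) (hs : ∀ s ∈ S, ∀ y, P y → P (s * y))
    (h : ∀ j ∈ t, P (b j w)) : ∀ u ∈ Submodule.span S t, P (b u w) := by
  intro u hu
  induction hu using Submodule.span_induction with
  | mem j hj => exact h j hj
  | zero => rwa [map_zero, LinearMap.zero_apply]
  | add y z _ _ hy hz =>
    rw [map_add, LinearMap.add_apply]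
    exact ha _ _ hy hz
  | smul s y _ hy =>
    rw [show s • y = (s : K) • y from rfl, map_smul, LinearMap.smul_apply, smul_eq_mul]
    exact hs _ s.2 _ hy

end DLTx

theorem dlt (e : S_EVG) : S_DLT := by
  intro K ι U W _ _ _ _ _ _ _ _ _ _ _ S E x a δ δ' b M hc hp hM
  classical
  obtain ⟨t, ht, hspan⟩ := DLTx.gens hM
  have mem : ∀ w, (∀ j ∈ t, b j w ∈ S) → w ∈ dl S b M := fun w h u hu =>
    DLTx.ind b (t : Set U) w (· ∈ S) (zero_mem S) (fun _ _ => add_mem) (fun _ hs _ => mul_mem hs)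
      h u (hspan ▸ hu)
  have inj : ∀ w, (∀ j ∈ t, b j w = 0) → w = 0 := fun w h => hp.right w fun u => by
    obtain ⟨s, _, s0, hu⟩ := hM.den u
    have := DLTx.ind (S := S) b (t : Set U) w (· = 0) rfl
      (fun _ _ h1 h2 => by rw [h1, h2, add_zero]) (fun _ _ _ h1 => by rw [h1, mul_zero])
      h _ (hspan ▸ hu)
    rw [map_smul, LinearMap.smul_apply, smul_eq_mul] at this
    exact (mul_eq_zero.1 this).resolve_left s0
  have st : ∀ w ∈ dl S b M, δ' w ∈ dl S b M := fun w hw u hu => by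
    have := sub_mem (hc.ev.tm _ (hw u hu)) (hw _ (hM.st u hu))
    rwa [hp.leib, add_sub_cancel_left] at this
  refine ⟨?_, st, ?_, fun w => ?_⟩
  · have := hc.bas.noeth
    let φ : dl S b M →ₗ[S] (t → S) :=
      { toFun := fun w j => ⟨b j w, w.2 j (ht j j.2).1⟩
        map_add' := fun w w' => funext fun j => Subtype.ext (map_add (b j) _ _)
        map_smul' := fun s w => funext fun j => Subtype.ext (map_smul (b j) (s : K) _) }
    have hφ : Function.Injective φ := (injective_iff_map_eq_zero φ).2 fun w hw =>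
      Subtype.ext (inj w fun j hj => congrArg Subtype.val (congrFun hw ⟨j, hj⟩))
    have := isNoetherian_of_injective φ hφ
    exact Module.Finite.iff_fg.1 inferInstance
  · choose p hp' using fun j : t => (ht j j.2).2
    refine (e W K t δ' (op E) ((dl S b M).restrictScalars ℂ) (SC S)
      (fun j => (b j).restrictScalars ℂ) p st (fun w hw j => hw j (ht j j.2).1)
      (fun w _ h => inj w fun j hj => h ⟨j, hj⟩) fun w _ j => ?_).1 hc.ev.s
    show b j (δ' w) = E (b j w) - (p j : ℂ) • b j w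
    rw [hp.leib, hp', ← algebraMap_smul K (p j : ℂ) (j : U), map_smul, LinearMap.smul_apply,
      algebraMap_smul, add_sub_cancel_left]
  · choose g hg h hh h0 hq using fun j : U => hc.bas.frac (b j w)
    refine ⟨∏ j ∈ t, h j, prod_mem fun j _ => hh j, Finset.prod_ne_zero_iff.2 fun j _ => h0 j,
      mem _ fun j hj => ?_⟩
    rw [map_smul, smul_eq_mul, hq j, ← Finset.prod_erase_mul t h hj, mul_assoc,
      mul_div_cancel₀ _ (h0 j)]
    exact mul_mem (prod_mem fun i _ => hh i) (hg j)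

end

end Pool.Agent.MP_51db15_ag.Qh

end

section
/-! The inverse of a graded prime. -/

namespace Pool.Agent.MP_51db15_ag.Qh

open Module

namespace PINVx

variable {K : Type} [Field K] [Algebra ℂ K] {S : Subalgebra ℂ K} {P : Ideal S}

theorem mem_idl {y : K} : y ∈ idl P ↔ In P y :=
  ⟨fun ⟨b, h, e⟩ => ⟨b, h, e.symm⟩, fun ⟨b, h, e⟩ => ⟨b, h, e.symm⟩⟩

theorem idl_le {y : K} (h : y ∈ idl P) : y ∈ S := by
  obtain ⟨b, -, rfl⟩ := mem_idl.1 h
  exact b.2

theorem coe_mem {b : S} : (b : K) ∈ idl P ↔ b ∈ P :=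
  ⟨fun h => by
    obtain ⟨c, h1, e⟩ := mem_idl.1 h
    rwa [Subtype.ext e], fun h => mem_idl.2 ⟨b, h, rfl⟩⟩

theorem mul_mem' {a y : K} (ha : a ∈ S) (h : y ∈ idl P) : a * y ∈ idl P :=
  (idl P).smul_mem ⟨a, ha⟩ h

theorem hilb_bot (δ : End ℂ K) (t : ℝ) : hilb δ ⊥ t = 0 := by
  have : ∀ k : ℤ, finrank ℂ ↥((⊥ : Submodule ℂ K) ⊓ δ.eigenspace (k : ℂ)) = 0 := fun k => by
    rw [bot_inf_eq, finrank_bot]
  simp only [hilb, this, Nat.cast_zero, zero_mul, tsum_zero]

end PINVx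

theorem pinv (k : GenK) (q : S_HSQ) (l : S_LAT) (d : S_DLT) (s : S_HSS) : S_PINV := by
  intro K ι _ _ _ S E x a P hc hn hp h0 hE
  have := hc.bas.noeth
  obtain ⟨π₀, p1, p2⟩ := Submodule.exists_mem_ne_zero_of_ne_bot h0
  have p3 : (π₀ : K) ≠ 0 := fun e => p2 (Subtype.ext e)
  have st : ∀ u ∈ idl P, op E u ∈ idl P := fun u hu => by
    obtain ⟨b, h, rfl⟩ := PINVx.mem_idl.1 hu
    exact PINVx.mem_idl.2 (hE b h)
  have lat : Lat S (op E) (idl P) := ⟨(IsNoetherian.noetherian P).map _, st,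
    k.sub K (op E) (SC S) _ hc.ev.s (fun _ h => PINVx.idl_le h) st, fun u => by
      obtain ⟨g, g1, h, h1, h2, rfl⟩ := hc.bas.frac u
      refine ⟨h * π₀, mul_mem h1 π₀.2, mul_ne_zero h2 p3, ?_⟩
      rw [smul_eq_mul, show h * π₀ * (g / h) = g * π₀ by field_simp]
      exact PINVx.mul_mem' g1 (PINVx.coe_mem.2 p1)⟩
  have cn : Cn E (op E) := fun g u => by
    simp only [op_apply, smul_eq_mul, Derivation.leibniz]
    ring
  have pr : Pr E (op E) (op E) (LinearMap.mul K K) := ⟨cn, cn, inferInstance, inferInstance,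
    fun u h => by simpa using h 1, fun u h => by simpa using h 1, fun u w => by
      simp only [op_apply, LinearMap.mul_apply', Derivation.leibniz, smul_eq_mul]
      ring⟩
  have hom : ∀ N : Submodule ℂ K, (∀ π ∈ idl P, ∀ n : ℤ, E π = (n : ℂ) • π → π ∈ N) →
      ∀ u ∈ idl P, u ∈ N := fun N h u hu =>
    (iSup_le fun n π hπ => h π hπ.1 n (End.mem_eigenspace_iff.1 hπ.2) :
      ⨆ n : ℤ, (idl P).restrictScalars ℂ ⊓ (op E).eigenspace (n : ℂ) ≤ N) (lat.dz u hu)
  have int : ∀ y : K, (∀ u ∈ idl P, y * u ∈ idl P) → y ∈ S := fun y h =>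
    hn y (isIntegral_of_smul_mem_submodule (idl P)
      (fun e => p3 (e.le (PINVx.coe_mem.2 p1))) lat.fg y h)
  have key : ∃ π ∈ idl P, π ≠ 0 ∧ (∃ n : ℤ, E π = (n : ℂ) • π) ∧
      ∀ y ∈ dl S (LinearMap.mul K K) (idl P), π * y ∈ idl P → y ∈ S := by
    by_cases h : ∀ y ∈ dl S (LinearMap.mul K K) (idl P), y ∈ S
    · by_contra h1
      refine p3 (hom ⊥ (fun π a n b => ?_) _ (PINVx.coe_mem.2 p1))
      by_contra h2
      exact h1 ⟨π, a, h2, ⟨n, b⟩, fun y hy _ => h y hy⟩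
    · push Not at h
      obtain ⟨y₀, y1, y2⟩ := h
      by_contra h1
      refine y2 (int y₀ (hom (((idl P).restrictScalars ℂ).comap (LinearMap.mulLeft ℂ y₀))
        fun π a n b => ?_))
      by_contra h2
      replace h2 : y₀ * π ∉ idl P := h2
      refine h1 ⟨π, a, fun e => h2 (by rw [e, mul_zero]; exact zero_mem _), ⟨n, b⟩,
        fun y hy h3 => int y fun u hu => ?_⟩
      have m1 : π * y₀ ∈ S := y1 π a
      have m2 : u * y ∈ S := hy u hu
      have m3 : u * y₀ ∈ S := y1 u hu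
      have m4 : (⟨_, m1⟩ * ⟨_, m2⟩ : S) ∈ P := PINVx.coe_mem.1 (by
        have := PINVx.mul_mem' m3 h3
        rwa [show u * y₀ * (π * y) = π * y₀ * (u * y) by ring] at this)
      rcases hp.mem_or_mem m4 with h4 | h4
      · exact (h2 (mul_comm π y₀ ▸ PINVx.coe_mem.2 h4)).elim
      · exact mul_comm u y ▸ PINVx.coe_mem.2 h4
  obtain ⟨π, a1, a2, ⟨n, a3⟩, a4⟩ := key
  obtain ⟨c, e⟩ := hc.ev.nat π (PINVx.idl_le a1) n a2 a3
  have lb : ∀ u, op E (LinearMap.mulLeft ℂ π u) =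
      LinearMap.mulLeft ℂ π (op E u) + ((c : ℤ) : ℂ) • LinearMap.mulLeft ℂ π u := fun u => by
    simp only [op_apply, LinearMap.mulLeft_apply, Derivation.leibniz, smul_eq_mul, a3, e,
      Int.cast_natCast, mul_smul_comm, mul_comm u π]
  have l1 := l K ι K S E x a (op E) _ hc cn lat
  have l2 := l K ι K S E x a (op E) _ hc cn (d K ι K K S E x a _ _ _ _ hc pr lat)
  refine ⟨lat, c, fun t t0 t1 => ?_⟩
  obtain ⟨s1, s2⟩ := s K ι S E x a hc t t0 t1
  have q1 := q K K (op E) (op E) (SC S) ((dl S (LinearMap.mul K K) (idl P)).restrictScalars ℂ)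
    ((idl P).restrictScalars ℂ) (SC S) (LinearMap.mulLeft ℂ π) c t
    (fun w hw u hu => mul_mem (PINVx.idl_le hu) hw) (fun _ h => PINVx.idl_le h)
    (fun u hu => hu π a1) a4 lb l2.1 hc.vtx.fd t0 (l2.2 t t0 t1) s1
  have q2 := q K K (op E) (op E) _ ((idl P).restrictScalars ℂ) ((idl P).restrictScalars ℂ) (SC S)
    LinearMap.id 0 t le_rfl
    (fun _ h => PINVx.idl_le h) (fun _ h => PINVx.idl_le h) (fun _ h _ => h) (fun u => by simp)
    l1.1 hc.vtx.fd t0 (l1.2 t t0 t1) s1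
  have q3 := q K K (op E) (op E) ⊥ (SC S) ⊥ ((idl P).restrictScalars ℂ) (LinearMap.mulLeft ℂ π) c t
    bot_le bot_le
    (fun u hu => by
      rw [LinearMap.mulLeft_apply, mul_comm]
      exact PINVx.mul_mem' hu a1)
    (fun u _ h => (mul_eq_zero.1 h).resolve_left a2) lb hc.vtx.fd l1.1 t0 s1 (l1.2 t t0 t1)
  rw [zpow_natCast] at q1 q3
  rw [PINVx.hilb_bot, sub_zero, sub_zero] at q3
  rw [sub_self, mul_zero] at q2
  have b := one_add_mul_le_pow (a := t - 1) (by linarith) c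
  rw [add_sub_cancel] at b
  refine ⟨q1, q2, ?_⟩
  have := mul_le_mul_of_nonneg_right b s2.le
  change hilb _ _ _ - hilb _ _ _ ≤ _ * hilb _ _ _
  linarith

end Pool.Agent.MP_51db15_ag.Qh

end

section
/-! DST: one step in a chain of lattices and the dual step. -/

namespace Pool.Agent.MP_51db15_ag.Qh

open Module Filter

noncomputable section

namespace DSTx

theorem arith {X Y A B p r h e c : ℝ} (hp : 0 < p) (hr : 0 < r) (h1 : p * X ≤ B) (h2 : r * B ≤ A)
    (h3 : p * A ≤ Y) (h4 : 0 ≤ A) (h5 : A ≤ c * h) (h6 : (p * r)⁻¹ - p ≤ e / (c + 1)) (hc : 0 ≤ c)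
    (he : 0 < e) (hh : 0 ≤ h) : X ≤ Y + e * h := by
  have a1 : (p * r) * X ≤ A := by nlinarith [mul_le_mul_of_nonneg_left h1 hr.le]
  have a2 : X ≤ (p * r)⁻¹ * A := (le_inv_mul_iff₀ (mul_pos hp hr)).2 a1
  have a3 := mul_le_mul_of_nonneg_right h6 h4
  have a4 : e / (c + 1) * A ≤ e / (c + 1) * ((c + 1) * h) :=
    mul_le_mul_of_nonneg_left (by nlinarith) (by positivity)
  have a5 : e / (c + 1) * ((c + 1) * h) = e * h := by field_simp
  rw [sub_mul] at a3
  linarith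

theorem near (d : ℤ) (c : ℕ) {e : ℝ} (he : 0 < e) :
    ∀ᶠ t in L1, 0 < t ∧ t < 1 ∧ (t ^ d * t ^ c)⁻¹ - t ^ d ≤ e := by
  have h1 : ContinuousAt (fun t : ℝ => t ^ d) 1 := continuousAt_zpow₀ 1 d (Or.inl one_ne_zero)
  have h2 : ContinuousAt (fun t : ℝ => t ^ c) 1 := continuousAt_pow 1 c
  have h3 : ContinuousAt (fun t : ℝ => (t ^ d * t ^ c)⁻¹ - t ^ d) 1 :=
    ((h1.mul h2).inv₀ (by simp)).sub h1
  have h4 : ∀ᶠ t in nhds (1 : ℝ), (t ^ d * t ^ c)⁻¹ - t ^ d < e :=
    h3.tendsto.eventually_lt_const (by simpa using he)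
  have h5 : ∀ᶠ t in nhds (1 : ℝ), 0 < t := lt_mem_nhds one_pos
  filter_upwards [h4.filter_mono nhdsWithin_le_nhds, h5.filter_mono nhdsWithin_le_nhds,
    self_mem_nhdsWithin] with t a b c
  exact ⟨b, c, a.le⟩

variable {K : Type} [Field K] [Algebra ℂ K] {U : Type} [AddCommGroup U] [Module K U]
  [Module ℂ U] [IsScalarTower ℂ K U]

theorem cn (E : DD K) : Cn E (op E) := fun g u => by
  simp only [op_apply, smul_eq_mul, Derivation.leibniz]
  ring

theorem pr (E : DD K) : Pr E (op E) (op E) (LinearMap.mul K K) where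
  cu := cn E
  cw := cn E
  fu := inferInstance
  fw := inferInstance
  left u h := by simpa using h 1
  right u h := by simpa using h 1
  leib u w := by
    simp only [op_apply, LinearMap.mul_apply', smul_eq_mul, Derivation.leibniz]
    ring

/-- multiplication of a fixed vector -/
def mu (K : Type) [Field K] [Algebra ℂ K] [Module K U] [IsScalarTower ℂ K U] (m : U) :
    K →ₗ[ℂ] U := (LinearMap.toSpanSingleton K U m).restrictScalars ℂ

theorem mu_apply (m : U) (g : K) : mu K m g = g • m := rfl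

theorem mu_deg {E : DD K} {δ : End ℂ U} (h : Cn E δ) {m : U} {d : ℤ} (hm : δ m = (d : ℂ) • m)
    (g : K) : δ (mu K m g) = mu K m (op E g) + (d : ℂ) • mu K m g := by
  rw [mu_apply, mu_apply, h, hm, op_apply, smul_comm g, add_comm]

omit [Module ℂ U] [IsScalarTower ℂ K U] in
theorem mem_sup {S : Subalgebra ℂ K} {M : Submodule S U} {m u : U}
    (h : u ∈ M ⊔ Submodule.span S {m}) : ∃ v ∈ M, ∃ g ∈ S, u = v + g • m := by
  obtain ⟨v, hv, z, hz, rfl⟩ := Submodule.mem_sup.1 h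
  obtain ⟨g, rfl⟩ := Submodule.mem_span_singleton.1 hz
  exact ⟨v, hv, g, g.2, rfl⟩

omit [Module ℂ U] [IsScalarTower ℂ K U] in
theorem smul_mem {S : Subalgebra ℂ K} (M : Submodule S U) (m : U) {g : K} (hg : g ∈ S) :
    g • m ∈ M ⊔ Submodule.span S {m} :=
  Submodule.mem_sup_right (Submodule.mem_span_singleton.2 ⟨⟨g, hg⟩, rfl⟩)

theorem lat {S : Subalgebra ℂ K} {E : DD K} {δ : End ℂ U} (hE : Ev S E) (h : Cn E δ)
    {M : Submodule S U} (hM : Lat S δ M) {m : U} {d : ℤ} (hm : δ m = (d : ℂ) • m) :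
    Lat S δ (M ⊔ Submodule.span S {m}) where
  fg := hM.fg.sup (Submodule.fg_span_singleton m)
  st u hu := by
    obtain ⟨v, hv, g, hg, rfl⟩ := mem_sup hu
    rw [map_add, ← mu_apply, mu_deg h hm, ← map_smul]
    exact add_mem (Submodule.mem_sup_left (hM.st v hv))
      (add_mem (smul_mem M m (hE.tm g hg)) (smul_mem M m (S.smul_mem hg _)))
  dz u hu := by
    obtain ⟨v, hv, g, hg, rfl⟩ := mem_sup hu
    refine add_mem ?_ ?_
    · refine (iSup_mono fun n => inf_le_inf_right _ ?_ :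
        (⨆ n : ℤ, M.restrictScalars ℂ ⊓ δ.eigenspace (n : ℂ)) ≤ _) (hM.dz v hv)
      exact fun w hw => Submodule.mem_sup_left hw
    · have key : (⨆ n : ℤ, SC S ⊓ (op E).eigenspace (n : ℂ)) ≤ Submodule.comap (mu K m)
          (⨆ n : ℤ, (M ⊔ Submodule.span S {m}).restrictScalars ℂ ⊓ δ.eigenspace (n : ℂ)) := by
        refine iSup_le fun n y hy => Submodule.mem_iSup_of_mem (n + d) ⟨smul_mem M m hy.1, ?_⟩
        have h2 : op E y = (n : ℂ) • y := End.mem_eigenspace_iff.1 hy.2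
        refine End.mem_eigenspace_iff.2 ?_
        rw [mu_deg h hm, h2, map_smul, Int.cast_add, add_smul]
      exact key (hE.s g hg)
  den u := by
    obtain ⟨s, hs, h0, h1⟩ := hM.den u
    exact ⟨s, hs, h0, Submodule.mem_sup_left h1⟩

end DSTx

theorem dst (q : S_HSQ) (l : S_LAT) (d : S_DLT) (p : S_PINV) (s : S_HSS) : S_DST := by
  intro K ι U W _ _ _ _ _ _ _ _ _ _ _ S E x a δ δ' b M m n P hC hN hb hM hm hP hPM
  have hL := DSTx.lat hC.ev hb.cu hM hm
  refine ⟨hL, fun ε hε => ?_⟩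
  have hP0 : P ≠ ⊥ := by
    obtain ⟨g, hg, h0, h1⟩ := hM.den m
    intro h
    have h2 : (⟨g, hg⟩ : S) ∈ P := (hPM ⟨g, hg⟩).1 h1
    rw [h, Ideal.mem_bot] at h2
    exact h0 (congrArg Subtype.val h2)
  have hPE : ∀ g ∈ P, In P (E g) := by
    intro g hg
    have h1 : (g : K) • m ∈ M := (hPM g).2 hg
    have h2 := hM.st _ h1
    rw [← DSTx.mu_apply, DSTx.mu_deg hb.cu hm] at h2
    have h3 : (n : ℂ) • DSTx.mu K m (g : K) ∈ M := (M.restrictScalars ℂ).smul_mem _ h1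
    have h4 : (E g : K) • m ∈ M := (Submodule.add_mem_iff_left M h3).1 h2
    exact ⟨⟨E g, hC.ev.tm g g.2⟩, (hPM _).1 h4, rfl⟩
  obtain ⟨hI, c, hc⟩ := p K ι S E x a P hC hN hP hP0 hPE
  obtain ⟨f1, s1⟩ := l K ι W S E x a δ' _ hC hb.cw (d K ι U W S E x a δ δ' b M hC hb hM)
  obtain ⟨f2, s2⟩ := l K ι K S E x a (op E) _ hC (DSTx.cn E)
    (d K ι K K S E x a (op E) (op E) _ _ hC (DSTx.pr E) hI)
  obtain ⟨f3, s3⟩ := l K ι U S E x a δ _ hC hb.cu hL
  filter_upwards [DSTx.near n c (div_pos hε (by positivity : (0 : ℝ) < c + 1))] with t ht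
  obtain ⟨t0, t1, t2⟩ := ht
  obtain ⟨c1, c2, c3⟩ := hc t t0 t1
  obtain ⟨s4, s5⟩ := s K ι S E x a hC t t0 t1
  have q1 := q W K δ' (op E) ((dl S b (M ⊔ Submodule.span S {m})).restrictScalars ℂ)
    ((dl S b M).restrictScalars ℂ) (SC S)
    ((dl S (LinearMap.mul K K) (idl P)).restrictScalars ℂ) ((b m).restrictScalars ℂ) n t
    (fun w hw u hu => hw u (Submodule.mem_sup_left hu))
    (fun y hy u hu => by
      obtain ⟨g, -, rfl⟩ := hu
      exact mul_mem g.2 hy)
    (fun w hw u hu => by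
      obtain ⟨g, hg, rfl⟩ := hu
      have h1 := hw _ ((hPM g).2 hg)
      rw [show g • m = (g : K) • m from rfl, map_smul] at h1
      exact h1)
    (fun w hw h u hu => by
      obtain ⟨v, hv, g, hg, rfl⟩ := DSTx.mem_sup hu
      rw [map_add, map_smul]
      exact add_mem (hw v hv) (mul_mem hg h))
    (fun w => by
      have h1 := hb.leib m w
      rw [hm, lin_c b, add_comm] at h1
      exact h1)
    f1 f2 t0 (s1 t t0 t1) (s2 t t0 t1)
  have q2 := q K U (op E) δ ((idl P).restrictScalars ℂ) (SC S) (M.restrictScalars ℂ)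
    ((M ⊔ Submodule.span S {m}).restrictScalars ℂ) (DSTx.mu K m) n t
    (fun y hy => by
      obtain ⟨g, -, rfl⟩ := hy
      exact g.2)
    (fun w hw => Submodule.mem_sup_left hw) (fun g hg => DSTx.smul_mem M m hg)
    (fun g hg h => ⟨⟨g, hg⟩, (hPM ⟨g, hg⟩).1 h, rfl⟩) (DSTx.mu_deg hb.cu hm) hC.vtx.fd f3 t0 s4
    (s3 t t0 t1)
  rw [mul_assoc] at c3 ⊢
  exact DSTx.arith (zpow_pos t0 n) (pow_pos t0 c) q1 c1 q2 c2 c3 t2 (Nat.cast_nonneg c) hε
    (mul_nonneg (sub_nonneg.2 t1.le) s5.le)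

end

end Pool.Agent.MP_51db15_ag.Qh

end

section
/-! A chain of prime steps between two graded lattices. -/

namespace Pool.Agent.MP_51db15_ag.Qh

open Module Finset

namespace DCHx

theorem sums {A : Type} [CommRing A] (P : Ideal A) (u v : ℕ → A)
    (top : ∀ a b, (∑ i ∈ range (a + 1), u i) * (∑ j ∈ range (b + 1), v j) ∈ P → u a * v b ∈ P)
    (hp : ∀ a b, u a * v b ∈ P → u a ∈ P ∨ v b ∈ P) (a : ℕ) :
    ∀ b, (∑ i ∈ range a, u i) * (∑ j ∈ range b, v j) ∈ P →
      (∑ i ∈ range a, u i) ∈ P ∨ (∑ j ∈ range b, v j) ∈ P := by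
  induction a with
  | zero => exact fun b _ => Or.inl (by simp)
  | succ a iha =>
    intro b
    induction b with
    | zero => exact fun _ => Or.inr (by simp)
    | succ b ihb =>
      intro h
      rcases hp a b (top a b h) with h1 | h1
      · rw [sum_range_succ u, add_mul] at h
        rw [sum_range_succ u]
        exact (iha (b + 1) ((P.add_mem_iff_left (P.mul_mem_right _ h1)).1 h)).imp_left
          fun h2 => add_mem h2 h1
      · rw [sum_range_succ v, mul_add] at h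
        rw [sum_range_succ v]
        exact (ihb ((P.add_mem_iff_left (P.mul_mem_left _ h1)).1 h)).imp_right
          fun h2 => add_mem h2 h1

variable {K U : Type} [Field K] [Algebra ℂ K] [AddCommGroup U] [Module K U] [Module ℂ U]
  [IsScalarTower ℂ K U] {S : Subalgebra ℂ K} {E : DD K} {δ : End ℂ U}

theorem dec (h : Ev S E) {g : K} (hg : g ∈ S) : ∃ u : ℕ → S,
    (∀ i, E (u i) = (i : ℂ) • (u i : K)) ∧ ∃ a, ∀ b, a ≤ b → ((∑ i ∈ range b, u i : S) : K) = g := by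
  refine Submodule.iSup_induction _ (motive := fun g => ∃ u : ℕ → S,
    (∀ i, E (u i) = (i : ℂ) • (u i : K)) ∧ ∃ a, ∀ b, a ≤ b → ((∑ i ∈ range b, u i : S) : K) = g)
    (h.s g hg) (fun n g hg => ?_) ⟨0, by simp, 0, by simp⟩ ?_
  · by_cases h0 : g = 0
    · exact ⟨0, by simp, 0, by simp [h0]⟩
    have h1 : E g = (n : ℂ) • g := End.mem_eigenspace_iff.1 hg.2
    obtain ⟨c, hc⟩ := h.nat g hg.1 n h0 h1
    refine ⟨Pi.single c ⟨g, hg.1⟩, fun i => ?_, c + 1, fun b hb => ?_⟩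
    · by_cases e : i = c
      · rw [e, Pi.single_eq_same, ← hc]
        exact h1
      · simp [Pi.single_eq_of_ne e]
    · rw [sum_pi_single', if_pos (mem_range.2 hb)]
  · rintro g g' ⟨u, u1, a, u2⟩ ⟨v, v1, a', v2⟩
    refine ⟨u + v, fun i => ?_, max a a', fun b hb => ?_⟩
    · rw [Pi.add_apply, Subalgebra.coe_add, map_add, u1, v1, smul_add]
    · simp only [Pi.add_apply]
      rw [sum_add_distrib, Subalgebra.coe_add, u2 b (le_of_max_le_left hb),
        v2 b (le_of_max_le_right hb)]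

theorem eig (h : Cn E δ) {g : S} {m : U} {c d : ℂ} (hg : E g = c • (g : K)) (hm : δ m = d • m) :
    δ (g • m) = (c + d) • g • m := by
  change δ ((g : K) • m) = (c + d) • (g : K) • m
  rw [h, hg, hm, smul_assoc, smul_comm (g : K) d, add_smul, add_comm]

theorem eig_mul {g h : S} {c d : ℂ} (hg : E g = c • (g : K)) (hh : E h = d • (h : K)) :
    E (g * h : S) = (c + d) • ((g * h : S) : K) := by
  rw [Subalgebra.coe_mul, Derivation.leibniz, hg, hh]
  simp only [smul_eq_mul, mul_smul_comm, add_smul]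
  rw [add_comm, mul_comm (h : K)]

theorem top (k : GenK) (h : Cn E δ) {N : Submodule S U} (hN : ∀ u ∈ N, δ u ∈ N) {m : U} {d : ℂ}
    (hm : δ m = d • m) {u v : ℕ → S} (hu : ∀ i, E (u i) = (i : ℂ) • (u i : K))
    (hv : ∀ i, E (v i) = (i : ℂ) • (v i : K)) (a b : ℕ)
    (H : ((∑ i ∈ range (a + 1), u i) * (∑ j ∈ range (b + 1), v j)) • m ∈ N) :
    (u a * v b) • m ∈ N := by
  rw [sum_mul_sum, ← sum_product', ← add_sum_erase _ _
    (mem_product.2 ⟨self_mem_range_succ a, self_mem_range_succ b⟩ : (a, b) ∈ _), add_smul,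
    sum_smul] at H
  refine k.cmp U δ (N.restrictScalars ℂ) _ _ _ hN (eig h (eig_mul (hu a) (hv b)) hm) ?_ H
  refine Submodule.sum_mem _ fun p hp => ?_
  obtain ⟨p1, p2⟩ := mem_erase.1 hp
  obtain ⟨p3, p4⟩ := mem_product.1 p2
  refine Submodule.mem_iSup_of_mem ((p.1 : ℂ) + p.2 + d) (Submodule.mem_iSup_of_mem (fun e => ?_)
    (End.mem_eigenspace_iff.2 (eig h (eig_mul (hu p.1) (hv p.2)) hm)))
  have e1 : p.1 + p.2 = a + b := by exact_mod_cast add_right_cancel e
  have := mem_range.1 p3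
  have := mem_range.1 p4
  exact p1 (Prod.ext (by omega) (by omega))

theorem step (k : GenK) (hn : IsNoetherianRing S) (he : Ev S E) (h : Cn E δ) {N M : Submodule S U}
    (hN : ∀ u ∈ N, δ u ∈ N) (hM : Dz δ (M.restrictScalars ℂ)) (hne : ¬ M ≤ N) :
    ∃ m ∈ M, m ∉ N ∧ ∃ (d : ℤ) (P : Ideal S), δ m = (d : ℂ) • m ∧ P.IsPrime ∧
      ∀ g : S, g • m ∈ N ↔ g ∈ P := by
  have h0 : ∃ m ∈ M, m ∉ N ∧ ∃ d : ℤ, δ m = (d : ℂ) • m := by
    by_contra hc
    push Not at hc
    refine hne fun u hu => (iSup_le fun n w hw => ?_ : _ ≤ N.restrictScalars ℂ) (hM u hu)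
    by_contra h1
    exact hc w hw.1 h1 n (End.mem_eigenspace_iff.1 hw.2)
  obtain ⟨m₀, a1, a2, d₀, a3⟩ := h0
  obtain ⟨P, ⟨m, m1, m2, d, m3, m4⟩, hmax⟩ := set_has_maximal_iff_noetherian.2 hn
    {P : Ideal S | ∃ m ∈ M, m ∉ N ∧ ∃ d : ℤ, δ m = (d : ℂ) • m ∧ ∀ g : S, g • m ∈ N ↔ g ∈ P}
    ⟨N.comap (LinearMap.toSpanSingleton S U m₀), m₀, a1, a2, d₀, a3, fun _ => Iff.rfl⟩
  have hA : ∀ (n : ℕ) (y : S), E y = (n : ℂ) • (y : K) → y ∉ P → ∀ g : S, g * y ∈ P → g ∈ P := by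
    intro n y y1 y2 g hg
    have h1 : P ≤ N.comap (LinearMap.toSpanSingleton S U (y • m)) := fun z hz => by
      change z • y • m ∈ N
      rw [smul_comm]
      exact N.smul_mem y ((m4 z).2 hz)
    rw [h1.lt_or_eq.resolve_left (hmax _ ⟨y • m, M.smul_mem y m1, fun e => y2 ((m4 y).1 e), n + d,
      by rw [eig h y1 m3]; push_cast; rfl, fun _ => Iff.rfl⟩)]
    change g • y • m ∈ N
    rw [← mul_smul]
    exact (m4 _).2 hg
  refine ⟨m, m1, m2, d, P, m3, ⟨fun e => m2 ?_, fun {g y} hg => ?_⟩, m4⟩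
  · simpa using (m4 1).2 (by rw [e]; trivial)
  · obtain ⟨u, u1, a, u2⟩ := dec he g.2
    obtain ⟨v, v1, b, v2⟩ := dec he y.2
    rw [← Subtype.ext (u2 a le_rfl), ← Subtype.ext (v2 b le_rfl)] at hg ⊢
    exact sums P u v (fun a b H => (m4 _).1 (top k h hN m3 u1 v1 a b ((m4 _).2 H)))
      (fun a b H => or_iff_not_imp_right.2 fun e => hA b _ (v1 b) e _ H) a b hg

end DCHx

theorem dch (k : GenK) (s : S_DST) : S_DCH := by
  intro K ι U W _ _ _ _ _ _ _ _ _ _ _ S E x a δ δ' b F M hc hn hp hF hM hle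
  have := hc.bas.noeth
  have : IsNoetherian S M := isNoetherian_of_fg_of_noetherian M hM.fg
  obtain ⟨N, ⟨n1, n2, n3⟩, hmax⟩ := (InvImage.wf (fun N : Submodule S U => N.comap M.subtype)
    (wellFounded_gt (α := Submodule S M))).has_min
    {N | Lat S δ N ∧ N ≤ M ∧ ∀ ε : ℝ, 0 < ε → ∀ᶠ t in L1, hm δ' (dl S b F) t - hm δ' (dl S b N) t ≤
      hm δ N t - hm δ F t + ε * (1 - t) * hs S E t}
    ⟨F, hF, hle, fun ε hε => by
      filter_upwards [Ioo_mem_nhdsLT (zero_lt_one (α := ℝ))] with t ht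
      rw [sub_self, sub_self, zero_add]
      exact mul_nonneg (mul_nonneg hε.le (sub_nonneg.2 ht.2.le))
        (tsum_nonneg fun j => mul_nonneg (Nat.cast_nonneg _) (zpow_pos ht.1 j).le)⟩
  by_cases e : M ≤ N
  · rwa [le_antisymm n2 e] at n3
  obtain ⟨m, m1, m2, d, P, m3, m4, m5⟩ := DCHx.step k hc.bas.noeth hc.ev hp.cu n1.st hM.dz e
  obtain ⟨l1, l2⟩ := s K ι U W S E x a δ δ' b N m d P hc hn hp n1 m3 m4 m5
  refine (hmax (N ⊔ Submodule.span S {m})
    ⟨l1, sup_le n2 ((Submodule.span_singleton_le_iff_mem _ _).2 m1), fun ε hε => ?_⟩ ?_).elim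
  · filter_upwards [n3 (ε / 2) (half_pos hε), l2 (ε / 2) (half_pos hε)] with t t1 t2
    linarith
  · refine lt_of_le_of_ne (Submodule.comap_mono le_sup_left) fun e' => m2 ?_
    have h1 : (⟨m, m1⟩ : M) ∈ (N ⊔ Submodule.span S {m}).comap M.subtype :=
      Submodule.mem_sup_right (Submodule.mem_span_singleton_self m)
    exact e'.ge h1

end Pool.Agent.MP_51db15_ag.Qh

end

section
/-! Row HFR: free lattices. -/

namespace Pool.Agent.MP_51db15_ag.Qh

open Module

namespace HFRx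

variable {K U κ : Type} [Field K] [Algebra ℂ K] [AddCommGroup U] [Module K U] [Module ℂ U]
  [IsScalarTower ℂ K U] [Fintype κ] {S : Subalgebra ℂ K} {E : DD K} {δ : End ℂ U}
  {e : Basis κ K U} {d : κ → ℤ}

omit [Module ℂ U] [IsScalarTower ℂ K U] in
theorem mem_iff (u : U) : u ∈ Submodule.span S (Set.range e) ↔ ∀ i, e.repr u i ∈ S := by
  rw [Submodule.mem_span_range_iff_exists_fun]
  constructor
  · rintro ⟨c, rfl⟩ i
    have : (∑ j, c j • e j) = ∑ j, (c j : K) • e j := rfl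
    rw [this, e.repr_sum_self]
    exact (c i).2
  · exact fun h => ⟨fun i => ⟨e.repr u i, h i⟩, e.sum_repr u⟩

omit [Fintype κ] in
theorem one (hc : Cn E δ) (he : ∀ i, δ (e i) = (d i : ℂ) • e i) (g : K) (i : κ) :
    δ (g • e i) = (E g + (d i : ℂ) • g) • e i := by
  rw [hc, he, add_smul, add_comm, smul_assoc, smul_comm]

theorem repr_op (hc : Cn E δ) (he : ∀ i, δ (e i) = (d i : ℂ) • e i) (u : U) (i : κ) :
    e.repr (δ u) i = E (e.repr u i) + (d i : ℂ) • e.repr u i := by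
  conv_lhs => rw [← e.sum_repr u, map_sum δ]
  simp only [HFRx.one hc he]
  rw [e.repr_sum_self]

theorem eig_iff (hc : Cn E δ) (he : ∀ i, δ (e i) = (d i : ℂ) • e i) (c : ℂ) (u : U) :
    u ∈ δ.eigenspace c ↔ ∀ i, e.repr u i ∈ (op E).eigenspace (c - d i) := by
  simp only [End.mem_eigenspace_iff, op_apply]
  rw [e.ext_elem_iff]
  refine forall_congr' fun i => ?_
  rw [HFRx.repr_op hc he, sub_smul, eq_sub_iff_add_eq, ← algebraMap_smul K c u, map_smul,
    Finsupp.smul_apply, algebraMap_smul]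

theorem rank (hc : Cn E δ) (he : ∀ i, δ (e i) = (d i : ℂ) • e i) (hF : Fd (op E) (SC S)) (c : ℂ) :
    finrank ℂ ↥((Submodule.span S (Set.range e)).restrictScalars ℂ ⊓ δ.eigenspace c) =
      ∑ i, finrank ℂ ↥(SC S ⊓ (op E).eigenspace (c - d i)) := by
  have : ∀ i, FiniteDimensional ℂ ↥(SC S ⊓ (op E).eigenspace (c - d i)) := fun i => hF _
  let T : ↥((Submodule.span S (Set.range e)).restrictScalars ℂ ⊓ δ.eigenspace c) →ₗ[ℂ]
      (∀ i, ↥(SC S ⊓ (op E).eigenspace (c - d i))) :=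
    LinearMap.pi fun i => LinearMap.codRestrict _
      ((e.coord i).restrictScalars ℂ ∘ₗ Submodule.subtype _) fun u =>
        ⟨(HFRx.mem_iff u.1).1 u.2.1 i, (HFRx.eig_iff hc he c u.1).1 u.2.2 i⟩
  have hT : Function.Bijective T := by
    constructor
    · rw [injective_iff_map_eq_zero]
      intro u hu
      refine Subtype.ext (e.ext_elem fun i => ?_)
      rw [ZeroMemClass.coe_zero, map_zero]
      exact congrArg Subtype.val (congrFun hu i)
    · intro g
      have r : ∀ i, e.repr (∑ j, (g j : K) • e j) i = g i := fun i => by rw [e.repr_sum_self]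
      refine ⟨⟨∑ j, (g j : K) • e j, (HFRx.mem_iff _).2 fun i => ?_,
        (HFRx.eig_iff hc he c _).2 fun i => ?_⟩, funext fun i => Subtype.ext (r i)⟩
      · rw [r]
        exact (g i).2.1
      · rw [r]
        exact (g i).2.2
  rw [← Module.finrank_pi_fintype ℂ]
  exact (LinearEquiv.ofBijective T hT).finrank_eq

end HFRx

theorem hfr (s : S_HSS) : S_HFR := by
  intro K ι U κ _ _ _ _ _ _ _ _ S E x a δ e d hC hc he
  classical
  refine ⟨⟨Submodule.fg_span (Set.finite_range e), fun u hu => ?_, fun u hu => ?_, fun u => ?_⟩,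
    fun t t0 t1 => ?_⟩
  · rw [HFRx.mem_iff] at hu ⊢
    intro i
    rw [HFRx.repr_op hc he]
    exact add_mem (hC.ev.tm _ (hu i)) (S.smul_mem (hu i) _)
  · have hu' := (HFRx.mem_iff u).1 hu
    rw [← e.sum_repr u]
    refine Submodule.sum_mem _ fun i _ => ?_
    have key : (⨆ n : ℤ, SC S ⊓ (op E).eigenspace (n : ℂ)) ≤
        Submodule.comap ((LinearMap.toSpanSingleton K U (e i)).restrictScalars ℂ)
          (⨆ n : ℤ, (Submodule.span S (Set.range e)).restrictScalars ℂ ⊓ δ.eigenspace (n : ℂ)) := by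
      refine iSup_le fun n g hg => Submodule.mem_iSup_of_mem (n + d i) ⟨?_, ?_⟩
      · exact Submodule.smul_mem (Submodule.span S (Set.range e)) (⟨g, hg.1⟩ : S)
          (Submodule.subset_span ⟨i, rfl⟩)
      · have h1 : E g = (n : ℂ) • g := End.mem_eigenspace_iff.1 hg.2
        refine End.mem_eigenspace_iff.2 ?_
        change δ (g • e i) = ((n + d i : ℤ) : ℂ) • (g • e i)
        rw [HFRx.one hc he, h1, ← add_smul, Int.cast_add, smul_assoc]
    exact key (hC.ev.s _ (hu' i))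
  · choose g hg h hh h0 hy using fun i => hC.bas.frac (e.repr u i)
    refine ⟨∏ i, h i, prod_mem fun i _ => hh i, Finset.prod_ne_zero_iff.2 fun i _ => h0 i,
      (HFRx.mem_iff _).2 fun i => ?_⟩
    rw [map_smul, Finsupp.smul_apply, smul_eq_mul, hy i,
      ← Finset.prod_erase_mul _ _ (Finset.mem_univ i), mul_assoc, mul_div_cancel₀ _ (h0 i)]
    exact mul_mem (prod_mem fun j _ => hh j) (hg i)
  · have hs := (s K ι S E x a hC t t0 t1).1
    have h1 : ∀ i, HasSum (fun k : ℤ =>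
        (finrank ℂ ↥(SC S ⊓ (op E).eigenspace ((k : ℂ) - d i)) : ℝ) * t ^ k)
        (t ^ d i * hilb (op E) (SC S) t) := by
      intro i
      have h2 := ((Equiv.subRight (d i)).hasSum_iff.2 hs.hasSum).mul_left (t ^ d i)
      refine h2.congr_fun fun k => ?_
      change _ = t ^ d i *
        ((finrank ℂ ↥(SC S ⊓ (op E).eigenspace ((k - d i : ℤ) : ℂ)) : ℝ) * t ^ (k - d i))
      rw [Int.cast_sub, mul_left_comm, ← zpow_add₀ t0.ne', add_sub_cancel]
    have h3 := hasSum_sum fun i (_ : i ∈ Finset.univ) => h1 i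
    rw [Finset.sum_mul, ← h3.tsum_eq]
    refine tsum_congr fun k => ?_
    rw [HFRx.rank hc he hC.vtx.fd, Nat.cast_sum, Finset.sum_mul]

end Pool.Agent.MP_51db15_ag.Qh

end

section
/-! A free lattice inside a lattice, and its dual. -/

namespace Pool.Agent.MP_51db15_ag.Qh

open Module

namespace DFRx

theorem small {κ : Type} [Fintype κ] (d : κ → ℤ) {ε : ℝ} (hε : 0 < ε) : ∀ᶠ t in L1,
    0 < t ∧ t < 1 ∧ |∑ i, t ^ d i + ∑ i, t ^ (-d i) - 2 * (Fintype.card κ : ℝ)| ≤ ε * (1 - t) := by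
  have h1 : HasDerivAt (fun t : ℝ => ∑ i, t ^ d i + ∑ i, t ^ (-d i))
      (∑ i, (d i : ℝ) * 1 ^ (d i - 1) + ∑ i, ((-d i : ℤ) : ℝ) * 1 ^ (-d i - 1)) 1 :=
    (HasDerivAt.fun_sum fun i _ => hasDerivAt_zpow (d i) 1 (Or.inl one_ne_zero)).add
      (HasDerivAt.fun_sum fun i _ => hasDerivAt_zpow (-d i) 1 (Or.inl one_ne_zero))
  have h2 := (h1.isLittleO.bound hε).filter_mono (nhdsWithin_le_nhds (s := Set.Iio (1 : ℝ)))
  have h3 : ∀ᶠ t in L1, 0 < t := (lt_mem_nhds one_pos).filter_mono nhdsWithin_le_nhds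
  have h4 : ∀ᶠ t in L1, t < 1 := self_mem_nhdsWithin
  filter_upwards [h2, h3, h4] with t k2 k3 k4
  refine ⟨k3, k4, ?_⟩
  rw [Real.norm_eq_abs, Real.norm_eq_abs, abs_sub_comm t 1, abs_of_pos (sub_pos.2 k4)] at k2
  simpa [two_mul] using k2

variable {K : Type} [Field K] [Algebra ℂ K] {U W κ : Type} [AddCommGroup U] [Module K U]
  [AddCommGroup W] [Module K W] {S : Subalgebra ℂ K} {b : U →ₗ[K] W →ₗ[K] K}

theorem dual [Fintype κ] [DecidableEq κ] (e : Basis κ K U) (e' : Basis κ K W)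
    (h : ∀ i j, b (e i) (e' j) = if i = j then 1 else 0) :
    dl S b (Submodule.span S (Set.range e)) = Submodule.span S (Set.range e') := by
  refine le_antisymm (fun w hw => ?_) (Submodule.span_le.2 ?_)
  · have h1 : ∀ j, e'.repr w j = b (e j) w := fun j => by
      conv_rhs => rw [← e'.sum_repr w, map_sum]
      simp only [map_smul, h, smul_eq_mul, mul_ite, mul_one, mul_zero, Finset.sum_ite_eq,
        Finset.mem_univ, if_true]
    rw [← e'.sum_repr w]
    refine Submodule.sum_mem _ fun j _ => ?_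
    rw [h1]
    exact Submodule.smul_mem _
      (⟨b (e j) w, hw _ (Submodule.subset_span ⟨j, rfl⟩)⟩ : S) (Submodule.subset_span ⟨j, rfl⟩)
  · rintro _ ⟨j, rfl⟩ u hu
    induction hu using Submodule.span_induction with
    | mem u hu =>
      obtain ⟨i, rfl⟩ := hu
      rw [h]
      split_ifs
      · exact one_mem S
      · exact zero_mem S
    | zero => simp
    | add u v _ _ hu hv =>
      rw [map_add, LinearMap.add_apply]
      exact add_mem hu hv
    | smul s u _ hu =>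
      rw [show s • u = (s : K) • u from rfl, map_smul, LinearMap.smul_apply]
      exact mul_mem s.2 hu

omit [Algebra ℂ K] in
theorem exists_dual [Fintype κ] [DecidableEq κ] [FiniteDimensional K U] [FiniteDimensional K W]
    (hl : ∀ u, (∀ w, b u w = 0) → u = 0) (hr : ∀ w, (∀ u, b u w = 0) → w = 0) (e : Basis κ K U) :
    ∃ e' : Basis κ K W, ∀ i j, b (e i) (e' j) = if i = j then 1 else 0 := by
  have i1 : Function.Injective b :=
    (injective_iff_map_eq_zero b).2 fun u h => hl u fun w => by rw [h]; rfl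
  have i2 : Function.Injective b.flip :=
    (injective_iff_map_eq_zero b.flip).2 fun w h => hr w fun u => LinearMap.congr_fun h u
  have f1 : finrank K U ≤ finrank K (Dual K W) := LinearMap.finrank_le_finrank_of_injective i1
  have f2 : finrank K W ≤ finrank K (Dual K U) := LinearMap.finrank_le_finrank_of_injective i2
  rw [Subspace.dual_finrank_eq] at f1
  have f3 : finrank K W = finrank K (Dual K U) :=
    le_antisymm f2 (by rwa [Subspace.dual_finrank_eq])
  refine ⟨e.dualBasis.map (LinearMap.linearEquivOfInjective b.flip i2 f3).symm, fun i j => ?_⟩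
  have h1 := LinearMap.congr_fun ((LinearMap.linearEquivOfInjective b.flip i2 f3).apply_symm_apply
    (e.dualBasis j)) (e i)
  rw [Basis.dualBasis_apply_self] at h1
  exact h1

variable [Module ℂ U] [IsScalarTower ℂ K U]

theorem exists_basis {δ : End ℂ U} {M : Submodule S U} (h : Lat S δ M) :
    ∃ (κ : Type) (e : Basis κ K U) (d : κ → ℤ), ∀ i, e i ∈ M ∧ δ (e i) = (d i : ℂ) • e i := by
  obtain ⟨B, b1, b2, b3⟩ :=
    exists_linearIndependent K {u : U | u ∈ M ∧ ∃ n : ℤ, δ u = (n : ℂ) • u}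
  have h1 : ∀ u ∈ M, u ∈ Submodule.span K B := fun u hu => by
    rw [b2]
    have h2 : (⨆ n : ℤ, M.restrictScalars ℂ ⊓ δ.eigenspace (n : ℂ)) ≤ (Submodule.span K
        {u : U | u ∈ M ∧ ∃ n : ℤ, δ u = (n : ℂ) • u}).restrictScalars ℂ :=
      iSup_le fun n v hv => Submodule.subset_span ⟨hv.1, n, End.mem_eigenspace_iff.1 hv.2⟩
    exact h2 (h.dz u hu)
  have h3 : ⊤ ≤ Submodule.span K (Set.range ((↑) : B → U)) := fun u _ => by
    obtain ⟨s, -, s0, hs⟩ := h.den u
    rw [Subtype.range_coe, ← inv_smul_smul₀ s0 u]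
    exact Submodule.smul_mem _ _ (h1 _ hs)
  choose d hd using fun i : B => (b1 i.2).2
  exact ⟨B, Basis.mk b3 h3, d, fun i => by
    rw [Basis.mk_apply]
    exact ⟨(b1 i.2).1, hd i⟩⟩

end DFRx

theorem dfr (h : S_HFR) : S_DFR := by
  classical
  intro K ι U W _ _ _ _ _ _ _ _ _ _ _ S E x a δ δ' b M C P L
  have := P.fu
  have := P.fw
  obtain ⟨κ, e, d, he⟩ := DFRx.exists_basis L
  have : Finite κ := Module.Finite.finite_basis e
  have := Fintype.ofFinite κ
  obtain ⟨e', h'⟩ := DFRx.exists_dual P.left P.right e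
  have hd : ∀ j, δ' (e' j) = ((-d j : ℤ) : ℂ) • e' j := fun j => by
    refine sub_eq_zero.1 (P.right _ fun u => ?_)
    refine LinearMap.congr_fun (f := b.flip _) (g := 0) (e.ext fun i => ?_) u
    have h1 := P.leib (e i) (e' j)
    rw [(he i).2, lin_c, LinearMap.smul_apply, h'] at h1
    rw [LinearMap.flip_apply, map_sub, lin_c, h', LinearMap.zero_apply]
    split_ifs at h1 ⊢ with hij
    · subst hij
      rw [Derivation.map_one_eq_zero] at h1
      rw [Int.cast_neg, neg_smul, sub_neg_eq_add, add_comm, ← h1]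
    · simpa using h1.symm
  obtain ⟨k1, k2⟩ := h K ι U κ S E x a δ e d C P.cu fun i => (he i).2
  obtain ⟨-, k3⟩ := h K ι W κ S E x a δ' e' (fun i => -d i) C P.cw hd
  have e1 := DFRx.dual (S := S) e e' h'
  refine ⟨_, Submodule.span_le.2 ?_, k1, ?_, fun ε hε => ?_⟩
  · rintro _ ⟨i, rfl⟩
    exact (he i).1
  · rw [e1]
    exact DFRx.dual e' e fun i j => by
      rw [LinearMap.flip_apply, h']
      simp only [eq_comm]
  · filter_upwards [DFRx.small d hε] with t ⟨t0, t1, t2⟩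
    have h0 : 0 ≤ hs S E t := tsum_nonneg fun k => by positivity
    rw [e1, k2 t t0 t1, k3 t t0 t1, finrank_eq_card_basis e', ← add_mul, ← sub_mul, abs_mul,
      abs_of_nonneg h0]
    exact mul_le_mul_of_nonneg_right t2 h0

end Pool.Agent.MP_51db15_ag.Qh

end

section
/-! Row DDU: a lattice and its dual. -/

namespace Pool.Agent.MP_51db15_ag.Qh

open Module

theorem ddu (q : S_HSQ) (l : S_LAT) (t : S_DLT) (c : S_DCH) (f : S_DFR) : S_DDU := by
  intro K ι U W _ _ _ _ _ _ _ _ _ _ _ S E x a δ δ' b M hC hN hP hM ε hε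
  obtain ⟨F, hFM, hF, hFF, hfr⟩ := f K ι U W S E x a δ δ' b M hC hP hM
  have hdM := t K ι U W S E x a δ δ' b M hC hP hM
  have hdF := t K ι U W S E x a δ δ' b F hC hP hF
  have hddM := t K ι W U S E x a δ' δ b.flip _ hC hP.flip hdM
  have hle : dl S b M ≤ dl S b F := fun w hw u hu => hw u (hFM hu)
  have hle2 : M ≤ dl S b.flip (dl S b M) := fun u hu w hw => hw u hu
  have h1 := c K ι U W S E x a δ δ' b F M hC hN hP hF hM hFM (ε / 2) (half_pos hε)
  have h2 := c K ι W U S E x a δ' δ b.flip _ _ hC hN hP.flip hdM hdF hle (ε / 2) (half_pos hε)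
  rw [hFF] at h2
  obtain ⟨f1, s1⟩ := l K ι U S E x a δ M hC hP.cu hM
  obtain ⟨f2, s2⟩ := l K ι U S E x a δ _ hC hP.cu hddM
  have h0 : ∀ᶠ s in L1, 0 < s :=
    Filter.Eventually.filter_mono nhdsWithin_le_nhds (lt_mem_nhds one_pos)
  have h3 : ∀ᶠ s in L1, s < 1 := self_mem_nhdsWithin
  filter_upwards [h0, h3, h1, h2, hfr (ε / 2) (half_pos hε)] with s p0 p1 e1 e2 e3
  have e4 := q U U δ δ (M.restrictScalars ℂ) (M.restrictScalars ℂ) (M.restrictScalars ℂ)
    ((dl S b.flip (dl S b M)).restrictScalars ℂ) LinearMap.id 0 s le_rfl hle2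
    (fun u hu => hle2 hu) (fun u hu _ => hu) (fun u => by simp) f1 f2 p0 (s1 s p0 p1) (s2 s p0 p1)
  rw [sub_self, mul_zero] at e4
  rw [abs_le] at e3 ⊢
  simp only [hm] at e1 e2 e3 ⊢
  constructor <;> linarith [e3.1, e3.2]

end Pool.Agent.MP_51db15_ag.Qh

end

section
/-! A quotient of a lattice and the dual submodule. -/

namespace Pool.Agent.MP_51db15_ag.Qh

open Module

namespace DSQx

theorem dz_map {U W : Type} [AddCommGroup U] [Module ℂ U] [AddCommGroup W] [Module ℂ W]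
    {δ : End ℂ U} {δ' : End ℂ W} {H : Submodule ℂ U} (f : U →ₗ[ℂ] W) (h : Dz δ H)
    (c : ∀ u, δ' (f u) = f (δ u)) : Dz δ' (H.map f) := by
  have e : H.map f ≤ ⨆ n : ℤ, H.map f ⊓ δ'.eigenspace (n : ℂ) := by
    refine (Submodule.map_mono (show H ≤ _ from h)).trans ?_
    rw [Submodule.map_iSup]
    refine iSup_mono fun n => ?_
    rintro _ ⟨u, ⟨h1, h2⟩, rfl⟩
    refine ⟨⟨u, h1, rfl⟩, End.mem_eigenspace_iff.2 ?_⟩
    rw [c, End.mem_eigenspace_iff.1 h2, map_smul]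
  exact e

theorem hilb_bot {U : Type} [AddCommGroup U] [Module ℂ U] (δ : End ℂ U) (t : ℝ) :
    hilb δ ⊥ t = 0 := by
  have e : ∀ k : ℤ, (finrank ℂ ↥(⊥ ⊓ δ.eigenspace (k : ℂ)) : ℝ) * t ^ k = 0 := fun k => by
    rw [bot_inf_eq, finrank_bot, Nat.cast_zero, zero_mul]
  rw [hilb, tsum_congr e, tsum_zero]

theorem gen (a : S_HSA) (l : S_LAT) (d : S_DDU) (dt : S_DLT) {K ι U W U₀ W₀ : Type} [Field K]
    [Algebra ℂ K] [Fintype ι] [AddCommGroup U] [Module K U] [Module ℂ U] [IsScalarTower ℂ K U]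
    [AddCommGroup W] [Module K W] [Module ℂ W] [IsScalarTower ℂ K W]
    [AddCommGroup U₀] [Module K U₀] [Module ℂ U₀] [IsScalarTower ℂ K U₀]
    [AddCommGroup W₀] [Module K W₀] [Module ℂ W₀] [IsScalarTower ℂ K W₀]
    {S : Subalgebra ℂ K} {E : DD K} {x : ι → K} {n : ι → ℕ} {δ : End ℂ U} {δ' : End ℂ W}
    {δ₀ : End ℂ U₀} {δ₁ : End ℂ W₀} {b : U →ₗ[K] W →ₗ[K] K} {b₀ : U₀ →ₗ[K] W₀ →ₗ[K] K}
    {M : Submodule S U} (f : U →ₗ[K] U₀) (i : W₀ →ₗ[K] W) (A : Submodule K U) (V : Submodule K W)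
    (hc : Cone S E x n) (hn : Nrm S) (cu : Cn E δ) (p : Pr E δ₀ δ₁ b₀) (hM : Lat S δ M)
    (fs : Function.Surjective f) (hA : ∀ u, f u = 0 ↔ u ∈ A) (ii : ∀ w, i w = 0 → w = 0)
    (hV : ∀ w, (∃ v, i v = w) ↔ w ∈ V) (cf : ∀ u, δ₀ (f u) = f (δ u))
    (ci : ∀ w, δ' (i w) = i (δ₁ w)) (cb : ∀ u w, b₀ (f u) w = b u (i w)) (ε : ℝ) (hε : 0 < ε) :
    ∀ᶠ t in L1, |hm δ M t - hm δ (M ⊓ A.restrictScalars S) t +
        hm δ' (dl S b M ⊓ V.restrictScalars S) t - 2 * finrank K W₀ * hs S E t| ≤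
      ε * (1 - t) * hs S E t := by
  let Q : Submodule S U₀ := M.map (f.restrictScalars S)
  have e1 : Q.restrictScalars ℂ = (M.restrictScalars ℂ).map (f.restrictScalars ℂ) :=
    Submodule.ext fun _ => Iff.rfl
  have hQ : Lat S δ₀ Q := by
    refine ⟨hM.fg.map _, ?_, e1 ▸ dz_map _ hM.dz cf, fun u => ?_⟩
    · rintro _ ⟨u, hu, rfl⟩
      exact ⟨δ u, hM.st u hu, (cf u).symm⟩
    · obtain ⟨u, rfl⟩ := fs u
      obtain ⟨s, s1, s2, s3⟩ := hM.den u
      exact ⟨s, s1, s2, s • u, s3, map_smul f s u⟩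
  have hD := dt K ι U₀ W₀ S E x n δ₀ δ₁ b₀ Q hc p hQ
  have e2 : M.restrictScalars ℂ ⊓ LinearMap.ker (f.restrictScalars ℂ) =
      (M ⊓ A.restrictScalars S).restrictScalars ℂ :=
    Submodule.ext fun u => and_congr Iff.rfl (hA u)
  have e3 : (dl S b₀ Q).restrictScalars ℂ ⊓ LinearMap.ker (i.restrictScalars ℂ) = ⊥ :=
    eq_bot_iff.2 fun w hw => ii w hw.2
  have e4 : ((dl S b₀ Q).restrictScalars ℂ).map (i.restrictScalars ℂ) =
      (dl S b M ⊓ V.restrictScalars S).restrictScalars ℂ := by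
    ext w
    constructor
    · rintro ⟨v, hv, rfl⟩
      exact ⟨fun u hu => (cb u v) ▸ hv (f u) ⟨u, hu, rfl⟩, (hV _).1 ⟨v, rfl⟩⟩
    · rintro ⟨h1, h2⟩
      obtain ⟨v, rfl⟩ := (hV w).2 h2
      refine ⟨v, ?_, rfl⟩
      rintro _ ⟨u, hu, rfl⟩
      exact (cb u v).symm ▸ h1 u hu
  obtain ⟨l1, l2⟩ := l K ι U S E x n δ M hc cu hM
  obtain ⟨l3, l4⟩ := l K ι W₀ S E x n δ₁ _ hc p.cw hD
  filter_upwards [d K ι U₀ W₀ S E x n δ₀ δ₁ b₀ Q hc hn p hQ ε hε,
    Ioo_mem_nhdsLT (zero_lt_one' ℝ)] with t h ht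
  have a1 := a U U₀ δ δ₀ _ (f.restrictScalars ℂ) 0 t hM.dz l1 (fun u => by simpa using cf u) ht.1
    (l2 t ht.1 ht.2)
  have a2 := a W₀ W δ₁ δ' _ (i.restrictScalars ℂ) 0 t hD.dz l3 (fun w => by simpa using ci w) ht.1
    (l4 t ht.1 ht.2)
  rw [zpow_zero, one_mul, ← e1, e2] at a1
  rw [zpow_zero, one_mul, e3, e4, hilb_bot, sub_zero] at a2
  simp only [hm] at h ⊢
  rwa [a2, ← a1]

end DSQx

theorem dsq (a : S_HSA) (l : S_LAT) (d : S_DDU) (t : S_DLT) : S_DSQ := by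
  intro K ι U W _ _ _ _ _ _ _ _ _ _ _ S E x n δ δ' b M V hc hn p hM hV ε hε
  obtain ⟨g, hg⟩ := (an b V).mkQ.exists_rightInverse_of_surjective (an b V).range_mkQ
  have z : ∀ u, (an b V).mkQ u = 0 ↔ u ∈ an b V := fun u => Submodule.Quotient.mk_eq_zero _
  have k : ∀ u, g ((an b V).mkQ u) - u ∈ an b V := fun u => (z _).1 (by
    rw [map_sub, sub_eq_zero]
    exact LinearMap.congr_fun hg _)
  have st : ∀ u ∈ an b V, δ u ∈ an b V := fun u hu w hw => by
    have := p.leib u w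
    rwa [hu w hw, hu _ (hV w hw), map_zero, add_zero, eq_comm] at this
  let δ₀ : End ℂ (U ⧸ an b V) :=
    (an b V).mkQ.restrictScalars ℂ ∘ₗ δ ∘ₗ g.restrictScalars ℂ
  let δ₁ : End ℂ V :=
    { toFun := fun w => ⟨δ' w, hV w w.2⟩
      map_add' := fun v w => Subtype.ext (map_add δ' v.1 w.1)
      map_smul' := fun c w => Subtype.ext (map_smul δ' c w.1) }
  let b₀ : (U ⧸ an b V) →ₗ[K] V →ₗ[K] K := (b ∘ₗ g).compl₂ V.subtype
  have cf : ∀ u, δ₀ ((an b V).mkQ u) = (an b V).mkQ (δ u) := fun u => by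
    have := (z _).2 (st _ (k u))
    rwa [map_sub, map_sub, sub_eq_zero] at this
  have cb : ∀ u (w : V), b₀ ((an b V).mkQ u) w = b u w := fun u w => by
    have := k u w w.2
    rwa [map_sub, LinearMap.sub_apply, sub_eq_zero] at this
  have := p.fu
  have := p.fw
  refine DSQx.gen a l d t (δ₀ := δ₀) (δ₁ := δ₁) (b₀ := b₀) (an b V).mkQ V.subtype (an b V) V hc hn
    p.cu ⟨fun c u => ?_, fun c w => Subtype.ext (p.cw c w), inferInstance, inferInstance,
      fun u h => ?_, fun w h => Subtype.ext (p.right w fun u => (cb u w).symm.trans (h _)),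
      fun u w => ?_⟩ hM (an b V).mkQ_surjective z (fun w h => Subtype.ext h)
    (fun w => ⟨fun ⟨v, e⟩ => e ▸ v.2, fun h => ⟨⟨w, h⟩, rfl⟩⟩) cf (fun _ => rfl) cb ε hε
  · obtain ⟨u, rfl⟩ := (an b V).mkQ_surjective u
    rw [← map_smul, cf, cf, p.cu, map_add, map_smul, map_smul]
  · obtain ⟨u, rfl⟩ := (an b V).mkQ_surjective u
    exact (z u).2 fun w hw => (cb u ⟨w, hw⟩).symm.trans (h _)
  · obtain ⟨u, rfl⟩ := (an b V).mkQ_surjective u
    rw [cf, cb, cb, cb]
    exact p.leib u w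

end Pool.Agent.MP_51db15_ag.Qh

end

section
/-! Row DUP: submodules of the forms. -/

namespace Pool.Agent.MP_51db15_ag.Qh

open Module

namespace DUPx

theorem mono {U : Type} [AddCommGroup U] [Module ℂ U] (δ : End ℂ U) {H G : Submodule ℂ U}
    (h : H ≤ G) (f : Fd δ G) {t : ℝ} (ht : 0 < t) (s : Smb δ G t) : hilb δ H t ≤ hilb δ G t := by
  have le : ∀ k : ℤ, (finrank ℂ ↥(H ⊓ δ.eigenspace (k : ℂ)) : ℝ) * t ^ k ≤
      (finrank ℂ ↥(G ⊓ δ.eigenspace (k : ℂ)) : ℝ) * t ^ k := fun k => by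
    have := f (k : ℂ)
    exact mul_le_mul_of_nonneg_right
      (Nat.cast_le.2 (Submodule.finrank_mono (inf_le_inf_right _ h))) (zpow_pos ht k).le
  exact Summable.tsum_le_tsum le
    (Summable.of_nonneg_of_le (fun k => mul_nonneg (Nat.cast_nonneg _) (zpow_pos ht k).le) le s) s

theorem sub {U : Type} [AddCommGroup U] [Module ℂ U] (δ : End ℂ U) {H G : Submodule ℂ U}
    (h : H ≤ G) (f : Fd δ G) :
    Fd δ H ∧ ∀ t : ℝ, 0 < t → Smb δ G t → Smb δ H t := by
  refine ⟨fun c => ?_, fun t ht s => ?_⟩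
  · have := f c
    exact Submodule.finiteDimensional_of_le (inf_le_inf_right _ h)
  · refine Summable.of_nonneg_of_le
      (fun k => mul_nonneg (Nat.cast_nonneg _) (zpow_pos ht k).le) (fun k => ?_) s
    have := f (k : ℂ)
    exact mul_le_mul_of_nonneg_right
      (Nat.cast_le.2 (Submodule.finrank_mono (inf_le_inf_right _ h))) (zpow_pos ht k).le

theorem hilb_bot {U : Type} [AddCommGroup U] [Module ℂ U] (δ : End ℂ U) (t : ℝ) :
    hilb δ ⊥ t = 0 := by
  have : ∀ k : ℤ, finrank ℂ ↥((⊥ : Submodule ℂ U) ⊓ δ.eigenspace (k : ℂ)) = 0 := fun k => by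
    rw [bot_inf_eq]; exact finrank_bot ℂ U
  simp only [hilb, this, Nat.cast_zero, zero_mul, tsum_zero]

theorem span_inf {K U : Type} [Field K] [Algebra ℂ K] [AddCommGroup U] [Module K U]
    {S : Subalgebra ℂ K} (M : Submodule S U) (hM : ∀ u : U, ∃ s : K, s ∈ S ∧ s ≠ 0 ∧ s • u ∈ M)
    (A : Submodule K U) :
    Submodule.span K ((M ⊓ A.restrictScalars S : Submodule S U) : Set U) = A := by
  refine le_antisymm (Submodule.span_le.2 fun u hu => hu.2) fun u hu => ?_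
  obtain ⟨s, -, s0, hs⟩ := hM u
  have : u = s⁻¹ • s • u := by rw [smul_smul, inv_mul_cancel₀ s0, one_smul]
  rw [this]
  exact Submodule.smul_mem _ _ (Submodule.subset_span ⟨hs, A.smul_mem s hu⟩)

end DUPx

theorem dup (_q : S_HSQ) (l : S_LAT) (d : S_DSQ) (s : S_HSS) : S_DUP := by
  intro K ι _ _ _ S E x a α α' C nr hα lo N hN st
  have := C.bas.fd
  let b : DD K →ₗ[K] DU K →ₗ[K] K := Module.Dual.eval K (DD K)
  have hb : ∀ (D : DD K) (γ : DU K), b D γ = γ D := fun _ _ => rfl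
  have pr : Pr E (ad E) (ld E) b :=
    ⟨fun g D => lie_smul' E D g, fun g γ => ld_smul E g γ, inferInstance, inferInstance,
      fun D h => (Module.forall_dual_apply_eq_zero_iff K D).1 h,
      fun γ h => LinearMap.ext h, fun D γ => by
        rw [hb, hb, hb, ld_apply, ad_apply]; ring⟩
  have lT : Lat S (ad E) (TT S) :=
    ⟨C.bas.fgT, fun u hu => lie_mem C.ev.tm hu, C.ev.T, C.bas.den⟩
  have lD : Lat S (ld E) (TD S) :=
    ⟨C.bas.fgD, fun u hu => ld_mem C.ev.tm hu, C.ev.D, C.bas.denD⟩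
  have e : dl S b (TT S) = TD S := Submodule.ext fun _ => Iff.rfl
  set V : Submodule K (DU K) := Submodule.span K (N : Set (DU K)) with hV
  have sV : ∀ w ∈ V, ld E w ∈ V := by
    intro w hw
    induction hw using Submodule.span_induction with
    | mem w hw => exact Submodule.subset_span (st w hw)
    | zero => rw [map_zero]; exact zero_mem _
    | add u v _ _ hu hv => rw [map_add]; exact add_mem hu hv
    | smul g u hu h => rw [ld_smul]; exact add_mem (V.smul_mem _ h) (V.smul_mem _ hu)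
  have rN : rk N = finrank K V := rfl
  rcases Nat.eq_zero_or_pos (finrank K V) with h0 | hp
  · have hb0 : N.restrictScalars ℂ = ⊥ := by
      rw [eq_bot_iff]
      intro u hu
      have h1 : u ∈ V := Submodule.subset_span hu
      rw [Submodule.finrank_eq_zero.1 h0] at h1
      exact h1
    refine Filter.Eventually.of_forall fun t => ?_
    rw [hb0, DUPx.hilb_bot, rN, h0]
    simp
  have ea : an b V = V.dualCoannihilator :=
    Submodule.ext fun D => (Submodule.mem_dualCoannihilator D).symm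
  have r1 : rk (TT S) = finrank K (DD K) := by
    have h := DUPx.span_inf (TT S) C.bas.den ⊤
    rw [Submodule.restrictScalars_top, inf_top_eq] at h
    rw [rk, h, finrank_top]
  have r2 : rk (TT S ⊓ (an b V).restrictScalars S) = finrank K (an b V) := by
    rw [rk, DUPx.span_inf (TT S) C.bas.den]
  have r3 : finrank K V + finrank K (an b V) = finrank K (DD K) := by
    rw [ea]; exact Subspace.finrank_add_finrank_dualCoannihilator_eq V
  have r4 : ((rk (TT S) : ℝ) - rk (TT S ⊓ (an b V).restrictScalars S)) = finrank K V := by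
    rw [r1, r2, ← r3]; push_cast; ring
  have h1 := lo (TT S ⊓ (an b V).restrictScalars S) inf_le_left fun D hD =>
    ⟨lie_mem C.ev.tm hD.1, fun γ hγ => by
      have h2 := pr.leib D γ
      rw [hD.2 γ hγ, hD.2 _ (sV γ hγ), map_zero, add_zero] at h2
      exact h2.symm⟩
  have h2 := d K ι (DD K) (DU K) S E x a (ad E) (ld E) b (TT S) V C nr pr lT sV (α - α')
    (sub_pos.2 hα)
  obtain ⟨fD, sD⟩ := l K ι (DU K) S E x a (ld E) (TD S) C pr.cw lD
  have le1 : (TD S ⊓ V.restrictScalars S).restrictScalars ℂ ≤ (TD S).restrictScalars ℂ :=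
    fun u hu => hu.1
  obtain ⟨fV, sV'⟩ := DUPx.sub (ld E) le1 fD
  have le2 : N.restrictScalars ℂ ≤ (TD S ⊓ V.restrictScalars S).restrictScalars ℂ :=
    fun u hu => ⟨hN hu, Submodule.subset_span hu⟩
  filter_upwards [h1, h2, Ioo_mem_nhdsLT (zero_lt_one' ℝ)] with t h1 h2 ht
  have h3 := DUPx.mono (ld E) le2 fV ht.1 (sV' t ht.1 (sD t ht.1 ht.2))
  have h4 := (s K ι S E x a C t ht.1 ht.2).2
  rw [r4] at h1
  rw [e] at h2
  have h5 := (abs_le.1 h2).2
  have h6 : (1 : ℝ) ≤ finrank K V := by exact_mod_cast hp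
  have h7 : 0 ≤ ((finrank K V : ℝ) - 1) * ((α - α') * (1 - t) * hilb (op E) (SC S) t) :=
    mul_nonneg (sub_nonneg.2 h6)
      (mul_nonneg (mul_nonneg (sub_pos.2 hα).le (sub_pos.2 ht.2).le) h4.le)
  rw [rN]
  simp only [hm, hs] at h5
  nlinarith [h1, h3, h5, h7]

end Pool.Agent.MP_51db15_ag.Qh

end

section
/-! Row DLO: quotients of the forms. -/

namespace Pool.Agent.MP_51db15_ag.Qh

open Module

namespace DLOx

variable {K : Type} [Field K] [Algebra ℂ K]

theorem rk_eq {U : Type} [AddCommGroup U] [Module K U] {S : Subalgebra ℂ K} (N : Submodule S U)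
    (V : Submodule K U) (h1 : ∀ u ∈ N, u ∈ V) (h2 : ∀ u ∈ V, ∃ s : K, s ≠ 0 ∧ s • u ∈ N) :
    rk N = finrank K V := by
  have h : Submodule.span K (N : Set U) = V := by
    refine le_antisymm (Submodule.span_le.2 h1) fun u hu => ?_
    obtain ⟨s, hs, hsu⟩ := h2 u hu
    have h3 := (Submodule.span K (N : Set U)).smul_mem s⁻¹ (Submodule.subset_span hsu)
    rwa [inv_smul_smul₀ hs] at h3
  unfold rk
  rw [h]

theorem pr (E : DD K) (hf : FiniteDimensional K (DD K)) :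
    Pr E (ld E) (ad E) (LinearMap.id : DU K →ₗ[K] DD K →ₗ[K] K) where
  cu g u := ld_smul E g u
  cw g w := lie_smul' E w g
  fu := inferInstance
  fw := hf
  left _ h := LinearMap.ext h
  right w h := (Module.forall_dual_apply_eq_zero_iff K w).1 h
  leib u w := by
    change E (u w) = ld E u w + u ⁅E, w⁆
    rw [ld_apply]
    ring

theorem dl_eq (S : Subalgebra ℂ K) :
    dl S (LinearMap.id : DU K →ₗ[K] DD K →ₗ[K] K) (TD S) = TT S := by
  ext w
  exact ⟨fun h g hg => h (dd g) (dd_mem hg), fun hw u hu => hu w hw⟩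

theorem mem_co {S : Subalgebra ℂ K} (N : Submodule S (DU K)) (w : DD K) :
    w ∈ (Submodule.span K (N : Set (DU K))).dualCoannihilator ↔ ∀ γ ∈ N, γ w = 0 := by
  rw [Submodule.mem_dualCoannihilator]
  refine ⟨fun h γ hγ => h γ (Submodule.subset_span hγ), fun h γ hγ => ?_⟩
  induction hγ using Submodule.span_induction with
  | mem y hy => exact h y hy
  | zero => rfl
  | add y z _ _ hy hz => rw [LinearMap.add_apply, hy, hz, add_zero]
  | smul c y _ hy => rw [LinearMap.smul_apply, hy, smul_zero]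

end DLOx

theorem dlo (q : S_HSQ) (l : S_LAT) (d : S_DSQ) (s : S_HSS) : S_DLO := by
  intro K ι _ _ _ S E x a β β' hC hN hβ hU N hNM hNst
  have hf : FiniteDimensional K (DD K) := hC.bas.fd
  have hP := DLOx.pr E hf
  have hL : Lat S (ld E) (TD S) :=
    ⟨hC.bas.fgD, fun u hu => ld_mem hC.ev.tm hu, hC.ev.D, fun u => hC.bas.denD u⟩
  obtain ⟨hFd, hSm⟩ := l K ι (DU K) S E x a (ld E) (TD S) hC hP.cu hL
  obtain ⟨V, hVdef⟩ : ∃ V : Submodule K (DD K),
      V = (Submodule.span K (N : Set (DU K))).dualCoannihilator := ⟨_, rfl⟩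
  have hV : ∀ w, w ∈ V ↔ ∀ γ ∈ N, γ w = 0 := fun w => by rw [hVdef]; exact DLOx.mem_co N w
  have hVst : ∀ w ∈ V, ad E w ∈ V := fun w hw => (hV _).2 fun γ hγ => by
    have h1 := (hV w).1 hw _ (hNst γ hγ)
    rw [ld_apply, (hV w).1 hw γ hγ, map_zero, zero_sub, neg_eq_zero] at h1
    exact h1
  have hrk : rk N + finrank K V = finrank K (DD K) := by
    rw [hVdef]
    exact Subspace.finrank_add_finrank_dualCoannihilator_eq _
  have hrkD : rk (TD S) = finrank K (DD K) := by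
    rw [DLOx.rk_eq (TD S) ⊤ (fun _ _ => trivial) fun u _ => ?_, finrank_top,
      Subspace.dual_finrank_eq]
    obtain ⟨c, -, hc, hcu⟩ := hC.bas.denD u
    exact ⟨c, hc, hcu⟩
  have hrkT : rk (TT S ⊓ V.restrictScalars S) = finrank K V := by
    refine DLOx.rk_eq _ V (fun u hu => hu.2) fun u hu => ?_
    obtain ⟨c, -, hc, hcu⟩ := hC.bas.den u
    exact ⟨c, hc, hcu, V.smul_mem c hu⟩
  have hv : ((rk (TD S) : ℝ) - rk N) = finrank K V := by
    rw [hrkD, ← hrk]
    push_cast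
    ring
  have hmono : ∀ H₀ : Submodule S (DU K), H₀ ≤ TD S → N ≤ H₀ → ∀ t : ℝ, 0 < t → t < 1 →
      hm (ld E) (TD S) t - hm (ld E) H₀ t ≤ hm (ld E) (TD S) t - hm (ld E) N t := by
    intro H₀ h0 h1 t ht ht1
    have h := q (DU K) (DU K) (ld E) (ld E) (H₀.restrictScalars ℂ) ((TD S).restrictScalars ℂ)
      (N.restrictScalars ℂ) ((TD S).restrictScalars ℂ) LinearMap.id 0 t (fun _ hu => h0 hu)
      (fun _ hu => hNM hu) (fun _ hu => hu) (fun _ _ hu => h1 hu) (fun u => by simp) hFd hFd ht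
      (hSm t ht ht1) (hSm t ht ht1)
    rwa [zpow_zero, one_mul] at h
  have hev : ∀ᶠ t in L1, t ∈ Set.Ioo (0 : ℝ) 1 := Ioo_mem_nhdsLT zero_lt_one
  rw [hv]
  rcases Nat.eq_zero_or_pos (finrank K V) with h0 | h0
  · filter_upwards [hev] with t ht
    have h := hmono (TD S) le_rfl hNM t ht.1 ht.2
    rw [h0]
    simpa using h
  · have h1 := d K ι (DU K) (DD K) S E x a (ld E) (ad E) LinearMap.id (TD S) V hC hN hP hL hVst
      (β' - β) (by linarith)
    rw [DLOx.dl_eq] at h1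
    have h2 := hU (TT S ⊓ V.restrictScalars S) inf_le_left
      fun u hu => ⟨lie_mem hC.ev.tm hu.1, hVst u hu.2⟩
    rw [hrkT] at h2
    filter_upwards [hev, h1, h2] with t ht h1 h2
    have h3 := hmono (TD S ⊓ (an LinearMap.id V).restrictScalars S) inf_le_left
      (fun γ hγ => ⟨hNM hγ, fun w hw => (hV w).1 hw γ hγ⟩) t ht.1 ht.2
    have h4 := (s K ι S E x a hC t ht.1 ht.2).2
    have h5 := (abs_le.1 h1).1
    have h6 : (1 : ℝ) ≤ finrank K V := by exact_mod_cast h0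
    have h7 : 0 ≤ ((finrank K V : ℝ) - 1) * ((β' - β) * (1 - t) * hilb (op E) (SC S) t) :=
      mul_nonneg (by linarith) (mul_nonneg (mul_nonneg (by linarith) (by linarith [ht.2])) h4.le)
    simp only [hm, hs] at h3 h5
    nlinarith

end Pool.Agent.MP_51db15_ag.Qh

end

section
/-! Row HSC: slopes of the fields give the two inequalities. -/

namespace Pool.Agent.MP_51db15_ag.Qh

theorem hsc (s : S_HSS) (b : S_HSB) (u : S_DUP) (l : S_DLO) : S_HSC := by
  intro K ι _ _ _ S E x a α β hC hN h0 h1 h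
  obtain ⟨ε, e0, e1, e2⟩ : ∃ ε : ℝ, 0 < ε ∧ ε < α ∧ β + ε - (α - ε) < 1 / 2 :=
    ⟨min (α / 2) ((1 / 2 - (β - α)) / 4), lt_min (by linarith) (by linarith),
      lt_of_le_of_lt (min_le_left _ _) (by linarith), by
        have := min_le_right (α / 2) ((1 / 2 - (β - α)) / 4)
        linarith⟩
  have hU := u K ι S E x a α (α - ε) hC hN (by linarith) fun N h2 h3 =>
    (h N h2 h3).mono fun t ht => ht.2
  have hL := l K ι S E x a β (β + ε) hC hN (by linarith) fun N h2 h3 =>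
    (h N h2 h3).mono fun t ht => ht.1
  refine b K ι S E x a (α - ε) (β + ε) hC (by linarith) e2 (fun N h2 h3 => ?_)
    fun N h2 h3 => (hU N h2 h3).and (hL N h2 h3)
  have := hC.bas.fd
  have r0 : (0 : ℝ) ≤ rk N := Nat.cast_nonneg _
  have r1 : (0 : ℝ) ≤ (rk (TT S) : ℝ) - rk N :=
    sub_nonneg.2 (Nat.cast_le.2 (Submodule.finrank_mono (Submodule.span_mono h2)))
  filter_upwards [h N h2 h3, Ioo_mem_nhdsLT (zero_lt_one' ℝ)] with t ht h4
  have p := (s K ι S E x a hC t h4.1 h4.2).2.le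
  have p1 : 0 ≤ ε * (1 - t) := mul_nonneg e0.le (sub_nonneg.2 h4.2.le)
  exact ⟨ht.1.trans (mul_le_mul_of_nonneg_right
      (mul_le_mul_of_nonneg_left (by linarith) r0) p),
    le_trans (mul_le_mul_of_nonneg_right (mul_le_mul_of_nonneg_left (by linarith) r1) p) ht.2⟩

end Pool.Agent.MP_51db15_ag.Qh

end
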