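import Pool.Agent.MP_51db15_ag.Qh.Final4
import Pool.Agent.MP_51db15_ag.Qh.N3
import Pool.Agent.MP_51db15_ag.Qh.N4

/-! The rows on slopes with their hypotheses discharged. -/

namespace Pool.Agent.MP_51db15_ag.Qh

theorem rLAT : S_LAT := lat gen hss

theorem rDLT : S_DLT := dlt (evg gen)

theorem rDSQ : S_DSQ :=
  dsq (hsa gen) rLAT (ddu hsq rLAT rDLT
    (dch gen (dst hsq rLAT rDLT (pinv gen hsq rLAT rDLT hss) hss)) (dfr (hfr hss))) rDLT

theorem rHSC : S_HSC :=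
  hsc hss (hsb hss (hst hss hse) (hsh (hsa gen) hsn) (hsu hss)) (dup hsq rLAT rDSQ hss)
    (dlo hsq rLAT rDSQ hss)

theorem nrm_of {K : Type} [Field K] [Algebra ℂ K] (S : Subalgebra ℂ K) [IsFractionRing S K]
    [IsIntegrallyClosed S] : Nrm S := fun y hy => by
  obtain ⟨z, rfl⟩ := IsIntegrallyClosed.isIntegral_iff.1 hy
  exact z.2

end Pool.Agent.MP_51db15_ag.Qh
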