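import Pool.Agent.MP_51db15_ag.Qh.Spec

/-! Row GEN: eigenspace decompositions. -/

namespace Pool.Agent.MP_51db15_ag.Qh

open Module Polynomial

namespace GENx

variable {U : Type} [AddCommGroup U] [Module ℂ U]

theorem kill (δ : End ℂ U) (c : ℂ) {u' : U}
    (h : u' ∈ ⨆ (c' : ℂ) (_ : c' ≠ c), δ.eigenspace c') :
    ∃ p : ℂ[X], p.eval c ≠ 0 ∧ aeval δ p u' = 0 := by
  rw [iSup_subtype'] at h
  refine Submodule.iSup_induction (motive := fun x => ∃ p : ℂ[X], p.eval c ≠ 0 ∧ aeval δ p x = 0)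
    _ h (fun c' x hx => ⟨X - C c'.1, ?_, ?_⟩) ⟨1, by simp, by simp⟩ ?_
  · simpa [sub_eq_zero] using c'.2.symm
  · rw [End.aeval_apply_of_mem_apply_eq_smul (End.mem_eigenspace_iff.1 hx)]
    simp
  · rintro x y ⟨p, h1, h2⟩ ⟨q, h3, h4⟩
    refine ⟨p * q, by simp [h1, h3], ?_⟩
    have e1 : aeval δ (p * q) x = 0 := by
      rw [mul_comm, map_mul, End.mul_apply, h2, map_zero]
    have e2 : aeval δ (p * q) y = 0 := by
      rw [map_mul, End.mul_apply, h4, map_zero]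
    rw [map_add, e1, e2, add_zero]

theorem cmp (δ : End ℂ U) (H : Submodule ℂ U) (c : ℂ) (u u' : U) (hH : ∀ v ∈ H, δ v ∈ H)
    (hu : δ u = c • u) (h : u' ∈ ⨆ (c' : ℂ) (_ : c' ≠ c), δ.eigenspace c') (k : u + u' ∈ H) :
    u ∈ H := by
  obtain ⟨p, h1, h2⟩ := kill δ c h
  have h3 := aeval_apply_smul_mem_of_le_comap k p δ hH
  rw [map_add, h2, add_zero, End.aeval_apply_of_mem_apply_eq_smul hu] at h3
  exact (H.smul_mem_iff h1).1 h3

theorem sub (δ : End ℂ U) (H H' : Submodule ℂ U) (h : Dz δ H) (hle : H' ≤ H)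
    (hH : ∀ v ∈ H', δ v ∈ H') : Dz δ H' := by
  intro u hu
  obtain ⟨f, h1, h2⟩ := (Submodule.mem_iSup_iff_exists_finsupp _ _).1 (h u (hle hu))
  refine (Submodule.mem_iSup_iff_exists_finsupp _ _).2 ⟨f, fun n => ⟨?_, (h1 n).2⟩, h2⟩
  by_cases hn : n ∈ f.support
  · refine cmp δ H' n (f n) (∑ m ∈ f.support.erase n, f m) hH
      (End.mem_eigenspace_iff.1 (h1 n).2) (Submodule.sum_mem _ fun m hm => ?_) ?_
    · refine Submodule.mem_iSup_of_mem (m : ℂ) (Submodule.mem_iSup_of_mem ?_ (h1 m).2)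
      exact_mod_cast (Finset.mem_erase.1 hm).1
    · rw [Finset.add_sum_erase _ (fun m => f m) hn]
      exact (show ∑ m ∈ f.support, f m = u from h2) ▸ hu
  · rw [Finsupp.notMem_support_iff.1 hn]
    exact H'.zero_mem

theorem joint (δ δ' : End ℂ U) (H : Submodule ℂ U) (h : Dz δ H) (hf : Fd δ H)
    (hH : ∀ v ∈ H, δ' v ∈ H) (hc : ∀ v, δ (δ' v) = δ' (δ v)) (u : U) (hu : u ∈ H) :
    u ∈ ⨆ p : ℤ × ℂ, H ⊓ δ.eigenspace (p.1 : ℂ) ⊓ δ'.maxGenEigenspace p.2 := by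
  refine (iSup_le fun n x hx => ?_ : (⨆ n : ℤ, H ⊓ δ.eigenspace (n : ℂ)) ≤ _) (h u hu)
  have := hf n
  have hK : ∀ v ∈ H ⊓ δ.eigenspace (n : ℂ), δ' v ∈ H ⊓ δ.eigenspace (n : ℂ) := fun v hv =>
    ⟨hH v hv.1, End.mem_eigenspace_iff.2 (by
      rw [hc, End.mem_eigenspace_iff.1 hv.2, map_smul])⟩
  have k : (⟨x, hx⟩ : ↥(H ⊓ δ.eigenspace (n : ℂ))) ∈
      ⨆ μ : ℂ, End.maxGenEigenspace (δ'.restrict hK) μ := by
    rw [End.iSup_maxGenEigenspace_eq_top]
    trivial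
  refine Submodule.iSup_induction (motive := fun y : ↥(H ⊓ δ.eigenspace (n : ℂ)) =>
    y.1 ∈ ⨆ p : ℤ × ℂ, H ⊓ δ.eigenspace (p.1 : ℂ) ⊓ δ'.maxGenEigenspace p.2) _ k
    (fun μ y hy => ?_) (Submodule.zero_mem _) fun y z hy hz => Submodule.add_mem _ hy hz
  rw [End.maxGenEigenspace, End.genEigenspace_restrict] at hy
  exact Submodule.mem_iSup_of_mem (n, μ) ⟨y.2, hy⟩

theorem pw {V W : Type} [AddCommGroup V] [Module ℂ V] [AddCommGroup W] [Module ℂ W]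
    (a : End ℂ U) (b : End ℂ V) (c : End ℂ W) (B : U →ₗ[ℂ] V →ₗ[ℂ] W)
    (h : ∀ u v, c (B u v) = B (a u) v + B u (b v)) (N : ℕ) : ∀ (m n : ℕ) (u : U) (v : V),
    m + n = N → (a ^ m) u = 0 → (b ^ n) v = 0 → (c ^ N) (B u v) = 0 := by
  induction N with
  | zero =>
    intro m n u v e h1 _
    obtain rfl : m = 0 := by omega
    obtain rfl : u = 0 := h1
    simp
  | succ N ih =>
    intro m n u v e h1 h2
    rcases m with _ | m
    · obtain rfl : u = 0 := h1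
      simp
    rcases n with _ | n
    · obtain rfl : v = 0 := h2
      simp
    rw [pow_succ, End.mul_apply, h, map_add, ih m (n + 1) (a u) v (by omega) h1 h2,
      ih (m + 1) n u (b v) (by omega) h1 h2, add_zero]

end GENx

theorem gen : GenK where
  cmp := fun _ _ _ => GENx.cmp
  sub := fun _ _ _ => GENx.sub
  joint := fun _ _ _ => GENx.joint
  bil := by
    intro U V W _ _ _ _ _ _ δU δV δW B α β u v h hu hv
    obtain ⟨m, hm⟩ := (End.mem_maxGenEigenspace _ _ _).1 hu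
    obtain ⟨n, hn⟩ := (End.mem_maxGenEigenspace _ _ _).1 hv
    refine (End.mem_maxGenEigenspace _ _ _).2 ⟨m + n, GENx.pw _ _ _ B (fun x y => ?_) _ m n u v
      rfl hm hn⟩
    simp only [LinearMap.sub_apply, LinearMap.add_apply, LinearMap.smul_apply, End.one_apply,
      map_sub, map_smul, h, add_smul]
    abel

end Pool.Agent.MP_51db15_ag.Qh
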