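import Pool.Agent.MP_51db15_ag.Qh.Spec4

/-! PROJECT SD, row GENF: filtered generators of the module of fields. -/

namespace Pool.Agent.MP_51db15_ag.Qh

open Module

noncomputable section

namespace GENFx

theorem comp {U : Type} [AddCommGroup U] [Module ℂ U] (δ : End ℂ U) (H : ℤ → Submodule ℂ U)
    (hH : ∀ k, H k ≤ δ.eigenspace (k : ℂ)) (k : ℤ) {u : U} (hu : u ∈ ⨆ n, H n)
    (e : u ∈ δ.eigenspace (k : ℂ)) : u ∈ H k := by
  have h : ⨆ n, H n ≤ H k ⊔ ⨆ (c : ℂ) (_ : c ≠ (k : ℂ)), δ.eigenspace c := iSup_le fun n => by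
    by_cases c : n = k
    · rw [c]
      exact le_sup_left
    · exact le_sup_of_le_right ((hH n).trans
        (le_iSup₂_of_le (n : ℂ) (by exact_mod_cast c) le_rfl))
  obtain ⟨a, ha, b, hb, rfl⟩ := Submodule.mem_sup.1 (h hu)
  have b1 : b ∈ δ.eigenspace (k : ℂ) := by simpa using sub_mem e (hH k ha)
  have b2 := Submodule.disjoint_def.1 (δ.eigenspaces_iSupIndep (k : ℂ)) b b1 hb
  rw [b2, add_zero]
  exact ha

variable {K : Type} [Field K] [Algebra ℂ K] {ι R : Type} [CommRing R] [Algebra ℂ R]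
  {F : ℤ → Ideal R} {X : ι → R} {a : ι → ℕ}

theorem od_sub {D D' : DR R} {p : ℤ} (h : Od F D p) (h' : Od F D' p) : Od F (D - D') p :=
  fun k r hr => sub_mem (h k r hr) (h' k r hr)

theorem od_zero (p : ℤ) : Od F 0 p := fun _ _ _ => zero_mem _

theorem od_sum {κ : Type} (s : Finset κ) (D : κ → DR R) {p : ℤ} (h : ∀ j ∈ s, Od F (D j) p) :
    Od F (∑ j ∈ s, D j) p :=
  Finset.sum_induction D (fun Y => Od F Y p) (fun _ _ b c k r hr => add_mem (b k r hr) (c k r hr))
    (od_zero p) h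

theorem od_smul (fa : FA F X a) {D : DR R} {p q : ℤ} {r : R} (hr : r ∈ F (q - p))
    (h : Od F D p) : Od F (r • D) q := fun k s hs => by
  have := fa.mul _ _ r hr _ (h k s hs)
  rwa [show q - p + (k + p) = k + q by ring] at this

theorem od_mono (fa : FA F X a) {D : DR R} {p q : ℤ} (l : q ≤ p) (h : Od F D p) : Od F D q :=
  fun k s hs => fa.anti (by omega) (h k s hs)

variable {S : Subalgebra ℂ K} {E : DD K} {σ : ℤ → R →ₗ[ℂ] K}

/-- symbols of combinations of the chosen fields -/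
def HH (sy : SY S E F σ) {n : ℕ} (u : Fin n → DR R) (p : Fin n → ℤ) (k : ℤ) :
    Submodule ℂ (DD K) where
  carrier := {D₀ | ∃ r : Fin n → R, (∀ j, r j ∈ F (k - p j)) ∧ Sym F σ (∑ j, r j • u j) k D₀}
  zero_mem' := ⟨0, fun _ => zero_mem _, by simpa using (sy.zero 0 k).2 (od_zero _)⟩
  add_mem' := by
    rintro _ _ ⟨r, h1, h2⟩ ⟨s, h3, h4⟩
    refine ⟨r + s, fun j => add_mem (h1 j) (h3 j), ?_⟩
    simpa only [Pi.add_apply, add_smul, Finset.sum_add_distrib] using sy.add _ _ _ _ _ h2 h4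
  smul_mem' := by
    rintro c _ ⟨r, h1, h2⟩
    refine ⟨fun j => c • r j, fun j => Submodule.smul_of_tower_mem _ c (h1 j), ?_⟩
    simpa only [Finset.smul_sum, smul_assoc] using sy.csmul _ _ _ c h2

theorem step {x : ι → K} (h : Flt S E x a F X σ) :
    ∃ (n : ℕ) (u : Fin n → DR R) (p : Fin n → ℤ), (∀ j, Od F (u j) (p j)) ∧
      ∀ D k, ∃ r : Fin n → R, Od F D k →
        (∀ j, r j ∈ F (k - p j)) ∧ Od F (D - ∑ j, r j • u j) (k + 1) := by
  classical
  have sy := h.sy
  have := h.cone.bas.noeth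
  have l : Submodule.span S {D₀ : DD K | ∃ D p, Sym F σ D p D₀} ≤ TT S :=
    Submodule.span_le.2 fun D₀ ⟨D, p, e⟩ => (sy.mem D p D₀ e).1
  have fg := isNoetherian_submodule.1 (isNoetherian_of_fg_of_noetherian _ h.cone.bas.fgT) _ l
  obtain ⟨s, s1, s2⟩ := (Submodule.fg_span_iff_fg_span_finset_subset _).1 fg
  have ch : ∀ j : Fin s.card, ∃ D p, Sym F σ D p (s.equivFin.symm j : DD K) :=
    fun j => s1 (s.equivFin.symm j).2
  choose u p hu using ch
  have rg : (s : Set (DD K)) = Set.range fun j => (s.equivFin.symm j : DD K) := by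
    ext y
    exact ⟨fun hy => ⟨s.equivFin ⟨y, hy⟩, by simp⟩, fun ⟨j, e⟩ => e ▸ (s.equivFin.symm j).2⟩
  refine ⟨s.card, u, p, fun j => (hu j).1, fun D k => ?_⟩
  by_cases o : Od F D k
  swap
  · exact ⟨0, fun b => (o b).elim⟩
  obtain ⟨D₀, e⟩ := sy.ex D k o
  have m : D₀ ∈ Submodule.span S {D₀ : DD K | ∃ D p, Sym F σ D p D₀} :=
    Submodule.subset_span ⟨D, k, e⟩
  rw [s2, rg, Submodule.mem_span_range_iff_exists_fun] at m
  obtain ⟨c, hc⟩ := m
  have b : ∀ j, ∀ g ∈ S, g • (s.equivFin.symm j : DD K) ∈ ⨆ m, HH sy u p m := fun j g hg => by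
    refine Submodule.iSup_induction _
      (motive := fun g : K => g • (s.equivFin.symm j : DD K) ∈ ⨆ m, HH sy u p m)
      (h.cone.ev.s g hg) ?_ (by simp) fun y z hy hz => by
        rw [add_smul]
        exact add_mem hy hz
    rintro m y ⟨y1, y2⟩
    obtain ⟨r, r1, rfl⟩ := h.fb.surj m y y1 (End.mem_eigenspace_iff.1 y2)
    refine Submodule.mem_iSup_of_mem (m + p j) ⟨Pi.single j r, fun i => ?_, ?_⟩
    · by_cases q : i = j
      · rw [q, Pi.single_eq_same, add_sub_cancel_right]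
        exact r1
      · rw [Pi.single_eq_of_ne q]
        exact zero_mem _
    · rw [Finset.sum_eq_single j (fun i _ q => by rw [Pi.single_eq_of_ne q, zero_smul])
        (fun q => (q (Finset.mem_univ j)).elim), Pi.single_eq_same]
      exact sy.smul _ _ _ m r r1 (hu j)
  have d : D₀ ∈ ⨆ m, HH sy u p m := hc ▸ sum_mem fun j _ => b j (c j) (c j).2
  obtain ⟨r, r1, r2⟩ := comp (ad E) (HH sy u p)
    (fun m Y ⟨_, _, q⟩ => End.mem_eigenspace_iff.2 (sy.mem _ _ _ q).2) k d
    (End.mem_eigenspace_iff.2 (sy.mem _ _ _ e).2)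
  refine ⟨r, fun _ => ⟨r1, (sy.zero _ k).1 ?_⟩⟩
  simpa only [neg_smul, one_smul, add_neg_cancel, ← sub_eq_add_neg, sub_self] using
    sy.add _ _ _ _ _ e (sy.csmul _ _ _ (-1) r2)

end GENFx

open GENFx

theorem genf : S_GENF := by
  intro K ι R _ _ _ _ _ S E x a F X σ h
  obtain ⟨n, u, p, hu, st⟩ := step h
  choose f hf using st
  refine ⟨n, u, p, hu, fun D k o => ?_⟩
  let q : ℕ → DR R := fun N => Nat.rec D (fun N Y => Y - ∑ j, f Y (k + N) j • u j) N
  have q0 : q 0 = D := rfl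
  have q1 : ∀ N, q (N + 1) = q N - ∑ j, f (q N) (k + N) j • u j := fun N => rfl
  have qo : ∀ N : ℕ, Od F (q N) (k + N) := fun N => by
    induction N with
    | zero => simpa [q0] using o
    | succ N ih =>
      rw [q1, Nat.cast_succ, ← add_assoc]
      exact (hf _ _ ih).2
  have qs : ∀ N : ℕ, q N = D - ∑ j, (∑ m ∈ Finset.range N, f (q m) (k + m) j) • u j := fun N => by
    induction N with
    | zero => simp [q0]
    | succ N ih =>
      simp only [Finset.sum_range_succ, add_smul, Finset.sum_add_distrib]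
      rw [← sub_sub, ← ih, q1]
  have cp : ∀ j, ∃ s, ∀ N : ℕ,
      s - ∑ m ∈ Finset.range N, f (q m) (k + m) j ∈ F (k - p j + N) := fun j =>
    h.fa.cpl (k - p j) (fun m => f (q m) (k + m) j) fun m => by
      rw [show k - p j + m = k + m - p j by ring]
      exact (hf _ _ (qo m)).1 j
  choose s hs using cp
  refine ⟨s, fun j => by simpa using hs j 0, sub_eq_zero.1 (h.sy.sep _ fun t => ?_)⟩
  have e : ∀ N : ℕ, D - ∑ j, s j • u j =
      q N - ∑ j, (s j - ∑ m ∈ Finset.range N, f (q m) (k + m) j) • u j := fun N => by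
    conv_rhs => rw [qs N]
    simp only [sub_smul, Finset.sum_sub_distrib]
    abel
  rw [e (t - k).toNat]
  refine od_mono h.fa (p := k + ((t - k).toNat : ℕ)) (by omega)
    (od_sub (qo _) (od_sum _ _ fun j _ => od_smul h.fa ?_ (hu j)))
  rw [show k + ((t - k).toNat : ℕ) - p j = k - p j + ((t - k).toNat : ℕ) by ring]
  exact hs j _

end

end Pool.Agent.MP_51db15_ag.Qh
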