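import Pool.Agent.MP_51db15_ag.Qh.Spec
import Pool.Agent.MP_51db15_ag.Hy.MINP

/-! Row INIT: the Euler field and homogeneous generators of a graded algebra. -/

namespace Pool.Agent.MP_51db15_ag.Qh

namespace INITx

variable {A : Type} [CommRing A] [Algebra ℂ A] (𝒢 : ℕ → Submodule ℂ A)

theorem euler (hm : SetLike.GradedMonoid 𝒢) (hi : DirectSum.IsInternal 𝒢) :
    ∃ T : A →ₗ[ℂ] A, (∀ d, ∀ f ∈ 𝒢 d, T f = (d : ℂ) • f) ∧
      ∀ a b, T (a * b) = a * T b + b * T a := by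
  letI := hi.chooseDecomposition
  let T : A →ₗ[ℂ] A := (DirectSum.toModule ℂ ℕ A fun d => (d : ℂ) • (𝒢 d).subtype) ∘ₗ
    (DirectSum.decomposeLinearEquiv 𝒢).toLinearMap
  have hT : ∀ d, ∀ f ∈ 𝒢 d, T f = (d : ℂ) • f := by
    intro d f hf
    have h : DirectSum.decomposeLinearEquiv 𝒢 f = DirectSum.lof ℂ ℕ (fun i => 𝒢 i) d ⟨f, hf⟩ :=
      DirectSum.decompose_of_mem 𝒢 hf
    simp only [T, LinearMap.comp_apply, LinearEquiv.coe_coe, h, DirectSum.toModule_lof,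
      LinearMap.smul_apply, Submodule.subtype_apply]
  refine ⟨T, hT, fun a b => ?_⟩
  refine DirectSum.Decomposition.inductionOn 𝒢
    (motive := fun a => T (a * b) = a * T b + b * T a) (by simp) (fun {i} a => ?_)
    (fun a a' h h' => by rw [add_mul, map_add, h, h', map_add]; ring) a
  refine DirectSum.Decomposition.inductionOn 𝒢
    (motive := fun b => T (a * b) = a * T b + b * T a) (by simp) (fun {j} b => ?_)
    (fun b b' h h' => by rw [mul_add, map_add, h, h', map_add]; ring) b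
  rw [hT _ _ (SetLike.mul_mem_graded a.2 b.2), hT _ _ a.2, hT _ _ b.2, Nat.cast_add, add_smul,
    mul_smul_comm, mul_smul_comm, mul_comm (b : A) a, add_comm]

theorem gens [Algebra.FiniteType ℂ A] (hi : DirectSum.IsInternal 𝒢)
    (h0 : ∀ f ∈ 𝒢 0, ∃ c : ℂ, f = algebraMap ℂ A c) :
    ∃ F : Finset (A × ℕ), (∀ p ∈ F, 0 < p.2 ∧ p.1 ∈ 𝒢 p.2) ∧
      Algebra.adjoin ℂ (Prod.fst '' (F : Set (A × ℕ))) = ⊤ := by
  classical
  letI := hi.chooseDecomposition
  obtain ⟨s, hs⟩ := Algebra.FiniteType.out (R := ℂ) (A := A)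
  refine ⟨s.biUnion fun g => ((DirectSum.decompose 𝒢 g).support.filter (0 < ·)).image
    fun d => ((DirectSum.decompose 𝒢 g d : A), d), fun p hp => ?_, ?_⟩
  · simp only [Finset.mem_biUnion, Finset.mem_image, Finset.mem_filter] at hp
    obtain ⟨g, -, d, ⟨-, hd⟩, rfl⟩ := hp
    exact ⟨hd, (DirectSum.decompose 𝒢 g d).2⟩
  · rw [eq_top_iff, ← hs, Algebra.adjoin_le_iff]
    intro g hg
    rw [← DirectSum.sum_support_decompose 𝒢 g]
    refine Subalgebra.sum_mem _ fun d hd => ?_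
    rcases Nat.eq_zero_or_pos d with rfl | hp
    · obtain ⟨c, hc⟩ := h0 _ (DirectSum.decompose 𝒢 g 0).2
      rw [hc]
      exact Subalgebra.algebraMap_mem _ c
    · refine Algebra.subset_adjoin ⟨((DirectSum.decompose 𝒢 g d : A), d), ?_, rfl⟩
      simp only [Finset.mem_coe, Finset.mem_biUnion, Finset.mem_image, Finset.mem_filter]
      exact ⟨g, hg, d, ⟨hd, hp⟩, rfl⟩

end INITx

theorem init : S_INIT := by
  intro K _ _ S _ _ _ 𝒢 hm hi m hpos h0
  refine ⟨fun y hy => ?_, ?_⟩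
  · obtain ⟨z, rfl⟩ := (IsIntegrallyClosed.isIntegral_iff (R := S) (K := K)).1 hy
    exact z.2
  have fr : ∀ y : K, ∃ g h : S, (h : K) ≠ 0 ∧ y = g / h := fun y => by
    obtain ⟨g, h, hh, rfl⟩ := IsFractionRing.div_surjective (A := S) y
    exact ⟨g, h, fun e => nonZeroDivisors.ne_zero hh (Subtype.ext e), rfl⟩
  obtain ⟨T, hT, hL⟩ := INITx.euler 𝒢 hm hi
  obtain ⟨F, hF, hg⟩ := INITx.gens 𝒢 hi h0
  obtain ⟨E, hE⟩ := Hy.lift S K S.val (S.val.toLinearMap ∘ₗ T)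
    (fun y => by obtain ⟨g, h, -, e⟩ := fr y; exact ⟨g, h, e⟩)
    (fun a b => by
      simp only [LinearMap.comp_apply, AlgHom.toLinearMap_apply, hL, map_add, map_mul])
    (fun a ha => by
      have e : a = 0 := Subtype.ext ha
      rw [e, map_zero])
  refine ⟨F, inferInstance, fun p => (p.1.1 : K), fun p => p.1.2, E, ⟨?_, fun y => ?_, fun p => ?_⟩,
    fun p => (hF _ p.2).1, ?_⟩
  · have e : (Set.range fun p : F => (p.1.1 : K)) = S.val '' (Prod.fst '' (F : Set (S × ℕ))) := by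
      ext z
      constructor
      · rintro ⟨p, rfl⟩
        exact ⟨p.1.1, ⟨p.1, p.2, rfl⟩, rfl⟩
      · rintro ⟨_, ⟨p, hp, rfl⟩, rfl⟩
        exact ⟨⟨p, hp⟩, rfl⟩
    rw [e, ← AlgHom.map_adjoin, hg, Algebra.map_top, Subalgebra.range_val]
  · obtain ⟨g, h, hh, e⟩ := fr y
    exact ⟨g, g.2, h, h.2, hh, e⟩
  · have e := hE p.1.1
    rw [LinearMap.comp_apply, hT _ _ (hF _ p.2).2, map_smul] at e
    exact e
  · refine Ideal.span_le.2 ?_
    rintro g ⟨p, hp⟩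
    have e : g = p.1.1 := Subtype.ext hp
    rw [e]
    exact hpos _ (hF _ p.2).1 _ (hF _ p.2).2

end Pool.Agent.MP_51db15_ag.Qh
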