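import Pool.Agent.MP_51db15_ag.Qh.Spec

/-! PROJECT QH, row KC: the homogeneous components of a form that extends also extend. -/

namespace Pool.Agent.MP_51db15_ag.Qh

namespace KCx

variable {K : Type} [Field K] [Algebra ℂ K]

theorem add {ω η : FF K} {V : ValuationSubring K} (h : KaehlerAt ω V) (h' : KaehlerAt η V) :
    KaehlerAt (ω + η) V := by
  obtain ⟨n, c, y, z, hm, he⟩ := h
  obtain ⟨n', c', y', z', hm', he'⟩ := h'
  refine ⟨n + n', Fin.append c c', Fin.append y y', Fin.append z z', fun s => ?_, fun X Y => ?_⟩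
  · refine Fin.addCases (fun i => ?_) (fun i => ?_) s
    · simpa only [Fin.append_left] using hm i
    · simpa only [Fin.append_right] using hm' i
  · rw [Fin.sum_univ_add]
    simp only [Fin.append_left, Fin.append_right, LinearMap.add_apply, he, he']

theorem smul {ω : FF K} {V : ValuationSubring K} {c : ℂ} (hc : algebraMap ℂ K c ∈ V)
    (h : KaehlerAt ω V) : KaehlerAt (c • ω) V := by
  obtain ⟨n, a, y, z, hm, he⟩ := h
  refine ⟨n, fun s => algebraMap ℂ K c * a s, y, z,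
    fun s => ⟨V.mul_mem _ _ hc (hm s).1, (hm s).2⟩, fun X Y => ?_⟩
  rw [LinearMap.smul_apply, LinearMap.smul_apply, he, Algebra.smul_def, Finset.mul_sum]
  simp only [mul_assoc]

/-- the forms that extend -/
def KS (S : Subalgebra ℂ K) : Submodule ℂ (FF K) where
  carrier := {ω | Kae S ω}
  add_mem' h h' V hV := add (h V hV) (h' V hV)
  zero_mem' _ _ := ⟨0, Fin.elim0, Fin.elim0, Fin.elim0, fun s => s.elim0, fun _ _ => by simp⟩
  smul_mem' c _ h V hV := smul (hV _ (S.algebraMap_mem c)) (h V hV)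

theorem cj (σ : K ≃ₐ[ℂ] K) (X' : DD K) : ∃ X : DD K, ∀ y, X' (σ y) = σ (X y) := by
  refine ⟨Derivation.mk' (σ.symm.toLinearMap ∘ₗ X'.toLinearMap ∘ₗ σ.toLinearMap) fun a b => ?_,
    fun y => ?_⟩
  · simp
  · simp

theorem tw {S : Subalgebra ℂ K} (σ : K ≃ₐ[ℂ] K) (hσ : ∀ g ∈ S, σ g ∈ S) {ω ω' : FF K}
    (h : ∀ X Y X' Y' : DD K, (∀ y, X' (σ y) = σ (X y)) → (∀ y, Y' (σ y) = σ (Y y)) →
      σ (ω X Y) = ω' X' Y') (hω : Kae S ω) : Kae S ω' := by
  intro V hV
  obtain ⟨n, c, y, z, hm, he⟩ := hω (V.comap (σ : K →+* K)) fun g hg => hV _ (hσ g hg)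
  refine ⟨n, fun s => σ (c s), fun s => σ (y s), fun s => σ (z s), hm, fun X' Y' => ?_⟩
  obtain ⟨X, hX⟩ := cj σ X'
  obtain ⟨Y, hY⟩ := cj σ Y'
  rw [← h X Y X' Y' hX hY, he]
  simp only [map_sum, map_mul, map_sub, hX, hY]

theorem two_ne {m n : ℤ} (h : n ≠ m) : (2 : ℂ) ^ n - 2 ^ m ≠ 0 := by
  intro e
  have e' := congrArg norm (sub_eq_zero.1 e)
  simp only [norm_zpow, Complex.norm_ofNat] at e'
  exact h (zpow_right_injective₀ (by norm_num) (by norm_num) e')

theorem van {U : Type} [AddCommGroup U] [Module ℂ U] (H : Submodule ℂ U) (G : ℤ → U → Prop)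
    (hG : ∀ n (c : ℂ) u, G n u → G n (c • u))
    (hs : ∀ (F : Finset ℤ) (η : ℤ → U), (∀ n ∈ F, G n (η n)) → ∑ n ∈ F, η n ∈ H →
      ∑ n ∈ F, (2 : ℂ) ^ n • η n ∈ H) (F : Finset ℤ) :
    ∀ η : ℤ → U, (∀ n ∈ F, G n (η n)) → ∑ n ∈ F, η n ∈ H → ∀ n ∈ F, η n ∈ H := by
  induction F using Finset.induction_on with
  | empty => exact fun _ _ _ n hn => absurd hn (Finset.notMem_empty n)
  | insert m F hm ih =>
    intro η hη h
    have h1 := sub_mem (hs _ η hη h) (H.smul_mem ((2 : ℂ) ^ m) h)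
    rw [Finset.smul_sum, ← Finset.sum_sub_distrib, Finset.sum_insert hm, sub_self, zero_add] at h1
    simp only [← sub_smul] at h1
    have h2 : ∀ n ∈ F, η n ∈ H := fun n hn =>
      (H.smul_mem_iff (two_ne (ne_of_mem_of_not_mem hn hm))).1
        (ih (fun k => ((2 : ℂ) ^ k - 2 ^ m) • η k)
          (fun k hk => hG _ _ _ (hη k (Finset.mem_insert_of_mem hk))) h1 n hn)
    intro n hn
    rcases Finset.mem_insert.1 hn with rfl | hn
    · rw [Finset.sum_insert hm] at h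
      exact (H.add_mem_iff_left (H.sum_mem h2)).1 h
    · exact h2 n hn

end KCx

theorem kc (s : S_SIG) : S_KC := by
  intro K ι _ _ _ S t x a h1 h2 h3 F
  obtain ⟨σ, hσ, hη⟩ := s K ι S t x a h1 h2 h3 2 two_ne_zero
  refine KCx.van (KCx.KS S) (fun n η => η ∈ RF S ∧ lf t η = (n : ℂ) • η)
    (fun n c u h => ⟨(RF S).smul_mem c h.1, by rw [map_smul, h.2, smul_comm]⟩)
    (fun F η hF => KCx.tw σ hσ fun X Y X' Y' hX hY => ?_) F
  simp only [LinearMap.sum_apply, LinearMap.smul_apply, map_sum]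
  exact Finset.sum_congr rfl fun n hn => hη _ (hF n hn).1 n (hF n hn).2 X Y X' Y' hX hY

end Pool.Agent.MP_51db15_ag.Qh
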