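import Pool.Agent.MP_51db15_ag.Qh.Spec

/-! Row LT: the form vanishes on a field that vanishes. -/

namespace Pool.Agent.MP_51db15_ag.Qh

namespace LTx

theorem mul_non {L : Type} [Field L] (V : ValuationSubring L) {a b : L} (ha : a ∈ V)
    (hb : b ∈ V.nonunits) : a * b ∈ V.nonunits := by
  rw [ValuationSubring.mem_nonunits_iff] at hb ⊢
  rw [map_mul]
  have h1 := (V.valuation_le_one_iff a).2 ha
  calc V.valuation a * V.valuation b ≤ 1 * V.valuation b := mul_le_mul_left h1 _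
    _ < 1 := by rwa [one_mul]

theorem swap {L : Type} [Field L] {n m : ℕ} (r : Fin n → L) (c dy dz : Fin m → L)
    (uy uz : Fin n → Fin m → L) :
    ∑ i, r i * ∑ s, c s * (uy i s * dz s - uz i s * dy s) =
      ∑ s, c s * ((∑ i, r i * uy i s) * dz s - (∑ i, r i * uz i s) * dy s) := by
  simp only [Finset.mul_sum, Finset.sum_mul, ← Finset.sum_sub_distrib]
  rw [Finset.sum_comm]
  refine Finset.sum_congr rfl fun s _ => Finset.sum_congr rfl fun i _ => ?_
  ring

end LTx

theorem lt (v : S_LTV) : S_LT := by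
  intro K ι _ _ _ S x ω hB hω hK P hP Y hY hYP D hD
  obtain ⟨L, _, j, ψ, V, Y', D', n, u, ρ, h1, h2, h3, h4, h5, h6, h7, h8, h9⟩ :=
    v K ι S x hB P hP Y hY hYP D hD
  have hS : ∀ g ∈ S, g ∈ V.comap j := fun g hg => by
    have := h2 (PowerSeries.C (⟨g, hg⟩ : S))
    rw [h1] at this
    exact this
  obtain ⟨m, c, y, z, hm, hf⟩ := hK (V.comap j) hS
  let w : Fin n → S := fun i => ⟨ω (u i) D, hω _ (h6 i) _ hD⟩
  have e : ψ (∑ i, ρ i * PowerSeries.C (w i)) =
      ∑ s, j (c s) * (Y' (j (y s)) * D' (j (z s)) - Y' (j (z s)) * D' (j (y s))) := by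
    simp only [map_sum, map_mul, h1, h8, h9]
    rw [← LTx.swap]
    refine Finset.sum_congr rfl fun i _ => ?_
    congr 1
    show j (ω (u i) D) = _
    rw [hf]
    simp only [map_sum, map_mul, map_sub]
  have hn : ψ (∑ i, ρ i * PowerSeries.C (w i)) ∈ V.nonunits := by
    rw [e]
    refine sum_mem fun s _ => LTx.mul_non V (hm s).1 (sub_mem ?_ ?_)
    · rw [mul_comm]
      exact LTx.mul_non V (h5 _ (hm s).2.2) (h4 _ (hm s).2.1)
    · rw [mul_comm]
      exact LTx.mul_non V (h5 _ (hm s).2.1) (h4 _ (hm s).2.2)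
  refine ⟨_, h3 _ hn, ?_⟩
  conv_lhs => rw [h7]
  simp only [map_sum, map_mul, PowerSeries.constantCoeff_C, LinearMap.sum_apply, map_smul,
    LinearMap.smul_apply, smul_eq_mul]
  push_cast
  rfl

end Pool.Agent.MP_51db15_ag.Qh
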