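import Pool.Agent.MP_51db15_ag.Qh.Spec

/-! The flow of one field along another as a power series. -/

namespace Pool.Agent.MP_51db15_ag.Qh

open Module Finset

noncomputable section

namespace LTAx

section Ring

variable {R : Type} [CommRing R] [Algebra ℂ R]

/-- a derivation acting on the coefficients of power series -/
def cw (E : Derivation ℂ R R) : Derivation ℂ (PowerSeries R) (PowerSeries R) :=
  Derivation.mk'
    { toFun := fun G => PowerSeries.mk fun n => E (PowerSeries.coeff n G)
      map_add' := fun G H => by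
        ext n
        simp only [PowerSeries.coeff_mk, map_add]
      map_smul' := fun c G => by
        ext n
        simp only [PowerSeries.coeff_mk, PowerSeries.coeff_smul, Derivation.map_smul,
          RingHom.id_apply] }
    (fun G H => by
      ext n
      simp only [LinearMap.coe_mk, AddHom.coe_mk, PowerSeries.coeff_mk, smul_eq_mul, map_add]
      rw [mul_comm H, PowerSeries.coeff_mul, PowerSeries.coeff_mul, PowerSeries.coeff_mul, map_sum,
        ← Finset.sum_add_distrib]
      refine Finset.sum_congr rfl fun p _ => ?_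
      simp only [PowerSeries.coeff_mk, Derivation.leibniz, smul_eq_mul]
      ring)

theorem coeff_cw (E : Derivation ℂ R R) (G : PowerSeries R) (n : ℕ) :
    PowerSeries.coeff n (cw E G) = E (PowerSeries.coeff n G) :=
  PowerSeries.coeff_mk n fun n => E (PowerSeries.coeff n G)

theorem cw_C (E : Derivation ℂ R R) (g : R) : cw E (PowerSeries.C g) = PowerSeries.C (E g) := by
  ext n
  rw [coeff_cw, PowerSeries.coeff_C, PowerSeries.coeff_C]
  split_ifs
  · rfl
  · exact map_zero E

/-- the derivative in the formal variable -/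
def ds : Derivation ℂ (PowerSeries R) (PowerSeries R) :=
  Derivation.mk'
    { toFun := fun G => PowerSeries.derivative R G
      map_add' := fun G H => map_add _ G H
      map_smul' := fun c G => by
        ext n
        simp only [PowerSeries.coeff_derivative, PowerSeries.coeff_smul, RingHom.id_apply,
          smul_mul_assoc] }
    (fun G H => (PowerSeries.derivative R).leibniz G H)

theorem coeff_ds (G : PowerSeries R) (n : ℕ) :
    PowerSeries.coeff n (ds G) = PowerSeries.coeff (n + 1) G * (n + 1) :=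
  PowerSeries.coeff_derivative G n

theorem ds_C (g : R) : ds (PowerSeries.C g) = 0 := PowerSeries.derivative_C

theorem sum_app {κ : Type} (s : Finset κ) (E : κ → Derivation ℂ R R) (g : R) :
    (∑ i ∈ s, E i) g = ∑ i ∈ s, E i g := by
  classical
  induction s using Finset.induction_on with
  | empty => rfl
  | insert j s hj ih => rw [Finset.sum_insert hj, Finset.sum_insert hj, Derivation.add_apply, ih]

end Ring

variable {K : Type} [Field K] [Algebra ℂ K] {S : Subalgebra ℂ K}

/-- the restriction of a regular field -/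
def res (X : DD K) (hX : X ∈ TT S) : Derivation ℂ S S :=
  Derivation.mk'
    { toFun := fun g => ⟨X g, hX g g.2⟩
      map_add' := fun g h => Subtype.ext (map_add X (g : K) h)
      map_smul' := fun c g => Subtype.ext (X.map_smul c (g : K)) }
    (fun g h => Subtype.ext (X.leibniz (g : K) h))

theorem res_coe (X : DD K) (hX : X ∈ TT S) (g : S) : (res X hX g : K) = X g := rfl

/-- the coefficients of the flow -/
def fl (D Y : DD K) : ℕ → DD K
  | 0 => Y
  | k + 1 => (-((k : ℂ) + 1)⁻¹) • ⁅D, fl D Y k⁆

theorem fl_mem {D Y : DD K} (hD : D ∈ TT S) (hY : Y ∈ TT S) : ∀ k, fl D Y k ∈ TT S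
  | 0 => hY
  | k + 1 => fun g hg => S.smul_mem (lie_mem hD (fl_mem hD hY k) g hg) _

theorem fl_succ (D Y : DD K) (k : ℕ) (g : K) :
    ((k : K) + 1) * fl D Y (k + 1) g = fl D Y k (D g) - D (fl D Y k g) := by
  have h0 : ((k : ℂ) + 1) ≠ 0 := Nat.cast_add_one_ne_zero k
  have h1 : ((k : K) + 1) = algebraMap ℂ K ((k : ℂ) + 1) := by simp
  have h2 : fl D Y (k + 1) g = (-((k : ℂ) + 1)⁻¹) • (D (fl D Y k g) - fl D Y k (D g)) := rfl
  rw [h1, h2, ← Algebra.smul_def, smul_smul, mul_neg, mul_inv_cancel₀ h0, neg_smul, one_smul,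
    neg_sub]

theorem der_nat (X : DD K) (g : K) (k : ℕ) : X (g * ((k : K) + 1)) = ((k : K) + 1) * X g := by
  have h1 : ((k : K) + 1) = algebraMap ℂ K ((k : ℂ) + 1) := by simp
  rw [mul_comm, h1, ← Algebra.smul_def, ← Algebra.smul_def, Derivation.map_smul]

theorem key (D Y : DD K) (g : ℕ → K) (n : ℕ) :
    (∑ p ∈ antidiagonal (n + 1), fl D Y p.1 (g p.2)) * ((n : K) + 1) +
        D (∑ p ∈ antidiagonal n, fl D Y p.1 (g p.2)) =
      ∑ p ∈ antidiagonal n, fl D Y p.1 (g (p.2 + 1) * ((p.2 : K) + 1) + D (g p.2)) := by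
  have h1 : (∑ p ∈ antidiagonal (n + 1), fl D Y p.1 (g p.2)) * ((n : K) + 1) =
      ∑ p ∈ antidiagonal (n + 1), (p.1 : K) * fl D Y p.1 (g p.2) +
        ∑ p ∈ antidiagonal (n + 1), (p.2 : K) * fl D Y p.1 (g p.2) := by
    rw [Finset.sum_mul, ← Finset.sum_add_distrib]
    refine Finset.sum_congr rfl fun p hp => ?_
    have h : (p.1 : K) + p.2 = n + 1 := by
      rw [← Nat.cast_add, Finset.HasAntidiagonal.mem_antidiagonal.1 hp, Nat.cast_add, Nat.cast_one]
    rw [← h]
    ring
  rw [h1, Finset.Nat.sum_antidiagonal_succ, Finset.Nat.sum_antidiagonal_succ', map_sum]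
  simp only [Nat.cast_zero, zero_mul, zero_add, Nat.cast_add, Nat.cast_one]
  rw [← Finset.sum_add_distrib, ← Finset.sum_add_distrib]
  refine Finset.sum_congr rfl fun p _ => ?_
  rw [fl_succ, map_add, der_nat]
  ring

end LTAx

open LTAx in
theorem lta : S_LTA := by
  intro K ι _ _ _ S x hB Y hY D hD
  obtain ⟨n, u, hu⟩ := Submodule.fg_iff_exists_fin_generating_family.1 hB.fgT
  have hum : ∀ i, u i ∈ TT S := fun i => hu ▸ Submodule.subset_span ⟨i, rfl⟩
  have hr : ∀ k, ∃ c : Fin n → S, ∑ i, c i • u i = fl D Y k := fun k =>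
    (Submodule.mem_span_range_iff_exists_fun S).1 (hu ▸ fl_mem hD hY k)
  choose r hr using hr
  have hr' : ∀ k (g : K), fl D Y k g = ∑ i, (r k i : K) * u i g := by
    intro k g
    rw [← hr k, sum_app]
    rfl
  have hY₁ : ∀ G : PowerSeries S,
      (∑ i, (PowerSeries.mk fun k => r k i) • cw (res (u i) (hum i))) G =
        ∑ i, (PowerSeries.mk fun k => r k i) * cw (res (u i) (hum i)) G := by
    intro G
    rw [sum_app]
    rfl
  have hc : ∀ (G : PowerSeries S) (m : ℕ), ((PowerSeries.coeff m
      ((∑ i, (PowerSeries.mk fun k => r k i) • cw (res (u i) (hum i))) G) : S) : K) =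
        ∑ p ∈ antidiagonal m, fl D Y p.1 ((PowerSeries.coeff p.2 G : S) : K) := by
    intro G m
    rw [hY₁, map_sum]
    simp only [PowerSeries.coeff_mul, PowerSeries.coeff_mk, coeff_cw,
      AddSubmonoidClass.coe_finsetSum, MulMemClass.coe_mul, res_coe, hr']
    exact Finset.sum_comm
  have hd : ∀ (G : PowerSeries S) (m : ℕ), ((PowerSeries.coeff m
      ((ds + cw (res D hD) : Derivation ℂ (PowerSeries S) (PowerSeries S)) G) : S) : K) =
        ((PowerSeries.coeff (m + 1) G : S) : K) * ((m : K) + 1) +
          D ((PowerSeries.coeff m G : S) : K) := by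
    intro G m
    rw [Derivation.add_apply, map_add, coeff_ds, coeff_cw]
    push_cast
    rfl
  refine ⟨ds + cw (res D hD), ∑ i, (PowerSeries.mk fun k => r k i) • cw (res (u i) (hum i)), n, u,
    fun i => PowerSeries.mk fun k => r k i, fun G => ?_, hum, ?_, fun G => ?_, fun g g' h => ?_,
    fun g g' h => ?_⟩
  · ext m
    rw [hd, hc, hc, hc]
    simp only [hd]
    exact LTAx.key D Y (fun k => ((PowerSeries.coeff k G : S) : K)) m
  · refine (hr 0).symm.trans (Finset.sum_congr rfl fun i _ => ?_)
    rw [← PowerSeries.coeff_zero_eq_constantCoeff_apply, PowerSeries.coeff_mk]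
    rfl
  · rw [← PowerSeries.coeff_zero_eq_constantCoeff_apply, hc,
      ← PowerSeries.coeff_zero_eq_constantCoeff_apply, Finset.Nat.antidiagonal_zero,
      Finset.sum_singleton]
    rfl
  · rw [Derivation.add_apply, ds_C, cw_C, zero_add]
    exact congrArg _ (Subtype.ext h.symm)
  · rw [hY₁]
    refine Finset.sum_congr rfl fun i _ => ?_
    rw [cw_C]
    exact congrArg (fun z : S => _ * PowerSeries.C z) (Subtype.ext (h i).symm)

end

end Pool.Agent.MP_51db15_ag.Qh
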