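import Pool.Agent.MP_51db15_ag.Qh.Spec

/-! Row LTV of project QH: the valuation ring over the power series ring, seen from the field. -/

namespace Pool.Agent.MP_51db15_ag.Qh

namespace LTVx

theorem ext_frac {K L : Type} [Field K] [Algebra ℂ K] [Field L] [Algebra ℂ L]
    (S : Subalgebra ℂ K) (hS : ∀ y : K, ∃ g ∈ S, ∃ h ∈ S, h ≠ 0 ∧ y = g / h) (j : K →+* L)
    (Z : Derivation ℂ L L) (F : K → L) (hF : ∀ a b, F (a * b) = j a * F b + j b * F a)
    (h : ∀ g ∈ S, Z (j g) = F g) (y : K) : Z (j y) = F y := by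
  obtain ⟨g, hg, k, hk, k0, e⟩ := hS y
  have e2 : g = y * k := by rw [e]; field_simp
  have h1 := h g hg
  rw [e2, map_mul, Derivation.leibniz, hF, h k hk, smul_eq_mul, smul_eq_mul] at h1
  exact mul_left_cancel₀ ((map_ne_zero j).2 k0) (add_left_cancel h1)

end LTVx

theorem ltv (a : S_LTA) (b : S_LTB) : S_LTV := by
  intro K ι _ _ _ S x hB P hP Y hY hYP D hD
  obtain ⟨D₁, Y₁, n, u, ρ, hc, hu, hsum, hcc, hD1, hY1⟩ := a K ι S x hB Y hY D hD
  have := hB.noeth
  have := hP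
  have hQ : ∀ G, Y₁ G ∈ P.comap (PowerSeries.constantCoeff (R := S)) := fun G => by
    obtain ⟨c, hc, e⟩ := hYP _ (PowerSeries.constantCoeff G : S).2
    rw [Ideal.mem_comap, show PowerSeries.constantCoeff (Y₁ G) = c from
      Subtype.ext ((hcc G).trans e)]
    exact hc
  obtain ⟨L, iL, iA, ψ, V, Y', D', hinj, hV, hnu, hY', hD', hDψ, hYψ⟩ :=
    b (PowerSeries S) D₁ Y₁ (P.comap (PowerSeries.constantCoeff (R := S))) inferInstance hc hQ
  have : IsFractionRing S K := IsFractionRing.of_field S K fun z => by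
    obtain ⟨g, hg, k, hk, -, e⟩ := hB.frac z
    exact ⟨⟨g, hg⟩, ⟨k, hk⟩, e⟩
  have hi : Function.Injective (ψ.comp (PowerSeries.C (R := S))) :=
    hinj.comp PowerSeries.C_injective
  have hj : ∀ g : S, ψ (PowerSeries.C g) = IsFractionRing.lift (K := K) hi (g : K) := fun g =>
    (IsFractionRing.lift_algebraMap (K := K) hi g).symm
  generalize IsFractionRing.lift (K := K) hi = j at hj
  refine ⟨L, iL, j, ψ, V, Y', D', n, u, ρ, hj, hV, hnu, hY', hD', hu, hsum, ?_, ?_⟩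
  · refine LTVx.ext_frac S hB.frac j D' (fun y => j (D y)) (fun p q => ?_) fun g hg => ?_
    · simp only [Derivation.leibniz, smul_eq_mul, map_add, map_mul]
    · rw [← hj ⟨g, hg⟩, hDψ, hD1 ⟨g, hg⟩ ⟨D g, hD g hg⟩ rfl, hj]
  · refine LTVx.ext_frac S hB.frac j Y' (fun y => ∑ i, ψ (ρ i) * j (u i y)) (fun p q => ?_)
      fun g hg => ?_
    · simp only [Derivation.leibniz, smul_eq_mul, map_add, map_mul, Finset.mul_sum,
        ← Finset.sum_add_distrib]
      exact Finset.sum_congr rfl fun i _ => by ring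
    · rw [← hj ⟨g, hg⟩, hYψ, hY1 ⟨g, hg⟩ (fun i => ⟨u i g, hu i g hg⟩) fun _ => rfl, map_sum]
      exact Finset.sum_congr rfl fun i _ => by rw [map_mul, hj]

end Pool.Agent.MP_51db15_ag.Qh
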