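import Pool.Agent.MP_51db15_ag.Qh.Spec

/-! Assembly of the rows. -/

namespace Pool.Agent.MP_51db15_ag.Qh

theorem ltp_of {K ι : Type} [Field K] [Algebra ℂ K] {S : Subalgebra ℂ K} {x : ι → K} {ω : FF K}
    {s : K} {π : DU K →ₗ[K] DD K} (ha : ω.IsAlt) (hs : s ∈ S) (h1 : In (vx S x) (s - 1))
    (hm : vx S x ≠ ⊤) (hI : Inv S ω s π)
    (lt : ∀ P : Ideal S, P.IsPrime → ∀ Y ∈ TT S, (∀ g ∈ S, In P (Y g)) → ∀ D ∈ TT S,
      In P (ω Y D)) : LTP S x := by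
  intro P hP hle Y hY hv γ hγ
  obtain ⟨b, hb, e⟩ := lt P hP Y hY hv _ (hI.mem γ hγ)
  have e1 : s * γ Y = -(b : K) := by
    rw [← e, ← ha.neg_eq, neg_neg, hI.right]
    rfl
  have h2 : (⟨s, hs⟩ : S) * ⟨γ Y, hγ Y hY⟩ ∈ P := by
    convert neg_mem hb using 1
    exact Subtype.ext e1
  rcases hP.mem_or_mem h2 with h3 | h3
  · obtain ⟨c, hc, e2⟩ := h1
    refine (hm ((Ideal.eq_top_iff_one _).2 ?_)).elim
    convert sub_mem (hle h3) hc using 1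
    refine Subtype.ext ?_
    simp [← e2]
  · exact ⟨_, h3, rfl⟩

theorem main (ini : S_INIT) (b : S_BAS) (ev : S_EV) (vt : S_VTX) (ef : S_EVF) (rg : S_REG)
    (nr : S_NEAR) (pi : S_PI) (lt : S_LT) (ic : S_IDC) (st : S_ST) (cn : S_CON) (al : S_ALG)
    (pf : S_PERF) (sl : S_SLP) (en : S_END)
    (K : Type) [Field K] [Algebra ℂ K] (S : Subalgebra ℂ K) [Algebra.FiniteType ℂ S]
    [IsFractionRing S K] [IsIntegrallyClosed S] (𝒢 : ℕ → Submodule ℂ S)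
    (hg : SetLike.GradedMonoid 𝒢) (hi : DirectSum.IsInternal 𝒢)
    (h0 : ∀ f ∈ 𝒢 0, ∃ c : ℂ, f = algebraMap ℂ S c) (m : Ideal S) (hm : m ≠ ⊤)
    (hp : ∀ d, 0 < d → ∀ f ∈ 𝒢 d, f ∈ m) (ω : FF K) (hc : IsClosedForm ω)
    (hn : NondegOn ω (stalk S m)) (hk : Kae S ω) :
    ∃ (ω' : FF K) (𝒢' : ℕ → Submodule ℂ S),
      IsConicalSymplectic S ω' 𝒢' ∧ ∀ d, 0 < d → ∀ f ∈ 𝒢' d, f ∈ m := by
  obtain ⟨hN, ι, _, x, a, E, cx, pos, hle⟩ := ini K S 𝒢 hg hi m hp h0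
  have hb := b K ι S E x a cx
  have he := ev K ι S E x a cx hb
  have hv := vt K ι S E x a cx pos hb he
  have hC : Cone S E x a := ⟨cx, pos, hb, he, hv, ef K ι S E x a cx hb he hv⟩
  obtain rfl : vx S x = m := hv.max.eq_of_le hm hle
  have hr := (rg K ι S x ω hb hN hk).1
  obtain ⟨s, hs, h1, hH⟩ := nr K ι S E x a ω hC hn
  have s0 : s ≠ 0 := by
    rintro rfl
    obtain ⟨c, hc, e⟩ := h1
    refine hm ((Ideal.eq_top_iff_one _).2 ?_)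
    convert neg_mem hc using 1
    refine Subtype.ext ?_
    simp [← e]
  obtain ⟨π, hI⟩ := pi K ι S x ω s hb hc.1 s0 hH
  have hL := ltp_of hc.1 hs h1 hm hI (lt K ι S x ω hb hr hk)
  obtain ⟨κ, _, _, e, hd⟩ := ic K ι S E x a hC
  obtain ⟨σ, hσ⟩ := st K ι S x hb
  have hA := cn K ι κ S E x a e σ hC hL hN hd hσ
  obtain ⟨y, hy⟩ := al _ _ _ _ _ _ _ _ _ hA
  have hAll : All S E x a e y ω := ⟨hC, hN, hL, hd, hy, hr, hc, hk,
    fun ω' h' => pf K ι κ S E x a e σ ω ω' s π hC hA hs h1 hI h'⟩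
  exact en K ι κ S E x a e y ω hAll (sl K ι κ S E x a e y ω hAll)

end Pool.Agent.MP_51db15_ag.Qh
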