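import Pool.Agent.MP_51db15_ag.Qh.Spec

/-! Row NEAR: Hamiltonian fields near the vertex, denominators cleared. -/

namespace Pool.Agent.MP_51db15_ag.Qh

theorem near : S_NEAR := by
  intro K ι _ _ _ S E x a ω hC h
  classical
  have hP : (vx S x).IsPrime := hC.vtx.max.isPrime
  have h1 : (1 : S) ∉ vx S x := fun h1 => hP.ne_top ((Ideal.eq_top_iff_one _).2 h1)
  have hx : ∀ i, x i ∈ stalk S (vx S x) := fun i =>
    ⟨⟨x i, hC.bas.mem i⟩, 1, h1, by simp⟩
  choose X hX hω using fun i => h (x i) (hx i)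
  choose g t ht hg using fun i j => hX i (x j) (hx j)
  have hs0 : (∏ p : ι × ι, t p.1 p.2) ∉ vx S x := fun hm => by
    obtain ⟨p, -, hp⟩ := Ideal.IsPrime.prod_mem_iff.1 hm
    exact ht _ _ hp
  have hdvd : ∀ i j, t i j ∣ ∏ p : ι × ι, t p.1 p.2 := fun i j =>
    Finset.dvd_prod_of_mem (fun p : ι × ι => t p.1 p.2) (Finset.mem_univ (i, j))
  generalize (∏ p : ι × ι, t p.1 p.2) = s0 at hs0 hdvd
  obtain ⟨c, b, hb, hc⟩ := hC.vtx.cst s0 s0.2
  have hc0 : c ≠ 0 := by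
    rintro rfl
    rw [map_zero, sub_zero] at hc
    exact hs0 (by rw [Subtype.ext hc]; exact hb)
  have hinv : algebraMap ℂ K c⁻¹ * algebraMap ℂ K c = 1 := by
    rw [← map_mul, inv_mul_cancel₀ hc0, map_one]
  refine ⟨algebraMap ℂ K c⁻¹ * s0, mul_mem (S.algebraMap_mem _) s0.2,
    ⟨⟨_, S.algebraMap_mem c⁻¹⟩ * b, Ideal.mul_mem_left _ _ hb, ?_⟩, fun i =>
    ⟨(algebraMap ℂ K c⁻¹ * s0) • X i, hC.bas.tt _ fun j => ?_, fun D => ?_⟩⟩
  · change _ = algebraMap ℂ K c⁻¹ * (b : K)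
    rw [← hc, mul_sub, hinv]
  · obtain ⟨u, hu⟩ := hdvd i j
    have ht0 : ((t i j : S) : K) ≠ 0 := fun h0 =>
      ht i j (by rw [show t i j = 0 from Subtype.ext h0]; exact zero_mem _)
    have e : ((algebraMap ℂ K c⁻¹ * s0) • X i) (x j) = algebraMap ℂ K c⁻¹ * (u * g i j) := by
      rw [Derivation.smul_apply, hg, smul_eq_mul, hu]
      change algebraMap ℂ K c⁻¹ * (((t i j : S) : K) * u) * (((g i j : S) : K) / t i j) = _
      field_simp
    rw [e]
    exact mul_mem (S.algebraMap_mem _) (mul_mem u.2 (g i j).2)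
  · rw [map_smul, LinearMap.smul_apply, smul_eq_mul, hω]

end Pool.Agent.MP_51db15_ag.Qh
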