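import Pool.Agent.MP_51db15_ag.Qh.Spec

/-! PROJECT QH, row HAM: homogeneous Hamiltonian fields. -/

namespace Pool.Agent.MP_51db15_ag.Qh

open Module

namespace HAMx

theorem zero_of (g : GenK) {U : Type} [AddCommGroup U] [Module ℂ U] (δ : End ℂ U) (c : ℂ) (u : U)
    (h : δ u = c • u) (h' : u ∈ ⨆ (c' : ℂ) (_ : c' ≠ c), δ.eigenspace c') : u = 0 :=
  g.cmp U δ ⊥ c u (-u) (fun v hv => by rw [(Submodule.mem_bot ℂ).1 hv, map_zero]; rfl) h
    (neg_mem h') (by simp)

theorem mem_ne {U : Type} [AddCommGroup U] [Module ℂ U] (δ : End ℂ U) {c c' : ℂ} {u : U}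
    (h : δ u = c' • u) (hc : c' ≠ c) : u ∈ ⨆ (c' : ℂ) (_ : c' ≠ c), δ.eigenspace c' :=
  Submodule.mem_iSup_of_mem c' (Submodule.mem_iSup_of_mem hc (End.mem_eigenspace_iff.2 h))

variable {K ι : Type} [Field K] [Algebra ℂ K]

theorem eig_mul (t : DD K) {u v : K} {c d : ℂ} (hu : t u = c • u) (hv : t v = d • v) :
    t (u * v) = (c + d) • (u * v) := by
  rw [Derivation.leibniz, hu, hv]
  simp only [smul_eq_mul, Algebra.smul_def, map_add]
  ring

theorem eig_pow (t : DD K) {u : K} {c : ℂ} (hu : t u = c • u) (k : ℕ) :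
    t (u ^ k) = ((k : ℂ) * c) • u ^ k := by
  induction k with
  | zero => simp
  | succ k ih =>
    rw [pow_succ, eig_mul t ih hu]
    congr 1
    push_cast
    ring

theorem eig_mon (t : DD K) (x : ι → K) (a : ι → ℕ) (h : ∀ i, t (x i) = (a i : ℂ) • x i)
    (α : ι →₀ ℕ) : ∀ c : ℂ, t (MvPolynomial.aeval x (MvPolynomial.monomial α c)) =
      ((Finsupp.weight (fun i => (a i : ℚ)) α : ℚ) : ℂ) •
        MvPolynomial.aeval x (MvPolynomial.monomial α c) := by
  induction α using Finsupp.induction_linear with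
  | zero => intro c; simp
  | add α β h1 h2 =>
    intro c
    rw [← mul_one c, ← MvPolynomial.monomial_mul, map_mul, eig_mul t (h1 c) (h2 1), map_add]
    congr 1
    push_cast
    rfl
  | single i k =>
    intro c
    have h0 : t (algebraMap ℂ K c) = (0 : ℂ) • algebraMap ℂ K c := by simp
    rw [← MvPolynomial.C_mul_X_pow_eq_monomial, map_mul, map_pow, MvPolynomial.aeval_C,
      MvPolynomial.aeval_X, eig_mul t h0 (eig_pow t (h i) k), Finsupp.weight_single]
    congr 1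
    simp

theorem comp (t : DD K) (x : ι → K) (a : ι → ℕ) (h : ∀ i, t (x i) = (a i : ℂ) • x i) (e : ℚ)
    (p : MvPolynomial ι ℂ) : ∃ θ : MvPolynomial ι ℂ,
      (∀ α, θ.coeff α ≠ 0 → Finsupp.weight (fun i => (a i : ℚ)) α = e) ∧
      t (MvPolynomial.aeval x θ) = (e : ℂ) • MvPolynomial.aeval x θ ∧
      MvPolynomial.aeval x p - MvPolynomial.aeval x θ ∈
        ⨆ (c' : ℂ) (_ : c' ≠ (e : ℂ)), (op t).eigenspace c' := by
  classical
  induction p using MvPolynomial.induction_on' with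
  | monomial α c =>
    by_cases hα : Finsupp.weight (fun i => (a i : ℚ)) α = e
    · refine ⟨MvPolynomial.monomial α c, fun β hβ => ?_, hα ▸ eig_mon t x a h α c, by simp⟩
      rw [MvPolynomial.coeff_monomial] at hβ
      by_cases e1 : α = β
      · exact e1 ▸ hα
      · exact absurd (if_neg e1) hβ
    · refine ⟨0, fun β hβ => absurd rfl hβ, by simp, ?_⟩
      rw [map_zero, sub_zero]
      exact mem_ne (op t) (eig_mon t x a h α c) fun e1 => hα (by exact_mod_cast e1)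
  | add p q hp hq =>
    obtain ⟨θ, p1, p2, p3⟩ := hp
    obtain ⟨θ', q1, q2, q3⟩ := hq
    refine ⟨θ + θ', fun β hβ => ?_, by rw [map_add, map_add, p2, q2, smul_add], ?_⟩
    · by_cases e1 : θ.coeff β = 0
      · exact q1 β fun e2 => hβ (by rw [MvPolynomial.coeff_add, e1, e2, add_zero])
      · exact p1 β e1
    · rw [map_add, map_add, add_sub_add_comm]
      exact add_mem p3 q3

theorem ld_dd (t : DD K) {y : K} {c : ℂ} (h : t y = c • y) : ld t (dd y) = c • dd y := by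
  ext D
  simp [Derivation.commutator_apply, h]

theorem ld_om (t : DD K) (ω : FF K) (w : ℂ) (h : lf t ω = w • ω) (D : DD K) :
    ld t (ω D) = w • ω D + ω ⁅t, D⁆ := by
  have h1 : ld t (ω D) - ω ⁅t, D⁆ = w • ω D := congrArg (fun η : FF K => η D) h
  rw [← h1, sub_add_cancel]

theorem ld_om' (t : DD K) (ω : FF K) (w c : ℂ) (h : lf t ω = w • ω) {D : DD K}
    (hD : ⁅t, D⁆ = c • D) : ld t (ω D) = (w + c) • ω D := by
  rw [ld_om t ω w h, hD, lin_c, add_smul]

theorem rest [Fintype ι] {S : Subalgebra ℂ K} {t : DD K} {x : ι → K} {a : ι → ℕ}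
    (hC : Cone S t x a) (i : ι) (b : S) (hb : b ∈ vx S x) : ∀ s ∈ S,
      (s * (b : K)) • dd (x i) ∈ ⨆ (c' : ℂ) (_ : c' ≠ (a i : ℂ)), (ld t).eigenspace c' := by
  induction hb using Submodule.span_induction with
  | mem b hb =>
    obtain ⟨j, hj⟩ := hb
    intro s hs
    rw [hj]
    refine Submodule.iSup_induction _ (motive := fun s : K => (s * x j) • dd (x i) ∈
      ⨆ (c' : ℂ) (_ : c' ≠ (a i : ℂ)), (ld t).eigenspace c') (hC.ev.s s hs) ?_ (by simp) ?_
    · intro n s hs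
      by_cases s0 : s = 0
      · simp [s0]
      have h1 : t s = (n : ℂ) • s := End.mem_eigenspace_iff.1 hs.2
      obtain ⟨m, hm⟩ := hC.ev.nat s hs.1 _ s0 h1
      refine mem_ne (ld t) (c' := (a i : ℂ) + ((n : ℂ) + a j)) ?_ ?_
      · rw [ld_smul, ld_dd t (hC.cx.eig i), eig_mul t h1 (hC.cx.eig j), add_smul (a i : ℂ),
          smul_assoc, smul_comm]
      · rw [hm]
        have := hC.pos j
        intro e
        have e2 : a i + (m + a j) = a i := by exact_mod_cast e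
        omega
    · intro s s' h h'
      rw [add_mul, add_smul]
      exact add_mem h h'
  | zero => intro s _; simp
  | add b b' _ _ h h' =>
    intro s hs
    rw [Subalgebra.coe_add, mul_add, add_smul]
    exact add_mem (h s hs) (h' s hs)
  | smul r b _ h =>
    intro s hs
    rw [smul_eq_mul, Subalgebra.coe_mul, ← mul_assoc]
    exact h _ (mul_mem hs r.2)

end HAMx

open HAMx in
theorem ham (g : GenK) : S_HAM := by
  intro K ι _ _ _ S t x a ω w hC hω hP i
  obtain ⟨r, -, ⟨b, hb, hrb⟩, hr⟩ := hP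
  let M : Submodule ℂ (DU K) :=
    { carrier := {γ | ∃ D ∈ TT S, ω D = γ}
      add_mem' := by
        rintro _ _ ⟨D, h, rfl⟩ ⟨D', h', rfl⟩
        exact ⟨D + D', add_mem h h', map_add _ _ _⟩
      zero_mem' := ⟨0, zero_mem _, map_zero _⟩
      smul_mem' := by
        rintro c _ ⟨D, h, rfl⟩
        exact ⟨c • D, (TC S).smul_mem c h, lin_c _ _ _⟩ }
  have hx := ld_dd t (hC.cx.eig i)
  have hM : dd (x i) ∈ M := by
    refine g.cmp (DU K) (ld t) M (a i) (dd (x i)) ((1 * (b : K)) • dd (x i)) ?_ hx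
      (rest hC i b hb 1 (one_mem S)) ?_
    · rintro _ ⟨D, h, rfl⟩
      exact ⟨(w : ℂ) • D + ⁅t, D⁆, add_mem ((TC S).smul_mem _ h) (lie_mem hC.ev.tm h),
        by rw [ld_om t ω w hω, map_add, lin_c]⟩
    · obtain ⟨D, h1, h2⟩ := hr _ (dd_mem (hC.bas.mem i))
      refine ⟨D, h1, ?_⟩
      rw [h2, ← hrb, one_mul]
      ext Y
      simp only [LinearMap.smul_apply, LinearMap.add_apply, smul_eq_mul]
      ring
  obtain ⟨D, hD, hD2⟩ := hM
  have key : ∃ H ∈ TT S, ⁅t, H⁆ = ((a i : ℂ) - w) • H ∧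
      ω D - ω H ∈ ⨆ (c' : ℂ) (_ : c' ≠ (a i : ℂ)), (ld t).eigenspace c' := by
    refine Submodule.iSup_induction _ (motive := fun D : DD K => ∃ H ∈ TT S,
      ⁅t, H⁆ = ((a i : ℂ) - w) • H ∧
        ω D - ω H ∈ ⨆ (c' : ℂ) (_ : c' ≠ (a i : ℂ)), (ld t).eigenspace c') (hC.ev.T D hD) ?_
      ⟨0, zero_mem _, by simp, by simp⟩ ?_
    · intro n D hD
      have h1 : ⁅t, D⁆ = (n : ℂ) • D := End.mem_eigenspace_iff.1 hD.2
      by_cases e : (n : ℂ) = (a i : ℂ) - w
      · exact ⟨D, hD.1, e ▸ h1, by simp⟩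
      · refine ⟨0, zero_mem _, by simp, ?_⟩
        rw [map_zero, sub_zero]
        exact mem_ne (ld t) (ld_om' t ω w n hω h1) fun e1 => e (by rw [← e1]; ring)
    · rintro D D' ⟨H, p1, p2, p3⟩ ⟨H', q1, q2, q3⟩
      refine ⟨H + H', add_mem p1 q1, by rw [lie_add, p2, q2, smul_add], ?_⟩
      rw [map_add, map_add, add_sub_add_comm]
      exact add_mem p3 q3
  obtain ⟨H, h1, h2, h3⟩ := key
  have h4 : ω D - ω H = 0 := by
    refine zero_of g (ld t) (a i) _ ?_ h3
    rw [map_sub, ld_om' t ω w _ hω h2, hD2, hx, add_sub_cancel, smul_sub]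
  refine ⟨H, h1, by rw [← hD2, sub_eq_zero.1 h4], fun j => ?_⟩
  have h5 : t (H (x j)) = ((((a i : ℚ) + a j - w : ℚ)) : ℂ) • H (x j) := by
    have h6 : t (H (x j)) - H (t (x j)) = ((a i : ℂ) - w) • H (x j) := by
      rw [← Derivation.commutator_apply, h2]
      rfl
    rw [hC.cx.eig j, Derivation.map_smul, sub_eq_iff_eq_add, ← add_smul] at h6
    rw [h6]
    congr 1
    push_cast
    ring
  have h7 : H (x j) ∈ Algebra.adjoin ℂ (Set.range x) := hC.cx.gen ▸ h1 _ (hC.bas.mem j)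
  rw [Algebra.adjoin_range_eq_range_aeval] at h7
  obtain ⟨p, hp⟩ := h7
  have hp' : MvPolynomial.aeval x p = H (x j) := hp
  obtain ⟨θ, t1, t2, t3⟩ := comp t x a hC.cx.eig ((a i : ℚ) + a j - w) p
  rw [hp'] at t3
  refine ⟨θ, sub_eq_zero.1 (zero_of g (op t) _ _ ?_ t3), fun α hα => t1 α ?_⟩
  · rw [op_apply, map_sub, h5, t2, smul_sub]
  · rwa [MvPolynomial.coeff_coe] at hα

end Pool.Agent.MP_51db15_ag.Qh
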