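import Pool.Agent.MP_51db15_ag.Qh.Spec

/-! Row IDC: a decomposition of the module of fields into graded indecomposable pieces. -/

namespace Pool.Agent.MP_51db15_ag.Qh

open Module

noncomputable section

namespace IDCx

variable {K : Type} [Field K] [Algebra ℂ K]

/-- the endomorphisms of degree zero -/
def A (S : Subalgebra ℂ K) (t : DD K) : Subalgebra ℂ (End K (DD K)) where
  carrier := {b | A0 S t b}
  add_mem' h h' := ⟨fun D hD => add_mem (h.1 D hD) (h'.1 D hD), fun D => by
    simp only [LinearMap.add_apply, lie_add, h.2 D, h'.2 D]⟩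
  mul_mem' h h' := ⟨fun D hD => h.1 _ (h'.1 D hD), fun D => by
    simp only [End.mul_apply, h.2, h'.2]⟩
  algebraMap_mem' c := ⟨fun D hD => ((TT S).restrictScalars ℂ).smul_mem c hD, fun D => by
    change ⁅t, c • D⁆ = c • ⁅t, D⁆
    exact lie_smul c t D⟩

theorem fd_of {U V : Type} [AddCommGroup U] [Module ℂ U] [AddCommGroup V] [Module ℂ V]
    (δ : End ℂ U) (H : Submodule ℂ U) (h : Fd δ H) (f : V →ₗ[ℂ] U) (hf : Function.Injective f)
    (h1 : ∀ v, f v ∈ H) (h2 : ∀ v, δ (f v) = 0) : FiniteDimensional ℂ V := by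
  have := h 0
  refine FiniteDimensional.of_injective (f.codRestrict (H ⊓ δ.eigenspace 0) fun v => ⟨h1 v, ?_⟩)
    fun v w e => hf (congrArg Subtype.val e)
  rw [SetLike.mem_coe, End.mem_eigenspace_iff, h2, zero_smul]

/-- the embedding into the endomorphisms of pairs -/
def emb (S : Subalgebra ℂ K) (t : DD K) : A S t →ₗ[ℂ] EE K where
  toFun b := (b.1 : End K (DD K)).prodMap 0
  map_add' b b' := LinearMap.ext fun v => Prod.ext rfl (by simp)
  map_smul' c b := LinearMap.ext fun v => Prod.ext rfl (by simp)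

theorem fd {S : Subalgebra ℂ K} {t : DD K} (h : Fd (U := EE K) (del t) (EC S)) :
    FiniteDimensional ℂ (A S t) := by
  refine fd_of (U := EE K) (V := A S t) (del t) (EC S) h (emb S t) (fun b b' e => ?_)
    (fun b v hv => ⟨b.2.1 _ hv.1, zero_mem _⟩) fun b => ?_
  · exact Subtype.ext (LinearMap.ext fun D => congrArg (fun u : EE K => (u (D, 0)).1) e)
  · exact LinearMap.ext fun v =>
      Prod.ext (by simp [emb, del_apply, b.2.2 v.1]) (by simp [emb, del_apply])

end IDCx

theorem idc (i : S_IDEM) : S_IDC := by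
  intro K ι _ _ _ S E x a hc
  have := IDCx.fd hc.evf.E
  obtain ⟨κ, h1, h2, e, ho, hs, hn, hl⟩ := i (IDCx.A S E)
  refine ⟨κ, h1, h2, fun k => (e k).1, fun k => (e k).2, fun k l => ?_, ?_, fun k h => ?_,
    fun k b hb => ?_⟩
  · have := congrArg Subtype.val (ho k l)
    rw [apply_ite Subtype.val] at this
    exact this
  · have := congrArg (IDCx.A S E).val hs
    rw [map_sum, map_one] at this
    exact this
  · exact hn k (Subtype.ext h)
  · obtain ⟨c, hc'⟩ := hl k ⟨b, hb⟩
    exact ⟨c, hc'.map (IDCx.A S E).val⟩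

end

end Pool.Agent.MP_51db15_ag.Qh
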