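import Pool.Agent.MP_51db15_ag.Qh.Spec

/-! PROJECT QH, row IDEM: a complete family of primitive idempotents. -/

namespace Pool.Agent.MP_51db15_ag.Qh

open Module Polynomial

namespace IDEMx

variable {A : Type} [Ring A] [Algebra ℂ A] [FiniteDimensional ℂ A]

theorem eig {e z : A} (he : e * e = e) (h0 : e ≠ 0) (hz : e * z = z) :
    ∃ (c : ℂ) (v : A), v ≠ 0 ∧ e * v = v ∧ (z - c • e) * v = 0 := by
  let P : Submodule ℂ A := LinearMap.eqLocus (LinearMap.mulLeft ℂ e) LinearMap.id
  have hP : ∀ v, v ∈ P ↔ e * v = v := fun v => Iff.rfl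
  have : Nontrivial P := ⟨⟨e, (hP e).2 he⟩, 0, fun h => h0 (congrArg Subtype.val h)⟩
  obtain ⟨c, hc⟩ := End.exists_eigenvalue (K := ℂ) (V := P) ((LinearMap.mulLeft ℂ z).restrict
    (p := P) (q := P) fun v _ => (hP _).2 (by rw [LinearMap.mulLeft_apply, ← mul_assoc, hz]))
  obtain ⟨v, hv⟩ := hc.exists_hasEigenvector
  have h1 : z * v.1 = c • v.1 := congrArg Subtype.val hv.apply_eq_smul
  refine ⟨c, v.1, fun h => hv.2 (Subtype.ext h), (hP _).1 v.2, ?_⟩
  rw [sub_mul, smul_mul_assoc, (hP _).1 v.2, h1, sub_self]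

theorem fit (w : A) : ∃ (n : ℕ) (y f : A), f = y * w ∧ (∃ y', f = w * y') ∧ f * f = f ∧
    w ^ n * f = w ^ n := by
  have hm : minpoly ℂ w ≠ 0 := minpoly.ne_zero (Algebra.IsIntegral.isIntegral w)
  obtain ⟨n, q, h1, h2⟩ : ∃ n q, minpoly ℂ w = X ^ n * q ∧ ¬ X ∣ q := by
    obtain ⟨q, a, b⟩ := exists_eq_pow_rootMultiplicity_mul_and_not_dvd _ hm (0 : ℂ)
    rw [C_0, sub_zero] at a b
    exact ⟨_, q, a, b⟩
  obtain ⟨a, b, h⟩ : IsCoprime (X ^ (n + 1)) q :=
    ((prime_X.irreducible.coprime_iff_not_dvd).2 h2).pow_left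
  have z : ∀ r s t : ℂ[X], r = s + t * minpoly ℂ w → aeval w r = aeval w s := by
    rintro _ s t rfl
    rw [map_add, map_mul, minpoly.aeval, mul_zero, add_zero]
  refine ⟨n, aeval w (a * X ^ n), aeval w (a * X ^ (n + 1)), ?_, ⟨aeval w (a * X ^ n), ?_⟩, ?_, ?_⟩
  · rw [pow_succ, ← mul_assoc, map_mul _ _ X, aeval_X]
  · rw [show a * X ^ (n + 1) = X * (a * X ^ n) by ring, map_mul _ X, aeval_X]
  · rw [← map_mul]
    exact z _ _ (-(a * b * X)) (by rw [h1]; linear_combination a * X ^ (n + 1) * h)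
  · rw [← aeval_X_pow (R := ℂ), ← map_mul]
    exact z _ _ (-b) (by rw [h1]; linear_combination X ^ n * h)

theorem split {e : A} (he : e * e = e) (h0 : e ≠ 0) (b : A)
    (h : ¬ ∃ c : ℂ, IsNilpotent (e * b * e - c • e)) :
    ∃ f : A, f * f = f ∧ e * f = f ∧ f * e = f ∧ f ≠ 0 ∧ f ≠ e := by
  have hz : e * (e * b * e) = e * b * e := by rw [← mul_assoc, ← mul_assoc, he]
  obtain ⟨c, v, v0, v1, v2⟩ := eig he h0 hz
  obtain ⟨n, y, f, f1, ⟨y', f2⟩, f3, f4⟩ := fit (e * b * e - c • e)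
  refine ⟨f, f3, ?_, ?_, fun k => h ⟨c, n, ?_⟩, fun k => v0 ?_⟩
  · rw [f2, ← mul_assoc, mul_sub, hz, mul_smul_comm, he]
  · rw [f1, mul_assoc, sub_mul, smul_mul_assoc, mul_assoc _ e e, he]
  · rw [← f4, k, mul_zero]
  · rw [← v1, ← k, f1, mul_assoc, v2, mul_zero]

/-- families with `n` members -/
def Fm (A : Type) [Ring A] (n : ℕ) : Prop :=
  ∃ (κ : Type) (_ : Fintype κ) (_ : DecidableEq κ) (e : κ → A), Fintype.card κ = n ∧
    (∀ i j, e i * e j = if i = j then e i else 0) ∧ ∑ i, e i = 1 ∧ ∀ i, e i ≠ 0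

theorem Fm.le {n : ℕ} (h : Fm A n) : n ≤ finrank ℂ A := by
  obtain ⟨κ, _, _, e, rfl, h1, -, h3⟩ := h
  refine (Fintype.linearIndependent_iff.2 fun g hg j => ?_ : LinearIndependent ℂ e).fintype_card_le_finrank
  have := congrArg (e j * ·) hg
  simp only [Finset.mul_sum, mul_smul_comm, h1, mul_zero, smul_ite, smul_zero, Finset.sum_ite_eq,
    Finset.mem_univ, if_true] at this
  exact (smul_eq_zero.1 this).resolve_right (h3 j)

end IDEMx

open IDEMx in
theorem idem : S_IDEM := by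
  intro A _ _ _
  classical
  obtain ⟨m, hm⟩ : ∃ m, Fm A m := by
    rcases subsingleton_or_nontrivial A with h | h
    · exact ⟨0, Empty, inferInstance, inferInstance, Empty.elim, rfl, fun i => i.elim,
        Subsingleton.elim _ _, fun i => i.elim⟩
    · exact ⟨1, Unit, inferInstance, inferInstance, fun _ => 1, rfl, by simp, by simp, by simp⟩
  obtain ⟨κ, _, _, e, hc, h1, h2, h3⟩ := Nat.findGreatest_spec (P := Fm A) hm.le hm
  refine ⟨κ, inferInstance, inferInstance, e, h1, h2, h3, fun i b => ?_⟩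
  by_contra h
  obtain ⟨f, f1, f2, f3, f4, f5⟩ := split (by simpa using h1 i i) (h3 i) b h
  have l : ∀ j, e j * f = if j = i then f else 0 := fun j => by
    conv_lhs => rw [← f2, ← mul_assoc, h1]
    split_ifs with k
    · rw [k, f2]
    · exact zero_mul _
  have r : ∀ j, f * e j = if j = i then f else 0 := fun j => by
    conv_lhs => rw [← f3, mul_assoc, h1]
    by_cases k : j = i
    · rw [k, if_pos rfl, if_pos rfl, f3]
    · rw [if_neg k, if_neg (Ne.symm k), mul_zero]
  have hF : Fm A (Nat.findGreatest (Fm A) (finrank ℂ A) + 1) := by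
    refine ⟨Option κ, inferInstance, inferInstance,
      fun o => o.elim f fun j => e j - if j = i then f else 0, by simp [hc], ?_, ?_, ?_⟩
    · rintro (_ | j) (_ | k)
      · simp [f1]
      · by_cases a : k = i <;> simp [mul_sub, r, a, f1]
      · by_cases a : j = i <;> simp [sub_mul, l, a, f1]
      · simp only [Option.elim, Option.some.injEq, mul_sub, sub_mul, mul_ite, ite_mul, l, r, f1,
          h1, mul_zero, zero_mul]
        by_cases a'' : j = k
        · subst a''
          by_cases a : j = i <;> simp [a]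
        · by_cases a : j = i
          · subst a
            simp [a'', Ne.symm a'']
          · simp [a, a'']
    · simp [Fintype.sum_option, Finset.sum_sub_distrib, h2]
    · rintro (_ | j)
      · exact f4
      · by_cases a : j = i
        · simpa [a, sub_eq_zero] using f5.symm
        · simpa [a] using h3 j
  exact Nat.findGreatest_is_greatest (Nat.lt_succ_self _) hF.le hF

end Pool.Agent.MP_51db15_ag.Qh
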