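import Pool.Agent.MP_51db15_ag.Qh.Spec

/-! Generators that are generalised eigenvectors of a field commuting with the Euler field. -/

namespace Pool.Agent.MP_51db15_ag.Qh

open Module

theorem JD1x.dec {V : Type} [AddCommGroup V] [Module ℂ V] (f : End ℂ V) (p : Submodule ℂ V)
    [FiniteDimensional ℂ p] (h : ∀ z ∈ p, f z ∈ p) (x : V) (m : x ∈ p) :
    ∃ c : ℂ →₀ V, (∀ μ, c μ ∈ p ⊓ f.maxGenEigenspace μ) ∧ (c.sum fun _ z => z) = x := by
  refine (Submodule.mem_iSup_iff_exists_finsupp _ _).1 ?_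
  have e := End.iSup_maxGenEigenspace_eq_top (f.restrict h)
  simp only [End.maxGenEigenspace] at e ⊢
  simp only [Submodule.inf_genEigenspace f p h]
  rw [← Submodule.map_iSup, e, Submodule.map_subtype_top]
  exact m

theorem jd1 (_g : GenK) : S_JD1 := by
  intro K ι _ _ _ S E x a C Y hY hc
  have key : ∀ i, ∃ f : ℂ →₀ K, (∀ μ, f μ ∈ (SC S ⊓ (op E).eigenspace (a i : ℂ)) ⊓
      (op Y).maxGenEigenspace μ) ∧ (f.sum fun _ z => z) = x i := fun i => by
    have := C.vtx.fd (a i : ℂ)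
    have h : ∀ z ∈ SC S ⊓ (op E).eigenspace (a i : ℂ),
        op Y z ∈ SC S ⊓ (op E).eigenspace (a i : ℂ) := fun z hz => by
      refine ⟨hY z hz.1, End.mem_eigenspace_iff.2 ?_⟩
      have e : E z = (a i : ℂ) • z := End.mem_eigenspace_iff.1 hz.2
      have e2 : E (Y z) - Y (E z) = 0 := by
        rw [← Derivation.commutator_apply, hc]; rfl
      rw [op_apply, op_apply, sub_eq_zero.1 e2, e, Derivation.map_smul]
    exact JD1x.dec _ _ h _ ⟨C.bas.mem i, End.mem_eigenspace_iff.2 (C.cx.eig i)⟩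
  choose f hf hs using key
  have mS : ∀ i μ, f i μ ∈ S := fun i μ => (hf i μ).1.1
  have eg : ∀ i μ, E (f i μ) = (a i : ℂ) • f i μ := fun i μ =>
    End.mem_eigenspace_iff.1 (hf i μ).1.2
  refine ⟨Σ i, (f i).support, inferInstance, fun j => f j.1 j.2, fun j => a j.1, fun j => j.2,
    ⟨le_antisymm (Algebra.adjoin_le ?_) ?_, C.cx.frac, fun j => eg _ _⟩, fun j => C.pos _,
    le_antisymm (Ideal.span_le.2 ?_) (Ideal.span_le.2 ?_),
    fun j => ⟨Finsupp.mem_support_iff.1 j.2.2, (hf _ _).2⟩⟩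
  · rintro _ ⟨j, rfl⟩
    exact mS _ _
  · refine C.cx.gen.ge.trans (Algebra.adjoin_le ?_)
    rintro _ ⟨i, rfl⟩
    rw [← hs i]
    exact Subalgebra.sum_mem _ fun μ hμ => Algebra.subset_adjoin ⟨⟨i, μ, hμ⟩, rfl⟩
  · rintro z ⟨j, e⟩
    obtain ⟨b, hb, eb⟩ := C.vtx.pos z z.2
    have n : (a j.1 : ℂ) ≠ 0 := Nat.cast_ne_zero.2 (C.pos _).ne'
    have : z = algebraMap ℂ S (a j.1 : ℂ)⁻¹ * b := Subtype.ext (by
      rw [← Algebra.smul_def, Subalgebra.coe_smul, ← eb, e, eg, inv_smul_smul₀ n])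
    rw [this]
    exact Ideal.mul_mem_left _ _ hb
  · rintro z ⟨i, e⟩
    have : z = ∑ μ ∈ (f i).support, (⟨f i μ, mS i μ⟩ : S) := Subtype.ext (by
      rw [e, ← hs i, AddSubmonoidClass.coe_finsetSum]; rfl)
    rw [this]
    exact Ideal.sum_mem _ fun μ hμ => Ideal.subset_span ⟨⟨i, μ, hμ⟩, rfl⟩

end Pool.Agent.MP_51db15_ag.Qh
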