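import Pool.Agent.MP_51db15_ag.Qh.Spec
import Pool.Agent.MP_51db15_ag.Hy.MINP

/-! PROJECT QH, row JD2: the semisimple part of a field of degree zero. -/

namespace Pool.Agent.MP_51db15_ag.Qh

open Module

namespace JD2x

theorem scal {U ι : Type} [AddCommGroup U] [Module ℂ U] (p : ι → Submodule ℂ U)
    (hp : iSupIndep p) (l : ι → ℂ) : ∃ D : U →ₗ[ℂ] U, ∀ i, ∀ u ∈ p i, D u = l i • u := by
  classical
  obtain ⟨r, hr⟩ := LinearMap.exists_leftInverse_of_injective _
    (LinearMap.ker_eq_bot.2 hp.dfinsupp_lsum_injective)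
  refine ⟨DFinsupp.lsum ℕ (fun i => l i • (p i).subtype) ∘ₗ r, fun i u hu => ?_⟩
  have h1 := LinearMap.congr_fun hr (DFinsupp.single i ⟨u, hu⟩)
  rw [LinearMap.comp_apply, DFinsupp.lsum_single, LinearMap.id_apply] at h1
  have h2 : r u = DFinsupp.single i ⟨u, hu⟩ := h1
  rw [LinearMap.comp_apply, h2, DFinsupp.lsum_single]
  rfl

end JD2x

theorem jd2 (g : GenK) : S_JD2 := by
  intro K ι _ _ _ S E x a hC Y hY hEY l
  obtain ⟨D, hD⟩ := JD2x.scal _ (End.independent_maxGenEigenspace (op Y)) l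
  have ind : ∀ P : K → Prop, P 0 → (∀ u v, P u → P v → P (u + v)) →
      (∀ u ∈ S, ∀ μ, u ∈ (op Y).maxGenEigenspace μ → P u) → ∀ u ∈ S, P u := by
    intro P h0 h1 h2 u hu
    have h3 := g.joint K (op E) (op Y) (SC S) hC.ev.s hC.vtx.fd hY (fun v => by
      have h4 := congrArg (fun Z : DD K => Z v) hEY
      simp only [Derivation.commutator_apply, Derivation.zero_apply] at h4
      exact sub_eq_zero.1 h4) u hu
    exact Submodule.iSup_induction (motive := P) _ h3
      (fun p v hv => h2 v hv.1.1 p.2 hv.2) h0 h1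
  have hS : ∀ u ∈ S, D u ∈ S := ind (fun u => D u ∈ S) (by rw [map_zero]; exact zero_mem S)
    (fun u v h1 h2 => by rw [map_add]; exact add_mem h1 h2)
    fun u hu μ h => by rw [hD μ u h]; exact S.smul_mem hu _
  have hL : ∀ u ∈ S, ∀ v ∈ S, D (u * v) = u * D v + v * D u := by
    refine ind (fun u => ∀ v ∈ S, D (u * v) = u * D v + v * D u) (fun v _ => by simp)
      (fun u u' h1 h2 v hv => by rw [add_mul, map_add, map_add, h1 v hv, h2 v hv]; ring)
      fun u _ α hα => ?_
    refine ind (fun v => D (u * v) = u * D v + v * D u) (by simp)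
      (fun v v' h1 h2 => by rw [mul_add, map_add, map_add, h1, h2]; ring) fun v _ β hβ => ?_
    have h1 : u * v ∈ (op Y).maxGenEigenspace (α + β) :=
      g.bil K K K (op Y) (op Y) (op Y) (LinearMap.mul ℂ K) α β u v (fun u v => by
        simp only [LinearMap.mul_apply', op_apply, Derivation.leibniz, smul_eq_mul]
        ring) hα hβ
    rw [hD _ _ h1, hD _ _ hα, hD _ _ hβ, map_add, add_smul, mul_smul_comm, mul_smul_comm,
      mul_comm v u, add_comm]
  obtain ⟨t, ht⟩ := Hy.lift S K S.val (D ∘ₗ S.val.toLinearMap)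
    (fun y => by
      obtain ⟨u, hu, v, hv, -, h⟩ := hC.cx.frac y
      exact ⟨⟨u, hu⟩, ⟨v, hv⟩, h⟩)
    (fun u v => hL u u.2 v v.2) fun u h => (congrArg D h).trans (map_zero D)
  have e : ∀ u ∈ S, t u = D u := fun u hu => ht ⟨u, hu⟩
  exact ⟨t, fun u hu => (e u hu).symm ▸ hS u hu, fun u hu μ h => (e u hu).trans (hD μ u h)⟩

end Pool.Agent.MP_51db15_ag.Qh
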