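import Pool.Agent.MP_51db15_ag.Qh.Spec

/-! PROJECT QH, row JD3: the semisimple part acts on forms through the weights. -/

namespace Pool.Agent.MP_51db15_ag.Qh

open Module

namespace JD3x

noncomputable section

variable {K ι : Type} [Field K] [Algebra ℂ K] {S : Subalgebra ℂ K} {E Y t : DD K} {x : ι → K}
  {a : ι → ℕ} {l : ℂ →+ ℂ}

/-- evaluation of a field at a function -/
def ev : DD K →ₗ[ℂ] K →ₗ[ℂ] K where
  toFun := op
  map_add' _ _ := rfl
  map_smul' _ _ := rfl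

theorem fld (g : GenK) (c : Cone S E x a) (hY : Y ∈ TT S) (h0 : ⁅E, Y⁆ = 0) (j : Jor S Y t l)
    {D : DD K} (hD : D ∈ TT S) {ν : ℂ} (h : D ∈ (ad Y).maxGenEigenspace ν) :
    ⁅t, D⁆ = l ν • D := by
  refine c.bas.ext _ _ fun i => ?_
  refine Submodule.iSup_induction _ (motive := fun z => ⁅t, D⁆ z = (l ν • D) z)
    (g.joint K (op E) (op Y) (SC S) c.ev.s c.vtx.fd hY (fun v => ?_) _ (c.bas.mem i))
    (fun p z hz => ?_) (by simp) fun y z h1 h2 => by rw [map_add, map_add, h1, h2]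
  · have := congrArg (fun X : DD K => X v) h0
    simp only [Derivation.commutator_apply, Derivation.zero_apply] at this
    exact sub_eq_zero.1 this
  · have h1 := g.bil _ _ _ (ad Y) (op Y) (op Y) ev ν p.2 D z (fun u v => by
      change Y (u v) = ⁅Y, u⁆ v + u (Y v)
      rw [Derivation.commutator_apply, sub_add_cancel]) h hz.2
    have h2 : t (D z) = l (ν + p.2) • D z := j.2 _ (hD z hz.1.1) _ h1
    rw [Derivation.commutator_apply, h2, j.2 z hz.1.1 _ hz.2, Derivation.map_smul, map_add,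
      add_smul, add_sub_cancel_right]
    rfl

theorem spn (g : GenK) (c : Cone S E x a) (hY : Y ∈ TT S) (h0 : ⁅E, Y⁆ = 0)
    {W : Type} [AddCommGroup W] [Module K W] (f : DD K →ₗ[K] W)
    (h : ∀ D ∈ TT S, ∀ ν, D ∈ (ad Y).maxGenEigenspace ν → f D = 0) : f = 0 := by
  have h1 : ∀ D ∈ TT S, f D = 0 := fun D hD =>
    Submodule.iSup_induction _ (motive := fun z => f z = 0)
      (g.joint _ (ad E) (ad Y) (TC S) c.ev.T c.evf.T (fun v hv => lie_mem hY hv) (fun v => by
        rw [ad_apply, ad_apply, ad_apply, ad_apply, leibniz_lie, h0, zero_lie, zero_add]) D hD)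
      (fun p z hz => h z hz.1.1 _ hz.2) (map_zero f) fun y z h1 h2 => by
        rw [map_add, h1, h2, add_zero]
  refine LinearMap.ext fun D => ?_
  obtain ⟨s, -, s0, hs⟩ := c.bas.den D
  have := h1 _ hs
  rw [map_smul] at this
  exact (smul_eq_zero.1 this).resolve_left s0

/-- a two-form applied to a field -/
def b1 : FF K →ₗ[ℂ] DD K →ₗ[ℂ] DU K :=
  LinearMap.mk₂ ℂ (fun η D => η D) (fun _ _ _ => rfl) (fun _ _ _ => rfl)
    (fun η _ _ => map_add η _ _) fun c η D => lin_c η c D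

/-- a one-form applied to a field -/
def b2 : DU K →ₗ[ℂ] DD K →ₗ[ℂ] K :=
  LinearMap.mk₂ ℂ (fun η D => η D) (fun _ _ _ => rfl) (fun _ _ _ => rfl)
    (fun η _ _ => map_add η _ _) fun c η D => lin_c η c D

theorem b1_apply (η : FF K) (D : DD K) : b1 η D = η D := rfl

theorem b2_apply (η : DU K) (D : DD K) : b2 η D = η D := rfl

theorem l1 (Y : DD K) (u : FF K) (v : DD K) :
    ld Y (b1 u v) = b1 (lf Y u) v + b1 u (ad Y v) := by
  refine LinearMap.ext fun D => ?_
  rw [LinearMap.add_apply, b1_apply, b1_apply, b1_apply, ld_apply, lf_apply, ad_apply,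
    sub_add_cancel]

theorem l2 (Y : DD K) (u : DU K) (v : DD K) :
    op Y (b2 u v) = b2 (ld Y u) v + b2 u (ad Y v) := by
  rw [b2_apply, b2_apply, b2_apply, ld_apply, op_apply, ad_apply, sub_add_cancel]

theorem bil (g : GenK) {U V W : Type} {_ : AddCommGroup U} {_ : Module ℂ U} {_ : AddCommGroup V}
    {_ : Module ℂ V} [AddCommGroup W] [Module ℂ W] {δU : End ℂ U} {δV : End ℂ V} {α β : ℂ}
    {u : U} {v : V} (hu : u ∈ δU.maxGenEigenspace α) (hv : v ∈ δV.maxGenEigenspace β)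
    (δW : End ℂ W) (B : U →ₗ[ℂ] V →ₗ[ℂ] W)
    (h : ∀ u v, δW (B u v) = B (δU u) v + B u (δV v)) : B u v ∈ δW.maxGenEigenspace (α + β) :=
  g.bil U V W δU δV δW B α β u v h hu hv

theorem wt (g : GenK) {η : FF K} {D D' : DD K} {μ ν ν' : ℂ}
    (hμ : η ∈ (lf Y).maxGenEigenspace μ) (h : D ∈ (ad Y).maxGenEigenspace ν)
    (h' : D' ∈ (ad Y).maxGenEigenspace ν') :
    η D D' ∈ (op Y).maxGenEigenspace (μ + ν + ν') := by
  have h1 := bil g hμ h (ld Y) b1 (l1 Y)
  have h2 := bil g h1 h' (op Y) b2 (l2 Y)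
  rwa [b2_apply, b1_apply] at h2

theorem alg {x u v w : K} {p q r : ℂ} (hx : x = (p + q + r) • w) (hu : u = r • w)
    (hv : v = q • w) : x - u - v - p • w = 0 := by
  rw [hx, hu, hv, add_smul, add_smul]
  ring

theorem fin {η : FF K} {D D' : DD K} {p q r : ℂ} (h3 : t (η D D') = (p + q + r) • η D D')
    (h1 : ⁅t, D⁆ = q • D) (h2 : ⁅t, D'⁆ = r • D') : (lf t η - p • η) D D' = 0 := by
  have e1 : η D ⁅t, D'⁆ = r • η D D' := by rw [h2]; exact lin_c (η D) r D'
  have e2 : η ⁅t, D⁆ D' = q • η D D' := by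
    rw [h1]; exact congrArg (fun γ : DU K => γ D') (lin_c η q D)
  exact alg h3 e1 e2

end

end JD3x

open JD3x in
theorem jd3 (g : GenK) : S_JD3 := by
  intro K ι _ _ _ S E x a c Y hY h0 l t j η hη μ hμ
  refine sub_eq_zero.1 (spn g c hY h0 (lf t η - l μ • η) fun D hD ν h =>
    spn g c hY h0 ((lf t η - l μ • η) D) fun D' hD' ν' h' => ?_)
  have h3 : t (η D D') = l (μ + ν + ν') • η D D' := j.2 _ (hη D hD D' hD') _ (wt g hμ h h')
  rw [map_add, map_add] at h3
  exact fin h3 (fld g c hY h0 j hD h) (fld g c hY h0 j hD' h')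

end Pool.Agent.MP_51db15_ag.Qh
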