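import Pool.Agent.MP_51db15_ag.Qh.Spec

/-! The two trace identities. -/

namespace Pool.Agent.MP_51db15_ag.Qh

open Module

namespace LINx

variable {K : Type} [Field K] [Algebra ℂ K]

/-- the correction term of the Lie derivative along `g • X` -/
noncomputable def cor (g : K) (X : DD K) : EE K where
  toFun v := (-(v.1 g • X), v.2 X • dd g)
  map_add' v w := Prod.ext (by simp [add_smul, add_comm]) (by simp [add_smul])
  map_smul' r v := Prod.ext (by simp [mul_smul]) (by simp [mul_smul])

theorem cor_apply (g : K) (X : DD K) (v : MM K) :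
    cor g X v = (-(v.1 g • X), v.2 X • dd g) := rfl

theorem del_smul_left (g : K) (X : DD K) (f : EE K) :
    del (g • X) f = g • del X f + (cor g X * f - f * cor g X) :=
  LinearMap.ext fun v => by
    simp only [del_apply, lam_smul_left, map_add, map_smul, LinearMap.add_apply,
      LinearMap.smul_apply, LinearMap.sub_apply, End.mul_apply, ← cor_apply, smul_sub]
    abel

theorem false_cor {κ : Type} (e : κ → End K (DD K)) (k : κ) (g : K) {X : DD K}
    (h : e k X = 0) : pp e (k, false) * cor g X = 0 :=
  LinearMap.ext fun v => by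
    rw [End.mul_apply, pp_false, cor_apply]
    simp [h]

theorem cor_true {κ : Type} (e : κ → End K (DD K)) (k : κ) (g : K) {X : DD K}
    (h : e k X = 0) : cor g X * pp e (k, true) = 0 :=
  LinearMap.ext fun v => by
    rw [End.mul_apply, pp_true, cor_apply]
    simp [h]

theorem p_cor_p {κ : Type} (e : κ → End K (DD K)) (u : κ × Bool) (g : K) {X : DD K}
    (h : e u.1 X = 0) : pp e u * cor g X * pp e u = 0 := by
  obtain ⟨k, b⟩ := u
  cases b
  · rw [false_cor e k g h, zero_mul]
  · rw [mul_assoc, cor_true e k g h, mul_zero]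

theorem ff_cor {κ : Type} (e : κ → End K (DD K)) (i l : κ) (g : K) {X : DD K}
    (h : e i (e l X) = 0) : pp e (i, false) * pp e (l, false) * cor g X = 0 :=
  LinearMap.ext fun v => by
    rw [End.mul_apply, End.mul_apply, pp_false, pp_false, cor_apply]
    simp [h]

theorem tr_sub (b p q d : EE K) :
    tr (b * (p - q) * d) = tr (b * p * d) - tr (b * q * d) := by
  rw [← map_sub]
  congr 1
  exact LinearMap.ext fun v => by
    simp only [End.mul_apply, LinearMap.sub_apply, map_sub]

theorem key {ι : Type} {S : Subalgebra ℂ K} {E : DD K} {x : ι → K} {a : ι → ℕ}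
    (C : Cone S E x a) (hL : LTP S x) (ht : ∀ b ∈ EI S, tr b ∈ S) (q : End K (DD K))
    (hq : ∀ D ∈ TT S, q D ∈ TT S) {b f d : EE K} (hb : b ∈ EI S) (hf : f ∈ EI S)
    (hd : d ∈ EI S)
    (h0 : ∀ g D, tr (b * (cor g (q D) * f - f * cor g (q D)) * d) = 0) (c : ℂ)
    (h : tr (b * del (q E) f * d) = algebraMap ℂ K c) : c = 0 := by
  let γ : DU K :=
    { toFun := fun D => tr (b * del (q D) f * d)
      map_add' := fun D D' => by
        rw [map_add, del_add_left, mul_add, add_mul, map_add]
      map_smul' := fun g D => by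
        rw [map_smul, del_smul_left, mul_add, add_mul, map_add, h0, add_zero, mul_smul_comm,
          smul_mul_assoc, tr_apply, tr_apply, map_smul, RingHom.id_apply] }
  have hγ : γ ∈ TD S := fun D hD => ht _ (mul_mem (mul_mem hb (del_mem (hq D hD) hf)) hd)
  obtain ⟨y, hy, e⟩ := hL (vx S x) C.vtx.max.isPrime le_rfl E C.ev.tm C.vtx.pos γ hγ
  have e' : (y : K) = algebraMap ℂ K c := e.symm.trans h
  by_contra hc
  refine C.vtx.max.ne_top ((Ideal.eq_top_iff_one _).2 ?_)
  have h1 : (1 : S) = algebraMap ℂ S c⁻¹ * y := by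
    apply Subtype.ext
    rw [Subalgebra.coe_mul, e', Subalgebra.coe_algebraMap, ← map_mul, inv_mul_cancel₀ hc, map_one,
      Subalgebra.coe_one]
  rw [h1]
  exact Ideal.mul_mem_left _ _ hy

end LINx

open LINx

theorem lin : S_LIN := by
  intro K ι κ _ _ _ _ _ S E x a e C hL ht I
  have := C.bas.fd
  have oz : ∀ k j, k ≠ j → ∀ D, e k (e j D) = 0 := fun k j h D => by
    rw [← End.mul_apply, I.orth, if_neg h, LinearMap.zero_apply]
  have pm : ∀ k, pp e (k, false) ∈ EI S := fun k v hv =>
    ⟨(I.a0 k).1 _ hv.1, zero_mem _⟩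
  refine ⟨fun j u v hu hv f hf b hb ef eb c h => ?_, fun i j l hij b hb c h => ?_⟩
  · refine LINx.key C hL ht (e j) (I.a0 j).1 hb hf (one_mem _) (fun g D => ?_) c (by rwa [mul_one])
    have h1 := p_cor_p e u g (oz _ _ hu D)
    have h2 := p_cor_p e v g (oz _ _ hv D)
    have a1 : b * (cor g (e j D) * f) = 0 := by
      calc b * (cor g (e j D) * f)
          = pp e v * b * pp e u * (cor g (e j D) * (pp e u * f * pp e v)) := by rw [← ef, ← eb]
        _ = pp e v * b * (pp e u * cor g (e j D) * pp e u) * (f * pp e v) := by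
          simp only [mul_assoc]
        _ = 0 := by rw [h1, mul_zero, zero_mul]
    have a2 : tr (b * (f * cor g (e j D))) = 0 := by
      calc tr (b * (f * cor g (e j D)))
          = tr (pp e v * b * pp e u * (pp e u * f * pp e v * cor g (e j D))) := by
            rw [← ef, ← eb]
        _ = tr (pp e v * (b * pp e u * (pp e u * f) * (pp e v * cor g (e j D)))) := by
            simp only [mul_assoc]
        _ = tr (b * pp e u * (pp e u * f) * (pp e v * cor g (e j D) * pp e v)) := by
            rw [tr_apply, tr_apply, LinearMap.trace_mul_comm]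
            simp only [mul_assoc]
        _ = 0 := by rw [h2, mul_zero, map_zero]
    rw [tr_sub, mul_one, mul_one, a1, a2, map_zero, sub_zero]
  · refine LINx.key C hL ht (e j) (I.a0 j).1 (mul_mem hb (pm i)) (pm l) (pm l) (fun g D => ?_) c h
    have h1 := false_cor e i g (oz _ _ hij D)
    have h2 : pp e (i, false) * pp e (l, false) * cor g (e j D) = 0 := by
      refine ff_cor e i l g ?_
      by_cases hl : l = j
      · rw [hl]
        exact oz _ _ hij _
      · rw [oz _ _ hl, map_zero]
    have a1 : b * pp e (i, false) * (cor g (e j D) * pp e (l, false)) = 0 := by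
      calc _ = b * (pp e (i, false) * cor g (e j D)) * pp e (l, false) := by
            simp only [mul_assoc]
        _ = 0 := by rw [h1, mul_zero, zero_mul]
    have a2 : b * pp e (i, false) * (pp e (l, false) * cor g (e j D)) = 0 := by
      calc _ = b * (pp e (i, false) * pp e (l, false) * cor g (e j D)) := by
            simp only [mul_assoc]
        _ = 0 := by rw [h2, mul_zero]
    rw [tr_sub, a1, a2, sub_self]

end Pool.Agent.MP_51db15_ag.Qh
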