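import Pool.Agent.MP_51db15_ag.Qh.Spec

/-! PROJECT QH, row LND: a locally nilpotent derivation whose kernel cuts out the vertex is zero. -/

namespace Pool.Agent.MP_51db15_ag.Qh

open Module Finset

namespace LNDx

variable {R : Type} [CommRing R] [Algebra ℂ R]

theorem leib (N : Derivation ℂ R R) (n : ℕ) (y z : R) :
    N^[n] (y * z) = ∑ ij ∈ antidiagonal n, n.choose ij.1 • (N^[ij.1] y * N^[ij.2] z) := by
  induction n with
  | zero => simp
  | succ n ih =>
    rw [sum_antidiagonal_choose_succ_nsmul (M := R) (fun i j => N^[i] y * N^[j] z) n]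
    simp only [Function.iterate_succ_apply', ih, map_sum, map_nsmul, Derivation.leibniz,
      smul_eq_mul, smul_add, sum_add_distrib, add_right_inj]
    refine sum_congr rfl fun ⟨i, j⟩ hij => ?_
    rw [n.choose_symm_of_eq_add (mem_antidiagonal.1 hij).symm, mul_comm]

theorem it_zero (N : Derivation ℂ R R) (n : ℕ) : N^[n] 0 = 0 :=
  Function.iterate_fixed (map_zero N) n

theorem it_add (N : Derivation ℂ R R) (n : ℕ) (y z : R) : N^[n] (y + z) = N^[n] y + N^[n] z := by
  induction n with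
  | zero => rfl
  | succ n ih => simp only [Function.iterate_succ_apply', ih, map_add]

theorem it_smul (N : Derivation ℂ R R) (n : ℕ) (c : ℂ) (y : R) :
    N^[n] (c • y) = c • N^[n] y := by
  induction n with
  | zero => rfl
  | succ n ih => simp only [Function.iterate_succ_apply', ih, Derivation.map_smul]

variable {N : Derivation ℂ R R}

theorem mono {p q : ℕ} {y : R} (h : N^[p] y = 0) (hpq : p ≤ q) : N^[q] y = 0 := by
  obtain ⟨k, rfl⟩ := Nat.exists_eq_add_of_le' hpq
  rw [Function.iterate_add_apply, h, it_zero]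

theorem mul_zero' {p q : ℕ} {y z : R} (hy : N^[p + 1] y = 0) (hz : N^[q + 1] z = 0) :
    N^[p + q + 1] (y * z) = 0 := by
  rw [leib]
  refine sum_eq_zero fun ij hij => ?_
  have := mem_antidiagonal.1 hij
  by_cases k : p + 1 ≤ ij.1
  · rw [mono hy k, zero_mul, smul_zero]
  · rw [mono hz (by omega), mul_zero, smul_zero]

theorem mul_top {p q : ℕ} {y z : R} (hy : N^[p + 1] y = 0) (hz : N^[q + 1] z = 0) :
    N^[p + q] (y * z) = (p + q).choose p • (N^[p] y * N^[q] z) := by
  rw [leib, sum_eq_single_of_mem (p, q) (mem_antidiagonal.2 rfl)]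
  intro ij hij hne
  have := mem_antidiagonal.1 hij
  by_cases k : p + 1 ≤ ij.1
  · rw [mono hy k, zero_mul, smul_zero]
  · have k' : ij.1 ≠ p := fun e => hne (Prod.ext e (by simp only; omega))
    rw [mono hz (by omega), mul_zero, smul_zero]

theorem pow_top [IsDomain R] {p : ℕ} {y : R} (h0 : N^[p + 1] y = 0) (h1 : N^[p] y ≠ 0) (m : ℕ) :
    N^[m * p + 1] (y ^ m) = 0 ∧ N^[m * p] (y ^ m) ≠ 0 := by
  have : CharZero R := charZero_of_injective_algebraMap (algebraMap ℂ R).injective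
  induction m with
  | zero => simp
  | succ m ih =>
    rw [Nat.succ_mul, pow_succ]
    refine ⟨mul_zero' ih.1 h0, ?_⟩
    rw [mul_top ih.1 h0, nsmul_eq_mul]
    exact mul_ne_zero (Nat.cast_ne_zero.2 (Nat.choose_pos (Nat.le_add_right _ _)).ne')
      (mul_ne_zero ih.2 h1)

theorem comp {U : Type} [AddCommGroup U] [Module ℂ U] (δ : End ℂ U) (W : ℕ → Submodule ℂ U)
    (hW : ∀ n, W n ≤ δ.eigenspace (n : ℂ)) {y : U} (hy : y ∈ ⨆ n, W n) {c : ℂ}
    (hc : y ∈ δ.eigenspace c) (h0 : y ≠ 0) : ∃ n : ℕ, c = n ∧ y ∈ W n := by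
  have ind := Submodule.disjoint_def.1 (δ.eigenspaces_iSupIndep c)
  have h1 : ∀ n : ℕ, c ≠ n → W n ≤ ⨆ (c' : ℂ) (_ : c' ≠ c), δ.eigenspace c' := fun n hn =>
    (hW n).trans (le_iSup₂_of_le (n : ℂ) hn.symm le_rfl)
  by_cases h : ∃ n : ℕ, c = n
  · obtain ⟨n, rfl⟩ := h
    have h2 : ⨆ k, W k ≤ W n ⊔ ⨆ (c' : ℂ) (_ : c' ≠ n), δ.eigenspace c' := iSup_le fun k => by
      by_cases e : k = n
      · exact e ▸ le_sup_left
      · exact (h1 k fun e' => e (Nat.cast_injective e').symm).trans le_sup_right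
    obtain ⟨u, hu, v, hv, rfl⟩ := Submodule.mem_sup.1 (h2 hy)
    have h3 : v = 0 := ind v (by simpa using sub_mem hc (hW n hu)) hv
    exact ⟨n, rfl, by rwa [h3, add_zero]⟩
  · exact (h0 (ind y hc ((iSup_le fun k => h1 k fun e => h ⟨k, e⟩ : ⨆ k, W k ≤ _) hy))).elim

/-- elements of weight `n` and degree at most `n D / a` -/
def W (E N : Derivation ℂ R R) (D a n : ℕ) : Submodule ℂ R where
  carrier := {y | E y = (n : ℂ) • y ∧ N^[n * D / a + 1] y = 0}
  zero_mem' := ⟨by simp, it_zero _ _⟩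
  add_mem' := fun hy hz => ⟨by rw [map_add, hy.1, hz.1, smul_add],
    by rw [it_add, hy.2, hz.2, add_zero]⟩
  smul_mem' := fun c y hy => ⟨by rw [Derivation.map_smul, hy.1, smul_comm],
    by rw [it_smul, hy.2, smul_zero]⟩

theorem W_mul {E : Derivation ℂ R R} {D a n n' : ℕ} {y z : R} (hy : y ∈ W E N D a n)
    (hz : z ∈ W E N D a n') : y * z ∈ W E N D a (n + n') := by
  refine ⟨?_, mono (mul_zero' hy.2 hz.2) ?_⟩
  · rw [Derivation.leibniz, hy.1, hz.1]
    simp only [smul_eq_mul, mul_smul_comm, Nat.cast_add, add_smul, mul_comm z y]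
    exact add_comm _ _
  · rw [add_mul]
    exact Nat.succ_le_succ Nat.div_add_div_le_add_div

theorem W_top {ι : Type} {E : Derivation ℂ R R} {D a : ℕ} {x : ι → R}
    (hx : Algebra.adjoin ℂ (Set.range x) = ⊤) (h : ∀ i, ∃ n, x i ∈ W E N D a n) (y : R) :
    y ∈ ⨆ n, W E N D a n := by
  have hy : y ∈ Algebra.adjoin ℂ (Set.range x) := hx ▸ Algebra.mem_top
  induction hy using Algebra.adjoin_induction with
  | mem y hy =>
    obtain ⟨i, rfl⟩ := hy
    obtain ⟨n, hn⟩ := h i
    exact Submodule.mem_iSup_of_mem n hn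
  | algebraMap c => exact Submodule.mem_iSup_of_mem 0 ⟨by simp, by simp⟩
  | add y z _ _ hy hz => exact add_mem hy hz
  | mul y z h1 h2 hy hz =>
    clear h1 h2
    induction hy using Submodule.iSup_induction' with
    | zero => simp
    | add y y' _ _ k k' => rw [add_mul]; exact add_mem k k'
    | mem n y hy =>
      induction hz using Submodule.iSup_induction' with
      | zero => simp
      | add z z' _ _ k k' => rw [mul_add]; exact add_mem k k'
      | mem n' z hz => exact Submodule.mem_iSup_of_mem _ (W_mul hy hz)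

end LNDx

open LNDx in
theorem lnd : S_LND := by
  classical
  intro R ι _ _ _ _ E N x a g d hx ha hn g0 hg d0 hE hm i0
  have hn' : ∀ i, ∃ p : ℕ, N^[p + 1] (x i) = 0 := fun i =>
    let ⟨k, hk⟩ := hn i
    ⟨k, mono hk (Nat.le_succ k)⟩
  obtain ⟨j, -, hj⟩ := exists_max_image univ (fun i => (Nat.find (hn' i) : ℚ) / a i)
    ⟨i0, mem_univ _⟩
  have h1 : ∀ i, Nat.find (hn' i) * a j ≤ a i * Nat.find (hn' j) := fun i => by
    have k := hj i (mem_univ i)
    rw [div_le_div_iff₀ (by exact_mod_cast (ha i).1) (by exact_mod_cast (ha j).1)] at k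
    rw [mul_comm (a i)]
    exact_mod_cast k
  have h2 := Nat.find_spec (hn' j)
  have h3 : ∀ p < Nat.find (hn' j), N^[p + 1] (x j) ≠ 0 := fun p hp => Nat.find_min (hn' j) hp
  have h4 : ∀ i, x i ∈ W E N (Nat.find (hn' j)) (a j) (a i) := fun i =>
    ⟨(ha i).2, mono (Nat.find_spec (hn' i))
      (Nat.succ_le_succ ((Nat.le_div_iff_mul_le (ha j).1).2 (h1 i)))⟩
  generalize Nat.find (hn' j) = D at h2 h3 h4
  rcases D with _ | D
  · simpa using (h4 i0).2
  obtain ⟨m, h, e⟩ := hm j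
  obtain ⟨-, t⟩ := pow_top h2 (h3 D (Nat.lt_succ_self D)) m
  have h0 : h ≠ 0 := fun k => t (by rw [e, k, mul_zero, it_zero])
  have e1 : E (x j ^ m) = ((m * a j : ℕ) : ℂ) • x j ^ m := by
    induction m with
    | zero => simp
    | succ m _ =>
      rw [Derivation.leibniz_pow, (ha j).2, Nat.add_sub_cancel, smul_eq_mul, mul_smul_comm,
        ← pow_succ, ← Nat.cast_smul_eq_nsmul ℂ, smul_smul, Nat.cast_mul]
  have e2 : E h = (((m * a j : ℕ) : ℂ) - d) • h := by
    rw [e, Derivation.leibniz, hE] at e1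
    refine mul_left_cancel₀ g0 ?_
    rw [mul_smul_comm, sub_smul, ← e1, smul_eq_mul, smul_eq_mul, mul_smul_comm, mul_comm h g]
    exact (add_sub_cancel_right _ _).symm
  obtain ⟨n, n1, n2⟩ := comp (E.toLinearMap : End ℂ R) (W E N (D + 1) (a j))
    (fun n y hy => End.mem_eigenspace_iff.2 hy.1) (W_top hx (fun i => ⟨_, h4 i⟩) h)
    (End.mem_eigenspace_iff.2 e2) h0
  have n3 : m * a j = n + d := by exact_mod_cast sub_eq_iff_eq_add.1 n1
  have n4 := mul_zero' (p := 0) (y := g) hg n2.2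
  rw [← e, zero_add] at n4
  refine (t (mono n4 (Nat.succ_le_of_lt ((Nat.div_lt_iff_lt_mul (ha j).1).2 ?_)))).elim
  rw [mul_right_comm, n3]
  exact Nat.mul_lt_mul_of_pos_right (by omega) (Nat.succ_pos D)

end Pool.Agent.MP_51db15_ag.Qh
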