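import Pool.Agent.MP_51db15_ag.Qh.Spec

/-! PROJECT QH, row PERF: removing small forms keeps the form non-degenerate at the vertex. -/

namespace Pool.Agent.MP_51db15_ag.Qh

open Module

namespace PERFx

variable {K κ : Type} [Field K] [Algebra ℂ K] [Fintype κ] [DecidableEq κ] {S : Subalgebra ℂ K}
  {E : DD K} {e : κ → End K (DD K)} {st : EE K →ₗ[ℂ] EE K}

theorem wt_mul {a b : EE K} {u v : ℂ} (ha : del E a = u • a) (hb : del E b = v • b) :
    del E (a * b) = (u + v) • (a * b) := by
  rw [del_mul, ha, hb, smul_mul_assoc, mul_smul_comm, add_smul]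

theorem del_one : del E (1 : EE K) = 0 := LinearMap.ext fun v => by simp [del_apply]

theorem tr_zero (A : Alg (EI S) (del E) (fun j => del (e j E)) st tr (pp e)) {η : FF K} {w : ℂ}
    (h : ∀ k l, ∀ b ∈ EI S, del E b = (-w) • b → b = pp e (l, false) * b * pp e (k, true) →
      tr (b * flat η) = 0) {c : EE K} (hc : c ∈ EI S) (hw : del E c = (-w) • c) :
    tr (c * flat η) = 0 := by
  have e1 : c * flat η = ∑ u, ∑ v, c * pp e u * flat η * pp e v := by
    simp only [← Finset.mul_sum, ← Finset.sum_mul, A.ps, mul_one]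
  rw [e1, map_sum]
  refine Finset.sum_eq_zero fun u _ => ?_
  rw [map_sum]
  refine Finset.sum_eq_zero fun v _ => ?_
  obtain ⟨k, _ | _⟩ := u
  · have : pp e (k, false) * flat η = 0 := LinearMap.ext fun z => by
      rw [End.mul_apply, pp_false]
      simp
    rw [mul_assoc c, this, mul_zero, zero_mul, map_zero]
  obtain ⟨l, _ | _⟩ := v
  · rw [A.tc, ← mul_assoc, ← mul_assoc]
    have p0 : ∀ u, del E (pp e u) = (0 : ℂ) • pp e u := fun u => by rw [zero_smul, A.pd]
    refine h k l _ (mul_mem (mul_mem (A.pm _) hc) (A.pm _)) ?_ ?_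
    · simpa using wt_mul (wt_mul (p0 (l, false)) hw) (p0 (k, true))
    · have a1 := A.po (l, false) (l, false)
      have a2 := A.po (k, true) (k, true)
      rw [if_pos rfl] at a1 a2
      rw [← mul_assoc, ← mul_assoc, a1, mul_assoc _ (pp e (k, true)), a2]
  · have : flat η * pp e (l, true) = 0 := LinearMap.ext fun z => by
      rw [End.mul_apply, pp_true]
      simp
    rw [mul_assoc _ (flat η), this, mul_zero, map_zero]

theorem nil (n : S_TNIL) [FiniteDimensional K (DD K)]
    (A : Alg (EI S) (del E) (fun j => del (e j E)) st tr (pp e)) {η : FF K} {w : ℂ}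
    (h0 : η ∈ RF S) (h1 : lf E η = w • η)
    (h : ∀ k l, ∀ b ∈ EI S, del E b = (-w) • b → b = pp e (l, false) * b * pp e (k, true) →
      tr (b * flat η) = 0) {c : EE K} (hc : c ∈ EI S) (hw : del E c = (-w) • c) :
    IsNilpotent (c * flat η) := by
  have : CharZero K := charZero_of_injective_algebraMap (algebraMap ℂ K).injective
  have f1 : del E (flat η) = w • flat η := by
    rw [del_flat, h1]
    exact LinearMap.ext fun v => Prod.ext (by simp) rfl
  have f2 : ∀ m : ℕ, del E ((c * flat η) ^ m) = (0 : ℂ) • (c * flat η) ^ m := fun m => by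
    induction m with
    | zero => rw [pow_zero, del_one, zero_smul]
    | succ m ih =>
      rw [pow_succ]
      simpa using wt_mul ih (wt_mul hw f1)
  refine n K (MM K) _ fun m => ?_
  rw [pow_succ, ← mul_assoc]
  refine tr_zero A h (mul_mem (pow_mem (mul_mem hc (flat_mem h0)) m) hc) ?_
  simpa using wt_mul (f2 m) hw

theorem rad (n : S_TNIL) [FiniteDimensional K (DD K)]
    (A : Alg (EI S) (del E) (fun j => del (e j E)) st tr (pp e)) (hE : Dz (U := EE K) (del E) (EC S))
    {g : EE K} (hg : g ∈ EI S) {ρ : FF K} (hρ : ρ ∈ Submodule.span ℂ {η | Sm S E e η}) :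
    g * flat ρ ∈ Submodule.span ℂ {f : EE K | f ∈ EI S ∧ ∃ l : ℂ, del E f = l • f ∧
      ∀ b ∈ EI S, del E b = (-l) • b → IsNilpotent (b * f)} := by
  induction hρ using Submodule.span_induction with
  | mem η hη =>
    obtain ⟨h0, w, h1, h⟩ := hη
    refine Submodule.iSup_induction _ (motive := fun g => g * flat η ∈ _) (hE g hg) ?_ ?_ ?_
    · rintro m g ⟨g1, g2⟩
      have g3 : del E g = (m : ℂ) • g := End.mem_eigenspace_iff.1 g2
      have f1 : del E (flat η) = w • flat η := by
        rw [del_flat, h1]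
        exact LinearMap.ext fun v => Prod.ext (by simp) rfl
      refine Submodule.subset_span ⟨mul_mem g1 (flat_mem h0), _, wt_mul g3 f1, fun b hb hw => ?_⟩
      rw [← mul_assoc]
      refine nil n A h0 h1 h (mul_mem hb g1) ?_
      rw [wt_mul hw g3]
      congr 1
      ring
    · rw [zero_mul]
      exact zero_mem _
    · intro a b ha hb
      rw [add_mul]
      exact add_mem ha hb
  | zero =>
    have : flat (0 : FF K) = 0 := LinearMap.ext fun v => rfl
    rw [this, mul_zero]
    exact zero_mem _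
  | add a b _ _ ha hb =>
    have : flat (a + b) = flat a + flat b := LinearMap.ext fun v => Prod.ext (by simp) rfl
    rw [this, mul_add]
    exact add_mem ha hb
  | smul c a _ ha =>
    have : flat (c • a) = c • flat a := LinearMap.ext fun v => Prod.ext (by simp) rfl
    rw [this, mul_smul_comm]
    exact Submodule.smul_mem _ c ha

theorem fst_mem {I : Ideal S} {v : MM K} (h : v ∈ I • LL S) : v.1 ∈ I • TT S := by
  refine Submodule.smul_induction_on (p := fun v : MM K => v.1 ∈ I • TT S) h ?_ ?_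
  · exact fun r hr m hm => Submodule.smul_mem_smul hr hm.1
  · exact fun a b ha hb => add_mem ha hb

end PERFx

open PERFx in
theorem perf (r : S_RAD) (n : S_TNIL) : S_PERF := by
  intro K ι κ _ _ _ _ _ S E x a e st ω ω' s π C A hs hs1 I hρ
  have := C.bas.fd
  set ρ := ω - ω' with hρd
  have ρR : ρ ∈ RF S := Submodule.span_le.2 (fun η hη => hη.1) hρ
  have πE : sharp π ∈ EI S := fun v hv => ⟨I.mem _ hv.2, zero_mem _⟩
  obtain ⟨m, hm⟩ := r K ι S E x a C _ (rad n A C.ev.E πE hρ)
  let N : End K (DD K) := π ∘ₗ ρ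
  have N1 : ∀ D ∈ TT S, N D ∈ TT S := fun D hD => I.mem _ fun D' hD' => ρR D hD D' hD'
  have N2 : ∀ (j : ℕ), ∀ D ∈ TT S, (N ^ j) D ∈ TT S := fun j D hD => by
    induction j with
    | zero => exact hD
    | succ j ih =>
      rw [pow_succ']
      exact N1 _ ih
  have N3 : ∀ (j : ℕ) (D : DD K), ((sharp π * flat ρ) ^ j) (D, 0) = ((N ^ j) D, 0) := fun j D => by
    induction j with
    | zero => rfl
    | succ j ih =>
      rw [pow_succ', pow_succ', End.mul_apply, ih]
      rfl
  let P : Submodule S (DD K) := (TT S).map ((π ∘ₗ ω').restrictScalars S)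
  have N4 : ∀ D, π (ω' D) = s • D - N D := fun D => by
    rw [← I.left D]
    simp [N, hρd]
  have N5 : ∀ (j : ℕ), ∀ D ∈ TT S, s ^ j • D - (N ^ j) D ∈ P := fun j D hD => by
    induction j with
    | zero => simp
    | succ j ih =>
      have e1 : s ^ (j + 1) • D - (N ^ (j + 1)) D =
          (⟨s, hs⟩ : S) • (s ^ j • D - (N ^ j) D) + π (ω' ((N ^ j) D)) := by
        rw [N4, pow_succ' N, End.mul_apply, pow_succ' s, mul_smul, smul_sub]
        exact (sub_add_sub_cancel _ _ _).symm
      rw [e1]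
      exact add_mem (P.smul_mem _ ih) ⟨_, N2 j D hD, rfl⟩
  obtain ⟨b, hb, hb'⟩ := hs1
  have sb : (⟨s, hs⟩ : S) - 1 ∈ vx S x := by
    have : (⟨s, hs⟩ : S) - 1 = b := Subtype.ext hb'
    rwa [this]
  have le : TT S ≤ P ⊔ vx S x • TT S := fun D hD => by
    have a1 : (⟨s, hs⟩ : S) ^ m - 1 ∈ vx S x := by
      have := Ideal.mem_of_dvd _ (sub_dvd_pow_sub_pow (⟨s, hs⟩ : S) 1 m) sb
      rwa [one_pow] at this
    have a2 := fst_mem (hm (D, 0) ⟨hD, zero_mem _⟩)
    rw [N3] at a2
    have a3 : D = (s ^ m • D - (N ^ m) D) + ((N ^ m) D - ((⟨s, hs⟩ : S) ^ m - 1) • D) := by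
      rw [sub_smul, one_smul]
      change D = _ + (_ - (s ^ m • D - D))
      abel
    rw [a3]
    exact Submodule.add_mem_sup (N5 m D hD) (sub_mem a2 (Submodule.smul_mem_smul a1 hD))
  obtain ⟨q, hq, hq'⟩ :=
    Submodule.exists_sub_one_mem_and_smul_le_of_fg_of_le_sup C.bas.fgT le_rfl le
  have s0 : s ≠ 0 := fun h => C.vtx.max.ne_top ((Ideal.eq_top_iff_one _).2 (by
    have : (⟨s, hs⟩ : S) = 0 := Subtype.ext h
    rw [this, zero_sub] at sb
    exact (neg_mem_iff).1 sb))
  refine ⟨q, q.2, ⟨q - 1, hq, rfl⟩, fun γ hγ => ?_⟩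
  obtain ⟨D, hD, hD'⟩ := hq' (Submodule.smul_mem_pointwise_smul _ q _ (I.mem γ hγ))
  refine ⟨D, hD, ?_⟩
  have a1 : π (ω' D) = π ((q : K) • γ) := by
    rw [map_smul]
    exact hD'
  have a2 := congrArg ω a1
  rw [I.right, I.right] at a2
  exact smul_right_injective _ s0 a2

end Pool.Agent.MP_51db15_ag.Qh
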