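import Pool.Agent.MP_51db15_ag.Qh.Spec

/-! Row PI: the inverse of the form. -/

namespace Pool.Agent.MP_51db15_ag.Qh

open Module

theorem pi : S_PI := by
  intro K ι _ _ _ S x ω s hB hω hs hH
  choose H hHT hH using hH
  have : FiniteDimensional K (DD K) := hB.fd
  have hneg : ∀ D D' : DD K, ω D D' = -ω D' D := fun D D' => (hω.neg_eq D' D).symm
  have hinj : Function.Injective (ω : DD K →ₗ[K] DU K) := by
    rw [injective_iff_map_eq_zero]
    intro D hD
    refine hB.ext D 0 fun i => ?_
    have h1 : s * D (x i) = 0 := by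
      rw [← hH i D, hneg, hD]
      simp
    simpa [hs] using h1
  have hrk : finrank K (DD K) = finrank K (DU K) := Subspace.dual_finrank_eq.symm
  let e : DD K ≃ₗ[K] DU K := LinearMap.linearEquivOfInjective (ω : DD K →ₗ[K] DU K) hinj hrk
  have he : ∀ D, e D = ω D := fun D => rfl
  have he' : ∀ γ, ω (e.symm γ) = γ := fun γ => by rw [← he, e.apply_symm_apply]
  refine ⟨s • (e.symm : DU K →ₗ[K] DD K), fun γ hγ => hB.tt _ fun i => ?_, fun D => ?_,
    fun γ => ?_⟩
  · have h1 : (s • (e.symm : DU K →ₗ[K] DD K)) γ (x i) = -γ (H i) := by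
      change s * e.symm γ (x i) = _
      rw [← hH i, hneg, he']
    rw [h1]
    exact neg_mem (hγ _ (hHT i))
  · change s • e.symm (ω D) = _
    rw [← he, e.symm_apply_apply]
  · change ω (s • e.symm γ) = _
    rw [map_smul, he']

end Pool.Agent.MP_51db15_ag.Qh
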