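import Pool.Agent.MP_51db15_ag.Qh.Spec

/-! PROJECT QH, row POS: the eigenvalues of `b E` on the generators. -/

namespace Pool.Agent.MP_51db15_ag.Qh

open Module

namespace POSx

/-- lexicographically negative -/
def Ng (φ : ℂ →+ ℝ) (z : ℂ) : Prop :=
  φ z < 0 ∨ (φ z = 0 ∧ (z.re < 0 ∨ (z.re = 0 ∧ z.im < 0)))

theorem Ng.add {φ : ℂ →+ ℝ} {z w : ℂ} (h : z = 0 ∨ Ng φ z) (k : Ng φ w) : Ng φ (z + w) := by
  rcases h with rfl | h
  · rwa [zero_add]
  unfold Ng at *
  rw [map_add, Complex.add_re, Complex.add_im]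
  rcases h with h | ⟨h, h' | ⟨h', h''⟩⟩ <;> rcases k with k | ⟨k, k' | ⟨k', k''⟩⟩
  all_goals first
    | exact Or.inl (by linarith)
    | exact Or.inr ⟨by linarith, Or.inl (by linarith)⟩
    | exact Or.inr ⟨by linarith, Or.inr ⟨by linarith, by linarith⟩⟩

theorem add0 {φ : ℂ →+ ℝ} {z w : ℂ} (h : z = 0 ∨ Ng φ z) (k : w = 0 ∨ Ng φ w) :
    z + w = 0 ∨ Ng φ (z + w) := by
  rcases k with rfl | k
  · rwa [add_zero]
  · exact Or.inr (Ng.add h k)

theorem top {ι : Type} [Fintype ι] (φ : ℂ →+ ℝ) (β : ι → ℂ) (i : ι) :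
    ∃ i0, ∀ j, φ (β j) ≤ φ (β i0) ∧ ∀ n : ℕ, n • (β j - β i0) = 0 ∨ Ng φ (n • (β j - β i0)) := by
  obtain ⟨i0, -, h⟩ := Finset.exists_max_image Finset.univ
    (fun j => toLex (φ (β j), toLex ((β j).re, (β j).im))) ⟨i, Finset.mem_univ i⟩
  refine ⟨i0, fun j => ?_⟩
  have k := h j (Finset.mem_univ j)
  simp only [Prod.Lex.toLex_le_toLex] at k
  refine ⟨k.elim le_of_lt fun k => k.1.le, fun n => ?_⟩
  induction n with
  | zero => exact Or.inl (zero_nsmul _)
  | succ n ih =>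
    rw [succ_nsmul]
    refine add0 ih ?_
    unfold Ng
    rw [map_sub, Complex.sub_re, Complex.sub_im, sub_eq_zero]
    simp only [sub_neg, sub_eq_zero]
    rcases k with k | ⟨k, k' | ⟨k', k''⟩⟩
    · exact Or.inr (Or.inl k)
    · exact Or.inr (Or.inr ⟨k, Or.inl k'⟩)
    · exact k''.eq_or_lt.imp (Complex.ext k') fun l => Or.inr ⟨k, Or.inr ⟨k', l⟩⟩

theorem pw {U : Type} [AddCommGroup U] [Module ℂ U] {A B : End ℂ U} (h : Commute B A) {y : U}
    (hy : B y = 0) (k : ℕ) : ((A - B) ^ k) y = (A ^ k) y := by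
  induction k with
  | zero => rfl
  | succ k ih =>
    rw [pow_succ', pow_succ', End.mul_apply, End.mul_apply, ih, LinearMap.sub_apply,
      ← End.mul_apply B, (h.pow_right k).eq, End.mul_apply, hy, map_zero, sub_zero]

variable {K : Type} [Field K] [Algebra ℂ K]

/-- sums of generalised eigenspaces -/
abbrev W (N : DD K) (P : ℂ → Prop) : Submodule ℂ K :=
  ⨆ ν : {ν // P ν}, (op N).maxGenEigenspace ν.1

theorem W.of {N : DD K} {P : ℂ → Prop} {ν : ℂ} (h : P ν) {u : K}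
    (hu : u ∈ (op N).maxGenEigenspace ν) : u ∈ W N P :=
  Submodule.mem_iSup_of_mem ⟨ν, h⟩ hu

theorem gm (g : GenK) (N : DD K) {α β : ℂ} {u v : K} (hu : u ∈ (op N).maxGenEigenspace α)
    (hv : v ∈ (op N).maxGenEigenspace β) : u * v ∈ (op N).maxGenEigenspace (α + β) :=
  g.bil K K K _ _ _ (LinearMap.mul ℂ K) α β u v (fun u v => by
    simp only [LinearMap.mul_apply', op_apply, Derivation.leibniz, smul_eq_mul]; ring) hu hv

theorem W.mul (g : GenK) {N : DD K} {P Q R : ℂ → Prop} (h : ∀ α β, P α → Q β → R (α + β))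
    {u v : K} (hu : u ∈ W N P) (hv : v ∈ W N Q) : u * v ∈ W N R := by
  refine Submodule.iSup_induction _ (motive := fun u => u * v ∈ W N R) hu (fun α u hu => ?_)
    (by simp) fun a b ha hb => by rw [add_mul]; exact add_mem ha hb
  exact Submodule.iSup_induction _ (motive := fun v => u * v ∈ W N R) hv
    (fun β v hv => W.of (h _ _ α.2 β.2) (gm g N hu hv)) (by simp)
    fun a b ha hb => by rw [mul_add]; exact add_mem ha hb

theorem W.map {N : DD K} {P : ℂ → Prop} {f : End ℂ K} (h : Commute (op N) f) {u : K}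
    (hu : u ∈ W N P) : f u ∈ W N P :=
  Submodule.iSup_induction _ (motive := fun u => f u ∈ W N P) hu
    (fun α _ hu => W.of α.2 (End.mapsTo_maxGenEigenspace_of_comm h _ hu)) (by simp)
    fun a b ha hb => by rw [map_add]; exact add_mem ha hb

theorem com {X Y : DD K} (h : ⁅X, Y⁆ = 0) : Commute (op X) (op Y) :=
  LinearMap.ext fun u => by
    have := congrArg (fun D : DD K => D u) h
    simp only [Derivation.commutator_apply, Derivation.zero_apply, sub_eq_zero] at this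
    exact this

theorem one0 (N : DD K) (c : ℂ) : algebraMap ℂ K c ∈ (op N).maxGenEigenspace 0 :=
  (End.mem_maxGenEigenspace _ _ _).2 ⟨1, by simp⟩

end POSx

open POSx in
theorem pos (g : GenK) (e : S_EIG) : S_POS := by
  intro K ι _ _ _ S E x a hC hL b A μ hb hA hx φ M hM i
  have a0 : ∀ j, (a j : ℂ) ≠ 0 := fun j => Nat.cast_ne_zero.2 (hC.pos j).ne'
  obtain ⟨i0, h0⟩ := top φ (fun j => μ j / a j) i
  set α := μ i0 / a i0 with hα
  by_cases hαA : α ∈ A
  · have : φ (μ i) = a i * φ (μ i / a i) := by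
      rw [← nsmul_eq_mul, ← map_nsmul, nsmul_eq_mul, mul_div_cancel₀ _ (a0 i)]
    rw [this]
    exact mul_le_mul_of_nonneg_left ((h0 i).1.trans (hM _ hαA)) (Nat.cast_nonneg _)
  exfalso
  obtain ⟨b', b1, b2⟩ := hA α hαA
  set N := b E - α • E with hN
  have tm := hC.ev.tm
  have hNT : N ∈ TT S := sub_mem (hb.1 E tm) ((TC S).smul_mem α tm)
  have c1 : ⁅E, b E⁆ = 0 := by rw [hb.2, lie_self, map_zero]
  have c2 : ⁅E, N⁆ = 0 := by rw [hN, lie_sub, c1, lie_smul, lie_self, smul_zero, sub_zero]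
  have hG : ∀ j, x j ∈ (op N).maxGenEigenspace (a j • (μ j / a j - α)) := fun j => by
    obtain ⟨k, hk⟩ := (End.mem_maxGenEigenspace _ _ _).1 (hx j).2
    refine (End.mem_maxGenEigenspace _ _ _).2 ⟨k, ?_⟩
    have e1 : op N - (a j • (μ j / a j - α)) • (1 : End ℂ K) =
        (op (b E) - μ j • 1) - α • (op E - (a j : ℂ) • 1) := by
      rw [nsmul_eq_mul, mul_sub, mul_div_cancel₀ _ (a0 j), show op N = op (b E) - α • op E from rfl]
      module
    rw [e1, pw _ _ k, hk]
    · exact (((com c1).sub_right ((Commute.one_right _).smul_right _)).sub_left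
        ((Commute.one_left _).smul_left _)).smul_left _
    · simp [hC.cx.eig j]
  have hS : ∀ u ∈ S, u ∈ W N fun ν => ν = 0 ∨ Ng φ ν := by
    intro u hu
    rw [← hC.cx.gen] at hu
    induction hu using Algebra.adjoin_induction with
    | mem u hu => obtain ⟨j, rfl⟩ := hu; exact W.of ((h0 j).2 _) (hG j)
    | algebraMap c => exact W.of (Or.inl rfl) (one0 N c)
    | add u v _ _ hu hv => exact add_mem hu hv
    | mul u v _ _ hu hv => exact W.mul g (fun _ _ => add0) hu hv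
  let I : Ideal S :=
    { carrier := {u | (u : K) ∈ W N (Ng φ)}
      add_mem' := fun h h' => (W N (Ng φ)).add_mem h h'
      zero_mem' := zero_mem (W N (Ng φ))
      smul_mem' := fun s _ h => W.mul g (fun _ _ => Ng.add) (hS s s.2) h }
  have hI : ∀ u ∈ S, u ∈ W N (Ng φ) → In I u := fun u hu h => ⟨⟨u, hu⟩, h, rfl⟩
  refine (e K ι S E x a hC N hNT c2 I
    (fun u hu => hI _ (tm u u.2) (W.map (com c2).symm hu))
    (fun u hu => hI _ (hNT u u.2) (W.map (Commute.refl _) hu)) (fun j => ?_)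
    ⟨i0, fun k h => ?_⟩).elim ?_
  rotate_left 2
  · rintro P ⟨p1, p2, ⟨j, p3⟩, p4⟩
    obtain ⟨p, q1, q2⟩ := hL P p1 p2 N hNT p4 (dd (x j) ∘ₗ b')
      fun D hD => b1 D hD _ (hC.bas.mem j)
    rw [LinearMap.comp_apply, b2, dd_apply, hC.cx.eig j] at q2
    refine p3 ⟨(a j : ℂ)⁻¹ • p, Submodule.smul_of_tower_mem P _ q1, ?_⟩
    rw [Subalgebra.coe_smul, ← q2, smul_smul, inv_mul_cancel₀ (a0 j), one_smul]
  · rcases (h0 j).2 (a j) with h | h
    · have := hG j
      rw [h] at this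
      obtain ⟨k, hk⟩ := (End.mem_maxGenEigenspace _ _ _).1 this
      rw [zero_smul, sub_zero] at hk
      exact ⟨k, 0, zero_mem I, hk⟩
    · exact ⟨0, hI _ (hC.bas.mem j) (W.of h (hG j))⟩
  · have z0 := hG i0
    rw [sub_self, smul_zero] at z0
    have z1 : ∀ k : ℕ, x i0 ^ k ∈ (op N).maxGenEigenspace 0 := fun k => by
      induction k with
      | zero => simpa using one0 N 1
      | succ k ih => simpa only [pow_succ, add_zero] using gm g N ih z0
    obtain ⟨p, q1, q2⟩ := h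
    have le : W N (Ng φ) ≤ ⨆ (ν : ℂ) (_ : ν ≠ 0), (op N).maxGenEigenspace ν :=
      iSup_le fun ν => le_iSup₂_of_le ν.1 (fun l => by
        have := ν.2
        rw [l] at this
        simp [Ng] at this) le_rfl
    exact pow_ne_zero k (hx i0).1 (Submodule.disjoint_def.1
      (End.independent_maxGenEigenspace (op N) 0) _ (z1 k) (q2 ▸ le q1))

end Pool.Agent.MP_51db15_ag.Qh
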