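import Pool.Agent.MP_51db15_ag.Qh.Spec

/-! PROJECT QH, row RAD: the graded radical is nilpotent on the fibre at the vertex. -/

namespace Pool.Agent.MP_51db15_ag.Qh

open Module

noncomputable section

namespace RADx

section Abs

variable {R M : Type} [Ring R] [Algebra ℂ R] [AddCommGroup M] [Module ℂ M]

/-- the abstract data -/
structure Dat (ρ : R →ₗ[ℂ] End ℂ M) (A : Subalgebra ℂ R) (Δ : End ℂ R) (δ : End ℂ M) : Prop where
  one : ρ 1 = 1
  mul : ∀ a b, ρ (a * b) = ρ a * ρ b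
  der : ∀ a v, δ (ρ a v) = ρ (Δ a) v + ρ a (δ v)
  dm : ∀ a ∈ A, Δ a ∈ A
  dz : Dz Δ (Subalgebra.toSubmodule A)

/-- stable subspaces -/
def St (ρ : R →ₗ[ℂ] End ℂ M) (A : Subalgebra ℂ R) (δ : End ℂ M) (U : Submodule ℂ M) : Prop :=
  (∀ a ∈ A, ∀ v ∈ U, ρ a v ∈ U) ∧ ∀ v ∈ U, δ v ∈ U

variable {ρ : R →ₗ[ℂ] End ℂ M} {A : Subalgebra ℂ R} {Δ : End ℂ R} {δ : End ℂ M}

theorem Dat.pow (h : Dat ρ A Δ δ) (a : R) (k : ℕ) : ρ (a ^ k) = ρ a ^ k := by
  induction k with
  | zero => simpa using h.one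
  | succ k ih => rw [pow_succ, pow_succ, h.mul, ih]

theorem Dat.wt (h : Dat ρ A Δ δ) {a : R} {v : M} {l n : ℂ} (ha : Δ a = l • a)
    (hv : δ v = n • v) : δ (ρ a v) = (l + n) • ρ a v := by
  rw [h.der, ha, hv, map_smul, map_smul, LinearMap.smul_apply, add_smul]

theorem Dat.split (h : Dat ρ A Δ δ) {w : M} {l n : ℂ} (hw : δ w = (l + n) • w) {b : R}
    (hb : b ∈ A) : ∃ b0 ∈ A, Δ b0 = (-l) • b0 ∧
      ρ b0 w - ρ b w ∈ ⨆ (c' : ℂ) (_ : c' ≠ n), δ.eigenspace c' := by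
  refine Submodule.iSup_induction _ (motive := fun b => ∃ b0 ∈ A, Δ b0 = (-l) • b0 ∧
      ρ b0 w - ρ b w ∈ ⨆ (c' : ℂ) (_ : c' ≠ n), δ.eigenspace c') (h.dz b hb) ?_ ?_ ?_
  · intro k b hb
    have h1 : Δ b = (k : ℂ) • b := End.mem_eigenspace_iff.1 hb.2
    by_cases e : (k : ℂ) = -l
    · exact ⟨b, hb.1, e ▸ h1, by simp⟩
    · refine ⟨0, A.zero_mem, by simp, ?_⟩
      rw [map_zero, LinearMap.zero_apply, zero_sub]
      refine neg_mem (Submodule.mem_iSup_of_mem ((k : ℂ) + (l + n))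
        (Submodule.mem_iSup_of_mem (fun e' => e (by linear_combination e')) ?_))
      exact End.mem_eigenspace_iff.2 (h.wt h1 hw)
  · exact ⟨0, A.zero_mem, by simp, by simp⟩
  · rintro b b' ⟨c, h1, h2, h3⟩ ⟨c', h1', h2', h3'⟩
    refine ⟨c + c', A.add_mem h1 h1', by rw [map_add, h2, h2', smul_add], ?_⟩
    convert add_mem h3 h3' using 1
    simp only [map_add, LinearMap.add_apply]
    abel

theorem Dat.step (g : GenK) (h : Dat ρ A Δ δ) {U U' : Submodule ℂ M} (hU : St ρ A δ U)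
    (hU' : St ρ A δ U') (hz : Dz δ U) (hle : U' ≤ U)
    (hmax : ∀ W, St ρ A δ W → U' < W → W ≤ U → W = U) {f : R} (hf : f ∈ A) {l : ℂ}
    (hl : Δ f = l • f) (hn : ∀ b ∈ A, Δ b = (-l) • b → IsNilpotent (b * f)) :
    ∀ v ∈ U, ρ f v ∈ U' := by
  intro v hv
  refine Submodule.iSup_induction _ (motive := fun v => ρ f v ∈ U') (hz v hv) ?_ (by simp)
    (fun a b ha hb => by rw [map_add]; exact add_mem ha hb)
  intro n u hu
  have h1 : δ u = (n : ℂ) • u := End.mem_eigenspace_iff.1 hu.2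
  have h2 := h.wt hl h1
  by_contra hc
  let ev : R →ₗ[ℂ] M := (LinearMap.applyₗ (ρ f u)).comp ρ
  have hev : ∀ a, ev a = ρ a (ρ f u) := fun _ => rfl
  let W : Submodule ℂ M := U' ⊔ (Subalgebra.toSubmodule A).map ev
  have mW : ∀ w, w ∈ W ↔ ∃ y ∈ U', ∃ a ∈ A, y + ρ a (ρ f u) = w := fun w => by
    rw [Submodule.mem_sup]
    constructor
    · rintro ⟨y, hy, _, ⟨a, ha, rfl⟩, e⟩
      exact ⟨y, hy, a, ha, e⟩
    · rintro ⟨y, hy, a, ha, e⟩
      exact ⟨y, hy, _, ⟨a, ha, rfl⟩, e⟩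
  have hW : St ρ A δ W := by
    refine ⟨fun c hc w hw => ?_, fun w hw => ?_⟩
    · obtain ⟨y, hy, a, ha, rfl⟩ := (mW w).1 hw
      exact (mW _).2 ⟨_, hU'.1 c hc y hy, c * a, A.mul_mem hc ha, by
        rw [h.mul, map_add, End.mul_apply]⟩
    · obtain ⟨y, hy, a, ha, rfl⟩ := (mW w).1 hw
      refine (mW _).2 ⟨_, hU'.2 y hy, Δ a + (l + n) • a,
        A.add_mem (h.dm a ha) (A.smul_mem ha _), ?_⟩
      rw [map_add δ, h.der a, h2, map_add, map_smul, map_smul, LinearMap.add_apply,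
        LinearMap.smul_apply]
  have hfW : ρ f u ∈ W := (mW _).2 ⟨0, zero_mem _, 1, A.one_mem, by rw [h.one]; simp⟩
  have hWU : W = U := hmax W hW (lt_of_le_of_ne le_sup_left fun e => hc (e ▸ hfW)) fun w hw => by
    obtain ⟨y, hy, a, ha, rfl⟩ := (mW w).1 hw
    exact add_mem (hle hy) (hU.1 a ha _ (hU.1 f hf u hu.1))
  obtain ⟨y, hy, b, hb, e⟩ := (mW u).1 (hWU ▸ hu.1)
  obtain ⟨b0, hb0, h3, h4⟩ := h.split h2 hb
  have h5 : u - ρ b0 (ρ f u) ∈ U' := by
    refine g.cmp M δ U' n _ _ hU'.2 ?_ h4 ?_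
    · rw [map_sub, h.wt h3 h2, h1, smul_sub]
      congr 2
      ring
    · convert hy using 1
      rw [eq_sub_of_add_eq e]
      abel
  obtain ⟨k, hk⟩ := hn b0 hb0 h3
  have h6 : ∀ j : ℕ, u - ρ ((b0 * f) ^ j) u ∈ U' := fun j => by
    induction j with
    | zero => rw [pow_zero, h.one]; simp
    | succ j ih =>
      convert add_mem h5 (hU'.1 _ (A.mul_mem hb0 hf) _ ih) using 1
      rw [pow_succ', h.mul (b0 * f), h.mul b0 f, map_sub]
      simp only [End.mul_apply]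
      abel
  have h7 := h6 k
  rw [hk, map_zero, LinearMap.zero_apply, sub_zero] at h7
  exact hc (hU'.1 f hf u h7)

theorem Dat.main (g : GenK) (h : Dat ρ A Δ δ) {L m : Submodule ℂ M} (hz : Dz δ L)
    (hm : St ρ A δ m) [FiniteDimensional ℂ (L.map m.mkQ)] {N : R}
    (hN : N ∈ Submodule.span ℂ {f : R | f ∈ A ∧ ∃ l : ℂ, Δ f = l • f ∧
      ∀ b ∈ A, Δ b = (-l) • b → IsNilpotent (b * f)}) (d : ℕ) :
    ∀ U, St ρ A δ U → m ≤ U → U ≤ L → finrank ℂ (U.map m.mkQ) = d →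
      ∃ n : ℕ, ∀ v ∈ U, ρ (N ^ n) v ∈ m := by
  have lt : ∀ U W : Submodule ℂ M, m ≤ U → U < W → W ≤ L →
      finrank ℂ (U.map m.mkQ) < finrank ℂ (W.map m.mkQ) := fun U W h1 h2 h3 => by
    have := Submodule.finiteDimensional_of_le (Submodule.map_mono (f := m.mkQ) h3)
    refine Submodule.finrank_lt_finrank_of_lt (lt_of_le_of_ne (Submodule.map_mono h2.le)
      fun e => h2.ne ?_)
    have e' := congrArg (Submodule.comap m.mkQ) e
    rwa [Submodule.comap_map_mkQ, Submodule.comap_map_mkQ, sup_eq_right.2 h1,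
      sup_eq_right.2 (h1.trans h2.le)] at e'
  induction d using Nat.strong_induction_on with
  | _ d ih =>
    intro U hU h1 h2 h3
    rcases h1.eq_or_lt with e | e
    · exact ⟨0, fun v hv => by rw [pow_zero, h.one]; exact e ▸ hv⟩
    obtain ⟨U', ⟨a1, a2, a3⟩, hmin⟩ := (measure fun W : Submodule ℂ M =>
      d - finrank ℂ (W.map m.mkQ)).wf.has_min {W | St ρ A δ W ∧ m ≤ W ∧ W < U} ⟨m, hm, le_rfl, e⟩
    have hmax : ∀ W, St ρ A δ W → U' < W → W ≤ U → W = U := fun W b1 b2 b3 => by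
      by_contra b4
      have b5 := lt_of_le_of_ne b3 b4
      have c1 := lt U' W a2 b2 (b3.trans h2)
      have c2 := lt W U (a2.trans b2.le) b5 h2
      refine hmin W ⟨b1, a2.trans b2.le, b5⟩ ?_
      show d - finrank ℂ (W.map m.mkQ) < d - finrank ℂ (U'.map m.mkQ)
      omega
    obtain ⟨n, hn⟩ := ih _ (h3 ▸ lt U' U a2 a3 h2) U' a1 a2 (a3.le.trans h2) rfl
    refine ⟨n + 1, fun v hv => ?_⟩
    rw [pow_succ, h.mul, End.mul_apply]
    refine hn _ ?_
    clear hn ih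
    induction hN using Submodule.span_induction with
    | mem f hf =>
      obtain ⟨f1, l, f2, f3⟩ := hf
      exact h.step g hU a1 (g.sub M δ L U hz h2 hU.2) a3.le hmax f1 f2 f3 v hv
    | zero => simp
    | add a b _ _ ha hb => rw [map_add]; exact add_mem ha hb
    | smul c a _ ha => rw [map_smul]; exact U'.smul_mem c ha

end Abs

section Mod

variable {S M : Type} [CommRing S] [SMul ℂ S] [AddCommGroup M] [Module ℂ M] [Module S M]
  [IsScalarTower ℂ S M]

theorem fin (L : Submodule S M) (hL : L.FG) (I : Ideal S)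
    (hc : ∀ r : S, ∃ c : ℂ, ∃ b ∈ I, ∀ w : M, r • w = c • w + b • w) :
    FiniteDimensional ℂ ((L.restrictScalars ℂ).map ((I • L).restrictScalars ℂ).mkQ) := by
  obtain ⟨t, ht⟩ := hL
  set m := (I • L).restrictScalars ℂ with hm
  have := FiniteDimensional.span_of_finite ℂ (t.finite_toSet.image m.mkQ)
  refine Submodule.finiteDimensional_of_le (S₂ := Submodule.span ℂ (m.mkQ '' (t : Set M))) ?_
  rintro _ ⟨v, hv', rfl⟩
  have h1 : v ∈ Submodule.span S (t : Set M) := ht ▸ hv'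
  clear hv'
  induction h1 using Submodule.span_induction with
  | mem w hw => exact Submodule.subset_span ⟨w, hw, rfl⟩
  | zero => simp
  | add a b _ _ ha hb => rw [map_add]; exact add_mem ha hb
  | smul r w hw ih =>
    obtain ⟨c, b, hb, e⟩ := hc r
    have h2 := e w
    have h4 : b • w ∈ I • L := Submodule.smul_mem_smul hb (by rw [← ht]; exact hw)
    have h5 : b • w ∈ m := by rw [hm, Submodule.restrictScalars_mem]; exact h4
    have h3 : m.mkQ (b • w) = 0 := (Submodule.Quotient.mk_eq_zero m).2 h5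
    rw [h2, map_add, h3, add_zero, map_smul]
    exact Submodule.smul_mem _ c ih

theorem stab (L : Submodule S M) (I : Ideal S) (T : End ℂ M) (hT : ∀ w ∈ L, T w ∈ L)
    (h : ∀ r ∈ I, ∃ s ∈ I, ∀ w, T (r • w) = r • T w + s • w) :
    ∀ v ∈ (I • L).restrictScalars ℂ, T v ∈ (I • L).restrictScalars ℂ := by
  intro v hv
  rw [Submodule.restrictScalars_mem] at hv ⊢
  refine Submodule.smul_induction_on (p := fun v => T v ∈ I • L) hv
    (fun r hr w hw => ?_) (fun v w h1 h2 => by rw [map_add]; exact add_mem h1 h2)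
  obtain ⟨s, hs, e⟩ := h r hr
  rw [e]
  exact add_mem (Submodule.smul_mem_smul hr (hT w hw)) (Submodule.smul_mem_smul hs hw)

end Mod

variable {K : Type} [Field K] [Algebra ℂ K]

/-- endomorphisms as complex linear maps -/
def rho : EE K →ₗ[ℂ] End ℂ (MM K) where
  toFun a := { toFun := a, map_add' := map_add a, map_smul' := lin_c a }
  map_add' _ _ := LinearMap.ext fun _ => rfl
  map_smul' _ _ := LinearMap.ext fun _ => rfl

theorem rho_apply (a : EE K) (v : MM K) : rho a v = a v := rfl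

theorem sm_eq {S : Subalgebra ℂ K} (r : S) (w : MM K) : r • w = (r : K) • w :=
  (algebraMap_smul K r w).symm

theorem dat {S : Subalgebra ℂ K} {E : DD K} (h : Ev S E) :
    Dat (R := EE K) rho (EI S) (del E) (lam E) where
  one := LinearMap.ext fun _ => rfl
  mul _ _ := LinearMap.ext fun _ => rfl
  der a v := by rw [rho_apply, rho_apply, rho_apply, del_apply, sub_add_cancel]
  dm _ ha := del_mem h.tm ha
  dz := h.E

end RADx

open RADx in
theorem rad (g : GenK) : S_RAD := by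
  intro K ι _ _ _ S E x a hC N hN
  have hm : St (R := EE K) rho (EI S) (lam E) ((vx S x • LL S).restrictScalars ℂ) := by
    refine ⟨fun b hb => stab (LL S) (vx S x) (rho b) hb fun r hr => ⟨0, zero_mem _, fun w => ?_⟩,
      stab (LL S) (vx S x) (lam E) (fun w hw => lam_mem hC.ev.tm hw) fun r hr => ?_⟩
    · rw [zero_smul, add_zero, sm_eq, sm_eq, rho_apply, rho_apply, map_smul]
    · obtain ⟨s, hs, e⟩ := hC.vtx.pos r r.2
      exact ⟨s, hs, fun w => by rw [sm_eq, sm_eq, sm_eq, lam_smul, e]⟩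
  have := fin (LL S) (hC.bas.fgT.prod hC.bas.fgD) (vx S x) fun r => by
    obtain ⟨c, b, hb, e⟩ := hC.vtx.cst r r.2
    refine ⟨c, b, hb, fun w => ?_⟩
    rw [sm_eq, sm_eq, eq_add_of_sub_eq e, add_smul, algebraMap_smul, add_comm]
  exact (dat hC.ev).main g hC.ev.L hm hN _ (LC S)
    ⟨fun b hb v hv => hb v hv, fun v hv => lam_mem hC.ev.tm hv⟩
    (fun v hv => Submodule.smul_le_right (I := vx S x) (N := LL S) hv) le_rfl rfl

end

end Pool.Agent.MP_51db15_ag.Qh
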