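import Pool.Agent.MP_51db15_ag.Qh.Spec

namespace Pool.Agent.MP_51db15_ag.Qh

namespace RATx

open Module

theorem exq (F : Finset ℂ) (φ : ℂ →+ ℝ) (h : ∀ z ∈ F, 0 < φ z) :
    ∃ ψ : ℂ →ₗ[ℚ] ℚ, ∀ z ∈ F, 0 < ψ z := by
  classical
  let b := Basis.ofVectorSpace ℚ ℂ
  let T := F.biUnion fun z => (b.repr z).support
  let g : ℂ → (T → ℝ) → ℝ := fun z q => ∑ i : T, ((b.repr z i.1 : ℚ) : ℝ) * q i
  have hc : ∀ z, Continuous (g z) := fun z =>
    continuous_finsetSum _ fun i _ => continuous_const.mul (continuous_apply i)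
  have hU : IsOpen {q : T → ℝ | ∀ z ∈ F, 0 < g z q} := by
    have : {q : T → ℝ | ∀ z ∈ F, 0 < g z q} = ⋂ z ∈ F, {q | 0 < g z q} := by
      ext q; simp
    rw [this]
    exact isOpen_biInter_finset fun z _ => isOpen_lt continuous_const (hc z)
  have h0 : (fun i : T => φ (b i.1)) ∈ {q : T → ℝ | ∀ z ∈ F, 0 < g z q} := by
    intro z hz
    have e1 : z = ∑ i ∈ T, (b.repr z i) • b i := by
      conv_lhs => rw [← b.linearCombination_repr z, Finsupp.linearCombination_apply]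
      exact Finsupp.sum_of_support_subset _ (Finset.subset_biUnion_of_mem
        (fun z => (b.repr z).support) hz) _ (fun i _ => zero_smul _ _)
    have e2 : φ z = g z fun i : T => φ (b i.1) := by
      conv_lhs => rw [e1]
      rw [map_sum, ← Finset.sum_coe_sort]
      refine Finset.sum_congr rfl fun i _ => ?_
      rw [map_rat_smul, Rat.smul_def]
    rw [← e2]
    exact h z hz
  have hd : DenseRange (Pi.map fun (_ : T) => ((↑) : ℚ → ℝ)) :=
    DenseRange.piMap fun _ => Rat.denseRange_cast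
  obtain ⟨q, hq⟩ := hd.exists_mem_open hU ⟨_, h0⟩
  refine ⟨∑ i : T, q i • b.coord i.1, fun z hz => ?_⟩
  have := hq z hz
  have e3 : (((∑ i : T, q i • b.coord i.1) z : ℚ) : ℝ) =
      g z (Pi.map (fun (_ : T) => ((↑) : ℚ → ℝ)) q) := by
    simp only [LinearMap.sum_apply, LinearMap.smul_apply, Basis.coord_apply, smul_eq_mul, g,
      Pi.map_apply]
    push_cast
    exact Finset.sum_congr rfl fun i _ => mul_comm _ _
  rw [← e3] at this
  exact_mod_cast this

theorem den (G : Finset ℂ) (ψ : ℂ → ℚ) :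
    ∃ N : ℕ, 0 < N ∧ ∀ z ∈ G, ∃ n : ℤ, (N : ℚ) * ψ z = n := by
  refine ⟨∏ z ∈ G, (ψ z).den, Finset.prod_pos fun z _ => (ψ z).den_pos, fun z hz => ?_⟩
  obtain ⟨k, hk⟩ := Finset.dvd_prod_of_mem (fun z => (ψ z).den) hz
  refine ⟨k * (ψ z).num, ?_⟩
  rw [hk]
  push_cast
  rw [← Rat.den_mul_eq_num (ψ z)]
  ring

end RATx

theorem rat : S_RAT := by
  classical
  intro F F' φ h
  obtain ⟨ψ, hψ⟩ := RATx.exq F φ h
  obtain ⟨N, hN, hz⟩ := RATx.den (F ∪ F') ψ
  let l : ℂ →+ ℂ :=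
    { toFun := fun z => (((N : ℚ) * ψ z : ℚ) : ℂ)
      map_zero' := by simp
      map_add' := fun a b => by rw [map_add, mul_add, Rat.cast_add] }
  have hl : ∀ z (n : ℤ), (N : ℚ) * ψ z = n → l z = n := fun z n e => by
    show (((N : ℚ) * ψ z : ℚ) : ℂ) = n
    rw [e, Rat.cast_intCast]
  refine ⟨l, fun z hz' => ?_, fun z hz' => ?_⟩
  · obtain ⟨n, hn⟩ := hz z (Finset.mem_union_left _ hz')
    have hp : (0 : ℚ) < n := hn ▸ mul_pos (Nat.cast_pos.2 hN) (hψ z hz')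
    have hp' : 0 < n := by exact_mod_cast hp
    refine ⟨n.toNat, by omega, ?_⟩
    rw [hl z n hn]
    have : ((n.toNat : ℤ)) = n := Int.toNat_of_nonneg hp'.le
    exact_mod_cast congrArg (fun m : ℤ => (m : ℂ)) this.symm
  · obtain ⟨n, hn⟩ := hz z (Finset.mem_union_right _ hz')
    exact ⟨n, hl z n hn⟩

end Pool.Agent.MP_51db15_ag.Qh
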