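import Pool.Agent.MP_51db15_ag.Qh.Spec

/-! PROJECT QH, row SCA: the scaling homomorphism. -/

namespace Pool.Agent.MP_51db15_ag.Qh

open Module Polynomial

namespace SCAx

variable {K : Type} [Field K] [Algebra ℂ K] (t : DD K)

/-- the coefficients are eigenvectors -/
def Q (f : K[X]) : Prop := ∀ n : ℕ, t (f.coeff n) = (n : ℂ) • f.coeff n

variable {t}

theorem Q_mono {n : ℕ} {g : K} (h : t g = (n : ℂ) • g) : Q t (monomial n g) := fun k => by
  rw [coeff_monomial]
  split_ifs with e
  · rw [← e, h]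
  · rw [map_zero, smul_zero]

theorem Q_add {f g : K[X]} (hf : Q t f) (hg : Q t g) : Q t (f + g) := fun k => by
  rw [coeff_add, map_add, hf k, hg k, smul_add]

theorem Q_sub {f g : K[X]} (hf : Q t f) (hg : Q t g) : Q t (f - g) := fun k => by
  rw [coeff_sub, map_sub, hf k, hg k, smul_sub]

theorem Q_mul {f g : K[X]} (hf : Q t f) (hg : Q t g) : Q t (f * g) := fun k => by
  rw [coeff_mul, map_sum, Finset.smul_sum]
  refine Finset.sum_congr rfl fun p hp => ?_
  rw [Derivation.leibniz, hf, hg, ← Finset.HasAntidiagonal.mem_antidiagonal.1 hp, Nat.cast_add,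
    add_smul, smul_eq_mul, smul_eq_mul, mul_smul_comm, mul_smul_comm, mul_comm (g.coeff p.2), add_comm]

theorem Q_zero {f : K[X]} (hf : Q t f) (h : f.eval 1 = 0) : f = 0 := by
  have li := Module.End.eigenvectors_linearIndependent' (op t) (fun n : f.support => ((n : ℕ) : ℂ))
    (fun n k e => Subtype.ext (Nat.cast_injective e)) (fun n => f.coeff n) fun n =>
      ⟨Module.End.mem_eigenspace_iff.2 (hf n), mem_support_iff.1 n.2⟩
  by_contra k
  obtain ⟨n, hn⟩ := support_nonempty.2 k
  refine one_ne_zero (Fintype.linearIndependent_iff.1 li (fun _ => 1) ?_ ⟨n, hn⟩)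
  simp only [one_smul]
  rw [Finset.sum_coe_sort f.support fun n => f.coeff n]
  simpa only [eval_eq_sum, Polynomial.sum, one_pow, mul_one] using h

end SCAx

open SCAx in
theorem sca : S_SCA := by
  intro K ι _ _ _ S t x a hc hb _
  let m : MvPolynomial ι ℂ →ₐ[ℂ] K[X] := MvPolynomial.aeval fun i => monomial (a i) (x i)
  have h1 : ∀ p, Q t (m p) := fun p => by
    induction p using MvPolynomial.induction_on with
    | C c =>
      rw [MvPolynomial.algHom_C, Polynomial.algebraMap_apply, ← monomial_zero_left]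
      exact Q_mono (by simp)
    | add p q hp hq => rw [map_add]; exact Q_add hp hq
    | mul_X p i hp =>
      rw [map_mul, MvPolynomial.aeval_X]
      exact Q_mul hp (Q_mono (hc.eig i))
  have h2 : ∀ p, (m p).eval 1 = MvPolynomial.aeval x p := fun p => by
    induction p using MvPolynomial.induction_on with
    | C c => rw [MvPolynomial.algHom_C, MvPolynomial.algHom_C, Polynomial.algebraMap_apply, eval_C]
    | add p q hp hq => rw [map_add, map_add, eval_add, hp, hq]
    | mul_X p i hp =>
      rw [map_mul, map_mul, MvPolynomial.aeval_X, MvPolynomial.aeval_X, eval_mul, hp,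
        eval_monomial, one_pow, mul_one]
  have hr : (MvPolynomial.aeval x : MvPolynomial ι ℂ →ₐ[ℂ] K).range = S :=
    (Algebra.adjoin_range_eq_range_aeval ℂ x).symm.trans hc.gen
  let π : MvPolynomial ι ℂ →ₐ[ℂ] S :=
    (MvPolynomial.aeval x).codRestrict S fun p => hr ▸ AlgHom.mem_range_self _ p
  have hπ : Function.Surjective π := fun g => by
    obtain ⟨p, hp⟩ : (g : K) ∈ (MvPolynomial.aeval x : MvPolynomial ι ℂ →ₐ[ℂ] K).range :=
      hr.symm ▸ g.2
    exact ⟨p, Subtype.ext hp⟩
  refine ⟨AlgHom.liftOfSurjective π hπ m fun p hp =>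
    Q_zero (h1 p) ((h2 p).trans (congrArg Subtype.val hp)), fun g n hg => ?_⟩
  obtain ⟨p, rfl⟩ := hπ g
  rw [AlgHom.liftOfSurjective_apply]
  refine sub_eq_zero.1 (Q_zero (Q_sub (h1 p) (Q_mono hg)) ?_)
  rw [eval_sub, h2, eval_monomial, one_pow, mul_one]
  exact sub_self _

end Pool.Agent.MP_51db15_ag.Qh
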