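import Pool.Agent.MP_51db15_ag.Qh.Spec
import Pool.Agent.MP_51db15_ag.Hy.MINP

/-! Row SEQ: a system of parameters adapted to a locally nilpotent field. -/

namespace Pool.Agent.MP_51db15_ag.Qh

namespace SEQx

section Ring

variable {A : Type} [CommRing A]

/-- the ideal of the first `M` parameters -/
def J (f : ℕ → A) (M : ℕ) : Ideal A := Ideal.span (f '' {i | i < M})

theorem J_zero (f : ℕ → A) : J f 0 = ⊥ := by simp [J]

theorem J_succ (f : ℕ → A) (M : ℕ) : J f (M + 1) = J f M ⊔ Ideal.span {f M} := by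
  have : {i | i < M + 1} = {i | i < M} ∪ {M} := by
    ext i
    simp only [Set.mem_ofPred_eq, Set.mem_union, Set.mem_singleton_iff]
    omega
  rw [J, this, Set.image_union, Ideal.span_union, Set.image_singleton, J]

theorem J_congr {f g : ℕ → A} {M : ℕ} (h : ∀ i < M, f i = g i) : J f M = J g M := by
  have : f '' {i | i < M} = g '' {i | i < M} := Set.image_congr fun i hi => h i hi
  rw [J, J, this]

theorem rad_stable [Algebra ℚ A] {D : A →+ A} (hD : Leib D) {I : Ideal A}
    (hI : ∀ a ∈ I, D a ∈ I) : ∀ a ∈ I.radical, D a ∈ I.radical := by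
  intro a ha
  rw [← Ideal.sInf_minimalPrimes, Ideal.mem_sInf] at ha ⊢
  intro Q hQ
  exact Hy.minp A D I Q hD hI hQ a (ha hQ)

theorem stable [Algebra ℚ A] {D : A →+ A} (hD : Leib D) (f : ℕ → A) (M : ℕ)
    (h : ∀ j < M, D (f j) ∈ (J f j).radical ⊔ Ideal.span {f j}) :
    ∀ a ∈ (J f M).radical, D a ∈ (J f M).radical := by
  induction M with
  | zero =>
    refine rad_stable hD fun a ha => ?_
    rw [J_zero, Ideal.mem_bot] at ha
    simp [ha]
  | succ M ih =>
    have e : (J f (M + 1)).radical = ((J f M).radical ⊔ Ideal.span {f M}).radical := by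
      rw [J_succ, Ideal.radical_sup (J f M).radical, Ideal.radical_idem, ← Ideal.radical_sup]
    rw [e]
    refine rad_stable hD fun a ha => ?_
    obtain ⟨y, hy, z, hz, rfl⟩ := Submodule.mem_sup.1 ha
    obtain ⟨c, rfl⟩ := Ideal.mem_span_singleton'.1 hz
    rw [map_add, hD]
    refine add_mem (Ideal.mem_sup_left (ih (fun j hj => h j (by omega)) y hy)) (add_mem ?_ ?_)
    · exact Ideal.mul_mem_left _ _ (h M (by omega))
    · exact Ideal.mul_mem_right _ _ (Ideal.mem_sup_right (Ideal.mem_span_singleton_self _))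

end Ring

variable {K : Type} [Field K] [Algebra ℂ K] {S : Subalgebra ℂ K}

/-- restriction of a regular field -/
def res (D : DD K) (hD : D ∈ TT S) : S →+ S where
  toFun g := ⟨D g, hD g g.2⟩
  map_zero' := Subtype.ext (by simp)
  map_add' g h := Subtype.ext (by simp)

theorem res_leib (D : DD K) (hD : D ∈ TT S) : Leib (res D hD) := fun a b =>
  Subtype.ext (by simp [res])

theorem in_iff {D : DD K} (hD : D ∈ TT S) (I : Ideal S) (g : S) :
    In I (D g) ↔ res D hD g ∈ I := by
  refine ⟨?_, fun h => ⟨_, h, rfl⟩⟩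
  rintro ⟨b, hb, e⟩
  have : res D hD g = b := Subtype.ext e
  rwa [this]

/-- the state -/
def Good (E N : DD K) (M : ℕ) (f : ℕ → S) (d : ℕ → ℕ) : Prop :=
  ∀ j < M, (0 < d j ∧ E (f j) = (d j : ℂ) • (f j : K)) ∧ In (J f j).radical (N (f j)) ∧
    ∀ P ∈ (J f j).minimalPrimes, f j ∉ P

end SEQx

open SEQx in
theorem seq (s : S_STEP) : S_SEQ := by
  classical
  intro K ι _ _ _ S E x a C N hN hEN hx
  let _ : Algebra ℚ S := ((algebraMap ℂ S).comp (algebraMap ℚ ℂ)).toAlgebra
  have hE : E ∈ TT S := C.ev.tm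
  have hno : IsNoetherian S S := C.bas.noeth
  obtain ⟨_, ⟨M, f, d, hG, rfl⟩, hmax⟩ := set_has_maximal_iff_noetherian.2 hno
    {I : Ideal S | ∃ M f d, Good E N M f d ∧ I = (J f M).radical}
    ⟨_, 0, fun _ => 0, fun _ => 0, fun j hj => absurd hj (Nat.not_lt_zero j), rfl⟩
  refine ⟨M, f, d, fun j hj => (hG j hj).1, ?_, fun j hj => (hG j hj).2.1,
    fun j hj => (hG j hj).2.2⟩
  by_contra hcon
  have hres : ∀ j < M, res E hE (f j) = algebraMap ℂ S (d j) * f j := fun j hj =>
    Subtype.ext (by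
      have := (hG j hj).1.2
      simpa [res, Algebra.smul_def] using this)
  have hvx : J f M ≤ vx S x := by
    rw [J, Ideal.span_le]
    rintro _ ⟨j, hj, rfl⟩
    have h1 := (in_iff hE _ _).1 (C.vtx.pos (f j) (f j).2)
    rw [hres j hj] at h1
    have hu : IsUnit (algebraMap ℂ S (d j)) :=
      (isUnit_iff_ne_zero.2 (Nat.cast_ne_zero.2 (hG j hj).1.1.ne')).map _
    exact (Ideal.unit_mul_mem_iff_mem _ hu).1 h1
  have htop : (J f M).radical ≠ ⊤ := fun h =>
    C.vtx.max.ne_top (top_le_iff.1 (Ideal.radical_eq_top.1 h ▸ hvx))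
  have sE := stable (res_leib E hE) f M fun j hj => by
    rw [hres j hj]
    exact Ideal.mul_mem_left _ _ (Ideal.mem_sup_right (Ideal.mem_span_singleton_self _))
  have sN := stable (res_leib N hN) f M fun j hj =>
    Ideal.mem_sup_left ((in_iff hN _ _).1 (hG j hj).2.1)
  obtain ⟨g, e, he, hEg, hNg, hP⟩ := s K ι S E x a C N hN hEN hx (J f M).radical
    (Ideal.radical_isRadical _) htop (fun g hg => (in_iff hE _ _).2 (sE g hg))
    (fun g hg => (in_iff hN _ _).2 (sN g hg)) (not_forall.1 hcon)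
  have hJ : ∀ j ≤ M, J (Function.update f M g) j = J f j := fun j hj =>
    J_congr fun i hi => Function.update_of_ne (by omega) _ _
  refine hmax _ ⟨M + 1, Function.update f M g, Function.update d M e, fun j hj => ?_, rfl⟩ ?_
  · rw [hJ j (by omega)]
    by_cases h : j = M
    · subst h
      rw [Function.update_self, Function.update_self]
      exact ⟨⟨he, hEg⟩, hNg, fun P hP' => hP P (by rwa [Ideal.radical_minimalPrimes])⟩
    · rw [Function.update_of_ne h, Function.update_of_ne h]
      exact hG j (by omega)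
  · rw [J_succ, hJ M le_rfl, Function.update_self]
    refine lt_of_le_of_ne (Ideal.radical_mono le_sup_left) fun h => ?_
    obtain ⟨m, hm, hle⟩ := Ideal.exists_le_maximal _ htop
    obtain ⟨P, hP1, -⟩ := Ideal.exists_minimalPrimes_le (J := m) hle
    refine hP P hP1 (hP1.1.2 ?_)
    rw [h]
    exact Ideal.le_radical (Ideal.mem_sup_right (Ideal.mem_span_singleton_self _))

end Pool.Agent.MP_51db15_ag.Qh
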