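import Pool.Agent.MP_51db15_ag.Qh.Spec

/-! The scaling automorphisms act on homogeneous forms by scalars. -/

namespace Pool.Agent.MP_51db15_ag.Qh

open Module

namespace SIGx

theorem dz_ind {U : Type} [AddCommGroup U] [Module ℂ U] {δ : End ℂ U} {H : Submodule ℂ U}
    (h : Dz δ H) (p : U → Prop) (h0 : p 0) (ha : ∀ u v, p u → p v → p (u + v))
    (hh : ∀ u ∈ H, ∀ n : ℤ, δ u = (n : ℂ) • u → p u) : ∀ u ∈ H, p u := fun u hu =>
  Submodule.iSup_induction (motive := p) _ (h u hu)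
    (fun n v hv => hh v hv.1 n (End.mem_eigenspace_iff.1 hv.2)) h0 ha

variable {K : Type} [Field K] [Algebra ℂ K] {S : Subalgebra ℂ K} {t : DD K}

theorem s_ind (ev : Ev S t) (p : S → Prop) (h0 : p 0) (ha : ∀ u v, p u → p v → p (u + v))
    (hh : ∀ (g : S) (n : ℤ), t g = (n : ℂ) • (g : K) → p g) (g : S) : p g := by
  obtain ⟨_, h⟩ := dz_ind ev.s (fun u => ∃ h : u ∈ S, p ⟨u, h⟩) ⟨zero_mem S, h0⟩
    (fun u v ⟨a, a'⟩ ⟨b, b'⟩ => ⟨add_mem a b, ha _ _ a' b'⟩)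
    (fun u hu n e => ⟨hu, hh ⟨u, hu⟩ n e⟩) g.1 g.2
  exact h

theorem d_ind {ι : Type} {x : ι → K} (bas : Bas S x) (ev : Ev S t) (p : DD K → Prop) (h0 : p 0)
    (ha : ∀ u v, p u → p v → p (u + v)) (hs : ∀ (g : K) u, p u → p (g • u))
    (hh : ∀ u ∈ TT S, ∀ n : ℤ, ⁅t, u⁆ = (n : ℂ) • u → p u) (D : DD K) : p D := by
  obtain ⟨s, -, s0, h⟩ := bas.den D
  have := hs s⁻¹ _ (dz_ind ev.T p h0 ha hh _ h)
  rwa [inv_smul_smul₀ s0] at this

theorem phi (ev : Ev S t) (μ : S →ₐ[ℂ] Polynomial K)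
    (hμ : ∀ (g : S) (n : ℕ), t g = (n : ℂ) • (g : K) → μ g = Polynomial.monomial n (g : K))
    (c : ℂ) : ∃ φ : S →ₐ[ℂ] S, ∀ (g : S) (n : ℤ), t g = (n : ℂ) • (g : K) → φ g = c ^ n • g := by
  let f : S →ₐ[ℂ] K :=
    ((Polynomial.aeval (algebraMap ℂ K c) : Polynomial K →ₐ[K] K).restrictScalars ℂ).comp μ
  have h1 : ∀ (g : S) (n : ℤ), t g = (n : ℂ) • (g : K) → f g = c ^ n • (g : K) := by
    intro g n e
    by_cases g0 : g = 0
    · rw [g0, map_zero, ZeroMemClass.coe_zero, smul_zero]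
    · obtain ⟨m, hm⟩ := ev.nat g g.2 n (fun k => g0 (Subtype.ext k)) e
      obtain rfl : n = m := by exact_mod_cast hm
      have := hμ g m (by rw [e, hm])
      change Polynomial.aeval (algebraMap ℂ K c) (μ g) = _
      rw [this, Polynomial.aeval_monomial, zpow_natCast, Algebra.smul_def, map_pow, mul_comm]
      rfl
  have h2 : ∀ g, f g ∈ S := s_ind ev _ (by rw [map_zero]; exact zero_mem S)
    (fun u v a b => by rw [map_add]; exact add_mem a b)
    fun g n e => by rw [h1 g n e]; exact S.smul_mem g.2 _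
  exact ⟨f.codRestrict S h2, fun g n e => Subtype.ext (h1 g n e)⟩

theorem phi_inv (ev : Ev S t) {c c' : ℂ} (hc : c * c' = 1) {φ ψ : S →ₐ[ℂ] S}
    (h1 : ∀ (g : S) (n : ℤ), t g = (n : ℂ) • (g : K) → φ g = c ^ n • g)
    (h2 : ∀ (g : S) (n : ℤ), t g = (n : ℂ) • (g : K) → ψ g = c' ^ n • g) :
    ψ.comp φ = AlgHom.id ℂ S :=
  AlgHom.ext (s_ind ev (fun g => ψ (φ g) = g) (by simp)
    (fun u v a b => by rw [map_add, map_add, a, b]) fun g n e => by
      rw [h1 g n e, map_smul, h2 g n e, smul_smul, ← mul_zpow, hc, one_zpow, one_smul])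

/-- conjugation of a field -/
noncomputable def cj (σ : K ≃ₐ[ℂ] K) (X : DD K) : DD K :=
  Derivation.mk' (σ.toLinearMap ∘ₗ X.toLinearMap ∘ₗ σ.symm.toLinearMap) fun a b => by
    change σ (X (σ.symm (a * b))) = a • σ (X (σ.symm b)) + b • σ (X (σ.symm a))
    simp only [map_mul, Derivation.leibniz, map_add, smul_eq_mul, AlgEquiv.apply_symm_apply]

theorem cj_apply (σ : K ≃ₐ[ℂ] K) (X : DD K) (y : K) : cj σ X y = σ (X (σ.symm y)) := rfl

theorem cj_zero (σ : K ≃ₐ[ℂ] K) : cj σ 0 = 0 := by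
  ext y
  simp [cj_apply]

theorem cj_add (σ : K ≃ₐ[ℂ] K) (X Y : DD K) : cj σ (X + Y) = cj σ X + cj σ Y := by
  ext y
  simp [cj_apply]

theorem cj_smul (σ : K ≃ₐ[ℂ] K) (g : K) (X : DD K) : cj σ (g • X) = σ g • cj σ X := by
  ext y
  simp [cj_apply]

theorem cj_eq {σ : K ≃ₐ[ℂ] K} {X X' : DD K} (h : ∀ y, X' (σ y) = σ (X y)) : X' = cj σ X := by
  ext y
  rw [cj_apply, ← h, AlgEquiv.apply_symm_apply]

end SIGx

open SIGx in
theorem sig (s : S_SCA) : S_SIG := by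
  intro K ι _ _ _ S t x a cx bas ev c hc
  obtain ⟨μ, hμ⟩ := s K ι S t x a cx bas ev
  obtain ⟨φ, h1⟩ := phi ev μ hμ c
  obtain ⟨ψ, h2⟩ := phi ev μ hμ c⁻¹
  have : IsFractionRing S K := IsFractionRing.of_field S K fun z => by
    obtain ⟨g, hg, h, hh, -, e⟩ := cx.frac z
    exact ⟨⟨g, hg⟩, ⟨h, hh⟩, e⟩
  let e : S ≃ₐ[ℂ] S := AlgEquiv.ofAlgHom φ ψ (phi_inv ev (inv_mul_cancel₀ hc) h2 h1)
    (phi_inv ev (mul_inv_cancel₀ hc) h1 h2)
  let σ : K ≃ₐ[ℂ] K := IsFractionRing.algEquivOfAlgEquiv e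
  have s1 : ∀ g : S, σ g = φ g := fun g => IsFractionRing.algEquivOfAlgEquiv_algebraMap e g
  have s2 : ∀ g ∈ S, ∀ n : ℤ, t g = (n : ℂ) • g → σ g = c ^ n • g := fun g hg n k =>
    (s1 ⟨g, hg⟩).trans (congrArg Subtype.val (h1 ⟨g, hg⟩ n k))
  have s3 : ∀ X ∈ TT S, ∀ p : ℤ, ⁅t, X⁆ = (p : ℂ) • X → cj σ X = c ^ p • X := by
    intro X hX p k
    refine bas.ext _ _ fun i => ?_
    have e1 := s2 (x i) (bas.mem i) (a i) (by rw [cx.eig i, Int.cast_natCast])
    have e2 := s2 (X (x i)) (hX _ (bas.mem i)) (a i + p) (by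
      have := DFunLike.congr_fun k (x i)
      rw [Derivation.commutator_apply, cx.eig i, Derivation.map_smul, Derivation.smul_apply,
        sub_eq_iff_eq_add'] at this
      rw [this, Int.cast_add, Int.cast_natCast, add_smul])
    have e3 : cj σ X (σ (x i)) = σ (X (x i)) := by rw [cj_apply, AlgEquiv.symm_apply_apply]
    rw [e1, e2, Derivation.map_smul, zpow_add₀ hc, mul_smul] at e3
    exact smul_right_injective K (zpow_ne_zero _ hc) e3
  refine ⟨σ, fun g hg => by rw [show σ g = _ from s1 ⟨g, hg⟩]; exact (φ ⟨g, hg⟩).2, ?_⟩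
  intro η hη n k X Y X' Y' hX hY
  rw [cj_eq hX, cj_eq hY]
  refine d_ind bas ev (fun X => σ (η X Y) = c ^ n • η (cj σ X) (cj σ Y)) (by simp [cj_zero])
    (fun u v a b => by simp only [cj_add, map_add, LinearMap.add_apply, a, b, smul_add])
    (fun g u a => by
      simp only [cj_smul, map_smul, LinearMap.smul_apply, smul_eq_mul, map_mul, a, mul_smul_comm])
    (fun X hX p kp => ?_) X
  refine d_ind bas ev (fun Y => σ (η X Y) = c ^ n • η (cj σ X) (cj σ Y)) (by simp [cj_zero])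
    (fun u v a b => by simp only [cj_add, map_add, a, b, smul_add])
    (fun g u a => by simp only [cj_smul, map_smul, smul_eq_mul, map_mul, a, mul_smul_comm])
    (fun Y hY q kq => ?_) Y
  have e1 := lf_apply t η X Y
  rw [k, kp, kq, lin_c, lin_c η, LinearMap.smul_apply, LinearMap.smul_apply,
    LinearMap.smul_apply] at e1
  have e2 := s2 _ (hη X hX Y hY) (n + (q + p)) (by
    rw [Int.cast_add, Int.cast_add, add_smul, add_smul, e1]
    abel)
  change σ (η X Y) = c ^ n • η (cj σ X) (cj σ Y)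
  rw [e2, s3 X hX p kp, s3 Y hY q kq, lin_c, lin_c η, LinearMap.smul_apply, zpow_add₀ hc,
    zpow_add₀ hc, mul_smul, mul_smul]

end Pool.Agent.MP_51db15_ag.Qh
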