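import Pool.Agent.MP_51db15_ag.Qh.Spec

/-! PROJECT QH: an endomorphism of degree zero that makes the Euler field locally nilpotent has
trace zero. -/

namespace Pool.Agent.MP_51db15_ag.Qh

open Module MvPolynomial

namespace SOCx

variable {K : Type} [Field K] [Algebra ℂ K]

theorem comb {S : Subalgebra ℂ K} {M j : ℕ} (hj : j < M) (f : ℕ → S) {y : S}
    (hy : y ∈ Ideal.span (f '' {i | i < j})) :
    ∃ h : Fin M → K, (∀ i, h i ∈ S ∧ (i ∉ {i : Fin M | (i : ℕ) < j} → h i = 0)) ∧
      (y : K) = ∑ i, h i * (f i : K) := by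
  classical
  induction hy using Submodule.span_induction with
  | mem y hy =>
    obtain ⟨i, hi, rfl⟩ := hy
    have hi' : i < j := hi
    refine ⟨Pi.single ⟨i, hi'.trans hj⟩ 1, fun k => ?_, ?_⟩
    · by_cases e : k = ⟨i, hi'.trans hj⟩
      · subst e
        exact ⟨by rw [Pi.single_eq_same]; exact one_mem _, fun h => (h hi').elim⟩
      · rw [Pi.single_eq_of_ne e]
        exact ⟨zero_mem _, fun _ => rfl⟩
    · rw [Finset.sum_eq_single ⟨i, hi'.trans hj⟩
        (fun k _ e => by rw [Pi.single_eq_of_ne e, zero_mul]) (fun h => (h (Finset.mem_univ _)).elim),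
        Pi.single_eq_same, one_mul]
  | zero => exact ⟨0, fun _ => ⟨zero_mem _, fun _ => rfl⟩, by simp⟩
  | add y z _ _ hy hz =>
    obtain ⟨h, a1, a2⟩ := hy
    obtain ⟨h', b1, b2⟩ := hz
    refine ⟨h + h', fun i => ⟨add_mem (a1 i).1 (b1 i).1, fun q => ?_⟩, ?_⟩
    · rw [Pi.add_apply, (a1 i).2 q, (b1 i).2 q, add_zero]
    · rw [AddMemClass.coe_add, a2, b2, ← Finset.sum_add_distrib]
      exact Finset.sum_congr rfl fun i _ => (add_mul _ _ _).symm
  | smul r y _ hy =>
    obtain ⟨h, a1, a2⟩ := hy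
    refine ⟨fun i => r * h i, fun i => ⟨mul_mem r.2 (a1 i).1, fun q => ?_⟩, ?_⟩
    · exact mul_eq_zero_of_right _ ((a1 i).2 q)
    · rw [smul_eq_mul, MulMemClass.coe_mul, a2, Finset.mul_sum]
      exact Finset.sum_congr rfl fun i _ => (mul_assoc _ _ _).symm

theorem coef {M : ℕ} (w : Fin M → ℂ) (q : Fin M → MvPolynomial (Fin M) ℂ) {T : Set (Fin M)}
    {j : Fin M} (hj : j ∉ T) (hw : w j ≠ 0)
    (h : ∑ i, C (w i) * (X i * q i) ∈ Ideal.span (X '' T : Set (MvPolynomial (Fin M) ℂ))) :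
    constantCoeff (q j) = 0 := by
  classical
  have h0 : coeff (Finsupp.single j 1) (∑ i, C (w i) * (X i * q i)) = 0 := by
    by_contra h0
    obtain ⟨i, hi, e⟩ := mem_ideal_span_X_image.1 h _ (mem_support_iff.2 h0)
    exact e (Finsupp.single_eq_of_ne fun r => hj (r ▸ hi))
  rw [coeff_sum, Finset.sum_eq_single j (fun i _ e => by
      rw [coeff_C_mul, coeff_X_mul', if_neg, mul_zero]
      exact fun r => Finsupp.mem_support_iff.1 r (Finsupp.single_eq_of_ne e))
    (fun h => (h (Finset.mem_univ _)).elim), coeff_C_mul, coeff_X_mul', if_pos (by simp),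
    tsub_self] at h0
  exact (mul_eq_zero.1 h0).resolve_left hw

end SOCx

theorem soc (sq : S_SEQ) (fl : S_FINL) (al : S_ALI) (du : S_DUAL) (tf : S_TRF) (ce : S_CEN)
    (ts : S_TRS) : S_SOC := by
  classical
  intro K ι _ _ _ S E x a Cn hn b hb hnil
  obtain ⟨M, f, w, h1, h2, h3, h4⟩ := sq K ι S E x a Cn (b E) (hb.1 E Cn.ev.tm)
    (by rw [hb.2, lie_self, map_zero]) hnil
  have fv : ∀ j < M, f j ∈ vx S x := fun j hj => by
    obtain ⟨y, hy, e⟩ := Cn.vtx.pos (f j) (f j).2
    have w0 : (w j : ℂ) ≠ 0 := Nat.cast_ne_zero.2 (h1 j hj).1.ne'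
    have : f j = (w j : ℂ)⁻¹ • y := Subtype.ext (by
      rw [SetLike.val_smul, ← e, (h1 j hj).2, smul_smul, inv_mul_cancel₀ w0, one_smul])
    rw [this]
    exact Submodule.smul_of_tower_mem _ _ hy
  have ind0 := al S M f (fun h => Cn.vtx.max.ne_top (top_le_iff.1 (h ▸ Ideal.span_le.2 (by
    rintro _ ⟨j, hj, rfl⟩; exact fv j hj)))) h4
  have ind : AlgebraicIndependent ℂ fun j : Fin M => (f j : K) :=
    ind0.map' (f := S.val) Subtype.val_injective
  have hint := fl K ι S E x a Cn M f w h1 h2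
  obtain ⟨fd, δ, hδ, hD⟩ := du K ι S E x a M _ Cn.cx ind hint
  have hq : ∀ i j : Fin M, ∃ q : MvPolynomial (Fin M) ℂ,
      ((Algebra.trace (IntermediateField.adjoin ℂ (Set.range fun j : Fin M => (f j : K))) K
        (b (δ i) (f j)) : IntermediateField.adjoin ℂ (Set.range fun j : Fin M => (f j : K))) : K) =
        aeval (fun j : Fin M => (f j : K)) q := fun i j =>
    tf K ι S x M _ Cn.bas hn (fun j => (f j).2) ind hint (δ i) (fun k => by
      rw [hδ]; split_ifs; exacts [one_mem _, zero_mem _]) (dd (f j : K) ∘ₗ b)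
      fun D hD => hb.1 D hD _ (f j).2
  choose q hq using hq
  set L := IntermediateField.adjoin ℂ (Set.range fun j : Fin M => (f j : K)) with hL
  have bD : ∀ D : DD K, b D = ∑ j : Fin M, D (f j) • b (δ j) := fun D => by
    conv_lhs => rw [hD D, map_sum]
    exact Finset.sum_congr rfl fun j _ => map_smul _ _ _
  have app : ∀ (c : Fin M → K) (D : Fin M → DD K) (y : K),
      (∑ j, c j • D j) y = ∑ j, c j * D j y := fun c D y => by
    have := map_sum (dd y) (fun j => c j • D j) Finset.univ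
    simpa only [map_smul, dd_apply, smul_eq_mul] using this
  have q0 : ∀ j : Fin M, constantCoeff (q j j) = 0 := fun j => by
    obtain ⟨y, ⟨k, hy⟩, e⟩ := h3 j j.2
    obtain ⟨h, a1, a2⟩ := SOCx.comb j.2 f hy
    refine SOCx.coef (fun i => (w i : ℂ)) (fun i => q i j) (T := {i : Fin M | (i : ℕ) < j})
      (lt_irrefl (j : ℕ)) (Nat.cast_ne_zero.2 (h1 j j.2).1.ne')
      (ce K S M _ _ (b E (f j)) k _ ind hint ⟨h, a1, by rw [e, ← a2]; rfl⟩ ?_)
    rw [bD E, app, map_sum, map_sum, AddSubmonoidClass.coe_finsetSum]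
    refine Finset.sum_congr rfl fun i _ => ?_
    have m : (w i : ℂ) • (f i : K) ∈ L :=
      L.toSubalgebra.smul_mem (IntermediateField.subset_adjoin ℂ _ ⟨i, rfl⟩) _
    have := (Algebra.trace L K).map_smul (⟨_, m⟩ : L) (b (δ i) (f j))
    rw [(h1 i i.2).2]
    refine (congrArg Subtype.val this).trans ?_
    rw [smul_eq_mul, MulMemClass.coe_mul, hq, map_mul, map_mul, aeval_C, aeval_X, ← mul_assoc,
      ← Algebra.smul_def]
  have := Cn.bas.fd
  have tb : LinearMap.trace K (DD K) b = ∑ j : Fin M, b (δ j) (f j) := by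
    have : b = ∑ j : Fin M, (dd (f j : K)).smulRight (b (δ j)) := LinearMap.ext fun D => by
      rw [bD D, LinearMap.sum_apply]; rfl
    conv_lhs => rw [this, map_sum]
    exact Finset.sum_congr rfl fun j _ => LinearMap.trace_smulRight _ _
  have tS : LinearMap.trace K (DD K) b ∈ S := by
    have := ts K ι S x Cn.bas hn (b.prodMap 0) fun v hv => ⟨hb.1 _ hv.1, zero_mem _⟩
    rwa [tr_apply, LinearMap.trace_prodMap', map_zero, add_zero] at this
  have br : ∀ j : Fin M, ⁅E, δ j⁆ = (-(algebraMap ℂ K (w j))) • δ j := fun j => by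
    rw [hD ⁅E, δ j⁆, Finset.sum_eq_single j _ fun h => (h (Finset.mem_univ _)).elim]
    · rw [Derivation.commutator_apply, (h1 j j.2).2, Derivation.map_smul, hδ, if_pos rfl,
        Derivation.map_one_eq_zero, zero_sub, ← Algebra.algebraMap_eq_smul_one]
    · intro i _ e
      rw [Derivation.commutator_apply, (h1 i i.2).2, Derivation.map_smul, hδ, if_neg e.symm,
        map_zero, smul_zero, sub_zero, zero_smul]
  have t0 : E (LinearMap.trace K (DD K) b) = 0 := by
    rw [tb, map_sum]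
    refine Finset.sum_eq_zero fun j _ => ?_
    have e : ⁅E, b (δ j)⁆ (f j) = b ⁅E, δ j⁆ (f j) := by rw [hb.2]
    rw [br, map_smul, Derivation.commutator_apply, (h1 j j.2).2, Derivation.map_smul,
      Derivation.smul_apply, smul_eq_mul, Algebra.smul_def] at e
    linear_combination e
  obtain ⟨c, hc⟩ := Cn.vtx.zero _ tS t0
  have e1 : aeval (fun j : Fin M => (f j : K)) (C ((finrank L K : ℂ) * c)) =
      aeval (fun j : Fin M => (f j : K)) (∑ j, q j j) := by
    rw [map_sum, ← Finset.sum_congr rfl fun j _ => hq j j, ← AddSubmonoidClass.coe_finsetSum,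
      ← map_sum, ← tb, hc, IsScalarTower.algebraMap_apply ℂ L K, Algebra.trace_algebraMap, aeval_C,
      map_mul, map_natCast, nsmul_eq_mul]
    rfl
  have e2 := congrArg constantCoeff (ind e1)
  rw [constantCoeff_C, map_sum, Finset.sum_eq_zero fun j _ => q0 j] at e2
  rw [hc, (mul_eq_zero.1 e2).resolve_left (Nat.cast_ne_zero.2 finrank_pos.ne'), map_zero]

end Pool.Agent.MP_51db15_ag.Qh
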