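import Pool.Agent.MP_51db15_ag.Qh.Spec

/-! The adjoint for the canonical pairing of fields and one-forms. -/

namespace Pool.Agent.MP_51db15_ag.Qh

open Module

noncomputable section

namespace STx

variable {K : Type} [Field K] [Algebra ℂ K]

/-- the canonical pairing -/
def B : MM K →ₗ[K] Module.Dual K (MM K) :=
  LinearMap.mk₂ K (fun v w : MM K => v.2 w.1 + w.2 v.1)
    (fun v v' w => by
      simp only [Prod.fst_add, Prod.snd_add, LinearMap.add_apply, map_add]; ring)
    (fun c v w => by
      simp only [Prod.smul_fst, Prod.smul_snd, LinearMap.smul_apply, map_smul, smul_eq_mul]; ring)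
    (fun v w w' => by
      simp only [Prod.fst_add, Prod.snd_add, LinearMap.add_apply, map_add]; ring)
    (fun c v w => by
      simp only [Prod.smul_fst, Prod.smul_snd, LinearMap.smul_apply, map_smul, smul_eq_mul]; ring)

theorem B_apply (v w : MM K) : B v w = v.2 w.1 + w.2 v.1 := rfl

theorem B_symm (v w : MM K) : B v w = B w v := add_comm _ _

theorem B_fst (v : MM K) (g : K) : B v (0, dd g) = v.1 g := by simp [B_apply]

theorem B_snd (v : MM K) (D : DD K) : B v (D, 0) = v.2 D := by simp [B_apply]

theorem B_inj : Function.Injective (B : MM K →ₗ[K] Module.Dual K (MM K)) := fun v v' h =>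
  Prod.ext (Derivation.ext fun g => by rw [← B_fst, ← B_fst, h])
    (LinearMap.ext fun D => by rw [← B_snd, ← B_snd, h])

theorem uniq {a b : EE K} (h : ∀ v w, B (a v) w = B (b v) w) : a = b :=
  LinearMap.ext fun v => B_inj (LinearMap.ext (h v))

theorem B_lam (X : DD K) (v w : MM K) : X (B v w) = B (lam X v) w + B v (lam X w) := by
  simp only [B_apply, lam_apply, ld_apply, map_add]
  ring

theorem B_mem {S : Subalgebra ℂ K} {v w : MM K} (hv : v ∈ LL S) (hw : w ∈ LL S) : B v w ∈ S :=
  add_mem (hv.2 _ hw.1) (hw.2 _ hv.1)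

variable [FiniteDimensional K (DD K)]

/-- the pairing as an isomorphism -/
def φ : MM K ≃ₗ[K] Module.Dual K (MM K) :=
  LinearMap.linearEquivOfInjective B B_inj Subspace.dual_finrank_eq.symm

theorem φ_apply (v : MM K) : φ v = B v := rfl

/-- the adjoint -/
def s0 (a : EE K) : EE K := φ.symm.conj a.dualMap

theorem adj (a : EE K) (v w : MM K) : B (s0 a v) w = B v (a w) := by
  rw [← φ_apply, s0, LinearEquiv.conj_apply_apply, LinearEquiv.apply_symm_apply]
  rfl

/-- the adjoint as a linear map -/
def s1 : EE K →ₗ[ℂ] EE K where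
  toFun := s0
  map_add' a b := uniq fun v w => by
    simp only [adj, LinearMap.add_apply, map_add]
  map_smul' c a := uniq fun v w => by
    rw [RingHom.id_apply, adj, LinearMap.smul_apply, LinearMap.smul_apply, lin_c, lin_c,
      LinearMap.smul_apply, adj]

theorem adj1 (a : EE K) (v w : MM K) : B (s1 a v) w = B v (a w) := adj a v w

end STx

open STx in
theorem st : S_ST := by
  intro K ι _ _ _ S x hB
  haveI := hB.fd
  refine ⟨s1, adj1, fun a ha v hv => ⟨fun g hg => ?_, fun D hD => ?_⟩,
    fun a b => uniq fun v w => ?_, fun a => uniq fun v w => ?_, fun X a => uniq fun v w => ?_,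
    fun a => ?_, fun κ e k b => uniq fun v w => ?_⟩
  · rw [← B_fst, adj1]
    exact B_mem hv (ha _ ⟨zero_mem _, dd_mem hg⟩)
  · rw [← B_snd, adj1]
    exact B_mem hv (ha _ ⟨hD, zero_mem _⟩)
  · simp only [End.mul_apply, adj1]
  · rw [adj1, B_symm, adj1, B_symm]
  · have h := B_lam X (s1 a v) w
    rw [adj1, B_lam, adj1] at h
    rw [adj1, del_apply, del_apply, map_sub, map_sub, LinearMap.sub_apply, adj1]
    linear_combination h
  · exact (LinearMap.trace_conj' _ _).trans (LinearMap.trace_transpose' a)
  · rw [adj1]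
    cases b
    · rw [Bool.not_false, pp_false, pp_true]
      simp [B_apply]
    · rw [Bool.not_true, pp_false, pp_true]
      simp [B_apply]

end

end Pool.Agent.MP_51db15_ag.Qh
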