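import Pool.Agent.MP_51db15_ag.Qh.Spec
import Pool.Agent.MP_51db15_ag.Hy.MINP

/-! One more homogeneous parameter. -/

namespace Pool.Agent.MP_51db15_ag.Qh

open Module

namespace STEPx

theorem last {A : Type} [CommRing A] (n : A →+ A) (P : Ideal A) (z : A) (hz : z ∉ P)
    (h : ∃ k : ℕ, n^[k] z = 0) : ∃ k : ℕ, n^[k] z ∉ P ∧ n (n^[k] z) ∈ P := by
  by_contra hc
  push Not at hc
  obtain ⟨k, hk⟩ := h
  have : ∀ k : ℕ, n^[k] z ∉ P := fun k => by
    induction k with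
    | zero => exact hz
    | succ k ih => rw [Function.iterate_succ_apply']; exact hc k ih
  exact this k (hk ▸ P.zero_mem)

theorem core {A : Type} [CommRing A] [Algebra ℚ A] [IsNoetherianRing A] (e n : A →+ A)
    (he : Leib e) (hn : Leib n) (com : ∀ a, e (n a) = n (e a)) (nil : ∀ a, ∃ k : ℕ, n^[k] a = 0)
    (m I : Ideal A) (hm : ∀ a, e a ∈ m) (rad : I.IsRadical) (eI : ∀ a ∈ I, e a ∈ I)
    (nI : ∀ a ∈ I, n a ∈ I) (le : ∀ P : Ideal A, P ≠ ⊤ → (∀ a ∈ P, e a ∈ P) → P ≤ m)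
    (mI : ¬ m ≤ I) (hom : ∀ Q P : Ideal A, Q ≤ m → (∀ a ∈ Q, e a ∈ Q) → ¬ Q ≤ P →
      ∃ z ∈ Q, z ∉ P ∧ ∃ d : ℕ, 0 < d ∧ e z = d • z) :
    ∃ (f : A) (d : ℕ), 0 < d ∧ e f = d • f ∧ n f ∈ I ∧ ∀ P ∈ I.minimalPrimes, f ∉ P := by
  classical
  have fin := I.finite_minimalPrimes_of_isNoetherianRing A
  have all : ∀ a, (∀ P ∈ I.minimalPrimes, a ∈ P) → a ∈ I := fun a h => by
    rw [← rad.radical, ← Ideal.sInf_minimalPrimes]
    exact Ideal.mem_sInf.2 fun {P} hP => h P hP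
  have eP := fun P hP => Hy.minp A e I P he eI hP
  have nP := fun P hP => Hy.minp A n I P hn nI hP
  have one : ∀ P ∈ I.minimalPrimes, ∃ (z : A) (d : ℕ), e z = (d + 1) • z ∧ n z ∈ I ∧ z ∉ P ∧
      ∀ P' ∈ I.minimalPrimes, P' ≠ P → z ∈ P' := by
    intro P hP
    have hp : P.IsPrime := hP.1.1
    obtain ⟨z, hz, zP, d, hd, ez⟩ := hom (m ⊓ (fin.toFinset.erase P).inf id) P inf_le_left
      (fun a ha => ⟨hm a, Submodule.mem_finsetInf.2 fun P' h' =>
        eP P' (fin.mem_toFinset.1 (Finset.mem_of_mem_erase h')) a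
          (Submodule.mem_finsetInf.1 ha.2 P' h')⟩) fun h => by
      rcases hp.inf_le.1 h with h | h
      · exact mI fun a ha => all a fun P' h' =>
          hP.2 h'.1 ((le P' h'.1.1.ne_top (eP P' h')).trans h) (h ha)
      · obtain ⟨P', h', h⟩ := hp.inf_le'.1 h
        obtain ⟨h1, h2⟩ := Finset.mem_erase.1 h'
        exact h1 (le_antisymm h (hP.2 (fin.mem_toFinset.1 h2).1 h))
    obtain ⟨k, k1, k2⟩ := last n P z zP (nil z)
    have it : ∀ k : ℕ, e (n^[k] z) = d • n^[k] z ∧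
        ∀ P' ∈ I.minimalPrimes, P' ≠ P → n^[k] z ∈ P' := fun k => by
      induction k with
      | zero =>
        exact ⟨ez, fun P' h' h => Submodule.mem_finsetInf.1 hz.2 P'
          (Finset.mem_erase.2 ⟨h, fin.mem_toFinset.2 h'⟩)⟩
      | succ k ih =>
        rw [Function.iterate_succ_apply', com, ih.1, map_nsmul]
        exact ⟨rfl, fun P' h' h => nP P' h' _ (ih.2 P' h' h)⟩
    refine ⟨n^[k] z, d - 1, by rw [Nat.sub_add_cancel hd, (it k).1], all _ fun P' h' => ?_, k1,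
      (it k).2⟩
    by_cases h : P' = P
    · exact h ▸ k2
    · exact nP P' h' _ ((it k).2 P' h' h)
  choose! z d ez nz zP zQ using one
  have dv : ∀ P ∈ fin.toFinset, ∃ c : ℕ,
      ∏ P' ∈ fin.toFinset, (d P' + 1) = (c + 1) * (d P + 1) := fun P hP => by
    obtain ⟨c, hc⟩ := Finset.dvd_prod_of_mem (fun P' => d P' + 1) hP
    have h0 : ∏ P' ∈ fin.toFinset, (d P' + 1) ≠ 0 := Finset.prod_ne_zero_iff.2 fun _ _ => by omega
    obtain ⟨c, rfl⟩ := Nat.exists_eq_succ_of_ne_zero (right_ne_zero_of_mul (hc ▸ h0))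
    exact ⟨c, hc.trans (mul_comm _ _)⟩
  choose! c hc using dv
  refine ⟨∑ P ∈ fin.toFinset, z P ^ (c P + 1), ∏ P ∈ fin.toFinset, (d P + 1),
    Finset.prod_pos fun _ _ => by omega, ?_, ?_, fun P hP h => ?_⟩
  · rw [map_sum, Finset.smul_sum]
    refine Finset.sum_congr rfl fun P hP => ?_
    rw [Hy.MINP.leib_pow he, ez P (fin.mem_toFinset.1 hP), hc P hP, nsmul_eq_mul, nsmul_eq_mul]
    push_cast
    ring
  · rw [map_sum]
    refine I.sum_mem fun P hP => ?_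
    rw [Hy.MINP.leib_pow hn]
    exact I.mul_mem_left _ (nz P (fin.mem_toFinset.1 hP))
  · rw [← Finset.add_sum_erase _ _ (fin.mem_toFinset.2 hP)] at h
    refine zP P hP (hP.1.1.mem_of_pow_mem _ ((P.add_mem_iff_left (P.sum_mem fun P' h' => ?_)).1 h))
    obtain ⟨h1, h2⟩ := Finset.mem_erase.1 h'
    exact P.pow_mem_of_mem (zQ P' (fin.mem_toFinset.1 h2) P hP h1.symm) _ (by omega)

variable {K : Type} [Field K] [Algebra ℂ K] {S : Subalgebra ℂ K}

/-- a regular field as a map of the ring -/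
def res (D : DD K) (hD : D ∈ TT S) : S →+ S where
  toFun g := ⟨D g, hD g g.2⟩
  map_zero' := Subtype.ext (map_zero D)
  map_add' a b := Subtype.ext (map_add D (a : K) b)

theorem leib (D : DD K) (hD : D ∈ TT S) : Leib (res D hD) := fun a b =>
  Subtype.ext (D.leibniz (a : K) b)

theorem in_iff {P : Ideal S} {g : S} : In P (g : K) ↔ g ∈ P :=
  ⟨fun ⟨_, hb, e⟩ => Subtype.ext e ▸ hb, fun h => ⟨g, h, rfl⟩⟩

theorem res_iff {P : Ideal S} {D : DD K} (hD : D ∈ TT S) {g : S} :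
    In P (D g) ↔ res D hD g ∈ P := in_iff (g := res D hD g)

theorem res_iter (D : DD K) (hD : D ∈ TT S) (g : S) (k : ℕ) :
    (((res D hD)^[k] g : S) : K) = (op D ^ k) g := by
  induction k with
  | zero => rfl
  | succ k ih => rw [Function.iterate_succ_apply', pow_succ', End.mul_apply, ← ih]; rfl

/-- an ideal as a space of functions -/
def sp (P : Ideal S) : Submodule ℂ K := (P.restrictScalars ℂ).map S.val.toLinearMap

theorem mem_sp {P : Ideal S} {y : K} : y ∈ sp P ↔ In P y :=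
  ⟨fun ⟨b, hb, e⟩ => ⟨b, hb, e.symm⟩, fun ⟨b, hb, e⟩ => ⟨b, hb, e.symm⟩⟩

end STEPx

open STEPx in
theorem step (g : GenK) : S_STEP := by
  intro K ι _ _ _ S E x a C N hN com nil I rad _ eI nI ⟨i, hi⟩
  let _ : Algebra ℚ S := ((algebraMap ℂ S).comp (algebraMap ℚ ℂ)).toAlgebra
  have := C.bas.noeth
  have hE := C.ev.tm
  have nl : ∀ y ∈ Algebra.adjoin ℂ (Set.range x), y ∈ (op N).maxGenEigenspace 0 := by
    intro y hy
    induction hy using Algebra.adjoin_induction with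
    | mem y hy => obtain ⟨j, rfl⟩ := hy; exact nil j
    | algebraMap c => exact (End.mem_maxGenEigenspace _ _ _).2 ⟨1, by simp⟩
    | add y z _ _ h h' => exact add_mem h h'
    | mul y z _ _ h h' =>
      simpa using g.bil K K K (op N) (op N) (op N) (LinearMap.mul ℂ K) 0 0 y z
        (fun u v => by simp [add_comm, mul_comm]) h h'
  obtain ⟨f, d, h1, h2, h3, h4⟩ := core (res E hE) (res N hN) (leib E hE) (leib N hN)
    (fun b => Subtype.ext (by
      have := Derivation.commutator_apply (D1 := E) (D2 := N) (b : K)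
      rw [com, Derivation.zero_apply] at this
      exact sub_eq_zero.1 this.symm))
    (fun b => by
      obtain ⟨k, hk⟩ := (End.mem_maxGenEigenspace _ _ _).1 (nl b (C.cx.gen.symm ▸ b.2))
      exact ⟨k, Subtype.ext (by simpa [res_iter] using hk)⟩)
    (vx S x) I (fun b => (res_iff hE).1 (C.vtx.pos b b.2)) rad
    (fun b hb => (res_iff hE).1 (eI b hb)) (fun b hb => (res_iff hN).1 (nI b hb))
    (fun P hP h => C.vtx.le P hP fun b hb => (res_iff hE).2 (h b hb))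
    (fun h => hi ⟨⟨x i, C.bas.mem i⟩, h (Ideal.subset_span ⟨i, rfl⟩), rfl⟩) fun Q P hQ eQ h => by
      obtain ⟨u, uQ, uP⟩ := SetLike.not_le_iff_exists.1 h
      have h5 := g.sub K (op E) (SC S) (sp Q) C.ev.s (fun y ⟨b, _, e⟩ => e ▸ b.2)
        (fun y ⟨b, hb, e⟩ => e ▸ mem_sp.2 ((res_iff hE).2 (eQ b hb))) u (mem_sp.2 (in_iff.2 uQ))
      have h6 : ¬ ∀ k : ℤ, sp Q ⊓ (op E).eigenspace (k : ℂ) ≤ sp P := fun h6 =>
        uP (in_iff.1 (mem_sp.1 (iSup_le h6 h5)))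
      obtain ⟨k, hk⟩ := not_forall.1 h6
      obtain ⟨w, ⟨w1, w2⟩, w3⟩ := SetLike.not_le_iff_exists.1 hk
      obtain ⟨z, zQ, rfl⟩ := mem_sp.1 w1
      have zP : z ∉ P := fun h7 => w3 (mem_sp.2 (in_iff.2 h7))
      have z0 : (z : K) ≠ 0 := fun h7 => zP ((Subtype.ext h7 : z = 0) ▸ P.zero_mem)
      have ez : E z = (k : ℂ) • (z : K) := End.mem_eigenspace_iff.1 w2
      obtain ⟨d, hd⟩ := C.ev.nat z z.2 k z0 ez
      rw [hd] at ez
      refine ⟨z, zQ, zP, d, Nat.pos_of_ne_zero ?_,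
        Subtype.ext (ez.trans (Nat.cast_smul_eq_nsmul ℂ d _))⟩
      rintro rfl
      obtain ⟨c, hc⟩ := C.vtx.zero z z.2 (by simpa using ez)
      have c0 : c ≠ 0 := fun h7 => z0 (by rw [hc, h7, map_zero])
      have hz : z = algebraMap ℂ S c := Subtype.ext hc
      exact C.vtx.max.ne_top (Ideal.eq_top_of_isUnit_mem _ (hQ zQ)
        (hz ▸ (isUnit_iff_ne_zero.2 c0).map _))
  exact ⟨f, d, h1, (congrArg Subtype.val h2).trans (Nat.cast_smul_eq_nsmul ℂ d _).symm,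
    (res_iff hN).2 h3, h4⟩

end Pool.Agent.MP_51db15_ag.Qh
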