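import Pool.Agent.MP_51db15_ag.Qh.Spec

/-! The trace of a regular one-form on a field of the Noether normalisation is regular. -/

namespace Pool.Agent.MP_51db15_ag.Qh

noncomputable section

namespace TRFx

section Val

variable {F : Type} [Field F] (v : DV F)

/-- the valuation ring of `v` -/
def vs : ValuationSubring F where
  toSubring := v.ring
  mem_or_inv_mem' := fun x => by
    by_cases hx : x = 0
    · exact Or.inl (Or.inl hx)
    · have h := v.ord_inv hx
      rcases le_total 0 (v.ord x) with h1 | h1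
      · exact Or.inl (Or.inr h1)
      · exact Or.inr (Or.inr (by omega))

theorem mem_vs (x : F) : x ∈ vs v ↔ v.Ge 0 x := Iff.rfl

theorem mem_non (x : F) : x ∈ (vs v).nonunits ↔ v.Ge 1 x := by
  rw [ValuationSubring.mem_nonunits_iff_or, mem_vs]
  by_cases hx : x = 0
  · exact iff_of_true (Or.inl hx) (Or.inl hx)
  · rw [DV.ge_iff hx, DV.ge_iff (inv_ne_zero hx), v.ord_inv hx, or_iff_right hx]
    omega

theorem unit (x : vs v) (hx : (x : F) ≠ 0) (h : v.ord x = 0) : IsUnit x :=
  IsUnit.of_mul_eq_one ⟨(x : F)⁻¹, Or.inr (by rw [v.ord_inv hx, h]; rfl)⟩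
    (Subtype.ext (mul_inv_cancel₀ hx))

theorem dvr : IsDiscreteValuationRing (vs v) := by
  obtain ⟨π, h0, h1⟩ := v.unif
  have key : ∀ a b : vs v, (a : F) * b ≠ 0 →
      0 ≤ v.ord a ∧ 0 ≤ v.ord b ∧ v.ord ((a : F) * b) = v.ord a + v.ord b := fun a b h =>
    ⟨DV.Ge.le a.2 (left_ne_zero_of_mul h), DV.Ge.le b.2 (right_ne_zero_of_mul h),
      v.ord_mul _ _ (left_ne_zero_of_mul h) (right_ne_zero_of_mul h)⟩
  refine IsDiscreteValuationRing.ofHasUnitMulPowIrreducibleFactorization
    ⟨⟨π, Or.inr (by omega)⟩, ⟨fun hu => ?_, fun a b hab => ?_⟩, fun {x} hx => ?_⟩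
  · obtain ⟨b, hb⟩ := hu.exists_right_inv
    have e : π * (b : F) = 1 := congrArg Subtype.val hb
    obtain ⟨_, k2, k3⟩ := key ⟨π, Or.inr (by omega)⟩ b (by rw [e]; exact one_ne_zero)
    rw [e, v.ord_one, h1] at k3
    omega
  · have e : π = (a : F) * b := congrArg Subtype.val hab
    have hne : (a : F) * b ≠ 0 := e ▸ h0
    obtain ⟨k1, k2, k3⟩ := key a b hne
    rw [← e, h1] at k3
    by_cases ha : v.ord a = 0
    · exact Or.inl (unit v a (left_ne_zero_of_mul hne) ha)
    · exact Or.inr (unit v b (right_ne_zero_of_mul hne) (by omega))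
  · have hx' : (x : F) ≠ 0 := fun h => hx (Subtype.ext h)
    have k1 : 0 ≤ v.ord x := DV.Ge.le x.2 hx'
    have hp : π ^ (v.ord x).toNat ≠ 0 := pow_ne_zero _ h0
    have k2 : v.ord ((x : F) / π ^ (v.ord x).toNat) = 0 := by
      rw [v.ord_div hx' hp, v.ord_pow h0, h1]
      omega
    obtain ⟨u, hu⟩ := unit v ⟨_, Or.inr k2.ge⟩ (div_ne_zero hx' hp) k2
    refine ⟨(v.ord x).toNat, u, Subtype.ext ?_⟩
    rw [hu]
    exact mul_div_cancel₀ _ hp

end Val

theorem main (t : TrvK) (d : S_DVX) {K ι : Type} [Field K] [Algebra ℂ K] [Fintype ι]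
    (S A : Subalgebra ℂ K) (x : ι → K) (F : IntermediateField ℂ K) [FiniteDimensional F K]
    (R : Type) [CommRing R] [IsDomain R] [Algebra R F] [IsFractionRing R F] [IsNoetherianRing R]
    [IsIntegrallyClosed R] (D : DD K) (hB : Bas S x) (hN : Nrm S) (hle : A ≤ S)
    (hI : ∀ g ∈ S, IsIntegral A g) (hA : ∀ g, g ∈ A ↔ ∃ q : R, ((algebraMap R F q : F) : K) = g)
    (hD : ∀ g ∈ A, D g ∈ A) (β : DU K) (hβ : β ∈ TD S) :
    ∃ q : R, algebraMap R F q = Algebra.trace F K (β D) := by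
  by_contra hn
  have : CharZero F := charZero_of_injective_algebraMap (algebraMap ℂ F).injective
  obtain ⟨a, b, hb, hab⟩ := IsFractionRing.div_surjective R (Algebra.trace F K (β D))
  have hb0 : b ≠ 0 := nonZeroDivisors.ne_zero hb
  have hbF : algebraMap R F b ≠ 0 := fun h => hb0 ((IsFractionRing.to_map_eq_zero_iff).1 h)
  obtain ⟨v, P, hP, -, -, hny, h0, h1⟩ := krull_abs (K := F) (⊥ : Submonoid R) hb0
    (y := Algebra.trace F K (β D)) (a := a) (by rw [← hab, mul_div_cancel₀ _ hbF]) (by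
      rintro s hs ⟨c, hc⟩
      rw [Submonoid.mem_bot.1 hs, one_mul] at hc
      exact hn ⟨c, by rw [← hab, hc, map_mul, mul_div_cancel_left₀ _ hbF]⟩)
  have := dvr v
  obtain ⟨π, π0, π1⟩ := v.unif
  have hR : ∀ q : R, v.Ge 0 (algebraMap R F q) := fun q =>
    (h0 _).2 ⟨q, 1, (Ideal.ne_top_iff_one P).1 hP.ne_top, by rw [map_one, div_one]⟩
  have h2 := t.tr F K (vs v) (β ((π : K) • D)) fun V hV => by
    refine d K ι S A x F (vs v) V _ hB hN hle hI hV (fun g hg => ?_) (fun y hy => ?_)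
      (fun y hy => ?_) β hβ
    · obtain ⟨q, rfl⟩ := (hA g).1 hg
      exact ⟨_, hR q, rfl⟩
    · obtain ⟨p, s, hs, rfl⟩ := (h0 y).1 hy
      refine ⟨_, (hA _).2 ⟨p, rfl⟩, _, (hA _).2 ⟨s, rfl⟩, fun h => hs ((h1 s).1 ?_), ?_⟩
      · rw [← mem_non, ← hV, ValuationSubring.mem_nonunits_iff_or, ValuationSubring.mem_comap,
          map_inv₀]
        rw [ValuationSubring.mem_nonunits_iff_or] at h
        exact h.imp_left fun h => Subtype.ext h
      · exact map_div₀ (algebraMap F K) _ _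
    · obtain ⟨p, s, hs, rfl⟩ := (h0 y).1 hy
      obtain ⟨p', hp'⟩ := (hA _).1 (hD _ ((hA _).2 ⟨p, rfl⟩))
      obtain ⟨s', hs'⟩ := (hA _).1 (hD _ ((hA _).2 ⟨s, rfl⟩))
      refine ⟨π * (algebraMap R F (s * p' - p * s') / algebraMap R F (s * s)), ?_, ?_⟩
      · rw [mem_non]
        exact DV.Ge.mul_right (Or.inr π1.ge)
          ((h0 _).2 ⟨_, _, fun h => (hP.mem_or_mem h).elim hs hs, rfl⟩)
      · have e : ((algebraMap R F p / algebraMap R F s : F) : K) =
            (algebraMap R F p : F) / (algebraMap R F s : F) := map_div₀ (algebraMap F K) _ _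
        rw [Derivation.smul_apply, e, D.leibniz_div, ← hp', ← hs', map_sub, map_mul, map_mul,
          map_mul]
        simp only [smul_eq_mul]
        push_cast
        ring
  have e : β ((π : K) • D) = π • β D := by rw [map_smul]; rfl
  rw [e, map_smul, mem_non, smul_eq_mul] at h2
  have h3 := h2.div π0
  rw [π1, mul_div_cancel_left₀ _ π0] at h3
  exact hny h3

end TRFx

theorem trf (t : TrvK) (d : S_DVX) : S_TRF := by
  intro K ι _ _ _ S x M f _ hB hN hf hind hI D hD β hβ
  let φ : MvPolynomial (Fin M) ℂ →ₐ[ℂ] IntermediateField.adjoin ℂ (Set.range f) :=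
    MvPolynomial.aeval fun j => ⟨f j, IntermediateField.subset_adjoin _ _ ⟨j, rfl⟩⟩
  have hφ : ∀ q, ((φ q : IntermediateField.adjoin ℂ (Set.range f)) : K) = MvPolynomial.aeval f q :=
    fun q => MvPolynomial.comp_aeval_apply _ (IntermediateField.adjoin ℂ (Set.range f)).val q
  let _ := φ.toRingHom.toAlgebra
  have hinj : Function.Injective φ := fun p q h => hind (by rw [← hφ, ← hφ, h])
  have : FaithfulSMul (MvPolynomial (Fin M) ℂ) (IntermediateField.adjoin ℂ (Set.range f)) :=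
    (faithfulSMul_iff_algebraMap_injective _ _).2 hinj
  have : IsFractionRing (MvPolynomial (Fin M) ℂ) (IntermediateField.adjoin ℂ (Set.range f)) :=
    IsFractionRing.of_field _ _ fun z => by
      obtain ⟨r, s, h⟩ := (IntermediateField.mem_adjoin_range_iff ℂ f z).1 z.2
      refine ⟨r, s, Subtype.ext ?_⟩
      rw [h, ← hφ, ← hφ]
      rfl
  obtain ⟨q, hq⟩ := TRFx.main t d S (Algebra.adjoin ℂ (Set.range f)) x
    (IntermediateField.adjoin ℂ (Set.range f)) (MvPolynomial (Fin M) ℂ) D hB hN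
    (Algebra.adjoin_le (by rintro _ ⟨j, rfl⟩; exact hf j)) hI
    (fun g => by
      rw [Algebra.adjoin_range_eq_range_aeval]
      exact exists_congr fun q => (hφ q).symm.congr_left)
    (fun g hg => by
      induction hg using Algebra.adjoin_induction with
      | mem y hy => obtain ⟨j, rfl⟩ := hy; exact hD j
      | algebraMap r => rw [D.map_algebraMap]; exact zero_mem _
      | add y z _ _ h1 h2 => rw [map_add]; exact add_mem h1 h2
      | mul y z hy hz h1 h2 => rw [D.leibniz]; exact add_mem (mul_mem hy h2) (mul_mem hz h1))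
    β hβ
  exact ⟨q, by rw [← hq, ← hφ]; rfl⟩

end

end Pool.Agent.MP_51db15_ag.Qh
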