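import Pool.Agent.MP_51db15_ag.Qh.Spec

/-! Row TRS: the trace of an endomorphism that preserves the lattice is regular. -/

namespace Pool.Agent.MP_51db15_ag.Qh

open Module Polynomial

namespace TRSx

section

variable {R K M : Type} [CommRing R] [Field K] [Algebra R K] [AddCommGroup M] [Module K M]

theorem trace_int [FiniteDimensional K M] (b : End K M) (p : R[X]) (hp : p.Monic)
    (h : aeval b (p.map (algebraMap R K)) = 0) : IsIntegral R (LinearMap.trace K M b) := by
  let L := AlgebraicClosure K
  have hi : Function.Injective (IsScalarTower.toAlgHom R K L) := (algebraMap K L).injective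
  rw [← isIntegral_algHom_iff (IsScalarTower.toAlgHom R K L) hi, IsScalarTower.coe_toAlgHom',
    ← LinearMap.trace_baseChange,
    Module.End.trace_eq_sum_roots_charpoly_of_splits (IsAlgClosed.splits _)]
  refine IsIntegral.multiset_sum fun μ hμ => ?_
  have h1 : Module.End.HasEigenvalue (b.baseChange L) μ :=
    (Module.End.hasEigenvalue_iff_isRoot_charpoly _ _).2 (isRoot_of_mem_roots hμ)
  obtain ⟨v, hv⟩ := h1.exists_hasEigenvector
  have h2 : aeval (b.baseChange L) ((p.map (algebraMap R K)).map (algebraMap K L)) = 0 := by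
    rw [aeval_map_algebraMap]
    have := aeval_algHom_apply (Module.End.baseChangeHom K L M) b (p.map (algebraMap R K))
    rw [h, map_zero] at this
    exact this
  have h3 := Module.End.aeval_apply_of_hasEigenvector
    (p := (p.map (algebraMap R K)).map (algebraMap K L)) hv
  rw [h2, LinearMap.zero_apply] at h3
  have h4 := (smul_eq_zero.1 h3.symm).resolve_right hv.2
  refine ⟨p, hp, ?_⟩
  rwa [Polynomial.map_map, ← IsScalarTower.algebraMap_eq, eval_map] at h4

variable [Module R M] [IsScalarTower R K M]

theorem exists_poly (b : End K M) (N : Submodule R M) (hN : N.FG) (hb : ∀ v ∈ N, b v ∈ N)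
    (hd : ∀ v : M, ∃ s : K, s ≠ 0 ∧ s • v ∈ N) :
    ∃ p : R[X], p.Monic ∧ aeval b (p.map (algebraMap R K)) = 0 := by
  have : Module.Finite R N := Module.Finite.iff_fg.2 hN
  let f : End R N := (b.restrictScalars R).restrict hb
  have hf : ∀ (n : ℕ) (v : N), ((f ^ n) v : M) = (b ^ n) v := fun n => by
    induction n with
    | zero => intro v; rfl
    | succ n ih =>
      intro v
      rw [pow_succ, pow_succ, End.mul_apply, End.mul_apply, ih]
      rfl
  have key : ∀ (q : R[X]) (v : N), (aeval f q v : M) = aeval b (q.map (algebraMap R K)) v :=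
    fun q v => by
      induction q using Polynomial.induction_on' with
      | add q r hq hr => simp only [map_add, Polynomial.map_add, LinearMap.add_apply,
          Submodule.coe_add, hq, hr]
      | monomial n a =>
        rw [Polynomial.map_monomial, aeval_monomial, aeval_monomial, End.mul_apply, End.mul_apply,
          Module.algebraMap_end_apply, Module.algebraMap_end_apply, Submodule.coe_smul, hf,
          algebraMap_smul]
  obtain ⟨p, hp, h0⟩ := LinearMap.exists_monic_and_aeval_eq_zero R f
  refine ⟨p, hp, LinearMap.ext fun v => ?_⟩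
  obtain ⟨s, hs, hv⟩ := hd v
  have h1 := key p ⟨s • v, hv⟩
  rw [h0, LinearMap.zero_apply, Submodule.coe_zero, map_smul] at h1
  exact (smul_eq_zero.1 h1.symm).resolve_left hs

end

end TRSx

theorem trs : S_TRS := by
  intro K ι _ _ _ S x hB hN b hb
  have := hB.fd
  obtain ⟨p, hp, h0⟩ := TRSx.exists_poly (R := S) b (LL S) (hB.fgT.prod hB.fgD) hb fun v => by
    obtain ⟨s, hs, hs0, h1⟩ := hB.den v.1
    obtain ⟨t, ht, ht0, h2⟩ := hB.denD v.2
    refine ⟨s * t, mul_ne_zero hs0 ht0, ?_, ?_⟩
    · have := (TT S).smul_mem ⟨t, ht⟩ h1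
      rw [mul_comm, mul_smul]
      exact this
    · have := (TD S).smul_mem ⟨s, hs⟩ h2
      rw [mul_smul]
      exact this
  exact hN _ (TRSx.trace_int b p hp h0)

end Pool.Agent.MP_51db15_ag.Qh
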