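import Pool.Agent.MP_51db15_ag.Qh.Spec

/-! Row TRV: traces and valuations. -/

namespace Pool.Agent.MP_51db15_ag.Qh

namespace TRVx

theorem nu_comap {F K : Type} [Field F] [Field K] (f : F →+* K) (V : ValuationSubring K) (x : F) :
    x ∈ (V.comap f).nonunits ↔ f x ∈ V.nonunits := by
  rw [ValuationSubring.mem_nonunits_iff_or, ValuationSubring.mem_nonunits_iff_or,
    ValuationSubring.mem_comap, map_inv₀, map_eq_zero]

theorem cen (A F : Type) [CommRing A] [Field F] (j : A →+* F) (P : Ideal A)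
    (hj : Function.Injective j) (hP : P.IsPrime) :
    ∃ W : ValuationSubring F, ∀ a, j a ∈ W ∧ (j a ∈ W.nonunits ↔ a ∈ P) := by
  have hu : ∀ y : P.primeCompl, IsUnit (j y) := fun y =>
    IsUnit.mk0 _ fun h => y.2 (by rw [hj (h.trans (map_zero j).symm)]; exact P.zero_mem)
  obtain ⟨W, h, hl⟩ := IsLocalRing.exists_factor_valuationRing
    (IsLocalization.lift (S := Localization.AtPrime P) hu)
  refine ⟨W, fun a => ?_⟩
  have e := IsLocalization.lift_eq (S := Localization.AtPrime P) hu a
  rw [← e]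
  refine ⟨h _, ?_⟩
  have h1 := ValuationSubring.coe_mem_nonunits_iff (A := W)
    (a := ⟨_, h (algebraMap A (Localization.AtPrime P) a)⟩)
  refine h1.trans ?_
  rw [← IsLocalization.AtPrime.to_map_mem_maximal_iff (Localization.AtPrime P) P a,
    IsLocalRing.mem_maximalIdeal, IsLocalRing.mem_maximalIdeal, mem_nonunits_iff, mem_nonunits_iff]
  exact not_congr (isUnit_map_iff
    ((IsLocalization.lift (S := Localization.AtPrime P) hu).codRestrict W.toSubring h) _)

theorem ext (F K : Type) [Field F] [Field K] (f : F →+* K) (W : ValuationSubring F) :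
    ∃ V : ValuationSubring K, V.comap f = W := by
  obtain ⟨V, hV⟩ := cen W K (f.comp W.subtype) (IsLocalRing.maximalIdeal W)
    (f.injective.comp Subtype.val_injective) inferInstance
  refine ⟨V, le_antisymm (fun x hx => ?_) fun x hx => (hV ⟨x, hx⟩).1⟩
  by_contra h
  have h1 : x⁻¹ ∈ W.nonunits := W.inv_mem_nonunits_iff.2 (Or.inr h)
  obtain ⟨h2, h3⟩ := ValuationSubring.mem_nonunits_iff_exists_mem_maximalIdeal.1 h1
  have h4 : x⁻¹ ∈ (V.comap f).nonunits := (nu_comap f V _).2 ((hV ⟨_, h2⟩).2.2 h3)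
  rcases (V.comap f).inv_mem_nonunits_iff.1 h4 with h5 | h5
  · exact h (h5 ▸ W.zero_mem)
  · exact h5 hx

theorem tr (F K : Type) [Field F] [Field K] [Algebra F K] [FiniteDimensional F K] [CharZero F]
    (W : ValuationSubring F) (y : K)
    (h : ∀ V : ValuationSubring K, V.comap (algebraMap F K) = W → y ∈ V.nonunits) :
    Algebra.trace F K y ∈ W.nonunits := by
  obtain ⟨V, hV⟩ := ext F (AlgebraicClosure F) (algebraMap _ _) W
  rw [← hV, nu_comap, trace_eq_sum_embeddings]
  refine sum_mem fun σ _ => (nu_comap (σ : K →+* AlgebraicClosure F) V y).1 (h _ ?_)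
  rw [ValuationSubring.comap_comap, AlgHom.comp_algebraMap, hV]

end TRVx

theorem trv : TrvK := ⟨TRVx.tr, TRVx.cen⟩

end Pool.Agent.MP_51db15_ag.Qh
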