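import Pool.Agent.MP_51db15_ag.Qh.Spec

/-! The vertex of a cone. -/

namespace Pool.Agent.MP_51db15_ag.Qh

open Module

namespace VTXx

variable {K : Type} [Field K] [Algebra ℂ K] {ι : Type}

theorem eig_mul (t : DD K) {u v : K} {α β : ℂ} (hu : t u = α • u) (hv : t v = β • v) :
    t (u * v) = (α + β) • (u * v) := by
  rw [Derivation.leibniz, hu, hv, add_smul]
  simp only [smul_eq_mul, mul_smul_comm]
  rw [mul_comm v u, add_comm]

theorem eig_pow (t : DD K) {u : K} {α : ℂ} (hu : t u = α • u) (n : ℕ) :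
    t (u ^ n) = ((n : ℂ) * α) • u ^ n := by
  induction n with
  | zero => simp
  | succ n ih =>
    rw [pow_succ, eig_mul t ih hu]
    congr 1
    push_cast
    ring

theorem eig_prod (t : DD K) (x : ι → K) (a : ι → ℕ) (h : ∀ i, t (x i) = (a i : ℂ) • x i)
    (f : ι → ℕ) (s : Finset ι) :
    t (∏ i ∈ s, x i ^ f i) = ((∑ i ∈ s, f i * a i : ℕ) : ℂ) • ∏ i ∈ s, x i ^ f i := by
  classical
  induction s using Finset.induction_on with
  | empty => simp
  | insert i s hi ih =>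
    rw [Finset.prod_insert hi, Finset.sum_insert hi, eig_mul t (eig_pow t (h i) (f i)) ih]
    congr 1
    push_cast
    ring

theorem mem_span [Fintype ι] (x : ι → K) {g : K} (hg : g ∈ Algebra.adjoin ℂ (Set.range x)) :
    g ∈ Submodule.span ℂ (Set.range fun f : ι → ℕ => ∏ i, x i ^ f i) := by
  have h1 : g ∈ Subalgebra.toSubmodule (Algebra.adjoin ℂ (Set.range x)) := hg
  rw [Algebra.adjoin_eq_span] at h1
  refine Submodule.span_mono (fun y hy => ?_) h1
  obtain ⟨f, hf⟩ := Submonoid.mem_closure_range_iff_of_fintype.1 hy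
  exact ⟨f, hf.symm⟩

/-- an ideal as a complex subspace of the field -/
def sub {S : Subalgebra ℂ K} (P : Ideal S) : Submodule ℂ K where
  carrier := {y | In P y}
  add_mem' := by
    rintro _ _ ⟨b, hb, rfl⟩ ⟨c, hc, rfl⟩
    exact ⟨b + c, add_mem hb hc, rfl⟩
  zero_mem' := ⟨0, zero_mem _, rfl⟩
  smul_mem' := by
    rintro c _ ⟨b, hb, rfl⟩
    exact ⟨algebraMap ℂ S c * b, P.mul_mem_left _ hb, by simp [Algebra.smul_def]⟩

theorem mul_in {S : Subalgebra ℂ K} {P : Ideal S} {s y : K} (hs : s ∈ S) (hy : y ∈ sub P) :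
    s * y ∈ sub P := by
  obtain ⟨b, hb, rfl⟩ := hy
  exact ⟨⟨s, hs⟩ * b, P.mul_mem_left _ hb, rfl⟩

theorem mem_of_in {S : Subalgebra ℂ K} {P : Ideal S} {g : S} (h : (g : K) ∈ sub P) : g ∈ P := by
  obtain ⟨b, hb, e⟩ := h
  rw [Subtype.ext e]
  exact hb

theorem top_of_cst {S : Subalgebra ℂ K} {P : Ideal S} {c : ℂ} (hc : c ≠ 0)
    (h : algebraMap ℂ K c ∈ sub P) : (1 : S) ∈ P := by
  refine mem_of_in ?_
  have h1 := (sub P).smul_mem c⁻¹ h
  rwa [Algebra.smul_def, ← map_mul, inv_mul_cancel₀ hc, map_one] at h1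

theorem x_in {S : Subalgebra ℂ K} {x : ι → K} (h : ∀ i, x i ∈ S) (i : ι) :
    x i ∈ sub (vx S x) :=
  ⟨⟨x i, h i⟩, Ideal.subset_span ⟨i, rfl⟩, rfl⟩

theorem cst {S : Subalgebra ℂ K} {x : ι → K} (hS : Algebra.adjoin ℂ (Set.range x) = S)
    (hx : ∀ i, x i ∈ S) {g : K} (hg : g ∈ S) :
    ∃ c : ℂ, g - algebraMap ℂ K c ∈ sub (vx S x) := by
  rw [← hS] at hg
  induction hg using Algebra.adjoin_induction with
  | mem y hy =>
    obtain ⟨i, rfl⟩ := hy
    exact ⟨0, by simpa using x_in hx i⟩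
  | algebraMap c => exact ⟨c, by simp⟩
  | add y z _ _ h1 h2 =>
    obtain ⟨c, h1⟩ := h1
    obtain ⟨d, h2⟩ := h2
    refine ⟨c + d, ?_⟩
    have h3 := add_mem h1 h2
    rw [map_add]
    convert h3 using 1
    ring
  | mul y z _ hz h1 h2 =>
    obtain ⟨c, h1⟩ := h1
    obtain ⟨d, h2⟩ := h2
    refine ⟨c * d, ?_⟩
    have h3 := add_mem (mul_in (hS ▸ hz) h1) (mul_in (S.algebraMap_mem c) h2)
    rw [map_mul]
    convert h3 using 1
    ring

theorem pos_sup [Fintype ι] {S : Subalgebra ℂ K} {t : DD K} {x : ι → K} {a : ι → ℕ}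
    (C : Cx S t x a) (ha : ∀ i, 0 < a i) {y : K} (hy : y ∈ sub (vx S x)) :
    y ∈ ⨆ (c : ℂ) (_ : c ≠ 0), (op t).eigenspace c := by
  obtain ⟨b, hb, rfl⟩ := hy
  have key : ∀ s ∈ S, s * (b : K) ∈ ⨆ (c : ℂ) (_ : c ≠ 0), (op t).eigenspace c := by
    induction hb using Submodule.span_induction with
    | mem b hb =>
      obtain ⟨i, hi⟩ := hb
      intro s hs
      rw [hi]
      have h1 := mem_span x (C.gen ▸ hs)
      clear hs
      induction h1 using Submodule.span_induction with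
      | mem s hs =>
        obtain ⟨f, rfl⟩ := hs
        have h2 := eig_mul t (eig_prod t x a C.eig f Finset.univ) (C.eig i)
        refine Submodule.mem_iSup_of_mem _ (Submodule.mem_iSup_of_mem ?_
          (End.mem_eigenspace_iff.2 h2))
        have h3 := ha i
        rw [← Nat.cast_add, Nat.cast_ne_zero]
        omega
      | zero => simp
      | add s s' _ _ h1 h2 =>
        rw [add_mul]
        exact add_mem h1 h2
      | smul c s _ h1 =>
        rw [smul_mul_assoc]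
        exact Submodule.smul_mem _ c h1
    | zero => intro s _; simp
    | add b b' _ _ h1 h2 =>
      intro s hs
      rw [Subalgebra.coe_add, mul_add]
      exact add_mem (h1 s hs) (h2 s hs)
    | smul r b _ h1 =>
      intro s hs
      rw [smul_eq_mul, Subalgebra.coe_mul, ← mul_assoc]
      exact h1 _ (mul_mem hs r.2)
  simpa using key 1 (one_mem S)

theorem zero_of (g : GenK) (δ : End ℂ K) (c : ℂ) {u : K} (h1 : δ u = c • u)
    (h2 : u ∈ ⨆ (c' : ℂ) (_ : c' ≠ c), δ.eigenspace c') : u = 0 :=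
  (Submodule.mem_bot ℂ).1 (g.cmp K δ ⊥ c u (-u) (fun v hv => by
    rw [(Submodule.mem_bot ℂ).1 hv, map_zero]
    exact zero_mem _) h1 (neg_mem h2) (by simp))

theorem fin_wt [Fintype ι] {a : ι → ℕ} (ha : ∀ i, 0 < a i) (c : ℂ) :
    {f : ι → ℕ | ((∑ i, f i * a i : ℕ) : ℂ) = c}.Finite := by
  refine (Set.Finite.pi' fun _ : ι => Set.finite_Iic ⌊c.re⌋₊).subset fun f hf i => ?_
  have h1 : ((∑ i, f i * a i : ℕ) : ℂ) = c := hf
  rw [← h1, Complex.natCast_re, Nat.floor_natCast]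
  exact le_trans (Nat.le_mul_of_pos_right _ (ha i))
    (Finset.single_le_sum (f := fun i => f i * a i) (fun _ _ => Nat.zero_le _) (Finset.mem_univ i))

end VTXx

open VTXx

theorem vtx (g : GenK) : S_VTX := by
  intro K ι _ _ _ S t x a C ha B _
  have hc := fun (y : K) (hy : y ∈ S) => cst C.gen B.mem hy
  have h0 : ∀ c : ℂ, op t (algebraMap ℂ K c) = (0 : ℂ) • algebraMap ℂ K c := fun c => by simp
  have one : (1 : S) ∉ vx S x := fun h =>
    one_ne_zero (zero_of g (op t) 0 (u := 1) (by simp) (pos_sup C ha ⟨1, h, rfl⟩))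
  refine ⟨Ideal.isMaximal_iff.2 ⟨one, fun J y hJ hy hyJ => ?_⟩, hc, ?_, ?_, ?_, ?_⟩
  · obtain ⟨c, b, hb, e⟩ := hc y y.2
    have hc0 : c ≠ 0 := by
      rintro rfl
      exact hy (mem_of_in ⟨b, hb, by simpa using e⟩)
    refine top_of_cst hc0 ⟨y - b, sub_mem hyJ (hJ hb), ?_⟩
    rw [Subalgebra.coe_sub, ← e]
    ring
  · refine B.ideal t (vx S x) fun i => ?_
    rw [C.eig i]
    exact (sub (vx S x)).smul_mem _ (x_in B.mem i)
  · intro y hy h
    obtain ⟨c, h1⟩ := hc y hy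
    exact ⟨c, sub_eq_zero.1 (zero_of g (op t) 0 (by simp [h]) (pos_sup C ha h1))⟩
  · intro P hP hs y hy
    obtain ⟨c, h1⟩ := hc y y.2
    have h2 : algebraMap ℂ K c ∈ sub P := by
      refine g.cmp K (op t) (sub P) 0 _ _ ?_ (h0 c) (pos_sup C ha h1) ⟨y, hy, by ring⟩
      rintro _ ⟨b, hb, rfl⟩
      exact hs b hb
    by_cases hc0 : c = 0
    · rw [hc0, map_zero, sub_zero] at h1
      exact mem_of_in h1
    · exact absurd ((Ideal.eq_top_iff_one P).2 (top_of_cst hc0 h2)) hP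
  · intro c
    obtain ⟨H, hH⟩ : ∃ H, H = Submodule.span ℂ ((fun f : ι → ℕ => ∏ i, x i ^ f i) ''
      {f : ι → ℕ | ((∑ i, f i * a i : ℕ) : ℂ) = c}) := ⟨_, rfl⟩
    have fH : FiniteDimensional ℂ H := by
      rw [hH]
      exact FiniteDimensional.span_of_finite ℂ ((fin_wt ha c).image _)
    have eH : H ≤ (op t).eigenspace c := by
      rw [hH, Submodule.span_le]
      rintro _ ⟨f, hf, rfl⟩
      have h1 : ((∑ i, f i * a i : ℕ) : ℂ) = c := hf
      exact End.mem_eigenspace_iff.2 (h1 ▸ eig_prod t x a C.eig f Finset.univ)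
    refine Submodule.finiteDimensional_of_le (S₂ := H) fun y hy => ?_
    have h1 : y ∈ H ⊔ ⨆ (c' : ℂ) (_ : c' ≠ c), (op t).eigenspace c' := by
      refine Submodule.span_le.2 ?_ (mem_span x (C.gen ▸ hy.1))
      rintro _ ⟨f, rfl⟩
      by_cases hf : ((∑ i, f i * a i : ℕ) : ℂ) = c
      · exact Submodule.mem_sup_left (hH ▸ Submodule.subset_span ⟨f, hf, rfl⟩)
      · exact Submodule.mem_sup_right (Submodule.mem_iSup_of_mem _ (Submodule.mem_iSup_of_mem hf
          (End.mem_eigenspace_iff.2 (eig_prod t x a C.eig f Finset.univ))))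
    obtain ⟨h, hh, q, hq, e⟩ := Submodule.mem_sup.1 h1
    have h2 : q ∈ (op t).eigenspace c := by
      rw [eq_sub_of_add_eq' e]
      exact sub_mem hy.2 (eH hh)
    rw [← e, zero_of g (op t) c (End.mem_eigenspace_iff.1 h2) hq, add_zero]
    exact hh

end Pool.Agent.MP_51db15_ag.Qh
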