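import Pool.Agent.MP_51db15_ag.Qh.ALG
import Pool.Agent.MP_51db15_ag.Qh.ALI
import Pool.Agent.MP_51db15_ag.Qh.BAS
import Pool.Agent.MP_51db15_ag.Qh.CEN
import Pool.Agent.MP_51db15_ag.Qh.CLO
import Pool.Agent.MP_51db15_ag.Qh.CONC
import Pool.Agent.MP_51db15_ag.Qh.DUAL
import Pool.Agent.MP_51db15_ag.Qh.DVA
import Pool.Agent.MP_51db15_ag.Qh.DVX
import Pool.Agent.MP_51db15_ag.Qh.EIG
import Pool.Agent.MP_51db15_ag.Qh.EV
import Pool.Agent.MP_51db15_ag.Qh.EVF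
import Pool.Agent.MP_51db15_ag.Qh.EVG
import Pool.Agent.MP_51db15_ag.Qh.FINL
import Pool.Agent.MP_51db15_ag.Qh.GEN
import Pool.Agent.MP_51db15_ag.Qh.HAM
import Pool.Agent.MP_51db15_ag.Qh.IDC
import Pool.Agent.MP_51db15_ag.Qh.IDEM
import Pool.Agent.MP_51db15_ag.Qh.JD1
import Pool.Agent.MP_51db15_ag.Qh.JD2
import Pool.Agent.MP_51db15_ag.Qh.JD3
import Pool.Agent.MP_51db15_ag.Qh.LIN
import Pool.Agent.MP_51db15_ag.Qh.LND
import Pool.Agent.MP_51db15_ag.Qh.LTB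
import Pool.Agent.MP_51db15_ag.Qh.PERF
import Pool.Agent.MP_51db15_ag.Qh.PI
import Pool.Agent.MP_51db15_ag.Qh.POS
import Pool.Agent.MP_51db15_ag.Qh.RAD
import Pool.Agent.MP_51db15_ag.Qh.RAT
import Pool.Agent.MP_51db15_ag.Qh.SCA
import Pool.Agent.MP_51db15_ag.Qh.SEQ
import Pool.Agent.MP_51db15_ag.Qh.SIG
import Pool.Agent.MP_51db15_ag.Qh.SOC
import Pool.Agent.MP_51db15_ag.Qh.ST
import Pool.Agent.MP_51db15_ag.Qh.STEP
import Pool.Agent.MP_51db15_ag.Qh.TNIL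
import Pool.Agent.MP_51db15_ag.Qh.TRF
import Pool.Agent.MP_51db15_ag.Qh.TRS
import Pool.Agent.MP_51db15_ag.Qh.TRV
import Pool.Agent.MP_51db15_ag.Qh.VTX

/-! The rows that both versions use, with their hypotheses discharged. -/

namespace Pool.Agent.MP_51db15_ag.Qh

theorem rEV : S_EV := ev gen (evg gen)

theorem rVTX : S_VTX := vtx gen

theorem rEVF : S_EVF := evf gen (evg gen)

theorem rPOS : S_POS := pos gen (eig lnd)

theorem rSOC : S_SOC :=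
  soc (seq (step gen)) (finl gen) ali dual (trf trv (dvx dva)) (cen trv) trs

theorem rCON : S_CON := con trs lin clo

theorem rPERF : S_PERF := perf (rad gen) tnil

end Pool.Agent.MP_51db15_ag.Qh
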