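import Pool.Agent.MP_51db15_ag.Qh.Spec

/-! Row VAL: the valuation of a grading. -/

namespace Pool.Agent.MP_51db15_ag.Qh

open Module WithZero

namespace VALx

variable {K : Type} [Field K] [Algebra ℂ K] {S : Subalgebra ℂ K} {t : DD K}

theorem indS (ev : Ev S t) (P : S → Prop) (h0 : P 0) (ha : ∀ g h, P g → P h → P (g + h))
    (he : ∀ (g : S) (m : ℤ), t g = (m : ℂ) • (g : K) → P g) (g : S) : P g := by
  have := Submodule.iSup_induction _ (motive := fun u => ∃ h : u ∈ S, P ⟨u, h⟩) (ev.s g g.2)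
    (fun m u hu => ⟨hu.1, he ⟨u, hu.1⟩ m (End.mem_eigenspace_iff.1 hu.2)⟩) ⟨zero_mem _, h0⟩
    fun u u' ⟨h, k⟩ ⟨h', k'⟩ => ⟨add_mem h h', ha _ _ k k'⟩
  exact this.2

/-- the valuation and the homogeneous components -/
structure Pk (S : Subalgebra ℂ K) (t : DD K) (v : Valuation K ℤᵐ⁰) (cf : ℤ → S →+ K) : Prop where
  one : ∀ g : S, v g ≤ 1
  le : ∀ (g : S) (j : ℤ), v g ≤ exp (-j) ↔ ∀ n < j, cf n g = 0
  eig : ∀ (g : S) (m : ℤ), t g = (m : ℂ) • (g : K) → ∀ n, cf n g = if n = m then (g : K) else 0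

theorem pack (ev : Ev S t) (frac : ∀ y : K, ∃ g ∈ S, ∃ h ∈ S, h ≠ 0 ∧ y = g / h)
    (μ : S →ₐ[ℂ] Polynomial K) (hμ : ∀ (g : S) (n : ℕ), t g = (n : ℂ) • (g : K) →
      μ g = Polynomial.monomial n (g : K)) : ∃ v cf, Pk S t v cf := by
  have nat : ∀ (g : S) (m : ℤ), t g = (m : ℂ) • (g : K) → g ≠ 0 →
      ∃ n : ℕ, m = n ∧ μ g = Polynomial.monomial n (g : K) := fun g m h h0 => by
    obtain ⟨n, hn⟩ := ev.nat g g.2 m (fun k => h0 (Subtype.ext k)) h
    exact ⟨n, by exact_mod_cast hn, hμ g n (hn ▸ h)⟩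
  have e1 : ∀ g : S, (μ g).eval 1 = g := by
    refine indS ev _ (by simp) (fun g h a b => by simp [a, b]) fun g m h => ?_
    by_cases h0 : g = 0
    · simp [h0]
    · obtain ⟨n, -, hn⟩ := nat g m h h0
      simp [hn]
  have inj : Function.Injective ((algebraMap (Polynomial K) (RatFunc K)).comp (μ : S →+* _)) :=
    (RatFunc.algebraMap_injective K).comp fun g h k =>
      Subtype.ext (by rw [← e1 g, ← e1 h]; exact congrArg _ k)
  have : IsFractionRing S K := IsFractionRing.of_field S K fun y => by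
    obtain ⟨g, hg, h, hh, -, e⟩ := frac y
    exact ⟨⟨g, hg⟩, ⟨h, hh⟩, e⟩
  let v : Valuation K ℤᵐ⁰ :=
    ((Polynomial.idealX K).valuation (RatFunc K)).comap (IsFractionRing.lift inj)
  have hv : ∀ g : S, v g = (Polynomial.idealX K).intValuation (μ g) := fun g => by
    rw [← IsDedekindDomain.HeightOneSpectrum.valuation_of_algebraMap (K := RatFunc K)]
    exact congrArg ((Polynomial.idealX K).valuation (RatFunc K))
      (IsFractionRing.lift_algebraMap (K := K) inj g)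
  have one : ∀ g : S, v g ≤ 1 := fun g =>
    hv g ▸ IsDedekindDomain.HeightOneSpectrum.intValuation_le_one _ _
  refine ⟨v, fun n =>
    { toFun := fun g => if 0 ≤ n then (μ g).coeff n.toNat else 0
      map_zero' := by simp
      map_add' := fun g h => by split_ifs <;> simp }, one, fun g j => ?_, fun g m h n => ?_⟩
  · rcases le_total j 0 with hj | hj
    · refine iff_of_true ((one g).trans ?_) fun n hn => if_neg (by omega)
      rw [← exp_zero, exp_le_exp]
      omega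
    · obtain ⟨j, rfl⟩ := Int.eq_ofNat_of_zero_le hj
      rw [hv, IsDedekindDomain.HeightOneSpectrum.intValuation_le_pow_iff_mem,
        Polynomial.idealX_span, Ideal.span_singleton_pow, Ideal.mem_span_singleton,
        Polynomial.X_pow_dvd_iff]
      refine ⟨fun h n hn => ?_, fun h d hd => ?_⟩
      · change (if 0 ≤ n then (μ g).coeff n.toNat else 0) = 0
        split_ifs
        · exact h _ (by omega)
        · rfl
      · simpa using h d (by omega)
  · change (if 0 ≤ n then (μ g).coeff n.toNat else 0) = _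
    by_cases h0 : g = 0
    · simp [h0]
    · obtain ⟨k, rfl, hk⟩ := nat g m h h0
      rw [hk, Polynomial.coeff_monomial]
      split_ifs <;> first | rfl | omega

variable {v : Valuation K ℤᵐ⁰} {cf : ℤ → S →+ K}

theorem up (ev : Ev S t) (pk : Pk S t v cf) {X : DD K} (hX : X ∈ TT S) {p : ℤ}
    (hp : ⁅t, X⁆ = (p : ℂ) • X) (g : S) (n : ℤ) : cf (n + p) ⟨X g, hX g g.2⟩ = X (cf n g) := by
  refine indS ev (fun g => cf (n + p) ⟨X g, hX g g.2⟩ = X (cf n g)) ?_ (fun g h a b => ?_)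
    (fun g m h => ?_) g
  · rw [map_zero, map_zero, ← map_zero (cf (n + p))]
    exact congrArg _ (Subtype.ext (map_zero X))
  · rw [map_add, map_add, ← a, ← b, ← map_add]
    exact congrArg _ (Subtype.ext (map_add X _ _))
  · have e : t (X g) = ((m + p : ℤ) : ℂ) • X g := by
      have := congrArg (fun D : DD K => D g) hp
      simp only [Derivation.commutator_apply, h, Derivation.map_smul, Derivation.smul_apply] at this
      rw [Int.cast_add, add_smul, ← this]
      abel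
    rw [pk.eig ⟨X g, hX g g.2⟩ (m + p) e, pk.eig g m h]
    by_cases k : n = m <;> simp [k]

theorem upv (ev : Ev S t) (pk : Pk S t v cf) {X : DD K} (hX : X ∈ TT S) {p : ℤ}
    (hp : ⁅t, X⁆ = (p : ℂ) • X) {g : K} (hg : g ∈ S) {k : ℤ} (h : v g ≤ exp (-k)) :
    v (X g) ≤ exp (-(k + p)) := by
  refine (pk.le ⟨X g, hX g hg⟩ _).2 fun n hn => ?_
  have := up ev pk hX hp ⟨g, hg⟩ (n - p)
  rw [sub_add_cancel, (pk.le ⟨g, hg⟩ k).1 h _ (by omega), map_zero] at this
  exact this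

theorem upt (ev : Ev S t) (pk : Pk S t v cf) {g : K} (hg : g ∈ S) {k : ℤ} (h : v g ≤ exp (-k)) :
    v (t g - k * g) ≤ exp (-(k + 1)) := by
  have e : ∀ n (g : S), t (cf n g) = n * cf n g := fun n => by
    refine indS ev _ (by simp) (fun g h a b => by simp [a, b, mul_add]) fun g m h => ?_
    rw [pk.eig g m h]
    split_ifs with k
    · rw [h, k, Algebra.smul_def, map_intCast]
    · simp
  refine (pk.le (⟨t g, ev.tm g hg⟩ - k • ⟨g, hg⟩) _).2 (fun n hn => ?_) |>.trans' (le_of_eq ?_)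
  · have := up ev pk ev.tm (p := 0) (by simp) ⟨g, hg⟩ n
    rw [add_zero] at this
    rw [map_sub, map_zsmul, this, e, zsmul_eq_mul]
    rcases eq_or_lt_of_le (show n ≤ k by omega) with rfl | hk
    · exact sub_self _
    · simp [(pk.le ⟨g, hg⟩ k).1 h n hk]
  · simp

theorem quot (D : DD K) {g h : K} {l c : ℤ} (hl : v h = exp (-l))
    (hn : v (h * D g - g * D h) ≤ exp (-(2 * l + c))) : v (D (g / h)) ≤ exp (-c) := by
  rw [Derivation.leibniz_div, smul_eq_mul, smul_eq_mul, smul_eq_mul, map_mul, map_pow, map_inv₀,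
    hl, ← exp_neg, sq, ← exp_add]
  refine (mul_le_mul_right hn _).trans (le_of_eq ?_)
  rw [← exp_add]
  congr 1
  ring

omit [Algebra ℂ K] in
theorem ords {g h : K} (hg : g ≠ 0) (hh : h ≠ 0) (hy : v (g / h) ≤ 1) :
    ∃ k l : ℤ, l ≤ k ∧ v g = exp (-k) ∧ v h = exp (-l) := by
  have a : v g = exp (- -log (v g)) := by rw [neg_neg, exp_log (by simpa using hg)]
  have b : v h = exp (- -log (v h)) := by rw [neg_neg, exp_log (by simpa using hh)]
  refine ⟨_, _, ?_, a, b⟩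
  rw [map_div₀, a, b, ← exp_sub, ← exp_zero, exp_le_exp] at hy
  omega

omit [Algebra ℂ K] in
theorem mul_le {a b : K} {i j m : ℤ} (ha : v a ≤ exp (-i)) (hb : v b ≤ exp (-j)) (h : m ≤ i + j) :
    v (a * b) ≤ exp (-m) := by
  rw [map_mul]
  refine (mul_le_mul' ha hb).trans ?_
  rw [← exp_add, exp_le_exp]
  omega

theorem fld (ev : Ev S t) (pk : Pk S t v cf)
    (frac : ∀ y : K, ∃ g ∈ S, ∃ h ∈ S, h ≠ 0 ∧ y = g / h) {X : DD K} (hX : X ∈ TT S) {p : ℤ}
    (hp : ⁅t, X⁆ = (p : ℂ) • X) (y : K) (hy : v y ≤ 1) : v (X y) ≤ exp (-p) := by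
  obtain ⟨g, hg, h, hh, h0, rfl⟩ := frac y
  by_cases g0 : g = 0
  · simp [g0]
  obtain ⟨k, l, hkl, a, b⟩ := ords g0 h0 hy
  exact quot X b (v.map_sub_le (mul_le b.le (upv ev pk hX hp hg a.le) (by omega))
    (mul_le a.le (upv ev pk hX hp hh b.le) (by omega)))

theorem fldt (ev : Ev S t) (pk : Pk S t v cf)
    (frac : ∀ y : K, ∃ g ∈ S, ∃ h ∈ S, h ≠ 0 ∧ y = g / h) (y : K) (hy : v y ≤ 1) :
    v (t y) ≤ exp (-1) := by
  obtain ⟨g, hg, h, hh, h0, rfl⟩ := frac y
  by_cases g0 : g = 0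
  · simp [g0]
  obtain ⟨k, l, hkl, a, b⟩ := ords g0 h0 hy
  refine quot t b ?_
  rw [show h * t g - g * t h =
    h * (t g - k * g) - g * (t h - l * h) + ((k - l : ℤ) : K) * (g * h) by push_cast; ring]
  refine v.map_add_le (v.map_sub_le (mul_le b.le (upt ev pk hg a.le) (by omega))
    (mul_le a.le (upt ev pk hh b.le) (by omega))) ?_
  rcases eq_or_lt_of_le hkl with rfl | hk
  · simp
  · exact mul_le (i := 0) (pk.one ⟨_, intCast_mem S _⟩) (mul_le a.le b.le le_rfl) (by omega)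

theorem span (ev : Ev S t) (den : ∀ D : DD K, ∃ s ∈ S, s ≠ 0 ∧ s • D ∈ TT S) {M : Type}
    [AddCommGroup M] [Module K M] (f : DD K →ₗ[K] M)
    (h : ∀ X ∈ TT S, ∀ p : ℤ, ⁅t, X⁆ = (p : ℂ) • X → f X = 0) : f = 0 := by
  refine LinearMap.ext fun D => ?_
  obtain ⟨s, -, s0, hs⟩ := den D
  have : f (s • D) = 0 := Submodule.iSup_induction _ (motive := fun u => f u = 0) (ev.T _ hs)
    (fun p X hX => h X hX.1 p (End.mem_eigenspace_iff.1 hX.2)) (map_zero f)
    fun u u' a b => by rw [map_add, a, b, add_zero]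
  rw [map_smul] at this
  exact (smul_eq_zero.1 this).resolve_left s0

theorem key (pk : Pk S t v cf) {η : FF K} (hη : η ∈ RF S) {n : ℤ} (hn : lf t η = (n : ℂ) • η)
    (hk : Kae S η) {X Y : DD K} (hX : X ∈ TT S) (hY : Y ∈ TT S) {p q i j : ℤ}
    (hp : ⁅t, X⁆ = (p : ℂ) • X) (hq : ⁅t, Y⁆ = (q : ℂ) • Y)
    (hi : ∀ y, v y ≤ 1 → v (X y) ≤ exp (-i)) (hj : ∀ y, v y ≤ 1 → v (Y y) ≤ exp (-j))
    (h : n + p + q < i + j) : η X Y = 0 := by
  have e : t (η X Y) = ((n + p + q : ℤ) : ℂ) • η X Y := by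
    have := lf_apply t η X Y
    rw [hn, hp, hq, lin_c, lin_c] at this
    simp only [LinearMap.smul_apply] at this
    push_cast
    rw [add_smul, add_smul, this]
    abel
  obtain ⟨m, c, y, z, h1, h2⟩ := hk v.valuationSubring fun g hg => pk.one ⟨g, hg⟩
  have b : v (η X Y) ≤ exp (-(i + j)) := by
    rw [h2]
    refine v.map_sum_le fun s _ => ?_
    obtain ⟨a1, a2, a3⟩ := h1 s
    exact mul_le (i := 0) a1 (v.map_sub_le (mul_le (hi _ a2) (hj _ a3) le_rfl)
      (mul_le (hi _ a3) (hj _ a2) le_rfl)) (by omega)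
  have := (pk.le ⟨_, hη X hX Y hY⟩ _).1 b _ h
  rwa [pk.eig ⟨_, hη X hX Y hY⟩ _ e, if_pos rfl] at this

end VALx

open VALx in
theorem val (_g : GenK) (s : S_SCA) : S_VAL := by
  intro K ι _ _ _ S t x a cx bas ev η hη n hn hk
  obtain ⟨μ, hμ⟩ := s K ι S t x a cx bas ev
  obtain ⟨v, cf, pk⟩ := pack ev cx.frac μ hμ
  refine ⟨fun h => span ev bas.den η fun X hX p hp => span ev bas.den _ fun Y hY q hq => ?_,
    fun h => span ev bas.den _ fun Y hY q hq => ?_⟩
  · exact VALx.key pk hη hn hk hX hY hp hq (fld ev pk cx.frac hX hp) (fld ev pk cx.frac hY hq)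
      (by omega)
  · exact VALx.key pk hη hn hk ev.tm hY (p := 0) (by simp) hq (fldt ev pk cx.frac)
      (fld ev pk cx.frac hY hq) (by omega)

end Pool.Agent.MP_51db15_ag.Qh
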