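import Mathlib
import Pool.Agent.MP_51db15_ag.Qh.Rows
import Pool.Agent.MP_51db15_ag.Qh.MAIN
import Pool.Agent.MP_51db15_ag.Qh.DEC
import Pool.Agent.MP_51db15_ag.Qh.END
import Pool.Agent.MP_51db15_ag.Qh.FIN
import Pool.Agent.MP_51db15_ag.Qh.INIT
import Pool.Agent.MP_51db15_ag.Qh.KC
import Pool.Agent.MP_51db15_ag.Qh.LT
import Pool.Agent.MP_51db15_ag.Qh.LTA
import Pool.Agent.MP_51db15_ag.Qh.LTV
import Pool.Agent.MP_51db15_ag.Qh.NEAR
import Pool.Agent.MP_51db15_ag.Qh.REG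
import Pool.Agent.MP_51db15_ag.Qh.SLP
import Pool.Agent.MP_51db15_ag.Qh.VAL

/-! An affine variety with a good action and an algebraic symplectic form is conical. -/

namespace Pool.Agent.MP_51db15_ag.Qh

theorem goodAction
    (K : Type) [Field K] [Algebra ℂ K] (S : Subalgebra ℂ K) [Algebra.FiniteType ℂ S]
    [IsFractionRing S K] [IsIntegrallyClosed S] (𝒢 : ℕ → Submodule ℂ S)
    (hg : SetLike.GradedMonoid 𝒢) (hi : DirectSum.IsInternal 𝒢)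
    (h0 : ∀ f ∈ 𝒢 0, ∃ c : ℂ, f = algebraMap ℂ S c) (m : Ideal S) (hm : m ≠ ⊤)
    (hp : ∀ d, 0 < d → ∀ f ∈ 𝒢 d, f ∈ m) (ω : LinearMap.BilinForm K (Derivation ℂ K K))
    (hc : IsClosedForm ω) (hn : NondegOn ω (stalk S m))
    (hk : ∀ V : ValuationSubring K, (∀ g ∈ S, g ∈ V) → KaehlerAt ω V) :
    ∃ (ω' : LinearMap.BilinForm K (Derivation ℂ K K)) (𝒢' : ℕ → Submodule ℂ S),
      IsConicalSymplectic S ω' 𝒢' ∧ ∀ d, 0 < d → ∀ f ∈ 𝒢' d, f ∈ m :=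
  have dc : S_DEC := dec gen clo (jd3 gen) (kc (sig sca))
  main init bas rEV rVTX rEVF reg near pi (lt (ltv lta ltb)) (idc idem) st rCON alg rPERF
    (slp bas rEV rVTX rEVF (jd1 gen) (jd2 gen) rPOS rat dc (val gen sca) rSOC)
    (fend bas rEV rVTX rEVF (jd1 gen) (jd2 gen) rPOS rat dc (fin (ham gen) reg))
    K S 𝒢 hg hi h0 m hm hp ω hc hn hk

end Pool.Agent.MP_51db15_ag.Qh
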