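import Pool.Agent.MP_51db15_ag.Qh.Spec4

/-! Row HAM0: a homogeneous symplectic field is Hamiltonian. -/

namespace Pool.Agent.MP_51db15_ag.Qh

open Module

theorem ham0 : S_HAM0 := by
  intro K ι _ _ _ S E x a ω B l hC hpos hreg hclo hwt hsk hB
  have : FiniteDimensional K (DD K) := hC.bas.fd
  have hneg : ∀ D D' : DD K, ω D D' = -ω D' D := fun D D' => (hclo.1.neg_eq D' D).symm
  have hx : ∀ (D : DD K) i, D (x i) = -ω D (B (x i)) := fun D i => by
    rw [← hneg, hB, dd_apply]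
  have hinj : Function.Injective (ω : DD K →ₗ[K] DU K) := fun D D' h =>
    hC.bas.ext D D' fun i => by rw [hx, hx, h]
  have hrk : finrank K (DD K) = finrank K (DU K) := Subspace.dual_finrank_eq.symm
  have hsurj : Function.Surjective (ω : DD K →ₗ[K] DU K) :=
    (LinearMap.injective_iff_surjective_of_finrank_eq_finrank hrk).1 hinj
  have hBf : ∀ f, ω (B f) = dd f := fun f => by
    obtain ⟨H, hH⟩ := hsurj (dd f)
    have h1 : B f = H := hC.bas.ext _ _ fun i => by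
      rw [hx H, hH, dd_apply, hsk]
    rw [h1, hH]
  have hw : ∀ (Z : DD K) (p : ℤ), ⁅E, Z⁆ = (p : ℂ) • Z → ∀ X,
      E (ω Z X) - ω Z ⁅E, X⁆ = ((p + l : ℤ) : ℂ) • ω Z X := by
    intro Z p hZ X
    have h1 : lf E ω Z X = (l : ℂ) • ω Z X := by rw [hwt]; rfl
    have h2 : ω ((p : ℂ) • Z) X = (p : ℂ) • ω Z X := by
      rw [lin_c (ω : DD K →ₗ[K] DU K)]
      rfl
    rw [lf_apply, hZ, h2] at h1
    rw [Int.cast_add, add_smul, ← h1]
    ring
  have hp : ∀ Z ∈ TT S, ∀ p : ℤ, ⁅E, Z⁆ = (p : ℂ) • Z → Z ≠ 0 → 0 < p + l := by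
    intro Z hZ p h h0
    refine hpos (ω Z) (p + l) (fun e => h0 (hinj ?_)) (fun X hX => hreg Z hZ X hX) (hw Z p h)
    rw [map_zero]
    exact e
  refine ⟨fun h0 => ?_, fun Z hZ p h hl => ?_⟩
  · have := hp E hC.ev.tm 0 (by simp) h0
    simpa using this
  · by_cases h0 : Z = 0
    · exact ⟨0, zero_mem S, by simp, by simp [h0]⟩
    have h1 : ((p + l : ℤ) : ℂ) ≠ 0 := by exact_mod_cast (hp Z hZ p h h0).ne'
    have h2 : ∀ Y, Y (ω Z E) = ((p + l : ℤ) : ℂ) • ω Z Y := by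
      intro Y
      have h3 := hclo.2 Z E Y
      have h4 : lf Z ω E Y = 0 := by rw [hl]; rfl
      rw [lf_apply] at h4
      rw [hneg ⁅Z, Y⁆ E, hneg ⁅E, Y⁆ Z] at h3
      rw [← hw Z p h Y]
      linear_combination h3 - h4
    have h5 : ∀ Y : DD K, Y (((p + l : ℤ) : ℂ)⁻¹ • ω Z E) = ω Z Y := fun Y => by
      rw [Derivation.map_smul, h2, smul_smul, inv_mul_cancel₀ h1, one_smul]
    refine ⟨((p + l : ℤ) : ℂ)⁻¹ • ω Z E, S.smul_mem (hreg Z hZ E hC.ev.tm) _, ?_, hinj ?_⟩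
    · rw [h5, smul_smul, mul_inv_cancel₀ h1, one_smul]
    · refine Eq.trans ?_ (hBf _).symm
      exact LinearMap.ext fun Y => (h5 Y).symm

end Pool.Agent.MP_51db15_ag.Qh
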