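import Pool.Agent.MP_51db15_ag.Qh.Spec2
import Pool.Agent.MP_51db15_ag.Hy.D3
import Pool.Agent.MP_51db15_ag.Nc.Base

/-! PROJECT QF, row HAT: the completion of the cone. -/

namespace Pool.Agent.MP_51db15_ag.Qh

open MvPolynomial

namespace HATx

variable {ι K : Type} [Field K] [Algebra ℂ K] {a : ι → ℕ} {J : Ideal (MvPolynomial ι ℂ)}
  {φ : MvPolynomial ι ℂ →ₐ[ℂ] K} {E : DD K}

theorem phi_mono (φ : MvPolynomial ι ℂ →ₐ[ℂ] K) (α : ι →₀ ℕ) (c : ℂ) :
    φ (monomial α c) = c • φ (monomial α 1) := by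
  rw [← map_smul, smul_monomial, smul_eq_mul, mul_one]

theorem wt_mono (hE : ∀ i, E (φ (.X i)) = (a i : ℂ) • φ (.X i)) (α : ι →₀ ℕ) :
    E (φ (monomial α 1)) = ((Finsupp.weight a α : ℕ) : ℂ) • φ (monomial α 1) := by
  induction α using Finsupp.induction_linear with
  | zero => simp
  | add α β hα hβ =>
    have e : (monomial (α + β) 1 : MvPolynomial ι ℂ) = monomial α 1 * monomial β 1 := by
      rw [monomial_mul, mul_one]
    rw [e, map_mul, Derivation.leibniz, hα, hβ, map_add, Nat.cast_add]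
    simp only [smul_eq_mul, Algebra.smul_def]
    rw [map_add]
    ring
  | single i n =>
    rw [← X_pow_eq_monomial, map_pow, Finsupp.weight_single, smul_eq_mul]
    induction n with
    | zero => simp
    | succ n ih =>
      rw [pow_succ, Derivation.leibniz, ih, hE]
      simp only [smul_eq_mul, Algebra.smul_def]
      push_cast
      ring

theorem wt_hom (hE : ∀ i, E (φ (.X i)) = (a i : ℂ) • φ (.X i)) {F : MvPolynomial ι ℂ} {n : ℕ}
    (hF : ∀ α, F.coeff α ≠ 0 → Finsupp.weight a α = n) : E (φ F) = (n : ℂ) • φ F := by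
  rw [F.as_sum, map_sum, map_sum, Finset.smul_sum]
  refine Finset.sum_congr rfl fun α hα => ?_
  rw [phi_mono, Derivation.map_smul, wt_mono hE, hF α (mem_support_iff.1 hα), smul_comm]

theorem wt_comp (hE : ∀ i, E (φ (.X i)) = (a i : ℂ) • φ (.X i)) (F : MvPolynomial ι ℂ) (n : ℕ) :
    E (φ (weightedHomogeneousComponent a n F)) =
      (n : ℂ) • φ (weightedHomogeneousComponent a n F) :=
  wt_hom hE fun α hα => by
    rw [coeff_weightedHomogeneousComponent] at hα
    by_contra h
    exact hα (if_neg h)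

theorem sum_comp (a : ι → ℕ) (F : MvPolynomial ι ℂ) :
    F = ∑ m ∈ F.support.image (Finsupp.weight a), weightedHomogeneousComponent a m F := by
  ext α
  rw [coeff_sum]
  simp only [coeff_weightedHomogeneousComponent]
  rw [Finset.sum_ite_eq]
  split_ifs with h
  · rfl
  · by_contra h1
    exact h (Finset.mem_image_of_mem _ (mem_support_iff.2 h1))

theorem comp_zero {F : MvPolynomial ι ℂ} {m : ℕ} (h : m ∉ F.support.image (Finsupp.weight a)) :
    weightedHomogeneousComponent a m F = 0 := by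
  ext α
  rw [coeff_weightedHomogeneousComponent, coeff_zero]
  split_ifs with h1
  · by_contra h2
    exact h (h1 ▸ Finset.mem_image_of_mem _ (mem_support_iff.2 h2))
  · rfl

theorem other (hJ : ∀ g ∈ J, ∀ n, weightedHomogeneousComponent a n g ∈ J)
    (hφ : ∀ g, φ g = 0 ↔ g ∈ J) (hE : ∀ i, E (φ (.X i)) = (a i : ℂ) • φ (.X i))
    {F : MvPolynomial ι ℂ} {n : ℕ} (hF : E (φ F) = (n : ℂ) • φ F) {m : ℕ} (hm : m ≠ n) :
    φ (weightedHomogeneousComponent a m F) = 0 := by
  by_cases hT : m ∈ F.support.image (Finsupp.weight a)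
  swap
  · rw [comp_zero hT, map_zero]
  have h1 : (∑ k ∈ F.support.image (Finsupp.weight a),
      ((k : ℂ) - n) • weightedHomogeneousComponent a k F) ∈ J := by
    rw [← hφ, map_sum]
    simp only [map_smul, sub_smul, map_sub]
    rw [Finset.sum_sub_distrib, ← Finset.smul_sum, ← map_sum, ← sum_comp, ← hF, sub_eq_zero]
    conv_rhs => rw [sum_comp a F, map_sum, map_sum]
    exact Finset.sum_congr rfl fun k _ => (wt_comp hE F k).symm
  have h2 := hJ _ h1 m
  have h3 : weightedHomogeneousComponent a m (∑ k ∈ F.support.image (Finsupp.weight a),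
      ((k : ℂ) - n) • weightedHomogeneousComponent a k F) =
      ((m : ℂ) - n) • weightedHomogeneousComponent a m F := by
    ext α
    rw [coeff_weightedHomogeneousComponent, coeff_sum]
    simp only [coeff_smul, coeff_weightedHomogeneousComponent, smul_eq_mul, mul_ite, mul_zero]
    rw [Finset.sum_ite_eq]
    split_ifs with h4 h5
    · rw [h4]
    · exact absurd (h4 ▸ hT) h5
    · rfl
  rw [h3, ← hφ, map_smul, smul_eq_zero] at h2
  refine h2.resolve_left fun h => hm ?_
  exact_mod_cast sub_eq_zero.1 h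

theorem same (hJ : ∀ g ∈ J, ∀ n, weightedHomogeneousComponent a n g ∈ J)
    (hφ : ∀ g, φ g = 0 ↔ g ∈ J) (hE : ∀ i, E (φ (.X i)) = (a i : ℂ) • φ (.X i))
    {F : MvPolynomial ι ℂ} {n : ℕ} (hF : E (φ F) = (n : ℂ) • φ F) :
    φ (weightedHomogeneousComponent a n F) = φ F := by
  conv_rhs => rw [sum_comp a F, map_sum]
  rw [Finset.sum_eq_single n (fun m _ hm => other hJ hφ hE hF hm)
    fun h => by rw [comp_zero h, map_zero]]

theorem coeff_mu' [Fintype ι] (ha : ∀ i, 0 < a i) {g : MvPowerSeries ι ℂ} {n : ℕ}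
    {F : MvPolynomial ι ℂ}
    (hF : ∀ α, F.coeff α = if Finsupp.weight a α = n then MvPowerSeries.coeff α g else 0) :
    PowerSeries.coeff n (Hy.D3.mu φ a ha g) = φ F := by
  rw [Hy.D3.coeff_mu, finsum_eq_sum_of_support_subset (s := F.support)]
  · conv_rhs => rw [F.as_sum, map_sum]
    refine Finset.sum_congr rfl fun α hα => ?_
    have h1 := mem_support_iff.1 hα
    rw [hF] at h1
    have h2 : Finsupp.weight a α = n := by
      by_contra h
      exact h1 (if_neg h)
    rw [if_pos h2.symm, phi_mono φ α (F.coeff α), hF, if_pos h2]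
  · intro α hα
    rw [Finset.mem_coe, mem_support_iff, hF]
    intro h
    apply hα
    by_cases h1 : Finsupp.weight a α = n
    · rw [if_pos h1] at h
      simp [h]
    · have h2 : ¬ n = Finsupp.weight a α := fun e => h1 e.symm
      simp [h2]

end HATx

open HATx

theorem hat (k : S_HKER) : S_HAT := by
  intro ι K _ _ _ _ a J φ E ha hJ hφ hE
  obtain ⟨wc, hwc, hker⟩ := k ι a J ha hJ
  set I := J.map (MvPolynomial.coeToMvPowerSeries.ringHom (σ := ι) (R := ℂ)) with hI
  have hc : ∀ g n, PowerSeries.coeff n (Hy.D3.mu φ a ha g) = φ (wc n g) :=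
    fun g n => coeff_mu' ha (hwc n g)
  have h0 : ∀ g, Hy.D3.mu φ a ha g = 0 ↔ g ∈ I := fun g => by
    rw [hker, PowerSeries.ext_iff]
    exact forall_congr' fun n => by rw [hc, map_zero, hφ]
  let q : MvPowerSeries ι ℂ →ₐ[ℂ] (MvPowerSeries ι ℂ ⧸ I) := Ideal.Quotient.mkₐ ℂ I
  have hq : Function.Surjective q := Ideal.Quotient.mkₐ_surjective ℂ I
  let μ : (MvPowerSeries ι ℂ ⧸ I) →ₐ[ℂ] PowerSeries K :=
    Ideal.Quotient.liftₐ I (Hy.D3.mu φ a ha) fun g hg => (h0 g).2 hg
  have hμ : ∀ g, μ (q g) = Hy.D3.mu φ a ha g := fun g => rfl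
  let c : MvPolynomial ι ℂ →ₐ[ℂ] MvPowerSeries ι ℂ := MvPolynomial.coeToMvPowerSeries.algHom ℂ
  have hcc : ∀ F, c F = (F : MvPowerSeries ι ℂ) := fun F => by
    simp [c]
  have hs : Function.Surjective φ.rangeRestrict := φ.rangeRestrict_surjective
  have hle : RingHom.ker φ.rangeRestrict.toRingHom ≤ RingHom.ker (q.comp c).toRingHom := by
    intro F hF
    have h1 : φ F = 0 := congrArg Subtype.val (RingHom.mem_ker.1 hF)
    change q (c F) = 0
    rw [hcc]
    exact Ideal.Quotient.eq_zero_iff_mem.2 (Ideal.mem_map_of_mem _ ((hφ F).1 h1))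
  let i0 := AlgHom.liftOfSurjective φ.rangeRestrict hs (q.comp c) hle
  have hi : ∀ F, i0 (φ.rangeRestrict F) = q (F : MvPowerSeries ι ℂ) := fun F => by
    rw [← hcc]
    exact AlgHom.liftOfSurjective_apply _ _ _ _ F
  have hw : ∀ n (F : MvPolynomial ι ℂ),
      wc n (F : MvPowerSeries ι ℂ) = weightedHomogeneousComponent a n F := fun n F => by
    ext α
    rw [hwc, coeff_weightedHomogeneousComponent, MvPolynomial.coeff_coe]
  refine ⟨μ, i0, ?_, fun r n => ?_, fun f hf => ?_, inferInstance, fun g n hg => ?_,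
    fun D P hD r => ?_⟩
  · refine (injective_iff_map_eq_zero μ).2 fun r hr => ?_
    obtain ⟨g, rfl⟩ := hq r
    exact Ideal.Quotient.eq_zero_iff_mem.2 ((h0 g).1 hr)
  · obtain ⟨g, rfl⟩ := hq r
    rw [hμ, hc]
    refine ⟨⟨_, rfl⟩, wt_hom hE fun α hα => ?_⟩
    rw [hwc] at hα
    by_contra h
    exact hα (if_neg h)
  · choose F hF using fun n => (hf n).1
    have hF' : ∀ n, φ (F n) = f n := hF
    let g : MvPowerSeries ι ℂ := fun α => (F (Finsupp.weight a α)).coeff α
    refine ⟨q g, ?_⟩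
    ext n
    rw [hμ, hc, PowerSeries.coeff_mk, ← hF', ← same hJ hφ hE (F := F n) (n := n)
      (by rw [hF']; exact (hf n).2)]
    congr 1
    ext α
    rw [hwc, coeff_weightedHomogeneousComponent]
    split_ifs with h
    · rw [← h]; rfl
    · rfl
  · obtain ⟨F, rfl⟩ := hs g
    have hg' : E (φ F) = (n : ℂ) • φ F := hg
    rw [hi, hμ]
    ext m
    rw [hc, hw, PowerSeries.coeff_monomial]
    split_ifs with h
    · rw [h]; exact same hJ hφ hE hg'
    · exact other hJ hφ hE hg' h
  · obtain ⟨g, rfl⟩ := hq r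
    rw [Nc.Pres.chain (q := q) ⟨hq, rfl⟩ D g]
    refine Ideal.sum_mem _ fun i _ => Ideal.mul_mem_left _ _ ?_
    have h1 := hD (φ.rangeRestrict (.X i))
    rwa [hi, MvPolynomial.coe_X] at h1

end Pool.Agent.MP_51db15_ag.Qh
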