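import Pool.Agent.MP_51db15_ag.Qh.Spec2
import Pool.Agent.MP_51db15_ag.Qh.SIG

/-! Row HCLO: the homogeneous components of a closed form on the completion are closed. -/

namespace Pool.Agent.MP_51db15_ag.Qh

open Module

namespace HCLOx

variable {K R : Type} [Field K] [Algebra ℂ K] [CommRing R] [Algebra ℂ R]

theorem cf_zero (μ : R →ₐ[ℂ] PowerSeries K) (n : ℤ) : cf μ n 0 = 0 := by
  unfold cf
  split_ifs <;> simp

theorem cf_add (μ : R →ₐ[ℂ] PowerSeries K) (n : ℤ) (r s : R) :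
    cf μ n (r + s) = cf μ n r + cf μ n s := by
  unfold cf
  split_ifs <;> simp

theorem cf_sub (μ : R →ₐ[ℂ] PowerSeries K) (n : ℤ) (r s : R) :
    cf μ n (r - s) = cf μ n r - cf μ n s := by
  unfold cf
  split_ifs <;> simp

theorem lft_lie {S : Subalgebra ℂ K} {i0 : S →ₐ[ℂ] R} {X Y : DD K} {X' Y' : DR R}
    (hX : X ∈ TT S) (hY : Y ∈ TT S) (lX : Lft i0 X X') (lY : Lft i0 Y Y') :
    Lft i0 ⁅X, Y⁆ ⁅X', Y'⁆ := by
  intro g g' h
  rw [Derivation.commutator_apply, lY g ⟨Y g, hY _ g.2⟩ rfl, lX g ⟨X g, hX _ g.2⟩ rfl,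
    lX _ ⟨X (Y g), hX _ (hY _ g.2)⟩ rfl, lY _ ⟨Y (X g), hY _ (hX _ g.2)⟩ rfl, ← map_sub]
  congr 1
  apply Subtype.ext
  rw [h, Derivation.commutator_apply]
  rfl

theorem wt_lie {E X Y : DD K} {p q : ℤ} (hX : ⁅E, X⁆ = (p : ℂ) • X) (hY : ⁅E, Y⁆ = (q : ℂ) • Y) :
    ⁅E, ⁅X, Y⁆⁆ = ((p + q : ℤ) : ℂ) • ⁅X, Y⁆ := by
  rw [leibniz_lie, hX, hY, smul_lie, lie_smul, Int.cast_add, add_smul]

/-- the Cartan expression -/
def Ca (η : FF K) (X Y Z : DD K) : K :=
  X (η Y Z) - Y (η X Z) + Z (η X Y) - η ⁅X, Y⁆ Z + η ⁅X, Z⁆ Y - η ⁅Y, Z⁆ X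

theorem tri {ι : Type} {S : Subalgebra ℂ K} {E : DD K} {x : ι → K} (bas : Bas S x) (ev : Ev S E)
    (η : FF K) (sk : ∀ X Y, η X Y + η Y X = 0)
    (h : ∀ X ∈ TT S, ∀ p : ℤ, ⁅E, X⁆ = (p : ℂ) • X → ∀ Y ∈ TT S, ∀ q : ℤ, ⁅E, Y⁆ = (q : ℂ) • Y →
      ∀ Z ∈ TT S, ∀ r : ℤ, ⁅E, Z⁆ = (r : ℂ) • Z → Ca η X Y Z = 0) (X Y Z : DD K) :
    Ca η X Y Z = 0 := by
  refine SIGx.d_ind bas ev (fun X => Ca η X Y Z = 0) (by simp [Ca]) (fun u v a b => ?_)
    (fun g u a => ?_) (fun X hX p kp => ?_) X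
  · simp only [Ca, map_add, add_lie, LinearMap.add_apply, Derivation.add_apply] at a b ⊢
    linear_combination a + b
  · simp only [Ca, smul_lie', map_sub, map_smul, LinearMap.sub_apply, LinearMap.smul_apply,
      Derivation.smul_apply, smul_eq_mul, Derivation.leibniz] at a ⊢
    linear_combination g * a
  refine SIGx.d_ind bas ev (fun Y => Ca η X Y Z = 0) (by simp [Ca]) (fun u v a b => ?_)
    (fun g u a => ?_) (fun Y hY q kq => ?_) Y
  · simp only [Ca, map_add, add_lie, lie_add, LinearMap.add_apply, Derivation.add_apply] at a b ⊢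
    linear_combination a + b
  · simp only [Ca, smul_lie', lie_smul', map_sub, map_add, map_smul, LinearMap.sub_apply,
      LinearMap.add_apply, LinearMap.smul_apply, Derivation.smul_apply, smul_eq_mul,
      Derivation.leibniz] at a ⊢
    linear_combination g * a + Z g * sk X u
  refine SIGx.d_ind bas ev (fun Z => Ca η X Y Z = 0) (by simp [Ca]) (fun u v a b => ?_)
    (fun g u a => ?_) (fun Z hZ r kr => h X hX p kp Y hY q kq Z hZ r kr) Z
  · simp only [Ca, map_add, lie_add, LinearMap.add_apply, Derivation.add_apply] at a b ⊢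
    linear_combination a + b
  · simp only [Ca, lie_smul', map_add, map_smul, LinearMap.add_apply, LinearMap.smul_apply,
      Derivation.smul_apply, smul_eq_mul, Derivation.leibniz] at a ⊢
    linear_combination g * a + X g * sk Y u - Y g * sk X u

end HCLOx

open HCLOx in
theorem hclo : S_HCLO := by
  intro K ι R _ _ _ _ _ S E x a μ i0 ω η hc _ hl hm hω n
  have sk : ∀ X Y, η n X Y + η n Y X = 0 := fun X Y => by
    refine SIGx.d_ind hc.bas hc.ev (fun X => η n X Y + η n Y X = 0) (by simp) (fun u v a b => ?_)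
      (fun g u a => ?_) (fun X hX p kp => ?_) X
    · simp only [map_add, LinearMap.add_apply]
      linear_combination a + b
    · simp only [map_smul, LinearMap.smul_apply, smul_eq_mul]
      linear_combination g * a
    refine SIGx.d_ind hc.bas hc.ev (fun Y => η n X Y + η n Y X = 0) (by simp) (fun u v a b => ?_)
      (fun g u a => ?_) (fun Y hY q kq => ?_) Y
    · simp only [map_add, LinearMap.add_apply]
      linear_combination a + b
    · simp only [map_smul, LinearMap.smul_apply, smul_eq_mul]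
      linear_combination g * a
    obtain ⟨X', lX⟩ := hl.ex X hX
    obtain ⟨Y', lY⟩ := hl.ex Y hY
    rw [hm n p q X hX Y hY X' Y' kp kq lX lY, hm n q p Y hY X hX Y' X' kq kp lY lX,
      add_right_comm n q p, ← cf_add, ← hω.1.neg_eq X' Y', add_neg_cancel, cf_zero]
  refine ⟨fun X => ?_, tri hc.bas hc.ev (η n) sk fun X hX p kp Y hY q kq Z hZ r kr => ?_⟩
  · have : CharZero K := charZero_of_injective_algebraMap (algebraMap ℂ K).injective
    have h := sk X X
    rw [← two_mul] at h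
    exact (mul_eq_zero.1 h).resolve_left two_ne_zero
  obtain ⟨X', lX⟩ := hl.ex X hX
  obtain ⟨Y', lY⟩ := hl.ex Y hY
  obtain ⟨Z', lZ⟩ := hl.ex Z hZ
  have e := congrArg (cf μ (n + p + q + r)) (hω.2.1 X' Y' Z')
  rw [cf_zero, cf_sub, cf_add, cf_sub, cf_add, cf_sub] at e
  unfold Ca
  rw [hm n q r Y hY Z hZ Y' Z' kq kr lY lZ, hm n p r X hX Z hZ X' Z' kp kr lX lZ,
    hm n p q X hX Y hY X' Y' kp kq lX lY,
    hm n (p + q) r _ (lie_mem hX hY) Z hZ _ Z' (wt_lie kp kq) kr (lft_lie hX hY lX lY) lZ,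
    hm n (p + r) q _ (lie_mem hX hZ) Y hY _ Y' (wt_lie kp kr) kq (lft_lie hX hZ lX lZ) lY,
    hm n (q + r) p _ (lie_mem hY hZ) X hX _ X' (wt_lie kq kr) kp (lft_lie hY hZ lY lZ) lX,
    ← hl.sh X hX p X' kp lX, ← hl.sh Y hY q Y' kq lY, ← hl.sh Z hZ r Z' kr lZ,
    show n + q + r + p = n + p + q + r by ring, show n + p + r + q = n + p + q + r by ring,
    show n + (p + q) + r = n + p + q + r by ring, show n + (p + r) + q = n + p + q + r by ring,
    show n + (q + r) + p = n + p + q + r by ring]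
  exact e

end Pool.Agent.MP_51db15_ag.Qh
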