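import Pool.Agent.MP_51db15_ag.Qh.Spec2

/-! HCMP: the homogeneous components of a form on the completion. -/

namespace Pool.Agent.MP_51db15_ag.Qh

open Module

namespace HCMPx

variable {K ι R : Type} [Field K] [Algebra ℂ K] [CommRing R] [Algebra ℂ R]
  {S : Subalgebra ℂ K} {E : DD K} {x : ι → K} {μ : R →ₐ[ℂ] PowerSeries K} {i0 : S →ₐ[ℂ] R}

theorem cf_zero (n : ℤ) : cf μ n 0 = 0 := by
  unfold cf
  split_ifs <;> simp

theorem cf_sum {κ : Type} (s : Finset κ) (n : ℤ) (r : κ → R) :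
    cf μ n (∑ i ∈ s, r i) = ∑ i ∈ s, cf μ n (r i) := by
  unfold cf
  split_ifs <;> simp

theorem mulz (hv : Ev S E) (hl : HL S E μ i0) (g : S) (m : ℤ) (hg : E g = (m : ℂ) • (g : K))
    (n : ℤ) (r : R) : cf μ (n + m) (i0 g * r) = g * cf μ n r := by
  by_cases h0 : g = 0
  · subst h0
    simp [cf_zero]
  · obtain ⟨d, hd⟩ := hv.nat g g.2 m (fun h => h0 (Subtype.ext h)) hg
    have hm : m = d := by exact_mod_cast hd
    subst hm
    exact hl.mul g d (by simpa using hg) n r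

theorem basis (hb : Bas S x) (hv : Ev S E) : ∃ (κ : Type) (_ : Fintype κ) (b : Basis κ K (DD K))
    (p : κ → ℤ), ∀ i, b i ∈ TT S ∧ ⁅E, b i⁆ = (p i : ℂ) • b i := by
  have := hb.fd
  obtain ⟨t, ht, hsp, hli⟩ :=
    exists_linearIndependent K {X : DD K | X ∈ TT S ∧ ∃ p : ℤ, ⁅E, X⁆ = (p : ℂ) • X}
  have htop : ⊤ ≤ Submodule.span K (Set.range (Subtype.val : t → DD K)) := by
    rw [Subtype.range_coe, hsp]
    intro D _
    obtain ⟨s, -, hs, hD⟩ := hb.den D
    have h1 : (⨆ n : ℤ, TC S ⊓ (ad E).eigenspace (n : ℂ)) ≤ (Submodule.span K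
        {X : DD K | X ∈ TT S ∧ ∃ p : ℤ, ⁅E, X⁆ = (p : ℂ) • X}).restrictScalars ℂ :=
      iSup_le fun n X hX => Submodule.subset_span ⟨hX.1, n, End.mem_eigenspace_iff.1 hX.2⟩
    have h2 := Submodule.smul_mem _ s⁻¹ ((Submodule.restrictScalars_mem _ _ _).1 (h1 (hv.T _ hD)))
    rwa [smul_smul, inv_mul_cancel₀ hs, one_smul] at h2
  have hfin : Finite t := hli.finite
  choose p hp using fun i : t => (ht i.2).2
  refine ⟨t, Fintype.ofFinite t, Basis.mk hli htop, p, fun i => ?_⟩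
  rw [Basis.mk_apply]
  exact ⟨(ht i.2).1, hp i⟩

theorem coef {κ : Type} [Fintype κ] (b : Basis κ K (DD K)) (p : κ → ℤ)
    (hp : ∀ i, ⁅E, b i⁆ = (p i : ℂ) • b i) (X : DD K) (q : ℤ) (hX : ⁅E, X⁆ = (q : ℂ) • X) (i : κ) :
    E (b.repr X i) = ((q - p i : ℤ) : ℂ) • b.repr X i := by
  have h1 : ∑ i, (E (b.repr X i) - ((q - p i : ℤ) : ℂ) • b.repr X i) • b i = 0 := by
    have h2 : ⁅E, X⁆ = ∑ i, ⁅E, b.repr X i • b i⁆ := by
      conv_lhs => rw [← b.sum_repr X]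
      exact map_sum (ad E) _ _
    have h3 : (q : ℂ) • X = ∑ i, (q : ℂ) • b.repr X i • b i := by
      rw [← Finset.smul_sum, b.sum_repr X]
    rw [← sub_eq_zero.2 hX, h2, h3, ← Finset.sum_sub_distrib]
    refine Finset.sum_congr rfl fun i _ => ?_
    rw [lie_smul', hp, Int.cast_sub, sub_smul, sub_smul, sub_smul, smul_assoc, smul_assoc,
      smul_comm (b.repr X i) (p i : ℂ)]
    abel
  exact sub_eq_zero.1 (Fintype.linearIndependent_iff.1 b.linearIndependent _ h1 i)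

theorem denom (g : GenK) (hb : Bas S x) (hv : Ev S E) {κ : Type} [Fintype κ] (c : κ → K)
    (m : κ → ℤ) (hc : ∀ i, E (c i) = (m i : ℂ) • c i) :
    ∃ s ∈ S, s ≠ 0 ∧ (∃ d : ℤ, E s = (d : ℂ) • s) ∧ ∀ i, s * c i ∈ S := by
  classical
  let H : Submodule ℂ K :=
    { carrier := {s | s ∈ S ∧ ∀ i, s * c i ∈ S}
      add_mem' := fun h h' => ⟨add_mem h.1 h'.1, fun i => by
        rw [add_mul]; exact add_mem (h.2 i) (h'.2 i)⟩
      zero_mem' := ⟨zero_mem S, fun i => by rw [zero_mul]; exact zero_mem S⟩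
      smul_mem' := fun z _ h => ⟨S.smul_mem h.1 z, fun i => by
        rw [smul_mul_assoc]; exact S.smul_mem (h.2 i) z⟩ }
  have hH : Dz (op E) H := g.sub K (op E) (SC S) H hv.s (fun s hs => hs.1) fun s hs =>
    ⟨hv.tm s hs.1, fun i => by
      have h : op E s * c i = E (s * c i) - (m i : ℂ) • (s * c i) := by
        rw [Derivation.leibniz, hc, op_apply, smul_eq_mul, smul_eq_mul, mul_smul_comm]
        ring
      rw [h]
      exact sub_mem (hv.tm _ (hs.2 i)) (S.smul_mem (hs.2 i) _)⟩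
  choose u hu h hh hh0 he using fun i => hb.frac (c i)
  have h1 : ∏ i, h i ∈ H := ⟨prod_mem fun i _ => hh i, fun i => by
    rw [← Finset.prod_erase_mul _ _ (Finset.mem_univ i), he i, mul_assoc,
      mul_div_cancel₀ _ (hh0 i)]
    exact mul_mem (prod_mem fun j _ => hh j) (hu i)⟩
  by_contra hn
  have h2 : (⨆ n : ℤ, H ⊓ (op E).eigenspace (n : ℂ)) = ⊥ :=
    iSup_eq_bot.2 fun n => (Submodule.eq_bot_iff _).2 fun s hs => by
      by_contra hs0
      exact hn ⟨s, hs.1.1, hs0, ⟨n, End.mem_eigenspace_iff.1 hs.2⟩, hs.1.2⟩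
  have h3 := hH _ h1
  rw [h2, Submodule.mem_bot] at h3
  exact Finset.prod_ne_zero_iff.2 (fun i _ => hh0 i) h3

theorem one (g : GenK) (hb : Bas S x) (hv : Ev S E) (hl : HL S E μ i0) {κ : Type} [Fintype κ]
    (b : Basis κ K (DD K)) (p : κ → ℤ) (b' : κ → DR R) (hm : ∀ i, b i ∈ TT S)
    (hp : ∀ i, ⁅E, b i⁆ = (p i : ℂ) • b i) (hb' : ∀ i, Lft i0 (b i) (b' i)) (X : DD K)
    (hT : X ∈ TT S) (q : ℤ) (hX : ⁅E, X⁆ = (q : ℂ) • X) (X' : DR R) (hX' : Lft i0 X X')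
    (φ : DR R →ₗ[R] R) (n : ℤ) :
    cf μ (n + q) (φ X') = ∑ i, b.repr X i * cf μ (n + p i) (φ (b' i)) := by
  have hc := coef b p hp X q hX
  obtain ⟨s, hs, hs0, ⟨d, hd⟩, hsc⟩ := denom g hb hv (fun i => b.repr X i) _ hc
  have h1 : i0 ⟨s, hs⟩ • X' = ∑ i, i0 ⟨s * b.repr X i, hsc i⟩ • b' i := by
    refine hl.uniq _ _ fun f => ?_
    have e1 : (∑ i, i0 ⟨s * b.repr X i, hsc i⟩ • b' i) (i0 f) =
        ∑ i, (i0 ⟨s * b.repr X i, hsc i⟩ • b' i) (i0 f) :=
      map_sum (AddMonoidHom.mk' (fun D : DR R => D (i0 f)) fun _ _ => rfl) _ _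
    have e2 : X f = ∑ i, (b.repr X i • b i) f := by
      conv_lhs => rw [← b.sum_repr X]
      exact map_sum (dd (f : K)) _ _
    rw [e1, Derivation.smul_apply, hX' f ⟨X f, hT f f.2⟩ rfl, smul_eq_mul, ← map_mul]
    rw [Finset.sum_congr rfl fun i _ => by
      rw [Derivation.smul_apply, hb' i f ⟨b i f, hm i f f.2⟩ rfl, smul_eq_mul, ← map_mul]]
    rw [← map_sum]
    congr 1
    apply Subtype.ext
    rw [AddSubmonoidClass.coe_finsetSum]
    simp only [MulMemClass.coe_mul]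
    rw [e2, Finset.mul_sum]
    exact Finset.sum_congr rfl fun i _ => by rw [Derivation.smul_apply, smul_eq_mul, mul_assoc]
  refine mul_left_cancel₀ hs0 ?_
  have h2 := mulz hv hl ⟨s, hs⟩ d hd (n + q) (φ X')
  rw [← smul_eq_mul, ← map_smul, h1, map_sum, cf_sum] at h2
  refine h2.symm.trans ?_
  rw [Finset.mul_sum]
  refine Finset.sum_congr rfl fun i _ => ?_
  have h3 := mulz hv hl ⟨s * b.repr X i, hsc i⟩ (d + (q - p i)) (by
    show E (s * b.repr X i) = _ • (s * b.repr X i)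
    rw [Derivation.leibniz, hc, hd, Int.cast_add, add_smul, smul_eq_mul, smul_eq_mul,
      mul_smul_comm, mul_smul_comm, mul_comm (b.repr X i) s, add_comm]) (n + p i) (φ (b' i))
  rw [map_smul, smul_eq_mul, show n + q + d = n + p i + (d + (q - p i)) by ring, h3, mul_assoc]

end HCMPx

theorem hcmp (g : GenK) : S_HCMP := by
  classical
  intro K ι R _ _ _ _ _ S E x a μ i0 ω hc _ hl
  obtain ⟨κ, _, b, p, hb⟩ := HCMPx.basis hc.bas hc.ev
  choose b' hb' using fun i => hl.ex (b i) (hb i).1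
  refine ⟨fun n => Matrix.toBilin b fun i j => cf μ (n + p i + p j) (ω (b' i) (b' j)), ?_⟩
  intro n u v X hX Y hY X' Y' eX eY lX lY
  have one := HCMPx.one g hc.bas hc.ev hl b p b' (fun i => (hb i).1) (fun i => (hb i).2) hb'
  rw [Matrix.toBilin_apply, show n + u + v = n + v + u by ring]
  refine Eq.trans ?_ (one X hX u eX X' lX (ω.flip Y') (n + v)).symm
  refine Finset.sum_congr rfl fun i _ => ?_
  have h := one Y hY v eY Y' lY (ω (b' i)) (n + p i)
  rw [show n + v + p i = n + p i + v by ring]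
  refine Eq.trans ?_ (congrArg (b.repr X i * ·) h).symm
  simp only [Finset.mul_sum]
  exact Finset.sum_congr rfl fun j _ => by ring

end Pool.Agent.MP_51db15_ag.Qh
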