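import Pool.Agent.MP_51db15_ag.Qh.Spec2
import Pool.Agent.MP_51db15_ag.Hy.MINP

/-! PROJECT QF, row HDC: components of a derivation of the completion. -/

namespace Pool.Agent.MP_51db15_ag.Qh

open Module

namespace HDCx

theorem glue {U V ι : Type} [AddCommGroup U] [Module ℂ U] [AddCommGroup V] [Module ℂ V]
    (p : ι → Submodule ℂ U) (hp : iSupIndep p) (f : ι → U →ₗ[ℂ] V) :
    ∃ D : U →ₗ[ℂ] V, ∀ i, ∀ u ∈ p i, D u = f i u := by
  classical
  obtain ⟨r, hr⟩ := LinearMap.exists_leftInverse_of_injective _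
    (LinearMap.ker_eq_bot.2 hp.dfinsupp_lsum_injective)
  refine ⟨DFinsupp.lsum ℕ (fun i => f i ∘ₗ (p i).subtype) ∘ₗ r, fun i u hu => ?_⟩
  have h1 := LinearMap.congr_fun hr (DFinsupp.single i ⟨u, hu⟩)
  rw [LinearMap.comp_apply, DFinsupp.lsum_single, LinearMap.id_apply] at h1
  have h2 : r u = DFinsupp.single i ⟨u, hu⟩ := h1
  rw [LinearMap.comp_apply, h2, DFinsupp.lsum_single]
  rfl

variable {K R : Type} [Field K] [Algebra ℂ K] [CommRing R] [Algebra ℂ R]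

theorem cf_add (μ : R →ₐ[ℂ] PowerSeries K) (n : ℤ) (r s : R) :
    cf μ n (r + s) = cf μ n r + cf μ n s := by
  unfold cf
  split_ifs
  · rw [map_add, map_add]
  · rw [add_zero]

theorem cf_lin (μ : R →ₐ[ℂ] PowerSeries K) (n : ℤ) :
    ∃ L : R →ₗ[ℂ] K, ∀ r, L r = cf μ n r := by
  refine ⟨⟨⟨cf μ n, cf_add μ n⟩, fun c r => ?_⟩, fun _ => rfl⟩
  show cf μ n (c • r) = c • cf μ n r
  unfold cf
  split_ifs
  · rw [map_smul]
    rfl
  · rw [smul_zero]

theorem cf_mem {S : Subalgebra ℂ K} {E : DD K} {μ : R →ₐ[ℂ] PowerSeries K} {i0 : S →ₐ[ℂ] R}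
    (h : Hat S E μ i0) (n : ℤ) (r : R) : cf μ n r ∈ S ∧ E (cf μ n r) = (n : ℂ) • cf μ n r := by
  unfold cf
  split_ifs with hn
  · obtain ⟨m, rfl⟩ := Int.eq_ofNat_of_zero_le hn
    simpa using h.mem r m
  · exact ⟨zero_mem S, by simp⟩

end HDCx

theorem hdc : S_HDC := by
  intro K ι R _ _ _ _ _ S E x a μ i0 hC hH hL D p
  choose L hLc using HDCx.cf_lin μ
  obtain ⟨j, hj⟩ := LinearMap.exists_extend (p := SC S)
    (i0.toLinearMap : ↥(SC S) →ₗ[ℂ] R)
  have hj' : ∀ g : S, j g = i0 g := fun g => LinearMap.congr_fun hj g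
  obtain ⟨T, hT⟩ := HDCx.glue _ (End.eigenspaces_iSupIndep (op E))
    fun c : ℂ => L (⌊c.re⌋ + p) ∘ₗ D.toLinearMap ∘ₗ j
  have hT' : ∀ (g : S) (n : ℕ), E g = (n : ℂ) • (g : K) → T g = cf μ (n + p) (D (i0 g)) := by
    intro g n hg
    rw [hT n g (End.mem_eigenspace_iff.2 hg), ← hLc, ← hj']
    simp
  have ind : ∀ P : K → Prop, P 0 → (∀ u v, P u → P v → P (u + v)) →
      (∀ (u : S) (n : ℕ), E u = (n : ℂ) • (u : K) → P u) → ∀ u ∈ S, P u := by
    intro P h0 h1 h2 u hu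
    refine Submodule.iSup_induction (motive := P) _ (hC.ev.s u hu) (fun n v hv => ?_) h0 h1
    by_cases hv0 : v = 0
    · rw [hv0]
      exact h0
    · have h3 : E v = (n : ℂ) • v := End.mem_eigenspace_iff.1 hv.2
      obtain ⟨m, hm⟩ := hC.ev.nat v hv.1 n hv0 h3
      exact h2 ⟨v, hv.1⟩ m (hm ▸ h3)
  have hS : ∀ u ∈ S, T u ∈ S := ind (fun u => T u ∈ S) (by rw [map_zero]; exact zero_mem S)
    (fun u v h1 h2 => by rw [map_add]; exact add_mem h1 h2)
    fun u n h => by rw [hT' u n h]; exact (HDCx.cf_mem hH _ _).1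
  have hLe : ∀ u ∈ S, ∀ v ∈ S, T (u * v) = u * T v + v * T u := by
    refine ind (fun u => ∀ v ∈ S, T (u * v) = u * T v + v * T u) (fun v _ => by simp)
      (fun u u' h1 h2 v hv => by rw [add_mul, map_add, map_add, h1 v hv, h2 v hv]; ring)
      fun u m hm => ?_
    refine ind (fun v => T (u * v) = u * T v + v * T u) (by simp)
      (fun v v' h1 h2 => by rw [mul_add, map_add, map_add, h1, h2]; ring) fun v n hn => ?_
    have h1 : E ((u * v : S) : K) = ((m + n : ℕ) : ℂ) • ((u * v : S) : K) := by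
      rw [MulMemClass.coe_mul, Derivation.leibniz, hm, hn, Nat.cast_add, add_smul, smul_eq_mul,
        smul_eq_mul, mul_smul_comm, mul_smul_comm, mul_comm (v : K) u, add_comm]
    have h2 := hT' (u * v) (m + n) h1
    rw [MulMemClass.coe_mul] at h2
    have h3 := hL.mul u m hm (n + p) (D (i0 v))
    have h4 := hL.mul v n hn (m + p) (D (i0 u))
    have e1 : (n : ℤ) + p + m = ((m + n : ℕ) : ℤ) + p := by push_cast; ring
    have e2 : (m : ℤ) + p + n = ((m + n : ℕ) : ℤ) + p := by push_cast; ring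
    rw [e1] at h3
    rw [e2] at h4
    rw [h2, map_mul, Derivation.leibniz, HDCx.cf_add, smul_eq_mul, smul_eq_mul, h3, h4,
      hT' u m hm, hT' v n hn]
  obtain ⟨t, ht⟩ := Hy.lift S K S.val (T ∘ₗ S.val.toLinearMap)
    (fun y => by
      obtain ⟨u, hu, v, hv, -, h⟩ := hC.cx.frac y
      exact ⟨⟨u, hu⟩, ⟨v, hv⟩, h⟩)
    (fun u v => hLe u u.2 v v.2) fun u h => (congrArg T h).trans (map_zero T)
  have e : ∀ u ∈ S, t u = T u := fun u hu => ht ⟨u, hu⟩
  have hX : ∀ (g : S) (n : ℕ), E g = (n : ℂ) • (g : K) → t g = cf μ (n + p) (D (i0 g)) :=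
    fun g n hg => (e g g.2).trans (hT' g n hg)
  refine ⟨t, fun u hu => (e u hu).symm ▸ hS u hu, hC.bas.ext _ _ fun i => ?_, hX⟩
  have h1 := hX ⟨x i, hC.bas.mem i⟩ (a i) (hC.cx.eig i)
  have h2 := (HDCx.cf_mem hH (a i + p) (D (i0 ⟨x i, hC.bas.mem i⟩))).2
  rw [← h1] at h2
  have h3 : E (t (x i)) = ((a i : ℂ) + p) • t (x i) := by
    rw [h2]
    push_cast
    rfl
  rw [Derivation.commutator_apply, h3, hC.cx.eig i, Derivation.map_smul, add_smul,
    Derivation.smul_apply]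
  abel

end Pool.Agent.MP_51db15_ag.Qh
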