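import Pool.Agent.MP_51db15_ag.Qh.Spec6

/-! Row HFR: free lattices. -/

namespace Pool.Agent.MP_51db15_ag.Qh

open Module

namespace HFRx

variable {K U κ : Type} [Field K] [Algebra ℂ K] [AddCommGroup U] [Module K U] [Module ℂ U]
  [IsScalarTower ℂ K U] [Fintype κ] {S : Subalgebra ℂ K} {E : DD K} {δ : End ℂ U}
  {e : Basis κ K U} {d : κ → ℤ}

omit [Module ℂ U] [IsScalarTower ℂ K U] in
theorem mem_iff (u : U) : u ∈ Submodule.span S (Set.range e) ↔ ∀ i, e.repr u i ∈ S := by
  rw [Submodule.mem_span_range_iff_exists_fun]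
  constructor
  · rintro ⟨c, rfl⟩ i
    have : (∑ j, c j • e j) = ∑ j, (c j : K) • e j := rfl
    rw [this, e.repr_sum_self]
    exact (c i).2
  · exact fun h => ⟨fun i => ⟨e.repr u i, h i⟩, e.sum_repr u⟩

omit [Fintype κ] in
theorem one (hc : Cn E δ) (he : ∀ i, δ (e i) = (d i : ℂ) • e i) (g : K) (i : κ) :
    δ (g • e i) = (E g + (d i : ℂ) • g) • e i := by
  rw [hc, he, add_smul, add_comm, smul_assoc, smul_comm]

theorem repr_op (hc : Cn E δ) (he : ∀ i, δ (e i) = (d i : ℂ) • e i) (u : U) (i : κ) :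
    e.repr (δ u) i = E (e.repr u i) + (d i : ℂ) • e.repr u i := by
  conv_lhs => rw [← e.sum_repr u, map_sum δ]
  simp only [HFRx.one hc he]
  rw [e.repr_sum_self]

theorem eig_iff (hc : Cn E δ) (he : ∀ i, δ (e i) = (d i : ℂ) • e i) (c : ℂ) (u : U) :
    u ∈ δ.eigenspace c ↔ ∀ i, e.repr u i ∈ (op E).eigenspace (c - d i) := by
  simp only [End.mem_eigenspace_iff, op_apply]
  rw [e.ext_elem_iff]
  refine forall_congr' fun i => ?_
  rw [HFRx.repr_op hc he, sub_smul, eq_sub_iff_add_eq, ← algebraMap_smul K c u, map_smul,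
    Finsupp.smul_apply, algebraMap_smul]

theorem rank (hc : Cn E δ) (he : ∀ i, δ (e i) = (d i : ℂ) • e i) (hF : Fd (op E) (SC S)) (c : ℂ) :
    finrank ℂ ↥((Submodule.span S (Set.range e)).restrictScalars ℂ ⊓ δ.eigenspace c) =
      ∑ i, finrank ℂ ↥(SC S ⊓ (op E).eigenspace (c - d i)) := by
  have : ∀ i, FiniteDimensional ℂ ↥(SC S ⊓ (op E).eigenspace (c - d i)) := fun i => hF _
  let T : ↥((Submodule.span S (Set.range e)).restrictScalars ℂ ⊓ δ.eigenspace c) →ₗ[ℂ]
      (∀ i, ↥(SC S ⊓ (op E).eigenspace (c - d i))) :=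
    LinearMap.pi fun i => LinearMap.codRestrict _
      ((e.coord i).restrictScalars ℂ ∘ₗ Submodule.subtype _) fun u =>
        ⟨(HFRx.mem_iff u.1).1 u.2.1 i, (HFRx.eig_iff hc he c u.1).1 u.2.2 i⟩
  have hT : Function.Bijective T := by
    constructor
    · rw [injective_iff_map_eq_zero]
      intro u hu
      refine Subtype.ext (e.ext_elem fun i => ?_)
      rw [ZeroMemClass.coe_zero, map_zero]
      exact congrArg Subtype.val (congrFun hu i)
    · intro g
      have r : ∀ i, e.repr (∑ j, (g j : K) • e j) i = g i := fun i => by rw [e.repr_sum_self]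
      refine ⟨⟨∑ j, (g j : K) • e j, (HFRx.mem_iff _).2 fun i => ?_,
        (HFRx.eig_iff hc he c _).2 fun i => ?_⟩, funext fun i => Subtype.ext (r i)⟩
      · rw [r]
        exact (g i).2.1
      · rw [r]
        exact (g i).2.2
  rw [← Module.finrank_pi_fintype ℂ]
  exact (LinearEquiv.ofBijective T hT).finrank_eq

end HFRx

theorem hfr (s : S_HSS) : S_HFR := by
  intro K ι U κ _ _ _ _ _ _ _ _ S E x a δ e d hC hc he
  classical
  refine ⟨⟨Submodule.fg_span (Set.finite_range e), fun u hu => ?_, fun u hu => ?_, fun u => ?_⟩,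
    fun t t0 t1 => ?_⟩
  · rw [HFRx.mem_iff] at hu ⊢
    intro i
    rw [HFRx.repr_op hc he]
    exact add_mem (hC.ev.tm _ (hu i)) (S.smul_mem (hu i) _)
  · have hu' := (HFRx.mem_iff u).1 hu
    rw [← e.sum_repr u]
    refine Submodule.sum_mem _ fun i _ => ?_
    have key : (⨆ n : ℤ, SC S ⊓ (op E).eigenspace (n : ℂ)) ≤
        Submodule.comap ((LinearMap.toSpanSingleton K U (e i)).restrictScalars ℂ)
          (⨆ n : ℤ, (Submodule.span S (Set.range e)).restrictScalars ℂ ⊓ δ.eigenspace (n : ℂ)) := by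
      refine iSup_le fun n g hg => Submodule.mem_iSup_of_mem (n + d i) ⟨?_, ?_⟩
      · exact Submodule.smul_mem (Submodule.span S (Set.range e)) (⟨g, hg.1⟩ : S)
          (Submodule.subset_span ⟨i, rfl⟩)
      · have h1 : E g = (n : ℂ) • g := End.mem_eigenspace_iff.1 hg.2
        refine End.mem_eigenspace_iff.2 ?_
        change δ (g • e i) = ((n + d i : ℤ) : ℂ) • (g • e i)
        rw [HFRx.one hc he, h1, ← add_smul, Int.cast_add, smul_assoc]
    exact key (hC.ev.s _ (hu' i))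
  · choose g hg h hh h0 hy using fun i => hC.bas.frac (e.repr u i)
    refine ⟨∏ i, h i, prod_mem fun i _ => hh i, Finset.prod_ne_zero_iff.2 fun i _ => h0 i,
      (HFRx.mem_iff _).2 fun i => ?_⟩
    rw [map_smul, Finsupp.smul_apply, smul_eq_mul, hy i,
      ← Finset.prod_erase_mul _ _ (Finset.mem_univ i), mul_assoc, mul_div_cancel₀ _ (h0 i)]
    exact mul_mem (prod_mem fun j _ => hh j) (hg i)
  · have hs := (s K ι S E x a hC t t0 t1).1
    have h1 : ∀ i, HasSum (fun k : ℤ =>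
        (finrank ℂ ↥(SC S ⊓ (op E).eigenspace ((k : ℂ) - d i)) : ℝ) * t ^ k)
        (t ^ d i * hilb (op E) (SC S) t) := by
      intro i
      have h2 := ((Equiv.subRight (d i)).hasSum_iff.2 hs.hasSum).mul_left (t ^ d i)
      refine h2.congr_fun fun k => ?_
      change _ = t ^ d i *
        ((finrank ℂ ↥(SC S ⊓ (op E).eigenspace ((k - d i : ℤ) : ℂ)) : ℝ) * t ^ (k - d i))
      rw [Int.cast_sub, mul_left_comm, ← zpow_add₀ t0.ne', add_sub_cancel]
    have h3 := hasSum_sum fun i (_ : i ∈ Finset.univ) => h1 i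
    rw [Finset.sum_mul, ← h3.tsum_eq]
    refine tsum_congr fun k => ?_
    rw [HFRx.rank hc he hC.vtx.fd, Nat.cast_sum, Finset.sum_mul]

end Pool.Agent.MP_51db15_ag.Qh
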