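import Pool.Agent.MP_51db15_ag.Qh.Spec3

/-! Row HG: from complex weights to positive integer weights. -/

namespace Pool.Agent.MP_51db15_ag.Qh

namespace HGx

variable {ι : Type}

theorem wt (c : ι → ℂ) (a : ι → ℕ) (l : ℂ →+ ℂ) (h : ∀ i, l (c i) = a i) (α : ι →₀ ℕ) :
    l (Finsupp.weight c α) = (Finsupp.weight a α : ℕ) := by
  rw [Finsupp.weight_apply, Finsupp.weight_apply, Finsupp.sum, Finsupp.sum, map_sum, Nat.cast_sum]
  refine Finset.sum_congr rfl fun i _ => ?_
  rw [map_nsmul, h, smul_eq_mul, nsmul_eq_mul, Nat.cast_mul]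

theorem mem (I : Ideal (MvPowerSeries ι ℂ)) (c : ι → ℂ) (a : ι → ℕ) (l : ℂ →+ ℂ)
    (h : ∀ i, l (c i) = a i) (hI : ∀ g ∈ I, ∀ e, Hy.comp c e g ∈ I) {g : MvPowerSeries ι ℂ}
    (hg : g ∈ I) (n : ℕ) (p : MvPolynomial ι ℂ)
    (hp : ∀ α, p.coeff α = if Finsupp.weight a α = n then MvPowerSeries.coeff α g else 0) :
    (p : MvPowerSeries ι ℂ) ∈ I := by
  classical
  have e : (p : MvPowerSeries ι ℂ) =
      ∑ e ∈ p.support.image (Finsupp.weight c), Hy.comp c e g := by
    ext α
    rw [MvPolynomial.coeff_coe, map_sum]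
    simp only [Hy.coeff_comp]
    rw [Finset.sum_ite_eq]
    split_ifs with hα
    · obtain ⟨β, hβ, e⟩ := Finset.mem_image.1 hα
      have h1 : Finsupp.weight a β = n := by
        by_contra h1
        exact MvPolynomial.mem_support_iff.1 hβ (by rw [hp, if_neg h1])
      have h2 := congrArg l e
      rw [wt c a l h, wt c a l h, Nat.cast_inj, h1] at h2
      rw [hp, if_pos h2.symm]
    · by_contra h1
      exact hα (Finset.mem_image_of_mem _ (MvPolynomial.mem_support_iff.2 h1))
  rw [e]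
  exact I.sum_mem fun e _ => hI g hg e

end HGx

theorem hg (r : S_RAT) (k : S_HKER) : S_HG := by
  intro ι _ _ I c hc hI
  classical
  obtain ⟨l, hl, -⟩ := r (Finset.univ.image c) ∅ Complex.reAddGroupHom fun z hz => by
    obtain ⟨i, -, rfl⟩ := Finset.mem_image.1 hz
    exact hc i
  choose a ha0 ha using fun i => hl (c i) (Finset.mem_image_of_mem _ (Finset.mem_univ i))
  have hJ : ∀ g ∈ I.comap MvPolynomial.coeToMvPowerSeries.ringHom, ∀ n,
      MvPolynomial.weightedHomogeneousComponent a n g ∈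
        I.comap (MvPolynomial.coeToMvPowerSeries.ringHom (σ := ι) (R := ℂ)) := fun g hg n =>
    HGx.mem I c a l ha hI (g := (g : MvPowerSeries ι ℂ)) hg n
      (MvPolynomial.weightedHomogeneousComponent a n g) fun α => by
      rw [MvPolynomial.coeff_weightedHomogeneousComponent, MvPolynomial.coeff_coe]
  refine ⟨a, _, ha0, hJ, le_antisymm Ideal.map_comap_le fun g hg => ?_, rfl⟩
  obtain ⟨wc, h1, h2⟩ := k ι a _ ha0 hJ
  exact (h2 g).2 fun n => HGx.mem I c a l ha hI hg n (wc n g) (h1 n g)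

end Pool.Agent.MP_51db15_ag.Qh
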