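import Pool.Agent.MP_51db15_ag.Qh.Spec2

/-! PROJECT QF, row HGEN: homogeneous generators generate the fields of the completion. -/

namespace Pool.Agent.MP_51db15_ag.Qh

open Module

noncomputable section

namespace HGENx

variable {K : Type} [Field K] [Algebra ℂ K] {S : Subalgebra ℂ K} {E : DD K}

theorem gens (e : Ev S E) (fg : (TT S).FG) : ∃ (n : ℕ) (u : Fin n → DD K) (p : Fin n → ℤ),
    (∀ j, u j ∈ TT S ∧ ⁅E, u j⁆ = (p j : ℂ) • u j) ∧ TT S ≤ Submodule.span S (Set.range u) := by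
  have h : Submodule.span S {D | D ∈ TT S ∧ ∃ q : ℤ, ⁅E, D⁆ = (q : ℂ) • D} = TT S := by
    refine le_antisymm (Submodule.span_le.2 fun D hD => hD.1) fun D hD => ?_
    have : (⨆ n : ℤ, TC S ⊓ (ad E).eigenspace (n : ℂ)) ≤ (Submodule.span S
        {D | D ∈ TT S ∧ ∃ q : ℤ, ⁅E, D⁆ = (q : ℂ) • D}).restrictScalars ℂ :=
      iSup_le fun n Y hY => Submodule.subset_span ⟨hY.1, n, End.mem_eigenspace_iff.1 hY.2⟩
    exact this (e.T D hD)
  rw [← h] at fg
  obtain ⟨s, s1, s2⟩ := (Submodule.fg_span_iff_fg_span_finset_subset _).1 fg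
  choose p hp using fun j : Fin s.card => (s1 (s.equivFin.symm j).2).2
  refine ⟨s.card, fun j => s.equivFin.symm j, p, fun j => ⟨(s1 (s.equivFin.symm j).2).1, hp j⟩, ?_⟩
  rw [← h, s2]
  exact Submodule.span_mono fun D hD => ⟨s.equivFin ⟨D, hD⟩, by simp⟩

/-- combinations with homogeneous coefficients -/
def W (S : Subalgebra ℂ K) (E : DD K) {n : ℕ} (u : Fin n → DD K) (p : Fin n → ℤ) (q : ℤ) :
    Submodule ℂ (DD K) where
  carrier := {X | ∃ g : Fin n → K, (∀ j, g j ∈ S ∧ E (g j) = ((q - p j : ℤ) : ℂ) • g j) ∧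
    X = ∑ j, g j • u j}
  add_mem' := by
    rintro _ _ ⟨g, a, rfl⟩ ⟨g', a', rfl⟩
    exact ⟨g + g', fun j => ⟨add_mem (a j).1 (a' j).1, by
      rw [Pi.add_apply, map_add, (a j).2, (a' j).2, smul_add]⟩, by
      simp only [Pi.add_apply, add_smul, Finset.sum_add_distrib]⟩
  zero_mem' := ⟨0, fun j => ⟨zero_mem _, by simp⟩, by simp⟩
  smul_mem' := by
    rintro c _ ⟨g, a, rfl⟩
    exact ⟨c • g, fun j => ⟨S.smul_mem (a j).1 c, by
      rw [Pi.smul_apply, Derivation.map_smul, (a j).2, smul_comm]⟩, by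
      simp only [Pi.smul_apply, smul_assoc, Finset.smul_sum]⟩

theorem coef (e : Ev S E) {n : ℕ} {u : Fin n → DD K} {p : Fin n → ℤ}
    (hu : ∀ j, ⁅E, u j⁆ = (p j : ℂ) • u j) (sp : TT S ≤ Submodule.span S (Set.range u))
    {X : DD K} (hX : X ∈ TT S) {q : ℤ} (hq : ⁅E, X⁆ = (q : ℂ) • X) : X ∈ W S E u p q := by
  classical
  have eg : ∀ z : ℤ, W S E u p z ≤ (ad E).eigenspace (z : ℂ) := by
    rintro z _ ⟨g, a, rfl⟩
    refine sum_mem fun j _ => End.mem_eigenspace_iff.2 ?_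
    rw [ad_apply, lie_smul', hu, (a j).2, smul_comm, smul_assoc, ← add_smul]
    congr 1
    push_cast
    ring
  have al : X ∈ ⨆ z : ℤ, W S E u p z := by
    obtain ⟨c, rfl⟩ := (Submodule.mem_span_range_iff_exists_fun S).1 (sp hX)
    refine sum_mem fun j _ => ?_
    have : (⨆ z : ℤ, SC S ⊓ (op E).eigenspace (z : ℂ)) ≤ (⨆ z : ℤ, W S E u p z).comap
        ((LinearMap.toSpanSingleton K _ (u j)).restrictScalars ℂ) := by
      refine iSup_le fun z f hf => Submodule.mem_iSup_of_mem (z + p j)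
        ⟨Pi.single j f, fun i => ?_, ?_⟩
      · by_cases h : i = j
        · rw [h, Pi.single_eq_same, add_sub_cancel_right]
          exact ⟨hf.1, End.mem_eigenspace_iff.1 hf.2⟩
        · rw [Pi.single_eq_of_ne h]
          exact ⟨zero_mem _, by simp⟩
      · rw [Finset.sum_eq_single j (fun i _ h => by rw [Pi.single_eq_of_ne h, zero_smul])
          (by simp), Pi.single_eq_same]
        rfl
    exact this (e.s (c j) (c j).2)
  rw [iSup_split_single _ q] at al
  obtain ⟨w, hw, w', hw', rfl⟩ := Submodule.mem_sup.1 al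
  have h1 : w' ∈ (ad E).eigenspace (q : ℂ) := by
    have := sub_mem (End.mem_eigenspace_iff.2 hq : w + w' ∈ (ad E).eigenspace (q : ℂ)) (eg q hw)
    rwa [add_sub_cancel_left] at this
  have h2 : (⨆ (z : ℤ) (_ : z ≠ q), W S E u p z) ≤
      ⨆ (c : ℂ) (_ : c ≠ q), (ad E).eigenspace c :=
    iSup₂_le fun z hz => le_iSup₂_of_le (z : ℂ) (fun h => hz (Int.cast_injective h)) (eg z)
  rw [Submodule.disjoint_def.1 (End.eigenspaces_iSupIndep (ad E) q) w' h1 (h2 hw'), add_zero]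
  exact hw

theorem nat (e : Ev S E) {f : K} (hf : f ∈ S) {z : ℤ} (h : E f = (z : ℂ) • f) :
    f = 0 ∨ ∃ d : ℕ, z = d := by
  by_cases h0 : f = 0
  · exact Or.inl h0
  · obtain ⟨d, hd⟩ := e.nat f hf _ h0 h
    exact Or.inr ⟨d, by exact_mod_cast hd⟩

variable {R : Type} [CommRing R] [Algebra ℂ R] {μ : R →ₐ[ℂ] PowerSeries K} {i0 : S →ₐ[ℂ] R}

theorem cf_mul (e : Ev S E) (l : HL S E μ i0) (f : S) {z : ℤ} (h : E f = (z : ℂ) • (f : K))
    (m : ℤ) (r : R) : cf μ m (i0 f * r) = f * cf μ (m - z) r := by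
  rcases nat e f.2 h with h0 | ⟨d, rfl⟩
  · rw [show f = 0 from Subtype.ext h0]
    simp [cf]
  · rw [← l.mul f d (by simpa using h), sub_add_cancel]

theorem ext (e : Ev S E) (l : HL S E μ i0) (D D' : DR R)
    (h : ∀ (f : S) (n : ℕ), E f = (n : ℂ) • (f : K) → D (i0 f) = D' (i0 f)) : D = D' := by
  refine l.uniq D D' fun f => ?_
  have : ∃ hf : (f : K) ∈ S, D (i0 ⟨f, hf⟩) = D' (i0 ⟨f, hf⟩) := by
    refine Submodule.iSup_induction _ (motive := fun y => ∃ hy : y ∈ S,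
      D (i0 ⟨y, hy⟩) = D' (i0 ⟨y, hy⟩)) (e.s f f.2) (fun z y hy => ⟨hy.1, ?_⟩) ⟨zero_mem _, ?_⟩ ?_
    · have a : E y = (z : ℂ) • y := End.mem_eigenspace_iff.1 hy.2
      rcases nat e hy.1 a with rfl | ⟨d, rfl⟩
      · exact h _ 0 (by simp)
      · exact h _ d (by simpa using a)
    · exact h _ 0 (by simp)
    · rintro y y' ⟨a, b⟩ ⟨a', b'⟩
      refine ⟨add_mem a a', ?_⟩
      rw [show (⟨y + y', add_mem a a'⟩ : S) = ⟨y, a⟩ + ⟨y', a'⟩ from rfl, map_add, map_add, map_add,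
        b, b']
  exact this.2

theorem sum_app {A : Type} [CommRing A] [Algebra ℂ A] {n : ℕ} (r : Fin n → A)
    (v : Fin n → Derivation ℂ A A) (y : A) : (∑ j, r j • v j) y = ∑ j, r j * v j y := by
  have := map_sum (Derivation.coeFnAddMonoidHom (R := ℂ) (A := A) (M := A)) (fun j => r j • v j)
    Finset.univ
  exact (congrFun this y).trans (Finset.sum_apply _ _ _)

end HGENx

open HGENx in
theorem hgen (_g : GenK) (d : S_HDC) : S_HGEN := by
  intro K ι R _ _ _ _ _ S E x a μ i0 C H L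
  obtain ⟨n, u, p, hu, sp⟩ := gens C.ev C.bas.fgT
  choose u' hu' using fun j => L.ex (u j) (hu j).1
  refine ⟨n, u, p, u', fun j => ⟨(hu j).1, (hu j).2, hu' j⟩, fun D => ?_⟩
  choose X X1 X2 X3 using d K ι R S E x a μ i0 C H L D
  choose g g1 g2 using fun q => coef C.ev (fun j => (hu j).2) sp (X1 q) (X2 q)
  choose r hr using fun j => H.surj (fun m => g (m + p j) j) fun m =>
    ⟨(g1 _ j).1, by rw [(g1 _ j).2, add_sub_cancel_right, Int.cast_natCast]⟩
  have cr : ∀ j m, cf μ m (r j) = g (m + p j) j := fun j m => by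
    unfold cf
    split_ifs with h
    · rw [hr, PowerSeries.coeff_mk, Int.toNat_of_nonneg h]
    · rcases nat C.ev (g1 (m + p j) j).1 (g1 _ j).2 with h0 | ⟨k, hk⟩
      · exact h0.symm
      · omega
  refine ⟨r, ext C.ev L _ _ fun f k hf => H.inj (PowerSeries.ext fun m => ?_)⟩
  have e1 : ∀ y, PowerSeries.coeff m (μ y) = cf μ m y := fun y => by simp [cf]
  have e2 := X3 (m - k) f k hf
  rw [add_sub_cancel] at e2
  rw [e1, ← e2, g2, sum_app, sum_app, map_sum, map_sum]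
  refine Finset.sum_congr rfl fun j _ => ?_
  have e3 : E (u j f) = ((k + p j : ℤ) : ℂ) • u j f := by
    have := congrArg (fun Y : DD K => Y f) (hu j).2
    simp only [Derivation.commutator_apply, hf, Derivation.map_smul, Derivation.smul_apply] at this
    rw [eq_add_of_sub_eq this, ← add_smul]
    congr 1
    push_cast
    ring
  rw [e1, hu' j f ⟨u j f, (hu j).1 f f.2⟩ rfl, mul_comm (r j),
    cf_mul C.ev L ⟨u j f, (hu j).1 f f.2⟩ e3, cr, mul_comm,
    show (m : ℤ) - (k + p j) + p j = m - k by ring]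

end

end Pool.Agent.MP_51db15_ag.Qh
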