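import Pool.Agent.MP_51db15_ag.Qh.Spec3
import Pool.Agent.MP_51db15_ag.Hy.JORD1
import Pool.Agent.MP_51db15_ag.Hy.JORD2
import Pool.Agent.MP_51db15_ag.Hy.P2
import Pool.Agent.MP_51db15_ag.Nc.Base

/-! Normal form of an ideal that is stable under a contracting field. -/

namespace Pool.Agent.MP_51db15_ag.Qh

open MvPowerSeries Hy

namespace HJx

/-- the last iterate outside a set -/
theorem last {V : Type} [AddCommGroup V] [Module ℂ V] (t : Module.End ℂ V) (p : V → Prop) (x : V)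
    (hx : ¬ p x) (M : ℕ) (hM : p ((t ^ M) x)) : ∃ n : ℕ, ¬ p ((t ^ n) x) ∧ p (t ((t ^ n) x)) := by
  induction M with
  | zero => exact absurd hM hx
  | succ M ih =>
    by_cases h : p ((t ^ M) x)
    · exact ih h
    · exact ⟨M, h, by rwa [pow_succ'] at hM⟩

variable {ι : Type} [Fintype ι]

omit [Fintype ι] in
theorem pres : Nc.Pres (AlgHom.id ℂ (PS ι)) (IsLocalRing.maximalIdeal (PS ι)) :=
  ⟨Function.surjective_id, (Ideal.map_id _).symm⟩

theorem map_pow_mem (ψ : PS ι ≃ₐ[ℂ] PS ι) {n : ℕ} {g : PS ι}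
    (hg : g ∈ IsLocalRing.maximalIdeal (PS ι) ^ n) : ψ g ∈ IsLocalRing.maximalIdeal (PS ι) ^ n :=
  (pres.comp ψ).q_mem' hg

theorem X_notMem (i : ι) : (X i : PS ι) ∉ IsLocalRing.maximalIdeal (PS ι) ^ 2 := by
  classical
  intro h
  have h1 := (mem_pow_iff_order.1 h).trans
    (order_le (d := Finsupp.single i 1) (by simp [coeff_X]))
  simp at h1

/-- every weight is an eigenvalue of the linear part -/
theorem eig [DecidableEq ι] {v : ι → PS ι} {c : ι → ℂ} (h0 : ∀ i, constantCoeff (v i) = 0)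
    (h1 : ∀ i, IsHom c (c i) (v i)) (h2 : IsNilpotent (lin v - Matrix.diagonal c)) (i : ι) :
    ∃ g ∈ IsLocalRing.maximalIdeal (PS ι), g ∉ IsLocalRing.maximalIdeal (PS ι) ^ 2 ∧
      vf v g - c i • g ∈ IsLocalRing.maximalIdeal (PS ι) ^ 2 := by
  obtain ⟨M, hM⟩ := JORD2.hom_nil h0 h1 h2 (isHom_X i) 2
  obtain ⟨n, k1, k2⟩ := last (JORD2.op v - c i • 1)
    (fun g => g ∈ IsLocalRing.maximalIdeal (PS ι) ^ 2) (X i) (X_notMem i) M hM
  refine ⟨_, ?_, k1, k2⟩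
  have h3 : ∀ x ∈ (JORD2.mm ι 1).restrictScalars ℂ,
      (JORD2.op v - c i • 1) x ∈ (JORD2.mm ι 1).restrictScalars ℂ := fun x hx =>
    sub_mem (JORD2.vf_up h0 (Or.inr rfl)) (Submodule.smul_mem _ (c i) hx)
  have h4 : ((JORD2.op v - c i • 1) ^ n) (X i) ∈ IsLocalRing.maximalIdeal (PS ι) ^ 1 :=
    JORD2.st h3 (x := X i) (by
      change _ ∈ IsLocalRing.maximalIdeal (PS ι) ^ 1
      rw [pow_one]
      exact mem_max_iff.2 (constantCoeff_X i)) n
  rwa [pow_one] at h4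

end HJx

open HJx

theorem hj : S_HJ := by
  intro ι _ _ I ξ hI hm hc
  have v2 : Nc.Lf (AlgHom.id ℂ (PS ι)) (fun i => ξ (X i)) ξ := pres.lf fun i => rfl
  obtain ⟨ψ, c, -, h1, h2⟩ := jord1 p3 p2 ι (fun _ => 0) (fun i => ξ (X i))
    (fun i => mem_max_iff.1 (hm _ (mem_max_iff.2 (constantCoeff_X i))))
    fun i α _ => by simp [Finsupp.weight_apply]
  have h' := (pres (ι := ι)).comp ψ.symm
  obtain ⟨w, hw⟩ : ∃ w : ι → PS ι,
      w = fun i => ψ (vf (fun i => ξ (X i)) (ψ.symm (X i))) := ⟨_, rfl⟩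
  have hv : Nc.Lf ((AlgHom.id ℂ (PS ι)).comp (ψ.symm : PS ι →ₐ[ℂ] PS ι)) w ξ :=
    h'.lf fun i => by
      rw [hw]
      exact (ψ.symm_apply_apply _).trans (v2 (ψ.symm (X i))).symm
  have hv' : ∀ g, ξ (ψ.symm g) = ψ.symm (vf w g) := hv
  have h0 : ∀ i, constantCoeff (w i) = 0 := fun i =>
    h'.const.1 (by rw [← hv.X]; exact hm _ (h'.X_mem i))
  have h1' : ∀ i, IsHom c (c i) (w i) := fun i => by
    rw [hw]
    exact h1 i
  rw [← hw] at h2
  obtain ⟨k1, -⟩ := (jord2 ι w c h0 h1' h2).2 (I.comap (ψ.symm : PS ι →+* PS ι)) fun g hg => by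
    change ψ.symm (vf w g) ∈ I
    rw [← hv']
    exact hI _ hg
  refine ⟨ψ.symm, c, fun i => ?_, fun g hg e => k1 g hg e⟩
  obtain ⟨g, g1, g2, g3⟩ := eig h0 h1' h2 i
  refine hc (c i) (ψ.symm g) ?_ (fun h => g2 ?_) ?_
  · have h3 := map_pow_mem ψ.symm (n := 1) (g := g) (by rwa [pow_one])
    rwa [pow_one] at h3
  · have h3 := map_pow_mem ψ h
    rwa [AlgEquiv.apply_symm_apply] at h3
  · have h3 := map_pow_mem ψ.symm g3
    rwa [map_sub, map_smul, ← hv'] at h3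

end Pool.Agent.MP_51db15_ag.Qh
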