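import Pool.Agent.MP_51db15_ag.Qh.Spec2
import Pool.Agent.MP_51db15_ag.Hy.Base

/-! Row HKER: the completed ideal of a weighted homogeneous ideal. -/

set_option linter.unusedSectionVars false

namespace Pool.Agent.MP_51db15_ag.Qh

namespace HKERx

variable {ι : Type} [Fintype ι] [DecidableEq ι] {a : ι → ℕ}

/-- the component of weight `n`, as a polynomial -/
noncomputable def wc (a : ι → ℕ) (n : ℕ) (g : MvPowerSeries ι ℂ) : MvPolynomial ι ℂ :=
  MvPolynomial.weightedHomogeneousComponent a n (MvPowerSeries.truncTotal (n + 1) g)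

theorem degree_le (ha : ∀ i, 0 < a i) (α : ι →₀ ℕ) : Finsupp.degree α ≤ Finsupp.weight a α := by
  rw [Finsupp.degree_eq_sum, Finsupp.weight_eq_sum]
  exact Finset.sum_le_sum fun i _ => by
    rw [smul_eq_mul]
    exact Nat.le_mul_of_pos_right _ (ha i)

theorem weight_le (a : ι → ℕ) (α : ι →₀ ℕ) :
    Finsupp.weight a α ≤ Finsupp.degree α * ∑ j, a j := by
  rw [Finsupp.degree_eq_sum, Finsupp.weight_eq_sum, Finset.sum_mul]
  exact Finset.sum_le_sum fun i _ => by
    rw [smul_eq_mul]
    exact Nat.mul_le_mul_left _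
      (Finset.single_le_sum (fun j _ => Nat.zero_le (a j)) (Finset.mem_univ i))

theorem coeff_wc (ha : ∀ i, 0 < a i) (n : ℕ) (g : MvPowerSeries ι ℂ) (α : ι →₀ ℕ) :
    (wc a n g).coeff α = if Finsupp.weight a α = n then MvPowerSeries.coeff α g else 0 := by
  rw [wc, MvPolynomial.coeff_weightedHomogeneousComponent]
  split_ifs with h
  · exact MvPowerSeries.coeff_truncTotal _ (by have := degree_le ha α; omega)
  · rfl

theorem wc_add (n : ℕ) (g h : MvPowerSeries ι ℂ) : wc a n (g + h) = wc a n g + wc a n h := by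
  simp [wc]

theorem wc_zero (n : ℕ) : wc a n (0 : MvPowerSeries ι ℂ) = 0 := by simp [wc]

theorem wc_mul (ha : ∀ i, 0 < a i) (n : ℕ) (F : MvPolynomial ι ℂ) (s : MvPowerSeries ι ℂ) :
    wc a n ((F : MvPowerSeries ι ℂ) * s) = ∑ q ∈ Finset.HasAntidiagonal.antidiagonal n,
      MvPolynomial.weightedHomogeneousComponent a q.1 F * wc a q.2 s := by
  ext α
  rw [coeff_wc ha, MvPolynomial.coeff_sum]
  simp only [MvPolynomial.coeff_mul, coeff_wc ha, MvPolynomial.coeff_weightedHomogeneousComponent]
  rw [Finset.sum_comm, MvPowerSeries.coeff_mul]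
  have key : ∀ p ∈ Finset.HasAntidiagonal.antidiagonal α, (∑ q ∈ Finset.HasAntidiagonal.antidiagonal n,
      (if Finsupp.weight a p.1 = q.1 then MvPolynomial.coeff p.1 F else 0) *
        if Finsupp.weight a p.2 = q.2 then MvPowerSeries.coeff p.2 s else 0) =
      if Finsupp.weight a α = n then MvPolynomial.coeff p.1 F * MvPowerSeries.coeff p.2 s
        else 0 := by
    intro p hp
    have h3 : Finsupp.weight a α = Finsupp.weight a p.1 + Finsupp.weight a p.2 := by
      rw [← map_add, Finset.HasAntidiagonal.mem_antidiagonal.1 hp]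
    have h4 : ∀ q : ℕ × ℕ, q ≠ (Finsupp.weight a p.1, Finsupp.weight a p.2) →
        ((if Finsupp.weight a p.1 = q.1 then MvPolynomial.coeff p.1 F else 0) *
          if Finsupp.weight a p.2 = q.2 then MvPowerSeries.coeff p.2 s else 0) = 0 := by
      intro q hq
      by_cases h1 : Finsupp.weight a p.1 = q.1
      · rw [if_neg (fun h2 : Finsupp.weight a p.2 = q.2 => hq (Prod.ext h1.symm h2.symm)),
          mul_zero]
      · rw [if_neg h1, zero_mul]
    by_cases h : Finsupp.weight a α = n
    · rw [if_pos h, Finset.sum_eq_single_of_mem (Finsupp.weight a p.1, Finsupp.weight a p.2)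
        (Finset.HasAntidiagonal.mem_antidiagonal.2 (h3.symm.trans h)) fun q _ hq => h4 q hq, if_pos rfl, if_pos rfl]
    · rw [if_neg h]
      refine Finset.sum_eq_zero fun q hq => h4 q ?_
      rintro rfl
      exact h (h3.trans (Finset.HasAntidiagonal.mem_antidiagonal.1 hq))
  rw [Finset.sum_congr rfl key]
  split_ifs with h
  · simp only [MvPolynomial.coeff_coe]
  · simp

theorem order_sub (ha : ∀ i, 0 < a i) (r : ℕ) (g : MvPowerSeries ι ℂ) :
    (r : ℕ∞) ≤ (g - ∑ k ∈ Finset.range (r * ∑ j, a j + 1),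
      (wc a k g : MvPowerSeries ι ℂ)).order :=
  MvPowerSeries.nat_le_order fun α hα => by
    have h1 : Finsupp.weight a α < r * ∑ j, a j + 1 :=
      Nat.lt_succ_of_le ((weight_le a α).trans (Nat.mul_le_mul_right _ hα.le))
    rw [map_sub, map_sum]
    simp only [MvPolynomial.coeff_coe, coeff_wc ha]
    rw [Finset.sum_ite_eq, if_pos (Finset.mem_range.2 h1), sub_self]

end HKERx

open HKERx in
theorem hker : S_HKER := by
  intro ι _ _ a J ha hJ
  refine ⟨wc a, coeff_wc ha, fun g => ⟨fun hg => ?_, fun h => ?_⟩⟩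
  · have key : ∀ s : MvPowerSeries ι ℂ, ∀ n, wc a n (g * s) ∈ J := by
      induction hg using Submodule.span_induction with
      | mem x hx =>
        obtain ⟨F, hF, rfl⟩ := hx
        intro s n
        rw [show MvPolynomial.coeToMvPowerSeries.ringHom F = (F : MvPowerSeries ι ℂ) from rfl,
          wc_mul ha]
        exact Ideal.sum_mem _ fun q _ => Ideal.mul_mem_right _ _ (hJ F hF q.1)
      | zero => intro s n; rw [zero_mul, wc_zero]; exact J.zero_mem
      | add x y _ _ hx hy => intro s n; rw [add_mul, wc_add]; exact J.add_mem (hx s n) (hy s n)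
      | smul c x _ hx => intro s n; rw [smul_eq_mul, mul_comm c, mul_assoc]; exact hx _ n
    simpa using key 1
  · exact Hy.mem_ideal_of_approx _ fun r => ⟨_, Ideal.sum_mem _ fun k _ =>
      Ideal.mem_map_of_mem MvPolynomial.coeToMvPowerSeries.ringHom (h k), order_sub ha r g⟩

end Pool.Agent.MP_51db15_ag.Qh
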