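import Pool.Agent.MP_51db15_ag.Qh.Spec2

/-! PROJECT QF, row HL: fields extend to the completion and shift the components. -/

namespace Pool.Agent.MP_51db15_ag.Qh

open Module

noncomputable section

namespace HLx

variable {K ι R : Type} [Field K] [Algebra ℂ K] [CommRing R] [Algebra ℂ R]

/-- coefficients with integer index -/
def cz (n : ℤ) (f : PowerSeries K) : K := if 0 ≤ n then PowerSeries.coeff n.toNat f else 0

omit [Algebra ℂ K] in
theorem cz_nat (m : ℕ) (f : PowerSeries K) : cz m f = PowerSeries.coeff m f := by simp [cz]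

omit [Algebra ℂ K] in
theorem cz_pow (k : ℕ) (n : ℤ) (f : PowerSeries K) :
    cz n (PowerSeries.X ^ k * f) = cz (n - k) f := by
  unfold cz
  rw [PowerSeries.coeff_X_pow_mul']
  by_cases h : (k : ℤ) ≤ n
  · rw [if_pos (by omega), if_pos (by omega), if_pos (by omega)]
    congr 2
    omega
  · rw [if_neg (by omega : ¬0 ≤ n - k)]
    split_ifs with h1 h2
    · omega
    · rfl
    · rfl

omit [Algebra ℂ K] in
theorem cz_C (g : K) (n : ℤ) (f : PowerSeries K) : cz n (PowerSeries.C g * f) = g * cz n f := by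
  unfold cz
  split_ifs <;> simp

/-- a derivation acting on the coefficients -/
def st (X : DD K) (f : PowerSeries K) : PowerSeries K :=
  PowerSeries.mk fun m => X (PowerSeries.coeff m f)

theorem cz_st (X : DD K) (n : ℤ) (f : PowerSeries K) : cz n (st X f) = X (cz n f) := by
  unfold cz st
  split_ifs <;> simp

theorem st_mul (X : DD K) (f h : PowerSeries K) : st X (f * h) = f * st X h + st X f * h := by
  ext m
  simp only [st, PowerSeries.coeff_mk, PowerSeries.coeff_mul, map_sum, map_add,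
    Derivation.leibniz, smul_eq_mul, Finset.sum_add_distrib]
  congr 1
  exact Finset.sum_congr rfl fun _ _ => mul_comm _ _

theorem wt {E X : DD K} {p n : ℂ} {y : K} (hX : ⁅E, X⁆ = p • X) (hy : E y = n • y) :
    E (X y) = (n + p) • X y := by
  have h : E (X y) - X (E y) = p • X y := by
    rw [← Derivation.commutator_apply, hX]
    rfl
  rw [hy, Derivation.map_smul, sub_eq_iff_eq_add] at h
  rw [h, add_smul, add_comm]

variable {S : Subalgebra ℂ K} {E : DD K} {μ : R →ₐ[ℂ] PowerSeries K} {i0 : S →ₐ[ℂ] R}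

theorem cf_eq (n : ℤ) (r : R) : cf μ n r = cz n (μ r) := rfl

theorem cf_ext (hH : Hat S E μ i0) {r r' : R} (h : ∀ n : ℤ, cf μ n r = cf μ n r') : r = r' :=
  hH.inj (PowerSeries.ext fun m => by rw [← cz_nat, ← cz_nat]; exact h m)

theorem cf_add (n : ℤ) (r r' : R) : cf μ n (r + r') = cf μ n r + cf μ n r' := by
  unfold cf
  split_ifs <;> simp

theorem cf_smul (n : ℤ) (c : ℂ) (r : R) : cf μ n (c • r) = c • cf μ n r := by
  unfold cf
  split_ifs
  · rw [map_smul]
    rfl
  · simp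

theorem cf_mem (hH : Hat S E μ i0) (n : ℤ) (r : R) :
    cf μ n r ∈ S ∧ E (cf μ n r) = (n : ℂ) • cf μ n r := by
  unfold cf
  split_ifs with h
  · obtain ⟨m, rfl⟩ := Int.eq_ofNat_of_zero_le h
    simpa using hH.mem r m
  · simp

theorem neg_zero (hE : Ev S E) {y : K} (hy : y ∈ S) {n : ℤ} (h : E y = (n : ℂ) • y) (hn : n < 0) :
    y = 0 := by
  by_contra h0
  obtain ⟨m, hm⟩ := hE.nat y hy _ h0 h
  have : n = m := by exact_mod_cast hm
  omega

theorem ind (hE : Ev S E) (Q : S → Prop) (h0 : Q 0) (ha : ∀ g g', Q g → Q g' → Q (g + g'))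
    (hh : ∀ (g : S) (n : ℤ), E g = (n : ℂ) • (g : K) → Q g) (g : S) : Q g := by
  have h := Submodule.iSup_induction _ (motive := fun y : K => ∃ hy : y ∈ S, Q ⟨y, hy⟩)
    (hE.s g g.2) (fun n y hy => ⟨hy.1, hh _ n (End.mem_eigenspace_iff.1 hy.2)⟩) ⟨zero_mem S, h0⟩
    fun y y' ⟨h1, h2⟩ ⟨h3, h4⟩ => ⟨add_mem h1 h3, ha _ _ h2 h4⟩
  exact h.2

theorem cf_emb (hE : Ev S E) (hH : Hat S E μ i0) (g : S) {n : ℤ} (h : E g = (n : ℂ) • (g : K))
    (k : ℤ) : cf μ k (i0 g) = if k = n then (g : K) else 0 := by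
  by_cases hn : n < 0
  · have h0 : g = 0 := Subtype.ext (neg_zero hE g.2 h hn)
    simp [h0, cf]
  · obtain ⟨m, rfl⟩ := Int.eq_ofNat_of_zero_le (not_lt.1 hn)
    unfold cf
    rw [hH.emb g m (by simpa using h), PowerSeries.coeff_monomial]
    split_ifs <;> first | rfl | omega

theorem inj (hE : Ev S E) (hH : Hat S E μ i0) : Function.Injective i0 := by
  have key : ∀ g : S, ∃ N : ℕ, ∀ M, N ≤ M → ∑ m ∈ Finset.range M, cf μ m (i0 g) = g := by
    refine ind hE _ ⟨0, fun M _ => by simp [cf]⟩ ?_ ?_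
    · rintro g g' ⟨N, h⟩ ⟨N', h'⟩
      refine ⟨N + N', fun M hM => ?_⟩
      simp only [map_add, cf_add, Finset.sum_add_distrib]
      rw [h M (by omega), h' M (by omega)]
      rfl
    · intro g n h
      refine ⟨n.toNat + 1, fun M hM => ?_⟩
      simp only [cf_emb hE hH g h]
      by_cases hn : n < 0
      · simp [neg_zero hE g.2 h hn]
      · obtain ⟨m, rfl⟩ := Int.eq_ofNat_of_zero_le (not_lt.1 hn)
        simp only [Nat.cast_inj, Finset.sum_ite_eq', Finset.mem_range]
        exact if_pos (by simpa using hM)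
  refine (injective_iff_map_eq_zero i0).2 fun g hg => Subtype.ext ?_
  obtain ⟨N, h⟩ := key g
  rw [← h N le_rfl, hg]
  simp [cf]

theorem hom (hE : Ev S E) (hH : Hat S E μ i0) {X : DD K} (hX : X ∈ TT S) {p : ℤ}
    (hp : ⁅E, X⁆ = (p : ℂ) • X) :
    ∃ X' : DR R, Lft i0 X X' ∧ ∀ (n : ℤ) (r : R), cf μ (n + p) (X' r) = X (cf μ n r) := by
  have hw : ∀ (n : ℤ) (r : R), E (X (cf μ n r)) = ((n + p : ℤ) : ℂ) • X (cf μ n r) :=
    fun n r => by rw [wt hp (cf_mem hH n r).2, Int.cast_add]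
  have ex : ∀ r : R, ∃ r' : R, ∀ n : ℤ, cf μ n r' = X (cf μ (n - p) r) := by
    intro r
    obtain ⟨r', h⟩ := hH.surj (fun m => X (cf μ (m - p) r)) fun m =>
      ⟨hX _ (cf_mem hH _ r).1, by simpa using hw (m - p) r⟩
    refine ⟨r', fun n => ?_⟩
    by_cases hn : n < 0
    · rw [neg_zero hE (hX _ (cf_mem hH _ r).1) (hw (n - p) r) (by omega), cf, if_neg (by omega)]
    · obtain ⟨m, rfl⟩ := Int.eq_ofNat_of_zero_le (not_lt.1 hn)
      rw [cf_eq, cz_nat, h, PowerSeries.coeff_mk]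
  choose F hF using ex
  have rel : ∀ r, PowerSeries.X ^ (-p).toNat * μ (F r) = PowerSeries.X ^ p.toNat * st X (μ r) := by
    intro r
    ext m
    rw [← cz_nat, ← cz_nat, cz_pow, cz_pow, cz_st, ← cf_eq, ← cf_eq, hF]
    congr 2
    omega
  let L : R →ₗ[ℂ] R :=
    { toFun := F
      map_add' := fun r r' => cf_ext hH fun n => by simp only [cf_add, hF, map_add]
      map_smul' := fun c r => cf_ext hH fun n => by
        simp only [cf_smul, hF, Derivation.map_smul, RingHom.id_apply] }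
  have leib : ∀ r s, L (r * s) = r • L s + s • L r := by
    intro r s
    refine hH.inj (mul_left_cancel₀ (pow_ne_zero (-p).toNat (PowerSeries.X_ne_zero (R := K))) ?_)
    change _ * μ (F (r * s)) = _ * μ (r * F s + s * F r)
    rw [rel, map_mul, st_mul, map_add, map_mul, map_mul]
    linear_combination -(μ r * rel s) - μ s * rel r
  refine ⟨Derivation.mk' L leib, fun g g' hg => ?_, fun n r => ?_⟩
  · have e : g' = ⟨X g, hX g g.2⟩ := Subtype.ext hg
    subst e
    change L (i0 g) = _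
    refine ind hE (fun g => L (i0 g) = i0 ⟨X g, hX g g.2⟩) ?_ ?_ ?_ g
    · rw [map_zero, map_zero, eq_comm]
      exact (congrArg i0 (Subtype.ext (map_zero X))).trans (map_zero i0)
    · intro g g' h h'
      rw [map_add, map_add, h, h', ← map_add]
      exact congrArg i0 (Subtype.ext (map_add X _ _).symm)
    · intro g n h
      refine cf_ext hH fun k => ?_
      change cf μ k (F (i0 g)) = _
      rw [hF, cf_emb hE hH g h, cf_emb hE hH ⟨X g, hX g g.2⟩ (n := n + p)
        (by rw [Int.cast_add]; exact wt hp h)]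
      by_cases e : k = n + p
      · rw [if_pos e, if_pos (by omega)]
      · rw [if_neg e, if_neg (by omega), map_zero]
  · change cf μ (n + p) (F r) = _
    rw [hF, add_sub_cancel_right]

theorem uniq (hH : Hat S E μ i0) (D D' : DR R) (h : ∀ g : S, D (i0 g) = D' (i0 g)) : D = D' := by
  ext r
  exact sub_eq_zero.1 (hH.chain (D - D') ⊥ (fun g => sub_eq_zero.2 (h g)) r)

end HLx

open HLx in
theorem hl (_ : GenK) : S_HL := by
  intro K ι R _ _ _ _ _ S E x a μ i0 hC hH
  refine ⟨inj hC.ev hH, fun X hX => ?_, uniq hH, fun X hX p X' hp h n r => ?_,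
    fun g d h n r => ?_⟩
  · refine (Submodule.iSup_induction _ (motive := fun X : DD K => X ∈ TT S ∧ ∃ X', Lft i0 X X')
      (hC.ev.T X hX) (fun n Y hY => ⟨hY.1, ?_⟩) ⟨zero_mem _, 0, fun g g' h => ?_⟩ ?_).2
    · obtain ⟨Y', h, -⟩ := hom hC.ev hH hY.1 (End.mem_eigenspace_iff.1 hY.2)
      exact ⟨Y', h⟩
    · have e : g' = 0 := Subtype.ext h
      rw [e, map_zero]
      rfl
    · rintro Y Z ⟨h1, Y', h2⟩ ⟨h3, Z', h4⟩
      refine ⟨add_mem h1 h3, Y' + Z', fun g g' h => ?_⟩
      rw [Derivation.add_apply, h2 g ⟨Y g, h1 g g.2⟩ rfl, h4 g ⟨Z g, h3 g g.2⟩ rfl, ← map_add]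
      exact congrArg i0 (Subtype.ext h.symm)
  · obtain ⟨Y, h1, h2⟩ := hom hC.ev hH hX hp
    rw [uniq hH X' Y fun g => (h g ⟨X g, hX g g.2⟩ rfl).trans (h1 g ⟨X g, hX g g.2⟩ rfl).symm]
    exact h2 n r
  · have e : PowerSeries.monomial d (g : K) = PowerSeries.X ^ d * PowerSeries.C (g : K) := by
      ext m
      rw [PowerSeries.coeff_monomial, PowerSeries.coeff_mul_C, PowerSeries.coeff_X_pow]
      split_ifs <;> simp
    rw [cf_eq, map_mul, hH.emb g d h, e, mul_assoc, cz_pow, add_sub_cancel_right, cz_C, cf_eq]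

end

end Pool.Agent.MP_51db15_ag.Qh
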