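import Pool.Agent.MP_51db15_ag.Qh.Spec2

/-! PROJECT QF, row HLTP: one-forms vanish on the fields that vanish, through the completion. -/

namespace Pool.Agent.MP_51db15_ag.Qh

namespace HLTPx

theorem fin {R : Type} [CommRing R] [Algebra ℂ R] {n : ℕ} (u : Fin n → DR R)
    (h : ∀ D : DR R, ∃ r : Fin n → R, D = ∑ j, r j • u j) : Module.Finite R (DR R) := by
  refine Module.Finite.of_surjective (Fintype.linearCombination R u) fun D => ?_
  obtain ⟨r, hr⟩ := h D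
  exact ⟨r, by rw [Fintype.linearCombination_apply, ← hr]⟩

end HLTPx

theorem hltp (l : S_LTF) (o : S_HOV) : S_HLTP := by
  intro K ι R _ _ _ _ _ _ S E x a μ i0 ω hc hh hl hg hp ha hk P hP hPv Y hY hYP γ hγ
  obtain ⟨n, u, p, u', -, hu⟩ := hg
  have := HLTPx.fin u' hu
  have := hh.noeth
  obtain ⟨Q, hQ, hQP⟩ := o K ι R S E x a μ i0 hc hh hl P hP hPv
  obtain ⟨Y', hY'⟩ := hl.ex Y hY
  have h1 : ∀ r, Y' r ∈ Q := by
    refine hh.chain Y' Q fun g => ?_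
    obtain ⟨b, hb, e⟩ := hYP g g.2
    rw [hY' g b e.symm]
    exact (hQP b).2 hb
  obtain ⟨G, hG⟩ := hp γ hγ
  have h2 : ω G Y' = i0 ⟨γ Y, hγ Y hY⟩ := hG Y hY Y' ⟨γ Y, hγ Y hY⟩ hY' rfl
  have h3 : ω Y' G ∈ Q := l R ω hk Q hQ Y' G h1
  have h4 : ω G Y' ∈ Q := by
    rw [← ha.neg_eq Y' G]
    exact Q.neg_mem h3
  rw [h2] at h4
  exact ⟨_, (hQP _).1 h4, rfl⟩

end Pool.Agent.MP_51db15_ag.Qh
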