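import Pool.Agent.MP_51db15_ag.Qh.Spec3

/-! PROJECT QF, row HNRM: the cone of a normal germ is normal. -/

namespace Pool.Agent.MP_51db15_ag.Qh

open Module

namespace HNRMx

variable {K : Type} [Field K] [Algebra ℂ K] {S : Subalgebra ℂ K}

theorem dv {A : Type} [CommRing A] [IsDomain A] [IsIntegrallyClosed A]
    (fr : ∀ y : K, ∃ g ∈ S, ∃ h ∈ S, h ≠ 0 ∧ y = g / h) (φ : S →+* A)
    (hφ : Function.Injective φ) (g h : S) (h0 : h ≠ 0) (hi : IsIntegral S ((g : K) / h)) :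
    ∃ r, φ g = φ h * r := by
  have : IsFractionRing S K := IsFractionRing.of_field S K fun y => by
    obtain ⟨u, hu, v, hv, -, e⟩ := fr y
    exact ⟨⟨u, hu⟩, ⟨v, hv⟩, e⟩
  have j : Function.Injective ((algebraMap A (FractionRing A)).comp φ) :=
    (IsFractionRing.injective A (FractionRing A)).comp hφ
  have e : ∀ z : S, IsFractionRing.lift (K := K) j (z : K) = algebraMap A _ (φ z) :=
    fun z => IsFractionRing.lift_algebraMap j z
  obtain ⟨r, hr⟩ := IsIntegrallyClosed.algebraMap_eq_of_integral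
    (hi.map_of_comp_eq φ (IsFractionRing.lift (K := K) j) (RingHom.ext fun z => (e z).symm))
  refine ⟨r, IsFractionRing.injective A (FractionRing A) ?_⟩
  rw [map_mul, hr, map_div₀, e, e, mul_div_cancel₀]
  exact fun hz => h0 (j (hz.trans (map_zero _).symm))

theorem ind {E : DD K} (hE : Ev S E) (Q : S → Prop) (h0 : Q 0)
    (ha : ∀ g g', Q g → Q g' → Q (g + g'))
    (hh : ∀ (g : S) (n : ℕ), E g = (n : ℂ) • (g : K) → Q g) (g : S) : Q g := by
  have h := Submodule.iSup_induction _ (motive := fun y : K => ∃ hy : y ∈ S, Q ⟨y, hy⟩)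
    (hE.s g g.2) (fun n y hy => ⟨hy.1, by
      by_cases hy0 : y = 0
      · subst hy0
        exact h0
      · have h3 : E y = (n : ℂ) • y := End.mem_eigenspace_iff.1 hy.2
        obtain ⟨m, hm⟩ := hE.nat y hy.1 n hy0 h3
        exact hh ⟨y, hy.1⟩ m (hm ▸ h3)⟩) ⟨zero_mem S, h0⟩
    fun y y' ⟨h1, h2⟩ ⟨h3, h4⟩ => ⟨add_mem h1 h3, ha _ _ h2 h4⟩
  exact h.2

end HNRMx

open HNRMx in
theorem hnrm (s : S_SCA) : S_HNRM := by
  intro K ι R _ _ _ _ _ _ _ S E x a μ i0 C H L y hy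
  obtain ⟨ν, hν⟩ := s K ι S E x a C.cx C.bas C.ev
  have e1 : ∀ z : S, μ (i0 z) = (ν z : PowerSeries K) :=
    ind C.ev _ (by simp) (fun g g' h h' => by rw [map_add, map_add, map_add, h, h',
      Polynomial.coe_add]) fun g n h => by rw [H.emb g n h, hν g n h, Polynomial.coe_monomial]
  have e2 : ∀ z : S, (ν z).eval 1 = z :=
    ind C.ev _ (by simp) (fun g g' h h' => by rw [map_add, Polynomial.eval_add, h, h']; rfl)
      fun g n h => by simp [hν g n h]
  have j : Function.Injective ν := fun z z' h => Subtype.ext (by rw [← e2, h, e2])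
  obtain ⟨g, hg, h, hh, h0, rfl⟩ := C.cx.frac y
  have h0' : (⟨h, hh⟩ : S) ≠ 0 := fun hz => h0 (congrArg Subtype.val hz)
  obtain ⟨r, hr⟩ := dv C.cx.frac (i0 : S →+* R) L.inj ⟨g, hg⟩ ⟨h, hh⟩ h0' hy
  obtain ⟨f, hf⟩ := dv C.cx.frac (ν : S →+* Polynomial K) j ⟨g, hg⟩ ⟨h, hh⟩ h0' hy
  rw [RingHom.coe_coe] at hr hf
  have e3 : μ r = (f : PowerSeries K) := by
    have h1 := congrArg μ hr
    rw [map_mul, e1, e1, hf, Polynomial.coe_mul] at h1
    refine (mul_left_cancel₀ (fun hz => h0' (j ?_)) h1).symm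
    rw [map_zero]
    exact Polynomial.coe_eq_zero_iff.1 hz
  have e4 : g / h = f.eval 1 := by
    have h1 := congrArg (Polynomial.eval 1) hf
    rw [Polynomial.eval_mul, e2, e2] at h1
    exact (div_eq_iff h0).2 (h1.trans (mul_comm _ _))
  rw [e4, Polynomial.eval_eq_sum_range]
  refine sum_mem fun n _ => ?_
  rw [one_pow, mul_one, ← Polynomial.coeff_coe, ← e3]
  exact (H.mem r n).1

end Pool.Agent.MP_51db15_ag.Qh
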