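import Pool.Agent.MP_51db15_ag.Qh.Spec2

/-! HOV: primes inside the vertex are contractions of primes of the completion. -/

namespace Pool.Agent.MP_51db15_ag.Qh

open Module

namespace HOVx

variable {K ι R : Type} [Field K] [Algebra ℂ K] [CommRing R] [Algebra ℂ R]
  {S : Subalgebra ℂ K} {E : DD K} {x : ι → K} {a : ι → ℕ}
  {μ : R →ₐ[ℂ] PowerSeries K} {i0 : S →ₐ[ℂ] R}

theorem trunc (h : Hat S E μ i0) (r : R) (N : ℕ) :
    ∃ s : S, PowerSeries.X ^ N ∣ μ (r - i0 s) := by
  refine ⟨∑ n ∈ Finset.range N, (⟨PowerSeries.coeff n (μ r), (h.mem r n).1⟩ : S), ?_⟩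
  rw [PowerSeries.X_pow_dvd_iff]
  intro m hm
  have e : ∀ n, μ (i0 ⟨PowerSeries.coeff n (μ r), (h.mem r n).1⟩) =
      PowerSeries.monomial n (PowerSeries.coeff n (μ r)) := fun n => h.emb _ n (h.mem r n).2
  simp only [map_sub, map_sum, e, PowerSeries.coeff_monomial]
  rw [Finset.sum_ite_eq]
  simp [hm]

theorem approx (h : Hat S E μ i0) (P : Ideal S) (N : ℕ) (r : R)
    (hr : r ∈ P.map (i0 : S →+* R)) : ∃ p ∈ P, PowerSeries.X ^ N ∣ μ (r - i0 p) := by
  induction hr using Submodule.span_induction with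
  | mem y hy =>
    obtain ⟨p, hp, rfl⟩ := hy
    exact ⟨p, hp, by simp⟩
  | zero => exact ⟨0, P.zero_mem, by simp⟩
  | add y z _ _ hy hz =>
    obtain ⟨p, hp, h1⟩ := hy
    obtain ⟨q, hq, h2⟩ := hz
    refine ⟨p + q, P.add_mem hp hq, ?_⟩
    have e : y + z - i0 (p + q) = (y - i0 p) + (z - i0 q) := by rw [map_add]; ring
    rw [e, map_add]
    exact dvd_add h1 h2
  | smul c y _ hy =>
    obtain ⟨p, hp, h1⟩ := hy
    obtain ⟨s, h2⟩ := trunc h c N
    refine ⟨s * p, P.mul_mem_left s hp, ?_⟩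
    have e : c • y - i0 (s * p) = c * (y - i0 p) + (c - i0 s) * i0 p := by
      rw [map_mul, smul_eq_mul]; ring
    rw [e, map_add, map_mul, map_mul]
    exact dvd_add (h1.mul_left _) (h2.mul_right _)

theorem mono (hc : Cx S E x a) (M : ℕ) (hM : ∀ i, a i ≤ M) (m : K)
    (hm : m ∈ Submonoid.closure (Set.range x)) :
    ∃ (g : S) (n k : ℕ), (g : K) = m ∧ E m = (n : ℂ) • m ∧ g ∈ vx S x ^ k ∧ n ≤ k * M := by
  induction hm using Submonoid.closure_induction with
  | mem y hy =>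
    obtain ⟨i, rfl⟩ := hy
    have hx : x i ∈ S := hc.gen ▸ Algebra.subset_adjoin ⟨i, rfl⟩
    refine ⟨⟨x i, hx⟩, a i, 1, rfl, hc.eig i, ?_, by simpa using hM i⟩
    rw [pow_one]
    exact Ideal.subset_span ⟨i, rfl⟩
  | one => exact ⟨1, 0, 0, rfl, by simp, by simp, by simp⟩
  | mul y z _ _ hy hz =>
    obtain ⟨g, n, k, rfl, h1, h2, h3⟩ := hy
    obtain ⟨g', n', k', rfl, h1', h2', h3'⟩ := hz
    refine ⟨g * g', n + n', k + k', rfl, ?_, ?_, ?_⟩
    · rw [Derivation.leibniz, h1, h1']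
      simp only [smul_eq_mul, Algebra.smul_def, Nat.cast_add, map_add]
      ring
    · rw [pow_add]
      exact Ideal.mul_mem_mul h2 h2'
    · rw [add_mul]
      omega

theorem split (hc : Cx S E x a) (h : Hat S E μ i0) (M : ℕ) (hM : ∀ i, a i ≤ M) (h0 : 0 < M)
    (k : ℕ) (y : K) (hy : y ∈ Submodule.span ℂ (Submonoid.closure (Set.range x) : Set K)) :
    ∃ u v : S, y = u + v ∧ v ∈ vx S x ^ k ∧
      (∀ n, n < k * M → PowerSeries.coeff n (μ (i0 v)) = 0) ∧
      ∀ n, k * M ≤ n → PowerSeries.coeff n (μ (i0 u)) = 0 := by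
  induction hy using Submodule.span_induction with
  | mem y hy =>
    obtain ⟨g, n, k', rfl, h1, h2, h3⟩ := mono hc M hM y hy
    have e := h.emb g n h1
    by_cases hn : k * M ≤ n
    · refine ⟨0, g, by simp, ?_, fun m hm => ?_, fun m _ => by simp⟩
      · exact Ideal.pow_le_pow_right (Nat.le_of_mul_le_mul_right (hn.trans h3) h0) h2
      · rw [e, PowerSeries.coeff_monomial, if_neg (by omega)]
    · refine ⟨g, 0, by simp, zero_mem _, fun m _ => by simp, fun m hm => ?_⟩
      rw [e, PowerSeries.coeff_monomial, if_neg (by omega)]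
  | zero => exact ⟨0, 0, by simp, zero_mem _, fun m _ => by simp, fun m _ => by simp⟩
  | add y z _ _ hy hz =>
    obtain ⟨u, v, rfl, h1, h2, h3⟩ := hy
    obtain ⟨u', v', rfl, h1', h2', h3'⟩ := hz
    refine ⟨u + u', v + v', ?_, add_mem h1 h1', fun m hm => ?_, fun m hm => ?_⟩
    · push_cast
      ring
    · simp only [map_add, h2 m hm, h2' m hm, add_zero]
    · simp only [map_add, h3 m hm, h3' m hm, add_zero]
  | smul c y _ hy =>
    obtain ⟨u, v, rfl, h1, h2, h3⟩ := hy
    have e : ∀ (w : S) (m : ℕ), PowerSeries.coeff m (μ (i0 w)) = 0 →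
        PowerSeries.coeff m (μ (i0 (c • w))) = 0 := fun w m hw => by
      rw [map_smul, map_smul, ← algebraMap_smul K c, map_smul, hw, smul_zero]
    refine ⟨c • u, c • v, ?_, ?_, fun m hm => e v m (h2 m hm), fun m hm => e u m (h3 m hm)⟩
    · rw [smul_add]
      rfl
    · rw [Algebra.smul_def]
      exact Ideal.mul_mem_left _ _ h1

theorem deep (hc : Cx S E x a) (h : Hat S E μ i0) (hi : Function.Injective i0) (M : ℕ)
    (hM : ∀ i, a i ≤ M) (h0 : 0 < M) (k : ℕ) (g : S)
    (hg : PowerSeries.X ^ (k * M) ∣ μ (i0 g)) : g ∈ vx S x ^ k := by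
  have hy : (g : K) ∈ Submodule.span ℂ (Submonoid.closure (Set.range x) : Set K) := by
    rw [← Algebra.adjoin_eq_span, hc.gen]
    exact g.2
  obtain ⟨u, v, e, h1, h2, h3⟩ := split hc h M hM h0 k g hy
  have e' : g = u + v := Subtype.ext e
  rw [PowerSeries.X_pow_dvd_iff] at hg
  have hu : u = 0 := by
    apply hi
    apply h.inj
    ext n
    simp only [map_zero]
    by_cases hn : k * M ≤ n
    · exact h3 n hn
    · have := hg n (by omega)
      rw [e', map_add, map_add, map_add, h2 n (by omega), add_zero] at this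
      exact this
  rw [e', hu, zero_add]
  exact h1

end HOVx

theorem hov : S_HOV := by
  intro K ι R _ _ _ _ _ S E x a μ i0 hC hH hL P hP hle
  have key : (P.map (i0 : S →+* R)).comap (i0 : S →+* R) = P := by
    refine le_antisymm (fun g hg => ?_) Ideal.le_comap_map
    have hM : ∀ i, a i ≤ Finset.univ.sup a + 1 := fun i =>
      (Finset.le_sup (f := a) (Finset.mem_univ i)).trans (Nat.le_succ _)
    have := hC.bas.noeth
    have hne : (vx S x).map (Ideal.Quotient.mk P) ≠ ⊤ := by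
      intro ht
      have := congrArg (Ideal.comap (Ideal.Quotient.mk P)) ht
      rw [Ideal.comap_map_of_surjective _ Ideal.Quotient.mk_surjective, ← RingHom.ker_eq_comap_bot,
        Ideal.mk_ker, sup_eq_left.2 hle, Ideal.comap_top] at this
      exact hC.vtx.max.ne_top this
    have hz : Ideal.Quotient.mk P g ∈ ⨅ k : ℕ, (vx S x).map (Ideal.Quotient.mk P) ^ k := by
      refine Ideal.mem_iInf.2 fun k => ?_
      obtain ⟨p, hp, h1⟩ := HOVx.approx hH P (k * (Finset.univ.sup a + 1)) _ hg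
      have h2 : g - p ∈ vx S x ^ k :=
        HOVx.deep hC.cx hH hL.inj _ hM (Nat.succ_pos _) k _ (by rw [map_sub]; exact h1)
      have h3 := Ideal.mem_map_of_mem (Ideal.Quotient.mk P) h2
      rw [map_sub, Ideal.Quotient.eq_zero_iff_mem.2 hp, sub_zero, Ideal.map_pow] at h3
      exact h3
    rw [Ideal.iInf_pow_eq_bot_of_isDomain _ hne] at hz
    exact Ideal.Quotient.eq_zero_iff_mem.1 hz
  obtain ⟨Q, hQ, e⟩ := (Ideal.comap_map_eq_self_iff_of_isPrime P).1 key
  exact ⟨Q, hQ, fun g => by rw [← e]; rfl⟩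

end Pool.Agent.MP_51db15_ag.Qh
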