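import Pool.Agent.MP_51db15_ag.Qh.Spec2

/-! PROJECT QF, row HP1: the components of the form are regular, homogeneous, bounded below. -/

namespace Pool.Agent.MP_51db15_ag.Qh

open Module

namespace HP1x

variable {K : Type} [Field K] [Algebra ℂ K] {R : Type} [CommRing R] [Algebra ℂ R]

/-- homogeneous regular fields -/
def Hm (S : Subalgebra ℂ K) (E : DD K) : Set (DD K) :=
  {X | X ∈ TT S ∧ ∃ p : ℤ, ⁅E, X⁆ = (p : ℂ) • X}

theorem spanC {S : Subalgebra ℂ K} {E : DD K} (h : Ev S E) {D : DD K} (hD : D ∈ TT S) :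
    D ∈ Submodule.span ℂ (Hm S E) := by
  have h1 := h.T D hD
  refine (iSup_le fun n => ?_ : (⨆ n : ℤ, TC S ⊓ (ad E).eigenspace (n : ℂ)) ≤ _) h1
  intro X hX
  exact Submodule.subset_span ⟨hX.1, n, End.mem_eigenspace_iff.1 hX.2⟩

theorem spanK {ι : Type} {S : Subalgebra ℂ K} {E : DD K} {x : ι → K} (h : Ev S E) (b : Bas S x) :
    Submodule.span K (Hm S E) = ⊤ := by
  refine eq_top_iff.2 fun D _ => ?_
  obtain ⟨s, -, s0, hs⟩ := b.den D
  have h1 : s • D ∈ Submodule.span K (Hm S E) :=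
    Submodule.span_le_restrictScalars ℂ K _ (spanC h hs)
  have h2 := Submodule.smul_mem _ s⁻¹ h1
  rwa [inv_smul_smul₀ s0] at h2

theorem cf_mem {S : Subalgebra ℂ K} {E : DD K} {μ : R →ₐ[ℂ] PowerSeries K} {i0 : S →ₐ[ℂ] R}
    (h : Hat S E μ i0) (m : ℤ) (r : R) :
    cf μ m r ∈ S ∧ E (cf μ m r) = (m : ℂ) • cf μ m r := by
  unfold cf
  split_ifs with hm
  · obtain ⟨k, rfl⟩ := Int.eq_ofNat_of_zero_le hm
    simpa using h.mem r k
  · simp

theorem zero_on {s : Set (DD K)} (hs : Submodule.span K s = ⊤) (φ : FF K)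
    (h : ∀ X ∈ s, ∀ Y ∈ s, φ X Y = 0) : φ = 0 :=
  LinearMap.ext_on hs fun X hX => LinearMap.ext_on hs fun Y hY => h X hX Y hY

theorem reg {S : Subalgebra ℂ K} {E : DD K} (h : Ev S E) (φ : FF K)
    (hφ : ∀ X ∈ Hm S E, ∀ Y ∈ Hm S E, φ X Y ∈ S) : φ ∈ RF S := by
  have h1 : ∀ X ∈ Hm S E, ∀ Y ∈ Submodule.span ℂ (Hm S E), φ X Y ∈ S := by
    intro X hX Y hY
    induction hY using Submodule.span_induction with
    | mem Y hY => exact hφ X hX Y hY
    | zero => rw [map_zero]; exact zero_mem S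
    | add Y Y' _ _ a b => rw [map_add]; exact add_mem a b
    | smul c Y _ a => rw [lin_c]; exact S.smul_mem a c
  intro D hD D' hD'
  have h2 := spanC h hD
  clear hD
  induction h2 using Submodule.span_induction with
  | mem X hX => exact h1 X hX D' (spanC h hD')
  | zero => rw [map_zero]; exact zero_mem S
  | add X X' _ _ a b => rw [map_add]; exact add_mem a b
  | smul c X _ a => rw [lin_c]; exact S.smul_mem a c

end HP1x

open HP1x in
theorem hp1 : S_HP1 := by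
  intro K ι R _ _ _ _ _ S E x a μ i0 ω η hc hh hl hcmp
  have key : ∀ (n p q : ℤ) (X Y : DD K), X ∈ TT S → Y ∈ TT S → ⁅E, X⁆ = (p : ℂ) • X →
      ⁅E, Y⁆ = (q : ℂ) • Y → ∃ r, η n X Y = cf μ (n + p + q) r := by
    intro n p q X Y hX hY eX eY
    obtain ⟨X', lX⟩ := hl.ex X hX
    obtain ⟨Y', lY⟩ := hl.ex Y hY
    exact ⟨_, hcmp n p q X hX Y hY X' Y' eX eY lX lY⟩
  refine ⟨fun n => ⟨reg hc.ev _ ?_, ?_⟩, ?_⟩
  · rintro X ⟨hX, p, eX⟩ Y ⟨hY, q, eY⟩
    obtain ⟨r, e⟩ := key n p q X Y hX hY eX eY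
    rw [e]
    exact (cf_mem hh _ r).1
  · refine sub_eq_zero.1 (zero_on (spanK hc.ev hc.bas) _ ?_)
    rintro X ⟨hX, p, eX⟩ Y ⟨hY, q, eY⟩
    obtain ⟨r, e⟩ := key n p q X Y hX hY eX eY
    have e2 := (cf_mem hh (n + p + q) r).2
    rw [← e] at e2
    rw [LinearMap.sub_apply, LinearMap.sub_apply, lf_apply, e2, eX, eY, lin_c, lin_c]
    simp only [LinearMap.smul_apply]
    push_cast
    module
  · have := hc.bas.fd
    have hfg : (Submodule.span K (Hm S E)).FG := IsNoetherian.noetherian _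
    obtain ⟨t, ht, e⟩ := (Submodule.fg_span_iff_fg_span_finset_subset _).1 hfg
    rw [spanK hc.ev hc.bas] at e
    have hp : ∀ X : t, ∃ p : ℤ, ⁅E, (X : DD K)⁆ = (p : ℂ) • (X : DD K) := fun X => (ht X.2).2
    choose p hp using hp
    obtain ⟨M, hM⟩ := (Set.finite_range p).bddAbove
    refine ⟨-(2 * M), fun n hn => zero_on e.symm _ fun X hX Y hY => ?_⟩
    obtain ⟨r, e'⟩ := key n _ _ X Y (ht hX).1 (ht hY).1 (hp ⟨X, hX⟩) (hp ⟨Y, hY⟩)
    have h1 : p ⟨X, hX⟩ ≤ M := hM ⟨_, rfl⟩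
    have h2 : p ⟨Y, hY⟩ ≤ M := hM ⟨_, rfl⟩
    rw [e', cf, if_neg (by omega)]

end Pool.Agent.MP_51db15_ag.Qh
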