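import Pool.Agent.MP_51db15_ag.Qh.Spec2

/-! PROJECT QF: a truncation of the form is non-degenerate at the vertex. -/

namespace Pool.Agent.MP_51db15_ag.Qh

open Module

namespace HPERFx

variable {K ι R : Type} [Field K] [Algebra ℂ K] [CommRing R] [Algebra ℂ R] {S : Subalgebra ℂ K}
  {E : DD K} {x : ι → K} {a : ι → ℕ} {μ : R →ₐ[ℂ] PowerSeries K} {i0 : S →ₐ[ℂ] R}

theorem cf_sum {κ : Type} (s : Finset κ) (n : ℤ) (f : κ → R) :
    cf μ n (∑ k ∈ s, f k) = ∑ k ∈ s, cf μ n (f k) := by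
  unfold cf
  split_ifs
  · rw [map_sum, map_sum]
  · rw [Finset.sum_const_zero]

theorem cf_mul (n : ℤ) (r s : R) (L : ℕ) (h : ∀ d : ℕ, L ≤ d → cf μ (n - d) s = 0) :
    cf μ n (r * s) = ∑ d ∈ Finset.range L, PowerSeries.coeff d (μ r) * cf μ (n - d) s := by
  have z : ∀ d : ℕ, n < d → cf μ (n - d) s = 0 := fun d hd => if_neg (by omega)
  by_cases h0 : 0 ≤ n
  · rw [cf, if_pos h0, map_mul, PowerSeries.coeff_mul,
      Finset.Nat.sum_antidiagonal_eq_sum_range_succ
        (fun i j => PowerSeries.coeff i (μ r) * PowerSeries.coeff j (μ s))]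
    have e : ∀ d ∈ Finset.range n.toNat.succ, PowerSeries.coeff (n.toNat - d) (μ s) =
        cf μ (n - d) s := fun d hd => by
      have := Finset.mem_range.1 hd
      rw [cf, if_pos (by omega)]
      congr 2
      omega
    refine Finset.sum_congr_of_eq_on_inter (fun d hd q => ?_) (fun d _ q => ?_) fun d hd _ => ?_
    · rw [e d hd, h d (not_lt.1 fun l => q (Finset.mem_range.2 l)), mul_zero]
    · rw [Finset.mem_range] at q
      rw [z d (by omega), mul_zero]
    · rw [e d hd]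
  · rw [cf, if_neg h0]
    exact (Finset.sum_eq_zero fun d _ => by rw [z d (by omega), mul_zero]).symm

theorem cf_i0 (ev : Ev S E) (H : Hat S E μ i0) (g : S) {w : ℤ} (h : E g = (w : ℂ) • (g : K))
    (n : ℤ) : cf μ n (i0 g) = if n = w then (g : K) else 0 := by
  by_cases g0 : (g : K) = 0
  · rw [show g = 0 from Subtype.ext g0]
    simp [cf]
  obtain ⟨m, e⟩ := ev.nat g g.2 _ g0 h
  obtain rfl : w = m := by exact_mod_cast e
  rw [cf, H.emb g m (by exact_mod_cast h), PowerSeries.coeff_monomial]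
  split_ifs <;> first | rfl | omega

theorem wt_smul {g : K} {γ : DU K} {c c' : ℂ} (h1 : E g = c • g) (h2 : ld E γ = c' • γ) :
    ld E (g • γ) = (c + c') • g • γ := by
  rw [ld_smul, h1, h2, smul_comm g c', smul_assoc, add_smul, add_comm]

theorem wt_form {η : FF K} {D : DD K} {c c' : ℂ} (h1 : lf E η = c • η) (h2 : ⁅E, D⁆ = c' • D) :
    ld E (η D) = (c + c') • η D := by
  have e : lf E η D = ld E (η D) - η ⁅E, D⁆ := rfl
  rw [h1, h2, lin_c, LinearMap.smul_apply] at e
  rw [add_smul, e, sub_add_cancel]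

theorem high (C : Cone S E x a) {s : Set (DU K)} {B : ℤ} (hs : Submodule.span S s = TD S)
    (hw : ∀ γ ∈ s, ∃ c : ℤ, c ≤ B ∧ ld E γ = (c : ℂ) • γ) {γ : DU K} (hγ : γ ∈ TD S) {c : ℤ}
    (hc : B < c) (e : ld E γ = (c : ℂ) • γ) : γ ∈ vx S x • TD S := by
  set T : Submodule ℂ (DU K) := ((vx S x • TD S).restrictScalars ℂ ⊓ (ld E).eigenspace (c : ℂ)) ⊔
    ⨆ (c' : ℂ) (_ : c' ≠ c), (ld E).eigenspace c' with hT
  have all : ∀ y ∈ Submodule.span S s, ∀ g ∈ S, g • y ∈ T := fun y hy => by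
    induction hy using Submodule.span_induction with
    | mem y hy =>
      intro g hg
      obtain ⟨c0, l, e0⟩ := hw y hy
      refine Submodule.iSup_induction _ (motive := fun g : K => g • y ∈ T) (C.ev.s g hg) ?_ ?_ ?_
      · intro m g hg
        have e1 : E g = (m : ℂ) • g := End.mem_eigenspace_iff.1 hg.2
        have e2 := wt_smul e1 e0
        by_cases q : (m : ℂ) + c0 = c
        · refine Submodule.mem_sup_left ⟨?_, End.mem_eigenspace_iff.2 (q ▸ e2)⟩
          have q' : m + c0 = c := by exact_mod_cast q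
          have m0 : (m : ℂ) ≠ 0 := Int.cast_ne_zero.2 (by omega)
          obtain ⟨b, hb, eb⟩ := C.vtx.pos g hg.1
          have b1 : (⟨g, hg.1⟩ : S) = (m : ℂ)⁻¹ • b := Subtype.ext (by
            rw [SetLike.val_smul, ← eb, e1, smul_smul, inv_mul_cancel₀ m0, one_smul])
          have b2 : (⟨g, hg.1⟩ : S) ∈ vx S x := by
            rw [b1]
            exact Submodule.smul_of_tower_mem _ _ hb
          have b3 : y ∈ TD S := hs.le (Submodule.subset_span hy)
          have b4 : (⟨g, hg.1⟩ : S) • y ∈ vx S x • TD S := Submodule.smul_mem_smul b2 b3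
          exact b4
        · exact Submodule.mem_sup_right (Submodule.mem_iSup_of_mem _
            (Submodule.mem_iSup_of_mem q (End.mem_eigenspace_iff.2 e2)))
      · rw [zero_smul]; exact zero_mem _
      · intro u v hu hv
        rw [add_smul]; exact add_mem hu hv
    | zero => intro g _; rw [smul_zero]; exact zero_mem _
    | add y z _ _ hy hz => intro g hg; rw [smul_add]; exact add_mem (hy g hg) (hz g hg)
    | smul r y _ hy =>
      intro g hg
      have := hy _ (mul_mem hg r.2)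
      rw [mul_smul] at this
      exact this
  have := all γ (hs.ge hγ) 1 (one_mem S)
  rw [one_smul] at this
  obtain ⟨w, hw, u, hu, e'⟩ := Submodule.mem_sup.1 this
  have u1 : u ∈ (ld E).eigenspace (c : ℂ) := by
    rw [show u = γ - w by rw [← e']; abel]
    exact sub_mem (End.mem_eigenspace_iff.2 e) hw.2
  have u0 : u = 0 := Submodule.disjoint_def.1 ((ld E).eigenspaces_iSupIndep (c : ℂ)) u u1 hu
  rw [← e', u0, add_zero]
  exact hw.1

theorem tail {M A : Type} [AddCommGroup M] [Ring A] [Module A M] (W : Submodule A M) (f : ℤ → M)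
    {B N B' C s : ℤ} (h0 : ∀ n < B, f n = 0) (h1 : ∀ n, C < n + s → f n ∈ W) (l1 : B' ≤ B + s)
    (l2 : C ≤ N + s) : ∑ n ∈ Finset.Icc B N, f n - ∑ c ∈ Finset.Icc B' C, f (c - s) ∈ W := by
  have e1 : ∑ c ∈ Finset.Icc B' C, f (c - s) = ∑ n ∈ Finset.Icc (B' - s) (C - s), f n :=
    Finset.sum_bij' (fun c _ => c - s) (fun n _ => n + s)
      (fun c hc => by rw [Finset.mem_Icc] at hc ⊢; omega)
      (fun c hc => by rw [Finset.mem_Icc] at hc ⊢; omega) (fun _ _ => by omega)
      (fun _ _ => by omega) fun _ _ => rfl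
  have e2 : ∑ n ∈ Finset.Icc B N, f n = ∑ n ∈ Finset.Icc (B' - s) N, f n :=
    Finset.sum_subset (Finset.Icc_subset_Icc_left (by omega)) fun n a b =>
      h0 n (by rw [Finset.mem_Icc] at a b; omega)
  rw [e1, e2, ← Finset.sum_sdiff (Finset.Icc_subset_Icc_right (by omega : C - s ≤ N)),
    add_sub_cancel_right]
  refine sum_mem fun n hn => h1 n ?_
  rw [Finset.mem_sdiff, Finset.mem_Icc, Finset.mem_Icc] at hn
  omega

theorem ext0 (C : Cone S E x a) {γ : DU K}
    (h : ∀ Y ∈ TT S, ∀ q : ℤ, ⁅E, Y⁆ = (q : ℂ) • Y → γ Y = 0) : γ = 0 := by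
  refine LinearMap.ext fun D => ?_
  obtain ⟨s, -, s0, hs⟩ := C.bas.den D
  have : γ (s • D) = 0 :=
    Submodule.iSup_induction _ (motive := fun D => γ D = 0) (C.ev.T _ hs)
      (fun q Y hY => h Y hY.1 q (End.mem_eigenspace_iff.1 hY.2)) (map_zero _)
      fun u v hu hv => by rw [map_add, hu, hv, add_zero]
  rw [map_smul, smul_eq_mul] at this
  exact (mul_eq_zero.1 this).resolve_left s0

end HPERFx

open HPERFx in
theorem hperf (_g : GenK) : S_HPERF := by
  classical
  intro K ι R _ _ _ _ _ S E x a μ i0 ω η B Cn H hl ⟨m, u, p, u', hu, hgen⟩ hpi cmp hη hB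
  have sp : Submodule.span S {γ | γ ∈ TD S ∧ ∃ c : ℤ, ld E γ = (c : ℂ) • γ} = TD S :=
    le_antisymm (Submodule.span_le.2 fun _ h => h.1) fun γ hγ =>
      Submodule.iSup_induction _ (motive := fun γ => γ ∈ Submodule.span S _) (Cn.ev.D γ hγ)
        (fun c y hy => Submodule.subset_span ⟨hy.1, c, End.mem_eigenspace_iff.1 hy.2⟩)
        (zero_mem _) fun _ _ => add_mem
  obtain ⟨s, s1, s2⟩ := (Submodule.fg_span_iff_fg_span_finset_subset _).1 (sp ▸ Cn.bas.fgD)
  rw [sp] at s2
  choose! w hw using fun γ (h : γ ∈ s) => (s1 h).2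
  obtain ⟨C, hC⟩ := (s.finite_toSet.image w).bddAbove
  have hC' : ∀ γ ∈ s, w γ ≤ C := fun γ h => hC ⟨γ, h, rfl⟩
  obtain ⟨P, hP⟩ := (Set.finite_range fun k => |p k|).bddAbove
  have hP' : ∀ k, -P ≤ p k := fun k => (abs_le.1 (hP ⟨k, rfl⟩)).1
  have hi := fun γ hγ c => high (γ := γ) (c := c) Cn s2.symm
    (fun γ h => ⟨w γ, hC' γ h, hw γ h⟩) hγ
  refine ⟨C + P, ?_⟩
  set Ω := ∑ n ∈ Finset.Icc B (C + P), η n with hΩ
  let Im : Submodule S (DU K) :=
    { carrier := {γ | ∃ D ∈ TT S, Ω D = γ}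
      add_mem' := by
        rintro _ _ ⟨D, a, rfl⟩ ⟨D', b, rfl⟩
        exact ⟨D + D', add_mem a b, map_add _ _ _⟩
      zero_mem' := ⟨0, zero_mem _, map_zero _⟩
      smul_mem' := by
        rintro c _ ⟨D, a, rfl⟩
        exact ⟨c • D, (TT S).smul_mem c a, Ω.map_smul (c : K) D⟩ }
  have key : TD S ≤ Im ⊔ vx S x • TD S := by
    refine s2.le.trans (Submodule.span_le.2 fun γ hγ => ?_)
    have γT := (s1 hγ).1
    obtain ⟨G, hG⟩ := hpi γ γT
    obtain ⟨r, rfl⟩ := hgen G
    set L := (C + P - B + 1).toNat with hL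
    set B' := min (B - P) (w γ) with hB'
    have A : ∀ c ≤ C, ∑ k, ∑ d ∈ Finset.range L,
        PowerSeries.coeff d (μ (r k)) • η (c - (d + p k)) (u k) = if c = w γ then γ else 0 := by
      intro c hc
      refine sub_eq_zero.1 (ext0 Cn fun Y hY q hq => ?_)
      obtain ⟨Y', lY⟩ := hl.ex Y hY
      have e1 := congrArg (cf μ (c + q)) (hG Y hY Y' ⟨γ Y, γT Y hY⟩ lY rfl)
      have e2 : E (γ Y) = ((w γ + q : ℤ) : ℂ) • γ Y := by
        have := ld_apply E γ Y
        rw [hw γ hγ, hq, lin_c, LinearMap.smul_apply] at this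
        rw [Int.cast_add, add_smul, this, sub_add_cancel]
      have e3 : ∀ k (d : ℕ), cf μ (c + q - d) (ω (u' k) Y') = η (c - (d + p k)) (u k) Y :=
        fun k d => by
          rw [cmp _ _ q _ (hu k).1 Y hY _ Y' (hu k).2.1 hq (hu k).2.2 lY]
          congr 1
          ring
      rw [cf_i0 Cn.ev H _ e2, map_sum, LinearMap.sum_apply, cf_sum] at e1
      rw [LinearMap.sub_apply, LinearMap.sum_apply, sub_eq_zero]
      refine Eq.trans (Finset.sum_congr rfl fun k _ => ?_) (e1.trans ?_)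
      · rw [map_smul, LinearMap.smul_apply, smul_eq_mul, cf_mul _ _ _ L fun d hd => by
          have := hP' k
          rw [e3, hB _ (by omega)]; rfl, LinearMap.sum_apply]
        exact Finset.sum_congr rfl fun d _ => by rw [e3]; rfl
      · by_cases q : c = w γ
        · rw [if_pos q, if_pos (by omega)]
        · rw [if_neg q, if_neg (by omega)]; rfl
    have e1 : γ = ∑ k, ∑ d ∈ Finset.range L, ∑ c ∈ Finset.Icc B' C,
        PowerSeries.coeff d (μ (r k)) • η (c - (d + p k)) (u k) := by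
      rw [Finset.sum_congr rfl fun k _ => Finset.sum_comm, Finset.sum_comm,
        Finset.sum_congr rfl fun c hc => A c (Finset.mem_Icc.1 hc).2, Finset.sum_ite_eq',
        if_pos (Finset.mem_Icc.2 ⟨min_le_right _ _, hC' γ hγ⟩)]
    rw [SetLike.mem_coe, e1]
    refine sum_mem fun k _ => sum_mem fun d _ => ?_
    obtain ⟨ρ1, ρ2⟩ := H.mem (r k) d
    have t := tail (vx S x • TD S) (fun n => PowerSeries.coeff d (μ (r k)) • η n (u k))
      (B := B) (N := C + P) (B' := B') (C := C) (s := d + p k)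
      (fun n hn => by rw [hB n hn, LinearMap.zero_apply, smul_zero])
      (fun n hn => hi _ ((TD S).smul_mem (⟨_, ρ1⟩ : S) fun D hD => (hη n).1 _ (hu k).1 D hD)
        (n + (d + p k)) hn (by
          rw [wt_smul ρ2 (wt_form (hη n).2 (hu k).2.1)]
          congr 1
          push_cast
          ring))
      (by have := hP' k; have := min_le_left (B - P) (w γ); omega) (by have := hP' k; omega)
    have i : ∑ n ∈ Finset.Icc B (C + P), PowerSeries.coeff d (μ (r k)) • η n (u k) ∈ Im :=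
      ⟨PowerSeries.coeff d (μ (r k)) • u k, (TT S).smul_mem (⟨_, ρ1⟩ : S) (hu k).1, by
        rw [map_smul, hΩ, LinearMap.sum_apply, Finset.smul_sum]⟩
    have := sub_mem (Submodule.mem_sup_left i) (Submodule.mem_sup_right (S := Im) t)
    rwa [sub_sub_cancel] at this
  obtain ⟨r, r1, r2⟩ :=
    Submodule.exists_sub_one_mem_and_smul_le_of_fg_of_le_sup Cn.bas.fgD le_rfl key
  exact ⟨r, r.2, ⟨r - 1, r1, rfl⟩, fun γ hγ => r2 (Submodule.smul_mem_pointwise_smul γ r _ hγ)⟩

end Pool.Agent.MP_51db15_ag.Qh
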