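import Pool.Agent.MP_51db15_ag.Qh.Spec2

/-! Row HPI: regular one-forms are Hamiltonian on the completion. -/

namespace Pool.Agent.MP_51db15_ag.Qh

open Module

namespace HPIx

theorem span {K ι : Type} [Field K] [Algebra ℂ K] [Fintype ι] {S : Subalgebra ℂ K} {x : ι → K}
    (hB : Bas S x) (γ : DU K) : ∃ c : ι → K, ∀ D : DD K, γ D = ∑ i, c i * D (x i) := by
  classical
  let ev : DD K →ₗ[K] (ι → K) := LinearMap.pi fun i => dd (x i)
  have hev : ∀ D i, ev D i = D (x i) := fun D i => rfl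
  have hker : LinearMap.ker ev = ⊥ := by
    rw [LinearMap.ker_eq_bot']
    intro D hD
    refine hB.ext D 0 fun i => ?_
    rw [← hev, hD]
    rfl
  obtain ⟨L, hL⟩ := ev.exists_leftInverse_of_injective hker
  refine ⟨fun i => (γ ∘ₗ L) fun j => if i = j then 1 else 0, fun D => ?_⟩
  have h1 : L (ev D) = D := LinearMap.congr_fun hL D
  have h2 := LinearMap.pi_apply_eq_sum_univ (γ ∘ₗ L) (ev D)
  rw [LinearMap.comp_apply, h1] at h2
  rw [h2]
  exact Finset.sum_congr rfl fun i _ => by rw [hev, smul_eq_mul, mul_comm]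

theorem den {K ι : Type} [Field K] [Algebra ℂ K] [Fintype ι] {S : Subalgebra ℂ K} {x : ι → K}
    (hB : Bas S x) (γ : DU K) : ∃ (s : S) (g : ι → S), s ≠ 0 ∧
      ∀ D : DD K, (s : K) * γ D = ∑ i, (g i : K) * D (x i) := by
  classical
  obtain ⟨c, hc⟩ := span hB γ
  choose p hp q hq hq0 hpq using fun i => hB.frac (c i)
  refine ⟨⟨∏ i, q i, prod_mem fun i _ => hq i⟩,
    fun i => ⟨p i * ∏ j ∈ Finset.univ.erase i, q j,
      mul_mem (hp i) (prod_mem fun j _ => hq j)⟩, fun h => ?_, fun D => ?_⟩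
  · exact Finset.prod_ne_zero_iff.2 (fun i _ => hq0 i) (congrArg Subtype.val h)
  · rw [hc, Finset.mul_sum]
    refine Finset.sum_congr rfl fun i _ => ?_
    change (∏ j, q j) * _ = (p i * ∏ j ∈ Finset.univ.erase i, q j) * _
    rw [← Finset.mul_prod_erase _ _ (Finset.mem_univ i), hpq i]
    have := hq0 i
    field_simp

theorem div {R : Type} [CommRing R] [IsDomain R] [Algebra ℂ R] (G : DR R) (s : R) (hs : s ≠ 0)
    (h : ∀ r, ∃ t, G r = s * t) : ∃ G' : DR R, G = s • G' := by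
  choose t ht using h
  let T : R →ₗ[ℂ] R :=
    { toFun := t
      map_add' := fun a b => mul_left_cancel₀ hs (by rw [← ht, mul_add, ← ht, ← ht, map_add])
      map_smul' := fun c a => mul_left_cancel₀ hs (by
        rw [← ht, RingHom.id_apply, mul_smul_comm, ← ht, Derivation.map_smul]) }
  have hT : ∀ r, T r = t r := fun _ => rfl
  refine ⟨Derivation.mk' T fun a b => mul_left_cancel₀ hs ?_, ?_⟩
  · rw [hT, hT, hT, ← ht, Derivation.leibniz, ht a, ht b]
    simp only [smul_eq_mul]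
    ring
  · ext r
    rw [Derivation.smul_apply, smul_eq_mul, ht]
    rfl

end HPIx

theorem hpi : S_HPI := by
  intro K ι R _ _ _ _ _ _ S E x a μ i0 ω hC hL hG hω γ hγ
  have hB := hC.bas
  obtain ⟨s, g, hs, hsg⟩ := HPIx.den hB γ
  obtain ⟨n, u, p, u', hu, hgen⟩ := hG
  obtain ⟨halt, -, hH⟩ := hω
  choose H hH using hH
  let y : ι → S := fun i => ⟨x i, hB.mem i⟩
  have hs0 : i0 s ≠ 0 := fun h => hs (hL.inj (by rw [h, map_zero]))
  have key : ∀ X ∈ TT S, ∀ (X' : DR R) (b : S), Lft i0 X X' → (b : K) = γ X →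
      ∑ i, i0 (g i) * X' (i0 (y i)) = i0 s * i0 b := by
    intro X hX X' b hl hb
    have h1 : ∀ i, X' (i0 (y i)) = i0 ⟨X (x i), hX _ (hB.mem i)⟩ := fun i => hl _ _ rfl
    simp only [h1, ← map_mul, ← map_sum]
    congr 1
    apply Subtype.ext
    rw [AddSubmonoidClass.coe_finsetSum, MulMemClass.coe_mul, hb, hsg]
    rfl
  have dv : ∀ D : DR R, ∃ t, ∑ i, i0 (g i) * D (i0 (y i)) = i0 s * t := by
    intro D
    obtain ⟨r, hr⟩ := hgen D
    refine ⟨∑ j, r j * i0 ⟨γ (u j), hγ _ (hu j).1⟩, ?_⟩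
    have h1 : ∀ z, D z = ∑ j, r j * u' j z := fun z => by
      rw [hr]
      induction (Finset.univ : Finset (Fin n)) using Finset.cons_induction with
      | empty => simp
      | cons j t hj ih =>
        rw [Finset.sum_cons, Finset.sum_cons, Derivation.add_apply, ih, Derivation.smul_apply,
          smul_eq_mul]
    simp only [h1, Finset.mul_sum]
    rw [Finset.sum_comm]
    refine Finset.sum_congr rfl fun j _ => ?_
    rw [mul_left_comm, ← key (u j) (hu j).1 (u' j) _ (hu j).2.2 rfl, Finset.mul_sum]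
    exact Finset.sum_congr rfl fun i _ => by ring
  let G1 : DR R := ∑ i, i0 (g i) • H (i0 (y i))
  have hG1 : ∀ Y, ω G1 Y = ∑ i, i0 (g i) * Y (i0 (y i)) := fun Y => by
    simp only [G1, map_sum, map_smul, LinearMap.sum_apply, LinearMap.smul_apply, hH, smul_eq_mul]
  obtain ⟨G, hGG⟩ := HPIx.div G1 (i0 s) hs0 fun r => by
    obtain ⟨t, ht⟩ := dv (H r)
    refine ⟨-t, ?_⟩
    rw [← hH r G1, ← halt.neg_eq, hG1, ht, mul_neg]
  refine ⟨G, fun X hX X' b hl hb => mul_left_cancel₀ hs0 ?_⟩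
  rw [← key X hX X' b hl hb, ← hG1, hGG, map_smul, LinearMap.smul_apply, smul_eq_mul]

end Pool.Agent.MP_51db15_ag.Qh
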