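import Pool.Agent.MP_51db15_ag.Qh.Spec2
import Pool.Agent.MP_51db15_ag.Hy.D3
import Pool.Agent.MP_51db15_ag.Hy.MINP

/-! PROJECT QF, row HREG: the components of the form are regular along discrete valuations. -/

namespace Pool.Agent.MP_51db15_ag.Qh

open Hy.D3 PowerSeries

namespace HREGx

variable {K : Type} [Field K] [Algebra ℂ K] {v : DV K} {hc : v.Const}

/-- the content argument -/
theorem dvd {g q p : (alg v hc)⟦X⟧} {s : alg v hc} (h0 : s ≠ 0) (hq : red (mx v hc) q ≠ 0)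
    (e : g * q = C s * p) (k : ℕ) : s ∣ coeff k g := by
  obtain ⟨n, hn⟩ := content v hc g
  obtain ⟨g', h1, h2⟩ := exists_prim (mx v hc) hn
  refine dvd_trans ?_ (hn k)
  generalize coeff n g = c at h2
  rcases tot v hc s c with h | ⟨u, rfl⟩
  · exact h
  by_cases hu : u ∈ mx v hc
  · rw [h2, map_mul, mul_assoc, mul_assoc] at e
    have e2 := congrArg (red (mx v hc)) (mul_left_cancel₀ (fun h => left_ne_zero_of_mul h0
      (C_injective (h.trans (map_zero _).symm))) e)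
    rw [map_mul, map_mul, red, map_C, Ideal.Quotient.eq_zero_iff_mem.2 hu, map_zero, zero_mul] at e2
    exact absurd e2 (mul_ne_zero h1 hq)
  · obtain ⟨a, b⟩ := DV.unit_of_not_ge u.2 hu
    simpa using mul_dvd_mul_left c (dvd_of_le v hc (e := 1) a (b ▸ DV.ge_one))

variable {R : Type} [CommRing R] [Algebra ℂ R] {S : Subalgebra ℂ K} {E : DD K}
  {μ : R →ₐ[ℂ] K⟦X⟧} {i0 : S →ₐ[ℂ] R}

theorem exists_mu (h : ∀ r n, v.Ge 0 (coeff n (μ r))) : ∃ ν : R →+* (alg v hc)⟦X⟧,
    ∀ r n, (coeff n (ν r) : alg v hc) = coeff n (μ r) := by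
  let f : R → (alg v hc)⟦X⟧ := fun r => mk fun n => ⟨coeff n (μ r), h r n⟩
  have e : ∀ r, map (alg v hc).val.toRingHom (f r) = μ r := fun r => by ext n; simp [f]
  have i := map_injective (alg v hc).val.toRingHom Subtype.val_injective
  exact ⟨{ toFun := f
           map_one' := i (by simp only [e, map_one])
           map_mul' := fun a b => i (by simp only [e, map_mul])
           map_zero' := i (by simp only [e, map_zero])
           map_add' := fun a b => i (by simp only [e, map_add]) }, fun r n => by simp [f]⟩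

theorem coeff_sh {g : (alg v hc)⟦X⟧} {c : ℤ → K} (h : ∀ n : ℕ, (coeff n g : alg v hc) = c n)
    (h0 : ∀ n < 0, c n = 0) (a m : ℕ) : (coeff m (X ^ a * g) : alg v hc) = c (m - a) := by
  rw [coeff_X_pow_mul']
  split_ifs with k
  · rw [h, Nat.cast_sub k]
  · exact (h0 _ (by omega)).symm

theorem cf_nat (n : ℕ) (r : R) : cf μ n r = coeff n (μ r) := if_pos (Int.natCast_nonneg n)

theorem cf_neg (r : R) (n : ℤ) (h : n < 0) : cf μ n r = 0 := if_neg h.not_ge

variable [IsDomain R]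

variable (S E i0) in
/-- a multiple of a field is a finite sum of homogeneous regular fields -/
structure Dec (Z : DD K) (s : S) (A : Finset ℤ) (U : ℤ → DD K) (U' : ℤ → DR R)
    (U'' : ℤ → DR (FractionRing R)) : Prop where
  ne : (s : K) ≠ 0
  sum : (s : K) • Z = ∑ p ∈ A, U p
  tt : ∀ p, U p ∈ TT S
  eig : ∀ p : ℤ, ⁅E, U p⁆ = (p : ℂ) • U p
  lft : ∀ p, Lft i0 (U p) (U' p)
  ext : ∀ p r, U'' p (algebraMap R _ r) = algebraMap R _ (U' p r)

theorem exists_dec {ι : Type} {x : ι → K} {a : ι → ℕ} (hC : Cone S E x a) (hL : HL S E μ i0)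
    (Z : DD K) : ∃ s A U U' U'', Dec S E i0 Z s A U U' U'' := by
  obtain ⟨s, s1, s2, s3⟩ := hC.bas.den Z
  obtain ⟨A, hA⟩ := Submodule.mem_iSup_iff_exists_finset.1 (hC.ev.T _ s3)
  obtain ⟨U, hU⟩ := (Submodule.mem_iSup_finset_iff_exists_sum _ _).1 hA
  choose U' h1 using fun p => hL.ex (U p) (U p).2.1
  have i := IsFractionRing.injective R (FractionRing R)
  choose U'' h2 using fun p => Hy.lift R _ (IsScalarTower.toAlgHom ℂ R (FractionRing R))
    ((IsScalarTower.toAlgHom ℂ R (FractionRing R)).toLinearMap ∘ₗ (U' p).toLinearMap)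
    (fun z => let ⟨a, b, _, e⟩ := IsFractionRing.div_surjective (A := R) z; ⟨a, b, e.symm⟩)
    (fun a b => by simp) fun a ha => by simp [(map_eq_zero_iff _ i).1 ha]
  exact ⟨⟨s, s1⟩, A, fun p => U p, U', U'', s2, hU.symm, fun p => (U p).2.1,
    fun p => Module.End.mem_eigenspace_iff.1 (U p).2.2, h1, h2⟩

theorem key (hL : HL S E μ i0) {Z s A U U' U''} (D : Dec S E i0 Z s A U U' U'')
    (hZ : ∀ z, v.Ge 0 z → v.Ge 0 (Z z)) (hs : v.Ge 0 (s : K)) {ν : R →+* (alg v hc)⟦X⟧}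
    (hν : ∀ r n, (coeff n (ν r) : alg v hc) = coeff n (μ r))
    {Φ : FractionRing R →+* FractionRing (alg v hc)⟦X⟧}
    (hΦ : ∀ r, Φ (algebraMap R _ r) = algebraMap _ _ (ν r)) {M : ℕ} (hM : ∀ p ∈ A, p ≤ M)
    {y : FractionRing R} (hy : Φ y ∈ W (mx v hc) (tot v hc) (content v hc)) :
    ∃ w ∈ W (mx v hc) (tot v hc) (content v hc),
      ∑ p ∈ A, algebraMap _ _ (X ^ (M - p).toNat : (alg v hc)⟦X⟧) * Φ (U'' p y) =
        algebraMap _ _ (C (⟨s, hs⟩ : alg v hc) * X ^ M) * w := by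
  have e : ∀ r, ∑ p ∈ A, X ^ (M - p).toNat * ν (U' p r) =
      C (⟨s, hs⟩ : alg v hc) * X ^ M * cw (res v hc Z hZ) (ν r) := fun r => by
    ext m
    rw [mul_assoc, coeff_C_mul, map_sum, AddSubmonoidClass.coe_finsetSum, MulMemClass.coe_mul,
      coeff_sh (c := fun n => Z (cf μ n r))
        (fun n => by rw [coeff_cw, cf_nat, ← hν]; rfl) fun n h => by rw [cf_neg r n h, map_zero]]
    refine (Finset.sum_congr rfl fun p hp => ?_).trans
      ((map_sum (dd _) _ _).symm.trans (congrArg (dd _) D.sum.symm))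
    rw [dd_apply]
    rw [coeff_sh (c := fun n => cf μ n (U' p r)) (fun n => by rw [hν, cf_nat]) (cf_neg _),
      ← hL.sh _ (D.tt p) p _ (D.eig p) (D.lft p), Int.toNat_of_nonneg (sub_nonneg.2 (hM p hp))]
    congr 1
    ring
  obtain ⟨a, b, hb, rfl⟩ := IsFractionRing.div_surjective (A := R) y
  rw [map_div₀, hΦ, hΦ] at hy
  refine ⟨_, der_mem (leib_cw (leib_res v hc Z hZ)) (hΦ b ▸ (map_ne_zero Φ).2
    (IsFractionRing.to_map_ne_zero_of_mem_nonZeroDivisors hb)) hy, ?_⟩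
  have ea := congrArg (algebraMap _ (FractionRing (alg v hc)⟦X⟧)) (e a)
  have eb := congrArg (algebraMap _ (FractionRing (alg v hc)⟦X⟧)) (e b)
  rw [map_sum, map_mul] at ea eb
  rw [mul_div_assoc', mul_sub, ← mul_assoc, mul_left_comm, ← ea, ← eb, Finset.sum_mul,
    Finset.mul_sum, ← Finset.sum_sub_distrib, Finset.sum_div]
  refine Finset.sum_congr rfl fun p _ => ?_
  simp only [Derivation.leibniz_div, D.ext, smul_eq_mul, map_mul, map_sub, map_pow, map_inv₀, hΦ]
  ring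

end HREGx

open HREGx in
theorem hreg : S_HREG := by
  intro K ι R _ _ _ _ _ _ S E x a μ i0 ω η hC hH hL hη hK n v Y Z hS hY hZ
  have hc : v.Const := fun c => hS _ (S.algebraMap_mem c)
  obtain ⟨ν, hν⟩ := exists_mu (hc := hc) fun r n => hS _ (hH.mem r n).1
  have i := IsFractionRing.injective (alg v hc)⟦X⟧ (FractionRing (alg v hc)⟦X⟧)
  have j : Function.Injective ν := fun r r' h => hH.inj (by ext k; rw [← hν, ← hν, h])
  obtain ⟨Φ, hΦ⟩ : ∃ Φ : FractionRing R →+* FractionRing (alg v hc)⟦X⟧,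
      ∀ r, Φ (algebraMap R _ r) = algebraMap _ _ (ν r) :=
    ⟨IsFractionRing.lift (g := (algebraMap _ _).comp ν) (i.comp j),
      IsFractionRing.lift_algebraMap _⟩
  obtain ⟨N, c, y, z, h1, h2⟩ := hK ((W (mx v hc) (tot v hc) (content v hc)).comap Φ) fun r =>
    ⟨ν r, 1, by simp, by rw [map_one, mul_one, hΦ]⟩
  obtain ⟨s, A, U, U', U'', D⟩ := exists_dec hC hL Y
  obtain ⟨t, B, T, T', T'', D'⟩ := exists_dec hC hL Z
  obtain ⟨M, hM⟩ : ∃ M : ℕ, ∀ p ∈ insert (-n) (A ∪ B), p ≤ M :=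
    ⟨(insert (-n) (A ∪ B)).sup Int.toNat, fun p hp =>
      Int.toNat_le.1 (Finset.le_sup (f := Int.toNat) hp)⟩
  have m0 := hM _ (Finset.mem_insert_self _ _)
  have m1 := fun p hp => hM p (Finset.mem_insert_of_mem (Finset.mem_union_left _ hp))
  have m2 := fun p hp => hM p (Finset.mem_insert_of_mem (Finset.mem_union_right _ hp))
  choose w1 a1 b1 using fun k => HREGx.key hL D hY (hS _ s.2) hν hΦ m1 (h1 k).2.1
  choose w2 a2 b2 using fun k => HREGx.key hL D hY (hS _ s.2) hν hΦ m1 (h1 k).2.2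
  choose w3 a3 b3 using fun k => HREGx.key hL D' hZ (hS _ t.2) hν hΦ m2 (h1 k).2.1
  choose w4 a4 b4 using fun k => HREGx.key hL D' hZ (hS _ t.2) hν hΦ m2 (h1 k).2.2
  obtain ⟨p', q', hq, e⟩ : ∑ k, Φ (c k) * (w1 k * w4 k - w2 k * w3 k) ∈
      W (mx v hc) (tot v hc) (content v hc) := sum_mem fun k _ =>
    mul_mem (h1 k).1 (sub_mem (mul_mem (a1 k) (a4 k)) (mul_mem (a2 k) (a3 k)))
  obtain ⟨u, hu⟩ := HREGx.dvd (g := ∑ p ∈ A, ∑ q ∈ B,
      X ^ ((M - p).toNat + (M - q).toNat) * ν (ω (U' p) (T' q)))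
    (s := ⟨s, hS _ s.2⟩ * ⟨t, hS _ t.2⟩) (p := X ^ M * X ^ M * p')
    (fun h => mul_ne_zero D.ne D'.ne (congrArg Subtype.val h)) hq (i (by
      have : algebraMap _ (FractionRing (alg v hc)⟦X⟧) (∑ p ∈ A, ∑ q ∈ B,
          X ^ ((M - p).toNat + (M - q).toNat) * ν (ω (U' p) (T' q))) = ∑ k, Φ (c k) *
            ((∑ p ∈ A, algebraMap _ _ (X ^ (M - p).toNat : (alg v hc)⟦X⟧) * Φ (U'' p (y k))) *
              (∑ p ∈ B, algebraMap _ _ (X ^ (M - p).toNat : (alg v hc)⟦X⟧) * Φ (T'' p (z k))) -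
            (∑ p ∈ A, algebraMap _ _ (X ^ (M - p).toNat : (alg v hc)⟦X⟧) * Φ (U'' p (z k))) *
              ∑ p ∈ B, algebraMap _ _ (X ^ (M - p).toNat : (alg v hc)⟦X⟧) * Φ (T'' p (y k))) := by
        simp only [Finset.sum_mul_sum, ← Finset.sum_sub_distrib]
        simp only [map_sum, map_mul, ← hΦ, h2 _ _ _ _ (D.ext _) (D'.ext _), pow_add, map_sub,
          Finset.mul_sum]
        rw [Finset.sum_comm (s := Finset.univ)]
        refine Finset.sum_congr rfl fun p _ => ?_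
        rw [Finset.sum_comm (s := Finset.univ)]
        exact Finset.sum_congr rfl fun q _ => Finset.sum_congr rfl fun k _ => by ring
      rw [map_mul, this]
      simp only [b1, b2, b3, b4]
      simp only [map_mul, ← e, Finset.sum_mul, Finset.mul_sum]
      exact Finset.sum_congr rfl fun k _ => by ring)) (n + 2 * M).toNat
  have hu := congrArg Subtype.val hu
  have e2 : (s : K) * t * η n Y Z = s * t * u := by
    refine Eq.trans ?_ hu
    have := congrArg₂ (fun a b => η n a b) D.sum D'.sum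
    simp only [map_smul, map_sum, LinearMap.smul_apply, LinearMap.sum_apply, smul_eq_mul] at this
    rw [mul_comm (s : K), mul_assoc, this, Finset.sum_comm]
    simp only [map_sum, AddSubmonoidClass.coe_finsetSum]
    refine Finset.sum_congr rfl fun p hp => Finset.sum_congr rfl fun q hq => ?_
    rw [coeff_sh (c := fun n => cf μ n (ω (U' p) (T' q))) (fun n => by rw [hν, cf_nat]) (cf_neg _),
      hη n p q _ (D.tt p) _ (D'.tt q) _ _ (D.eig p) (D'.eig q) (D.lft p) (D'.lft q)]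
    have := m1 p hp
    have := m2 q hq
    congr 1
    omega
  rw [mul_left_cancel₀ (mul_ne_zero D.ne D'.ne) e2]
  exact u.2

end Pool.Agent.MP_51db15_ag.Qh
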