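import Pool.Agent.MP_51db15_ag.Qh.Spec5

/-! Additivity of Hilbert series along a homogeneous map. -/

namespace Pool.Agent.MP_51db15_ag.Qh

open Module

namespace HSAx

variable {U W : Type} [AddCommGroup U] [Module ℂ U] [AddCommGroup W] [Module ℂ W]

theorem rn (V : Submodule ℂ U) [FiniteDimensional ℂ V] (f : U →ₗ[ℂ] W) :
    finrank ℂ ↥(V.map f) + finrank ℂ ↥(V ⊓ LinearMap.ker f) = finrank ℂ V := by
  have h := LinearMap.finrank_range_add_finrank_ker (f.domRestrict V)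
  have e : LinearMap.ker (f.domRestrict V) = (V ⊓ LinearMap.ker f).comap V.subtype := by
    ext x
    simp
  rwa [LinearMap.range_domRestrict, e,
    (Submodule.comapSubtypeEquivOfLe (inf_le_left : V ⊓ LinearMap.ker f ≤ V)).finrank_eq] at h

theorem img {δ : End ℂ U} {δ' : End ℂ W} {H : Submodule ℂ U} {f : U →ₗ[ℂ] W} {l : ℤ}
    (hz : Dz δ H) (hf : ∀ u, δ' (f u) = f (δ u) + (l : ℂ) • f u) (j : ℤ) :
    H.map f ⊓ δ'.eigenspace ((j + l : ℤ) : ℂ) = (H ⊓ δ.eigenspace (j : ℂ)).map f := by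
  have ev : ∀ (n : ℤ) (u : U), u ∈ δ.eigenspace (n : ℂ) →
      f u ∈ δ'.eigenspace ((n + l : ℤ) : ℂ) := fun n u hu => by
    rw [End.mem_eigenspace_iff] at hu ⊢
    rw [hf, hu, map_smul, Int.cast_add, add_smul]
  refine le_antisymm ?_ ?_
  · rintro _ ⟨⟨u, hu, rfl⟩, hw⟩
    have key : ∃ a ∈ H ⊓ δ.eigenspace (j : ℂ), f u - f a ∈
        ⨆ (c : ℂ) (_ : c ≠ ((j + l : ℤ) : ℂ)), δ'.eigenspace c := by
      refine Submodule.iSup_induction _ (motive := fun u => ∃ a ∈ H ⊓ δ.eigenspace (j : ℂ),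
        f u - f a ∈ ⨆ (c : ℂ) (_ : c ≠ ((j + l : ℤ) : ℂ)), δ'.eigenspace c) (hz u hu) ?_ ?_ ?_
      · intro n x hx
        by_cases h : n = j
        · exact ⟨x, h ▸ hx, by rw [sub_self]; exact zero_mem _⟩
        · refine ⟨0, zero_mem _, ?_⟩
          rw [map_zero, sub_zero]
          exact Submodule.mem_iSup_of_mem _ (Submodule.mem_iSup_of_mem
            (fun e => h (add_right_cancel (Int.cast_injective e))) (ev n x hx.2))
      · exact ⟨0, zero_mem _, by rw [sub_self]; exact zero_mem _⟩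
      · rintro x y ⟨a, ha, h1⟩ ⟨b, hb, h2⟩
        refine ⟨a + b, add_mem ha hb, ?_⟩
        rw [map_add, map_add, add_sub_add_comm]
        exact add_mem h1 h2
    obtain ⟨a, ha, h⟩ := key
    exact ⟨a, ha, (sub_eq_zero.1 (Submodule.disjoint_def.1 (δ'.eigenspaces_iSupIndep _) _
      (sub_mem hw (ev j a ha.2)) h)).symm⟩
  · rintro _ ⟨u, hu, rfl⟩
    exact ⟨⟨u, hu.1, rfl⟩, ev j u hu.2⟩

end HSAx

theorem hsa (_k : GenK) : S_HSA := by
  intro U W _ _ _ _ δ δ' H f l t hz hd hf ht hs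
  have e : ∀ j : ℤ, (finrank ℂ ↥(H.map f ⊓ δ'.eigenspace ((j + l : ℤ) : ℂ)) : ℝ) =
      finrank ℂ ↥(H ⊓ δ.eigenspace (j : ℂ)) -
        finrank ℂ ↥(H ⊓ LinearMap.ker f ⊓ δ.eigenspace (j : ℂ)) := fun j => by
    have := hd (j : ℂ)
    rw [HSAx.img hz hf j, ← HSAx.rn (H ⊓ δ.eigenspace (j : ℂ)) f, inf_right_comm H (LinearMap.ker f)]
    push_cast
    ring
  have s2 : Smb δ (H ⊓ LinearMap.ker f) t := by
    refine Summable.of_nonneg_of_le (fun j => by positivity) (fun j => ?_) hs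
    refine mul_le_mul_of_nonneg_right ?_ (by positivity)
    have h0 : (0 : ℝ) ≤ finrank ℂ ↥(H.map f ⊓ δ'.eigenspace ((j + l : ℤ) : ℂ)) := Nat.cast_nonneg _
    rw [e j] at h0
    linarith
  rw [hilb, hilb, hilb, ← Summable.tsum_sub hs s2, ← tsum_mul_left,
    ← (Equiv.addRight l).tsum_eq]
  refine tsum_congr fun j => ?_
  rw [Equiv.coe_addRight, e j, zpow_add₀ ht.ne']
  ring

end Pool.Agent.MP_51db15_ag.Qh
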