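import Pool.Agent.MP_51db15_ag.Qh.Spec5

/-! Bounds on slopes give the two inequalities between weights. -/

namespace Pool.Agent.MP_51db15_ag.Qh

open Module

namespace HSBx

variable {K : Type} [Field K] [Algebra ℂ K]

theorem leib (B : K →ₗ[ℂ] DD K) (hB : ∀ g h, B g h = -B h g) (g g' : K) :
    B (g * g') = g • B g' + g' • B g := by
  ext h
  rw [hB, Derivation.leibniz, Derivation.add_apply, Derivation.smul_apply, Derivation.smul_apply,
    hB g', hB g]
  simp only [smul_eq_mul]
  ring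

/-- contraction of a one-form with a bivector -/
noncomputable def shp (B : K →ₗ[ℂ] DD K) (hB : ∀ g h, B g h = -B h g) : DU K →ₗ[K] DD K where
  toFun γ := Derivation.mk' ((γ.restrictScalars ℂ).comp B) fun g g' => by
    simp only [LinearMap.comp_apply, LinearMap.restrictScalars_apply, leib B hB, map_add,
      map_smul]
  map_add' γ γ' := by
    ext g
    rfl
  map_smul' c γ := by
    ext g
    rfl

theorem shp_apply (B : K →ₗ[ℂ] DD K) (hB : ∀ g h, B g h = -B h g) (γ : DU K) (g : K) :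
    shp B hB γ g = γ (B g) := rfl

section

variable {U : Type} [AddCommGroup U] [Module K U] [Module ℂ U] [IsScalarTower ℂ K U]
  {S : Subalgebra ℂ K} {E : DD K} {δ : End ℂ U} {M : Submodule S U} {α β : ℝ}

theorem up (h : SlopesIn S E δ M α β) : Up S E δ M β :=
  fun N h1 h2 => (h N h1 h2).mono fun _ h3 => h3.1

theorem lo (h : SlopesIn S E δ M α β) : Lo S E δ M α :=
  fun N h1 h2 => (h N h1 h2).mono fun _ h3 => h3.2

end

end HSBx

open HSBx

theorem hsb (s : S_HSS) (t : S_HST) (h : S_HSH) (u : S_HSU) : S_HSB := by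
  intro K ι _ _ _ S E x a α β C h0 h1 hT hD
  have := C.bas.fd
  obtain ⟨t1, t2⟩ := t K ι S E x a C
  have s1 := s K ι S E x a C
  have dT : ∀ D : DD K, ∃ r : K, r ∈ S ∧ r ≠ 0 ∧ r • D ∈ TT S := C.bas.den
  have dD : ∀ γ : DU K, ∃ r : K, r ∈ S ∧ r ≠ 0 ∧ r • γ ∈ TD S := C.bas.denD
  refine ⟨fun γ c g0 g1 g2 => ?_, fun η B l k e0 _ e1 e2 b0 b1 b2 b3 => ?_⟩
  · have k1 := h K (DD K) K S E (ad E) (op E) (TT S) 1 γ c α 0 g0
      (fun X hX => Submodule.mem_one.2 ⟨⟨γ X, g1 X hX⟩, rfl⟩)
      (fun X => by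
        rw [op_apply, ad_apply, ← g2, add_sub_cancel])
      dT (fun X hX => lie_mem C.ev.tm hX) C.ev.T C.evf.T
      (fun r r0 r1 => ⟨(t2 r r0 r1).1, (s1 r r0 r1).2⟩) (lo hT) (u K ι S E x a C)
    have k2 : (0 : ℝ) < c := by linarith
    exact_mod_cast k2
  · have k1 := h K (DD K) (DU K) S E (ad E) (ld E) (TT S) (TD S) η l α (-α) e0
      (fun X hX Y hY => e1 X Y hX hY)
      (fun X => LinearMap.ext fun Y => by
        rw [ld_apply, ad_apply, LinearMap.add_apply, LinearMap.smul_apply, ← e2]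
        ring)
      dT (fun X hX => lie_mem C.ev.tm hX) C.ev.T C.evf.T
      (fun r r0 r1 => ⟨(t2 r r0 r1).1, (s1 r r0 r1).2⟩) (lo hT) (up hD)
    have e3 : ∀ g, ⁅E, B g⁆ = B (E g) + (k : ℂ) • B g := fun g => by
      ext z
      rw [Derivation.commutator_apply, Derivation.add_apply, Derivation.smul_apply, ← b3]
      ring
    have k2 := h K (DU K) (DD K) S E (ld E) (ad E) (TD S) (TT S) (shp B b1) k (-β) β
      (fun e => b0 (LinearMap.ext fun g => Derivation.ext fun z => by
        have e4 := shp_apply B b1 (dd z) g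
        rw [e] at e4
        exact e4.symm))
      (fun γ hγ g hg => hγ (B g) (b2 g hg))
      (fun γ => Derivation.ext fun g => by
        rw [ad_apply, Derivation.commutator_apply, Derivation.add_apply, Derivation.smul_apply,
          shp_apply, shp_apply, shp_apply, ld_apply, e3, map_add, lin_c]
        ring)
      dD (fun γ hγ => ld_mem C.ev.tm hγ) C.ev.D t1
      (fun r r0 r1 => ⟨(t2 r r0 r1).2, (s1 r r0 r1).2⟩) (lo hD) (up hT)
    have k3 : ((-1 : ℤ) : ℝ) < ((l + k : ℤ) : ℝ) := by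
      push_cast
      linarith
    have k4 : (-1 : ℤ) < l + k := by exact_mod_cast k3
    omega

end Pool.Agent.MP_51db15_ag.Qh
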