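import Pool.Agent.MP_51db15_ag.Qh.Spec6

/-! Row HSC: slopes of the fields give the two inequalities. -/

namespace Pool.Agent.MP_51db15_ag.Qh

theorem hsc (s : S_HSS) (b : S_HSB) (u : S_DUP) (l : S_DLO) : S_HSC := by
  intro K ι _ _ _ S E x a α β hC hN h0 h1 h
  obtain ⟨ε, e0, e1, e2⟩ : ∃ ε : ℝ, 0 < ε ∧ ε < α ∧ β + ε - (α - ε) < 1 / 2 :=
    ⟨min (α / 2) ((1 / 2 - (β - α)) / 4), lt_min (by linarith) (by linarith),
      lt_of_le_of_lt (min_le_left _ _) (by linarith), by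
        have := min_le_right (α / 2) ((1 / 2 - (β - α)) / 4)
        linarith⟩
  have hU := u K ι S E x a α (α - ε) hC hN (by linarith) fun N h2 h3 =>
    (h N h2 h3).mono fun t ht => ht.2
  have hL := l K ι S E x a β (β + ε) hC hN (by linarith) fun N h2 h3 =>
    (h N h2 h3).mono fun t ht => ht.1
  refine b K ι S E x a (α - ε) (β + ε) hC (by linarith) e2 (fun N h2 h3 => ?_)
    fun N h2 h3 => (hU N h2 h3).and (hL N h2 h3)
  have := hC.bas.fd
  have r0 : (0 : ℝ) ≤ rk N := Nat.cast_nonneg _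
  have r1 : (0 : ℝ) ≤ (rk (TT S) : ℝ) - rk N :=
    sub_nonneg.2 (Nat.cast_le.2 (Submodule.finrank_mono (Submodule.span_mono h2)))
  filter_upwards [h N h2 h3, Ioo_mem_nhdsLT (zero_lt_one' ℝ)] with t ht h4
  have p := (s K ι S E x a hC t h4.1 h4.2).2.le
  have p1 : 0 ≤ ε * (1 - t) := mul_nonneg e0.le (sub_nonneg.2 h4.2.le)
  exact ⟨ht.1.trans (mul_le_mul_of_nonneg_right
      (mul_le_mul_of_nonneg_left (by linarith) r0) p),
    le_trans (mul_le_mul_of_nonneg_right (mul_le_mul_of_nonneg_left (by linarith) r1) p) ht.2⟩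

end Pool.Agent.MP_51db15_ag.Qh
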