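import Pool.Agent.MP_51db15_ag.Qh.Spec5

/-! Row HSE: convergence is detected by finitely many evaluations. -/

namespace Pool.Agent.MP_51db15_ag.Qh

open Module

theorem hse : S_HSE := by
  intro U W ι _ _ _ _ _ δ δ' H H' ev α hev hinj hcom hF
  have key : ∀ c : ℂ, FiniteDimensional ℂ ↥(H ⊓ δ.eigenspace c) ∧
      finrank ℂ ↥(H ⊓ δ.eigenspace c) ≤
        ∑ i, finrank ℂ ↥(H' ⊓ δ'.eigenspace (c + (α i : ℂ))) := by
    intro c
    have : ∀ i, FiniteDimensional ℂ ↥(H' ⊓ δ'.eigenspace (c + (α i : ℂ))) := fun i => hF _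
    have hmem : ∀ (i : ι) (u : ↥(H ⊓ δ.eigenspace c)),
        (ev i ∘ₗ (H ⊓ δ.eigenspace c).subtype) u ∈ H' ⊓ δ'.eigenspace (c + (α i : ℂ)) := by
      rintro i ⟨u, hu, hue⟩
      refine ⟨hev u hu i, End.mem_eigenspace_iff.2 ?_⟩
      have h1 : δ u = c • u := End.mem_eigenspace_iff.1 hue
      have h2 := hcom u hu i
      rw [h1, map_smul] at h2
      change δ' (ev i u) = (c + (α i : ℂ)) • ev i u
      rw [add_smul, h2, sub_add_cancel]
    let T : ↥(H ⊓ δ.eigenspace c) →ₗ[ℂ] (∀ i, ↥(H' ⊓ δ'.eigenspace (c + (α i : ℂ)))) :=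
      LinearMap.pi fun i => LinearMap.codRestrict _ (ev i ∘ₗ (H ⊓ δ.eigenspace c).subtype) (hmem i)
    have hT : Function.Injective T := by
      rw [injective_iff_map_eq_zero]
      intro u hu
      refine Subtype.ext (hinj u.1 u.2.1 fun i => ?_)
      exact congrArg Subtype.val (congrFun hu i)
    refine ⟨FiniteDimensional.of_injective T hT, ?_⟩
    rw [← Module.finrank_pi_fintype ℂ]
    exact LinearMap.finrank_le_finrank_of_injective hT
  refine ⟨fun c => (key c).1, fun t ht hs => ?_⟩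
  have h1 : ∀ i, Summable fun k : ℤ =>
      (finrank ℂ ↥(H' ⊓ δ'.eigenspace ((k : ℂ) + (α i : ℂ))) : ℝ) * t ^ k := by
    intro i
    have h2 := ((Equiv.addRight (α i)).summable_iff.2 hs).mul_right (t ^ (-α i))
    refine h2.congr fun k => ?_
    simp only [Function.comp_apply, Equiv.coe_addRight]
    rw [Int.cast_add, mul_assoc, ← zpow_add₀ ht.ne', add_neg_cancel_right]
  refine Summable.of_nonneg_of_le (fun k => by positivity) (fun k => ?_)
    (summable_sum fun i (_ : i ∈ Finset.univ) => h1 i)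
  rw [← Finset.sum_mul]
  refine mul_le_mul_of_nonneg_right ?_ (by positivity)
  exact_mod_cast (key k).2

end Pool.Agent.MP_51db15_ag.Qh
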