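import Pool.Agent.MP_51db15_ag.Qh.Spec5

/-! The degree of a non-zero homogeneous map is bounded by the slopes. -/

namespace Pool.Agent.MP_51db15_ag.Qh

open Module

namespace HSHx

variable {K U : Type} [Field K] [Algebra ℂ K] [AddCommGroup U] [Module K U] {S : Subalgebra ℂ K}

theorem rk_eq (N : Submodule S U) (V : Submodule K U) (h1 : ∀ u ∈ N, u ∈ V)
    (h2 : ∀ u ∈ V, ∃ s : K, s ≠ 0 ∧ s • u ∈ N) : rk N = finrank K V := by
  have e : Submodule.span K (N : Set U) = V := by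
    refine le_antisymm (Submodule.span_le.2 h1) fun u hu => ?_
    obtain ⟨s, hs, h⟩ := h2 u hu
    have h3 := (Submodule.span K (N : Set U)).smul_mem s⁻¹ (Submodule.subset_span h)
    rwa [inv_smul_smul₀ hs] at h3
  rw [rk, e]

end HSHx

theorem hsh (a : S_HSA) (n : S_HSN) : S_HSH := by
  intro K U W _ _ _ _ _ _ _ _ _ _ _ S E δ δ' M M' f l α β hf hM hδ hden hst hz hfd hs hlo hup
  let N : Submodule S U := M ⊓ (LinearMap.ker f).restrictScalars S
  let I : Submodule S W := M.map (f.restrictScalars S)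
  have mN : ∀ u, u ∈ N ↔ u ∈ M ∧ f u = 0 := fun u => Iff.rfl
  have mI : ∀ w, w ∈ I ↔ ∃ u ∈ M, f u = w := fun w => Iff.rfl
  have rM : rk M = finrank K U := by
    rw [HSHx.rk_eq M ⊤ (fun _ _ => trivial) fun u _ => ?_, finrank_top]
    obtain ⟨s, -, h0, h1⟩ := hden u
    exact ⟨s, h0, h1⟩
  have rN : rk N = finrank K (LinearMap.ker f) := by
    refine HSHx.rk_eq N _ (fun u hu => ((mN u).1 hu).2) fun u hu => ?_
    obtain ⟨s, -, h0, h1⟩ := hden u
    exact ⟨s, h0, (mN _).2 ⟨h1, by rw [map_smul, LinearMap.mem_ker.1 hu, smul_zero]⟩⟩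
  have rI : rk I = finrank K (LinearMap.range f) := by
    refine HSHx.rk_eq I _ (fun w hw => ?_) fun w hw => ?_
    · obtain ⟨u, -, rfl⟩ := (mI w).1 hw
      exact ⟨u, rfl⟩
    · obtain ⟨u, rfl⟩ := hw
      obtain ⟨s, -, h0, h1⟩ := hden u
      exact ⟨s, h0, (mI _).2 ⟨_, h1, map_smul f s u⟩⟩
  have rsum : (rk M : ℝ) - rk N = rk I := by
    rw [rM, rN, rI, ← f.finrank_range_add_finrank_ker]
    push_cast
    ring
  have rpos : (0 : ℝ) < rk I := by
    rw [rI, Nat.cast_pos, pos_iff_ne_zero]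
    exact fun h => hf (LinearMap.range_eq_bot.1 (Submodule.finrank_eq_zero.1 h))
  have h1 := hlo N inf_le_left fun u hu => (mN _).2 ⟨hst u ((mN u).1 hu).1, by
    have h := hδ u
    rw [((mN u).1 hu).2, map_zero, smul_zero, add_zero] at h
    exact h.symm⟩
  have h2 := hup I (fun w hw => by
      obtain ⟨u, hu, rfl⟩ := (mI w).1 hw
      exact hM u hu) fun w hw => by
    obtain ⟨u, hu, rfl⟩ := (mI w).1 hw
    rw [hδ u, Int.cast_smul_eq_zsmul]
    exact add_mem ((mI _).2 ⟨_, hst u hu, rfl⟩) (zsmul_mem hw l)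
  refine n l α β ?_
  filter_upwards [h1, h2, Ioo_mem_nhdsLT (zero_lt_one (α := ℝ))] with t t1 t2 ht
  obtain ⟨s1, s2⟩ := hs t ht.1 ht.2
  have h3 := a U W δ δ' (M.restrictScalars ℂ) (f.restrictScalars ℂ) l t hz hfd hδ ht.1 s1
  have e1 : (M.restrictScalars ℂ).map (f.restrictScalars ℂ) = I.restrictScalars ℂ :=
    Submodule.ext fun _ => Iff.rfl
  have e2 : M.restrictScalars ℂ ⊓ LinearMap.ker (f.restrictScalars ℂ) = N.restrictScalars ℂ :=
    Submodule.ext fun _ => Iff.rfl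
  rw [e1, e2] at h3
  rw [rsum] at t1
  have h4 := (mul_le_mul_of_nonneg_left t1 (zpow_pos ht.1 l).le).trans (h3.symm.trans_le t2)
  refine le_of_mul_le_mul_right ?_ (mul_pos rpos s2)
  linarith

end Pool.Agent.MP_51db15_ag.Qh
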