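import Pool.Agent.MP_51db15_ag.Qh.Spec5

/-! HSN: first order comparison at `t = 1`. -/

namespace Pool.Agent.MP_51db15_ag.Qh

open Filter

theorem hsn : S_HSN := by
  intro l α β h
  have h1 : HasDerivAt (fun t : ℝ => 1 - t) (-1) 1 := (hasDerivAt_id (1 : ℝ)).const_sub 1
  have h2 : HasDerivAt (fun t : ℝ => t ^ l) ((l : ℝ) * (1 : ℝ) ^ (l - 1)) 1 :=
    hasDerivAt_zpow l 1 (Or.inl one_ne_zero)
  have h3 := ((h1.const_mul β).const_add 1).sub (h2.mul ((h1.const_mul α).const_add 1))
  have h4 := (hasDerivAt_iff_tendsto_slope_left_right.1 h3).1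
  have h5 := le_of_tendsto (b := (0 : ℝ)) h4 (by
    filter_upwards [h, self_mem_nhdsWithin] with t ht ht1
    rw [slope_def_field]
    refine div_nonpos_of_nonneg_of_nonpos ?_ (sub_nonpos.2 (le_of_lt ht1))
    simp only [Pi.sub_apply, Pi.mul_apply, one_zpow, sub_self, mul_zero, add_zero, mul_one,
      sub_zero, sub_nonneg]
    exact ht)
  simp only [one_zpow, sub_self, mul_zero, add_zero, mul_one, one_mul] at h5
  linarith

end Pool.Agent.MP_51db15_ag.Qh
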