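import Pool.Agent.MP_51db15_ag.Qh.Spec6

/-! Hilbert series along an injection of subquotients. -/

namespace Pool.Agent.MP_51db15_ag.Qh

open Module

namespace HSQx

variable {U W : Type} [AddCommGroup U] [Module ℂ U] [AddCommGroup W] [Module ℂ W]

theorem rn (V : Submodule ℂ U) [FiniteDimensional ℂ V] (f : U →ₗ[ℂ] W) :
    finrank ℂ ↥(V.map f) + finrank ℂ ↥(V ⊓ LinearMap.ker f) = finrank ℂ V := by
  have h := LinearMap.finrank_range_add_finrank_ker (f.domRestrict V)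
  have e : LinearMap.ker (f.domRestrict V) = (V ⊓ LinearMap.ker f).comap V.subtype := by
    ext x
    simp
  rwa [LinearMap.range_domRestrict, e,
    (Submodule.comapSubtypeEquivOfLe (inf_le_left : V ⊓ LinearMap.ker f ≤ V)).finrank_eq] at h

theorem key (A₀ A : Submodule ℂ U) (B₀ B : Submodule ℂ W) [FiniteDimensional ℂ A]
    [FiniteDimensional ℂ B] (f : U →ₗ[ℂ] W) (hA : A₀ ≤ A) (hB : B₀ ≤ B)
    (h1 : ∀ u ∈ A, f u ∈ B) (h2 : ∀ u ∈ A, f u ∈ B₀ → u ∈ A₀) :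
    finrank ℂ A + finrank ℂ B₀ ≤ finrank ℂ A₀ + finrank ℂ B := by
  have fA : FiniteDimensional ℂ A₀ := Submodule.finiteDimensional_of_le hA
  have fq : FiniteDimensional ℂ (B.map B₀.mkQ) := Module.Finite.map B B₀.mkQ
  have e1 := rn A (B₀.mkQ ∘ₗ f)
  have e2 := rn B B₀.mkQ
  rw [Submodule.ker_mkQ, inf_eq_right.2 hB] at e2
  have l1 : finrank ℂ ↥(A.map (B₀.mkQ ∘ₗ f)) ≤ finrank ℂ ↥(B.map B₀.mkQ) := by
    refine Submodule.finrank_mono ?_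
    rintro _ ⟨u, hu, rfl⟩
    exact ⟨f u, h1 u hu, rfl⟩
  have l2 : finrank ℂ ↥(A ⊓ LinearMap.ker (B₀.mkQ ∘ₗ f)) ≤ finrank ℂ A₀ := by
    refine Submodule.finrank_mono ?_
    rintro u ⟨hu, hk⟩
    refine h2 u hu ?_
    have hk' : B₀.mkQ (f u) = 0 := hk
    rwa [Submodule.mkQ_apply, Submodule.Quotient.mk_eq_zero] at hk'
  omega

theorem smb {δ : End ℂ U} {H₀ H : Submodule ℂ U} {t : ℝ} (h : H₀ ≤ H) (hd : Fd δ H)
    (ht : 0 < t) (hs : Smb δ H t) : Smb δ H₀ t := by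
  refine Summable.of_nonneg_of_le (fun j => by positivity) (fun j => ?_) hs
  refine mul_le_mul_of_nonneg_right ?_ (by positivity)
  have := hd (j : ℂ)
  exact_mod_cast Submodule.finrank_mono (inf_le_inf_right _ h)

end HSQx

theorem hsq : S_HSQ := by
  intro U W _ _ _ _ δ δ' H₀ H G₀ G f l t hH hG h1 h2 hf dH dG ht sH sG
  have sH₀ := HSQx.smb hH dH ht sH
  have sG₀ := HSQx.smb hG dG ht sG
  have ev : ∀ (n : ℤ) (u : U), u ∈ δ.eigenspace (n : ℂ) →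
      f u ∈ δ'.eigenspace ((n + l : ℤ) : ℂ) := fun n u hu => by
    rw [End.mem_eigenspace_iff] at hu ⊢
    rw [hf, hu, map_smul, Int.cast_add, add_smul]
  have e : ∀ j : ℤ, (finrank ℂ ↥(H ⊓ δ.eigenspace (j : ℂ)) : ℝ) -
      finrank ℂ ↥(H₀ ⊓ δ.eigenspace (j : ℂ)) ≤
      finrank ℂ ↥(G ⊓ δ'.eigenspace ((j + l : ℤ) : ℂ)) -
        finrank ℂ ↥(G₀ ⊓ δ'.eigenspace ((j + l : ℤ) : ℂ)) := fun j => by
    have := dH (j : ℂ)
    have := dG ((j + l : ℤ) : ℂ)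
    have h := HSQx.key (H₀ ⊓ δ.eigenspace (j : ℂ)) (H ⊓ δ.eigenspace (j : ℂ))
      (G₀ ⊓ δ'.eigenspace ((j + l : ℤ) : ℂ)) (G ⊓ δ'.eigenspace ((j + l : ℤ) : ℂ)) f
      (inf_le_inf_right _ hH) (inf_le_inf_right _ hG)
      (fun u hu => ⟨h1 u hu.1, ev j u hu.2⟩) (fun u hu hw => ⟨h2 u hu.1 hw.1, hu.2⟩)
    have h' : (finrank ℂ ↥(H ⊓ δ.eigenspace (j : ℂ)) : ℝ) +
        finrank ℂ ↥(G₀ ⊓ δ'.eigenspace ((j + l : ℤ) : ℂ)) ≤
        finrank ℂ ↥(H₀ ⊓ δ.eigenspace (j : ℂ)) +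
          finrank ℂ ↥(G ⊓ δ'.eigenspace ((j + l : ℤ) : ℂ)) := by exact_mod_cast h
    linarith
  have sR := (Equiv.addRight l).summable_iff.2 (Summable.sub sG sG₀)
  rw [hilb, hilb, hilb, hilb, ← Summable.tsum_sub sH sH₀, ← Summable.tsum_sub sG sG₀,
    ← tsum_mul_left, ← (Equiv.addRight l).tsum_eq (fun k : ℤ =>
      (finrank ℂ ↥(G ⊓ δ'.eigenspace (k : ℂ)) : ℝ) * t ^ k -
        (finrank ℂ ↥(G₀ ⊓ δ'.eigenspace (k : ℂ)) : ℝ) * t ^ k)]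
  refine Summable.tsum_le_tsum (fun j => ?_) ((Summable.sub sH sH₀).mul_left _) sR
  have hp : 0 ≤ t ^ j * t ^ l := by positivity
  have := mul_le_mul_of_nonneg_right (e j) hp
  rw [Equiv.coe_addRight, zpow_add₀ ht.ne']
  linarith

end Pool.Agent.MP_51db15_ag.Qh
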