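import Pool.Agent.MP_51db15_ag.Qh.Spec5

/-! PROJECT SS, row HSS: the Hilbert series of the cone. -/

namespace Pool.Agent.MP_51db15_ag.Qh

open Module

namespace HSSx

variable {K ι : Type} [Field K] [Algebra ℂ K] [Fintype ι] {S : Subalgebra ℂ K} {E : DD K}
  {x : ι → K} {a : ι → ℕ}

theorem mon (c : Cx S E x a) (y : K) (hy : y ∈ Submonoid.closure (Set.range x)) :
    ∃ α : ι → ℕ, y = ∏ i, x i ^ α i ∧ E y = ((∑ i, a i * α i : ℕ) : ℂ) • y := by
  classical
  induction hy using Submonoid.closure_induction with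
  | mem y h =>
    obtain ⟨i, rfl⟩ := h
    refine ⟨Pi.single i 1, ?_, ?_⟩
    · rw [Finset.prod_eq_single i (fun j _ hj => by simp [hj]) (by simp)]
      simp
    · rw [Finset.sum_eq_single i (fun j _ hj => by simp [hj]) (by simp), c.eig]
      simp
  | one => exact ⟨0, by simp, by simp⟩
  | mul y z _ _ hy hz =>
    obtain ⟨α, y1, y2⟩ := hy
    obtain ⟨β, z1, z2⟩ := hz
    refine ⟨α + β, ?_, ?_⟩
    · rw [y1, z1, ← Finset.prod_mul_distrib]
      exact Finset.prod_congr rfl fun i _ => (pow_add _ _ _).symm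
    · rw [Derivation.leibniz, y2, z2]
      simp only [Pi.add_apply, mul_add, Finset.sum_add_distrib, Nat.cast_add, smul_eq_mul,
        Algebra.smul_def, map_add]
      ring

theorem le_span (c : Cx S E x a) (k : ℤ) : SC S ⊓ (op E).eigenspace (k : ℂ) ≤
    Submodule.span ℂ ((fun α : ι → ℕ => ∏ i, x i ^ α i) ''
      {α | ((∑ i, a i * α i : ℕ) : ℤ) = k}) := by
  obtain ⟨A, hA⟩ : ∃ A : Submodule ℂ K, A = Submodule.span ℂ ((fun α : ι → ℕ => ∏ i, x i ^ α i) ''
      {α | ((∑ i, a i * α i : ℕ) : ℤ) = k}) := ⟨_, rfl⟩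
  rw [← hA]
  have h1 : SC S ≤ (A ⊓ (op E).eigenspace (k : ℂ)) ⊔
      ⨆ (z : ℂ) (_ : z ≠ k), (op E).eigenspace z := by
    rw [← c.gen, SC, Algebra.adjoin_eq_span]
    refine Submodule.span_le.2 fun y hy => ?_
    obtain ⟨α, y1, y2⟩ := mon c y hy
    by_cases h : ((∑ i, a i * α i : ℕ) : ℤ) = k
    · refine Submodule.mem_sup_left ⟨hA ▸ Submodule.subset_span ⟨α, h, y1.symm⟩,
        End.mem_eigenspace_iff.2 ?_⟩
      rw [← h, Int.cast_natCast]
      exact y2
    · exact Submodule.mem_sup_right (Submodule.mem_iSup_of_mem _ (Submodule.mem_iSup_of_mem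
        (fun e => h (by exact_mod_cast e)) (End.mem_eigenspace_iff.2 y2)))
  refine (inf_le_inf_right _ h1).trans ?_
  rw [sup_inf_assoc_of_le _ inf_le_right, (End.eigenspaces_iSupIndep (op E) k).symm.eq_bot,
    sup_bot_eq]
  exact inf_le_left

theorem rank_le (c : Cx S E x a) (h : ∀ i, 0 < a i) (n : ℕ) :
    finrank ℂ ↥(SC S ⊓ (op E).eigenspace ((n : ℤ) : ℂ)) ≤ (n + 1) ^ Fintype.card ι := by
  classical
  have h1 : SC S ⊓ (op E).eigenspace ((n : ℤ) : ℂ) ≤ Submodule.span ℂ
      (((Fintype.piFinset fun _ : ι => Finset.range (n + 1)).image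
        fun α : ι → ℕ => ∏ i, x i ^ α i : Finset K) : Set K) := by
    refine (le_span c n).trans (Submodule.span_mono ?_)
    rw [Finset.coe_image]
    refine Set.image_mono fun α hα => Fintype.mem_piFinset.2 fun i => Finset.mem_range.2 ?_
    have e : ∑ i, a i * α i = n := by exact_mod_cast hα
    have h2 : a i * α i ≤ ∑ i, a i * α i :=
      Finset.single_le_sum (f := fun i => a i * α i) (fun _ _ => Nat.zero_le _) (Finset.mem_univ i)
    have h3 := Nat.le_mul_of_pos_left (α i) (h i)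
    omega
  refine (Submodule.finrank_mono h1).trans ((finrank_span_finset_le_card _).trans
    (Finset.card_image_le.trans_eq ?_))
  rw [Fintype.card_piFinset]
  simp

theorem rank_neg (c : Cx S E x a) (k : ℤ) (hk : k < 0) :
    finrank ℂ ↥(SC S ⊓ (op E).eigenspace (k : ℂ)) = 0 := by
  have h1 := le_span c k
  rw [Set.eq_empty_of_forall_notMem (s := {α : ι → ℕ | ((∑ i, a i * α i : ℕ) : ℤ) = k})
    fun α hα => by have : ((∑ i, a i * α i : ℕ) : ℤ) = k := hα; omega, Set.image_empty,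
    Submodule.span_empty, le_bot_iff] at h1
  rw [h1, finrank_bot]

end HSSx

theorem hss : S_HSS := by
  intro K ι _ _ _ S E x a hC t t0 t1
  have h1 : Smb (op E) (SC S) t := by
    refine Summable.of_nat_of_neg_add_one ?_ ?_
    · have h2 := ((summable_nat_add_iff 1).2 (summable_pow_mul_geometric_of_norm_lt_one
        (Fintype.card ι) (r := t) (by rwa [Real.norm_of_nonneg t0.le]))).mul_right t⁻¹
      refine Summable.of_nonneg_of_le (fun n => by positivity) (fun n => ?_) h2
      have h3 : (finrank ℂ ↥(SC S ⊓ (op E).eigenspace ((n : ℤ) : ℂ)) : ℝ) ≤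
          ((n + 1 : ℕ) : ℝ) ^ Fintype.card ι := by
        exact_mod_cast HSSx.rank_le hC.cx hC.pos n
      rw [zpow_natCast, pow_succ t, mul_assoc, mul_assoc, mul_inv_cancel₀ t0.ne', mul_one]
      exact mul_le_mul_of_nonneg_right h3 (by positivity)
    · refine summable_zero.congr fun n => ?_
      rw [HSSx.rank_neg hC.cx _ (by omega), Nat.cast_zero, zero_mul]
  refine ⟨h1, h1.tsum_pos (fun k => by positivity) 0 (mul_pos ?_ (by positivity))⟩
  have := hC.vtx.fd ((0 : ℤ) : ℂ)
  exact Nat.cast_pos.2 (finrank_pos_iff_exists_ne_zero.2 ⟨⟨1, one_mem S,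
    End.mem_eigenspace_iff.2 (by simp)⟩, fun e => one_ne_zero (congrArg Subtype.val e)⟩)

end Pool.Agent.MP_51db15_ag.Qh
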