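import Pool.Agent.MP_51db15_ag.Qh.Spec5

/-! Project SS: the series of fields and of forms converge. -/

namespace Pool.Agent.MP_51db15_ag.Qh

open Module

namespace HSTx

variable {K ι : Type} [Field K] [Algebra ℂ K] {S : Subalgebra ℂ K} {E : DD K} {x : ι → K}
  {a : ι → ℕ}

/-- evaluation of a field -/
def evT (g : K) : DD K →ₗ[ℂ] K where
  toFun D := D g
  map_add' _ _ := rfl
  map_smul' _ _ := rfl

/-- evaluation of a form -/
def evD (u : DD K) : DU K →ₗ[ℂ] K where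
  toFun γ := γ u
  map_add' _ _ := rfl
  map_smul' _ _ := rfl

theorem span_top (h : Cone S E x a) :
    Submodule.span K {D : DD K | D ∈ TT S ∧ ∃ p : ℤ, ⁅E, D⁆ = (p : ℂ) • D} = ⊤ := by
  refine eq_top_iff.2 fun D _ => ?_
  obtain ⟨s, -, hs, hD⟩ := h.bas.den D
  have h1 : (⨆ n : ℤ, TC S ⊓ (ad E).eigenspace (n : ℂ)) ≤ (Submodule.span K
      {D : DD K | D ∈ TT S ∧ ∃ p : ℤ, ⁅E, D⁆ = (p : ℂ) • D}).restrictScalars ℂ :=
    iSup_le fun n u hu => Submodule.subset_span ⟨hu.1, n, End.mem_eigenspace_iff.1 hu.2⟩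
  have h2 := Submodule.smul_mem _ s⁻¹ (show s • D ∈ Submodule.span K _ from h1 (h.ev.T _ hD))
  rwa [inv_smul_smul₀ hs] at h2

theorem exists_fam (h : Cone S E x a) : ∃ (κ : Type) (_ : Fintype κ) (u : κ → DD K) (p : κ → ℤ),
    (∀ j, u j ∈ TT S ∧ ⁅E, u j⁆ = (p j : ℂ) • u j) ∧ Submodule.span K (Set.range u) = ⊤ := by
  have := h.bas.fd
  obtain ⟨b, hb, h1, h2⟩ := exists_linearIndependent K
    {D : DD K | D ∈ TT S ∧ ∃ p : ℤ, ⁅E, D⁆ = (p : ℂ) • D}
  have : Finite b := h2.finite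
  choose p hp using fun j : b => (hb j.2).2
  exact ⟨b, Fintype.ofFinite b, fun j => j, p, fun j => ⟨(hb j.2).1, hp j⟩, by
    rw [Subtype.range_coe, h1, span_top h]⟩

end HSTx

theorem hst (s : S_HSS) (e : S_HSE) : S_HST := by
  intro K ι _ _ _ S E x a h
  obtain ⟨κ, _, u, p, hu, hs⟩ := HSTx.exists_fam h
  have hT := e (DD K) K ι (ad E) (op E) (TC S) (SC S) (fun i => HSTx.evT (x i))
    (fun i => (a i : ℤ)) (fun D hD i => hD _ (h.bas.mem i))
    (fun D _ h0 => h.bas.ext D 0 h0)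
    (fun D _ i => by
      change ⁅E, D⁆ (x i) = E (D (x i)) - ((a i : ℤ) : ℂ) • D (x i)
      rw [Derivation.commutator_apply, h.cx.eig, Derivation.map_smul, Int.cast_natCast])
    h.vtx.fd
  have hD := e (DU K) K κ (ld E) (op E) (DC S) (SC S) (fun j => HSTx.evD (u j)) p
    (fun γ hγ j => hγ _ (hu j).1)
    (fun γ _ h0 => LinearMap.ext_on_range hs h0)
    (fun γ _ j => by
      change ld E γ (u j) = E (γ (u j)) - (p j : ℂ) • γ (u j)
      rw [ld_apply, (hu j).2, lin_c])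
    h.vtx.fd
  exact ⟨hD.1, fun t h0 h1 => ⟨hT.2 t h0 (s K ι S E x a h t h0 h1).1,
    hD.2 t h0 (s K ι S E x a h t h0 h1).1⟩⟩

end Pool.Agent.MP_51db15_ag.Qh
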