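import Pool.Agent.MP_51db15_ag.Qh.Spec5

/-! Row HSU of project SS: ideals have slope at most zero. -/

namespace Pool.Agent.MP_51db15_ag.Qh

open Module

namespace HSUx

theorem mono {U : Type} [AddCommGroup U] [Module ℂ U] (δ : End ℂ U) {H H' : Submodule ℂ U}
    (h : H ≤ H') (hf : Fd δ H') {t : ℝ} (ht : 0 < t) (hs : Smb δ H' t) :
    hilb δ H t ≤ hilb δ H' t := by
  have key : ∀ k : ℤ, (finrank ℂ ↥(H ⊓ δ.eigenspace (k : ℂ)) : ℝ) * t ^ k ≤
      (finrank ℂ ↥(H' ⊓ δ.eigenspace (k : ℂ)) : ℝ) * t ^ k := fun k => by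
    have := hf (k : ℂ)
    refine mul_le_mul_of_nonneg_right ?_ (zpow_pos ht k).le
    exact_mod_cast Submodule.finrank_mono (inf_le_inf_right _ h)
  refine Summable.tsum_le_tsum key (Summable.of_nonneg_of_le (fun k => ?_) key hs) hs
  exact mul_nonneg (Nat.cast_nonneg _) (zpow_pos ht k).le

theorem bot {U : Type} [AddCommGroup U] [Module ℂ U] (δ : End ℂ U) (t : ℝ) :
    hilb δ ⊥ t = 0 := by
  have h : ∀ k : ℤ, finrank ℂ ↥((⊥ : Submodule ℂ U) ⊓ δ.eigenspace (k : ℂ)) = 0 := fun k => by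
    rw [bot_inf_eq, finrank_bot]
  simp only [hilb, h, Nat.cast_zero, zero_mul, tsum_zero]

theorem one_le {K : Type} [Field K] [Algebra ℂ K] {S : Subalgebra ℂ K} {N : Submodule S K}
    (h : N ≠ ⊥) : 1 ≤ rk N := by
  obtain ⟨u, hu, h0⟩ := (Submodule.ne_bot_iff N).1 h
  refine Submodule.one_le_finrank_iff.2 ((Submodule.ne_bot_iff _).2 ⟨u, ?_, h0⟩)
  exact Submodule.subset_span hu

end HSUx

theorem hsu (s : S_HSS) : S_HSU := by
  intro K ι _ _ _ S E x a hc N hN _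
  have hev : ∀ᶠ t in nhdsWithin (1 : ℝ) (Set.Iio 1), 0 < t ∧ t < 1 :=
    ((lt_mem_nhds zero_lt_one).filter_mono nhdsWithin_le_nhds).and self_mem_nhdsWithin
  refine hev.mono fun t ht => ?_
  obtain ⟨hs, hp⟩ := s K ι S E x a hc t ht.1 ht.2
  rw [zero_mul, add_zero, mul_one]
  by_cases h0 : N = ⊥
  · have h1 : N.restrictScalars ℂ = ⊥ := by
      rw [h0]
      rfl
    rw [h1, HSUx.bot]
    exact mul_nonneg (Nat.cast_nonneg _) hp.le
  · have h1 : N.restrictScalars ℂ ≤ SC S := fun u hu => by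
      obtain ⟨y, hy⟩ := Submodule.mem_one.1 (hN hu)
      rw [← hy]
      exact y.2
    have h2 : (1 : ℝ) ≤ rk N := by exact_mod_cast HSUx.one_le h0
    refine (HSUx.mono _ h1 hc.vtx.fd ht.1 hs).trans ?_
    exact le_mul_of_one_le_left hp.le h2

end Pool.Agent.MP_51db15_ag.Qh
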