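import Pool.Agent.MP_51db15_ag.Qh.Spec4

/-! IMP: a dilating field is improved until its symbol is a multiple of the Euler field. -/

namespace Pool.Agent.MP_51db15_ag.Qh

open Module

noncomputable section

namespace IMPx

variable {K : Type} [Field K] [Algebra ℂ K] {R : Type} [CommRing R] [Algebra ℂ R]

theorem lf_add (X Y : DD K) (η : FF K) : lf (X + Y) η = lf X η + lf Y η :=
  LinearMap.ext fun D => LinearMap.ext fun D' => by
    simp only [lf_apply, add_lie, map_add, LinearMap.add_apply, Derivation.add_apply]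
    ring

theorem lf_smul (c : ℂ) (X : DD K) (η : FF K) : lf (c • X) η = c • lf X η :=
  LinearMap.ext fun D => LinearMap.ext fun D' => by
    have h1 : η D (c • ⁅X, D'⁆) = c • η D ⁅X, D'⁆ := lin_c (η D) c _
    have h2 : η (c • ⁅X, D⁆) = c • η ⁅X, D⁆ := lin_c η c _
    simp only [lf_apply, smul_lie, LinearMap.smul_apply, Derivation.smul_apply, h1, h2, smul_sub]

theorem dil_sub {ω : FR R} (hω : Hy.IsSymplecticForm ω) {ξ H : DR R} {g : R}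
    (hξ : Nc.IsDilating ω ξ) (hH : ∀ Y, ω H Y = Y g) : Nc.IsDilating ω (ξ + (-1 : ℂ) • H) := by
  intro Y Z
  have h1 := hξ Y Z
  have h2 := Nc.ham_inv hω hH Y Z
  have e : ξ + (-1 : ℂ) • H = ξ - H := by rw [neg_one_smul, sub_eq_add_neg]
  rw [e, sub_lie, sub_lie, map_sub, map_sub, LinearMap.sub_apply, Derivation.sub_apply]
  linear_combination h1 - h2

theorem od_mono {F : ℤ → Ideal R} (hF : Antitone F) {D : DR R} {p q : ℤ} (h : Od F D p)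
    (hq : q ≤ p) : Od F D q := fun k r hr => hF (by omega) (h k r hr)

end IMPx

open IMPx in
theorem imp (d : S_OMD) : S_IMP := by
  intro K ι R _ _ _ _ _ S E x a F X σ ω l ω₀ B hF hω hL hB hE hl hH ξ hξ
  have step : ∀ (ξ : DR R) (p : ℤ) (Z' Z : DD K), Nc.IsDilating ω ξ → Sym F σ ξ p Z' →
      Z ∈ TT S → ⁅E, Z⁆ = (p : ℂ) • Z → lf Z ω₀ = 0 →
      ∃ ξ' : DR R, Nc.IsDilating ω ξ' ∧ Sym F σ ξ' p (Z' + (-1 : ℂ) • Z) := by
    intro ξ p Z' Z h1 h2 h3 h4 h5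
    obtain ⟨f, hf, hfE, rfl⟩ := hH Z h3 p h4 h5
    obtain ⟨r, hr, rfl⟩ := hF.fb.surj (p + l) f hf hfE
    obtain ⟨H, hHr⟩ := hω.2.2 r
    have h6 := hB (p + l) r hr H hHr
    rw [add_sub_cancel_right] at h6
    exact ⟨_, dil_sub hω h1 hHr, hF.sy.add _ _ _ _ _ h2 (hF.sy.csmul _ _ _ (-1) h6)⟩
  have up : ∀ (p : ℤ), p < 0 → ∀ ξ : DR R, Nc.IsDilating ω ξ → Od F ξ p →
      ∃ ξ' : DR R, Nc.IsDilating ω ξ' ∧ Od F ξ' (p + 1) := by
    intro p hp ξ h1 h2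
    obtain ⟨Z, hZ⟩ := hF.sy.ex ξ p h2
    obtain ⟨m1, m2⟩ := hF.sy.mem ξ p Z hZ
    obtain ⟨ξ', k1, k2⟩ := step ξ p Z Z h1 hZ m1 m2
      ((d K ι R S E x a F X σ ω l ω₀ hF hL ξ p Z h1 hZ).1 hp)
    rw [neg_one_smul, add_neg_cancel] at k2
    exact ⟨ξ', k1, (hF.sy.zero ξ' p).1 k2⟩
  have ind : ∀ (n : ℕ) (ξ : DR R), Nc.IsDilating ω ξ → Od F ξ (-(n : ℤ)) →
      ∃ ξ' : DR R, Nc.IsDilating ω ξ' ∧ Od F ξ' 0 := by
    intro n
    induction n with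
    | zero => exact fun ξ h1 h2 => ⟨ξ, h1, by simpa using h2⟩
    | succ n ih =>
      intro ξ h1 h2
      obtain ⟨ξ', k1, k2⟩ := up _ (by push_cast; omega) ξ h1 h2
      exact ih ξ' k1 (od_mono hF.fa.anti k2 (by push_cast; omega))
  obtain ⟨b, hb⟩ := hF.sy.low
  obtain ⟨ξ', k1, k2⟩ := ind b.natAbs ξ hξ (od_mono hF.fa.anti (hb ξ) (by omega))
  obtain ⟨Z, hZ⟩ := hF.sy.ex ξ' 0 k2
  obtain ⟨m1, m2⟩ := hF.sy.mem ξ' 0 Z hZ
  have m3 := (d K ι R S E x a F X σ ω l ω₀ hF hL ξ' 0 Z k1 hZ).2 rfl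
  have hl' : (l : ℂ) ≠ 0 := Int.cast_ne_zero.2 hl.ne'
  have n1 : Z + (-(l : ℂ)⁻¹) • E ∈ TT S :=
    add_mem m1 (((TT S).restrictScalars ℂ).smul_mem _ hF.cone.ev.tm)
  have n2 : ⁅E, Z + (-(l : ℂ)⁻¹) • E⁆ = ((0 : ℤ) : ℂ) • (Z + (-(l : ℂ)⁻¹) • E) := by
    rw [lie_add, lie_smul, lie_self, m2, smul_zero, Int.cast_zero, zero_smul, zero_smul, add_zero]
  have n3 : lf (Z + (-(l : ℂ)⁻¹) • E) ω₀ = 0 := by
    rw [lf_add, lf_smul, m3, hE, smul_smul, neg_mul, inv_mul_cancel₀ hl']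
    refine LinearMap.ext fun D => LinearMap.ext fun D' => ?_
    simp only [LinearMap.add_apply, LinearMap.smul_apply, LinearMap.zero_apply, neg_smul, one_smul,
      add_neg_cancel]
  obtain ⟨ξ'', -, j2⟩ := step ξ' 0 Z _ k1 hZ n1 n2 n3
  refine ⟨ξ'', ?_⟩
  have e : Z + (-1 : ℂ) • (Z + (-(l : ℂ)⁻¹) • E) = (l : ℂ)⁻¹ • E := by
    rw [neg_one_smul, neg_smul, neg_add, neg_neg, add_neg_cancel_left]
  rwa [e] at j2

end

end Pool.Agent.MP_51db15_ag.Qh
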