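import Pool.Agent.MP_51db15_ag.Qh.Spec2
import Pool.Agent.MP_51db15_ag.Nc.D4

/-! The cone of a weighted homogeneous prime ideal in its function field. -/

namespace Pool.Agent.MP_51db15_ag.Qh

open MvPolynomial

noncomputable section

namespace INIx

variable {ι : Type} [Fintype ι] [DecidableEq ι]

/-- the Euler field on polynomials -/
def eu (a : ι → ℕ) : Derivation ℂ (MvPolynomial ι ℂ) (MvPolynomial ι ℂ) :=
  ∑ i, (a i • X i : MvPolynomial ι ℂ) • pderiv i

theorem eu_apply (a : ι → ℕ) (g : MvPolynomial ι ℂ) :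
    eu a g = ∑ i, a i • (X i * pderiv i g) := by
  have h := map_sum (Derivation.coeFnAddMonoidHom (R := ℂ) (A := MvPolynomial ι ℂ)
    (M := MvPolynomial ι ℂ)) (fun i => (a i • X i : MvPolynomial ι ℂ) • pderiv i) Finset.univ
  refine (congrFun h g).trans ?_
  rw [Finset.sum_apply]
  exact Finset.sum_congr rfl fun i _ => smul_mul_assoc _ _ _

theorem eu_X (a : ι → ℕ) (i : ι) : eu a (X i) = a i • X i := by
  rw [eu_apply, (isWeightedHomogeneous_X ℂ a i).sum_weight_X_mul_pderiv]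

theorem eu_mem (a : ι → ℕ) (J : Ideal (MvPolynomial ι ℂ))
    (h : ∀ g ∈ J, ∀ n, weightedHomogeneousComponent a n g ∈ J) (g : MvPolynomial ι ℂ)
    (hg : g ∈ J) : eu a g ∈ J := by
  rw [← sum_weightedHomogeneousComponent a g,
    finsum_eq_sum _ (weightedHomogeneousComponent_finsupp g), map_sum]
  refine J.sum_mem fun n _ => ?_
  rw [eu_apply, (weightedHomogeneousComponent_isWeightedHomogeneous n g).sum_weight_X_mul_pderiv]
  exact nsmul_mem (h g hg n) n

end INIx

open INIx in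
theorem ini : S_INI := by
  intro ι _ _ a J _ hn h
  obtain ⟨K, _, _, φ, hk, hfr⟩ := Nc.D4.exists_field J ((Ideal.Quotient.isDomain_iff_prime J).1 ‹_›)
  obtain ⟨E, hE⟩ := Hy.lift _ K φ (φ.toLinearMap ∘ₗ (eu a).toLinearMap) hfr
    (fun p q => by
      show φ (eu a (p * q)) = φ p * φ (eu a q) + φ q * φ (eu a p)
      rw [Derivation.leibniz, smul_eq_mul, smul_eq_mul, map_add, map_mul, map_mul])
    (fun p hp => (hk _).2 (eu_mem a J h p ((hk p).1 hp)))
  have hs : Function.Surjective φ.rangeRestrict := φ.rangeRestrict_surjective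
  have hf : ∀ y : K, ∃ g ∈ φ.range, ∃ h ∈ φ.range, h ≠ 0 ∧ y = g / h := fun y => by
    obtain ⟨p, q, e⟩ := hfr y
    by_cases hb : φ q = 0
    · exact ⟨0, zero_mem _, 1, one_mem _, one_ne_zero, by rw [e, hb]; simp⟩
    · exact ⟨_, ⟨p, rfl⟩, _, ⟨q, rfl⟩, hb, e⟩
  have hF' : IsFractionRing φ.range K := IsFractionRing.of_field _ K fun y => by
    obtain ⟨p, hp, q, hq, -, e⟩ := hf y
    exact ⟨⟨p, hp⟩, ⟨q, hq⟩, e⟩
  have hk' : ∀ g, φ.rangeRestrict g = 0 ↔ g ∈ J := fun g => Subtype.ext_iff.trans (hk g)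
  have hI : IsIntegrallyClosed φ.range := IsIntegrallyClosed.of_equiv
    ((Ideal.quotEquivOfEq (Ideal.ext fun g => (hk' g).symm)).trans
      (Ideal.quotientKerAlgEquivOfSurjective hs).toRingEquiv)
  refine ⟨K, inferInstance, inferInstance, φ, E, hk, ⟨?_, hf, fun i => ?_⟩, fun y hy => ?_, ?_⟩
  · rw [Algebra.adjoin_range_eq_range_aeval]
    congr 1
    exact (aeval_unique φ).symm
  · rw [hE]
    show φ (eu a (X i)) = _
    rw [eu_X, map_nsmul, Nat.cast_smul_eq_nsmul]
  · obtain ⟨z, rfl⟩ := (isIntegrallyClosed_iff K).1 hI hy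
    exact z.2
  · unfold vx
    congr 1
    ext g
    exact exists_congr fun i => ⟨fun e => Subtype.ext e.symm, fun e => e ▸ rfl⟩

end

end Pool.Agent.MP_51db15_ag.Qh
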