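import Pool.Agent.MP_51db15_ag.Qh.Spec3
import Pool.Agent.MP_51db15_ag.Qh.INI

/-! The cone of a weighted homogeneous prime ideal in its function field, without normality. -/

namespace Pool.Agent.MP_51db15_ag.Qh

open MvPolynomial

noncomputable section

open INIx in
theorem ini2 : S_INI2 := by
  intro ι _ _ a J hJ h
  obtain ⟨K, _, _, φ, hk, hfr⟩ := Nc.D4.exists_field J hJ
  obtain ⟨E, hE⟩ := Hy.lift _ K φ (φ.toLinearMap ∘ₗ (eu a).toLinearMap) hfr
    (fun p q => by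
      show φ (eu a (p * q)) = φ p * φ (eu a q) + φ q * φ (eu a p)
      rw [Derivation.leibniz, smul_eq_mul, smul_eq_mul, map_add, map_mul, map_mul])
    (fun p hp => (hk _).2 (eu_mem a J h p ((hk p).1 hp)))
  have hf : ∀ y : K, ∃ g ∈ φ.range, ∃ h ∈ φ.range, h ≠ 0 ∧ y = g / h := fun y => by
    obtain ⟨p, q, e⟩ := hfr y
    by_cases hb : φ q = 0
    · exact ⟨0, zero_mem _, 1, one_mem _, one_ne_zero, by rw [e, hb]; simp⟩
    · exact ⟨_, ⟨p, rfl⟩, _, ⟨q, rfl⟩, hb, e⟩
  refine ⟨K, inferInstance, inferInstance, φ, E, hk, ⟨?_, hf, fun i => ?_⟩, ?_⟩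
  · rw [Algebra.adjoin_range_eq_range_aeval]
    congr 1
    exact (aeval_unique φ).symm
  · rw [hE]
    show φ (eu a (X i)) = _
    rw [eu_X, map_nsmul, Nat.cast_smul_eq_nsmul]
  · unfold vx
    congr 1
    ext g
    exact exists_congr fun i => ⟨fun e => Subtype.ext e.symm, fun e => e ▸ rfl⟩

end

end Pool.Agent.MP_51db15_ag.Qh
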