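import Pool.Agent.MP_51db15_ag.Qh.Spec4

/-! Weighted components and weighted order of power series. -/

set_option linter.unusedSectionVars false

namespace Pool.Agent.MP_51db15_ag.Qh

open MvPowerSeries Hy Nc

variable {ι : Type} [Fintype ι] {a : ι → ℕ}

/-- the component of weight `n`, as a polynomial -/
noncomputable def wh (a : ι → ℕ) (n : ℕ) (g : PS ι) : PP ι :=
  MvPolynomial.weightedHomogeneousComponent a n (truncTotal (n + 1) g)

namespace WB

theorem degree_le (ha : ∀ i, 0 < a i) (α : ι →₀ ℕ) : Finsupp.degree α ≤ Finsupp.weight a α := by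
  rw [Finsupp.degree_eq_sum, Finsupp.weight_eq_sum]
  exact Finset.sum_le_sum fun i _ => by
    rw [smul_eq_mul]
    exact Nat.le_mul_of_pos_right _ (ha i)

theorem weight_le (a : ι → ℕ) (α : ι →₀ ℕ) :
    Finsupp.weight a α ≤ Finsupp.degree α * ∑ j, a j := by
  rw [Finsupp.degree_eq_sum, Finsupp.weight_eq_sum, Finset.sum_mul]
  exact Finset.sum_le_sum fun i _ => by
    rw [smul_eq_mul]
    exact Nat.mul_le_mul_left _
      (Finset.single_le_sum (fun j _ => Nat.zero_le (a j)) (Finset.mem_univ i))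

theorem weight_single (i : ι) : Finsupp.weight a (Finsupp.single i 1) = a i := by
  rw [Finsupp.weight_single, one_smul]

end WB

theorem coeff_wh (ha : ∀ i, 0 < a i) (n : ℕ) (g : PS ι) (α : ι →₀ ℕ) :
    MvPolynomial.coeff α (wh a n g) = if Finsupp.weight a α = n then coeff α g else 0 := by
  rw [wh, MvPolynomial.coeff_weightedHomogeneousComponent]
  split_ifs with h
  · exact coeff_truncTotal _ (by have := WB.degree_le ha α; omega)
  · rfl

theorem wh_hom (n : ℕ) (g : PS ι) : (wh a n g).IsWeightedHomogeneous a n :=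
  MvPolynomial.weightedHomogeneousComponent_isWeightedHomogeneous _ _

theorem coe_wh (ha : ∀ i, 0 < a i) (n : ℕ) (g : PS ι) :
    (wh a n g : PS ι) = weightedHomogeneousComponent a n g := by
  ext α
  rw [MvPolynomial.coeff_coe, coeff_wh ha, coeff_weightedHomogeneousComponent]

theorem wh_coe (ha : ∀ i, 0 < a i) (n : ℕ) (G : PP ι) :
    wh a n (G : PS ι) = MvPolynomial.weightedHomogeneousComponent a n G := by
  ext α
  rw [coeff_wh ha, MvPolynomial.coeff_coe, MvPolynomial.coeff_weightedHomogeneousComponent]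

theorem wh_coe_self (ha : ∀ i, 0 < a i) {n : ℕ} {G : PP ι} (h : G.IsWeightedHomogeneous a n) :
    wh a n (G : PS ι) = G := by
  rw [wh_coe ha, h.weightedHomogeneousComponent_same]

theorem wh_add (n : ℕ) (g h : PS ι) : wh a n (g + h) = wh a n g + wh a n h := by simp [wh]

theorem wh_sub (n : ℕ) (g h : PS ι) : wh a n (g - h) = wh a n g - wh a n h := by simp [wh]

theorem wh_smul (n : ℕ) (c : ℂ) (g : PS ι) : wh a n (c • g) = c • wh a n g := by simp [wh]

theorem wh_zero (n : ℕ) : wh a n (0 : PS ι) = 0 := by simp [wh]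

theorem wh_sum {S : Type} (T : Finset S) (n : ℕ) (g : S → PS ι) :
    wh a n (∑ s ∈ T, g s) = ∑ s ∈ T, wh a n (g s) := by simp [wh]

theorem wo_iff {k : ℤ} {g : PS ι} :
    Wo a k g ↔ ∀ α : ι →₀ ℕ, (Finsupp.weight a α : ℤ) < k → coeff α g = 0 :=
  ⟨fun h α hα => coeff_eq_zero_of_lt_weightedOrder a
    (lt_of_lt_of_le (by exact_mod_cast (by omega : Finsupp.weight a α < k.toNat)) h),
    fun h => nat_le_weightedOrder a fun α hα => h α (by omega)⟩

theorem wo_nat {n : ℕ} {g : PS ι} : Wo a n g ↔ (n : ℕ∞) ≤ g.weightedOrder a := by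
  rw [Wo, Int.toNat_natCast]

theorem wo_succ {n : ℕ} {g : PS ι} : Wo a (n + 1) g ↔ (n : ℕ∞) < g.weightedOrder a := by
  rw [show (n : ℤ) + 1 = ((n + 1 : ℕ) : ℤ) by push_cast; ring, wo_nat, Nat.cast_add, Nat.cast_one,
    ENat.add_one_le_iff (ENat.coe_ne_top n)]

namespace Wo

variable {k l : ℤ} {g h : PS ι}

theorem zero : Wo a k (0 : PS ι) := wo_iff.2 fun _ _ => map_zero _

theorem top (hk : k ≤ 0) (g : PS ι) : Wo a k g := wo_iff.2 fun _ h => by omega

theorem mono (hg : Wo a k g) (e : l ≤ k) : Wo a l g :=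
  wo_iff.2 fun α h => wo_iff.1 hg α (by omega)

theorem add (hg : Wo a k g) (hh : Wo a k h) : Wo a k (g + h) :=
  wo_iff.2 fun α e => by rw [map_add, wo_iff.1 hg α e, wo_iff.1 hh α e, add_zero]

theorem neg (hg : Wo a k g) : Wo a k (-g) :=
  wo_iff.2 fun α e => by rw [map_neg, wo_iff.1 hg α e, neg_zero]

theorem sub (hg : Wo a k g) (hh : Wo a k h) : Wo a k (g - h) := by
  rw [sub_eq_add_neg]
  exact hg.add hh.neg

theorem smul (hg : Wo a k g) (c : ℂ) : Wo a k (c • g) :=
  wo_iff.2 fun α e => by rw [map_smul, wo_iff.1 hg α e, smul_zero]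

theorem sum {S : Type} (T : Finset S) {f : S → PS ι} (hf : ∀ s ∈ T, Wo a k (f s)) :
    Wo a k (∑ s ∈ T, f s) :=
  wo_iff.2 fun α e => by
    rw [map_sum]
    exact Finset.sum_eq_zero fun s hs => wo_iff.1 (hf s hs) α e

theorem mul (hg : Wo a k g) (hh : Wo a l h) : Wo a (k + l) (g * h) :=
  le_trans (le_trans (by exact_mod_cast (by omega : (k + l).toNat ≤ k.toNat + l.toNat))
    (add_le_add hg hh)) (le_weightedOrder_mul a)

theorem mul_left (hh : Wo a l h) (g : PS ι) : Wo a l (g * h) := by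
  simpa using (top le_rfl g).mul hh

theorem pderiv (hg : Wo a k g) (i : ι) : Wo a (k - a i) (pderiv ℂ i g) :=
  wo_iff.2 fun α e => by
    rw [coeff_pderiv, wo_iff.1 hg _ (by rw [map_add, WB.weight_single]; push_cast; omega), zero_mul]

theorem coe {n : ℕ} {G : PP ι} (hG : G.IsWeightedHomogeneous a n) : Wo a n (G : PS ι) :=
  wo_iff.2 fun α e => by rw [MvPolynomial.coeff_coe, hG.coeff_eq_zero _ (by omega)]

theorem X (i : ι) : Wo a (a i) (X i : PS ι) := by
  rw [← MvPolynomial.coe_X]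
  exact coe (MvPolynomial.isWeightedHomogeneous_X ℂ a i)

theorem of_order (ha : ∀ i, 0 < a i) {n : ℕ} (hg : (n : ℕ∞) ≤ g.order) : Wo a n g :=
  wo_iff.2 fun α e => coeff_of_lt_order (lt_of_lt_of_le
    (by exact_mod_cast (by have := WB.degree_le ha α; omega : Finsupp.degree α < n)) hg)

theorem order {r : ℕ} (hg : Wo a ((r * ∑ j, a j + 1 : ℕ) : ℤ) g) : (r : ℕ∞) ≤ g.order :=
  nat_le_order fun α hα => wo_iff.1 hg α (by
    have := (WB.weight_le a α).trans (Nat.mul_le_mul_right _ hα.le)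
    omega)

theorem sub_wh (ha : ∀ i, 0 < a i) {n : ℕ} (hg : Wo a n g) :
    Wo a (n + 1) (g - (wh a n g : PS ι)) :=
  wo_iff.2 fun α e => by
    rw [map_sub, MvPolynomial.coeff_coe, coeff_wh ha]
    split_ifs with h1
    · exact sub_self _
    · rw [sub_zero]
      exact wo_iff.1 hg α (by omega)

theorem wh_eq_zero (ha : ∀ i, 0 < a i) {n : ℕ} (hg : Wo a (n + 1) g) : wh a n g = 0 := by
  ext α
  rw [coeff_wh ha, MvPolynomial.coeff_zero]
  split_ifs with h1
  · exact wo_iff.1 hg α (by omega)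
  · rfl

end Wo

theorem wo_sub_sum (ha : ∀ i, 0 < a i) (n : ℕ) (g : PS ι) :
    Wo a n (g - ∑ k ∈ Finset.range n, (wh a k g : PS ι)) :=
  wo_iff.2 fun α hα => by
    rw [map_sub, map_sum]
    simp only [MvPolynomial.coeff_coe, coeff_wh ha]
    rw [Finset.sum_ite_eq, if_pos (Finset.mem_range.2 (by omega)), sub_self]

theorem WB.order_sub (ha : ∀ i, 0 < a i) (r : ℕ) (g : PS ι) :
    (r : ℕ∞) ≤ (g - ∑ k ∈ Finset.range (r * ∑ j, a j + 1), (wh a k g : PS ι)).order :=
  (wo_sub_sum ha _ g).order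

theorem wh_mul (ha : ∀ i, 0 < a i) {m n : ℕ} {g h : PS ι} (hg : Wo a m g) (hh : Wo a n h) :
    wh a (m + n) (g * h) = wh a m g * wh a n h :=
  MvPolynomial.coe_injective ι ℂ (by
    simp only [MvPolynomial.coe_mul, coe_wh ha]
    exact weightedHomogeneousComponent_mul_of_le_weightedOrder (wo_nat.1 hg) (wo_nat.1 hh))

theorem wh_hom_mul_lt (ha : ∀ i, 0 < a i) {d n : ℕ} {G : PP ι} (h : G.IsWeightedHomogeneous a d)
    (hn : n < d) (g : PS ι) : wh a n ((G : PS ι) * g) = 0 := by
  rw [mul_comm]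
  exact (((Wo.coe h).mul_left g).mono (by omega)).wh_eq_zero ha

theorem wh_hom_mul (ha : ∀ i, 0 < a i) {d : ℕ} {G : PP ι} (h : G.IsWeightedHomogeneous a d) (n : ℕ)
    (g : PS ι) : wh a (d + n) ((G : PS ι) * g) = G * wh a n g := by
  classical
  have e : (G : PS ι) * g = (G : PS ι) * (g - ∑ k ∈ Finset.range n, (wh a k g : PS ι)) +
      ∑ k ∈ Finset.range n, ((G * wh a k g : PP ι) : PS ι) := by
    simp only [MvPolynomial.coe_mul, ← Finset.mul_sum]
    ring
  have z : ∀ {m m' : ℕ} {H : PP ι}, H.IsWeightedHomogeneous a m → m ≠ m' →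
      wh a m' (H : PS ι) = 0 := fun hH hm => by
    rw [wh_coe ha, hH.weightedHomogeneousComponent_ne _ hm.symm]
  rw [e, wh_add, wh_mul ha (Wo.coe h) (wo_sub_sum ha n g), wh_coe_self ha h, wh_sub, wh_sum, wh_sum,
    Finset.sum_eq_zero, Finset.sum_eq_zero, sub_zero, add_zero]
  · exact fun k hk => z (h.mul (wh_hom k g)) (by have := Finset.mem_range.1 hk; omega)
  · exact fun k hk => z (wh_hom k g) (Finset.mem_range.1 hk).ne

/-- weighted homogeneous ideal -/
def HomW (a : ι → ℕ) (J : Ideal (PP ι)) : Prop :=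
  ∀ g ∈ J, ∀ n, MvPolynomial.weightedHomogeneousComponent a n g ∈ J

theorem sum_whc (G : PP ι) : ∃ N : ℕ,
    ∑ n ∈ Finset.range N, MvPolynomial.weightedHomogeneousComponent a n G = G := by
  classical
  refine ⟨G.support.sup (Finsupp.weight a) + 1, ?_⟩
  ext α
  simp only [MvPolynomial.coeff_sum, MvPolynomial.coeff_weightedHomogeneousComponent]
  rw [Finset.sum_ite_eq]
  split_ifs with h
  · rfl
  · by_contra h1
    exact h (Finset.mem_range.2 (Nat.lt_succ_of_le
      (Finset.le_sup (MvPolynomial.mem_support_iff.2 (Ne.symm h1)))))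

namespace WB

variable {J : Ideal (PP ι)}

theorem of_comp {G : PP ι} (h : ∀ n, MvPolynomial.weightedHomogeneousComponent a n G ∈ J) :
    G ∈ J := by
  obtain ⟨N, e⟩ := sum_whc (a := a) G
  rw [← e]
  exact Ideal.sum_mem _ fun n _ => h n

theorem mem_hat (ha : ∀ i, 0 < a i) (hJ : HomW a J) {g : PS ι} :
    g ∈ J.map (co ι) ↔ ∀ n, wh a n g ∈ J := by
  constructor
  · intro hg
    have key : ∀ s : PS ι, ∀ n, wh a n (g * s) ∈ J := by
      induction hg using Submodule.span_induction with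
      | mem x hx =>
        obtain ⟨G, hG, rfl⟩ := hx
        intro s n
        obtain ⟨N, e⟩ := sum_whc (a := a) G
        rw [← e, map_sum, Finset.sum_mul, wh_sum]
        refine Ideal.sum_mem _ fun d _ => ?_
        have h1 := MvPolynomial.weightedHomogeneousComponent_isWeightedHomogeneous (w := a) d G
        rcases lt_or_ge n d with h2 | h2
        · rw [co_apply, wh_hom_mul_lt ha h1 h2]
          exact J.zero_mem
        · obtain ⟨k, rfl⟩ := Nat.exists_eq_add_of_le h2
          rw [co_apply, wh_hom_mul ha h1]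
          exact Ideal.mul_mem_right _ _ (hJ G hG d)
      | zero => intro s n; rw [zero_mul, wh_zero]; exact J.zero_mem
      | add x y _ _ hx hy => intro s n; rw [add_mul, wh_add]; exact J.add_mem (hx s n) (hy s n)
      | smul c x _ hx => intro s n; rw [smul_eq_mul, mul_comm c, mul_assoc]; exact hx _ n
    simpa using key 1
  · intro h
    exact mem_ideal_of_approx _ fun r => ⟨_, Ideal.sum_mem _ fun k _ =>
      Ideal.mem_map_of_mem (co ι) (h k), order_sub ha r g⟩

theorem coe_mem_hat (ha : ∀ i, 0 < a i) (hJ : HomW a J) {G : PP ι} :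
    (G : PS ι) ∈ J.map (co ι) ↔ G ∈ J :=
  ⟨fun h => of_comp fun n => wh_coe ha n G ▸ (mem_hat ha hJ).1 h n, Ideal.mem_map_of_mem (co ι)⟩

theorem exists_first (ha : ∀ i, 0 < a i) {g : PS ι} (hg : g ∉ J.map (co ι)) (hJ : HomW a J) :
    ∃ (n : ℕ) (g' : PS ι), g - g' ∈ J.map (co ι) ∧ Wo a n g' ∧ wh a n g' ∉ J := by
  classical
  have h : ∃ n, wh a n g ∉ J := by
    by_contra h
    push Not at h
    exact hg ((mem_hat ha hJ).2 h)
  refine ⟨Nat.find h, _, ?_, wo_sub_sum ha (Nat.find h) g, ?_⟩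
  · rw [sub_sub_cancel]
    exact Ideal.sum_mem _ fun k hk => Ideal.mem_map_of_mem (co ι)
      (not_not.1 (Nat.find_min h (Finset.mem_range.1 hk)))
  · rw [wh_sub, wh_sum, Finset.sum_eq_zero, sub_zero]
    · exact Nat.find_spec h
    · intro k hk
      rw [wh_coe ha, (wh_hom k g).weightedHomogeneousComponent_ne _ (Finset.mem_range.1 hk).ne']

theorem hat_prime (ha : ∀ i, 0 < a i) (hJ : HomW a J) (hp : J.IsPrime) :
    (J.map (co ι)).IsPrime := by
  refine ⟨fun h => hp.ne_top ((Ideal.eq_top_iff_one _).2 ?_), fun {g h} hgh => ?_⟩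
  · refine (coe_mem_hat ha hJ).1 ?_
    rw [h]
    trivial
  · by_contra hc'
    push Not at hc'
    obtain ⟨m, g', g1, g2, g3⟩ := exists_first ha hc'.1 hJ
    obtain ⟨n, h', h1, h2, h3⟩ := exists_first ha hc'.2 hJ
    have h4 : g' * h' ∈ J.map (co ι) := by
      have e : g' * h' = g * h - (g - g') * h - g' * (h - h') := by ring
      rw [e]
      exact sub_mem (sub_mem hgh (Ideal.mul_mem_right _ _ g1)) (Ideal.mul_mem_left _ _ h1)
    have h5 := (mem_hat ha hJ).1 h4 (m + n)
    rw [wh_mul ha g2 h2] at h5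
    exact (hp.mem_or_mem h5).elim g3 h3

end WB

end Pool.Agent.MP_51db15_ag.Qh
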