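import Pool.Agent.MP_51db15_ag.Qh.Spec4
import Pool.Agent.MP_51db15_ag.Qh.WB
import Pool.Agent.MP_51db15_ag.Nc.Jb

/-! Row JBW: weighted homogeneous Jacobian data. -/

namespace Pool.Agent.MP_51db15_ag.Qh

open MvPowerSeries Matrix Hy Nc Nc.Jb

namespace JBWx

variable {ι : Type} [Fintype ι] [DecidableEq ι] {a : ι → ℕ}

theorem step (ha : ∀ i, 0 < a i) (Q : Ideal (PS ι)) (w : ι → PS ι) (i : ι)
    (h : (jac w).det ∉ Q) : ∃ n, (jac (Function.update w i (wh a n (w i) : PS ι))).det ∉ Q := by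
  by_contra h1
  push Not at h1
  simp only [det_update] at h1
  rw [← Function.update_eq_self i w, det_update] at h
  refine h (mem_ideal_of_approx Q fun r => ⟨_, Q.sum_mem
    (t := Finset.range ((r + 1) * ∑ j, a j + 1)) fun k _ => h1 k, ?_⟩)
  rw [← map_sum, ← map_sub, vf_apply]
  exact mem_pow_iff_order.1 (Ideal.sum_mem _ fun j _ => Ideal.mul_mem_left _ _
    (mem_pow_iff_order.2 (le_order_pderiv (WB.order_sub ha (r + 1) (w i)) j)))

theorem homog (ha : ∀ i, 0 < a i) (Q : Ideal (PS ι)) (w : ι → PS ι) (h : (jac w).det ∉ Q)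
    (T : Finset ι) :
    ∃ n : ι → ℕ, (jac fun i => if i ∈ T then (wh a (n i) (w i) : PS ι) else w i).det ∉ Q := by
  induction T using Finset.induction_on with
  | empty => exact ⟨0, by simpa using h⟩
  | insert i T hi ih =>
    obtain ⟨n, hn⟩ := ih
    obtain ⟨k, hk⟩ := step ha Q _ i hn
    refine ⟨Function.update n i k, ?_⟩
    have e : (fun j => if j ∈ insert i T then (wh a (Function.update n i k j) (w j) : PS ι)
        else w j) = Function.update (fun j => if j ∈ T then (wh a (n j) (w j) : PS ι) else w j) i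
          (wh a k (if i ∈ T then (wh a (n i) (w i) : PS ι) else w i) : PS ι) := by
      funext j
      by_cases e : j = i
      · subst e
        simp [hi]
      · simp [e]
    rw [e]
    exact hk

omit [DecidableEq ι] in
theorem wh_span (ha : ∀ i, 0 < a i) (σ : Finset ι) (w : ι → PP ι) (n : ι → ℕ)
    (hw : ∀ i, (w i).IsWeightedHomogeneous a (n i)) {g : PS ι}
    (hg : g ∈ Ideal.span ((fun i => (w i : PS ι)) '' σ)) (k : ℕ) :
    wh a k g ∈ Ideal.span (w '' σ) := by
  obtain ⟨d, rfl⟩ := (Submodule.mem_span_image_finset_iff_exists_fun' (PS ι)).1 hg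
  rw [wh_sum]
  refine Ideal.sum_mem _ fun b hb => ?_
  rw [smul_eq_mul, mul_comm]
  rcases lt_or_ge k (n b) with h | h
  · rw [wh_hom_mul_lt ha (hw b) h]
    exact zero_mem _
  · obtain ⟨l, rfl⟩ := Nat.exists_eq_add_of_le h
    rw [wh_hom_mul ha (hw b)]
    exact Ideal.mul_mem_right _ _ (Ideal.subset_span ⟨b, hb, rfl⟩)

omit [DecidableEq ι] in
theorem prinw (ha : ∀ i, 0 < a i) {J Q : Ideal (PP ι)} (hQ : HomW a Q) (h : Prin J Q) :
    Prin (J.map (co ι)) (Q.map (co ι)) := by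
  obtain ⟨π, hπ, s, hs, h⟩ := h
  refine ⟨π, Ideal.mem_map_of_mem (co ι) hπ, s, mt (WB.coe_mem_hat ha hQ).1 hs, fun g hg => ?_⟩
  induction hg using Submodule.span_induction with
  | mem x hx =>
    obtain ⟨F, hF, rfl⟩ := hx
    obtain ⟨c, hc⟩ := h F hF
    have h1 := Ideal.mem_map_of_mem (co ι) hc
    rw [map_sub, map_mul, map_mul] at h1
    exact ⟨c, h1⟩
  | zero => exact ⟨0, by simp⟩
  | add x y _ _ hx hy =>
    obtain ⟨c, hc⟩ := hx
    obtain ⟨b, hb⟩ := hy
    refine ⟨c + b, ?_⟩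
    rw [show (s : PS ι) * (x + y) - (c + b) * π = s * x - c * π + (s * y - b * π) by ring]
    exact add_mem hc hb
  | smul r x _ hx =>
    obtain ⟨c, hc⟩ := hx
    refine ⟨r * c, ?_⟩
    rw [smul_eq_mul, show (s : PS ι) * (r * x) - r * c * π = r * (s * x - c * π) by ring]
    exact Ideal.mul_mem_left _ r hc

end JBWx

open JBWx in
theorem jbw (hA : Nc.S_JA) : S_JBW := by
  intro ι _ _ a J Q ha hJ hQ iJ iQ hle hP
  have hle' : J.map (co ι) ≤ Q.map (co ι) := Ideal.map_mono hle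
  obtain ⟨σ, w, s, hw, hd, hs, h⟩ :=
    hA ι _ _ (WB.hat_prime ha iJ hJ) (WB.hat_prime ha iQ hQ) hle' (prinw ha iQ hP)
  obtain ⟨n, hn⟩ := JBWx.homog ha _ w hd Finset.univ
  simp only [Finset.mem_univ, if_true] at hn
  have hw' : ∀ i ∈ σ, wh a (n i) (w i) ∈ J := fun i hi => (WB.mem_hat ha iJ).1 (hw i hi) _
  obtain ⟨t, ht, h1⟩ := change (WB.hat_prime ha iJ hJ) σ w (fun i => (wh a (n i) (w i) : PS ι)) s
    hw (fun i hi => (WB.coe_mem_hat ha iJ).2 (hw' i hi)) (fun h2 => hn (hle' h2)) hs h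
  obtain ⟨e, he⟩ := not_forall.1 (mt (WB.mem_hat ha iJ).2 ht)
  refine ⟨σ, fun i => wh a (n i) (w i), n, wh a e t, e, fun i => wh_hom _ _, hw',
    fun h2 => hn ?_, wh_hom _ _, he, fun g hg => ?_⟩
  · have h3 := Ideal.mem_map_of_mem (co ι) h2
    rw [RingHom.map_det] at h3
    have e1 : (jac fun i => (wh a (n i) (w i) : PS ι)) = (co ι).mapMatrix
        (Matrix.of fun i j => MvPolynomial.pderiv j (wh a (n i) (w i))) := by
      ext1 i j
      exact pderiv_coe _
    rw [e1]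
    exact h3
  · obtain ⟨N, e1⟩ := sum_whc (a := a) g
    rw [← e1, Finset.mul_sum]
    refine Ideal.sum_mem _ fun d _ => ?_
    rw [mul_comm, ← wh_hom_mul ha
      (MvPolynomial.weightedHomogeneousComponent_isWeightedHomogeneous (w := a) d g), mul_comm]
    exact wh_span ha σ _ n (fun i => wh_hom _ _)
      (h1 _ ((WB.coe_mem_hat ha iJ).2 (iJ g hg d))) _

end Pool.Agent.MP_51db15_ag.Qh
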