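import Pool.Agent.MP_51db15_ag.Qh.WB

/-! A field that kills the lifted equations is tangent. -/

namespace Pool.Agent.MP_51db15_ag.Qh

open MvPowerSeries Hy Nc

theorem jct : S_JCT := by
  intro ι K R _ _ _ _ _ _ _ q a φ F wc fa hd σ w dg G e u x hw hG hGJ hs hu hk hv g hg
  have ha := wc.pos
  have qm : ∀ {k : ℤ} {g : PS ι}, Wo a k g → q g ∈ F k := fun h => (wc.fil _ _).2 ⟨_, h, rfl⟩
  have key : ∀ (k n : ℕ) (g : PS ι), q g = 0 → Wo a n g →
      q (vf x g) ∈ F (n + k - ∑ j, (a j : ℤ)) := by
    intro k
    induction k with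
    | zero =>
      intro n g _ h2
      rw [vf_apply, map_sum]
      refine Ideal.sum_mem _ fun i _ => qm (((h2.pderiv i).mul_left _).mono ?_)
      have := Finset.single_le_sum (f := fun j => (a j : ℤ)) (fun j _ => Int.natCast_nonneg _)
        (Finset.mem_univ i)
      omega
    | succ k ih =>
      intro n g h1 h2
      have h3 : φ (wh a n g) = 0 := (wc.mem n _ (wh_hom n g)).2 (by
        have h4 := qm (h2.sub_wh ha)
        rwa [map_sub, h1, zero_sub, neg_mem_iff] at h4)
      obtain ⟨B, hB⟩ := (Submodule.mem_span_image_finset_iff_exists_fun' _).1 (hs _ h3)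
      let B' : ι → PP ι := fun t => if dg t ≤ e + n then wh a (e + n - dg t) (B t : PS ι) else 0
      have h5 : G * wh a n g = ∑ t ∈ σ, w t * B' t := by
        rw [← wh_coe_self ha (hG.mul (wh_hom n g)), ← hB, ← co_apply, map_sum, wh_sum]
        refine Finset.sum_congr rfl fun t _ => ?_
        rw [smul_eq_mul, mul_comm, map_mul, co_apply, co_apply]
        by_cases h : dg t ≤ e + n
        · have h6 := wh_hom_mul ha (hw t) (e + n - dg t) (B t : PS ι)
          rw [Nat.add_sub_cancel' h] at h6
          rw [h6]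
          simp only [B', if_pos h]
        · rw [wh_hom_mul_lt ha (hw t) (by omega)]
          simp only [B', if_neg h, mul_zero]
      have h7 : (G : PS ι) * (wh a n g : PS ι) = ∑ t ∈ σ, (w t : PS ι) * (B' t : PS ι) := by
        have h8 := congrArg (co ι) h5
        rw [map_mul, map_sum] at h8
        simpa only [map_mul, co_apply] using h8
      have h9 : (G : PS ι) * g - ∑ t ∈ σ, (B' t : PS ι) * ((w t : PS ι) - u t) =
          (G : PS ι) * (g - (wh a n g : PS ι)) + ∑ t ∈ σ, (B' t : PS ι) * u t := by
        rw [mul_sub, h7]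
        simp only [mul_sub, Finset.sum_sub_distrib, mul_comm (B' _ : PS ι) (w _ : PS ι)]
        ring
      have h10 : Wo a ((e + n + 1 : ℕ) : ℤ)
          ((G : PS ι) * g - ∑ t ∈ σ, (B' t : PS ι) * ((w t : PS ι) - u t)) := by
        rw [h9]
        refine (((Wo.coe hG).mul (h2.sub_wh ha)).mono (by omega)).add (Wo.sum _ fun t _ => ?_)
        by_cases h : dg t ≤ e + n
        · simp only [B', if_pos h]
          exact ((Wo.coe (wh_hom _ _)).mul (hu t)).mono (by omega)
        · simp only [B', if_neg h, MvPolynomial.coe_zero, zero_mul]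
          exact Wo.zero
      have h11 := ih _ _ (by
        rw [map_sub, map_mul, h1, mul_zero, map_sum, Finset.sum_eq_zero, sub_zero]
        intro t ht
        rw [map_mul, hk t ht, mul_zero]) h10
      have h12 : q (vf x ((G : PS ι) * g - ∑ t ∈ σ, (B' t : PS ι) * ((w t : PS ι) - u t))) =
          q (G : PS ι) * q (vf x g) := by
        rw [map_sub, map_sum, map_sub, map_sum, Finset.sum_eq_zero, sub_zero, vf_mul, map_add,
          map_mul, map_mul, h1]
        · ring
        · intro t ht
          rw [vf_mul, hv t ht, map_add, map_mul, map_mul, hk t ht]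
          simp
      rw [h12] at h11
      exact hd e _ _ (qm (Wo.coe hG)) (fun h => hGJ ((wc.mem e G hG).2 h)) _
        (fa.anti (by omega) h11)
  refine fa.sep _ fun k => fa.anti ?_
    (key (k + ∑ j, (a j : ℤ)).toNat 0 g hg (Wo.top (by simp) g))
  omega

end Pool.Agent.MP_51db15_ag.Qh
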