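import Pool.Agent.MP_51db15_ag.Qh.Spec2
import Pool.Agent.MP_51db15_ag.Qh.KC

/-! PROJECT QF, row KC2: the homogeneous components of a form that is regular along all discrete
valuations are regular along them. -/

namespace Pool.Agent.MP_51db15_ag.Qh

namespace KC2x

variable {K : Type} [Field K] [Algebra ℂ K]

/-- the forms that are regular along all discrete valuations -/
def RS (S : Subalgebra ℂ K) : Submodule ℂ (FF K) where
  carrier := {ω | Rdv S ω}
  add_mem' h h' v X Y hv hX hY := (h v X Y hv hX hY).add (h' v X Y hv hX hY)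
  zero_mem' _ _ _ _ _ _ := DV.ge_zero 0
  smul_mem' c ω h v X Y hv hX hY := by
    rw [LinearMap.smul_apply, LinearMap.smul_apply, Algebra.smul_def]
    exact (hv _ (S.algebraMap_mem c)).mul_left (h v X Y hv hX hY)

/-- the valuation pulled back by an automorphism -/
def pull (σ : K ≃ₐ[ℂ] K) (v : DV K) : DV K where
  ord y := v.ord (σ y)
  ord_mul x y hx hy := by
    rw [map_mul]
    exact v.ord_mul _ _ (by simpa using hx) (by simpa using hy)
  ord_add x y hx hy h := by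
    rw [map_add]
    exact v.ord_add _ _ (by simpa using hx) (by simpa using hy)
      (by rw [← map_add]; exact (map_ne_zero_iff σ σ.injective).2 h)
  unif := by
    obtain ⟨π, h0, h1⟩ := v.unif
    exact ⟨σ.symm π, by simpa using h0, by simpa using h1⟩

theorem pull_ge (σ : K ≃ₐ[ℂ] K) (v : DV K) (k : ℤ) (y : K) :
    (pull σ v).Ge k y ↔ v.Ge k (σ y) := by
  simp [DV.Ge, pull]

theorem tw {S : Subalgebra ℂ K} (σ : K ≃ₐ[ℂ] K) (hσ : ∀ g ∈ S, σ g ∈ S) {ω ω' : FF K}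
    (h : ∀ X Y X' Y' : DD K, (∀ y, X' (σ y) = σ (X y)) → (∀ y, Y' (σ y) = σ (Y y)) →
      σ (ω X Y) = ω' X' Y') (hω : Rdv S ω) : Rdv S ω' := by
  intro v X' Y' hv hX' hY'
  obtain ⟨X, hX⟩ := KCx.cj σ X'
  obtain ⟨Y, hY⟩ := KCx.cj σ Y'
  rw [← h X Y X' Y' hX hY, ← pull_ge]
  refine hω (pull σ v) X Y (fun z hz => (pull_ge σ v 0 z).2 (hv _ (hσ z hz))) (fun z hz => ?_)
    fun z hz => ?_
  · rw [pull_ge] at hz ⊢
    rw [← hX]
    exact hX' _ hz
  · rw [pull_ge] at hz ⊢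
    rw [← hY]
    exact hY' _ hz

end KC2x

theorem kc2 (s : S_SIG) : S_KC2 := by
  intro K ι _ _ _ S t x a h1 h2 h3 F
  obtain ⟨σ, hσ, hη⟩ := s K ι S t x a h1 h2 h3 2 two_ne_zero
  have hG : ∀ (n : ℤ) (c : ℂ) (u : FF K), (u ∈ RF S ∧ lf t u = (n : ℂ) • u) →
      (c • u ∈ RF S ∧ lf t (c • u) = (n : ℂ) • c • u) := fun n c u h =>
    ⟨(RF S).smul_mem c h.1, by rw [map_smul, h.2, smul_comm]⟩
  have hs : ∀ (F : Finset ℤ) (η : ℤ → FF K),
      (∀ n ∈ F, η n ∈ RF S ∧ lf t (η n) = (n : ℂ) • η n) → Rdv S (∑ n ∈ F, η n) →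
      Rdv S (∑ n ∈ F, (2 : ℂ) ^ n • η n) := by
    intro F η hF
    refine KC2x.tw σ hσ fun X Y X' Y' hX hY => ?_
    simp only [LinearMap.sum_apply, LinearMap.smul_apply, map_sum]
    exact Finset.sum_congr rfl fun n hn => hη _ (hF n hn).1 n (hF n hn).2 X Y X' Y' hX hY
  exact KCx.van (KC2x.RS S) (fun n η => η ∈ RF S ∧ lf t η = (n : ℂ) • η) hG hs F

end Pool.Agent.MP_51db15_ag.Qh
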