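import Pool.Agent.MP_51db15_ag.Qh.Spec6

/-! Row LAT: finiteness for lattices. -/

namespace Pool.Agent.MP_51db15_ag.Qh

open Module

namespace LATx

theorem sup_le_sum {U κ : Type} [AddCommGroup U] [Module ℂ U] (V : κ → Submodule ℂ U)
    [∀ j, FiniteDimensional ℂ (V j)] (s : Finset κ) :
    finrank ℂ ↥(s.sup V) ≤ ∑ j ∈ s, finrank ℂ (V j) := by
  classical
  induction s using Finset.induction_on with
  | empty => simp
  | insert j s hj ih =>
    rw [Finset.sup_insert, Finset.sum_insert hj]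
    exact (Submodule.finrank_add_le_finrank_add_finrank _ _).trans (Nat.add_le_add_left ih _)

theorem comp {U : Type} [AddCommGroup U] [Module ℂ U] (δ : End ℂ U) (A : ℂ → Submodule ℂ U)
    (hA : ∀ c, A c ≤ δ.eigenspace c) (c : ℂ) (m : U) (h1 : m ∈ δ.eigenspace c)
    (h2 : m ∈ ⨆ c', A c') : m ∈ A c := by
  rw [iSup_split_single A c] at h2
  obtain ⟨y, hy, r, hr, rfl⟩ := Submodule.mem_sup.1 h2
  have h3 : r ∈ δ.eigenspace c := by
    have := sub_mem h1 (hA c hy)
    rwa [add_sub_cancel_left] at this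
  have h4 : r ∈ ⨆ (c' : ℂ) (_ : c' ≠ c), δ.eigenspace c' :=
    (iSup₂_mono fun c' _ => hA c') hr
  have h5 : r = 0 := (Submodule.disjoint_def.1 (δ.eigenspaces_iSupIndep c)) r h3 h4
  rw [h5, add_zero]
  exact hy

variable {K U : Type} [Field K] [Algebra ℂ K] [AddCommGroup U] [Module K U] [Module ℂ U]
  [IsScalarTower ℂ K U]

/-- multiplication of a fixed vector -/
noncomputable def mu (u : U) : K →ₗ[ℂ] U := (LinearMap.toSpanSingleton K U u).restrictScalars ℂ

theorem mu_apply (u : U) (g : K) : mu (K := K) u g = g • u := rfl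

theorem gens {S : Subalgebra ℂ K} {δ : End ℂ U} {M : Submodule S U} (h : Lat S δ M) :
    ∃ (F : Finset U) (p : U → ℤ), (∀ u ∈ F, δ u = (p u : ℂ) • u) ∧
      M ≤ Submodule.span S (F : Set U) := by
  classical
  obtain ⟨T, hT⟩ := h.fg
  have h1 : (T : Set U) ⊆ Submodule.span S {u : U | ∃ n : ℤ, δ u = (n : ℂ) • u} := by
    intro t ht
    have h2 : t ∈ M := hT ▸ Submodule.subset_span ht
    have h3 : (⨆ n : ℤ, M.restrictScalars ℂ ⊓ δ.eigenspace (n : ℂ)) ≤
        (Submodule.span S {u : U | ∃ n : ℤ, δ u = (n : ℂ) • u}).restrictScalars ℂ :=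
      iSup_le fun n u hu => Submodule.subset_span ⟨n, End.mem_eigenspace_iff.1 hu.2⟩
    exact h3 (h.dz t h2)
  obtain ⟨F, hF, hF'⟩ := Submodule.subset_span_finite_of_subset_span h1
  refine ⟨F, fun u => if hu : ∃ n : ℤ, δ u = (n : ℂ) • u then hu.choose else 0, fun u hu => ?_, ?_⟩
  · have h2 : ∃ n : ℤ, δ u = (n : ℂ) • u := hF hu
    simp only [dif_pos h2]
    exact h2.choose_spec
  · rw [← hT]
    exact Submodule.span_le.2 hF'

end LATx

theorem lat (_k : GenK) (s : S_HSS) : S_LAT := by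
  intro K ι U _ _ _ _ _ _ _ S E x a δ M hc hn hl
  obtain ⟨F, p, hp, hM⟩ := LATx.gens hl
  let V : ℂ → F → Submodule ℂ U := fun c j =>
    (SC S ⊓ (op E).eigenspace (c - (p j : ℂ))).map (LATx.mu (K := K) (j : U))
  have hV : ∀ c j, FiniteDimensional ℂ (V c j) := fun c j => by
    have := hc.vtx.fd (c - (p j : ℂ))
    exact Module.Finite.map _ _
  let A : ℂ → Submodule ℂ U := fun c => Finset.univ.sup (V c)
  have hA : ∀ c, A c ≤ δ.eigenspace c := fun c => by
    refine Finset.sup_le fun j _ => ?_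
    rintro _ ⟨g, hg, rfl⟩
    have h1 : E g = (c - (p j : ℂ)) • g := End.mem_eigenspace_iff.1 hg.2
    rw [End.mem_eigenspace_iff, LATx.mu_apply, hn g j, hp j j.2, h1, smul_assoc, smul_comm g,
      ← add_smul, add_sub_cancel]
  have hall : ∀ m ∈ M, m ∈ ⨆ c, A c := by
    intro m hm
    refine Submodule.span_induction (p := fun m _ => ∀ g : S, g • m ∈ ⨆ c, A c) ?_ ?_ ?_ ?_
      (hM hm) 1 |> fun h => by simpa using h
    · intro u hu g
      have h1 : (⨆ n : ℤ, SC S ⊓ (op E).eigenspace (n : ℂ)) ≤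
          (⨆ c, A c).comap (LATx.mu (K := K) u) := by
        refine iSup_le fun n y hy => ?_
        refine Submodule.mem_iSup_of_mem ((n : ℂ) + (p u : ℂ)) ?_
        refine (Finset.le_sup (f := V ((n : ℂ) + (p u : ℂ))) (Finset.mem_univ ⟨u, hu⟩)) ?_
        refine ⟨y, ?_, rfl⟩
        simpa using hy
      exact h1 (hc.ev.s g g.2)
    · intro g
      rw [smul_zero]
      exact zero_mem _
    · intro u v _ _ hu hv g
      rw [smul_add]
      exact add_mem (hu g) (hv g)
    · intro b u _ hu g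
      rw [smul_smul]
      exact hu _
  have hle : ∀ c, M.restrictScalars ℂ ⊓ δ.eigenspace c ≤ A c := fun c m hm =>
    LATx.comp δ A hA c m hm.2 (hall m hm.1)
  have key : ∀ c : ℂ, FiniteDimensional ℂ ↥(M.restrictScalars ℂ ⊓ δ.eigenspace c) ∧
      finrank ℂ ↥(M.restrictScalars ℂ ⊓ δ.eigenspace c) ≤
        ∑ j : F, finrank ℂ ↥(SC S ⊓ (op E).eigenspace (c - (p j : ℂ))) := by
    intro c
    have := hV c
    have hf : FiniteDimensional ℂ (A c) := Submodule.finiteDimensional_finset_sup _ _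
    refine ⟨Submodule.finiteDimensional_of_le (hle c), ?_⟩
    refine (Submodule.finrank_mono (hle c)).trans ((LATx.sup_le_sum (V c) _).trans ?_)
    refine Finset.sum_le_sum fun j _ => ?_
    have := hc.vtx.fd (c - (p j : ℂ))
    exact Submodule.finrank_map_le _ _
  refine ⟨fun c => (key c).1, fun t ht ht1 => ?_⟩
  have hs := (s K ι S E x a hc t ht ht1).1
  have h1 : ∀ j : F, Summable fun k : ℤ =>
      (finrank ℂ ↥(SC S ⊓ (op E).eigenspace ((k : ℂ) - (p j : ℂ))) : ℝ) * t ^ k := by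
    intro j
    have h2 := ((Equiv.subRight (p j)).summable_iff.2 hs).mul_right (t ^ (p j))
    refine h2.congr fun k => ?_
    change (finrank ℂ ↥(SC S ⊓ (op E).eigenspace ((k - p j : ℤ) : ℂ)) : ℝ) * t ^ (k - p j) *
      t ^ (p j) = _
    rw [Int.cast_sub, mul_assoc, ← zpow_add₀ ht.ne', sub_add_cancel]
  refine Summable.of_nonneg_of_le (fun k => by positivity) (fun k => ?_)
    (summable_sum fun j (_ : j ∈ Finset.univ) => h1 j)
  rw [← Finset.sum_mul]
  refine mul_le_mul_of_nonneg_right ?_ (by positivity)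
  exact_mod_cast (key k).2

end Pool.Agent.MP_51db15_ag.Qh
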