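import Pool.Agent.MP_51db15_ag.Qh.WB

/-! Homogeneous fields of the cone lift to the germ up to a Jacobian factor. -/

namespace Pool.Agent.MP_51db15_ag.Qh

open Matrix

namespace LIFTx

section Rl

variable {K ι R : Type} [Field K] [Algebra ℂ K] [CommRing R] [Algebra ℂ R]
  {S : Subalgebra ℂ K} {E : DD K} {x : ι → K} {a : ι → ℕ} {F : ℤ → Ideal R} {X : ι → R}
  {σ : ℤ → R →ₗ[ℂ] K}

/-- `g` is the symbol of `r` in degree `k` -/
def Rl (F : ℤ → Ideal R) (σ : ℤ → R →ₗ[ℂ] K) (k : ℤ) (r : R) (g : K) : Prop :=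
  r ∈ F k ∧ σ k r = g

theorem Rl.zero (k : ℤ) : Rl F σ k 0 0 := ⟨zero_mem _, map_zero _⟩

theorem Rl.sub {k : ℤ} {r s : R} {g h : K} (h1 : Rl F σ k r g) (h2 : Rl F σ k s h) :
    Rl F σ k (r - s) (g - h) := ⟨sub_mem h1.1 h2.1, by rw [map_sub, h1.2, h2.2]⟩

theorem Rl.sum {κ : Type} (T : Finset κ) {k : ℤ} {r : κ → R} {g : κ → K}
    (h : ∀ i, Rl F σ k (r i) (g i)) : Rl F σ k (∑ i ∈ T, r i) (∑ i ∈ T, g i) :=
  ⟨sum_mem fun i _ => (h i).1, by rw [map_sum]; exact Finset.sum_congr rfl fun i _ => (h i).2⟩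

theorem Rl.int {k : ℤ} {r : R} {g : K} (h : Rl F σ k r g) (c : ℤ) :
    Rl F σ k ((c : R) * r) ((c : K) * g) :=
  ⟨Ideal.mul_mem_left _ _ h.1, by rw [← zsmul_eq_mul, map_zsmul, h.2, zsmul_eq_mul]⟩

theorem Rl.high (fa : FA F X a) (fb : FB S E x a F X σ) {k : ℤ} {r : R} (h : r ∈ F (k + 1)) :
    Rl F σ k r 0 :=
  ⟨fa.anti (by omega) h, (fb.zero k r (fa.anti (by omega) h)).2 h⟩

theorem Rl.prod (fa : FA F X a) (fb : FB S E x a F X σ) (h1 : σ 0 1 = 1) {κ : Type}
    (T : Finset κ) {k : κ → ℤ} {r : κ → R} {g : κ → K} (h : ∀ i, Rl F σ (k i) (r i) (g i)) :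
    Rl F σ (∑ i ∈ T, k i) (∏ i ∈ T, r i) (∏ i ∈ T, g i) := by
  classical
  induction T using Finset.induction_on with
  | empty => exact ⟨by rw [Finset.sum_empty, fa.top 0 le_rfl]; trivial, by simpa using h1⟩
  | insert i T hi ih =>
    rw [Finset.sum_insert hi, Finset.prod_insert hi, Finset.prod_insert hi]
    exact ⟨fa.mul _ _ _ (h i).1 _ ih.1, by rw [fb.mul _ _ _ (h i).1 _ ih.1, (h i).2, ih.2]⟩

theorem Rl.det (fa : FA F X a) (fb : FB S E x a F X σ) (h1 : σ 0 1 = 1) {κ : Type} [Fintype κ]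
    [DecidableEq κ] {M : Matrix κ κ R} {N : Matrix κ κ K} {n c : κ → ℤ}
    (h : ∀ i j, Rl F σ (n i + c j) (M i j) (N i j)) :
    Rl F σ (∑ i, n i + ∑ j, c j) M.det N.det := by
  rw [Matrix.det_apply', Matrix.det_apply']
  refine Rl.sum _ fun τ => Rl.int ?_ _
  have h2 := Rl.prod fa fb h1 Finset.univ (k := fun i => n (τ i) + c i)
    (r := fun i => M (τ i) i) (g := fun i => N (τ i) i) fun i => h _ _
  rwa [Finset.sum_add_distrib, Equiv.sum_comp τ n] at h2

theorem cancel (fa : FA F X a) (fb : FB S E x a F X σ) (i j : ℤ) (r : R) (hr : r ∈ F i)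
    (hr' : r ∉ F (i + 1)) (s : R) (h : r * s ∈ F (i + j)) : s ∈ F j := by
  have key : ∀ n : ℕ, (n : ℤ) ≤ j → s ∈ F n := by
    intro n
    induction n with
    | zero => intro _; rw [Nat.cast_zero, fa.top 0 le_rfl]; trivial
    | succ n ih =>
      intro hn
      push_cast at hn ⊢
      have h2 := ih (by omega)
      have h3 := (fb.zero _ _ (fa.mul _ _ _ hr _ h2)).2 (fa.anti (by omega) h)
      rw [fb.mul _ _ _ hr _ h2, mul_eq_zero] at h3
      exact (fb.zero _ _ h2).1 (h3.resolve_left fun h4 => hr' ((fb.zero _ _ hr).1 h4))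
  rcases le_total j 0 with hj | hj
  · rw [fa.top j hj]; trivial
  · obtain ⟨n, rfl⟩ := Int.eq_ofNat_of_zero_le hj
    exact key n le_rfl

theorem comp (Q : Ideal S) (hQ : ∀ g ∈ Q, In Q (E g)) (A : Finset ℕ) : ∀ c : ℕ → S,
    (∀ n, E (c n) = (n : ℂ) • (c n : K)) → ∑ n ∈ A, c n ∈ Q → ∀ n ∈ A, c n ∈ Q := by
  classical
  induction A using Finset.induction_on with
  | empty => intro c _ _ n hn; simp at hn
  | insert m A hm ih =>
    intro c hc hs
    rw [Finset.sum_insert hm] at hs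
    obtain ⟨b, hb, e⟩ := hQ _ hs
    have h1 : ∑ n ∈ A, ((n : ℂ) - m) • c n = b - (m : ℂ) • (c m + ∑ n ∈ A, c n) := by
      apply Subtype.ext
      push_cast at e ⊢
      rw [← e, map_add, map_sum, hc m]
      simp only [hc, sub_smul, Finset.sum_sub_distrib, smul_add, Finset.smul_sum]
      abel
    have h2 := ih (fun n => ((n : ℂ) - m) • c n) (fun n => by
      push_cast
      rw [Derivation.map_smul, hc n, smul_comm]) (by
      rw [h1]
      exact sub_mem hb (Submodule.smul_of_tower_mem _ _ hs))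
    have h3 : ∀ n ∈ A, c n ∈ Q := fun n hn => by
      have h4 : (n : ℂ) - m ≠ 0 := sub_ne_zero.2 fun h => hm (by
        have h5 : n = m := by exact_mod_cast h
        exact h5 ▸ hn)
      have h5 := Submodule.smul_of_tower_mem Q ((n : ℂ) - m)⁻¹ (h2 n hn)
      rwa [smul_smul, inv_mul_cancel₀ h4, one_smul] at h5
    intro n hn
    rcases Finset.mem_insert.1 hn with rfl | hn
    · simpa using sub_mem hs (sum_mem h3)
    · exact h3 n hn

theorem chain [Fintype ι] [DecidableEq ι] (φ : MvPolynomial ι ℂ →ₐ[ℂ] K) (D : DD K)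
    (w : MvPolynomial ι ℂ) :
    D (φ w) = ∑ j, φ (MvPolynomial.pderiv j w) * D (φ (MvPolynomial.X j)) := by
  induction w using MvPolynomial.induction_on with
  | C c => simp [MvPolynomial.algHom_C]
  | add p q hp hq => simp only [map_add, hp, hq, add_mul, Finset.sum_add_distrib]
  | mul_X p i hp =>
    rw [map_mul, Derivation.leibniz, hp]
    simp only [Derivation.leibniz, smul_eq_mul, map_add, map_mul, add_mul, Finset.sum_add_distrib,
      Finset.mul_sum, mul_assoc]
    congr 1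
    rw [Finset.sum_eq_single i]
    · simp
    · intro j _ hj
      simp [MvPolynomial.pderiv_X_of_ne hj.symm]
    · simp

end Rl

end LIFTx

open LIFTx MvPowerSeries Nc Hy in
theorem lift (jb : S_JBW) (jc : S_JCT) : S_LIFT := by
  intro ι K R _ _ _ _ _ _ _ q a φ F E σ wc C fa fb hσ sy Q hQ hE hP D₀ hD₀ p hp
  obtain ⟨m, hq⟩ := wc.pres
  have hA : ∀ {d : ℕ} {G : PP ι}, G.IsWeightedHomogeneous a d →
      Rl F σ d (q (G : PS ι)) (φ G) := fun {d G} hG =>
    ⟨(wc.fil _ _).2 ⟨_, Wo.coe hG, rfl⟩, hσ d G _ hG (by rw [sub_self]; exact Wo.zero)⟩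
  have hw1 : ∀ {d : ℕ} {G : PP ι}, G.IsWeightedHomogeneous a d → E (φ G) = (d : ℂ) • φ G :=
    fun {d G} hG => by
      have h := (fb.mem d _ (hA hG).1).2
      rwa [(hA hG).2, Int.cast_natCast] at h
  have h1 : σ 0 1 = 1 := by
    have h := (hA (MvPolynomial.isWeightedHomogeneous_one ℂ a)).2
    rwa [MvPolynomial.coe_one, map_one q, map_one φ, Nat.cast_zero] at h
  have sj : Function.Surjective φ.rangeRestrict := φ.rangeRestrict_surjective
  obtain ⟨T, w, dg, G, e, hw, hT, hdet, hG, hGJ, hs⟩ := jb ι a (RingHom.ker φ)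
    (Q.comap φ.rangeRestrict) wc.pos (RingHom.ker_isPrime φ) (Ideal.comap_isPrime _ _)
    (fun g hg n => wc.hom g hg n)
    (fun g hg n => by
      obtain ⟨N, eN⟩ := sum_whc (a := a) g
      by_cases hn : n ∈ Finset.range N
      · refine comp (E := E) Q hE (Finset.range N)
          (fun k => φ.rangeRestrict (MvPolynomial.weightedHomogeneousComponent a k g))
          (fun k => hw1 (MvPolynomial.weightedHomogeneousComponent_isWeightedHomogeneous k g))
          ?_ n hn
        rw [← map_sum, eN]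
        exact hg
      · rw [← eN, map_sum, Finset.sum_eq_zero]
        · exact zero_mem _
        · intro k hk
          exact (MvPolynomial.weightedHomogeneousComponent_isWeightedHomogeneous (w := a) k
            g).weightedHomogeneousComponent_ne _ fun h => hn (h ▸ hk))
    (fun g hg => by
      have h : φ.rangeRestrict g = 0 := Subtype.ext hg
      rw [Ideal.mem_comap, h]
      exact zero_mem _)
    (by
      obtain ⟨π, hπ, s, hs, h⟩ := hP
      obtain ⟨π', rfl⟩ := sj π
      obtain ⟨s', rfl⟩ := sj s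
      refine ⟨π', hπ, s', hs, fun g hg => ?_⟩
      obtain ⟨b, hb⟩ := h _ hg
      obtain ⟨b', rfl⟩ := sj b
      refine ⟨b', ?_⟩
      rw [← map_mul, ← map_mul, ← map_sub, Ideal.mem_bot] at hb
      exact congrArg Subtype.val hb)
  have h2 : ∀ i, ∃ u : PS ι, Wo a (dg i + 1) u ∧ (i ∈ T → q ((w i : PS ι) - u) = 0) := fun i => by
    by_cases h : i ∈ T
    · obtain ⟨u, h3, h4⟩ := (wc.fil _ _).1 ((wc.mem _ _ (hw i)).1 (hT i h))
      exact ⟨u, h3, fun _ => by rw [map_sub, h4, sub_self]⟩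
    · exact ⟨0, Wo.zero, fun h' => absurd h' h⟩
  choose u hu hk using h2
  have h3 : ∀ i, ∃ z : PS ι, Rl F σ (dg i + p) (q z) (D₀ (φ (w i))) ∧ (i ∈ T → z = 0) :=
    fun i => by
    by_cases h : i ∈ T
    · refine ⟨0, ?_, fun _ => rfl⟩
      rw [show φ (w i) = 0 from hT i h, map_zero, map_zero]
      exact Rl.zero _
    · obtain ⟨r, h4, h5⟩ := fb.surj (dg i + p) (D₀ (φ (w i))) (hD₀ _ ⟨w i, rfl⟩) (by
        have h6 := DFunLike.congr_fun hp (φ (w i))
        rw [Derivation.commutator_apply, hw1 (hw i), Derivation.map_smul, Derivation.smul_apply] at h6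
        push_cast
        rw [add_smul, ← h6]
        abel)
      obtain ⟨z, rfl⟩ := hq.surj r
      exact ⟨z, ⟨h4, h5⟩, fun h' => absurd h' h⟩
  choose z hz hz0 using h3
  let W : Matrix ι ι (PS ι) := Matrix.of fun i j => pderiv ℂ j ((w i : PS ι) - u i)
  let V : Matrix ι ι (PP ι) := Matrix.of fun i j => MvPolynomial.pderiv j (w i)
  let N : Matrix ι ι K := φ.mapMatrix V
  have hW : ∀ i j, Rl F σ (dg i + -(a j : ℤ)) (q (W i j)) (N i j) := fun i j => by
    have h4 : Rl F σ (dg i + -(a j : ℤ)) (q (V i j : PS ι)) (φ (V i j)) := by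
      rcases le_or_gt (a j) (dg i) with h | h
      · have h5 := hA ((hw i).pderiv (i := j) (Nat.sub_add_cancel h))
        rwa [Nat.cast_sub h, sub_eq_add_neg] at h5
      · have h5 : V i j = 0 := by
          ext α
          change MvPolynomial.coeff α (MvPolynomial.pderiv j (w i)) = _
          rw [MvPolynomial.coeff_pderiv, (hw i).coeff_eq_zero _
            (by rw [map_add, WB.weight_single]; omega), zero_mul, MvPolynomial.coeff_zero]
        rw [h5, MvPolynomial.coe_zero, map_zero, map_zero]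
        exact Rl.zero _
    have h5 : Rl F σ (dg i + -(a j : ℤ)) (q (pderiv ℂ j (u i))) 0 :=
      Rl.high fa fb ((wc.fil _ _).2 ⟨_, ((hu i).pderiv j).mono (by omega), rfl⟩)
    have h6 := h4.sub h5
    rw [sub_zero, ← map_sub] at h6
    simpa only [W, V, N, of_apply, map_sub, pderiv_coe, AlgHom.mapMatrix_apply, map_apply] using h6
  have hδ := Rl.det fa fb h1 (M := q.mapMatrix W) (N := N) (n := fun i => (dg i : ℤ))
    (c := fun j => -(a j : ℤ)) hW
  have eδ : N.det = φ V.det := (AlgHom.map_det φ V).symm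
  have hd : 0 ≤ ∑ i, (dg i : ℤ) + ∑ j, -(a j : ℤ) := by
    by_contra h
    refine hdet ?_
    have h4 := (fb.zero _ _ hδ.1).2 (by rw [fa.top _ (by omega)]; trivial)
    rw [hδ.2, eδ] at h4
    have h5 : φ.rangeRestrict V.det = 0 := Subtype.ext h4
    rw [Ideal.mem_comap]
    change φ.rangeRestrict V.det ∈ Q
    rw [h5]
    exact zero_mem _
  obtain ⟨d, hd'⟩ := Int.eq_ofNat_of_zero_le hd
  obtain ⟨D, hD⟩ := hq.exists_der (x := cramer W z) (jc ι K R q a φ F wc fa (cancel fa fb) T w dg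
    G e u (cramer W z) hw hG hGJ hs hu hk fun i hi => by
      have h10 := congrFun (mulVec_cramer W z) i
      simp only [Pi.smul_apply, hz0 i hi, smul_zero] at h10
      rw [← h10, Hy.vf_apply]
      exact Finset.sum_congr rfl fun j _ => mul_comm _ _)
  have hX : ∀ k, Rl F σ (a k + (d + p)) (D (q (X k))) (φ V.det * D₀ (φ (.X k))) := fun k => by
    have h4 := Rl.det fa fb h1 (M := q.mapMatrix (W.updateCol k z))
      (N := N.updateCol k fun i => D₀ (φ (w i))) (n := fun i => (dg i : ℤ))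
      (c := fun j => -(a j : ℤ) + Pi.single (M := fun _ => ℤ) k (a k + p) j) fun i j => by
        change Rl F σ _ (q (W.updateCol k z i j)) _
        by_cases h : j = k
        · subst h
          rw [updateCol_self, updateCol_self, Pi.single_eq_same, neg_add_cancel_left]
          exact hz i
        · rw [updateCol_ne h, updateCol_ne h, Pi.single_eq_of_ne h, add_zero]
          exact hW i j
    have h5 : (fun i => D₀ (φ (w i))) = N *ᵥ fun j => D₀ (φ (.X j)) :=
      funext fun i => LIFTx.chain φ D₀ (w i)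
    rw [Finset.sum_add_distrib, Finset.sum_pi_single', if_pos (Finset.mem_univ k), ← add_assoc,
      hd', ← AlgHom.map_det, ← cramer_apply, ← cramer_apply, ← hD.X, h5,
      cramer_eq_adjugate_mulVec, mulVec_mulVec, adjugate_mul, smul_mulVec, one_mulVec, eδ] at h4
    rw [show (a k : ℤ) + (d + p) = d + (a k + p) by ring]
    exact h4
  obtain ⟨D₁, hD₁⟩ := sy.ex D (d + p) (fa.chain D _ fun k => (hX k).1)
  refine ⟨φ.rangeRestrict V.det, d, D, hdet, ?_, ?_⟩
  · have h4 := (fb.mem _ _ hδ.1).2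
    rwa [hδ.2, eδ, hd', Int.cast_natCast] at h4
  · have h4 : D₁ = φ V.det • D₀ := C.bas.ext _ _ fun k => by
      have h5 := hD₁.2 _ _ (fa.gen k)
      rw [fb.gen k, (hX k).2] at h5
      exact h5.symm
    exact h4 ▸ hD₁

end Pool.Agent.MP_51db15_ag.Qh
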