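import Pool.Agent.MP_51db15_ag.Qh.Spec2
import Pool.Agent.MP_51db15_ag.Qh.LTA

/-! The flow of one derivation along another as a power series, over an abstract ring. -/

namespace Pool.Agent.MP_51db15_ag.Qh

open Module Finset

noncomputable section

namespace LTA2x

variable {R : Type} [CommRing R] [Algebra ℂ R]

/-- the coefficients of the flow -/
def fl (D Y : DR R) : ℕ → DR R
  | 0 => Y
  | k + 1 => (-((k : ℂ) + 1)⁻¹) • ⁅D, fl D Y k⁆

theorem fl_succ (D Y : DR R) (k : ℕ) (g : R) :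
    ((k : R) + 1) * fl D Y (k + 1) g = fl D Y k (D g) - D (fl D Y k g) := by
  have h0 : ((k : ℂ) + 1) ≠ 0 := Nat.cast_add_one_ne_zero k
  have h1 : ((k : R) + 1) = algebraMap ℂ R ((k : ℂ) + 1) := by simp
  have h2 : fl D Y (k + 1) g = (-((k : ℂ) + 1)⁻¹) • (D (fl D Y k g) - fl D Y k (D g)) := rfl
  rw [h1, h2, ← Algebra.smul_def, smul_smul, mul_neg, mul_inv_cancel₀ h0, neg_smul, one_smul,
    neg_sub]

theorem der_nat (X : DR R) (g : R) (k : ℕ) : X (g * ((k : R) + 1)) = ((k : R) + 1) * X g := by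
  have h1 : ((k : R) + 1) = algebraMap ℂ R ((k : ℂ) + 1) := by simp
  rw [mul_comm, h1, ← Algebra.smul_def, ← Algebra.smul_def, Derivation.map_smul]

theorem key (D Y : DR R) (g : ℕ → R) (n : ℕ) :
    (∑ p ∈ antidiagonal (n + 1), fl D Y p.1 (g p.2)) * ((n : R) + 1) +
        D (∑ p ∈ antidiagonal n, fl D Y p.1 (g p.2)) =
      ∑ p ∈ antidiagonal n, fl D Y p.1 (g (p.2 + 1) * ((p.2 : R) + 1) + D (g p.2)) := by
  have h1 : (∑ p ∈ antidiagonal (n + 1), fl D Y p.1 (g p.2)) * ((n : R) + 1) =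
      ∑ p ∈ antidiagonal (n + 1), (p.1 : R) * fl D Y p.1 (g p.2) +
        ∑ p ∈ antidiagonal (n + 1), (p.2 : R) * fl D Y p.1 (g p.2) := by
    rw [Finset.sum_mul, ← Finset.sum_add_distrib]
    refine Finset.sum_congr rfl fun p hp => ?_
    have h : (p.1 : R) + p.2 = n + 1 := by
      rw [← Nat.cast_add, Finset.HasAntidiagonal.mem_antidiagonal.1 hp, Nat.cast_add, Nat.cast_one]
    rw [← h]
    ring
  rw [h1, Finset.Nat.sum_antidiagonal_succ, Finset.Nat.sum_antidiagonal_succ', map_sum]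
  simp only [Nat.cast_zero, zero_mul, zero_add, Nat.cast_add, Nat.cast_one]
  rw [← Finset.sum_add_distrib, ← Finset.sum_add_distrib]
  refine Finset.sum_congr rfl fun p _ => ?_
  rw [fl_succ, map_add, der_nat]
  ring

end LTA2x

open LTA2x in
theorem lta2 : S_LTA2 := by
  intro R _ _ _ Y D
  obtain ⟨n, u, hu⟩ := Module.Finite.exists_fin (R := R) (M := DR R)
  have hr : ∀ k, ∃ c : Fin n → R, ∑ i, c i • u i = fl D Y k := fun k =>
    (Submodule.mem_span_range_iff_exists_fun R).1 (hu ▸ Submodule.mem_top)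
  choose r hr using hr
  have hr' : ∀ k (g : R), fl D Y k g = ∑ i, r k i * u i g := by
    intro k g
    rw [← hr k, LTAx.sum_app]
    rfl
  have hY₁ : ∀ G : PowerSeries R,
      (∑ i, (PowerSeries.mk fun k => r k i) • LTAx.cw (u i)) G =
        ∑ i, (PowerSeries.mk fun k => r k i) * LTAx.cw (u i) G := by
    intro G
    rw [LTAx.sum_app]
    rfl
  have hc : ∀ (G : PowerSeries R) (m : ℕ), PowerSeries.coeff m
      ((∑ i, (PowerSeries.mk fun k => r k i) • LTAx.cw (u i)) G) =
        ∑ p ∈ antidiagonal m, fl D Y p.1 (PowerSeries.coeff p.2 G) := by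
    intro G m
    rw [hY₁, map_sum]
    simp only [PowerSeries.coeff_mul, PowerSeries.coeff_mk, LTAx.coeff_cw, hr']
    exact Finset.sum_comm
  have hd : ∀ (G : PowerSeries R) (m : ℕ), PowerSeries.coeff m
      ((LTAx.ds + LTAx.cw D : Derivation ℂ (PowerSeries R) (PowerSeries R)) G) =
        PowerSeries.coeff (m + 1) G * ((m : R) + 1) + D (PowerSeries.coeff m G) := by
    intro G m
    rw [Derivation.add_apply, map_add, LTAx.coeff_ds, LTAx.coeff_cw]
  refine ⟨LTAx.ds + LTAx.cw D, ∑ i, (PowerSeries.mk fun k => r k i) • LTAx.cw (u i), n, u,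
    fun i => PowerSeries.mk fun k => r k i, fun G => ?_, ?_, fun G => ?_, fun g => ?_,
    fun g => ?_⟩
  · ext m
    rw [hd, hc, hc, hc]
    simp only [hd]
    exact LTA2x.key D Y (fun k => PowerSeries.coeff k G) m
  · refine (hr 0).symm.trans (Finset.sum_congr rfl fun i _ => ?_)
    rw [← PowerSeries.coeff_zero_eq_constantCoeff_apply, PowerSeries.coeff_mk]
  · rw [← PowerSeries.coeff_zero_eq_constantCoeff_apply, hc,
      ← PowerSeries.coeff_zero_eq_constantCoeff_apply, Finset.Nat.antidiagonal_zero,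
      Finset.sum_singleton]
    rfl
  · rw [Derivation.add_apply, LTAx.ds_C, LTAx.cw_C, zero_add]
  · rw [hY₁]
    refine Finset.sum_congr rfl fun i _ => ?_
    rw [LTAx.cw_C]

end

end Pool.Agent.MP_51db15_ag.Qh
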