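import Pool.Agent.MP_51db15_ag.Qh.Spec
import Pool.Agent.MP_51db15_ag.Hy.ZORN
import Pool.Agent.MP_51db15_ag.Hy.STEP
import Pool.Agent.MP_51db15_ag.Hy.CONE
import Pool.Agent.MP_51db15_ag.Hy.MINP

/-! PROJECT QH, row LTB: a valuation ring that is stable under two commuting derivations. -/

namespace Pool.Agent.MP_51db15_ag.Qh

namespace LTBx

/-- a stable prime between the values of `Y` and `Q` -/
theorem prime {B : Type} [CommRing B] [Algebra ℂ B] (D Y : Derivation ℂ B B) (Q : Ideal B)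
    [Q.IsPrime] (hc : ∀ G, D (Y G) = Y (D G)) (hQ : ∀ G, Y G ∈ Q) :
    ∃ P : Ideal B, P.IsPrime ∧ P ≤ Q ∧ (∀ G, Y G ∈ P) ∧ ∀ G ∈ P, D G ∈ P := by
  let _ : Algebra ℚ B := ((algebraMap ℂ B).comp (algebraMap ℚ ℂ)).toAlgebra
  obtain ⟨P, h1, h2⟩ := Ideal.exists_minimalPrimes_le
    (Ideal.span_le.2 (Set.range_subset_iff.2 hQ) : Ideal.span (Set.range Y) ≤ Q)
  refine ⟨P, h1.1.1, h2, fun G => h1.1.2 (Ideal.subset_span ⟨G, rfl⟩),
    Hy.minp B D.toLinearMap.toAddMonoidHom _ P (fun a b => D.leibniz a b) (fun a ha => ?_) h1⟩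
  change D a ∈ _
  induction ha using Submodule.span_induction with
  | mem x h =>
    obtain ⟨G, rfl⟩ := h
    exact Ideal.subset_span ⟨D G, (hc G).symm⟩
  | zero => simp
  | add x y _ _ h h' => rw [map_add]; exact add_mem h h'
  | smul a x hx h =>
    rw [smul_eq_mul, D.leibniz]
    exact add_mem (Ideal.mul_mem_left _ _ h) (Ideal.mul_mem_right _ _ hx)

end LTBx

theorem ltb : S_LTB := by
  intro B _ _ _ _ D₁ Y₁ Q hQ hc hY
  obtain ⟨P, hP, PQ, YP, DP⟩ := LTBx.prime D₁ Y₁ Q hc hY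
  let φ := IsScalarTower.toAlgHom ℂ B (FractionRing B)
  have inj : Function.Injective φ := IsFractionRing.injective B _
  have fr : ∀ z, ∃ a b, z = φ a / φ b := fun z =>
    let ⟨a, b, _, e⟩ := IsFractionRing.div_surjective (A := B) z; ⟨a, b, e.symm⟩
  have ex : ∀ w : Derivation ℂ B B, ∃ D : Derivation ℂ _ _, ∀ a, D (φ a) = φ (w a) := fun w =>
    Hy.lift B _ φ (φ.toLinearMap ∘ₗ w.toLinearMap) fr
      (fun a b => by simp) fun a ha => by simp [(map_eq_zero_iff φ inj).1 ha]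
  obtain ⟨D, hD⟩ := ex D₁
  obtain ⟨Y, hY⟩ := ex Y₁
  have com : ∀ z, D (Y z) - Y (D z) = (0 : ℂ) • Y z := fun z => by
    have e : ∀ a, ⁅D, Y⁆ (φ a) = 0 := fun a => by
      rw [Derivation.commutator_apply, hY, hD, hD, hY, hc, sub_self]
    obtain ⟨a, b, rfl⟩ := fr z
    rw [← Derivation.commutator_apply, Derivation.leibniz_div, e, e]
    simp
  have sj : Function.Surjective φ.rangeRestrict := φ.rangeRestrict_surjective
  have ker : RingHom.ker φ.rangeRestrict ≤ P := fun a ha =>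
    (map_eq_zero_iff φ inj).1 (congrArg Subtype.val ha) ▸ P.zero_mem
  have mem : ∀ a, φ.rangeRestrict a ∈ P.map φ.rangeRestrict ↔ a ∈ P := fun a => by
    rw [← Ideal.mem_comap, Ideal.comap_map_of_surjective _ sj, sup_eq_left.mpr]
    exact ker
  obtain ⟨V, V1, V2, V3, V4⟩ := Hy.zorn Hy.minp (Hy.step Hy.cone) _ φ.range Y D 0
    (P.map φ.rangeRestrict) (isNoetherianRing_of_surjective B _ φ.rangeRestrict.toRingHom sj)
    (fun z => let ⟨a, b, e⟩ := fr z; ⟨_, ⟨a, rfl⟩, _, ⟨b, rfl⟩, e⟩)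
    (Ideal.map_isPrime_of_surjective sj ker) com
    (fun a => by
      obtain ⟨g, rfl⟩ := sj a
      exact ⟨φ.rangeRestrict (Y₁ g), (mem _).mpr (YP g), hY g⟩)
    (by
      rintro _ ⟨g, rfl⟩
      exact ⟨D₁ g, (hD g).symm⟩)
    (fun a ha => by
      obtain ⟨g, rfl⟩ := sj a
      exact ⟨φ.rangeRestrict (D₁ g), (mem _).mpr (DP g ((mem g).mp ha)), hD g⟩)
  exact ⟨_, _, _, φ, V, Y, D, inj, fun G => V1 _ ⟨G, rfl⟩,
    fun G h => PQ ((mem G).1 ((V2 _).1 h)), V3, V4, hD, hY⟩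

end Pool.Agent.MP_51db15_ag.Qh
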