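import Pool.Agent.MP_51db15_ag.Qh.Spec2
import Pool.Agent.MP_51db15_ag.Qh.LT
import Pool.Agent.MP_51db15_ag.Hy.MINP

/-! Row LTF of project QF: the form vanishes on a field that vanishes, for an abstract ring. -/

namespace Pool.Agent.MP_51db15_ag.Qh

namespace LTFx

theorem frac {R : Type} [CommRing R] [IsDomain R] (y : FractionRing R) :
    ∃ g k : R, algebraMap R (FractionRing R) k ≠ 0 ∧
      y = algebraMap R (FractionRing R) g / algebraMap R (FractionRing R) k := by
  obtain ⟨g, k, hk, e⟩ := IsFractionRing.div_surjective (A := R) y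
  exact ⟨g, k, IsFractionRing.to_map_ne_zero_of_mem_nonZeroDivisors hk, e.symm⟩

theorem ext_der {R : Type} [CommRing R] [IsDomain R] [Algebra ℂ R] (X : DR R) :
    ∃ X' : Derivation ℂ (FractionRing R) (FractionRing R),
      ∀ r, X' (algebraMap R _ r) = algebraMap R _ (X r) := by
  refine Hy.lift R (FractionRing R) (IsScalarTower.toAlgHom ℂ R (FractionRing R))
    ((IsScalarTower.toAlgHom ℂ R (FractionRing R)).toLinearMap ∘ₗ X.toLinearMap) (fun y => ?_)
    (fun a b => ?_) fun a ha => ?_
  · obtain ⟨g, k, -, e⟩ := frac y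
    exact ⟨g, k, e⟩
  · simp [Derivation.leibniz]
  · have : a = 0 := IsFractionRing.injective R (FractionRing R) (by simpa using ha)
    simp [this]

theorem ext_frac {R L : Type} [CommRing R] [IsDomain R] [Field L] [Algebra ℂ L]
    (j : FractionRing R →+* L) (Z : Derivation ℂ L L) (F : FractionRing R → L)
    (hF : ∀ a b, F (a * b) = j a * F b + j b * F a)
    (h : ∀ g : R, Z (j (algebraMap R _ g)) = F (algebraMap R _ g)) (y : FractionRing R) :
    Z (j y) = F y := by
  obtain ⟨g, k, k0, e⟩ := frac y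
  have e2 : algebraMap R (FractionRing R) g = y * algebraMap R (FractionRing R) k := by
    rw [e]; field_simp
  have h1 := h g
  rw [e2, map_mul, Derivation.leibniz, hF, h k, smul_eq_mul, smul_eq_mul] at h1
  exact mul_left_cancel₀ ((map_ne_zero j).2 k0) (add_left_cancel h1)

end LTFx

theorem ltf (a : S_LTA2) (b : S_LTB) : S_LTF := by
  intro R _ _ _ _ _ ω hK Q hQ Y D hYQ
  obtain ⟨D₁, Y₁, n, u, ρ, hc, hsum, hcc, hD1, hY1⟩ := a R Y D
  have hQ1 : ∀ G, Y₁ G ∈ Q.comap (PowerSeries.constantCoeff (R := R)) := fun G => by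
    rw [Ideal.mem_comap, hcc]
    exact hYQ _
  obtain ⟨L, iL, iA, ψ, V, Y', D', hinj, hV, hnu, hY', hD', hDψ, hYψ⟩ :=
    b (PowerSeries R) D₁ Y₁ (Q.comap (PowerSeries.constantCoeff (R := R))) inferInstance hc hQ1
  have hi : Function.Injective (ψ.comp (PowerSeries.C (R := R))) :=
    hinj.comp PowerSeries.C_injective
  have hj : ∀ g : R, ψ (PowerSeries.C g) =
      IsFractionRing.lift (K := FractionRing R) hi (algebraMap R _ g) := fun g =>
    (IsFractionRing.lift_algebraMap (K := FractionRing R) hi g).symm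
  generalize IsFractionRing.lift (K := FractionRing R) hi = j at hj
  obtain ⟨D2, hD2⟩ := LTFx.ext_der D
  choose u2 hu2 using fun i => LTFx.ext_der (u i)
  have h8 : ∀ y, D' (j y) = j (D2 y) := by
    refine LTFx.ext_frac j D' (fun y => j (D2 y)) (fun p q => ?_) fun g => ?_
    · simp only [Derivation.leibniz, smul_eq_mul, map_add, map_mul]
    · rw [← hj, hDψ, hD1, hD2, hj]
  have h9 : ∀ y, Y' (j y) = ∑ i, ψ (ρ i) * j (u2 i y) := by
    refine LTFx.ext_frac j Y' (fun y => ∑ i, ψ (ρ i) * j (u2 i y)) (fun p q => ?_) fun g => ?_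
    · simp only [Derivation.leibniz, smul_eq_mul, map_add, map_mul, Finset.mul_sum,
        ← Finset.sum_add_distrib]
      exact Finset.sum_congr rfl fun i _ => by ring
    · rw [← hj, hYψ, hY1, map_sum]
      exact Finset.sum_congr rfl fun i _ => by rw [map_mul, hu2, hj]
  have hS : ∀ r : R, algebraMap R (FractionRing R) r ∈ V.comap j := fun r => by
    have := hV (PowerSeries.C r)
    rw [hj] at this
    exact this
  obtain ⟨m, c, y, z, hm, hf⟩ := hK (V.comap j) hS
  have e : ψ (∑ i, ρ i * PowerSeries.C (ω (u i) D)) =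
      ∑ s, j (c s) * (Y' (j (y s)) * D' (j (z s)) - Y' (j (z s)) * D' (j (y s))) := by
    simp only [map_sum, map_mul, hj, h8, h9]
    rw [← LTx.swap]
    refine Finset.sum_congr rfl fun i _ => ?_
    congr 1
    rw [hf (u i) D (u2 i) D2 (hu2 i) hD2]
    simp only [map_sum, map_mul, map_sub]
  have hn : ψ (∑ i, ρ i * PowerSeries.C (ω (u i) D)) ∈ V.nonunits := by
    rw [e]
    refine sum_mem fun s _ => LTx.mul_non V (hm s).1 (sub_mem ?_ ?_)
    · rw [mul_comm]
      exact LTx.mul_non V (hD' _ (hm s).2.2) (hY' _ (hm s).2.1)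
    · rw [mul_comm]
      exact LTx.mul_non V (hD' _ (hm s).2.1) (hY' _ (hm s).2.2)
  have h3 := Ideal.mem_comap.1 (hnu _ hn)
  rw [hsum]
  simpa only [map_sum, map_mul, PowerSeries.constantCoeff_C, LinearMap.sum_apply, map_smul,
    LinearMap.smul_apply, smul_eq_mul] using h3

end Pool.Agent.MP_51db15_ag.Qh
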