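import Pool.Agent.MP_51db15_ag.Qh.Spec3
import Pool.Agent.MP_51db15_ag.Hy.D3
import Pool.Agent.MP_51db15_ag.Hy.MINP
import Pool.Agent.MP_51db15_ag.Nc.Base
import Pool.Agent.MP_51db15_ag.Nc.D4

/-! Merged rows: EV EVG HAT HGEN HLTP HNRM HREG IDEM INI INI2 JD3 LT LTF PI POS SCA STEP TRV ALG. -/

section
/-! All the lattices are spanned by eigenvectors. -/

namespace Pool.Agent.MP_51db15_ag.Qh

open Module

namespace EVx

variable {K : Type} [Field K] [Algebra ℂ K] {S : Subalgebra ℂ K}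

theorem sN {ι : Type} {t : DD K} {x : ι → K} {a : ι → ℕ} (c : Cx S t x a) (g : K) (hg : g ∈ S) :
    g ∈ ⨆ n : ℕ, SC S ⊓ (op t).eigenspace (n : ℂ) := by
  have h1 : ∀ y ∈ Submonoid.closure (Set.range x), y ∈ S ∧ ∃ n : ℕ, t y = (n : ℂ) • y := by
    intro y hy
    induction hy using Submonoid.closure_induction with
    | mem y h =>
      obtain ⟨i, rfl⟩ := h
      exact ⟨c.gen ▸ Algebra.subset_adjoin ⟨i, rfl⟩, a i, c.eig i⟩
    | one => exact ⟨one_mem _, 0, by simp⟩
    | mul y z _ _ hy hz =>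
      obtain ⟨y1, n, y2⟩ := hy
      obtain ⟨z1, m, z2⟩ := hz
      refine ⟨mul_mem y1 z1, n + m, ?_⟩
      rw [Derivation.leibniz, y2, z2]
      simp only [smul_eq_mul, Algebra.smul_def, Nat.cast_add, map_add]
      ring
  have h2 : g ∈ Submodule.span ℂ (Submonoid.closure (Set.range x) : Set K) := by
    rw [← Algebra.adjoin_eq_span, c.gen]
    exact hg
  refine Submodule.span_le.2 (fun y hy => ?_) h2
  obtain ⟨y1, n, y2⟩ := h1 y hy
  exact Submodule.mem_iSup_of_mem n ⟨y1, End.mem_eigenspace_iff.2 y2⟩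

theorem hom (e : S_EVG) {M W : Type} [AddCommGroup M] [AddCommGroup W] [Module K M] [Module K W]
    [Module ℂ M] [Module ℂ W] [IsScalarTower ℂ K M] [IsScalarTower ℂ K W] [SMulCommClass K ℂ W]
    (N : Submodule S M) (fg : N.FG) (den : ∀ v : M, ∃ s ∈ S, s ≠ 0 ∧ s • v ∈ N)
    (δM : End ℂ M) (hN : Dz δM (N.restrictScalars ℂ)) (δ : End ℂ (M →ₗ[K] W)) (δ' : End ℂ W)
    (H : Submodule ℂ (M →ₗ[K] W)) (H' : Submodule ℂ W)
    (h1 : ∀ a v, δ a v = δ' (a v) - a (δM v)) (h2 : ∀ a ∈ H, δ a ∈ H)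
    (h3 : ∀ a ∈ H, ∀ v ∈ N, a v ∈ H') (h4 : Dz δ' H') : Dz δ H := by
  have k1 : N = Submodule.span S {v | v ∈ N ∧ ∃ n : ℤ, δM v = (n : ℂ) • v} := by
    refine le_antisymm (fun v hv => ?_) (Submodule.span_le.2 fun v hv => hv.1)
    have : (⨆ n : ℤ, N.restrictScalars ℂ ⊓ δM.eigenspace (n : ℂ)) ≤
        (Submodule.span S {v | v ∈ N ∧ ∃ n : ℤ, δM v = (n : ℂ) • v}).restrictScalars ℂ :=
      iSup_le fun n w hw => Submodule.subset_span ⟨hw.1, n, End.mem_eigenspace_iff.1 hw.2⟩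
    exact this (hN v hv)
  rw [k1] at fg
  obtain ⟨s, s1, s2⟩ := (Submodule.fg_span_iff_fg_span_finset_subset _).1 fg
  rw [← k1] at s2
  choose α hα using fun j : s => (s1 j.2).2
  refine (e (M →ₗ[K] W) W s δ δ' H H'
    (fun j => ⟨⟨fun a => a j.1, fun _ _ => rfl⟩, fun _ _ => rfl⟩) α h2
    (fun a ha j => h3 a ha _ (s1 j.2).1) (fun a _ h0 => ?_) fun a _ j => ?_).1 h4
  · have k2 : ∀ v ∈ N, a v = 0 := by
      intro v hv
      rw [s2] at hv
      induction hv using Submodule.span_induction with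
      | mem v h => exact h0 ⟨v, h⟩
      | zero => exact map_zero a
      | add v w _ _ hv hw => rw [map_add, hv, hw, add_zero]
      | smul r v _ hv => rw [Subalgebra.smul_def, map_smul, hv, smul_zero]
    ext v
    obtain ⟨r, -, r0, hr⟩ := den v
    have := k2 _ hr
    rw [map_smul] at this
    exact (smul_eq_zero.1 this).resolve_left r0
  · change δ a j.1 = δ' (a j.1) - (α j : ℂ) • a j.1
    rw [h1, hα, lin_c]

end EVx

open EVx in
theorem ev (_g : GenK) (e : S_EVG) : S_EV := by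
  intro K ι _ _ _ S t x a c b
  have tm : t ∈ TT S := b.tt t fun i => by
    rw [c.eig]
    exact S.smul_mem (b.mem i) _
  have hs : Dz (op t) (SC S) := fun g hg => by
    have : (⨆ n : ℕ, SC S ⊓ (op t).eigenspace (n : ℂ)) ≤
        ⨆ n : ℤ, SC S ⊓ (op t).eigenspace (n : ℂ) :=
      iSup_le fun n => le_iSup_of_le (n : ℤ) (by rw [Int.cast_natCast])
    exact this (sN c g hg)
  have hT : Dz (ad t) (TC S) := by
    refine (e (DD K) K ι (ad t) (op t) (TC S) (SC S)
      (fun i => ⟨⟨fun D => D (x i), fun _ _ => rfl⟩, fun _ _ => rfl⟩) (fun i => a i)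
      (fun D hD => lie_mem tm hD) (fun D hD i => hD _ (b.mem i))
      (fun D _ h => b.ext D 0 h) fun D _ i => ?_).1 hs
    change ⁅t, D⁆ (x i) = t (D (x i)) - ((a i : ℤ) : ℂ) • D (x i)
    rw [Derivation.commutator_apply, c.eig, Derivation.map_smul, Int.cast_natCast]
  have hD : Dz (ld t) (DC S) :=
    hom e (TT S) b.fgT b.den (ad t) hT (ld t) (op t) (DC S) (SC S) (fun _ _ => rfl)
      (fun γ h => ld_mem tm h) (fun γ h D hD => h D hD) hs
  have hL : Dz (lam t) (LC S) := fun v hv => by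
    have h1 : (⨆ n : ℤ, TC S ⊓ (ad t).eigenspace (n : ℂ)) ≤
        (⨆ n : ℤ, LC S ⊓ (lam t).eigenspace (n : ℂ)).comap (LinearMap.inl ℂ (DD K) (DU K)) :=
      iSup_le fun n D h => Submodule.mem_iSup_of_mem n ⟨⟨h.1, zero_mem _⟩,
        End.mem_eigenspace_iff.2 (Prod.ext (End.mem_eigenspace_iff.1 h.2) (by simp))⟩
    have h2 : (⨆ n : ℤ, DC S ⊓ (ld t).eigenspace (n : ℂ)) ≤
        (⨆ n : ℤ, LC S ⊓ (lam t).eigenspace (n : ℂ)).comap (LinearMap.inr ℂ (DD K) (DU K)) :=
      iSup_le fun n γ h => Submodule.mem_iSup_of_mem n ⟨⟨zero_mem _, h.1⟩,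
        End.mem_eigenspace_iff.2 (Prod.ext (by simp) (End.mem_eigenspace_iff.1 h.2))⟩
    have h3 := add_mem (Submodule.mem_comap.1 (h1 (hT v.1 hv.1)))
      (Submodule.mem_comap.1 (h2 (hD v.2 hv.2)))
    rwa [LinearMap.inl_apply, LinearMap.inr_apply, Prod.mk_add_mk, add_zero, zero_add] at h3
  refine ⟨tm, fun g hg z g0 h => ?_, hs, hT, hD, hL, ?_, ?_⟩
  · by_contra hn
    have h1 : (⨆ n : ℕ, SC S ⊓ (op t).eigenspace (n : ℂ)) ≤
        ⨆ (c' : ℂ) (_ : c' ≠ z), (op t).eigenspace c' :=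
      iSup_le fun n => inf_le_right.trans
        (le_iSup₂_of_le (n : ℂ) (fun k => hn ⟨n, k.symm⟩) le_rfl)
    exact g0 (Submodule.disjoint_def.1 (End.eigenspaces_iSupIndep (op t) z) g
      (End.mem_eigenspace_iff.2 h) (h1 (sN c g hg)))
  · refine hom e (LL S) (b.fgT.prod b.fgD) (fun v => ?_) (lam t) hL (del t) (lam t) (EC S) (LC S)
      (fun _ _ => rfl) (fun a h => del_mem tm h) (fun a h v hv => h v hv) hL
    obtain ⟨r, r1, r2, r3⟩ := b.den v.1
    obtain ⟨s, s1, s2, s3⟩ := b.denD v.2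
    refine ⟨s * r, mul_mem s1 r1, mul_ne_zero s2 r2, ?_, ?_⟩
    · rw [Prod.smul_fst, mul_smul]
      exact (TT S).smul_mem ⟨s, s1⟩ r3
    · rw [Prod.smul_snd, mul_comm, mul_smul]
      exact (TD S).smul_mem ⟨r, r1⟩ s3
  · exact hom e (TT S) b.fgT b.den (ad t) hT (lf t) (ld t) (RF S) (DC S) (fun _ _ => rfl)
      (fun η h => lf_mem tm h) (fun η h D hD => h D hD) hD

end Pool.Agent.MP_51db15_ag.Qh

end

section
/-! Row EVG of project QH: eigenvectors are detected by finitely many evaluations. -/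

namespace Pool.Agent.MP_51db15_ag.Qh

open Module

namespace EVGx

variable {W ι : Type} [AddCommGroup W] [Module ℂ W]

/-- the shifted operator on the product -/
noncomputable def sh (δ' : End ℂ W) (α : ι → ℤ) : End ℂ (ι → W) :=
  LinearMap.pi fun i => (δ' - (α i : ℂ) • (1 : End ℂ W)) ∘ₗ LinearMap.proj i

theorem sh_apply (δ' : End ℂ W) (α : ι → ℤ) (w : ι → W) (i : ι) :
    sh δ' α w i = δ' (w i) - (α i : ℂ) • w i := by
  simp [sh]

theorem dz_pi [Fintype ι] (δ' : End ℂ W) (α : ι → ℤ) (H' : Submodule ℂ W) (h : Dz δ' H') :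
    Dz (sh δ' α) (Submodule.pi Set.univ fun _ : ι => H') := by
  classical
  intro w hw
  rw [← Finset.univ_sum_single w]
  refine Submodule.sum_mem _ fun i _ => ?_
  have hi : w i ∈ ⨆ n : ℤ, H' ⊓ δ'.eigenspace (n : ℂ) := h _ (hw i (Set.mem_univ i))
  refine Submodule.iSup_induction (fun n : ℤ => H' ⊓ δ'.eigenspace (n : ℂ))
    (motive := fun x => (Pi.single i x : ι → W) ∈
      ⨆ n : ℤ, (Submodule.pi Set.univ fun _ : ι => H') ⊓ (sh δ' α).eigenspace (n : ℂ)) hi ?_ ?_ ?_
  · rintro n x ⟨hx, hxe⟩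
    have hxe' : δ' x = (n : ℂ) • x := End.mem_eigenspace_iff.1 hxe
    refine Submodule.mem_iSup_of_mem (n - α i) ⟨fun j _ => ?_, ?_⟩
    · by_cases hj : j = i
      · subst hj
        simpa using hx
      · simp [Pi.single_eq_of_ne hj]
    · refine End.mem_eigenspace_iff.2 ?_
      funext j
      rw [sh_apply]
      by_cases hj : j = i
      · subst hj
        simp [hxe', sub_smul]
      · simp [Pi.single_eq_of_ne hj]
  · simp
  · intro x y hx hy
    rw [Pi.single_add]
    exact Submodule.add_mem _ hx hy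

end EVGx

open EVGx in
theorem evg (g : GenK) : S_EVG := by
  intro U W ι _ _ _ _ _ δ δ' H H' ev α hH hev hinj hcom
  refine ⟨fun hD => ?_, fun hF c => ?_⟩
  · let T : U →ₗ[ℂ] (ι → W) := LinearMap.pi ev
    have hT : ∀ u ∈ H, T (δ u) = sh δ' α (T u) := fun u hu => by
      funext i
      rw [sh_apply]
      exact hcom u hu i
    have hT0 : ∀ u ∈ H, T u = 0 → u = 0 := fun u hu h0 => hinj u hu fun i => congrFun h0 i
    have hsub : Dz (sh δ' α) (H.map T) := by
      refine g.sub (ι → W) (sh δ' α) _ (H.map T) (dz_pi δ' α H' hD) ?_ ?_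
      · rintro _ ⟨u, hu, rfl⟩ i _
        exact hev u hu i
      · rintro _ ⟨u, hu, rfl⟩
        exact ⟨δ u, hH u hu, hT u hu⟩
    intro u hu
    have h1 := hsub (T u) ⟨u, hu, rfl⟩
    have hle : (⨆ n : ℤ, H.map T ⊓ (sh δ' α).eigenspace (n : ℂ)) ≤
        (⨆ n : ℤ, H ⊓ δ.eigenspace (n : ℂ)).map T := by
      refine iSup_le fun n => ?_
      rintro _ ⟨⟨v, hv, rfl⟩, he⟩
      refine ⟨v, Submodule.mem_iSup_of_mem n ⟨hv, End.mem_eigenspace_iff.2 ?_⟩, rfl⟩
      have he' : sh δ' α (T v) = (n : ℂ) • T v := End.mem_eigenspace_iff.1 he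
      refine sub_eq_zero.1 (hT0 _ (H.sub_mem (hH v hv) (H.smul_mem _ hv)) ?_)
      rw [map_sub, map_smul, hT v hv, he', sub_self]
    obtain ⟨v, hv, hvu⟩ := hle h1
    have hvH : v ∈ H := (iSup_le (fun n : ℤ => (inf_le_left : H ⊓ δ.eigenspace (n : ℂ) ≤ H))) hv
    have : u = v := by
      refine sub_eq_zero.1 (hT0 _ (H.sub_mem hu hvH) ?_)
      rw [map_sub, hvu, sub_self]
    rw [this]
    exact hv
  · have : ∀ i, FiniteDimensional ℂ ↥(H' ⊓ δ'.eigenspace (c + (α i : ℂ))) := fun i => hF _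
    have hmem : ∀ (i : ι) (u : ↥(H ⊓ δ.eigenspace c)),
        (ev i ∘ₗ (H ⊓ δ.eigenspace c).subtype) u ∈ H' ⊓ δ'.eigenspace (c + (α i : ℂ)) := by
      rintro i ⟨u, hu, hue⟩
      refine ⟨hev u hu i, End.mem_eigenspace_iff.2 ?_⟩
      have h1 : δ u = c • u := End.mem_eigenspace_iff.1 hue
      have h2 := hcom u hu i
      rw [h1, map_smul] at h2
      change δ' (ev i u) = (c + (α i : ℂ)) • ev i u
      rw [add_smul, h2, sub_add_cancel]
    let T : ↥(H ⊓ δ.eigenspace c) →ₗ[ℂ] (∀ i, ↥(H' ⊓ δ'.eigenspace (c + (α i : ℂ)))) :=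
      LinearMap.pi fun i => LinearMap.codRestrict _ (ev i ∘ₗ (H ⊓ δ.eigenspace c).subtype) (hmem i)
    refine FiniteDimensional.of_injective T ?_
    rw [injective_iff_map_eq_zero]
    intro u hu
    refine Subtype.ext (hinj u.1 u.2.1 fun i => ?_)
    exact congrArg Subtype.val (congrFun hu i)

end Pool.Agent.MP_51db15_ag.Qh

end

section
/-! PROJECT QF, row HAT: the completion of the cone. -/

namespace Pool.Agent.MP_51db15_ag.Qh

open MvPolynomial

namespace HATx

variable {ι K : Type} [Field K] [Algebra ℂ K] {a : ι → ℕ} {J : Ideal (MvPolynomial ι ℂ)}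
  {φ : MvPolynomial ι ℂ →ₐ[ℂ] K} {E : DD K}

theorem phi_mono (φ : MvPolynomial ι ℂ →ₐ[ℂ] K) (α : ι →₀ ℕ) (c : ℂ) :
    φ (monomial α c) = c • φ (monomial α 1) := by
  rw [← map_smul, smul_monomial, smul_eq_mul, mul_one]

theorem wt_mono (hE : ∀ i, E (φ (.X i)) = (a i : ℂ) • φ (.X i)) (α : ι →₀ ℕ) :
    E (φ (monomial α 1)) = ((Finsupp.weight a α : ℕ) : ℂ) • φ (monomial α 1) := by
  induction α using Finsupp.induction_linear with
  | zero => simp
  | add α β hα hβ =>
    have e : (monomial (α + β) 1 : MvPolynomial ι ℂ) = monomial α 1 * monomial β 1 := by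
      rw [monomial_mul, mul_one]
    rw [e, map_mul, Derivation.leibniz, hα, hβ, map_add, Nat.cast_add]
    simp only [smul_eq_mul, Algebra.smul_def]
    rw [map_add]
    ring
  | single i n =>
    rw [← X_pow_eq_monomial, map_pow, Finsupp.weight_single, smul_eq_mul]
    induction n with
    | zero => simp
    | succ n ih =>
      rw [pow_succ, Derivation.leibniz, ih, hE]
      simp only [smul_eq_mul, Algebra.smul_def]
      push_cast
      ring

theorem wt_hom (hE : ∀ i, E (φ (.X i)) = (a i : ℂ) • φ (.X i)) {F : MvPolynomial ι ℂ} {n : ℕ}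
    (hF : ∀ α, F.coeff α ≠ 0 → Finsupp.weight a α = n) : E (φ F) = (n : ℂ) • φ F := by
  rw [F.as_sum, map_sum, map_sum, Finset.smul_sum]
  refine Finset.sum_congr rfl fun α hα => ?_
  rw [phi_mono, Derivation.map_smul, wt_mono hE, hF α (mem_support_iff.1 hα), smul_comm]

theorem wt_comp (hE : ∀ i, E (φ (.X i)) = (a i : ℂ) • φ (.X i)) (F : MvPolynomial ι ℂ) (n : ℕ) :
    E (φ (weightedHomogeneousComponent a n F)) =
      (n : ℂ) • φ (weightedHomogeneousComponent a n F) :=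
  wt_hom hE fun α hα => by
    rw [coeff_weightedHomogeneousComponent] at hα
    by_contra h
    exact hα (if_neg h)

theorem sum_comp (a : ι → ℕ) (F : MvPolynomial ι ℂ) :
    F = ∑ m ∈ F.support.image (Finsupp.weight a), weightedHomogeneousComponent a m F := by
  ext α
  rw [coeff_sum]
  simp only [coeff_weightedHomogeneousComponent]
  rw [Finset.sum_ite_eq]
  split_ifs with h
  · rfl
  · by_contra h1
    exact h (Finset.mem_image_of_mem _ (mem_support_iff.2 h1))

theorem comp_zero {F : MvPolynomial ι ℂ} {m : ℕ} (h : m ∉ F.support.image (Finsupp.weight a)) :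
    weightedHomogeneousComponent a m F = 0 := by
  ext α
  rw [coeff_weightedHomogeneousComponent, coeff_zero]
  split_ifs with h1
  · by_contra h2
    exact h (h1 ▸ Finset.mem_image_of_mem _ (mem_support_iff.2 h2))
  · rfl

theorem other (hJ : ∀ g ∈ J, ∀ n, weightedHomogeneousComponent a n g ∈ J)
    (hφ : ∀ g, φ g = 0 ↔ g ∈ J) (hE : ∀ i, E (φ (.X i)) = (a i : ℂ) • φ (.X i))
    {F : MvPolynomial ι ℂ} {n : ℕ} (hF : E (φ F) = (n : ℂ) • φ F) {m : ℕ} (hm : m ≠ n) :
    φ (weightedHomogeneousComponent a m F) = 0 := by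
  by_cases hT : m ∈ F.support.image (Finsupp.weight a)
  swap
  · rw [comp_zero hT, map_zero]
  have h1 : (∑ k ∈ F.support.image (Finsupp.weight a),
      ((k : ℂ) - n) • weightedHomogeneousComponent a k F) ∈ J := by
    rw [← hφ, map_sum]
    simp only [map_smul, sub_smul, map_sub]
    rw [Finset.sum_sub_distrib, ← Finset.smul_sum, ← map_sum, ← sum_comp, ← hF, sub_eq_zero]
    conv_rhs => rw [sum_comp a F, map_sum, map_sum]
    exact Finset.sum_congr rfl fun k _ => (wt_comp hE F k).symm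
  have h2 := hJ _ h1 m
  have h3 : weightedHomogeneousComponent a m (∑ k ∈ F.support.image (Finsupp.weight a),
      ((k : ℂ) - n) • weightedHomogeneousComponent a k F) =
      ((m : ℂ) - n) • weightedHomogeneousComponent a m F := by
    ext α
    rw [coeff_weightedHomogeneousComponent, coeff_sum]
    simp only [coeff_smul, coeff_weightedHomogeneousComponent, smul_eq_mul, mul_ite, mul_zero]
    rw [Finset.sum_ite_eq]
    split_ifs with h4 h5
    · rw [h4]
    · exact absurd (h4 ▸ hT) h5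
    · rfl
  rw [h3, ← hφ, map_smul, smul_eq_zero] at h2
  refine h2.resolve_left fun h => hm ?_
  exact_mod_cast sub_eq_zero.1 h

theorem same (hJ : ∀ g ∈ J, ∀ n, weightedHomogeneousComponent a n g ∈ J)
    (hφ : ∀ g, φ g = 0 ↔ g ∈ J) (hE : ∀ i, E (φ (.X i)) = (a i : ℂ) • φ (.X i))
    {F : MvPolynomial ι ℂ} {n : ℕ} (hF : E (φ F) = (n : ℂ) • φ F) :
    φ (weightedHomogeneousComponent a n F) = φ F := by
  conv_rhs => rw [sum_comp a F, map_sum]
  rw [Finset.sum_eq_single n (fun m _ hm => other hJ hφ hE hF hm)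
    fun h => by rw [comp_zero h, map_zero]]

theorem coeff_mu' [Fintype ι] (ha : ∀ i, 0 < a i) {g : MvPowerSeries ι ℂ} {n : ℕ}
    {F : MvPolynomial ι ℂ}
    (hF : ∀ α, F.coeff α = if Finsupp.weight a α = n then MvPowerSeries.coeff α g else 0) :
    PowerSeries.coeff n (Hy.D3.mu φ a ha g) = φ F := by
  rw [Hy.D3.coeff_mu, finsum_eq_sum_of_support_subset (s := F.support)]
  · conv_rhs => rw [F.as_sum, map_sum]
    refine Finset.sum_congr rfl fun α hα => ?_
    have h1 := mem_support_iff.1 hα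
    rw [hF] at h1
    have h2 : Finsupp.weight a α = n := by
      by_contra h
      exact h1 (if_neg h)
    rw [if_pos h2.symm, phi_mono φ α (F.coeff α), hF, if_pos h2]
  · intro α hα
    rw [Finset.mem_coe, mem_support_iff, hF]
    intro h
    apply hα
    by_cases h1 : Finsupp.weight a α = n
    · rw [if_pos h1] at h
      simp [h]
    · have h2 : ¬ n = Finsupp.weight a α := fun e => h1 e.symm
      simp [h2]

end HATx

open HATx

theorem hat (k : S_HKER) : S_HAT := by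
  intro ι K _ _ _ _ a J φ E ha hJ hφ hE
  obtain ⟨wc, hwc, hker⟩ := k ι a J ha hJ
  set I := J.map (MvPolynomial.coeToMvPowerSeries.ringHom (σ := ι) (R := ℂ)) with hI
  have hc : ∀ g n, PowerSeries.coeff n (Hy.D3.mu φ a ha g) = φ (wc n g) :=
    fun g n => coeff_mu' ha (hwc n g)
  have h0 : ∀ g, Hy.D3.mu φ a ha g = 0 ↔ g ∈ I := fun g => by
    rw [hker, PowerSeries.ext_iff]
    exact forall_congr' fun n => by rw [hc, map_zero, hφ]
  let q : MvPowerSeries ι ℂ →ₐ[ℂ] (MvPowerSeries ι ℂ ⧸ I) := Ideal.Quotient.mkₐ ℂ I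
  have hq : Function.Surjective q := Ideal.Quotient.mkₐ_surjective ℂ I
  let μ : (MvPowerSeries ι ℂ ⧸ I) →ₐ[ℂ] PowerSeries K :=
    Ideal.Quotient.liftₐ I (Hy.D3.mu φ a ha) fun g hg => (h0 g).2 hg
  have hμ : ∀ g, μ (q g) = Hy.D3.mu φ a ha g := fun g => rfl
  let c : MvPolynomial ι ℂ →ₐ[ℂ] MvPowerSeries ι ℂ := MvPolynomial.coeToMvPowerSeries.algHom ℂ
  have hcc : ∀ F, c F = (F : MvPowerSeries ι ℂ) := fun F => by
    simp [c]
  have hs : Function.Surjective φ.rangeRestrict := φ.rangeRestrict_surjective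
  have hle : RingHom.ker φ.rangeRestrict.toRingHom ≤ RingHom.ker (q.comp c).toRingHom := by
    intro F hF
    have h1 : φ F = 0 := congrArg Subtype.val (RingHom.mem_ker.1 hF)
    change q (c F) = 0
    rw [hcc]
    exact Ideal.Quotient.eq_zero_iff_mem.2 (Ideal.mem_map_of_mem _ ((hφ F).1 h1))
  let i0 := AlgHom.liftOfSurjective φ.rangeRestrict hs (q.comp c) hle
  have hi : ∀ F, i0 (φ.rangeRestrict F) = q (F : MvPowerSeries ι ℂ) := fun F => by
    rw [← hcc]
    exact AlgHom.liftOfSurjective_apply _ _ _ _ F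
  have hw : ∀ n (F : MvPolynomial ι ℂ),
      wc n (F : MvPowerSeries ι ℂ) = weightedHomogeneousComponent a n F := fun n F => by
    ext α
    rw [hwc, coeff_weightedHomogeneousComponent, MvPolynomial.coeff_coe]
  refine ⟨μ, i0, ?_, fun r n => ?_, fun f hf => ?_, inferInstance, fun g n hg => ?_,
    fun D P hD r => ?_⟩
  · refine (injective_iff_map_eq_zero μ).2 fun r hr => ?_
    obtain ⟨g, rfl⟩ := hq r
    exact Ideal.Quotient.eq_zero_iff_mem.2 ((h0 g).1 hr)
  · obtain ⟨g, rfl⟩ := hq r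
    rw [hμ, hc]
    refine ⟨⟨_, rfl⟩, wt_hom hE fun α hα => ?_⟩
    rw [hwc] at hα
    by_contra h
    exact hα (if_neg h)
  · choose F hF using fun n => (hf n).1
    have hF' : ∀ n, φ (F n) = f n := hF
    let g : MvPowerSeries ι ℂ := fun α => (F (Finsupp.weight a α)).coeff α
    refine ⟨q g, ?_⟩
    ext n
    rw [hμ, hc, PowerSeries.coeff_mk, ← hF', ← same hJ hφ hE (F := F n) (n := n)
      (by rw [hF']; exact (hf n).2)]
    congr 1
    ext α
    rw [hwc, coeff_weightedHomogeneousComponent]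
    split_ifs with h
    · rw [← h]; rfl
    · rfl
  · obtain ⟨F, rfl⟩ := hs g
    have hg' : E (φ F) = (n : ℂ) • φ F := hg
    rw [hi, hμ]
    ext m
    rw [hc, hw, PowerSeries.coeff_monomial]
    split_ifs with h
    · rw [h]; exact same hJ hφ hE hg'
    · exact other hJ hφ hE hg' h
  · obtain ⟨g, rfl⟩ := hq r
    rw [Nc.Pres.chain (q := q) ⟨hq, rfl⟩ D g]
    refine Ideal.sum_mem _ fun i _ => Ideal.mul_mem_left _ _ ?_
    have h1 := hD (φ.rangeRestrict (.X i))
    rwa [hi, MvPolynomial.coe_X] at h1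

end Pool.Agent.MP_51db15_ag.Qh

end

section
/-! PROJECT QF, row HGEN: homogeneous generators generate the fields of the completion. -/

namespace Pool.Agent.MP_51db15_ag.Qh

open Module

noncomputable section

namespace HGENx

variable {K : Type} [Field K] [Algebra ℂ K] {S : Subalgebra ℂ K} {E : DD K}

theorem gens (e : Ev S E) (fg : (TT S).FG) : ∃ (n : ℕ) (u : Fin n → DD K) (p : Fin n → ℤ),
    (∀ j, u j ∈ TT S ∧ ⁅E, u j⁆ = (p j : ℂ) • u j) ∧ TT S ≤ Submodule.span S (Set.range u) := by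
  have h : Submodule.span S {D | D ∈ TT S ∧ ∃ q : ℤ, ⁅E, D⁆ = (q : ℂ) • D} = TT S := by
    refine le_antisymm (Submodule.span_le.2 fun D hD => hD.1) fun D hD => ?_
    have : (⨆ n : ℤ, TC S ⊓ (ad E).eigenspace (n : ℂ)) ≤ (Submodule.span S
        {D | D ∈ TT S ∧ ∃ q : ℤ, ⁅E, D⁆ = (q : ℂ) • D}).restrictScalars ℂ :=
      iSup_le fun n Y hY => Submodule.subset_span ⟨hY.1, n, End.mem_eigenspace_iff.1 hY.2⟩
    exact this (e.T D hD)
  rw [← h] at fg
  obtain ⟨s, s1, s2⟩ := (Submodule.fg_span_iff_fg_span_finset_subset _).1 fg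
  choose p hp using fun j : Fin s.card => (s1 (s.equivFin.symm j).2).2
  refine ⟨s.card, fun j => s.equivFin.symm j, p, fun j => ⟨(s1 (s.equivFin.symm j).2).1, hp j⟩, ?_⟩
  rw [← h, s2]
  exact Submodule.span_mono fun D hD => ⟨s.equivFin ⟨D, hD⟩, by simp⟩

/-- combinations with homogeneous coefficients -/
def W (S : Subalgebra ℂ K) (E : DD K) {n : ℕ} (u : Fin n → DD K) (p : Fin n → ℤ) (q : ℤ) :
    Submodule ℂ (DD K) where
  carrier := {X | ∃ g : Fin n → K, (∀ j, g j ∈ S ∧ E (g j) = ((q - p j : ℤ) : ℂ) • g j) ∧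
    X = ∑ j, g j • u j}
  add_mem' := by
    rintro _ _ ⟨g, a, rfl⟩ ⟨g', a', rfl⟩
    exact ⟨g + g', fun j => ⟨add_mem (a j).1 (a' j).1, by
      rw [Pi.add_apply, map_add, (a j).2, (a' j).2, smul_add]⟩, by
      simp only [Pi.add_apply, add_smul, Finset.sum_add_distrib]⟩
  zero_mem' := ⟨0, fun j => ⟨zero_mem _, by simp⟩, by simp⟩
  smul_mem' := by
    rintro c _ ⟨g, a, rfl⟩
    exact ⟨c • g, fun j => ⟨S.smul_mem (a j).1 c, by
      rw [Pi.smul_apply, Derivation.map_smul, (a j).2, smul_comm]⟩, by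
      simp only [Pi.smul_apply, smul_assoc, Finset.smul_sum]⟩

theorem coef (e : Ev S E) {n : ℕ} {u : Fin n → DD K} {p : Fin n → ℤ}
    (hu : ∀ j, ⁅E, u j⁆ = (p j : ℂ) • u j) (sp : TT S ≤ Submodule.span S (Set.range u))
    {X : DD K} (hX : X ∈ TT S) {q : ℤ} (hq : ⁅E, X⁆ = (q : ℂ) • X) : X ∈ W S E u p q := by
  classical
  have eg : ∀ z : ℤ, W S E u p z ≤ (ad E).eigenspace (z : ℂ) := by
    rintro z _ ⟨g, a, rfl⟩
    refine sum_mem fun j _ => End.mem_eigenspace_iff.2 ?_
    rw [ad_apply, lie_smul', hu, (a j).2, smul_comm, smul_assoc, ← add_smul]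
    congr 1
    push_cast
    ring
  have al : X ∈ ⨆ z : ℤ, W S E u p z := by
    obtain ⟨c, rfl⟩ := (Submodule.mem_span_range_iff_exists_fun S).1 (sp hX)
    refine sum_mem fun j _ => ?_
    have : (⨆ z : ℤ, SC S ⊓ (op E).eigenspace (z : ℂ)) ≤ (⨆ z : ℤ, W S E u p z).comap
        ((LinearMap.toSpanSingleton K _ (u j)).restrictScalars ℂ) := by
      refine iSup_le fun z f hf => Submodule.mem_iSup_of_mem (z + p j)
        ⟨Pi.single j f, fun i => ?_, ?_⟩
      · by_cases h : i = j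
        · rw [h, Pi.single_eq_same, add_sub_cancel_right]
          exact ⟨hf.1, End.mem_eigenspace_iff.1 hf.2⟩
        · rw [Pi.single_eq_of_ne h]
          exact ⟨zero_mem _, by simp⟩
      · rw [Finset.sum_eq_single j (fun i _ h => by rw [Pi.single_eq_of_ne h, zero_smul])
          (by simp), Pi.single_eq_same]
        rfl
    exact this (e.s (c j) (c j).2)
  rw [iSup_split_single _ q] at al
  obtain ⟨w, hw, w', hw', rfl⟩ := Submodule.mem_sup.1 al
  have h1 : w' ∈ (ad E).eigenspace (q : ℂ) := by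
    have := sub_mem (End.mem_eigenspace_iff.2 hq : w + w' ∈ (ad E).eigenspace (q : ℂ)) (eg q hw)
    rwa [add_sub_cancel_left] at this
  have h2 : (⨆ (z : ℤ) (_ : z ≠ q), W S E u p z) ≤
      ⨆ (c : ℂ) (_ : c ≠ q), (ad E).eigenspace c :=
    iSup₂_le fun z hz => le_iSup₂_of_le (z : ℂ) (fun h => hz (Int.cast_injective h)) (eg z)
  rw [Submodule.disjoint_def.1 (End.eigenspaces_iSupIndep (ad E) q) w' h1 (h2 hw'), add_zero]
  exact hw

theorem nat (e : Ev S E) {f : K} (hf : f ∈ S) {z : ℤ} (h : E f = (z : ℂ) • f) :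
    f = 0 ∨ ∃ d : ℕ, z = d := by
  by_cases h0 : f = 0
  · exact Or.inl h0
  · obtain ⟨d, hd⟩ := e.nat f hf _ h0 h
    exact Or.inr ⟨d, by exact_mod_cast hd⟩

variable {R : Type} [CommRing R] [Algebra ℂ R] {μ : R →ₐ[ℂ] PowerSeries K} {i0 : S →ₐ[ℂ] R}

theorem cf_mul (e : Ev S E) (l : HL S E μ i0) (f : S) {z : ℤ} (h : E f = (z : ℂ) • (f : K))
    (m : ℤ) (r : R) : cf μ m (i0 f * r) = f * cf μ (m - z) r := by
  rcases nat e f.2 h with h0 | ⟨d, rfl⟩
  · rw [show f = 0 from Subtype.ext h0]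
    simp [cf]
  · rw [← l.mul f d (by simpa using h), sub_add_cancel]

theorem ext (e : Ev S E) (l : HL S E μ i0) (D D' : DR R)
    (h : ∀ (f : S) (n : ℕ), E f = (n : ℂ) • (f : K) → D (i0 f) = D' (i0 f)) : D = D' := by
  refine l.uniq D D' fun f => ?_
  have : ∃ hf : (f : K) ∈ S, D (i0 ⟨f, hf⟩) = D' (i0 ⟨f, hf⟩) := by
    refine Submodule.iSup_induction _ (motive := fun y => ∃ hy : y ∈ S,
      D (i0 ⟨y, hy⟩) = D' (i0 ⟨y, hy⟩)) (e.s f f.2) (fun z y hy => ⟨hy.1, ?_⟩) ⟨zero_mem _, ?_⟩ ?_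
    · have a : E y = (z : ℂ) • y := End.mem_eigenspace_iff.1 hy.2
      rcases nat e hy.1 a with rfl | ⟨d, rfl⟩
      · exact h _ 0 (by simp)
      · exact h _ d (by simpa using a)
    · exact h _ 0 (by simp)
    · rintro y y' ⟨a, b⟩ ⟨a', b'⟩
      refine ⟨add_mem a a', ?_⟩
      rw [show (⟨y + y', add_mem a a'⟩ : S) = ⟨y, a⟩ + ⟨y', a'⟩ from rfl, map_add, map_add, map_add,
        b, b']
  exact this.2

theorem sum_app {A : Type} [CommRing A] [Algebra ℂ A] {n : ℕ} (r : Fin n → A)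
    (v : Fin n → Derivation ℂ A A) (y : A) : (∑ j, r j • v j) y = ∑ j, r j * v j y := by
  have := map_sum (Derivation.coeFnAddMonoidHom (R := ℂ) (A := A) (M := A)) (fun j => r j • v j)
    Finset.univ
  exact (congrFun this y).trans (Finset.sum_apply _ _ _)

end HGENx

open HGENx in
theorem hgen (_g : GenK) (d : S_HDC) : S_HGEN := by
  intro K ι R _ _ _ _ _ S E x a μ i0 C H L
  obtain ⟨n, u, p, hu, sp⟩ := gens C.ev C.bas.fgT
  choose u' hu' using fun j => L.ex (u j) (hu j).1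
  refine ⟨n, u, p, u', fun j => ⟨(hu j).1, (hu j).2, hu' j⟩, fun D => ?_⟩
  choose X X1 X2 X3 using d K ι R S E x a μ i0 C H L D
  choose g g1 g2 using fun q => coef C.ev (fun j => (hu j).2) sp (X1 q) (X2 q)
  choose r hr using fun j => H.surj (fun m => g (m + p j) j) fun m =>
    ⟨(g1 _ j).1, by rw [(g1 _ j).2, add_sub_cancel_right, Int.cast_natCast]⟩
  have cr : ∀ j m, cf μ m (r j) = g (m + p j) j := fun j m => by
    unfold cf
    split_ifs with h
    · rw [hr, PowerSeries.coeff_mk, Int.toNat_of_nonneg h]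
    · rcases nat C.ev (g1 (m + p j) j).1 (g1 _ j).2 with h0 | ⟨k, hk⟩
      · exact h0.symm
      · omega
  refine ⟨r, ext C.ev L _ _ fun f k hf => H.inj (PowerSeries.ext fun m => ?_)⟩
  have e1 : ∀ y, PowerSeries.coeff m (μ y) = cf μ m y := fun y => by simp [cf]
  have e2 := X3 (m - k) f k hf
  rw [add_sub_cancel] at e2
  rw [e1, ← e2, g2, sum_app, sum_app, map_sum, map_sum]
  refine Finset.sum_congr rfl fun j _ => ?_
  have e3 : E (u j f) = ((k + p j : ℤ) : ℂ) • u j f := by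
    have := congrArg (fun Y : DD K => Y f) (hu j).2
    simp only [Derivation.commutator_apply, hf, Derivation.map_smul, Derivation.smul_apply] at this
    rw [eq_add_of_sub_eq this, ← add_smul]
    congr 1
    push_cast
    ring
  rw [e1, hu' j f ⟨u j f, (hu j).1 f f.2⟩ rfl, mul_comm (r j),
    cf_mul C.ev L ⟨u j f, (hu j).1 f f.2⟩ e3, cr, mul_comm,
    show (m : ℤ) - (k + p j) + p j = m - k by ring]

end

end Pool.Agent.MP_51db15_ag.Qh

end

section
/-! PROJECT QF, row HLTP: one-forms vanish on the fields that vanish, through the completion. -/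

namespace Pool.Agent.MP_51db15_ag.Qh

namespace HLTPx

theorem fin {R : Type} [CommRing R] [Algebra ℂ R] {n : ℕ} (u : Fin n → DR R)
    (h : ∀ D : DR R, ∃ r : Fin n → R, D = ∑ j, r j • u j) : Module.Finite R (DR R) := by
  refine Module.Finite.of_surjective (Fintype.linearCombination R u) fun D => ?_
  obtain ⟨r, hr⟩ := h D
  exact ⟨r, by rw [Fintype.linearCombination_apply, ← hr]⟩

end HLTPx

theorem hltp (l : S_LTF) (o : S_HOV) : S_HLTP := by
  intro K ι R _ _ _ _ _ _ S E x a μ i0 ω hc hh hl hg hp ha hk P hP hPv Y hY hYP γ hγ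
  obtain ⟨n, u, p, u', -, hu⟩ := hg
  have := HLTPx.fin u' hu
  have := hh.noeth
  obtain ⟨Q, hQ, hQP⟩ := o K ι R S E x a μ i0 hc hh hl P hP hPv
  obtain ⟨Y', hY'⟩ := hl.ex Y hY
  have h1 : ∀ r, Y' r ∈ Q := by
    refine hh.chain Y' Q fun g => ?_
    obtain ⟨b, hb, e⟩ := hYP g g.2
    rw [hY' g b e.symm]
    exact (hQP b).2 hb
  obtain ⟨G, hG⟩ := hp γ hγ
  have h2 : ω G Y' = i0 ⟨γ Y, hγ Y hY⟩ := hG Y hY Y' ⟨γ Y, hγ Y hY⟩ hY' rfl
  have h3 : ω Y' G ∈ Q := l R ω hk Q hQ Y' G h1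
  have h4 : ω G Y' ∈ Q := by
    rw [← ha.neg_eq Y' G]
    exact Q.neg_mem h3
  rw [h2] at h4
  exact ⟨_, (hQP _).1 h4, rfl⟩

end Pool.Agent.MP_51db15_ag.Qh

end

section
/-! PROJECT QF, row HNRM: the cone of a normal germ is normal. -/

namespace Pool.Agent.MP_51db15_ag.Qh

open Module

namespace HNRMx

variable {K : Type} [Field K] [Algebra ℂ K] {S : Subalgebra ℂ K}

theorem dv {A : Type} [CommRing A] [IsDomain A] [IsIntegrallyClosed A]
    (fr : ∀ y : K, ∃ g ∈ S, ∃ h ∈ S, h ≠ 0 ∧ y = g / h) (φ : S →+* A)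
    (hφ : Function.Injective φ) (g h : S) (h0 : h ≠ 0) (hi : IsIntegral S ((g : K) / h)) :
    ∃ r, φ g = φ h * r := by
  have : IsFractionRing S K := IsFractionRing.of_field S K fun y => by
    obtain ⟨u, hu, v, hv, -, e⟩ := fr y
    exact ⟨⟨u, hu⟩, ⟨v, hv⟩, e⟩
  have j : Function.Injective ((algebraMap A (FractionRing A)).comp φ) :=
    (IsFractionRing.injective A (FractionRing A)).comp hφ
  have e : ∀ z : S, IsFractionRing.lift (K := K) j (z : K) = algebraMap A _ (φ z) :=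
    fun z => IsFractionRing.lift_algebraMap j z
  obtain ⟨r, hr⟩ := IsIntegrallyClosed.algebraMap_eq_of_integral
    (hi.map_of_comp_eq φ (IsFractionRing.lift (K := K) j) (RingHom.ext fun z => (e z).symm))
  refine ⟨r, IsFractionRing.injective A (FractionRing A) ?_⟩
  rw [map_mul, hr, map_div₀, e, e, mul_div_cancel₀]
  exact fun hz => h0 (j (hz.trans (map_zero _).symm))

theorem ind {E : DD K} (hE : Ev S E) (Q : S → Prop) (h0 : Q 0)
    (ha : ∀ g g', Q g → Q g' → Q (g + g'))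
    (hh : ∀ (g : S) (n : ℕ), E g = (n : ℂ) • (g : K) → Q g) (g : S) : Q g := by
  have h := Submodule.iSup_induction _ (motive := fun y : K => ∃ hy : y ∈ S, Q ⟨y, hy⟩)
    (hE.s g g.2) (fun n y hy => ⟨hy.1, by
      by_cases hy0 : y = 0
      · subst hy0
        exact h0
      · have h3 : E y = (n : ℂ) • y := End.mem_eigenspace_iff.1 hy.2
        obtain ⟨m, hm⟩ := hE.nat y hy.1 n hy0 h3
        exact hh ⟨y, hy.1⟩ m (hm ▸ h3)⟩) ⟨zero_mem S, h0⟩
    fun y y' ⟨h1, h2⟩ ⟨h3, h4⟩ => ⟨add_mem h1 h3, ha _ _ h2 h4⟩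
  exact h.2

end HNRMx

open HNRMx in
theorem hnrm (s : S_SCA) : S_HNRM := by
  intro K ι R _ _ _ _ _ _ _ S E x a μ i0 C H L y hy
  obtain ⟨ν, hν⟩ := s K ι S E x a C.cx C.bas C.ev
  have e1 : ∀ z : S, μ (i0 z) = (ν z : PowerSeries K) :=
    ind C.ev _ (by simp) (fun g g' h h' => by rw [map_add, map_add, map_add, h, h',
      Polynomial.coe_add]) fun g n h => by rw [H.emb g n h, hν g n h, Polynomial.coe_monomial]
  have e2 : ∀ z : S, (ν z).eval 1 = z :=
    ind C.ev _ (by simp) (fun g g' h h' => by rw [map_add, Polynomial.eval_add, h, h']; rfl)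
      fun g n h => by simp [hν g n h]
  have j : Function.Injective ν := fun z z' h => Subtype.ext (by rw [← e2, h, e2])
  obtain ⟨g, hg, h, hh, h0, rfl⟩ := C.cx.frac y
  have h0' : (⟨h, hh⟩ : S) ≠ 0 := fun hz => h0 (congrArg Subtype.val hz)
  obtain ⟨r, hr⟩ := dv C.cx.frac (i0 : S →+* R) L.inj ⟨g, hg⟩ ⟨h, hh⟩ h0' hy
  obtain ⟨f, hf⟩ := dv C.cx.frac (ν : S →+* Polynomial K) j ⟨g, hg⟩ ⟨h, hh⟩ h0' hy
  rw [RingHom.coe_coe] at hr hf
  have e3 : μ r = (f : PowerSeries K) := by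
    have h1 := congrArg μ hr
    rw [map_mul, e1, e1, hf, Polynomial.coe_mul] at h1
    refine (mul_left_cancel₀ (fun hz => h0' (j ?_)) h1).symm
    rw [map_zero]
    exact Polynomial.coe_eq_zero_iff.1 hz
  have e4 : g / h = f.eval 1 := by
    have h1 := congrArg (Polynomial.eval 1) hf
    rw [Polynomial.eval_mul, e2, e2] at h1
    exact (div_eq_iff h0).2 (h1.trans (mul_comm _ _))
  rw [e4, Polynomial.eval_eq_sum_range]
  refine sum_mem fun n _ => ?_
  rw [one_pow, mul_one, ← Polynomial.coeff_coe, ← e3]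
  exact (H.mem r n).1

end Pool.Agent.MP_51db15_ag.Qh

end

section
/-! PROJECT QF, row HREG: the components of the form are regular along discrete valuations. -/

namespace Pool.Agent.MP_51db15_ag.Qh

open Hy.D3 PowerSeries

namespace HREGx

variable {K : Type} [Field K] [Algebra ℂ K] {v : DV K} {hc : v.Const}

/-- the content argument -/
theorem dvd {g q p : (alg v hc)⟦X⟧} {s : alg v hc} (h0 : s ≠ 0) (hq : red (mx v hc) q ≠ 0)
    (e : g * q = C s * p) (k : ℕ) : s ∣ coeff k g := by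
  obtain ⟨n, hn⟩ := content v hc g
  obtain ⟨g', h1, h2⟩ := exists_prim (mx v hc) hn
  refine dvd_trans ?_ (hn k)
  generalize coeff n g = c at h2
  rcases tot v hc s c with h | ⟨u, rfl⟩
  · exact h
  by_cases hu : u ∈ mx v hc
  · rw [h2, map_mul, mul_assoc, mul_assoc] at e
    have e2 := congrArg (red (mx v hc)) (mul_left_cancel₀ (fun h => left_ne_zero_of_mul h0
      (C_injective (h.trans (map_zero _).symm))) e)
    rw [map_mul, map_mul, red, map_C, Ideal.Quotient.eq_zero_iff_mem.2 hu, map_zero, zero_mul] at e2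
    exact absurd e2 (mul_ne_zero h1 hq)
  · obtain ⟨a, b⟩ := DV.unit_of_not_ge u.2 hu
    simpa using mul_dvd_mul_left c (dvd_of_le v hc (e := 1) a (b ▸ DV.ge_one))

variable {R : Type} [CommRing R] [Algebra ℂ R] {S : Subalgebra ℂ K} {E : DD K}
  {μ : R →ₐ[ℂ] K⟦X⟧} {i0 : S →ₐ[ℂ] R}

theorem exists_mu (h : ∀ r n, v.Ge 0 (coeff n (μ r))) : ∃ ν : R →+* (alg v hc)⟦X⟧,
    ∀ r n, (coeff n (ν r) : alg v hc) = coeff n (μ r) := by
  let f : R → (alg v hc)⟦X⟧ := fun r => mk fun n => ⟨coeff n (μ r), h r n⟩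
  have e : ∀ r, map (alg v hc).val.toRingHom (f r) = μ r := fun r => by ext n; simp [f]
  have i := map_injective (alg v hc).val.toRingHom Subtype.val_injective
  exact ⟨{ toFun := f
           map_one' := i (by simp only [e, map_one])
           map_mul' := fun a b => i (by simp only [e, map_mul])
           map_zero' := i (by simp only [e, map_zero])
           map_add' := fun a b => i (by simp only [e, map_add]) }, fun r n => by simp [f]⟩

theorem coeff_sh {g : (alg v hc)⟦X⟧} {c : ℤ → K} (h : ∀ n : ℕ, (coeff n g : alg v hc) = c n)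
    (h0 : ∀ n < 0, c n = 0) (a m : ℕ) : (coeff m (X ^ a * g) : alg v hc) = c (m - a) := by
  rw [coeff_X_pow_mul']
  split_ifs with k
  · rw [h, Nat.cast_sub k]
  · exact (h0 _ (by omega)).symm

theorem cf_nat (n : ℕ) (r : R) : cf μ n r = coeff n (μ r) := if_pos (Int.natCast_nonneg n)

theorem cf_neg (r : R) (n : ℤ) (h : n < 0) : cf μ n r = 0 := if_neg h.not_ge

variable [IsDomain R]

variable (S E i0) in
/-- a multiple of a field is a finite sum of homogeneous regular fields -/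
structure Dec (Z : DD K) (s : S) (A : Finset ℤ) (U : ℤ → DD K) (U' : ℤ → DR R)
    (U'' : ℤ → DR (FractionRing R)) : Prop where
  ne : (s : K) ≠ 0
  sum : (s : K) • Z = ∑ p ∈ A, U p
  tt : ∀ p, U p ∈ TT S
  eig : ∀ p : ℤ, ⁅E, U p⁆ = (p : ℂ) • U p
  lft : ∀ p, Lft i0 (U p) (U' p)
  ext : ∀ p r, U'' p (algebraMap R _ r) = algebraMap R _ (U' p r)

theorem exists_dec {ι : Type} {x : ι → K} {a : ι → ℕ} (hC : Cone S E x a) (hL : HL S E μ i0)
    (Z : DD K) : ∃ s A U U' U'', Dec S E i0 Z s A U U' U'' := by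
  obtain ⟨s, s1, s2, s3⟩ := hC.bas.den Z
  obtain ⟨A, hA⟩ := Submodule.mem_iSup_iff_exists_finset.1 (hC.ev.T _ s3)
  obtain ⟨U, hU⟩ := (Submodule.mem_iSup_finset_iff_exists_sum _ _).1 hA
  choose U' h1 using fun p => hL.ex (U p) (U p).2.1
  have i := IsFractionRing.injective R (FractionRing R)
  choose U'' h2 using fun p => Hy.lift R _ (IsScalarTower.toAlgHom ℂ R (FractionRing R))
    ((IsScalarTower.toAlgHom ℂ R (FractionRing R)).toLinearMap ∘ₗ (U' p).toLinearMap)
    (fun z => let ⟨a, b, _, e⟩ := IsFractionRing.div_surjective (A := R) z; ⟨a, b, e.symm⟩)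
    (fun a b => by simp) fun a ha => by simp [(map_eq_zero_iff _ i).1 ha]
  exact ⟨⟨s, s1⟩, A, fun p => U p, U', U'', s2, hU.symm, fun p => (U p).2.1,
    fun p => Module.End.mem_eigenspace_iff.1 (U p).2.2, h1, h2⟩

theorem key (hL : HL S E μ i0) {Z s A U U' U''} (D : Dec S E i0 Z s A U U' U'')
    (hZ : ∀ z, v.Ge 0 z → v.Ge 0 (Z z)) (hs : v.Ge 0 (s : K)) {ν : R →+* (alg v hc)⟦X⟧}
    (hν : ∀ r n, (coeff n (ν r) : alg v hc) = coeff n (μ r))
    {Φ : FractionRing R →+* FractionRing (alg v hc)⟦X⟧}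
    (hΦ : ∀ r, Φ (algebraMap R _ r) = algebraMap _ _ (ν r)) {M : ℕ} (hM : ∀ p ∈ A, p ≤ M)
    {y : FractionRing R} (hy : Φ y ∈ W (mx v hc) (tot v hc) (content v hc)) :
    ∃ w ∈ W (mx v hc) (tot v hc) (content v hc),
      ∑ p ∈ A, algebraMap _ _ (X ^ (M - p).toNat : (alg v hc)⟦X⟧) * Φ (U'' p y) =
        algebraMap _ _ (C (⟨s, hs⟩ : alg v hc) * X ^ M) * w := by
  have e : ∀ r, ∑ p ∈ A, X ^ (M - p).toNat * ν (U' p r) =
      C (⟨s, hs⟩ : alg v hc) * X ^ M * cw (res v hc Z hZ) (ν r) := fun r => by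
    ext m
    rw [mul_assoc, coeff_C_mul, map_sum, AddSubmonoidClass.coe_finsetSum, MulMemClass.coe_mul,
      coeff_sh (c := fun n => Z (cf μ n r))
        (fun n => by rw [coeff_cw, cf_nat, ← hν]; rfl) fun n h => by rw [cf_neg r n h, map_zero]]
    refine (Finset.sum_congr rfl fun p hp => ?_).trans
      ((map_sum (dd _) _ _).symm.trans (congrArg (dd _) D.sum.symm))
    rw [dd_apply]
    rw [coeff_sh (c := fun n => cf μ n (U' p r)) (fun n => by rw [hν, cf_nat]) (cf_neg _),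
      ← hL.sh _ (D.tt p) p _ (D.eig p) (D.lft p), Int.toNat_of_nonneg (sub_nonneg.2 (hM p hp))]
    congr 1
    ring
  obtain ⟨a, b, hb, rfl⟩ := IsFractionRing.div_surjective (A := R) y
  rw [map_div₀, hΦ, hΦ] at hy
  refine ⟨_, der_mem (leib_cw (leib_res v hc Z hZ)) (hΦ b ▸ (map_ne_zero Φ).2
    (IsFractionRing.to_map_ne_zero_of_mem_nonZeroDivisors hb)) hy, ?_⟩
  have ea := congrArg (algebraMap _ (FractionRing (alg v hc)⟦X⟧)) (e a)
  have eb := congrArg (algebraMap _ (FractionRing (alg v hc)⟦X⟧)) (e b)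
  rw [map_sum, map_mul] at ea eb
  rw [mul_div_assoc', mul_sub, ← mul_assoc, mul_left_comm, ← ea, ← eb, Finset.sum_mul,
    Finset.mul_sum, ← Finset.sum_sub_distrib, Finset.sum_div]
  refine Finset.sum_congr rfl fun p _ => ?_
  simp only [Derivation.leibniz_div, D.ext, smul_eq_mul, map_mul, map_sub, map_pow, map_inv₀, hΦ]
  ring

end HREGx

open HREGx in
theorem hreg : S_HREG := by
  intro K ι R _ _ _ _ _ _ S E x a μ i0 ω η hC hH hL hη hK n v Y Z hS hY hZ
  have hc : v.Const := fun c => hS _ (S.algebraMap_mem c)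
  obtain ⟨ν, hν⟩ := exists_mu (hc := hc) fun r n => hS _ (hH.mem r n).1
  have i := IsFractionRing.injective (alg v hc)⟦X⟧ (FractionRing (alg v hc)⟦X⟧)
  have j : Function.Injective ν := fun r r' h => hH.inj (by ext k; rw [← hν, ← hν, h])
  obtain ⟨Φ, hΦ⟩ : ∃ Φ : FractionRing R →+* FractionRing (alg v hc)⟦X⟧,
      ∀ r, Φ (algebraMap R _ r) = algebraMap _ _ (ν r) :=
    ⟨IsFractionRing.lift (g := (algebraMap _ _).comp ν) (i.comp j),
      IsFractionRing.lift_algebraMap _⟩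
  obtain ⟨N, c, y, z, h1, h2⟩ := hK ((W (mx v hc) (tot v hc) (content v hc)).comap Φ) fun r =>
    ⟨ν r, 1, by simp, by rw [map_one, mul_one, hΦ]⟩
  obtain ⟨s, A, U, U', U'', D⟩ := exists_dec hC hL Y
  obtain ⟨t, B, T, T', T'', D'⟩ := exists_dec hC hL Z
  obtain ⟨M, hM⟩ : ∃ M : ℕ, ∀ p ∈ insert (-n) (A ∪ B), p ≤ M :=
    ⟨(insert (-n) (A ∪ B)).sup Int.toNat, fun p hp =>
      Int.toNat_le.1 (Finset.le_sup (f := Int.toNat) hp)⟩
  have m0 := hM _ (Finset.mem_insert_self _ _)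
  have m1 := fun p hp => hM p (Finset.mem_insert_of_mem (Finset.mem_union_left _ hp))
  have m2 := fun p hp => hM p (Finset.mem_insert_of_mem (Finset.mem_union_right _ hp))
  choose w1 a1 b1 using fun k => HREGx.key hL D hY (hS _ s.2) hν hΦ m1 (h1 k).2.1
  choose w2 a2 b2 using fun k => HREGx.key hL D hY (hS _ s.2) hν hΦ m1 (h1 k).2.2
  choose w3 a3 b3 using fun k => HREGx.key hL D' hZ (hS _ t.2) hν hΦ m2 (h1 k).2.1
  choose w4 a4 b4 using fun k => HREGx.key hL D' hZ (hS _ t.2) hν hΦ m2 (h1 k).2.2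
  obtain ⟨p', q', hq, e⟩ : ∑ k, Φ (c k) * (w1 k * w4 k - w2 k * w3 k) ∈
      W (mx v hc) (tot v hc) (content v hc) := sum_mem fun k _ =>
    mul_mem (h1 k).1 (sub_mem (mul_mem (a1 k) (a4 k)) (mul_mem (a2 k) (a3 k)))
  obtain ⟨u, hu⟩ := HREGx.dvd (g := ∑ p ∈ A, ∑ q ∈ B,
      X ^ ((M - p).toNat + (M - q).toNat) * ν (ω (U' p) (T' q)))
    (s := ⟨s, hS _ s.2⟩ * ⟨t, hS _ t.2⟩) (p := X ^ M * X ^ M * p')
    (fun h => mul_ne_zero D.ne D'.ne (congrArg Subtype.val h)) hq (i (by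
      have : algebraMap _ (FractionRing (alg v hc)⟦X⟧) (∑ p ∈ A, ∑ q ∈ B,
          X ^ ((M - p).toNat + (M - q).toNat) * ν (ω (U' p) (T' q))) = ∑ k, Φ (c k) *
            ((∑ p ∈ A, algebraMap _ _ (X ^ (M - p).toNat : (alg v hc)⟦X⟧) * Φ (U'' p (y k))) *
              (∑ p ∈ B, algebraMap _ _ (X ^ (M - p).toNat : (alg v hc)⟦X⟧) * Φ (T'' p (z k))) -
            (∑ p ∈ A, algebraMap _ _ (X ^ (M - p).toNat : (alg v hc)⟦X⟧) * Φ (U'' p (z k))) *
              ∑ p ∈ B, algebraMap _ _ (X ^ (M - p).toNat : (alg v hc)⟦X⟧) * Φ (T'' p (y k))) := by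
        simp only [Finset.sum_mul_sum, ← Finset.sum_sub_distrib]
        simp only [map_sum, map_mul, ← hΦ, h2 _ _ _ _ (D.ext _) (D'.ext _), pow_add, map_sub,
          Finset.mul_sum]
        rw [Finset.sum_comm (s := Finset.univ)]
        refine Finset.sum_congr rfl fun p _ => ?_
        rw [Finset.sum_comm (s := Finset.univ)]
        exact Finset.sum_congr rfl fun q _ => Finset.sum_congr rfl fun k _ => by ring
      rw [map_mul, this]
      simp only [b1, b2, b3, b4]
      simp only [map_mul, ← e, Finset.sum_mul, Finset.mul_sum]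
      exact Finset.sum_congr rfl fun k _ => by ring)) (n + 2 * M).toNat
  have hu := congrArg Subtype.val hu
  have e2 : (s : K) * t * η n Y Z = s * t * u := by
    refine Eq.trans ?_ hu
    have := congrArg₂ (fun a b => η n a b) D.sum D'.sum
    simp only [map_smul, map_sum, LinearMap.smul_apply, LinearMap.sum_apply, smul_eq_mul] at this
    rw [mul_comm (s : K), mul_assoc, this, Finset.sum_comm]
    simp only [map_sum, AddSubmonoidClass.coe_finsetSum]
    refine Finset.sum_congr rfl fun p hp => Finset.sum_congr rfl fun q hq => ?_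
    rw [coeff_sh (c := fun n => cf μ n (ω (U' p) (T' q))) (fun n => by rw [hν, cf_nat]) (cf_neg _),
      hη n p q _ (D.tt p) _ (D'.tt q) _ _ (D.eig p) (D'.eig q) (D.lft p) (D'.lft q)]
    have := m1 p hp
    have := m2 q hq
    congr 1
    omega
  rw [mul_left_cancel₀ (mul_ne_zero D.ne D'.ne) e2]
  exact u.2

end Pool.Agent.MP_51db15_ag.Qh

end

section
/-! PROJECT QH, row IDEM: a complete family of primitive idempotents. -/

namespace Pool.Agent.MP_51db15_ag.Qh

open Module Polynomial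

namespace IDEMx

variable {A : Type} [Ring A] [Algebra ℂ A] [FiniteDimensional ℂ A]

theorem eig {e z : A} (he : e * e = e) (h0 : e ≠ 0) (hz : e * z = z) :
    ∃ (c : ℂ) (v : A), v ≠ 0 ∧ e * v = v ∧ (z - c • e) * v = 0 := by
  let P : Submodule ℂ A := LinearMap.eqLocus (LinearMap.mulLeft ℂ e) LinearMap.id
  have hP : ∀ v, v ∈ P ↔ e * v = v := fun v => Iff.rfl
  have : Nontrivial P := ⟨⟨e, (hP e).2 he⟩, 0, fun h => h0 (congrArg Subtype.val h)⟩
  obtain ⟨c, hc⟩ := End.exists_eigenvalue (K := ℂ) (V := P) ((LinearMap.mulLeft ℂ z).restrict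
    (p := P) (q := P) fun v _ => (hP _).2 (by rw [LinearMap.mulLeft_apply, ← mul_assoc, hz]))
  obtain ⟨v, hv⟩ := hc.exists_hasEigenvector
  have h1 : z * v.1 = c • v.1 := congrArg Subtype.val hv.apply_eq_smul
  refine ⟨c, v.1, fun h => hv.2 (Subtype.ext h), (hP _).1 v.2, ?_⟩
  rw [sub_mul, smul_mul_assoc, (hP _).1 v.2, h1, sub_self]

theorem fit (w : A) : ∃ (n : ℕ) (y f : A), f = y * w ∧ (∃ y', f = w * y') ∧ f * f = f ∧
    w ^ n * f = w ^ n := by
  have hm : minpoly ℂ w ≠ 0 := minpoly.ne_zero (Algebra.IsIntegral.isIntegral w)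
  obtain ⟨n, q, h1, h2⟩ : ∃ n q, minpoly ℂ w = X ^ n * q ∧ ¬ X ∣ q := by
    obtain ⟨q, a, b⟩ := exists_eq_pow_rootMultiplicity_mul_and_not_dvd _ hm (0 : ℂ)
    rw [C_0, sub_zero] at a b
    exact ⟨_, q, a, b⟩
  obtain ⟨a, b, h⟩ : IsCoprime (X ^ (n + 1)) q :=
    ((prime_X.irreducible.coprime_iff_not_dvd).2 h2).pow_left
  have z : ∀ r s t : ℂ[X], r = s + t * minpoly ℂ w → aeval w r = aeval w s := by
    rintro _ s t rfl
    rw [map_add, map_mul, minpoly.aeval, mul_zero, add_zero]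
  refine ⟨n, aeval w (a * X ^ n), aeval w (a * X ^ (n + 1)), ?_, ⟨aeval w (a * X ^ n), ?_⟩, ?_, ?_⟩
  · rw [pow_succ, ← mul_assoc, map_mul _ _ X, aeval_X]
  · rw [show a * X ^ (n + 1) = X * (a * X ^ n) by ring, map_mul _ X, aeval_X]
  · rw [← map_mul]
    exact z _ _ (-(a * b * X)) (by rw [h1]; linear_combination a * X ^ (n + 1) * h)
  · rw [← aeval_X_pow (R := ℂ), ← map_mul]
    exact z _ _ (-b) (by rw [h1]; linear_combination X ^ n * h)

theorem split {e : A} (he : e * e = e) (h0 : e ≠ 0) (b : A)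
    (h : ¬ ∃ c : ℂ, IsNilpotent (e * b * e - c • e)) :
    ∃ f : A, f * f = f ∧ e * f = f ∧ f * e = f ∧ f ≠ 0 ∧ f ≠ e := by
  have hz : e * (e * b * e) = e * b * e := by rw [← mul_assoc, ← mul_assoc, he]
  obtain ⟨c, v, v0, v1, v2⟩ := eig he h0 hz
  obtain ⟨n, y, f, f1, ⟨y', f2⟩, f3, f4⟩ := fit (e * b * e - c • e)
  refine ⟨f, f3, ?_, ?_, fun k => h ⟨c, n, ?_⟩, fun k => v0 ?_⟩
  · rw [f2, ← mul_assoc, mul_sub, hz, mul_smul_comm, he]
  · rw [f1, mul_assoc, sub_mul, smul_mul_assoc, mul_assoc _ e e, he]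
  · rw [← f4, k, mul_zero]
  · rw [← v1, ← k, f1, mul_assoc, v2, mul_zero]

/-- families with `n` members -/
def Fm (A : Type) [Ring A] (n : ℕ) : Prop :=
  ∃ (κ : Type) (_ : Fintype κ) (_ : DecidableEq κ) (e : κ → A), Fintype.card κ = n ∧
    (∀ i j, e i * e j = if i = j then e i else 0) ∧ ∑ i, e i = 1 ∧ ∀ i, e i ≠ 0

theorem Fm.le {n : ℕ} (h : Fm A n) : n ≤ finrank ℂ A := by
  obtain ⟨κ, _, _, e, rfl, h1, -, h3⟩ := h
  refine (Fintype.linearIndependent_iff.2 fun g hg j => ?_ : LinearIndependent ℂ e).fintype_card_le_finrank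
  have := congrArg (e j * ·) hg
  simp only [Finset.mul_sum, mul_smul_comm, h1, mul_zero, smul_ite, smul_zero, Finset.sum_ite_eq,
    Finset.mem_univ, if_true] at this
  exact (smul_eq_zero.1 this).resolve_right (h3 j)

end IDEMx

open IDEMx in
theorem idem : S_IDEM := by
  intro A _ _ _
  classical
  obtain ⟨m, hm⟩ : ∃ m, Fm A m := by
    rcases subsingleton_or_nontrivial A with h | h
    · exact ⟨0, Empty, inferInstance, inferInstance, Empty.elim, rfl, fun i => i.elim,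
        Subsingleton.elim _ _, fun i => i.elim⟩
    · exact ⟨1, Unit, inferInstance, inferInstance, fun _ => 1, rfl, by simp, by simp, by simp⟩
  obtain ⟨κ, _, _, e, hc, h1, h2, h3⟩ := Nat.findGreatest_spec (P := Fm A) hm.le hm
  refine ⟨κ, inferInstance, inferInstance, e, h1, h2, h3, fun i b => ?_⟩
  by_contra h
  obtain ⟨f, f1, f2, f3, f4, f5⟩ := split (by simpa using h1 i i) (h3 i) b h
  have l : ∀ j, e j * f = if j = i then f else 0 := fun j => by
    conv_lhs => rw [← f2, ← mul_assoc, h1]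
    split_ifs with k
    · rw [k, f2]
    · exact zero_mul _
  have r : ∀ j, f * e j = if j = i then f else 0 := fun j => by
    conv_lhs => rw [← f3, mul_assoc, h1]
    by_cases k : j = i
    · rw [k, if_pos rfl, if_pos rfl, f3]
    · rw [if_neg k, if_neg (Ne.symm k), mul_zero]
  have hF : Fm A (Nat.findGreatest (Fm A) (finrank ℂ A) + 1) := by
    refine ⟨Option κ, inferInstance, inferInstance,
      fun o => o.elim f fun j => e j - if j = i then f else 0, by simp [hc], ?_, ?_, ?_⟩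
    · rintro (_ | j) (_ | k)
      · simp [f1]
      · by_cases a : k = i <;> simp [mul_sub, r, a, f1]
      · by_cases a : j = i <;> simp [sub_mul, l, a, f1]
      · simp only [Option.elim, Option.some.injEq, mul_sub, sub_mul, mul_ite, ite_mul, l, r, f1,
          h1, mul_zero, zero_mul]
        by_cases a'' : j = k
        · subst a''
          by_cases a : j = i <;> simp [a]
        · by_cases a : j = i
          · subst a
            simp [a'', Ne.symm a'']
          · simp [a, a'']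
    · simp [Fintype.sum_option, Finset.sum_sub_distrib, h2]
    · rintro (_ | j)
      · exact f4
      · by_cases a : j = i
        · simpa [a, sub_eq_zero] using f5.symm
        · simpa [a] using h3 j
  exact Nat.findGreatest_is_greatest (Nat.lt_succ_self _) hF.le hF

end Pool.Agent.MP_51db15_ag.Qh

end

section
/-! The cone of a weighted homogeneous prime ideal in its function field. -/

namespace Pool.Agent.MP_51db15_ag.Qh

open MvPolynomial

noncomputable section

namespace INIx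

variable {ι : Type} [Fintype ι] [DecidableEq ι]

/-- the Euler field on polynomials -/
def eu (a : ι → ℕ) : Derivation ℂ (MvPolynomial ι ℂ) (MvPolynomial ι ℂ) :=
  ∑ i, (a i • X i : MvPolynomial ι ℂ) • pderiv i

theorem eu_apply (a : ι → ℕ) (g : MvPolynomial ι ℂ) :
    eu a g = ∑ i, a i • (X i * pderiv i g) := by
  have h := map_sum (Derivation.coeFnAddMonoidHom (R := ℂ) (A := MvPolynomial ι ℂ)
    (M := MvPolynomial ι ℂ)) (fun i => (a i • X i : MvPolynomial ι ℂ) • pderiv i) Finset.univ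
  refine (congrFun h g).trans ?_
  rw [Finset.sum_apply]
  exact Finset.sum_congr rfl fun i _ => smul_mul_assoc _ _ _

theorem eu_X (a : ι → ℕ) (i : ι) : eu a (X i) = a i • X i := by
  rw [eu_apply, (isWeightedHomogeneous_X ℂ a i).sum_weight_X_mul_pderiv]

theorem eu_mem (a : ι → ℕ) (J : Ideal (MvPolynomial ι ℂ))
    (h : ∀ g ∈ J, ∀ n, weightedHomogeneousComponent a n g ∈ J) (g : MvPolynomial ι ℂ)
    (hg : g ∈ J) : eu a g ∈ J := by
  rw [← sum_weightedHomogeneousComponent a g,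
    finsum_eq_sum _ (weightedHomogeneousComponent_finsupp g), map_sum]
  refine J.sum_mem fun n _ => ?_
  rw [eu_apply, (weightedHomogeneousComponent_isWeightedHomogeneous n g).sum_weight_X_mul_pderiv]
  exact nsmul_mem (h g hg n) n

end INIx

open INIx in
theorem ini : S_INI := by
  intro ι _ _ a J _ hn h
  obtain ⟨K, _, _, φ, hk, hfr⟩ := Nc.D4.exists_field J ((Ideal.Quotient.isDomain_iff_prime J).1 ‹_›)
  obtain ⟨E, hE⟩ := Hy.lift _ K φ (φ.toLinearMap ∘ₗ (eu a).toLinearMap) hfr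
    (fun p q => by
      show φ (eu a (p * q)) = φ p * φ (eu a q) + φ q * φ (eu a p)
      rw [Derivation.leibniz, smul_eq_mul, smul_eq_mul, map_add, map_mul, map_mul])
    (fun p hp => (hk _).2 (eu_mem a J h p ((hk p).1 hp)))
  have hs : Function.Surjective φ.rangeRestrict := φ.rangeRestrict_surjective
  have hf : ∀ y : K, ∃ g ∈ φ.range, ∃ h ∈ φ.range, h ≠ 0 ∧ y = g / h := fun y => by
    obtain ⟨p, q, e⟩ := hfr y
    by_cases hb : φ q = 0
    · exact ⟨0, zero_mem _, 1, one_mem _, one_ne_zero, by rw [e, hb]; simp⟩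
    · exact ⟨_, ⟨p, rfl⟩, _, ⟨q, rfl⟩, hb, e⟩
  have hF' : IsFractionRing φ.range K := IsFractionRing.of_field _ K fun y => by
    obtain ⟨p, hp, q, hq, -, e⟩ := hf y
    exact ⟨⟨p, hp⟩, ⟨q, hq⟩, e⟩
  have hk' : ∀ g, φ.rangeRestrict g = 0 ↔ g ∈ J := fun g => Subtype.ext_iff.trans (hk g)
  have hI : IsIntegrallyClosed φ.range := IsIntegrallyClosed.of_equiv
    ((Ideal.quotEquivOfEq (Ideal.ext fun g => (hk' g).symm)).trans
      (Ideal.quotientKerAlgEquivOfSurjective hs).toRingEquiv)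
  refine ⟨K, inferInstance, inferInstance, φ, E, hk, ⟨?_, hf, fun i => ?_⟩, fun y hy => ?_, ?_⟩
  · rw [Algebra.adjoin_range_eq_range_aeval]
    congr 1
    exact (aeval_unique φ).symm
  · rw [hE]
    show φ (eu a (X i)) = _
    rw [eu_X, map_nsmul, Nat.cast_smul_eq_nsmul]
  · obtain ⟨z, rfl⟩ := (isIntegrallyClosed_iff K).1 hI hy
    exact z.2
  · unfold vx
    congr 1
    ext g
    exact exists_congr fun i => ⟨fun e => Subtype.ext e.symm, fun e => e ▸ rfl⟩

end

end Pool.Agent.MP_51db15_ag.Qh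

end

section
/-! The cone of a weighted homogeneous prime ideal in its function field, without normality. -/

namespace Pool.Agent.MP_51db15_ag.Qh

open MvPolynomial

noncomputable section

open INIx in
theorem ini2 : S_INI2 := by
  intro ι _ _ a J hJ h
  obtain ⟨K, _, _, φ, hk, hfr⟩ := Nc.D4.exists_field J hJ
  obtain ⟨E, hE⟩ := Hy.lift _ K φ (φ.toLinearMap ∘ₗ (eu a).toLinearMap) hfr
    (fun p q => by
      show φ (eu a (p * q)) = φ p * φ (eu a q) + φ q * φ (eu a p)
      rw [Derivation.leibniz, smul_eq_mul, smul_eq_mul, map_add, map_mul, map_mul])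
    (fun p hp => (hk _).2 (eu_mem a J h p ((hk p).1 hp)))
  have hf : ∀ y : K, ∃ g ∈ φ.range, ∃ h ∈ φ.range, h ≠ 0 ∧ y = g / h := fun y => by
    obtain ⟨p, q, e⟩ := hfr y
    by_cases hb : φ q = 0
    · exact ⟨0, zero_mem _, 1, one_mem _, one_ne_zero, by rw [e, hb]; simp⟩
    · exact ⟨_, ⟨p, rfl⟩, _, ⟨q, rfl⟩, hb, e⟩
  refine ⟨K, inferInstance, inferInstance, φ, E, hk, ⟨?_, hf, fun i => ?_⟩, ?_⟩
  · rw [Algebra.adjoin_range_eq_range_aeval]
    congr 1
    exact (aeval_unique φ).symm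
  · rw [hE]
    show φ (eu a (X i)) = _
    rw [eu_X, map_nsmul, Nat.cast_smul_eq_nsmul]
  · unfold vx
    congr 1
    ext g
    exact exists_congr fun i => ⟨fun e => Subtype.ext e.symm, fun e => e ▸ rfl⟩

end

end Pool.Agent.MP_51db15_ag.Qh

end

section
/-! PROJECT QH, row JD3: the semisimple part acts on forms through the weights. -/

namespace Pool.Agent.MP_51db15_ag.Qh

open Module

namespace JD3x

noncomputable section

variable {K ι : Type} [Field K] [Algebra ℂ K] {S : Subalgebra ℂ K} {E Y t : DD K} {x : ι → K}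
  {a : ι → ℕ} {l : ℂ →+ ℂ}

/-- evaluation of a field at a function -/
def ev : DD K →ₗ[ℂ] K →ₗ[ℂ] K where
  toFun := op
  map_add' _ _ := rfl
  map_smul' _ _ := rfl

theorem fld (g : GenK) (c : Cone S E x a) (hY : Y ∈ TT S) (h0 : ⁅E, Y⁆ = 0) (j : Jor S Y t l)
    {D : DD K} (hD : D ∈ TT S) {ν : ℂ} (h : D ∈ (ad Y).maxGenEigenspace ν) :
    ⁅t, D⁆ = l ν • D := by
  refine c.bas.ext _ _ fun i => ?_
  refine Submodule.iSup_induction _ (motive := fun z => ⁅t, D⁆ z = (l ν • D) z)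
    (g.joint K (op E) (op Y) (SC S) c.ev.s c.vtx.fd hY (fun v => ?_) _ (c.bas.mem i))
    (fun p z hz => ?_) (by simp) fun y z h1 h2 => by rw [map_add, map_add, h1, h2]
  · have := congrArg (fun X : DD K => X v) h0
    simp only [Derivation.commutator_apply, Derivation.zero_apply] at this
    exact sub_eq_zero.1 this
  · have h1 := g.bil _ _ _ (ad Y) (op Y) (op Y) ev ν p.2 D z (fun u v => by
      change Y (u v) = ⁅Y, u⁆ v + u (Y v)
      rw [Derivation.commutator_apply, sub_add_cancel]) h hz.2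
    have h2 : t (D z) = l (ν + p.2) • D z := j.2 _ (hD z hz.1.1) _ h1
    rw [Derivation.commutator_apply, h2, j.2 z hz.1.1 _ hz.2, Derivation.map_smul, map_add,
      add_smul, add_sub_cancel_right]
    rfl

theorem spn (g : GenK) (c : Cone S E x a) (hY : Y ∈ TT S) (h0 : ⁅E, Y⁆ = 0)
    {W : Type} [AddCommGroup W] [Module K W] (f : DD K →ₗ[K] W)
    (h : ∀ D ∈ TT S, ∀ ν, D ∈ (ad Y).maxGenEigenspace ν → f D = 0) : f = 0 := by
  have h1 : ∀ D ∈ TT S, f D = 0 := fun D hD =>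
    Submodule.iSup_induction _ (motive := fun z => f z = 0)
      (g.joint _ (ad E) (ad Y) (TC S) c.ev.T c.evf.T (fun v hv => lie_mem hY hv) (fun v => by
        rw [ad_apply, ad_apply, ad_apply, ad_apply, leibniz_lie, h0, zero_lie, zero_add]) D hD)
      (fun p z hz => h z hz.1.1 _ hz.2) (map_zero f) fun y z h1 h2 => by
        rw [map_add, h1, h2, add_zero]
  refine LinearMap.ext fun D => ?_
  obtain ⟨s, -, s0, hs⟩ := c.bas.den D
  have := h1 _ hs
  rw [map_smul] at this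
  exact (smul_eq_zero.1 this).resolve_left s0

/-- a two-form applied to a field -/
def b1 : FF K →ₗ[ℂ] DD K →ₗ[ℂ] DU K :=
  LinearMap.mk₂ ℂ (fun η D => η D) (fun _ _ _ => rfl) (fun _ _ _ => rfl)
    (fun η _ _ => map_add η _ _) fun c η D => lin_c η c D

/-- a one-form applied to a field -/
def b2 : DU K →ₗ[ℂ] DD K →ₗ[ℂ] K :=
  LinearMap.mk₂ ℂ (fun η D => η D) (fun _ _ _ => rfl) (fun _ _ _ => rfl)
    (fun η _ _ => map_add η _ _) fun c η D => lin_c η c D

theorem b1_apply (η : FF K) (D : DD K) : b1 η D = η D := rfl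

theorem b2_apply (η : DU K) (D : DD K) : b2 η D = η D := rfl

theorem l1 (Y : DD K) (u : FF K) (v : DD K) :
    ld Y (b1 u v) = b1 (lf Y u) v + b1 u (ad Y v) := by
  refine LinearMap.ext fun D => ?_
  rw [LinearMap.add_apply, b1_apply, b1_apply, b1_apply, ld_apply, lf_apply, ad_apply,
    sub_add_cancel]

theorem l2 (Y : DD K) (u : DU K) (v : DD K) :
    op Y (b2 u v) = b2 (ld Y u) v + b2 u (ad Y v) := by
  rw [b2_apply, b2_apply, b2_apply, ld_apply, op_apply, ad_apply, sub_add_cancel]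

theorem bil (g : GenK) {U V W : Type} {_ : AddCommGroup U} {_ : Module ℂ U} {_ : AddCommGroup V}
    {_ : Module ℂ V} [AddCommGroup W] [Module ℂ W] {δU : End ℂ U} {δV : End ℂ V} {α β : ℂ}
    {u : U} {v : V} (hu : u ∈ δU.maxGenEigenspace α) (hv : v ∈ δV.maxGenEigenspace β)
    (δW : End ℂ W) (B : U →ₗ[ℂ] V →ₗ[ℂ] W)
    (h : ∀ u v, δW (B u v) = B (δU u) v + B u (δV v)) : B u v ∈ δW.maxGenEigenspace (α + β) :=
  g.bil U V W δU δV δW B α β u v h hu hv

theorem wt (g : GenK) {η : FF K} {D D' : DD K} {μ ν ν' : ℂ}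
    (hμ : η ∈ (lf Y).maxGenEigenspace μ) (h : D ∈ (ad Y).maxGenEigenspace ν)
    (h' : D' ∈ (ad Y).maxGenEigenspace ν') :
    η D D' ∈ (op Y).maxGenEigenspace (μ + ν + ν') := by
  have h1 := bil g hμ h (ld Y) b1 (l1 Y)
  have h2 := bil g h1 h' (op Y) b2 (l2 Y)
  rwa [b2_apply, b1_apply] at h2

theorem alg {x u v w : K} {p q r : ℂ} (hx : x = (p + q + r) • w) (hu : u = r • w)
    (hv : v = q • w) : x - u - v - p • w = 0 := by
  rw [hx, hu, hv, add_smul, add_smul]
  ring

theorem fin {η : FF K} {D D' : DD K} {p q r : ℂ} (h3 : t (η D D') = (p + q + r) • η D D')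
    (h1 : ⁅t, D⁆ = q • D) (h2 : ⁅t, D'⁆ = r • D') : (lf t η - p • η) D D' = 0 := by
  have e1 : η D ⁅t, D'⁆ = r • η D D' := by rw [h2]; exact lin_c (η D) r D'
  have e2 : η ⁅t, D⁆ D' = q • η D D' := by
    rw [h1]; exact congrArg (fun γ : DU K => γ D') (lin_c η q D)
  exact alg h3 e1 e2

end

end JD3x

open JD3x in
theorem jd3 (g : GenK) : S_JD3 := by
  intro K ι _ _ _ S E x a c Y hY h0 l t j η hη μ hμ
  refine sub_eq_zero.1 (spn g c hY h0 (lf t η - l μ • η) fun D hD ν h =>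
    spn g c hY h0 ((lf t η - l μ • η) D) fun D' hD' ν' h' => ?_)
  have h3 : t (η D D') = l (μ + ν + ν') • η D D' := j.2 _ (hη D hD D' hD') _ (wt g hμ h h')
  rw [map_add, map_add] at h3
  exact fin h3 (fld g c hY h0 j hD h) (fld g c hY h0 j hD' h')

end Pool.Agent.MP_51db15_ag.Qh

end

section
/-! Row LT: the form vanishes on a field that vanishes. -/

namespace Pool.Agent.MP_51db15_ag.Qh

namespace LTx

theorem mul_non {L : Type} [Field L] (V : ValuationSubring L) {a b : L} (ha : a ∈ V)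
    (hb : b ∈ V.nonunits) : a * b ∈ V.nonunits := by
  rw [ValuationSubring.mem_nonunits_iff] at hb ⊢
  rw [map_mul]
  have h1 := (V.valuation_le_one_iff a).2 ha
  calc V.valuation a * V.valuation b ≤ 1 * V.valuation b := mul_le_mul_left h1 _
    _ < 1 := by rwa [one_mul]

theorem swap {L : Type} [Field L] {n m : ℕ} (r : Fin n → L) (c dy dz : Fin m → L)
    (uy uz : Fin n → Fin m → L) :
    ∑ i, r i * ∑ s, c s * (uy i s * dz s - uz i s * dy s) =
      ∑ s, c s * ((∑ i, r i * uy i s) * dz s - (∑ i, r i * uz i s) * dy s) := by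
  simp only [Finset.mul_sum, Finset.sum_mul, ← Finset.sum_sub_distrib]
  rw [Finset.sum_comm]
  refine Finset.sum_congr rfl fun s _ => Finset.sum_congr rfl fun i _ => ?_
  ring

end LTx

theorem lt (v : S_LTV) : S_LT := by
  intro K ι _ _ _ S x ω hB hω hK P hP Y hY hYP D hD
  obtain ⟨L, _, j, ψ, V, Y', D', n, u, ρ, h1, h2, h3, h4, h5, h6, h7, h8, h9⟩ :=
    v K ι S x hB P hP Y hY hYP D hD
  have hS : ∀ g ∈ S, g ∈ V.comap j := fun g hg => by
    have := h2 (PowerSeries.C (⟨g, hg⟩ : S))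
    rw [h1] at this
    exact this
  obtain ⟨m, c, y, z, hm, hf⟩ := hK (V.comap j) hS
  let w : Fin n → S := fun i => ⟨ω (u i) D, hω _ (h6 i) _ hD⟩
  have e : ψ (∑ i, ρ i * PowerSeries.C (w i)) =
      ∑ s, j (c s) * (Y' (j (y s)) * D' (j (z s)) - Y' (j (z s)) * D' (j (y s))) := by
    simp only [map_sum, map_mul, h1, h8, h9]
    rw [← LTx.swap]
    refine Finset.sum_congr rfl fun i _ => ?_
    congr 1
    show j (ω (u i) D) = _
    rw [hf]
    simp only [map_sum, map_mul, map_sub]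
  have hn : ψ (∑ i, ρ i * PowerSeries.C (w i)) ∈ V.nonunits := by
    rw [e]
    refine sum_mem fun s _ => LTx.mul_non V (hm s).1 (sub_mem ?_ ?_)
    · rw [mul_comm]
      exact LTx.mul_non V (h5 _ (hm s).2.2) (h4 _ (hm s).2.1)
    · rw [mul_comm]
      exact LTx.mul_non V (h5 _ (hm s).2.1) (h4 _ (hm s).2.2)
  refine ⟨_, h3 _ hn, ?_⟩
  conv_lhs => rw [h7]
  simp only [map_sum, map_mul, PowerSeries.constantCoeff_C, LinearMap.sum_apply, map_smul,
    LinearMap.smul_apply, smul_eq_mul]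
  push_cast
  rfl

end Pool.Agent.MP_51db15_ag.Qh

end

section
/-! Row LTF of project QF: the form vanishes on a field that vanishes, for an abstract ring. -/

namespace Pool.Agent.MP_51db15_ag.Qh

namespace LTFx

theorem frac {R : Type} [CommRing R] [IsDomain R] (y : FractionRing R) :
    ∃ g k : R, algebraMap R (FractionRing R) k ≠ 0 ∧
      y = algebraMap R (FractionRing R) g / algebraMap R (FractionRing R) k := by
  obtain ⟨g, k, hk, e⟩ := IsFractionRing.div_surjective (A := R) y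
  exact ⟨g, k, IsFractionRing.to_map_ne_zero_of_mem_nonZeroDivisors hk, e.symm⟩

theorem ext_der {R : Type} [CommRing R] [IsDomain R] [Algebra ℂ R] (X : DR R) :
    ∃ X' : Derivation ℂ (FractionRing R) (FractionRing R),
      ∀ r, X' (algebraMap R _ r) = algebraMap R _ (X r) := by
  refine Hy.lift R (FractionRing R) (IsScalarTower.toAlgHom ℂ R (FractionRing R))
    ((IsScalarTower.toAlgHom ℂ R (FractionRing R)).toLinearMap ∘ₗ X.toLinearMap) (fun y => ?_)
    (fun a b => ?_) fun a ha => ?_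
  · obtain ⟨g, k, -, e⟩ := frac y
    exact ⟨g, k, e⟩
  · simp [Derivation.leibniz]
  · have : a = 0 := IsFractionRing.injective R (FractionRing R) (by simpa using ha)
    simp [this]

theorem ext_frac {R L : Type} [CommRing R] [IsDomain R] [Field L] [Algebra ℂ L]
    (j : FractionRing R →+* L) (Z : Derivation ℂ L L) (F : FractionRing R → L)
    (hF : ∀ a b, F (a * b) = j a * F b + j b * F a)
    (h : ∀ g : R, Z (j (algebraMap R _ g)) = F (algebraMap R _ g)) (y : FractionRing R) :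
    Z (j y) = F y := by
  obtain ⟨g, k, k0, e⟩ := frac y
  have e2 : algebraMap R (FractionRing R) g = y * algebraMap R (FractionRing R) k := by
    rw [e]; field_simp
  have h1 := h g
  rw [e2, map_mul, Derivation.leibniz, hF, h k, smul_eq_mul, smul_eq_mul] at h1
  exact mul_left_cancel₀ ((map_ne_zero j).2 k0) (add_left_cancel h1)

end LTFx

theorem ltf (a : S_LTA2) (b : S_LTB) : S_LTF := by
  intro R _ _ _ _ _ ω hK Q hQ Y D hYQ
  obtain ⟨D₁, Y₁, n, u, ρ, hc, hsum, hcc, hD1, hY1⟩ := a R Y D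
  have hQ1 : ∀ G, Y₁ G ∈ Q.comap (PowerSeries.constantCoeff (R := R)) := fun G => by
    rw [Ideal.mem_comap, hcc]
    exact hYQ _
  obtain ⟨L, iL, iA, ψ, V, Y', D', hinj, hV, hnu, hY', hD', hDψ, hYψ⟩ :=
    b (PowerSeries R) D₁ Y₁ (Q.comap (PowerSeries.constantCoeff (R := R))) inferInstance hc hQ1
  have hi : Function.Injective (ψ.comp (PowerSeries.C (R := R))) :=
    hinj.comp PowerSeries.C_injective
  have hj : ∀ g : R, ψ (PowerSeries.C g) =
      IsFractionRing.lift (K := FractionRing R) hi (algebraMap R _ g) := fun g =>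
    (IsFractionRing.lift_algebraMap (K := FractionRing R) hi g).symm
  generalize IsFractionRing.lift (K := FractionRing R) hi = j at hj
  obtain ⟨D2, hD2⟩ := LTFx.ext_der D
  choose u2 hu2 using fun i => LTFx.ext_der (u i)
  have h8 : ∀ y, D' (j y) = j (D2 y) := by
    refine LTFx.ext_frac j D' (fun y => j (D2 y)) (fun p q => ?_) fun g => ?_
    · simp only [Derivation.leibniz, smul_eq_mul, map_add, map_mul]
    · rw [← hj, hDψ, hD1, hD2, hj]
  have h9 : ∀ y, Y' (j y) = ∑ i, ψ (ρ i) * j (u2 i y) := by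
    refine LTFx.ext_frac j Y' (fun y => ∑ i, ψ (ρ i) * j (u2 i y)) (fun p q => ?_) fun g => ?_
    · simp only [Derivation.leibniz, smul_eq_mul, map_add, map_mul, Finset.mul_sum,
        ← Finset.sum_add_distrib]
      exact Finset.sum_congr rfl fun i _ => by ring
    · rw [← hj, hYψ, hY1, map_sum]
      exact Finset.sum_congr rfl fun i _ => by rw [map_mul, hu2, hj]
  have hS : ∀ r : R, algebraMap R (FractionRing R) r ∈ V.comap j := fun r => by
    have := hV (PowerSeries.C r)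
    rw [hj] at this
    exact this
  obtain ⟨m, c, y, z, hm, hf⟩ := hK (V.comap j) hS
  have e : ψ (∑ i, ρ i * PowerSeries.C (ω (u i) D)) =
      ∑ s, j (c s) * (Y' (j (y s)) * D' (j (z s)) - Y' (j (z s)) * D' (j (y s))) := by
    simp only [map_sum, map_mul, hj, h8, h9]
    rw [← LTx.swap]
    refine Finset.sum_congr rfl fun i _ => ?_
    congr 1
    rw [hf (u i) D (u2 i) D2 (hu2 i) hD2]
    simp only [map_sum, map_mul, map_sub]
  have hn : ψ (∑ i, ρ i * PowerSeries.C (ω (u i) D)) ∈ V.nonunits := by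
    rw [e]
    refine sum_mem fun s _ => LTx.mul_non V (hm s).1 (sub_mem ?_ ?_)
    · rw [mul_comm]
      exact LTx.mul_non V (hD' _ (hm s).2.2) (hY' _ (hm s).2.1)
    · rw [mul_comm]
      exact LTx.mul_non V (hD' _ (hm s).2.1) (hY' _ (hm s).2.2)
  have h3 := Ideal.mem_comap.1 (hnu _ hn)
  rw [hsum]
  simpa only [map_sum, map_mul, PowerSeries.constantCoeff_C, LinearMap.sum_apply, map_smul,
    LinearMap.smul_apply, smul_eq_mul] using h3

end Pool.Agent.MP_51db15_ag.Qh

end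

section
/-! Row PI: the inverse of the form. -/

namespace Pool.Agent.MP_51db15_ag.Qh

open Module

theorem pi : S_PI := by
  intro K ι _ _ _ S x ω s hB hω hs hH
  choose H hHT hH using hH
  have : FiniteDimensional K (DD K) := hB.fd
  have hneg : ∀ D D' : DD K, ω D D' = -ω D' D := fun D D' => (hω.neg_eq D' D).symm
  have hinj : Function.Injective (ω : DD K →ₗ[K] DU K) := by
    rw [injective_iff_map_eq_zero]
    intro D hD
    refine hB.ext D 0 fun i => ?_
    have h1 : s * D (x i) = 0 := by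
      rw [← hH i D, hneg, hD]
      simp
    simpa [hs] using h1
  have hrk : finrank K (DD K) = finrank K (DU K) := Subspace.dual_finrank_eq.symm
  let e : DD K ≃ₗ[K] DU K := LinearMap.linearEquivOfInjective (ω : DD K →ₗ[K] DU K) hinj hrk
  have he : ∀ D, e D = ω D := fun D => rfl
  have he' : ∀ γ, ω (e.symm γ) = γ := fun γ => by rw [← he, e.apply_symm_apply]
  refine ⟨s • (e.symm : DU K →ₗ[K] DD K), fun γ hγ => hB.tt _ fun i => ?_, fun D => ?_,
    fun γ => ?_⟩
  · have h1 : (s • (e.symm : DU K →ₗ[K] DD K)) γ (x i) = -γ (H i) := by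
      change s * e.symm γ (x i) = _
      rw [← hH i, hneg, he']
    rw [h1]
    exact neg_mem (hγ _ (hHT i))
  · change s • e.symm (ω D) = _
    rw [← he, e.symm_apply_apply]
  · change ω (s • e.symm γ) = _
    rw [map_smul, he']

end Pool.Agent.MP_51db15_ag.Qh

end

section
/-! PROJECT QH, row POS: the eigenvalues of `b E` on the generators. -/

namespace Pool.Agent.MP_51db15_ag.Qh

open Module

namespace POSx

/-- lexicographically negative -/
def Ng (φ : ℂ →+ ℝ) (z : ℂ) : Prop :=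
  φ z < 0 ∨ (φ z = 0 ∧ (z.re < 0 ∨ (z.re = 0 ∧ z.im < 0)))

theorem Ng.add {φ : ℂ →+ ℝ} {z w : ℂ} (h : z = 0 ∨ Ng φ z) (k : Ng φ w) : Ng φ (z + w) := by
  rcases h with rfl | h
  · rwa [zero_add]
  unfold Ng at *
  rw [map_add, Complex.add_re, Complex.add_im]
  rcases h with h | ⟨h, h' | ⟨h', h''⟩⟩ <;> rcases k with k | ⟨k, k' | ⟨k', k''⟩⟩
  all_goals first
    | exact Or.inl (by linarith)
    | exact Or.inr ⟨by linarith, Or.inl (by linarith)⟩
    | exact Or.inr ⟨by linarith, Or.inr ⟨by linarith, by linarith⟩⟩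

theorem add0 {φ : ℂ →+ ℝ} {z w : ℂ} (h : z = 0 ∨ Ng φ z) (k : w = 0 ∨ Ng φ w) :
    z + w = 0 ∨ Ng φ (z + w) := by
  rcases k with rfl | k
  · rwa [add_zero]
  · exact Or.inr (Ng.add h k)

theorem top {ι : Type} [Fintype ι] (φ : ℂ →+ ℝ) (β : ι → ℂ) (i : ι) :
    ∃ i0, ∀ j, φ (β j) ≤ φ (β i0) ∧ ∀ n : ℕ, n • (β j - β i0) = 0 ∨ Ng φ (n • (β j - β i0)) := by
  obtain ⟨i0, -, h⟩ := Finset.exists_max_image Finset.univ
    (fun j => toLex (φ (β j), toLex ((β j).re, (β j).im))) ⟨i, Finset.mem_univ i⟩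
  refine ⟨i0, fun j => ?_⟩
  have k := h j (Finset.mem_univ j)
  simp only [Prod.Lex.toLex_le_toLex] at k
  refine ⟨k.elim le_of_lt fun k => k.1.le, fun n => ?_⟩
  induction n with
  | zero => exact Or.inl (zero_nsmul _)
  | succ n ih =>
    rw [succ_nsmul]
    refine add0 ih ?_
    unfold Ng
    rw [map_sub, Complex.sub_re, Complex.sub_im, sub_eq_zero]
    simp only [sub_neg, sub_eq_zero]
    rcases k with k | ⟨k, k' | ⟨k', k''⟩⟩
    · exact Or.inr (Or.inl k)
    · exact Or.inr (Or.inr ⟨k, Or.inl k'⟩)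
    · exact k''.eq_or_lt.imp (Complex.ext k') fun l => Or.inr ⟨k, Or.inr ⟨k', l⟩⟩

theorem pw {U : Type} [AddCommGroup U] [Module ℂ U] {A B : End ℂ U} (h : Commute B A) {y : U}
    (hy : B y = 0) (k : ℕ) : ((A - B) ^ k) y = (A ^ k) y := by
  induction k with
  | zero => rfl
  | succ k ih =>
    rw [pow_succ', pow_succ', End.mul_apply, End.mul_apply, ih, LinearMap.sub_apply,
      ← End.mul_apply B, (h.pow_right k).eq, End.mul_apply, hy, map_zero, sub_zero]

variable {K : Type} [Field K] [Algebra ℂ K]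

/-- sums of generalised eigenspaces -/
abbrev W (N : DD K) (P : ℂ → Prop) : Submodule ℂ K :=
  ⨆ ν : {ν // P ν}, (op N).maxGenEigenspace ν.1

theorem W.of {N : DD K} {P : ℂ → Prop} {ν : ℂ} (h : P ν) {u : K}
    (hu : u ∈ (op N).maxGenEigenspace ν) : u ∈ W N P :=
  Submodule.mem_iSup_of_mem ⟨ν, h⟩ hu

theorem gm (g : GenK) (N : DD K) {α β : ℂ} {u v : K} (hu : u ∈ (op N).maxGenEigenspace α)
    (hv : v ∈ (op N).maxGenEigenspace β) : u * v ∈ (op N).maxGenEigenspace (α + β) :=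
  g.bil K K K _ _ _ (LinearMap.mul ℂ K) α β u v (fun u v => by
    simp only [LinearMap.mul_apply', op_apply, Derivation.leibniz, smul_eq_mul]; ring) hu hv

theorem W.mul (g : GenK) {N : DD K} {P Q R : ℂ → Prop} (h : ∀ α β, P α → Q β → R (α + β))
    {u v : K} (hu : u ∈ W N P) (hv : v ∈ W N Q) : u * v ∈ W N R := by
  refine Submodule.iSup_induction _ (motive := fun u => u * v ∈ W N R) hu (fun α u hu => ?_)
    (by simp) fun a b ha hb => by rw [add_mul]; exact add_mem ha hb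
  exact Submodule.iSup_induction _ (motive := fun v => u * v ∈ W N R) hv
    (fun β v hv => W.of (h _ _ α.2 β.2) (gm g N hu hv)) (by simp)
    fun a b ha hb => by rw [mul_add]; exact add_mem ha hb

theorem W.map {N : DD K} {P : ℂ → Prop} {f : End ℂ K} (h : Commute (op N) f) {u : K}
    (hu : u ∈ W N P) : f u ∈ W N P :=
  Submodule.iSup_induction _ (motive := fun u => f u ∈ W N P) hu
    (fun α _ hu => W.of α.2 (End.mapsTo_maxGenEigenspace_of_comm h _ hu)) (by simp)
    fun a b ha hb => by rw [map_add]; exact add_mem ha hb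

theorem com {X Y : DD K} (h : ⁅X, Y⁆ = 0) : Commute (op X) (op Y) :=
  LinearMap.ext fun u => by
    have := congrArg (fun D : DD K => D u) h
    simp only [Derivation.commutator_apply, Derivation.zero_apply, sub_eq_zero] at this
    exact this

theorem one0 (N : DD K) (c : ℂ) : algebraMap ℂ K c ∈ (op N).maxGenEigenspace 0 :=
  (End.mem_maxGenEigenspace _ _ _).2 ⟨1, by simp⟩

end POSx

open POSx in
theorem pos (g : GenK) (e : S_EIG) : S_POS := by
  intro K ι _ _ _ S E x a hC hL b A μ hb hA hx φ M hM i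
  have a0 : ∀ j, (a j : ℂ) ≠ 0 := fun j => Nat.cast_ne_zero.2 (hC.pos j).ne'
  obtain ⟨i0, h0⟩ := top φ (fun j => μ j / a j) i
  set α := μ i0 / a i0 with hα
  by_cases hαA : α ∈ A
  · have : φ (μ i) = a i * φ (μ i / a i) := by
      rw [← nsmul_eq_mul, ← map_nsmul, nsmul_eq_mul, mul_div_cancel₀ _ (a0 i)]
    rw [this]
    exact mul_le_mul_of_nonneg_left ((h0 i).1.trans (hM _ hαA)) (Nat.cast_nonneg _)
  exfalso
  obtain ⟨b', b1, b2⟩ := hA α hαA
  set N := b E - α • E with hN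
  have tm := hC.ev.tm
  have hNT : N ∈ TT S := sub_mem (hb.1 E tm) ((TC S).smul_mem α tm)
  have c1 : ⁅E, b E⁆ = 0 := by rw [hb.2, lie_self, map_zero]
  have c2 : ⁅E, N⁆ = 0 := by rw [hN, lie_sub, c1, lie_smul, lie_self, smul_zero, sub_zero]
  have hG : ∀ j, x j ∈ (op N).maxGenEigenspace (a j • (μ j / a j - α)) := fun j => by
    obtain ⟨k, hk⟩ := (End.mem_maxGenEigenspace _ _ _).1 (hx j).2
    refine (End.mem_maxGenEigenspace _ _ _).2 ⟨k, ?_⟩
    have e1 : op N - (a j • (μ j / a j - α)) • (1 : End ℂ K) =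
        (op (b E) - μ j • 1) - α • (op E - (a j : ℂ) • 1) := by
      rw [nsmul_eq_mul, mul_sub, mul_div_cancel₀ _ (a0 j), show op N = op (b E) - α • op E from rfl]
      module
    rw [e1, pw _ _ k, hk]
    · exact (((com c1).sub_right ((Commute.one_right _).smul_right _)).sub_left
        ((Commute.one_left _).smul_left _)).smul_left _
    · simp [hC.cx.eig j]
  have hS : ∀ u ∈ S, u ∈ W N fun ν => ν = 0 ∨ Ng φ ν := by
    intro u hu
    rw [← hC.cx.gen] at hu
    induction hu using Algebra.adjoin_induction with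
    | mem u hu => obtain ⟨j, rfl⟩ := hu; exact W.of ((h0 j).2 _) (hG j)
    | algebraMap c => exact W.of (Or.inl rfl) (one0 N c)
    | add u v _ _ hu hv => exact add_mem hu hv
    | mul u v _ _ hu hv => exact W.mul g (fun _ _ => add0) hu hv
  let I : Ideal S :=
    { carrier := {u | (u : K) ∈ W N (Ng φ)}
      add_mem' := fun h h' => (W N (Ng φ)).add_mem h h'
      zero_mem' := zero_mem (W N (Ng φ))
      smul_mem' := fun s _ h => W.mul g (fun _ _ => Ng.add) (hS s s.2) h }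
  have hI : ∀ u ∈ S, u ∈ W N (Ng φ) → In I u := fun u hu h => ⟨⟨u, hu⟩, h, rfl⟩
  refine (e K ι S E x a hC N hNT c2 I
    (fun u hu => hI _ (tm u u.2) (W.map (com c2).symm hu))
    (fun u hu => hI _ (hNT u u.2) (W.map (Commute.refl _) hu)) (fun j => ?_)
    ⟨i0, fun k h => ?_⟩).elim ?_
  rotate_left 2
  · rintro P ⟨p1, p2, ⟨j, p3⟩, p4⟩
    obtain ⟨p, q1, q2⟩ := hL P p1 p2 N hNT p4 (dd (x j) ∘ₗ b')
      fun D hD => b1 D hD _ (hC.bas.mem j)
    rw [LinearMap.comp_apply, b2, dd_apply, hC.cx.eig j] at q2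
    refine p3 ⟨(a j : ℂ)⁻¹ • p, Submodule.smul_of_tower_mem P _ q1, ?_⟩
    rw [Subalgebra.coe_smul, ← q2, smul_smul, inv_mul_cancel₀ (a0 j), one_smul]
  · rcases (h0 j).2 (a j) with h | h
    · have := hG j
      rw [h] at this
      obtain ⟨k, hk⟩ := (End.mem_maxGenEigenspace _ _ _).1 this
      rw [zero_smul, sub_zero] at hk
      exact ⟨k, 0, zero_mem I, hk⟩
    · exact ⟨0, hI _ (hC.bas.mem j) (W.of h (hG j))⟩
  · have z0 := hG i0
    rw [sub_self, smul_zero] at z0
    have z1 : ∀ k : ℕ, x i0 ^ k ∈ (op N).maxGenEigenspace 0 := fun k => by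
      induction k with
      | zero => simpa using one0 N 1
      | succ k ih => simpa only [pow_succ, add_zero] using gm g N ih z0
    obtain ⟨p, q1, q2⟩ := h
    have le : W N (Ng φ) ≤ ⨆ (ν : ℂ) (_ : ν ≠ 0), (op N).maxGenEigenspace ν :=
      iSup_le fun ν => le_iSup₂_of_le ν.1 (fun l => by
        have := ν.2
        rw [l] at this
        simp [Ng] at this) le_rfl
    exact pow_ne_zero k (hx i0).1 (Submodule.disjoint_def.1
      (End.independent_maxGenEigenspace (op N) 0) _ (z1 k) (q2 ▸ le q1))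

end Pool.Agent.MP_51db15_ag.Qh

end

section
/-! PROJECT QH, row SCA: the scaling homomorphism. -/

namespace Pool.Agent.MP_51db15_ag.Qh

open Module Polynomial

namespace SCAx

variable {K : Type} [Field K] [Algebra ℂ K] (t : DD K)

/-- the coefficients are eigenvectors -/
def Q (f : K[X]) : Prop := ∀ n : ℕ, t (f.coeff n) = (n : ℂ) • f.coeff n

variable {t}

theorem Q_mono {n : ℕ} {g : K} (h : t g = (n : ℂ) • g) : Q t (monomial n g) := fun k => by
  rw [coeff_monomial]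
  split_ifs with e
  · rw [← e, h]
  · rw [map_zero, smul_zero]

theorem Q_add {f g : K[X]} (hf : Q t f) (hg : Q t g) : Q t (f + g) := fun k => by
  rw [coeff_add, map_add, hf k, hg k, smul_add]

theorem Q_sub {f g : K[X]} (hf : Q t f) (hg : Q t g) : Q t (f - g) := fun k => by
  rw [coeff_sub, map_sub, hf k, hg k, smul_sub]

theorem Q_mul {f g : K[X]} (hf : Q t f) (hg : Q t g) : Q t (f * g) := fun k => by
  rw [coeff_mul, map_sum, Finset.smul_sum]
  refine Finset.sum_congr rfl fun p hp => ?_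
  rw [Derivation.leibniz, hf, hg, ← Finset.HasAntidiagonal.mem_antidiagonal.1 hp, Nat.cast_add,
    add_smul, smul_eq_mul, smul_eq_mul, mul_smul_comm, mul_smul_comm, mul_comm (g.coeff p.2), add_comm]

theorem Q_zero {f : K[X]} (hf : Q t f) (h : f.eval 1 = 0) : f = 0 := by
  have li := Module.End.eigenvectors_linearIndependent' (op t) (fun n : f.support => ((n : ℕ) : ℂ))
    (fun n k e => Subtype.ext (Nat.cast_injective e)) (fun n => f.coeff n) fun n =>
      ⟨Module.End.mem_eigenspace_iff.2 (hf n), mem_support_iff.1 n.2⟩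
  by_contra k
  obtain ⟨n, hn⟩ := support_nonempty.2 k
  refine one_ne_zero (Fintype.linearIndependent_iff.1 li (fun _ => 1) ?_ ⟨n, hn⟩)
  simp only [one_smul]
  rw [Finset.sum_coe_sort f.support fun n => f.coeff n]
  simpa only [eval_eq_sum, Polynomial.sum, one_pow, mul_one] using h

end SCAx

open SCAx in
theorem sca : S_SCA := by
  intro K ι _ _ _ S t x a hc hb _
  let m : MvPolynomial ι ℂ →ₐ[ℂ] K[X] := MvPolynomial.aeval fun i => monomial (a i) (x i)
  have h1 : ∀ p, Q t (m p) := fun p => by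
    induction p using MvPolynomial.induction_on with
    | C c =>
      rw [MvPolynomial.algHom_C, Polynomial.algebraMap_apply, ← monomial_zero_left]
      exact Q_mono (by simp)
    | add p q hp hq => rw [map_add]; exact Q_add hp hq
    | mul_X p i hp =>
      rw [map_mul, MvPolynomial.aeval_X]
      exact Q_mul hp (Q_mono (hc.eig i))
  have h2 : ∀ p, (m p).eval 1 = MvPolynomial.aeval x p := fun p => by
    induction p using MvPolynomial.induction_on with
    | C c => rw [MvPolynomial.algHom_C, MvPolynomial.algHom_C, Polynomial.algebraMap_apply, eval_C]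
    | add p q hp hq => rw [map_add, map_add, eval_add, hp, hq]
    | mul_X p i hp =>
      rw [map_mul, map_mul, MvPolynomial.aeval_X, MvPolynomial.aeval_X, eval_mul, hp,
        eval_monomial, one_pow, mul_one]
  have hr : (MvPolynomial.aeval x : MvPolynomial ι ℂ →ₐ[ℂ] K).range = S :=
    (Algebra.adjoin_range_eq_range_aeval ℂ x).symm.trans hc.gen
  let π : MvPolynomial ι ℂ →ₐ[ℂ] S :=
    (MvPolynomial.aeval x).codRestrict S fun p => hr ▸ AlgHom.mem_range_self _ p
  have hπ : Function.Surjective π := fun g => by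
    obtain ⟨p, hp⟩ : (g : K) ∈ (MvPolynomial.aeval x : MvPolynomial ι ℂ →ₐ[ℂ] K).range :=
      hr.symm ▸ g.2
    exact ⟨p, Subtype.ext hp⟩
  refine ⟨AlgHom.liftOfSurjective π hπ m fun p hp =>
    Q_zero (h1 p) ((h2 p).trans (congrArg Subtype.val hp)), fun g n hg => ?_⟩
  obtain ⟨p, rfl⟩ := hπ g
  rw [AlgHom.liftOfSurjective_apply]
  refine sub_eq_zero.1 (Q_zero (Q_sub (h1 p) (Q_mono hg)) ?_)
  rw [eval_sub, h2, eval_monomial, one_pow, mul_one]
  exact sub_self _

end Pool.Agent.MP_51db15_ag.Qh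

end

section
/-! One more homogeneous parameter. -/

namespace Pool.Agent.MP_51db15_ag.Qh

open Module

namespace STEPx

theorem last {A : Type} [CommRing A] (n : A →+ A) (P : Ideal A) (z : A) (hz : z ∉ P)
    (h : ∃ k : ℕ, n^[k] z = 0) : ∃ k : ℕ, n^[k] z ∉ P ∧ n (n^[k] z) ∈ P := by
  by_contra hc
  push Not at hc
  obtain ⟨k, hk⟩ := h
  have : ∀ k : ℕ, n^[k] z ∉ P := fun k => by
    induction k with
    | zero => exact hz
    | succ k ih => rw [Function.iterate_succ_apply']; exact hc k ih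
  exact this k (hk ▸ P.zero_mem)

theorem core {A : Type} [CommRing A] [Algebra ℚ A] [IsNoetherianRing A] (e n : A →+ A)
    (he : Leib e) (hn : Leib n) (com : ∀ a, e (n a) = n (e a)) (nil : ∀ a, ∃ k : ℕ, n^[k] a = 0)
    (m I : Ideal A) (hm : ∀ a, e a ∈ m) (rad : I.IsRadical) (eI : ∀ a ∈ I, e a ∈ I)
    (nI : ∀ a ∈ I, n a ∈ I) (le : ∀ P : Ideal A, P ≠ ⊤ → (∀ a ∈ P, e a ∈ P) → P ≤ m)
    (mI : ¬ m ≤ I) (hom : ∀ Q P : Ideal A, Q ≤ m → (∀ a ∈ Q, e a ∈ Q) → ¬ Q ≤ P →
      ∃ z ∈ Q, z ∉ P ∧ ∃ d : ℕ, 0 < d ∧ e z = d • z) :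
    ∃ (f : A) (d : ℕ), 0 < d ∧ e f = d • f ∧ n f ∈ I ∧ ∀ P ∈ I.minimalPrimes, f ∉ P := by
  classical
  have fin := I.finite_minimalPrimes_of_isNoetherianRing A
  have all : ∀ a, (∀ P ∈ I.minimalPrimes, a ∈ P) → a ∈ I := fun a h => by
    rw [← rad.radical, ← Ideal.sInf_minimalPrimes]
    exact Ideal.mem_sInf.2 fun {P} hP => h P hP
  have eP := fun P hP => Hy.minp A e I P he eI hP
  have nP := fun P hP => Hy.minp A n I P hn nI hP
  have one : ∀ P ∈ I.minimalPrimes, ∃ (z : A) (d : ℕ), e z = (d + 1) • z ∧ n z ∈ I ∧ z ∉ P ∧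
      ∀ P' ∈ I.minimalPrimes, P' ≠ P → z ∈ P' := by
    intro P hP
    have hp : P.IsPrime := hP.1.1
    obtain ⟨z, hz, zP, d, hd, ez⟩ := hom (m ⊓ (fin.toFinset.erase P).inf id) P inf_le_left
      (fun a ha => ⟨hm a, Submodule.mem_finsetInf.2 fun P' h' =>
        eP P' (fin.mem_toFinset.1 (Finset.mem_of_mem_erase h')) a
          (Submodule.mem_finsetInf.1 ha.2 P' h')⟩) fun h => by
      rcases hp.inf_le.1 h with h | h
      · exact mI fun a ha => all a fun P' h' =>
          hP.2 h'.1 ((le P' h'.1.1.ne_top (eP P' h')).trans h) (h ha)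
      · obtain ⟨P', h', h⟩ := hp.inf_le'.1 h
        obtain ⟨h1, h2⟩ := Finset.mem_erase.1 h'
        exact h1 (le_antisymm h (hP.2 (fin.mem_toFinset.1 h2).1 h))
    obtain ⟨k, k1, k2⟩ := last n P z zP (nil z)
    have it : ∀ k : ℕ, e (n^[k] z) = d • n^[k] z ∧
        ∀ P' ∈ I.minimalPrimes, P' ≠ P → n^[k] z ∈ P' := fun k => by
      induction k with
      | zero =>
        exact ⟨ez, fun P' h' h => Submodule.mem_finsetInf.1 hz.2 P'
          (Finset.mem_erase.2 ⟨h, fin.mem_toFinset.2 h'⟩)⟩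
      | succ k ih =>
        rw [Function.iterate_succ_apply', com, ih.1, map_nsmul]
        exact ⟨rfl, fun P' h' h => nP P' h' _ (ih.2 P' h' h)⟩
    refine ⟨n^[k] z, d - 1, by rw [Nat.sub_add_cancel hd, (it k).1], all _ fun P' h' => ?_, k1,
      (it k).2⟩
    by_cases h : P' = P
    · exact h ▸ k2
    · exact nP P' h' _ ((it k).2 P' h' h)
  choose! z d ez nz zP zQ using one
  have dv : ∀ P ∈ fin.toFinset, ∃ c : ℕ,
      ∏ P' ∈ fin.toFinset, (d P' + 1) = (c + 1) * (d P + 1) := fun P hP => by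
    obtain ⟨c, hc⟩ := Finset.dvd_prod_of_mem (fun P' => d P' + 1) hP
    have h0 : ∏ P' ∈ fin.toFinset, (d P' + 1) ≠ 0 := Finset.prod_ne_zero_iff.2 fun _ _ => by omega
    obtain ⟨c, rfl⟩ := Nat.exists_eq_succ_of_ne_zero (right_ne_zero_of_mul (hc ▸ h0))
    exact ⟨c, hc.trans (mul_comm _ _)⟩
  choose! c hc using dv
  refine ⟨∑ P ∈ fin.toFinset, z P ^ (c P + 1), ∏ P ∈ fin.toFinset, (d P + 1),
    Finset.prod_pos fun _ _ => by omega, ?_, ?_, fun P hP h => ?_⟩
  · rw [map_sum, Finset.smul_sum]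
    refine Finset.sum_congr rfl fun P hP => ?_
    rw [Hy.MINP.leib_pow he, ez P (fin.mem_toFinset.1 hP), hc P hP, nsmul_eq_mul, nsmul_eq_mul]
    push_cast
    ring
  · rw [map_sum]
    refine I.sum_mem fun P hP => ?_
    rw [Hy.MINP.leib_pow hn]
    exact I.mul_mem_left _ (nz P (fin.mem_toFinset.1 hP))
  · rw [← Finset.add_sum_erase _ _ (fin.mem_toFinset.2 hP)] at h
    refine zP P hP (hP.1.1.mem_of_pow_mem _ ((P.add_mem_iff_left (P.sum_mem fun P' h' => ?_)).1 h))
    obtain ⟨h1, h2⟩ := Finset.mem_erase.1 h'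
    exact P.pow_mem_of_mem (zQ P' (fin.mem_toFinset.1 h2) P hP h1.symm) _ (by omega)

variable {K : Type} [Field K] [Algebra ℂ K] {S : Subalgebra ℂ K}

/-- a regular field as a map of the ring -/
def res (D : DD K) (hD : D ∈ TT S) : S →+ S where
  toFun g := ⟨D g, hD g g.2⟩
  map_zero' := Subtype.ext (map_zero D)
  map_add' a b := Subtype.ext (map_add D (a : K) b)

theorem leib (D : DD K) (hD : D ∈ TT S) : Leib (res D hD) := fun a b =>
  Subtype.ext (D.leibniz (a : K) b)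

theorem in_iff {P : Ideal S} {g : S} : In P (g : K) ↔ g ∈ P :=
  ⟨fun ⟨_, hb, e⟩ => Subtype.ext e ▸ hb, fun h => ⟨g, h, rfl⟩⟩

theorem res_iff {P : Ideal S} {D : DD K} (hD : D ∈ TT S) {g : S} :
    In P (D g) ↔ res D hD g ∈ P := in_iff (g := res D hD g)

theorem res_iter (D : DD K) (hD : D ∈ TT S) (g : S) (k : ℕ) :
    (((res D hD)^[k] g : S) : K) = (op D ^ k) g := by
  induction k with
  | zero => rfl
  | succ k ih => rw [Function.iterate_succ_apply', pow_succ', End.mul_apply, ← ih]; rfl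

/-- an ideal as a space of functions -/
def sp (P : Ideal S) : Submodule ℂ K := (P.restrictScalars ℂ).map S.val.toLinearMap

theorem mem_sp {P : Ideal S} {y : K} : y ∈ sp P ↔ In P y :=
  ⟨fun ⟨b, hb, e⟩ => ⟨b, hb, e.symm⟩, fun ⟨b, hb, e⟩ => ⟨b, hb, e.symm⟩⟩

end STEPx

open STEPx in
theorem step (g : GenK) : S_STEP := by
  intro K ι _ _ _ S E x a C N hN com nil I rad _ eI nI ⟨i, hi⟩
  let _ : Algebra ℚ S := ((algebraMap ℂ S).comp (algebraMap ℚ ℂ)).toAlgebra
  have := C.bas.noeth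
  have hE := C.ev.tm
  have nl : ∀ y ∈ Algebra.adjoin ℂ (Set.range x), y ∈ (op N).maxGenEigenspace 0 := by
    intro y hy
    induction hy using Algebra.adjoin_induction with
    | mem y hy => obtain ⟨j, rfl⟩ := hy; exact nil j
    | algebraMap c => exact (End.mem_maxGenEigenspace _ _ _).2 ⟨1, by simp⟩
    | add y z _ _ h h' => exact add_mem h h'
    | mul y z _ _ h h' =>
      simpa using g.bil K K K (op N) (op N) (op N) (LinearMap.mul ℂ K) 0 0 y z
        (fun u v => by simp [add_comm, mul_comm]) h h'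
  obtain ⟨f, d, h1, h2, h3, h4⟩ := core (res E hE) (res N hN) (leib E hE) (leib N hN)
    (fun b => Subtype.ext (by
      have := Derivation.commutator_apply (D1 := E) (D2 := N) (b : K)
      rw [com, Derivation.zero_apply] at this
      exact sub_eq_zero.1 this.symm))
    (fun b => by
      obtain ⟨k, hk⟩ := (End.mem_maxGenEigenspace _ _ _).1 (nl b (C.cx.gen.symm ▸ b.2))
      exact ⟨k, Subtype.ext (by simpa [res_iter] using hk)⟩)
    (vx S x) I (fun b => (res_iff hE).1 (C.vtx.pos b b.2)) rad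
    (fun b hb => (res_iff hE).1 (eI b hb)) (fun b hb => (res_iff hN).1 (nI b hb))
    (fun P hP h => C.vtx.le P hP fun b hb => (res_iff hE).2 (h b hb))
    (fun h => hi ⟨⟨x i, C.bas.mem i⟩, h (Ideal.subset_span ⟨i, rfl⟩), rfl⟩) fun Q P hQ eQ h => by
      obtain ⟨u, uQ, uP⟩ := SetLike.not_le_iff_exists.1 h
      have h5 := g.sub K (op E) (SC S) (sp Q) C.ev.s (fun y ⟨b, _, e⟩ => e ▸ b.2)
        (fun y ⟨b, hb, e⟩ => e ▸ mem_sp.2 ((res_iff hE).2 (eQ b hb))) u (mem_sp.2 (in_iff.2 uQ))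
      have h6 : ¬ ∀ k : ℤ, sp Q ⊓ (op E).eigenspace (k : ℂ) ≤ sp P := fun h6 =>
        uP (in_iff.1 (mem_sp.1 (iSup_le h6 h5)))
      obtain ⟨k, hk⟩ := not_forall.1 h6
      obtain ⟨w, ⟨w1, w2⟩, w3⟩ := SetLike.not_le_iff_exists.1 hk
      obtain ⟨z, zQ, rfl⟩ := mem_sp.1 w1
      have zP : z ∉ P := fun h7 => w3 (mem_sp.2 (in_iff.2 h7))
      have z0 : (z : K) ≠ 0 := fun h7 => zP ((Subtype.ext h7 : z = 0) ▸ P.zero_mem)
      have ez : E z = (k : ℂ) • (z : K) := End.mem_eigenspace_iff.1 w2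
      obtain ⟨d, hd⟩ := C.ev.nat z z.2 k z0 ez
      rw [hd] at ez
      refine ⟨z, zQ, zP, d, Nat.pos_of_ne_zero ?_,
        Subtype.ext (ez.trans (Nat.cast_smul_eq_nsmul ℂ d _))⟩
      rintro rfl
      obtain ⟨c, hc⟩ := C.vtx.zero z z.2 (by simpa using ez)
      have c0 : c ≠ 0 := fun h7 => z0 (by rw [hc, h7, map_zero])
      have hz : z = algebraMap ℂ S c := Subtype.ext hc
      exact C.vtx.max.ne_top (Ideal.eq_top_of_isUnit_mem _ (hQ zQ)
        (hz ▸ (isUnit_iff_ne_zero.2 c0).map _))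
  exact ⟨f, d, h1, (congrArg Subtype.val h2).trans (Nat.cast_smul_eq_nsmul ℂ d _).symm,
    (res_iff hN).2 h3, h4⟩

end Pool.Agent.MP_51db15_ag.Qh

end

section
/-! Row TRV: traces and valuations. -/

namespace Pool.Agent.MP_51db15_ag.Qh

namespace TRVx

theorem nu_comap {F K : Type} [Field F] [Field K] (f : F →+* K) (V : ValuationSubring K) (x : F) :
    x ∈ (V.comap f).nonunits ↔ f x ∈ V.nonunits := by
  rw [ValuationSubring.mem_nonunits_iff_or, ValuationSubring.mem_nonunits_iff_or,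
    ValuationSubring.mem_comap, map_inv₀, map_eq_zero]

theorem cen (A F : Type) [CommRing A] [Field F] (j : A →+* F) (P : Ideal A)
    (hj : Function.Injective j) (hP : P.IsPrime) :
    ∃ W : ValuationSubring F, ∀ a, j a ∈ W ∧ (j a ∈ W.nonunits ↔ a ∈ P) := by
  have hu : ∀ y : P.primeCompl, IsUnit (j y) := fun y =>
    IsUnit.mk0 _ fun h => y.2 (by rw [hj (h.trans (map_zero j).symm)]; exact P.zero_mem)
  obtain ⟨W, h, hl⟩ := IsLocalRing.exists_factor_valuationRing
    (IsLocalization.lift (S := Localization.AtPrime P) hu)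
  refine ⟨W, fun a => ?_⟩
  have e := IsLocalization.lift_eq (S := Localization.AtPrime P) hu a
  rw [← e]
  refine ⟨h _, ?_⟩
  have h1 := ValuationSubring.coe_mem_nonunits_iff (A := W)
    (a := ⟨_, h (algebraMap A (Localization.AtPrime P) a)⟩)
  refine h1.trans ?_
  rw [← IsLocalization.AtPrime.to_map_mem_maximal_iff (Localization.AtPrime P) P a,
    IsLocalRing.mem_maximalIdeal, IsLocalRing.mem_maximalIdeal, mem_nonunits_iff, mem_nonunits_iff]
  exact not_congr (isUnit_map_iff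
    ((IsLocalization.lift (S := Localization.AtPrime P) hu).codRestrict W.toSubring h) _)

theorem ext (F K : Type) [Field F] [Field K] (f : F →+* K) (W : ValuationSubring F) :
    ∃ V : ValuationSubring K, V.comap f = W := by
  obtain ⟨V, hV⟩ := cen W K (f.comp W.subtype) (IsLocalRing.maximalIdeal W)
    (f.injective.comp Subtype.val_injective) inferInstance
  refine ⟨V, le_antisymm (fun x hx => ?_) fun x hx => (hV ⟨x, hx⟩).1⟩
  by_contra h
  have h1 : x⁻¹ ∈ W.nonunits := W.inv_mem_nonunits_iff.2 (Or.inr h)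
  obtain ⟨h2, h3⟩ := ValuationSubring.mem_nonunits_iff_exists_mem_maximalIdeal.1 h1
  have h4 : x⁻¹ ∈ (V.comap f).nonunits := (nu_comap f V _).2 ((hV ⟨_, h2⟩).2.2 h3)
  rcases (V.comap f).inv_mem_nonunits_iff.1 h4 with h5 | h5
  · exact h (h5 ▸ W.zero_mem)
  · exact h5 hx

theorem tr (F K : Type) [Field F] [Field K] [Algebra F K] [FiniteDimensional F K] [CharZero F]
    (W : ValuationSubring F) (y : K)
    (h : ∀ V : ValuationSubring K, V.comap (algebraMap F K) = W → y ∈ V.nonunits) :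
    Algebra.trace F K y ∈ W.nonunits := by
  obtain ⟨V, hV⟩ := ext F (AlgebraicClosure F) (algebraMap _ _) W
  rw [← hV, nu_comap, trace_eq_sum_embeddings]
  refine sum_mem fun σ _ => (nu_comap (σ : K →+* AlgebraicClosure F) V y).1 (h _ ?_)
  rw [ValuationSubring.comap_comap, AlgHom.comp_algebraMap, hV]

end TRVx

theorem trv : TrvK := ⟨TRVx.tr, TRVx.cen⟩

end Pool.Agent.MP_51db15_ag.Qh

end

section
/-! The slopes of the indecomposable summands. -/

namespace Pool.Agent.MP_51db15_ag.Qh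

namespace ALGx

variable {R W κ : Type} [Ring R] [Algebra ℂ R] [Field W] [Algebra ℂ W] [Fintype κ]
  [DecidableEq κ] {A : Subalgebra ℂ R} {Δ : R →ₗ[ℂ] R} {δ : κ → R →ₗ[ℂ] R} {st : R →ₗ[ℂ] R}
  {τ : R →ₗ[ℂ] W} {p : κ × Bool → R}

/-- homogeneous maps between two summands -/
structure Hom (A : Subalgebra ℂ R) (Δ : R →ₗ[ℂ] R) (p : κ × Bool → R) (u v : κ × Bool) (w : ℂ)
    (a : R) : Prop where
  m : a ∈ A
  l : p v * a = a
  r : a * p u = a
  d : Δ a = w • a

/-- homogeneous isomorphisms -/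
structure Iso (A : Subalgebra ℂ R) (Δ : R →ₗ[ℂ] R) (p : κ × Bool → R) (u v : κ × Bool) (w : ℂ)
    (a a' : R) : Prop where
  f : Hom A Δ p u v w a
  g : Hom A Δ p v u (-w) a'
  gf : a' * a = p u
  fg : a * a' = p v

variable (h : Alg A Δ δ st τ p)
include h

theorem dmul (a b : R) : Δ (a * b) = Δ a * b + a * Δ b := by
  simp only [h.sum, h.leib, Finset.sum_add_distrib, Finset.sum_mul, Finset.mul_sum]

theorem wmul {a b : R} {w w' : ℂ} (ha : Δ a = w • a) (hb : Δ b = w' • b) :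
    Δ (a * b) = (w + w') • (a * b) := by
  rw [dmul h, ha, hb, add_smul, smul_mul_assoc, mul_smul_comm]

theorem pp' (u : κ × Bool) : p u * p u = p u := by simpa using h.po u u

theorem pd' (u : κ × Bool) : Δ (p u) = (0 : ℂ) • p u := by rw [h.pd, zero_smul]

theorem wd {a : R} {w : ℂ} (ha : Δ a = w • a) (j : κ) : Δ (δ j a) = w • δ j a := by
  rw [h.com, ha, map_smul]

theorem wst {a : R} {w : ℂ} (ha : Δ a = w • a) : Δ (st a) = w • st a := by
  rw [h.sum, ← map_smul, ← ha, h.sum, map_sum]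
  exact Finset.sum_congr rfl fun j _ => (h.sd j a).symm

theorem tne (u : κ × Bool) : τ (p u) ≠ 0 := by
  have : CharZero W := charZero_of_injective_algebraMap (algebraMap ℂ W).injective
  obtain ⟨n, hn, e⟩ := h.tp u
  rw [e]
  exact Nat.cast_ne_zero.2 hn

theorem pne (u : κ × Bool) : p u ≠ 0 := fun e => tne h u (by rw [e, map_zero])

theorem tinj (u : κ × Bool) {c c' : ℂ} (e : c • τ (p u) = c' • τ (p u)) : c = c' :=
  smul_left_injective ℂ (tne h u) e

theorem mk' (u v : κ × Bool) {w : ℂ} {a : R} (ha : a ∈ A) (hd : Δ a = w • a) :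
    Hom A Δ p u v w (p v * a * p u) :=
  ⟨mul_mem (mul_mem (h.pm v) ha) (h.pm u), by rw [← mul_assoc, ← mul_assoc, pp' h],
    by rw [mul_assoc, pp' h], by simpa using wmul h (wmul h (pd' h v) hd) (pd' h u)⟩

theorem Hom.comp {u v z : κ × Bool} {w w' : ℂ} {a c : R} (ha : Hom A Δ p u v w a)
    (hc : Hom A Δ p v z w' c) : Hom A Δ p u z (w' + w) (c * a) :=
  ⟨mul_mem hc.m ha.m, by rw [← mul_assoc, hc.l], by rw [mul_assoc, ha.r], wmul h hc.d ha.d⟩

theorem Hom.adj {u v : κ × Bool} {w : ℂ} {a : R} (ha : Hom A Δ p u v w a) :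
    Hom A Δ p (v.1, !v.2) (u.1, !u.2) w (st a) :=
  ⟨h.sm a ha.m, by rw [← h.sp, ← h.smul, ha.r], by rw [← h.sp, ← h.smul, ha.l], wst h ha.d⟩

theorem locn {u : κ × Bool} {z : R} (hz : Hom A Δ p u u 0 z) :
    ∃ c : ℂ, IsNilpotent (z - c • p u) ∧ τ z = c • τ (p u) := by
  obtain ⟨c, hc⟩ := h.loc u z hz.m (by simpa using hz.d)
  rw [hz.l, hz.r] at hc
  refine ⟨c, hc, ?_⟩
  have := h.tn _ hc
  rwa [map_sub, map_smul, sub_eq_zero] at this

theorem cst {z : R} (hz : z ∈ A) (hd : Δ z = (0 : ℂ) • z) : ∃ c : ℂ, τ z = algebraMap ℂ W c := by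
  have h1 : ∀ u, ∃ c : ℂ, τ (z * p u) = algebraMap ℂ W c := fun u => by
    obtain ⟨c, -, e⟩ := locn h (mk' h u u hz hd)
    obtain ⟨n, -, e'⟩ := h.tp u
    refine ⟨c * n, ?_⟩
    rw [mul_assoc, h.tc, mul_assoc, pp' h, e'] at e
    rw [e, map_mul, map_natCast, Algebra.smul_def]
  choose c hc using h1
  refine ⟨∑ u, c u, ?_⟩
  rw [map_sum, ← mul_one z, ← h.ps, Finset.mul_sum, map_sum]
  exact Finset.sum_congr rfl fun u _ => hc u

theorem inv {u : κ × Bool} {z : R} (hz : Hom A Δ p u u 0 z) {c : ℂ} (hc : c ≠ 0)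
    (hn : IsNilpotent (z - c • p u)) :
    ∃ q, Hom A Δ p u u 0 q ∧ q * z = p u ∧ z * q = p u := by
  obtain ⟨N, hN⟩ := hn
  set m : R := (-c⁻¹) • (z - c • p u) with hm
  have m0 : m ^ N = 0 := by rw [hm, smul_pow, hN, smul_zero]
  have mA : m ∈ A := A.smul_mem (sub_mem hz.m (A.smul_mem (h.pm u) c)) _
  have md : Δ m = (0 : ℂ) • m := by
    rw [hm, map_smul, map_sub, map_smul, hz.d, h.pd]; simp
  have ml : p u * m = m := by rw [hm, mul_smul_comm, mul_sub, mul_smul_comm, hz.l, pp' h]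
  have mr : m * p u = m := by rw [hm, smul_mul_assoc, sub_mul, smul_mul_assoc, hz.r, pp' h]
  have hzm : z = c • (p u * (1 - m)) := by
    rw [mul_sub, mul_one, ml, hm, smul_sub c, smul_smul, mul_neg, mul_inv_cancel₀ hc]; simp
  have hzm' : z = c • ((1 - m) * p u) := by
    rw [sub_mul, one_mul, mr, hm, smul_sub c, smul_smul, mul_neg, mul_inv_cancel₀ hc]; simp
  set g : R := ∑ i ∈ Finset.range N, m ^ i with hg
  have g1 : g * (1 - m) = 1 := by rw [hg, geom_sum_mul_neg, m0, sub_zero]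
  have g2 : (1 - m) * g = 1 := by rw [hg, mul_neg_geom_sum, m0, sub_zero]
  have gA : g ∈ A := sum_mem fun i _ => pow_mem mA i
  have d1 : Δ (1 : R) = 0 := by
    have := dmul h 1 1
    simpa using this
  have gd : Δ g = (0 : ℂ) • g := by
    rw [hg, map_sum, zero_smul]
    refine Finset.sum_eq_zero fun i hi => ?_
    clear hi
    induction i with
    | zero => simpa using d1
    | succ i ih => rw [pow_succ, dmul h, ih, md]; simp
  have hq := mk' h u u (A.smul_mem gA c⁻¹) (w := 0) (by rw [map_smul, gd]; simp)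
  refine ⟨_, hq, ?_, ?_⟩
  · rw [mul_assoc, hz.l, hzm', mul_smul_comm, mul_smul_comm, smul_mul_assoc, smul_smul,
      mul_inv_cancel₀ hc, one_smul, mul_assoc, ← mul_assoc g, g1, one_mul, pp' h]
  · rw [← mul_assoc, ← mul_assoc, hz.r, hzm, mul_smul_comm, smul_mul_assoc c, smul_smul,
      inv_mul_cancel₀ hc, one_smul, mul_assoc (p u), g2, mul_one, pp' h]

theorem nil_ne {u : κ × Bool} {n q : R} (hn : IsNilpotent n) (e : q * n = p u)
    (e' : p u * n = n) : False := by
  obtain ⟨N, hN⟩ := hn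
  have h1 : ∀ k : ℕ, q ^ (k + 1) * n ^ (k + 1) = p u := fun k => by
    induction k with
    | zero => simpa using e
    | succ k ih => rw [pow_succ' q, pow_succ n, mul_assoc, ← mul_assoc (q ^ _), ih, e', e]
  exact pne h u (by rw [← h1 N, pow_succ n, hN]; simp)

theorem l1 {u : κ × Bool} {n z : R} (hn : Hom A Δ p u u 0 n) (hz : Hom A Δ p u u 0 z)
    (h0 : IsNilpotent n) : τ (z * n) = 0 := by
  have h1 : Hom A Δ p u u 0 (z * n) := by simpa using hn.comp h hz
  obtain ⟨c, h2, h3⟩ := locn h h1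
  by_cases hc : c = 0
  · rw [h3, hc, zero_smul]
  obtain ⟨q, -, e, -⟩ := inv h h1 hc h2
  exact (nil_ne h h0 (by rw [mul_assoc, e]) hn.l).elim

theorem lin {u v : κ × Bool} {w : ℂ} {a b : R} (ha : Hom A Δ p u v w a)
    (hb : Hom A Δ p v u (-w) b) {j : κ} (hu : u.1 ≠ j) (hv : v.1 ≠ j) : τ (b * δ j a) = 0 := by
  obtain ⟨c, hc⟩ := cst h (mul_mem hb.m (h.dm j a ha.m))
    (by simpa using wmul h hb.d (wd h ha.d j))
  rw [hc, h.lin1 j v u hv hu a ha.m b hb.m (by rw [ha.l, ha.r]) (by rw [hb.l, hb.r]) c hc,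
    map_zero]

theorem one {u v : κ × Bool} {w : ℂ} {a b : R} (ha : Hom A Δ p u v w a)
    (hb : Hom A Δ p v u (-w) b) (e : u.1 = v.1) : τ (b * δ u.1 a) = w • τ (b * a) := by
  have h1 : ∑ j, τ (b * δ j a) = w • τ (b * a) := by
    rw [← map_sum, ← Finset.mul_sum, ← h.sum, ha.d, mul_smul_comm, map_smul]
  rw [← h1, Finset.sum_eq_single u.1 (fun j _ hj => lin h ha hb hj.symm (e ▸ hj.symm)) (by simp)]

theorem l2 {u : κ × Bool} {z z' : R} (hz : Hom A Δ p u u 0 z) (hz' : Hom A Δ p u u 0 z')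
    (j : κ) : τ (z' * δ j z) = 0 := by
  have hz2 : Hom A Δ p u u (-0) z' := by simpa using hz'
  by_cases hj : u.1 = j
  · rw [← hj, one h hz hz2 rfl, zero_smul]
  · exact lin h hz hz2 hj hj

theorem iso_of {u v : κ × Bool} {w : ℂ} {a b : R} (ha : Hom A Δ p u v w a)
    (hb : Hom A Δ p v u (-w) b) (h0 : τ (b * a) ≠ 0) : ∃ a', Iso A Δ p u v w a a' := by
  have h1 : Hom A Δ p u u 0 (b * a) := by simpa using ha.comp h hb
  obtain ⟨c, h2, h3⟩ := locn h h1
  have hc : c ≠ 0 := fun e => h0 (by rw [h3, e, zero_smul])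
  obtain ⟨q, hq, e, -⟩ := inv h h1 hc h2
  have h4 : Hom A Δ p v u (-w) (q * b) := by simpa using hb.comp h hq
  have e1 : q * b * a = p u := by rw [mul_assoc, e]
  have h5 : Hom A Δ p v v 0 (a * (q * b)) := by simpa using h4.comp h ha
  obtain ⟨c', h6, h7⟩ := locn h h5
  have hc' : c' ≠ 0 := fun e' => tne h u (by rw [← e1, h.tc, h7, e', zero_smul])
  obtain ⟨q', -, e2, -⟩ := inv h h5 hc' h6
  refine ⟨q * b, ha, h4, e1, ?_⟩
  have e3 : a * (q * b) * (a * (q * b)) = a * (q * b) := by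
    rw [mul_assoc, ← mul_assoc (q * b), e1, h4.l]
  rw [← h5.l, ← e2, mul_assoc, e3]

theorem diag {u v : κ × Bool} {w θ : ℂ} {j : κ}
    (H : ∀ a a', Iso A Δ p u v w a a' → τ (a' * δ j a) = θ • τ (p u)) {a b : R}
    (ha : Hom A Δ p u v w a) (hb : Hom A Δ p v u (-w) b) : τ (b * δ j a) = θ • τ (b * a) := by
  by_cases hi : ∃ a a', Iso A Δ p u v w a a'
  · obtain ⟨a0, a1, hI⟩ := hi
    have z1 : Hom A Δ p u u 0 (a1 * a) := by simpa using ha.comp h hI.g
    have z2 : Hom A Δ p u u 0 (b * a0) := by simpa using hI.f.comp h hb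
    have z3 : Hom A Δ p u u 0 (a1 * a * (b * a0)) := by simpa using z2.comp h z1
    have z4 : Hom A Δ p u u 0 (p u * (a1 * δ j a0) * p u) :=
      mk' h u u (mul_mem hI.g.m (h.dm j _ hI.f.m)) (by simpa using wmul h hI.g.d (wd h hI.f.d j))
    obtain ⟨c, n1, n2⟩ := locn h z4
    have hc : c = θ := tinj h u (by
      rw [← n2, ← H _ _ hI, h.tc, ← mul_assoc, pp' h, ← mul_assoc, hI.g.l])
    have z5 : Hom A Δ p u u 0 (p u * (a1 * δ j a0) * p u - c • p u) :=
      ⟨sub_mem z4.m (A.smul_mem (h.pm u) c), by rw [mul_sub, z4.l, mul_smul_comm, pp' h],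
        by rw [sub_mul, z4.r, smul_mul_assoc, pp' h], by rw [map_sub, z4.d, map_smul, h.pd]; simp⟩
    have e1 := l1 h z5 z3 n1
    have ea : a0 * (a1 * a) = a := by rw [← mul_assoc, hI.fg, ha.l]
    have e2 : τ (a1 * a * (b * a0)) = τ (b * a) := by rw [h.tc, mul_assoc, ea]
    rw [mul_sub, mul_smul_comm, z3.r, map_sub, map_smul, sub_eq_zero, e2, hc] at e1
    rw [← e1]
    conv_lhs => rw [← ea, h.leib, mul_add, map_add, ← mul_assoc b a0, l2 h z1 z2, add_zero,
      ← mul_assoc, h.tc, ← z1.l, mul_assoc (p u), h.tc]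
    congr 1
    have e3 : a0 * (p u * a1) = p v := by rw [hI.g.l, hI.fg]
    calc a1 * a * (b * δ j a0) * p u = a1 * a * (b * (a0 * (p u * a1)) * δ j a0) * p u := by
          rw [e3, hb.r]
      _ = _ := by simp only [mul_assoc]
  · have h0 : ∀ a, Hom A Δ p u v w a → τ (b * a) = 0 := fun a ha => by
      by_contra h0
      obtain ⟨a', h1⟩ := iso_of h ha hb h0
      exact hi ⟨a, a', h1⟩
    have := h0 _ (mk' h u v (h.dm j a ha.m) (wd h ha.d j))
    rw [← mul_assoc, ← mul_assoc, hb.r, h.tc, ← mul_assoc, hb.l] at this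
    rw [this, h0 a ha, smul_zero]

theorem off (j l : κ) {θ : R} (hθ : θ ∈ A) (hd : Δ θ = (0 : ℂ) • θ) :
    τ (θ * δ j (p (l, false)) * p (l, false)) = 0 := by
  have h1 : ∀ i j, i ≠ j → τ (θ * p (i, false) * δ j (p (l, false)) * p (l, false)) = 0 := by
    intro i j hij
    obtain ⟨c, hc⟩ := cst h (mul_mem (mul_mem (mul_mem hθ (h.pm (i, false)))
      (h.dm j _ (h.pm (l, false)))) (h.pm (l, false)))
      (by simpa using wmul h (wmul h (wmul h hd (pd' h (i, false))) (wd h (pd' h (l, false)) j))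
            (pd' h (l, false)))
    rw [hc, h.lin2 i j l hij θ hθ c hc, map_zero]
  rw [← mul_one θ, ← h.ps, Finset.mul_sum, Finset.sum_mul, Finset.sum_mul, map_sum]
  refine Finset.sum_eq_zero fun u _ => ?_
  obtain ⟨i, b⟩ := u
  cases b
  · by_cases hij : i = j
    · subst hij
      have h2 : ∑ j, τ (θ * p (i, false) * δ j (p (l, false)) * p (l, false)) = 0 := by
        rw [← map_sum, ← Finset.sum_mul, ← Finset.mul_sum, ← h.sum, h.pd]; simp
      rwa [Finset.sum_eq_single i (fun j _ hj => h1 i j hj.symm) (by simp)] at h2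
    · exact h1 i j hij
  · rw [mul_assoc θ, mul_assoc θ, h.side, mul_zero, map_zero]

omit [Field W] [Algebra ℂ W] [Fintype κ] [DecidableEq κ] h in
theorem Iso.symm {u v : κ × Bool} {w : ℂ} {a a' : R} (hI : Iso A Δ p u v w a a') :
    Iso A Δ p v u (-w) a' a := ⟨hI.g, by simpa using hI.f, hI.fg, hI.gf⟩

theorem Iso.comp {u v z : κ × Bool} {w w' : ℂ} {a a' c c' : R} (ha : Iso A Δ p u v w a a')
    (hc : Iso A Δ p v z w' c c') : Iso A Δ p u z (w' + w) (c * a) (a' * c') :=
  ⟨ha.f.comp h hc.f, by rw [neg_add_rev]; exact hc.g.comp h ha.g,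
    by rw [mul_assoc, ← mul_assoc c', hc.gf, ha.f.l, ha.gf],
    by rw [mul_assoc, ← mul_assoc a, ha.fg, hc.g.l, hc.fg]⟩

theorem Iso.adj {u v : κ × Bool} {w : ℂ} {a a' : R} (ha : Iso A Δ p u v w a a') :
    Iso A Δ p (v.1, !v.2) (u.1, !u.2) w (st a) (st a') :=
  ⟨ha.f.adj h, ha.g.adj h, by rw [← h.smul, ha.fg, h.sp], by rw [← h.smul, ha.gf, h.sp]⟩

theorem t_comp {u v z : κ × Bool} {w w' : ℂ} {a a' c c' : R} (ha : Iso A Δ p u v w a a')
    (hc : Iso A Δ p v z w' c c') (j : κ) :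
    τ (a' * c' * δ j (c * a)) = τ (c' * δ j c) + τ (a' * δ j a) := by
  rw [h.leib, mul_add, map_add, ← mul_assoc, h.tc, ← mul_assoc, ← mul_assoc, ha.fg, hc.g.l,
    ← mul_assoc, mul_assoc a', hc.gf, ha.g.r]

theorem t_adj (a a' : R) (j : κ) : τ (st a' * δ j (st a)) = τ (a' * δ j a) := by
  rw [← h.sd, ← h.smul, h.ts, h.tc]

theorem t_symm {u v : κ × Bool} {w : ℂ} {a a' : R} (ha : Iso A Δ p u v w a a') (j : κ) :
    τ (a * δ j a') = - τ (a' * δ j a) := by
  have h1 := t_comp h ha (ha.symm) j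
  have h2 : Hom A Δ p u u 0 (p u) := ⟨h.pm u, pp' h u, pp' h u, pd' h u⟩
  rw [ha.gf, l2 h h2 h2] at h1
  exact eq_neg_of_add_eq_zero_left h1.symm

theorem n_eq {u v : κ × Bool} {w : ℂ} {a a' : R} (ha : Iso A Δ p u v w a a') :
    τ (p u) = τ (p v) := by rw [← ha.gf, h.tc, ha.fg]

theorem n_st (k : κ) (b : Bool) : τ (p (k, !b)) = τ (p (k, b)) := by rw [← h.sp, h.ts]

theorem loop0 {u : κ × Bool} {w : ℂ} {a a' : R} (ha : Iso A Δ p u u w a a') : w = 0 := by
  by_contra hw
  rcases h.neg a ha.f.m a' ha.g.m w hw ha.f.d ha.g.d with e | e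
  · exact nil_ne h e ha.gf ha.f.l
  · exact nil_ne h e ha.fg ha.g.l

end ALGx

open ALGx in
theorem alg : S_ALG := by
  intro R W κ _ _ _ _ _ _ A Δ δ st τ p h
  classical
  let P : κ → ℂ → Prop := fun k c => ∃ l w a a', Iso A Δ p (l, false) (k, true) w a a' ∧
    τ (a' * δ k a) = (if l = k then 2 * c else c) • τ (p (k, true))
  have lp : ∀ {k w a a'}, Iso A Δ p (k, false) (k, true) w a a' →
      τ (a' * δ k a) = w • τ (p (k, true)) := fun hI => by
    rw [← n_eq h hI, ← hI.gf]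
    exact one h hI.f hI.g rfl
  have mix : ∀ {k l w a a' w3 a3 a3' c}, l ≠ k → Iso A Δ p (l, false) (k, true) w a a' →
      τ (a' * δ k a) = c • τ (p (k, true)) → Iso A Δ p (k, false) (k, true) w3 a3 a3' →
      w3 = 2 * c := fun {k l w a a' w3 a3 a3' c} hl hI e h3 => by
    have i1 := hI.comp h (h3.symm)
    have i2 := i1.comp h (hI.adj h)
    have e1 := lin h i2.f i2.g (j := k) hl hl
    rw [t_comp h i1 (hI.adj h), t_comp h hI (h3.symm), t_adj h, t_symm h h3, lp h3, e] at e1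
    refine tinj h (k, true) ?_
    rw [two_mul, add_smul]
    linear_combination -e1
  have uniq : ∀ k c c', P k c → P k c' → c = c' := by
    rintro k c c' ⟨l, w, a, a', hI, e⟩ ⟨l2, w2, a2, a2', hI2, e2⟩
    by_cases hl : l = k <;> by_cases hl2 : l2 = k
    · subst hl
      subst hl2
      have h0 := loop0 h (hI.comp h (hI2.symm))
      rw [lp hI, if_pos rfl] at e
      rw [lp hI2, if_pos rfl] at e2
      linear_combination (tinj h _ e2 - tinj h _ e + h0) / 2
    · subst hl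
      rw [lp hI, if_pos rfl] at e
      rw [if_neg hl2] at e2
      linear_combination (mix hl2 hI2 e2 hI - tinj h _ e) / 2
    · subst hl2
      rw [lp hI2, if_pos rfl] at e2
      rw [if_neg hl] at e
      linear_combination (tinj h _ e2 - mix hl hI e hI2) / 2
    · have i1 := hI.comp h (hI2.symm)
      have e1 := lin h i1.f i1.g (j := k) hl hl2
      rw [t_comp h hI (hI2.symm), t_symm h hI2, e, e2, if_neg hl, if_neg hl2] at e1
      refine tinj h (k, true) ?_
      linear_combination e1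
  let y : κ → ℂ := fun k => if hc : ∃ c, P k c then hc.choose else 0
  have hy : ∀ k c, P k c → y k = c := fun k c hc => by
    have hc' : ∃ c, P k c := ⟨c, hc⟩
    simp only [y, dif_pos hc']
    exact uniq k _ _ hc'.choose_spec hc
  have own : ∀ {k l w a a'}, Iso A Δ p (l, false) (k, true) w a a' →
      τ (a' * δ k a) = (if l = k then 2 * y k else y k) • τ (p (k, true)) := by
    intro k l w a a' hI
    obtain ⟨c, hc⟩ := cst h (mul_mem hI.g.m (h.dm k a hI.f.m))
      (by simpa using wmul h hI.g.d (wd h hI.f.d k))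
    obtain ⟨n, hn, e⟩ := h.tp (k, true)
    have hn' : (n : ℂ) ≠ 0 := Nat.cast_ne_zero.2 hn
    have e1 : τ (a' * δ k a) = (c / n) • τ (p (k, true)) := by
      rw [hc, e, Algebra.smul_def, ← map_natCast (algebraMap ℂ W), ← map_mul, div_mul_cancel₀ _ hn']
    by_cases hl : l = k
    · rw [hy k (c / n / 2) ⟨l, w, a, a', hI, by rw [e1, if_pos hl]; congr 1; ring⟩, e1, if_pos hl]
      congr 1
      ring
    · rw [hy k (c / n) ⟨l, w, a, a', hI, by rw [e1, if_neg hl]⟩, e1, if_neg hl]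
  refine ⟨y, fun k l w η hη b hb dη db eb j => ?_⟩
  have hB : Hom A Δ p (k, true) (l, false) (-w) b := eb ▸ mk' h _ _ hb db
  have hA := mk' h (l, false) (k, true) hη dη
  have e0 := diag h (j := j) (θ := (if j = k then y k else 0) + if j = l then y l else 0)
    (fun a a' hI => ?_) hA hB
  · have o1 := off h j l (mul_mem hb hη) (by simpa using wmul h db dη)
    have o2 := off h j k (h.sm _ (mul_mem hη hb)) (wst h (by simpa using wmul h dη db))
    have o3 : τ (b * (δ j (p (k, true)) * η * p (l, false))) = 0 := by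
      have s1 : p (k, false) = st (p (k, true)) := (h.sp k true).symm
      rw [mul_assoc, h.tc, s1, ← h.sd, ← h.smul, ← h.smul, h.ts, ← mul_assoc, mul_assoc η,
        hB.r] at o2
      rw [← o2, ← mul_assoc, h.tc, ← mul_assoc, hB.l, ← mul_assoc, h.tc, ← mul_assoc]
    have o4 : τ (b * (p (k, true) * η * δ j (p (l, false)))) = 0 := by
      rw [← o1, ← mul_assoc, ← mul_assoc, hB.r, h.tc _ (p (l, false)), ← mul_assoc, ← mul_assoc,
        hB.l]
    have o5 : ∀ z, τ (b * (p (k, true) * z * p (l, false))) = τ (b * z) := fun z => by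
      rw [← mul_assoc, ← mul_assoc, hB.r, h.tc, ← mul_assoc, hB.l]
    rwa [h.leib, h.leib, add_mul, mul_add, mul_add, map_add, map_add, o3, o4, o5, o5, zero_add,
      add_zero] at e0
  · by_cases hk : j = k
    · subst hk
      rw [own hI, n_eq h hI, if_pos rfl]
      by_cases hl : l = j
      · subst hl
        rw [if_pos rfl, if_pos rfl, two_mul]
      · rw [if_neg hl, if_neg (Ne.symm hl), add_zero]
    · by_cases hl : j = l
      · subst hl
        have := own (hI.adj h)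
        rw [t_adj h, if_neg (Ne.symm hk)] at this
        rw [this, if_neg hk, if_pos rfl, zero_add, ← n_st h j true]
        rfl
      · rw [lin h hI.f hI.g (Ne.symm hl) (Ne.symm hk), if_neg hk, if_neg hl, add_zero, zero_smul]

end Pool.Agent.MP_51db15_ag.Qh

end
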