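import Pool.Agent.MP_51db15_ag.Qh.Spec2

/-! Assembly of the rows for the completed germ. -/

namespace Pool.Agent.MP_51db15_ag.Qh

theorem rdv_sum {K : Type} [Field K] [Algebra ℂ K] {S : Subalgebra ℂ K} (F : Finset ℤ)
    (η : ℤ → FF K) (h : ∀ n, Rdv S (η n)) : Rdv S (∑ n ∈ F, η n) := fun v X Y h1 h2 h3 => by
  rw [LinearMap.sum_apply, LinearMap.sum_apply]
  exact DV.Ge.sum fun n _ => h n v X Y h1 h2 h3

theorem main2 (ini : S_INI) (ht : S_HAT) (b : S_BAS) (ev : S_EV) (vt : S_VTX) (ef : S_EVF)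
    (hl : S_HL) (hg : S_HGEN) (hc : S_HCMP) (h1 : S_HP1) (hcl : S_HCLO) (hr : S_HREG)
    (hpi : S_HPI) (hpf : S_HPERF) (hlt : S_HLTP) (cl : S_CLO) (pi : S_PI) (ic : S_IDC)
    (st : S_ST) (cn : S_CON) (al : S_ALG) (pf : S_PERF) (sl : S_SLP2) (en : S_END2)
    (ι : Type) [Fintype ι] [DecidableEq ι] (a : ι → ℕ) (ha : ∀ i, 0 < a i)
    (J : Ideal (MvPolynomial ι ℂ)) [IsDomain (MvPolynomial ι ℂ ⧸ J)]
    [IsIntegrallyClosed (MvPolynomial ι ℂ ⧸ J)]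
    (hJ : ∀ g ∈ J, ∀ n, MvPolynomial.weightedHomogeneousComponent a n g ∈ J)
    [IsDomain (MvPowerSeries ι ℂ ⧸ J.map MvPolynomial.coeToMvPowerSeries.ringHom)]
    (ω : FR (MvPowerSeries ι ℂ ⧸ J.map MvPolynomial.coeToMvPowerSeries.ringHom))
    (hω : Hy.IsSymplecticForm ω) (hk : KaeR ω) :
    ∃ (K : Type) (_ : Field K) (_ : Algebra ℂ K) (φ : MvPolynomial ι ℂ →ₐ[ℂ] K)
      (ω₀ : FF K) (𝒢 : ℕ → Submodule ℂ φ.range), RingHom.ker φ = J ∧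
        IsConicalSymplectic φ.range ω₀ 𝒢 ∧ ∀ d, 0 < d → ∀ f ∈ 𝒢 d,
          f ∈ Ideal.span (Set.range fun i => φ.rangeRestrict (MvPolynomial.X i)) := by
  obtain ⟨K, _, _, φ, E, hker, cx, hN, hvx⟩ := ini ι a J hJ
  obtain ⟨μ, i0, hH⟩ := ht ι K a J φ E ha hJ hker cx.eig
  let S := φ.range
  let x : ι → K := fun i => φ (.X i)
  have hb := b K ι S E x a cx
  have he := ev K ι S E x a cx hb
  have hv := vt K ι S E x a cx ha hb he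
  have hC : Cone S E x a := ⟨cx, ha, hb, he, hv, ef K ι S E x a cx hb he hv⟩
  have hL := hl K ι _ S E x a μ i0 hC hH
  have hG := hg K ι _ S E x a μ i0 hC hH hL
  obtain ⟨η, hη⟩ := hc K ι _ S E x a μ i0 ω hC hH hL
  obtain ⟨p1, B, hB⟩ := h1 K ι _ S E x a μ i0 ω η hC hH hL hη
  have hP := hpi K ι _ S E x a μ i0 ω hC hL hG hω
  obtain ⟨N, s, hs, s1, hS⟩ := hpf K ι _ S E x a μ i0 ω η B hC hH hL hG hP hη p1 hB
  obtain ⟨⟨H, hH1, -⟩, -⟩ := cl K S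
  have hm : ∑ n ∈ Finset.Icc B N, η n ∈ H := sum_mem fun n _ =>
    (hH1 _).2 ⟨(p1 n).1, hcl K ι _ S E x a μ i0 ω η hC hH hL hη hω n⟩
  obtain ⟨hreg, hclo⟩ := (hH1 _).1 hm
  have s0 : s ≠ 0 := by
    rintro rfl
    obtain ⟨c, hc, e⟩ := s1
    refine hv.max.ne_top ((Ideal.eq_top_iff_one _).2 ?_)
    convert neg_mem hc using 1
    refine Subtype.ext ?_
    simp [← e]
  obtain ⟨π, hI⟩ := pi K ι S x _ s hb hclo.1 s0 fun i => by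
    obtain ⟨D, hD, e⟩ := hS _ (dd_mem (hb.mem i))
    exact ⟨D, hD, fun D' => by rw [e]; rfl⟩
  have hT := hlt K ι _ S E x a μ i0 ω hC hH hL hG hP hω.1 hk
  obtain ⟨κ, _, _, e, hd⟩ := ic K ι S E x a hC
  obtain ⟨σ, hσ⟩ := st K ι S x hb
  have hA := cn K ι κ S E x a e σ hC hT hN hd hσ
  obtain ⟨y, hy⟩ := al _ _ _ _ _ _ _ _ _ hA
  have hAll : All2 S E x a e y (∑ n ∈ Finset.Icc B N, η n) := ⟨hC, hN, hT, hd, hy, hreg, hclo,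
    rdv_sum _ η (hr K ι _ S E x a μ i0 ω η hC hH hL hη hk),
    fun ω' h' => pf K ι κ S E x a e σ _ ω' s π hC hA hs s1 hI h'⟩
  obtain ⟨ω', 𝒢, c1, c2⟩ := en K ι κ S E x a e y _ hAll (sl K ι κ S E x a e y _ hAll)
  exact ⟨K, _, _, φ, ω', 𝒢, Ideal.ext hker, c1, hvx ▸ c2⟩

end Pool.Agent.MP_51db15_ag.Qh
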