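import Pool.Agent.MP_51db15_ag.Qh.Spec3

/-! Assembly of the rows for a formal germ with a contracting vector field. -/

namespace Pool.Agent.MP_51db15_ag.Qh

namespace MAIN3x

variable {K : Type} [Field K] [Algebra ℂ K] {S : Subalgebra ℂ K}

theorem rdv_sum (F : Finset ℤ) (η : ℤ → FF K) (h : ∀ n, Rdv S (η n)) : Rdv S (∑ n ∈ F, η n) :=
  fun v X Y h1 h2 h3 => by
    rw [LinearMap.sum_apply, LinearMap.sum_apply]
    exact DV.Ge.sum fun n _ => h n v X Y h1 h2 h3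

theorem transport {R R' : Type} [CommRing R] [Algebra ℂ R] [CommRing R'] [Algebra ℂ R']
    {E : DD K} {μ : R →ₐ[ℂ] PowerSeries K} {i0 : S →ₐ[ℂ] R} (h : Hat S E μ i0) (e : R' ≃ₐ[ℂ] R) :
    Hat S E (μ.comp (e : R' →ₐ[ℂ] R)) ((e.symm : R →ₐ[ℂ] R').comp i0) := by
  refine ⟨h.inj.comp e.injective, fun r n => h.mem (e r) n, fun c hc => ?_,
    @isNoetherianRing_of_ringEquiv _ _ _ _ e.symm.toRingEquiv h.noeth, fun g n hg => ?_,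
    fun D P hP r => ?_⟩
  · obtain ⟨r, hr⟩ := h.surj c hc
    exact ⟨e.symm r, by simpa using hr⟩
  · simpa using h.emb g n hg
  · let D' : DR R := Derivation.mk' (e.toLinearMap ∘ₗ D.toLinearMap ∘ₗ e.symm.toLinearMap)
      fun a b => by simp
    have h1 := h.chain D' (P.comap (e.symm : R →ₐ[ℂ] R')) (fun g => by simpa [D'] using hP g) (e r)
    simpa [D'] using h1

end MAIN3x

open MAIN3x in
theorem main3 (hj : S_HJ) (hgr : S_HG) (ini : S_INI2) (hn : S_HNRM) (ht : S_HAT) (b : S_BAS)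
    (ev : S_EV) (vt : S_VTX) (ef : S_EVF) (hl : S_HL) (hg : S_HGEN) (hc : S_HCMP) (h1 : S_HP1)
    (hcl : S_HCLO) (hr : S_HREG) (hpi : S_HPI) (hpf : S_HPERF) (hlt : S_HLTP) (cl : S_CLO)
    (pi : S_PI) (ic : S_IDC) (st : S_ST) (cn : S_CON) (al : S_ALG) (pf : S_PERF) (sl : S_SLP2)
    (en : S_END2) (ι : Type) [Fintype ι] [DecidableEq ι] (I : Ideal (MvPowerSeries ι ℂ))
    [IsDomain (MvPowerSeries ι ℂ ⧸ I)] [IsIntegrallyClosed (MvPowerSeries ι ℂ ⧸ I)]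
    (ω : FR (MvPowerSeries ι ℂ ⧸ I)) (hω : Hy.IsSymplecticForm ω) (hk : KaeR ω)
    (ξ : Derivation ℂ (MvPowerSeries ι ℂ) (MvPowerSeries ι ℂ)) (x1 : ∀ g ∈ I, ξ g ∈ I)
    (x2 : ∀ g ∈ IsLocalRing.maximalIdeal (MvPowerSeries ι ℂ),
      ξ g ∈ IsLocalRing.maximalIdeal (MvPowerSeries ι ℂ))
    (x3 : ∀ (c : ℂ), ∀ g ∈ IsLocalRing.maximalIdeal (MvPowerSeries ι ℂ),
      g ∉ IsLocalRing.maximalIdeal (MvPowerSeries ι ℂ) ^ 2 →
      ξ g - c • g ∈ IsLocalRing.maximalIdeal (MvPowerSeries ι ℂ) ^ 2 → 0 < c.re) :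
    ∃ (ψ : MvPowerSeries ι ℂ ≃ₐ[ℂ] MvPowerSeries ι ℂ) (K : Type) (_ : Field K) (_ : Algebra ℂ K)
      (φ : MvPolynomial ι ℂ →ₐ[ℂ] K) (ω₀ : FF K) (𝒢 : ℕ → Submodule ℂ φ.range),
      ((RingHom.ker φ).map MvPolynomial.coeToMvPowerSeries.ringHom).map ψ = I ∧
        IsConicalSymplectic φ.range ω₀ 𝒢 ∧ ∀ d, 0 < d → ∀ f ∈ 𝒢 d,
          f ∈ Ideal.span (Set.range fun i => φ.rangeRestrict (MvPolynomial.X i)) := by
  obtain ⟨ψ, c, c1, c2⟩ := hj ι I ξ x1 x2 x3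
  obtain ⟨a, J, ha, hJ, j1, j2⟩ := hgr ι (I.comap ψ) c c1 c2
  have hp : I.IsPrime := (Ideal.Quotient.isDomain_iff_prime I).1 inferInstance
  have hI : (J.map MvPolynomial.coeToMvPowerSeries.ringHom).map ψ = I := by
    rw [j1]
    exact Ideal.map_comap_of_surjective ψ ψ.surjective I
  obtain ⟨K, _, _, φ, E, hker, cx, hvx⟩ := ini ι a J (j2 ▸ Ideal.comap_isPrime _ _) hJ
  obtain ⟨μ0, i1, hH0⟩ := ht ι K a J φ E ha hJ hker cx.eig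
  obtain ⟨μ, i0, hH⟩ : ∃ (μ : (MvPowerSeries ι ℂ ⧸ I) →ₐ[ℂ] PowerSeries K)
      (i0 : φ.range →ₐ[ℂ] (MvPowerSeries ι ℂ ⧸ I)), Hat φ.range E μ i0 :=
    ⟨_, _, transport hH0 (Ideal.quotientEquivAlg _ I ψ hI.symm).symm⟩
  let S := φ.range
  let x : ι → K := fun i => φ (.X i)
  have hb := b K ι S E x a cx
  have he := ev K ι S E x a cx hb
  have hv := vt K ι S E x a cx ha hb he
  have hC : Cone S E x a := ⟨cx, ha, hb, he, hv, ef K ι S E x a cx hb he hv⟩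
  have hL := hl K ι _ S E x a μ i0 hC hH
  have hN := hn K ι _ S E x a μ i0 hC hH hL
  have hG := hg K ι _ S E x a μ i0 hC hH hL
  obtain ⟨η, hη⟩ := hc K ι _ S E x a μ i0 ω hC hH hL
  obtain ⟨p1, B, hB⟩ := h1 K ι _ S E x a μ i0 ω η hC hH hL hη
  have hP := hpi K ι _ S E x a μ i0 ω hC hL hG hω
  obtain ⟨N, s, hs, s1, hS⟩ := hpf K ι _ S E x a μ i0 ω η B hC hH hL hG hP hη p1 hB
  obtain ⟨⟨H, hH1, -⟩, -⟩ := cl K S
  have hm : ∑ n ∈ Finset.Icc B N, η n ∈ H := sum_mem fun n _ =>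
    (hH1 _).2 ⟨(p1 n).1, hcl K ι _ S E x a μ i0 ω η hC hH hL hη hω n⟩
  obtain ⟨hreg, hclo⟩ := (hH1 _).1 hm
  have s0 : s ≠ 0 := by
    rintro rfl
    obtain ⟨c, hc, e⟩ := s1
    refine hv.max.ne_top ((Ideal.eq_top_iff_one _).2 ?_)
    convert neg_mem hc using 1
    refine Subtype.ext ?_
    simp [← e]
  obtain ⟨π, hπ⟩ := pi K ι S x _ s hb hclo.1 s0 fun i => by
    obtain ⟨D, hD, e⟩ := hS _ (dd_mem (hb.mem i))
    exact ⟨D, hD, fun D' => by rw [e]; rfl⟩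
  have hT := hlt K ι _ S E x a μ i0 ω hC hH hL hG hP hω.1 hk
  obtain ⟨κ, _, _, e, hd⟩ := ic K ι S E x a hC
  obtain ⟨σ, hσ⟩ := st K ι S x hb
  have hA := cn K ι κ S E x a e σ hC hT hN hd hσ
  obtain ⟨y, hy⟩ := al _ _ _ _ _ _ _ _ _ hA
  have hAll : All2 S E x a e y (∑ n ∈ Finset.Icc B N, η n) := ⟨hC, hN, hT, hd, hy, hreg, hclo,
    rdv_sum _ η (hr K ι _ S E x a μ i0 ω η hC hH hL hη hk),
    fun ω' h' => pf K ι κ S E x a e σ _ ω' s π hC hA hs s1 hπ h'⟩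
  obtain ⟨ω', 𝒢, d1, d2⟩ := en K ι κ S E x a e y _ hAll (sl K ι κ S E x a e y _ hAll)
  exact ⟨ψ, K, _, _, φ, ω', 𝒢, (Ideal.ext hker : RingHom.ker φ = J) ▸ hI, d1, hvx ▸ d2⟩

end Pool.Agent.MP_51db15_ag.Qh
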