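import Pool.Agent.MP_51db15_ag.Qh.Spec4

/-! Row MAIN4: a balanced normal weighted tangent cone gives a contracting field. -/

namespace Pool.Agent.MP_51db15_ag.Qh

namespace MAIN4x

variable {K ι R : Type} [Field K] [Algebra ℂ K] [Fintype ι] [CommRing R] [Algebra ℂ R]
  {S : Subalgebra ℂ K} {E : DD K} {x : ι → K} {a : ι → ℕ} {F : ℤ → Ideal R} {X : ι → R}
  {σ : ℤ → R →ₗ[ℂ] K}

omit [Fintype ι] in
theorem exD (h : Flt S E x a F X σ) (hE : E ≠ 0) : ∃ D : DR R, D ≠ 0 := by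
  obtain ⟨δ, d, D, h1, -, h3⟩ := h.lift ⊥ Ideal.isPrime_bot
    (fun g hg => ⟨0, zero_mem _, by rw [(Ideal.mem_bot).1 hg]; simp⟩)
    ⟨0, zero_mem _, 1, by simp, fun g hg => ⟨0, by simpa using hg⟩⟩ E h.cone.ev.tm 0 (by simp)
  refine ⟨D, fun h0 => ?_⟩
  subst h0
  have h4 := h.sy.uniq _ _ _ _ h3 ((h.sy.zero _ _).2 fun k r _ => zero_mem _)
  rcases smul_eq_zero.1 h4 with h5 | h5
  · exact h1 (by rw [Ideal.mem_bot]; exact Subtype.ext h5)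
  · exact hE h5

theorem euler (om0 : S_OM0) (omr : S_OMR) (omc : S_OMC) (pi0 : S_PI0) (eq : S_EQ) (ham0 : S_HAM0)
    (imp : S_IMP) (h : Flt S E x a F X σ) (hN : Nrm S) (ω : FR R) (hω : Hy.IsSymplecticForm ω)
    (ξ : DR R) (hξ : Nc.IsDilating ω ξ) (h1 : PosForms S E) (h2 : Balanced S E) :
    ∃ D : DR R, Sym F σ D 0 E := by
  by_cases hE : E = 0
  · refine ⟨0, ?_⟩
    rw [hE]
    exact (h.sy.zero _ _).2 fun k r _ => zero_mem _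
  have hD := exD h hE
  have h0 : ω ≠ 0 := by
    rintro rfl
    obtain ⟨D, hD⟩ := hD
    refine hD (Derivation.ext fun g => ?_)
    obtain ⟨Y, hY⟩ := hω.2.2 g
    exact (hY D).symm
  obtain ⟨l, ω₀, n0, hl⟩ := om0 K ι R S E x a F X σ ω h h0
  obtain ⟨c0, w0⟩ := omc K ι R S E x a F X σ ω l ω₀ h hω hl
  have r0 := omr K ι R S E x a F X σ ω l ω₀ h hN hl w0
  obtain ⟨l', B, b0, b1, b2, b3, b4⟩ := pi0 K ι R S E x a F X σ ω h hω hD
  have hle : 0 ≤ l + -l' := h2 ω₀ B l (-l') n0 c0.1 (fun Y Z hY hZ => r0 Y hY Z hZ)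
    (fun Y Z => by
      have e : lf E ω₀ Y Z = (l : ℂ) • ω₀ Y Z := by rw [w0]; rfl
      rw [← e, lf_apply]
      ring) b0 b1 b2 b3
  obtain ⟨e1, e2⟩ := eq K ι R S E x a F X σ ω l l' ω₀ B h hω hD hl b4 (by omega)
  subst e1
  obtain ⟨p1, p2⟩ := ham0 K ι S E x a ω₀ B l' h.cone h1 r0 c0 w0 b1 e2
  obtain ⟨ξ', hs⟩ := imp K ι R S E x a F X σ ω l' ω₀ B h hω hl b4 w0 (p1 hE) p2 ξ hξ
  refine ⟨(l' : ℂ) • ξ', ?_⟩
  have h3 := h.sy.csmul _ _ _ (l' : ℂ) hs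
  rwa [smul_smul, mul_inv_cancel₀ (by exact_mod_cast (p1 hE).ne'), one_smul] at h3

end MAIN4x

open MAIN4x in
theorem main4 (wc : S_WC) (fa : S_FA) (fb : S_FB) (sy : S_SY) (lift : S_LIFT) (om0 : S_OM0)
    (omr : S_OMR) (omc : S_OMC) (pi0 : S_PI0) (eq : S_EQ) (ham0 : S_HAM0) (imp : S_IMP)
    (amb : S_AMB) (b : S_BAS) (ev : S_EV) (vt : S_VTX) (ef : S_EVF) (ι K : Type) [Fintype ι]
    [DecidableEq ι] [Field K] [Algebra ℂ K] (I : Ideal (MvPowerSeries ι ℂ))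
    [IsDomain (MvPowerSeries ι ℂ ⧸ I)] (ω : FR (MvPowerSeries ι ℂ ⧸ I))
    (hω : Hy.IsSymplecticForm ω) (ξ : DR (MvPowerSeries ι ℂ ⧸ I)) (hξ : Nc.IsDilating ω ξ)
    (a : ι → ℕ) (ha : ∀ i, 0 < a i) (φ : MvPolynomial ι ℂ →ₐ[ℂ] K)
    (hker : RingHom.ker φ = wCone a I) [IsFractionRing φ.range K] [IsIntegrallyClosed φ.range]
    (E : DD K) (hE : ∀ i, E (φ (.X i)) = (a i : ℂ) • φ (.X i)) (h1 : PosForms φ.range E)
    (h2 : Balanced φ.range E) :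
    ∃ η : Derivation ℂ (MvPowerSeries ι ℂ) (MvPowerSeries ι ℂ), (∀ g ∈ I, η g ∈ I) ∧
      (∀ g ∈ IsLocalRing.maximalIdeal (MvPowerSeries ι ℂ),
        η g ∈ IsLocalRing.maximalIdeal (MvPowerSeries ι ℂ)) ∧
      ∀ (c : ℂ), ∀ g ∈ IsLocalRing.maximalIdeal (MvPowerSeries ι ℂ),
        g ∉ IsLocalRing.maximalIdeal (MvPowerSeries ι ℂ) ^ 2 →
        η g - c • g ∈ IsLocalRing.maximalIdeal (MvPowerSeries ι ℂ) ^ 2 → 0 < c.re := by
  obtain ⟨F, hW⟩ := wc ι K a I φ ha hker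
  have hA := fa ι K _ _ a φ F hW
  obtain ⟨σ, hB, hσ⟩ := fb ι K _ _ a φ F E hW hE
  have cx : Cx φ.range E (fun i => φ (.X i)) a := by
    refine ⟨?_, fun y => ?_, hE⟩
    · rw [Algebra.adjoin_range_eq_range_aeval]
      congr 1
      ext i
      simp
    · obtain ⟨g, h, hh, rfl⟩ := IsFractionRing.div_surjective (A := φ.range) y
      exact ⟨g, g.2, h, h.2, fun e => nonZeroDivisors.ne_zero hh (Subtype.ext e), rfl⟩
  have hb := b K ι _ E _ a cx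
  have he := ev K ι _ E _ a cx hb
  have hv := vt K ι _ E _ a cx ha hb he
  have hC : Cone φ.range E (fun i => φ (.X i)) a := ⟨cx, ha, hb, he, hv, ef K ι _ E _ a cx hb he hv⟩
  have hS := sy K ι _ _ E _ a F _ σ hC hA hB
  have hN : Nrm φ.range := fun y hy => by
    obtain ⟨z, rfl⟩ := IsIntegrallyClosed.isIntegral_iff.1 hy
    exact z.2
  obtain ⟨D, hD⟩ := euler om0 omr omc pi0 eq ham0 imp
    ⟨hC, hA, hB, hS, lift ι K _ _ a φ F E σ hW hC hA hB hσ hS⟩ hN ω hω ξ hξ h1 h2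
  obtain ⟨η, e1, e2, e3⟩ := amb ι K _ _ a φ F D hW fun i => by
    have m1 := hD.1 _ _ (hA.gen i)
    have m2 := hD.2 _ _ (hA.gen i)
    rw [add_zero] at m1 m2
    refine (hB.zero _ _ (sub_mem m1 ?_)).1 ?_
    · rw [Algebra.smul_def]
      exact Ideal.mul_mem_left _ _ (hA.gen i)
    · rw [map_sub, map_smul, m2, hB.gen, hE, sub_self]
  exact ⟨η, fun g hg => Ideal.Quotient.eq_zero_iff_mem.1
    (e1 g (Ideal.Quotient.eq_zero_iff_mem.2 hg)), e2, e3⟩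

end Pool.Agent.MP_51db15_ag.Qh
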