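import Pool.Agent.MP_51db15_ag.Qh.Spec4
import Pool.Agent.MP_51db15_ag.Qh.GEN
import Pool.Agent.MP_51db15_ag.Qh.HCMP

/-! PROJECT SD, row OM0: the leading form. -/

namespace Pool.Agent.MP_51db15_ag.Qh

open Module

namespace OM0x

variable {K ι R : Type} [Field K] [Algebra ℂ K] [CommRing R] [Algebra ℂ R] {S : Subalgebra ℂ K}
  {E : DD K} {x : ι → K} {a : ι → ℕ} {F : ℤ → Ideal R} {X : ι → R} {σ : ℤ → R →ₗ[ℂ] K}

theorem basis (h : Flt S E x a F X σ) : ∃ (κ : Type) (_ : Fintype κ) (b : Basis κ K (DD K))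
    (p : κ → ℤ) (D : κ → DR R), ∀ i, Sym F σ (D i) (p i) (b i) := by
  obtain ⟨κ, _, b, p, hb⟩ := HCMPx.basis h.cone.bas h.cone.ev
  choose δ d D h1 _ h3 using fun i => h.lift ⊥ Ideal.isPrime_bot
    (fun g hg => ⟨0, zero_mem _, by simp [(Submodule.mem_bot _).1 hg]⟩)
    ⟨0, zero_mem _, 1, by simp, fun g hg => ⟨0, by simpa using hg⟩⟩ (b i) (hb i).1 (p i) (hb i).2
  refine ⟨κ, inferInstance, b.unitsSMul fun i => Units.mk0 (δ i : K)
    fun hz => h1 i (Subtype.ext hz), fun i => d i + p i, D, fun i => ?_⟩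
  rw [Basis.unitsSMul_apply]
  exact h3 i

theorem sym_sum (h : SY S E F σ) {κ : Type} (s : Finset κ) (D : κ → DR R) (p : ℤ)
    (D₀ : κ → DD K) (hD : ∀ i, Sym F σ (D i) p (D₀ i)) :
    Sym F σ (∑ i ∈ s, D i) p (∑ i ∈ s, D₀ i) := by
  classical
  induction s using Finset.induction_on with
  | empty => exact (h.zero _ _).2 fun k r _ => zero_mem _
  | insert i s hi ih =>
    rw [Finset.sum_insert hi, Finset.sum_insert hi]
    exact h.add _ _ _ _ _ (hD i) ih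

theorem one (h : Flt S E x a F X σ) {κ : Type} [Fintype κ] (b : Basis κ K (DD K)) (p : κ → ℤ)
    (D : κ → DR R) (hb : ∀ i, Sym F σ (D i) (p i) (b i)) (φ : DR R →ₗ[R] R) (n : ℤ)
    (hφ : ∀ Y q, Od F Y q → φ Y ∈ F (q + n)) {Y : DR R} {q : ℤ} {Y₀ : DD K}
    (hY : Sym F σ Y q Y₀) :
    σ (q + n) (φ Y) = ∑ i, b.repr Y₀ i * σ (p i + n) (φ (D i)) := by
  have hc := HCMPx.coef b p (fun i => (h.sy.mem _ _ _ (hb i)).2) Y₀ q (h.sy.mem _ _ _ hY).2
  obtain ⟨s, hs, hs0, ⟨d, hd⟩, hsc⟩ :=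
    HCMPx.denom gen h.cone.bas h.cone.ev (fun i => b.repr Y₀ i) _ hc
  obtain ⟨r, r1, r2⟩ := h.fb.surj d s hs hd
  choose t t1 t2 using fun i => h.fb.surj (d + (q - p i)) _ (hsc i) (by
    rw [Derivation.leibniz, hc, hd, Int.cast_add, add_smul, smul_eq_mul, smul_eq_mul,
      mul_smul_comm, mul_smul_comm, mul_comm (b.repr Y₀ i) s, add_comm])
  have h1 := sym_sum h.sy Finset.univ (fun i => t i • D i) (d + q)
    (fun i => (s * b.repr Y₀ i) • b i) fun i => by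
      have := h.sy.smul _ _ _ _ _ (t1 i) (hb i)
      rwa [t2, add_assoc, sub_add_cancel] at this
  simp only [mul_smul, ← Finset.smul_sum, b.sum_repr] at h1
  have h2 := h.sy.add _ _ _ _ _ (h.sy.smul _ _ _ _ _ r1 hY) (h.sy.csmul _ _ _ (-1) h1)
  rw [r2, neg_one_smul, neg_one_smul, add_neg_cancel, h.sy.zero] at h2
  have h3 := hφ _ _ h2
  have h4 := (h.fb.zero (d + q + n) _ (h.fa.anti (by omega) h3)).2
    (by rwa [add_right_comm] at h3)
  rw [map_add, map_neg, map_sum, map_smul, map_add, map_neg, map_sum, add_neg_eq_zero,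
    smul_eq_mul, add_assoc, h.fb.mul _ _ _ r1 _ (hφ _ _ hY.1), r2] at h4
  refine mul_left_cancel₀ hs0 (h4.trans ?_)
  rw [Finset.mul_sum]
  refine Finset.sum_congr rfl fun i _ => ?_
  rw [map_smul, smul_eq_mul, show d + (q + n) = d + (q - p i) + (p i + n) by ring,
    h.fb.mul _ _ _ (t1 i) _ (hφ _ _ (hb i).1), t2, mul_assoc]

end OM0x

open OM0x in
theorem om0 (g : S_GENF) : S_OM0 := by
  classical
  intro K ι R _ _ _ _ _ S E x a F X σ ω h h0
  obtain ⟨n, u, p, hu, hg⟩ := g K ι R S E x a F X σ h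
  have all : ∀ l, (∀ i j, ω (u i) (u j) ∈ F (p i + p j + l)) → ∀ Y q Y' q', Od F Y q →
      Od F Y' q' → ω Y Y' ∈ F (q + q' + l) := fun l hl Y q Y' q' hY hY' => by
    obtain ⟨r, r1, rfl⟩ := hg Y q hY
    obtain ⟨t, t1, rfl⟩ := hg Y' q' hY'
    rw [LinearMap.BilinForm.sum_left]
    refine sum_mem fun i _ => ?_
    rw [LinearMap.BilinForm.sum_right]
    refine sum_mem fun j _ => ?_
    rw [LinearMap.BilinForm.smul_left, LinearMap.BilinForm.smul_right,
      show q + q' + l = q - p i + (q' - p j + (p i + p j + l)) by ring]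
    exact h.fa.mul _ _ _ (r1 i) _ (h.fa.mul _ _ _ (t1 j) _ (hl i j))
  obtain ⟨l, l1, l2⟩ := Int.exists_greatest_of_bdd
    (P := fun l => ∀ i j, ω (u i) (u j) ∈ F (p i + p j + l)) (by
      by_contra hn
      obtain ⟨B, hB⟩ := h.sy.low
      refine h0 (LinearMap.ext₂ fun Y Y' => h.fa.sep _ fun k => ?_)
      by_contra hk
      refine hn ⟨k - B - B, fun l hl => ?_⟩
      by_contra hz
      exact hk (h.fa.anti (by omega) (all l hl Y B Y' B (hB Y) (hB Y')))) (by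
      obtain ⟨M, hM⟩ := Finite.exists_le fun y : Fin n × Fin n => p y.1 + p y.2
      refine ⟨-M, fun i j => ?_⟩
      rw [h.fa.top _ (by have : p i + p j ≤ M := hM (i, j); omega)]
      trivial)
  obtain ⟨κ, _, b, e, D, hb⟩ := basis h
  have ld : Lead F σ ω l (Matrix.toBilin b fun i j => σ (e i + e j + l) (ω (D i) (D j))) := by
    intro Y Y' q q' Y₀ Y₁ hY hY'
    refine ⟨all l l1 _ _ _ _ hY.1 hY'.1, ?_⟩
    rw [Matrix.toBilin_apply, add_assoc]
    refine Eq.trans ?_ (one h b e D hb (ω.flip Y') (q' + l)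
      (fun Z z hZ => add_assoc z q' l ▸ all l l1 _ _ _ _ hZ hY'.1) hY).symm
    refine Finset.sum_congr rfl fun i _ => ?_
    have h1 := one h b e D hb (ω (D i)) (e i + l)
      (fun Z z hZ => add_left_comm z (e i) l ▸ add_assoc (e i) z l ▸
        all l l1 _ _ _ _ (hb i).1 hZ) hY'
    rw [add_left_comm]
    refine Eq.trans ?_ (congrArg (b.repr Y₀ i * ·) h1).symm
    simp only [Finset.mul_sum]
    refine Finset.sum_congr rfl fun j _ => ?_
    rw [add_left_comm (e j), add_assoc]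
    ring
  refine ⟨l, _, fun hz => ?_, ld⟩
  have := l2 (l + 1) fun i j => by
    obtain ⟨Y₀, hY⟩ := h.sy.ex _ _ (hu i)
    obtain ⟨Y₁, hY'⟩ := h.sy.ex _ _ (hu j)
    have h1 := (ld _ _ _ _ _ _ hY hY').2
    rw [hz] at h1
    rw [← add_assoc]
    exact (h.fb.zero _ _ (l1 i j)).1 h1.symm
  omega

end Pool.Agent.MP_51db15_ag.Qh
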