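import Pool.Agent.MP_51db15_ag.Qh.SPN

/-! Row OMC: the leading form is closed and homogeneous. -/

namespace Pool.Agent.MP_51db15_ag.Qh

open Module

namespace OMCx

variable {K ι R : Type} [Field K] [Algebra ℂ K] [CommRing R] [Algebra ℂ R]
  {S : Subalgebra ℂ K} {E : DD K} {x : ι → K} {a : ι → ℕ} {F : ℤ → Ideal R} {X : ι → R}
  {σ : ℤ → R →ₗ[ℂ] K}

theorem ind (h : Flt S E x a F X σ) (P : DD K → Prop) (h0 : P 0)
    (ha : ∀ u v, P u → P v → P (u + v)) (hs : ∀ (g : K) u, P u → P (g • u))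
    (hh : ∀ D p D₀, Sym F σ D p D₀ → P D₀) (Y : DD K) : P Y := by
  have m : Y ∈ Submodule.span K {D₀ : DD K | ∃ D p, Sym F σ D p D₀} := by
    rw [h.span]
    trivial
  induction m using Submodule.span_induction with
  | mem u hu =>
    obtain ⟨D, p, e⟩ := hu
    exact hh D p u e
  | zero => exact h0
  | add u v _ _ a b => exact ha u v a b
  | smul g u _ a => exact hs g u a

/-- the Cartan expression -/
def Ca (η : FF K) (U Y Z : DD K) : K :=
  U (η Y Z) - Y (η U Z) + Z (η U Y) - η ⁅U, Y⁆ Z + η ⁅U, Z⁆ Y - η ⁅Y, Z⁆ U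

theorem tri (h : Flt S E x a F X σ) (η : FF K) (sk : ∀ U Y, η U Y + η Y U = 0)
    (hc : ∀ D p U, Sym F σ D p U → ∀ D' q Y, Sym F σ D' q Y → ∀ D'' r Z, Sym F σ D'' r Z →
      Ca η U Y Z = 0) (U Y Z : DD K) : Ca η U Y Z = 0 := by
  refine ind h (fun U => Ca η U Y Z = 0) (by simp [Ca]) (fun u v a b => ?_)
    (fun g u a => ?_) (fun D p U kp => ?_) U
  · simp only [Ca, map_add, add_lie, LinearMap.add_apply, Derivation.add_apply] at a b ⊢
    linear_combination a + b
  · simp only [Ca, smul_lie', map_sub, map_smul, LinearMap.sub_apply, LinearMap.smul_apply,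
      Derivation.smul_apply, smul_eq_mul, Derivation.leibniz] at a ⊢
    linear_combination g * a
  refine ind h (fun Y => Ca η U Y Z = 0) (by simp [Ca]) (fun u v a b => ?_)
    (fun g u a => ?_) (fun D' q Y kq => ?_) Y
  · simp only [Ca, map_add, add_lie, lie_add, LinearMap.add_apply, Derivation.add_apply] at a b ⊢
    linear_combination a + b
  · simp only [Ca, smul_lie', lie_smul', map_sub, map_add, map_smul, LinearMap.sub_apply,
      LinearMap.add_apply, LinearMap.smul_apply, Derivation.smul_apply, smul_eq_mul,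
      Derivation.leibniz] at a ⊢
    linear_combination g * a + Z g * sk U u
  refine ind h (fun Z => Ca η U Y Z = 0) (by simp [Ca]) (fun u v a b => ?_)
    (fun g u a => ?_) (fun D'' r Z kr => hc D p U kp D' q Y kq D'' r Z kr) Z
  · simp only [Ca, map_add, lie_add, LinearMap.add_apply, Derivation.add_apply] at a b ⊢
    linear_combination a + b
  · simp only [Ca, lie_smul', map_add, map_smul, LinearMap.add_apply, LinearMap.smul_apply,
      Derivation.smul_apply, smul_eq_mul, Derivation.leibniz] at a ⊢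
    linear_combination g * a + U g * sk Y u - Y g * sk U u

end OMCx

open OMCx in
theorem omc : S_OMC := by
  intro K ι R _ _ _ _ _ S E x a F X σ ω l ω₀ h hω hl
  have sk0 : ω₀ = -ω₀.flip := h.ext₂ fun D p U D' q Y kp kq => by
    have e : (-ω₀.flip) U Y = -ω₀ Y U := rfl
    rw [e, (hl _ _ _ _ _ _ kp kq).2, (hl _ _ _ _ _ _ kq kp).2, add_comm q p, ← map_neg,
      hω.1.neg_eq]
  have sk : ∀ U Y, ω₀ U Y + ω₀ Y U = 0 := fun U Y => by
    have e : ω₀ U Y = -ω₀ Y U := LinearMap.congr_fun (LinearMap.congr_fun sk0 U) Y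
    rw [e, neg_add_cancel]
  refine ⟨⟨fun U => ?_, tri h ω₀ sk fun D p U kp D' q Y kq D'' r Z kr => ?_⟩,
    h.ext₂ fun D p U D' q Y kp kq => ?_⟩
  · have : CharZero K := charZero_of_injective_algebraMap (algebraMap ℂ K).injective
    have e := sk U U
    rw [← two_mul] at e
    exact (mul_eq_zero.1 e).resolve_left two_ne_zero
  · have e := congrArg (σ (p + q + r + l)) (hω.2.1 D D' D'')
    rw [map_zero, map_sub, map_add, map_sub, map_add, map_sub] at e
    obtain ⟨a1, a2⟩ := hl _ _ _ _ _ _ kq kr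
    obtain ⟨b1, b2⟩ := hl _ _ _ _ _ _ kp kr
    obtain ⟨c1, c2⟩ := hl _ _ _ _ _ _ kp kq
    unfold Ca
    rw [a2, b2, c2, ← kp.2 _ _ a1, ← kq.2 _ _ b1, ← kr.2 _ _ c1,
      (hl _ _ _ _ _ _ (h.sy.lie _ _ _ _ _ _ kp kq) kr).2,
      (hl _ _ _ _ _ _ (h.sy.lie _ _ _ _ _ _ kp kr) kq).2,
      (hl _ _ _ _ _ _ (h.sy.lie _ _ _ _ _ _ kq kr) kp).2,
      show q + r + l + p = p + q + r + l by ring, show p + r + l + q = p + q + r + l by ring,
      show p + q + l + r = p + q + r + l by ring, show p + r + q + l = p + q + r + l by ring,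
      show q + r + p + l = p + q + r + l by ring]
    exact e
  · obtain ⟨c1, c2⟩ := hl _ _ _ _ _ _ kp kq
    have e := (h.fb.mem _ _ c1).2
    rw [← c2] at e
    have e' : ((l : ℂ) • ω₀) U Y = (l : ℂ) • ω₀ U Y := rfl
    rw [lf_apply, (h.sy.mem _ _ _ kp).2, (h.sy.mem _ _ _ kq).2, e, lin_c, lin_c, e',
      LinearMap.smul_apply, Int.cast_add, Int.cast_add, add_smul, add_smul]
    abel

end Pool.Agent.MP_51db15_ag.Qh
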