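import Pool.Agent.MP_51db15_ag.Qh.SPN

/-! The symbol of a dilating field. -/

namespace Pool.Agent.MP_51db15_ag.Qh

namespace OMDx

variable {K ι R : Type} [Field K] [Algebra ℂ K] [CommRing R] [Algebra ℂ R]
  {S : Subalgebra ℂ K} {E : DD K} {x : ι → K} {a : ι → ℕ} {F : ℤ → Ideal R} {X : ι → R}
  {σ : ℤ → R →ₗ[ℂ] K} {ω : FR R} {l : ℤ} {ω₀ : FF K}

theorem key (h : Flt S E x a F X σ) (hl : Lead F σ ω l ω₀) {ξ : DR R} {p : ℤ} {ξ₀ : DD K}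
    (hd : Nc.IsDilating ω ξ) (hξ : Sym F σ ξ p ξ₀) {D D' : DR R} {s t : ℤ} {D₀ D₁ : DD K}
    (h0 : Sym F σ D s D₀) (h1 : Sym F σ D' t D₁) :
    lf ξ₀ ω₀ D₀ D₁ = σ (s + t + l + p) (ω D D') := by
  obtain ⟨m, e⟩ := hl _ _ _ _ _ _ h0 h1
  have e1 := (hl _ _ _ _ _ _ h0 (h.sy.lie _ _ _ _ _ _ hξ h1)).2
  have e2 := (hl _ _ _ _ _ _ (h.sy.lie _ _ _ _ _ _ hξ h0) h1).2
  rw [show s + (p + t) + l = s + t + l + p by ring] at e1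
  rw [show p + s + t + l = s + t + l + p by ring] at e2
  rw [lf_apply, e, e1, e2, ← hξ.2 _ _ m, ← map_sub, ← map_sub, sub_right_comm, hd D D']

end OMDx

theorem omd : S_OMD := by
  intro K ι R _ _ _ _ _ S E x a F X σ ω l ω₀ h hl ξ p ξ₀ hd hξ
  refine ⟨fun hp => h.ext₂ fun D s D₀ D' t D₁ h0 h1 => ?_,
    fun hp => h.ext₂ fun D s D₀ D' t D₁ h0 h1 => ?_⟩
  · have m := (hl _ _ _ _ _ _ h0 h1).1
    rw [OMDx.key h hl hd hξ h0 h1]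
    exact (h.fb.zero _ _ (h.fa.anti (by omega) m)).2 (h.fa.anti (by omega) m)
  · rw [OMDx.key h hl hd hξ h0 h1, hp, add_zero]
    exact (hl _ _ _ _ _ _ h0 h1).2.symm

end Pool.Agent.MP_51db15_ag.Qh
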