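import Pool.Agent.MP_51db15_ag.Qh.Spec4

/-! The leading form is regular on a normal cone. -/

namespace Pool.Agent.MP_51db15_ag.Qh

open Module

namespace OMRx

variable {K : Type} [Field K] [Algebra ℂ K] {S : Subalgebra ℂ K} {v : DV K}

theorem unif {A : Type} [CommRing A] [IsNoetherianRing A] {Q P N : Ideal A} (hP : P.IsPrime)
    (h : ∀ x ∈ Q, ∃ s ∉ P, s * x ∈ N) : ∃ s ∉ P, ∀ x ∈ Q, s * x ∈ N := by
  classical
  obtain ⟨T, rfl⟩ := IsNoetherian.noetherian Q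
  choose! s h1 h2 using h
  refine ⟨∏ x ∈ T, s x, fun h3 => ?_, fun x hx => ?_⟩
  · obtain ⟨x, hx, h4⟩ := Ideal.IsPrime.prod_mem_iff.1 h3
    exact h1 x (Submodule.subset_span hx) h4
  · induction hx using Submodule.span_induction with
    | mem x hx =>
      rw [← Finset.prod_erase_mul _ _ hx, mul_assoc]
      exact Ideal.mul_mem_left _ _ (h2 x (Submodule.subset_span hx))
    | zero => simp
    | add x y _ _ hx hy => rw [mul_add]; exact add_mem hx hy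
    | smul a x _ hx => rw [smul_eq_mul, mul_left_comm]; exact Ideal.mul_mem_left _ _ hx

theorem div_der {R : Set K} (hv : IsDiv R v) (X : Derivation ℂ K K)
    (h : ∀ r ∈ R, v.Ge 0 (X r)) (a : K) (ha : v.Ge 0 a) : v.Ge 0 (X a) := by
  obtain ⟨b, hb, s, hs, hs0, hs1, rfl⟩ := hv.2 a ha
  rw [Derivation.leibniz_div]
  exact DV.Ge.mul_left (DV.Ge.pow (Or.inr (by rw [v.ord_inv hs0, hs1]; rfl)) 2)
    (((hv.1 s hs).mul_left (h b hb)).sub ((hv.1 b hb).mul_left (h s hs)))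

/-- the centre of a valuation -/
def ctr (hd : IsDiv (S : Set K) v) : Ideal S where
  carrier := {g | v.Ge 1 (g : K)}
  add_mem' ha hb := DV.Ge.add ha hb
  zero_mem' := DV.ge_zero 1
  smul_mem' c _ hg := DV.Ge.mul_left (hd.1 c c.2) hg

theorem ctr_prime (hd : IsDiv (S : Set K) v) : (ctr hd).IsPrime :=
  ⟨(Ideal.ne_top_iff_one _).2 DV.not_ge_one_one,
    fun {a b} h => DV.ge_one_mul (hd.1 a a.2) (hd.1 b b.2) h⟩

theorem ctr_prin [IsNoetherianRing S] (hd : IsDiv (S : Set K) v) : Nc.Prin ⊥ (ctr hd) := by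
  obtain ⟨π, h0, h1⟩ := v.unif
  obtain ⟨a, ha, s, -, s0, s1, e⟩ := hd.2 π (Or.inr (by omega))
  have a0 : a ≠ 0 := fun h => h0 (by rw [e, h, zero_div])
  have a1 : v.ord a = 1 := by rw [e, v.ord_div a0 s0, s1, sub_zero] at h1; exact h1
  obtain ⟨t, t1, t2⟩ := unif (Q := ctr hd) (N := Ideal.span {(⟨a, ha⟩ : S)}) (ctr_prime hd)
    fun x hx => by
      have h2 : v.Ge 0 ((x : K) / a) := by simpa [a1] using DV.Ge.div (v := v) (k := 1) (x := (x : K)) hx a0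
      obtain ⟨b, hb, u, hu, u0, u1, e'⟩ := hd.2 _ h2
      refine ⟨⟨u, hu⟩, DV.not_ge_of_unit u0 u1,
        Ideal.mem_span_singleton'.2 ⟨⟨b, hb⟩, Subtype.ext ?_⟩⟩
      rw [div_eq_div_iff a0 u0] at e'
      exact e'.symm.trans (mul_comm _ _)
  refine ⟨⟨a, ha⟩, Or.inr a1.ge, t, t1, fun x hx => ?_⟩
  obtain ⟨b, e'⟩ := Ideal.mem_span_singleton'.1 (t2 x hx)
  exact ⟨b, by rw [e', sub_self]; exact Ideal.zero_mem _⟩

theorem key (hN : IsNoetherianRing S) (hn : Nrm S)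
    (hf : ∀ y : K, ∃ g ∈ S, ∃ h ∈ S, h ≠ 0 ∧ y = g / h) {E : DD K} (hE : E ∈ TT S) {h : K}
    (H : ∀ Q : Ideal S, Q.IsPrime → (∀ g ∈ Q, In Q (E g)) → Nc.Prin ⊥ Q →
      ∃ (δ : S) (c : ℂ), δ ∉ Q ∧ E δ = c • (δ : K) ∧ (δ : K) * h ∈ S) : h ∈ S := by
  by_contra hy
  obtain ⟨δ, c, a1, a2, a3⟩ := H ⊥ Ideal.isPrime_bot
    (fun g hg => ⟨0, zero_mem _, by simp [Ideal.mem_bot.1 hg]⟩)
    ⟨0, zero_mem _, 1, by simp, fun g hg => ⟨0, by simpa using hg⟩⟩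
  have d0 : (δ : K) ≠ 0 := fun e => a1 (Ideal.mem_bot.2 (Subtype.ext e))
  obtain ⟨v, hv, -, b1, b2⟩ := @krull K _ S.toSubring hN hn hf ⊥
    (fun s hs => Submonoid.mem_bot.1 hs ▸ one_mem _) h δ δ.2 d0 a3
    (fun s hs => by rwa [Submonoid.mem_bot.1 hs, one_mul])
  replace hv : IsDiv (S : Set K) v := hv
  have hc : v.Const := fun c => hv.1 _ (S.algebraMap_mem c)
  obtain ⟨δ', c', c1, -, c3⟩ := H (ctr hv) (ctr_prime hv) (fun g hg => ⟨⟨E g, hE g g.2⟩, by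
    refine DV.der_ge_of_log hc E (div_der hv E fun r hr => hv.1 _ (hE r hr)) d0
      (by have := b1.le d0; omega) ?_ hg
    rw [a2, smul_div_assoc, div_self d0]
    exact hc.smul _ DV.ge_one, rfl⟩) (ctr_prin hv)
  obtain ⟨c5, c6⟩ := DV.unit_of_not_ge (hv.1 δ' δ'.2) c1
  have := (hv.1 _ c3).div_unit c5 c6
  rw [mul_div_cancel_left₀ _ c5] at this
  exact b2 this

end OMRx

theorem omr : S_OMR := by
  intro K ι R _ _ _ _ _ S E x a F X σ ω l ω₀ H hn hl _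
  have hom : ∀ (p : ℤ), ∀ Y ∈ TC S ⊓ (ad E).eigenspace (p : ℂ), ∀ (p' : ℤ),
      ∀ Z ∈ TC S ⊓ (ad E).eigenspace (p' : ℂ), ω₀ Y Z ∈ S := by
    intro p Y hY p' Z hZ
    refine OMRx.key H.cone.bas.noeth hn H.cone.bas.frac H.cone.ev.tm fun Q q1 q2 q3 => ?_
    obtain ⟨δ, d, D, a1, a2, a3⟩ := H.lift Q q1 q2 q3 Y hY.1 p (End.mem_eigenspace_iff.1 hY.2)
    obtain ⟨δ', d', D', b1, b2, b3⟩ := H.lift Q q1 q2 q3 Z hZ.1 p' (End.mem_eigenspace_iff.1 hZ.2)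
    obtain ⟨c1, c2⟩ := hl _ _ _ _ _ _ a3 b3
    refine ⟨δ * δ', d + d', fun k => (q1.mem_or_mem k).elim a1 b1, ?_, ?_⟩
    · rw [Subalgebra.coe_mul, Derivation.leibniz, a2, b2]
      simp only [smul_eq_mul, mul_smul_comm, add_smul]
      rw [add_comm, mul_comm (δ' : K)]
    · have := (H.fb.mem _ _ c1).1
      rw [← c2, map_smul, map_smul, LinearMap.smul_apply, smul_eq_mul, smul_eq_mul] at this
      convert this using 1
      rw [Subalgebra.coe_mul]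
      ring
  intro Y hY Z hZ
  refine Submodule.iSup_induction _ (motive := fun Y => ω₀ Y Z ∈ S) (H.cone.ev.T Y hY)
    (fun p Y hY => ?_) (by simp) fun Y Y' h h' => by
      rw [map_add, LinearMap.add_apply]; exact add_mem h h'
  exact Submodule.iSup_induction _ (motive := fun Z => ω₀ Y Z ∈ S) (H.cone.ev.T Z hZ)
    (fun p' Z hZ => hom p Y hY p' Z hZ) (by simp) fun Z Z' h h' => by
      rw [map_add]; exact add_mem h h'

end Pool.Agent.MP_51db15_ag.Qh
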