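import Pool.Agent.MP_51db15_ag.Defs
import Mathlib.RingTheory.Valuation.ValuationSubring

/-! Rational two-forms that are regular differential forms along a valuation ring. -/

namespace Pool.Agent.MP_51db15_ag.Qh

/-- `ω` is a finite sum of forms `c dy ∧ dz` with `c, y, z` in the valuation ring `V`. -/
def KaehlerAt {K : Type} [Field K] [Algebra ℂ K] (ω : LinearMap.BilinForm K (Derivation ℂ K K))
    (V : ValuationSubring K) : Prop :=
  ∃ (n : ℕ) (c y z : Fin n → K), (∀ s, c s ∈ V ∧ y s ∈ V ∧ z s ∈ V) ∧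
    ∀ X Y : Derivation ℂ K K, ω X Y = ∑ s, c s * (X (y s) * Y (z s) - X (z s) * Y (y s))

end Pool.Agent.MP_51db15_ag.Qh
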