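import Mathlib
import Pool.Agent.MP_51db15_ag.Qh.Stmt

/-! Lie derivatives on fields, one-forms, two-forms and endomorphisms; the lattices. -/

namespace Pool.Agent.MP_51db15_ag.Qh

open Module

abbrev DD (K : Type) [Field K] [Algebra ℂ K] : Type := Derivation ℂ K K

abbrev DU (K : Type) [Field K] [Algebra ℂ K] : Type := Module.Dual K (Derivation ℂ K K)

abbrev MM (K : Type) [Field K] [Algebra ℂ K] : Type := DD K × DU K

abbrev EE (K : Type) [Field K] [Algebra ℂ K] : Type := Module.End K (MM K)

abbrev FF (K : Type) [Field K] [Algebra ℂ K] : Type := LinearMap.BilinForm K (Derivation ℂ K K)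

noncomputable section

variable {K : Type} [Field K] [Algebra ℂ K]

theorem lie_smul' (X Y : DD K) (g : K) : ⁅X, g • Y⁆ = g • ⁅X, Y⁆ + X g • Y := by
  ext z
  simp only [Derivation.commutator_apply, Derivation.smul_apply, smul_eq_mul, Derivation.leibniz,
    Derivation.add_apply]
  ring

theorem smul_lie' (X Y : DD K) (g : K) : ⁅g • X, Y⁆ = g • ⁅X, Y⁆ - Y g • X := by
  ext z
  simp only [Derivation.commutator_apply, Derivation.smul_apply, smul_eq_mul, Derivation.leibniz,
    Derivation.coe_sub, Pi.sub_apply]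
  ring

theorem lin_c {M N : Type} [AddCommGroup M] [AddCommGroup N] [Module K M] [Module K N]
    [Module ℂ M] [Module ℂ N] [IsScalarTower ℂ K M] [IsScalarTower ℂ K N] (a : M →ₗ[K] N) (c : ℂ)
    (v : M) : a (c • v) = c • a v := by
  rw [← algebraMap_smul K c v, map_smul, algebraMap_smul]

/-- a derivation as a linear operator on functions -/
def op (X : DD K) : End ℂ K := X.toLinearMap

/-- bracket with a field -/
def ad (X : DD K) : End ℂ (DD K) := LieAlgebra.ad ℂ (DD K) X

/-- the differential of a function -/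
def dd (g : K) : DU K where
  toFun D := D g
  map_add' _ _ := rfl
  map_smul' _ _ := rfl

/-- Lie derivative of one-forms -/
def ld (X : DD K) : End ℂ (DU K) where
  toFun γ :=
    { toFun := fun D => X (γ D) - γ ⁅X, D⁆
      map_add' := fun D D' => by simp only [map_add, lie_add]; ring
      map_smul' := fun g D => by
        simp only [lie_smul', map_add, map_smul, smul_eq_mul, Derivation.leibniz,
          RingHom.id_apply]
        ring }
  map_add' γ γ' := by
    ext D
    simp only [LinearMap.add_apply, map_add, LinearMap.coe_mk, AddHom.coe_mk]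
    ring
  map_smul' c γ := by
    ext D
    simp only [LinearMap.smul_apply, Derivation.map_smul, LinearMap.coe_mk, AddHom.coe_mk,
      RingHom.id_apply, smul_sub]

@[simp] theorem op_apply (X : DD K) (g : K) : op X g = X g := rfl

@[simp] theorem ad_apply (X D : DD K) : ad X D = ⁅X, D⁆ := rfl

@[simp] theorem dd_apply (g : K) (D : DD K) : dd g D = D g := rfl

@[simp] theorem ld_apply (X : DD K) (γ : DU K) (D : DD K) :
    ld X γ D = X (γ D) - γ ⁅X, D⁆ := rfl

theorem ld_smul (X : DD K) (g : K) (γ : DU K) : ld X (g • γ) = g • ld X γ + X g • γ := by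
  ext D
  simp only [ld_apply, LinearMap.smul_apply, smul_eq_mul, Derivation.leibniz, LinearMap.add_apply]
  ring

/-- Lie derivative on pairs -/
def lam (X : DD K) : End ℂ (MM K) := (ad X).prodMap (ld X)

@[simp] theorem lam_apply (X : DD K) (v : MM K) : lam X v = (⁅X, v.1⁆, ld X v.2) := rfl

theorem lam_smul (X : DD K) (g : K) (v : MM K) : lam X (g • v) = g • lam X v + X g • v :=
  Prod.ext (lie_smul' X v.1 g) (ld_smul X g v.2)

/-- Lie derivative of endomorphisms -/
def del (X : DD K) : End ℂ (EE K) where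
  toFun a :=
    { toFun := fun v => lam X (a v) - a (lam X v)
      map_add' := fun v v' => by simp only [map_add]; abel
      map_smul' := fun g v => by
        rw [map_smul, lam_smul, lam_smul, map_add, map_smul, map_smul, RingHom.id_apply, smul_sub]
        abel }
  map_add' a b := LinearMap.ext fun v => by
    simp only [LinearMap.add_apply, map_add, LinearMap.coe_mk, AddHom.coe_mk]
    abel
  map_smul' c a := LinearMap.ext fun v => by
    simp only [LinearMap.smul_apply, map_smul, LinearMap.coe_mk, AddHom.coe_mk, RingHom.id_apply,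
      smul_sub]

theorem del_apply (X : DD K) (a : EE K) (v : MM K) :
    del X a v = lam X (a v) - a (lam X v) := rfl

/-- Lie derivative of two-forms -/
def lf (X : DD K) : End ℂ (FF K) where
  toFun η :=
    { toFun := fun D => ld X (η D) - η ⁅X, D⁆
      map_add' := fun D D' => by simp only [map_add, lie_add]; abel
      map_smul' := fun g D => by
        rw [map_smul, ld_smul, lie_smul', map_add, map_smul, map_smul, RingHom.id_apply, smul_sub]
        abel }
  map_add' a b := LinearMap.ext fun v => by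
    simp only [LinearMap.add_apply, map_add, LinearMap.coe_mk, AddHom.coe_mk]
    abel
  map_smul' c a := LinearMap.ext fun v => by
    simp only [LinearMap.smul_apply, map_smul, LinearMap.coe_mk, AddHom.coe_mk, RingHom.id_apply,
      smul_sub]

theorem lf_apply (X : DD K) (η : FF K) (D D' : DD K) :
    lf X η D D' = X (η D D') - η D ⁅X, D'⁆ - η ⁅X, D⁆ D' := rfl

/-- a two-form as an endomorphism -/
def flat (η : FF K) : EE K := LinearMap.inr K (DD K) (DU K) ∘ₗ η ∘ₗ LinearMap.fst K (DD K) (DU K)

/-- a bivector as an endomorphism -/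
def sharp (π : DU K →ₗ[K] DD K) : EE K :=
  LinearMap.inl K (DD K) (DU K) ∘ₗ π ∘ₗ LinearMap.snd K (DD K) (DU K)

@[simp] theorem flat_apply (η : FF K) (v : MM K) : flat η v = (0, η v.1) := rfl

@[simp] theorem sharp_apply (π : DU K →ₗ[K] DD K) (v : MM K) : sharp π v = (π v.2, 0) := rfl

theorem del_flat (X : DD K) (η : FF K) : del X (flat η) = flat (lf X η) :=
  LinearMap.ext fun v => Prod.ext (by simp [del_apply]) rfl

/-- the idempotents on both sides -/
def pp {κ : Type} (e : κ → End K (DD K)) (u : κ × Bool) : EE K :=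
  if u.2 then (0 : End K (DD K)).prodMap (e u.1).dualMap else (e u.1).prodMap 0

theorem pp_false {κ : Type} (e : κ → End K (DD K)) (k : κ) (v : MM K) :
    pp e (k, false) v = (e k v.1, 0) := rfl

theorem pp_true {κ : Type} (e : κ → End K (DD K)) (k : κ) (v : MM K) :
    pp e (k, true) v = (0, v.2 ∘ₗ e k) := rfl

/-- the trace -/
def tr : EE K →ₗ[ℂ] K := (LinearMap.trace K (MM K)).restrictScalars ℂ

theorem tr_apply (a : EE K) : tr a = LinearMap.trace K (MM K) a := rfl

variable (S : Subalgebra ℂ K)

/-- regular fields -/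
def TT : Submodule S (DD K) where
  carrier := {D | ∀ g ∈ S, D g ∈ S}
  add_mem' h h' g hg := add_mem (h g hg) (h' g hg)
  zero_mem' _ _ := zero_mem S
  smul_mem' s _ h g hg := mul_mem s.2 (h g hg)

/-- regular one-forms -/
def TD : Submodule S (DU K) where
  carrier := {γ | ∀ D ∈ TT S, γ D ∈ S}
  add_mem' h h' g hg := add_mem (h g hg) (h' g hg)
  zero_mem' _ _ := zero_mem S
  smul_mem' s _ h g hg := mul_mem s.2 (h g hg)

/-- the lattice -/
def LL : Submodule S (MM K) := (TT S).prod (TD S)

/-- endomorphisms that preserve the lattice -/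
def EI : Subalgebra ℂ (EE K) where
  carrier := {a | ∀ v ∈ LL S, a v ∈ LL S}
  add_mem' h h' v hv := add_mem (h v hv) (h' v hv)
  mul_mem' h h' v hv := h _ (h' v hv)
  algebraMap_mem' c v hv := ((LL S).restrictScalars ℂ).smul_mem c hv

/-- regular two-forms -/
def RF : Submodule ℂ (FF K) where
  carrier := {η | ∀ D ∈ TT S, ∀ D' ∈ TT S, η D D' ∈ S}
  add_mem' h h' D hD D' hD' := add_mem (h D hD D' hD') (h' D hD D' hD')
  zero_mem' _ _ _ _ := zero_mem S
  smul_mem' c _ h D hD D' hD' := S.smul_mem (h D hD D' hD') c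

theorem mem_TT {D : DD K} : D ∈ TT S ↔ ∀ g ∈ S, D g ∈ S := Iff.rfl

theorem mem_TD {γ : DU K} : γ ∈ TD S ↔ ∀ D ∈ TT S, γ D ∈ S := Iff.rfl

theorem mem_LL {v : MM K} : v ∈ LL S ↔ v.1 ∈ TT S ∧ v.2 ∈ TD S := Iff.rfl

theorem mem_EI {a : EE K} : a ∈ EI S ↔ ∀ v ∈ LL S, a v ∈ LL S := Iff.rfl

theorem mem_RF {η : FF K} : η ∈ RF S ↔ ∀ D ∈ TT S, ∀ D' ∈ TT S, η D D' ∈ S := Iff.rfl

variable {S}

theorem lie_mem {X Y : DD K} (hX : X ∈ TT S) (hY : Y ∈ TT S) : ⁅X, Y⁆ ∈ TT S := fun g hg => by
  rw [Derivation.commutator_apply]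
  exact sub_mem (hX _ (hY g hg)) (hY _ (hX g hg))

theorem dd_mem {g : K} (hg : g ∈ S) : dd g ∈ TD S := fun _ hD => hD g hg

theorem ld_mem {X : DD K} (hX : X ∈ TT S) {γ : DU K} (h : γ ∈ TD S) : ld X γ ∈ TD S :=
  fun D hD => sub_mem (hX _ (h D hD)) (h _ (lie_mem hX hD))

theorem lam_mem {X : DD K} (hX : X ∈ TT S) {v : MM K} (h : v ∈ LL S) : lam X v ∈ LL S :=
  ⟨lie_mem hX h.1, ld_mem hX h.2⟩

theorem del_mem {X : DD K} (hX : X ∈ TT S) {a : EE K} (h : a ∈ EI S) : del X a ∈ EI S :=
  fun v hv => sub_mem (lam_mem hX (h v hv)) (h _ (lam_mem hX hv))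

theorem lf_mem {X : DD K} (hX : X ∈ TT S) {η : FF K} (h : η ∈ RF S) : lf X η ∈ RF S :=
  fun D hD D' hD' => sub_mem (sub_mem (hX _ (h D hD D' hD')) (h _ hD _ (lie_mem hX hD')))
    (h _ (lie_mem hX hD) _ hD')

theorem flat_mem {η : FF K} (h : η ∈ RF S) : flat η ∈ EI S :=
  fun v hv => ⟨zero_mem _, fun D hD => h _ hv.1 D hD⟩

theorem del_mul (X : DD K) (a b : EE K) : del X (a * b) = del X a * b + a * del X b :=
  LinearMap.ext fun v => by
    simp only [del_apply, End.mul_apply, LinearMap.add_apply, map_sub]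
    abel

theorem ld_add_left (X Y : DD K) : ld (X + Y) = ld X + ld Y := by
  ext γ D
  simp only [ld_apply, Derivation.add_apply, add_lie, map_add, LinearMap.add_apply]
  ring

theorem ld_smul_left (g : K) (X : DD K) (γ : DU K) :
    ld (g • X) γ = g • ld X γ + γ X • dd g := by
  ext D
  simp only [ld_apply, Derivation.smul_apply, smul_lie', map_sub, map_smul, smul_eq_mul,
    LinearMap.add_apply, LinearMap.smul_apply, dd_apply]
  ring

theorem lam_add_left (X Y : DD K) (v : MM K) : lam (X + Y) v = lam X v + lam Y v :=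
  Prod.ext (add_lie X Y v.1) (by simp [ld_add_left])

theorem lam_smul_left (g : K) (X : DD K) (v : MM K) :
    lam (g • X) v = g • lam X v + (-(v.1 g • X), v.2 X • dd g) :=
  Prod.ext (by simp [smul_lie', sub_eq_add_neg]) (ld_smul_left g X v.2)

theorem del_add_left (X Y : DD K) (a : EE K) : del (X + Y) a = del X a + del Y a :=
  LinearMap.ext fun v => by
    simp only [del_apply, lam_add_left, map_add, LinearMap.add_apply]
    abel

theorem lam_csmul (c : ℂ) (X : DD K) (v : MM K) : lam (c • X) v = c • lam X v := by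
  rw [← algebraMap_smul K c X, lam_smul_left, algebraMap_smul]
  have h : dd (algebraMap ℂ K c) = 0 := by ext D; simp
  simp [h]

theorem del_csmul (c : ℂ) (X : DD K) (a : EE K) : del (c • X) a = c • del X a :=
  LinearMap.ext fun v => by
    simp only [del_apply, lam_csmul, lin_c, LinearMap.smul_apply, smul_sub]

theorem del_zero_left (a : EE K) : del (0 : DD K) a = 0 := by
  simpa using del_csmul 0 0 a

theorem del_sum_left {κ : Type} (s : Finset κ) (X : κ → DD K) (a : EE K) :
    del (∑ j ∈ s, X j) a = ∑ j ∈ s, del (X j) a := by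
  classical
  induction s using Finset.induction_on with
  | empty => simpa using del_zero_left a
  | insert j s hj ih => rw [Finset.sum_insert hj, Finset.sum_insert hj, del_add_left, ih]

end

end Pool.Agent.MP_51db15_ag.Qh
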