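import Pool.Agent.MP_51db15_ag.Qh.Spec4

/-! The leading bracket. -/

namespace Pool.Agent.MP_51db15_ag.Qh

open Module

namespace PI0x

variable {K ι : Type} [Field K] [Algebra ℂ K] [Fintype ι]

theorem coef {x : ι → K} (hx : ∀ D D' : DD K, (∀ i, D (x i) = D' (x i)) → D = D') (g : K) :
    ∃ c : ι → K, ∀ D : DD K, D g = ∑ j, c j * D (x j) := by
  have : dd g ∈ Submodule.span K (Set.range fun j => dd (x j)) :=
    mem_span_of_iInf_ker_le_ker fun D hD => by
      rw [hx D 0 fun i => (Submodule.mem_iInf _).1 hD i]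
      exact Submodule.zero_mem _
  obtain ⟨c, hc⟩ := (Submodule.mem_span_range_iff_exists_fun K).1 this
  refine ⟨c, fun D => ?_⟩
  have := congrArg (· D) hc
  simp only [LinearMap.coe_sum, Finset.sum_apply, LinearMap.smul_apply, smul_eq_mul] at this
  exact this.symm

theorem sum_app (c : ι → K) (b : ι → DD K) (g : K) : (∑ j, c j • b j) g = ∑ j, c j * b j g := by
  have := map_sum (dd g) (fun j => c j • b j) Finset.univ
  exact this

theorem brk {x : ι → K} (hx : ∀ D D' : DD K, (∀ i, D (x i) = D' (x i)) → D = D') (b : ι → DD K)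
    (hb : ∀ i j, b i (x j) = -b j (x i)) : ∃ B : K →ₗ[ℂ] DD K, (∀ g i, B g (x i) = -b i g) ∧
      ∀ g h, B g h = -B h g := by
  choose c hc using coef hx
  have k : ∀ g i, (∑ j, c g j • b j) (x i) = -b i g := fun g i => by
    rw [sum_app, hc g (b i), ← Finset.sum_neg_distrib]
    exact Finset.sum_congr rfl fun j _ => by rw [hb j i, mul_neg]
  refine ⟨⟨⟨fun g => ∑ j, c g j • b j, fun g h => hx _ _ fun i => ?_⟩,
    fun t g => hx _ _ fun i => ?_⟩, k, fun g h => ?_⟩
  · rw [Derivation.add_apply, k, k, k, map_add, neg_add]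
  · rw [Derivation.smul_apply, k, k, Derivation.map_smul, RingHom.id_apply, smul_neg]
  · change (∑ j, c g j • b j) h = -(∑ j, c h j • b j) g
    rw [hc h, sum_app (c h), ← Finset.sum_neg_distrib]
    exact Finset.sum_congr rfl fun j _ => by rw [k, mul_neg]

end PI0x

theorem pi0 : S_PI0 := by
  intro K ι R _ _ _ _ _ S E x a F X σ ω hF hω ⟨D, hD⟩
  choose H hH using hω.2.2
  have sk : ∀ r s, H r s = -H s r := fun r s => by rw [← hH, Nc.skew hω, hH]
  have fa := hF.fa
  obtain ⟨l, hl, hm⟩ := Int.exists_least_of_bdd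
    (P := fun l => ∀ i j, H (X i) (X j) ∈ F (a i + a j - l)) (by
      by_contra q
      push Not at q
      refine hD (fa.ext D fun i => ?_)
      rw [← hH, fa.ext (H (X i)) fun j => fa.sep _ fun k => ?_, map_zero, LinearMap.zero_apply]
      obtain ⟨z, h1, h2⟩ := q (a i + a j - k)
      exact fa.anti (by omega) (h1 i j)) ⟨(2 * ∑ i, a i : ℕ), fun i j => by
      have h1 := Finset.single_le_sum (f := a) (fun _ _ => Nat.zero_le _) (Finset.mem_univ i)
      have h2 := Finset.single_le_sum (f := a) (fun _ _ => Nat.zero_le _) (Finset.mem_univ j)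
      rw [fa.top _ (by omega)]
      trivial⟩
  have o1 : ∀ i, Od F (H (X i)) (a i - l) := fun i => fa.chain _ _ fun j => by
    convert hl i j using 2
    ring
  have o2 : ∀ k, ∀ r ∈ F k, Od F (H r) (k - l) := fun k r hr => fa.chain _ _ fun j => by
    rw [sk]
    convert neg_mem (o1 j k r hr) using 2
    ring
  choose b hb using fun i => hF.sy.ex _ _ (o1 i)
  have key : ∀ k, ∀ r ∈ F k, ∀ D₀, Sym F σ (H r) (k - l) D₀ → ∀ i, D₀ (x i) = -b i (σ k r) :=
    fun k r hr D₀ h i => by
      rw [← hF.fb.gen i, ← h.2 _ _ (fa.gen i), ← (hb i).2 k r hr, sk, map_neg]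
      congr 3
      ring
  have ext := hF.cone.bas.ext
  obtain ⟨B, hB, hs⟩ := PI0x.brk ext b fun i j => by
    rw [key _ _ (fa.gen i) _ (hb i) j, hF.fb.gen]
  have ld : LeadB F σ ω l B := fun k r hr H' h' => by
    obtain rfl : H' = H r := sub_eq_zero.1 (Nc.nondeg hω fun Y => by
      rw [map_sub, LinearMap.sub_apply, h', hH, sub_self])
    obtain ⟨D₀, h0⟩ := hF.sy.ex _ _ (o2 k r hr)
    rwa [ext (B (σ k r)) D₀ fun i => by rw [hB, key k r hr D₀ h0]]
  refine ⟨l, B, fun q => ?_, hs, fun g hg => (mem_TT S).1 (hF.cone.bas.tt _ fun i => ?_),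
    fun g h => ?_, ld⟩
  · have := hm (l - 1) fun i j => by
      have h1 := ld _ _ (fa.gen i) _ (hH _)
      rw [q, LinearMap.zero_apply, hF.sy.zero] at h1
      convert h1 _ _ (fa.gen j) using 2
      ring
    omega
  · rw [hB]
    exact neg_mem ((mem_TT S).1 (hF.sy.mem _ _ _ (hb i)).1 g hg)
  · have e : ⁅E, B g⁆ - B (E g) = ((-l : ℤ) : ℂ) • B g := ext _ _ fun i => by
      have h1 := congrArg (· g) (hF.sy.mem _ _ _ (hb i)).2
      simp only [Derivation.commutator_apply, Derivation.smul_apply] at h1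
      rw [Derivation.sub_apply, Derivation.commutator_apply, Derivation.smul_apply,
        hF.cone.cx.eig, Derivation.map_smul, hB, hB, map_neg]
      simp only [Algebra.smul_def, Int.cast_sub, Int.cast_neg, Int.cast_natCast, map_sub,
        map_neg] at h1 ⊢
      linear_combination -h1
    have := congrArg (· h) e
    simp only [Derivation.sub_apply, Derivation.commutator_apply, Derivation.smul_apply] at this
    rw [← this]
    ring

end Pool.Agent.MP_51db15_ag.Qh
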