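import Pool.Agent.MP_51db15_ag.Qh.Spec6

/-! The inverse of a graded prime. -/

namespace Pool.Agent.MP_51db15_ag.Qh

open Module

namespace PINVx

variable {K : Type} [Field K] [Algebra ℂ K] {S : Subalgebra ℂ K} {P : Ideal S}

theorem mem_idl {y : K} : y ∈ idl P ↔ In P y :=
  ⟨fun ⟨b, h, e⟩ => ⟨b, h, e.symm⟩, fun ⟨b, h, e⟩ => ⟨b, h, e.symm⟩⟩

theorem idl_le {y : K} (h : y ∈ idl P) : y ∈ S := by
  obtain ⟨b, -, rfl⟩ := mem_idl.1 h
  exact b.2

theorem coe_mem {b : S} : (b : K) ∈ idl P ↔ b ∈ P :=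
  ⟨fun h => by
    obtain ⟨c, h1, e⟩ := mem_idl.1 h
    rwa [Subtype.ext e], fun h => mem_idl.2 ⟨b, h, rfl⟩⟩

theorem mul_mem' {a y : K} (ha : a ∈ S) (h : y ∈ idl P) : a * y ∈ idl P :=
  (idl P).smul_mem ⟨a, ha⟩ h

theorem hilb_bot (δ : End ℂ K) (t : ℝ) : hilb δ ⊥ t = 0 := by
  have : ∀ k : ℤ, finrank ℂ ↥((⊥ : Submodule ℂ K) ⊓ δ.eigenspace (k : ℂ)) = 0 := fun k => by
    rw [bot_inf_eq, finrank_bot]
  simp only [hilb, this, Nat.cast_zero, zero_mul, tsum_zero]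

end PINVx

theorem pinv (k : GenK) (q : S_HSQ) (l : S_LAT) (d : S_DLT) (s : S_HSS) : S_PINV := by
  intro K ι _ _ _ S E x a P hc hn hp h0 hE
  have := hc.bas.noeth
  obtain ⟨π₀, p1, p2⟩ := Submodule.exists_mem_ne_zero_of_ne_bot h0
  have p3 : (π₀ : K) ≠ 0 := fun e => p2 (Subtype.ext e)
  have st : ∀ u ∈ idl P, op E u ∈ idl P := fun u hu => by
    obtain ⟨b, h, rfl⟩ := PINVx.mem_idl.1 hu
    exact PINVx.mem_idl.2 (hE b h)
  have lat : Lat S (op E) (idl P) := ⟨(IsNoetherian.noetherian P).map _, st,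
    k.sub K (op E) (SC S) _ hc.ev.s (fun _ h => PINVx.idl_le h) st, fun u => by
      obtain ⟨g, g1, h, h1, h2, rfl⟩ := hc.bas.frac u
      refine ⟨h * π₀, mul_mem h1 π₀.2, mul_ne_zero h2 p3, ?_⟩
      rw [smul_eq_mul, show h * π₀ * (g / h) = g * π₀ by field_simp]
      exact PINVx.mul_mem' g1 (PINVx.coe_mem.2 p1)⟩
  have cn : Cn E (op E) := fun g u => by
    simp only [op_apply, smul_eq_mul, Derivation.leibniz]
    ring
  have pr : Pr E (op E) (op E) (LinearMap.mul K K) := ⟨cn, cn, inferInstance, inferInstance,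
    fun u h => by simpa using h 1, fun u h => by simpa using h 1, fun u w => by
      simp only [op_apply, LinearMap.mul_apply', Derivation.leibniz, smul_eq_mul]
      ring⟩
  have hom : ∀ N : Submodule ℂ K, (∀ π ∈ idl P, ∀ n : ℤ, E π = (n : ℂ) • π → π ∈ N) →
      ∀ u ∈ idl P, u ∈ N := fun N h u hu =>
    (iSup_le fun n π hπ => h π hπ.1 n (End.mem_eigenspace_iff.1 hπ.2) :
      ⨆ n : ℤ, (idl P).restrictScalars ℂ ⊓ (op E).eigenspace (n : ℂ) ≤ N) (lat.dz u hu)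
  have int : ∀ y : K, (∀ u ∈ idl P, y * u ∈ idl P) → y ∈ S := fun y h =>
    hn y (isIntegral_of_smul_mem_submodule (idl P)
      (fun e => p3 (e.le (PINVx.coe_mem.2 p1))) lat.fg y h)
  have key : ∃ π ∈ idl P, π ≠ 0 ∧ (∃ n : ℤ, E π = (n : ℂ) • π) ∧
      ∀ y ∈ dl S (LinearMap.mul K K) (idl P), π * y ∈ idl P → y ∈ S := by
    by_cases h : ∀ y ∈ dl S (LinearMap.mul K K) (idl P), y ∈ S
    · by_contra h1
      refine p3 (hom ⊥ (fun π a n b => ?_) _ (PINVx.coe_mem.2 p1))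
      by_contra h2
      exact h1 ⟨π, a, h2, ⟨n, b⟩, fun y hy _ => h y hy⟩
    · push Not at h
      obtain ⟨y₀, y1, y2⟩ := h
      by_contra h1
      refine y2 (int y₀ (hom (((idl P).restrictScalars ℂ).comap (LinearMap.mulLeft ℂ y₀))
        fun π a n b => ?_))
      by_contra h2
      replace h2 : y₀ * π ∉ idl P := h2
      refine h1 ⟨π, a, fun e => h2 (by rw [e, mul_zero]; exact zero_mem _), ⟨n, b⟩,
        fun y hy h3 => int y fun u hu => ?_⟩
      have m1 : π * y₀ ∈ S := y1 π a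
      have m2 : u * y ∈ S := hy u hu
      have m3 : u * y₀ ∈ S := y1 u hu
      have m4 : (⟨_, m1⟩ * ⟨_, m2⟩ : S) ∈ P := PINVx.coe_mem.1 (by
        have := PINVx.mul_mem' m3 h3
        rwa [show u * y₀ * (π * y) = π * y₀ * (u * y) by ring] at this)
      rcases hp.mem_or_mem m4 with h4 | h4
      · exact (h2 (mul_comm π y₀ ▸ PINVx.coe_mem.2 h4)).elim
      · exact mul_comm u y ▸ PINVx.coe_mem.2 h4
  obtain ⟨π, a1, a2, ⟨n, a3⟩, a4⟩ := key
  obtain ⟨c, e⟩ := hc.ev.nat π (PINVx.idl_le a1) n a2 a3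
  have lb : ∀ u, op E (LinearMap.mulLeft ℂ π u) =
      LinearMap.mulLeft ℂ π (op E u) + ((c : ℤ) : ℂ) • LinearMap.mulLeft ℂ π u := fun u => by
    simp only [op_apply, LinearMap.mulLeft_apply, Derivation.leibniz, smul_eq_mul, a3, e,
      Int.cast_natCast, mul_smul_comm, mul_comm u π]
  have l1 := l K ι K S E x a (op E) _ hc cn lat
  have l2 := l K ι K S E x a (op E) _ hc cn (d K ι K K S E x a _ _ _ _ hc pr lat)
  refine ⟨lat, c, fun t t0 t1 => ?_⟩
  obtain ⟨s1, s2⟩ := s K ι S E x a hc t t0 t1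
  have q1 := q K K (op E) (op E) (SC S) ((dl S (LinearMap.mul K K) (idl P)).restrictScalars ℂ)
    ((idl P).restrictScalars ℂ) (SC S) (LinearMap.mulLeft ℂ π) c t
    (fun w hw u hu => mul_mem (PINVx.idl_le hu) hw) (fun _ h => PINVx.idl_le h)
    (fun u hu => hu π a1) a4 lb l2.1 hc.vtx.fd t0 (l2.2 t t0 t1) s1
  have q2 := q K K (op E) (op E) _ ((idl P).restrictScalars ℂ) ((idl P).restrictScalars ℂ) (SC S)
    LinearMap.id 0 t le_rfl
    (fun _ h => PINVx.idl_le h) (fun _ h => PINVx.idl_le h) (fun _ h _ => h) (fun u => by simp)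
    l1.1 hc.vtx.fd t0 (l1.2 t t0 t1) s1
  have q3 := q K K (op E) (op E) ⊥ (SC S) ⊥ ((idl P).restrictScalars ℂ) (LinearMap.mulLeft ℂ π) c t
    bot_le bot_le
    (fun u hu => by
      rw [LinearMap.mulLeft_apply, mul_comm]
      exact PINVx.mul_mem' hu a1)
    (fun u _ h => (mul_eq_zero.1 h).resolve_left a2) lb hc.vtx.fd l1.1 t0 s1 (l1.2 t t0 t1)
  rw [zpow_natCast] at q1 q3
  rw [PINVx.hilb_bot, sub_zero, sub_zero] at q3
  rw [sub_self, mul_zero] at q2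
  have b := one_add_mul_le_pow (a := t - 1) (by linarith) c
  rw [add_sub_cancel] at b
  refine ⟨q1, q2, ?_⟩
  have := mul_le_mul_of_nonneg_right b s2.le
  change hilb _ _ _ - hilb _ _ _ ≤ _ * hilb _ _ _
  linarith

end Pool.Agent.MP_51db15_ag.Qh
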