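import Pool.Agent.MP_51db15_ag.Qh.Spec
import Pool.Agent.MP_51db15_ag.Hy.D4

/-! Row REG. -/

namespace Pool.Agent.MP_51db15_ag.Qh

namespace REGx

/-- the valuation ring of a discrete valuation -/
def vr {K : Type} [Field K] (v : DV K) : ValuationSubring K where
  carrier := {z | v.Ge 0 z}
  mul_mem' := fun {a b} ha hb => by
    by_cases h1 : a = 0
    · exact Or.inl (by rw [h1, zero_mul])
    by_cases h2 : b = 0
    · exact Or.inl (by rw [h2, mul_zero])
    have h3 := ha.resolve_left h1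
    have h4 := hb.resolve_left h2
    exact Or.inr (by rw [v.ord_mul a b h1 h2]; omega)
  one_mem' := Or.inr v.ord_one.ge
  add_mem' := fun {a b} ha hb => by
    by_cases h1 : a = 0
    · rwa [h1, zero_add]
    by_cases h2 : b = 0
    · rwa [h2, add_zero]
    by_cases h0 : a + b = 0
    · exact Or.inl h0
    have h3 := ha.resolve_left h1
    have h4 := hb.resolve_left h2
    exact Or.inr ((le_min h3 h4).trans (v.ord_add a b h1 h2 h0))
  zero_mem' := Or.inl rfl
  neg_mem' := fun {a} ha => ha.imp (fun h => by rw [h, neg_zero]) fun h => by rwa [v.ord_neg]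
  mem_or_inv_mem' := fun a => by
    by_cases h1 : a = 0
    · exact Or.inl (Or.inl h1)
    have h := v.ord_mul a a⁻¹ h1 (inv_ne_zero h1)
    rw [mul_inv_cancel₀ h1, v.ord_one] at h
    by_cases h2 : 0 ≤ v.ord a
    · exact Or.inl (Or.inr h2)
    · exact Or.inr (Or.inr (by omega))

end REGx

theorem reg : S_REG := by
  intro K ι _ _ _ S x ω hB hN hK
  have h2 : ∀ (v : DV K) (X Y : DD K), (∀ z ∈ (S : Set K), v.Ge 0 z) →
      (∀ z, v.Ge 0 z → v.Ge 0 (X z)) → (∀ z, v.Ge 0 z → v.Ge 0 (Y z)) → v.Ge 0 (ω X Y) := by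
    intro v X Y hS hX hY
    obtain ⟨n, c, y, z, h, e⟩ := hK (REGx.vr v) hS
    rw [e]
    show _ ∈ REGx.vr v
    refine sum_mem fun s _ => mul_mem (h s).1 (sub_mem (mul_mem ?_ ?_) (mul_mem ?_ ?_))
    exacts [hX _ (h s).2.1, hY _ (h s).2.2, hX _ (h s).2.2, hY _ (h s).2.1]
  refine ⟨fun D hD D' hD' => ?_, h2⟩
  have : IsNoetherianRing S.toSubring := hB.noeth
  obtain ⟨s, hs, h⟩ := Hy.D4.regular_of ω (S : Set K) hB.frac h2 S.toSubring hN
    (fun _ h => h) ⊥ (fun s hs => by rw [Submonoid.mem_bot.1 hs]; exact one_mem _)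
    (X := D) (Y := D') (fun a ha => ⟨1, one_mem _, by rw [one_mul]; exact hD a ha⟩)
    (fun a ha => ⟨1, one_mem _, by rw [one_mul]; exact hD' a ha⟩)
  rw [Submonoid.mem_bot.1 hs, one_mul] at h
  exact h

end Pool.Agent.MP_51db15_ag.Qh
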