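import Pool.Agent.MP_51db15_ag.Qh.Spec2
import Pool.Agent.MP_51db15_ag.Qh.SLP

/-! The slopes have positive real part, for forms regular along discrete valuations. -/

namespace Pool.Agent.MP_51db15_ag.Qh

open Module

noncomputable section

open SLPx

theorem slp2 (b : S_BAS) (ev : S_EV) (vt : S_VTX) (_ef : S_EVF) (j1 : S_JD1) (j2 : S_JD2)
    (ps : S_POS) (rt : S_RAT) (dc : S_DEC2) (vl : S_VAL2) (sc : S_SOC) :
    S_SLP2 := by
  intro K ι κ _ _ _ _ _ S E x a e y ω h k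
  by_contra hk
  have a0 := h.idm.a0 k
  have hY : e k E ∈ TT S := a0.1 E h.cone.ev.tm
  have hc : ⁅E, e k E⁆ = 0 := by rw [a0.2, lie_self, map_zero]
  have hp : e k * e k = e k := by rw [h.idm.orth, if_pos rfl]
  obtain ⟨ι', _, x', a', μ, cx', pos', hvx, hx'⟩ := j1 K ι S E x a h.cone _ hY hc
  have bas' := b K ι' S E x' a' cx'
  have cone' : Cone S E x' a' :=
    ⟨cx', pos', bas', h.cone.ev, vt K ι' S E x' a' cx' pos' bas' h.cone.ev, h.cone.evf⟩
  have hps := ps K ι' S E x' a' cone' (fun P hP hle => h.ltp P hP (hvx ▸ hle)) (e k) {0, 1} μ a0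
    (gen hp a0.1) hx'
  have hμ : ∀ i, 0 ≤ (μ i).re ∧ (μ i).im = 0 := fun i => by
    have g1 := hps (-Complex.reAddGroupHom) 0 (by rintro _ (rfl | rfl) <;> simp) i
    have g2 := hps Complex.imAddGroupHom 0 (by rintro _ (rfl | rfl) <;> simp) i
    have g3 := hps (-Complex.imAddGroupHom) 0 (by rintro _ (rfl | rfl) <;> simp) i
    rw [mul_zero] at g1 g2 g3
    exact ⟨neg_nonpos.1 g1, le_antisymm g2 (neg_nonpos.1 g3)⟩
  obtain ⟨F', hF'⟩ := dc K ι κ S E x a e y ω (Pi.single k 1) h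
  obtain ⟨l, l1, ⟨n0, l2⟩, l3⟩ := lat rt μ (y k) F' hμ (not_lt.1 hk)
  choose n hn hn0 using l1
  obtain ⟨t, jor⟩ := j2 K ι S E x a h.cone _ hY hc l
  have cxt : Cx S t x' n :=
    ⟨cx'.gen, cx'.frac, fun i => by rw [jor.2 _ (bas'.mem i) _ (hx' i).2, hn i]⟩
  have evt := ev K ι' S t x' n cxt bas'
  have es : ∑ j, (Pi.single k 1 : κ → ℂ) j • e j = e k := by
    simp [Pi.single_apply, ite_smul]
  obtain ⟨F, η, hω, hz, hη⟩ := hF' l l3 ι' t x' n (by rw [es]; exact jor) cxt bas' evt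
  have hv := fun m => vl K ι' S t x' n cxt bas' evt (η m) (hη m).1 m (hη m).2.2.2.1 (hη m).2.2.1
  have hl : ∀ j, ∃ m : ℕ, l ((Pi.single k 1 : κ → ℂ) j * y j) = -m := fun j => by
    by_cases hj : j = k
    · exact ⟨n0, by rw [hj, Pi.single_eq_same, one_mul, l2]⟩
    · exact ⟨0, by rw [Pi.single_eq_of_ne hj, zero_mul, map_zero, Nat.cast_zero, neg_zero]⟩
  have hsm : ∀ m, m ≠ 0 → η m ∈ Submodule.span ℂ {ζ | Sm S E e ζ} := fun m hm => by
    rcases lt_or_gt_of_ne hm with h1 | h1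
    · rw [(hv m).1 h1]
      exact zero_mem _
    · refine (hη m).2.2.2.2 fun k1 k2 e1 => ?_
      obtain ⟨m1, h2⟩ := hl k1
      obtain ⟨m2, h3⟩ := hl k2
      rw [map_add, h2, h3] at e1
      have e2 : -(m1 : ℤ) + -(m2 : ℤ) = m := by exact_mod_cast e1
      omega
  have e0 : ω - η 0 = ∑ m ∈ F.erase 0, η m := by
    by_cases h0 : 0 ∈ F
    · rw [hω, ← Finset.sum_erase_add F η h0]
      exact add_sub_cancel_right (G := FF K) _ _
    · rw [hz 0 h0, Finset.erase_eq_of_notMem h0, ← hω]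
      exact sub_zero (G := FF K) ω
  have hpf := h.perf (η 0)
    (by rw [e0]; exact sum_mem fun m hm => hsm m (Finset.ne_of_mem_erase hm))
  have t0 : t = 0 := inj h.cone.bas h.cone.vtx.max.ne_top hpf (by rw [(hv 0).2 rfl, map_zero])
  have hμ0 : ∀ i, μ i = 0 := fun i => hn0 i (by
    have h1 := cxt.eig i
    rw [t0, Derivation.zero_apply] at h1
    exact_mod_cast (smul_eq_zero.1 h1.symm).resolve_right (hx' i).1)
  have htr := sc K ι' S E x' a' cone' h.nrm (e k) a0 fun i => hμ0 i ▸ (hx' i).2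
  have := bas'.fd
  have : CharZero K := charZero_of_injective_algebraMap (algebraMap ℂ K).injective
  exact h.idm.ne k (LinearMap.IsIdempotentElem.eq_zero_of_trace_eq_zero hp htr)

end

end Pool.Agent.MP_51db15_ag.Qh
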