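import Pool.Agent.MP_51db15_ag.Qh.Spec4

/-! Symbols span the fields of the function field. -/

namespace Pool.Agent.MP_51db15_ag.Qh

variable {K ι R : Type} [Field K] [Algebra ℂ K] [CommRing R] [Algebra ℂ R]
  {S : Subalgebra ℂ K} {E : DD K} {x : ι → K} {a : ι → ℕ} {F : ℤ → Ideal R} {X : ι → R}
  {σ : ℤ → R →ₗ[ℂ] K}

/-- a non-zero homogeneous multiple of a homogeneous field is a symbol -/
theorem Flt.hom (h : Flt S E x a F X σ) {D₀ : DD K} (h0 : D₀ ∈ TT S) {p : ℤ}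
    (hp : ⁅E, D₀⁆ = (p : ℂ) • D₀) : ∃ δ ∈ S, ∃ (d : ℕ) (D : DR R), δ ≠ 0 ∧ E δ = (d : ℂ) • δ ∧
      Sym F σ D (d + p) (δ • D₀) := by
  obtain ⟨δ, d, D, h1, h2, h3⟩ := h.lift ⊥ Ideal.isPrime_bot
    (fun g hg => ⟨0, zero_mem _, by rw [(Ideal.mem_bot).1 hg]; simp⟩)
    ⟨0, zero_mem _, 1, by simp, fun g hg => ⟨0, by simpa using hg⟩⟩ D₀ h0 p hp
  exact ⟨δ, δ.2, d, D, fun e => h1 (by rw [Ideal.mem_bot]; exact Subtype.ext e), h2, h3⟩

theorem Flt.span (h : Flt S E x a F X σ) :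
    Submodule.span K {D₀ : DD K | ∃ D p, Sym F σ D p D₀} = ⊤ := by
  set M := Submodule.span K {D₀ : DD K | ∃ D p, Sym F σ D p D₀}
  have key : ∀ (s : K) (D₀ : DD K), s ≠ 0 → s • D₀ ∈ M → D₀ ∈ M := fun s D₀ hs hm => by
    have h1 := M.smul_mem s⁻¹ hm
    rwa [smul_smul, inv_mul_cancel₀ hs, one_smul] at h1
  refine eq_top_iff.2 fun D₀ _ => ?_
  obtain ⟨s, -, hs, hT⟩ := h.cone.bas.den D₀
  refine key s D₀ hs ?_
  have h2 : (⨆ n : ℤ, TC S ⊓ (ad E).eigenspace (n : ℂ)) ≤ M.restrictScalars ℂ := by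
    refine iSup_le fun n Y hY => ?_
    obtain ⟨δ, -, d, D, d1, -, d3⟩ := h.hom (D₀ := Y) hY.1 (p := n)
      (Module.End.mem_eigenspace_iff.1 hY.2)
    exact key δ Y d1 (Submodule.subset_span ⟨D, _, d3⟩)
  exact h2 (h.cone.ev.T _ hT)

/-- linear maps that agree on symbols are equal -/
theorem Flt.ext (h : Flt S E x a F X σ) {N : Type} [AddCommGroup N] [Module K N]
    {f g : DD K →ₗ[K] N} (e : ∀ D p D₀, Sym F σ D p D₀ → f D₀ = g D₀) : f = g :=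
  LinearMap.ext_on h.span fun _ ⟨D, p, hD⟩ => e D p _ hD

/-- bilinear forms that agree on symbols are equal -/
theorem Flt.ext₂ (h : Flt S E x a F X σ) {η η' : FF K}
    (e : ∀ D p D₀ D' p' D₁, Sym F σ D p D₀ → Sym F σ D' p' D₁ → η D₀ D₁ = η' D₀ D₁) : η = η' :=
  h.ext fun D p D₀ hD => h.ext fun D' p' D₁ hD' => e D p D₀ D' p' D₁ hD hD'

end Pool.Agent.MP_51db15_ag.Qh
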