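import Pool.Agent.MP_51db15_ag.Qh.Spec4
import Pool.Agent.MP_51db15_ag.Hy.MINP

/-! PROJECT SD, row SY: the calculus of symbols. -/

namespace Pool.Agent.MP_51db15_ag.Qh

open Module

namespace SYx

theorem glue {U V ι : Type} [AddCommGroup U] [Module ℂ U] [AddCommGroup V] [Module ℂ V]
    (p : ι → Submodule ℂ U) (hp : iSupIndep p) (f : ι → U →ₗ[ℂ] V) :
    ∃ D : U →ₗ[ℂ] V, ∀ i, ∀ u ∈ p i, D u = f i u := by
  classical
  obtain ⟨r, hr⟩ := LinearMap.exists_leftInverse_of_injective _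
    (LinearMap.ker_eq_bot.2 hp.dfinsupp_lsum_injective)
  refine ⟨DFinsupp.lsum ℕ (fun i => f i ∘ₗ (p i).subtype) ∘ₗ r, fun i u hu => ?_⟩
  have h1 := LinearMap.congr_fun hr (DFinsupp.single i ⟨u, hu⟩)
  rw [LinearMap.comp_apply, DFinsupp.lsum_single, LinearMap.id_apply] at h1
  have h2 : r u = DFinsupp.single i ⟨u, hu⟩ := h1
  rw [LinearMap.comp_apply, h2, DFinsupp.lsum_single]
  rfl

theorem fac {U V W : Type} [AddCommGroup U] [Module ℂ U] [AddCommGroup V] [Module ℂ V]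
    [AddCommGroup W] [Module ℂ W] (f : U →ₗ[ℂ] V) (g : U →ₗ[ℂ] W)
    (h : LinearMap.ker f ≤ LinearMap.ker g) : ∃ t : V →ₗ[ℂ] W, ∀ u, t (f u) = g u := by
  obtain ⟨t, ht⟩ := LinearMap.exists_extend (p := LinearMap.range f)
    ((LinearMap.ker f).liftQ g h ∘ₗ f.quotKerEquivRange.symm.toLinearMap)
  refine ⟨t, fun u => (LinearMap.congr_fun ht ⟨f u, LinearMap.mem_range_self f u⟩).trans ?_⟩
  rw [LinearMap.comp_apply, LinearEquiv.coe_coe, LinearMap.quotKerEquivRange_symm_apply_image,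
    Submodule.mkQ_apply, Submodule.liftQ_apply]

variable {K ι R : Type} [Field K] [Algebra ℂ K] [CommRing R] [Algebra ℂ R]
  {S : Subalgebra ℂ K} {E : DD K} {x : ι → K} {a : ι → ℕ} {F : ℤ → Ideal R} {X : ι → R}
  {σ : ℤ → R →ₗ[ℂ] K}

theorem ex (hC : Cone S E x a) (fa : FA F X a) (fb : FB S E x a F X σ) (D : DR R) (p : ℤ)
    (hD : Od F D p) : ∃ D₀, Sym F σ D p D₀ := by
  have h0 : ∀ k : ℤ, ∃ t : K →ₗ[ℂ] K, ∀ r ∈ F k, t (σ k r) = σ (k + p) (D r) := fun k => by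
    obtain ⟨t, ht⟩ := fac (σ k ∘ₗ ((F k).restrictScalars ℂ).subtype)
      (σ (k + p) ∘ₗ D.toLinearMap ∘ₗ ((F k).restrictScalars ℂ).subtype) fun r hr => by
        have h1 := hD _ _ ((fb.zero k r.1 r.2).1 hr)
        rw [add_right_comm] at h1
        exact (fb.zero _ _ (hD k r.1 r.2)).2 h1
    exact ⟨t, fun r hr => ht ⟨r, hr⟩⟩
  choose L hL using h0
  obtain ⟨T, hT⟩ := glue _ (End.eigenspaces_iSupIndep (op E)) fun c : ℂ => L ⌊c.re⌋
  have hT' : ∀ k, ∀ r ∈ F k, T (σ k r) = σ (k + p) (D r) := fun k r hr => by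
    rw [hT k _ (End.mem_eigenspace_iff.2 (fb.mem k r hr).2), Complex.intCast_re,
      Int.floor_intCast, hL k r hr]
  have ind : ∀ P : K → Prop, P 0 → (∀ u v, P u → P v → P (u + v)) →
      (∀ k, ∀ r ∈ F k, P (σ k r)) → ∀ u ∈ S, P u := by
    intro P h0 h1 h2 u hu
    refine Submodule.iSup_induction (motive := P) _ (hC.ev.s u hu) (fun n v hv => ?_) h0 h1
    obtain ⟨r, hr, rfl⟩ := fb.surj n v hv.1 (End.mem_eigenspace_iff.1 hv.2)
    exact h2 n r hr
  have hLe : ∀ u ∈ S, ∀ v ∈ S, T (u * v) = u * T v + v * T u := by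
    refine ind (fun u => ∀ v ∈ S, T (u * v) = u * T v + v * T u) (fun v _ => by simp)
      (fun u u' h1 h2 v hv => by rw [add_mul, map_add, map_add, h1 v hv, h2 v hv]; ring)
      fun i r hr => ?_
    refine ind (fun v => T (σ i r * v) = σ i r * T v + v * T (σ i r)) (by simp)
      (fun v v' h1 h2 => by rw [mul_add, map_add, map_add, h1, h2]; ring) fun j s hs => ?_
    have h3 := fb.mul i (j + p) r hr _ (hD j s hs)
    have h4 := fb.mul j (i + p) s hs _ (hD i r hr)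
    rw [← add_assoc] at h3
    rw [← add_assoc, add_comm j i] at h4
    rw [← fb.mul i j r hr s hs, hT' _ _ (fa.mul i j r hr s hs), Derivation.leibniz, map_add,
      smul_eq_mul, smul_eq_mul, h3, h4, hT' i r hr, hT' j s hs]
  obtain ⟨t, ht⟩ := Hy.lift S K S.val (T ∘ₗ S.val.toLinearMap)
    (fun y => by
      obtain ⟨u, hu, v, hv, -, h⟩ := hC.cx.frac y
      exact ⟨⟨u, hu⟩, ⟨v, hv⟩, h⟩)
    (fun u v => hLe u u.2 v v.2) fun u h => (congrArg T h).trans (map_zero T)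
  exact ⟨t, hD, fun k r hr => ((ht ⟨_, (fb.mem k r hr).1⟩).trans (hT' k r hr)).symm⟩

end SYx

theorem sy : S_SY := by
  intro K ι R _ _ _ _ _ S E x a F X σ hC fa fb
  have hx : ∀ D p D₀, Sym F σ D p D₀ → ∀ i, D₀ (x i) = σ (a i + p) (D (X i)) :=
    fun D p D₀ h i => by rw [h.2 _ _ (fa.gen i), fb.gen]
  refine ⟨SYx.ex hC fa fb, fun D p D₀ h => ⟨hC.bas.tt D₀ fun i => ?_, hC.bas.ext _ _ fun i => ?_⟩,
    fun D p D₀ D₁ h h' => hC.bas.ext _ _ fun i => by rw [hx D p D₀ h, hx D p D₁ h'],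
    fun D p => ⟨fun h k r hr => ?_, fun h => ?_⟩,
    fun D D' p D₀ D₁ h h' => ⟨fun k r hr => add_mem (h.1 k r hr) (h'.1 k r hr), fun k r hr => ?_⟩,
    fun D p D₀ k r hr h => ⟨fun j s hs => ?_, fun j s hs => ?_⟩,
    fun D p D₀ c h => ⟨fun k r hr => (F (k + p)).smul_of_tower_mem c (h.1 k r hr),
      fun k r hr => ?_⟩,
    fun D D' p p' D₀ D₁ h h' => ⟨fun k r hr => ?_, fun k r hr => ?_⟩,
    ⟨-∑ i, (a i : ℤ), fun D => fa.chain D _ fun i => ?_⟩,
    fun D h => fa.ext D fun i => fa.sep _ fun k => ?_⟩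
  · rw [hx D p D₀ h]
    exact (fb.mem _ _ (h.1 _ _ (fa.gen i))).1
  · have h2 := (fb.mem _ _ (h.1 _ _ (fa.gen i))).2
    rw [← hx D p D₀ h] at h2
    rw [Derivation.commutator_apply, h2, hC.cx.eig i, Derivation.map_smul, Int.cast_add,
      Int.cast_natCast, add_smul, Derivation.smul_apply]
    abel
  · rw [← add_assoc]
    exact (fb.zero _ _ (h.1 k r hr)).1 (h.2 k r hr)
  · have h1 : Od F D p := fun k r hr => fa.anti (by omega) (h k r hr)
    exact ⟨h1, fun k r hr => (fb.zero _ _ (h1 k r hr)).2 (add_assoc k p 1 ▸ h k r hr)⟩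
  · rw [Derivation.add_apply, Derivation.add_apply, map_add, h.2 k r hr, h'.2 k r hr]
  · rw [add_left_comm]
    exact fa.mul k (j + p) r hr _ (h.1 j s hs)
  · rw [add_left_comm, Derivation.smul_apply, Derivation.smul_apply, smul_eq_mul, smul_eq_mul,
      fb.mul k (j + p) r hr _ (h.1 j s hs), h.2 j s hs]
  · rw [Derivation.smul_apply, Derivation.smul_apply, map_smul, h.2 k r hr]
  · have h1 := h.1 _ _ (h'.1 k r hr)
    have h2 := h'.1 _ _ (h.1 k r hr)
    rw [add_assoc, add_comm p' p] at h1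
    rw [add_assoc] at h2
    rw [Derivation.commutator_apply]
    exact sub_mem h1 h2
  · have h1 := h.2 _ _ (h'.1 k r hr)
    have h2 := h'.2 _ _ (h.1 k r hr)
    rw [add_assoc, add_comm p' p] at h1
    rw [add_assoc] at h2
    rw [Derivation.commutator_apply, Derivation.commutator_apply, map_sub, h1, h2, h.2 k r hr,
      h'.2 k r hr]
  · have : (a i : ℤ) ≤ ∑ i, (a i : ℤ) :=
      Finset.single_le_sum (f := fun i => (a i : ℤ)) (fun _ _ => Int.natCast_nonneg _)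
        (Finset.mem_univ i)
    rw [fa.top _ (by omega)]
    trivial
  · have := h (k - a i) _ _ (fa.gen i)
    rwa [add_sub_cancel] at this

end Pool.Agent.MP_51db15_ag.Qh
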