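import Pool.Agent.MP_51db15_ag.Qh.Ops
import Pool.Agent.MP_51db15_ag.Hy.EXTV

/-! PROJECT QH: a symplectic variety with a good action is conical.  Statements of the rows.
Note: QH51db15_note_h40.md. -/

namespace Pool.Agent.MP_51db15_ag.Qh

open Module

noncomputable section

/-! ### Linear algebra over the complex numbers -/

section Gen

variable {U : Type} [AddCommGroup U] [Module ℂ U]

/-- `H` is spanned by its eigenvectors with integer eigenvalues -/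
def Dz (δ : End ℂ U) (H : Submodule ℂ U) : Prop :=
  ∀ u ∈ H, u ∈ ⨆ n : ℤ, H ⊓ δ.eigenspace (n : ℂ)

/-- the eigenspaces in `H` have finite dimension -/
def Fd (δ : End ℂ U) (H : Submodule ℂ U) : Prop :=
  ∀ c : ℂ, FiniteDimensional ℂ ↥(H ⊓ δ.eigenspace c)

end Gen

/-- GEN -/
structure GenK : Prop where
  cmp : ∀ (U : Type) [AddCommGroup U] [Module ℂ U] (δ : End ℂ U) (H : Submodule ℂ U) (c : ℂ)
    (u u' : U), (∀ v ∈ H, δ v ∈ H) → δ u = c • u → u' ∈ (⨆ (c' : ℂ) (_ : c' ≠ c), δ.eigenspace c') →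
    u + u' ∈ H → u ∈ H
  sub : ∀ (U : Type) [AddCommGroup U] [Module ℂ U] (δ : End ℂ U) (H H' : Submodule ℂ U),
    Dz δ H → H' ≤ H → (∀ v ∈ H', δ v ∈ H') → Dz δ H'
  joint : ∀ (U : Type) [AddCommGroup U] [Module ℂ U] (δ δ' : End ℂ U) (H : Submodule ℂ U),
    Dz δ H → Fd δ H → (∀ v ∈ H, δ' v ∈ H) → (∀ v, δ (δ' v) = δ' (δ v)) → ∀ u ∈ H,
      u ∈ ⨆ p : ℤ × ℂ, H ⊓ δ.eigenspace (p.1 : ℂ) ⊓ δ'.maxGenEigenspace p.2
  bil : ∀ (U V W : Type) [AddCommGroup U] [Module ℂ U] [AddCommGroup V] [Module ℂ V]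
    [AddCommGroup W] [Module ℂ W] (δU : End ℂ U) (δV : End ℂ V) (δW : End ℂ W)
    (B : U →ₗ[ℂ] V →ₗ[ℂ] W) (α β : ℂ) (u : U) (v : V),
    (∀ u v, δW (B u v) = B (δU u) v + B u (δV v)) → u ∈ δU.maxGenEigenspace α →
    v ∈ δV.maxGenEigenspace β → B u v ∈ δW.maxGenEigenspace (α + β)

/-- EVG: eigenvectors are detected by finitely many evaluations -/
def S_EVG : Prop := ∀ (U W ι : Type) [AddCommGroup U] [Module ℂ U] [AddCommGroup W] [Module ℂ W]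
  [Fintype ι] (δ : End ℂ U) (δ' : End ℂ W) (H : Submodule ℂ U) (H' : Submodule ℂ W)
  (ev : ι → U →ₗ[ℂ] W) (α : ι → ℤ), (∀ u ∈ H, δ u ∈ H) → (∀ u ∈ H, ∀ i, ev i u ∈ H') →
  (∀ u ∈ H, (∀ i, ev i u = 0) → u = 0) →
  (∀ u ∈ H, ∀ i, ev i (δ u) = δ' (ev i u) - (α i : ℂ) • ev i u) →
  (Dz δ' H' → Dz δ H) ∧ (Fd δ' H' → Fd δ H)

/-- RAT -/
def S_RAT : Prop := ∀ (F F' : Finset ℂ) (φ : ℂ →+ ℝ), (∀ z ∈ F, 0 < φ z) →
  ∃ l : ℂ →+ ℂ, (∀ z ∈ F, ∃ n : ℕ, 0 < n ∧ l z = n) ∧ ∀ z ∈ F', ∃ n : ℤ, l z = n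

/-- IDEM -/
def S_IDEM : Prop := ∀ (A : Type) [Ring A] [Algebra ℂ A] [FiniteDimensional ℂ A],
  ∃ (κ : Type) (_ : Fintype κ) (_ : DecidableEq κ) (e : κ → A),
    (∀ i j, e i * e j = if i = j then e i else 0) ∧ ∑ i, e i = 1 ∧ (∀ i, e i ≠ 0) ∧
      ∀ i b, ∃ c : ℂ, IsNilpotent (e i * b * e i - c • e i)

/-- the abstract form of the algebra of endomorphisms -/
structure Alg {R W κ : Type} [Ring R] [Algebra ℂ R] [Field W] [Algebra ℂ W] [Fintype κ]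
    [DecidableEq κ] (A : Subalgebra ℂ R) (Δ : R →ₗ[ℂ] R) (δ : κ → R →ₗ[ℂ] R) (st : R →ₗ[ℂ] R)
    (τ : R →ₗ[ℂ] W) (p : κ × Bool → R) : Prop where
  sum : ∀ a, Δ a = ∑ j, δ j a
  leib : ∀ j a b, δ j (a * b) = δ j a * b + a * δ j b
  com : ∀ j a, Δ (δ j a) = δ j (Δ a)
  dm : ∀ j, ∀ a ∈ A, δ j a ∈ A
  sm : ∀ a ∈ A, st a ∈ A
  smul : ∀ a b, st (a * b) = st b * st a
  sd : ∀ j a, st (δ j a) = δ j (st a)
  sp : ∀ k b, st (p (k, b)) = p (k, !b)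
  tc : ∀ a b, τ (a * b) = τ (b * a)
  ts : ∀ a, τ (st a) = τ a
  tn : ∀ a, IsNilpotent a → τ a = 0
  tp : ∀ u, ∃ n : ℕ, n ≠ 0 ∧ τ (p u) = n
  pm : ∀ u, p u ∈ A
  po : ∀ u v, p u * p v = if u = v then p u else 0
  ps : ∑ u, p u = 1
  pd : ∀ u, Δ (p u) = 0
  loc : ∀ u, ∀ a ∈ A, Δ a = 0 → ∃ c : ℂ, IsNilpotent (p u * a * p u - c • p u)
  neg : ∀ a ∈ A, ∀ b ∈ A, ∀ l : ℂ, l ≠ 0 → Δ a = l • a → Δ b = (-l) • b →
    IsNilpotent a ∨ IsNilpotent b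
  side : ∀ i j l, p (i, true) * δ j (p (l, false)) * p (l, false) = 0
  lin1 : ∀ j u v, u.1 ≠ j → v.1 ≠ j → ∀ a ∈ A, ∀ b ∈ A, a = p u * a * p v → b = p v * b * p u →
    ∀ c : ℂ, τ (b * δ j a) = algebraMap ℂ W c → c = 0
  lin2 : ∀ i j l, i ≠ j → ∀ b ∈ A, ∀ c : ℂ,
    τ (b * p (i, false) * δ j (p (l, false)) * p (l, false)) = algebraMap ℂ W c → c = 0

/-- ALG: the slopes -/
def S_ALG : Prop := ∀ (R W κ : Type) [Ring R] [Algebra ℂ R] [Field W] [Algebra ℂ W] [Fintype κ]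
  [DecidableEq κ] (A : Subalgebra ℂ R) (Δ : R →ₗ[ℂ] R) (δ : κ → R →ₗ[ℂ] R) (st : R →ₗ[ℂ] R)
  (τ : R →ₗ[ℂ] W) (p : κ × Bool → R), Alg A Δ δ st τ p → ∃ y : κ → ℂ, ∀ k l (w : ℂ), ∀ η ∈ A,
    ∀ b ∈ A, Δ η = w • η → Δ b = (-w) • b → b = p (l, false) * b * p (k, true) → ∀ j,
      τ (b * δ j η) = ((if j = k then y k else 0) + if j = l then y l else 0) • τ (b * η)

/-- TRV: traces and valuations -/
structure TrvK : Prop where
  tr : ∀ (F K : Type) [Field F] [Field K] [Algebra F K] [FiniteDimensional F K] [CharZero F]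
    (W : ValuationSubring F) (y : K),
    (∀ V : ValuationSubring K, V.comap (algebraMap F K) = W → y ∈ V.nonunits) →
      Algebra.trace F K y ∈ W.nonunits
  cen : ∀ (A F : Type) [CommRing A] [Field F] (j : A →+* F) (P : Ideal A), Function.Injective j →
    P.IsPrime → ∃ W : ValuationSubring F, ∀ a, j a ∈ W ∧ (j a ∈ W.nonunits ↔ a ∈ P)

/-- ALI: a chain of primes gives algebraic independence -/
def S_ALI : Prop := ∀ (R : Type) [CommRing R] [IsDomain R] [Algebra ℂ R] (M : ℕ) (f : ℕ → R),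
  Ideal.span (f '' {i | i < M}) ≠ ⊤ →
  (∀ j < M, ∀ P ∈ (Ideal.span (f '' {i | i < j})).minimalPrimes, f j ∉ P) →
  AlgebraicIndependent ℂ fun j : Fin M => f j

/-- TNIL -/
def S_TNIL : Prop := ∀ (K M : Type) [Field K] [CharZero K] [AddCommGroup M] [Module K M]
  [FiniteDimensional K M] (f : End K M), (∀ n : ℕ, LinearMap.trace K M (f ^ (n + 1)) = 0) →
  IsNilpotent f

/-- LND: a locally nilpotent derivation whose kernel cuts out the vertex is zero -/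
def S_LND : Prop := ∀ (R ι : Type) [CommRing R] [IsDomain R] [Algebra ℂ R] [Fintype ι]
  (E N : Derivation ℂ R R) (x : ι → R) (a : ι → ℕ) (g : R) (d : ℕ),
  Algebra.adjoin ℂ (Set.range x) = ⊤ → (∀ i, 0 < a i ∧ E (x i) = (a i : ℂ) • x i) →
  (∀ i, ∃ k : ℕ, N^[k] (x i) = 0) → g ≠ 0 → N g = 0 → 0 < d → E g = (d : ℂ) • g →
  (∀ i, ∃ m : ℕ, g ∣ x i ^ m) → ∀ i, N (x i) = 0

/-- LTB: a valuation adapted to two commuting derivations -/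
def S_LTB : Prop := ∀ (B : Type) [CommRing B] [IsDomain B] [Algebra ℂ B] [IsNoetherianRing B]
  (D₁ Y₁ : Derivation ℂ B B) (Q : Ideal B), Q.IsPrime → (∀ G, D₁ (Y₁ G) = Y₁ (D₁ G)) →
  (∀ G, Y₁ G ∈ Q) → ∃ (L : Type) (_ : Field L) (_ : Algebra ℂ L) (ψ : B →+* L)
    (V : ValuationSubring L) (Y' D' : Derivation ℂ L L), Function.Injective ψ ∧
      (∀ G, ψ G ∈ V) ∧ (∀ G, ψ G ∈ V.nonunits → G ∈ Q) ∧ (∀ y ∈ V, Y' y ∈ V.nonunits) ∧
      (∀ y ∈ V, D' y ∈ V) ∧ (∀ G, D' (ψ G) = ψ (D₁ G)) ∧ ∀ G, Y' (ψ G) = ψ (Y₁ G)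

/-- DVA: a valuation ring over a discrete valuation ring -/
def S_DVA : Prop := ∀ (F K : Type) [Field F] [Field K] [Algebra F K] [FiniteDimensional F K]
  [CharZero F] (W : ValuationSubring F) [IsDiscreteValuationRing W] (V : ValuationSubring K),
  (∀ n : ℕ, n ≠ 0 → IsUnit (n : W)) → V.comap (algebraMap F K) = W →
  ∃ v : DV K, Hy.EXTV.Dat v ((algebraMap F K).comp W.subtype).range ∧
    (∀ y, y ∈ V ↔ v.Ge 0 y) ∧ (∀ y, y ∈ V.nonunits ↔ v.Ge 1 y) ∧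
    ∀ y ∈ V, ∃ b s : K, ((algebraMap F K).comp W.subtype).IsIntegralElem b ∧
      ((algebraMap F K).comp W.subtype).IsIntegralElem s ∧ s ∉ V.nonunits ∧ y = b / s

/-! ### The cone -/

section Defs

variable {K : Type} [Field K] [Algebra ℂ K] {ι : Type}

/-- generators that are eigenvectors of `t` -/
structure Cx (S : Subalgebra ℂ K) (t : DD K) (x : ι → K) (a : ι → ℕ) : Prop where
  gen : Algebra.adjoin ℂ (Set.range x) = S
  frac : ∀ y : K, ∃ g ∈ S, ∃ h ∈ S, h ≠ 0 ∧ y = g / h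
  eig : ∀ i, t (x i) = (a i : ℂ) • x i

def Nrm (S : Subalgebra ℂ K) : Prop := ∀ y : K, IsIntegral S y → y ∈ S

/-- the ideal of the vertex -/
def vx (S : Subalgebra ℂ K) (x : ι → K) : Ideal S := Ideal.span {g : S | ∃ i, (g : K) = x i}

def In {S : Subalgebra ℂ K} (P : Ideal S) (y : K) : Prop := ∃ b ∈ P, y = (b : K)

def Kae (S : Subalgebra ℂ K) (ω : FF K) : Prop :=
  ∀ V : ValuationSubring K, (∀ g ∈ S, g ∈ V) → KaehlerAt ω V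

abbrev SC (S : Subalgebra ℂ K) : Submodule ℂ K := Subalgebra.toSubmodule S

abbrev TC (S : Subalgebra ℂ K) : Submodule ℂ (DD K) := (TT S).restrictScalars ℂ

abbrev DC (S : Subalgebra ℂ K) : Submodule ℂ (DU K) := (TD S).restrictScalars ℂ

abbrev LC (S : Subalgebra ℂ K) : Submodule ℂ (MM K) := (LL S).restrictScalars ℂ

abbrev EC (S : Subalgebra ℂ K) : Submodule ℂ (EE K) := Subalgebra.toSubmodule (EI S)

/-- finiteness facts -/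
structure Bas (S : Subalgebra ℂ K) (x : ι → K) : Prop where
  mem : ∀ i, x i ∈ S
  frac : ∀ y : K, ∃ g ∈ S, ∃ h ∈ S, h ≠ 0 ∧ y = g / h
  noeth : IsNoetherianRing S
  fd : FiniteDimensional K (DD K)
  ext : ∀ D D' : DD K, (∀ i, D (x i) = D' (x i)) → D = D'
  tt : ∀ D : DD K, (∀ i, D (x i) ∈ S) → D ∈ TT S
  den : ∀ D : DD K, ∃ s ∈ S, s ≠ 0 ∧ s • D ∈ TT S
  denD : ∀ γ : DU K, ∃ s ∈ S, s ≠ 0 ∧ s • γ ∈ TD S
  fgT : (TT S).FG
  fgD : (TD S).FG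
  ideal : ∀ (D : DD K) (P : Ideal S), (∀ i, In P (D (x i))) → ∀ g ∈ S, In P (D g)

/-- everything is spanned by eigenvectors -/
structure Ev (S : Subalgebra ℂ K) (t : DD K) : Prop where
  tm : t ∈ TT S
  nat : ∀ g ∈ S, ∀ c : ℂ, g ≠ 0 → t g = c • g → ∃ n : ℕ, c = n
  s : Dz (op t) (SC S)
  T : Dz (ad t) (TC S)
  D : Dz (ld t) (DC S)
  L : Dz (lam t) (LC S)
  E : Dz (U := EE K) (del t) (EC S)
  F : Dz (U := FF K) (lf t) (RF S)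

/-- the vertex -/
structure Vtx (S : Subalgebra ℂ K) (t : DD K) (x : ι → K) : Prop where
  max : (vx S x).IsMaximal
  cst : ∀ g ∈ S, ∃ c : ℂ, In (vx S x) (g - algebraMap ℂ K c)
  pos : ∀ g ∈ S, In (vx S x) (t g)
  zero : ∀ g ∈ S, t g = 0 → ∃ c : ℂ, g = algebraMap ℂ K c
  le : ∀ P : Ideal S, P ≠ ⊤ → (∀ g ∈ P, In P (t g)) → P ≤ vx S x
  fd : Fd (op t) (SC S)

/-- finite dimensional pieces -/
structure Evf (S : Subalgebra ℂ K) (t : DD K) : Prop where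
  T : Fd (ad t) (TC S)
  E : Fd (U := EE K) (del t) (EC S)
  F : Fd (U := FF K) (lf t) (RF S)
  low : ∃ B : ℤ, ∀ v ∈ LL S, ∀ n : ℤ, n < B → lam t v = (n : ℂ) • v → v = 0

/-- a cone with all its standard properties -/
structure Cone (S : Subalgebra ℂ K) (t : DD K) (x : ι → K) (a : ι → ℕ) : Prop where
  cx : Cx S t x a
  pos : ∀ i, 0 < a i
  bas : Bas S x
  ev : Ev S t
  vtx : Vtx S t x
  evf : Evf S t

/-- the inverse of the form up to the factor `s` -/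
structure Inv (S : Subalgebra ℂ K) (ω : FF K) (s : K) (π : DU K →ₗ[K] DD K) : Prop where
  mem : ∀ γ ∈ TD S, π γ ∈ TT S
  left : ∀ D, π (ω D) = s • D
  right : ∀ γ, ω (π γ) = s • γ

/-- one-forms vanish on the fields that vanish -/
def LTP (S : Subalgebra ℂ K) (x : ι → K) : Prop :=
  ∀ P : Ideal S, P.IsPrime → P ≤ vx S x → ∀ Y ∈ TT S, (∀ g ∈ S, In P (Y g)) →
    ∀ γ ∈ TD S, In P (γ Y)

/-- endomorphisms of degree zero of the module of fields -/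
def A0 (S : Subalgebra ℂ K) (t : DD K) (b : End K (DD K)) : Prop :=
  (∀ D ∈ TT S, b D ∈ TT S) ∧ ∀ D, ⁅t, b D⁆ = b ⁅t, D⁆

/-- a decomposition into graded indecomposable modules -/
structure Idm (S : Subalgebra ℂ K) (t : DD K) {κ : Type} [Fintype κ] [DecidableEq κ]
    (e : κ → End K (DD K)) : Prop where
  a0 : ∀ k, A0 S t (e k)
  orth : ∀ i j, e i * e j = if i = j then e i else 0
  sum : ∑ i, e i = 1
  ne : ∀ i, e i ≠ 0
  loc : ∀ i b, A0 S t b → ∃ c : ℂ, IsNilpotent (e i * b * e i - c • e i)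

/-- the adjoint for the canonical pairing -/
structure StK (S : Subalgebra ℂ K) (st : EE K →ₗ[ℂ] EE K) : Prop where
  adj : ∀ a (v w : MM K), (st a v).2 w.1 + w.2 (st a v).1 = v.2 (a w).1 + (a w).2 v.1
  sm : ∀ a ∈ EI S, st a ∈ EI S
  smul : ∀ a b, st (a * b) = st b * st a
  sst : ∀ a, st (st a) = a
  sd : ∀ X a, st (del X a) = del X (st a)
  ts : ∀ a, tr (st a) = tr a
  sp : ∀ (κ : Type) (e : κ → End K (DD K)) k b, st (pp e (k, b)) = pp e (k, !b)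

/-- forms in the radical -/
def Sm (S : Subalgebra ℂ K) (t : DD K) {κ : Type} (e : κ → End K (DD K)) (η : FF K) : Prop :=
  η ∈ RF S ∧ ∃ w : ℂ, lf t η = w • η ∧ ∀ k l, ∀ b ∈ EI S, del t b = (-w) • b →
    b = pp e (l, false) * b * pp e (k, true) → tr (b * flat η) = 0

/-- non-degenerate at the vertex -/
def Perf (S : Subalgebra ℂ K) (x : ι → K) (ω : FF K) : Prop :=
  ∃ r ∈ S, In (vx S x) (r - 1) ∧ ∀ γ ∈ TD S, ∃ D ∈ TT S, ω D = r • γ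

/-- `t` is the semisimple part of `Y`, read through `l` -/
def Jor (S : Subalgebra ℂ K) (Y t : DD K) (l : ℂ →+ ℂ) : Prop :=
  t ∈ TT S ∧ ∀ g ∈ S, ∀ μ : ℂ, g ∈ (op Y).maxGenEigenspace μ → t g = l μ • g

/-- the slopes `y` -/
def Slp (S : Subalgebra ℂ K) (E : DD K) {κ : Type} [DecidableEq κ] (e : κ → End K (DD K))
    (y : κ → ℂ) : Prop :=
  ∀ k l (w : ℂ), ∀ η ∈ EI S, ∀ b ∈ EI S, del E η = w • η → del E b = (-w) • b →
    b = pp e (l, false) * b * pp e (k, true) → ∀ j, tr (b * del (e j E) η) =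
      ((if j = k then y k else 0) + if j = l then y l else 0) • tr (b * η)

/-- all the data of the last steps -/
structure All (S : Subalgebra ℂ K) (E : DD K) (x : ι → K) (a : ι → ℕ) {κ : Type} [Fintype κ]
    [DecidableEq κ] (e : κ → End K (DD K)) (y : κ → ℂ) (ω : FF K) : Prop where
  cone : Cone S E x a
  nrm : Nrm S
  ltp : LTP S x
  idm : Idm S E e
  slp : Slp S E e y
  reg : ω ∈ RF S
  clo : IsClosedForm ω
  kae : Kae S ω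
  perf : ∀ ω' : FF K, ω - ω' ∈ Submodule.span ℂ {η | Sm S E e η} → Perf S x ω'

end Defs

def S_BAS : Prop := ∀ (K ι : Type) [Field K] [Algebra ℂ K] [Fintype ι] (S : Subalgebra ℂ K)
  (t : DD K) (x : ι → K) (a : ι → ℕ), Cx S t x a → Bas S x

def S_EV : Prop := ∀ (K ι : Type) [Field K] [Algebra ℂ K] [Fintype ι] (S : Subalgebra ℂ K)
  (t : DD K) (x : ι → K) (a : ι → ℕ), Cx S t x a → Bas S x → Ev S t

def S_VTX : Prop := ∀ (K ι : Type) [Field K] [Algebra ℂ K] [Fintype ι] (S : Subalgebra ℂ K)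
  (t : DD K) (x : ι → K) (a : ι → ℕ), Cx S t x a → (∀ i, 0 < a i) → Bas S x → Ev S t → Vtx S t x

def S_EVF : Prop := ∀ (K ι : Type) [Field K] [Algebra ℂ K] [Fintype ι] (S : Subalgebra ℂ K)
  (t : DD K) (x : ι → K) (a : ι → ℕ), Cx S t x a → Bas S x → Ev S t → Vtx S t x → Evf S t

/-- JD1: generators that are generalised eigenvectors of `Y` -/
def S_JD1 : Prop := ∀ (K ι : Type) [Field K] [Algebra ℂ K] [Fintype ι] (S : Subalgebra ℂ K)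
  (E : DD K) (x : ι → K) (a : ι → ℕ), Cone S E x a → ∀ Y ∈ TT S, ⁅E, Y⁆ = 0 →
  ∃ (ι' : Type) (_ : Fintype ι') (x' : ι' → K) (a' : ι' → ℕ) (μ : ι' → ℂ), Cx S E x' a' ∧
    (∀ i, 0 < a' i) ∧ vx S x' = vx S x ∧ ∀ i, x' i ≠ 0 ∧ x' i ∈ (op Y).maxGenEigenspace (μ i)

/-- JD2: the semisimple part -/
def S_JD2 : Prop := ∀ (K ι : Type) [Field K] [Algebra ℂ K] [Fintype ι] (S : Subalgebra ℂ K)
  (E : DD K) (x : ι → K) (a : ι → ℕ), Cone S E x a → ∀ Y ∈ TT S, ⁅E, Y⁆ = 0 →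
  ∀ l : ℂ →+ ℂ, ∃ t, Jor S Y t l

/-- JD3: its action on forms -/
def S_JD3 : Prop := ∀ (K ι : Type) [Field K] [Algebra ℂ K] [Fintype ι] (S : Subalgebra ℂ K)
  (E : DD K) (x : ι → K) (a : ι → ℕ), Cone S E x a → ∀ Y ∈ TT S, ⁅E, Y⁆ = 0 →
  ∀ (l : ℂ →+ ℂ) (t : DD K), Jor S Y t l → ∀ η ∈ RF S, ∀ μ : ℂ,
    η ∈ (lf Y).maxGenEigenspace μ → lf t η = l μ • η

/-- LT: the form vanishes on a field that vanishes -/
def S_LT : Prop := ∀ (K ι : Type) [Field K] [Algebra ℂ K] [Fintype ι] (S : Subalgebra ℂ K)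
  (x : ι → K) (ω : FF K), Bas S x → ω ∈ RF S → Kae S ω → ∀ P : Ideal S, P.IsPrime →
  ∀ Y ∈ TT S, (∀ g ∈ S, In P (Y g)) → ∀ D ∈ TT S, In P (ω Y D)

/-- LTV: the valuation for LT, on the product with a formal disc -/
def S_LTV : Prop := ∀ (K ι : Type) [Field K] [Algebra ℂ K] [Fintype ι] (S : Subalgebra ℂ K)
  (x : ι → K), Bas S x → ∀ P : Ideal S, P.IsPrime → ∀ Y ∈ TT S, (∀ g ∈ S, In P (Y g)) →
  ∀ D ∈ TT S, ∃ (L : Type) (_ : Field L) (j : K →+* L) (ψ : PowerSeries S →+* L)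
    (V : ValuationSubring L) (Y' D' : L → L) (n : ℕ) (u : Fin n → DD K)
    (ρ : Fin n → PowerSeries S), (∀ g : S, ψ (PowerSeries.C g) = j g) ∧ (∀ G, ψ G ∈ V) ∧
      (∀ G, ψ G ∈ V.nonunits → PowerSeries.constantCoeff G ∈ P) ∧
      (∀ y ∈ V, Y' y ∈ V.nonunits) ∧ (∀ y ∈ V, D' y ∈ V) ∧ (∀ i, u i ∈ TT S) ∧
      Y = ∑ i, ((PowerSeries.constantCoeff (ρ i) : S) : K) • u i ∧
      (∀ y, D' (j y) = j (D y)) ∧ ∀ y, Y' (j y) = ∑ i, ψ (ρ i) * j (u i y)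

/-- LTA: the flow of `Y` along `D` as a power series -/
def S_LTA : Prop := ∀ (K ι : Type) [Field K] [Algebra ℂ K] [Fintype ι] (S : Subalgebra ℂ K)
  (x : ι → K), Bas S x → ∀ Y ∈ TT S, ∀ D ∈ TT S,
  ∃ (D₁ Y₁ : Derivation ℂ (PowerSeries S) (PowerSeries S)) (n : ℕ) (u : Fin n → DD K)
    (ρ : Fin n → PowerSeries S), (∀ G, D₁ (Y₁ G) = Y₁ (D₁ G)) ∧ (∀ i, u i ∈ TT S) ∧
      Y = ∑ i, ((PowerSeries.constantCoeff (ρ i) : S) : K) • u i ∧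
      (∀ G, ((PowerSeries.constantCoeff (Y₁ G) : S) : K) = Y (PowerSeries.constantCoeff G : S)) ∧
      (∀ g g' : S, (g' : K) = D g → D₁ (PowerSeries.C g) = PowerSeries.C g') ∧
      ∀ (g : S) (g' : Fin n → S), (∀ i, (g' i : K) = u i g) →
        Y₁ (PowerSeries.C g) = ∑ i, ρ i * PowerSeries.C (g' i)

/-- PI: the inverse of the form -/
def S_PI : Prop := ∀ (K ι : Type) [Field K] [Algebra ℂ K] [Fintype ι] (S : Subalgebra ℂ K)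
  (x : ι → K) (ω : FF K) (s : K), Bas S x → ω.IsAlt → s ≠ 0 →
  (∀ i, ∃ H ∈ TT S, ∀ D, ω H D = s * D (x i)) → ∃ π, Inv S ω s π

/-- EIG: a locally nilpotent field vanishes on a subcone -/
def S_EIG : Prop := ∀ (K ι : Type) [Field K] [Algebra ℂ K] [Fintype ι] (S : Subalgebra ℂ K)
  (E : DD K) (x : ι → K) (a : ι → ℕ), Cone S E x a → ∀ N ∈ TT S, ⁅E, N⁆ = 0 →
  ∀ I : Ideal S, (∀ g ∈ I, In I (E g)) → (∀ g ∈ I, In I (N g)) →
  (∀ i, ∃ k : ℕ, In I ((op N ^ k) (x i))) → (∃ i, ∀ k : ℕ, ¬ In I (x i ^ k)) →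
  ∃ P : Ideal S, P.IsPrime ∧ P ≤ vx S x ∧ (∃ i, ¬ In P (x i)) ∧ ∀ g ∈ S, In P (N g)

/-- POS: eigenvalues of `b E` -/
def S_POS : Prop := ∀ (K ι : Type) [Field K] [Algebra ℂ K] [Fintype ι] (S : Subalgebra ℂ K)
  (E : DD K) (x : ι → K) (a : ι → ℕ), Cone S E x a → LTP S x → ∀ (b : End K (DD K)) (A : Set ℂ)
  (μ : ι → ℂ), A0 S E b →
  (∀ α ∉ A, ∃ b' : End K (DD K), (∀ D ∈ TT S, b' D ∈ TT S) ∧ b' (b E - α • E) = E) →
  (∀ i, x i ≠ 0 ∧ x i ∈ (op (b E)).maxGenEigenspace (μ i)) →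
  ∀ (φ : ℂ →+ ℝ) (M : ℝ), (∀ α ∈ A, φ α ≤ M) → ∀ i, φ (μ i) ≤ a i * M

/-- IDC -/
def S_IDC : Prop := ∀ (K ι : Type) [Field K] [Algebra ℂ K] [Fintype ι] (S : Subalgebra ℂ K)
  (E : DD K) (x : ι → K) (a : ι → ℕ), Cone S E x a →
  ∃ (κ : Type) (_ : Fintype κ) (_ : DecidableEq κ) (e : κ → End K (DD K)), Idm S E e

/-- TRS -/
def S_TRS : Prop := ∀ (K ι : Type) [Field K] [Algebra ℂ K] [Fintype ι] (S : Subalgebra ℂ K)
  (x : ι → K), Bas S x → Nrm S → ∀ b ∈ EI S, tr b ∈ S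

/-- ST -/
def S_ST : Prop := ∀ (K ι : Type) [Field K] [Algebra ℂ K] [Fintype ι] (S : Subalgebra ℂ K)
  (x : ι → K), Bas S x → ∃ st, StK S st

/-- LIN: the two trace identities -/
def S_LIN : Prop := ∀ (K ι κ : Type) [Field K] [Algebra ℂ K] [Fintype ι] [Fintype κ]
  [DecidableEq κ] (S : Subalgebra ℂ K) (E : DD K) (x : ι → K) (a : ι → ℕ)
  (e : κ → End K (DD K)), Cone S E x a → LTP S x → (∀ b ∈ EI S, tr b ∈ S) → Idm S E e →
  (∀ j u v, u.1 ≠ j → v.1 ≠ j → ∀ f ∈ EI S, ∀ b ∈ EI S, f = pp e u * f * pp e v →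
    b = pp e v * b * pp e u → ∀ c : ℂ, tr (b * del (e j E) f) = algebraMap ℂ K c → c = 0) ∧
  ∀ i j l, i ≠ j → ∀ b ∈ EI S, ∀ c : ℂ, tr (b * pp e (i, false) * del (e j E) (pp e (l, false)) *
    pp e (l, false)) = algebraMap ℂ K c → c = 0

/-- CON: the concrete algebra -/
def S_CON : Prop := ∀ (K ι κ : Type) [Field K] [Algebra ℂ K] [Fintype ι] [Fintype κ]
  [DecidableEq κ] (S : Subalgebra ℂ K) (E : DD K) (x : ι → K) (a : ι → ℕ)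
  (e : κ → End K (DD K)) (st : EE K →ₗ[ℂ] EE K), Cone S E x a → LTP S x → Nrm S → Idm S E e →
  StK S st → Alg (EI S) (del E) (fun j => del (e j E)) st tr (pp e)

/-- RAD -/
def S_RAD : Prop := ∀ (K ι : Type) [Field K] [Algebra ℂ K] [Fintype ι] (S : Subalgebra ℂ K)
  (E : DD K) (x : ι → K) (a : ι → ℕ), Cone S E x a → ∀ N ∈ Submodule.span ℂ
    {f : EE K | f ∈ EI S ∧ ∃ l : ℂ, del E f = l • f ∧
      ∀ b ∈ EI S, del E b = (-l) • b → IsNilpotent (b * f)},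
    ∃ n : ℕ, ∀ v ∈ LL S, (N ^ n) v ∈ vx S x • LL S

/-- PERF -/
def S_PERF : Prop := ∀ (K ι κ : Type) [Field K] [Algebra ℂ K] [Fintype ι] [Fintype κ]
  [DecidableEq κ] (S : Subalgebra ℂ K) (E : DD K) (x : ι → K) (a : ι → ℕ)
  (e : κ → End K (DD K)) (st : EE K →ₗ[ℂ] EE K) (ω ω' : FF K) (s : K) (π : DU K →ₗ[K] DD K),
  Cone S E x a → Alg (EI S) (del E) (fun j => del (e j E)) st tr (pp e) → s ∈ S →
  In (vx S x) (s - 1) → Inv S ω s π → ω - ω' ∈ Submodule.span ℂ {η | Sm S E e η} → Perf S x ω'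

/-- CLO: closed regular forms -/
def S_CLO : Prop := ∀ (K : Type) [Field K] [Algebra ℂ K] (S : Subalgebra ℂ K),
  (∃ H : Submodule ℂ (FF K), (∀ η, η ∈ H ↔ η ∈ RF S ∧ IsClosedForm η) ∧
    ∀ X ∈ TT S, ∀ η ∈ H, lf X η ∈ H) ∧
  (∀ (X Y : DD K) (η : FF K), lf (X + Y) η = lf X η + lf Y η) ∧
  (∀ X Y : DD K, ⁅X, Y⁆ = 0 → ∀ η : FF K, lf X (lf Y η) = lf Y (lf X η)) ∧
  ∀ X Y : DD K, ⁅X, Y⁆ = 0 → ∀ b : EE K, del X (del Y b) = del Y (del X b)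

/-- REG -/
def S_REG : Prop := ∀ (K ι : Type) [Field K] [Algebra ℂ K] [Fintype ι] (S : Subalgebra ℂ K)
  (x : ι → K) (ω : FF K), Bas S x → Nrm S → Kae S ω → ω ∈ RF S ∧
  ∀ (v : DV K) (X Y : DD K), (∀ z ∈ (S : Set K), v.Ge 0 z) → (∀ z, v.Ge 0 z → v.Ge 0 (X z)) →
    (∀ z, v.Ge 0 z → v.Ge 0 (Y z)) → v.Ge 0 (ω X Y)

/-- SCA: the scaling automorphisms -/
def S_SCA : Prop := ∀ (K ι : Type) [Field K] [Algebra ℂ K] [Fintype ι] (S : Subalgebra ℂ K)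
  (t : DD K) (x : ι → K) (a : ι → ℕ), Cx S t x a → Bas S x → Ev S t →
  ∃ μ : S →ₐ[ℂ] Polynomial K, ∀ (g : S) (n : ℕ), t g = (n : ℂ) • (g : K) →
    μ g = Polynomial.monomial n (g : K)

/-- SIG: the scaling acts on forms -/
def S_SIG : Prop := ∀ (K ι : Type) [Field K] [Algebra ℂ K] [Fintype ι] (S : Subalgebra ℂ K)
  (t : DD K) (x : ι → K) (a : ι → ℕ), Cx S t x a → Bas S x → Ev S t → ∀ c : ℂ, c ≠ 0 →
  ∃ σ : K ≃ₐ[ℂ] K, (∀ g ∈ S, σ g ∈ S) ∧ ∀ η ∈ RF S, ∀ n : ℤ, lf t η = (n : ℂ) • η →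
    ∀ X Y X' Y' : DD K, (∀ y, X' (σ y) = σ (X y)) → (∀ y, Y' (σ y) = σ (Y y)) →
      σ (η X Y) = c ^ n • η X' Y'

/-- KC: the homogeneous components extend -/
def S_KC : Prop := ∀ (K ι : Type) [Field K] [Algebra ℂ K] [Fintype ι] (S : Subalgebra ℂ K)
  (t : DD K) (x : ι → K) (a : ι → ℕ), Cx S t x a → Bas S x → Ev S t → ∀ (F : Finset ℤ)
  (η : ℤ → FF K), (∀ n ∈ F, η n ∈ RF S ∧ lf t (η n) = (n : ℂ) • η n) → Kae S (∑ n ∈ F, η n) →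
  ∀ n ∈ F, Kae S (η n)

/-- VAL: the valuation of a grading -/
def S_VAL : Prop := ∀ (K ι : Type) [Field K] [Algebra ℂ K] [Fintype ι] (S : Subalgebra ℂ K)
  (t : DD K) (x : ι → K) (a : ι → ℕ), Cx S t x a → Bas S x → Ev S t → ∀ η ∈ RF S, ∀ n : ℤ,
  lf t η = (n : ℂ) • η → Kae S η → (n < 0 → η = 0) ∧ (n = 0 → η t = 0)

/-- STEP: one more parameter -/
def S_STEP : Prop := ∀ (K ι : Type) [Field K] [Algebra ℂ K] [Fintype ι] (S : Subalgebra ℂ K)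
  (E : DD K) (x : ι → K) (a : ι → ℕ), Cone S E x a → ∀ N ∈ TT S, ⁅E, N⁆ = 0 →
  (∀ i, x i ∈ (op N).maxGenEigenspace 0) → ∀ I : Ideal S, I.IsRadical → I ≠ ⊤ →
  (∀ g ∈ I, In I (E g)) → (∀ g ∈ I, In I (N g)) → (∃ i, ¬ In I (x i)) →
  ∃ (f : S) (d : ℕ), 0 < d ∧ E f = (d : ℂ) • (f : K) ∧ In I (N f) ∧ ∀ P ∈ I.minimalPrimes, f ∉ P

/-- SEQ: a system of parameters adapted to `N` -/
def S_SEQ : Prop := ∀ (K ι : Type) [Field K] [Algebra ℂ K] [Fintype ι] (S : Subalgebra ℂ K)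
  (E : DD K) (x : ι → K) (a : ι → ℕ), Cone S E x a → ∀ N ∈ TT S, ⁅E, N⁆ = 0 →
  (∀ i, x i ∈ (op N).maxGenEigenspace 0) → ∃ (M : ℕ) (f : ℕ → S) (d : ℕ → ℕ),
    (∀ j < M, 0 < d j ∧ E (f j) = (d j : ℂ) • (f j : K)) ∧
    (∀ i, In (Ideal.span (f '' {j | j < M})).radical (x i)) ∧
    (∀ j < M, In (Ideal.span (f '' {i | i < j})).radical (N (f j))) ∧
    ∀ j < M, ∀ P ∈ (Ideal.span (f '' {i | i < j})).minimalPrimes, f j ∉ P

/-- FINL: graded Nakayama -/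
def S_FINL : Prop := ∀ (K ι : Type) [Field K] [Algebra ℂ K] [Fintype ι] (S : Subalgebra ℂ K)
  (E : DD K) (x : ι → K) (a : ι → ℕ), Cone S E x a → ∀ (M : ℕ) (f : ℕ → S) (d : ℕ → ℕ),
  (∀ j < M, 0 < d j ∧ E (f j) = (d j : ℂ) • (f j : K)) →
  (∀ i, In (Ideal.span (f '' {j | j < M})).radical (x i)) →
  ∀ g ∈ S, IsIntegral (Algebra.adjoin ℂ (Set.range fun j : Fin M => (f j : K))) g

/-- DUAL: the dual fields of a Noether normalisation -/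
def S_DUAL : Prop := ∀ (K ι : Type) [Field K] [Algebra ℂ K] [Fintype ι] (S : Subalgebra ℂ K)
  (t : DD K) (x : ι → K) (a : ι → ℕ) (M : ℕ) (f : Fin M → K), Cx S t x a →
  AlgebraicIndependent ℂ f → (∀ g ∈ S, IsIntegral (Algebra.adjoin ℂ (Set.range f)) g) →
  FiniteDimensional (IntermediateField.adjoin ℂ (Set.range f)) K ∧
    ∃ d : Fin M → DD K, (∀ i j, d i (f j) = if i = j then 1 else 0) ∧
      ∀ D : DD K, D = ∑ j, D (f j) • d j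

/-- DVX: a field that kills a discrete valuation ring to first order, upstairs -/
def S_DVX : Prop := ∀ (K ι : Type) [Field K] [Algebra ℂ K] [Fintype ι] (S A : Subalgebra ℂ K)
  (x : ι → K) (F : IntermediateField ℂ K) [FiniteDimensional F K] (W : ValuationSubring F)
  [IsDiscreteValuationRing W] (V : ValuationSubring K) (D : DD K), Bas S x → Nrm S → A ≤ S →
  (∀ g ∈ S, IsIntegral A g) → V.comap (algebraMap F K) = W →
  (∀ g ∈ A, ∃ y ∈ W, g = (y : K)) →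
  (∀ y ∈ W, ∃ g ∈ A, ∃ h ∈ A, h ∉ V.nonunits ∧ (y : K) = g / h) →
  (∀ y ∈ W, ∃ z ∈ W.nonunits, D (y : K) = (z : K)) → ∀ β ∈ TD S, β D ∈ V.nonunits

/-- TRF: the trace of a regular one-form is regular -/
def S_TRF : Prop := ∀ (K ι : Type) [Field K] [Algebra ℂ K] [Fintype ι] (S : Subalgebra ℂ K)
  (x : ι → K) (M : ℕ) (f : Fin M → K)
  [FiniteDimensional (IntermediateField.adjoin ℂ (Set.range f)) K], Bas S x → Nrm S →
  (∀ j, f j ∈ S) → AlgebraicIndependent ℂ f →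
  (∀ g ∈ S, IsIntegral (Algebra.adjoin ℂ (Set.range f)) g) → ∀ D : DD K,
  (∀ j, D (f j) ∈ Algebra.adjoin ℂ (Set.range f)) → ∀ β ∈ TD S, ∃ q : MvPolynomial (Fin M) ℂ,
    ((Algebra.trace (IntermediateField.adjoin ℂ (Set.range f)) K (β D) :
      IntermediateField.adjoin ℂ (Set.range f)) : K) = MvPolynomial.aeval f q

/-- CEN: the trace of an element of the radical -/
def S_CEN : Prop := ∀ (K : Type) [Field K] [Algebra ℂ K] (S : Subalgebra ℂ K) (M : ℕ)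
  (f : Fin M → K) [FiniteDimensional (IntermediateField.adjoin ℂ (Set.range f)) K] (T : Set (Fin M))
  (g : K) (k : ℕ) (q : MvPolynomial (Fin M) ℂ), AlgebraicIndependent ℂ f →
  (∀ g ∈ S, IsIntegral (Algebra.adjoin ℂ (Set.range f)) g) →
  (∃ h : Fin M → K, (∀ i, h i ∈ S ∧ (i ∉ T → h i = 0)) ∧ g ^ k = ∑ i, h i * f i) →
  ((Algebra.trace (IntermediateField.adjoin ℂ (Set.range f)) K g :
    IntermediateField.adjoin ℂ (Set.range f)) : K) = MvPolynomial.aeval f q →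
  q ∈ Ideal.span (MvPolynomial.X '' T)

/-- SOC: the Euler field has a semisimple component in every summand -/
def S_SOC : Prop := ∀ (K ι : Type) [Field K] [Algebra ℂ K] [Fintype ι] (S : Subalgebra ℂ K)
  (E : DD K) (x : ι → K) (a : ι → ℕ), Cone S E x a → Nrm S → ∀ b : End K (DD K), A0 S E b →
  (∀ i, x i ∈ (op (b E)).maxGenEigenspace 0) → LinearMap.trace K (DD K) b = 0

/-- FIN -/
def S_FIN : Prop := ∀ (K ι : Type) [Field K] [Algebra ℂ K] [Fintype ι] (S : Subalgebra ℂ K)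
  (t : DD K) (x : ι → K) (a : ι → ℕ) (ω : FF K) (w : ℕ), Cone S t x a → Nrm S → 0 < w →
  IsClosedForm ω → Kae S ω → lf t ω = (w : ℂ) • ω → Perf S x ω →
  ∃ 𝒢 : ℕ → Submodule ℂ S, IsConicalSymplectic S ω 𝒢 ∧ ∀ d, 0 < d → ∀ f ∈ 𝒢 d, f ∈ vx S x

/-- HAM: homogeneous Hamiltonian fields -/
def S_HAM : Prop := ∀ (K ι : Type) [Field K] [Algebra ℂ K] [Fintype ι] (S : Subalgebra ℂ K)
  (t : DD K) (x : ι → K) (a : ι → ℕ) (ω : FF K) (w : ℕ), Cone S t x a →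
  lf t ω = (w : ℂ) • ω → Perf S x ω → ∀ i, ∃ H ∈ TT S, ω H = dd (x i) ∧
    ∀ j, ∃ θ : MvPolynomial ι ℂ, H (x j) = MvPolynomial.aeval x θ ∧
      Hy.IsHom (fun i => (a i : ℚ)) ((a i : ℚ) + a j - w) (θ : Hy.PS ι)

/-- INIT -/
def S_INIT : Prop := ∀ (K : Type) [Field K] [Algebra ℂ K] (S : Subalgebra ℂ K)
  [Algebra.FiniteType ℂ S] [IsFractionRing S K] [IsIntegrallyClosed S] (𝒢 : ℕ → Submodule ℂ S),
  SetLike.GradedMonoid 𝒢 → DirectSum.IsInternal 𝒢 → ∀ m : Ideal S,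
  (∀ d, 0 < d → ∀ f ∈ 𝒢 d, f ∈ m) → (∀ f ∈ 𝒢 0, ∃ c : ℂ, f = algebraMap ℂ S c) →
  Nrm S ∧ ∃ (ι : Type) (_ : Fintype ι) (x : ι → K) (a : ι → ℕ) (E : DD K), Cx S E x a ∧
    (∀ i, 0 < a i) ∧ vx S x ≤ m

/-- NEAR -/
def S_NEAR : Prop := ∀ (K ι : Type) [Field K] [Algebra ℂ K] [Fintype ι] (S : Subalgebra ℂ K)
  (E : DD K) (x : ι → K) (a : ι → ℕ) (ω : FF K), Cone S E x a →
  NondegOn ω (stalk S (vx S x)) →
  ∃ s ∈ S, In (vx S x) (s - 1) ∧ ∀ i, ∃ H ∈ TT S, ∀ D, ω H D = s * D (x i)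

/-- DEC: decomposition of the form along a diagonal field -/
def S_DEC : Prop := ∀ (K ι κ : Type) [Field K] [Algebra ℂ K] [Fintype ι] [Fintype κ]
  [DecidableEq κ] (S : Subalgebra ℂ K) (E : DD K) (x : ι → K) (a : ι → ℕ)
  (e : κ → End K (DD K)) (y : κ → ℂ) (ω : FF K) (c : κ → ℂ), All S E x a e y ω →
  ∃ F' : Finset ℂ, ∀ l : ℂ →+ ℂ, (∀ z ∈ F', ∃ n : ℤ, l z = n) →
    ∀ (ι' : Type) [Fintype ι'] (t : DD K) (x' : ι' → K) (n : ι' → ℕ),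
      Jor S ((∑ j, c j • e j) E) t l → Cx S t x' n → Bas S x' → Ev S t →
      ∃ (F : Finset ℤ) (η : ℤ → FF K), ω = ∑ m ∈ F, η m ∧ (∀ m ∉ F, η m = 0) ∧ ∀ m,
        η m ∈ RF S ∧ IsClosedForm (η m) ∧ Kae S (η m) ∧ lf t (η m) = (m : ℂ) • η m ∧
          ((∀ k k', l (c k * y k + c k' * y k') ≠ m) → η m ∈ Submodule.span ℂ {ζ | Sm S E e ζ})

/-- SLP: the slopes are positive -/
def S_SLP : Prop := ∀ (K ι κ : Type) [Field K] [Algebra ℂ K] [Fintype ι] [Fintype κ]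
  [DecidableEq κ] (S : Subalgebra ℂ K) (E : DD K) (x : ι → K) (a : ι → ℕ)
  (e : κ → End K (DD K)) (y : κ → ℂ) (ω : FF K), All S E x a e y ω → ∀ k, 0 < (y k).re

/-- END: the new grading and the new form -/
def S_END : Prop := ∀ (K ι κ : Type) [Field K] [Algebra ℂ K] [Fintype ι] [Fintype κ]
  [DecidableEq κ] (S : Subalgebra ℂ K) (E : DD K) (x : ι → K) (a : ι → ℕ)
  (e : κ → End K (DD K)) (y : κ → ℂ) (ω : FF K), All S E x a e y ω → (∀ k, 0 < (y k).re) →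
  ∃ (ω' : FF K) (𝒢 : ℕ → Submodule ℂ S), IsConicalSymplectic S ω' 𝒢 ∧
    ∀ d, 0 < d → ∀ f ∈ 𝒢 d, f ∈ vx S x

end

end Pool.Agent.MP_51db15_ag.Qh
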