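import Pool.Agent.MP_51db15_ag.Qh.Spec
import Pool.Agent.MP_51db15_ag.Hy.Stmt

/-! PROJECT QF: the same for a symplectic form on the completion of the cone.  Statements. -/

namespace Pool.Agent.MP_51db15_ag.Qh

open Module

noncomputable section

abbrev DR (R : Type) [CommRing R] [Algebra ℂ R] : Type := Derivation ℂ R R

abbrev FR (R : Type) [CommRing R] [Algebra ℂ R] : Type := LinearMap.BilinForm R (Derivation ℂ R R)

section Defs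

variable {K : Type} [Field K] [Algebra ℂ K] {ι : Type}

/-- regular along all discrete valuations over `S` -/
def Rdv (S : Subalgebra ℂ K) (ω : FF K) : Prop :=
  ∀ (v : DV K) (X Y : DD K), (∀ z ∈ (S : Set K), v.Ge 0 z) → (∀ z, v.Ge 0 z → v.Ge 0 (X z)) →
    (∀ z, v.Ge 0 z → v.Ge 0 (Y z)) → v.Ge 0 (ω X Y)

/-- `All` with `Rdv` in place of `Kae` -/
structure All2 (S : Subalgebra ℂ K) (E : DD K) (x : ι → K) (a : ι → ℕ) {κ : Type} [Fintype κ]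
    [DecidableEq κ] (e : κ → End K (DD K)) (y : κ → ℂ) (ω : FF K) : Prop where
  cone : Cone S E x a
  nrm : Nrm S
  ltp : LTP S x
  idm : Idm S E e
  slp : Slp S E e y
  reg : ω ∈ RF S
  clo : IsClosedForm ω
  rdv : Rdv S ω
  perf : ∀ ω' : FF K, ω - ω' ∈ Submodule.span ℂ {η | Sm S E e η} → Perf S x ω'

variable {R : Type} [CommRing R] [Algebra ℂ R]

/-- `R` is the completion of the cone: the series whose coefficient `n` is in `S` of weight `n` -/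
structure Hat (S : Subalgebra ℂ K) (E : DD K) (μ : R →ₐ[ℂ] PowerSeries K) (i0 : S →ₐ[ℂ] R) :
    Prop where
  inj : Function.Injective μ
  mem : ∀ r n, PowerSeries.coeff n (μ r) ∈ S ∧
    E (PowerSeries.coeff n (μ r)) = (n : ℂ) • PowerSeries.coeff n (μ r)
  surj : ∀ c : ℕ → K, (∀ n, c n ∈ S ∧ E (c n) = (n : ℂ) • c n) → ∃ r, μ r = PowerSeries.mk c
  noeth : IsNoetherianRing R
  emb : ∀ (g : S) (n : ℕ), E g = (n : ℂ) • (g : K) → μ (i0 g) = PowerSeries.monomial n (g : K)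
  chain : ∀ (D : DR R) (P : Ideal R), (∀ g : S, D (i0 g) ∈ P) → ∀ r, D r ∈ P

/-- the component of weight `n` -/
def cf (μ : R →ₐ[ℂ] PowerSeries K) (n : ℤ) (r : R) : K :=
  if 0 ≤ n then PowerSeries.coeff n.toNat (μ r) else 0

/-- `X'` is the extension of `X` to the completion -/
def Lft {S : Subalgebra ℂ K} (i0 : S →ₐ[ℂ] R) (X : DD K) (X' : DR R) : Prop :=
  ∀ g g' : S, (g' : K) = X g → X' (i0 g) = i0 g'

/-- lifts exist and shift the components -/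
structure HL (S : Subalgebra ℂ K) (E : DD K) (μ : R →ₐ[ℂ] PowerSeries K) (i0 : S →ₐ[ℂ] R) :
    Prop where
  inj : Function.Injective i0
  ex : ∀ X ∈ TT S, ∃ X', Lft i0 X X'
  uniq : ∀ D D' : DR R, (∀ g : S, D (i0 g) = D' (i0 g)) → D = D'
  sh : ∀ X ∈ TT S, ∀ (p : ℤ) (X' : DR R), ⁅E, X⁆ = (p : ℂ) • X → Lft i0 X X' →
    ∀ (n : ℤ) (r : R), cf μ (n + p) (X' r) = X (cf μ n r)
  mul : ∀ (g : S) (d : ℕ), E g = (d : ℂ) • (g : K) → ∀ (n : ℤ) (r : R),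
    cf μ (n + d) (i0 g * r) = g * cf μ n r

/-- homogeneous generators of the fields generate the fields of the completion -/
def HGen (S : Subalgebra ℂ K) (E : DD K) (i0 : S →ₐ[ℂ] R) : Prop :=
  ∃ (n : ℕ) (u : Fin n → DD K) (p : Fin n → ℤ) (u' : Fin n → DR R),
    (∀ j, u j ∈ TT S ∧ ⁅E, u j⁆ = (p j : ℂ) • u j ∧ Lft i0 (u j) (u' j)) ∧
      ∀ D : DR R, ∃ r : Fin n → R, D = ∑ j, r j • u' j

/-- the homogeneous components of the form -/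
def Cmp (S : Subalgebra ℂ K) (E : DD K) (μ : R →ₐ[ℂ] PowerSeries K) (i0 : S →ₐ[ℂ] R) (ω : FR R)
    (η : ℤ → FF K) : Prop :=
  ∀ (n p q : ℤ), ∀ X ∈ TT S, ∀ Y ∈ TT S, ∀ X' Y' : DR R, ⁅E, X⁆ = (p : ℂ) • X →
    ⁅E, Y⁆ = (q : ℂ) • Y → Lft i0 X X' → Lft i0 Y Y' → η n X Y = cf μ (n + p + q) (ω X' Y')

/-- every regular one-form is Hamiltonian on the completion -/
def HPi (S : Subalgebra ℂ K) (i0 : S →ₐ[ℂ] R) (ω : FR R) : Prop :=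
  ∀ γ ∈ TD S, ∃ G : DR R, ∀ X ∈ TT S, ∀ (X' : DR R) (g : S), Lft i0 X X' → (g : K) = γ X →
    ω G X' = i0 g

/-- extension to all valuation rings -/
def KaeR [IsDomain R] (ω : FR R) : Prop :=
  ∀ V : ValuationSubring (FractionRing R), (∀ r : R, algebraMap _ _ r ∈ V) → Hy.KaehlerOn ω V

end Defs

def S_KC2 : Prop := ∀ (K ι : Type) [Field K] [Algebra ℂ K] [Fintype ι] (S : Subalgebra ℂ K)
  (t : DD K) (x : ι → K) (a : ι → ℕ), Cx S t x a → Bas S x → Ev S t → ∀ (F : Finset ℤ)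
  (η : ℤ → FF K), (∀ n ∈ F, η n ∈ RF S ∧ lf t (η n) = (n : ℂ) • η n) → Rdv S (∑ n ∈ F, η n) →
  ∀ n ∈ F, Rdv S (η n)

def S_VAL2 : Prop := ∀ (K ι : Type) [Field K] [Algebra ℂ K] [Fintype ι] (S : Subalgebra ℂ K)
  (t : DD K) (x : ι → K) (a : ι → ℕ), Cx S t x a → Bas S x → Ev S t → ∀ η ∈ RF S, ∀ n : ℤ,
  lf t η = (n : ℂ) • η → Rdv S η → (n < 0 → η = 0) ∧ (n = 0 → η t = 0)

def S_FIN2 : Prop := ∀ (K ι : Type) [Field K] [Algebra ℂ K] [Fintype ι] (S : Subalgebra ℂ K)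
  (t : DD K) (x : ι → K) (a : ι → ℕ) (ω : FF K) (w : ℕ), Cone S t x a → Nrm S → 0 < w →
  IsClosedForm ω → Rdv S ω → lf t ω = (w : ℂ) • ω → Perf S x ω →
  ∃ 𝒢 : ℕ → Submodule ℂ S, IsConicalSymplectic S ω 𝒢 ∧ ∀ d, 0 < d → ∀ f ∈ 𝒢 d, f ∈ vx S x

def S_DEC2 : Prop := ∀ (K ι κ : Type) [Field K] [Algebra ℂ K] [Fintype ι] [Fintype κ]
  [DecidableEq κ] (S : Subalgebra ℂ K) (E : DD K) (x : ι → K) (a : ι → ℕ)
  (e : κ → End K (DD K)) (y : κ → ℂ) (ω : FF K) (c : κ → ℂ), All2 S E x a e y ω →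
  ∃ F' : Finset ℂ, ∀ l : ℂ →+ ℂ, (∀ z ∈ F', ∃ n : ℤ, l z = n) →
    ∀ (ι' : Type) [Fintype ι'] (t : DD K) (x' : ι' → K) (n : ι' → ℕ),
      Jor S ((∑ j, c j • e j) E) t l → Cx S t x' n → Bas S x' → Ev S t →
      ∃ (F : Finset ℤ) (η : ℤ → FF K), ω = ∑ m ∈ F, η m ∧ (∀ m ∉ F, η m = 0) ∧ ∀ m,
        η m ∈ RF S ∧ IsClosedForm (η m) ∧ Rdv S (η m) ∧ lf t (η m) = (m : ℂ) • η m ∧
          ((∀ k k', l (c k * y k + c k' * y k') ≠ m) → η m ∈ Submodule.span ℂ {ζ | Sm S E e ζ})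

def S_SLP2 : Prop := ∀ (K ι κ : Type) [Field K] [Algebra ℂ K] [Fintype ι] [Fintype κ]
  [DecidableEq κ] (S : Subalgebra ℂ K) (E : DD K) (x : ι → K) (a : ι → ℕ)
  (e : κ → End K (DD K)) (y : κ → ℂ) (ω : FF K), All2 S E x a e y ω → ∀ k, 0 < (y k).re

def S_END2 : Prop := ∀ (K ι κ : Type) [Field K] [Algebra ℂ K] [Fintype ι] [Fintype κ]
  [DecidableEq κ] (S : Subalgebra ℂ K) (E : DD K) (x : ι → K) (a : ι → ℕ)
  (e : κ → End K (DD K)) (y : κ → ℂ) (ω : FF K), All2 S E x a e y ω → (∀ k, 0 < (y k).re) →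
  ∃ (ω' : FF K) (𝒢 : ℕ → Submodule ℂ S), IsConicalSymplectic S ω' 𝒢 ∧
    ∀ d, 0 < d → ∀ f ∈ 𝒢 d, f ∈ vx S x

/-- HKER: the completed ideal of a weighted homogeneous ideal -/
def S_HKER : Prop := ∀ (ι : Type) [Fintype ι] [DecidableEq ι] (a : ι → ℕ)
  (J : Ideal (MvPolynomial ι ℂ)), (∀ i, 0 < a i) →
  (∀ g ∈ J, ∀ n, MvPolynomial.weightedHomogeneousComponent a n g ∈ J) →
  ∃ wc : ℕ → MvPowerSeries ι ℂ → MvPolynomial ι ℂ,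
    (∀ n g α, (wc n g).coeff α = if Finsupp.weight a α = n then MvPowerSeries.coeff α g else 0) ∧
    ∀ g, g ∈ J.map MvPolynomial.coeToMvPowerSeries.ringHom ↔ ∀ n, wc n g ∈ J

/-- HAT: the completion of the cone -/
def S_HAT : Prop := ∀ (ι K : Type) [Fintype ι] [DecidableEq ι] [Field K] [Algebra ℂ K]
  (a : ι → ℕ) (J : Ideal (MvPolynomial ι ℂ)) (φ : MvPolynomial ι ℂ →ₐ[ℂ] K) (E : DD K),
  (∀ i, 0 < a i) → (∀ g ∈ J, ∀ n, MvPolynomial.weightedHomogeneousComponent a n g ∈ J) →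
  (∀ g, φ g = 0 ↔ g ∈ J) → (∀ i, E (φ (.X i)) = (a i : ℂ) • φ (.X i)) →
  ∃ (μ : (MvPowerSeries ι ℂ ⧸ J.map MvPolynomial.coeToMvPowerSeries.ringHom) →ₐ[ℂ] PowerSeries K)
    (i0 : φ.range →ₐ[ℂ] (MvPowerSeries ι ℂ ⧸ J.map MvPolynomial.coeToMvPowerSeries.ringHom)),
    Hat φ.range E μ i0

/-- INI: the cone in its function field -/
def S_INI : Prop := ∀ (ι : Type) [Fintype ι] [DecidableEq ι] (a : ι → ℕ)
  (J : Ideal (MvPolynomial ι ℂ)) [IsDomain (MvPolynomial ι ℂ ⧸ J)]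
  [IsIntegrallyClosed (MvPolynomial ι ℂ ⧸ J)],
  (∀ g ∈ J, ∀ n, MvPolynomial.weightedHomogeneousComponent a n g ∈ J) →
  ∃ (K : Type) (_ : Field K) (_ : Algebra ℂ K) (φ : MvPolynomial ι ℂ →ₐ[ℂ] K) (E : DD K),
    (∀ g, φ g = 0 ↔ g ∈ J) ∧ Cx φ.range E (fun i => φ (.X i)) a ∧ Nrm φ.range ∧
      vx φ.range (fun i => φ (.X i)) = Ideal.span (Set.range fun i => φ.rangeRestrict (.X i))

def S_HL : Prop := ∀ (K ι R : Type) [Field K] [Algebra ℂ K] [Fintype ι] [CommRing R] [Algebra ℂ R]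
  (S : Subalgebra ℂ K) (E : DD K) (x : ι → K) (a : ι → ℕ) (μ : R →ₐ[ℂ] PowerSeries K)
  (i0 : S →ₐ[ℂ] R), Cone S E x a → Hat S E μ i0 → HL S E μ i0

def S_HGEN : Prop := ∀ (K ι R : Type) [Field K] [Algebra ℂ K] [Fintype ι] [CommRing R]
  [Algebra ℂ R] (S : Subalgebra ℂ K) (E : DD K) (x : ι → K) (a : ι → ℕ)
  (μ : R →ₐ[ℂ] PowerSeries K) (i0 : S →ₐ[ℂ] R), Cone S E x a → Hat S E μ i0 → HL S E μ i0 →
  HGen S E i0

/-- HDC: components of a derivation of the completion -/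
def S_HDC : Prop := ∀ (K ι R : Type) [Field K] [Algebra ℂ K] [Fintype ι] [CommRing R]
  [Algebra ℂ R] (S : Subalgebra ℂ K) (E : DD K) (x : ι → K) (a : ι → ℕ)
  (μ : R →ₐ[ℂ] PowerSeries K) (i0 : S →ₐ[ℂ] R), Cone S E x a → Hat S E μ i0 → HL S E μ i0 →
  ∀ (D : DR R) (p : ℤ), ∃ X ∈ TT S, ⁅E, X⁆ = (p : ℂ) • X ∧
    ∀ (g : S) (n : ℕ), E g = (n : ℂ) • (g : K) → X g = cf μ (n + p) (D (i0 g))

def S_HCMP : Prop := ∀ (K ι R : Type) [Field K] [Algebra ℂ K] [Fintype ι] [CommRing R]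
  [Algebra ℂ R] (S : Subalgebra ℂ K) (E : DD K) (x : ι → K) (a : ι → ℕ)
  (μ : R →ₐ[ℂ] PowerSeries K) (i0 : S →ₐ[ℂ] R) (ω : FR R), Cone S E x a → Hat S E μ i0 →
  HL S E μ i0 → ∃ η, Cmp S E μ i0 ω η

def S_HP1 : Prop := ∀ (K ι R : Type) [Field K] [Algebra ℂ K] [Fintype ι] [CommRing R]
  [Algebra ℂ R] (S : Subalgebra ℂ K) (E : DD K) (x : ι → K) (a : ι → ℕ)
  (μ : R →ₐ[ℂ] PowerSeries K) (i0 : S →ₐ[ℂ] R) (ω : FR R) (η : ℤ → FF K), Cone S E x a →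
  Hat S E μ i0 → HL S E μ i0 → Cmp S E μ i0 ω η →
  (∀ n, η n ∈ RF S ∧ lf E (η n) = (n : ℂ) • η n) ∧ ∃ B : ℤ, ∀ n < B, η n = 0

def S_HCLO : Prop := ∀ (K ι R : Type) [Field K] [Algebra ℂ K] [Fintype ι] [CommRing R]
  [Algebra ℂ R] (S : Subalgebra ℂ K) (E : DD K) (x : ι → K) (a : ι → ℕ)
  (μ : R →ₐ[ℂ] PowerSeries K) (i0 : S →ₐ[ℂ] R) (ω : FR R) (η : ℤ → FF K), Cone S E x a →
  Hat S E μ i0 → HL S E μ i0 → Cmp S E μ i0 ω η → Hy.IsSymplecticForm ω →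
  ∀ n, IsClosedForm (η n)

def S_HREG : Prop := ∀ (K ι R : Type) [Field K] [Algebra ℂ K] [Fintype ι] [CommRing R]
  [IsDomain R] [Algebra ℂ R] (S : Subalgebra ℂ K) (E : DD K) (x : ι → K) (a : ι → ℕ)
  (μ : R →ₐ[ℂ] PowerSeries K) (i0 : S →ₐ[ℂ] R) (ω : FR R) (η : ℤ → FF K), Cone S E x a →
  Hat S E μ i0 → HL S E μ i0 → Cmp S E μ i0 ω η → KaeR ω → ∀ n, Rdv S (η n)

def S_HPI : Prop := ∀ (K ι R : Type) [Field K] [Algebra ℂ K] [Fintype ι] [CommRing R]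
  [IsDomain R] [Algebra ℂ R] (S : Subalgebra ℂ K) (E : DD K) (x : ι → K) (a : ι → ℕ)
  (μ : R →ₐ[ℂ] PowerSeries K) (i0 : S →ₐ[ℂ] R) (ω : FR R), Cone S E x a → HL S E μ i0 →
  HGen S E i0 → Hy.IsSymplecticForm ω → HPi S i0 ω

def S_HPERF : Prop := ∀ (K ι R : Type) [Field K] [Algebra ℂ K] [Fintype ι] [CommRing R]
  [Algebra ℂ R] (S : Subalgebra ℂ K) (E : DD K) (x : ι → K) (a : ι → ℕ)
  (μ : R →ₐ[ℂ] PowerSeries K) (i0 : S →ₐ[ℂ] R) (ω : FR R) (η : ℤ → FF K) (B : ℤ), Cone S E x a →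
  Hat S E μ i0 → HL S E μ i0 → HGen S E i0 → HPi S i0 ω → Cmp S E μ i0 ω η →
  (∀ n, η n ∈ RF S ∧ lf E (η n) = (n : ℂ) • η n) → (∀ n < B, η n = 0) →
  ∃ N : ℤ, Perf S x (∑ n ∈ Finset.Icc B N, η n)

/-- LTA for an abstract ring -/
def S_LTA2 : Prop := ∀ (R : Type) [CommRing R] [Algebra ℂ R] [Module.Finite R (DR R)]
  (Y D : DR R), ∃ (D₁ Y₁ : Derivation ℂ (PowerSeries R) (PowerSeries R)) (n : ℕ) (u : Fin n → DR R)
    (ρ : Fin n → PowerSeries R), (∀ G, D₁ (Y₁ G) = Y₁ (D₁ G)) ∧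
      Y = ∑ i, PowerSeries.constantCoeff (ρ i) • u i ∧
      (∀ G, PowerSeries.constantCoeff (Y₁ G) = Y (PowerSeries.constantCoeff G)) ∧
      (∀ g, D₁ (PowerSeries.C g) = PowerSeries.C (D g)) ∧
      ∀ g, Y₁ (PowerSeries.C g) = ∑ i, ρ i * PowerSeries.C (u i g)

/-- LT for an abstract ring -/
def S_LTF : Prop := ∀ (R : Type) [CommRing R] [IsDomain R] [Algebra ℂ R] [IsNoetherianRing R]
  [Module.Finite R (DR R)] (ω : FR R), KaeR ω → ∀ Q : Ideal R, Q.IsPrime → ∀ Y D : DR R,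
  (∀ r, Y r ∈ Q) → ω Y D ∈ Q

/-- HOV: primes inside the vertex are contractions -/
def S_HOV : Prop := ∀ (K ι R : Type) [Field K] [Algebra ℂ K] [Fintype ι] [CommRing R]
  [Algebra ℂ R] (S : Subalgebra ℂ K) (E : DD K) (x : ι → K) (a : ι → ℕ)
  (μ : R →ₐ[ℂ] PowerSeries K) (i0 : S →ₐ[ℂ] R), Cone S E x a → Hat S E μ i0 → HL S E μ i0 →
  ∀ P : Ideal S, P.IsPrime → P ≤ vx S x → ∃ Q : Ideal R, Q.IsPrime ∧ ∀ g : S, i0 g ∈ Q ↔ g ∈ P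

def S_HLTP : Prop := ∀ (K ι R : Type) [Field K] [Algebra ℂ K] [Fintype ι] [CommRing R]
  [IsDomain R] [Algebra ℂ R] (S : Subalgebra ℂ K) (E : DD K) (x : ι → K) (a : ι → ℕ)
  (μ : R →ₐ[ℂ] PowerSeries K) (i0 : S →ₐ[ℂ] R) (ω : FR R), Cone S E x a → Hat S E μ i0 →
  HL S E μ i0 → HGen S E i0 → HPi S i0 ω → ω.IsAlt → KaeR ω → LTP S x

end

end Pool.Agent.MP_51db15_ag.Qh
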