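import Pool.Agent.MP_51db15_ag.Qh.Spec2

/-! PROJECT QF, last layer: a contracting vector field gives a positive grading. -/

namespace Pool.Agent.MP_51db15_ag.Qh

/-- HJ: normal form of an ideal that is stable under a contracting field -/
def S_HJ : Prop := ∀ (ι : Type) [Fintype ι] [DecidableEq ι] (I : Ideal (MvPowerSeries ι ℂ))
  (ξ : Derivation ℂ (MvPowerSeries ι ℂ) (MvPowerSeries ι ℂ)), (∀ g ∈ I, ξ g ∈ I) →
  (∀ g ∈ IsLocalRing.maximalIdeal (MvPowerSeries ι ℂ),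
    ξ g ∈ IsLocalRing.maximalIdeal (MvPowerSeries ι ℂ)) →
  (∀ (c : ℂ), ∀ g ∈ IsLocalRing.maximalIdeal (MvPowerSeries ι ℂ),
    g ∉ IsLocalRing.maximalIdeal (MvPowerSeries ι ℂ) ^ 2 →
    ξ g - c • g ∈ IsLocalRing.maximalIdeal (MvPowerSeries ι ℂ) ^ 2 → 0 < c.re) →
  ∃ (ψ : MvPowerSeries ι ℂ ≃ₐ[ℂ] MvPowerSeries ι ℂ) (c : ι → ℂ), (∀ i, 0 < (c i).re) ∧
    ∀ g, ψ g ∈ I → ∀ e, ψ (Hy.comp c e g) ∈ I

/-- HG: from complex weights to a polynomial ideal with positive integer weights -/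
def S_HG : Prop := ∀ (ι : Type) [Fintype ι] [DecidableEq ι] (I : Ideal (MvPowerSeries ι ℂ))
  (c : ι → ℂ), (∀ i, 0 < (c i).re) → (∀ g ∈ I, ∀ e, Hy.comp c e g ∈ I) →
  ∃ (a : ι → ℕ) (J : Ideal (MvPolynomial ι ℂ)), (∀ i, 0 < a i) ∧
    (∀ g ∈ J, ∀ n, MvPolynomial.weightedHomogeneousComponent a n g ∈ J) ∧
    J.map MvPolynomial.coeToMvPowerSeries.ringHom = I ∧
    J = I.comap MvPolynomial.coeToMvPowerSeries.ringHom

/-- INI without normality -/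
def S_INI2 : Prop := ∀ (ι : Type) [Fintype ι] [DecidableEq ι] (a : ι → ℕ)
  (J : Ideal (MvPolynomial ι ℂ)), J.IsPrime →
  (∀ g ∈ J, ∀ n, MvPolynomial.weightedHomogeneousComponent a n g ∈ J) →
  ∃ (K : Type) (_ : Field K) (_ : Algebra ℂ K) (φ : MvPolynomial ι ℂ →ₐ[ℂ] K) (E : DD K),
    (∀ g, φ g = 0 ↔ g ∈ J) ∧ Cx φ.range E (fun i => φ (.X i)) a ∧
      vx φ.range (fun i => φ (.X i)) = Ideal.span (Set.range fun i => φ.rangeRestrict (.X i))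

/-- HNRM: the cone of a normal germ is normal -/
def S_HNRM : Prop := ∀ (K ι R : Type) [Field K] [Algebra ℂ K] [Fintype ι] [CommRing R]
  [IsDomain R] [IsIntegrallyClosed R] [Algebra ℂ R] (S : Subalgebra ℂ K) (E : DD K) (x : ι → K)
  (a : ι → ℕ) (μ : R →ₐ[ℂ] PowerSeries K) (i0 : S →ₐ[ℂ] R), Cone S E x a → Hat S E μ i0 →
  HL S E μ i0 → Nrm S

end Pool.Agent.MP_51db15_ag.Qh
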