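import Pool.Agent.MP_51db15_ag.Nc.Stmt
import Mathlib.RingTheory.MvPolynomial.WeightedHomogeneous

/-! The weighted tangent cone and weights of tensors on it. -/

namespace Pool.Agent.MP_51db15_ag.Qh

/-- The ideal of the weighted tangent cone of `ℂ⟦x⟧ / I`: generated by the weighted homogeneous
polynomials that agree with an element of `I` up to terms of higher weight. -/
noncomputable def wCone {ι : Type} (a : ι → ℕ) (I : Ideal (MvPowerSeries ι ℂ)) :
    Ideal (MvPolynomial ι ℂ) :=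
  Ideal.span {F | ∃ d : ℕ, F.IsWeightedHomogeneous a d ∧
    ∃ f ∈ I, (d : ℕ∞) < (f - (F : MvPowerSeries ι ℂ)).weightedOrder a}

variable {K : Type} [Field K] [Algebra ℂ K]

/-- Nonzero regular one-forms that are homogeneous for `E` have positive weight. -/
def PosForms (S : Subalgebra ℂ K) (E : Derivation ℂ K K) : Prop :=
  ∀ (γ : Module.Dual K (Derivation ℂ K K)) (c : ℤ), γ ≠ 0 →
    (∀ X : Derivation ℂ K K, (∀ g ∈ S, X g ∈ S) → γ X ∈ S) →
    (∀ X, E (γ X) - γ ⁅E, X⁆ = (c : ℂ) • γ X) → 0 < c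

/-- The weights of a nonzero regular two-form and of a nonzero regular bivector (a skew
biderivation) have a non-negative sum. -/
def Balanced (S : Subalgebra ℂ K) (E : Derivation ℂ K K) : Prop :=
  ∀ (η : LinearMap.BilinForm K (Derivation ℂ K K)) (B : K →ₗ[ℂ] Derivation ℂ K K) (l k : ℤ),
    η ≠ 0 → η.IsAlt → RegularOn η (S : Set K) →
    (∀ X Y, E (η X Y) - η ⁅E, X⁆ Y - η X ⁅E, Y⁆ = (l : ℂ) • η X Y) →
    B ≠ 0 → (∀ g h, B g h = -B h g) → (∀ g ∈ S, ∀ h ∈ S, B g h ∈ S) →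
    (∀ g h, E (B g h) - B (E g) h - B g (E h) = (k : ℂ) • B g h) → 0 ≤ l + k

end Pool.Agent.MP_51db15_ag.Qh
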