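import Pool.Agent.MP_51db15_ag.Qh.Spec3
import Pool.Agent.MP_51db15_ag.Qh.Stmt4
import Pool.Agent.MP_51db15_ag.Nc.Base

/-! PROJECT SD: a balanced normal weighted tangent cone gives a contracting field. -/

namespace Pool.Agent.MP_51db15_ag.Qh

open Module

noncomputable section

section Defs

variable {K : Type} [Field K] [Algebra ℂ K] {ι R : Type} [CommRing R] [Algebra ℂ R]

/-- weighted order at least `k` -/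
def Wo (a : ι → ℕ) (k : ℤ) (g : MvPowerSeries ι ℂ) : Prop :=
  ((k.toNat : ℕ) : ℕ∞) ≤ g.weightedOrder a

/-- `ker φ` is the weighted tangent cone of `q` -/
structure Wc [Fintype ι] (q : MvPowerSeries ι ℂ →ₐ[ℂ] R) (a : ι → ℕ)
    (φ : MvPolynomial ι ℂ →ₐ[ℂ] K) (F : ℤ → Ideal R) : Prop where
  pres : ∃ m, Nc.Pres q m
  pos : ∀ i, 0 < a i
  hom : ∀ g, φ g = 0 → ∀ n, φ (MvPolynomial.weightedHomogeneousComponent a n g) = 0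
  mem : ∀ (d : ℕ) (G : MvPolynomial ι ℂ), G.IsWeightedHomogeneous a d →
    (φ G = 0 ↔ q (G : MvPowerSeries ι ℂ) ∈ F (d + 1))
  fil : ∀ k r, r ∈ F k ↔ ∃ g, Wo a k g ∧ q g = r

/-- the derivation has order at least `p` -/
def Od (F : ℤ → Ideal R) (D : DR R) (p : ℤ) : Prop := ∀ k, ∀ r ∈ F k, D r ∈ F (k + p)

/-- the filtration -/
structure FA (F : ℤ → Ideal R) (X : ι → R) (a : ι → ℕ) : Prop where
  anti : Antitone F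
  top : ∀ k ≤ 0, F k = ⊤
  mul : ∀ i j, ∀ r ∈ F i, ∀ s ∈ F j, r * s ∈ F (i + j)
  sep : ∀ r, (∀ k, r ∈ F k) → r = 0
  cpl : ∀ (k : ℤ) (r : ℕ → R), (∀ n : ℕ, r n ∈ F (k + n)) →
    ∃ s, ∀ N : ℕ, s - ∑ n ∈ Finset.range N, r n ∈ F (k + N)
  gen : ∀ i, X i ∈ F (a i)
  chain : ∀ (D : DR R) (p : ℤ), (∀ i, D (X i) ∈ F (a i + p)) → Od F D p
  ext : ∀ D : DR R, (∀ i, D (X i) = 0) → D = 0

/-- the symbols -/
structure FB (S : Subalgebra ℂ K) (E : DD K) (x : ι → K) (a : ι → ℕ) (F : ℤ → Ideal R) (X : ι → R)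
    (σ : ℤ → R →ₗ[ℂ] K) : Prop where
  mem : ∀ k, ∀ r ∈ F k, σ k r ∈ S ∧ E (σ k r) = (k : ℂ) • σ k r
  zero : ∀ k, ∀ r ∈ F k, (σ k r = 0 ↔ r ∈ F (k + 1))
  mul : ∀ i j, ∀ r ∈ F i, ∀ s ∈ F j, σ (i + j) (r * s) = σ i r * σ j s
  surj : ∀ (k : ℤ), ∀ g ∈ S, E g = (k : ℂ) • g → ∃ r ∈ F k, σ k r = g
  gen : ∀ i, σ (a i) (X i) = x i

/-- `D₀` is the symbol of `D` in degree `p` -/
def Sym (F : ℤ → Ideal R) (σ : ℤ → R →ₗ[ℂ] K) (D : DR R) (p : ℤ) (D₀ : DD K) : Prop :=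
  Od F D p ∧ ∀ k, ∀ r ∈ F k, σ (k + p) (D r) = D₀ (σ k r)

/-- calculus of symbols -/
structure SY (S : Subalgebra ℂ K) (E : DD K) (F : ℤ → Ideal R) (σ : ℤ → R →ₗ[ℂ] K) : Prop where
  ex : ∀ D p, Od F D p → ∃ D₀, Sym F σ D p D₀
  mem : ∀ D p D₀, Sym F σ D p D₀ → D₀ ∈ TT S ∧ ⁅E, D₀⁆ = (p : ℂ) • D₀
  uniq : ∀ D p D₀ D₁, Sym F σ D p D₀ → Sym F σ D p D₁ → D₀ = D₁
  zero : ∀ D p, Sym F σ D p 0 ↔ Od F D (p + 1)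
  add : ∀ D D' p D₀ D₁, Sym F σ D p D₀ → Sym F σ D' p D₁ → Sym F σ (D + D') p (D₀ + D₁)
  smul : ∀ D p D₀ k, ∀ r ∈ F k, Sym F σ D p D₀ → Sym F σ (r • D) (k + p) (σ k r • D₀)
  csmul : ∀ D p D₀ (c : ℂ), Sym F σ D p D₀ → Sym F σ (c • D) p (c • D₀)
  lie : ∀ D D' p p' D₀ D₁, Sym F σ D p D₀ → Sym F σ D' p' D₁ → Sym F σ ⁅D, D'⁆ (p + p') ⁅D₀, D₁⁆
  low : ∃ B : ℤ, ∀ D, Od F D B
  sep : ∀ D, (∀ p, Od F D p) → D = 0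

/-- homogeneous fields lift up to a factor outside a given locally principal prime -/
def Lift (S : Subalgebra ℂ K) (E : DD K) (F : ℤ → Ideal R) (σ : ℤ → R →ₗ[ℂ] K) : Prop :=
  ∀ Q : Ideal S, Q.IsPrime → (∀ g ∈ Q, In Q (E g)) → Nc.Prin ⊥ Q → ∀ D₀ ∈ TT S, ∀ p : ℤ,
    ⁅E, D₀⁆ = (p : ℂ) • D₀ → ∃ (δ : S) (d : ℕ) (D : DR R), δ ∉ Q ∧ E δ = (d : ℂ) • (δ : K) ∧
      Sym F σ D (d + p) ((δ : K) • D₀)

/-- all filtered data -/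
structure Flt (S : Subalgebra ℂ K) (E : DD K) (x : ι → K) (a : ι → ℕ) (F : ℤ → Ideal R)
    (X : ι → R) (σ : ℤ → R →ₗ[ℂ] K) : Prop where
  cone : Cone S E x a
  fa : FA F X a
  fb : FB S E x a F X σ
  sy : SY S E F σ
  lift : Lift S E F σ

/-- the leading form -/
def Lead (F : ℤ → Ideal R) (σ : ℤ → R →ₗ[ℂ] K) (ω : FR R) (l : ℤ) (ω₀ : FF K) : Prop :=
  ∀ D D' p p' D₀ D₁, Sym F σ D p D₀ → Sym F σ D' p' D₁ →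
    ω D D' ∈ F (p + p' + l) ∧ ω₀ D₀ D₁ = σ (p + p' + l) (ω D D')

/-- the leading bracket -/
def LeadB (F : ℤ → Ideal R) (σ : ℤ → R →ₗ[ℂ] K) (ω : FR R) (l : ℤ) (B : K →ₗ[ℂ] DD K) : Prop :=
  ∀ k, ∀ r ∈ F k, ∀ H : DR R, (∀ Y, ω H Y = Y r) → Sym F σ H (k - l) (B (σ k r))

/-- weighted homogeneous Jacobian data of `J` at `Q` -/
def JDw [Fintype ι] [DecidableEq ι] (a : ι → ℕ) (J Q : Ideal (MvPolynomial ι ℂ)) : Prop :=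
  ∃ (T : Finset ι) (w : ι → MvPolynomial ι ℂ) (dg : ι → ℕ) (G : MvPolynomial ι ℂ) (e : ℕ),
    (∀ i, (w i).IsWeightedHomogeneous a (dg i)) ∧ (∀ i ∈ T, w i ∈ J) ∧
    (Matrix.of fun i j => MvPolynomial.pderiv j (w i)).det ∉ Q ∧ G.IsWeightedHomogeneous a e ∧
    G ∉ J ∧ ∀ h ∈ J, G * h ∈ Ideal.span (w '' T)

end Defs

/-- WC: the weighted tangent cone -/
def S_WC : Prop := ∀ (ι K : Type) [Fintype ι] [DecidableEq ι] [Field K] [Algebra ℂ K] (a : ι → ℕ)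
  (I : Ideal (MvPowerSeries ι ℂ)) (φ : MvPolynomial ι ℂ →ₐ[ℂ] K), (∀ i, 0 < a i) →
  RingHom.ker φ = wCone a I → ∃ F, Wc (Ideal.Quotient.mkₐ ℂ I) a φ F

def S_FA : Prop := ∀ (ι K R : Type) [Fintype ι] [DecidableEq ι] [Field K] [Algebra ℂ K]
  [CommRing R] [IsDomain R] [Algebra ℂ R] (q : MvPowerSeries ι ℂ →ₐ[ℂ] R) (a : ι → ℕ)
  (φ : MvPolynomial ι ℂ →ₐ[ℂ] K) (F : ℤ → Ideal R), Wc q a φ F →
  FA F (fun i => q (MvPowerSeries.X i)) a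

def S_FB : Prop := ∀ (ι K R : Type) [Fintype ι] [DecidableEq ι] [Field K] [Algebra ℂ K]
  [CommRing R] [IsDomain R] [Algebra ℂ R] (q : MvPowerSeries ι ℂ →ₐ[ℂ] R) (a : ι → ℕ)
  (φ : MvPolynomial ι ℂ →ₐ[ℂ] K) (F : ℤ → Ideal R) (E : DD K), Wc q a φ F →
  (∀ i, E (φ (.X i)) = (a i : ℂ) • φ (.X i)) →
  ∃ σ, FB φ.range E (fun i => φ (.X i)) a F (fun i => q (MvPowerSeries.X i)) σ ∧
    ∀ (d : ℕ) (G : MvPolynomial ι ℂ) (g : MvPowerSeries ι ℂ), G.IsWeightedHomogeneous a d →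
      Wo a (d + 1) (g - G) → σ d (q g) = φ G

def S_SY : Prop := ∀ (K ι R : Type) [Field K] [Algebra ℂ K] [Fintype ι] [CommRing R] [Algebra ℂ R]
  (S : Subalgebra ℂ K) (E : DD K) (x : ι → K) (a : ι → ℕ) (F : ℤ → Ideal R) (X : ι → R)
  (σ : ℤ → R →ₗ[ℂ] K), Cone S E x a → FA F X a → FB S E x a F X σ → SY S E F σ

/-- JBW: weighted homogeneous form of the Jacobian criterion -/
def S_JBW : Prop := ∀ (ι : Type) [Fintype ι] [DecidableEq ι] (a : ι → ℕ)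
  (J Q : Ideal (MvPolynomial ι ℂ)), (∀ i, 0 < a i) → J.IsPrime → Q.IsPrime →
  (∀ g ∈ J, ∀ n, MvPolynomial.weightedHomogeneousComponent a n g ∈ J) →
  (∀ g ∈ Q, ∀ n, MvPolynomial.weightedHomogeneousComponent a n g ∈ Q) → J ≤ Q → Nc.Prin J Q →
  JDw a J Q

/-- JCT: a field that kills the lifted equations is tangent -/
def S_JCT : Prop := ∀ (ι K R : Type) [Fintype ι] [DecidableEq ι] [Field K] [Algebra ℂ K]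
  [CommRing R] [IsDomain R] [Algebra ℂ R] (q : MvPowerSeries ι ℂ →ₐ[ℂ] R) (a : ι → ℕ)
  (φ : MvPolynomial ι ℂ →ₐ[ℂ] K) (F : ℤ → Ideal R), Wc q a φ F →
  FA F (fun i => q (MvPowerSeries.X i)) a →
  (∀ i j, ∀ r ∈ F i, r ∉ F (i + 1) → ∀ s, r * s ∈ F (i + j) → s ∈ F j) →
  ∀ (T : Finset ι) (w : ι → MvPolynomial ι ℂ) (dg : ι → ℕ) (G : MvPolynomial ι ℂ) (e : ℕ)
    (u y : ι → MvPowerSeries ι ℂ), (∀ i, (w i).IsWeightedHomogeneous a (dg i)) →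
    G.IsWeightedHomogeneous a e → φ G ≠ 0 → (∀ h, φ h = 0 → G * h ∈ Ideal.span (w '' T)) →
    (∀ i, Wo a (dg i + 1) (u i)) → (∀ i ∈ T, q ((w i : MvPowerSeries ι ℂ) - u i) = 0) →
    (∀ i ∈ T, Hy.vf y ((w i : MvPowerSeries ι ℂ) - u i) = 0) → ∀ g, q g = 0 → q (Hy.vf y g) = 0

/-- LIFT -/
def S_LIFT : Prop := ∀ (ι K R : Type) [Fintype ι] [DecidableEq ι] [Field K] [Algebra ℂ K]
  [CommRing R] [IsDomain R] [Algebra ℂ R] (q : MvPowerSeries ι ℂ →ₐ[ℂ] R) (a : ι → ℕ)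
  (φ : MvPolynomial ι ℂ →ₐ[ℂ] K) (F : ℤ → Ideal R) (E : DD K) (σ : ℤ → R →ₗ[ℂ] K), Wc q a φ F →
  Cone φ.range E (fun i => φ (.X i)) a → FA F (fun i => q (MvPowerSeries.X i)) a →
  FB φ.range E (fun i => φ (.X i)) a F (fun i => q (MvPowerSeries.X i)) σ →
  (∀ (d : ℕ) (G : MvPolynomial ι ℂ) (g : MvPowerSeries ι ℂ), G.IsWeightedHomogeneous a d →
    Wo a (d + 1) (g - G) → σ d (q g) = φ G) → SY φ.range E F σ → Lift φ.range E F σ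

/-- GENF: filtered generators of the fields -/
def S_GENF : Prop := ∀ (K ι R : Type) [Field K] [Algebra ℂ K] [Fintype ι] [CommRing R]
  [Algebra ℂ R] (S : Subalgebra ℂ K) (E : DD K) (x : ι → K) (a : ι → ℕ) (F : ℤ → Ideal R)
  (X : ι → R) (σ : ℤ → R →ₗ[ℂ] K), Flt S E x a F X σ →
  ∃ (n : ℕ) (u : Fin n → DR R) (p : Fin n → ℤ), (∀ j, Od F (u j) (p j)) ∧
    ∀ D k, Od F D k → ∃ r : Fin n → R, (∀ j, r j ∈ F (k - p j)) ∧ D = ∑ j, r j • u j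

def S_OM0 : Prop := ∀ (K ι R : Type) [Field K] [Algebra ℂ K] [Fintype ι] [CommRing R]
  [Algebra ℂ R] (S : Subalgebra ℂ K) (E : DD K) (x : ι → K) (a : ι → ℕ) (F : ℤ → Ideal R)
  (X : ι → R) (σ : ℤ → R →ₗ[ℂ] K) (ω : FR R), Flt S E x a F X σ → ω ≠ 0 →
  ∃ l ω₀, ω₀ ≠ 0 ∧ Lead F σ ω l ω₀

def S_OMR : Prop := ∀ (K ι R : Type) [Field K] [Algebra ℂ K] [Fintype ι] [CommRing R]
  [Algebra ℂ R] (S : Subalgebra ℂ K) (E : DD K) (x : ι → K) (a : ι → ℕ) (F : ℤ → Ideal R)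
  (X : ι → R) (σ : ℤ → R →ₗ[ℂ] K) (ω : FR R) (l : ℤ) (ω₀ : FF K), Flt S E x a F X σ → Nrm S →
  Lead F σ ω l ω₀ → lf E ω₀ = (l : ℂ) • ω₀ → ω₀ ∈ RF S

def S_OMC : Prop := ∀ (K ι R : Type) [Field K] [Algebra ℂ K] [Fintype ι] [CommRing R]
  [Algebra ℂ R] (S : Subalgebra ℂ K) (E : DD K) (x : ι → K) (a : ι → ℕ) (F : ℤ → Ideal R)
  (X : ι → R) (σ : ℤ → R →ₗ[ℂ] K) (ω : FR R) (l : ℤ) (ω₀ : FF K), Flt S E x a F X σ →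
  Hy.IsSymplecticForm ω → Lead F σ ω l ω₀ → IsClosedForm ω₀ ∧ lf E ω₀ = (l : ℂ) • ω₀

/-- OMD: the symbol of a dilating field -/
def S_OMD : Prop := ∀ (K ι R : Type) [Field K] [Algebra ℂ K] [Fintype ι] [CommRing R]
  [Algebra ℂ R] (S : Subalgebra ℂ K) (E : DD K) (x : ι → K) (a : ι → ℕ) (F : ℤ → Ideal R)
  (X : ι → R) (σ : ℤ → R →ₗ[ℂ] K) (ω : FR R) (l : ℤ) (ω₀ : FF K), Flt S E x a F X σ →
  Lead F σ ω l ω₀ → ∀ ξ p ξ₀, Nc.IsDilating ω ξ → Sym F σ ξ p ξ₀ →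
  (p < 0 → lf ξ₀ ω₀ = 0) ∧ (p = 0 → lf ξ₀ ω₀ = ω₀)

def S_PI0 : Prop := ∀ (K ι R : Type) [Field K] [Algebra ℂ K] [Fintype ι] [CommRing R]
  [Algebra ℂ R] (S : Subalgebra ℂ K) (E : DD K) (x : ι → K) (a : ι → ℕ) (F : ℤ → Ideal R)
  (X : ι → R) (σ : ℤ → R →ₗ[ℂ] K) (ω : FR R), Flt S E x a F X σ → Hy.IsSymplecticForm ω →
  (∃ D : DR R, D ≠ 0) → ∃ (l : ℤ) (B : K →ₗ[ℂ] DD K), B ≠ 0 ∧ (∀ g h, B g h = -B h g) ∧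
    (∀ g ∈ S, ∀ h ∈ S, B g h ∈ S) ∧
    (∀ g h, E (B g h) - B (E g) h - B g (E h) = ((-l : ℤ) : ℂ) • B g h) ∧ LeadB F σ ω l B

/-- EQ: comparison of the two orders -/
def S_EQ : Prop := ∀ (K ι R : Type) [Field K] [Algebra ℂ K] [Fintype ι] [CommRing R]
  [Algebra ℂ R] (S : Subalgebra ℂ K) (E : DD K) (x : ι → K) (a : ι → ℕ) (F : ℤ → Ideal R)
  (X : ι → R) (σ : ℤ → R →ₗ[ℂ] K) (ω : FR R) (l l' : ℤ) (ω₀ : FF K) (B : K →ₗ[ℂ] DD K),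
  Flt S E x a F X σ → Hy.IsSymplecticForm ω → (∃ D : DR R, D ≠ 0) → Lead F σ ω l ω₀ →
  LeadB F σ ω l' B → l' ≤ l → l' = l ∧ ∀ i, ω₀ (B (x i)) = dd (x i)

/-- HAM0: a homogeneous symplectic field is Hamiltonian -/
def S_HAM0 : Prop := ∀ (K ι : Type) [Field K] [Algebra ℂ K] [Fintype ι] (S : Subalgebra ℂ K)
  (E : DD K) (x : ι → K) (a : ι → ℕ) (ω₀ : FF K) (B : K →ₗ[ℂ] DD K) (l : ℤ), Cone S E x a →
  PosForms S E → ω₀ ∈ RF S → IsClosedForm ω₀ → lf E ω₀ = (l : ℂ) • ω₀ → (∀ g h, B g h = -B h g) →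
  (∀ i, ω₀ (B (x i)) = dd (x i)) → (E ≠ 0 → 0 < l) ∧ ∀ Z ∈ TT S, ∀ p : ℤ, ⁅E, Z⁆ = (p : ℂ) • Z →
    lf Z ω₀ = 0 → ∃ f ∈ S, E f = ((p + l : ℤ) : ℂ) • f ∧ Z = B f

/-- IMP: improvement of the dilating field -/
def S_IMP : Prop := ∀ (K ι R : Type) [Field K] [Algebra ℂ K] [Fintype ι] [CommRing R]
  [Algebra ℂ R] (S : Subalgebra ℂ K) (E : DD K) (x : ι → K) (a : ι → ℕ) (F : ℤ → Ideal R)
  (X : ι → R) (σ : ℤ → R →ₗ[ℂ] K) (ω : FR R) (l : ℤ) (ω₀ : FF K) (B : K →ₗ[ℂ] DD K),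
  Flt S E x a F X σ → Hy.IsSymplecticForm ω → Lead F σ ω l ω₀ → LeadB F σ ω l B →
  lf E ω₀ = (l : ℂ) • ω₀ → 0 < l →
  (∀ Z ∈ TT S, ∀ p : ℤ, ⁅E, Z⁆ = (p : ℂ) • Z → lf Z ω₀ = 0 →
    ∃ f ∈ S, E f = ((p + l : ℤ) : ℂ) • f ∧ Z = B f) →
  ∀ ξ, Nc.IsDilating ω ξ → ∃ ξ' : DR R, Sym F σ ξ' 0 ((l : ℂ)⁻¹ • E)

/-- AMB: the contracting field on the ambient space -/
def S_AMB : Prop := ∀ (ι K R : Type) [Fintype ι] [DecidableEq ι] [Field K] [Algebra ℂ K]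
  [CommRing R] [IsDomain R] [Algebra ℂ R] (q : MvPowerSeries ι ℂ →ₐ[ℂ] R) (a : ι → ℕ)
  (φ : MvPolynomial ι ℂ →ₐ[ℂ] K) (F : ℤ → Ideal R) (D : DR R), Wc q a φ F →
  (∀ i, D (q (MvPowerSeries.X i)) - (a i : ℂ) • q (MvPowerSeries.X i) ∈ F (a i + 1)) →
  ∃ ξ : Derivation ℂ (MvPowerSeries ι ℂ) (MvPowerSeries ι ℂ), (∀ g, q g = 0 → q (ξ g) = 0) ∧
    (∀ g ∈ IsLocalRing.maximalIdeal (MvPowerSeries ι ℂ),
      ξ g ∈ IsLocalRing.maximalIdeal (MvPowerSeries ι ℂ)) ∧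
    ∀ (c : ℂ), ∀ g ∈ IsLocalRing.maximalIdeal (MvPowerSeries ι ℂ),
      g ∉ IsLocalRing.maximalIdeal (MvPowerSeries ι ℂ) ^ 2 →
      ξ g - c • g ∈ IsLocalRing.maximalIdeal (MvPowerSeries ι ℂ) ^ 2 → 0 < c.re

end

end Pool.Agent.MP_51db15_ag.Qh
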