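import Pool.Agent.MP_51db15_ag.Qh.Ops

/-! Slopes of graded modules over a cone, read from Hilbert series near `t = 1`. -/

namespace Pool.Agent.MP_51db15_ag.Qh

/-- The Hilbert series of `M`, graded by the integer eigenvalues of `δ`. -/
noncomputable def hilb {U : Type} [AddCommGroup U] [Module ℂ U] (δ : Module.End ℂ U)
    (M : Submodule ℂ U) (t : ℝ) : ℝ :=
  ∑' k : ℤ, (Module.finrank ℂ ↥(M ⊓ δ.eigenspace (k : ℂ)) : ℝ) * t ^ k

variable {K : Type} [Field K] [Algebra ℂ K] {U : Type} [AddCommGroup U] [Module K U]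

/-- The rank of a submodule of a vector space over the function field. -/
noncomputable def rk {S : Subalgebra ℂ K} (N : Submodule S U) : ℕ :=
  Module.finrank K ↥(Submodule.span K (N : Set U))

/-- Graded submodules of `M` have slope at most `β` and graded quotients of `M` have slope at
least `α`.  A module of rank `r` and slope `μ` has Hilbert series `r (1 + μ (1 - t) + ...)` times
the series of `S` when `t` tends to `1` from below. -/
def SlopesIn (S : Subalgebra ℂ K) (E : Derivation ℂ K K) [Module ℂ U] [IsScalarTower ℂ K U]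
    (δ : Module.End ℂ U) (M : Submodule S U) (α β : ℝ) : Prop :=
  ∀ N : Submodule S U, N ≤ M → (∀ u ∈ N, δ u ∈ N) → ∀ᶠ t in nhdsWithin (1 : ℝ) (Set.Iio 1),
    hilb δ (N.restrictScalars ℂ) t ≤
        rk N * (1 + β * (1 - t)) * hilb (op E) (Subalgebra.toSubmodule S) t ∧
      ((rk M : ℝ) - rk N) * (1 + α * (1 - t)) * hilb (op E) (Subalgebra.toSubmodule S) t ≤
        hilb δ (M.restrictScalars ℂ) t - hilb δ (N.restrictScalars ℂ) t

end Pool.Agent.MP_51db15_ag.Qh
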