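import Pool.Agent.MP_51db15_ag.Qh.Spec4
import Pool.Agent.MP_51db15_ag.Qh.Stmt5

/-! PROJECT SS: bounds on slopes give the two inequalities between weights. -/

namespace Pool.Agent.MP_51db15_ag.Qh

open Module

/-- the Hilbert series converges at `t` -/
def Smb {U : Type} [AddCommGroup U] [Module ℂ U] (δ : End ℂ U) (M : Submodule ℂ U) (t : ℝ) : Prop :=
  Summable fun k : ℤ => (finrank ℂ ↥(M ⊓ δ.eigenspace (k : ℂ)) : ℝ) * t ^ k

section Defs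

variable {K : Type} [Field K] [Algebra ℂ K] {U : Type} [AddCommGroup U] [Module K U]

/-- upper bound for submodules -/
def Up (S : Subalgebra ℂ K) (E : DD K) [Module ℂ U] [IsScalarTower ℂ K U] (δ : End ℂ U)
    (M : Submodule S U) (β : ℝ) : Prop :=
  ∀ N : Submodule S U, N ≤ M → (∀ u ∈ N, δ u ∈ N) → ∀ᶠ t in nhdsWithin (1 : ℝ) (Set.Iio 1),
    hilb δ (N.restrictScalars ℂ) t ≤ rk N * (1 + β * (1 - t)) * hilb (op E) (SC S) t

/-- lower bound for quotients -/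
def Lo (S : Subalgebra ℂ K) (E : DD K) [Module ℂ U] [IsScalarTower ℂ K U] (δ : End ℂ U)
    (M : Submodule S U) (α : ℝ) : Prop :=
  ∀ N : Submodule S U, N ≤ M → (∀ u ∈ N, δ u ∈ N) → ∀ᶠ t in nhdsWithin (1 : ℝ) (Set.Iio 1),
    ((rk M : ℝ) - rk N) * (1 + α * (1 - t)) * hilb (op E) (SC S) t ≤
      hilb δ (M.restrictScalars ℂ) t - hilb δ (N.restrictScalars ℂ) t

end Defs

/-- HSS: the series of the cone -/
def S_HSS : Prop := ∀ (K ι : Type) [Field K] [Algebra ℂ K] [Fintype ι] (S : Subalgebra ℂ K)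
  (E : DD K) (x : ι → K) (a : ι → ℕ), Cone S E x a → ∀ t : ℝ, 0 < t → t < 1 →
  Smb (op E) (SC S) t ∧ 0 < hilb (op E) (SC S) t

/-- HSE: convergence is detected by finitely many evaluations -/
def S_HSE : Prop := ∀ (U W ι : Type) [AddCommGroup U] [Module ℂ U] [AddCommGroup W] [Module ℂ W]
  [Fintype ι] (δ : End ℂ U) (δ' : End ℂ W) (H : Submodule ℂ U) (H' : Submodule ℂ W)
  (ev : ι → U →ₗ[ℂ] W) (α : ι → ℤ), (∀ u ∈ H, ∀ i, ev i u ∈ H') →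
  (∀ u ∈ H, (∀ i, ev i u = 0) → u = 0) →
  (∀ u ∈ H, ∀ i, ev i (δ u) = δ' (ev i u) - (α i : ℂ) • ev i u) → Fd δ' H' →
  Fd δ H ∧ ∀ t : ℝ, 0 < t → Smb δ' H' t → Smb δ H t

/-- HST: fields and forms -/
def S_HST : Prop := ∀ (K ι : Type) [Field K] [Algebra ℂ K] [Fintype ι] (S : Subalgebra ℂ K)
  (E : DD K) (x : ι → K) (a : ι → ℕ), Cone S E x a → Fd (ld E) (DC S) ∧ ∀ t : ℝ, 0 < t → t < 1 →
  Smb (ad E) (TC S) t ∧ Smb (ld E) (DC S) t

/-- HSA: additivity -/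
def S_HSA : Prop := ∀ (U W : Type) [AddCommGroup U] [Module ℂ U] [AddCommGroup W] [Module ℂ W]
  (δ : End ℂ U) (δ' : End ℂ W) (H : Submodule ℂ U) (f : U →ₗ[ℂ] W) (l : ℤ) (t : ℝ), Dz δ H →
  Fd δ H → (∀ u, δ' (f u) = f (δ u) + (l : ℂ) • f u) → 0 < t → Smb δ H t →
  hilb δ' (H.map f) t = t ^ l * (hilb δ H t - hilb δ (H ⊓ LinearMap.ker f) t)

/-- HSN: first order at `t = 1` -/
def S_HSN : Prop := ∀ (l : ℤ) (α β : ℝ), (∀ᶠ t in nhdsWithin (1 : ℝ) (Set.Iio 1),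
  t ^ l * (1 + α * (1 - t)) ≤ 1 + β * (1 - t)) → α - β ≤ l

/-- HSH: degree of a non-zero homogeneous map -/
def S_HSH : Prop := ∀ (K U W : Type) [Field K] [Algebra ℂ K] [AddCommGroup U] [Module K U]
  [Module ℂ U] [IsScalarTower ℂ K U] [AddCommGroup W] [Module K W] [Module ℂ W]
  [IsScalarTower ℂ K W] [FiniteDimensional K U] (S : Subalgebra ℂ K) (E : DD K) (δ : End ℂ U)
  (δ' : End ℂ W) (M : Submodule S U) (M' : Submodule S W) (f : U →ₗ[K] W) (l : ℤ) (α β : ℝ),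
  f ≠ 0 → (∀ u ∈ M, f u ∈ M') → (∀ u, δ' (f u) = f (δ u) + (l : ℂ) • f u) →
  (∀ u : U, ∃ s : K, s ∈ S ∧ s ≠ 0 ∧ s • u ∈ M) → (∀ u ∈ M, δ u ∈ M) → Dz δ (M.restrictScalars ℂ) →
  Fd δ (M.restrictScalars ℂ) →
  (∀ t : ℝ, 0 < t → t < 1 → Smb δ (M.restrictScalars ℂ) t ∧ 0 < hilb (op E) (SC S) t) →
  Lo S E δ M α → Up S E δ' M' β → α - β ≤ l

/-- HSU: ideals have slope at most zero -/
def S_HSU : Prop := ∀ (K ι : Type) [Field K] [Algebra ℂ K] [Fintype ι] (S : Subalgebra ℂ K)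
  (E : DD K) (x : ι → K) (a : ι → ℕ), Cone S E x a → Up S E (op E) (1 : Submodule S K) 0

/-- HSB: the two inequalities -/
def S_HSB : Prop := ∀ (K ι : Type) [Field K] [Algebra ℂ K] [Fintype ι] (S : Subalgebra ℂ K)
  (E : DD K) (x : ι → K) (a : ι → ℕ) (α β : ℝ), Cone S E x a → 0 < α → β - α < 1 / 2 →
  SlopesIn S E (ad E) (TT S) α β → SlopesIn S E (ld E) (TD S) (-β) (-α) →
  PosForms S E ∧ Balanced S E

end Pool.Agent.MP_51db15_ag.Qh
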