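import Pool.Agent.MP_51db15_ag.Qh.Spec5

/-! PROJECT SD, duality layer: slopes of a graded lattice and of its dual. -/

namespace Pool.Agent.MP_51db15_ag.Qh

open Module

noncomputable section

section Defs

variable {K : Type} [Field K] [Algebra ℂ K] {U W : Type} [AddCommGroup U] [Module K U]
  [Module ℂ U] [IsScalarTower ℂ K U] [AddCommGroup W] [Module K W] [Module ℂ W]
  [IsScalarTower ℂ K W]

/-- `δ` differentiates along `E` -/
def Cn (E : DD K) (δ : End ℂ U) : Prop := ∀ (g : K) (u : U), δ (g • u) = g • δ u + E g • u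

/-- a graded lattice -/
structure Lat (S : Subalgebra ℂ K) (δ : End ℂ U) (M : Submodule S U) : Prop where
  fg : M.FG
  st : ∀ u ∈ M, δ u ∈ M
  dz : Dz δ (M.restrictScalars ℂ)
  den : ∀ u : U, ∃ s : K, s ∈ S ∧ s ≠ 0 ∧ s • u ∈ M

/-- a perfect pairing of degree zero -/
structure Pr (E : DD K) (δ : End ℂ U) (δ' : End ℂ W) (b : U →ₗ[K] W →ₗ[K] K) : Prop where
  cu : Cn E δ
  cw : Cn E δ'
  fu : FiniteDimensional K U
  fw : FiniteDimensional K W
  left : ∀ u, (∀ w, b u w = 0) → u = 0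
  right : ∀ w, (∀ u, b u w = 0) → w = 0
  leib : ∀ u w, E (b u w) = b (δ u) w + b u (δ' w)

/-- the dual lattice -/
def dl (S : Subalgebra ℂ K) (b : U →ₗ[K] W →ₗ[K] K) (M : Submodule S U) : Submodule S W where
  carrier := {w | ∀ u ∈ M, b u w ∈ S}
  add_mem' h h' u hu := by rw [map_add]; exact add_mem (h u hu) (h' u hu)
  zero_mem' u _ := by rw [map_zero]; exact zero_mem S
  smul_mem' s w h u hu := by
    rw [show s • w = (s : K) • w from rfl, map_smul]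
    exact mul_mem s.2 (h u hu)

/-- the annihilator -/
def an (b : U →ₗ[K] W →ₗ[K] K) (V : Submodule K W) : Submodule K U where
  carrier := {u | ∀ w ∈ V, b u w = 0}
  add_mem' h h' w hw := by rw [map_add, LinearMap.add_apply, h w hw, h' w hw, add_zero]
  zero_mem' w _ := by rw [map_zero, LinearMap.zero_apply]
  smul_mem' s u h w hw := by rw [map_smul, LinearMap.smul_apply, h w hw, smul_zero]

/-- Hilbert series of a module over `S` -/
abbrev hm {S : Subalgebra ℂ K} (δ : End ℂ U) (M : Submodule S U) (t : ℝ) : ℝ :=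
  hilb δ (M.restrictScalars ℂ) t

/-- Hilbert series of `S` -/
abbrev hs (S : Subalgebra ℂ K) (E : DD K) (t : ℝ) : ℝ := hilb (op E) (SC S) t

/-- an ideal inside the field -/
abbrev idl {S : Subalgebra ℂ K} (P : Ideal S) : Submodule S K :=
  Submodule.map (Algebra.linearMap S K) P

theorem Pr.flip {E : DD K} {δ : End ℂ U} {δ' : End ℂ W} {b : U →ₗ[K] W →ₗ[K] K}
    (h : Pr E δ δ' b) : Pr E δ' δ b.flip :=
  ⟨h.cw, h.cu, h.fw, h.fu, h.right, h.left, fun w u => (h.leib u w).trans (add_comm _ _)⟩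

end Defs

/-- left neighbourhoods of `1` -/
abbrev L1 : Filter ℝ := nhdsWithin (1 : ℝ) (Set.Iio 1)

/-- HSQ: an injection of subquotients -/
def S_HSQ : Prop := ∀ (U W : Type) [AddCommGroup U] [Module ℂ U] [AddCommGroup W] [Module ℂ W]
  (δ : End ℂ U) (δ' : End ℂ W) (H₀ H : Submodule ℂ U) (G₀ G : Submodule ℂ W) (f : U →ₗ[ℂ] W)
  (l : ℤ) (t : ℝ), H₀ ≤ H → G₀ ≤ G → (∀ u ∈ H, f u ∈ G) → (∀ u ∈ H, f u ∈ G₀ → u ∈ H₀) →
  (∀ u, δ' (f u) = f (δ u) + (l : ℂ) • f u) → Fd δ H → Fd δ' G → 0 < t → Smb δ H t →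
  Smb δ' G t → t ^ l * (hilb δ H t - hilb δ H₀ t) ≤ hilb δ' G t - hilb δ' G₀ t

/-- LAT: finiteness for lattices -/
def S_LAT : Prop := ∀ (K ι U : Type) [Field K] [Algebra ℂ K] [Fintype ι] [AddCommGroup U]
  [Module K U] [Module ℂ U] [IsScalarTower ℂ K U] (S : Subalgebra ℂ K) (E : DD K) (x : ι → K)
  (a : ι → ℕ) (δ : End ℂ U) (M : Submodule S U), Cone S E x a → Cn E δ → Lat S δ M →
  Fd δ (M.restrictScalars ℂ) ∧ ∀ t : ℝ, 0 < t → t < 1 → Smb δ (M.restrictScalars ℂ) t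

/-- DLT: the dual of a lattice is a lattice -/
def S_DLT : Prop := ∀ (K ι U W : Type) [Field K] [Algebra ℂ K] [Fintype ι] [AddCommGroup U]
  [Module K U] [Module ℂ U] [IsScalarTower ℂ K U] [AddCommGroup W] [Module K W] [Module ℂ W]
  [IsScalarTower ℂ K W] (S : Subalgebra ℂ K) (E : DD K) (x : ι → K) (a : ι → ℕ) (δ : End ℂ U)
  (δ' : End ℂ W) (b : U →ₗ[K] W →ₗ[K] K) (M : Submodule S U), Cone S E x a → Pr E δ δ' b →
  Lat S δ M → Lat S δ' (dl S b M)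

/-- PINV: the inverse of a graded prime -/
def S_PINV : Prop := ∀ (K ι : Type) [Field K] [Algebra ℂ K] [Fintype ι] (S : Subalgebra ℂ K)
  (E : DD K) (x : ι → K) (a : ι → ℕ) (P : Ideal S), Cone S E x a → Nrm S → P.IsPrime → P ≠ ⊥ →
  (∀ g ∈ P, In P (E g)) → Lat S (op E) (idl P) ∧ ∃ c : ℕ, ∀ t : ℝ, 0 < t → t < 1 →
    t ^ c * (hm (op E) (dl S (LinearMap.mul K K) (idl P)) t - hs S E t) ≤
        hs S E t - hm (op E) (idl P) t ∧
      0 ≤ hs S E t - hm (op E) (idl P) t ∧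
      hs S E t - hm (op E) (idl P) t ≤ c * (1 - t) * hs S E t

/-- DST: one step -/
def S_DST : Prop := ∀ (K ι U W : Type) [Field K] [Algebra ℂ K] [Fintype ι] [AddCommGroup U]
  [Module K U] [Module ℂ U] [IsScalarTower ℂ K U] [AddCommGroup W] [Module K W] [Module ℂ W]
  [IsScalarTower ℂ K W] (S : Subalgebra ℂ K) (E : DD K) (x : ι → K) (a : ι → ℕ) (δ : End ℂ U)
  (δ' : End ℂ W) (b : U →ₗ[K] W →ₗ[K] K) (M : Submodule S U) (m : U) (d : ℤ) (P : Ideal S),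
  Cone S E x a → Nrm S → Pr E δ δ' b → Lat S δ M → δ m = (d : ℂ) • m → P.IsPrime →
  (∀ g : S, g • m ∈ M ↔ g ∈ P) → Lat S δ (M ⊔ Submodule.span S {m}) ∧ ∀ ε : ℝ, 0 < ε →
    ∀ᶠ t in L1, hm δ' (dl S b M) t - hm δ' (dl S b (M ⊔ Submodule.span S {m})) t ≤
      hm δ (M ⊔ Submodule.span S {m}) t - hm δ M t + ε * (1 - t) * hs S E t

/-- DCH: a chain of steps -/
def S_DCH : Prop := ∀ (K ι U W : Type) [Field K] [Algebra ℂ K] [Fintype ι] [AddCommGroup U]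
  [Module K U] [Module ℂ U] [IsScalarTower ℂ K U] [AddCommGroup W] [Module K W] [Module ℂ W]
  [IsScalarTower ℂ K W] (S : Subalgebra ℂ K) (E : DD K) (x : ι → K) (a : ι → ℕ) (δ : End ℂ U)
  (δ' : End ℂ W) (b : U →ₗ[K] W →ₗ[K] K) (F M : Submodule S U), Cone S E x a → Nrm S →
  Pr E δ δ' b → Lat S δ F → Lat S δ M → F ≤ M → ∀ ε : ℝ, 0 < ε → ∀ᶠ t in L1,
    hm δ' (dl S b F) t - hm δ' (dl S b M) t ≤ hm δ M t - hm δ F t + ε * (1 - t) * hs S E t

/-- HFR: free lattices -/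
def S_HFR : Prop := ∀ (K ι U κ : Type) [Field K] [Algebra ℂ K] [Fintype ι] [AddCommGroup U]
  [Module K U] [Module ℂ U] [IsScalarTower ℂ K U] [Fintype κ] (S : Subalgebra ℂ K) (E : DD K)
  (x : ι → K) (a : ι → ℕ) (δ : End ℂ U) (e : Basis κ K U) (d : κ → ℤ), Cone S E x a → Cn E δ →
  (∀ i, δ (e i) = (d i : ℂ) • e i) → Lat S δ (Submodule.span S (Set.range e)) ∧
    ∀ t : ℝ, 0 < t → t < 1 →
      hm δ (Submodule.span S (Set.range e)) t = (∑ i, t ^ d i) * hs S E t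

/-- DFR: a free lattice inside a lattice -/
def S_DFR : Prop := ∀ (K ι U W : Type) [Field K] [Algebra ℂ K] [Fintype ι] [AddCommGroup U]
  [Module K U] [Module ℂ U] [IsScalarTower ℂ K U] [AddCommGroup W] [Module K W] [Module ℂ W]
  [IsScalarTower ℂ K W] (S : Subalgebra ℂ K) (E : DD K) (x : ι → K) (a : ι → ℕ) (δ : End ℂ U)
  (δ' : End ℂ W) (b : U →ₗ[K] W →ₗ[K] K) (M : Submodule S U), Cone S E x a → Pr E δ δ' b →
  Lat S δ M → ∃ F ≤ M, Lat S δ F ∧ dl S b.flip (dl S b F) = F ∧ ∀ ε : ℝ, 0 < ε → ∀ᶠ t in L1,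
    |hm δ F t + hm δ' (dl S b F) t - 2 * finrank K W * hs S E t| ≤ ε * (1 - t) * hs S E t

/-- DDU: a lattice and its dual -/
def S_DDU : Prop := ∀ (K ι U W : Type) [Field K] [Algebra ℂ K] [Fintype ι] [AddCommGroup U]
  [Module K U] [Module ℂ U] [IsScalarTower ℂ K U] [AddCommGroup W] [Module K W] [Module ℂ W]
  [IsScalarTower ℂ K W] (S : Subalgebra ℂ K) (E : DD K) (x : ι → K) (a : ι → ℕ) (δ : End ℂ U)
  (δ' : End ℂ W) (b : U →ₗ[K] W →ₗ[K] K) (M : Submodule S U), Cone S E x a → Nrm S →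
  Pr E δ δ' b → Lat S δ M → ∀ ε : ℝ, 0 < ε → ∀ᶠ t in L1,
    |hm δ M t + hm δ' (dl S b M) t - 2 * finrank K W * hs S E t| ≤ ε * (1 - t) * hs S E t

/-- DSQ: a quotient of a lattice and the dual submodule -/
def S_DSQ : Prop := ∀ (K ι U W : Type) [Field K] [Algebra ℂ K] [Fintype ι] [AddCommGroup U]
  [Module K U] [Module ℂ U] [IsScalarTower ℂ K U] [AddCommGroup W] [Module K W] [Module ℂ W]
  [IsScalarTower ℂ K W] (S : Subalgebra ℂ K) (E : DD K) (x : ι → K) (a : ι → ℕ) (δ : End ℂ U)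
  (δ' : End ℂ W) (b : U →ₗ[K] W →ₗ[K] K) (M : Submodule S U) (V : Submodule K W), Cone S E x a →
  Nrm S → Pr E δ δ' b → Lat S δ M → (∀ w ∈ V, δ' w ∈ V) → ∀ ε : ℝ, 0 < ε → ∀ᶠ t in L1,
    |hm δ M t - hm δ (M ⊓ (an b V).restrictScalars S) t +
        hm δ' (dl S b M ⊓ V.restrictScalars S) t - 2 * finrank K V * hs S E t| ≤
      ε * (1 - t) * hs S E t

/-- DUP: submodules of the forms -/
def S_DUP : Prop := ∀ (K ι : Type) [Field K] [Algebra ℂ K] [Fintype ι] (S : Subalgebra ℂ K)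
  (E : DD K) (x : ι → K) (a : ι → ℕ) (α α' : ℝ), Cone S E x a → Nrm S → α' < α →
  Lo S E (ad E) (TT S) α → Up S E (ld E) (TD S) (-α')

/-- DLO: quotients of the forms -/
def S_DLO : Prop := ∀ (K ι : Type) [Field K] [Algebra ℂ K] [Fintype ι] (S : Subalgebra ℂ K)
  (E : DD K) (x : ι → K) (a : ι → ℕ) (β β' : ℝ), Cone S E x a → Nrm S → β < β' →
  Up S E (ad E) (TT S) β → Lo S E (ld E) (TD S) (-β')

/-- HSC: slopes of the fields give the two inequalities -/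
def S_HSC : Prop := ∀ (K ι : Type) [Field K] [Algebra ℂ K] [Fintype ι] (S : Subalgebra ℂ K)
  (E : DD K) (x : ι → K) (a : ι → ℕ) (α β : ℝ), Cone S E x a → Nrm S → 0 < α → β - α < 1 / 2 →
  SlopesIn S E (ad E) (TT S) α β → PosForms S E ∧ Balanced S E

end

end Pool.Agent.MP_51db15_ag.Qh
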