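import Pool.Agent.MP_51db15_ag.Qh.Spec

/-! PROJECT QH, row TNIL: an endomorphism whose powers have no trace is nilpotent. -/

namespace Pool.Agent.MP_51db15_ag.Qh

open Module Polynomial

theorem tnil : S_TNIL := by
  intro K M _ _ _ _ _ f hf
  have h1 : ∀ r : K[X], LinearMap.trace K M (aeval f (r * X)) = 0 := fun r => by
    induction r using Polynomial.induction_on' with
    | add p q hp hq => rw [add_mul, map_add, map_add, hp, hq, add_zero]
    | monomial n a =>
      rw [← C_mul_X_pow_eq_monomial, mul_assoc, ← pow_succ, map_mul, aeval_C, map_pow, aeval_X,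
        ← Algebra.smul_def, map_smul, hf, smul_zero]
  have h0 : minpoly K f ≠ 0 := minpoly.ne_zero (Algebra.IsIntegral.isIntegral f)
  obtain ⟨q, e1, e2⟩ := exists_eq_pow_rootMultiplicity_mul_and_not_dvd _ h0 0
  rw [map_zero, sub_zero] at e1 e2
  generalize rootMultiplicity 0 (minpoly K f) = k at e1
  obtain ⟨a, b, hab⟩ : IsCoprime ((X : K[X]) ^ (k + 1)) q :=
    ((irreducible_X.coprime_iff_not_dvd).2 e2).pow_left
  have hμ : ∀ r : K[X], aeval f (r * (X ^ k * q)) = 0 := fun r => by
    rw [← e1, map_mul, minpoly.aeval, mul_zero]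
  have h2 : IsIdempotentElem (aeval f (a * X ^ (k + 1))) := by
    have e : a * X ^ (k + 1) * (a * X ^ (k + 1)) =
        a * X ^ (k + 1) - a * b * X * (X ^ k * q) := by
      linear_combination (a * X ^ (k + 1)) * hab
    rw [IsIdempotentElem, ← map_mul, e, map_sub, hμ, sub_zero]
  have h3 : aeval f (a * X ^ (k + 1)) = 0 :=
    LinearMap.IsIdempotentElem.eq_zero_of_trace_eq_zero h2
      (by rw [pow_succ, ← mul_assoc]; exact h1 _)
  refine ⟨k, ?_⟩
  have e : (X : K[X]) ^ k = X ^ k * (a * X ^ (k + 1)) + b * (X ^ k * q) := by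
    linear_combination (-(X : K[X]) ^ k) * hab
  have h4 := congrArg (aeval f) e
  rwa [map_add, hμ, map_mul, h3, mul_zero, add_zero, map_pow, aeval_X] at h4

end Pool.Agent.MP_51db15_ag.Qh
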