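import Pool.Agent.MP_51db15_ag.Qh.Spec2
import Pool.Agent.MP_51db15_ag.Qh.VAL

/-! Row VAL2: the valuation of a grading, for forms regular along discrete valuations. -/

namespace Pool.Agent.MP_51db15_ag.Qh

open Module WithZero

namespace VAL2x

open VALx

variable {K : Type} [Field K]

theorem vexp (v : Valuation K ℤᵐ⁰) {y : K} (hy : y ≠ 0) : v y = exp (log (v y)) :=
  (exp_log (by simpa using hy)).symm

theorem mkdv (v : Valuation K ℤᵐ⁰) (h : ∃ y, y ≠ 0 ∧ v y ≠ 1) :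
    ∃ d : DV K, ∀ z, d.Ge 0 z ↔ v z ≤ 1 := by
  have n0 : ∀ {y : K}, y ≠ 0 → v y ≠ 0 := fun hy => by simpa using hy
  have om : ∀ x y : K, x ≠ 0 → y ≠ 0 → -log (v (x * y)) = -log (v x) + -log (v y) :=
    fun x y hx hy => by rw [map_mul, log_mul (n0 hx) (n0 hy)]; ring
  obtain ⟨e, ⟨e0, π, π0, hπ⟩, hmin⟩ := Int.exists_least_of_bdd
    (P := fun k => 0 < k ∧ ∃ y : K, y ≠ 0 ∧ -log (v y) = k) ⟨0, fun z hz => hz.1.le⟩ (by
      obtain ⟨y, y0, hy⟩ := h
      have k : log (v y) ≠ 0 := fun k => hy (by rw [vexp v y0, k, exp_zero])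
      rcases lt_or_gt_of_ne k with k | k
      · exact ⟨_, by omega, y, y0, rfl⟩
      · exact ⟨log (v y), k, y⁻¹, inv_ne_zero y0, by rw [map_inv₀, log_inv, neg_neg]⟩)
  have dv : ∀ y : K, y ≠ 0 → e * (-log (v y) / e) = -log (v y) := fun y y0 => by
    have z0 := zpow_ne_zero (-(-log (v y) / e)) π0
    have a := om y _ y0 z0
    rw [map_zpow₀, log_zpow, smul_eq_mul, show log (v π) = -e by omega] at a
    have b := Int.mul_ediv_add_emod (-log (v y)) e
    have c := Int.emod_nonneg (-log (v y)) e0.ne'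
    have d := Int.emod_lt_of_pos (-log (v y)) e0
    by_contra k
    have := hmin (-log (v y) % e) ⟨by omega, _, mul_ne_zero y0 z0, by rw [a]; linarith⟩
    omega
  refine ⟨⟨fun y => -log (v y) / e, fun x y hx hy => ?_, fun x y hx hy hs => ?_, π, π0, ?_⟩,
    fun z => ?_⟩
  · refine mul_left_cancel₀ e0.ne' ?_
    rw [mul_add, dv _ (mul_ne_zero hx hy), dv x hx, dv y hy, om x y hx hy]
  · rcases le_max_iff.1 (v.map_add x y) with k | k
    · rw [vexp v hs, vexp v hx, exp_le_exp] at k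
      exact (min_le_left _ _).trans (Int.ediv_le_ediv e0 (by omega))
    · rw [vexp v hs, vexp v hy, exp_le_exp] at k
      exact (min_le_right _ _).trans (Int.ediv_le_ediv e0 (by omega))
  · show -log (v π) / e = 1
    rw [hπ, Int.ediv_self e0.ne']
  · by_cases z0 : z = 0
    · simp [z0, DV.Ge]
    · rw [DV.ge_iff z0]
      show 0 ≤ -log (v z) / e ↔ _
      rw [Int.le_ediv_iff_mul_le e0, zero_mul]
      conv_rhs => rw [vexp v z0, ← exp_zero, exp_le_exp]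
      omega

variable [Algebra ℂ K] {S : Subalgebra ℂ K} {t : DD K} {v : Valuation K ℤᵐ⁰} {cf : ℤ → S →+ K}

theorem nrm (one : ∀ g : S, v g ≤ 1) (frac : ∀ y : K, ∃ g ∈ S, ∃ h ∈ S, h ≠ 0 ∧ y = g / h)
    {X : DD K} {i : ℤ} (hi : ∀ y, v y ≤ 1 → v (X y) ≤ exp (-i)) :
    X = 0 ∨ ∃ u : K, u ≠ 0 ∧ v u ≤ exp (-i) ∧ ∀ y, v y ≤ 1 → v ((u⁻¹ • X) y) ≤ 1 := by
  by_cases h : ∃ y, v y ≤ 1 ∧ X y ≠ 0
  · right
    obtain ⟨m, ⟨y, hy, y0, hm⟩, hmax⟩ := Int.exists_greatest_of_bdd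
      (P := fun k => ∃ y, v y ≤ 1 ∧ X y ≠ 0 ∧ log (v (X y)) = k)
      ⟨-i, by
        rintro z ⟨y, hy, y0, rfl⟩
        have := hi y hy
        rwa [vexp v y0, exp_le_exp] at this⟩
      (by obtain ⟨y, hy, y0⟩ := h; exact ⟨_, y, hy, y0, rfl⟩)
    refine ⟨X y, y0, hi y hy, fun z hz => ?_⟩
    rw [Derivation.smul_apply, smul_eq_mul]
    by_cases z0 : X z = 0
    · simp [z0]
    · have := hmax _ ⟨z, hz, z0, rfl⟩
      rw [map_mul, map_inv₀, vexp v y0, vexp v z0, ← exp_neg, ← exp_add, ← exp_zero, exp_le_exp]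
      omega
  · left
    have k : ∀ g ∈ S, X g = 0 := fun g hg => by
      by_contra c
      exact h ⟨g, one ⟨g, hg⟩, c⟩
    ext y
    obtain ⟨g, hg, l, hl, -, rfl⟩ := frac y
    simp [Derivation.leibniz_div, k g hg, k l hl]

theorem key (pk : Pk S t v cf) (frac : ∀ y : K, ∃ g ∈ S, ∃ h ∈ S, h ≠ 0 ∧ y = g / h) {d : DV K}
    (hd : ∀ z, d.Ge 0 z ↔ v z ≤ 1) {η : FF K} (hη : η ∈ RF S) {n : ℤ}
    (hn : lf t η = (n : ℂ) • η) (hk : Rdv S η) {X Y : DD K} (hX : X ∈ TT S) (hY : Y ∈ TT S)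
    {p q i j : ℤ} (hp : ⁅t, X⁆ = (p : ℂ) • X) (hq : ⁅t, Y⁆ = (q : ℂ) • Y)
    (hi : ∀ y, v y ≤ 1 → v (X y) ≤ exp (-i)) (hj : ∀ y, v y ≤ 1 → v (Y y) ≤ exp (-j))
    (h : n + p + q < i + j) : η X Y = 0 := by
  have e : t (η X Y) = ((n + p + q : ℤ) : ℂ) • η X Y := by
    have := lf_apply t η X Y
    rw [hn, hp, hq, lin_c, lin_c] at this
    simp only [LinearMap.smul_apply] at this
    push_cast
    rw [add_smul, add_smul, this]
    abel
  rcases nrm pk.one frac hi with rfl | ⟨u, u0, hu, hu'⟩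
  · simp
  rcases nrm pk.one frac hj with rfl | ⟨w, w0, hw, hw'⟩
  · simp
  have r := (hd _).1 (hk d (u⁻¹ • X) (w⁻¹ • Y) (fun z hz => (hd z).2 (pk.one ⟨z, hz⟩))
    (fun z hz => (hd _).2 (hu' z ((hd z).1 hz))) fun z hz => (hd _).2 (hw' z ((hd z).1 hz)))
  have b : v (η X Y) ≤ exp (-(i + j)) := by
    rw [show η X Y = u * w * η (u⁻¹ • X) (w⁻¹ • Y) by
      simp only [map_smul, LinearMap.smul_apply, smul_eq_mul]; field_simp]
    exact mul_le (j := 0) (mul_le hu hw le_rfl) (by simpa using r) (by omega)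
  have := (pk.le ⟨_, hη X hX Y hY⟩ _).1 b _ h
  rwa [pk.eig ⟨_, hη X hX Y hY⟩ _ e, if_pos rfl] at this

end VAL2x

open VALx in
theorem val2 (s : S_SCA) : S_VAL2 := by
  intro K ι _ _ _ S t x a cx bas ev η hη n hn hk
  obtain ⟨μ, hμ⟩ := s K ι S t x a cx bas ev
  obtain ⟨v, cf, pk⟩ := pack ev cx.frac μ hμ
  by_cases hv : ∃ y, y ≠ 0 ∧ v y ≠ 1
  · obtain ⟨d, hd⟩ := VAL2x.mkdv v hv
    refine ⟨fun h => span ev bas.den η fun X hX p hp => span ev bas.den _ fun Y hY q hq => ?_,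
      fun h => span ev bas.den _ fun Y hY q hq => ?_⟩
    · exact VAL2x.key pk cx.frac hd hη hn hk hX hY hp hq (fld ev pk cx.frac hX hp)
        (fld ev pk cx.frac hY hq) (by omega)
    · exact VAL2x.key pk cx.frac hd hη hn hk ev.tm hY (p := 0) (by simp) hq (fldt ev pk cx.frac)
        (fld ev pk cx.frac hY hq) (by omega)
  · have one : ∀ y : K, y ≠ 0 → v y = 1 := fun y hy => by
      by_contra c
      exact hv ⟨y, hy, c⟩
    have t0 : t = 0 := by
      ext y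
      by_contra c
      have le : v y ≤ 1 := by
        by_cases y0 : y = 0
        · simp [y0]
        · exact (one y y0).le
      have := fldt ev pk cx.frac y le
      rw [one _ c, ← exp_zero, exp_le_exp] at this
      omega
    subst t0
    refine ⟨fun h => ?_, fun _ => map_zero η⟩
    have z : lf (0 : DD K) η = 0 := by
      ext X Y
      simp [lf_apply]
    rw [z] at hn
    exact (smul_eq_zero.1 hn.symm).resolve_left (by exact_mod_cast h.ne)

end Pool.Agent.MP_51db15_ag.Qh
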