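import Pool.Agent.MP_51db15_ag.Qh.WB

/-! The weighted tangent cone and the weighted order filtration. -/

set_option linter.unusedSectionVars false

namespace Pool.Agent.MP_51db15_ag.Qh

open MvPowerSeries Hy Nc

namespace WCx

variable {ι R : Type} [Fintype ι] [CommRing R] [Algebra ℂ R] {a : ι → ℕ}

/-- the weighted order filtration -/
def fil (q : PS ι →ₐ[ℂ] R) (hq : Function.Surjective q) (a : ι → ℕ) (k : ℤ) : Ideal R where
  carrier := {r | ∃ g, Wo a k g ∧ q g = r}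
  zero_mem' := ⟨0, Wo.zero, map_zero _⟩
  add_mem' := by
    rintro _ _ ⟨g, hg, rfl⟩ ⟨h, hh, rfl⟩
    exact ⟨g + h, hg.add hh, map_add _ _ _⟩
  smul_mem' := by
    rintro c _ ⟨g, hg, rfl⟩
    obtain ⟨s, rfl⟩ := hq c
    exact ⟨s * g, hg.mul_left s, by rw [map_mul, smul_eq_mul]⟩

theorem mem_fil {q : PS ι →ₐ[ℂ] R} {hq : Function.Surjective q} {k : ℤ} {r : R} :
    r ∈ fil q hq a k ↔ ∃ g, Wo a k g ∧ q g = r := Iff.rfl

variable {q : PS ι →ₐ[ℂ] R} {hq : Function.Surjective q} {I : Ideal (PS ι)}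

theorem of_fil (hI : ∀ g, q g = 0 ↔ g ∈ I) {d : ℕ} {G : PP ι} (hG : G.IsWeightedHomogeneous a d)
    (h : q (G : PS ι) ∈ fil q hq a (d + 1)) : G ∈ wCone a I := by
  obtain ⟨g, hg, e⟩ := mem_fil.1 h
  refine Ideal.subset_span ⟨d, hG, (G : PS ι) - g, (hI _).1 (by rw [map_sub, e, sub_self]), ?_⟩
  rw [sub_sub_cancel_left]
  exact wo_succ.1 hg.neg

theorem to_fil (ha : ∀ i, 0 < a i) (hI : ∀ g, q g = 0 ↔ g ∈ I) {G : PP ι} (hG : G ∈ wCone a I) :
    ∀ (s : PS ι) (n : ℕ), q (wh a n ((G : PS ι) * s) : PS ι) ∈ fil q hq a (n + 1) := by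
  induction hG using Submodule.span_induction with
  | mem x hx =>
    obtain ⟨d, hd, f, hf, ho⟩ := hx
    intro s n
    rcases lt_or_ge n d with h3 | h3
    · rw [wh_hom_mul_lt ha hd h3, MvPolynomial.coe_zero, map_zero]
      exact zero_mem _
    · obtain ⟨k, rfl⟩ := Nat.exists_eq_add_of_le h3
      rw [wh_hom_mul ha hd, MvPolynomial.coe_mul]
      refine mem_fil.2 ⟨-(f - (x : PS ι)) * (wh a k s : PS ι), ?_, ?_⟩
      · exact ((wo_succ.2 ho).neg.mul (Wo.coe (wh_hom k s))).mono (by push_cast; omega)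
      · rw [map_mul, map_mul, map_neg, map_sub, (hI f).2 hf, zero_sub, neg_neg]
  | zero =>
    intro s n
    rw [MvPolynomial.coe_zero, zero_mul, wh_zero, MvPolynomial.coe_zero, map_zero]
    exact zero_mem _
  | add x y _ _ hx hy =>
    intro s n
    rw [MvPolynomial.coe_add, add_mul, wh_add, MvPolynomial.coe_add, map_add]
    exact add_mem (hx s n) (hy s n)
  | smul c x _ hx =>
    intro s n
    rw [smul_eq_mul, MvPolynomial.coe_mul, mul_comm (c : PS ι), mul_assoc]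
    exact hx _ n

end WCx

theorem wc : S_WC := by
  intro ι K _ _ _ _ a I φ ha hφ
  have hq : Function.Surjective (Ideal.Quotient.mkₐ ℂ I) := Ideal.Quotient.mkₐ_surjective ℂ I
  have hI : ∀ g, Ideal.Quotient.mkₐ ℂ I g = 0 ↔ g ∈ I := fun g => Ideal.Quotient.eq_zero_iff_mem
  have hk : ∀ G, φ G = 0 ↔ G ∈ wCone a I := fun G => by rw [← hφ, RingHom.mem_ker]
  refine ⟨WCx.fil _ hq a, ⟨_, hq, rfl⟩, ha, fun g hg n => (hk _).2 (WCx.of_fil (hq := hq) hI
    (MvPolynomial.weightedHomogeneousComponent_isWeightedHomogeneous n g) ?_),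
    fun d G hG => ⟨fun h => ?_, fun h => (hk _).2 (WCx.of_fil hI hG h)⟩, fun _ _ => Iff.rfl⟩
  · have h3 := WCx.to_fil (hq := hq) ha hI ((hk _).1 hg) 1 n
    rwa [mul_one, wh_coe ha] at h3
  · have h4 := WCx.to_fil (hq := hq) ha hI ((hk _).1 h) 1 d
    rwa [mul_one, wh_coe_self ha hG] at h4

end Pool.Agent.MP_51db15_ag.Qh
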